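import Pool.Agent.Lib.MP_9ff3e7_ag.F.HDefs

/-! Calculus for `dbar` and `levi`, part A: second derivatives along a vector, chain rules. -/

set_option autoImplicit false

namespace Pool.Agent.Lib.MP_9ff3e7_ag.F

open Complex Filter Topology

namespace Lv

section general

variable {E F G : Type*} [NormedAddCommGroup E] [NormedSpace ℝ E] [NormedAddCommGroup F]
  [NormedSpace ℝ F] [NormedAddCommGroup G] [NormedSpace ℝ G]

theorem diffAt_fderiv {f : E → F} {x : E} (hf : ContDiffAt ℝ 2 f x) :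
    DifferentiableAt ℝ (fderiv ℝ f) x :=
  (hf.fderiv_right (m := 1) (by norm_num)).differentiableAt (by norm_num)

theorem ev_diffAt {f : E → F} {x : E} (hf : ContDiffAt ℝ 2 f x) :
    ∀ᶠ y in 𝓝 x, DifferentiableAt ℝ f y :=
  (hf.eventually (by norm_num)).mono fun _ h => h.differentiableAt (by norm_num)

theorem d2_eq {f : E → F} {x : E} (hf : DifferentiableAt ℝ (fderiv ℝ f) x) (v w : E) :
    fderiv ℝ (fderiv ℝ f) x v w = fderiv ℝ (fun y => fderiv ℝ f y w) x v := by
  rw [fderiv_clm_apply hf (differentiableAt_const w)]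
  simp

/-- chain rule for second derivatives -/
theorem d2_comp {g : F → G} {f : E → F} {x : E} (hg : ContDiffAt ℝ 2 g (f x))
    (hf : ContDiffAt ℝ 2 f x) (v w : E) :
    fderiv ℝ (fderiv ℝ (fun y => g (f y))) x v w =
      fderiv ℝ (fderiv ℝ g) (f x) (fderiv ℝ f x v) (fderiv ℝ f x w) +
        fderiv ℝ g (f x) (fderiv ℝ (fderiv ℝ f) x v w) := by
  have f1 : DifferentiableAt ℝ f x := hf.differentiableAt (by norm_num)
  have e : fderiv ℝ (fun y => g (f y)) =ᶠ[𝓝 x]
      fun y => (fderiv ℝ g (f y)).comp (fderiv ℝ f y) := by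
    filter_upwards [ev_diffAt hf, f1.continuousAt.eventually (ev_diffAt hg)] with y h1 h2
    exact fderiv_comp y h2 h1
  have d1 : DifferentiableAt ℝ (fun y => fderiv ℝ g (f y)) x :=
    (diffAt_fderiv hg).comp x f1
  rw [e.fderiv_eq, fderiv_clm_comp d1 (diffAt_fderiv hf)]
  have c : fderiv ℝ (fun y => fderiv ℝ g (f y)) x =
      (fderiv ℝ (fderiv ℝ g) (f x)).comp (fderiv ℝ f x) :=
    fderiv_comp x (diffAt_fderiv hg) f1
  simp [c, add_comm]

theorem d2_add {f g : E → F} {x : E} (hf : ContDiffAt ℝ 2 f x) (hg : ContDiffAt ℝ 2 g x) :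
    fderiv ℝ (fderiv ℝ (fun y => f y + g y)) x =
      fderiv ℝ (fderiv ℝ f) x + fderiv ℝ (fderiv ℝ g) x := by
  have e : fderiv ℝ (fun y => f y + g y) =ᶠ[𝓝 x] fun y => fderiv ℝ f y + fderiv ℝ g y := by
    filter_upwards [ev_diffAt hf, ev_diffAt hg] with y h1 h2
    exact fderiv_fun_add h1 h2
  rw [e.fderiv_eq, fderiv_fun_add (diffAt_fderiv hf) (diffAt_fderiv hg)]

theorem d2_congr {f g : E → F} {x : E} (h : f =ᶠ[𝓝 x] g) :
    fderiv ℝ (fderiv ℝ f) x = fderiv ℝ (fderiv ℝ g) x :=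
  h.fderiv.fderiv_eq

theorem d2_real {χ : ℝ → F} {a : ℝ} (hχ : ContDiffAt ℝ 2 χ a) (s t : ℝ) :
    fderiv ℝ (fderiv ℝ χ) a s t = (s * t) • deriv (deriv χ) a := by
  rw [d2_eq (diffAt_fderiv hχ)]
  have e : (fun y => fderiv ℝ χ y t) = fun y => t • deriv χ y := by
    funext y
    rw [← fderiv_apply_one_eq_deriv, ← map_smul]
    simp
  have d : DifferentiableAt ℝ (deriv χ) a := by
    have : deriv χ = fun y => fderiv ℝ χ y 1 := rfl
    rw [this]
    exact (diffAt_fderiv hχ).clm_apply (differentiableAt_const _)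
  rw [e, fderiv_fun_const_smul d]
  have : fderiv ℝ (deriv χ) a s = s • deriv (deriv χ) a := by
    rw [← fderiv_apply_one_eq_deriv, ← map_smul]
    simp
  simp [this, smul_smul, mul_comm]

end general

section holo

variable {E F : Type*} [NormedAddCommGroup E] [NormedSpace ℂ E] [NormedAddCommGroup F]
  [NormedSpace ℂ F]

theorem fderiv_real_apply {f : E → F} {x : E} (hf : DifferentiableAt ℂ f x) (v : E) :
    fderiv ℝ f x v = fderiv ℂ f x v := by
  rw [hf.fderiv_restrictScalars ℝ]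
  rfl

theorem d2_holo {f : E → F} {x : E} (hf : ContDiffAt ℂ 2 f x) (v w : E) :
    fderiv ℝ (fderiv ℝ f) x v w = fderiv ℂ (fderiv ℂ f) x v w := by
  have r : ContDiffAt ℝ 2 f x := hf.restrict_scalars ℝ
  have dc : DifferentiableAt ℂ (fderiv ℂ f) x :=
    (hf.fderiv_right (m := 1) (by norm_num)).differentiableAt (by norm_num)
  rw [d2_eq (diffAt_fderiv r)]
  have e : (fun y => fderiv ℝ f y w) =ᶠ[𝓝 x] fun y => fderiv ℂ f y w := by
    filter_upwards [hf.eventually (by norm_num)] with y h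
    exact fderiv_real_apply (h.differentiableAt (by norm_num)) w
  rw [e.fderiv_eq, fderiv_real_apply (dc.clm_apply (differentiableAt_const w)),
    fderiv_clm_apply dc (differentiableAt_const w)]
  simp

theorem d2_holo_I {f : E → F} {x : E} (hf : ContDiffAt ℂ 2 f x) (v : E) :
    fderiv ℝ (fderiv ℝ f) x (I • v) (I • v) = -fderiv ℝ (fderiv ℝ f) x v v := by
  rw [d2_holo hf, d2_holo hf]
  simp [smul_smul]

end holo

end Lv

end Pool.Agent.Lib.MP_9ff3e7_ag.F
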