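import Pool.Agent.Lib.MP_9ff3e7_ag.F.HOps
import Pool.Agent.Lib.MP_9ff3e7_ag.F.LeviA

/-! Calculus for `dz`, `dzb`: smoothness, supports, product rules, conjugation, commutation,
integration by parts, and `dbar`, `levi` in coordinates. -/

set_option autoImplicit false

namespace Pool.Agent.Lib.MP_9ff3e7_ag.F

open Complex MeasureTheory
open scoped ContDiff ComplexConjugate

noncomputable section

namespace HC

variable {ι : Type} [Fintype ι]

theorem pd_smooth {f : (ι → ℂ) → ℂ} (hf : ContDiff ℝ ∞ f) (w : ι → ℂ) :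
    ContDiff ℝ ∞ fun x => fderiv ℝ f x w :=
  (hf.fderiv_right (m := ∞) (by norm_cast)).clm_apply contDiff_const

theorem pd_cont {f : (ι → ℂ) → ℂ} (hf : ContDiff ℝ 1 f) (w : ι → ℂ) :
    Continuous fun x => fderiv ℝ f x w :=
  (hf.continuous_fderiv (by simp)).clm_apply continuous_const

theorem int_pd {u : (ι → ℂ) → ℂ} (hu : ContDiff ℝ 1 u) (hc : HasCompactSupport u) (w : ι → ℂ) :
    ∫ x, fderiv ℝ u x w = 0 := by
  have h := integral_mul_fderiv_eq_neg_fderiv_mul_of_integrable (μ := volume)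
    (f := fun _ : ι → ℂ => (1 : ℂ)) (g := u) (v := w) (by simp)
    (by simpa using (pd_cont hu w).integrable_of_hasCompactSupport (hc.fderiv_apply ℝ w))
    (by simpa using hu.continuous.integrable_of_hasCompactSupport hc)
    (fun _ _ => differentiableAt_const _) (fun x _ => hu.differentiable (by simp) x)
  simpa using h

theorem pd_conj {f : (ι → ℂ) → ℂ} {x : ι → ℂ} (hf : DifferentiableAt ℝ f x) (w : ι → ℂ) :
    fderiv ℝ (fun y => conj (f y)) x w = conj (fderiv ℝ f x w) := by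
  have e : fderiv ℝ (fun y => conj (f y)) x = (conjCLE : ℂ →L[ℝ] ℂ).comp (fderiv ℝ f x) :=
    ((conjCLE : ℂ →L[ℝ] ℂ).hasFDerivAt.comp x hf.hasFDerivAt).fderiv
  rw [e]
  simp

theorem pd_comm {f : (ι → ℂ) → ℂ} {x : ι → ℂ} (hf : ContDiffAt ℝ 2 f x) (v w : ι → ℂ) :
    fderiv ℝ (fun y => fderiv ℝ f y w) x v = fderiv ℝ (fun y => fderiv ℝ f y v) x w := by
  rw [← Lv.d2_eq (Lv.diffAt_fderiv hf), ← Lv.d2_eq (Lv.diffAt_fderiv hf)]
  exact (hf.isSymmSndFDerivAt (by simp)).eq v w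

theorem pd_ofReal {φ : (ι → ℂ) → ℝ} {x : ι → ℂ} (hφ : DifferentiableAt ℝ φ x) (w : ι → ℂ) :
    fderiv ℝ (fun y => (φ y : ℂ)) x w = (fderiv ℝ φ x w : ℝ) := by
  have e : fderiv ℝ (fun y => (φ y : ℂ)) x = ofRealCLM.comp (fderiv ℝ φ x) :=
    (ofRealCLM.hasFDerivAt.comp x hφ.hasFDerivAt).fderiv
  rw [e]
  simp

theorem smooth_ofReal {φ : (ι → ℂ) → ℝ} (hφ : ContDiff ℝ ∞ φ) :
    ContDiff ℝ ∞ fun y => (φ y : ℂ) :=
  ofRealCLM.contDiff.comp hφ

theorem smooth_conj {f : (ι → ℂ) → ℂ} (hf : ContDiff ℝ ∞ f) :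
    ContDiff ℝ ∞ fun y => conj (f y) :=
  (conjCLE : ℂ →L[ℝ] ℂ).contDiff.comp hf

theorem supp_conj {f : (ι → ℂ) → ℂ} (hc : HasCompactSupport f) :
    HasCompactSupport fun y => conj (f y) :=
  hc.comp_left (g := fun z : ℂ => conj z) (map_zero _)

/-- the weight `e^{-φ}` is smooth -/
theorem smooth_wt {φ : (ι → ℂ) → ℝ} (hφ : ContDiff ℝ ∞ φ) :
    ContDiff ℝ ∞ fun y => (Real.exp (-φ y) : ℂ) :=
  smooth_ofReal (φ := fun y => Real.exp (-φ y)) hφ.neg.exp

theorem pd_wt {φ : (ι → ℂ) → ℝ} {x : ι → ℂ} (hφ : DifferentiableAt ℝ φ x) (w : ι → ℂ) :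
    fderiv ℝ (fun y => (Real.exp (-φ y) : ℂ)) x w =
      -(fderiv ℝ (fun y => (φ y : ℂ)) x w * (Real.exp (-φ x) : ℂ)) := by
  rw [pd_ofReal (φ := fun y => Real.exp (-φ y)) hφ.neg.exp, pd_ofReal hφ,
    (hφ.hasFDerivAt.fun_neg.exp).fderiv]
  simp [mul_comm]

variable [DecidableEq ι]

/-- `dz` is `op (-I)`, `dzb` is `op I` -/
def op (c : ℂ) (j : ι) (f : (ι → ℂ) → ℂ) (x : ι → ℂ) : ℂ :=
  (fderiv ℝ f x (Pi.single j 1) + c * fderiv ℝ f x (Pi.single j I)) / 2

theorem dz_eq (j : ι) (f : (ι → ℂ) → ℂ) : dz j f = op (-I) j f := by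
  funext x
  simp only [dz, op]
  ring

theorem dzb_eq (j : ι) (f : (ι → ℂ) → ℂ) : dzb j f = op I j f := rfl

theorem op_smooth (c : ℂ) (j : ι) {f : (ι → ℂ) → ℂ} (hf : ContDiff ℝ ∞ f) :
    ContDiff ℝ ∞ (op c j f) :=
  ((pd_smooth hf _).add (contDiff_const.mul (pd_smooth hf _))).div_const 2

theorem op_cont (c : ℂ) (j : ι) {f : (ι → ℂ) → ℂ} (hf : ContDiff ℝ 1 f) :
    Continuous (op c j f) :=
  ((pd_cont hf _).add (continuous_const.mul (pd_cont hf _))).div_const 2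

theorem op_supp (c : ℂ) (j : ι) {f : (ι → ℂ) → ℂ} (hc : HasCompactSupport f) :
    HasCompactSupport (op c j f) := by
  refine HasCompactSupport.intro (hc.fderiv ℝ) fun x hx => ?_
  simp [op, image_eq_zero_of_notMem_tsupport hx]

theorem op_int (c : ℂ) (j : ι) {u : (ι → ℂ) → ℂ} (hu : ContDiff ℝ 1 u)
    (hc : HasCompactSupport u) : ∫ x, op c j u x = 0 := by
  have i := fun w => (pd_cont hu w).integrable_of_hasCompactSupport (μ := volume)
    (hc.fderiv_apply ℝ w)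
  simp only [op]
  rw [integral_div, integral_add (i _) ((i _).const_mul c), integral_const_mul, int_pd hu hc,
    int_pd hu hc]
  simp

theorem op_add (c : ℂ) (j : ι) {f g : (ι → ℂ) → ℂ} {x : ι → ℂ} (hf : DifferentiableAt ℝ f x)
    (hg : DifferentiableAt ℝ g x) :
    op c j (fun y => f y + g y) x = op c j f x + op c j g x := by
  simp only [op, fderiv_fun_add hf hg, add_apply]
  ring

theorem op_sub (c : ℂ) (j : ι) {f g : (ι → ℂ) → ℂ} {x : ι → ℂ} (hf : DifferentiableAt ℝ f x)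
    (hg : DifferentiableAt ℝ g x) :
    op c j (fun y => f y - g y) x = op c j f x - op c j g x := by
  simp only [op, fderiv_fun_sub hf hg, sub_apply]
  ring

theorem op_mul (c : ℂ) (j : ι) {f g : (ι → ℂ) → ℂ} {x : ι → ℂ} (hf : DifferentiableAt ℝ f x)
    (hg : DifferentiableAt ℝ g x) :
    op c j (fun y => f y * g y) x = op c j f x * g x + f x * op c j g x := by
  simp only [op, fderiv_fun_mul hf hg, add_apply,
    smul_apply, smul_eq_mul]
  ring

theorem op_const (c : ℂ) (j : ι) (a : ℂ) (x : ι → ℂ) : op c j (fun _ => a) x = 0 := by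
  simp [op]

theorem op_sum (c : ℂ) (j : ι) {α : Type*} (s : Finset α) {f : α → (ι → ℂ) → ℂ} {x : ι → ℂ}
    (hf : ∀ a ∈ s, DifferentiableAt ℝ (f a) x) :
    op c j (fun y => ∑ a ∈ s, f a y) x = ∑ a ∈ s, op c j (f a) x := by
  simp only [op, fderiv_fun_sum hf, sum_apply, Finset.mul_sum,
    ← Finset.sum_add_distrib, Finset.sum_div]

theorem op_conj (c : ℂ) (j : ι) {f : (ι → ℂ) → ℂ} {x : ι → ℂ} (hf : DifferentiableAt ℝ f x) :
    op c j (fun y => conj (f y)) x = conj (op (conj c) j f x) := by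
  simp only [op, pd_conj hf, map_div₀, map_add, map_mul, conj_conj, map_ofNat]

theorem op_wt (c : ℂ) (j : ι) {φ : (ι → ℂ) → ℝ} {x : ι → ℂ} (hφ : DifferentiableAt ℝ φ x) :
    op c j (fun y => (Real.exp (-φ y) : ℂ)) x =
      -(op c j (fun y => (φ y : ℂ)) x * (Real.exp (-φ x) : ℂ)) := by
  simp only [op, pd_wt hφ]
  ring

theorem pd_op (c : ℂ) (j : ι) {f : (ι → ℂ) → ℂ} {x : ι → ℂ} (hf : ContDiffAt ℝ 2 f x)
    (w : ι → ℂ) : fderiv ℝ (op c j f) x w =
      (fderiv ℝ (fun y => fderiv ℝ f y (Pi.single j 1)) x w +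
        c * fderiv ℝ (fun y => fderiv ℝ f y (Pi.single j I)) x w) / 2 := by
  have d : ∀ v, DifferentiableAt ℝ (fun y => fderiv ℝ f y v) x := fun v =>
    (Lv.diffAt_fderiv hf).clm_apply (differentiableAt_const v)
  have h := (((d (Pi.single j 1)).hasFDerivAt.fun_add
    ((d (Pi.single j I)).hasFDerivAt.const_mul c)).const_mul (1 / 2 : ℂ)).fderiv
  have e : op c j f = fun y => (1 / 2 : ℂ) *
      (fderiv ℝ f y (Pi.single j 1) + c * fderiv ℝ f y (Pi.single j I)) := by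
    funext y
    simp only [op]
    ring
  rw [e, h]
  simp only [add_apply, smul_apply, smul_eq_mul]
  ring

theorem op_comm (c d : ℂ) (j k : ι) {f : (ι → ℂ) → ℂ} {x : ι → ℂ} (hf : ContDiffAt ℝ 2 f x) :
    op c j (op d k f) x = op d k (op c j f) x := by
  rw [op, op, pd_op d k hf, pd_op d k hf, pd_op c j hf, pd_op c j hf,
    pd_comm hf (Pi.single j 1) (Pi.single k 1), pd_comm hf (Pi.single j 1) (Pi.single k I),
    pd_comm hf (Pi.single j I) (Pi.single k 1), pd_comm hf (Pi.single j I) (Pi.single k I)]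
  ring

theorem vec_eq (ξ : ι → ℂ) :
    ξ = ∑ j, ((ξ j).re • (Pi.single j 1 : ι → ℂ) + (ξ j).im • (Pi.single j I : ι → ℂ)) := by
  funext i
  rw [Finset.sum_apply, Finset.sum_eq_single i]
  · simp
  · intro j _ h
    simp [Pi.single_eq_of_ne h.symm]
  · simp

theorem clm_eq {G : Type*} [NormedAddCommGroup G] [NormedSpace ℝ G] (L : (ι → ℂ) →L[ℝ] G)
    (ξ : ι → ℂ) :
    L ξ = ∑ j, ((ξ j).re • L (Pi.single j 1) + (ξ j).im • L (Pi.single j I)) := by
  conv_lhs => rw [vec_eq ξ]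
  simp only [map_sum, map_add, map_smul]

end HC

open HC

variable {ι : Type} [Fintype ι] [DecidableEq ι]

theorem dz_smooth (j : ι) {f : (ι → ℂ) → ℂ} (hf : ContDiff ℝ ∞ f) : ContDiff ℝ ∞ (dz j f) := by
  rw [dz_eq]; exact op_smooth _ j hf

theorem dzb_smooth (j : ι) {f : (ι → ℂ) → ℂ} (hf : ContDiff ℝ ∞ f) : ContDiff ℝ ∞ (dzb j f) :=
  op_smooth _ j hf

theorem dz_cont (j : ι) {f : (ι → ℂ) → ℂ} (hf : ContDiff ℝ 1 f) : Continuous (dz j f) := by
  rw [dz_eq]; exact op_cont _ j hf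

theorem dzb_cont (j : ι) {f : (ι → ℂ) → ℂ} (hf : ContDiff ℝ 1 f) : Continuous (dzb j f) :=
  op_cont _ j hf

theorem dz_supp (j : ι) {f : (ι → ℂ) → ℂ} (hc : HasCompactSupport f) :
    HasCompactSupport (dz j f) := by
  rw [dz_eq]; exact op_supp _ j hc

theorem dzb_supp (j : ι) {f : (ι → ℂ) → ℂ} (hc : HasCompactSupport f) :
    HasCompactSupport (dzb j f) :=
  op_supp _ j hc

theorem integral_dz (j : ι) {u : (ι → ℂ) → ℂ} (hu : ContDiff ℝ 1 u) (hc : HasCompactSupport u) :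
    ∫ x, dz j u x = 0 := by
  rw [dz_eq]; exact op_int _ j hu hc

theorem integral_dzb (j : ι) {u : (ι → ℂ) → ℂ} (hu : ContDiff ℝ 1 u) (hc : HasCompactSupport u) :
    ∫ x, dzb j u x = 0 :=
  op_int _ j hu hc

section rules

variable (j : ι) {f g : (ι → ℂ) → ℂ} {x : ι → ℂ}

theorem dz_add (hf : DifferentiableAt ℝ f x) (hg : DifferentiableAt ℝ g x) :
    dz j (fun y => f y + g y) x = dz j f x + dz j g x := by
  simp only [dz_eq, op_add _ j hf hg]

theorem dzb_add (hf : DifferentiableAt ℝ f x) (hg : DifferentiableAt ℝ g x) :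
    dzb j (fun y => f y + g y) x = dzb j f x + dzb j g x :=
  op_add _ j hf hg

theorem dz_sub (hf : DifferentiableAt ℝ f x) (hg : DifferentiableAt ℝ g x) :
    dz j (fun y => f y - g y) x = dz j f x - dz j g x := by
  simp only [dz_eq, op_sub _ j hf hg]

theorem dzb_sub (hf : DifferentiableAt ℝ f x) (hg : DifferentiableAt ℝ g x) :
    dzb j (fun y => f y - g y) x = dzb j f x - dzb j g x :=
  op_sub _ j hf hg

theorem dz_mul (hf : DifferentiableAt ℝ f x) (hg : DifferentiableAt ℝ g x) :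
    dz j (fun y => f y * g y) x = dz j f x * g x + f x * dz j g x := by
  simp only [dz_eq, op_mul _ j hf hg]

theorem dzb_mul (hf : DifferentiableAt ℝ f x) (hg : DifferentiableAt ℝ g x) :
    dzb j (fun y => f y * g y) x = dzb j f x * g x + f x * dzb j g x :=
  op_mul _ j hf hg

theorem dz_const (a : ℂ) : dz j (fun _ => a) x = 0 := by
  simp only [dz_eq, op_const]

theorem dzb_const (a : ℂ) : dzb j (fun _ => a) x = 0 :=
  op_const _ j a x

theorem dz_sum {α : Type*} (s : Finset α) {F : α → (ι → ℂ) → ℂ}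
    (hf : ∀ a ∈ s, DifferentiableAt ℝ (F a) x) :
    dz j (fun y => ∑ a ∈ s, F a y) x = ∑ a ∈ s, dz j (F a) x := by
  simp only [dz_eq, op_sum _ j s hf]

theorem dzb_sum {α : Type*} (s : Finset α) {F : α → (ι → ℂ) → ℂ}
    (hf : ∀ a ∈ s, DifferentiableAt ℝ (F a) x) :
    dzb j (fun y => ∑ a ∈ s, F a y) x = ∑ a ∈ s, dzb j (F a) x :=
  op_sum _ j s hf

theorem dz_conj (hf : DifferentiableAt ℝ f x) :
    dz j (fun y => conj (f y)) x = conj (dzb j f x) := by
  rw [dz_eq, op_conj _ j hf, map_neg, conj_I, neg_neg, dzb_eq]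

theorem dzb_conj (hf : DifferentiableAt ℝ f x) :
    dzb j (fun y => conj (f y)) x = conj (dz j f x) := by
  rw [dzb_eq, op_conj _ j hf, conj_I, dz_eq]

theorem dz_wt {φ : (ι → ℂ) → ℝ} (hφ : DifferentiableAt ℝ φ x) :
    dz j (fun y => (Real.exp (-φ y) : ℂ)) x =
      -(dz j (fun y => (φ y : ℂ)) x * (Real.exp (-φ x) : ℂ)) := by
  simp only [dz_eq, op_wt _ j hφ]

theorem dzb_wt {φ : (ι → ℂ) → ℝ} (hφ : DifferentiableAt ℝ φ x) :
    dzb j (fun y => (Real.exp (-φ y) : ℂ)) x =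
      -(dzb j (fun y => (φ y : ℂ)) x * (Real.exp (-φ x) : ℂ)) :=
  op_wt _ j hφ

variable (k : ι)

theorem dz_dz_comm (hf : ContDiffAt ℝ 2 f x) : dz j (dz k f) x = dz k (dz j f) x := by
  simp only [dz_eq, op_comm _ _ j k hf]

theorem dzb_dzb_comm (hf : ContDiffAt ℝ 2 f x) : dzb j (dzb k f) x = dzb k (dzb j f) x :=
  op_comm _ _ j k hf

theorem dz_dzb_comm (hf : ContDiffAt ℝ 2 f x) : dz j (dzb k f) x = dzb k (dz j f) x := by
  simp only [dz_eq, dzb_eq, op_comm _ _ j k hf]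

end rules

/-- integration by parts for `dz` (one of the two factors may have non compact support) -/
theorem integral_dz_mul (j : ι) {f g : (ι → ℂ) → ℂ} (hf : ContDiff ℝ 1 f) (hg : ContDiff ℝ 1 g)
    (hc : HasCompactSupport g) : ∫ x, dz j f x * g x = -∫ x, f x * dz j g x := by
  have h := integral_dz j (hf.mul hg) hc.mul_left
  simp only [dz_mul j (hf.differentiable (by simp) _) (hg.differentiable (by simp) _)] at h
  have i1 : Integrable fun x => dz j f x * g x :=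
    ((dz_cont j hf).mul hg.continuous).integrable_of_hasCompactSupport hc.mul_left
  have i2 : Integrable fun x => f x * dz j g x :=
    (hf.continuous.mul (dz_cont j hg)).integrable_of_hasCompactSupport (dz_supp j hc).mul_left
  rw [integral_add i1 i2] at h
  exact eq_neg_of_add_eq_zero_left h

/-- integration by parts for `dzb` -/
theorem integral_dzb_mul (j : ι) {f g : (ι → ℂ) → ℂ} (hf : ContDiff ℝ 1 f) (hg : ContDiff ℝ 1 g)
    (hc : HasCompactSupport g) : ∫ x, dzb j f x * g x = -∫ x, f x * dzb j g x := by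
  have h := integral_dzb j (hf.mul hg) hc.mul_left
  simp only [dzb_mul j (hf.differentiable (by simp) _) (hg.differentiable (by simp) _)] at h
  have i1 : Integrable fun x => dzb j f x * g x :=
    ((dzb_cont j hf).mul hg.continuous).integrable_of_hasCompactSupport hc.mul_left
  have i2 : Integrable fun x => f x * dzb j g x :=
    (hf.continuous.mul (dzb_cont j hg)).integrable_of_hasCompactSupport (dzb_supp j hc).mul_left
  rw [integral_add i1 i2] at h
  exact eq_neg_of_add_eq_zero_left h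

/-- `dbar` in coordinates -/
theorem dbar_coord (f : (ι → ℂ) → ℂ) (x ξ : ι → ℂ) :
    dbar f x ξ = ∑ j, dzb j f x * conj (ξ j) := by
  rw [dbar, clm_eq _ ξ, clm_eq _ (I • ξ), Finset.mul_sum, ← Finset.sum_add_distrib,
    Finset.sum_div]
  refine Finset.sum_congr rfl fun j _ => ?_
  have e : conj (ξ j) = ((ξ j).re : ℂ) - (ξ j).im * I := by
    apply Complex.ext <;> simp
  rw [e]
  simp only [dzb, Pi.smul_apply, smul_eq_mul, mul_re, mul_im, I_re, I_im, real_smul]
  push_cast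
  linear_combination ((ξ j).im * fderiv ℝ f x (Pi.single j I) / 2) * I_mul_I

/-- `levi` in coordinates -/
theorem levi_coord {φ : (ι → ℂ) → ℝ} {x : ι → ℂ} (hφ : ContDiffAt ℝ 2 φ x) (ξ : ι → ℂ) :
    levi φ x ξ =
      ∑ j, ∑ k, (dz j (dzb k fun y => (φ y : ℂ)) x * ξ j * conj (ξ k)).re := by
  have hΦ : ContDiffAt ℝ 2 (fun y => (φ y : ℂ)) x := ofRealCLM.contDiff.contDiffAt.comp x hφ
  have e : ∀ v w, fderiv ℝ (fun y => fderiv ℝ (fun y => (φ y : ℂ)) y w) x v =
      (fderiv ℝ (fderiv ℝ φ) x v w : ℝ) := fun v w => by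
    have d : DifferentiableAt ℝ (fun y => fderiv ℝ φ y w) x :=
      (Lv.diffAt_fderiv hφ).clm_apply (differentiableAt_const w)
    have h : (fun y => fderiv ℝ (fun y => (φ y : ℂ)) y w) =ᶠ[nhds x]
        fun y => ((fderiv ℝ φ y w : ℝ) : ℂ) := by
      filter_upwards [Lv.ev_diffAt hφ] with y hy
      exact pd_ofReal hy w
    rw [h.fderiv_eq, pd_ofReal d, Lv.d2_eq (Lv.diffAt_fderiv hφ)]
  have b : ∀ η : ι → ℂ, fderiv ℝ (fderiv ℝ φ) x η η = ∑ j, ∑ k,
      ((η j).re * ((η k).re * fderiv ℝ (fderiv ℝ φ) x (Pi.single j 1) (Pi.single k 1) +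
        (η k).im * fderiv ℝ (fderiv ℝ φ) x (Pi.single j 1) (Pi.single k I)) +
      (η j).im * ((η k).re * fderiv ℝ (fderiv ℝ φ) x (Pi.single j I) (Pi.single k 1) +
        (η k).im * fderiv ℝ (fderiv ℝ φ) x (Pi.single j I) (Pi.single k I))) := fun η => by
    rw [clm_eq (fderiv ℝ (fderiv ℝ φ) x) η, sum_apply]
    refine Finset.sum_congr rfl fun j _ => ?_
    rw [add_apply, smul_apply,
      smul_apply, clm_eq _ η, clm_eq (fderiv ℝ (fderiv ℝ φ) x (Pi.single j I)) η]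
    simp only [smul_eq_mul, Finset.mul_sum, ← Finset.sum_add_distrib]
  rw [levi, b, b, ← Finset.sum_add_distrib, Finset.sum_div]
  refine Finset.sum_congr rfl fun j _ => ?_
  rw [← Finset.sum_add_distrib, Finset.sum_div]
  refine Finset.sum_congr rfl fun k _ => ?_
  rw [dz, dzb_eq, pd_op I k hΦ, pd_op I k hΦ, e, e, e, e]
  simp only [Pi.smul_apply, smul_eq_mul, mul_re, mul_im, I_re, I_im, div_ofNat_re, div_ofNat_im,
    sub_re, sub_im, add_re, add_im, ofReal_re, ofReal_im, conj_re, conj_im]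
  ring

end

end Pool.Agent.Lib.MP_9ff3e7_ag.F
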