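import Pool.Agent.Lib.MP_9ff3e7_ag.F.LeviB

/-! Calculus for `dbar` and `levi`, part C: sums of squares and their logarithms. -/

set_option autoImplicit false
set_option linter.unusedSectionVars false

namespace Pool.Agent.Lib.MP_9ff3e7_ag.F

open Complex Filter Topology Lv
open scoped ComplexConjugate ContDiff

variable {ι κ : Type} [Fintype ι] [Fintype κ]

theorem Lv.d2_normSq (w s : ℂ) :
    fderiv ℝ (fderiv ℝ (fun u : ℂ => ‖u‖ ^ 2)) w s s = 2 * ‖s‖ ^ 2 := by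
  have e : fderiv ℝ (fun u : ℂ => ‖u‖ ^ 2) = fun u => (2 • innerSL ℝ) u := by
    funext u
    rw [fderiv_norm_sq_apply]
    rfl
  rw [e, ContinuousLinearMap.fderiv]
  simp only [smul_apply, nsmul_eq_mul, Nat.cast_ofNat, mul_eq_mul_left_iff, OfNat.ofNat_ne_zero,
    or_false]
  exact real_inner_self_eq_norm_sq s

theorem contDiffAt_normSq {n : WithTop ℕ∞} {f : (ι → ℂ) → ℂ} {x : ι → ℂ}
    (hf : AnalyticAt ℂ f x) : ContDiffAt ℝ n (fun y => ‖f y‖ ^ 2) x :=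
  ((hf.contDiffAt (n := n)).restrict_scalars ℝ).norm_sq ℂ

theorem contDiffAt_sum_normSq {n : WithTop ℕ∞} {α : Type*} (s : Finset α)
    {f : α → (ι → ℂ) → ℂ} {x : ι → ℂ} (hf : ∀ a ∈ s, AnalyticAt ℂ (f a) x) :
    ContDiffAt ℝ n (fun y => ∑ a ∈ s, ‖f a y‖ ^ 2) x :=
  ContDiffAt.sum fun a ha => contDiffAt_normSq (hf a ha)

theorem levi_normSq {f : (ι → ℂ) → ℂ} {x : ι → ℂ} (hf : AnalyticAt ℂ f x) (ξ : ι → ℂ) :
    levi (fun y => ‖f y‖ ^ 2) x ξ = ‖fderiv ℂ f x ξ‖ ^ 2 := by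
  have f2 : ContDiffAt ℂ 2 f x := hf.contDiffAt
  have g2 : ContDiffAt ℝ 2 (fun u : ℂ => ‖u‖ ^ 2) (f x) := (contDiff_norm_sq ℝ).contDiffAt
  simp only [levi, d2_comp g2 (f2.restrict_scalars ℝ), d2_holo_I f2, d2_normSq,
    fderiv_real_apply hf.differentiableAt, map_smul, map_neg, smul_eq_mul, norm_mul, norm_I]
  ring

theorem levi_sum_normSq {α : Type*} (s : Finset α) {f : α → (ι → ℂ) → ℂ} {x : ι → ℂ}
    (hf : ∀ a ∈ s, AnalyticAt ℂ (f a) x) (ξ : ι → ℂ) :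
    levi (fun y => ∑ a ∈ s, ‖f a y‖ ^ 2) x ξ = ∑ a ∈ s, ‖fderiv ℂ (f a) x ξ‖ ^ 2 := by
  rw [levi_sum s (φ := fun a y => ‖f a y‖ ^ 2) fun a ha => contDiffAt_normSq (hf a ha)]
  exact Finset.sum_congr rfl fun a ha => levi_normSq (hf a ha) ξ

theorem analyticAt_coord (i : ι) (c : ℂ) (x : ι → ℂ) :
    AnalyticAt ℂ (fun y : ι → ℂ => y i - c) x :=
  ((ContinuousLinearMap.proj i : (ι → ℂ) →L[ℂ] ℂ).analyticAt x).sub analyticAt_const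

theorem fderiv_coord (i : ι) (c : ℂ) (x ξ : ι → ℂ) :
    fderiv ℂ (fun y : ι → ℂ => y i - c) x ξ = ξ i := by
  rw [fderiv_sub_const, (hasFDerivAt_apply i x).fderiv]
  rfl

/-- the Euclidean square distance to a centre -/
theorem levi_euclid (p x ξ : ι → ℂ) :
    levi (fun y => ∑ i, ‖y i - p i‖ ^ 2) x ξ = ∑ i, ‖ξ i‖ ^ 2 := by
  rw [levi_sum_normSq Finset.univ (f := fun i y => y i - p i)
    fun i _ => analyticAt_coord i (p i) x]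
  simp only [fderiv_coord]

theorem contDiff_euclid {n : WithTop ℕ∞} (p : ι → ℂ) :
    ContDiff ℝ n (fun y : ι → ℂ => ∑ i, ‖y i - p i‖ ^ 2) :=
  contDiff_iff_contDiffAt.2 fun x =>
    contDiffAt_sum_normSq Finset.univ (f := fun i y => y i - p i)
      fun i _ => analyticAt_coord i (p i) x

theorem dbar_euclid (p x ξ : ι → ℂ) :
    dbar (fun y => ((∑ i, ‖y i - p i‖ ^ 2 : ℝ) : ℂ)) x ξ = ∑ i, (x i - p i) * conj (ξ i) := by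
  rw [dbar_sum_normSq Finset.univ (f := fun i y => y i - p i)
    fun i _ => (analyticAt_coord i (p i) x).differentiableAt]
  simp only [fderiv_coord]

theorem norm_sq_le_sum (ξ : ι → ℂ) : ‖ξ‖ ^ 2 ≤ ∑ i, ‖ξ i‖ ^ 2 := by
  have h0 : 0 ≤ ∑ i, ‖ξ i‖ ^ 2 := Finset.sum_nonneg fun i _ => sq_nonneg _
  rw [← Real.le_sqrt (norm_nonneg _) h0, pi_norm_le_iff_of_nonneg (Real.sqrt_nonneg _)]
  intro i
  rw [Real.le_sqrt (norm_nonneg _) h0]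
  exact Finset.single_le_sum (f := fun i => ‖ξ i‖ ^ 2) (fun i _ => sq_nonneg _) (Finset.mem_univ i)

theorem sum_norm_sq_le (ξ : ι → ℂ) : ∑ i, ‖ξ i‖ ^ 2 ≤ Fintype.card ι * ‖ξ‖ ^ 2 := by
  have := Finset.sum_le_card_nsmul Finset.univ (fun i => ‖ξ i‖ ^ 2) (‖ξ‖ ^ 2) fun i _ =>
    pow_le_pow_left₀ (norm_nonneg _) (norm_le_pi_norm ξ i) 2
  simpa using this

theorem norm_sq_le_levi_euclid (p x ξ : ι → ℂ) :
    ‖ξ‖ ^ 2 ≤ levi (fun y => ∑ i, ‖y i - p i‖ ^ 2) x ξ := by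
  rw [levi_euclid]
  exact norm_sq_le_sum ξ

theorem dbar_log {φ : (ι → ℂ) → ℝ} {x : ι → ℂ} (hφ : DifferentiableAt ℝ φ x) (h0 : φ x ≠ 0)
    (ξ : ι → ℂ) : dbar (fun y => (Real.log (φ y) : ℂ)) x ξ =
      dbar (fun y => (φ y : ℂ)) x ξ / φ x := by
  rw [dbar_comp_real (Real.differentiableAt_log h0) hφ, Real.deriv_log]
  push_cast
  ring

theorem dbar_exp {φ : (ι → ℂ) → ℝ} {x : ι → ℂ} (hφ : DifferentiableAt ℝ φ x) (ξ : ι → ℂ) :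
    dbar (fun y => (Real.exp (φ y) : ℂ)) x ξ =
      (Real.exp (φ x) : ℝ) * dbar (fun y => (φ y : ℂ)) x ξ := by
  rw [dbar_comp_real Real.differentiableAt_exp hφ, Real.deriv_exp]

theorem levi_log {φ : (ι → ℂ) → ℝ} {x : ι → ℂ} (hφ : ContDiffAt ℝ 2 φ x) (h0 : φ x ≠ 0)
    (ξ : ι → ℂ) : levi (fun y => Real.log (φ y)) x ξ =
      levi φ x ξ / φ x - ‖dbar (fun y => (φ y : ℂ)) x ξ‖ ^ 2 / φ x ^ 2 := by
  rw [levi_comp_real (Real.contDiffAt_log.2 h0) hφ, Real.deriv_log', deriv_inv]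
  ring

theorem levi_exp {φ : (ι → ℂ) → ℝ} {x : ι → ℂ} (hφ : ContDiffAt ℝ 2 φ x) (ξ : ι → ℂ) :
    levi (fun y => Real.exp (φ y)) x ξ =
      Real.exp (φ x) * (levi φ x ξ + ‖dbar (fun y => (φ y : ℂ)) x ξ‖ ^ 2) := by
  rw [levi_comp_real Real.contDiff_exp.contDiffAt hφ, Real.deriv_exp, Real.deriv_exp]
  ring

/-- `-log (-A)` for `A < 0` -/
theorem levi_neg_log_neg {A : (ι → ℂ) → ℝ} {x : ι → ℂ} (hA : ContDiffAt ℝ 2 A x) (h0 : A x ≠ 0)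
    (ξ : ι → ℂ) : levi (fun y => -Real.log (-A y)) x ξ =
      levi A x ξ / (-A x) + ‖dbar (fun y => ((-Real.log (-A y) : ℝ) : ℂ)) x ξ‖ ^ 2 := by
  simp only [Real.log_neg_eq_log, ofReal_neg]
  rw [levi_neg (hA.log h0), levi_log hA h0, dbar_neg, norm_neg,
    dbar_log (hA.differentiableAt (by norm_num)) h0, norm_div, div_pow, norm_real,
    Real.norm_eq_abs, sq_abs]
  ring

/-- `log (e^ψ + q)` -/
theorem levi_log_exp_add {ψ : (ι → ℂ) → ℝ} {x : ι → ℂ} (hψ : ContDiffAt ℝ 2 ψ x) {q : ℝ}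
    (hq : 0 ≤ q) (ξ : ι → ℂ) : levi (fun y => Real.log (Real.exp (ψ y) + q)) x ξ =
      Real.exp (ψ x) / (Real.exp (ψ x) + q) * levi ψ x ξ +
        Real.exp (ψ x) * q / (Real.exp (ψ x) + q) ^ 2 *
          ‖dbar (fun y => (ψ y : ℂ)) x ξ‖ ^ 2 := by
  have p : 0 < Real.exp (ψ x) + q := by positivity
  have d := hψ.differentiableAt (by norm_num)
  rw [levi_log (hψ.exp.add contDiffAt_const) p.ne', levi_add_const hψ.exp, levi_exp hψ]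
  simp only [ofReal_add]
  rw [dbar_add (diffAt_ofReal d.exp) (differentiableAt_const _), dbar_const, add_zero, dbar_exp d,
    norm_mul, mul_pow, norm_real, Real.norm_eq_abs, sq_abs]
  field_simp
  ring

theorem norm_sum_mul_conj_sq_le {α : Type*} (s : Finset α) (u v : α → ℂ) :
    ‖∑ a ∈ s, u a * conj (v a)‖ ^ 2 ≤ (∑ a ∈ s, ‖u a‖ ^ 2) * ∑ a ∈ s, ‖v a‖ ^ 2 := by
  refine le_trans ?_ (Finset.sum_mul_sq_le_sq_mul_sq s (fun a => ‖u a‖) fun a => ‖v a‖)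
  refine pow_le_pow_left₀ (norm_nonneg _) ((norm_sum_le _ _).trans (le_of_eq ?_)) 2
  simp

theorem contDiffAt_log_sos {n : WithTop ℕ∞} {α : Type*} (s : Finset α) {f : α → (ι → ℂ) → ℂ}
    {x : ι → ℂ} (hf : ∀ a ∈ s, AnalyticAt ℂ (f a) x) {e : ℝ}
    (h0 : ∑ a ∈ s, ‖f a x‖ ^ 2 + e ≠ 0) :
    ContDiffAt ℝ n (fun y => Real.log (∑ a ∈ s, ‖f a y‖ ^ 2 + e)) x :=
  ((contDiffAt_sum_normSq s hf).add contDiffAt_const).log h0

theorem dbar_log_sos {α : Type*} (s : Finset α) {f : α → (ι → ℂ) → ℂ} {x : ι → ℂ}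
    (hf : ∀ a ∈ s, AnalyticAt ℂ (f a) x) {e : ℝ} (h0 : ∑ a ∈ s, ‖f a x‖ ^ 2 + e ≠ 0)
    (ξ : ι → ℂ) :
    dbar (fun y => (Real.log (∑ a ∈ s, ‖f a y‖ ^ 2 + e) : ℂ)) x ξ =
      (∑ a ∈ s, f a x * conj (fderiv ℂ (f a) x ξ)) / (∑ a ∈ s, ‖f a x‖ ^ 2 + e : ℝ) := by
  have d : DifferentiableAt ℝ (fun y => ∑ a ∈ s, ‖f a y‖ ^ 2) x :=
    (contDiffAt_sum_normSq (n := 1) s hf).differentiableAt (by norm_num)
  rw [dbar_log (φ := fun y => ∑ a ∈ s, ‖f a y‖ ^ 2 + e) (d.add_const e) h0]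
  simp only [ofReal_add]
  rw [dbar_add (diffAt_ofReal d) (differentiableAt_const _), dbar_const, add_zero,
    dbar_sum_normSq s fun a ha => (hf a ha).differentiableAt]

theorem levi_log_sos_eq {α : Type*} (s : Finset α) {f : α → (ι → ℂ) → ℂ} {x : ι → ℂ}
    (hf : ∀ a ∈ s, AnalyticAt ℂ (f a) x) {e : ℝ} (h0 : ∑ a ∈ s, ‖f a x‖ ^ 2 + e ≠ 0)
    (ξ : ι → ℂ) :
    levi (fun y => Real.log (∑ a ∈ s, ‖f a y‖ ^ 2 + e)) x ξ =
      (∑ a ∈ s, ‖fderiv ℂ (f a) x ξ‖ ^ 2) / (∑ a ∈ s, ‖f a x‖ ^ 2 + e) -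
        ‖∑ a ∈ s, f a x * conj (fderiv ℂ (f a) x ξ)‖ ^ 2 / (∑ a ∈ s, ‖f a x‖ ^ 2 + e) ^ 2 := by
  have c : ContDiffAt ℝ 2 (fun y => ∑ a ∈ s, ‖f a y‖ ^ 2) x := contDiffAt_sum_normSq s hf
  rw [levi_log (φ := fun y => ∑ a ∈ s, ‖f a y‖ ^ 2 + e) (c.add contDiffAt_const) h0,
    levi_add_const c, levi_sum_normSq s hf]
  simp only [ofReal_add]
  rw [dbar_add (diffAt_ofReal (c.differentiableAt (by norm_num))) (differentiableAt_const _),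
    dbar_const, add_zero, dbar_sum_normSq s fun a ha => (hf a ha).differentiableAt]

theorem le_levi_log_sos {α : Type*} (s : Finset α) {f : α → (ι → ℂ) → ℂ} {x : ι → ℂ}
    (hf : ∀ a ∈ s, AnalyticAt ℂ (f a) x) {e : ℝ} (h0 : 0 < ∑ a ∈ s, ‖f a x‖ ^ 2 + e)
    (ξ : ι → ℂ) :
    e * (∑ a ∈ s, ‖fderiv ℂ (f a) x ξ‖ ^ 2) / (∑ a ∈ s, ‖f a x‖ ^ 2 + e) ^ 2 ≤
      levi (fun y => Real.log (∑ a ∈ s, ‖f a y‖ ^ 2 + e)) x ξ := by
  rw [levi_log_sos_eq s hf h0.ne', le_sub_iff_add_le, ← add_div, div_le_div_iff₀ (by positivity) h0]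
  have := norm_sum_mul_conj_sq_le s (fun a => f a x) fun a => fderiv ℂ (f a) x ξ
  nlinarith [mul_le_mul_of_nonneg_right this h0.le]

/-- the logarithm of a sum of squares plus a non negative constant is plurisubharmonic -/
theorem levi_log_sos_nonneg {α : Type*} (s : Finset α) {f : α → (ι → ℂ) → ℂ} {x : ι → ℂ}
    (hf : ∀ a ∈ s, AnalyticAt ℂ (f a) x) {e : ℝ} (he : 0 ≤ e)
    (h0 : 0 < ∑ a ∈ s, ‖f a x‖ ^ 2 + e) (ξ : ι → ℂ) :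
    0 ≤ levi (fun y => Real.log (∑ a ∈ s, ‖f a y‖ ^ 2 + e)) x ξ :=
  le_trans (by positivity) (le_levi_log_sos s hf h0 ξ)

/-- `log (e + |y - p|²)` is strictly plurisubharmonic -/
theorem le_levi_log_euclid (p x ξ : ι → ℂ) {e : ℝ} (he : 0 < e) :
    e * (∑ i, ‖ξ i‖ ^ 2) / (∑ i, ‖x i - p i‖ ^ 2 + e) ^ 2 ≤
      levi (fun y => Real.log (∑ i, ‖y i - p i‖ ^ 2 + e)) x ξ := by
  have := le_levi_log_sos Finset.univ (f := fun i y => y i - p i)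
    (fun i _ => analyticAt_coord i (p i) x) (e := e) (by positivity) ξ
  simpa only [fderiv_coord] using this

/-- a convex non decreasing function of a plurisubharmonic function -/
theorem levi_comp_nonneg {χ : ℝ → ℝ} {φ : (ι → ℂ) → ℝ} {x ξ : ι → ℂ}
    (hχ : ContDiffAt ℝ 2 χ (φ x)) (hφ : ContDiffAt ℝ 2 φ x) (h1 : 0 ≤ deriv χ (φ x))
    (h2 : 0 ≤ deriv (deriv χ) (φ x)) (h : 0 ≤ levi φ x ξ) :
    0 ≤ levi (fun y => χ (φ y)) x ξ := by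
  rw [levi_comp_real hχ hφ]
  positivity

/-- the regularised maximum `ψ + g (φ - ψ)` -/
theorem levi_regmax {g : ℝ → ℝ} {φ ψ : (ι → ℂ) → ℝ} {x : ι → ℂ}
    (hg : ContDiffAt ℝ 2 g (φ x - ψ x)) (hφ : ContDiffAt ℝ 2 φ x) (hψ : ContDiffAt ℝ 2 ψ x)
    (h2 : 0 ≤ deriv (deriv g) (φ x - ψ x)) (ξ : ι → ℂ) :
    deriv g (φ x - ψ x) * levi φ x ξ + (1 - deriv g (φ x - ψ x)) * levi ψ x ξ ≤
      levi (fun y => ψ y + g (φ y - ψ y)) x ξ := by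
  rw [levi_add (ψ := fun y => g (φ y - ψ y)) hψ (hg.comp x (f := fun y => φ y - ψ y) (hφ.sub hψ)),
    levi_comp_real (φ := fun y => φ y - ψ y) hg (hφ.sub hψ), levi_sub hφ hψ]
  nlinarith [mul_nonneg h2 (sq_nonneg ‖dbar (fun y => ((φ y - ψ y : ℝ) : ℂ)) x ξ‖)]

theorem norm_I_smul (ξ : ι → ℂ) : ‖I • ξ‖ = ‖ξ‖ := by
  rw [norm_smul, norm_I, one_mul]

theorem abs_levi_le (φ : (ι → ℂ) → ℝ) (x ξ : ι → ℂ) :
    |levi φ x ξ| ≤ ‖fderiv ℝ (fderiv ℝ φ) x‖ * ‖ξ‖ ^ 2 := by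
  have h1 := (fderiv ℝ (fderiv ℝ φ) x).le_opNorm₂ ξ ξ
  have h2 := (fderiv ℝ (fderiv ℝ φ) x).le_opNorm₂ (I • ξ) (I • ξ)
  rw [norm_I_smul] at h2
  rw [Real.norm_eq_abs] at h1 h2
  have h3 : 0 ≤ ‖fderiv ℝ (fderiv ℝ φ) x‖ * ‖ξ‖ ^ 2 := by positivity
  rw [levi, abs_le]
  constructor <;> nlinarith [abs_le.1 h1, abs_le.1 h2]

theorem norm_dbar_le (f : (ι → ℂ) → ℂ) (x ξ : ι → ℂ) :
    ‖dbar f x ξ‖ ≤ ‖fderiv ℝ f x‖ * ‖ξ‖ := by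
  have h1 := (fderiv ℝ f x).le_opNorm ξ
  have h2 := (fderiv ℝ f x).le_opNorm (I • ξ)
  rw [norm_I_smul] at h2
  have h3 := norm_add_le (fderiv ℝ f x ξ) (I * fderiv ℝ f x (I • ξ))
  rw [norm_mul, norm_I, one_mul] at h3
  rw [dbar, norm_div, Complex.norm_ofNat]
  linarith

end Pool.Agent.Lib.MP_9ff3e7_ag.F
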