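import Mathlib

/-! Complex differentiable functions of several variables are analytic. -/

set_option autoImplicit false

namespace Pool.Agent.Lib.MP_9ff3e7_ag.F

open Complex MeasureTheory Metric Real AddCircle

namespace Osg

instance : Fact (0 < 2 * π) := ⟨two_pi_pos⟩

/-- the circle -/
abbrev Tc : Type := AddCircle (2 * π)

theorem avg (f : ℂ → ℂ) : ∫ t : Tc, f (fourier 1 t) ∂haarAddCircle = circleAverage f 0 1 := by
  rw [integral_haarAddCircle, ← AddCircle.intervalIntegral_preimage _ 0, zero_add, circleAverage]
  congr 2
  funext t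
  rw [fourier_coe_apply, circleMap]
  congr 1
  have : (π : ℂ) ≠ 0 := by exact_mod_cast pi_ne_zero
  push_cast
  rw [zero_add, one_mul]
  congr 1
  field_simp

theorem nrm (t : Tc) : ‖fourier 1 t‖ = 1 := by
  rw [fourier_apply]
  exact Circle.norm_coe _

variable {ι : Type} [Fintype ι] [DecidableEq ι]

/-- the measure on the torus -/
noncomputable abbrev mu (ι : Type) [Fintype ι] : Measure (ι → Tc) :=
  Measure.pi fun _ => haarAddCircle

theorem fub {H : (ι → Tc) → ℂ} (hH : Continuous H) (j : ι) :
    ∫ θ, H θ ∂mu ι = ∫ θ, ∫ t, H (Function.update θ j t) ∂haarAddCircle ∂mu ι := by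
  have c : Continuous fun p : Tc × (ι → Tc) => H (Pi.single j p.1 + p.2) :=
    hH.comp (((continuous_single (A := fun _ : ι => Tc) j).comp continuous_fst).add continuous_snd)
  calc _ = ∫ t : Tc, ∫ θ, H (Pi.single j t + θ) ∂mu ι ∂haarAddCircle := by
        simp only [integral_add_left_eq_self, integral_const, probReal_univ, one_smul]
    _ = ∫ θ, ∫ t : Tc, H (Pi.single j t + θ) ∂haarAddCircle ∂mu ι :=
        integral_integral_swap (c.integrable_of_hasCompactSupport (.of_compactSpace _))
    _ = _ := by
        congr 1
        funext θ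
        rw [← integral_add_right_eq_self (fun t => H (Function.update θ j t)) (θ j)]
        congr 1
        funext t
        congr 1
        funext i
        by_cases h : i = j
        · subst h
          simp
        · simp [h]

theorem cauchy {G : (ι → ℂ) → ℂ} (hG : DifferentiableOn ℂ G (closedBall 0 1)) {z : ι → ℂ}
    (hz : z ∈ ball 0 1) (s : Finset ι) :
    ∫ θ, G (s.piecewise (fun j => fourier 1 (θ j)) z) *
      ∏ j ∈ s, fourier 1 (θ j) / (fourier 1 (θ j) - z j) ∂mu ι = G z := by
  have z1 : ∀ j, ‖z j‖ < 1 := fun j => (norm_le_pi_norm z j).trans_lt (mem_ball_zero_iff.1 hz)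
  have m : ∀ (s : Finset ι) (θ : ι → Tc) i, ‖s.piecewise (fun j => fourier 1 (θ j)) z i‖ ≤ 1 :=
    fun s θ i => by
      by_cases h : i ∈ s
      · rw [Finset.piecewise_eq_of_mem _ _ _ h, nrm]
      · rw [Finset.piecewise_eq_of_notMem _ _ _ h]
        exact (z1 i).le
  induction s using Finset.induction_on with
  | empty => simp
  | insert j s hj ih =>
    rw [fub _ j, ← ih]
    · congr 1
      funext θ
      let w := s.piecewise (fun j => fourier 1 (θ j)) z
      have d : DifferentiableOn ℂ (fun a => G (Function.update w j a)) (closedBall 0 1) :=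
        hG.comp (fun a _ => (hasDerivAt_update w j a).differentiableAt.differentiableWithinAt)
          fun a ha => mem_closedBall_zero_iff.2 ((pi_norm_le_iff_of_nonneg zero_le_one).2 fun i => by
            by_cases h : i = j
            · subst h
              simpa using ha
            · rw [Function.update_of_ne h]
              exact m s θ i)
      have e := DiffContOnCl.circleAverage_smul_div (c := 0) (R := 1) (w := z j)
        (f := fun a => G (Function.update w j a))
        (by simpa using (d.mono closure_ball_subset_closedBall).diffContOnCl) (by simpa using z1 j)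
      have e' : Function.update w j (z j) = w := by
        rw [Function.update_eq_self_iff]
        exact (Finset.piecewise_eq_of_notMem _ _ _ hj).symm
      rw [← avg, e'] at e
      change _ = G w * _
      rw [← e, ← integral_mul_const]
      congr 1
      funext t
      have a : (insert j s).piecewise (fun i => fourier 1 (Function.update θ j t i)) z =
          Function.update w j (fourier 1 t) := by
        rw [Finset.piecewise_insert, Function.update_self]
        congr 1
        exact Finset.piecewise_congr _ (fun i hi => by
          rw [Function.update_of_ne (ne_of_mem_of_not_mem hi hj)]) fun _ _ => rfl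
      rw [a, Finset.prod_insert hj, Function.update_self, Finset.prod_congr rfl fun i hi => by
        rw [Function.update_of_ne (ne_of_mem_of_not_mem hi hj)]]
      simp only [sub_zero, smul_eq_mul]
      ring
    · refine (hG.continuousOn.comp_continuous ?_ fun θ => mem_closedBall_zero_iff.2
        ((pi_norm_le_iff_of_nonneg zero_le_one).2 (m _ θ))).mul
        (continuous_finsetProd _ fun i _ => Continuous.div (by fun_prop) (by fun_prop) fun θ e => ?_)
      · refine continuous_pi fun i => ?_
        by_cases h : i ∈ insert j s
        · simp only [Finset.piecewise_eq_of_mem _ _ _ h]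
          fun_prop
        · simp only [Finset.piecewise_eq_of_notMem _ _ _ h]
          fun_prop
      · have := z1 i
        rw [← sub_eq_zero.1 e, nrm] at this
        exact lt_irrefl _ this

/-- integration over the torus -/
noncomputable def lam (ι : Type) [Fintype ι] : C(ι → Tc, ℂ) →L[ℂ] ℂ :=
  LinearMap.mkContinuous
    ⟨⟨fun g => ∫ θ, g θ ∂mu ι, fun g g' => integral_add
      (g.continuous.integrable_of_hasCompactSupport (.of_compactSpace _))
      (g'.continuous.integrable_of_hasCompactSupport (.of_compactSpace _))⟩,
      fun c g => integral_smul c g⟩ 1 fun g => by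
    simpa using norm_integral_le_of_norm_le_const (μ := mu ι) (.of_forall g.norm_coe_le_norm)

theorem ana {G : (ι → ℂ) → ℂ} (hG : DifferentiableOn ℂ G (closedBall 0 1)) : AnalyticAt ℂ G 0 := by
  let u : ι → C(ι → Tc, ℂ) := fun j => (fourier 1).comp ⟨fun θ => θ j, continuous_apply j⟩
  let Φ : C(ι → Tc, ℂ) := ⟨fun θ => G fun j => fourier 1 (θ j), hG.continuousOn.comp_continuous
    (by fun_prop) fun θ => mem_closedBall_zero_iff.2
      ((pi_norm_le_iff_of_nonneg zero_le_one).2 fun i => (nrm _).le)⟩
  have un : ∀ z ∈ ball (0 : ι → ℂ) 1, ∀ j, IsUnit (u j - z j • 1) := fun z hz j =>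
    (ContinuousMap.isUnit_iff_forall_ne_zero _).2 fun θ e => by
      have := (norm_le_pi_norm z j).trans_lt (mem_ball_zero_iff.1 hz)
      have e' : fourier 1 (θ j) - z j = 0 := by simpa [u] using e
      rw [← sub_eq_zero.1 e', nrm] at this
      exact lt_irrefl _ this
  have a : AnalyticAt ℂ (fun z : ι → ℂ =>
      lam ι (Φ * ∏ j, u j * Ring.inverse (u j - z j • 1))) 0 := by
    refine ((lam ι).analyticAt _).comp (analyticAt_const.mul
      (Finset.analyticAt_fun_prod _ fun j _ => analyticAt_const.mul ?_))
    refine AnalyticAt.comp (g := Ring.inverse) (f := fun z : ι → ℂ => u j - z j • 1)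
      (analyticAt_inverse (un 0 (mem_ball_self one_pos) j).unit) (analyticAt_const.sub ?_)
    exact ((ContinuousLinearMap.proj (R := ℂ) (φ := fun _ : ι => ℂ) j).analyticAt 0).smul
      analyticAt_const
  refine a.congr ?_
  filter_upwards [ball_mem_nhds 0 one_pos] with z hz
  rw [← cauchy hG hz Finset.univ]
  refine integral_congr_ae (.of_forall fun θ => ?_)
  simp only [ContinuousMap.mul_apply, ContinuousMap.prod_apply, Finset.piecewise_univ]
  congr 1
  refine Finset.prod_congr rfl fun j _ => ?_
  have := congrArg (fun g : C(ι → Tc, ℂ) => g θ) (Ring.mul_inverse_cancel _ (un z hz j))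
  rw [div_eq_mul_inv]
  congr 1
  exact eq_inv_of_mul_eq_one_right (by simpa [u] using this)

end Osg

/-- Osgood: complex differentiable in several variables implies analytic. -/
theorem osgood {ι : Type} [Fintype ι] {F : (ι → ℂ) → ℂ} {U : Set (ι → ℂ)} (hU : IsOpen U)
    (hF : DifferentiableOn ℂ F U) : AnalyticOnNhd ℂ F U := fun x hx => by
  classical
  obtain ⟨r, r0, hr⟩ := nhds_basis_closedBall.mem_iff.1 (hU.mem_nhds hx)
  have r1 : (r : ℂ) ≠ 0 := by exact_mod_cast r0.ne'
  have a := Osg.ana (G := fun w => F (x + (r : ℂ) • w)) (hF.comp (by fun_prop) fun w hw => hr (by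
    rw [mem_closedBall_zero_iff] at hw
    rw [add_mem_closedBall_iff_norm, norm_smul, norm_real, Real.norm_of_nonneg r0.le]
    exact mul_le_of_le_one_right r0.le hw))
  have b := AnalyticAt.comp (g := fun w => F (x + (r : ℂ) • w))
    (f := fun y => (r : ℂ)⁻¹ • (y - x)) (x := x) (by simpa using a) (by fun_prop)
  refine b.congr (.of_forall fun y => ?_)
  rw [Function.comp, smul_inv_smul₀ r1, add_sub_cancel]

end Pool.Agent.Lib.MP_9ff3e7_ag.F
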