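import Pool.Agent.Lib.MP_9ff3e7_ag.F.LeviC

/-! Ramps, cut offs and gluing of plurisubharmonic weights. -/

set_option autoImplicit false
set_option linter.unusedSectionVars false

namespace Pool.Agent.Lib.MP_9ff3e7_ag.F

open Complex Filter Topology Lv
open scoped ContDiff

variable {ι : Type} [Fintype ι]

/-- a smooth monotone step, `0` up to `a` and `1` from `b` on, with bounded derivative -/
theorem exists_step {a b : ℝ} (hab : a < b) : ∃ s : ℝ → ℝ, ContDiff ℝ ∞ s ∧ Monotone s ∧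
    (∀ t, t ≤ a → s t = 0) ∧ (∀ t, b ≤ t → s t = 1) ∧ (∀ t, a < t → 0 < s t) ∧
    (∀ t, 0 ≤ s t) ∧ (∀ t, s t ≤ 1) ∧ (∀ t, t < a ∨ b < t → deriv s t = 0) ∧
    ∃ M : ℝ, ∀ t, |deriv s t| ≤ M := by
  have p : 0 < b - a := sub_pos.2 hab
  let s : ℝ → ℝ := fun t => Real.smoothTransition ((t - a) / (b - a))
  have c : ContDiff ℝ ∞ s :=
    Real.smoothTransition.contDiff.comp ((contDiff_id.sub contDiff_const).div_const _)
  have z : ∀ t, t ≤ a → s t = 0 := fun t ht =>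
    Real.smoothTransition.zero_of_nonpos (div_nonpos_of_nonpos_of_nonneg (by linarith) p.le)
  have o : ∀ t, b ≤ t → s t = 1 := fun t ht =>
    Real.smoothTransition.one_of_one_le ((one_le_div p).2 (by linarith))
  have d : ∀ t, t < a ∨ b < t → deriv s t = 0 := by
    rintro t (ht | ht)
    · have : s =ᶠ[𝓝 t] fun _ => 0 := (eventually_lt_nhds ht).mono fun u hu => z u hu.le
      rw [this.deriv_eq, deriv_const]
    · have : s =ᶠ[𝓝 t] fun _ => 1 := (eventually_gt_nhds ht).mono fun u hu => o u hu.le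
      rw [this.deriv_eq, deriv_const]
  refine ⟨s, c, fun u v h => Real.smoothTransition.monotone (by gcongr), z, o,
    fun t ht => Real.smoothTransition.pos_of_pos (div_pos (sub_pos.2 ht) p),
    fun t => Real.smoothTransition.nonneg _, fun t => Real.smoothTransition.le_one _, d, ?_⟩
  obtain ⟨M, hM⟩ := (isCompact_Icc (a := a) (b := b)).exists_bound_of_continuousOn
    (c.continuous_deriv (by simp)).continuousOn
  refine ⟨max M 0, fun t => ?_⟩
  by_cases h : t ∈ Set.Icc a b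
  · exact (hM t h).trans (le_max_left _ _)
  · rw [d t (by simpa [not_and_or, imp_iff_not_or] using h), abs_zero]
    exact le_max_right _ _

/-- a smooth convex ramp: `0` up to `a`, slope `1` from `b` on -/
theorem exists_ramp {a b : ℝ} (hab : a < b) : ∃ g : ℝ → ℝ, ContDiff ℝ ∞ g ∧
    (∀ t, t ≤ a → g t = 0) ∧ (∀ t, 0 ≤ g t) ∧ (∀ t, 0 ≤ deriv g t) ∧ (∀ t, deriv g t ≤ 1) ∧
    (∀ t, a < t → 0 < deriv g t) ∧ (∀ t, b ≤ t → deriv g t = 1) ∧
    (∀ t, 0 ≤ deriv (deriv g) t) ∧ Monotone (deriv g) ∧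
    ∃ c, a ≤ c ∧ c ≤ b ∧ (∀ t, b ≤ t → g t = t - c) ∧ ∀ t, t - c ≤ g t := by
  obtain ⟨s, c, m, z, o, ps, s0, s1, -, -⟩ := exists_step hab
  let g : ℝ → ℝ := fun t => ∫ u in a..t, s u
  have hd : ∀ t, HasDerivAt g (s t) t := fun t =>
    (c.continuous.integral_hasStrictDerivAt a t).hasDerivAt
  have e : deriv g = s := funext fun t => (hd t).deriv
  have df : Differentiable ℝ g := fun t => (hd t).differentiableAt
  have gz : ∀ t, t ≤ a → g t = 0 := fun t ht => by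
    simp only [g]
    rw [intervalIntegral.integral_congr (g := fun _ => 0)]
    · simp
    · intro u hu
      rw [Set.uIcc_of_ge ht] at hu
      exact z u hu.2
  have gm : Monotone g := monotone_of_deriv_nonneg df fun t => e ▸ s0 t
  have ga : Antitone fun t => g t - t :=
    antitone_of_deriv_nonpos (df.sub differentiable_id) fun t => by
      rw [((hd t).fun_sub (hasDerivAt_id' t)).deriv]
      linarith [s1 t]
  have gb : ∀ t, b ≤ t → g t = t - (b - g b) := fun t ht => by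
    have i : ∀ x y, IntervalIntegrable s MeasureTheory.volume x y :=
      fun x y => c.continuous.intervalIntegrable x y
    have h1 : g t = g b + ∫ u in b..t, s u :=
      (intervalIntegral.integral_add_adjacent_intervals (i a b) (i b t)).symm
    rw [h1, intervalIntegral.integral_congr (g := fun _ => 1)]
    · simp only [intervalIntegral.integral_const, smul_eq_mul, mul_one]
      ring
    · intro u hu
      rw [Set.uIcc_of_le ht] at hu
      exact o u hu.1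
  have g0 : ∀ t, 0 ≤ g t := fun t => by
    rcases le_total t a with h | h
    · exact (gz t h).ge
    · exact (gz a le_rfl).symm.le.trans (gm h)
  refine ⟨g, contDiff_infty_iff_deriv.2 ⟨df, e ▸ c⟩, gz, g0, fun t => e ▸ s0 t, fun t => e ▸ s1 t,
    fun t ht => e ▸ ps t ht, fun t ht => e ▸ o t ht, fun t => e ▸ m.deriv_nonneg, e ▸ m,
    b - g b, ?_, by linarith [g0 b], gb, fun t => ?_⟩
  · have := ga hab.le
    simp only [gz a le_rfl] at this
    linarith
  · rcases le_total t b with h | h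
    · have := ga h
      simp only at this
      linarith
    · exact (gb t h).ge

/-- cut off: a function smooth on an open set containing `{ρ ≤ b}` times a cut off function of `ρ`
is smooth everywhere -/
theorem contDiff_cut {F : Type*} [NormedAddCommGroup F] [NormedSpace ℝ F] {U : Set (ι → ℂ)}
    (hU : IsOpen U) {f : (ι → ℂ) → F} (hf : ContDiffOn ℝ ∞ f U) {ρ : (ι → ℂ) → ℝ}
    (hρ : ContDiff ℝ ∞ ρ) {s : ℝ → ℝ} (hs : ContDiff ℝ ∞ s) {b : ℝ} (hb : ∀ t, b ≤ t → s t = 0)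
    (hKU : {x | ρ x ≤ b} ⊆ U) : ContDiff ℝ ∞ fun x => s (ρ x) • f x := by
  refine contDiff_iff_contDiffAt.2 fun x => ?_
  by_cases h : x ∈ U
  · exact (hs.comp hρ).contDiffAt.smul (hf.contDiffAt (hU.mem_nhds h))
  · have hx : b < ρ x := not_le.1 fun h' => h (hKU h')
    refine (contDiffAt_const (c := (0 : F))).congr_of_eventuallyEq ?_
    filter_upwards [hρ.continuous.continuousAt.eventually (eventually_gt_nhds hx)] with y hy
    rw [hb _ hy.le, zero_smul]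

/-- a smooth function has Levi form bounded below on a compact set -/
theorem exists_levi_bound {K : Set (ι → ℂ)} (hK : IsCompact K) {ψ : (ι → ℂ) → ℝ}
    (hψ : ContDiff ℝ ∞ ψ) : ∃ C, 0 ≤ C ∧ ∀ x ∈ K, ∀ ξ, |levi ψ x ξ| ≤ C * ‖ξ‖ ^ 2 := by
  have c : Continuous (fderiv ℝ (fderiv ℝ ψ)) :=
    ((hψ.fderiv_right (m := 1) (by norm_cast)).continuous_fderiv (by norm_num))
  obtain ⟨C, hC⟩ := hK.exists_bound_of_continuousOn (f := fderiv ℝ (fderiv ℝ ψ)) c.continuousOn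
  exact ⟨max C 0, le_max_right _ _, fun x hx ξ => (abs_levi_le ψ x ξ).trans
    (mul_le_mul_of_nonneg_right ((hC x hx).trans (le_max_left _ _)) (sq_nonneg _))⟩

/-- a smooth function has bounded `dbar` on a compact set -/
theorem exists_dbar_bound {K : Set (ι → ℂ)} (hK : IsCompact K) {f : (ι → ℂ) → ℂ}
    (hf : ContDiff ℝ ∞ f) : ∃ C, 0 ≤ C ∧ ∀ x ∈ K, ∀ ξ, ‖dbar f x ξ‖ ^ 2 ≤ C * ‖ξ‖ ^ 2 := by
  obtain ⟨C, hC⟩ := hK.exists_bound_of_continuousOn
    (hf.continuous_fderiv (by simp)).continuousOn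
  refine ⟨C ^ 2, sq_nonneg _, fun x hx ξ => ?_⟩
  rw [← mul_pow]
  exact pow_le_pow_left₀ (norm_nonneg _) ((norm_dbar_le f x ξ).trans
    (mul_le_mul_of_nonneg_right (hC x hx) (norm_nonneg _))) 2

/-- gluing: a weight that is plurisubharmonic near `{ρ ≤ b}` agrees on `{ρ ≤ a}` with a smooth
plurisubharmonic function on the whole space -/
theorem glue {U : Set (ι → ℂ)} (hU : IsOpen U) {φ ρ : (ι → ℂ) → ℝ} (hφ : ContDiffOn ℝ ∞ φ U)
    (hρ : ContDiff ℝ ∞ ρ) (hρ0 : ∀ x ξ, 0 ≤ levi ρ x ξ) {a b c : ℝ} (hab : a < b) (hc : 0 < c)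
    (hρ1 : ∀ x, a ≤ ρ x → ρ x ≤ b → ∀ ξ, c * ‖ξ‖ ^ 2 ≤ levi ρ x ξ)
    (hK : IsCompact {x | ρ x ≤ b}) (hKU : {x | ρ x ≤ b} ⊆ U)
    (hp : ∀ x, ρ x ≤ b → ∀ ξ, 0 ≤ levi φ x ξ) :
    ∃ Φ : (ι → ℂ) → ℝ, ContDiff ℝ ∞ Φ ∧ (∀ x ξ, 0 ≤ levi Φ x ξ) ∧ (∀ x, ρ x ≤ a → Φ x = φ x) ∧
      ∀ x, ρ x ≤ a → ∀ ξ, levi φ x ξ ≤ levi Φ x ξ := by
  obtain ⟨a1, h1, h2⟩ := exists_between hab
  obtain ⟨a2, h3, h4⟩ := exists_between h2
  obtain ⟨s, sc, -, sz, so, -⟩ := exists_step h3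
  obtain ⟨g, gc, gz, -, g0, -, -, g1, g2, -⟩ := exists_ramp h1
  let ψ : (ι → ℂ) → ℝ := fun x => (1 - s (ρ x)) • φ x
  have hψ : ContDiff ℝ ∞ ψ := contDiff_cut hU hφ hρ (s := fun t => 1 - s t)
    (contDiff_const.sub sc) (fun t ht => by rw [so t (h4.le.trans ht), sub_self]) hKU
  obtain ⟨C, C0, hC⟩ := exists_levi_bound hK hψ
  have two : (2 : WithTop ℕ∞) ≤ ∞ := by norm_cast
  have key : ∀ x ξ, levi (fun y => ψ y + C / c * g (ρ y)) x ξ = levi ψ x ξ +
      C / c * (deriv g (ρ x) * levi ρ x ξ +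
        deriv (deriv g) (ρ x) * ‖dbar (fun y => (ρ y : ℂ)) x ξ‖ ^ 2) := fun x ξ => by
    have r := (hρ.of_le two).contDiffAt (x := x)
    have q := (gc.of_le two).contDiffAt (x := ρ x)
    rw [levi_add (ψ := fun y => C / c * g (ρ y)) (hψ.of_le two).contDiffAt
      (contDiffAt_const.mul (q.comp x r)), levi_const_mul (φ := fun y => g (ρ y)) _ (q.comp x r),
      levi_comp_real q r]
  have low : ∀ x ξ, levi ψ x ξ ≤ levi (fun y => ψ y + C / c * g (ρ y)) x ξ := fun x ξ => by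
    rw [key]
    have := hρ0 x ξ
    have := g0 (ρ x)
    have := g2 (ρ x)
    exact le_add_of_nonneg_right (by positivity)
  have inn : ∀ x, ρ x < a1 → ∀ ξ, levi ψ x ξ = levi φ x ξ := fun x hx ξ => by
    refine levi_congr ?_ ξ
    filter_upwards [hρ.continuous.continuousAt.eventually (eventually_lt_nhds hx)] with y hy
    simp [ψ, sz _ hy.le]
  refine ⟨fun y => ψ y + C / c * g (ρ y), hψ.add (contDiff_const.mul (gc.comp hρ)),
    fun x ξ => ?_, fun x hx => ?_, fun x hx ξ => ?_⟩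
  · rcases lt_or_ge (ρ x) a1 with h | h
    · exact ((hp x (h.le.trans h2.le) ξ).trans_eq (inn x h ξ).symm).trans (low x ξ)
    rcases lt_or_ge a2 (ρ x) with h' | h'
    · refine le_trans (le_of_eq ?_) (low x ξ)
      rw [← levi_const 0 x ξ]
      refine levi_congr ?_ ξ
      filter_upwards [hρ.continuous.continuousAt.eventually (eventually_gt_nhds h')] with y hy
      simp [ψ, so _ hy.le]
    · have b1 := (abs_le.1 (hC x (h'.trans h4.le) ξ)).1
      have b2 := hρ1 x (h1.le.trans h) (h'.trans h4.le) ξ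
      have b3 : C * ‖ξ‖ ^ 2 ≤ C / c * levi ρ x ξ := by
        calc C * ‖ξ‖ ^ 2 = C / c * (c * ‖ξ‖ ^ 2) := by field_simp
          _ ≤ _ := by gcongr
      have b4 : 0 ≤ C / c * (deriv (deriv g) (ρ x) * ‖dbar (fun y => (ρ y : ℂ)) x ξ‖ ^ 2) := by
        have := g2 (ρ x)
        positivity
      rw [key, g1 _ h]
      nlinarith
  · simp [ψ, sz _ (hx.trans h1.le), gz _ hx]
  · exact (inn x (hx.trans_lt h1) ξ).symm.le.trans (low x ξ)

theorem isCompact_euclid (p : ι → ℂ) (b : ℝ) :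
    IsCompact {x : ι → ℂ | ∑ i, ‖x i - p i‖ ^ 2 ≤ b} := by
  refine (isCompact_closedBall p √b).of_isClosed_subset
    (isClosed_le (contDiff_euclid (n := 0) p).continuous continuous_const) fun x hx => ?_
  rw [mem_closedBall_iff_norm]
  exact Real.le_sqrt_of_sq_le ((norm_sq_le_sum (x - p)).trans hx)

/-- gluing on Euclidean balls -/
theorem glue_ball {U : Set (ι → ℂ)} (hU : IsOpen U) {φ : (ι → ℂ) → ℝ} (hφ : ContDiffOn ℝ ∞ φ U)
    (p : ι → ℂ) {a b : ℝ} (hab : a < b) (hKU : {x | ∑ i, ‖x i - p i‖ ^ 2 ≤ b} ⊆ U)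
    (hp : ∀ x, ∑ i, ‖x i - p i‖ ^ 2 ≤ b → ∀ ξ, 0 ≤ levi φ x ξ) :
    ∃ Φ : (ι → ℂ) → ℝ, ContDiff ℝ ∞ Φ ∧ (∀ x ξ, 0 ≤ levi Φ x ξ) ∧
      (∀ x, ∑ i, ‖x i - p i‖ ^ 2 ≤ a → Φ x = φ x) ∧
      ∀ x, ∑ i, ‖x i - p i‖ ^ 2 ≤ a → ∀ ξ, levi φ x ξ ≤ levi Φ x ξ :=
  glue hU hφ (contDiff_euclid p)
    (fun x ξ => (sq_nonneg _).trans (norm_sq_le_levi_euclid p x ξ)) hab one_pos
    (fun x _ _ ξ => by rw [one_mul]; exact norm_sq_le_levi_euclid p x ξ)
    (isCompact_euclid p b) hKU hp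

end Pool.Agent.Lib.MP_9ff3e7_ag.F
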