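import Pool.Agent.Lib.MP_9ff3e7_ag.F.Liou

/-! Sup, derivative and Lipschitz bounds for holomorphic functions from an `L²` bound. -/

set_option autoImplicit false

namespace Pool.Agent.Lib.MP_9ff3e7_ag.F

open Complex MeasureTheory Metric Filter Topology

variable {ι : Type} [Fintype ι]

/-- the volume of a polydisc -/
theorem vol_ball (x : ι → ℂ) {r : ℝ} (hr : 0 < r) :
    volume (ball x r) = ENNReal.ofReal ((Real.pi * r ^ 2) ^ Fintype.card ι) := by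
  rw [volume_pi_ball x hr]
  simp only [Complex.volume_ball, Finset.prod_const, Finset.card_univ]
  rw [ENNReal.ofReal_pow (by positivity), ENNReal.ofReal_mul Real.pi_pos.le,
    ENNReal.ofReal_pow hr.le, ← NNReal.coe_real_pi, ENNReal.ofReal_coe_nnreal, mul_comm]

/-- the mean value inequality with the explicit constant -/
theorem submean_pi {F : (ι → ℂ) → ℂ} {x : ι → ℂ} {r : ℝ} (hr : 0 < r)
    (hF : DifferentiableOn ℂ F (ball x r)) :
    ENNReal.ofReal (‖F x‖ ^ 2 * (Real.pi * r ^ 2) ^ Fintype.card ι) ≤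
      ∫⁻ y in ball x r, ENNReal.ofReal (‖F y‖ ^ 2) := by
  rw [ENNReal.ofReal_mul (by positivity), ← vol_ball 0 hr]
  exact submean hF

/-- pointwise bound at any point whose `s` ball lies in the domain -/
theorem sq_le_l2 {F : (ι → ℂ) → ℂ} {U : Set (ι → ℂ)} {y : ι → ℂ} {s J : ℝ} (hs : 0 < s)
    (hJ : 0 ≤ J) (hF : DifferentiableOn ℂ F U) (hy : ball y s ⊆ U)
    (hi : ∫⁻ z in U, ENNReal.ofReal (‖F z‖ ^ 2) ≤ ENNReal.ofReal J) :
    ‖F y‖ ^ 2 * (Real.pi * s ^ 2) ^ Fintype.card ι ≤ J :=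
  (ENNReal.ofReal_le_ofReal_iff hJ).1
    (((submean_pi hs (hF.mono hy)).trans (lintegral_mono_set hy)).trans hi)

theorem norm_le_l2 {F : (ι → ℂ) → ℂ} {U : Set (ι → ℂ)} {y : ι → ℂ} {s J : ℝ} (hs : 0 < s)
    (hJ : 0 ≤ J) (hF : DifferentiableOn ℂ F U) (hy : ball y s ⊆ U)
    (hi : ∫⁻ z in U, ENNReal.ofReal (‖F z‖ ^ 2) ≤ ENNReal.ofReal J) :
    ‖F y‖ ≤ √(J / (Real.pi * s ^ 2) ^ Fintype.card ι) :=
  Real.le_sqrt_of_sq_le ((le_div_iff₀ (by positivity)).2 (sq_le_l2 hs hJ hF hy hi))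

theorem ball_half_sub {x y : ι → ℂ} {r : ℝ} (hy : y ∈ ball x (r / 2)) :
    ball y (r / 2) ⊆ ball x r :=
  ball_subset_ball' (by linarith [mem_ball.1 hy])

/-- sup bound on the half polydisc -/
theorem sup_l2 {F : (ι → ℂ) → ℂ} {x y : ι → ℂ} {r J : ℝ} (hJ : 0 ≤ J)
    (hF : DifferentiableOn ℂ F (ball x r))
    (hi : ∫⁻ z in ball x r, ENNReal.ofReal (‖F z‖ ^ 2) ≤ ENNReal.ofReal J)
    (hy : y ∈ ball x (r / 2)) :
    ‖F y‖ ≤ √(J / (Real.pi * (r / 2) ^ 2) ^ Fintype.card ι) :=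
  norm_le_l2 (pos_of_mem_ball hy) hJ hF (ball_half_sub hy) hi

/-- Lipschitz bound at the centre from a sup bound -/
theorem lip_of_sup {F : (ι → ℂ) → ℂ} {x y : ι → ℂ} {r M : ℝ}
    (hF : DifferentiableOn ℂ F (ball x r)) (hM : ∀ z ∈ ball x r, ‖F z‖ ≤ M) (hy : y ∈ ball x r) :
    ‖F y - F x‖ ≤ 2 * M / r * ‖y - x‖ := by
  have := dist_le_div_mul_dist_of_mapsTo_ball (R₂ := 2 * M) hF (fun z hz => by
    rw [mem_closedBall_iff_norm]
    linarith [norm_sub_le (F z) (F x), hM z hz, hM x (mem_ball_self (pos_of_mem_ball hy))]) hy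
  rwa [dist_eq_norm, dist_eq_norm] at this

/-- derivative bound at the centre from a sup bound -/
theorem fderiv_of_sup {F : (ι → ℂ) → ℂ} {x : ι → ℂ} {r M : ℝ} (hr : 0 < r)
    (hF : DifferentiableOn ℂ F (ball x r)) (hM : ∀ z ∈ ball x r, ‖F z‖ ≤ M) :
    ‖fderiv ℂ F x‖ ≤ 2 * M / r :=
  norm_fderiv_le_div_of_mapsTo_ball hF (fun z hz => by
    rw [mem_closedBall_iff_norm]
    linarith [norm_sub_le (F z) (F x), hM z hz, hM x (mem_ball_self hr)]) hr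

/-- Lipschitz bound on the half polydisc from a sup bound -/
theorem lip2_of_sup {F : (ι → ℂ) → ℂ} {x y y' : ι → ℂ} {r M : ℝ}
    (hF : DifferentiableOn ℂ F (ball x r)) (hM : ∀ z ∈ ball x r, ‖F z‖ ≤ M)
    (hy : y ∈ ball x (r / 2)) (hy' : y' ∈ ball x (r / 2)) :
    ‖F y - F y'‖ ≤ 4 * M / r * ‖y - y'‖ := by
  have r0 := pos_of_mem_ball hy
  refine (convex_ball x (r / 2)).norm_image_sub_le_of_norm_fderiv_le (𝕜 := ℂ) (fun z hz =>
    hF.differentiableAt (isOpen_ball.mem_nhds (ball_subset_ball (by linarith) hz)))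
    (fun z hz => ?_) hy' hy
  refine (fderiv_of_sup r0 (hF.mono (ball_half_sub hz))
    fun w hw => hM w (ball_half_sub hz hw)).trans_eq ?_
  have : r ≠ 0 := by linarith
  field_simp
  ring

/-- Lipschitz bound at the centre from an `L²` bound -/
theorem lip_l2 {F : (ι → ℂ) → ℂ} {x y : ι → ℂ} {r J : ℝ} (hJ : 0 ≤ J)
    (hF : DifferentiableOn ℂ F (ball x r))
    (hi : ∫⁻ z in ball x r, ENNReal.ofReal (‖F z‖ ^ 2) ≤ ENNReal.ofReal J)
    (hy : y ∈ ball x (r / 2)) :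
    ‖F y - F x‖ ≤ 2 * √(J / (Real.pi * (r / 2) ^ 2) ^ Fintype.card ι) / (r / 2) * ‖y - x‖ :=
  lip_of_sup (hF.mono (ball_subset_ball (by linarith [pos_of_mem_ball hy])))
    (fun _ hz => sup_l2 hJ hF hi hz) hy

/-- Lipschitz bound on the quarter polydisc from an `L²` bound -/
theorem lip2_l2 {F : (ι → ℂ) → ℂ} {x y y' : ι → ℂ} {r J : ℝ} (hJ : 0 ≤ J)
    (hF : DifferentiableOn ℂ F (ball x r))
    (hi : ∫⁻ z in ball x r, ENNReal.ofReal (‖F z‖ ^ 2) ≤ ENNReal.ofReal J)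
    (hy : y ∈ ball x (r / 2 / 2)) (hy' : y' ∈ ball x (r / 2 / 2)) :
    ‖F y - F y'‖ ≤ 4 * √(J / (Real.pi * (r / 2) ^ 2) ^ Fintype.card ι) / (r / 2) * ‖y - y'‖ :=
  lip2_of_sup (hF.mono (ball_subset_ball (by linarith [pos_of_mem_ball hy])))
    (fun _ hz => sup_l2 hJ hF hi hz) hy hy'

/-- equicontinuity at the centre of an `L²` bounded family -/
theorem equi_l2 (ι : Type) [Fintype ι] {r ε : ℝ} (hr : 0 < r) (hε : 0 < ε) {C : ENNReal}
    (hC : C ≠ ⊤) : ∃ δ : ℝ, 0 < δ ∧ δ ≤ r ∧ ∀ (F : (ι → ℂ) → ℂ) (x : ι → ℂ),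
      DifferentiableOn ℂ F (ball x r) → ∫⁻ z in ball x r, ENNReal.ofReal (‖F z‖ ^ 2) ≤ C →
      ∀ y ∈ ball x δ, ‖F y - F x‖ ≤ ε := by
  set L := 2 * √(C.toReal / (Real.pi * (r / 2) ^ 2) ^ Fintype.card ι) / (r / 2) with hL
  have L0 : 0 ≤ L := by positivity
  refine ⟨min (r / 2) (ε / (L + 1)), by positivity, (min_le_left _ _).trans (by linarith),
    fun F x hF hi y hy => ?_⟩
  have h1 := lip_l2 ENNReal.toReal_nonneg hF (hi.trans_eq (ENNReal.ofReal_toReal hC).symm)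
    (ball_subset_ball (min_le_left _ _) hy)
  have h2 : ‖y - x‖ < ε / (L + 1) := (mem_ball_iff_norm.1 hy).trans_le (min_le_right _ _)
  rw [lt_div_iff₀ (by positivity)] at h2
  rw [← hL] at h1
  nlinarith [norm_nonneg (y - x)]

/-- uniform bound on the half polydisc of an `L²` bounded family -/
theorem bdd_l2 (ι : Type) [Fintype ι] (r : ℝ) {C : ENNReal} (hC : C ≠ ⊤) :
    ∃ M : ℝ, 0 ≤ M ∧ ∀ (F : (ι → ℂ) → ℂ) (x : ι → ℂ),
      DifferentiableOn ℂ F (ball x r) → ∫⁻ z in ball x r, ENNReal.ofReal (‖F z‖ ^ 2) ≤ C →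
      ∀ y ∈ ball x (r / 2), ‖F y‖ ≤ M :=
  ⟨_, Real.sqrt_nonneg _, fun _ _ hF hi _ hy => sup_l2 ENNReal.toReal_nonneg hF
    (hi.trans_eq (ENNReal.ofReal_toReal hC).symm) hy⟩

/-- small in `L²` implies small on the half polydisc -/
theorem small_l2 (ι : Type) [Fintype ι] {r ε : ℝ} (hr : 0 < r) (hε : 0 < ε) :
    ∃ η : ℝ, 0 < η ∧ ∀ (F : (ι → ℂ) → ℂ) (x : ι → ℂ),
      DifferentiableOn ℂ F (ball x r) →
      ∫⁻ z in ball x r, ENNReal.ofReal (‖F z‖ ^ 2) ≤ ENNReal.ofReal η →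
      ∀ y ∈ ball x (r / 2), ‖F y‖ ≤ ε := by
  have p : 0 < (Real.pi * (r / 2) ^ 2) ^ Fintype.card ι := by positivity
  refine ⟨ε ^ 2 * (Real.pi * (r / 2) ^ 2) ^ Fintype.card ι, by positivity,
    fun F x hF hi y hy => (sup_l2 (by positivity) hF hi hy).trans_eq ?_⟩
  rw [mul_div_assoc, div_self p.ne', mul_one, Real.sqrt_sq hε.le]

/-- the mean value inequality in the last block of variables, integrated over the first block -/
theorem submean_snd {α : Type} [MeasurableSpace α] (μ : Measure α) {F : α → (ι → ℂ) → ℂ}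
    {x : ι → ℂ} {r : ℝ} {K : Set α} (hK : MeasurableSet K) (w : α → ENNReal)
    (hw : ∀ a ∈ K, w a ≠ ⊤) (hF : ∀ a ∈ K, DifferentiableOn ℂ (F a) (ball x r)) :
    (∫⁻ a in K, ENNReal.ofReal (‖F a x‖ ^ 2) * w a ∂μ) * volume (ball (0 : ι → ℂ) r) ≤
      ∫⁻ a in K, (∫⁻ y in ball x r, ENNReal.ofReal (‖F a y‖ ^ 2) * w a) ∂μ := by
  rw [← lintegral_mul_const' _ _ measure_ball_lt_top.ne]
  refine setLIntegral_mono' hK fun a ha => ?_
  rw [lintegral_mul_const' _ _ (hw a ha), mul_right_comm]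
  exact mul_le_mul_left (submean (hF a ha)) _

end Pool.Agent.Lib.MP_9ff3e7_ag.F
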