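import Pool.Agent.Lib.MP_9ff3e7_ag.F.Osg

/-! The extension theorem of Riemann for a square integrable quotient. -/

set_option autoImplicit false

namespace Pool.Agent.Lib.MP_9ff3e7_ag.F

open Complex MeasureTheory Metric Filter Topology Set

namespace Riem

theorem nonint {ρ : ℝ} (hρ : 0 < ρ) :
    ¬ IntegrableOn (fun z : ℂ => (‖z‖⁻¹) ^ 2) (ball 0 ρ) := fun h => by
  have h1 := (integrableOn_fun_norm_addHaar (volume : Measure ℂ)
    (f := fun y : ℝ => (y⁻¹) ^ 2) (r := ρ)).1 h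
  have h2 : IntervalIntegrable (fun y : ℝ => y⁻¹) volume 0 ρ := by
    rw [intervalIntegrable_iff_integrableOn_Ioo_of_le hρ.le]
    refine h1.congr_fun (fun y hy => ?_) measurableSet_Ioo
    have := hy.1.ne'
    simp only [finrank_real_complex, smul_eq_mul]
    field_simp
    simp
  rcases intervalIntegrable_inv_iff.1 h2 with e | e
  · exact hρ.ne e
  · exact e left_mem_uIcc

/-- a square integrable meromorphic function has no pole -/
theorem no_pole {m : ℂ → ℂ} {t : ℂ} (hm : MeromorphicAt m t) {G : ℂ → ENNReal}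
    (hG : ∫⁻ z, G z < ⊤) (h : ∀ᶠ z in 𝓝 t, ENNReal.ofReal (‖m z‖ ^ 2) ≤ G z) :
    0 ≤ meromorphicOrderAt m t := by
  by_contra ho
  rw [not_le] at ho
  obtain ⟨k, hk⟩ := WithTop.ne_top_iff_exists.mp ho.ne_top
  have k0 : k < 0 := by simpa [← hk] using ho
  obtain ⟨g, ga, g0, hg⟩ := (meromorphicOrderAt_eq_int_iff hm).1 hk.symm
  have c0 : 0 < ‖g t‖ / 2 := by positivity
  have e1 : ∀ᶠ z in 𝓝 t, ‖g t‖ / 2 < ‖g z‖ :=
    ga.continuousAt.norm.eventually (lt_mem_nhds (by linarith))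
  have e2 : ∀ᶠ z in 𝓝[≠] t, ENNReal.ofReal ((‖g t‖ / 2) ^ 2 * (‖z - t‖⁻¹) ^ 2) ≤ G z := by
    filter_upwards [hg, nhdsWithin_le_nhds e1, nhdsWithin_le_nhds h,
      nhdsWithin_le_nhds (ball_mem_nhds t one_pos), self_mem_nhdsWithin] with z h1 h2 h3 h4 h5
    refine (ENNReal.ofReal_le_ofReal ?_).trans h3
    have p : 0 < ‖z - t‖ := norm_pos_iff.2 (sub_ne_zero.2 h5)
    have q : ‖z - t‖⁻¹ ≤ ‖z - t‖ ^ k := by
      rw [← zpow_neg_one]
      exact zpow_le_zpow_right_of_le_one₀ p (mem_ball_iff_norm.1 h4).le (by omega)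
    rw [h1, norm_smul, norm_zpow, ← mul_pow, mul_comm]
    gcongr
  rw [eventually_nhdsWithin_iff, Metric.eventually_nhds_iff_ball] at e2
  obtain ⟨ρ, ρ0, hρ⟩ := e2
  refine nonint ρ0 ?_
  have i : IntegrableOn (fun z : ℂ => (‖g t‖ / 2) ^ 2 * (‖z‖⁻¹) ^ 2) (ball 0 ρ) := by
    refine ⟨Measurable.aestronglyMeasurable (by fun_prop), ?_⟩
    rw [hasFiniteIntegral_iff_ofReal (.of_forall fun z => by positivity)]
    rw [← lintegral_add_left_eq_self G t] at hG
    refine lt_of_le_of_lt ((setLIntegral_mono' measurableSet_ball fun z hz => ?_).trans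
      (setLIntegral_le_lintegral _ _)) hG
    by_cases z0 : z = 0
    · simp [z0]
    · simpa using hρ (t + z) (by simpa using hz) (by simpa using z0)
  have := i.const_mul (((‖g t‖ / 2) ^ 2)⁻¹)
  refine this.congr (.of_forall fun z => ?_)
  have : (‖g t‖ / 2) ^ 2 ≠ 0 := by positivity
  simp only
  rw [inv_mul_cancel_left₀ this]

/-- the one variable case, with the mean value as the quotient -/
theorem slice {f g : ℂ → ℂ} (hf : AnalyticOnNhd ℂ f (closedBall 0 1))
    (hg : AnalyticOnNhd ℂ g (closedBall 0 1)) (h0 : ∀ t ∈ sphere (0 : ℂ) 1, g t ≠ 0)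
    (hi : ∫⁻ t in ball (0 : ℂ) 1, ENNReal.ofReal (‖f t / g t‖ ^ 2) < ⊤) :
    f 0 = g 0 * Real.circleAverage (fun t => f t / g t) 0 1 := by
  have hm : MeromorphicOn (fun t => f t / g t) (closedBall 0 1) := fun t ht =>
    (hf t ht).meromorphicAt.div (hg t ht).meromorphicAt
  set M := toMeromorphicNFOn (fun t => f t / g t) (closedBall 0 1) with hM
  have e : ∀ t ∈ closedBall (0 : ℂ) 1, M =ᶠ[𝓝[≠] t] fun t => f t / g t := fun t ht =>
    hm.toMeromorphicNFOn_eq_self_on_nhdsNE ht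
  have an : ∀ t ∈ closedBall (0 : ℂ) 1, g t ≠ 0 → AnalyticAt ℂ (fun t => f t / g t) t :=
    fun t ht h => (hf t ht).div (hg t ht) h
  have Ma : AnalyticOnNhd ℂ M (closedBall 0 1) := fun t ht => by
    rw [← (meromorphicNFOn_toMeromorphicNFOn _ _ ht).meromorphicOrderAt_nonneg_iff_analyticAt,
      meromorphicOrderAt_congr (e t ht)]
    by_cases h : t ∈ ball (0 : ℂ) 1
    · rw [← lintegral_indicator measurableSet_ball] at hi
      refine no_pole (hm t ht) hi ?_
      filter_upwards [isOpen_ball.mem_nhds h] with z hz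
      rw [indicator_of_mem hz]
    · exact (an t ht (h0 t (by
        rw [← closedBall_sdiff_ball]
        exact ⟨ht, h⟩))).meromorphicOrderAt_nonneg
  have z0 : (0 : ℂ) ∈ closedBall (0 : ℂ) 1 := mem_closedBall_self zero_le_one
  have av : Real.circleAverage (fun t => f t / g t) 0 1 = M 0 := by
    rw [← DiffContOnCl.circleAverage (f := M) (c := 0) (R := 1) (by
      simpa using (Ma.differentiableOn.mono closure_ball_subset_closedBall).diffContOnCl)]
    refine Real.circleAverage_congr_sphere fun t ht => ?_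
    rw [abs_one] at ht
    have ht' := sphere_subset_closedBall ht
    exact ((((Ma t ht').continuousAt.eventuallyEq_nhds_iff_eventuallyEq_nhdsNE
      (an t ht' (h0 t ht)).continuousAt).1 (e t ht')).eq_of_nhds).symm
  rw [av]
  have ne : ∀ᶠ t in 𝓝[≠] (0 : ℂ), g t ≠ 0 :=
    (hg 0 z0).eventually_eq_zero_or_eventually_ne_zero.resolve_left fun h =>
      h0 1 (by simp) (hg.eqOn_zero_of_preconnected_of_eventuallyEq_zero
        (convex_closedBall _ _).isPreconnected z0 h (by simp))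
  refine (((hf 0 z0).continuousAt.eventuallyEq_nhds_iff_eventuallyEq_nhdsNE
    ((hg 0 z0).continuousAt.mul (Ma 0 z0).continuousAt)).1 ?_).eq_of_nhds
  filter_upwards [e 0 z0, ne] with t h1 h2
  rw [Pi.mul_apply, h1, mul_div_cancel₀ _ h2]

variable {ι : Type} [Fintype ι]

theorem line_mem {y0 y v : ι → ℂ} {δ η : ℝ} (hv : ‖v‖ + η ≤ δ) (hy : y ∈ ball y0 η) {t : ℂ}
    (ht : t ∈ closedBall (0 : ℂ) 1) : y + t • v ∈ ball y0 δ := by
  rw [mem_ball_iff_norm] at hy ⊢
  have : ‖t • v‖ ≤ ‖v‖ := by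
    rw [norm_smul]
    exact mul_le_of_le_one_left (norm_nonneg _) (mem_closedBall_zero_iff.1 ht)
  rw [add_sub_right_comm]
  linarith [norm_add_le (y - y0) (t • v)]

theorem line_an {y0 y v : ι → ℂ} {δ η : ℝ} (hv : ‖v‖ + η ≤ δ) (hy : y ∈ ball y0 η)
    {a : (ι → ℂ) → ℂ} (ha : AnalyticOnNhd ℂ a (ball y0 δ)) :
    AnalyticOnNhd ℂ (fun t : ℂ => a (y + t • v)) (closedBall 0 1) := fun t ht =>
  AnalyticAt.comp (g := a) (f := fun t : ℂ => y + t • v) (ha _ (line_mem hv hy ht)) (by fun_prop)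

/-- a circle around the point on which the denominator has no zero -/
theorem exists_dir {b : (ι → ℂ) → ℂ} {y0 : ι → ℂ} {δ : ℝ} (hδ : 0 < δ)
    (hb : AnalyticOnNhd ℂ b (ball y0 δ)) (hb0 : ¬ ∀ᶠ y in 𝓝 y0, b y = 0) :
    ∃ v : ι → ℂ, ‖v‖ < δ ∧ ∀ t ∈ sphere (0 : ℂ) 1, b (y0 + t • v) ≠ 0 := by
  obtain ⟨w, hw0, hw⟩ := ((not_eventually.1 hb0).and_eventually (ball_mem_nhds y0 hδ)).exists
  rw [dist_eq_norm] at hw
  have hg := line_an (v := w - y0) (η := δ - ‖w - y0‖) (by linarith)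
    (mem_ball_self (by linarith)) hb
  have z0 : (0 : ℂ) ∈ closedBall (0 : ℂ) 1 := mem_closedBall_self zero_le_one
  have ne := (hg 0 z0).eventually_eq_zero_or_eventually_ne_zero.resolve_left fun h =>
    hw0 (by simpa using hg.eqOn_zero_of_preconnected_of_eventuallyEq_zero
              (convex_closedBall _ _).isPreconnected z0 h (x := 1) (by simp))
  rw [eventually_nhdsWithin_iff, Metric.eventually_nhds_iff_ball] at ne
  obtain ⟨ρ, ρ0, hρ⟩ := ne
  have s0 : 0 < min (ρ / 2) 1 := by positivity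
  refine ⟨((min (ρ / 2) 1 : ℝ) : ℂ) • (w - y0), ?_, fun t ht => ?_⟩
  · rw [norm_smul, norm_real, Real.norm_of_nonneg s0.le]
    exact (mul_le_of_le_one_left (norm_nonneg _) (min_le_right _ _)).trans_lt hw
  · have n : ‖t * ((min (ρ / 2) 1 : ℝ) : ℂ)‖ = min (ρ / 2) 1 := by
      rw [norm_mul, mem_sphere_zero_iff_norm.1 ht, one_mul, norm_real, Real.norm_of_nonneg s0.le]
    rw [smul_smul]
    refine hρ _ (mem_ball_zero_iff.2 ?_) (norm_pos_iff.1 ?_)
    · rw [n]
      exact (min_le_left _ _).trans_lt (by linarith)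
    · rwa [n]

/-- the mean over a circle of translates is differentiable -/
theorem avg_diff {q : (ι → ℂ) → ℂ} {K : Set (ι → ℂ)} (hK : IsCompact K)
    (hq : AnalyticOnNhd ℂ q K) {y0 v : ι → ℂ} {η : ℝ}
    (h : ∀ y ∈ ball y0 η, ∀ t ∈ sphere (0 : ℂ) 1, y + t • v ∈ K) :
    DifferentiableOn ℂ (fun y => Real.circleAverage (fun t => q (y + t • v)) 0 1) (ball y0 η) := by
  obtain ⟨C, hC⟩ := hK.exists_bound_of_continuousOn hq.fderiv.continuousOn
  have m : ∀ y ∈ ball y0 η, ∀ t : Osg.Tc, y + fourier 1 t • v ∈ K := fun y hy t =>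
    h y hy _ (mem_sphere_zero_iff_norm.2 (Osg.nrm t))
  have c : ∀ y ∈ ball y0 η, Continuous fun t : Osg.Tc => q (y + fourier 1 t • v) := fun y hy =>
    hq.continuousOn.comp_continuous (by fun_prop) (m y hy)
  intro y hy
  have n := isOpen_ball.mem_nhds hy
  have d := hasFDerivAt_integral_of_dominated_of_fderiv_le (𝕜 := ℂ)
    (μ := (AddCircle.haarAddCircle : Measure Osg.Tc))
    (F := fun y t => q (y + fourier 1 t • v)) (F' := fun y t => fderiv ℂ q (y + fourier 1 t • v))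
    (bound := fun _ => C) n (mem_of_superset n fun z hz => (c z hz).aestronglyMeasurable)
    ((c y hy).integrable_of_hasCompactSupport (.of_compactSpace _))
    (hq.fderiv.continuousOn.comp_continuous (by fun_prop) (m y hy)).aestronglyMeasurable
    (.of_forall fun t z hz => hC _ (m z hz t)) (integrable_const C)
    (.of_forall fun t z hz => by
      simpa [Function.comp_def] using (hq _ (m z hz t)).differentiableAt.hasFDerivAt.comp z
        ((hasFDerivAt_id z).add_const (fourier 1 t • v)))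
  simp only [← Osg.avg]
  exact d.differentiableAt.differentiableWithinAt

/-- almost every slice of an integrable function is integrable -/
theorem ae_slice {G : (ι → ℂ) → ENNReal} (hG : Measurable G) (hi : ∫⁻ y, G y < ⊤) (v : ι → ℂ) :
    ∀ᵐ y, ∫⁻ t in ball (0 : ℂ) 1, G (y + t • v) < ⊤ := by
  have m : Measurable fun p : (ι → ℂ) × ℂ => G (p.1 + p.2 • v) := hG.comp (by fun_prop)
  refine ae_lt_top m.lintegral_prod_right' ?_
  rw [lintegral_lintegral_swap m.aemeasurable]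
  simp only [lintegral_add_right_eq_self, lintegral_const, Measure.restrict_apply_univ]
  exact ENNReal.mul_ne_top hi.ne measure_ball_lt_top.ne

theorem meas_ind {U : Set (ι → ℂ)} (hU : IsOpen U) {g : (ι → ℂ) → ENNReal}
    (hg : ContinuousOn g U) : Measurable (U.indicator g) := by
  classical
  exact hg.measurable_piecewise continuousOn_const hU.measurableSet

end Riem

/-- X3-R1: `L²` Riemann extension for a quotient -/
theorem riemann_l2 {ι : Type} [Fintype ι] {a b : (ι → ℂ) → ℂ} {y0 : ι → ℂ} {δ : ℝ} (hδ : 0 < δ)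
    (ha : AnalyticOnNhd ℂ a (ball y0 δ)) (hb : AnalyticOnNhd ℂ b (ball y0 δ))
    (hb0 : ¬ ∀ᶠ y in nhds y0, b y = 0)
    (hi : ∫⁻ y in ball y0 δ ∩ {y | b y ≠ 0}, ENNReal.ofReal (‖a y / b y‖ ^ 2) < ⊤) :
    ∃ h : (ι → ℂ) → ℂ, AnalyticAt ℂ h y0 ∧ ∀ᶠ y in nhds y0, a y = b y * h y := by
  obtain ⟨v, hv, h0⟩ := Riem.exists_dir hδ hb hb0
  have O : IsOpen (ball y0 δ ∩ {y | b y ≠ 0}) :=
    hb.continuousOn.isOpen_inter_preimage isOpen_ball isOpen_ne
  have qa : AnalyticOnNhd ℂ (fun y => a y / b y) (ball y0 δ ∩ {y | b y ≠ 0}) := fun y hy =>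
    (ha y hy.1).div (hb y hy.1) hy.2
  have K : IsCompact ((fun t : ℂ => y0 + t • v) '' sphere 0 1) :=
    (isCompact_sphere _ _).image (by fun_prop)
  obtain ⟨η1, η0, hη⟩ := K.exists_cthickening_subset_open O (by
    rintro _ ⟨t, ht, rfl⟩
    exact ⟨Riem.line_mem (η := δ - ‖v‖) (by linarith) (mem_ball_self (by linarith))
      (sphere_subset_closedBall ht), h0 t ht⟩)
  obtain ⟨η, e0, e1, e2⟩ : ∃ η : ℝ, 0 < η ∧ η ≤ η1 ∧ ‖v‖ + η ≤ δ :=
    ⟨min η1 (δ - ‖v‖), lt_min η0 (by linarith), min_le_left _ _,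
      by linarith [min_le_right η1 (δ - ‖v‖)]⟩
  have m : ∀ y ∈ ball y0 η, ∀ t ∈ sphere (0 : ℂ) 1,
      y + t • v ∈ cthickening η1 ((fun t : ℂ => y0 + t • v) '' sphere 0 1) := fun y hy t ht =>
    mem_cthickening_of_dist_le _ _ _ _ ⟨t, ht, rfl⟩ (by
      rw [dist_add_right]
      exact (mem_ball.1 hy).le.trans e1)
  have d := Riem.avg_diff K.cthickening (qa.mono hη) m
  refine ⟨_, osgood isOpen_ball d y0 (mem_ball_self e0), ?_⟩
  have s : ball y0 η ⊆ ball y0 δ := ball_subset_ball (by linarith [norm_nonneg v])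
  rw [← lintegral_indicator O.measurableSet] at hi
  have gm : Measurable ((ball y0 δ ∩ {y | b y ≠ 0}).indicator
      fun y => ENNReal.ofReal (‖a y / b y‖ ^ 2)) :=
    Riem.meas_ind O (ENNReal.continuous_ofReal.comp_continuousOn (qa.continuousOn.norm.pow 2))
  refine mem_of_superset (ball_mem_nhds y0 e0) (Measure.eqOn_open_of_ae_eq (μ := volume) ?_
    isOpen_ball (ha.continuousOn.mono s) ((hb.continuousOn.mono s).mul d.continuousOn))
  filter_upwards [ae_restrict_of_ae (Riem.ae_slice gm hi v), ae_restrict_mem measurableSet_ball]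
    with y h1 hy
  have := Riem.slice (Riem.line_an e2 hy ha) (Riem.line_an e2 hy hb)
    (fun t ht => (hη (m y hy t ht)).2)
    (lt_of_le_of_lt (setLIntegral_mono' measurableSet_ball fun t ht => by
      by_cases z : b (y + t • v) = 0
      · simp [z]
      · rw [indicator_of_mem (mem_inter (Riem.line_mem e2 hy (ball_subset_closedBall ht)) z)]) h1)
  simpa using this

end Pool.Agent.Lib.MP_9ff3e7_ag.F
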