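import Pool.Agent.Lib.MP_9ff3e7_ag.F.LeviA

/-! Calculus for `dbar` and `levi`, part B: the rules. -/

set_option autoImplicit false
set_option linter.unusedSectionVars false

namespace Pool.Agent.Lib.MP_9ff3e7_ag.F

open Complex Filter Topology Lv
open scoped ComplexConjugate

variable {ι κ : Type} [Fintype ι] [Fintype κ]

/-! ### `dbar` -/

theorem dbar_congr {f g : (ι → ℂ) → ℂ} {x : ι → ℂ} (h : f =ᶠ[𝓝 x] g) (ξ : ι → ℂ) :
    dbar f x ξ = dbar g x ξ := by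
  rw [dbar, dbar, h.fderiv_eq]

@[simp] theorem dbar_const (c : ℂ) (x ξ : ι → ℂ) : dbar (fun _ => c) x ξ = 0 := by
  simp [dbar]

theorem dbar_add {f g : (ι → ℂ) → ℂ} {x : ι → ℂ} (hf : DifferentiableAt ℝ f x)
    (hg : DifferentiableAt ℝ g x) (ξ : ι → ℂ) :
    dbar (fun y => f y + g y) x ξ = dbar f x ξ + dbar g x ξ := by
  simp only [dbar, fderiv_fun_add hf hg, add_apply]
  ring

theorem dbar_sub {f g : (ι → ℂ) → ℂ} {x : ι → ℂ} (hf : DifferentiableAt ℝ f x)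
    (hg : DifferentiableAt ℝ g x) (ξ : ι → ℂ) :
    dbar (fun y => f y - g y) x ξ = dbar f x ξ - dbar g x ξ := by
  simp only [dbar, fderiv_fun_sub hf hg, sub_apply]
  ring

theorem dbar_neg (f : (ι → ℂ) → ℂ) (x ξ : ι → ℂ) :
    dbar (fun y => -f y) x ξ = -dbar f x ξ := by
  simp only [dbar, fderiv_fun_neg, neg_apply]
  ring

theorem dbar_mul {f g : (ι → ℂ) → ℂ} {x : ι → ℂ} (hf : DifferentiableAt ℝ f x)
    (hg : DifferentiableAt ℝ g x) (ξ : ι → ℂ) :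
    dbar (fun y => f y * g y) x ξ = f x * dbar g x ξ + g x * dbar f x ξ := by
  simp only [dbar, fderiv_fun_mul hf hg, add_apply,
    smul_apply, smul_eq_mul]
  ring

theorem dbar_const_mul (c : ℂ) {f : (ι → ℂ) → ℂ} {x : ι → ℂ} (hf : DifferentiableAt ℝ f x)
    (ξ : ι → ℂ) : dbar (fun y => c * f y) x ξ = c * dbar f x ξ := by
  rw [dbar_mul (differentiableAt_const c) hf]
  simp

theorem dbar_sum {α : Type*} (s : Finset α) {f : α → (ι → ℂ) → ℂ} {x : ι → ℂ}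
    (hf : ∀ a ∈ s, DifferentiableAt ℝ (f a) x) (ξ : ι → ℂ) :
    dbar (fun y => ∑ a ∈ s, f a y) x ξ = ∑ a ∈ s, dbar (f a) x ξ := by
  simp only [dbar, fderiv_fun_sum hf, sum_apply, Finset.mul_sum,
    ← Finset.sum_add_distrib, Finset.sum_div]

theorem dbar_holo {f : (ι → ℂ) → ℂ} {x : ι → ℂ} (hf : DifferentiableAt ℂ f x) (ξ : ι → ℂ) :
    dbar f x ξ = 0 := by
  rw [dbar, fderiv_real_apply hf, fderiv_real_apply hf, map_smul, smul_eq_mul, ← mul_assoc,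
    I_mul_I]
  ring

theorem dbar_holo_mul {f g : (ι → ℂ) → ℂ} {x : ι → ℂ} (hf : DifferentiableAt ℂ f x)
    (hg : DifferentiableAt ℝ g x) (ξ : ι → ℂ) :
    dbar (fun y => f y * g y) x ξ = f x * dbar g x ξ := by
  rw [dbar_mul (hf.restrictScalars ℝ) hg, dbar_holo hf]
  simp

theorem dbar_conj_holo {f : (ι → ℂ) → ℂ} {x : ι → ℂ} (hf : DifferentiableAt ℂ f x) (ξ : ι → ℂ) :
    dbar (fun y => conj (f y)) x ξ = conj (fderiv ℂ f x ξ) := by
  have e : fderiv ℝ (fun y => conj (f y)) x =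
      (conjCLE : ℂ →L[ℝ] ℂ).comp (fderiv ℝ f x) :=
    ((conjCLE : ℂ →L[ℝ] ℂ).hasFDerivAt.comp x (hf.restrictScalars ℝ).hasFDerivAt).fderiv
  rw [dbar, e]
  simp only [ContinuousLinearMap.comp_apply, fderiv_real_apply hf, map_smul, smul_eq_mul,
    ContinuousLinearEquiv.coe_coe, conjCLE_apply, map_mul, conj_I]
  linear_combination (-(conj (fderiv ℂ f x ξ)) / 2) * I_mul_I

/-- `dbar` is antilinear in the vector -/
theorem dbar_vec_add (f : (ι → ℂ) → ℂ) (x ξ η : ι → ℂ) :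
    dbar f x (ξ + η) = dbar f x ξ + dbar f x η := by
  simp only [dbar, smul_add, map_add]
  ring

theorem dbar_vec_smul (f : (ι → ℂ) → ℂ) (x : ι → ℂ) (c : ℂ) (ξ : ι → ℂ) :
    dbar f x (c • ξ) = conj c * dbar f x ξ := by
  have e1 : c • ξ = c.re • ξ + c.im • (I • ξ) := by
    funext i
    simp only [Pi.smul_apply, Pi.add_apply, smul_eq_mul, real_smul]
    conv_lhs => rw [← re_add_im c]
    ring
  have e2 : I • c • ξ = c.re • (I • ξ) + (-c.im) • ξ := by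
    funext i
    simp only [Pi.smul_apply, Pi.add_apply, smul_eq_mul, real_smul, ofReal_neg]
    conv_lhs => rw [← re_add_im c]
    linear_combination ((c.im : ℂ) * ξ i) * I_mul_I
  have e3 : conj c = c.re - c.im * I := by
    apply Complex.ext <;> simp
  rw [dbar, dbar, e2, e1, e3]
  simp only [map_add, map_smul, real_smul, ofReal_neg]
  linear_combination ((c.im : ℂ) * fderiv ℝ f x (I • ξ) / 2) * I_mul_I

theorem differentiableAt_of_dbar {f : (ι → ℂ) → ℂ} {x : ι → ℂ} (hf : DifferentiableAt ℝ f x)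
    (h : ∀ ξ, dbar f x ξ = 0) : DifferentiableAt ℂ f x := by
  have k : ∀ ξ, fderiv ℝ f x (I • ξ) = I * fderiv ℝ f x ξ := fun ξ => by
    have := h ξ
    rw [dbar] at this
    linear_combination (-2 * I) * this + fderiv ℝ f x (I • ξ) * I_mul_I
  let L : (ι → ℂ) →L[ℂ] ℂ :=
    { toFun := fderiv ℝ f x
      map_add' := map_add _
      map_smul' := fun c ξ => by
        have e1 : c • ξ = c.re • ξ + c.im • (I • ξ) := by
          funext i
          simp only [Pi.smul_apply, Pi.add_apply, smul_eq_mul, real_smul]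
          conv_lhs => rw [← re_add_im c]
          ring
        rw [e1]
        simp only [map_add, map_smul, real_smul, k, RingHom.id_apply, smul_eq_mul]
        conv_rhs => rw [← re_add_im c]
        ring
      cont := (fderiv ℝ f x).continuous }
  exact (differentiableAt_iff_restrictScalars ℝ hf).2 ⟨L, rfl⟩

theorem dbar_comp_holo {f : (ι → ℂ) → ℂ} {g : (κ → ℂ) → (ι → ℂ)} {x : κ → ℂ}
    (hf : DifferentiableAt ℝ f (g x)) (hg : DifferentiableAt ℂ g x) (ξ : κ → ℂ) :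
    dbar (fun y => f (g y)) x ξ = dbar f (g x) (fderiv ℂ g x ξ) := by
  have e : fderiv ℝ (fun y => f (g y)) x = (fderiv ℝ f (g x)).comp (fderiv ℝ g x) :=
    fderiv_comp x hf (hg.restrictScalars ℝ)
  simp only [dbar, e, ContinuousLinearMap.comp_apply, fderiv_real_apply hg, map_smul]

/-- a holomorphic function of one variable after a smooth function -/
theorem dbar_holo_comp {h : ℂ → ℂ} {f : (ι → ℂ) → ℂ} {x : ι → ℂ}
    (hh : DifferentiableAt ℂ h (f x)) (hf : DifferentiableAt ℝ f x) (ξ : ι → ℂ) :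
    dbar (fun y => h (f y)) x ξ = deriv h (f x) * dbar f x ξ := by
  have e : fderiv ℝ (fun y => h (f y)) x = (fderiv ℝ h (f x)).comp (fderiv ℝ f x) :=
    fderiv_comp x (hh.restrictScalars ℝ) hf
  simp only [dbar, e, ContinuousLinearMap.comp_apply, fderiv_real_apply hh, fderiv_eq_smul_deriv,
    smul_eq_mul]
  ring

theorem diffAt_ofReal {φ : (ι → ℂ) → ℝ} {x : ι → ℂ} (hφ : DifferentiableAt ℝ φ x) :
    DifferentiableAt ℝ (fun y => (φ y : ℂ)) x :=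
  ofRealCLM.differentiableAt.comp x hφ

theorem dbar_ofReal {φ : (ι → ℂ) → ℝ} {x : ι → ℂ} (hφ : DifferentiableAt ℝ φ x) (ξ : ι → ℂ) :
    dbar (fun y => (φ y : ℂ)) x ξ =
      ((fderiv ℝ φ x ξ : ℝ) + I * (fderiv ℝ φ x (I • ξ) : ℝ)) / 2 := by
  have e : fderiv ℝ (fun y => (φ y : ℂ)) x = ofRealCLM.comp (fderiv ℝ φ x) :=
    (ofRealCLM.hasFDerivAt.comp x hφ.hasFDerivAt).fderiv
  simp [dbar, e]

theorem norm_dbar_ofReal_sq {φ : (ι → ℂ) → ℝ} {x : ι → ℂ} (hφ : DifferentiableAt ℝ φ x)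
    (ξ : ι → ℂ) : ‖dbar (fun y => (φ y : ℂ)) x ξ‖ ^ 2 =
      (fderiv ℝ φ x ξ ^ 2 + fderiv ℝ φ x (I • ξ) ^ 2) / 4 := by
  rw [dbar_ofReal hφ, Complex.sq_norm, normSq_apply]
  simp
  ring

theorem dbar_comp_real {χ : ℝ → ℝ} {φ : (ι → ℂ) → ℝ} {x : ι → ℂ}
    (hχ : DifferentiableAt ℝ χ (φ x)) (hφ : DifferentiableAt ℝ φ x) (ξ : ι → ℂ) :
    dbar (fun y => (χ (φ y) : ℂ)) x ξ =
      (deriv χ (φ x) : ℝ) * dbar (fun y => (φ y : ℂ)) x ξ := by
  have e : fderiv ℝ (fun y => χ (φ y)) x = (fderiv ℝ χ (φ x)).comp (fderiv ℝ φ x) :=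
    fderiv_comp x hχ hφ
  rw [dbar_ofReal (φ := fun y => χ (φ y)) (hχ.comp x hφ), dbar_ofReal hφ, e]
  simp only [ContinuousLinearMap.comp_apply, fderiv_eq_smul_deriv, smul_eq_mul]
  push_cast
  ring

theorem dbar_normSq {f : (ι → ℂ) → ℂ} {x : ι → ℂ} (hf : DifferentiableAt ℂ f x) (ξ : ι → ℂ) :
    dbar (fun y => ((‖f y‖ ^ 2 : ℝ) : ℂ)) x ξ = f x * conj (fderiv ℂ f x ξ) := by
  have e : (fun y => ((‖f y‖ ^ 2 : ℝ) : ℂ)) = fun y => f y * conj (f y) := by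
    funext y
    rw [mul_conj, Complex.sq_norm]
  have d : DifferentiableAt ℝ (fun y => conj (f y)) x :=
    (conjCLE : ℂ →L[ℝ] ℂ).differentiableAt.comp x (hf.restrictScalars ℝ)
  rw [e, dbar_holo_mul hf d, dbar_conj_holo hf]

theorem dbar_sum_normSq {α : Type*} (s : Finset α) {f : α → (ι → ℂ) → ℂ} {x : ι → ℂ}
    (hf : ∀ a ∈ s, DifferentiableAt ℂ (f a) x) (ξ : ι → ℂ) :
    dbar (fun y => ((∑ a ∈ s, ‖f a y‖ ^ 2 : ℝ) : ℂ)) x ξ =
      ∑ a ∈ s, f a x * conj (fderiv ℂ (f a) x ξ) := by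
  simp only [ofReal_sum]
  rw [dbar_sum s (f := fun a y => ((‖f a y‖ ^ 2 : ℝ) : ℂ))
    (fun a ha => diffAt_ofReal (((hf a ha).restrictScalars ℝ).norm_sq ℂ))]
  exact Finset.sum_congr rfl fun a ha => dbar_normSq (hf a ha) ξ

/-! ### `levi` -/

theorem levi_congr {φ ψ : (ι → ℂ) → ℝ} {x : ι → ℂ} (h : φ =ᶠ[𝓝 x] ψ) (ξ : ι → ℂ) :
    levi φ x ξ = levi ψ x ξ := by
  rw [levi, levi, d2_congr h]

@[simp] theorem levi_const (c : ℝ) (x ξ : ι → ℂ) : levi (fun _ => c) x ξ = 0 := by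
  simp [levi]

theorem levi_add {φ ψ : (ι → ℂ) → ℝ} {x : ι → ℂ} (hφ : ContDiffAt ℝ 2 φ x)
    (hψ : ContDiffAt ℝ 2 ψ x) (ξ : ι → ℂ) :
    levi (fun y => φ y + ψ y) x ξ = levi φ x ξ + levi ψ x ξ := by
  simp only [levi, d2_add hφ hψ, add_apply]
  ring

theorem levi_comp_real {χ : ℝ → ℝ} {φ : (ι → ℂ) → ℝ} {x : ι → ℂ}
    (hχ : ContDiffAt ℝ 2 χ (φ x)) (hφ : ContDiffAt ℝ 2 φ x) (ξ : ι → ℂ) :
    levi (fun y => χ (φ y)) x ξ = deriv χ (φ x) * levi φ x ξ +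
      deriv (deriv χ) (φ x) * ‖dbar (fun y => (φ y : ℂ)) x ξ‖ ^ 2 := by
  rw [norm_dbar_ofReal_sq (hφ.differentiableAt (by norm_num))]
  simp only [levi, d2_comp hχ hφ, d2_real hχ]
  simp only [fderiv_eq_smul_deriv, smul_eq_mul]
  ring

theorem levi_const_mul (c : ℝ) {φ : (ι → ℂ) → ℝ} {x : ι → ℂ} (hφ : ContDiffAt ℝ 2 φ x)
    (ξ : ι → ℂ) : levi (fun y => c * φ y) x ξ = c * levi φ x ξ := by
  have e : deriv (fun t : ℝ => c * t) = fun _ => c := by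
    funext t
    simp
  rw [levi_comp_real (χ := fun t => c * t) (by fun_prop) hφ, e]
  simp

theorem levi_neg {φ : (ι → ℂ) → ℝ} {x : ι → ℂ} (hφ : ContDiffAt ℝ 2 φ x) (ξ : ι → ℂ) :
    levi (fun y => -φ y) x ξ = -levi φ x ξ := by
  simpa using levi_const_mul (-1) hφ ξ

theorem levi_sub {φ ψ : (ι → ℂ) → ℝ} {x : ι → ℂ} (hφ : ContDiffAt ℝ 2 φ x)
    (hψ : ContDiffAt ℝ 2 ψ x) (ξ : ι → ℂ) :
    levi (fun y => φ y - ψ y) x ξ = levi φ x ξ - levi ψ x ξ := by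
  simp only [sub_eq_add_neg]
  rw [levi_add hφ hψ.neg, levi_neg hψ]

theorem levi_add_const {φ : (ι → ℂ) → ℝ} {x : ι → ℂ} (hφ : ContDiffAt ℝ 2 φ x) (c : ℝ)
    (ξ : ι → ℂ) : levi (fun y => φ y + c) x ξ = levi φ x ξ := by
  rw [levi_add hφ contDiffAt_const, levi_const, add_zero]

theorem levi_sum {α : Type*} (s : Finset α) {φ : α → (ι → ℂ) → ℝ} {x : ι → ℂ}
    (hφ : ∀ a ∈ s, ContDiffAt ℝ 2 (φ a) x) (ξ : ι → ℂ) :
    levi (fun y => ∑ a ∈ s, φ a y) x ξ = ∑ a ∈ s, levi (φ a) x ξ := by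
  classical
  induction s using Finset.induction_on with
  | empty => simp
  | insert a s ha ih =>
    simp only [Finset.sum_insert ha]
    rw [levi_add (hφ a (Finset.mem_insert_self _ _))
      (ContDiffAt.sum fun b hb => hφ b (Finset.mem_insert_of_mem hb)),
      ih fun b hb => hφ b (Finset.mem_insert_of_mem hb)]

theorem levi_sq {φ : (ι → ℂ) → ℝ} {x : ι → ℂ} (hφ : ContDiffAt ℝ 2 φ x) (ξ : ι → ℂ) :
    levi (fun y => φ y ^ 2) x ξ =
      2 * φ x * levi φ x ξ + 2 * ‖dbar (fun y => (φ y : ℂ)) x ξ‖ ^ 2 := by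
  have e : deriv (fun t : ℝ => t ^ 2) = fun t => 2 * t := by
    funext t
    simp
  rw [levi_comp_real (χ := fun t => t ^ 2) (by fun_prop) hφ, e]
  simp

theorem levi_mul {φ ψ : (ι → ℂ) → ℝ} {x : ι → ℂ} (hφ : ContDiffAt ℝ 2 φ x)
    (hψ : ContDiffAt ℝ 2 ψ x) (ξ : ι → ℂ) :
    levi (fun y => φ y * ψ y) x ξ = φ x * levi ψ x ξ + ψ x * levi φ x ξ +
      2 * (dbar (fun y => (φ y : ℂ)) x ξ * conj (dbar (fun y => (ψ y : ℂ)) x ξ)).re := by
  have e : (fun y => φ y * ψ y) =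
      fun y => (1 / 4 : ℝ) * ((φ y + ψ y) ^ 2 - (φ y - ψ y) ^ 2) := by
    funext y
    ring
  have d1 := hφ.differentiableAt (by norm_num)
  have d2 := hψ.differentiableAt (by norm_num)
  rw [e, levi_const_mul _ (((hφ.add hψ).pow 2).sub ((hφ.sub hψ).pow 2)),
    levi_sub ((hφ.add hψ).pow 2) ((hφ.sub hψ).pow 2), levi_sq (hφ.add hψ), levi_sq (hφ.sub hψ),
    levi_add hφ hψ, levi_sub hφ hψ, norm_dbar_ofReal_sq (d1.fun_add d2),
    norm_dbar_ofReal_sq (d1.fun_sub d2), dbar_ofReal d1, dbar_ofReal d2, fderiv_fun_add d1 d2,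
    fderiv_fun_sub d1 d2]
  simp [map_ofNat]
  ring

theorem levi_comp_holo {φ : (ι → ℂ) → ℝ} {g : (κ → ℂ) → (ι → ℂ)} {x : κ → ℂ}
    (hφ : ContDiffAt ℝ 2 φ (g x)) (hg : AnalyticAt ℂ g x) (ξ : κ → ℂ) :
    levi (fun y => φ (g y)) x ξ = levi φ (g x) (fderiv ℂ g x ξ) := by
  have g2 : ContDiffAt ℂ 2 g x := hg.contDiffAt
  simp only [levi, d2_comp hφ (g2.restrict_scalars ℝ), d2_holo_I g2,
    fderiv_real_apply hg.differentiableAt, map_smul, map_neg]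
  ring

theorem levi_vec_smul (φ : (ι → ℂ) → ℝ) (x : ι → ℂ) (c : ℂ) (ξ : ι → ℂ) :
    levi φ x (c • ξ) = ‖c‖ ^ 2 * levi φ x ξ := by
  have e1 : c • ξ = c.re • ξ + c.im • (I • ξ) := by
    funext i
    simp only [Pi.smul_apply, Pi.add_apply, smul_eq_mul, real_smul]
    conv_lhs => rw [← re_add_im c]
    ring
  have e2 : I • c • ξ = c.re • (I • ξ) + (-c.im) • ξ := by
    funext i
    simp only [Pi.smul_apply, Pi.add_apply, smul_eq_mul, real_smul, ofReal_neg]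
    conv_lhs => rw [← re_add_im c]
    linear_combination ((c.im : ℂ) * ξ i) * I_mul_I
  rw [levi, levi, e2, e1, Complex.sq_norm, normSq_apply]
  simp only [map_add, map_smul, add_apply, smul_apply,
    smul_eq_mul]
  ring

end Pool.Agent.Lib.MP_9ff3e7_ag.F
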