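import Pool.Agent.Lib.MP_9ff3e7_ag.F.Osg

/-! The mean value inequality on polydiscs and the theorem of Liouville. -/

set_option autoImplicit false

namespace Pool.Agent.Lib.MP_9ff3e7_ag.F

open Complex MeasureTheory Metric Filter Topology

variable {ι : Type} [Fintype ι]

theorem rot_pres (x : ι → ℂ) (a : Circle) :
    MeasurePreserving (fun y : ι → ℂ => x + (a : ℂ) • y) :=
  (measurePreserving_add_left volume x).comp
    (measurePreserving_pi _ _ fun _ : ι => (rotation a).measurePreserving)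

/-- the mean value inequality on a polydisc -/
theorem submean {F : (ι → ℂ) → ℂ} {x : ι → ℂ} {r : ℝ} (hF : DifferentiableOn ℂ F (ball x r)) :
    ENNReal.ofReal (‖F x‖ ^ 2) * volume (ball (0 : ι → ℂ) r) ≤
      ∫⁻ y in ball x r, ENNReal.ofReal (‖F y‖ ^ 2) := by
  classical
  let g := (ball x r).indicator fun y => ENNReal.ofReal (‖F y‖ ^ 2)
  have gm : Measurable g :=
    ContinuousOn.measurable_piecewise (ENNReal.continuous_ofReal.comp_continuousOn
      (hF.continuousOn.norm.pow 2)) continuousOn_const measurableSet_ball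
  have key : ∀ y ∈ ball (0 : ι → ℂ) r, ENNReal.ofReal (‖F x‖ ^ 2) ≤
      ∫⁻ t : Osg.Tc, g (x + fourier 1 t • y) ∂AddCircle.haarAddCircle := fun y hy => by
    have m : ∀ a : ℂ, ‖a‖ ≤ 1 → x + a • y ∈ ball x r := fun a ha => by
      rw [add_mem_ball_iff_norm, norm_smul]
      exact (mul_le_of_le_one_left (norm_nonneg _) ha).trans_lt (mem_ball_zero_iff.1 hy)
    have d : DifferentiableOn ℂ (fun a : ℂ => F (x + a • y) ^ 2) (closedBall 0 1) :=
      (hF.comp (by fun_prop) fun a ha => m a (mem_closedBall_zero_iff.1 ha)).pow 2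
    have e := DiffContOnCl.circleAverage (c := 0) (R := 1) (f := fun a : ℂ => F (x + a • y) ^ 2)
      (by simpa using (d.mono closure_ball_subset_closedBall).diffContOnCl)
    rw [← Osg.avg, zero_smul, add_zero] at e
    rw [← norm_pow, ofReal_norm, ← e]
    refine (enorm_integral_le_lintegral_enorm _).trans_eq (lintegral_congr fun t => ?_)
    simp only [g]
    rw [Set.indicator_of_mem (m _ (Osg.nrm t).le), ← norm_pow, ofReal_norm]
  calc _ = ∫⁻ _ in ball (0 : ι → ℂ) r, ENNReal.ofReal (‖F x‖ ^ 2) := (setLIntegral_const _ _).symm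
    _ ≤ ∫⁻ y, ∫⁻ t : Osg.Tc, g (x + fourier 1 t • y) ∂AddCircle.haarAddCircle :=
        (setLIntegral_mono' measurableSet_ball key).trans (setLIntegral_le_lintegral _ _)
    _ = ∫⁻ t : Osg.Tc, (∫⁻ y, g (x + fourier 1 t • y)) ∂AddCircle.haarAddCircle :=
        lintegral_lintegral_swap (gm.comp (Continuous.measurable (by fun_prop))).aemeasurable
    _ = ∫⁻ _ : Osg.Tc, (∫⁻ y, g y) ∂AddCircle.haarAddCircle :=
        lintegral_congr fun t => (rot_pres x _).lintegral_comp gm
    _ = _ := by rw [lintegral_const, measure_univ, mul_one, lintegral_indicator measurableSet_ball]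

/-- an entire function of polynomial growth is a polynomial -/
theorem poly_of_growth {F : (ι → ℂ) → ℂ} (hF : Differentiable ℂ F) (N : ℕ) {C : ℝ}
    (h : ∀ x, ‖F x‖ ≤ C * (‖x‖ + 2) ^ N) :
    ∃ p : MvPolynomial ι ℂ, p.totalDegree ≤ N ∧ ∀ x, F x = MvPolynomial.eval x p := by
  classical
  have hs : ContDiff ℂ ⊤ F := (osgood isOpen_univ hF.differentiableOn).contDiff
  have C0 : 0 ≤ C := nonneg_of_mul_nonneg_left ((norm_nonneg _).trans (h 0)) (by positivity)
  refine ⟨∑ n ∈ Finset.range (N + 1), ∑ σ : Fin n → ι, MvPolynomial.C ((n.factorial : ℂ)⁻¹ *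
    iteratedFDeriv ℂ n F 0 fun k => Pi.single (σ k) 1) * ∏ k, MvPolynomial.X (σ k), ?_, fun x => ?_⟩
  · refine MvPolynomial.totalDegree_finsetSum_le fun n hn =>
      MvPolynomial.totalDegree_finsetSum_le fun σ _ => (MvPolynomial.totalDegree_mul _ _).trans ?_
    rw [MvPolynomial.totalDegree_C, zero_add]
    refine (MvPolynomial.totalDegree_finsetProd _ _).trans ?_
    simpa [Nat.lt_succ_iff] using hn
  let L : ℂ →L[ℂ] (ι → ℂ) := (1 : ℂ →L[ℂ] ℂ).smulRight x
  have d : Differentiable ℂ (F ∘ L) := hF.comp L.differentiable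
  have e : ∀ n : ℕ, iteratedDeriv n (F ∘ L) 0 = iteratedFDeriv ℂ n F 0 fun _ => x := fun n => by
    rw [iteratedDeriv, L.iteratedFDeriv_comp_right hs 0 le_top]
    simp [L]
  have z : ∀ n ∉ Finset.range (N + 1), iteratedDeriv n (F ∘ L) 0 = 0 := fun n hn => by
    have hn' : N + 1 ≤ n := by simpa using hn
    refine norm_le_zero_iff.1 (ge_of_tendsto (tendsto_const_nhds.div_atTop tendsto_id :
      Tendsto (fun R : ℝ => n.factorial * (C * (‖x‖ + 2) ^ N) / R) atTop _) ?_)
    filter_upwards [eventually_ge_atTop 1] with R hR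
    have R0 : 0 < R := by linarith
    refine (norm_iteratedDeriv_le_of_forall_mem_sphere_norm_le n R0 d.diffContOnCl
      (C := C * (R * (‖x‖ + 2)) ^ N) fun w hw => (h _).trans ?_).trans ?_
    · have : ‖L w‖ = R * ‖x‖ := by simp [L, norm_smul, mem_sphere_zero_iff_norm.1 hw]
      rw [this]
      gcongr
      linarith
    · rw [div_le_div_iff₀ (by positivity) R0]
      calc _ = n.factorial * (C * (‖x‖ + 2) ^ N) * R ^ (N + 1) := by rw [mul_pow]; ring
        _ ≤ _ := by gcongr
  have s := hasSum_taylorSeries_of_entire d 0 1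
  have s' := s.unique (hasSum_sum_of_ne_finset_zero fun n hn => by rw [z n hn]; simp)
  have : F x = (F ∘ L) 1 := by simp [L]
  rw [this, s', map_sum]
  refine Finset.sum_congr rfl fun n _ => ?_
  have q : (fun _ : Fin n => x) = fun _ => ∑ i, x i • (Pi.single i 1 : ι → ℂ) := by
    funext _
    exact pi_eq_sum_univ' x
  rw [e, q, ContinuousMultilinearMap.map_sum, map_sum, sub_zero, one_pow, one_smul, Finset.smul_sum]
  refine Finset.sum_congr rfl fun σ _ => ?_
  rw [ContinuousMultilinearMap.map_smul_univ]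
  simp only [smul_eq_mul, map_mul, MvPolynomial.eval_C, map_prod, MvPolynomial.eval_X]
  ring

/-- Liouville in `L²` form. -/
theorem liouville_l2 {ι : Type} [Fintype ι] {F : (ι → ℂ) → ℂ} (hF : Differentiable ℂ F) (N : ℕ)
    (hi : ∫⁻ x, ENNReal.ofReal (‖F x‖ ^ 2 / (1 + ‖x‖ ^ 2) ^ N) < ⊤) :
    ∃ p : MvPolynomial ι ℂ, p.totalDegree ≤ N ∧ ∀ x, F x = MvPolynomial.eval x p := by
  set J := ∫⁻ x, ENNReal.ofReal (‖F x‖ ^ 2 / (1 + ‖x‖ ^ 2) ^ N)
  have V0 : volume (ball (0 : ι → ℂ) 1) ≠ 0 := (measure_ball_pos _ _ one_pos).ne'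
  have V1 : volume (ball (0 : ι → ℂ) 1) ≠ ⊤ := measure_ball_lt_top.ne
  refine poly_of_growth hF N (C := √(J / volume (ball (0 : ι → ℂ) 1)).toReal) fun x => ?_
  have a : ∫⁻ y in ball x 1, ENNReal.ofReal (‖F y‖ ^ 2) ≤
      ENNReal.ofReal (((‖x‖ + 2) ^ N) ^ 2) * J := by
    rw [← lintegral_const_mul' _ _ ENNReal.ofReal_ne_top]
    refine (setLIntegral_mono' measurableSet_ball fun y hy => ?_).trans
      (setLIntegral_le_lintegral _ _)
    rw [← ENNReal.ofReal_mul (by positivity), ← mul_div_assoc]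
    refine ENNReal.ofReal_le_ofReal ((le_div_iff₀ (by positivity)).2 ?_)
    have : ‖y‖ ≤ ‖x‖ + 1 := by
      linarith [norm_sub_norm_le y x, mem_ball_iff_norm.1 hy]
    rw [mul_comm, ← pow_mul, mul_comm N, pow_mul]
    gcongr
    nlinarith [norm_nonneg x, norm_nonneg y]
  have b := (ENNReal.le_div_iff_mul_le (.inl V0) (.inl V1)).2
    ((submean hF.differentiableOn).trans a)
  rw [mul_div_assoc] at b
  have c := ENNReal.toReal_mono (ENNReal.mul_ne_top ENNReal.ofReal_ne_top
    (ENNReal.div_ne_top hi.ne V0)) b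
  rw [ENNReal.toReal_mul, ENNReal.toReal_ofReal (by positivity),
    ENNReal.toReal_ofReal (by positivity)] at c
  refine (pow_le_pow_iff_left₀ (norm_nonneg _) (by positivity) two_ne_zero).1 ?_
  rwa [mul_pow, Real.sq_sqrt ENNReal.toReal_nonneg, mul_comm]

end Pool.Agent.Lib.MP_9ff3e7_ag.F
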