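import Pool.Agent.Lib.MP_9ff3e7_ag.F.HDefs
import Pool.Agent.Lib.MP_9ff3e7_ag.F.Osg

/-! Weyl's lemma for `∂̄`: a weakly holomorphic function is a.e. equal to a holomorphic one. -/

set_option autoImplicit false

namespace Pool.Agent.Lib.MP_9ff3e7_ag.F

open Complex MeasureTheory Metric ContinuousLinearMap
open scoped ContDiff Convolution

namespace Weyl

variable {ι : Type} [Fintype ι]

theorem diff_of_dbar {F : (ι → ℂ) → ℂ} {x : ι → ℂ} (hF : DifferentiableAt ℝ F x)
    (h : ∀ ξ, dbar F x ξ = 0) : DifferentiableAt ℂ F x := by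
  have hI : ∀ ξ, fderiv ℝ F x (I • ξ) = I * fderiv ℝ F x ξ := fun ξ => by
    have := h ξ
    rw [dbar] at this
    linear_combination (-2 * I) * this + (fderiv ℝ F x (I • ξ)) * I_mul_I
  let L : (ι → ℂ) →L[ℂ] ℂ :=
    { toFun := fderiv ℝ F x
      map_add' := map_add _
      map_smul' := fun c ξ => by
        have : c • ξ = c.re • ξ + c.im • (I • ξ) := by
          conv_lhs => rw [← re_add_im c]
          rw [add_smul, mul_smul, coe_smul, coe_smul]
        rw [this, map_add, map_smul, map_smul, hI]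
        conv_rhs => rw [← re_add_im c]
        simp only [real_smul, RingHom.id_apply, smul_eq_mul]
        ring
      cont := (fderiv ℝ F x).cont }
  exact (hasFDerivAt_of_restrictScalars ℝ hF.hasFDerivAt (f' := L) (by ext1 ξ; rfl)).differentiableAt

theorem cv_fderiv {g a : (ι → ℂ) → ℂ} (hg : LocallyIntegrable g volume) (ha : ContDiff ℝ ∞ a)
    (hc : HasCompactSupport a) (x v : ι → ℂ) :
    fderiv ℝ (g ⋆[mul ℝ ℂ, volume] a) x v = ∫ t, g t * fderiv ℝ a (x - t) v := by
  rw [(hc.hasFDerivAt_convolution_right (mul ℝ ℂ) hg (ha.of_le (by simp)) x).fderiv,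
    convolution_precompR_apply _ hg (hc.fderiv ℝ) (ha.continuous_fderiv (by simp))]
  rfl

theorem cv_int {g a : (ι → ℂ) → ℂ} (hg : LocallyIntegrable g volume) (ha : ContDiff ℝ ∞ a)
    (hc : HasCompactSupport a) (x v : ι → ℂ) :
    Integrable fun t => g t * fderiv ℝ a (x - t) v :=
  (hc.fderiv_apply ℝ v).convolutionExists_right (mul ℝ ℂ) hg
    ((ha.continuous_fderiv (by simp)).clm_apply continuous_const) x

theorem cv_dbar {g a : (ι → ℂ) → ℂ} (hg : LocallyIntegrable g volume) (ha : ContDiff ℝ ∞ a)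
    (hc : HasCompactSupport a) (x ξ : ι → ℂ) :
    dbar (g ⋆[mul ℝ ℂ, volume] a) x ξ = ∫ t, g t * dbar a (x - t) ξ := by
  rw [dbar, cv_fderiv hg ha hc, cv_fderiv hg ha hc, ← integral_const_mul,
    ← integral_add (cv_int hg ha hc x ξ) ((cv_int hg ha hc x _).const_mul _), ← integral_div]
  congr 1
  funext t
  rw [dbar]
  ring

theorem fderiv_refl {a : (ι → ℂ) → ℂ} (ha : ContDiff ℝ ∞ a) (x t v : ι → ℂ) :
    fderiv ℝ (fun t => a (x - t)) t v = -fderiv ℝ a (x - t) v := by
  have := ((ha.differentiable (by simp) (x - t)).hasFDerivAt.comp t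
    ((hasFDerivAt_id t).const_sub x)).fderiv
  rw [show (fun t => a (x - t)) = a ∘ HSub.hSub x from rfl, this]
  simp

theorem cv_holo {g : (ι → ℂ) → ℂ} (hg : LocallyIntegrable g volume)
    (h : ∀ a : (ι → ℂ) → ℂ, ContDiff ℝ ∞ a → HasCompactSupport a → ∀ ξ,
      ∫ x, g x * dbar a x ξ = 0)
    {a : (ι → ℂ) → ℂ} (ha : ContDiff ℝ ∞ a) (hc : HasCompactSupport a) :
    Differentiable ℂ (g ⋆[mul ℝ ℂ, volume] a) := fun x => by
  refine diff_of_dbar
    (hc.hasFDerivAt_convolution_right (mul ℝ ℂ) hg (ha.of_le (by simp)) x).differentiableAt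
    fun ξ => ?_
  have := h (fun t => a (x - t)) (ha.comp (contDiff_const.sub contDiff_id))
    (hc.comp_homeomorph (Homeomorph.subLeft x)) ξ
  rw [cv_dbar hg ha hc, ← neg_eq_zero, ← integral_neg, ← this]
  congr 1
  funext t
  rw [dbar, dbar, fderiv_refl ha, fderiv_refl ha]
  ring

theorem rot {e : ℂ} (he : ‖e‖ = 1) (G : (ι → ℂ) → ℂ) : ∫ t, G (e • t) = ∫ t, G t := by
  have h0 : e ≠ 0 := by rintro rfl; simp at he
  have m : MeasurePreserving (fun t : ι → ℂ => e • t) volume volume :=
    measurePreserving_pi (fun _ => volume) (fun _ => volume) (f := fun _ z => e * z) fun _ =>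
      (rotation ⟨e, by simpa [Submonoid.unitSphere] using he⟩).measurePreserving
  exact m.integral_comp (measurableEmbedding_const_smul₀ h0) G

theorem mean {F s : (ι → ℂ) → ℂ} (hF : Differentiable ℂ F) (hs : Continuous s)
    (hc : HasCompactSupport s) (hr : ∀ (e : ℂ) t, ‖e‖ = 1 → s (e • t) = s t) (x : ι → ℂ) :
    ∫ t, F (x - t) * s t = F x * ∫ t, s t := by
  have c : Continuous fun p : Osg.Tc × (ι → ℂ) => F (x - fourier 1 p.1 • p.2) * s p.2 :=
    (hF.continuous.comp (continuous_const.sub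
      (((fourier 1).continuous.comp continuous_fst).smul continuous_snd))).mul
      (hs.comp continuous_snd)
  have k : HasCompactSupport fun p : Osg.Tc × (ι → ℂ) => F (x - fourier 1 p.1 • p.2) * s p.2 :=
    HasCompactSupport.intro (isCompact_univ.prod hc.isCompact) fun p hp => by
      rw [image_eq_zero_of_notMem_tsupport (f := s) fun h => hp ⟨trivial, h⟩, mul_zero]
  calc _ = ∫ θ : Osg.Tc, ∫ t, F (x - fourier 1 θ • t) * s t ∂volume ∂AddCircle.haarAddCircle := by
        have : ∀ θ : Osg.Tc, ∫ t, F (x - fourier 1 θ • t) * s t = ∫ t, F (x - t) * s t := fun θ => by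
          rw [← rot (Osg.nrm θ) fun t => F (x - t) * s t]
          simp only [hr _ _ (Osg.nrm θ)]
        simp only [this, integral_const, probReal_univ, one_smul]
    _ = ∫ t, ∫ θ : Osg.Tc, F (x - fourier 1 θ • t) * s t ∂AddCircle.haarAddCircle :=
        integral_integral_swap (c.integrable_of_hasCompactSupport k)
    _ = _ := by
        rw [← integral_const_mul]
        congr 1
        funext t
        have d : Differentiable ℂ fun e : ℂ => F (x - e • t) :=
          hF.comp ((differentiable_const _).sub (differentiable_id.smul_const t))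
        rw [integral_mul_const, Osg.avg fun e => F (x - e • t), d.diffContOnCl.circleAverage]
        simp

/-- a smooth bump invariant under rotations -/
noncomputable def sg (t : ι → ℂ) : ℝ := expNegInvGlue (1 - ∑ j, ‖t j‖ ^ 2)

theorem sg_smooth : ContDiff ℝ ∞ (sg : (ι → ℂ) → ℝ) :=
  expNegInvGlue.contDiff.comp (contDiff_const.sub (ContDiff.sum fun j _ =>
    (contDiff_norm_sq ℝ).comp (contDiff_apply ℝ ℂ j)))

theorem sg_supp : HasCompactSupport (sg : (ι → ℂ) → ℝ) :=
  HasCompactSupport.intro (isCompact_closedBall 0 1) fun t ht => by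
    refine expNegInvGlue.zero_of_nonpos ?_
    by_contra hlt
    refine ht (mem_closedBall_zero_iff.2 ((pi_norm_le_iff_of_nonneg zero_le_one).2 fun j => ?_))
    have := Finset.single_le_sum (f := fun j => ‖t j‖ ^ 2) (fun _ _ => sq_nonneg _)
      (Finset.mem_univ j)
    nlinarith [norm_nonneg (t j)]

theorem sg_pos : 0 < ∫ t : ι → ℂ, sg t :=
  sg_smooth.continuous.integral_pos_of_hasCompactSupport_nonneg_nonzero sg_supp
    (fun _ => expNegInvGlue.nonneg _) (x := 0) (expNegInvGlue.pos_of_pos (by simp)).ne'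

theorem sg_rot (e : ℂ) (t : ι → ℂ) (he : ‖e‖ = 1) : sg (e • t) = sg t := by
  simp [sg, he]

end Weyl

open Weyl in
/-- Weyl's lemma for `∂̄`. -/
theorem weyl {ι : Type} [Fintype ι] {g : (ι → ℂ) → ℂ} (hg : LocallyIntegrable g volume)
    (h : ∀ a : (ι → ℂ) → ℂ, ContDiff ℝ ∞ a → HasCompactSupport a → ∀ ξ,
      ∫ x, g x * dbar a x ξ = 0) :
    ∃ F : (ι → ℂ) → ℂ, Differentiable ℂ F ∧ F =ᵐ[volume] g := by
  let s : (ι → ℂ) → ℂ := fun t => (sg t : ℂ)
  have s1 : ContDiff ℝ ∞ s := ofRealCLM.contDiff.comp sg_smooth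
  have s2 : HasCompactSupport s := sg_supp.comp_left (g := fun r : ℝ => (r : ℂ)) ofReal_zero
  have s3 : (∫ t, s t) ≠ 0 := by
    rw [integral_complex_ofReal]
    exact ofReal_ne_zero.2 sg_pos.ne'
  have hF := cv_holo hg h s1 s2
  refine ⟨fun x => (∫ t, s t)⁻¹ * (g ⋆[mul ℝ ℂ, volume] s) x, hF.const_mul _, ?_⟩
  refine ae_eq_of_integral_contDiff_smul_eq (hF.const_mul _).continuous.locallyIntegrable hg
    fun ψ p1 p2 => ?_
  let a : (ι → ℂ) → ℂ := fun t => (ψ (-t) : ℂ)
  have a1 : ContDiff ℝ ∞ a := ofRealCLM.contDiff.comp (p1.comp contDiff_neg)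
  have a2 : HasCompactSupport a :=
    (p2.comp_homeomorph (Homeomorph.neg _)).comp_left (g := fun r : ℝ => (r : ℂ)) ofReal_zero
  have e : ∀ u : (ι → ℂ) → ℂ, (a ⋆[mul ℝ ℂ, volume] u) 0 = ∫ x, ψ x • u x := fun u => by
    rw [convolution_def, ← integral_neg_eq_self]
    simp [a]
  have fl : a ⋆[mul ℝ ℂ, volume] g = g ⋆[mul ℝ ℂ, volume] a := by
    rw [← convolution_flip, flip_mul]
  have gn : LocallyIntegrable (fun x => ‖g x‖) volume := fun x => (hg x).norm
  have as := convolution_assoc (mul ℝ ℂ) (mul ℝ ℂ) (mul ℝ ℂ) (mul ℝ ℂ) (f := a) (g := g) (k := s)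
    (μ := volume) (ν := volume) (fun x y z => mul_assoc x y z) (x₀ := 0)
    a1.continuous.aestronglyMeasurable hg.aestronglyMeasurable s1.continuous.aestronglyMeasurable
    (.of_forall (a2.convolutionExists_left _ a1.continuous hg))
    (.of_forall (s2.norm.convolutionExists_right _ gn s1.continuous.norm))
    (a2.norm.convolutionExists_left _ a1.continuous.norm
      (s2.norm.continuous_convolution_right _ gn s1.continuous.norm).locallyIntegrable 0)
  rw [e, convolution_eq_swap] at as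
  have mv := mean (cv_holo hg h a1 a2) s1.continuous s2
    (fun e t he => by simp only [s, sg_rot e t he]) 0
  rw [← fl, e] at mv
  simp only [mul_apply'] at as
  rw [mv] at as
  simp only [← mul_smul_comm]
  rw [integral_const_mul, ← as]
  field_simp

end Pool.Agent.Lib.MP_9ff3e7_ag.F
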