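import Pool.Agent.Lib.MP_9ff3e7_ag.F.HOps
import Pool.Agent.Lib.MP_9ff3e7_ag.F.HWeyl

/-! Calculus for the Caccioppoli step: the exact divergence identity and the energy bound. -/

set_option autoImplicit false
set_option linter.unusedSectionVars false

namespace Pool.Agent.Lib.MP_9ff3e7_ag.F

open Complex MeasureTheory ContinuousLinearMap
open scoped ContDiff ComplexConjugate Convolution

namespace Cacc

variable {ι : Type} [Fintype ι] [DecidableEq ι]

/-- common form of `dz` and `dzb` -/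
noncomputable def dd (c : ℂ) (j : ι) (f : (ι → ℂ) → ℂ) (x : ι → ℂ) : ℂ :=
  (fderiv ℝ f x (Pi.single j 1) + c * fderiv ℝ f x (Pi.single j I)) / 2

theorem dz_eq (j : ι) (f : (ι → ℂ) → ℂ) : dz j f = dd (-I) j f := by
  funext x; rw [dz, dd]; ring

theorem dzb_eq (j : ι) (f : (ι → ℂ) → ℂ) : dzb j f = dd I j f := rfl

theorem fd_smooth {f : (ι → ℂ) → ℂ} (hf : ContDiff ℝ ∞ f) (v : ι → ℂ) :
    ContDiff ℝ ∞ fun x => fderiv ℝ f x v :=
  (hf.fderiv_right (m := ∞) (by simp)).clm_apply contDiff_const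

theorem dd_smooth (c : ℂ) (j : ι) {f : (ι → ℂ) → ℂ} (hf : ContDiff ℝ ∞ f) :
    ContDiff ℝ ∞ (dd c j f) :=
  ((fd_smooth hf _).add (contDiff_const.mul (fd_smooth hf _))).div_const _

theorem dd_supp (c : ℂ) (j : ι) {f : (ι → ℂ) → ℂ} (hf : HasCompactSupport f) :
    HasCompactSupport (dd c j f) :=
  (hf.fderiv ℝ).mono fun x hx => by
    intro h
    apply hx
    simp [dd, h]

theorem dd_mul (c : ℂ) (j : ι) {f g : (ι → ℂ) → ℂ} (hf : ContDiff ℝ ∞ f) (hg : ContDiff ℝ ∞ g)
    (x : ι → ℂ) : dd c j (fun y => f y * g y) x = dd c j f x * g x + f x * dd c j g x := by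
  simp only [dd]
  rw [fderiv_fun_mul (hf.differentiable (by simp) x) (hg.differentiable (by simp) x)]
  simp only [add_apply, smul_apply, smul_eq_mul]
  ring

theorem dd_add (c : ℂ) (j : ι) {f g : (ι → ℂ) → ℂ} (hf : ContDiff ℝ ∞ f) (hg : ContDiff ℝ ∞ g)
    (x : ι → ℂ) : dd c j (fun y => f y + g y) x = dd c j f x + dd c j g x := by
  simp only [dd]
  rw [fderiv_fun_add (hf.differentiable (by simp) x) (hg.differentiable (by simp) x)]
  simp only [add_apply]
  ring

theorem dd_conj (c : ℂ) (j : ι) {f : (ι → ℂ) → ℂ} (hf : ContDiff ℝ ∞ f) (x : ι → ℂ) :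
    dd c j (fun y => conj (f y)) x = conj (dd (conj c) j f x) := by
  have : ∀ v, fderiv ℝ (fun y => conj (f y)) x v = conj (fderiv ℝ f x v) := fun v => by
    have := (conjCLE.toContinuousLinearMap.hasFDerivAt.comp x
      (hf.differentiable (by simp) x).hasFDerivAt).fderiv
    rw [show (fun y => conj (f y)) = conjCLE.toContinuousLinearMap ∘ f from rfl, this]
    simp
  simp only [dd, this, map_div₀, map_add, map_mul, conj_conj, map_ofNat]

theorem dd_exp (c : ℂ) (j : ι) {f : (ι → ℂ) → ℂ} (hf : ContDiff ℝ ∞ f) (x : ι → ℂ) :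
    dd c j (fun y => cexp (f y)) x = cexp (f x) * dd c j f x := by
  have := ((hf.differentiable (by simp) x).hasFDerivAt.cexp).fderiv
  simp only [dd, this, smul_apply, smul_eq_mul]
  ring

theorem int_fd {f : (ι → ℂ) → ℂ} (hf : ContDiff ℝ ∞ f) (hc : HasCompactSupport f) (v : ι → ℂ) :
    ∫ x, fderiv ℝ f x v = 0 := by
  have i1 : Integrable fun x => fderiv ℝ f x v :=
    (fd_smooth hf v).continuous.integrable_of_hasCompactSupport (hc.fderiv_apply ℝ v)
  have := integral_mul_fderiv_eq_neg_fderiv_mul_of_integrable (μ := volume)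
    (f := fun _ : ι → ℂ => (1 : ℂ)) (g := f) (v := v) (by simp) (by simpa using i1)
    (by simpa using hf.continuous.integrable_of_hasCompactSupport hc)
    (fun _ _ => differentiableAt_const _) (fun x _ => hf.differentiable (by simp) x)
  simpa using this

theorem int_dd (c : ℂ) (j : ι) {f : (ι → ℂ) → ℂ} (hf : ContDiff ℝ ∞ f)
    (hc : HasCompactSupport f) : ∫ x, dd c j f x = 0 := by
  have i1 : ∀ v, Integrable fun x => fderiv ℝ f x v := fun v =>
    (fd_smooth hf v).continuous.integrable_of_hasCompactSupport (hc.fderiv_apply ℝ v)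
  simp only [dd]
  rw [integral_div, integral_add (i1 _) ((i1 _).const_mul _), integral_const_mul, int_fd hf hc,
    int_fd hf hc]
  simp

theorem fd_comm {f : (ι → ℂ) → ℂ} (hf : ContDiff ℝ ∞ f) (x v w : ι → ℂ) :
    fderiv ℝ (fun y => fderiv ℝ f y v) x w = fderiv ℝ (fun y => fderiv ℝ f y w) x v := by
  have d : DifferentiableAt ℝ (fderiv ℝ f) x :=
    (hf.fderiv_right (m := ∞) (by simp)).differentiable (by simp) x
  have e : ∀ v w, fderiv ℝ (fun y => fderiv ℝ f y v) x w = fderiv ℝ (fderiv ℝ f) x w v :=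
    fun v w => by
      rw [fderiv_clm_apply d (differentiableAt_const _)]
      simp
  rw [e, e]
  exact (hf.contDiffAt.isSymmSndFDerivAt (by
    simp only [minSmoothness_of_isRCLikeNormedField]
    exact WithTop.coe_le_coe.2 (le_top (a := (2 : ℕ∞))))).eq _ _

theorem fd_dd (c : ℂ) (j : ι) {f : (ι → ℂ) → ℂ} (hf : ContDiff ℝ ∞ f) (x v : ι → ℂ) :
    fderiv ℝ (dd c j f) x v = (fderiv ℝ (fun y => fderiv ℝ f y (Pi.single j 1)) x v +
      c * fderiv ℝ (fun y => fderiv ℝ f y (Pi.single j I)) x v) / 2 := by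
  have h1 := ((fd_smooth hf (Pi.single j 1)).differentiable (by simp) x).hasFDerivAt
  have h2 := ((fd_smooth hf (Pi.single j I)).differentiable (by simp) x).hasFDerivAt
  have := ((h1.add (h2.const_mul c)).mul_const (2 : ℂ)⁻¹).fderiv
  rw [show dd c j f = fun y => (fderiv ℝ f y (Pi.single j 1) + c * fderiv ℝ f y (Pi.single j I)) *
    (2 : ℂ)⁻¹ from rfl]
  erw [this]
  simp only [add_apply, smul_apply, smul_eq_mul]
  ring

theorem dd_comm (c d : ℂ) (j : ι) {f : (ι → ℂ) → ℂ} (hf : ContDiff ℝ ∞ f) :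
    dd c j (dd d j f) = dd d j (dd c j f) := by
  funext x
  rw [dd, dd, fd_dd d j hf, fd_dd d j hf, fd_dd c j hf, fd_dd c j hf,
    fd_comm hf x (Pi.single j 1) (Pi.single j I)]
  ring

theorem dd_refl (c : ℂ) (j : ι) {a : (ι → ℂ) → ℂ} (ha : ContDiff ℝ ∞ a) (x : ι → ℂ) :
    dd c j (fun t => a (x - t)) = fun t => -dd c j a (x - t) := by
  funext t
  simp only [dd, Weyl.fderiv_refl ha]
  ring

theorem dd_neg (c : ℂ) (j : ι) (a : (ι → ℂ) → ℂ) (x : ι → ℂ) :
    dd c j (fun t => -a t) x = -dd c j a x := by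
  simp only [dd, fderiv_fun_neg, neg_apply]
  ring

theorem cv_smooth {g a : (ι → ℂ) → ℂ} (hg : LocallyIntegrable g volume) (ha : ContDiff ℝ ∞ a)
    (hc : HasCompactSupport a) : ContDiff ℝ ∞ fun x => ∫ t, g t * a (x - t) :=
  hc.contDiff_convolution_right (mul ℝ ℂ) hg ha

theorem cv_ex {g a : (ι → ℂ) → ℂ} (hg : LocallyIntegrable g volume) (ha : ContDiff ℝ ∞ a)
    (hc : HasCompactSupport a) (x : ι → ℂ) : Integrable fun t => g t * a (x - t) :=
  hc.convolutionExists_right (mul ℝ ℂ) hg ha.continuous x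

theorem dd_cv (c : ℂ) (j : ι) {g a : (ι → ℂ) → ℂ} (hg : LocallyIntegrable g volume)
    (ha : ContDiff ℝ ∞ a) (hc : HasCompactSupport a) :
    dd c j (fun x => ∫ t, g t * a (x - t)) = fun x => ∫ t, g t * dd c j a (x - t) := by
  funext x
  rw [dd]
  erw [Weyl.cv_fderiv hg ha hc, Weyl.cv_fderiv hg ha hc]
  rw [← integral_const_mul,
    ← integral_add (Weyl.cv_int hg ha hc x _) ((Weyl.cv_int hg ha hc x _).const_mul _),
    ← integral_div]
  congr 1
  funext t
  rw [dd]
  ring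

/-- the exact divergence identity -/
theorem div_zero {ψ G k : (ι → ℂ) → ℂ} (hψ : ContDiff ℝ ∞ ψ) (hG : LocallyIntegrable G volume)
    (hk : ContDiff ℝ ∞ k) (hc : HasCompactSupport k)
    (ho : ∀ v : (ι → ℂ) → ℂ, ContDiff ℝ ∞ v → HasCompactSupport v →
      ∫ x, G x * ∑ j, (dd I j ψ x * dd (-I) j v x - dd I j (dd (-I) j v) x) = 0) (x : ι → ℂ) :
    ∑ j, dd (-I) j (fun y => dd I j (fun x => ∫ t, G t * k (x - t)) y +
      ∫ t, dd I j ψ t * G t * k (y - t)) x = 0 := by
  have hp : ∀ j, LocallyIntegrable (fun t => dd I j ψ t * G t) volume := fun j =>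
    hG.continuous_mul (dd_smooth I j hψ).continuous
  have := ho (fun t => k (x - t)) (hk.comp (contDiff_const.sub contDiff_id))
    (hc.comp_homeomorph (Homeomorph.subLeft x))
  rw [← neg_eq_zero, ← this]
  have k1 := fun c j => dd_smooth c j hk
  have c1 := fun c j => dd_supp c j hc
  simp only [Finset.mul_sum]
  have e : ∀ j, (fun t => G t * (dd I j ψ t * dd (-I) j (fun t => k (x - t)) t -
      dd I j (dd (-I) j fun t => k (x - t)) t)) = fun t =>
      -(G t * dd (-I) j (dd I j k) (x - t) + dd I j ψ t * G t * dd (-I) j k (x - t)) := fun j => by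
    funext t
    rw [dd_refl _ _ hk, dd_neg, dd_refl _ _ (k1 _ _), dd_comm I (-I) j hk]
    ring
  have i1 := fun j => cv_ex hG (dd_smooth (-I) j (k1 I j)) (dd_supp (-I) j (c1 I j)) x
  have i2 := fun j => cv_ex (hp j) (k1 (-I) j) (c1 (-I) j) x
  rw [integral_finsetSum _ fun j _ => by rw [e j]; exact ((i1 j).add (i2 j)).neg,
    ← Finset.sum_neg_distrib]
  refine Finset.sum_congr rfl fun j _ => ?_
  rw [e j, integral_neg, integral_add (i1 j) (i2 j),
    dd_add _ _ (dd_smooth _ _ (cv_smooth hG hk hc)) (cv_smooth (hp j) hk hc),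
    dd_cv I j hG hk hc, dd_cv _ j hG (k1 _ _) (c1 _ _), dd_cv _ j (hp j) hk hc]

theorem quad (X Y Z : ℂ) :
    ‖X‖ ^ 2 ≤ 2 * ((X - Y) * (Z + conj X)).re + 3 * (‖Y‖ ^ 2 + ‖Z‖ ^ 2) := by
  simp only [← normSq_eq_norm_sq, normSq_apply, mul_re, sub_re, add_re, conj_re, sub_im, add_im,
    conj_im]
  nlinarith [sq_nonneg (X.re - 2 * Y.re), sq_nonneg (X.im - 2 * Y.im), sq_nonneg (X.re + 2 * Z.re),
    sq_nonneg (X.im - 2 * Z.im), sq_nonneg (Y.re - Z.re), sq_nonneg (Y.im + Z.im)]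

theorem mono3 {a b c d : (ι → ℂ) → ℝ} (ha : Integrable a) (hb : Integrable b) (hc : Integrable c)
    (hd : Integrable d) (h : ∀ x, a x ≤ 2 * b x + 3 * (c x + d x)) :
    ∫ x, a x ≤ 2 * (∫ x, b x) + 3 * ((∫ x, c x) + ∫ x, d x) := by
  have e : Integrable fun x => 3 * (c x + d x) := (hc.add hd).const_mul _
  rw [← integral_add hc hd, ← integral_const_mul, ← integral_const_mul,
    ← integral_add (hb.const_mul _) e]
  exact integral_mono ha ((hb.const_mul _).add e) h

/-- the energy bound -/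
theorem energy {φ η : (ι → ℂ) → ℝ} {A : (ι → ℂ) → ℂ} {B : ι → (ι → ℂ) → ℂ} (hφ : ContDiff ℝ ∞ φ)
    (hη : ContDiff ℝ ∞ η) (hc : HasCompactSupport η) (hA : ContDiff ℝ ∞ A)
    (hB : ∀ j, ContDiff ℝ ∞ (B j))
    (h : ∀ x, ∑ j, dd (-I) j (fun y => dd I j A y + B j y) x = 0) :
    ∑ j, ∫ x, η x ^ 2 * Real.exp (φ x) * ‖dd I j A x + dd I j (fun y => (φ y : ℂ)) x * A x‖ ^ 2 ≤
      3 * ∑ j, ((∫ x, η x ^ 2 * Real.exp (φ x) * ‖dd I j (fun y => (φ y : ℂ)) x * A x - B j x‖ ^ 2) +
        ∫ x, ‖2 * dd (-I) j (fun y => (η y : ℂ)) x‖ ^ 2 * Real.exp (φ x) * ‖A x‖ ^ 2) := by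
  set ψ : (ι → ℂ) → ℂ := fun y => (φ y : ℂ) with hψ0
  set e : (ι → ℂ) → ℂ := fun y => (η y : ℂ) with he0
  have hψ : ContDiff ℝ ∞ ψ := ofRealCLM.contDiff.comp hφ
  have he : ContDiff ℝ ∞ e := ofRealCLM.contDiff.comp hη
  have hec : HasCompactSupport e := hc.comp_left (g := fun r : ℝ => (r : ℂ)) (by simp)
  have hAc : ContDiff ℝ ∞ fun y => conj (A y) := conjCLE.contDiff.comp hA
  set W : ι → (ι → ℂ) → ℂ := fun j y => dd I j A y + B j y with hW0
  have hW : ∀ j, ContDiff ℝ ∞ (W j) := fun j => (dd_smooth _ _ hA).add (hB j)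
  set u : (ι → ℂ) → ℂ := fun y => e y * e y * cexp (ψ y) * conj (A y) with hu0
  have hu : ContDiff ℝ ∞ u := ((he.mul he).mul hψ.cexp).mul hAc
  have huc : HasCompactSupport u := ((hec.mul_right).mul_right).mul_right
  have i1 : ∀ j, Integrable fun x => W j x * dd (-I) j u x := fun j =>
    ((hW j).mul (dd_smooth _ _ hu)).continuous.integrable_of_hasCompactSupport
      (dd_supp _ _ huc).mul_left
  have i2 : ∀ j, Integrable fun x => dd (-I) j (W j) x * u x := fun j =>
    ((dd_smooth _ _ (hW j)).mul hu).continuous.integrable_of_hasCompactSupport huc.mul_left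
  have z : ∑ j, ∫ x, W j x * dd (-I) j u x = 0 := by
    have : ∀ j, ∫ x, W j x * dd (-I) j u x = -∫ x, dd (-I) j (W j) x * u x := fun j => by
      rw [eq_neg_iff_add_eq_zero, add_comm, ← integral_add (i2 j) (i1 j),
        ← int_dd (-I) j ((hW j).mul hu) huc.mul_left]
      simp only [dd_mul _ _ (hW j) hu]
    simp only [this, Finset.sum_neg_distrib, neg_eq_zero]
    rw [← integral_finsetSum _ fun j _ => i2 j]
    simp only [← Finset.sum_mul, hW0, h, zero_mul, integral_zero]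
  have cp := fun j => (dd_smooth I j hψ).continuous
  have cA := hA.continuous
  have cw : Continuous fun x => η x ^ 2 * Real.exp (φ x) :=
    (hη.continuous.pow 2).mul hφ.continuous.rexp
  have sw : HasCompactSupport fun x => η x ^ 2 * Real.exp (φ x) :=
    (hc.comp_left (g := fun r : ℝ => r ^ 2) (by simp)).mul_right
  have j1 : ∀ j, Integrable fun x =>
      η x ^ 2 * Real.exp (φ x) * ‖dd I j A x + dd I j ψ x * A x‖ ^ 2 := fun j =>
    (cw.mul (((dd_smooth I j hA).continuous.add ((cp j).mul cA)).norm.pow 2)).integrable_of_hasCompactSupport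
      sw.mul_right
  have j2 : ∀ j, Integrable fun x =>
      η x ^ 2 * Real.exp (φ x) * ‖dd I j ψ x * A x - B j x‖ ^ 2 := fun j =>
    (cw.mul ((((cp j).mul cA).sub (hB j).continuous).norm.pow 2)).integrable_of_hasCompactSupport
      sw.mul_right
  have j3 : ∀ j, Integrable fun x => ‖2 * dd (-I) j e x‖ ^ 2 * Real.exp (φ x) * ‖A x‖ ^ 2 :=
    fun j => by
      have c1 : Continuous fun x => ‖2 * dd (-I) j e x‖ ^ 2 :=
        (continuous_const.mul (dd_smooth (-I) j he).continuous).norm.pow 2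
      have s1 : HasCompactSupport fun x => ‖2 * dd (-I) j e x‖ ^ 2 :=
        (dd_supp (-I) j hec).mono fun x hx h => hx (by simp [h])
      exact ((c1.mul hφ.continuous.rexp).mul (cA.norm.pow 2)).integrable_of_hasCompactSupport
        s1.mul_right.mul_right
  have pt : ∀ j x, η x ^ 2 * Real.exp (φ x) * ‖dd I j A x + dd I j ψ x * A x‖ ^ 2 ≤
      2 * (W j x * dd (-I) j u x).re +
      3 * (η x ^ 2 * Real.exp (φ x) * ‖dd I j ψ x * A x - B j x‖ ^ 2 +
        ‖2 * dd (-I) j e x‖ ^ 2 * Real.exp (φ x) * ‖A x‖ ^ 2) := fun j x => by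
    have q := mul_le_mul_of_nonneg_left (quad (e x * (dd I j A x + dd I j ψ x * A x))
      (e x * (dd I j ψ x * A x - B j x)) (2 * dd (-I) j e x * conj (A x))) (Real.exp_pos (φ x)).le
    have cψ : dd (-I) j ψ x = conj (dd I j ψ x) := by
      have := dd_conj (-I) j hψ x
      simpa [hψ0] using this
    have du : W j x * dd (-I) j u x = (Real.exp (φ x) : ℂ) *
        ((e x * (dd I j A x + dd I j ψ x * A x) - e x * (dd I j ψ x * A x - B j x)) *
        (2 * dd (-I) j e x * conj (A x) + conj (e x * (dd I j A x + dd I j ψ x * A x)))) := by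
      rw [hu0, dd_mul _ _ ((he.mul he).mul hψ.cexp) hAc, dd_mul _ _ (he.mul he) hψ.cexp,
        dd_mul _ _ he he, dd_exp _ _ hψ, dd_conj _ _ hA, cψ]
      simp only [hW0, he0, hψ0, map_mul, map_add, conj_ofReal, map_neg, conj_I, neg_neg, ofReal_exp]
      ring
    rw [du, re_ofReal_mul]
    rw [norm_mul, norm_mul, norm_mul (2 * _), norm_conj, mul_pow, mul_pow, mul_pow] at q
    have : ‖e x‖ ^ 2 = η x ^ 2 := by simp [he0]
    rw [this] at q
    linarith
  have z' : ∑ j, ∫ x, (W j x * dd (-I) j u x).re = 0 := by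
    have := congrArg re z
    rw [re_sum, zero_re] at this
    rw [← this]
    exact Finset.sum_congr rfl fun j _ => reCLM.integral_comp_comm (i1 j)
  calc _ ≤ ∑ j, (2 * (∫ x, (W j x * dd (-I) j u x).re) +
        3 * ((∫ x, η x ^ 2 * Real.exp (φ x) * ‖dd I j ψ x * A x - B j x‖ ^ 2) +
        ∫ x, ‖2 * dd (-I) j e x‖ ^ 2 * Real.exp (φ x) * ‖A x‖ ^ 2)) := by
        refine Finset.sum_le_sum fun j _ => ?_
        exact mono3 (j1 j) (reCLM.integrable_comp (i1 j)) (j2 j) (j3 j) (pt j)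
    _ = _ := by rw [Finset.sum_add_distrib, ← Finset.mul_sum, ← Finset.mul_sum, z']; simp

end Cacc

end Pool.Agent.Lib.MP_9ff3e7_ag.F
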