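import Mathlib

/-! Three estimates for mollifiers. -/

set_option autoImplicit false

namespace Pool.Agent.Lib.MP_9ff3e7_ag.F

open Complex MeasureTheory Metric ContinuousLinearMap
open scoped Convolution

namespace Moll

variable {ι : Type} [Fintype ι]

/-- a continuous probability density supported in the ball of radius `e` -/
structure Ker (ρ : (ι → ℂ) → ℝ) (e : ℝ) : Prop where
  cont : Continuous ρ
  nn : ∀ y, 0 ≤ ρ y
  one : ∫ y, ρ y = 1
  supp : ∀ y, ρ y ≠ 0 → ‖y‖ < e

theorem ker_bump (φ : ContDiffBump (0 : ι → ℂ)) : Ker (φ.normed volume) φ.rOut :=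
  ⟨φ.continuous_normed, φ.nonneg_normed, φ.integral_normed, fun y hy => by
    have : y ∈ Function.support (φ.normed volume) := hy
    rwa [φ.support_normed_eq, mem_ball_zero_iff] at this⟩

variable {ρ : (ι → ℂ) → ℝ} {e : ℝ}

theorem Ker.cs (k : Ker ρ e) : HasCompactSupport ρ :=
  HasCompactSupport.intro (isCompact_closedBall 0 e) fun y hy => by
    by_contra h
    exact hy (mem_closedBall_zero_iff.2 (k.supp y h).le)

theorem Ker.csC (k : Ker ρ e) : HasCompactSupport fun y => (ρ y : ℂ) :=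
  k.cs.comp_left (g := fun r : ℝ => (r : ℂ)) ofReal_zero

theorem Ker.contC (k : Ker ρ e) : Continuous fun y => (ρ y : ℂ) := continuous_ofReal.comp k.cont

theorem Ker.int (k : Ker ρ e) : Integrable ρ := k.cont.integrable_of_hasCompactSupport k.cs

theorem Ker.one' (k : Ker ρ e) (x : ι → ℂ) : ∫ t, ρ (x - t) = 1 := by
  rw [integral_sub_left_eq_self ρ volume x, k.one]

theorem Ker.one'' (k : Ker ρ e) (t : ι → ℂ) : ∫ x, ρ (x - t) = 1 := by
  rw [integral_sub_right_eq_self ρ t, k.one]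

theorem Ker.intC (k : Ker ρ e) {G : (ι → ℂ) → ℂ} (hG : LocallyIntegrable G volume) (x : ι → ℂ) :
    Integrable fun t => G t * (ρ (x - t) : ℂ) :=
  k.csC.convolutionExists_right (mul ℝ ℂ) hG k.contC x

theorem Ker.intR (k : Ker ρ e) {w : (ι → ℂ) → ℝ} (hw : LocallyIntegrable w volume) (x : ι → ℂ) :
    Integrable fun t => w t * ρ (x - t) :=
  k.cs.convolutionExists_right (mul ℝ ℝ) hw k.cont x

/-- the trivial bound -/
theorem Ker.norm_le (k : Ker ρ e) (G : (ι → ℂ) → ℂ) (x : ι → ℂ) :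
    ‖∫ t, G t * (ρ (x - t) : ℂ)‖ ≤ 1 * ∫ t, ‖G t‖ * ρ (x - t) := by
  rw [one_mul]
  refine (norm_integral_le_integral_norm _).trans (le_of_eq ?_)
  congr 1
  funext t
  rw [norm_mul, norm_real, Real.norm_of_nonneg (k.nn _)]

/-- (M1) Jensen -/
theorem Ker.jensen (k : Ker ρ e) {b c : (ι → ℂ) → ℝ} {G A : (ι → ℂ) → ℂ} {κ : ℝ}
    (b0 : ∀ x, 0 ≤ b x) (hbc : ∀ x t, ‖x - t‖ < e → b x ≤ c t)
    (hi : Integrable fun t => ‖G t‖ ^ 2 * c t)
    (hA : ∀ x, b x ≠ 0 → ‖A x‖ ≤ κ * ∫ t, ‖G t‖ * ρ (x - t)) :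
    ∫ x, ‖A x‖ ^ 2 * b x ≤ κ ^ 2 * ∫ t, ‖G t‖ ^ 2 * c t := by
  have pt : ∀ x, (∫ t, ‖G t‖ * ρ (x - t)) ^ 2 * b x ≤ ∫ t, ‖G t‖ ^ 2 * c t * ρ (x - t) := fun x => by
    set m := ∫ t, ‖G t‖ * ρ (x - t) with hm
    have m0 : 0 ≤ m := integral_nonneg fun t => mul_nonneg (norm_nonneg _) (k.nn _)
    have i1 := k.intR hi.locallyIntegrable x
    have i2 : Integrable fun t => m ^ 2 * b x * ρ (x - t) := (k.int.comp_sub_left x).const_mul _
    have := integral_mono_of_nonneg (f := fun t => 2 * m * b x * (‖G t‖ * ρ (x - t)))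
      (.of_forall fun t => mul_nonneg (mul_nonneg (mul_nonneg zero_le_two m0) (b0 x))
        (mul_nonneg (norm_nonneg _) (k.nn _))) (i1.add i2) (.of_forall fun t => by
        by_cases h : ρ (x - t) = 0
        · simp [h]
        · have h1 := mul_le_mul_of_nonneg_left (hbc x t (k.supp _ h)) (sq_nonneg ‖G t‖)
          have h2 := mul_nonneg (b0 x) (sq_nonneg (‖G t‖ - m))
          have h3 : 2 * m * b x * ‖G t‖ ≤ ‖G t‖ ^ 2 * c t + m ^ 2 * b x := by nlinarith
          have := mul_le_mul_of_nonneg_right h3 (k.nn (x - t))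
          simp only [Pi.add_apply]
          nlinarith)
    simp only [Pi.add_apply] at this
    rw [integral_add i1 i2, integral_const_mul, integral_const_mul, k.one', ← hm] at this
    nlinarith
  have ic := hi.integrable_convolution (mul ℝ ℝ) k.int
  have ec := integral_convolution (mul ℝ ℝ) hi k.int
  rw [k.one, mul_apply', mul_one] at ec
  rw [← ec, ← integral_const_mul]
  refine integral_mono_of_nonneg (.of_forall fun x => mul_nonneg (sq_nonneg _) (b0 x))
    (ic.const_mul _) (.of_forall fun x => ?_)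
  have p := mul_le_mul_of_nonneg_left (pt x) (sq_nonneg κ)
  refine le_trans ?_ p
  by_cases h : b x = 0
  · simp [h]
  · have := pow_le_pow_left₀ (norm_nonneg _) (hA x h) 2
    rw [← mul_assoc, ← mul_pow]
    exact mul_le_mul_of_nonneg_right this (b0 x)

/-- (M2) commutator of a mollifier with a multiplication -/
theorem Ker.comm (k : Ker ρ e) {G p : (ι → ℂ) → ℂ} {δ : ℝ} (hG : LocallyIntegrable G volume)
    (hp : Continuous p) {x : ι → ℂ} (h : ∀ t, ‖x - t‖ < e → ‖p x - p t‖ ≤ δ) :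
    ‖p x * (∫ t, G t * (ρ (x - t) : ℂ)) - ∫ t, p t * G t * (ρ (x - t) : ℂ)‖ ≤
      δ * ∫ t, ‖G t‖ * ρ (x - t) := by
  have hpG : LocallyIntegrable (fun t => p t * G t) volume := fun y =>
    ((hG.locallyIntegrableOn Set.univ).continuousOn_mul hp.continuousOn
      isClosed_univ.isLocallyClosed y trivial).filter_mono (by simp)
  have gn : LocallyIntegrable (fun x => ‖G x‖) volume := fun x => (hG x).norm
  rw [← integral_const_mul, ← integral_sub ((k.intC hG x).const_mul _) (k.intC hpG x),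
    ← integral_const_mul]
  refine norm_integral_le_of_norm_le ((k.intR gn x).const_mul _) (.of_forall fun t => ?_)
  rw [show p x * (G t * (ρ (x - t) : ℂ)) - p t * G t * (ρ (x - t) : ℂ) =
    (p x - p t) * (G t * (ρ (x - t) : ℂ)) by ring, norm_mul, norm_mul, norm_real,
    Real.norm_of_nonneg (k.nn _)]
  by_cases h0 : ρ (x - t) = 0
  · simp [h0]
  · exact mul_le_mul_of_nonneg_right (h t (k.supp _ h0)) (mul_nonneg (norm_nonneg _) (k.nn _))

/-- moving the mollifier to the test function -/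
theorem Ker.swap (k : Ker ρ e) {G b : (ι → ℂ) → ℂ} (hG : LocallyIntegrable G volume)
    (hb : Continuous b) (hc : HasCompactSupport b) :
    ∫ x, b x * ∫ t, G t * (ρ (x - t) : ℂ) = ∫ t, G t * ∫ x, b x * (ρ (x - t) : ℂ) := by
  have gn : LocallyIntegrable (fun x => ‖G x‖) volume := fun x => (hG x).norm
  let a : (ι → ℂ) → ℂ := fun t => b (-t)
  have a1 : Continuous a := hb.comp continuous_neg
  have a2 : HasCompactSupport a := hc.comp_homeomorph (Homeomorph.neg _)
  have as := convolution_assoc (mul ℝ ℂ) (mul ℝ ℂ) (mul ℝ ℂ) (mul ℝ ℂ) (f := a)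
    (g := fun y => (ρ y : ℂ)) (k := G)
    (μ := volume) (ν := volume) (fun x y z => mul_assoc x y z) (x₀ := 0)
    a1.aestronglyMeasurable k.contC.aestronglyMeasurable hG.aestronglyMeasurable
    (.of_forall (a2.convolutionExists_left _ a1 k.contC.locallyIntegrable))
    (.of_forall (k.csC.norm.convolutionExists_left _ k.contC.norm gn))
    (a2.norm.convolutionExists_left _ a1.norm
      (k.csC.norm.continuous_convolution_left _ k.contC.norm gn).locallyIntegrable 0)
  rw [convolution_eq_swap, convolution_eq_swap] at as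
  simp only [mul_apply', convolution_eq_swap, a, zero_sub, neg_neg] at as
  calc _ = _ := by simp only [mul_comm (G _)]
    _ = _ := as.symm
    _ = _ := by
      congr 1
      funext t
      rw [mul_comm, ← integral_add_right_eq_self (fun x => b x * (ρ (x - t) : ℂ)) t]
      simp [add_comm]

/-- (M3) weak convergence, quantitative form -/
theorem Ker.weak (k : Ker ρ e) {G b : (ι → ℂ) → ℂ} {δ : ℝ} (hG : LocallyIntegrable G volume)
    (hb : Continuous b) (hc : HasCompactSupport b) {K : Set (ι → ℂ)} (hK : IsCompact K)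
    (hs : ∀ x t, b x ≠ 0 → ‖x - t‖ < e → t ∈ K)
    (h : ∀ x t, ‖x - t‖ < e → ‖b x - b t‖ ≤ δ) :
    ‖(∫ x, b x * ∫ t, G t * (ρ (x - t) : ℂ)) - ∫ t, G t * b t‖ ≤ δ * ∫ t in K, ‖G t‖ := by
  have e0 : 0 < e := by
    by_contra h0
    have : ρ = 0 := funext fun y => by
      by_contra hy
      exact h0 ((norm_nonneg _).trans_lt (k.supp y hy))
    simpa [this] using k.one
  have ib : ∀ t, Integrable fun x => b x * (ρ (x - t) : ℂ) := fun t =>
    (hb.mul (k.contC.comp (continuous_id.sub continuous_const))).integrable_of_hasCompactSupport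
      hc.mul_right
  have ir : ∀ t : ι → ℂ, Integrable fun x => ρ (x - t) := fun t => k.int.comp_sub_right t
  have bd : ∀ t, ‖(∫ x, b x * (ρ (x - t) : ℂ)) - b t‖ ≤ δ := fun t => by
    have : b t = ∫ x, b t * (ρ (x - t) : ℂ) := by
      rw [integral_const_mul, integral_complex_ofReal, k.one'', ofReal_one, mul_one]
    have i0 : Integrable fun x => b t * (ρ (x - t) : ℂ) := (ir t).ofReal.const_mul _
    rw [this, ← integral_sub (ib t) i0, ← mul_one δ, ← k.one'' t,
      ← integral_const_mul]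
    refine norm_integral_le_of_norm_le ((ir t).const_mul _) (.of_forall fun x => ?_)
    rw [← sub_mul, norm_mul, norm_real, Real.norm_of_nonneg (k.nn _)]
    by_cases h0 : ρ (x - t) = 0
    · simp [h0]
    · exact mul_le_mul_of_nonneg_right (h x t (k.supp _ h0)) (k.nn _)
  have z : ∀ t, t ∉ K → (∫ x, b x * (ρ (x - t) : ℂ)) = 0 := fun t ht => by
    rw [← integral_zero (ι → ℂ) ℂ (μ := volume)]
    congr 1
    funext x
    by_contra h0
    obtain ⟨h1, h2⟩ := mul_ne_zero_iff.1 h0
    exact ht (hs x t h1 (k.supp _ (ofReal_ne_zero.1 h2)))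
  have z' : ∀ t, t ∉ K → b t = 0 := fun t ht => by
    by_contra h0
    exact ht (hs t t h0 (by simpa using e0))
  have cb : Continuous fun t => ∫ x, b x * (ρ (x - t) : ℂ) := by
    have := (k.csC.comp_homeomorph (Homeomorph.neg _)).continuous_convolution_right (mul ℝ ℂ)
      (μ := volume) hb.locallyIntegrable (k.contC.comp continuous_neg)
    refine this.congr fun t => ?_
    simp [convolution_def]
  have i1 : Integrable fun t => G t * ∫ x, b x * (ρ (x - t) : ℂ) :=
    hG.integrable_smul_right_of_hasCompactSupport cb (HasCompactSupport.intro hK z)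
  have i2 : Integrable fun t => G t * b t := hG.integrable_smul_right_of_hasCompactSupport hb hc
  rw [k.swap hG hb hc, ← integral_sub i1 i2, ← integral_const_mul,
    ← integral_indicator hK.measurableSet]
  refine norm_integral_le_of_norm_le ((integrable_indicator_iff hK.measurableSet).2
    ((hG.integrableOn_isCompact hK).norm.const_mul _)) (.of_forall fun t => ?_)
  by_cases ht : t ∈ K
  · rw [Set.indicator_of_mem ht, ← mul_sub, norm_mul, mul_comm]
    exact mul_le_mul_of_nonneg_right (bd t) (norm_nonneg _)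
  · simp [Set.indicator_of_notMem ht, z t ht, z' t ht]

theorem uc {F : Type} [NormedAddCommGroup F] {f : (ι → ℂ) → F} (hf : Continuous f)
    {K : Set (ι → ℂ)} (hK : IsCompact K) {δ : ℝ} (hδ : 0 < δ) :
    ∃ e > 0, ∀ x ∈ K, ∀ t, ‖x - t‖ < e → ‖f x - f t‖ ≤ δ := by
  obtain ⟨e, e0, h⟩ := mem_uniformity_dist.1 (hK.uniformContinuousAt_of_continuousAt f
    (fun a _ => hf.continuousAt) (dist_mem_uniformity hδ))
  refine ⟨e, e0, fun x hx t ht => ?_⟩
  have : dist (f x) (f t) < δ := h (a := x) (b := t) (by rwa [dist_eq_norm]) hx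
  rw [dist_eq_norm] at this
  exact this.le

theorem Ker.mono (k : Ker ρ e) {e' : ℝ} (h : e ≤ e') : Ker ρ e' :=
  ⟨k.cont, k.nn, k.one, fun y hy => (k.supp y hy).trans_le h⟩

theorem locInt {φ : (ι → ℂ) → ℝ} (hφ : Continuous φ) {G : (ι → ℂ) → ℂ}
    (hG : AEStronglyMeasurable G volume) (hi : Integrable fun x => ‖G x‖ ^ 2 * Real.exp (φ x)) :
    LocallyIntegrable G volume := by
  have c : Continuous fun x => Real.exp (-φ x) := Real.continuous_exp.comp hφ.neg
  have a : LocallyIntegrable (fun x => ‖G x‖ ^ 2 * Real.exp (φ x) * Real.exp (-φ x)) volume :=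
    fun y => ((hi.locallyIntegrable.locallyIntegrableOn Set.univ).mul_continuousOn c.continuousOn
      isClosed_univ.isLocallyClosed y trivial).filter_mono (by simp)
  refine (a.add (locallyIntegrable_const (1 : ℝ))).mono hG (.of_forall fun x => ?_)
  rw [Pi.add_apply, mul_assoc, ← Real.exp_add, add_neg_cancel, Real.exp_zero, mul_one]
  refine le_trans ?_ (le_abs_self _)
  nlinarith [sq_nonneg (‖G x‖ - 1), norm_nonneg (G x)]

theorem wt {φ w : (ι → ℂ) → ℝ} (hφ : Continuous φ) (w0 : ∀ x, 0 ≤ w x) (ws : HasCompactSupport w)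
    {c : ℝ} (wc : ∀ x, w x ≤ c) : ∃ e > 0, ∀ x t, ‖x - t‖ < e →
      w x * Real.exp (φ x) ≤ 2 * c * Real.exp (φ t) := by
  obtain ⟨e, e0, h⟩ := uc hφ ws.isCompact (Real.log_pos one_lt_two)
  refine ⟨e, e0, fun x t ht => ?_⟩
  have c0 := (w0 x).trans (wc x)
  by_cases h0 : w x = 0
  · rw [h0, zero_mul]
    positivity
  · have h1 := (le_abs_self _).trans (h x (subset_tsupport _ h0) t ht)
    have h2 : Real.exp (φ x) ≤ 2 * Real.exp (φ t) := by
      rw [← Real.exp_log two_pos, ← Real.exp_add]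
      exact Real.exp_le_exp.2 (by linarith)
    calc _ ≤ c * (2 * Real.exp (φ t)) := mul_le_mul (wc x) h2 (Real.exp_pos _).le c0
      _ = _ := by ring

open Filter Topology

variable {r : ℕ → ContDiffBump (0 : ι → ℂ)}

/-- the mollified function -/
noncomputable def cv (r : ℕ → ContDiffBump (0 : ι → ℂ)) (n : ℕ) (G : (ι → ℂ) → ℂ) (x : ι → ℂ) : ℂ :=
  ∫ t, G t * ((r n).normed volume (x - t) : ℂ)

theorem ev_ker (hr : Tendsto (fun n => (r n).rOut) atTop (𝓝 0)) {e : ℝ} (e0 : 0 < e) :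
    ∀ᶠ n in atTop, Ker ((r n).normed volume) e :=
  (hr.eventually (gt_mem_nhds e0)).mono fun n hn => (ker_bump (r n)).mono hn.le

/-- (M3) -/
theorem m3 (hr : Tendsto (fun n => (r n).rOut) atTop (𝓝 0)) {G b : (ι → ℂ) → ℂ}
    (hG : LocallyIntegrable G volume) (hb : Continuous b) (hc : HasCompactSupport b) :
    Tendsto (fun n => ∫ x, b x * cv r n G x) atTop (𝓝 (∫ t, G t * b t)) := by
  have hK : IsCompact (cthickening 1 (tsupport b)) := hc.isCompact.cthickening
  set N := ∫ t in cthickening 1 (tsupport b), ‖G t‖ with hN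
  have N0 : 0 ≤ N := integral_nonneg fun _ => norm_nonneg _
  refine Metric.tendsto_nhds.2 fun ε ε0 => ?_
  have d0 : 0 < ε / (N + 1) := by positivity
  obtain ⟨e, e0, h⟩ := Metric.uniformContinuous_iff.1 (hc.uniformContinuous_of_continuous hb) _ d0
  filter_upwards [ev_ker hr (lt_min e0 one_pos)] with n k
  rw [dist_eq_norm]
  refine (k.weak (δ := ε / (N + 1)) hG hb hc hK (fun x t hx ht => ?_) fun x t ht => ?_).trans_lt ?_
  · refine mem_cthickening_of_dist_le t x 1 _ (subset_tsupport _ hx) ?_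
    rw [dist_comm, dist_eq_norm]
    exact (ht.trans_le (min_le_right _ _)).le
  · rw [← dist_eq_norm]
    exact (h (by rw [dist_eq_norm]; exact ht.trans_le (min_le_left _ _))).le
  · rw [← hN, div_mul_eq_mul_div, div_lt_iff₀ (by positivity)]
    nlinarith

/-- (M4) -/
theorem m4 (hr : Tendsto (fun n => (r n).rOut) atTop (𝓝 0)) {φ w : (ι → ℂ) → ℝ} (hφ : Continuous φ)
    {G : (ι → ℂ) → ℂ} (hi : Integrable fun x => ‖G x‖ ^ 2 * Real.exp (φ x))
    (w0 : ∀ x, 0 ≤ w x) (ws : HasCompactSupport w) {c : ℝ} (wc : ∀ x, w x ≤ c) :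
    ∀ᶠ n in atTop, ∫ x, w x * Real.exp (φ x) * ‖cv r n G x‖ ^ 2 ≤
      2 * c * ∫ x, ‖G x‖ ^ 2 * Real.exp (φ x) := by
  obtain ⟨e, e0, h⟩ := wt hφ w0 ws wc
  filter_upwards [ev_ker hr e0] with n k
  have := k.jensen (G := G) (A := cv r n G) (κ := 1)
    (fun x => mul_nonneg (w0 x) (Real.exp_pos (φ x)).le) h
    ((hi.const_mul (2 * c)).congr (.of_forall fun x => by simp only; ring))
    fun x _ => k.norm_le G x
  rw [← integral_const_mul]
  convert this using 1
  · congr 1
    funext x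
    ring
  · rw [one_pow, one_mul]
    congr 1
    funext x
    ring

/-- (M5) -/
theorem m5 (hr : Tendsto (fun n => (r n).rOut) atTop (𝓝 0)) {φ w : (ι → ℂ) → ℝ} (hφ : Continuous φ)
    {G : (ι → ℂ) → ℂ} (hG : AEStronglyMeasurable G volume)
    (hi : Integrable fun x => ‖G x‖ ^ 2 * Real.exp (φ x))
    (w0 : ∀ x, 0 ≤ w x) (ws : HasCompactSupport w) {c : ℝ} (wc : ∀ x, w x ≤ c)
    {p : (ι → ℂ) → ℂ} (hp : Continuous p) {θ : ℝ} (θ0 : 0 < θ) :
    ∀ᶠ n in atTop, ∫ x, w x * Real.exp (φ x) *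
      ‖p x * cv r n G x - cv r n (fun t => p t * G t) x‖ ^ 2 ≤ θ := by
  obtain ⟨e, e0, h⟩ := wt hφ w0 ws wc
  set N := ∫ x, ‖G x‖ ^ 2 * (2 * c * Real.exp (φ x)) with hN
  have c0 := (w0 0).trans (wc 0)
  have N0 : 0 ≤ N := integral_nonneg fun _ => by positivity
  have d0 : 0 < √(θ / (N + 1)) := by positivity
  obtain ⟨e', e0', h'⟩ := uc hp ws.isCompact d0
  filter_upwards [ev_ker hr (lt_min e0 e0')] with n k
  have := (k.mono (min_le_left _ _)).jensen (G := G)
    (A := fun x => p x * cv r n G x - cv r n (fun t => p t * G t) x) (κ := √(θ / (N + 1)))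
    (fun x => mul_nonneg (w0 x) (Real.exp_pos (φ x)).le) h
    ((hi.const_mul (2 * c)).congr (.of_forall fun x => by simp only; ring))
    fun x hx => (k.mono (min_le_right _ _)).comm (locInt hφ hG hi) hp
      (h' x (subset_tsupport _ (left_ne_zero_of_mul hx)))
  rw [← hN, Real.sq_sqrt (by positivity)] at this
  refine le_trans (le_of_eq ?_) (this.trans ?_)
  · congr 1
    funext x
    ring
  · rw [div_mul_eq_mul_div, div_le_iff₀ (by positivity)]
    nlinarith

end Moll

end Pool.Agent.Lib.MP_9ff3e7_ag.F
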