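import Pool.Agent.Lib.MP_9ff3e7_ag.F.HOps
import Pool.Agent.Lib.MP_9ff3e7_ag.F.HWeyl

/-! Weyl's lemma for `∂̄`, hypothesis in coordinates. -/

set_option autoImplicit false

namespace Pool.Agent.Lib.MP_9ff3e7_ag.F

open Complex MeasureTheory
open scoped ContDiff ComplexConjugate

variable {ι : Type} [Fintype ι] [DecidableEq ι]

theorem dbar_eq_sum_dzb (f : (ι → ℂ) → ℂ) (x ξ : ι → ℂ) :
    dbar f x ξ = ∑ j, conj (ξ j) * dzb j f x := by
  have e : ∀ η : ι → ℂ, fderiv ℝ f x η = ∑ j, ((η j).re * fderiv ℝ f x (Pi.single j 1) +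
      (η j).im * fderiv ℝ f x (Pi.single j I)) := fun η => by
    have : η = ∑ j, ((η j).re • (Pi.single j 1 : ι → ℂ) + (η j).im • (Pi.single j I : ι → ℂ)) := by
      funext i
      simp [Finset.sum_apply, Pi.single_apply, Finset.sum_add_distrib]
    conv_lhs => rw [this]
    simp only [map_sum, map_add, map_smul, real_smul]
  rw [dbar, e ξ, e (I • ξ), Finset.mul_sum, ← Finset.sum_add_distrib, Finset.sum_div]
  refine Finset.sum_congr rfl fun j _ => ?_
  have c : conj (ξ j) = (ξ j).re - (ξ j).im * I := by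
    apply Complex.ext <;> simp
  rw [dzb, c]
  simp only [Pi.smul_apply, smul_eq_mul, mul_re, mul_im, I_re, I_im, zero_mul, one_mul, zero_sub,
    zero_add, ofReal_neg]
  linear_combination (((ξ j).im : ℂ) * fderiv ℝ f x (Pi.single j I) / 2) * I_mul_I

/-- Weyl's lemma for `∂̄`, in coordinates. -/
theorem weyl_j (g : (ι → ℂ) → ℂ) (hg : LocallyIntegrable g volume)
    (hw : ∀ a : (ι → ℂ) → ℂ, ContDiff ℝ ∞ a → HasCompactSupport a → ∀ j,
      ∫ x, g x * dzb j a x = 0) :
    ∃ F : (ι → ℂ) → ℂ, Differentiable ℂ F ∧ F =ᵐ[volume] g := by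
  refine weyl hg fun a ha hc ξ => ?_
  have i : ∀ v, Integrable fun x => g x * fderiv ℝ a x v := fun v =>
    hg.integrable_smul_right_of_hasCompactSupport
      ((ha.continuous_fderiv (by simp)).clm_apply continuous_const) (hc.fderiv_apply ℝ v)
  have k : ∀ j, Integrable fun x => conj (ξ j) * (g x * dzb j a x) := fun j => by
    refine ((((i (Pi.single j 1)).add ((i (Pi.single j I)).const_mul I)).div_const 2).const_mul
      (conj (ξ j))).congr (.of_forall fun x => ?_)
    simp only [dzb, Pi.add_apply]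
    ring
  have : ∀ x, g x * dbar a x ξ = ∑ j, conj (ξ j) * (g x * dzb j a x) := fun x => by
    rw [dbar_eq_sum_dzb, Finset.mul_sum]
    exact Finset.sum_congr rfl fun j _ => by ring
  simp only [this]
  rw [integral_finsetSum _ fun j _ => k j]
  simp only [integral_const_mul, hw a ha hc, mul_zero, Finset.sum_const_zero]

end Pool.Agent.Lib.MP_9ff3e7_ag.F
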