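import Pool.Agent.Lib.MP_9ff3e7_ag.F.HCalc
import Pool.Agent.Lib.MP_9ff3e7_ag.F.HWeylJ

/-! The Hilbert space part of the `L²` estimate on the whole space. -/

set_option autoImplicit false

namespace Pool.Agent.Lib.MP_9ff3e7_ag.F

open Complex MeasureTheory
open scoped ContDiff ComplexConjugate InnerProductSpace

namespace Hz

theorem proj {H : Type*} [NormedAddCommGroup H] [InnerProductSpace ℂ H] [CompleteSpace H]
    (K : Submodule ℂ H) (f : H) {c : ℝ} (hc : 0 ≤ c)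
    (hb : ∀ y ∈ K, ‖⟪y, f⟫_ℂ‖ ≤ c * ‖y‖) :
    ∃ g : H, (∀ y ∈ K, ⟪y, g⟫_ℂ = 0) ∧ ‖g - f‖ ≤ c := by
  set L := K.topologicalClosure with hL
  haveI : CompleteSpace L := K.isClosed_topologicalClosure.completeSpace_coe
  obtain ⟨u, hu, g, hg, rfl⟩ := L.exists_add_mem_mem_orthogonal f
  refine ⟨g, fun y hy => (Submodule.mem_orthogonal L g).1 hg y (K.le_topologicalClosure hy), ?_⟩
  have hcl : IsClosed {y : H | ‖⟪y, u + g⟫_ℂ‖ ≤ c * ‖y‖} :=
    isClosed_le (by fun_prop) (by fun_prop)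
  have h1 : ‖⟪u, u + g⟫_ℂ‖ ≤ c * ‖u‖ := closure_minimal hb hcl hu
  rw [inner_add_right, (Submodule.mem_orthogonal L g).1 hg u hu, add_zero, inner_self_eq_norm_sq_to_K] at h1
  have e : g - (u + g) = -u := by abel
  rw [e, norm_neg]
  simp only [norm_pow, norm_algebraMap', norm_norm, coe_algebraMap, Complex.norm_real] at h1
  rcases (norm_nonneg u).eq_or_lt with h0 | h0
  · rw [← h0]; exact hc
  · nlinarith

theorem quad {a C B : ℝ} (hC : 0 ≤ C) (hB : 0 ≤ B)
    (h : ∀ t : ℝ, 2 * t * a ≤ t ^ 2 * C + B ^ 2) : a ≤ √C * B := by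
  have hd := discrim_le_zero (a := C) (b := -(2 * a)) (c := B ^ 2) fun t => by nlinarith [h t]
  rw [discrim] at hd
  refine (le_abs_self a).trans (abs_le_of_sq_le_sq' ?_ (by positivity)).2
  rw [mul_pow, Real.sq_sqrt hC, sq_abs]
  nlinarith

theorem ptw {d h L : ℝ} (hh : 0 ≤ h) (hL : 0 ≤ L) (hd : d ^ 2 ≤ h * L) (t : ℝ) :
    2 * t * d ≤ t ^ 2 * h + L := by
  refine (abs_le_of_sq_le_sq' ?_ (by positivity)).2
  nlinarith [sq_nonneg (t ^ 2 * h - L), mul_le_mul_of_nonneg_left hd (sq_nonneg t)]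

variable {ι : Type} [Fintype ι] [DecidableEq ι]

theorem box_smooth {φ : (ι → ℂ) → ℝ} (hφ : ContDiff ℝ ∞ φ) {v : (ι → ℂ) → ℂ}
    (hv : ContDiff ℝ ∞ v) : ContDiff ℝ ∞ (box φ v) :=
  ContDiff.sum fun j _ => ((dz_smooth j (HC.smooth_ofReal hφ)).mul (dzb_smooth j hv)).sub
    (dz_smooth j (dzb_smooth j hv))

theorem dzb_zero {v : (ι → ℂ) → ℂ} {x : ι → ℂ} (hx : x ∉ tsupport v) (j : ι) : dzb j v x = 0 := by
  simp [dzb, fderiv_of_notMem_tsupport ℝ hx]

theorem box_supp (φ : (ι → ℂ) → ℝ) {v : (ι → ℂ) → ℂ} (hc : HasCompactSupport v) :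
    HasCompactSupport (box φ v) := by
  refine HasCompactSupport.intro hc fun x hx => Finset.sum_eq_zero fun j _ => ?_
  have h1 : x ∉ tsupport (dzb j v) := fun h =>
    hx (closure_minimal (fun y hy => by
      by_contra hn
      exact hy (dzb_zero hn j)) (isClosed_tsupport v) h)
  simp [dzb_zero hx j, dz, fderiv_of_notMem_tsupport ℝ h1]

theorem box_add (φ : (ι → ℂ) → ℝ) {v w : (ι → ℂ) → ℂ} (hv : ContDiff ℝ ∞ v)
    (hw : ContDiff ℝ ∞ w) (x : ι → ℂ) :
    box φ (fun y => v y + w y) x = box φ v x + box φ w x := by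
  simp only [box, ← Finset.sum_add_distrib]
  refine Finset.sum_congr rfl fun j _ => ?_
  have e : dzb j (fun y => v y + w y) = fun y => dzb j v y + dzb j w y := funext fun y =>
    dzb_add j (hv.differentiable (by simp) y) (hw.differentiable (by simp) y)
  rw [e, dz_add j ((dzb_smooth j hv).differentiable (by simp) x)
    ((dzb_smooth j hw).differentiable (by simp) x)]
  ring

theorem box_smul (φ : (ι → ℂ) → ℝ) (c : ℂ) {v : (ι → ℂ) → ℂ} (hv : ContDiff ℝ ∞ v) (x : ι → ℂ) :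
    box φ (fun y => c * v y) x = c * box φ v x := by
  simp only [box, Finset.mul_sum]
  refine Finset.sum_congr rfl fun j _ => ?_
  have e : dzb j (fun y => c * v y) = fun y => c * dzb j v y := funext fun y => by
    rw [dzb_mul j (differentiableAt_const c) (hv.differentiable (by simp) y), dzb_const]
    ring
  rw [e, dz_mul j (differentiableAt_const c) ((dzb_smooth j hv).differentiable (by simp) x),
    dz_const]
  ring

theorem levi_int {φ : (ι → ℂ) → ℝ} (hφ : ContDiff ℝ ∞ φ) {v : (ι → ℂ) → ℂ} (hv : ContDiff ℝ ∞ v)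
    (hc : HasCompactSupport v) :
    Integrable fun x => levi φ x (fun j => dzb j v x) * Real.exp (-φ x) := by
  have h2 : Continuous (fderiv ℝ (fderiv ℝ φ)) :=
    (hφ.fderiv_right (m := ∞) (by norm_cast)).continuous_fderiv (by simp)
  have h3 : Continuous fun x => (fun j => dzb j v x : ι → ℂ) :=
    continuous_pi fun j => (dzb_smooth j hv).continuous
  have h4 : Continuous fun x => I • (fun j => dzb j v x : ι → ℂ) := h3.const_smul I
  have h5 := hφ.continuous
  refine Continuous.integrable_of_hasCompactSupport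
    (((((h2.clm_apply h3).clm_apply h3).add ((h2.clm_apply h4).clm_apply h4)).div_const 4).mul
      (by fun_prop)) (HasCompactSupport.intro hc fun x hx => ?_)
  have : (fun j => dzb j v x) = 0 := funext fun j => dzb_zero hx j
  simp [levi, this]

/-- square root of the weight -/
noncomputable def rt (φ : (ι → ℂ) → ℝ) (x : ι → ℂ) : ℂ := (Real.exp (-φ x / 2) : ℝ)

omit [Fintype ι] [DecidableEq ι] in
theorem rt_mul (φ : (ι → ℂ) → ℝ) (x : ι → ℂ) : rt φ x * rt φ x = (Real.exp (-φ x) : ℝ) := by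
  rw [rt, ← ofReal_mul, ← Real.exp_add, add_halves]

omit [Fintype ι] [DecidableEq ι] in
theorem rt_conj (φ : (ι → ℂ) → ℝ) (x : ι → ℂ) : conj (rt φ x) = rt φ x := conj_ofReal _

omit [Fintype ι] [DecidableEq ι] in
theorem rt_ne (φ : (ι → ℂ) → ℝ) (x : ι → ℂ) : rt φ x ≠ 0 :=
  ofReal_ne_zero.2 (Real.exp_pos _).ne'

omit [Fintype ι] [DecidableEq ι] in
theorem rt_norm (φ : (ι → ℂ) → ℝ) (x : ι → ℂ) (a : ℂ) :
    ‖a * rt φ x‖ ^ 2 = ‖a‖ ^ 2 * Real.exp (-φ x) := by
  rw [norm_mul, mul_pow, rt, Complex.norm_real, Real.norm_eq_abs, sq_abs, sq, sq (Real.exp _),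
    ← Real.exp_add, add_halves]

omit [DecidableEq ι] in
theorem rt_cont {φ : (ι → ℂ) → ℝ} (hφ : Continuous φ) : Continuous (rt φ) := by
  unfold rt
  fun_prop

omit [DecidableEq ι] in
theorem mem2 {φ : (ι → ℂ) → ℝ} (hφ : Continuous φ) {a : (ι → ℂ) → ℂ} (ha : Continuous a)
    (hc : HasCompactSupport a) : MemLp (fun x => a x * rt φ x) 2 volume :=
  (ha.mul (rt_cont hφ)).memLp_of_hasCompactSupport hc.mul_right

omit [DecidableEq ι] in
theorem norm_sq (y : Lp ℂ 2 (volume : Measure (ι → ℂ))) : ‖y‖ ^ 2 = ∫ x, ‖y x‖ ^ 2 := by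
  rw [@norm_sq_eq_re_inner ℂ, L2.inner_def, ← integral_re (L2.integrable_inner y y)]
  simp only [← norm_sq_eq_re_inner]

omit [DecidableEq ι] in
theorem int_sq (y : Lp ℂ 2 (volume : Measure (ι → ℂ))) : Integrable fun x => ‖y x‖ ^ 2 :=
  (memLp_two_iff_integrable_sq_norm (Lp.aestronglyMeasurable y)).1 (Lp.memLp y)

/-- the range of the weighted Laplacian on test functions -/
def rng (φ : (ι → ℂ) → ℝ) : Submodule ℂ (Lp ℂ 2 (volume : Measure (ι → ℂ))) where
  carrier := {y | ∃ v : (ι → ℂ) → ℂ, ContDiff ℝ ∞ v ∧ HasCompactSupport v ∧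
    y =ᵐ[volume] fun x => box φ v x * rt φ x}
  add_mem' := by
    rintro a b ⟨v, hv, hc, e1⟩ ⟨w, hw, hd, e2⟩
    refine ⟨fun y => v y + w y, hv.add hw, hc.add hd, ?_⟩
    filter_upwards [Lp.coeFn_add a b, e1, e2] with x h0 h1 h2
    rw [h0, Pi.add_apply, h1, h2, box_add φ hv hw, add_mul]
  zero_mem' := by
    refine ⟨fun _ => 0 * 0, contDiff_const,
      HasCompactSupport.intro isCompact_empty fun _ _ => mul_zero _, ?_⟩
    filter_upwards [Lp.coeFn_zero ℂ 2 (volume : Measure (ι → ℂ))] with x h0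
    rw [h0, box_smul φ 0 contDiff_const]
    simp
  smul_mem' := by
    rintro c a ⟨v, hv, hc, e1⟩
    refine ⟨fun y => c * v y, contDiff_const.mul hv, hc.mul_left, ?_⟩
    filter_upwards [Lp.coeFn_smul c a, e1] with x h0 h1
    rw [h0, Pi.smul_apply, h1, box_smul φ c hv, smul_eq_mul, mul_assoc]

end Hz

open Hz in
/-- the estimate from the Bochner inequality, the pairing formula and weak holomorphy -/
theorem hormander_of {ι : Type} [Fintype ι] [DecidableEq ι] (φ : (ι → ℂ) → ℝ)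
    (hφ : ContDiff ℝ ∞ φ) (hpsh : ∀ x ξ, 0 ≤ levi φ x ξ)
    (f : (ι → ℂ) → ℂ) (hf : ContDiff ℝ ∞ f) (hc : HasCompactSupport f)
    (h : (ι → ℂ) → ℝ) (hm : Measurable h) (h0 : ∀ x, 0 ≤ h x)
    (hb : ∀ x ξ, ‖dbar f x ξ‖ ^ 2 ≤ h x * levi φ x ξ)
    (HB : ∀ v : (ι → ℂ) → ℂ, ContDiff ℝ ∞ v → HasCompactSupport v →
      ∫ x, levi φ x (fun j => dzb j v x) * Real.exp (-φ x) ≤
        ∫ x, ‖box φ v x‖ ^ 2 * Real.exp (-φ x))
    (HP : ∀ v : (ι → ℂ) → ℂ, ContDiff ℝ ∞ v → HasCompactSupport v →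
      ∫ x, f x * conj (box φ v x) * (Real.exp (-φ x) : ℂ) =
        ∫ x, dbar f x (fun j => dzb j v x) * (Real.exp (-φ x) : ℂ))
    (HC : ∀ g : (ι → ℂ) → ℂ, AEStronglyMeasurable g volume →
      Integrable (fun x => ‖g x‖ ^ 2 * Real.exp (-φ x)) volume →
      (∀ v : (ι → ℂ) → ℂ, ContDiff ℝ ∞ v → HasCompactSupport v →
        ∫ x, g x * conj (box φ v x) * (Real.exp (-φ x) : ℂ) = 0) →
      ∀ a : (ι → ℂ) → ℂ, ContDiff ℝ ∞ a → HasCompactSupport a → ∀ j,
        ∫ x, g x * dzb j a x = 0) :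
    ∃ F : (ι → ℂ) → ℂ, Differentiable ℂ F ∧
      ∫⁻ x, ENNReal.ofReal (‖F x - f x‖ ^ 2 * Real.exp (-φ x)) ≤
        ∫⁻ x, ENNReal.ofReal (h x * Real.exp (-φ x)) := by
  by_cases htop : ∫⁻ x, ENNReal.ofReal (h x * Real.exp (-φ x)) = ⊤
  · exact ⟨fun _ => 0, differentiable_const _, htop ▸ le_top⟩
  have φc := hφ.continuous
  have hw0 : ∀ x, 0 ≤ h x * Real.exp (-φ x) := fun x => mul_nonneg (h0 x) (Real.exp_pos _).le
  have hwm : AEStronglyMeasurable (fun x => h x * Real.exp (-φ x)) volume :=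
    (hm.mul (by fun_prop : Continuous fun x => Real.exp (-φ x)).measurable).aestronglyMeasurable
  have hwi : Integrable fun x => h x * Real.exp (-φ x) :=
    (lintegral_ofReal_ne_top_iff_integrable hwm (.of_forall hw0)).1 htop
  set C := ∫ x, h x * Real.exp (-φ x) with hC
  have C0 : 0 ≤ C := integral_nonneg hw0
  have fm := mem2 φc hf.continuous hc
  have key : ∀ (u : Lp ℂ 2 (volume : Measure (ι → ℂ))) (g : (ι → ℂ) → ℂ),
      (u =ᵐ[volume] fun x => g x * rt φ x) → ∀ (y : Lp ℂ 2 (volume : Measure (ι → ℂ)))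
        (v : (ι → ℂ) → ℂ), (y =ᵐ[volume] fun x => box φ v x * rt φ x) →
      ⟪y, u⟫_ℂ = ∫ x, g x * conj (box φ v x) * (Real.exp (-φ x) : ℂ) := fun u g e y v e1 => by
    rw [L2.inner_def]
    refine integral_congr_ae ?_
    filter_upwards [e, e1] with x h1 h2
    rw [h1, h2, RCLike.inner_apply, map_mul, rt_conj, ← rt_mul]
    ring
  obtain ⟨g, hg, hn⟩ := proj (rng φ) (fm.toLp _) (Real.sqrt_nonneg C) (by
    rintro y ⟨v, hv, hvc, e⟩
    rw [key _ f fm.coeFn_toLp y v e, HP v hv hvc]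
    have e2 : ‖y‖ ^ 2 = ∫ x, ‖box φ v x‖ ^ 2 * Real.exp (-φ x) := by
      rw [norm_sq]
      refine integral_congr_ae ?_
      filter_upwards [e] with x h1
      rw [h1, rt_norm]
    refine (norm_integral_le_integral_norm _).trans (quad C0 (norm_nonneg y) fun t => ?_)
    have li := levi_int hφ hv hvc
    rw [e2]
    refine le_trans ?_ (add_le_add_right (HB v hv hvc) _)
    rw [hC, ← integral_const_mul, ← integral_const_mul, ← integral_add (hwi.const_mul _) li]
    by_cases ht : t ≤ 0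
    · refine le_trans (integral_nonpos fun x => ?_) (integral_nonneg fun x => ?_)
      · exact mul_nonpos_of_nonpos_of_nonneg (by linarith) (norm_nonneg _)
      · exact add_nonneg (mul_nonneg (sq_nonneg t) (hw0 x))
          (mul_nonneg (hpsh _ _) (Real.exp_pos _).le)
    refine integral_mono_of_nonneg (.of_forall fun x => ?_) ((hwi.const_mul _).add li)
      (.of_forall fun x => ?_)
    · exact mul_nonneg (by linarith) (norm_nonneg _)
    · have := mul_le_mul_of_nonneg_right (ptw (h0 x) (hpsh x _) (hb x fun j => dzb j v x) t)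
        (Real.exp_pos (-φ x)).le
      simp only [norm_mul, Complex.norm_real, Real.norm_eq_abs, Real.abs_exp]
      linarith)
  set G : (ι → ℂ) → ℂ := fun x => g x * (rt φ x)⁻¹ with hG
  have eG : ∀ x, g x = G x * rt φ x := fun x => by
    rw [hG, mul_assoc, inv_mul_cancel₀ (rt_ne φ x), mul_one]
  have ric : Continuous fun x => (rt φ x)⁻¹ := (rt_cont φc).inv₀ (rt_ne φ)
  have Gm : AEStronglyMeasurable G volume :=
    (Lp.aestronglyMeasurable g).mul ric.aestronglyMeasurable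
  have Gi : Integrable fun x => ‖G x‖ ^ 2 * Real.exp (-φ x) := by
    simpa only [← rt_norm, ← eG] using int_sq g
  have Gl : LocallyIntegrable G volume :=
    ((Lp.memLp g).locallyIntegrable (by norm_num)).mul_continuous ric
  obtain ⟨F, hF, eF⟩ := weyl_j G Gl (HC G Gm Gi fun v hv hvc => by
    have vm := mem2 φc (box_smooth hφ hv).continuous (box_supp φ hvc)
    rw [← key g G (.of_forall eG) (vm.toLp _) v vm.coeFn_toLp]
    exact hg _ ⟨v, hv, hvc, vm.coeFn_toLp⟩)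
  refine ⟨F, hF, ?_⟩
  have e3 : (fun x => ENNReal.ofReal (‖F x - f x‖ ^ 2 * Real.exp (-φ x))) =ᵐ[volume]
      fun x => ENNReal.ofReal (‖(g - fm.toLp _ : Lp ℂ 2 (volume : Measure (ι → ℂ))) x‖ ^ 2) := by
    filter_upwards [eF, Lp.coeFn_sub g (fm.toLp _), fm.coeFn_toLp] with x h1 h2 h3
    rw [h2, Pi.sub_apply, h3, eG, ← sub_mul, rt_norm, h1]
  rw [lintegral_congr_ae e3,
    ← ofReal_integral_eq_lintegral_ofReal (int_sq _) (.of_forall fun x => sq_nonneg _),
    ← ofReal_integral_eq_lintegral_ofReal hwi (.of_forall hw0), ← norm_sq]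
  refine ENNReal.ofReal_le_ofReal ?_
  rw [← hC, ← Real.sq_sqrt C0]
  exact pow_le_pow_left₀ (norm_nonneg _) hn 2

end Pool.Agent.Lib.MP_9ff3e7_ag.F
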