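import Pool.Agent.Lib.MP_9ff3e7_ag.F.Taylor

/-! Part (b) of the main inequality: coordinates along a subvariety and block maps. -/

set_option autoImplicit false

namespace Pool.Agent.Lib.MP_9ff3e7_ag.F

open MvPolynomial

theorem blk_isAlgebraic {B R : Type} [CommRing B] [IsDomain B] [CommRing R] [IsDomain R]
    [Algebra B R] [FaithfulSMul B R] [Algebra.FiniteType B R] [Algebra.FormallyUnramified B R] :
    Algebra.IsAlgebraic B R := by
  let : Algebra (FractionRing B) (FractionRing R) := FractionRing.liftAlgebra B (FractionRing R)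
  have h1 : Algebra.FormallyUnramified B (FractionRing R) := inferInstance
  have h2 : Algebra.FormallyUnramified (FractionRing B) (FractionRing R) :=
    Algebra.FormallyUnramified.of_restrictScalars B _ _
  have h3 : Algebra.EssFiniteType B (FractionRing R) :=
    Algebra.EssFiniteType.comp B R (FractionRing R)
  have h4 : Algebra.EssFiniteType (FractionRing B) (FractionRing R) :=
    Algebra.EssFiniteType.of_comp B _ _
  have h5 : Algebra.IsSeparable (FractionRing B) (FractionRing R) :=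
    Algebra.FormallyUnramified.isSeparable _ _
  have h6 : Algebra.IsAlgebraic B (FractionRing R) :=
    (IsFractionRing.comap_isAlgebraic_iff (K := FractionRing B)).mpr inferInstance
  exact Algebra.IsAlgebraic.of_injective (IsScalarTower.toAlgHom B R (FractionRing R))
    (IsFractionRing.injective R (FractionRing R))

/-- a transcendence basis among the coordinates -/
theorem blk_exists_J {R : Type} [CommRing R] [IsDomain R] [Algebra ℂ R] [Algebra.FiniteType ℂ R]
    {n : ℕ} [Algebra (MvPolynomial (Fin n) ℂ) R] [IsScalarTower ℂ (MvPolynomial (Fin n) ℂ) R]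
    [Algebra.FormallyUnramified (MvPolynomial (Fin n) ℂ) R] :
    ∃ (d : ℕ) (J : Fin d ↪ Fin n),
      IsTranscendenceBasis ℂ fun j => algebraMap (MvPolynomial (Fin n) ℂ) R (X (J j)) := by
  classical
  set z : Fin n → R := fun i => algebraMap (MvPolynomial (Fin n) ℂ) R (X i) with hz
  set B : Subalgebra ℂ R := Algebra.adjoin ℂ (Set.range z) with hB
  let φ : MvPolynomial (Fin n) ℂ →ₐ[ℂ] B :=
    aeval fun i => (⟨z i, Algebra.subset_adjoin ⟨i, rfl⟩⟩ : B)
  let : Algebra (MvPolynomial (Fin n) ℂ) B := φ.toAlgebra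
  have : IsScalarTower (MvPolynomial (Fin n) ℂ) B R := by
    refine IsScalarTower.of_algebraMap_eq fun a => ?_
    have : IsScalarTower.toAlgHom ℂ (MvPolynomial (Fin n) ℂ) R = B.val.comp φ := by
      ext i
      simp [φ, hz]
    exact AlgHom.congr_fun this a
  have : Algebra.FormallyUnramified B R :=
    Algebra.FormallyUnramified.of_restrictScalars (MvPolynomial (Fin n) ℂ) _ _
  have : Algebra.FiniteType B R := Algebra.FiniteType.of_restrictScalars_finiteType ℂ _ R
  have : Algebra.IsAlgebraic B R := blk_isAlgebraic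
  obtain ⟨t, ht, hb⟩ := exists_isTranscendenceBasis_subset (R := ℂ) (Set.range z)
  have hfin : t.Finite := (Set.finite_range z).subset ht
  have := hfin.fintype
  choose g hg using fun x : t => ht x.2
  have ginj : Function.Injective g := by
    intro a b hab
    apply Subtype.ext
    rw [← hg a, ← hg b, hab]
  let e := (Fintype.equivFin t).symm
  refine ⟨Fintype.card t, ⟨g ∘ e, ginj.comp e.injective⟩, ?_⟩
  have : (fun j => algebraMap (MvPolynomial (Fin n) ℂ) R (X ((g ∘ e) j))) =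
      ((↑) : t → R) ∘ e := by
    funext j
    exact hg (e j)
  change IsTranscendenceBasis ℂ fun j => algebraMap (MvPolynomial (Fin n) ℂ) R (X ((g ∘ e) j))
  rw [this]
  exact (isTranscendenceBasis_equiv e).mpr hb

/-- generic coordinates on a finite module over a domain -/
theorem blk_coord {R M : Type} [CommRing R] [IsDomain R] [AddCommGroup M] [Module R M]
    {N : ℕ} (v : Fin N → M) (hv : Submodule.span R (Set.range v) = ⊤) :
    ∃ (h : R) (ψ : M →ₗ[R] (Fin N → R)), h ≠ 0 ∧ ∀ m, h • m = ∑ l, ψ m l • v l := by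
  classical
  obtain ⟨I, hI, hmax⟩ := exists_maximal_linearIndepOn R v
  have hall : ∀ i, ∃ a : R, a ≠ 0 ∧ a • v i ∈ Submodule.span R (v '' I) := by
    intro i
    by_cases hi : i ∈ I
    · refine ⟨1, one_ne_zero, ?_⟩
      rw [one_smul]
      exact Submodule.subset_span ⟨i, hi, rfl⟩
    · exact hmax i hi
  choose a ha0 ha using hall
  have hrange : v '' I = Set.range fun i : I => v i := by
    ext x
    simp
  have hmem : ∀ m, (∏ i, a i) • m ∈ Submodule.span R (Set.range fun i : I => v i) := by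
    intro m
    have hm : m ∈ Submodule.span R (Set.range v) := hv ▸ Submodule.mem_top
    rw [← hrange]
    induction hm using Submodule.span_induction with
    | mem x hx =>
      obtain ⟨i, rfl⟩ := hx
      rw [← Finset.prod_erase_mul _ _ (Finset.mem_univ i), mul_smul]
      exact Submodule.smul_mem _ _ (ha i)
    | zero => simp
    | add x y _ _ hx hy => rw [smul_add]; exact Submodule.add_mem _ hx hy
    | smul c x _ hx => rw [smul_comm]; exact Submodule.smul_mem _ _ hx
  have hI' : LinearIndependent R fun i : I => v i := hI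
  let μ : M →ₗ[R] Submodule.span R (Set.range fun i : I => v i) :=
    LinearMap.codRestrict _ ((∏ i, a i) • LinearMap.id) hmem
  let ψ : M →ₗ[R] (Fin N → R) := (Finsupp.lcoeFun).comp
    ((Finsupp.lmapDomain R R ((↑) : I → Fin N)).comp (hI'.repr.comp μ))
  refine ⟨∏ i, a i, ψ, Finset.prod_ne_zero_iff.mpr fun i _ => ha0 i, fun m => ?_⟩
  have h1 := hI'.linearCombination_repr (μ m)
  have h2 : Finsupp.linearCombination R v (Finsupp.mapDomain ((↑) : I → Fin N) (hI'.repr (μ m))) =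
      (∏ i, a i) • m := by
    rw [Finsupp.linearCombination_mapDomain]
    exact h1
  rw [← h2, Finsupp.linearCombination_apply, Finsupp.sum_fintype _ _ (by simp)]
  rfl

/-- the block map of a pair of ideals `b ≤ a` along a prime `P` -/
theorem blk_map {O : Type} [CommRing O] [Algebra ℂ O] (P : Ideal O) [P.IsPrime] (a b : Ideal O)
    {N : ℕ} (v : Fin N → O) (hv : Ideal.span (Set.range v) = a) :
    ∃ (h : O) (p : O →ₗ[ℂ] (Fin N → O ⧸ P)), h ∉ P ∧ (∀ s ∈ a, s ∈ b → p s = 0) ∧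
      (∀ s ∈ a, ∀ f, p (f * s) = Ideal.Quotient.mk P f • p s) ∧
      ∀ s ∈ a, ∀ c : Fin N → O, (∀ l, Ideal.Quotient.mk P (c l) = p s l) →
        h * s - ∑ l, c l * v l ∈ P * a + b := by
  set N0 : Ideal O := P * a + b with hN0
  let M := a ⧸ (Submodule.comap (Submodule.subtype a) N0)
  have htor : Module.IsTorsionBySet O M P := by
    rintro m ⟨f, hf⟩
    obtain ⟨s, rfl⟩ := Submodule.Quotient.mk_surjective _ m
    change f • Submodule.Quotient.mk s = (0 : M)
    rw [← Submodule.Quotient.mk_smul, Submodule.Quotient.mk_eq_zero]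
    exact Ideal.mem_sup_left (Ideal.mul_mem_mul hf s.2)
  let : Module (O ⧸ P) M := htor.module
  have hsm : ∀ (f : O) (m : M), Ideal.Quotient.mk P f • m = f • m := fun _ _ => rfl
  have hva : ∀ l, v l ∈ a := fun l => hv ▸ Ideal.subset_span ⟨l, rfl⟩
  let π : a →ₗ[O] M := Submodule.mkQ _
  have hspan : Submodule.span (O ⧸ P) (Set.range fun l => π ⟨v l, hva l⟩) = ⊤ := by
    rw [eq_top_iff]
    rintro m -
    obtain ⟨⟨s, hs⟩, rfl⟩ := Submodule.mkQ_surjective _ m
    obtain ⟨c, rfl⟩ := Ideal.mem_span_range_iff_exists_fun.mp (hv ▸ hs)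
    have : (⟨∑ l, c l * v l, hs⟩ : a) = ∑ l, c l • (⟨v l, hva l⟩ : a) := by
      apply Subtype.ext
      simp
    change π _ ∈ _
    rw [this, map_sum]
    refine Submodule.sum_mem _ fun l _ => ?_
    rw [map_smul, ← hsm]
    exact Submodule.smul_mem _ _ (Submodule.subset_span ⟨l, rfl⟩)
  obtain ⟨h, ψ, hh, hψ⟩ := blk_coord _ hspan
  obtain ⟨h, rfl⟩ := Ideal.Quotient.mk_surjective h
  let p0 : (a.restrictScalars ℂ) →ₗ[ℂ] (Fin N → O ⧸ P) :=
    { toFun := fun s => ψ (π ⟨s.1, s.2⟩)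
      map_add' := fun s t => by
        rw [← map_add, ← map_add]
        rfl
      map_smul' := fun c s => by
        have : (⟨(c • s).1, (c • s).2⟩ : a) = algebraMap ℂ O c • (⟨s.1, s.2⟩ : a) := by
          apply Subtype.ext
          exact Algebra.smul_def c s.1
        rw [this, map_smul, ← hsm, map_smul]
        funext l
        simp [Algebra.smul_def] }
  obtain ⟨p, hp⟩ := LinearMap.exists_extend p0
  have hp' : ∀ s (hs : s ∈ a), p s = ψ (π ⟨s, hs⟩) := fun s hs =>
    LinearMap.congr_fun hp ⟨s, hs⟩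
  refine ⟨h, p, fun hP => hh (Ideal.Quotient.eq_zero_iff_mem.mpr hP), fun s hs hb => ?_,
    fun s hs f => ?_, fun s hs c hc => ?_⟩
  · have : π ⟨s, hs⟩ = 0 := (Submodule.Quotient.mk_eq_zero _).mpr (Ideal.mem_sup_right hb)
    rw [hp' s hs, this, map_zero]
  · rw [hp' s hs, hp' _ (Ideal.mul_mem_left _ f hs), ← map_smul, hsm, ← map_smul]
    rfl
  · have h1 := hψ (π ⟨s, hs⟩)
    rw [← hp' s hs] at h1
    simp only [← hc, hsm, ← map_smul, ← map_sum] at h1
    have h2 := (Submodule.Quotient.eq _).mp h1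
    simpa using h2

/-- part (b) of the main inequality -/
theorem main_b {O : Type} [CommRing O] [Algebra ℂ O] [Algebra.FiniteType ℂ O] {n : ℕ}
    [Algebra (MvPolynomial (Fin n) ℂ) O] [IsScalarTower ℂ (MvPolynomial (Fin n) ℂ) O]
    [Algebra.FormallyUnramified (MvPolynomial (Fin n) ℂ) O] (z : Fin n → O)
    (hz : ∀ i, z i = algebraMap (MvPolynomial (Fin n) ℂ) O (X i)) (P : Ideal O) [P.IsPrime]
    (T : Finset (Ideal O × Ideal O)) (hT : ∀ q ∈ T, q.2 ≤ q.1) :
    ∃ (d : ℕ) (J : Fin d ↪ Fin n) (h : O) (rk : ℕ), Algebra.trdeg ℂ (O ⧸ P) = d ∧ h ∉ P ∧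
      ∀ y : O →ₐ[ℂ] ℂ, (∀ f ∈ P, y f = 0) → y h ≠ 0 →
        ∃ (io : O →ₐ[ℂ] MvPowerSeries (Fin d) ℂ)
          (ph : Ideal O × Ideal O → O →ₗ[ℂ] (Fin rk → MvPowerSeries (Fin d) ℂ)),
          (∀ f, io f = 0 ↔ f ∈ P) ∧
          (∀ j, io (z (J j)) = MvPowerSeries.C (y (z (J j))) + MvPowerSeries.X j) ∧
          (∀ f, MvPowerSeries.constantCoeff (io f) = y f) ∧
          ∀ q ∈ T, (∀ s ∈ q.2, ph q s = 0) ∧ (∀ s ∈ q.1, ∀ f, ph q (f * s) = io f • ph q s) ∧
            ∀ τ : ℕ, ∃ u : O, y u ≠ 0 ∧ ∀ s ∈ q.1, (∀ l, (τ : ℕ∞) ≤ (ph q s l).order) →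
              u * s ∈ Ideal.span (Set.range fun j => z (J j) - algebraMap ℂ O (y (z (J j)))) ^ τ
                * q.1 + P * q.1 + q.2 := by
  classical
  have : IsNoetherianRing O := Algebra.FiniteType.isNoetherianRing ℂ O
  obtain ⟨d, J, hJ⟩ := blk_exists_J (R := O ⧸ P) (n := n)
  have hzJ : (fun j => algebraMap (MvPolynomial (Fin n) ℂ) (O ⧸ P) (X (J j))) =
      fun j => Ideal.Quotient.mk P (z (J j)) := by
    funext j
    rw [hz]
    rfl
  rw [hzJ] at hJ
  obtain ⟨h0, hh0, htay⟩ := taylor_emb _ hJ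
  obtain ⟨h0, rfl⟩ := Ideal.Quotient.mk_surjective h0
  have hgen : ∀ a : Ideal O, ∃ k : ℕ, ∀ N, k ≤ N → ∃ v : Fin N → O,
      Ideal.span (Set.range v) = a := by
    intro a
    obtain ⟨k, w, hw⟩ := Submodule.fg_iff_exists_fin_generating_family.mp
      (IsNoetherian.noetherian a)
    refine ⟨k, fun N hN => ⟨fun l => if hl : l.1 < k then w ⟨l.1, hl⟩ else 0, ?_⟩⟩
    apply le_antisymm
    · rw [Ideal.span_le]
      rintro _ ⟨l, rfl⟩
      dsimp only
      split_ifs with hl
      · rw [← hw]; exact Submodule.subset_span ⟨_, rfl⟩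
      · exact a.zero_mem
    · rw [← hw]
      refine Ideal.span_mono ?_
      rintro _ ⟨l, rfl⟩
      exact ⟨⟨l.1, lt_of_lt_of_le l.2 hN⟩, by simp⟩
  choose k hk using hgen
  set rk := T.sup fun q => k q.1 with hrk
  have hblk : ∀ q : Ideal O × Ideal O, ∃ (v : Fin rk → O) (h : O)
      (p : O →ₗ[ℂ] (Fin rk → O ⧸ P)), q ∈ T → (∀ l, v l ∈ q.1) ∧ h ∉ P ∧
      (∀ s ∈ q.1, s ∈ q.2 → p s = 0) ∧
      (∀ s ∈ q.1, ∀ f, p (f * s) = Ideal.Quotient.mk P f • p s) ∧
      ∀ s ∈ q.1, ∀ c : Fin rk → O, (∀ l, Ideal.Quotient.mk P (c l) = p s l) →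
        h * s - ∑ l, c l * v l ∈ P * q.1 + q.2 := by
    intro q
    by_cases hq : q ∈ T
    · obtain ⟨v, hv⟩ := hk q.1 rk (Finset.le_sup (f := fun q : Ideal O × Ideal O => k q.1) hq)
      obtain ⟨h, p, H⟩ := blk_map P q.1 q.2 v hv
      exact ⟨v, h, p, fun _ => ⟨fun l => hv ▸ Ideal.subset_span ⟨l, rfl⟩, H⟩⟩
    · exact ⟨0, 0, 0, fun h => absurd h hq⟩
  choose v hh p H using hblk
  have hprime : P.IsPrime := inferInstance
  refine ⟨d, J, h0 * ∏ q ∈ T, hh q, rk, ?_, ?_, fun y hyP hy => ?_⟩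
  · simpa using hJ.cardinalMk_eq_trdeg.symm
  · intro hm
    rcases hprime.mem_or_mem hm with h1 | h1
    · exact hh0 (Ideal.Quotient.eq_zero_iff_mem.mpr h1)
    · obtain ⟨q, hq, h2⟩ := (Ideal.IsPrime.prod_mem_iff (hp := hprime)).mp h1
      exact (H q hq).2.1 h2
  rw [map_mul, map_prod, mul_ne_zero_iff, Finset.prod_ne_zero_iff] at hy
  let yb : (O ⧸ P) →ₐ[ℂ] ℂ := Ideal.Quotient.liftₐ P y hyP
  have hyb : ∀ f, yb (Ideal.Quotient.mk P f) = y f := fun _ => rfl
  obtain ⟨io, hinj, hio, hcc, u, hu, hord⟩ := htay yb hy.1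
  obtain ⟨u, rfl⟩ := Ideal.Quotient.mk_surjective u
  refine ⟨io.comp (Ideal.Quotient.mkₐ ℂ P),
    fun q => (io.toLinearMap.compLeft (Fin rk)).comp (p q), fun f => ?_, hio,
    fun f => hcc (Ideal.Quotient.mk P f), fun q hq => ⟨fun s hs => ?_, fun s hs f => ?_,
      fun τ => ⟨hh q * u ^ τ, ?_, fun s hs hτ => ?_⟩⟩⟩
  · change io (Ideal.Quotient.mk P f) = 0 ↔ _
    rw [map_eq_zero_iff io hinj, Ideal.Quotient.eq_zero_iff_mem]
  · rw [LinearMap.comp_apply, (H q hq).2.2.1 s (hT q hq hs) hs, map_zero]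
  · rw [LinearMap.comp_apply, (H q hq).2.2.2.1 s hs f]
    funext l
    simp
  · rw [map_mul, map_pow]
    exact mul_ne_zero (hy.2 q hq) (pow_ne_zero _ hu)
  · set mJ : Ideal O :=
      Ideal.span (Set.range fun j => z (J j) - algebraMap ℂ O (y (z (J j)))) with hmJ
    have hmap : Ideal.span (Set.range fun j => Ideal.Quotient.mk P (z (J j)) -
        algebraMap ℂ (O ⧸ P) (yb (Ideal.Quotient.mk P (z (J j))))) ^ τ =
        (mJ ^ τ).map (Ideal.Quotient.mk P) := by
      rw [Ideal.map_pow, hmJ, Ideal.map_span, ← Set.range_comp]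
      rfl
    have hc : ∀ l, ∃ c ∈ mJ ^ τ, Ideal.Quotient.mk P c = p q (u ^ τ * s) l := by
      intro l
      have h1 := hord τ (p q s l) (hτ l)
      rw [hmap] at h1
      obtain ⟨c, hc1, hc2⟩ := (Ideal.mem_map_iff_of_surjective _ Ideal.Quotient.mk_surjective).mp h1
      refine ⟨c, hc1, ?_⟩
      rw [hc2, (H q hq).2.2.2.1 s hs]
      simp
    choose c hc1 hc2 using hc
    have h3 := (H q hq).2.2.2.2 _ (Ideal.mul_mem_left _ (u ^ τ) hs) c hc2
    have h4 : ∑ l, c l * v q l ∈ mJ ^ τ * q.1 :=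
      Ideal.sum_mem _ fun l _ => Ideal.mul_mem_mul (hc1 l) ((H q hq).1 l)
    have e : hh q * u ^ τ * s = ∑ l, c l * v q l + (hh q * (u ^ τ * s) - ∑ l, c l * v q l) := by
      ring
    rw [e, add_assoc]
    exact Submodule.add_mem_sup h4 h3

end Pool.Agent.Lib.MP_9ff3e7_ag.F
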