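import Mathlib

/-! Breaks of a partial flag: previous break, next break, refinement by the jumps of a function. -/

set_option autoImplicit false

namespace Pool.Agent.Lib.MP_9ff3e7_ag.F

open Classical in
/-- the largest break `≤ r` -/
noncomputable def pb (B : Set ℕ) (r : ℕ) : ℕ := Nat.findGreatest (· ∈ B) r

/-- the least break `> r` -/
noncomputable def nb (B : Set ℕ) (r : ℕ) : ℕ := sInf {s | s ∈ B ∧ r < s}

variable {B B' : Set ℕ} {N r s : ℕ}

theorem pb_le (B : Set ℕ) (r : ℕ) : pb B r ≤ r := by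
  classical
  unfold pb; exact Nat.findGreatest_le _

theorem pb_mem (h0 : 0 ∈ B) (r : ℕ) : pb B r ∈ B := by
  classical
  unfold pb; exact Nat.findGreatest_spec (P := (· ∈ B)) (Nat.zero_le r) h0

theorem le_pb (hs : s ∈ B) (h : s ≤ r) : s ≤ pb B r := by
  classical
  unfold pb; exact Nat.le_findGreatest (P := (· ∈ B)) h hs

theorem pb_eq_self (h : r ∈ B) : pb B r = r := le_antisymm (pb_le B r) (le_pb h le_rfl)

theorem pb_zero (B : Set ℕ) : pb B 0 = 0 := Nat.le_zero.1 (pb_le B 0)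

theorem pb_mono (B : Set ℕ) (h : r ≤ s) : pb B r ≤ pb B s := by
  classical
  unfold pb; exact Nat.findGreatest_mono_right _ h

theorem pb_sub (h0 : 0 ∈ B) (h : B ⊆ B') (r : ℕ) : pb B r ≤ pb B' r :=
  le_pb (h (pb_mem h0 r)) (pb_le B r)

theorem nb_spec (hN : N ∈ B) (h : r < N) : nb B r ∈ B ∧ r < nb B r :=
  Nat.sInf_mem (s := {s | s ∈ B ∧ r < s}) ⟨N, hN, h⟩

theorem nb_mem (hN : N ∈ B) (h : r < N) : nb B r ∈ B := (nb_spec hN h).1

theorem lt_nb (hN : N ∈ B) (h : r < N) : r < nb B r := (nb_spec hN h).2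

theorem nb_le (hs : s ∈ B) (h : r < s) : nb B r ≤ s := Nat.sInf_le ⟨hs, h⟩

theorem pb_nb (hN : N ∈ B) (h : r < N) : pb B (nb B r) = nb B r := pb_eq_self (nb_mem hN h)

theorem not_mem_of_lt_nb (h1 : r < s) (h2 : s < nb B r) : s ∉ B :=
  fun hs => absurd (nb_le hs h1) (not_le.2 h2)

theorem not_mem_of_pb_lt (h1 : pb B r < s) (h2 : s ≤ r) : s ∉ B :=
  fun hs => absurd (le_pb hs h2) (not_le.2 h1)

theorem pb_eq_of_lt_nb (h0 : 0 ∈ B) (h1 : pb B r ≤ s) (h2 : s < nb B r) : pb B s = pb B r := by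
  refine le_antisymm ?_ (le_pb (pb_mem h0 r) h1)
  by_contra hlt
  push Not at hlt
  rcases le_or_gt (pb B s) r with h | h
  · exact not_mem_of_pb_lt hlt h (pb_mem h0 s)
  · exact not_mem_of_lt_nb h ((pb_le B s).trans_lt h2) (pb_mem h0 s)

theorem nb_eq_of_lt_nb (hN : N ∈ B) (hr : r < N) (h1 : pb B r ≤ s) (h2 : s < nb B r) :
    nb B s = nb B r := by
  refine le_antisymm (nb_le (nb_mem hN hr) h2) ?_
  have hs : s < N := h2.trans_le (nb_le hN hr)
  refine nb_le (nb_mem hN hs) ?_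
  by_contra hle
  push Not at hle
  exact not_mem_of_pb_lt (h1.trans_lt (lt_nb hN hs)) hle (nb_mem hN hs)

theorem nb_pb (hN : N ∈ B) (hr : r < N) : nb B (pb B r) = nb B r :=
  nb_eq_of_lt_nb hN hr le_rfl ((pb_le B r).trans_lt (lt_nb hN hr))

theorem nb_mono (hN : N ∈ B) (hs : s < N) (h : r ≤ s) : nb B r ≤ nb B s :=
  nb_le (nb_mem hN hs) (h.trans_lt (lt_nb hN hs))

theorem pb_pair (hr : r < N) : pb {0, N} r = 0 := by
  rcases pb_mem (B := {0, N}) (by simp) r with h | h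
  · exact h
  · exact absurd (pb_le {0, N} r) (by rw [Set.mem_singleton_iff.1 h]; omega)

theorem nb_pair (hr : r < N) : nb {0, N} r = N := by
  rcases nb_mem (B := {0, N}) (by simp) hr with h | h
  · exact absurd (lt_nb (B := {0, N}) (by simp) hr) (by omega)
  · exact h

/-- the breaks together with the jumps of `a` -/
def newBr (B : Set ℕ) (N : ℕ) (a : ℕ → ℝ) : Set ℕ := B ∪ {r | 0 < r ∧ r < N ∧ a (r - 1) < a r}

theorem sub_newBr (B : Set ℕ) (N : ℕ) (a : ℕ → ℝ) : B ⊆ newBr B N a := Set.subset_union_left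

theorem le_pb_newBr (hN : N ∈ B) (a : ℕ → ℝ) (hr : r ≤ N) : a r ≤ a (pb (newBr B N a) r) := by
  induction r with
  | zero => rw [pb_zero]
  | succ r ih =>
    by_cases hm : r + 1 ∈ newBr B N a
    · rw [pb_eq_self hm]
    · have h1 : r + 1 < N := lt_of_le_of_ne hr fun h => hm (sub_newBr _ _ _ (h ▸ hN))
      have h2 : a (r + 1) ≤ a r := by
        by_contra hlt
        exact hm (Or.inr ⟨by omega, h1, by simpa using hlt⟩)
      have h3 : pb (newBr B N a) (r + 1) = pb (newBr B N a) r := by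
        classical
        unfold pb; rw [Nat.findGreatest_succ, if_neg hm]
      rw [h3]
      exact h2.trans (ih (by omega))

theorem exists_gap (L : ℕ) (N : ℕ → ℕ) (a : ℕ → ℕ → ℝ) {kap : ℝ} (hk : 0 < kap) :
    ∃ g : ℝ, 0 < g ∧ g ≤ kap ∧ ∀ i < L, ∀ r < N i, a i (r - 1) < a i r →
      a i (r - 1) + g ≤ a i r := by
  have ev : ∀ᶠ g : ℝ in nhds 0, ∀ i ∈ Finset.range L, ∀ r ∈ Finset.range (N i),
      a i (r - 1) < a i r → a i (r - 1) + g ≤ a i r := by
    rw [Filter.eventually_all_finset]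
    intro i _
    rw [Filter.eventually_all_finset]
    intro r _
    by_cases h : a i (r - 1) < a i r
    · filter_upwards [gt_mem_nhds (sub_pos.2 h)] with g hg _
      linarith
    · exact Filter.Eventually.of_forall fun _ h' => absurd h' h
  have ev2 : ∀ᶠ g : ℝ in nhdsWithin 0 (Set.Ioi 0), _ :=
    ((ev.and (gt_mem_nhds hk)).filter_mono nhdsWithin_le_nhds).and self_mem_nhdsWithin
  obtain ⟨g, ⟨h1, h2⟩, h3⟩ := ev2.exists
  exact ⟨g, h3, h2.le, fun i hi r hr => h1 i (Finset.mem_range.2 hi) r (Finset.mem_range.2 hr)⟩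

end Pool.Agent.Lib.MP_9ff3e7_ag.F
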