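import Mathlib

/-! Two sided bounds for the dimension of the powers of a finite dimensional space of elements of
a function field, in terms of the field degree over a linear Noether normalisation. -/

set_option autoImplicit false

namespace Pool.Agent.Lib.MP_9ff3e7_ag.F

open Module MvPolynomial Submodule Set

namespace Chain

lemma span_pow_eq {A : Type} [CommRing A] [Algebra ℂ A] {ι : Type} (y : ι → A) (t : ℕ) :
    span ℂ (range y) ^ t = (homogeneousSubmodule ι ℂ t).map (aeval y).toLinearMap := by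
  rw [← homogeneousSubmodule_one_pow, Submodule.map_pow]
  congr 1
  simp [homogeneousSubmodule_one_eq_span_X, Submodule.map_span, ← Set.range_comp,
    Function.comp_def]

lemma fr_hom (n k : ℕ) :
    finrank ℂ (homogeneousSubmodule (Fin n) ℂ k) = (n + k - 1).choose k := by
  have h : homogeneousSubmodule (Fin n) ℂ k =
      restrictSupport ℂ ↑((Finset.univ : Finset (Fin n)).finsuppAntidiag k) := by
    rw [homogeneousSubmodule_eq_finsupp_supported, restrictSupport]
    congr 1
    ext d
    simp [Finsupp.degree_eq_sum]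
  rw [h, finrank_eq_card_basis (basisRestrictSupport ℂ _)]
  simp [Finset.card_finsuppAntidiag_nat_eq_choose]

lemma pow_mono {A : Type} [CommRing A] [Algebra ℂ A] {Y : Submodule ℂ A} (h1 : (1 : A) ∈ Y)
    {a b : ℕ} (h : a ≤ b) : Y ^ a ≤ Y ^ b := by
  induction h with
  | refl => exact le_rfl
  | step _ ih =>
    refine ih.trans fun x hx => ?_
    rw [pow_succ]
    simpa using Submodule.mul_mem_mul hx h1

lemma mem_pow_of_adjoin {A : Type} [CommRing A] [Algebra ℂ A] {s : Set A}
    (h1 : (1 : A) ∈ span ℂ s) {x : A} (hx : x ∈ Algebra.adjoin ℂ s) :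
    ∃ D, x ∈ span ℂ s ^ D := by
  induction hx using Algebra.adjoin_induction with
  | mem x hx => exact ⟨1, by simpa using subset_span hx⟩
  | algebraMap r => exact ⟨0, by simp⟩
  | add x y _ _ hx hy =>
    obtain ⟨a, ha⟩ := hx
    obtain ⟨b, hb⟩ := hy
    exact ⟨max a b, add_mem (pow_mono h1 (le_max_left _ _) ha) (pow_mono h1 (le_max_right _ _) hb)⟩
  | mul x y _ _ hx hy =>
    obtain ⟨a, ha⟩ := hx
    obtain ⟨b, hb⟩ := hy
    exact ⟨a + b, by rw [pow_add]; exact mul_mem_mul ha hb⟩

lemma aeval_mul_hom {A : Type} [CommRing A] [Algebra ℂ A] {ι : Type} {G : MvPolynomial ι ℂ}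
    {s : ℕ} (hG : G.IsHomogeneous s) (c : A) (y : ι → A) :
    aeval (fun i => c * y i) G = c ^ s * aeval y G := by
  conv_lhs => rw [G.as_sum]
  conv_rhs => rw [G.as_sum]
  rw [map_sum, map_sum, Finset.mul_sum]
  refine Finset.sum_congr rfl fun α hα => ?_
  rw [aeval_monomial, aeval_monomial, hG.degree_eq_sum_deg_support hα]
  simp only [Finsupp.prod, mul_pow, Finset.prod_mul_distrib, Finset.prod_pow_eq_pow_sum]
  ring

variable {L : Type} [Field L] [Algebra ℂ L]

instance fd_pow (E : Submodule ℂ L) [FiniteDimensional ℂ E] (t : ℕ) :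
    FiniteDimensional ℂ (E ^ t : Submodule ℂ L) :=
  Module.Finite.iff_fg.2 (Submodule.FG.pow (Module.Finite.iff_fg.1 inferInstance) t)

/-- no homogeneous relation -/
def HInd {d : ℕ} (y : Fin (d + 1) → L) : Prop :=
  ∀ s (G : MvPolynomial (Fin (d + 1)) ℂ), G.IsHomogeneous s → aeval y G = 0 → G = 0

lemma HInd.finrank_pow {d : ℕ} {y : Fin (d + 1) → L} (h : HInd y) (t : ℕ) :
    finrank ℂ (span ℂ (range y) ^ t : Submodule ℂ L) = (t + d).choose d := by
  rw [span_pow_eq]
  have hinj : Function.Injective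
      ((aeval y).toLinearMap.domRestrict (homogeneousSubmodule (Fin (d + 1)) ℂ t)) := by
    rw [← LinearMap.ker_eq_bot, LinearMap.ker_eq_bot']
    intro G hG
    exact Subtype.ext (h t G.1 G.2 hG)
  rw [← LinearMap.range_domRestrict, LinearMap.finrank_range_of_inj hinj, fr_hom,
    show d + 1 + t - 1 = t + d by omega, Nat.choose_symm_add]

lemma HInd.algInd {d : ℕ} {y : Fin (d + 1) → L} (h : HInd y) (h0 : y 0 = 1) :
    AlgebraicIndependent ℂ fun i : Fin d => y i.succ := by
  rw [algebraicIndependent_iff]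
  intro p hp
  set x : Fin (d + 1) → MvPolynomial (Fin d) ℂ := Fin.cons 1 X with hx
  have h1 : (1 : MvPolynomial (Fin d) ℂ) ∈ span ℂ (range x) := subset_span ⟨0, rfl⟩
  have hp' : p ∈ Algebra.adjoin ℂ (range x) := by
    refine Algebra.adjoin_mono (s := range X) ?_ (by rw [adjoin_range_X]; trivial)
    rintro _ ⟨i, rfl⟩
    exact ⟨i.succ, rfl⟩
  obtain ⟨D, hD⟩ := mem_pow_of_adjoin h1 hp'
  rw [span_pow_eq] at hD
  obtain ⟨G, hG, rfl⟩ := hD
  have : aeval y G = 0 := by
    rw [← hp]
    change _ = aeval _ (aeval x G)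
    rw [← AlgHom.comp_apply, comp_aeval]
    congr 2
    funext i
    refine Fin.cases ?_ (fun i => ?_) i <;> simp [hx, h0]
  rw [h D G hG this, map_zero]

lemma pow_red {E Y : Submodule ℂ L} {M : ℕ} (hred : E ^ (M + 1) ≤ Y * E ^ M) (t : ℕ) :
    E ^ (M + t) ≤ Y ^ t * E ^ M := by
  induction t with
  | zero => simp
  | succ t ih =>
    calc E ^ (M + (t + 1)) = E ^ (M + t) * E := by rw [← add_assoc, pow_succ]
      _ ≤ Y ^ t * E ^ M * E := by gcongr
      _ = Y ^ t * E ^ (M + 1) := by rw [mul_assoc, pow_succ]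
      _ ≤ Y ^ t * (Y * E ^ M) := by gcongr
      _ = Y ^ (t + 1) * E ^ M := by rw [pow_succ, mul_assoc]

section Deg

variable (K : IntermediateField ℂ L) (E : Submodule ℂ L)

/-- the `K`-span of `E ^ j` -/
noncomputable def W (j : ℕ) : Submodule K L := span K ((E ^ j : Submodule ℂ L) : Set L)

variable {K E}

instance fd_W [FiniteDimensional ℂ E] (j : ℕ) : FiniteDimensional K (W K E j) := by
  obtain ⟨s, hs⟩ := Module.Finite.iff_fg.1 (fd_pow E j)
  rw [W, ← hs, span_span_of_tower]
  infer_instance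

lemma W_mul {a b : ℕ} {x z : L} (hx : x ∈ W K E a) (hz : z ∈ W K E b) : x * z ∈ W K E (a + b) := by
  have : W K E a * W K E b ≤ W K E (a + b) := by
    rw [W, W, span_mul_span, span_le]
    rintro _ ⟨p, hp, q, hq, rfl⟩
    exact subset_span (by rw [pow_add]; exact mul_mem_mul hp hq)
  exact this (mul_mem_mul hx hz)

lemma W_mono (h1 : (1 : L) ∈ E) {a b : ℕ} (h : a ≤ b) : W K E a ≤ W K E b :=
  span_mono (pow_mono h1 h)

lemma W_top [FiniteDimensional ℂ E] (h1 : (1 : L) ∈ E)
    (hgen : IntermediateField.adjoin ℂ (E : Set L) = ⊤) {M : ℕ}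
    (h : W K E (M + 1) ≤ W K E M) : W K E M = ⊤ := by
  have hE : ∀ x ∈ E, ∀ z ∈ W K E M, x * z ∈ W K E M := fun x hx z hz =>
    h (by rw [add_comm]; exact W_mul (subset_span (by simpa using hx)) hz)
  have hA : ∀ x ∈ Algebra.adjoin K (E : Set L), ∀ z ∈ W K E M, x * z ∈ W K E M := by
    intro x hx
    induction hx using Algebra.adjoin_induction with
    | mem x hx => exact hE x hx
    | algebraMap r => exact fun z hz => by rw [← Algebra.smul_def]; exact smul_mem _ r hz
    | add x y _ _ hx hy => exact fun z hz => by rw [add_mul]; exact add_mem (hx z hz) (hy z hz)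
    | mul x y _ _ hx hy => exact fun z hz => by rw [mul_assoc]; exact hx _ (hy z hz)
  have h1W : (1 : L) ∈ W K E M := W_mono h1 (Nat.zero_le M) (subset_span (by simp))
  have hle : Subalgebra.toSubmodule (Algebra.adjoin K (E : Set L)) ≤ W K E M := fun x hx => by
    simpa using hA x hx 1 h1W
  have hfg : (Subalgebra.toSubmodule (Algebra.adjoin K (E : Set L))).FG :=
    Module.Finite.iff_fg.1 (Submodule.finiteDimensional_of_le hle)
  have halg : ∀ x ∈ (E : Set L), IsAlgebraic K x := fun x hx =>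
    (IsIntegral.of_mem_of_fg _ hfg x (Algebra.subset_adjoin hx)).isAlgebraic
  rw [eq_top_iff]
  intro x _
  apply hle
  rw [Subalgebra.mem_toSubmodule, ← IntermediateField.adjoin_toSubalgebra_of_isAlgebraic halg]
  have : IntermediateField.adjoin ℂ (E : Set L) ≤
      (IntermediateField.adjoin K (E : Set L)).restrictScalars ℂ :=
    IntermediateField.adjoin_le_iff.2 (IntermediateField.subset_adjoin K _)
  exact this (hgen ▸ trivial)

lemma W_chain [FiniteDimensional ℂ E] [FiniteDimensional K L] (h1 : (1 : L) ∈ E)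
    (hgen : IntermediateField.adjoin ℂ (E : Set L) = ⊤) {a : ℕ} (ha : a ≤ finrank K L) :
    a ≤ finrank K (W K E a) := by
  induction a with
  | zero => exact Nat.zero_le _
  | succ a ih =>
    by_cases h : W K E (a + 1) ≤ W K E a
    · have : W K E (a + 1) = ⊤ := eq_top_iff.2 (W_top h1 hgen h ▸ W_mono h1 (Nat.le_succ a))
      rwa [this, finrank_top]
    · exact Nat.succ_le_of_lt ((ih (by omega)).trans_lt
        (finrank_lt_finrank_of_lt (lt_of_le_not_ge (W_mono h1 (Nat.le_succ a)) h)))

lemma lower [FiniteDimensional ℂ E] [FiniteDimensional K L] (h1 : (1 : L) ∈ E)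
    (hgen : IntermediateField.adjoin ℂ (E : Set L) = ⊤) {a : ℕ} (ha : a ≤ finrank K L)
    (N : Submodule ℂ L) [FiniteDimensional ℂ N] (hN : ∀ x ∈ N, x ∈ K) {t : ℕ} (ht : N ≤ E ^ t) :
    a * finrank ℂ N ≤ finrank ℂ (E ^ (t + a) : Submodule ℂ L) := by
  have : Module.Finite K (span K ((E ^ a : Submodule ℂ L) : Set L)) := fd_W a
  obtain ⟨f, hf, -, hli⟩ := exists_fun_fin_finrank_span_eq K ((E ^ a : Submodule ℂ L) : Set L)
  have hc := W_chain h1 hgen ha
  set s : Fin a → L := fun i => f (Fin.castLE hc i) with hs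
  have hsli : LinearIndependent K s := hli.comp _ (Fin.castLE_injective hc)
  let φ : (Fin a → N) →ₗ[ℂ] (E ^ (t + a) : Submodule ℂ L) :=
    { toFun := fun p => ⟨∑ i, (p i : L) * s i, sum_mem fun i _ => by
        rw [pow_add]; exact mul_mem_mul (ht (p i).2) (hf _)⟩
      map_add' := fun p q => Subtype.ext (by simp [add_mul, Finset.sum_add_distrib])
      map_smul' := fun c p => Subtype.ext (by simp [Finset.smul_sum]) }
  have hφ : Function.Injective φ := by
    rw [← LinearMap.ker_eq_bot, LinearMap.ker_eq_bot']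
    intro p hp
    have := Fintype.linearIndependent_iff.1 hsli (fun i => ⟨p i, hN _ (p i).2⟩)
      (congrArg Subtype.val hp)
    funext i
    exact Subtype.ext (congrArg (fun z : K => (z : L)) (this i))
  simpa [Module.finrank_pi_fintype] using LinearMap.finrank_le_finrank_of_injective hφ

end Deg

section Up

variable {s : Set L}

lemma pow_le_adjoin (t : ℕ) {x : L} (hx : x ∈ span ℂ s ^ t) :
    x ∈ IntermediateField.adjoin ℂ s := by
  refine Submodule.pow_induction_on_left _ (fun r => IntermediateField.algebraMap_mem _ r)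
    (fun _ _ => add_mem) (fun m hm _ hz => mul_mem ?_ hz) hx
  exact (span_le (p := Subalgebra.toSubmodule (IntermediateField.adjoin ℂ s).toSubalgebra)).2
    (IntermediateField.subset_adjoin ℂ s) hm

lemma denom (h1 : (1 : L) ∈ span ℂ s) (T : Finset L)
    (hT : ∀ k ∈ T, k ∈ IntermediateField.adjoin ℂ s) :
    ∃ c δ, δ ≠ 0 ∧ δ ∈ span ℂ s ^ c ∧ ∀ k ∈ T, δ * k ∈ span ℂ s ^ c := by
  classical
  induction T using Finset.induction_on with
  | empty => exact ⟨0, 1, one_ne_zero, by simp, by simp⟩
  | insert k T _ ih =>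
    obtain ⟨c, δ, h0, hδ, h⟩ := ih fun z hz => hT z (Finset.mem_insert_of_mem hz)
    obtain ⟨p, hp, q, hq, rfl⟩ :=
      IntermediateField.mem_adjoin_iff_div.1 (hT k (Finset.mem_insert_self _ _))
    by_cases hq0 : q = 0
    · exact ⟨c, δ, h0, hδ, by simpa [hq0] using h⟩
    obtain ⟨a, ha⟩ := mem_pow_of_adjoin h1 hp
    obtain ⟨b, hb⟩ := mem_pow_of_adjoin h1 hq
    have ha' := pow_mono h1 (le_max_left a b) ha
    have hb' := pow_mono h1 (le_max_right a b) hb
    refine ⟨max a b + c, q * δ, mul_ne_zero hq0 h0, ?_, fun z hz => ?_⟩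
    · rw [pow_add]; exact mul_mem_mul hb' hδ
    rw [pow_add]
    rcases Finset.mem_insert.1 hz with rfl | hz
    · rw [show q * δ * (p / q) = p * δ by field_simp]
      exact mul_mem_mul ha' hδ
    · rw [mul_assoc]
      exact mul_mem_mul hb' (h z hz)

lemma upper (h1 : (1 : L) ∈ span ℂ s) [FiniteDimensional ℂ (span ℂ s)]
    [FiniteDimensional (IntermediateField.adjoin ℂ s) L] (N : Submodule ℂ L)
    [FiniteDimensional ℂ N] : ∃ c, ∀ t, finrank ℂ (span ℂ s ^ t * N : Submodule ℂ L) ≤
      finrank (IntermediateField.adjoin ℂ s) L * finrank ℂ (span ℂ s ^ (t + c) : Submodule ℂ L) := by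
  classical
  set K := IntermediateField.adjoin ℂ s with hK
  let b := Module.finBasis K L
  obtain ⟨μ, hμ⟩ := Module.Finite.iff_fg.1 (inferInstance : FiniteDimensional ℂ N)
  obtain ⟨c, δ, h0, -, h⟩ := denom h1
    ((μ ×ˢ Finset.univ).image fun p : L × Fin (finrank K L) => (b.repr p.1 p.2 : L))
    (fun k hk => by
      obtain ⟨p, -, rfl⟩ := Finset.mem_image.1 hk
      exact (b.repr p.1 p.2).2)
  have hsm : ∀ (r : ℂ) (x : L) i, (b.repr (r • x) i : L) = r • (b.repr x i : L) := fun r x i => by
    rw [← algebraMap_smul K r x, map_smul]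
    simp [Algebra.smul_def]
  have hN : ∀ x ∈ N, ∀ i, δ * (b.repr x i : L) ∈ span ℂ s ^ c := by
    intro x hx i
    rw [← hμ] at hx
    induction hx using span_induction with
    | mem x hx => exact h _ (Finset.mem_image.2 ⟨(x, i), by simpa using hx, rfl⟩)
    | zero => simp
    | add x y _ _ hx hy => simpa [mul_add] using add_mem hx hy
    | smul r x _ hx => rw [hsm, mul_smul_comm]; exact smul_mem _ r hx
  refine ⟨c, fun t => ?_⟩
  have hm : ∀ x ∈ span ℂ s ^ t * N, ∀ i, δ * (b.repr x i : L) ∈ span ℂ s ^ (t + c) := by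
    intro x hx i
    refine Submodule.mul_induction_on hx (fun p hp z hz => ?_) fun x y hx hy => ?_
    · have : p * z = (⟨p, pow_le_adjoin t hp⟩ : K) • z := rfl
      rw [this, map_smul, pow_add]
      have := Submodule.mul_mem_mul hp (hN z hz i)
      simpa [mul_left_comm] using this
    · simpa [mul_add] using add_mem hx hy
  let φ : (span ℂ s ^ t * N : Submodule ℂ L) →ₗ[ℂ]
      (Fin (finrank K L) → (span ℂ s ^ (t + c) : Submodule ℂ L)) :=
    { toFun := fun x i => ⟨δ * (b.repr x i : L), hm x x.2 i⟩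
      map_add' := fun p q => funext fun i => Subtype.ext (by simp [mul_add])
      map_smul' := fun r p => funext fun i => Subtype.ext (by simp [hsm]) }
  have hφ : Function.Injective φ := by
    rw [← LinearMap.ker_eq_bot, LinearMap.ker_eq_bot']
    intro x hx
    refine Subtype.ext (b.repr.injective (Finsupp.ext fun i => ?_))
    have := congrArg Subtype.val (congrFun hx i)
    simpa [φ, h0] using this
  simpa [Module.finrank_pi_fintype] using LinearMap.finrank_le_finrank_of_injective hφ

end Up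

lemma hilb0 (E : Submodule ℂ L) [FiniteDimensional ℂ E]
    (hgen : IntermediateField.adjoin ℂ (E : Set L) = ⊤) {d M : ℕ} (y : Fin (d + 1) → L)
    (h0 : y 0 = 1) (hy : ∀ i, y i ∈ E) (hind : HInd y)
    (hred : E ^ (M + 1) ≤ span ℂ (range y) * E ^ M) :
    Algebra.trdeg ℂ L = d ∧ ∃ e c : ℕ,
      (∀ a ≤ e, ∀ j ≥ a, a * (j - a + d).choose d ≤ finrank ℂ (E ^ j : Submodule ℂ L)) ∧
      ∀ t, finrank ℂ (E ^ t : Submodule ℂ L) ≤ e * (t + c + d).choose d := by
  have h1 : (1 : L) ∈ E := h0 ▸ hy 0
  have h1Y : (1 : L) ∈ span ℂ (range y) := subset_span ⟨0, h0⟩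
  have hYE : span ℂ (range y) ≤ E := span_le.2 (range_subset_iff.2 hy)
  have : FiniteDimensional ℂ (span ℂ (range y)) := Submodule.finiteDimensional_of_le hYE
  set K := IntermediateField.adjoin ℂ (range y) with hK
  have htop : W K E M = ⊤ := by
    refine W_top h1 hgen (span_le.2 fun x hx => ?_)
    refine Submodule.mul_induction_on (hred hx) (fun p hp z hz => ?_) fun _ _ => add_mem
    exact smul_mem (W K E M) (⟨p, pow_le_adjoin 1 (by simpa using hp)⟩ : K) (subset_span hz)
  have hfin : FiniteDimensional K L := by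
    have := fd_W (K := K) (E := E) M
    rw [htop] at this
    exact Module.Finite.equiv (Submodule.topEquiv (R := K) (M := L))
  refine ⟨?_, finrank K L, ?_⟩
  · have hK' : IntermediateField.adjoin ℂ (range fun i : Fin d => y i.succ) = K := by
      refine le_antisymm (IntermediateField.adjoin.mono _ _ _ ?_)
        (IntermediateField.adjoin_le_iff.2 ?_)
      · rintro _ ⟨i, rfl⟩
        exact ⟨_, rfl⟩
      · rintro _ ⟨i, rfl⟩
        refine Fin.cases ?_ (fun i => ?_) i
        · rw [h0]; exact one_mem _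
        · exact IntermediateField.subset_adjoin _ _ ⟨i, rfl⟩
    have halg : Algebra.IsAlgebraic
        (IntermediateField.adjoin ℂ (range fun i : Fin d => y i.succ)) L := by
      rw [hK']; infer_instance
    have := ((hind.algInd h0).isTranscendenceBasis_iff_isAlgebraic.2
      (IntermediateField.isAlgebraic_adjoin_iff_top.1 halg)).lift_cardinalMk_eq_trdeg
    simpa using this.symm
  obtain ⟨c, hc⟩ := upper h1Y (E ^ M)
  refine ⟨c, fun a ha j hj => ?_, fun t => ?_⟩
  · have := lower h1 hgen ha (span ℂ (range y) ^ (j - a)) (fun x hx => pow_le_adjoin _ hx)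
      (pow_le_pow_left' hYE (j - a))
    rwa [hind.finrank_pow, Nat.sub_add_cancel hj] at this
  · have hfd : FiniteDimensional ℂ (span ℂ (range y) ^ t * E ^ M : Submodule ℂ L) :=
      Module.Finite.iff_fg.2 (Submodule.FG.mul (Module.Finite.iff_fg.1 inferInstance)
        (Module.Finite.iff_fg.1 inferInstance))
    have := hc t
    rw [hind.finrank_pow] at this
    exact (finrank_mono ((pow_mono h1 (Nat.le_add_left t M)).trans (pow_red hred t))).trans this

lemma finrank_scale {c : L} (hc : c ≠ 0) (N : Submodule ℂ L) :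
    finrank ℂ (span ℂ {c} * N : Submodule ℂ L) = finrank ℂ N := by
  have : span ℂ {c} * N = N.map (LinearMap.mulLeft ℂ c) := by
    ext x
    simp [mem_span_singleton_mul]
  rw [this]
  exact (equivMapOfInjective _ (mul_right_injective₀ hc) N).finrank_eq.symm

end Chain

open Chain in
/-- Hilbert function bounds from a reduction `y` without homogeneous relation. -/
theorem hilb {L : Type} [Field L] [Algebra ℂ L] (E : Submodule ℂ L) [FiniteDimensional ℂ E]
    (h1 : (1 : L) ∈ E) (hgen : IntermediateField.adjoin ℂ (E : Set L) = ⊤) {d M : ℕ}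
    (y : Fin (d + 1) → L) (hy : ∀ i, y i ∈ E)
    (hind : ∀ s (G : MvPolynomial (Fin (d + 1)) ℂ), G.IsHomogeneous s → aeval y G = 0 → G = 0)
    (hred : E ^ (M + 1) ≤ span ℂ (range y) * E ^ M) :
    Algebra.trdeg ℂ L = d ∧ ∃ e c : ℕ,
      (∀ a ≤ e, ∀ j ≥ a, a * (j - a + d).choose d ≤ finrank ℂ (E ^ j : Submodule ℂ L)) ∧
      ∀ t, finrank ℂ (E ^ t : Submodule ℂ L) ≤ e * (t + c + d).choose d := by
  have h0 : y 0 ≠ 0 := fun h =>
    X_ne_zero (R := ℂ) (0 : Fin (d + 1)) (hind 1 _ (isHomogeneous_X ℂ 0) (by simpa using h))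
  set c := (y 0)⁻¹ with hc
  have hc0 : c ≠ 0 := inv_ne_zero h0
  have hmem : ∀ x ∈ E, c * x ∈ span ℂ {c} * E := fun x hx =>
    Submodule.mul_mem_mul (mem_span_singleton_self c) hx
  have : FiniteDimensional ℂ (span ℂ {c} * E : Submodule ℂ L) :=
    Module.Finite.iff_fg.2 (Submodule.FG.mul (fg_span_singleton c)
      (Module.Finite.iff_fg.1 inferInstance))
  have hpow : ∀ t, finrank ℂ ((span ℂ {c} * E) ^ t : Submodule ℂ L) =
      finrank ℂ (E ^ t : Submodule ℂ L) := fun t => by
    rw [mul_pow, span_pow, Set.singleton_pow, finrank_scale (pow_ne_zero t hc0)]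
  have := hilb0 (span ℂ {c} * E) ?_ (M := M) (fun i => c * y i) (inv_mul_cancel₀ h0)
    (fun i => hmem _ (hy i)) ?_ ?_
  · simpa only [hpow] using this
  · rw [eq_top_iff, ← hgen, IntermediateField.adjoin_le_iff]
    intro x hx
    have h2 := IntermediateField.subset_adjoin ℂ _ (hmem x hx)
    have h3 := IntermediateField.subset_adjoin ℂ _ (hmem 1 h1)
    have := div_mem h2 h3
    rwa [mul_one, mul_div_cancel_left₀ _ hc0] at this
  · intro s G hG h
    rw [aeval_mul_hom hG] at h
    exact hind s G hG ((mul_eq_zero.1 h).resolve_left (pow_ne_zero s hc0))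
  · have : span ℂ (range fun i => c * y i) = span ℂ {c} * span ℂ (range y) := by
      rw [span_mul_span, Set.singleton_mul, ← Set.range_comp]
      rfl
    rw [this, mul_pow, mul_pow, mul_mul_mul_comm, ← pow_succ']
    gcongr

end Pool.Agent.Lib.MP_9ff3e7_ag.F
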