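import Mathlib

/-! Growth lemma and the lower bound for the step in the count lemma. -/

set_option autoImplicit false

namespace Pool.Agent.Lib.MP_9ff3e7_ag.F

open Finset

theorem good_aux (n : ℕ) (a : ℕ → ℝ) (ha : ∀ m, 1 ≤ a m) (C : ℝ)
    (hC : ∀ L : ℕ, 1 ≤ L → ∑ m ∈ range L, a m ≤ C * (L : ℝ) ^ (n + 1)) {p : ℝ} (hp : n + 1 < p)
    (L0 : ℕ) : ∃ L : ℕ, L0 ≤ L ∧ (L : ℝ) * a L ≤ p * ∑ m ∈ range L, a m := by
  by_contra hcon
  push Not at hcon
  set S : ℕ → ℝ := fun L => ∑ m ∈ range L, a m with hS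
  set R : ℕ → ℝ := fun L => (L.ascFactorial (n + 1) : ℝ) with hR
  set L1 := L0 + 1 with hL1
  have Rpow : ∀ L : ℕ, (L : ℝ) ^ (n + 1) ≤ R L := fun L => by
    simp only [hR]
    exact_mod_cast Nat.pow_succ_le_ascFactorial L (n + 1)
  have Rpos : ∀ L : ℕ, 1 ≤ L → 0 < R L := fun L h =>
    lt_of_lt_of_le (pow_pos (by exact_mod_cast h) _) (Rpow L)
  have Rsucc : ∀ L : ℕ, (L : ℝ) * R (L + 1) = (L + (n + 1)) * R L := fun L => by
    simp only [hR]
    exact_mod_cast Nat.succ_ascFactorial L (n + 1)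
  have Spos : ∀ L : ℕ, 1 ≤ L → 0 < S L := fun L h =>
    sum_pos (fun m _ => zero_lt_one.trans_le (ha m)) (nonempty_range_iff.2 (by omega))
  set T : ℕ → ℝ := fun L => S L / R L with hT
  have Tbd : ∀ L : ℕ, 1 ≤ L → T L ≤ C := fun L h => by
    have h1 := hC L h
    have h2 : (0 : ℝ) < (L : ℝ) ^ (n + 1) := pow_pos (by exact_mod_cast h) _
    have h3 : 0 ≤ C := by
      by_contra h4
      have := Spos L h
      have := mul_neg_of_neg_of_pos (not_le.1 h4) h2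
      simp only [hS] at *
      linarith
    simp only [hT]
    rw [div_le_iff₀ (Rpos L h)]
    exact h1.trans (mul_le_mul_of_nonneg_left (Rpow L) h3)
  set η := p - (n + 1) with hη
  have η0 : 0 < η := by linarith
  have step : ∀ L : ℕ, L1 ≤ L → T L + T L * η / (L + (n + 1)) ≤ T (L + 1) := fun L h => by
    have h1 : 1 ≤ L := by omega
    have hL : (0 : ℝ) < L := by exact_mod_cast h1
    have h2 := (hcon L (by omega)).le
    have h3 : S (L + 1) = S L + a L := sum_range_succ _ _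
    have h4 := Rpos L h1
    have h5 := Rpos (L + 1) (by omega)
    have h6 : R (L + 1) = (L + (n + 1)) * R L / L := by
      rw [← Rsucc]; field_simp
    have h7 : (0 : ℝ) < L + (n + 1) := by positivity
    simp only [hT]
    rw [h6, h3, le_div_iff₀ (by positivity)]
    have : (S L / R L + S L / R L * η / (L + (n + 1))) * ((L + (n + 1)) * R L / L)
        = S L + p * S L / L := by
      rw [hη]; field_simp; ring
    rw [this]
    have : p * S L / L ≤ a L := by rw [div_le_iff₀ hL]; simp only [hS]; linarith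
    linarith
  have T1 : 0 < T L1 := div_pos (Spos _ (by omega)) (Rpos _ (by omega))
  have acc : ∀ k : ℕ, T L1 + ∑ i ∈ range k, T L1 * η / ((L1 + i : ℕ) + (n + 1)) ≤ T (L1 + k) := by
    intro k
    induction k with
    | zero => simp
    | succ k ih =>
      have h1 := step (L1 + k) (by omega)
      have h2 : T L1 ≤ T (L1 + k) := by
        refine le_trans ?_ ih
        have : 0 ≤ ∑ i ∈ range k, T L1 * η / ((L1 + i : ℕ) + (n + 1)) :=
          sum_nonneg fun i _ => by positivity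
        linarith
      have h3 : T L1 * η / ((L1 + k : ℕ) + (n + 1)) ≤ T (L1 + k) * η / ((L1 + k : ℕ) + (n + 1)) := by
        gcongr
      rw [sum_range_succ, ← add_assoc L1 k 1]
      linarith
  have hs : Summable fun i : ℕ => T L1 * η / ((L1 + i : ℕ) + (n + 1)) :=
    summable_of_sum_range_le (c := C) (fun i => by positivity) fun k => by
      have := acc k
      have := Tbd (L1 + k) (by omega)
      linarith
  have hs2 : Summable fun i : ℕ => (1 : ℝ) / ((i + (L1 + (n + 1)) : ℕ) : ℝ) := by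
    refine (hs.mul_left (T L1 * η)⁻¹).congr fun i => ?_
    push_cast
    field_simp
    ring
  exact Real.not_summable_one_div_natCast
    ((summable_nat_add_iff (f := fun i : ℕ => (1 : ℝ) / (i : ℝ)) _).1 hs2)

/-- infinitely many multiples of the step are good -/
theorem good_L (n : ℕ) (H : ℕ → ℕ) (hm : Monotone H) (h1 : ∀ k, 1 ≤ H k) (C : ℝ)
    (hC : ∀ k : ℕ, 1 ≤ k → (H k : ℝ) ≤ C * (k : ℝ) ^ n) {sg : ℕ} (hsg : 1 ≤ sg) {p : ℝ}
    (hp : n + 1 < p) (L0 : ℕ) :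
    ∃ L : ℕ, L0 ≤ L ∧ (L : ℝ) * H (L * sg) ≤ p * ∑ m ∈ range L, (H (m * sg) : ℝ) := by
  refine good_aux n (fun m => (H (m * sg) : ℝ)) (fun m => by exact_mod_cast h1 _)
    (C * (sg : ℝ) ^ n) (fun L hL => ?_) hp L0
  have h2 : ∑ m ∈ range L, (H (m * sg) : ℝ) ≤ L * H (L * sg) := by
    refine (sum_le_card_nsmul _ _ (H (L * sg) : ℝ) fun m hm' => ?_).trans (by simp)
    exact_mod_cast hm (Nat.mul_le_mul_right _ (mem_range.1 hm').le)
  have h3 := hC (L * sg) (Nat.mul_pos hL hsg)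
  calc _ ≤ (L : ℝ) * H (L * sg) := h2
    _ ≤ L * (C * ((L * sg : ℕ) : ℝ) ^ n) := by gcongr
    _ = _ := by push_cast; ring

/-- block sums are below the full sum -/
theorem block_le (H : ℕ → ℕ) (hm : Monotone H) (sg L : ℕ) :
    sg * ∑ m ∈ range L, H (m * sg) ≤ ∑ k ∈ range (L * sg), H k := by
  induction L with
  | zero => simp
  | succ L ih =>
    rw [sum_range_succ, Nat.succ_mul, sum_range_add, mul_add]
    refine add_le_add ih ?_
    have := card_nsmul_le_sum (range sg) (fun x => H (L * sg + x)) (H (L * sg))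
      fun x _ => hm (Nat.le_add_right _ _)
    simpa using this

/-- rpow free lower bound for the step -/
theorem bb_lb {κ d j g : ℕ} (hg : κ ^ d * (j - κ ^ d + d).choose d ≤ g) {R : ℝ} (R0 : 0 ≤ R)
    (hR : R ≤ κ * ((j : ℝ) - κ ^ d)) : R ^ d ≤ d.factorial * (g : ℝ) := by
  have h1 : (((j - κ ^ d + d + 1 - d : ℕ) : ℝ) ^ d) / d.factorial ≤ (j - κ ^ d + d).choose d :=
    Nat.pow_le_choose d _
  have hf : (0 : ℝ) < d.factorial := by exact_mod_cast d.factorial_pos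
  rw [div_le_iff₀ hf] at h1
  have h2 : (j : ℝ) - κ ^ d ≤ ((j - κ ^ d + d + 1 - d : ℕ) : ℝ) := by
    have : j ≤ (j - κ ^ d + d + 1 - d) + κ ^ d := by omega
    have : (j : ℝ) ≤ ((j - κ ^ d + d + 1 - d : ℕ) : ℝ) + κ ^ d := by exact_mod_cast this
    linarith
  have h3 : R ≤ κ * ((j - κ ^ d + d + 1 - d : ℕ) : ℝ) := hR.trans (by gcongr)
  have h4 : ((κ : ℝ) ^ d) * (j - κ ^ d + d).choose d ≤ g := by exact_mod_cast hg
  calc R ^ d ≤ (κ * ((j - κ ^ d + d + 1 - d : ℕ) : ℝ)) ^ d := by gcongr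
    _ = κ ^ d * ((j - κ ^ d + d + 1 - d : ℕ) : ℝ) ^ d := mul_pow _ _ _
    _ ≤ κ ^ d * ((j - κ ^ d + d).choose d * d.factorial) := by gcongr
    _ = d.factorial * (κ ^ d * (j - κ ^ d + d).choose d) := by ring
    _ ≤ _ := by gcongr

/-- the form with a relative loss -/
theorem good_dt (n : ℕ) (H : ℕ → ℕ) (hm : Monotone H) (h1 : ∀ k, 1 ≤ H k) (C : ℝ)
    (hC : ∀ k : ℕ, 1 ≤ k → (H k : ℝ) ≤ C * (k : ℝ) ^ n) {sg : ℕ} (hsg : 1 ≤ sg) {dt : ℝ}
    (h0 : 0 < dt) (hd : dt < 1) (L0 : ℕ) :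
    ∃ L : ℕ, L0 ≤ L ∧
      (1 - dt) * L * H (L * sg) ≤ (n + 1) * ∑ m ∈ range L, (H (m * sg) : ℝ) := by
  have h2 : 0 < 1 - dt := by linarith
  obtain ⟨L, hL, h⟩ := good_L n H hm h1 C hC hsg (p := (n + 1) / (1 - dt))
    (by rw [lt_div_iff₀ h2]; nlinarith [(Nat.cast_nonneg n : (0 : ℝ) ≤ n)]) L0
  refine ⟨L, hL, ?_⟩
  rw [div_mul_eq_mul_div, le_div_iff₀ h2] at h
  linarith

/-- choice of the step -/
theorem bb_step (n κ c0 : ℕ) (hκ : 1 ≤ κ) {dt : ℝ} (h0 : 0 < dt) (hd : dt < 1) :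
    ∃ sg : ℕ, 1 ≤ sg ∧ c0 * n + κ ^ n ≤ sg ∧ ∀ d : ℕ, 1 ≤ d → d ≤ n → ∀ g : ℕ,
      κ ^ d * (sg - c0 * d - κ ^ d + d).choose d ≤ g →
      (1 - dt) * κ * sg ≤ (d.factorial : ℝ) ^ (1 / d : ℝ) * (g : ℝ) ^ (1 / d : ℝ) := by
  obtain ⟨sg, hsg⟩ := exists_nat_ge (((c0 * n + κ ^ n : ℕ) : ℝ) / dt)
  rw [div_le_iff₀ h0] at hsg
  have s0 : (0 : ℝ) ≤ sg := Nat.cast_nonneg _
  have h1 : c0 * n + κ ^ n ≤ sg := by
    have : ((c0 * n + κ ^ n : ℕ) : ℝ) ≤ sg := by nlinarith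
    exact_mod_cast this
  have h2 : 1 ≤ κ ^ n := Nat.one_le_pow _ _ hκ
  refine ⟨sg, by omega, h1, fun d d1 dn g hg => ?_⟩
  have h3 : c0 * d ≤ c0 * n := Nat.mul_le_mul_left _ dn
  have h4 : κ ^ d ≤ κ ^ n := Nat.pow_le_pow_right hκ dn
  have k0 : (0 : ℝ) ≤ κ := Nat.cast_nonneg _
  have R0 : 0 ≤ (1 - dt) * κ * sg := by
    have : 0 ≤ 1 - dt := by linarith
    positivity
  have h5 := bb_lb hg R0 (by
    rw [Nat.cast_sub (by omega)]
    have a1 : ((c0 * d : ℕ) : ℝ) ≤ (c0 * n : ℕ) := by exact_mod_cast h3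
    have a2 : (κ : ℝ) ^ d ≤ (κ ^ n : ℕ) := by exact_mod_cast h4
    rw [Nat.cast_add] at hsg
    have : (1 - dt) * sg ≤ sg - ((c0 * d : ℕ) : ℝ) - κ ^ d := by linarith
    calc (1 - dt) * κ * sg = κ * ((1 - dt) * sg) := by ring
      _ ≤ _ := by gcongr)
  have h6 := Real.rpow_le_rpow (by positivity) h5 (by positivity : (0 : ℝ) ≤ 1 / d)
  rw [Real.mul_rpow (by positivity) (by positivity)] at h6
  rwa [one_div, Real.pow_rpow_inv_natCast R0 (by omega), ← one_div] at h6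

end Pool.Agent.Lib.MP_9ff3e7_ag.F
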