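import Pool.Agent.Lib.MP_9ff3e7_ag.F.CountRec
import Pool.Agent.Lib.MP_9ff3e7_ag.F.CountGr

/-! The counting lemma: good degrees exist. -/

set_option autoImplicit false

namespace Pool.Agent.Lib.MP_9ff3e7_ag.F

open Finset

/-- `k0` is a good degree for the Hilbert function `H` -/
def Good (n kap : ℕ) (H : ℕ → ℕ) (k0 : ℕ) : Prop :=
  ∀ d : ℕ, 1 ≤ d → d ≤ n → ∀ (ι : Type) (Q : Finset ι) (S : ι → ℕ → Finset (Fin d →₀ ℕ))
    (Gm : ℕ → Finset (Fin d →₀ ℕ)),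
    (∀ k ≤ k0, ∑ q ∈ Q, (S q k).card = H k) →
    (∀ q ∈ Q, ∀ k j, k + j ≤ k0 → ∀ a ∈ S q k, ∀ b ∈ Gm j, a + b ∈ S q (k + j)) →
    (∀ j, kap ^ d ≤ j → kap ^ d * (j - kap ^ d + d).choose d ≤ (Gm j).card) →
    (∀ e : Fin d →₀ ℕ, (∀ i, e i ≤ 1) → e ∈ Gm d) →
    (d : ℝ) * kap * (k0 * H k0 - ∑ k ∈ range k0, (H k : ℝ)) ≤
      (n + 1 / 4) * ∑ q ∈ Q, ∑ a ∈ S q k0, (a.degree : ℝ)

theorem count_arith {N dt Y W Hk T κ d k0 : ℝ} (hN : 1 ≤ N) (hdt : N * dt = 1 / 16) (hκ : 1 ≤ κ)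
    (hd : 0 ≤ d) (hH : 0 ≤ Hk) (hY : 0 ≤ Y) (hk : 16 * N ^ 2 ≤ k0)
    (h1 : (1 - dt) * (k0 * Hk) ≤ N * Y) (h2 : Y ≤ W) (h3 : d * ((1 - dt) * κ * Y - Hk) ≤ T) :
    d * κ * (k0 * Hk - W) ≤ (N - 3 / 4) * T := by
  have d0 : 0 < dt := by
    by_contra hc
    nlinarith
  have d1 : dt ≤ 1 / 16 := by nlinarith
  have a0 : N ≤ dt * k0 := by
    have := mul_le_mul_of_nonneg_left hk d0.le
    have e : dt * (16 * N ^ 2) = 16 * (N * dt) * N := by ring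
    rw [e, hdt] at this
    linarith
  have a1 : N * Hk ≤ dt * (k0 * Hk) := by
    have := mul_le_mul_of_nonneg_right a0 hH
    linarith
  set X := k0 * Hk
  have c : (1 + dt) * N ≤ (1 - dt) * (1 + (N - 3 / 4) * (1 - dt)) := by
    have e : (1 - dt) * (1 + (N - 3 / 4) * (1 - dt)) =
        N + 1 / 4 - 2 * (N * dt) + dt * (N * dt) + dt / 2 - 3 / 4 * dt * dt := by ring
    have e' : (1 + dt) * N = N + N * dt := by ring
    rw [e, e', hdt]
    nlinarith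
  have a2 : (1 + dt) * X ≤ (1 + (N - 3 / 4) * (1 - dt)) * Y := by
    refine le_of_mul_le_mul_left ?_ (by linarith : 0 < 1 - dt)
    have b1 := mul_le_mul_of_nonneg_left h1 (by linarith : 0 ≤ 1 + dt)
    have b2 := mul_le_mul_of_nonneg_right c hY
    linarith
  have x0 : 0 ≤ dt * X := le_trans (by positivity) a1
  have a3 : κ * (X - W) ≤ (N - 3 / 4) * ((1 - dt) * κ * Y - Hk) := by
    have b1 : X - W ≤ (N - 3 / 4) * (1 - dt) * Y - dt * X := by linarith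
    have b2 := mul_le_mul_of_nonneg_left b1 (by linarith : 0 ≤ κ)
    have b3 := mul_le_mul_of_nonneg_right hκ x0
    linarith
  have b1 := mul_le_mul_of_nonneg_left a3 hd
  have b2 := mul_le_mul_of_nonneg_left h3 (by linarith : 0 ≤ N - 3 / 4)
  linarith

/-- COUNT LEMMA: there are arbitrarily large good degrees -/
theorem count (n kap : ℕ) (hkap : 1 ≤ kap) (H : ℕ → ℕ) (hm : Monotone H) (h1 : ∀ k, 1 ≤ H k)
    (C : ℝ) (hC : ∀ k, 1 ≤ k → (H k : ℝ) ≤ C * k ^ n) (K0 : ℕ) :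
    ∃ k0, K0 ≤ k0 ∧ Good n kap H k0 := by
  have hN : (1 : ℝ) ≤ n + 1 := by have : (0 : ℝ) ≤ n := Nat.cast_nonneg n; linarith
  obtain ⟨dt, hdt⟩ : ∃ dt : ℝ, (n + 1) * dt = 1 / 16 := ⟨1 / 16 / (n + 1), by field_simp⟩
  have d0 : 0 < dt := by
    by_contra hc
    nlinarith
  have d1 : dt < 1 := by nlinarith
  obtain ⟨sg, s1, s2, hb⟩ := bb_step n kap 1 hkap d0 d1
  obtain ⟨L, hL, hg⟩ := good_dt n H hm h1 C hC s1 d0 d1 (K0 + 16 * (n + 1) ^ 2)
  have hk : L ≤ L * sg := Nat.le_mul_of_pos_right _ s1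
  refine ⟨L * sg, by omega, fun d hd hn ι Q S Gm hS hadd hG he => ?_⟩
  have p1 : kap ^ d ≤ kap ^ n := Nat.pow_le_pow_right hkap hn
  have g1 := hG (sg - d) (by omega)
  have g2 := hb d hd hn (Gm (sg - d)).card (by rw [one_mul]; exact g1)
  have g3 : (Gm (sg - d)).Nonempty := by
    rw [← card_pos]
    exact lt_of_lt_of_le (Nat.mul_pos (Nat.pow_pos hkap) (Nat.choose_pos (by omega))) g1
  have hq : ∀ q ∈ Q, _ := fun q hq => count_q hd (fun m => S q (m * sg)) _ g3 L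
    fun m hmL a ha g hg e he' => by
      have l1 : (m + 1) * sg ≤ L * sg := Nat.mul_le_mul_right _ hmL
      have l2 : m * sg + (sg - d) + d = (m + 1) * sg := by rw [add_mul]; omega
      have := hadd q hq _ d (by omega) _ (hadd q hq _ _ (by omega) a ha g hg) e (he e he')
      rwa [l2] at this
  have hs := sum_le_sum hq
  have e1 : ∀ k ≤ L * sg, ∑ q ∈ Q, ((S q k).card : ℝ) = H k := fun k hk => by
    rw [← hS k hk, Nat.cast_sum]
  rw [sum_sub_distrib, ← mul_sum, ← mul_sum, sum_comm, e1 _ le_rfl,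
    sum_congr rfl fun m hm => e1 (m * sg) (Nat.mul_le_mul_right _ (mem_range.1 hm).le)] at hs
  have z0 : (0 : ℝ) ≤ ∑ m ∈ range L, (H (m * sg) : ℝ) := by positivity
  have hW : (sg : ℝ) * ∑ m ∈ range L, (H (m * sg) : ℝ) ≤ ∑ k ∈ range (L * sg), (H k : ℝ) := by
    exact_mod_cast block_le H hm sg L
  have s0 : (0 : ℝ) ≤ sg := Nat.cast_nonneg _
  have dd : (0 : ℝ) ≤ d := Nat.cast_nonneg _
  have key := count_arith (κ := kap) (d := d) (k0 := ((L * sg : ℕ) : ℝ)) (Hk := H (L * sg))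
    (T := ∑ q ∈ Q, ∑ a ∈ S q (L * sg), (a.degree : ℝ)) hN hdt (by exact_mod_cast hkap) dd
    (Nat.cast_nonneg _) (mul_nonneg s0 z0)
    (by exact_mod_cast (by omega : 16 * (n + 1) ^ 2 ≤ L * sg))
    (by
      have := mul_le_mul_of_nonneg_left hg s0
      push_cast
      linarith) hW
    (by
      have := mul_le_mul_of_nonneg_left (mul_le_mul_of_nonneg_right g2 z0) dd
      linarith)
  have e : (n : ℝ) + 1 - 3 / 4 = n + 1 / 4 := by ring
  rwa [e] at key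

end Pool.Agent.Lib.MP_9ff3e7_ag.F
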