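import Pool.Agent.Lib.MP_9ff3e7_ag.F.EndAbs
import Pool.Agent.Lib.MP_9ff3e7_ag.F.Count

/-! The choice of the degree of a new series. -/

set_option autoImplicit false

namespace Pool.Agent.Lib.MP_9ff3e7_ag.F

open Module Finset

variable {n : ℕ} {O : Type} [CommRing O] [Algebra ℂ O] [Algebra (MvPolynomial (Fin n) ℂ) O]

theorem Filt.hf_mono (Fi : Filt n O) (P : Ideal O) : Monotone (Hf Fi.F P) := by
  intro s t h
  have := Fi.fd t
  exact Submodule.finrank_mono (Submodule.map_mono (Fi.mono h))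

theorem Filt.hf_le (Fi : Filt n O) (P : Ideal O) (t : ℕ) : Hf Fi.F P t ≤ finrank ℂ (Fi.F t) := by
  have := Fi.fd t
  have := Hf_add_finrank_inf Fi.F P t
  omega

theorem Filt.one_le_hf (Fi : Filt n O) {P : Ideal O} (hP : P ≠ ⊤) (t : ℕ) : 1 ≤ Hf Fi.F P t := by
  have := Fi.fd t
  have h := Hf_add_finrank_inf Fi.F P t
  have h2 : Fi.F t ⊓ P.restrictScalars ℂ < Fi.F t := by
    refine lt_of_le_of_ne inf_le_left fun he => hP ((Ideal.eq_top_iff_one P).2 ?_)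
    have h1 : (1 : O) ∈ Fi.F t := Fi.mono (Nat.zero_le t) Fi.one
    rw [← he] at h1
    exact h1.2
  have := Submodule.finrank_lt_finrank_of_lt h2
  omega

theorem Filt.exists_cap_span [IsNoetherianRing O] (Fi : Filt n O) (P : Ideal O) :
    ∃ k0, ∀ k, k0 ≤ k →
      Ideal.span ((Fi.F k ⊓ P.restrictScalars ℂ : Submodule ℂ O) : Set O) = P := by
  obtain ⟨s, hs⟩ := (isNoetherianRing_iff_ideal_fg O).1 inferInstance P
  choose u m hu using Fi.exh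
  refine ⟨s.sup m, fun k hk => le_antisymm (Ideal.span_le.2 fun v hv => hv.2) ?_⟩
  conv_lhs => rw [← hs]
  refine Ideal.span_le.2 fun f hf => ?_
  obtain ⟨h1, -, h3⟩ := hu f
  have hfP : f ∈ P := hs ▸ Ideal.subset_span hf
  have h4 : u f * f ∈ Ideal.span ((Fi.F k ⊓ P.restrictScalars ℂ : Submodule ℂ O) : Set O) :=
    Ideal.subset_span ⟨Fi.mono ((le_sup (f := m) hf).trans hk) h3, P.mul_mem_left _ hfP⟩
  exact (Ideal.unit_mul_mem_iff_mem _ h1).1 h4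

theorem Filt.two_le_hf (Fi : Filt n O) {P : Ideal O} {x : Pnt O} (hx : ∀ s ∈ P, x s = 0) {k : ℕ}
    {s : O} (h1 : s ∈ Fi.F k) (h2 : x s = 0) (h3 : s ∉ P) : 2 ≤ Hf Fi.F P k := by
  have := Fi.fd k
  have h := Hf_add_finrank_inf Fi.F P k
  have a1 : Fi.F k ⊓ P.restrictScalars ℂ < Fi.F k ⊓ (RingHom.ker x).restrictScalars ℂ := by
    refine lt_of_le_of_ne (inf_le_inf_left _ fun v hv => hx v hv) fun he => h3 ?_
    have : s ∈ Fi.F k ⊓ (RingHom.ker x).restrictScalars ℂ := ⟨h1, h2⟩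
    rw [← he] at this
    exact this.2
  have a2 : Fi.F k ⊓ (RingHom.ker x).restrictScalars ℂ < Fi.F k := by
    refine lt_of_le_of_ne inf_le_left fun he => ?_
    have h1 : (1 : O) ∈ Fi.F k := Fi.mono (Nat.zero_le k) Fi.one
    rw [← he] at h1
    have : x 1 = 0 := h1.2
    simp at this
  have := Submodule.finrank_lt_finrank_of_lt a1
  have := Submodule.finrank_lt_finrank_of_lt a2
  omega

theorem Filt.exists_good_k [IsNoetherianRing O] (Fi : Filt n O) {P : Ideal O} {x : Pnt O}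
    (hx : ∀ s ∈ P, x s = 0) (hne : P ≠ RingHom.ker x) :
    ∃ k, Ideal.span ((Fi.F k ⊓ P.restrictScalars ℂ : Submodule ℂ O) : Set O) = P ∧
      Good n Fi.kap (Hf Fi.F P) k ∧ (∃ s ∈ Fi.F k, x s = 0 ∧ s ∉ P) ∧ 2 ≤ Hf Fi.F P k := by
  obtain ⟨k0, hk0⟩ := Fi.exists_cap_span P
  have hlt : P < RingHom.ker x := lt_of_le_of_ne (fun s hs => hx s hs) hne
  obtain ⟨f, hf1, hf2⟩ := SetLike.exists_of_lt hlt
  obtain ⟨u, m, hu, -, hm⟩ := Fi.exh f
  obtain ⟨C, hC⟩ := Fi.up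
  obtain ⟨k, hk, hg⟩ := count n Fi.kap Fi.kap1 (Hf Fi.F P) (Fi.hf_mono P)
    (Fi.one_le_hf (ne_top_of_lt hlt)) ((C : ℝ) * 2 ^ n) (fun k hk => by
      have h1 : Hf Fi.F P k ≤ C * (2 * k) ^ n :=
        (Fi.hf_le P k).trans ((hC k).trans
          (Nat.mul_le_mul_left _ (Nat.pow_le_pow_left (by omega) _)))
      have h2 : (Hf Fi.F P k : ℝ) ≤ ((C * (2 * k) ^ n : ℕ) : ℝ) := by exact_mod_cast h1
      push_cast at h2
      rw [mul_pow] at h2
      linarith) (max k0 m)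
  have s1 : u * f ∈ Fi.F k := Fi.mono ((le_max_right _ _).trans hk) hm
  have s2 : x (u * f) = 0 := by rw [map_mul, show x f = 0 from hf1, mul_zero]
  have s3 : u * f ∉ P := fun h => hf2 ((Ideal.unit_mul_mem_iff_mem _ hu).1 h)
  exact ⟨k, hk0 k ((le_max_left _ _).trans hk), hg, ⟨_, s1, s2, s3⟩, Fi.two_le_hf hx s1 s2 s3⟩

theorem Filt.exists_triv_flag (Fi : Filt n O) (P : Ideal O) (k : ℕ) :
    ∃ F : ℕ → Submodule ℂ O, F 0 = Fi.F k ∧
      (∀ r, Hf Fi.F P k ≤ r → F r = Fi.F k ⊓ P.restrictScalars ℂ) ∧ Antitone F ∧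
      ∀ r ≤ Hf Fi.F P k, finrank ℂ (F r) + r = finrank ℂ (Fi.F k) := by
  have := Fi.fd k
  have h := Hf_add_finrank_inf Fi.F P k
  obtain ⟨F, f1, f2, f3, f4, -⟩ := exists_flag_of_chain (Fi.F k) (Fi.F k ⊓ P.restrictScalars ℂ)
    inf_le_left (Hf Fi.F P k) (by omega) ∅ IsChain.empty (by simp)
  exact ⟨F, f1, f2, f3, f4⟩

end Pool.Agent.Lib.MP_9ff3e7_ag.F
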