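import Pool.Agent.Lib.MP_fedf83_gt.PL

/-! Brunn-Minkowski for finite sets of exponents (unions of unit cubes). -/

set_option autoImplicit false

namespace Pool.Agent.Lib.MP_9ff3e7_ag.F

open MeasureTheory Set
open scoped ENNReal

namespace BM

variable {d : ℕ}

/-- the unit cube at a lattice point -/
def cube (a : Fin d →₀ ℕ) : Set (Fin d → ℝ) := Set.pi univ fun i => Ico (a i : ℝ) (a i + 1)

/-- the union of the unit cubes at the points of `A` -/
def body (A : Finset (Fin d →₀ ℕ)) : Set (Fin d → ℝ) := ⋃ a ∈ A, cube a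

theorem cube_meas (a : Fin d →₀ ℕ) : MeasurableSet (cube a) :=
  MeasurableSet.univ_pi fun _ => measurableSet_Ico

theorem cube_vol (a : Fin d →₀ ℕ) : volume (cube a) = 1 := by
  rw [cube, Real.volume_pi_Ico]
  simp

theorem body_meas (A : Finset (Fin d →₀ ℕ)) : MeasurableSet (body A) :=
  Finset.measurableSet_biUnion _ fun a _ => cube_meas a

theorem body_vol (A : Finset (Fin d →₀ ℕ)) : volume (body A) = A.card := by
  rw [body, measure_biUnion_finset _ fun a _ => cube_meas a]
  · simp [cube_vol]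
  · intro a _ b _ hab
    refine Set.disjoint_left.2 fun x hx hy => hab ?_
    ext i
    have h1 := hx i (mem_univ i)
    have h2 := hy i (mem_univ i)
    have h3 : (a i : ℝ) < b i + 1 := h1.1.trans_lt h2.2
    have h4 : (b i : ℝ) < a i + 1 := h2.1.trans_lt h1.2
    have h5 : a i < b i + 1 := by exact_mod_cast h3
    have h6 : b i < a i + 1 := by exact_mod_cast h4
    omega

theorem add_mem {A B C : Finset (Fin d →₀ ℕ)}
    (h : ∀ a ∈ A, ∀ b ∈ B, ∀ e : Fin d →₀ ℕ, (∀ i, e i ≤ 1) → a + b + e ∈ C)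
    {x y : Fin d → ℝ} (hx : x ∈ body A) (hy : y ∈ body B) : x + y ∈ body C := by
  classical
  simp only [body, mem_iUnion] at hx hy ⊢
  obtain ⟨a, ha, hx⟩ := hx
  obtain ⟨b, hb, hy⟩ := hy
  let e : Fin d →₀ ℕ := Finsupp.equivFunOnFinite.symm
    fun i => if x i + y i < a i + b i + 1 then 0 else 1
  have he : ∀ i, e i = if x i + y i < a i + b i + 1 then 0 else 1 := fun i => rfl
  refine ⟨a + b + e, h a ha b hb e fun i => by rw [he]; split_ifs <;> omega, fun i _ => ?_⟩
  have h1 := hx i (mem_univ i)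
  have h2 := hy i (mem_univ i)
  simp only [mem_Ico, Finsupp.add_apply, Pi.add_apply, he] at h1 h2 ⊢
  split_ifs with c
  · push_cast
    constructor <;> linarith [h1.1, h2.1]
  · push_cast
    constructor <;> linarith [h1.2, h2.2, not_lt.1 c]

theorem scaled (A : Finset (Fin d →₀ ℕ)) {r : ℝ} (hr : 0 < r) :
    ∫⁻ x, ((fun x : Fin d → ℝ => r • x) ⁻¹' body A).indicator (1 : (Fin d → ℝ) → ℝ≥0∞) x
      = ENNReal.ofReal (A.card / r ^ d) := by
  rw [lintegral_indicator_one ((body_meas A).preimage (measurable_const_smul r)),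
    Measure.addHaar_preimage_smul _ hr.ne', body_vol]
  have : Module.finrank ℝ (Fin d → ℝ) = d := by simp
  rw [this, abs_of_pos (by positivity), div_eq_mul_inv, mul_comm,
    ENNReal.ofReal_mul (by positivity), ENNReal.ofReal_natCast]

end BM

open BM in
/-- Brunn-Minkowski for finite sets of exponents -/
theorem bm_cubes {d : ℕ} (hd : 1 ≤ d) {A B C : Finset (Fin d →₀ ℕ)} (hA : A.Nonempty)
    (hB : B.Nonempty)
    (h : ∀ a ∈ A, ∀ b ∈ B, ∀ e : Fin d →₀ ℕ, (∀ i, e i ≤ 1) → a + b + e ∈ C) :
    (A.card : ℝ) ^ (1 / d : ℝ) + (B.card : ℝ) ^ (1 / d : ℝ) ≤ (C.card : ℝ) ^ (1 / d : ℝ) := by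
  have hd0 : d ≠ 0 := by omega
  have hA0 : (0 : ℝ) < A.card := by exact_mod_cast hA.card_pos
  have hB0 : (0 : ℝ) < B.card := by exact_mod_cast hB.card_pos
  set α : ℝ := (A.card : ℝ) ^ (1 / d : ℝ) with hα
  set β : ℝ := (B.card : ℝ) ^ (1 / d : ℝ) with hβ
  have α0 : 0 < α := Real.rpow_pos_of_pos hA0 _
  have β0 : 0 < β := Real.rpow_pos_of_pos hB0 _
  have αd : α ^ d = A.card := by rw [hα, one_div, Real.rpow_inv_natCast_pow hA0.le hd0]
  have βd : β ^ d = B.card := by rw [hβ, one_div, Real.rpow_inv_natCast_pow hB0.le hd0]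
  have s0 : 0 < α + β := by linarith
  set l : ℝ := β / (α + β) with hl
  have l0 : 0 < l := div_pos β0 s0
  have l1 : 1 - l = α / (α + β) := by rw [hl]; field_simp; ring
  have l2 : 0 < 1 - l := by rw [l1]; exact div_pos α0 s0
  have key := MP_fedf83_gt.B.pl_pi d l l0 (by linarith)
    (((fun x : Fin d → ℝ => (1 - l) • x) ⁻¹' body A).indicator 1)
    (((fun x : Fin d → ℝ => l • x) ⁻¹' body B).indicator 1) ((body C).indicator 1)
    (measurable_one.indicator ((body_meas A).preimage (measurable_const_smul _)))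
    (measurable_one.indicator ((body_meas B).preimage (measurable_const_smul _)))
    (measurable_one.indicator (body_meas C)) (by
      intro x y
      by_cases hx : (1 - l) • x ∈ body A
      · by_cases hy : l • y ∈ body B
        · rw [indicator_of_mem (add_mem h hx hy), indicator_of_mem (by exact hx),
            indicator_of_mem (by exact hy)]
          simp
        · rw [indicator_of_notMem (s := _ ⁻¹' body B) (by exact hy), ENNReal.zero_rpow_of_pos l0]
          simp
      · rw [indicator_of_notMem (s := _ ⁻¹' body A) (by exact hx), ENNReal.zero_rpow_of_pos l2]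
        simp)
  rw [scaled A l2, scaled B l0, lintegral_indicator_one (body_meas C), body_vol] at key
  have e1 : (A.card : ℝ) / (1 - l) ^ d = (α + β) ^ d := by
    rw [l1, ← αd, div_pow]; field_simp
  have e2 : (B.card : ℝ) / l ^ d = (α + β) ^ d := by
    rw [hl, ← βd, div_pow]; field_simp
  rw [e1, e2, ← ENNReal.rpow_add_of_nonneg _ _ l2.le l0.le, sub_add_cancel, ENNReal.rpow_one,
    ← ENNReal.ofReal_natCast, ENNReal.ofReal_le_ofReal_iff (Nat.cast_nonneg _)] at key
  have := Real.rpow_le_rpow (by positivity) key (by positivity : (0 : ℝ) ≤ 1 / d)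
  rwa [one_div, Real.pow_rpow_inv_natCast s0.le hd0, ← one_div] at this

end Pool.Agent.Lib.MP_9ff3e7_ag.F
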