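import Mathlib

/-! The first moment of a finite set of exponents. -/

set_option autoImplicit false

namespace Pool.Agent.Lib.MP_9ff3e7_ag.F

open Finset

theorem mom_lev {d : ℕ} (S : Finset (Fin d →₀ ℕ)) (j : ℕ) :
    (S.filter fun a => a.degree = j).card ≤ d.multichoose j := by
  have := card_finsuppAntidiag_nat_eq_multichoose (s := (univ : Finset (Fin d))) j
  rw [card_univ, Fintype.card_fin] at this
  rw [← this]
  refine card_le_card fun a ha => mem_finsuppAntidiag.2 ⟨?_, subset_univ _⟩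
  rw [← (mem_filter.1 ha).2, Finsupp.degree_eq_sum]

theorem mom_le {d : ℕ} (S : Finset (Fin d →₀ ℕ)) (j : ℕ) :
    (S.filter fun a => a.degree ≤ j).card ≤ (d + j).choose d := by
  induction j with
  | zero => simpa using mom_lev S 0
  | succ j ih =>
    have e : (S.filter fun a => a.degree ≤ j + 1) ⊆
        (S.filter fun a => a.degree ≤ j) ∪ S.filter fun a => a.degree = j + 1 := fun a ha => by
      simp only [mem_filter, mem_union] at ha ⊢
      rcases ha.2.lt_or_eq with h | h
      · exact .inl ⟨ha.1, by omega⟩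
      · exact .inr ⟨ha.1, h⟩
    have h1 := (card_le_card e).trans (card_union_le _ _)
    have h2 := mom_lev S (j + 1)
    rw [Nat.multichoose_eq, show d + (j + 1) - 1 = d + j by omega] at h2
    have h3 := Nat.choose_succ_succ' (d + j) j
    have h4 : (d + j).choose d = (d + j).choose j := Nat.choose_symm_add
    have h5 : (d + (j + 1)).choose d = (d + (j + 1)).choose (j + 1) := Nat.choose_symm_add
    rw [h5, ← add_assoc]
    omega

theorem mom_nat {d : ℕ} (S : Finset (Fin d →₀ ℕ)) (T : ℕ) :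
    T * S.card ≤ ∑ a ∈ S, a.degree + (d + T).choose (d + 1) := by
  have key : ∑ a ∈ S, (T - a.degree) ≤ (d + T).choose (d + 1) := by
    induction T with
    | zero => simp
    | succ T ih =>
      have e : ∑ a ∈ S, (T + 1 - a.degree) =
          ∑ a ∈ S, (T - a.degree) + (S.filter fun a => a.degree ≤ T).card := by
        rw [card_filter, ← sum_add_distrib]
        refine sum_congr rfl fun a _ => ?_
        split_ifs <;> omega
      have := mom_le S T
      rw [e, ← add_assoc, Nat.choose_succ_succ' (d + T) d]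
      omega
  calc T * S.card = ∑ _a ∈ S, T := by rw [sum_const, smul_eq_mul, mul_comm]
    _ ≤ ∑ a ∈ S, (a.degree + (T - a.degree)) := sum_le_sum fun a _ => by omega
    _ ≤ _ := by
      rw [sum_add_distrib]
      omega

/-- the moment bound with R = (d! |S|)^(1/d) given by its equation -/
theorem moment_R {d : ℕ} (S : Finset (Fin d →₀ ℕ)) {R : ℝ} (h0 : 0 ≤ R)
    (hR : R ^ d ≤ d.factorial * S.card) :
    ((d : ℝ) / (d + 1) * R - d) * S.card ≤ ∑ a ∈ S, (a.degree : ℝ) := by
  have s0 : (0 : ℝ) ≤ S.card := Nat.cast_nonneg _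
  have d0 : (0 : ℝ) ≤ d := Nat.cast_nonneg _
  have d1 : (0 : ℝ) < d + 1 := by linarith
  have n1 := Nat.floor_le h0
  have n2 := Nat.lt_floor_add_one R
  generalize ⌊R⌋₊ = N at n1 n2
  have q : (d : ℝ) / (d + 1) * R = R - R / (d + 1) := by
    field_simp
    ring
  rcases lt_or_ge (N + 1) d with h | h
  · refine le_trans (mul_nonpos_of_nonpos_of_nonneg ?_ s0) (sum_nonneg fun a _ => Nat.cast_nonneg _)
    have : (N : ℝ) + 1 < d := by exact_mod_cast h
    have := div_nonneg h0 d1.le
    linarith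
  obtain ⟨T, hT⟩ := Nat.exists_eq_add_of_le h
  have a1 := mom_nat S T
  rw [← hT] at a1
  have a2 : (N + 1) * N.choose d = (N + 1).choose (d + 1) * (d + 1) := Nat.add_one_mul_choose_eq N d
  have a3 : (N.choose d : ℝ) ≤ S.card := by
    have b1 : (d.factorial : ℝ) * N.choose d ≤ N ^ d := by
      exact_mod_cast (Nat.descFactorial_eq_factorial_mul_choose N d) ▸ Nat.descFactorial_le_pow N d
    have b2 : (N : ℝ) ^ d ≤ R ^ d := pow_le_pow_left₀ N.cast_nonneg n1 d
    exact le_of_mul_le_mul_left (b1.trans (b2.trans hR)) (by exact_mod_cast d.factorial_pos)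
  have a4 : (T : ℝ) * S.card ≤ ∑ a ∈ S, (a.degree : ℝ) + ((N + 1).choose (d + 1) : ℕ) := by
    exact_mod_cast a1
  have a5 : (((N + 1).choose (d + 1) : ℕ) : ℝ) ≤ (N + 1) / (d + 1) * S.card := by
    have : ((N : ℝ) + 1) * N.choose d = ((N + 1).choose (d + 1) : ℕ) * (d + 1) := by
      exact_mod_cast a2
    rw [div_mul_eq_mul_div, le_div_iff₀ d1, ← this]
    exact mul_le_mul_of_nonneg_left a3 (by positivity)
  have a6 : (N : ℝ) + 1 = d + T := by exact_mod_cast hT
  have a7 : R - R / (d + 1) - d ≤ T - (N + 1) / (d + 1) := by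
    have : (N + 1 - R) / (d + 1) ≤ N + 1 - R := div_le_self (by linarith) (by linarith)
    rw [sub_div] at this
    linarith
  have := mul_le_mul_of_nonneg_right a7 s0
  rw [q]
  linarith

theorem moment_lb {d : ℕ} (hd : 1 ≤ d) (S : Finset (Fin d →₀ ℕ)) :
    (d : ℝ) / (d + 1) * (d.factorial : ℝ) ^ (1 / d : ℝ) * (S.card : ℝ) ^ (1 + 1 / d : ℝ) -
      d * S.card ≤ ∑ a ∈ S, (a.degree : ℝ) := by
  have s0 : (0 : ℝ) ≤ S.card := Nat.cast_nonneg _
  have f0 : (0 : ℝ) ≤ d.factorial := Nat.cast_nonneg _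
  have := moment_R S (R := (d.factorial * S.card : ℝ) ^ (1 / d : ℝ)) (by positivity) (by
    rw [one_div, Real.rpow_inv_natCast_pow (by positivity) (by omega)])
  rw [Real.mul_rpow f0 s0] at this
  rw [Real.rpow_add' s0 (by positivity), Real.rpow_one]
  linarith

end Pool.Agent.Lib.MP_9ff3e7_ag.F
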