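import Pool.Agent.Lib.MP_9ff3e7_ag.F.CountMom
import Pool.Agent.Lib.MP_9ff3e7_ag.F.CountBM

/-! The recursion of the counting lemma for one position. -/

set_option autoImplicit false

namespace Pool.Agent.Lib.MP_9ff3e7_ag.F

open Finset

theorem pow_rec {d : ℕ} (hd : 1 ≤ d) {b : ℝ} (hb : 0 ≤ b) (f : ℕ → ℝ) (hf : ∀ m, 0 ≤ f m)
    (L : ℕ) (h : ∀ m < L, 0 < f m → f m + b ≤ f (m + 1)) :
    (d + 1) * b * ∑ m ∈ range L, f m ^ d ≤ f L ^ (d + 1) := by
  induction L with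
  | zero => simpa using pow_nonneg (hf 0) _
  | succ L ih =>
    have ih := ih fun m hm => h m (by omega)
    rw [sum_range_succ, mul_add]
    rcases (hf L).eq_or_lt with h0 | h0
    · rw [← h0, zero_pow (by omega)] at ih
      rw [← h0, zero_pow (by omega)]
      have := pow_nonneg (hf (L + 1)) (d + 1)
      linarith
    · have h1 := pow_le_pow_left₀ (by linarith) (h L (by omega) h0) (d + 1)
      have h2 := pow_add_mul_le_add_pow (a := f L) (b := b) h0.le (by linarith) (d + 1)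
      simp only [Nat.add_sub_cancel] at h2
      push_cast at h2
      linarith

theorem count_q {d : ℕ} (hd : 1 ≤ d) (S : ℕ → Finset (Fin d →₀ ℕ)) (G : Finset (Fin d →₀ ℕ))
    (hG : G.Nonempty) (L : ℕ)
    (h : ∀ m < L, ∀ a ∈ S m, ∀ g ∈ G, ∀ e : Fin d →₀ ℕ, (∀ i, e i ≤ 1) → a + g + e ∈ S (m + 1)) :
    d * ((d.factorial : ℝ) ^ (1 / d : ℝ) * (G.card : ℝ) ^ (1 / d : ℝ)) *
        ∑ m ∈ range L, ((S m).card : ℝ) - d * (S L).card ≤ ∑ a ∈ S L, (a.degree : ℝ) := by
  have hp : ∀ x : ℝ, 0 ≤ x → (x ^ (1 / d : ℝ)) ^ d = x := fun x hx => by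
    rw [one_div, Real.rpow_inv_natCast_pow hx (by omega)]
  set f : ℕ → ℝ := fun m => ((S m).card : ℝ) ^ (1 / d : ℝ) with hf
  set b : ℝ := (G.card : ℝ) ^ (1 / d : ℝ)
  set c : ℝ := (d.factorial : ℝ) ^ (1 / d : ℝ)
  have f0 : ∀ m, 0 ≤ f m := fun m => by positivity
  have b0 : 0 ≤ b := by positivity
  have c0 : 0 ≤ c := by positivity
  have fd : ∀ m, f m ^ d = (S m).card := fun m => hp _ (Nat.cast_nonneg _)
  have cd : c ^ d = d.factorial := hp _ (Nat.cast_nonneg _)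
  have h1 := pow_rec hd b0 f f0 L fun m hm h0 => by
    refine bm_cubes hd (nonempty_iff_ne_empty.2 fun e => ?_) hG (h m hm)
    have := fd m
    rw [e, card_empty, Nat.cast_zero] at this
    exact (pow_pos h0 d).ne' this
  have h2 := moment_R (S L) (R := c * f L) (mul_nonneg c0 (f0 L)) (by rw [mul_pow, cd, fd])
  simp only [fd, pow_succ] at h1
  refine le_trans ?_ h2
  have d1 : (0 : ℝ) < d + 1 := by positivity
  have h3 := mul_le_mul_of_nonneg_left h1 (by positivity : 0 ≤ (d : ℝ) / (d + 1) * c)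
  have e : ∀ x y z : ℝ, (d : ℝ) / (d + 1) * x * ((d + 1) * y * z) = d * (x * y) * z :=
    fun x y z => by field_simp
  rw [e] at h3
  generalize f L = u at h3 ⊢
  clear_value b c
  linarith

end Pool.Agent.Lib.MP_9ff3e7_ag.F
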