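import Mathlib

/-! Projective varieties over `ℂ` through their homogeneous coordinate ring: points, local rings,
the canonical sheaf, Cartier divisors and sections of adjoint bundles. -/

set_option autoImplicit false

namespace Pool.Agent.Lib.MP_9ff3e7_ag.F

noncomputable section

variable {S : Type} [CommRing S] [IsDomain S] [Algebra ℂ S] (𝒜 : ℕ → Submodule ℂ S)

/-- points of the punctured affine cone over `X = Proj S`; they represent the closed points of `X` -/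
def Pt : Type := {p : S →ₐ[ℂ] ℂ // ∃ l ∈ 𝒜 1, p l ≠ 0}

/-- the function field of `X`: quotients of forms of the same degree -/
def Fn : IntermediateField ℂ (FractionRing S) :=
  IntermediateField.adjoin ℂ {y | ∃ j, ∃ a ∈ 𝒜 j, ∃ b ∈ 𝒜 j,
    y = algebraMap S (FractionRing S) a / algebraMap S (FractionRing S) b}

/-- rational top forms -/
abbrev TopForm (n : ℕ) : Type := ⋀[Fn 𝒜]^n (Ω[Fn 𝒜⁄ℂ])

variable {𝒜}

/-- the local ring of `X` at `p` -/
def loc (p : Pt 𝒜) : Subalgebra ℂ (Fn 𝒜) :=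
  Algebra.adjoin ℂ {y | ∃ j, ∃ a ∈ 𝒜 j, ∃ b ∈ 𝒜 j, p.1 b ≠ 0 ∧
    (y : FractionRing S) = algebraMap S (FractionRing S) a / algebraMap S (FractionRing S) b}

/-- `u` is a unit of the local ring at `p` -/
def UnitAt (p : Pt 𝒜) (u : Fn 𝒜) : Prop := u ≠ 0 ∧ u ∈ loc p ∧ u⁻¹ ∈ loc p

/-- the stalk of the canonical sheaf at `p`: spanned by the `df₁ ∧ ⋯ ∧ dfₙ`, `fᵢ` regular at `p` -/
def canon (n : ℕ) (p : Pt 𝒜) : Submodule (loc p) (TopForm 𝒜 n) :=
  Submodule.span (loc p) {ω | ∃ f : Fin n → Fn 𝒜, (∀ i, f i ∈ loc p) ∧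
    ω = exteriorPower.ιMulti (Fn 𝒜) n fun i => KaehlerDifferential.D ℂ (Fn 𝒜) (f i)}

variable (𝒜) in
/-- a Cartier divisor on `X`, given by a local equation at each point -/
structure Cartier where
  eqn : Pt 𝒜 → Fn 𝒜
  near : ∀ p : Pt 𝒜, ∃ j, ∃ f ∈ 𝒜 j, p.1 f ≠ 0 ∧
    ∀ q : Pt 𝒜, q.1 f ≠ 0 → UnitAt q (eqn p / eqn q)

/-- `O(kA) ≅ O(1)`: multiplication by `θ` carries the stalk `a⁻ᵏ O_p` onto the stalk `l O_p` -/
def Cartier.Hyperplane (A : Cartier 𝒜) (k : ℕ) : Prop :=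
  ∃ θ : FractionRing S, ∀ p : Pt 𝒜, ∀ l ∈ 𝒜 1, p.1 l ≠ 0 → ∃ u : Fn 𝒜, UnitAt p u ∧
    θ = (u * A.eqn p ^ k : Fn 𝒜) * algebraMap S (FractionRing S) l

/-- `ω` is a global section of `K_X + mA` -/
def Cartier.Adj (A : Cartier 𝒜) (n m : ℕ) (ω : TopForm 𝒜 n) : Prop :=
  ∀ p : Pt 𝒜, A.eqn p ^ m • ω ∈ canon n p

/-- the section `ω` of `K_X + mA` generates the stalk at `x`, that is, does not vanish at `x` -/
def Cartier.Gen (A : Cartier 𝒜) (n m : ℕ) (ω : TopForm 𝒜 n) (x : Pt 𝒜) : Prop :=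
  canon n x = Submodule.span (loc x) {A.eqn x ^ m • ω}

end

end Pool.Agent.Lib.MP_9ff3e7_ag.F
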