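import Mathlib

/-! Points outside a hypersurface are dense (in the usual topology) in an irreducible affine
variety over `ℂ`. -/

set_option autoImplicit false

namespace Pool.Agent.Lib.MP_9ff3e7_ag.F

open Polynomial Filter Topology

noncomputable section

/-- a maximal ideal of a finitely generated `ℂ`-algebra is the kernel of a point -/
theorem pt_of_max {R : Type*} [CommRing R] [Algebra ℂ R] [Algebra.FiniteType ℂ R]
    (Q : Ideal R) [hQ : Q.IsMaximal] : ∃ y : R →ₐ[ℂ] ℂ, ∀ f, y f = 0 ↔ f ∈ Q := by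
  let : Field (R ⧸ Q) := Ideal.Quotient.field Q
  have : Module.Finite ℂ (R ⧸ Q) := finite_of_finite_type_of_isJacobsonRing ℂ (R ⧸ Q)
  have hb : Function.Bijective (algebraMap ℂ (R ⧸ Q)) :=
    IsAlgClosed.algebraMap_bijective_of_isIntegral
  let e : ℂ ≃ₐ[ℂ] (R ⧸ Q) := AlgEquiv.ofBijective (Algebra.ofId ℂ (R ⧸ Q)) hb
  refine ⟨(e.symm : (R ⧸ Q) →ₐ[ℂ] ℂ).comp (Ideal.Quotient.mkₐ ℂ Q), fun f => ?_⟩
  simp [Ideal.Quotient.eq_zero_iff_mem]

/-- points extend along integral maps -/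
theorem ext_pt {A R : Type*} [CommRing A] [CommRing R] [Algebra ℂ A] [Algebra ℂ R]
    [Algebra.FiniteType ℂ R] (ψ : A →ₐ[ℂ] R) (hψ : ψ.toRingHom.IsIntegral) (φ : A →ₐ[ℂ] ℂ)
    (hk : ∀ b, ψ b = 0 → φ b = 0) : ∃ y : R →ₐ[ℂ] ℂ, ∀ b, y (ψ b) = φ b := by
  let : Algebra A R := ψ.toRingHom.toAlgebra
  have : Algebra.IsIntegral A R := ⟨hψ⟩
  have hs : Function.Surjective φ := fun c => ⟨algebraMap ℂ A c, by simp⟩
  have : (RingHom.ker φ).IsMaximal := RingHom.ker_isMaximal_of_surjective φ hs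
  obtain ⟨Q, hQ, hc⟩ := Ideal.exists_ideal_over_maximal_of_isIntegral (S := R) (RingHom.ker φ)
    (fun b hb => hk b hb)
  obtain ⟨y, hy⟩ := pt_of_max Q
  refine ⟨y, fun b => ?_⟩
  have h1 : b - algebraMap ℂ A (φ b) ∈ Q.comap (algebraMap A R) := by
    rw [hc]; simp [RingHom.mem_ker]
  have h2 : ψ (b - algebraMap ℂ A (φ b)) ∈ Q := h1
  have h3 := (hy _).2 h2
  simpa [sub_eq_zero] using h3

/-- a monic polynomial has a root near any point where it is small -/
theorem root_near (p : ℂ[X]) (hp : p.Monic) (hd : p.natDegree ≠ 0) (c : ℂ) :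
    ∃ r, p.IsRoot r ∧ ‖c - r‖ ^ p.natDegree ≤ ‖p.eval c‖ := by
  classical
  have hsp : p.Splits := IsAlgClosed.splits p
  have hcard : Multiset.card p.roots = p.natDegree := hsp.natDegree_eq_card_roots.symm
  have hne : p.roots.toFinset.Nonempty := by
    rw [Multiset.toFinset_nonempty]
    intro h0
    rw [h0] at hcard
    exact hd hcard.symm
  obtain ⟨r, hr, hmin⟩ := p.roots.toFinset.exists_min_image (fun r => ‖c - r‖) hne
  refine ⟨r, (mem_roots hp.ne_zero).1 (Multiset.mem_toFinset.1 hr), ?_⟩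
  have he : p.eval c = (p.roots.map fun a => c - a).prod := by
    conv_lhs => rw [hsp.eq_prod_roots_of_monic hp]
    rw [eval_multiset_prod, Multiset.map_map]
    simp
  rw [he, ← hcard]
  have key : ∀ s : Multiset ℂ, (∀ a ∈ s, ‖c - r‖ ≤ ‖c - a‖) →
      ‖c - r‖ ^ Multiset.card s ≤ ‖(s.map fun a => c - a).prod‖ := by
    intro s
    induction s using Multiset.induction_on with
    | empty => simp
    | cons a s ih =>
      intro h
      rw [Multiset.card_cons, Multiset.map_cons, Multiset.prod_cons, norm_mul, pow_succ, mul_comm]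
      exact mul_le_mul (h a (Multiset.mem_cons_self _ _))
        (ih fun b hb => h b (Multiset.mem_cons_of_mem hb)) (by positivity) (norm_nonneg _)
  exact key _ fun a ha => hmin a (Multiset.mem_toFinset.2 ha)

theorem root_bound (p : ℂ[X]) (hp : p.Monic) (C : ℝ) (hC0 : 0 ≤ C)
    (hC : ∀ i < p.natDegree, ‖p.coeff i‖ ≤ C) {r : ℂ} (hr : p.IsRoot r) : ‖r‖ ≤ C + 1 := by
  have h := hr.norm_lt_cauchyBound hp.ne_zero
  have h2 : p.cauchyBound ≤ C.toNNReal + 1 := by
    unfold cauchyBound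
    rw [hp.leadingCoeff, nnnorm_one, div_one]
    gcongr
    refine Finset.sup_le fun i hi => ?_
    rw [← NNReal.coe_le_coe, Real.coe_toNNReal C hC0]
    exact hC i (Finset.mem_range.1 hi)
  have h3 : ((‖r‖₊ : NNReal) : ℝ) ≤ ((C.toNNReal + 1 : NNReal) : ℝ) :=
    NNReal.coe_le_coe.2 (h.le.trans h2)
  simpa [Real.coe_toNNReal C hC0] using h3

section main

variable {d : ℕ} {R : Type*} [CommRing R] [IsDomain R] [Algebra ℂ R] [Algebra.FiniteType ℂ R]
  [Algebra (MvPolynomial (Fin d) ℂ) R] [IsScalarTower ℂ (MvPolynomial (Fin d) ℂ) R]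
  [Algebra.IsIntegral (MvPolynomial (Fin d) ℂ) R]

omit [IsDomain R] [Algebra.FiniteType ℂ R] [Algebra.IsIntegral (MvPolynomial (Fin d) ℂ) R]
  [IsScalarTower ℂ (MvPolynomial (Fin d) ℂ) R] in
theorem pt_root (y : R →ₐ[ℂ] ℂ) (a : Fin d → ℂ)
    (hy : ∀ b, y (algebraMap (MvPolynomial (Fin d) ℂ) R b) = MvPolynomial.eval a b)
    (p : (MvPolynomial (Fin d) ℂ)[X]) (f : R) :
    y (aeval f p) = (p.map (MvPolynomial.eval a)).eval (y f) := by
  induction p using Polynomial.induction_on' with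
  | add p q hp hq => simp [hp, hq]
  | monomial n b => simp [aeval_monomial, hy]

theorem pt_over [Module.IsTorsionFree (MvPolynomial (Fin d) ℂ) R] (G : R) (a : Fin d → ℂ) (r : ℂ)
    (hr : ((minpoly (MvPolynomial (Fin d) ℂ) G).map (MvPolynomial.eval a)).IsRoot r) :
    ∃ y : R →ₐ[ℂ] ℂ, y G = r ∧
      ∀ b, y (algebraMap (MvPolynomial (Fin d) ℂ) R b) = MvPolynomial.eval a b := by
  let ψ : (MvPolynomial (Fin d) ℂ)[X] →ₐ[ℂ] R := (aeval G).restrictScalars ℂ
  let φ : (MvPolynomial (Fin d) ℂ)[X] →ₐ[ℂ] ℂ :=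
    eval₂AlgHom (MvPolynomial.aeval a) r (fun _ => Commute.all _ _)
  have hφ : ∀ p, φ p = (p.map (MvPolynomial.eval a)).eval r := by
    intro p
    rw [eval_map]
    rfl
  have hψ : ψ.toRingHom.IsIntegral := by
    intro f
    obtain ⟨p, hp, hf⟩ := Algebra.IsIntegral.isIntegral (R := MvPolynomial (Fin d) ℂ) f
    refine ⟨p.map C, hp.map _, ?_⟩
    have hc : ψ.toRingHom.comp C = algebraMap (MvPolynomial (Fin d) ℂ) R :=
      RingHom.ext fun b => aeval_C G b
    rw [eval₂_map, hc]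
    exact hf
  obtain ⟨y, hy⟩ := ext_pt ψ hψ φ (by
    intro p hp
    have hp' : aeval G p = 0 := hp
    obtain ⟨q, rfl⟩ := minpoly.isIntegrallyClosed_dvd (Algebra.IsIntegral.isIntegral G) hp'
    rw [hφ, Polynomial.map_mul, eval_mul, hr.eq_zero, zero_mul])
  refine ⟨y, ?_, fun b => ?_⟩
  · have := hy X
    rw [hφ] at this
    simpa [ψ] using this
  · have := hy (C b)
    rw [hφ] at this
    simpa [ψ] using this

theorem cont_line (a v : Fin d → ℂ) (b : MvPolynomial (Fin d) ℂ) :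
    Continuous fun s : ℂ => MvPolynomial.eval (a + s • v) b :=
  (MvPolynomial.continuous_eval b).comp (by fun_prop)

theorem line_ne (a : Fin d → ℂ) (b : MvPolynomial (Fin d) ℂ) (hb : b ≠ 0) :
    ∃ v : Fin d → ℂ, ∀ᶠ s in 𝓝[≠] (0 : ℂ), MvPolynomial.eval (a + s • v) b ≠ 0 := by
  have h1 : ∃ w : Fin d → ℂ, MvPolynomial.eval w b ≠ 0 := by
    by_contra h
    push Not at h
    exact hb (MvPolynomial.funext fun w => by simpa using h w)
  obtain ⟨w, hw⟩ := h1
  refine ⟨w - a, ?_⟩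
  let q : ℂ[X] := MvPolynomial.aeval (fun j => C (a j) + X * C ((w - a) j)) b
  have hq : ∀ s : ℂ, q.eval s = MvPolynomial.eval (a + s • (w - a)) b := by
    intro s
    have : (Polynomial.aeval s : ℂ[X] →ₐ[ℂ] ℂ).comp
        (MvPolynomial.aeval (fun j => C (a j) + X * C ((w - a) j))) =
        MvPolynomial.aeval (a + s • (w - a)) := by
      ext j
      simp
    have h2 := DFunLike.congr_fun this b
    simpa [q, Polynomial.coe_aeval_eq_eval, MvPolynomial.coe_aeval_eq_eval] using h2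
  have hq0 : q ≠ 0 := by
    intro h0
    have := hq 1
    rw [h0] at this
    simp at this
    exact hw this.symm
  have hfin : ∀ᶠ s in cofinite, q.eval s ≠ 0 := by
    have := q.finite_setOfPred_isRoot hq0
    simpa [Filter.eventually_cofinite, IsRoot] using this
  exact (hfin.filter_mono (nhdsNE_le_cofinite 0)).mono fun s hs => by rwa [← hq]

theorem dense_aux [Module.IsTorsionFree (MvPolynomial (Fin d) ℂ) R] (x : R →ₐ[ℂ] ℂ) (h : R)
    (hh : h ≠ 0) (s : Finset R) (ε : ℝ) (hε : 0 < ε) :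
    ∃ y : R →ₐ[ℂ] ℂ, y h ≠ 0 ∧ ∀ f ∈ s, ‖y f - x f‖ < ε := by
  classical
  set a : Fin d → ℂ := fun j => x (algebraMap (MvPolynomial (Fin d) ℂ) R (MvPolynomial.X j))
    with ha
  have hxa : ∀ b, x (algebraMap (MvPolynomial (Fin d) ℂ) R b) = MvPolynomial.eval a b := by
    intro b
    have : x.comp (IsScalarTower.toAlgHom ℂ (MvPolynomial (Fin d) ℂ) R) = MvPolynomial.aeval a := by
      ext j
      simp [ha]
    have h2 := DFunLike.congr_fun this b
    simpa [MvPolynomial.coe_aeval_eq_eval] using h2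
  have hint : ∀ f : R, IsIntegral (MvPolynomial (Fin d) ℂ) f := Algebra.IsIntegral.isIntegral
  let m : R → (MvPolynomial (Fin d) ℂ)[X] := fun f => minpoly (MvPolynomial (Fin d) ℂ) f
  have hm : ∀ f, (m f).Monic := fun f => minpoly.monic (hint f)
  have hroot : ∀ (y : R →ₐ[ℂ] ℂ) (a' : Fin d → ℂ),
      (∀ b, y (algebraMap (MvPolynomial (Fin d) ℂ) R b) = MvPolynomial.eval a' b) →
      ∀ f, ((m f).map (MvPolynomial.eval a')).IsRoot (y f) := by
    intro y a' hy f
    rw [IsRoot.def, ← pt_root y a' hy, minpoly.aeval, map_zero]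
  let Z : R → Finset ℂ := fun f => ((m f).map (MvPolynomial.eval a)).roots.toFinset.erase (x f)
  let G : R := ∏ f ∈ s, ∏ r ∈ Z f, (f - algebraMap ℂ R r)
  have hG : ∀ y : R →ₐ[ℂ] ℂ, y G = ∏ f ∈ s, ∏ r ∈ Z f, (y f - r) := by
    intro y
    simp [G, map_prod]
  have hxG : x G ≠ 0 := by
    rw [hG]
    refine Finset.prod_ne_zero_iff.2 fun f _ => Finset.prod_ne_zero_iff.2 fun r hr => ?_
    exact sub_ne_zero.2 (Finset.ne_of_mem_erase hr).symm
  obtain ⟨b0, hb0, r0, hr0⟩ := (hint h).isAlgebraic.exists_nonzero_dvd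
    (mem_nonZeroDivisors_of_ne_zero hh)
  obtain ⟨v, hv⟩ := line_ne a b0 hb0
  have hdeg : (m G).natDegree ≠ 0 := (minpoly.natDegree_pos (hint G)).ne'
  have hex : ∀ t : ℂ, ∃ y : R →ₐ[ℂ] ℂ,
      ‖x G - y G‖ ^ (m G).natDegree ≤ ‖((m G).map (MvPolynomial.eval (a + t • v))).eval (x G)‖ ∧
      ∀ b, y (algebraMap (MvPolynomial (Fin d) ℂ) R b) = MvPolynomial.eval (a + t • v) b := by
    intro t
    have hd' : ((m G).map (MvPolynomial.eval (a + t • v))).natDegree = (m G).natDegree :=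
      (hm G).natDegree_map _
    obtain ⟨r, hr, hle⟩ := root_near _ ((hm G).map (MvPolynomial.eval (a + t • v)))
      (by rwa [hd']) (x G)
    obtain ⟨y, hy1, hy2⟩ := pt_over G (a + t • v) r hr
    exact ⟨y, by rw [hy1, ← hd']; exact hle, hy2⟩
  choose y hy1 hy2 using hex
  let U : Ultrafilter ℂ := Ultrafilter.of (𝓝[≠] (0 : ℂ))
  have hU : (U : Filter ℂ) ≤ 𝓝[≠] (0 : ℂ) := Ultrafilter.of_le _
  have hU0 : (U : Filter ℂ) ≤ 𝓝 (0 : ℂ) := hU.trans nhdsWithin_le_nhds
  have hev : ∀ (p : (MvPolynomial (Fin d) ℂ)[X]) (u : ℂ → ℂ) (c : ℂ), Tendsto u U (𝓝 c) →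
      Tendsto (fun t => (p.map (MvPolynomial.eval (a + t • v))).eval (u t)) U
        (𝓝 ((p.map (MvPolynomial.eval a)).eval c)) := by
    intro p u c hu
    induction p using Polynomial.induction_on' with
    | add p q hp hq => simpa using hp.add hq
    | monomial n b =>
      have h1 := ((cont_line a v b).tendsto 0).mono_left hU0
      simpa using h1.mul (hu.pow n)
  have hlim : ∀ f : R, ∃ c, Tendsto (fun t => y t f) U (𝓝 c) := by
    intro f
    have hb : ∀ i, ∀ᶠ t in (U : Filter ℂ),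
        ‖MvPolynomial.eval (a + t • v) ((m f).coeff i)‖ ≤
          ‖MvPolynomial.eval a ((m f).coeff i)‖ + 1 := by
      intro i
      have h1 := (((cont_line a v ((m f).coeff i)).tendsto 0).mono_left hU0).norm
      simp only [zero_smul, add_zero] at h1
      exact h1.eventually_le_const (lt_add_one _)
    set Cf : ℝ := ∑ i ∈ Finset.range (m f).natDegree,
      (‖MvPolynomial.eval a ((m f).coeff i)‖ + 1) with hCf
    have hb2 : ∀ᶠ t in (U : Filter ℂ), y t f ∈ Metric.closedBall (0 : ℂ) (Cf + 1) := by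
      have := (Filter.eventually_all_finset (Finset.range (m f).natDegree)).2 fun i _ => hb i
      refine this.mono fun t ht => ?_
      rw [mem_closedBall_zero_iff]
      refine root_bound _ ((hm f).map (MvPolynomial.eval (a + t • v))) Cf
        (Finset.sum_nonneg fun _ _ => add_nonneg (norm_nonneg _) zero_le_one) ?_
        (hroot (y t) _ (hy2 t) f)
      intro i hi
      rw [(hm f).natDegree_map] at hi
      rw [coeff_map]
      refine (ht i (Finset.mem_range.2 hi)).trans ?_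
      exact Finset.single_le_sum
        (f := fun i => ‖MvPolynomial.eval a ((m f).coeff i)‖ + 1) (fun _ _ => by positivity)
        (Finset.mem_range.2 hi)
    obtain ⟨c, -, hc⟩ := (isCompact_closedBall (0 : ℂ) (Cf + 1)).ultrafilter_le_nhds
      (U.map fun t => y t f) (Filter.le_principal_iff.2 hb2)
    exact ⟨c, hc⟩
  choose c hc using hlim
  have hcG : c G = x G := by
    have h1 := hev (m G) (fun _ => x G) (x G) tendsto_const_nhds
    rw [(hroot x a hxa G).eq_zero] at h1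
    have h2 : Tendsto (fun t => ‖x G - y t G‖ ^ (m G).natDegree) U
        (𝓝 (‖x G - c G‖ ^ (m G).natDegree)) := ((tendsto_const_nhds.sub (hc G)).norm).pow _
    have h3 : ‖x G - c G‖ ^ (m G).natDegree ≤ ‖(0 : ℂ)‖ := le_of_tendsto_of_tendsto' h2 h1.norm hy1
    rw [norm_zero] at h3
    have h4 : ‖x G - c G‖ ^ (m G).natDegree = 0 := le_antisymm h3 (by positivity)
    have h5 := norm_eq_zero.1 (pow_eq_zero_iff hdeg |>.1 h4)
    exact (sub_eq_zero.1 h5).symm
  have hcG2 : c G = ∏ f ∈ s, ∏ r ∈ Z f, (c f - r) := by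
    refine tendsto_nhds_unique (hc G) ?_
    simp only [hG]
    exact tendsto_finsetProd _ fun f _ => tendsto_finsetProd _ fun r _ =>
      (hc f).sub tendsto_const_nhds
  have hcf : ∀ f ∈ s, c f = x f := by
    intro f hf
    by_contra hne
    have h1 := hev (m f) (fun t => y t f) (c f) (hc f)
    have h2 : ((m f).map (MvPolynomial.eval a)).eval (c f) = 0 := by
      refine tendsto_nhds_unique h1 ?_
      simp only [fun t => (hroot (y t) _ (hy2 t) f).eq_zero]
      exact tendsto_const_nhds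
    have h3 : c f ∈ Z f := Finset.mem_erase.2 ⟨hne, Multiset.mem_toFinset.2
      ((mem_roots ((hm f).map _).ne_zero).2 h2)⟩
    apply hxG
    rw [← hcG, hcG2]
    exact Finset.prod_eq_zero hf (Finset.prod_eq_zero h3 (sub_self _))
  have hfin : ∀ᶠ t in (U : Filter ℂ), ∀ f ∈ s, ‖y t f - x f‖ < ε := by
    refine (Filter.eventually_all_finset s).2 fun f hf => ?_
    have := (Metric.tendsto_nhds.1 (hc f)) ε hε
    simpa [dist_eq_norm, hcf f hf] using this
  obtain ⟨t, ht1, ht2⟩ := (hfin.and (hv.filter_mono hU)).exists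
  refine ⟨y t, fun h0 => ht2 ?_, ht1⟩
  rw [← hy2 t, hr0, map_mul, h0, zero_mul]

end main

/-- K8 for a domain -/
theorem dense_pts {R : Type*} [CommRing R] [IsDomain R] [Algebra ℂ R] [Algebra.FiniteType ℂ R]
    (x : R →ₐ[ℂ] ℂ) (h : R) (hh : h ≠ 0) (s : Finset R) (ε : ℝ) (hε : 0 < ε) :
    ∃ y : R →ₐ[ℂ] ℂ, y h ≠ 0 ∧ ∀ f ∈ s, ‖y f - x f‖ < ε := by
  obtain ⟨d, g, hg, hi⟩ := exists_integral_inj_algHom_of_fg ℂ R
  let : Algebra (MvPolynomial (Fin d) ℂ) R := g.toRingHom.toAlgebra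
  have : IsScalarTower ℂ (MvPolynomial (Fin d) ℂ) R :=
    IsScalarTower.of_algebraMap_eq fun c => (g.commutes c).symm
  have : Algebra.IsIntegral (MvPolynomial (Fin d) ℂ) R := ⟨hi⟩
  have : FaithfulSMul (MvPolynomial (Fin d) ℂ) R :=
    (faithfulSMul_iff_algebraMap_injective _ _).2 hg
  exact dense_aux (d := d) x h hh s ε hε

/-- K8 for a prime ideal -/
theorem dense_prime {O : Type*} [CommRing O] [Algebra ℂ O] [Algebra.FiniteType ℂ O]
    (P : Ideal O) [P.IsPrime] (x : O →ₐ[ℂ] ℂ) (hx : ∀ f ∈ P, x f = 0) (h : O) (hh : h ∉ P)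
    (s : Finset O) (ε : ℝ) (hε : 0 < ε) :
    ∃ y : O →ₐ[ℂ] ℂ, (∀ f ∈ P, y f = 0) ∧ y h ≠ 0 ∧ ∀ f ∈ s, ‖y f - x f‖ < ε := by
  classical
  obtain ⟨y, h1, h2⟩ := dense_pts (R := O ⧸ P) (Ideal.Quotient.liftₐ P x hx)
    (Ideal.Quotient.mk P h) (fun h0 => hh (Ideal.Quotient.eq_zero_iff_mem.1 h0))
    (s.image (Ideal.Quotient.mk P)) ε hε
  refine ⟨y.comp (Ideal.Quotient.mkₐ ℂ P), fun f hf => ?_, h1, fun f hf => ?_⟩
  · simp [Ideal.Quotient.eq_zero_iff_mem.2 hf]
  · exact h2 _ (Finset.mem_image_of_mem _ hf)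

/-- K8, filter form: every neighbourhood of `x` for pointwise convergence contains such points -/
theorem dense_prime_nhds {O : Type*} [CommRing O] [Algebra ℂ O] [Algebra.FiniteType ℂ O]
    (P : Ideal O) [P.IsPrime] (x : O →ₐ[ℂ] ℂ) (hx : ∀ f ∈ P, x f = 0) (h : O) (hh : h ∉ P) :
    ∃ᶠ y : O →ₐ[ℂ] ℂ in Filter.comap (fun (y : O →ₐ[ℂ] ℂ) (f : O) => y f) (𝓝 fun f => x f),
      (∀ f ∈ P, y f = 0) ∧ y h ≠ 0 := by
  classical
  rw [Filter.frequently_iff]
  intro V hV
  obtain ⟨W, hW, hWV⟩ := Filter.mem_comap.1 hV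
  rw [nhds_pi, Filter.mem_pi] at hW
  obtain ⟨I, hI, t, ht, htW⟩ := hW
  have hε : ∀ f, ∃ ε > 0, Metric.ball (x f) ε ⊆ t f := fun f => Metric.mem_nhds_iff.1 (ht f)
  choose ε hε0 hε1 using hε
  obtain ⟨e, he0, he⟩ : ∃ e > 0, ∀ f ∈ hI.toFinset, e ≤ ε f := by
    rcases hI.toFinset.eq_empty_or_nonempty with h0 | h0
    · exact ⟨1, one_pos, by simp [h0]⟩
    · obtain ⟨f, -, hf⟩ := hI.toFinset.exists_min_image ε h0
      exact ⟨ε f, hε0 f, hf⟩
  obtain ⟨y, h1, h2, h3⟩ := dense_prime P x hx h hh hI.toFinset e he0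
  refine ⟨y, hWV (htW fun f hf => hε1 f ?_), h1, h2⟩
  have hf' := hI.mem_toFinset.2 hf
  rw [mem_ball_iff_norm]
  exact (h3 f hf').trans_le (he f hf')

end

end Pool.Agent.Lib.MP_9ff3e7_ag.F
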