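import Pool.Agent.Lib.MP_9ff3e7_ag.F.Red

/-! Comparison lemmas for the divisibility of the degree by `k ^ d`. -/

set_option autoImplicit false

namespace Pool.Agent.Lib.MP_9ff3e7_ag.F.X2

open Module Submodule Filter Topology

variable {L : Type} [Field L] [Algebra ℂ L]

theorem pow_mono {E : Submodule ℂ L} (h1 : (1 : L) ∈ E) {i j : ℕ} (h : i ≤ j) : E ^ i ≤ E ^ j := by
  obtain ⟨t, rfl⟩ := Nat.exists_eq_add_of_le h
  have : (1 : Submodule ℂ L) ≤ E ^ t := one_le.2 (by simpa using pow_mem_pow E h1 t)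
  calc E ^ i = E ^ i * 1 := (mul_one _).symm
    _ ≤ E ^ i * E ^ t := by gcongr
    _ = E ^ (i + t) := (pow_add _ _ _).symm

theorem span_singleton_pow (x : L) (n : ℕ) : span ℂ {x} ^ n = span ℂ {x ^ n} := by
  rw [span_pow, Set.singleton_pow]

theorem sup_pow_le (V X : Submodule ℂ L) (p q : ℕ) :
    (V ⊔ X) ^ (p + q) ≤ V ^ p * (V ⊔ X) ^ q ⊔ X ^ q * (V ⊔ X) ^ p := by
  induction p generalizing q with
  | zero => simp
  | succ p ihp =>
    induction q with
    | zero => simp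
    | succ q ihq =>
      set T := V ⊔ X with hT
      have hV : V ≤ T := le_sup_left
      have hX : X ≤ T := le_sup_right
      have e : T ^ (p + 1 + (q + 1)) = V * T ^ (p + (q + 1)) ⊔ X * T ^ (p + 1 + q) := by
        rw [show p + (q + 1) = p + 1 + q by ring, ← Submodule.sup_mul, ← hT, ← pow_succ']
        rfl
      rw [e]
      refine sup_le ?_ ?_
      · calc V * T ^ (p + (q + 1)) ≤ V * (V ^ p * T ^ (q + 1) ⊔ X ^ (q + 1) * T ^ p) := by
              gcongr; exact ihp (q + 1)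
          _ = V ^ (p + 1) * T ^ (q + 1) ⊔ X ^ (q + 1) * (V * T ^ p) := by
              rw [Submodule.mul_sup]; congr 1 <;> ring
          _ ≤ V ^ (p + 1) * T ^ (q + 1) ⊔ X ^ (q + 1) * (T * T ^ p) := by gcongr
          _ = _ := by rw [← pow_succ']
      · calc X * T ^ (p + 1 + q) ≤ X * (V ^ (p + 1) * T ^ q ⊔ X ^ q * T ^ (p + 1)) := by
              gcongr
          _ = V ^ (p + 1) * (X * T ^ q) ⊔ X ^ (q + 1) * T ^ (p + 1) := by
              rw [Submodule.mul_sup]; congr 1 <;> ring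
          _ ≤ V ^ (p + 1) * (T * T ^ q) ⊔ X ^ (q + 1) * T ^ (p + 1) := by gcongr
          _ = _ := by rw [← pow_succ']

theorem pigeon {ι : Type} (u : ι → L) {k : ℕ} (hk : 0 < k) (s : Finset ι) :
    ∃ c : ℕ, span ℂ (u '' s) ^ (c + k) ≤
      span ℂ (Set.range fun i => u i ^ k) * span ℂ (u '' s) ^ c := by
  classical
  induction s using Finset.induction_on with
  | empty => exact ⟨0, by simp [Submodule.bot_pow hk.ne']⟩
  | insert a s _ ih =>
    obtain ⟨c, hc⟩ := ih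
    refine ⟨c + k, ?_⟩
    rw [Finset.coe_insert, Set.image_insert_eq, span_insert, sup_comm]
    set V := span ℂ (u '' s)
    set X := span ℂ {u a}
    set G := span ℂ (Set.range fun i => u i ^ k)
    have hX : X ^ k ≤ G := by
      rw [span_singleton_pow]
      exact span_mono (by rintro _ rfl; exact ⟨a, rfl⟩)
    refine (sup_pow_le V X (c + k) k).trans (sup_le ?_ ?_)
    · calc V ^ (c + k) * (V ⊔ X) ^ k ≤ G * V ^ c * (V ⊔ X) ^ k := by gcongr
        _ ≤ G * (V ⊔ X) ^ c * (V ⊔ X) ^ k := by gcongr; exact le_sup_left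
        _ = _ := by rw [mul_assoc, ← pow_add]
    · gcongr

theorem frac_of_gen {E : Submodule ℂ L} (h1 : (1 : L) ∈ E)
    (hgen : IntermediateField.adjoin ℂ (E : Set L) = ⊤) (x : L) :
    ∃ j : ℕ, ∃ q ∈ E ^ j, q ≠ 0 ∧ q * x ∈ E ^ j := by
  have hx : x ∈ IntermediateField.adjoin ℂ (E : Set L) := hgen ▸ IntermediateField.mem_top
  have h0 : (1 : L) ∈ E ^ 0 := by simp
  induction hx using IntermediateField.adjoin_induction with
  | mem x hx => exact ⟨1, 1, by simpa using h1, one_ne_zero, by simpa using hx⟩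
  | algebraMap r =>
    refine ⟨0, 1, h0, one_ne_zero, ?_⟩
    rw [one_mul, Algebra.algebraMap_eq_smul_one]; exact smul_mem _ _ h0
  | add x y _ _ hx hy =>
    obtain ⟨i, p, hp, hp0, hpx⟩ := hx
    obtain ⟨j, q, hq, hq0, hqy⟩ := hy
    refine ⟨i + j, p * q, by rw [pow_add]; exact mul_mem_mul hp hq, mul_ne_zero hp0 hq0, ?_⟩
    rw [pow_add, show p * q * (x + y) = p * x * q + p * (q * y) by ring]
    exact add_mem (mul_mem_mul hpx hq) (mul_mem_mul hp hqy)
  | inv x _ hx =>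
    obtain ⟨i, p, hp, hp0, hpx⟩ := hx
    by_cases h : x = 0
    · exact ⟨0, 1, h0, one_ne_zero, by simp [h]⟩
    · exact ⟨i, p * x, hpx, mul_ne_zero hp0 h, by rwa [mul_assoc, mul_inv_cancel₀ h, mul_one]⟩
  | mul x y _ _ hx hy =>
    obtain ⟨i, p, hp, hp0, hpx⟩ := hx
    obtain ⟨j, q, hq, hq0, hqy⟩ := hy
    refine ⟨i + j, p * q, by rw [pow_add]; exact mul_mem_mul hp hq, mul_ne_zero hp0 hq0, ?_⟩
    rw [pow_add, show p * q * (x * y) = p * x * (q * y) by ring]
    exact mul_mem_mul hpx hqy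

theorem denom {E : Submodule ℂ L} (h1 : (1 : L) ∈ E)
    (hgen : IntermediateField.adjoin ℂ (E : Set L) = ⊤) (W : Submodule ℂ L) (hW : W.FG) :
    ∃ j : ℕ, ∃ q ∈ E ^ j, q ≠ 0 ∧ span ℂ {q} * W ≤ E ^ j := by
  induction W, hW using Submodule.fg_induction with
  | singleton x =>
    obtain ⟨j, q, hq, hq0, hx⟩ := frac_of_gen h1 hgen x
    refine ⟨j, q, hq, hq0, ?_⟩
    rw [span_mul_span, Set.singleton_mul_singleton]
    exact (span_singleton_le_iff_mem _ _).2 hx
  | sup A B _ _ hA hB =>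
    obtain ⟨i, p, hp, hp0, hpA⟩ := hA
    obtain ⟨j, q, hq, hq0, hqB⟩ := hB
    have hp' : span ℂ {p} ≤ E ^ i := (span_singleton_le_iff_mem _ _).2 hp
    have hq' : span ℂ {q} ≤ E ^ j := (span_singleton_le_iff_mem _ _).2 hq
    refine ⟨i + j, p * q, by rw [pow_add]; exact mul_mem_mul hp hq, mul_ne_zero hp0 hq0, ?_⟩
    rw [← Set.singleton_mul_singleton, ← span_mul_span, Submodule.mul_sup, pow_add]
    refine sup_le ?_ ?_
    · calc span ℂ {p} * span ℂ {q} * A = span ℂ {p} * A * span ℂ {q} := by ring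
        _ ≤ _ := by gcongr
    · calc span ℂ {p} * span ℂ {q} * B = span ℂ {p} * (span ℂ {q} * B) := by ring
        _ ≤ _ := by gcongr

theorem finrank_le_of_mul {A B : Submodule ℂ L} [FiniteDimensional ℂ B] {q : L} (hq : q ≠ 0)
    (h : span ℂ {q} * A ≤ B) : finrank ℂ A ≤ finrank ℂ B := by
  let f : A →ₗ[ℂ] B := LinearMap.codRestrict B ((LinearMap.mulLeft ℂ q).domRestrict A)
    fun a => h (mul_mem_mul (mem_span_singleton_self q) a.2)
  refine LinearMap.finrank_le_finrank_of_injective (f := f) fun a b hab => ?_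
  have : q * (a : L) = q * b := congrArg Subtype.val hab
  exact Subtype.ext (mul_left_cancel₀ hq this)

theorem lead_le {e e' a k d c c' : ℕ} (ha : 0 < a)
    (h : ∀ m, c ≤ m → e * (a * m - c + d).choose d ≤ e' * (k * m + c' + d).choose d) :
    e * a ^ d ≤ e' * k ^ d := by
  have hlim : ∀ s t : ℝ, Tendsto (fun m : ℕ => s + t / (m : ℝ)) atTop (𝓝 s) := fun s t => by
    simpa using (tendsto_const_div_atTop_nhds_zero_nat t).const_add s
  have h1 : Tendsto (fun m : ℕ => (e : ℝ) * ((a : ℝ) + (-(c : ℝ)) / (m : ℝ)) ^ d) atTop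
      (𝓝 ((e : ℝ) * (a : ℝ) ^ d)) := ((hlim _ _).pow d).const_mul _
  have h2 : Tendsto (fun m : ℕ => (e' : ℝ) * ((k : ℝ) + ((c' + d : ℕ) : ℝ) / (m : ℝ)) ^ d) atTop
      (𝓝 ((e' : ℝ) * (k : ℝ) ^ d)) := ((hlim _ _).pow d).const_mul _
  have h3 : (e : ℝ) * (a : ℝ) ^ d ≤ (e' : ℝ) * (k : ℝ) ^ d := by
    refine le_of_tendsto_of_tendsto h1 h2 ?_
    filter_upwards [eventually_ge_atTop (c + 1)] with m hm
    have hm0 : (0 : ℝ) < m := by exact_mod_cast (by omega : 0 < m)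
    have hcm : c ≤ a * m := le_trans (by omega) (Nat.le_mul_of_pos_left m ha)
    have hA : (a * m - c) ^ d ≤ d.factorial * (a * m - c + d).choose d := by
      rw [← Nat.descFactorial_eq_factorial_mul_choose]
      refine le_trans (Nat.pow_le_pow_left (by omega) d) (Nat.pow_sub_le_descFactorial _ d)
    have hB : d.factorial * (k * m + c' + d).choose d ≤ (k * m + c' + d) ^ d := by
      rw [← Nat.descFactorial_eq_factorial_mul_choose]
      exact Nat.descFactorial_le_pow _ d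
    have hC : e * (a * m - c) ^ d ≤ e' * (k * m + c' + d) ^ d :=
      calc e * (a * m - c) ^ d ≤ e * (d.factorial * (a * m - c + d).choose d) := by gcongr
        _ = d.factorial * (e * (a * m - c + d).choose d) := by ring
        _ ≤ d.factorial * (e' * (k * m + c' + d).choose d) := Nat.mul_le_mul_left _ (h m (by omega))
        _ = e' * (d.factorial * (k * m + c' + d).choose d) := by ring
        _ ≤ _ := by gcongr
    have hR : (e : ℝ) * ((a : ℝ) * m - c) ^ d ≤ (e' : ℝ) * ((k : ℝ) * m + c' + d) ^ d := by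
      exact_mod_cast hC
    have e1 : (a : ℝ) + (-(c : ℝ)) / (m : ℝ) = ((a : ℝ) * m - c) / m := by field_simp; ring
    have e2 : (k : ℝ) + ((c' + d : ℕ) : ℝ) / (m : ℝ) = ((k : ℝ) * m + c' + d) / m := by
      push_cast; field_simp; ring
    rw [e1, e2, div_pow, div_pow, ← mul_div_assoc, ← mul_div_assoc]
    gcongr
  exact_mod_cast h3

section
variable (E : Submodule ℂ L) [FiniteDimensional ℂ E] {k b : ℕ} {γ : L} {ι : Type} [Finite ι]
  (u : ι → L)

theorem fd_pow (j : ℕ) : FiniteDimensional ℂ ↥(E ^ j) :=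
  Module.Finite.iff_fg.2 ((Module.Finite.iff_fg.1 inferInstance).pow j)

theorem fd_B : FiniteDimensional ℂ ↥(span ℂ (Set.range u) * E) :=
  Module.Finite.iff_fg.2 ((fg_span (Set.finite_range u)).mul (Module.Finite.iff_fg.1 inferInstance))

theorem cmp_up (h1 : (1 : L) ∈ E) (hgen : IntermediateField.adjoin ℂ (E : Set L) = ⊤)
    (hk : 0 < k) (hγ : γ ≠ 0) (hu1 : ∃ l, u l = 1) (hu : ∀ i, γ * u i ^ k ∈ E ^ b) :
    ∃ c : ℕ, ∀ m : ℕ, finrank ℂ ↥((span ℂ (Set.range u) * E) ^ (k * m)) ≤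
      finrank ℂ ↥(E ^ ((b + k) * m + c)) := by
  have := Fintype.ofFinite ι
  obtain ⟨c0, hc0⟩ := pigeon u hk Finset.univ
  rw [Finset.coe_univ, Set.image_univ] at hc0
  set U := span ℂ (Set.range u) with hU
  set G := span ℂ (Set.range fun i => u i ^ k) with hG
  have hU1 : (1 : L) ∈ U := by obtain ⟨l, hl⟩ := hu1; exact subset_span ⟨l, hl⟩
  obtain ⟨c1, q, -, hq0, hq⟩ := denom h1 hgen (U ^ c0) ((fg_span (Set.finite_range u)).pow c0)
  have hGE : span ℂ {γ} * G ≤ E ^ b := by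
    rw [hG, span_mul_span]
    refine span_le.2 ?_
    rintro _ ⟨x, rfl, _, ⟨i, rfl⟩, rfl⟩
    exact hu i
  refine ⟨c1, fun m => ?_⟩
  have := fd_pow E ((b + k) * m + c1)
  refine finrank_le_of_mul (q := q * γ ^ m) (mul_ne_zero hq0 (pow_ne_zero _ hγ)) ?_
  rw [← Set.singleton_mul_singleton, ← span_mul_span, ← span_singleton_pow, mul_pow]
  calc span ℂ {q} * span ℂ {γ} ^ m * (U ^ (k * m) * E ^ (k * m))
      ≤ span ℂ {q} * span ℂ {γ} ^ m * (G ^ m * U ^ c0 * E ^ (k * m)) := by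
        gcongr
        exact (pow_mono hU1 (by omega)).trans (pow_le_of_red hc0 m)
    _ = (span ℂ {γ} * G) ^ m * E ^ (k * m) * (span ℂ {q} * U ^ c0) := by rw [mul_pow]; ring
    _ ≤ (E ^ b) ^ m * E ^ (k * m) * E ^ c1 := by gcongr
    _ = _ := by rw [← pow_mul, ← pow_add, ← pow_add, add_mul]

theorem cmp_down (h1 : (1 : L) ∈ E) (hγ : γ ≠ 0) (hu1 : ∃ l, u l = 1) {M : ℕ}
    (hM : E ^ (M + b) ≤ span ℂ (Set.range fun i => γ * u i ^ k) * E ^ M) (m : ℕ) :
    finrank ℂ ↥(E ^ ((b + k) * m)) ≤ finrank ℂ ↥((span ℂ (Set.range u) * E) ^ (k * m + M)) := by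
  set U := span ℂ (Set.range u) with hU
  have hU1 : (1 : Submodule ℂ L) ≤ U := by
    obtain ⟨l, hl⟩ := hu1; exact one_le.2 (subset_span ⟨l, hl⟩)
  have hEB : E ≤ U * E := by
    calc E = 1 * E := (one_mul _).symm
      _ ≤ _ := by gcongr
  have hG : span ℂ {γ⁻¹} * span ℂ (Set.range fun i => γ * u i ^ k) ≤ U ^ k := by
    rw [span_mul_span]
    refine span_le.2 ?_
    rintro _ ⟨x, rfl, _, ⟨i, rfl⟩, rfl⟩
    simpa [← mul_assoc, inv_mul_cancel₀ hγ] using pow_mem_pow U (subset_span ⟨i, rfl⟩) k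
  have := fd_B E u
  have := fd_pow (U * E) (k * m + M)
  refine finrank_le_of_mul (q := γ⁻¹ ^ m) (pow_ne_zero _ (inv_ne_zero hγ)) ?_
  rw [← span_singleton_pow]
  calc span ℂ {γ⁻¹} ^ m * E ^ ((b + k) * m) = span ℂ {γ⁻¹} ^ m * (E ^ (b * m) * E ^ (k * m)) := by
        rw [← pow_add, add_mul]
    _ ≤ span ℂ {γ⁻¹} ^ m *
        (span ℂ (Set.range fun i => γ * u i ^ k) ^ m * E ^ M * E ^ (k * m)) := by
        gcongr
        exact (pow_mono h1 (by omega)).trans (pow_le_of_red hM m)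
    _ = (span ℂ {γ⁻¹} * span ℂ (Set.range fun i => γ * u i ^ k)) ^ m * E ^ (k * m) * E ^ M := by
        rw [mul_pow]; ring
    _ ≤ (U ^ k) ^ m * E ^ (k * m) * (U * E) ^ M := by gcongr
    _ = _ := by rw [← pow_mul, ← mul_pow, ← pow_add]

end

end Pool.Agent.Lib.MP_9ff3e7_ag.F.X2
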