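import Pool.Agent.Lib.MP_9ff3e7_ag.F.Div
import Pool.Agent.Lib.MP_9ff3e7_ag.F.Chain

/-! The uniform lower bound and the upper bound for the Hilbert function. -/

set_option autoImplicit false

namespace Pool.Agent.Lib.MP_9ff3e7_ag.F.X2

open Module Submodule

variable {L : Type} [Field L] [Algebra ℂ L]

theorem hilb' (E : Submodule ℂ L) [FiniteDimensional ℂ E] (h1 : (1 : L) ∈ E)
    (hgen : IntermediateField.adjoin ℂ (E : Set L) = ⊤) {d : ℕ} (hd : Algebra.trdeg ℂ L = d) :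
    ∃ e c : ℕ, 0 < e ∧
      (∀ a ≤ e, ∀ j ≥ a, a * (j - a + d).choose d ≤ finrank ℂ (E ^ j : Submodule ℂ L)) ∧
      ∀ t, finrank ℂ (E ^ t : Submodule ℂ L) ≤ e * (t + c + d).choose d := by
  obtain ⟨d', M, y, hy, hind, hred⟩ := exists_red E h1
  obtain ⟨h, e, c, hlow, hup⟩ := hilb E h1 hgen y hy hind hred
  obtain rfl : d = d' := by exact_mod_cast hd.symm.trans h
  refine ⟨e, c, Nat.pos_of_ne_zero ?_, hlow, hup⟩
  rintro rfl
  have := fd_pow E 0
  have h0 : (E ^ 0 : Submodule ℂ L) = ⊥ := Submodule.finrank_eq_zero.1 (by simpa using hup 0)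
  have h2 : (1 : L) ∈ (E ^ 0 : Submodule ℂ L) := by simp
  rw [h0] at h2
  simp at h2

/-- (U) -/
theorem up (E : Submodule ℂ L) [FiniteDimensional ℂ E] (h1 : (1 : L) ∈ E)
    (hgen : IntermediateField.adjoin ℂ (E : Set L) = ⊤) {d : ℕ} (hd : Algebra.trdeg ℂ L = d) :
    ∃ C : ℕ, ∀ j : ℕ, finrank ℂ (E ^ j : Submodule ℂ L) ≤ C * (j + 1) ^ d := by
  obtain ⟨e, c, -, -, hup⟩ := hilb' E h1 hgen hd
  refine ⟨e * (c + d + 1) ^ d, fun j => (hup j).trans ?_⟩
  rw [mul_assoc, ← mul_pow]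
  gcongr
  refine (Nat.choose_le_pow _ _).trans (Nat.pow_le_pow_left ?_ d)
  nlinarith

/-- (L): a `k`-th root of the polarisation forces `k ^ d ≤` degree. -/
theorem low (E : Submodule ℂ L) [FiniteDimensional ℂ E] (h1 : (1 : L) ∈ E)
    (hgen : IntermediateField.adjoin ℂ (E : Set L) = ⊤)
    {k b : ℕ} (hk : 0 < k) (hkb : Nat.Coprime k b) {γ : L} (hγ : γ ≠ 0)
    {ι : Type} [Finite ι] (u : ι → L) (hu1 : ∃ l, u l = 1) (hu : ∀ i, γ * u i ^ k ∈ E ^ b)
    (hM : ∃ M : ℕ, E ^ (M + b) ≤ span ℂ (Set.range fun i => γ * u i ^ k) * E ^ M)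
    {d : ℕ} (hd : Algebra.trdeg ℂ L = d) (j : ℕ) (hj : k ^ d ≤ j) :
    k ^ d * (j - k ^ d + d).choose d ≤ finrank ℂ (E ^ j : Submodule ℂ L) := by
  obtain ⟨M, hM⟩ := hM
  obtain ⟨e, c, he, hlow, hup⟩ := hilb' E h1 hgen hd
  have := fd_B E u
  set B := span ℂ (Set.range u) * E with hB
  have hU1 : (1 : L) ∈ span ℂ (Set.range u) := by
    obtain ⟨l, hl⟩ := hu1; exact subset_span ⟨l, hl⟩
  have hEB : E ≤ B := fun x hx => by simpa using mul_mem_mul hU1 hx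
  have hgenB : IntermediateField.adjoin ℂ (B : Set L) = ⊤ :=
    top_le_iff.1 (hgen ▸ IntermediateField.adjoin.mono _ _ _ hEB)
  obtain ⟨e', c', -, hlow', hup'⟩ := hilb' B (hEB h1) hgenB hd
  obtain ⟨c1, hc1⟩ := cmp_up E u h1 hgen hk hγ hu1 hu
  have ha : 0 < b + k := by omega
  have i1 : e * (b + k) ^ d ≤ e' * k ^ d := by
    refine lead_le (c := e) (c' := M + c') ha fun m hm => ?_
    refine (hlow e le_rfl _ (hm.trans (Nat.le_mul_of_pos_left m ha))).trans ?_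
    refine (cmp_down E u h1 hγ hu1 hM m).trans ?_
    simpa [add_assoc] using hup' (k * m + M)
  have i2 : e' * k ^ d ≤ e * (b + k) ^ d := by
    refine lead_le (c := e') (c' := c1 + c) hk fun m hm => ?_
    refine (hlow' e' le_rfl _ (hm.trans (Nat.le_mul_of_pos_left m hk))).trans ?_
    refine (hc1 m).trans ?_
    simpa [add_assoc] using hup ((b + k) * m + c1)
  have hco : Nat.Coprime (k ^ d) ((b + k) ^ d) :=
    Nat.Coprime.pow d d ((Nat.coprime_add_self_right).2 hkb)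
  have hdvd : k ^ d ∣ e := hco.dvd_of_dvd_mul_right ⟨e', by rw [le_antisymm i1 i2, mul_comm]⟩
  exact hlow _ (Nat.le_of_dvd he hdvd) j hj

end Pool.Agent.Lib.MP_9ff3e7_ag.F.X2
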