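import Pool.Agent.Lib.MP_9ff3e7_ag.F.KAx
import Pool.Agent.Lib.MP_9ff3e7_ag.F.Brk

/-! The state of the induction: series, partial flags, separating functionals. -/

set_option autoImplicit false

namespace Pool.Agent.Lib.MP_9ff3e7_ag.F

open Module Finset Finsupp

noncomputable section

section free

variable {O : Type} [CommRing O] [Algebra ℂ O]

/-- a complete flag from `V` down to `C` in `N` steps -/
structure IsFlag (V C : Submodule ℂ O) (N : ℕ) (F : ℕ → Submodule ℂ O) : Prop where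
  top : F 0 = V
  bot : F N = C
  anti : ∀ r r', r ≤ r' → r' ≤ N → F r' ≤ F r
  dim : ∀ r ≤ N, finrank ℂ (F r) + r = finrank ℂ V

/-- the pair of a tuple of flags -/
def Phi (L : ℕ) (N : ℕ → ℕ) (F : ℕ → ℕ → Submodule ℂ O) (c : ℕ → ℝ) : Ideal O →₀ ℝ :=
  ∑ i ∈ range L, ∑ r ∈ range (N i), single (Ideal.span (F i r : Set O)) (c i)

variable (O) in
/-- the data of a state, without the coefficients `c` and the small numbers `eps` -/
structure Dat where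
  P : ℕ → Ideal O
  k : ℕ → ℕ
  N : ℕ → ℕ
  Br : ℕ → Set ℕ
  F0 : ℕ → ℕ → Submodule ℂ O
  a : ℕ → ℕ → ℕ → ℝ
  g : ℕ → ℝ

/-- the partial flags -/
def Dat.Gs (S : Dat O) (i r : ℕ) : Submodule ℂ O := S.F0 i (pb (S.Br i) r)

/-- the ideals of the partial flags -/
def Dat.G (S : Dat O) (i r : ℕ) : Ideal O := Ideal.span (S.Gs i r : Set O)

/-- the next break -/
def Dat.nb (S : Dat O) (i r : ℕ) : ℕ := F.nb (S.Br i) r

/-- the value of the `m`-th functional -/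
def Dat.val (S : Dat O) (c : ℕ → ℝ) (m : ℕ) : ℝ :=
  ∑ i ∈ range m, c i * ∑ r ∈ range (S.N i), S.a m i r

end free

/-- the fixed small number -/
def del (n : ℕ) : ℝ := 1 / (100 * (n + 1))

/-- the threshold for tiny series -/
def dlt (n kap i : ℕ) : ℝ := del n / (2 ^ i * kap)

/-- `k0` is a good degree for the Hilbert function `H` -/
def Gd (n kap : ℕ) (H : ℕ → ℕ) (k0 : ℕ) : Prop :=
  ∀ d : ℕ, 1 ≤ d → d ≤ n → ∀ (ι : Type) (Q : Finset ι) (S : ι → ℕ → Finset (Fin d →₀ ℕ))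
    (Gm : ℕ → Finset (Fin d →₀ ℕ)), (∀ k ≤ k0, ∑ q ∈ Q, (S q k).card = H k) →
    (∀ q ∈ Q, ∀ k j, k + j ≤ k0 → ∀ a ∈ S q k, ∀ b ∈ Gm j, a + b ∈ S q (k + j)) →
    (∀ j, kap ^ d ≤ j → kap ^ d * (j - kap ^ d + d).choose d ≤ (Gm j).card) →
    (∀ e : Fin d →₀ ℕ, (∀ i, e i ≤ 1) → e ∈ Gm d) →
    (d : ℝ) * kap * (k0 * H k0 - ∑ k ∈ range k0, (H k : ℝ)) ≤
      (n + 1 / 4) * ∑ q ∈ Q, ∑ a ∈ S q k0, (a.degree : ℝ)

variable {n : ℕ} {O : Type} [CommRing O] [Algebra ℂ O] [Algebra (MvPolynomial (Fin n) ℂ) O]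

/-- the end of the `i`-th flag -/
def Dat.cap (S : Dat O) (T : Filt n O) (i : ℕ) : Submodule ℂ O :=
  T.F (S.k i) ⊓ (S.P i).restrictScalars ℂ

/-- the family of complete flags refining the partial flags of the series `i < L` -/
def Dat.Fam (S : Dat O) (T : Filt n O) (L : ℕ) (F : ℕ → ℕ → Submodule ℂ O) : Prop :=
  ∀ i < L, IsFlag (T.F (S.k i)) (S.cap T i) (S.N i) (F i) ∧ ∀ r ∈ S.Br i, F i r = S.F0 i r

/-- the sum of the degrees of a degree compatible basis -/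
def Dat.Deg (S : Dat O) (T : Filt n O) (i : ℕ) : ℝ :=
  S.k i * S.N i - ∑ t ∈ range (S.k i), (Hf T.F (S.P i) t : ℝ)

/-- (I1), for `ρ < 1` -/
def I1 (M : Model n O) (T : Filt n O) (x : Pnt O) (S : Dat O) (L : ℕ) (c : ℕ → ℝ) : Prop :=
  ∀ ρ : ℝ, 0 < ρ → ρ < 1 → ∀ F, S.Fam T L F → M.Klt x (Phi L S.N F fun i => ρ * c i)

/-- (I6) -/
def I6 (T : Filt n O) (S : Dat O) (L : ℕ) (c : ℕ → ℝ) : Prop :=
  (1 - del n) * T.kap * ∑ i ∈ (range L).filter (fun i => dlt n T.kap i ≤ c i * (S.k i * S.N i)),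
    c i * S.Deg T i ≤ n + 1 / 4

/-- the series `i < L` -/
structure Ser (T : Filt n O) (S : Dat O) (L : ℕ) : Prop where
  hN : ∀ i < L, S.N i = Hf T.F (S.P i) (S.k i)
  Npos : ∀ i < L, 0 < S.N i
  flag : ∀ i < L, IsFlag (T.F (S.k i)) (S.cap T i) (S.N i) (S.F0 i)
  br0 : ∀ i < L, 0 ∈ S.Br i
  brN : ∀ i < L, S.N i ∈ S.Br i
  brle : ∀ i < L, ∀ r ∈ S.Br i, r ≤ S.N i
  good : ∀ i < L, Gd n T.kap (Hf T.F (S.P i)) (S.k i)

/-- the part of the invariant that does not depend on `c` and `eps`: (I2), (I3) -/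
structure Shp (M : Model n O) (T : Filt n O) (x : Pnt O) (S : Dat O) (j L : ℕ) : Prop
    extends Ser T S L where
  jL : j ≤ L
  Lj : L ≤ j + 1
  P0 : S.P 0 = ⊥
  prime : (S.P j).IsPrime
  Px : ∀ s ∈ S.P j, x s = 0
  g0 : ∀ m, 1 ≤ m → m ≤ j → 0 < S.g m
  a0 : ∀ m, 1 ≤ m → m ≤ j → ∀ i < m, ∀ r ≤ S.N i, 0 ≤ S.a m i r
  I2a : ∀ m, 1 ≤ m → m ≤ j → ∀ i < m, ∀ r r', r ≤ r' → r' ≤ S.N i → S.a m i r ≤ S.a m i r'
  I2b : ∀ i < L, ∀ r ∈ S.Br i, 0 < r → r < S.N i →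
    ∃ m, i < m ∧ m ≤ j ∧ S.a m i (r - 1) + S.g m ≤ S.a m i r
  I3 : ∀ y : Pnt O, (∀ s ∈ S.P j, y s = 0) → I3At (M.Klt y) j S.N S.P S.G S.a S.g

/-- the invariant after the choice of `eps j`; `L = j` at the end, `L = j + 1` inside a step -/
structure Inv (M : Model n O) (T : Filt n O) (x : Pnt O) (S : Dat O) (c eps : ℕ → ℝ)
    (j L : ℕ) : Prop extends Shp M T x S j L where
  c0 : ∀ i < L, 0 ≤ c i
  e0 : ∀ m, 1 ≤ m → m ≤ j → 0 < eps m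
  I4 : ∀ m, 1 ≤ m → m ≤ j → 1 - 2 * eps m ≤ S.val c m
  I5 : ∀ m, 1 ≤ m → m ≤ j → ∀ i < L, i ≤ m →
    4 * (3 * eps m / S.g m) * (S.k i * S.N i) ≤ del n * dlt n T.kap i
  i1 : I1 M T x S L c

/-- the invariant of the induction, before the choice of `eps j` -/
structure State (M : Model n O) (T : Filt n O) (x : Pnt O) (S : Dat O) (c eps : ℕ → ℝ)
    (j : ℕ) : Prop extends Shp M T x S j j where
  c0 : ∀ i < j, 0 ≤ c i
  e0 : ∀ m, 1 ≤ m → m < j → 0 < eps m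
  I4 : ∀ m, 1 ≤ m → m < j → 1 - 2 * eps m < S.val c m
  I4j : 1 ≤ j → 1 ≤ S.val c j
  I5 : ∀ m, 1 ≤ m → m < j → ∀ i ≤ m,
    4 * (3 * eps m / S.g m) * (S.k i * S.N i) ≤ del n * dlt n T.kap i
  i1 : I1 M T x S j c
  i6 : I6 T S j c

theorem del_pos (n : ℕ) : 0 < del n := by unfold del; positivity

theorem del_le (n : ℕ) : del n ≤ 1 / 100 := by
  unfold del
  refine one_div_le_one_div_of_le (by norm_num) ?_
  have : (0 : ℝ) ≤ n := Nat.cast_nonneg n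
  linarith

theorem dlt_pos (n : ℕ) {kap : ℕ} (h : 1 ≤ kap) (i : ℕ) : 0 < dlt n kap i := by
  have := del_pos n
  unfold dlt
  positivity

theorem Ser.fam {T : Filt n O} {S : Dat O} {L : ℕ} (h : Ser T S L) : S.Fam T L S.F0 :=
  fun i hi => ⟨h.flag i hi, fun _ _ => rfl⟩

theorem Ser.Gs_N {T : Filt n O} {S : Dat O} {L : ℕ} (h : Ser T S L) {i : ℕ} (hi : i < L) :
    S.Gs i (S.N i) = S.cap T i := by
  rw [Dat.Gs, pb_eq_self (h.brN i hi), (h.flag i hi).bot]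

theorem Inv.num {M : Model n O} {T : Filt n O} {x : Pnt O} {S : Dat O} {c eps : ℕ → ℝ} {j L : ℕ}
    (h : Inv M T x S c eps j L) : Num j L S.N c S.P S.G S.nb S.a S.g eps where
  jL := h.jL
  Lj := h.Lj
  c0 := h.c0
  P0 := h.P0
  cap i hi := by
    rw [Dat.G, h.Gs_N hi]
    exact Ideal.span_le.mpr fun f hf => hf.2
  nb1 i hi r hr := lt_nb (h.brN i hi) hr
  nb2 i hi r hr := nb_le (h.brN i hi) hr
  g0 := h.g0
  e0 := h.e0
  a0 := h.a0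
  I2a := h.I2a
  I2b i hi r hr h2 := h.I2b i hi _ (nb_mem (h.brN i hi) hr)
    (lt_of_le_of_lt (Nat.zero_le r) (lt_nb (h.brN i hi) hr)) h2
  I4 := h.I4

end

end Pool.Agent.Lib.MP_9ff3e7_ag.F
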