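import Pool.Agent.Lib.MP_9ff3e7_ag.F.EndMod
import Pool.Agent.Lib.MP_9ff3e7_ag.F.StDefs

/-! The last stage of the core argument, the initial state and the induction. -/

set_option autoImplicit false

namespace Pool.Agent.Lib.MP_9ff3e7_ag.F

open Module Finset Finsupp Filter

theorem del_mul_le (n : ℕ) : del n * (8 * n + 24) ≤ 1 := by
  unfold del
  have : (0 : ℝ) ≤ n := Nat.cast_nonneg n
  rw [one_div, inv_mul_le_iff₀ (by positivity)]
  linarith

theorem sum_dlt_le (n : ℕ) {kap : ℕ} (h : 1 ≤ kap) (j : ℕ) :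
    (kap : ℝ) * ∑ i ∈ range j, dlt n kap i ≤ 2 * del n := by
  have hκ : (0 : ℝ) < kap := by exact_mod_cast h
  have e : (kap : ℝ) * ∑ i ∈ range j, dlt n kap i = del n * ∑ i ∈ range j, (1 / 2 : ℝ) ^ i := by
    rw [Finset.mul_sum, Finset.mul_sum]
    refine sum_congr rfl fun i _ => ?_
    unfold dlt
    rw [one_div, inv_pow]
    field_simp
  rw [e, mul_comm]
  exact mul_le_mul_of_nonneg_right (geom_half_le j) (del_pos n).le

variable {n : ℕ} {O : Type} [CommRing O] [Algebra ℂ O] [Algebra (MvPolynomial (Fin n) ℂ) O]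
  {M : Model n O} {T : Filt n O} {x : Pnt O} {S : Dat O} {c eps : ℕ → ℝ} {j : ℕ}

theorem end_shp (hK : KAx0 M) (h : Shp M T x S j j) (hP : ∀ s, x s = 0 → s ∈ S.P j)
    (c0 : ∀ i < j, 0 ≤ c i) (e0 : ∀ m, 1 ≤ m → m < j → 0 < eps m)
    (I4 : ∀ m, 1 ≤ m → m < j → 1 - 2 * eps m ≤ S.val c m) (I4j : 1 ≤ j → 1 ≤ S.val c j)
    (I5 : ∀ m, 1 ≤ m → m < j → ∀ i ≤ m,
      4 * (3 * eps m / S.g m) * (S.k i * S.N i) ≤ del n * dlt n T.kap i)
    (i1 : I1 M T x S j c) (i6 : I6 T S j c) : CoreConcl M T x :=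
  end_model hK T x (k := S.k) (N := S.N) (c := c) (P := S.P) (F0 := S.F0) (Br := S.Br) (a := S.a)
    (g := S.g) (eps := eps) (dl := dlt n T.kap) (δ := del n)
    (le_antisymm (fun s hs => h.Px s hs) fun s hs => hP s hs) h.P0 h.hN h.br0 h.brN
    (fun i hi => (h.flag i hi).top) (fun i hi => (h.flag i hi).bot)
    (fun i hi => (h.flag i hi).anti) (fun i hi => (h.flag i hi).dim) c0 h.g0 e0 h.a0 h.I2a
    (fun i hi _ hr h2 => h.I2b i hi _ (nb_mem (h.brN i hi) hr)
      (lt_of_le_of_lt (Nat.zero_le _) (lt_nb (h.brN i hi) hr)) h2)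
    I4 I4j (h.I3 x h.Px)
    (fun ρ r0 r1 F hF => i1 ρ r0 r1 F fun i hi => by
      obtain ⟨f1, f2, f3, f4, f5⟩ := hF i hi
      exact ⟨⟨f1, f2 _ le_rfl, fun r r' h1 _ => f3 h1, f4⟩,
        fun r hr => f5 r hr (h.brle i hi r hr)⟩)
    (del_pos n) (del_mul_le n) (fun i _ => dlt_pos n T.kap1 i) (sum_dlt_le n T.kap1 j) I5 i6

/-- END: the centre is the point itself -/
theorem end_state (hK : KAx0 M) (h : State M T x S c eps j) (hP : ∀ s, x s = 0 → s ∈ S.P j) :
    CoreConcl M T x :=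
  end_shp hK h.toShp hP h.c0 h.e0 (fun m h1 h2 => (h.I4 m h1 h2).le) h.I4j h.I5 h.i1 h.i6

/-- the initial state -/
theorem state_zero [IsDomain O] (hK : KAx0 M) (T : Filt n O) (x : Pnt O) :
    State M T x ⟨fun _ => ⊥, fun _ => 0, fun _ => 0, fun _ => ∅, fun _ _ => ⊥, fun _ _ _ => 0,
      fun _ => 0⟩ (fun _ => 0) (fun _ => 0) 0 where
  hN i hi := absurd hi (Nat.not_lt_zero i)
  Npos i hi := absurd hi (Nat.not_lt_zero i)
  flag i hi := absurd hi (Nat.not_lt_zero i)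
  br0 i hi := absurd hi (Nat.not_lt_zero i)
  brN i hi := absurd hi (Nat.not_lt_zero i)
  brle i hi := absurd hi (Nat.not_lt_zero i)
  good i hi := absurd hi (Nat.not_lt_zero i)
  jL := le_rfl
  Lj := Nat.zero_le _
  P0 := rfl
  prime := Ideal.isPrime_bot
  Px s hs := by rw [Ideal.mem_bot.1 hs, map_zero]
  g0 m h1 h2 := by omega
  a0 m h1 h2 := by omega
  I2a m h1 h2 := by omega
  I2b i hi := absurd hi (Nat.not_lt_zero i)
  I3 y _ m h1 h2 := by omega
  c0 i hi := absurd hi (Nat.not_lt_zero i)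
  e0 m h1 h2 := by omega
  I4 m h1 h2 := by omega
  I4j h := by omega
  I5 m h1 h2 := by omega
  i1 ρ _ _ F _ := by simpa [Phi] using hK.zero x
  i6 := by
    have : (0 : ℝ) ≤ n := Nat.cast_nonneg n
    simp only [I6, range_zero, filter_empty, sum_empty, mul_zero]
    linarith

/-- the induction: the chain of centres stops -/
theorem core_of_step [IsDomain O] (hK : KAx0 M) (T : Filt n O) (x : Pnt O)
    (step : ∀ (S : Dat O) (c eps : ℕ → ℝ) (j : ℕ), State M T x S c eps j →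
      (∃ s, x s = 0 ∧ s ∉ S.P j) →
      ∃ S' c' eps', State M T x S' c' eps' (j + 1) ∧ S.P j < S'.P (j + 1)) :
    CoreConcl M T x := by
  have := hK.ft
  have : IsNoetherianRing O := Algebra.FiniteType.isNoetherianRing ℂ O
  have key : ∀ Q : Ideal O, ∀ (S : Dat O) (c eps : ℕ → ℝ) (j : ℕ), State M T x S c eps j →
      S.P j = Q → CoreConcl M T x := by
    intro Q
    induction Q using (wellFounded_gt (α := Ideal O)).induction with
    | _ Q ih =>
      intro S c eps j h hQ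
      by_cases hP : ∃ s, x s = 0 ∧ s ∉ S.P j
      · obtain ⟨S', c', eps', h', hlt⟩ := step S c eps j h hP
        exact ih _ (hQ ▸ hlt) S' c' eps' (j + 1) h' rfl
      · exact end_state hK h fun s hs => by_contra fun h' => hP ⟨s, hs, h'⟩
  exact key _ _ _ _ 0 (state_zero hK T x) rfl

end Pool.Agent.Lib.MP_9ff3e7_ag.F
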