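import Mathlib

/-! The affine étale model, its points and sheets, pairs and their integrability, filtrations. -/

set_option autoImplicit false
set_option linter.dupNamespace false

namespace Pool.Agent.Lib.MP_9ff3e7_ag.F

open Filter Topology MeasureTheory

noncomputable section

/-- the complex points of a `ℂ`-algebra -/
abbrev Pnt (O : Type) [CommRing O] [Algebra ℂ O] : Type := O →ₐ[ℂ] ℂ

section free

variable {O : Type} [CommRing O] [Algebra ℂ O]

/-- neighbourhoods of a point for pointwise convergence -/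
def nhd (p : Pnt O) : Filter (Pnt O) := comap (fun y : Pnt O => (y : O → ℂ)) (𝓝 (p : O → ℂ))

/-- `a ≤ b` in the local ring at `p` -/
def LeAt (p : Pnt O) (a b : Ideal O) : Prop := ∃ h : O, p h ≠ 0 ∧ ∀ s ∈ a, h * s ∈ b

open Classical in
/-- chosen generators of an ideal -/
def gens (a : Ideal O) : Finset O := if h : a.FG then h.choose else ∅

/-- `|a|²` at the point `y` -/
def nsqI (a : Ideal O) (y : Pnt O) : ℝ := ∑ g ∈ gens a, ‖y g‖ ^ 2

/-- the density `∏ |a|^(-2 D a)` of a pair -/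
def dens (D : Ideal O →₀ ℝ) (y : Pnt O) : ENNReal :=
  D.prod fun a c => ENNReal.ofReal (nsqI a y) ^ (-c)

/-- the Hilbert function of a filtration modulo an ideal -/
def Hf (F : ℕ → Submodule ℂ O) (P : Ideal O) (j : ℕ) : ℕ :=
  Module.finrank ℂ ((F j).map (Ideal.Quotient.mkₐ ℂ P).toLinearMap)

omit [Algebra ℂ O] in
theorem span_gens {a : Ideal O} (h : a.FG) : Ideal.span (gens a : Set O) = a := by
  rw [gens, dif_pos h]; exact h.choose_spec

theorem nsqI_nonneg (a : Ideal O) (y : Pnt O) : 0 ≤ nsqI a y :=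
  Finset.sum_nonneg fun _ _ => by positivity

end free

variable {n : ℕ} {O : Type} [CommRing O] [Algebra ℂ O] [Algebra (MvPolynomial (Fin n) ℂ) O]

variable (n O) in
/-- the coordinate functions -/
def zc (i : Fin n) : O := algebraMap (MvPolynomial (Fin n) ℂ) O (MvPolynomial.X i)

variable (n) in
/-- the coordinates of a point -/
def zz (p : Pnt O) : Fin n → ℂ := fun i => p (zc n O i)

variable (n) in
/-- the ideal generated by the `z i - z i (p)`, `i ∈ J` -/
def mzJ (p : Pnt O) (J : Finset (Fin n)) : Ideal O :=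
  Ideal.span ((fun i => zc n O i - algebraMap ℂ O (p (zc n O i))) '' (J : Set (Fin n)))

variable (n) in
/-- the ideal generated by all `z i - z i (p)` -/
def mz (p : Pnt O) : Ideal O := mzJ n p Finset.univ

variable (n O) in
/-- a standard étale presentation over `ℂ[z]` together with local analytic sections of `z` -/
structure Model where
  E : StandardEtalePresentation (MvPolynomial (Fin n) ℂ) O
  sg : Pnt O → (Fin n → ℂ) → Pnt O
  base : ∀ p, sg p (zz n p) = p
  sec : ∀ p, ∀ᶠ w in 𝓝 (zz n p), zz n (sg p w) = w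
  an : ∀ p, ∀ᶠ w in 𝓝 (zz n p), ∀ f : O, AnalyticAt ℂ (fun w' => sg p w' f) w
  comp : ∀ p, ∀ᶠ w in 𝓝 (zz n p), sg (sg p w) =ᶠ[𝓝 w] sg p
  opn : ∀ p, ∀ᶠ y in nhd p, sg p (zz n y) = y

namespace Model

variable (M : Model n O)

/-- the density of `D` is integrable near `p` -/
def Klt (p : Pnt O) (D : Ideal O →₀ ℝ) : Prop :=
  ∃ U ∈ 𝓝 (zz n p), ∫⁻ w in U, dens D (M.sg p w) < ⊤

/-- `|f|²` times the density of `D` is integrable near `p` -/
def KltN (p : Pnt O) (f : O) (D : Ideal O →₀ ℝ) : Prop :=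
  ∃ U ∈ 𝓝 (zz n p), ∫⁻ w in U, ENNReal.ofReal (‖M.sg p w f‖ ^ 2) * dens D (M.sg p w) < ⊤

theorem kltN_one (p : Pnt O) (D : Ideal O →₀ ℝ) : M.KltN p 1 D ↔ M.Klt p D := by
  simp [KltN, Klt]

end Model

variable (n O) in
/-- a multiplicative filtration by finite dimensional subspaces, with Hilbert function bounds -/
structure Filt where
  F : ℕ → Submodule ℂ O
  fd : ∀ j, FiniteDimensional ℂ (F j)
  mono : Monotone F
  one : (1 : O) ∈ F 0
  z1 : ∀ i, zc n O i ∈ F 1
  mul : ∀ i j a b, a ∈ F i → b ∈ F j → a * b ∈ F (i + j)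
  exh : ∀ f : O, ∃ (u : O) (m : ℕ), IsUnit u ∧ u ∈ F m ∧ u * f ∈ F m
  kap : ℕ
  kap1 : 1 ≤ kap
  up : ∃ C : ℕ, ∀ j, Module.finrank ℂ (F j) ≤ C * (j + 1) ^ n
  low : ∀ (P : Ideal O), P.IsPrime → ∀ d : ℕ, Algebra.trdeg ℂ (O ⧸ P) = d → 1 ≤ d →
    ∀ j, kap ^ d ≤ j → kap ^ d * (j - kap ^ d + d).choose d ≤ Hf F P j

end

end Pool.Agent.Lib.MP_9ff3e7_ag.F
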