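import Mathlib

/-! The abstract klt calculus at one point, and the SPLIT lemma. -/

set_option autoImplicit false

namespace Pool.Agent.Lib.MP_9ff3e7_ag.F

open Finset Finsupp

variable {O : Type} [CommRing O]

/-- the part of K1 and K4 used by SPLIT: `K = Klt y`, `le = (≤_y)` -/
structure Calc (K : (Ideal O →₀ ℝ) → Prop) (le : Ideal O → Ideal O → Prop) : Prop where
  of_le : ∀ a b, a ≤ b → le a b
  mono : ∀ D a b c, 0 ≤ D → 0 ≤ c → le a b → K (D + single a c) → K (D + single b c)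
  drop : ∀ D D', 0 ≤ D' → D' ≤ D → K D → K D'
  mul : ∀ D a b c, 0 ≤ D → 0 ≤ c → K (D + single (a * b) c) → K (D + single a c + single b c)
  bot : ∀ c, 0 < c → ¬ K (single ⊥ c)
  sum : ∀ D a b c ν, 0 ≤ D → 0 ≤ c → 0 < ν → K (D + single (a + b) c) →
    ∃ s t, 0 ≤ s ∧ 0 ≤ t ∧ c - ν ≤ s + t ∧ K (D + single a s + single b t)

/-- the point independent hypotheses of SPLIT: series `i < L` (`L = j` or `L = j + 1`),
`G i r = span G(i,r)`, `nb i r` = next break `> r`. -/
structure Num (j L : ℕ) (N : ℕ → ℕ) (c : ℕ → ℝ) (P : ℕ → Ideal O) (G : ℕ → ℕ → Ideal O)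
    (nb : ℕ → ℕ → ℕ) (a : ℕ → ℕ → ℕ → ℝ) (g eps : ℕ → ℝ) : Prop where
  jL : j ≤ L
  Lj : L ≤ j + 1
  c0 : ∀ i < L, 0 ≤ c i
  P0 : P 0 = ⊥
  cap : ∀ i < L, G i (N i) ≤ P i
  nb1 : ∀ i < L, ∀ r < N i, r < nb i r
  nb2 : ∀ i < L, ∀ r < N i, nb i r ≤ N i
  g0 : ∀ m, 1 ≤ m → m ≤ j → 0 < g m
  e0 : ∀ m, 1 ≤ m → m ≤ j → 0 < eps m
  a0 : ∀ m, 1 ≤ m → m ≤ j → ∀ i < m, ∀ r ≤ N i, 0 ≤ a m i r
  I2a : ∀ m, 1 ≤ m → m ≤ j → ∀ i < m, ∀ r r', r ≤ r' → r' ≤ N i → a m i r ≤ a m i r'
  I2b : ∀ i < L, ∀ r < N i, nb i r < N i →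
    ∃ m, i < m ∧ m ≤ j ∧ a m i (nb i r - 1) + g m ≤ a m i (nb i r)
  I4 : ∀ m, 1 ≤ m → m ≤ j → 1 - 2 * eps m ≤ ∑ i ∈ range m, c i * ∑ r ∈ range (N i), a m i r

/-- (I3) at the point where `K` lives -/
def I3At (K : (Ideal O →₀ ℝ) → Prop) (j : ℕ) (N : ℕ → ℕ) (P : ℕ → Ideal O)
    (G : ℕ → ℕ → Ideal O) (a : ℕ → ℕ → ℕ → ℝ) (g : ℕ → ℝ) : Prop :=
  ∀ m, 1 ≤ m → m ≤ j → ∀ (w : ℕ → ℕ → ℝ) (b : ℝ), (∀ i r, 0 ≤ w i r) → 0 ≤ b →
    K (∑ i ∈ range m, ∑ r ∈ range (N i + 1), single (G i r) (w i r) + single (P m) b) →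
    ∑ i ∈ range m, ∑ r ∈ range (N i + 1), w i r * a m i r + b * g m ≤ 1

variable {j L : ℕ} {N : ℕ → ℕ} {c : ℕ → ℝ} {P : ℕ → Ideal O} {G : ℕ → ℕ → Ideal O}
  {nb : ℕ → ℕ → ℕ} {a : ℕ → ℕ → ℕ → ℝ} {g eps : ℕ → ℝ}

/-- `X` may be replaced by `Y` inside any non negative pair -/
def Imp (K : (Ideal O →₀ ℝ) → Prop) (X Y : Ideal O →₀ ℝ) : Prop :=
  ∀ D, 0 ≤ D → K (D + X) → K (D + Y)

namespace Imp

variable {K : (Ideal O →₀ ℝ) → Prop} {le : Ideal O → Ideal O → Prop}

theorem refl (X : Ideal O →₀ ℝ) : Imp K X X := fun _ _ h => h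

theorem trans {X Y Z : Ideal O →₀ ℝ} (h1 : Imp K X Y) (h2 : Imp K Y Z) : Imp K X Z :=
  fun D hD h => h2 D hD (h1 D hD h)

theorem add {X Y X' Y' : Ideal O →₀ ℝ} (h1 : Imp K X Y) (h2 : Imp K X' Y') (hX' : 0 ≤ X')
    (hY : 0 ≤ Y) : Imp K (X + X') (Y + Y') := by
  intro D hD h
  have a1 : K (D + X' + X) := by rwa [add_assoc, add_comm X' X]
  have a2 := h1 _ (add_nonneg hD hX') a1
  have a3 : K (D + Y + X') := by rwa [add_right_comm]
  have a4 := h2 _ (add_nonneg hD hY) a3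
  rwa [add_assoc] at a4

theorem sum {ι : Type} (s : Finset ι) (X Y : ι → Ideal O →₀ ℝ) (hX : ∀ i ∈ s, 0 ≤ X i)
    (hY : ∀ i ∈ s, 0 ≤ Y i) (h : ∀ i ∈ s, Imp K (X i) (Y i)) :
    Imp K (∑ i ∈ s, X i) (∑ i ∈ s, Y i) := by
  classical
  induction s using Finset.induction_on with
  | empty => simpa using Imp.refl _
  | insert a s ha ih =>
    rw [sum_insert ha, sum_insert ha]
    exact (h a (mem_insert_self _ _)).add
      (ih (fun i hi => hX i (mem_insert_of_mem hi)) (fun i hi => hY i (mem_insert_of_mem hi))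
        (fun i hi => h i (mem_insert_of_mem hi)))
      (sum_nonneg fun i hi => hX i (mem_insert_of_mem hi)) (hY a (mem_insert_self _ _))

theorem drop (hc : Calc K le) {X Y : Ideal O →₀ ℝ} (h0 : 0 ≤ Y) (h : Y ≤ X) : Imp K X Y :=
  fun D hD hK => hc.drop _ _ (add_nonneg hD h0) (by gcongr) hK

theorem mono (hc : Calc K le) {a b : Ideal O} {c : ℝ} (h0 : 0 ≤ c) (h : le a b) :
    Imp K (single a c) (single b c) := fun D hD hK => hc.mono D a b c hD h0 h hK

theorem of_le (hc : Calc K le) {a b : Ideal O} {c : ℝ} (h0 : 0 ≤ c) (h : a ≤ b) :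
    Imp K (single a c) (single b c) := mono hc h0 (hc.of_le _ _ h)

theorem mul (hc : Calc K le) (a b : Ideal O) {c : ℝ} (h0 : 0 ≤ c) :
    Imp K (single (a * b) c) (single a c + single b c) := fun D hD hK => by
  rw [← add_assoc]; exact hc.mul D a b c hD h0 hK

theorem app {X Y : Ideal O →₀ ℝ} (h : Imp K X Y) (hX : K X) : K Y := by
  simpa using h 0 le_rfl (by simpa using hX)

theorem pow (hc : Calc K le) (a : Ideal O) {c : ℝ} (h0 : 0 ≤ c) (τ : ℕ) :
    Imp K (single (a ^ τ) c) (single a (τ * c)) := by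
  induction τ with
  | zero => exact drop hc (by simp) (by simpa using h0)
  | succ τ ih =>
    rw [pow_succ]
    refine (mul hc _ _ h0).trans ?_
    have : single a (((τ + 1 : ℕ) : ℝ) * c) = single a (τ * c) + single a c := by
      rw [← single_add]; congr 1; push_cast; ring
    rw [this]
    exact ih.add (refl _) (by simpa using h0) (single_nonneg.2 (by positivity))

end Imp

theorem exists_stepK {K : (Ideal O →₀ ℝ) → Prop} {ι β : Type} [Inhabited β] (s : Finset ι)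
    (X : ι → Ideal O →₀ ℝ) (Y : ι → β → Ideal O →₀ ℝ) (Q : ι → β → Prop)
    (hX : ∀ i ∈ s, 0 ≤ X i) (hY : ∀ i b, 0 ≤ Y i b)
    (h : ∀ i ∈ s, ∀ D, 0 ≤ D → K (D + X i) → ∃ b, Q i b ∧ K (D + Y i b)) :
    ∀ D, 0 ≤ D → K (D + ∑ i ∈ s, X i) →
      ∃ f : ι → β, (∀ i ∈ s, Q i (f i)) ∧ K (D + ∑ i ∈ s, Y i (f i)) := by
  classical
  induction s using Finset.induction_on with
  | empty => intro D _ hK; exact ⟨fun _ => default, by simp, by simpa using hK⟩
  | insert a s ha ih =>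
    intro D hD hK
    rw [sum_insert ha, add_comm (X a), ← add_assoc] at hK
    obtain ⟨b, hb, hK1⟩ := h a (mem_insert_self _ _) _
      (add_nonneg hD (sum_nonneg fun i hi => hX i (mem_insert_of_mem hi))) hK
    rw [add_right_comm] at hK1
    obtain ⟨f, hf, hK2⟩ := ih (fun i hi => hX i (mem_insert_of_mem hi))
      (fun i hi => h i (mem_insert_of_mem hi)) _ (add_nonneg hD (hY a b)) hK1
    refine ⟨Function.update f a b, ?_, ?_⟩
    · intro i hi
      rcases mem_insert.1 hi with rfl | hi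
      · simpa using hb
      · have hne : i ≠ a := fun hh => ha (hh ▸ hi)
        rw [Function.update_of_ne hne]; exact hf i hi
    · rw [sum_insert ha, Function.update_self, ← add_assoc]
      have : ∑ i ∈ s, Y i (Function.update f a b i) = ∑ i ∈ s, Y i (f i) :=
        sum_congr rfl fun i hi => by rw [Function.update_of_ne (by rintro rfl; exact ha hi)]
      rwa [this]

theorem one_term {K : (Ideal O →₀ ℝ) → Prop} {le : Ideal O → Ideal O → Prop} (hc : Calc K le)
    {F A B U : Ideal O} {c c' η : ℝ} (h0 : 0 ≤ c) (h0' : 0 ≤ c') (hη : 0 < η) (hcc : c - η ≤ c')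
    (hle : le F (A + B + U)) (D : Ideal O →₀ ℝ) (hD : 0 ≤ D) (hK : K (D + single F c')) :
    ∃ p : NNReal × NNReal × NNReal, (c - 3 * η ≤ p.1 + p.2.1 + p.2.2 ∧ (p.1 : ℝ) ≤ c) ∧
      K (D + (single A (p.1 : ℝ) + single B (p.2.1 : ℝ) + single U (p.2.2 : ℝ))) := by
  have h1 := hc.mono D _ _ _ hD h0' hle hK
  obtain ⟨s', e, hs', he, hse, h2⟩ := hc.sum D _ _ _ η hD h0' hη h1
  rw [add_right_comm] at h2
  obtain ⟨s, b, hs, hb, hsb, h3⟩ :=
    hc.sum _ _ _ _ η (add_nonneg hD (single_nonneg.2 he)) hs' hη h2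
  refine ⟨(⟨min s c, le_min hs h0⟩, ⟨b, hb⟩, ⟨e, he⟩), ⟨?_, min_le_right _ _⟩, ?_⟩
  · change c - 3 * η ≤ min s c + b + e
    rcases le_total s c with h | h
    · rw [min_eq_left h]; linarith
    · rw [min_eq_right h]; linarith
  · change K (D + (single A (min s c) + single B b + single U e))
    refine hc.drop _ _ ?_ ?_ h3
    · exact add_nonneg hD (add_nonneg (add_nonneg (single_nonneg.2 (le_min hs h0))
        (single_nonneg.2 hb)) (single_nonneg.2 he))
    · have : single A (min s c) ≤ single A s := single_le_single.2 (min_le_left _ _)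
      calc D + (single A (min s c) + single B b + single U e)
          ≤ D + (single A s + single B b + single U e) := by gcongr
        _ = D + single U e + single A s + single B b := by abel

theorem sum_push {M : Type} [AddCommMonoid M] (n : ℕ) (φ : ℕ → ℝ →+ M) (u e : ℕ → ℝ)
    (nb : ℕ → ℕ) (hnb : ∀ r < n, nb r ≤ n) :
    ∑ r' ∈ range (n + 1), φ r' ((if r' < n then u r' else 0) +
      ∑ r ∈ range n, if nb r = r' then e r else 0) =
    ∑ r ∈ range n, (φ r (u r) + φ (nb r) (e r)) := by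
  simp only [map_add, map_sum, sum_add_distrib]
  congr 1
  · rw [sum_range_succ]
    simp only [lt_irrefl, if_false, map_zero, add_zero]
    exact sum_congr rfl fun r hr => by rw [if_pos (mem_range.1 hr)]
  · rw [Finset.sum_comm]
    refine sum_congr rfl fun r hr => ?_
    have : ∀ r', φ r' (if nb r = r' then e r else 0) = if nb r = r' then φ r' (e r) else 0 := by
      intro r'; split_ifs <;> simp
    simp only [this]
    rw [Finset.sum_ite_eq, if_pos (mem_range.2 (Nat.lt_succ_of_le (hnb r (mem_range.1 hr))))]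

theorem sum_lt_ite {M : Type} [AddCommMonoid M] {m L : ℕ} (h : m ≤ L) (f : ℕ → M) :
    ∑ i ∈ range L, (if i < m then f i else 0) = ∑ i ∈ range m, f i := by
  rw [← sum_filter]
  congr 1
  ext i; simp only [mem_filter, mem_range]; omega

/-- the application of (I3) for one `m` -/
theorem bound (h : Num j L N c P G nb a g eps) {K : (Ideal O →₀ ℝ) → Prop}
    {le : Ideal O → Ideal O → Prop} (hc : Calc K le) (h3 : I3At K j N P G a g)
    {A B : ℕ → ℕ → Ideal O} (hA : ∀ i < L, ∀ r < N i, A i r ≤ G i r)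
    (hB : ∀ i < L, ∀ r < N i, B i r ≤ P j * G i r) {s b e : ℕ → ℕ → ℝ}
    (h0 : ∀ i r, 0 ≤ s i r ∧ 0 ≤ b i r ∧ 0 ≤ e i r) {η : ℝ}
    (hs : ∀ i < L, ∀ r < N i, c i - η ≤ s i r + b i r + e i r) {m : ℕ} (hm : 1 ≤ m) (hmj : m ≤ j)
    (hη : η * ∑ i ∈ range m, ∑ r ∈ range (N i), a m i r ≤ eps m) {b0 : ℝ} (hb0 : 0 ≤ b0)
    (hK : K (∑ i ∈ range L, ∑ r ∈ range (N i),
      (single (A i r) (s i r) + single (B i r) (b i r) + single (G i (nb i r)) (e i r)) +
      single (P m) b0)) :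
    ∑ i ∈ range m, ∑ r ∈ range (N i), e i r * (a m i (nb i r) - a m i r) +
      (∑ i ∈ range L, ∑ r ∈ range (N i), ((if m = j then b i r else 0) +
        (if i = m ∧ nb i r = N i then e i r else 0)) + b0) * g m ≤ 3 * eps m := by
  set β : ℕ → ℕ → ℝ := fun i r => (if m = j then b i r else 0) +
    (if i = m ∧ nb i r = N i then e i r else 0) with hβ
  have β0 : ∀ i r, 0 ≤ β i r := fun i r => by
    have := h0 i r
    simp only [hβ]; split_ifs <;> linarith [this.1, this.2.1, this.2.2]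
  set Y : ℕ → ℕ → Ideal O →₀ ℝ := fun i r =>
    single (G i r) (s i r + b i r) + single (G i (nb i r)) (e i r) with hY
  have Y0 : ∀ i r, 0 ≤ Y i r := fun i r =>
    add_nonneg (single_nonneg.2 (add_nonneg (h0 i r).1 (h0 i r).2.1))
      (single_nonneg.2 (h0 i r).2.2)
  have X0 : ∀ i r, 0 ≤ single (A i r) (s i r) + single (B i r) (b i r) +
      single (G i (nb i r)) (e i r) := fun i r =>
    add_nonneg (add_nonneg (single_nonneg.2 (h0 i r).1) (single_nonneg.2 (h0 i r).2.1))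
      (single_nonneg.2 (h0 i r).2.2)
  have Z0 : ∀ i r, 0 ≤ (if i < m then Y i r else 0) + single (P m) (β i r) := fun i r =>
    add_nonneg (by split_ifs; exacts [Y0 i r, le_rfl]) (single_nonneg.2 (β0 i r))
  have term : ∀ i < L, ∀ r < N i, Imp K (single (A i r) (s i r) + single (B i r) (b i r) +
      single (G i (nb i r)) (e i r)) ((if i < m then Y i r else 0) + single (P m) (β i r)) := by
    intro i hi r hr
    obtain ⟨s0, b0', e0⟩ := h0 i r
    have s1 : (0 : Ideal O →₀ ℝ) ≤ single (G i r) (s i r) := single_nonneg.2 s0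
    have b1 : (0 : Ideal O →₀ ℝ) ≤ single (G i r) (b i r) := single_nonneg.2 b0'
    have b2 : (0 : Ideal O →₀ ℝ) ≤ single (P j) (b i r) := single_nonneg.2 b0'
    have e1 : (0 : Ideal O →₀ ℝ) ≤ single (G i (nb i r)) (e i r) := single_nonneg.2 e0
    have iA := Imp.of_le hc s0 (hA i hi r hr)
    have iB := (Imp.of_le hc b0' (hB i hi r hr)).trans (Imp.mul hc _ _ b0')
    have iAB := iA.add iB (single_nonneg.2 b0') s1
    have hb' : single (P m) (if m = j then b i r else 0) ≤ single (P j) (b i r) := by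
      split_ifs with hh
      · rw [hh]
      · simpa using b0'
    by_cases he : i = m ∧ nb i r = N i
    · have iU : Imp K (single (G i (nb i r)) (e i r)) (single (P m) (e i r)) :=
        Imp.of_le hc e0 (by rw [he.2, ← he.1]; exact h.cap i hi)
      refine (iAB.add iU e1 (add_nonneg s1 (add_nonneg b2 b1))).trans (Imp.drop hc (Z0 i r) ?_)
      rw [if_neg (by omega), zero_add]
      simp only [hβ, if_pos he, single_add]
      gcongr
      calc _ ≤ single (P j) (b i r) := hb'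
        _ ≤ single (P j) (b i r) + single (G i r) (b i r) := le_add_of_nonneg_right b1
        _ ≤ _ := le_add_of_nonneg_left s1
    · refine (iAB.add (Imp.refl _) e1 (add_nonneg s1 (add_nonneg b2 b1))).trans
        (Imp.drop hc (Z0 i r) ?_)
      simp only [hβ, if_neg he, add_zero]
      have hy : (if i < m then Y i r else 0) ≤ Y i r := by split_ifs; exacts [le_rfl, Y0 i r]
      calc _ ≤ Y i r + single (P j) (b i r) := add_le_add hy hb'
        _ = _ := by simp only [hY, single_add]; abel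
  have tot := (Imp.sum (range L) _ _ (fun i _ => sum_nonneg fun r _ => X0 i r)
    (fun i _ => sum_nonneg fun r _ => Z0 i r) (fun i hi => Imp.sum (range (N i)) _ _
      (fun r _ => X0 i r) (fun r _ => Z0 i r)
      (fun r hr => term i (mem_range.1 hi) r (mem_range.1 hr)))).add (Imp.refl (single (P m) b0))
      (single_nonneg.2 hb0) (sum_nonneg fun i _ => sum_nonneg fun r _ => Z0 i r)
  have hK2 := tot.app hK
  have hmL : m ≤ L := hmj.trans h.jL
  set w : ℕ → ℕ → ℝ := fun i r' => (if r' < N i then s i r' + b i r' else 0) +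
    ∑ r ∈ range (N i), if nb i r = r' then e i r else 0 with hw
  have w0 : ∀ i r, 0 ≤ w i r := fun i r => add_nonneg
    (by split_ifs; exacts [add_nonneg (h0 i r).1 (h0 i r).2.1, le_rfl])
    (sum_nonneg fun r' _ => by split_ifs; exacts [(h0 i r').2.2, le_rfl])
  have e1 : ∑ i ∈ range L, ∑ r ∈ range (N i), ((if i < m then Y i r else 0) +
      single (P m) (β i r)) + single (P m) b0 =
      ∑ i ∈ range m, ∑ r ∈ range (N i + 1), single (G i r) (w i r) +
        single (P m) (∑ i ∈ range L, ∑ r ∈ range (N i), β i r + b0) := by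
    simp only [sum_add_distrib, single_add, single_finsetSum, ← add_assoc]
    congr 2
    rw [← sum_lt_ite hmL]
    refine sum_congr rfl fun i hi => ?_
    split_ifs with hh
    · exact (sum_push (N i) (fun r => singleAddHom (G i r)) (fun r => s i r + b i r) (e i) (nb i)
        (h.nb2 i (mem_range.1 hi))).symm
    · simp
  rw [e1] at hK2
  have key := h3 m hm hmj w _ w0
    (add_nonneg (sum_nonneg fun i _ => sum_nonneg fun r _ => β0 i r) hb0) hK2
  have e2 : ∀ i < m, ∑ r ∈ range (N i + 1), w i r * a m i r =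
      ∑ r ∈ range (N i), ((s i r + b i r) * a m i r + e i r * a m i (nb i r)) := fun i hi =>
    sum_push (N i) (fun r => AddMonoidHom.mulRight (a m i r)) (fun r => s i r + b i r) (e i) (nb i)
      (h.nb2 i (by omega))
  rw [sum_congr rfl fun i hi => e2 i (mem_range.1 hi)] at key
  have low : ∑ i ∈ range m, c i * ∑ r ∈ range (N i), a m i r -
      η * ∑ i ∈ range m, ∑ r ∈ range (N i), a m i r +
      ∑ i ∈ range m, ∑ r ∈ range (N i), e i r * (a m i (nb i r) - a m i r) ≤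
      ∑ i ∈ range m, ∑ r ∈ range (N i), ((s i r + b i r) * a m i r + e i r * a m i (nb i r)) := by
    simp only [Finset.mul_sum, ← sum_sub_distrib, ← sum_add_distrib]
    refine sum_le_sum fun i hi => sum_le_sum fun r hr => ?_
    have h1 := hs i (by have := mem_range.1 hi; omega) r (mem_range.1 hr)
    have h2 := h.a0 m hm hmj i (mem_range.1 hi) r (mem_range.1 hr).le
    nlinarith [mul_le_mul_of_nonneg_right h1 h2]
  have := h.I4 m hm hmj
  linarith

theorem exists_eta (h : Num j L N c P G nb a g eps) {ν : ℝ} (hν : 0 < ν) :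
    ∃ η : ℝ, 0 < η ∧ η ≤ ν ∧ ∀ m, 1 ≤ m → m ≤ j →
      η * ∑ i ∈ range m, ∑ r ∈ range (N i), a m i r ≤ eps m := by
  have ev : ∀ᶠ η : ℝ in nhds 0, ∀ m ∈ Icc 1 j,
      η * ∑ i ∈ range m, ∑ r ∈ range (N i), a m i r < eps m := by
    rw [Filter.eventually_all_finset]
    intro m hm
    have : ContinuousAt (fun η : ℝ => η * ∑ i ∈ range m, ∑ r ∈ range (N i), a m i r) 0 := by
      fun_prop
    exact this.eventually_lt continuousAt_const
      (by simpa using h.e0 m (mem_Icc.1 hm).1 (mem_Icc.1 hm).2)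
  have ev2 : ∀ᶠ η : ℝ in nhdsWithin 0 (Set.Ioi 0), _ :=
    ((ev.and (gt_mem_nhds hν)).filter_mono nhdsWithin_le_nhds).and self_mem_nhdsWithin
  obtain ⟨η, ⟨h1, h2⟩, h3⟩ := ev2.exists
  exact ⟨η, h3, h2.le, fun m a b => (h1 m (mem_Icc.2 ⟨a, b⟩)).le⟩

theorem exists_rho (L : ℕ) (c : ℕ → ℝ) {η : ℝ} (hη : 0 < η) :
    ∃ ρ : ℝ, 0 < ρ ∧ ρ < 1 ∧ ∀ i < L, c i - η ≤ ρ * c i := by
  have ev : ∀ᶠ ρ : ℝ in nhds 1, ∀ i ∈ range L, c i - η < ρ * c i := by
    rw [Filter.eventually_all_finset]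
    intro i _
    have : ContinuousAt (fun ρ : ℝ => ρ * c i) 1 := by fun_prop
    exact continuousAt_const.eventually_lt this (by simpa using hη)
  have ev2 : ∀ᶠ ρ : ℝ in nhdsWithin 1 (Set.Iio 1), _ :=
    ((ev.and (lt_mem_nhds one_pos)).filter_mono nhdsWithin_le_nhds).and self_mem_nhdsWithin
  obtain ⟨ρ, ⟨h1, h2⟩, h3⟩ := ev2.exists
  exact ⟨ρ, h2, h3, fun i hi => (h1 i (mem_range.2 hi)).le⟩

theorem term_le {f : ℕ → ℕ → ℝ} {L : ℕ} {N : ℕ → ℕ} (hf : ∀ i < L, ∀ r < N i, 0 ≤ f i r)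
    {i r : ℕ} (hi : i < L) (hr : r < N i) : f i r ≤ ∑ i ∈ range L, ∑ r ∈ range (N i), f i r :=
  (single_le_sum (f := f i) (fun r hr => hf i hi r (mem_range.1 hr)) (mem_range.2 hr)).trans
    (single_le_sum (f := fun i => ∑ r ∈ range (N i), f i r)
      (fun i hi => sum_nonneg fun r hr => hf i (mem_range.1 hi) r (mem_range.1 hr))
      (mem_range.2 hi))

/-- SPLIT.  The last clause is the one END needs. -/
theorem split (h : Num j L N c P G nb a g eps) {ν : ℝ} (hν : 0 < ν) :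
    ∃ ρ : ℝ, 0 < ρ ∧ ρ < 1 ∧ ∀ (K : (Ideal O →₀ ℝ) → Prop) (le : Ideal O → Ideal O → Prop),
      Calc K le → I3At K j N P G a g → ∀ (F A B : ℕ → ℕ → Ideal O),
      (∀ i < L, ∀ r < N i, A i r ≤ G i r) → (∀ i < L, ∀ r < N i, B i r ≤ P j * G i r) →
      (∀ i < L, ∀ r < N i, le (F i r) (A i r + B i r + G i (nb i r))) →
      K (∑ i ∈ range L, ∑ r ∈ range (N i), single (F i r) (ρ * c i)) →
      ∃ s b e : ℕ → ℕ → ℝ, (∀ i r, 0 ≤ s i r ∧ 0 ≤ b i r ∧ 0 ≤ e i r) ∧
        (∀ i < L, ∀ r < N i, c i - ν ≤ s i r + b i r + e i r ∧ s i r ≤ c i) ∧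
        K (∑ i ∈ range L, ∑ r ∈ range (N i),
          (single (A i r) (s i r) + single (B i r) (b i r) + single (G i (nb i r)) (e i r))) ∧
        (∀ i < L, ∀ r < N i, (B i r = ⊥ → b i r = 0) ∧
          (b i r = 0 ∨ (1 ≤ j ∧ b i r ≤ 3 * eps j / g j)) ∧
          (e i r = 0 ∨ ∃ m, 1 ≤ m ∧ i ≤ m ∧ m ≤ j ∧ e i r ≤ 3 * eps m / g m)) ∧
        (1 ≤ j → ∀ b0, 0 ≤ b0 → K (∑ i ∈ range L, ∑ r ∈ range (N i),
          (single (A i r) (s i r) + single (B i r) (b i r) + single (G i (nb i r)) (e i r)) +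
          single (P j) b0) → b0 ≤ 3 * eps j / g j) := by
  obtain ⟨η, hη, hην, hηe⟩ := exists_eta h hν
  obtain ⟨ρ, hρ0, hρ1, hρ⟩ := exists_rho L c (η := η / 3) (by positivity)
  refine ⟨ρ, hρ0, hρ1, fun K le hc h3 F A B hA hB hle hK => ?_⟩
  rw [sum_sigma', ← zero_add (Finset.sum _ _)] at hK
  obtain ⟨f, hf, hK1⟩ := exists_stepK (K := K) (β := NNReal × NNReal × NNReal)
    ((range L).sigma fun i => range (N i)) (fun x => single (F x.1 x.2) (ρ * c x.1))
    (fun x p => single (A x.1 x.2) (p.1 : ℝ) + single (B x.1 x.2) (p.2.1 : ℝ) +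
      single (G x.1 (nb x.1 x.2)) (p.2.2 : ℝ))
    (fun x p => c x.1 - 3 * (η / 3) ≤ p.1 + p.2.1 + p.2.2 ∧ (p.1 : ℝ) ≤ c x.1)
    (fun x hx => single_nonneg.2 (mul_nonneg hρ0.le (h.c0 _ (mem_range.1 (mem_sigma.1 hx).1))))
    (fun x p => add_nonneg (add_nonneg (single_nonneg.2 p.1.2) (single_nonneg.2 p.2.1.2))
      (single_nonneg.2 p.2.2.2))
    (fun x hx D hD hK => by
      have hi := mem_range.1 (mem_sigma.1 hx).1
      have hr := mem_range.1 (mem_sigma.1 hx).2
      exact one_term hc (h.c0 _ hi) (mul_nonneg hρ0.le (h.c0 _ hi)) (by positivity) (hρ _ hi)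
        (hle _ hi _ hr) D hD hK) 0 le_rfl hK
  set s : ℕ → ℕ → ℝ := fun i r => ((f ⟨i, r⟩).1 : ℝ)
  set b : ℕ → ℕ → ℝ := fun i r => ((f ⟨i, r⟩).2.1 : ℝ)
  set e : ℕ → ℕ → ℝ := fun i r => ((f ⟨i, r⟩).2.2 : ℝ)
  have h0 : ∀ i r, 0 ≤ s i r ∧ 0 ≤ b i r ∧ 0 ≤ e i r := fun i r =>
    ⟨(f ⟨i, r⟩).1.2, (f ⟨i, r⟩).2.1.2, (f ⟨i, r⟩).2.2.2⟩
  have hs : ∀ i < L, ∀ r < N i, c i - η ≤ s i r + b i r + e i r ∧ s i r ≤ c i := by
    intro i hi r hr
    have := hf ⟨i, r⟩ (mem_sigma.2 ⟨mem_range.2 hi, mem_range.2 hr⟩)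
    exact ⟨by linarith [this.1], this.2⟩
  have hK2 : K (∑ i ∈ range L, ∑ r ∈ range (N i),
      (single (A i r) (s i r) + single (B i r) (b i r) + single (G i (nb i r)) (e i r))) := by
    rw [sum_sigma']; rwa [zero_add] at hK1
  have X0 : ∀ i r, 0 ≤ single (A i r) (s i r) + single (B i r) (b i r) +
      single (G i (nb i r)) (e i r) := fun i r =>
    add_nonneg (add_nonneg (single_nonneg.2 (h0 i r).1) (single_nonneg.2 (h0 i r).2.1))
      (single_nonneg.2 (h0 i r).2.2)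
  have one : ∀ i < L, ∀ r < N i, K (single (A i r) (s i r) + single (B i r) (b i r) +
      single (G i (nb i r)) (e i r)) := fun i hi r hr =>
    hc.drop _ _ (X0 i r) ((single_le_sum (f := fun r => single (A i r) (s i r) +
      single (B i r) (b i r) + single (G i (nb i r)) (e i r)) (fun r _ => X0 i r)
      (mem_range.2 hr)).trans (single_le_sum (f := fun i => ∑ r ∈ range (N i),
        (single (A i r) (s i r) + single (B i r) (b i r) + single (G i (nb i r)) (e i r)))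
        (fun i _ => sum_nonneg fun r _ => X0 i r) (mem_range.2 hi))) hK2
  have zero : ∀ (I : Ideal O) (t : ℝ), 0 ≤ t → I = ⊥ → K (single I t) → t = 0 := by
    rintro I t ht rfl hK
    by_contra hne
    exact hc.bot t (lt_of_le_of_ne ht (Ne.symm hne)) hK
  have bd : ∀ m, 1 ≤ m → m ≤ j → ∀ b0, 0 ≤ b0 → K (∑ i ∈ range L, ∑ r ∈ range (N i),
      (single (A i r) (s i r) + single (B i r) (b i r) + single (G i (nb i r)) (e i r)) +
      single (P m) b0) →
      (∀ i < m, ∀ r < N i, e i r * (a m i (nb i r) - a m i r) ≤ 3 * eps m) ∧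
      (∀ i < L, ∀ r < N i, (if m = j then b i r else 0) +
        (if i = m ∧ nb i r = N i then e i r else 0) ≤ 3 * eps m / g m) ∧
      b0 ≤ 3 * eps m / g m := by
    intro m hm hmj b0 hb0 hK
    have hb := bound h hc h3 hA hB h0 (fun i hi r hr => (hs i hi r hr).1) hm hmj (hηe m hm hmj)
      hb0 hK
    have hg := h.g0 m hm hmj
    have p1 : ∀ i < m, ∀ r < N i, 0 ≤ e i r * (a m i (nb i r) - a m i r) := fun i hi r hr => by
      have hi' : i < L := by have := h.jL; omega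
      exact mul_nonneg (h0 i r).2.2 (sub_nonneg.2
        (h.I2a m hm hmj i hi _ _ (h.nb1 i hi' r hr).le (h.nb2 i hi' r hr)))
    have p2 : ∀ i < L, ∀ r < N i, 0 ≤ (if m = j then b i r else 0) +
        (if i = m ∧ nb i r = N i then e i r else 0) := fun i _ r _ => by
      have := h0 i r
      split_ifs <;> linarith [this.2.1, this.2.2]
    have q1 : 0 ≤ ∑ i ∈ range m, ∑ r ∈ range (N i), e i r * (a m i (nb i r) - a m i r) :=
      sum_nonneg fun i hi => sum_nonneg fun r hr => p1 i (mem_range.1 hi) r (mem_range.1 hr)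
    have q2 : 0 ≤ ∑ i ∈ range L, ∑ r ∈ range (N i), ((if m = j then b i r else 0) +
        (if i = m ∧ nb i r = N i then e i r else 0)) :=
      sum_nonneg fun i hi => sum_nonneg fun r hr => p2 i (mem_range.1 hi) r (mem_range.1 hr)
    refine ⟨fun i hi r hr => ?_, fun i hi r hr => ?_, ?_⟩
    · have := term_le p1 hi hr
      nlinarith [mul_nonneg (add_nonneg q2 hb0) hg.le]
    · have := term_le p2 hi hr
      rw [le_div_iff₀ hg]
      nlinarith [mul_le_mul_of_nonneg_right this hg.le, mul_nonneg hb0 hg.le]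
    · rw [le_div_iff₀ hg]
      nlinarith [mul_nonneg q2 hg.le]
  have bd0 := fun m hm hmj => bd m hm hmj 0 le_rfl (by simpa using hK2)
  refine ⟨s, b, e, h0, fun i hi r hr => ⟨by linarith [(hs i hi r hr).1], (hs i hi r hr).2⟩, hK2,
    fun i hi r hr => ?_, fun hj b0 hb0 hK => (bd j hj le_rfl b0 hb0 hK).2.2⟩
  obtain ⟨s0, b0, e0⟩ := h0 i r
  have s1 : (0 : Ideal O →₀ ℝ) ≤ single (A i r) (s i r) := single_nonneg.2 s0
  have b1 : (0 : Ideal O →₀ ℝ) ≤ single (B i r) (b i r) := single_nonneg.2 b0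
  have e1 : (0 : Ideal O →₀ ℝ) ≤ single (G i (nb i r)) (e i r) := single_nonneg.2 e0
  have hbz : B i r = ⊥ → b i r = 0 := fun hB0 => zero _ _ b0 hB0 (hc.drop _ _ b1
    ((le_add_of_nonneg_left s1).trans (le_add_of_nonneg_right e1)) (one i hi r hr))
  refine ⟨hbz, ?_, ?_⟩
  · rcases Nat.eq_zero_or_pos j with hj | hj
    · left
      refine hbz (le_bot_iff.1 ?_)
      have := hB i hi r hr
      rwa [hj, h.P0, Ideal.bot_mul] at this
    · right
      refine ⟨hj, ?_⟩
      have := (bd0 j hj le_rfl).2.1 i hi r hr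
      rw [if_pos rfl] at this
      refine le_trans ?_ this
      split_ifs <;> linarith
  · rcases (h.nb2 i hi r hr).lt_or_eq with hlt | heq
    · obtain ⟨m, him, hmj, hjump⟩ := h.I2b i hi r hr hlt
      have hm : 1 ≤ m := by omega
      refine Or.inr ⟨m, hm, him.le, hmj, ?_⟩
      have h1 := (bd0 m hm hmj).1 i him r hr
      have h2 := h.nb1 i hi r hr
      have h4 := h.I2a m hm hmj i him r (nb i r - 1) (by omega) (by omega)
      rw [le_div_iff₀ (h.g0 m hm hmj)]
      nlinarith [mul_le_mul_of_nonneg_left (show g m ≤ a m i (nb i r) - a m i r by linarith) e0]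
    · rcases Nat.eq_zero_or_pos i with hi0 | hi0
      · left
        refine zero _ _ e0 (le_bot_iff.1 ?_) (hc.drop _ _ e1
          (le_add_of_nonneg_left (add_nonneg s1 b1)) (one i hi r hr))
        rw [heq, ← h.P0, ← hi0]; exact h.cap i hi
      · have hij : i ≤ j := by have := h.Lj; omega
        refine Or.inr ⟨i, hi0, le_rfl, hij, ?_⟩
        have := (bd0 i hi0 hij).2.1 i hi r hr
        rw [if_pos (And.intro rfl heq)] at this
        refine le_trans ?_ this
        split_ifs <;> linarith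

end Pool.Agent.Lib.MP_9ff3e7_ag.F
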