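import Pool.Agent.Lib.MP_9ff3e7_ag.F.EndFlag
import Pool.Agent.Lib.MP_9ff3e7_ag.F.Split
import Pool.Agent.Lib.MP_9ff3e7_ag.F.KDefs

/-! The last stage of the core argument, over the abstract klt calculus. -/

set_option autoImplicit false

namespace Pool.Agent.Lib.MP_9ff3e7_ag.F

open Module Finset Finsupp

variable {O : Type} [CommRing O] [Algebra ℂ O]

theorem Hf_add_finrank_inf (T : ℕ → Submodule ℂ O) (P : Ideal O) (t : ℕ)
    [FiniteDimensional ℂ (T t)] :
    Hf T P t + finrank ℂ ↥(T t ⊓ P.restrictScalars ℂ) = finrank ℂ (T t) := by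
  have h := LinearMap.finrank_range_add_finrank_ker
    ((Ideal.Quotient.mkₐ ℂ P).toLinearMap.domRestrict (T t))
  rw [LinearMap.range_domRestrict] at h
  have e : LinearMap.ker ((Ideal.Quotient.mkₐ ℂ P).toLinearMap.domRestrict (T t)) =
      (T t ⊓ P.restrictScalars ℂ).comap (T t).subtype := by
    ext v
    simp [Ideal.Quotient.eq_zero_iff_mem]
  rw [e, (Submodule.comapSubtypeEquivOfLe inf_le_left).finrank_eq] at h
  exact h

theorem span_coe_sup (A B : Submodule ℂ O) :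
    Ideal.span ((A ⊔ B : Submodule ℂ O) : Set O) = Ideal.span (A : Set O) + Ideal.span (B : Set O) := by
  apply le_antisymm
  · refine Ideal.span_le.2 fun v hv => ?_
    obtain ⟨y, hy, z, hz, rfl⟩ := Submodule.mem_sup.1 hv
    exact Submodule.add_mem_sup (Ideal.subset_span hy) (Ideal.subset_span hz)
  · exact sup_le (Ideal.span_mono (le_sup_left : A ≤ A ⊔ B))
      (Ideal.span_mono (le_sup_right : B ≤ A ⊔ B))

theorem end_abs (T : ℕ → Submodule ℂ O) (hfd : ∀ t, FiniteDimensional ℂ (T t)) (hT : Monotone T)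
    {K : (Ideal O →₀ ℝ) → Prop} {le : Ideal O → Ideal O → Prop} (hc : Calc K le)
    {j : ℕ} (hj : 1 ≤ j) {k N : ℕ → ℕ} {c : ℕ → ℝ} {P : ℕ → Ideal O}
    {G : ℕ → ℕ → Submodule ℂ O} {nb : ℕ → ℕ → ℕ} {a : ℕ → ℕ → ℕ → ℝ} {g eps : ℕ → ℝ}
    (hnum : Num j j N c P (fun i r => Ideal.span (G i r : Set O)) nb a g eps)
    (h3 : I3At K j N P (fun i r => Ideal.span (G i r : Set O)) a g)
    (hN : ∀ i < j, N i = Hf T (P i) (k i))
    (hG0 : ∀ i < j, G i 0 = T (k i))
    (hGN : ∀ i < j, G i (N i) = T (k i) ⊓ (P i).restrictScalars ℂ)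
    (hanti : ∀ i < j, ∀ r r', r ≤ r' → r' ≤ N i → G i r' ≤ G i r)
    (hcod : ∀ i < j, ∀ r < N i, finrank ℂ (T (k i)) ≤ finrank ℂ (G i r) + r)
    (hblk : ∀ i < j, ∀ r < N i, ∀ r', r ≤ r' → r' < nb i r → G i r' = G i r ∧ nb i r' = nb i r)
    (h1 : ∀ ρ : ℝ, 0 < ρ → ρ < 1 → ∀ F : ℕ → ℕ → Submodule ℂ O,
      (∀ i < j, F i 0 = T (k i) ∧ (∀ r, N i ≤ r → F i r = T (k i) ⊓ (P i).restrictScalars ℂ) ∧
        Antitone (F i) ∧ (∀ r ≤ N i, finrank ℂ (F i r) + r = finrank ℂ (T (k i))) ∧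
        ∀ r ≤ N i, finrank ℂ (G i r) + r = finrank ℂ (T (k i)) → F i r = G i r) →
      K (∑ i ∈ range j, ∑ r ∈ range (N i), single (Ideal.span (F i r : Set O)) (ρ * c i)))
    {lam : ℕ → ℝ} (hl0 : ∀ i < j, 0 ≤ lam i)
    (hlam : ∀ m, 1 ≤ m → m ≤ j → ∀ i < j, i ≤ m → 3 * eps m / g m * (k i * N i) ≤ lam i) :
    ∃ (m : ℕ) (W : Fin m → Submodule ℂ O) (deg : Fin m → ℕ) (cc : Fin m → ℝ),
      (∀ q, W q ≤ T (deg q)) ∧ (∀ q, 0 ≤ cc q) ∧
      K (∑ q, single (Ideal.span (W q : Set O)) (cc q)) ∧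
      (∀ b, 3 * eps j / g j < b →
        ¬ K (∑ q, single (Ideal.span (W q : Set O)) (cc q) + single (P j) b)) ∧
      ∑ q, cc q * deg q ≤ ∑ i ∈ range j,
        (c i * ((k i : ℝ) * N i - ∑ t ∈ range (k i), (Hf T (P i) t : ℝ)) + lam i) := by
  classical
  have hfl : ∀ i, ∃ (F : ℕ → Submodule ℂ O) (d : ℕ → ℕ), i < j →
      (F 0 = T (k i) ∧ (∀ r, N i ≤ r → F r = T (k i) ⊓ (P i).restrictScalars ℂ) ∧ Antitone F ∧
      (∀ r ≤ N i, finrank ℂ (F r) + r = finrank ℂ (T (k i))) ∧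
      (∀ r ≤ N i, finrank ℂ (G i r) + r = finrank ℂ (T (k i)) → F r = G i r)) ∧
      (∀ r < N i, F r ≤ (T (d r) ⊓ G i r) ⊔ G i (nb i r)) ∧
      ∑ r ∈ range (N i), (d r : ℝ) ≤
        (k i : ℝ) * N i - ∑ t ∈ range (k i), (Hf T (P i) t : ℝ) := by
    intro i
    by_cases hi : i < j
    swap
    · exact ⟨fun _ => ⊥, fun _ => 0, fun h => absurd h hi⟩
    have := hfd (k i)
    have hH := Hf_add_finrank_inf T (P i) (k i)
    obtain ⟨F, d, f1, f2, f3, f4, f5, -, f7, f8⟩ := exists_deg_flag (T (k i))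
      (T (k i) ⊓ (P i).restrictScalars ℂ) (N i) (k i) (by rw [hN i hi]; omega) (G i) (nb i)
      (hG0 i hi) (hGN i hi) (hanti i hi) (hcod i hi) (hnum.nb1 i hi) (hnum.nb2 i hi) (hblk i hi)
      T hT rfl
    refine ⟨F, d, fun _ => ⟨⟨f1, f2, f3, f4, f5⟩, f7, ?_⟩⟩
    have e : ∑ t ∈ range (k i), finrank ℂ (T t) = ∑ t ∈ range (k i), Hf T (P i) t +
        ∑ t ∈ range (k i), finrank ℂ ↥(T t ⊓ (T (k i) ⊓ (P i).restrictScalars ℂ)) := by
      rw [← sum_add_distrib]
      refine sum_congr rfl fun t ht => ?_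
      have := hfd t
      rw [← inf_assoc, inf_eq_left.2 (hT (mem_range.1 ht).le)]
      exact (Hf_add_finrank_inf T (P i) t).symm
    have h2 : ∑ r ∈ range (N i), d r + ∑ t ∈ range (k i), Hf T (P i) t ≤ k i * N i := by omega
    have h3 : ((∑ r ∈ range (N i), d r + ∑ t ∈ range (k i), Hf T (P i) t : ℕ) : ℝ) ≤
        ((k i * N i : ℕ) : ℝ) := by exact_mod_cast h2
    push_cast at h3
    linarith
  choose F d hF using hfl
  obtain ⟨ρ, hρ0, hρ1, hsp⟩ := split hnum one_pos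
  obtain ⟨s, b, e, h0, hs, hK, hb, hlast⟩ := hsp K le hc h3
    (fun i r => Ideal.span (F i r : Set O))
    (fun i r => Ideal.span ((T (d i r) ⊓ G i r : Submodule ℂ O) : Set O)) (fun _ _ => ⊥)
    (fun i _ r _ => Ideal.span_mono (inf_le_right : T (d i r) ⊓ G i r ≤ G i r))
    (fun _ _ _ _ => bot_le)
    (fun i hi r hr => hc.of_le _ _ (by
      rw [show ∀ J : Ideal O, J + ⊥ = J from fun J => add_zero J, ← span_coe_sup]
      exact Ideal.span_mono ((hF i hi).2.1 r hr)))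
    (h1 ρ hρ0 hρ1 F fun i hi => (hF i hi).1)
  set I := ((range j).sigma fun i => range (N i)) ×ˢ (univ : Finset Bool) with hI
  set W : (Σ _ : ℕ, ℕ) × Bool → Submodule ℂ O := fun x =>
    if x.2 then T (d x.1.1 x.1.2) ⊓ G x.1.1 x.1.2 else G x.1.1 (nb x.1.1 x.1.2) with hW
  set dg : (Σ _ : ℕ, ℕ) × Bool → ℕ := fun x => if x.2 then d x.1.1 x.1.2 else k x.1.1 with hdg
  set cc : (Σ _ : ℕ, ℕ) × Bool → ℝ := fun x => if x.2 then s x.1.1 x.1.2 else e x.1.1 x.1.2
    with hcc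
  have hsum : ∀ {M : Type} [AddCommMonoid M] (f : (Σ _ : ℕ, ℕ) × Bool → M),
      ∑ q : Fin I.card, f (I.equivFin.symm q) =
        ∑ i ∈ range j, ∑ r ∈ range (N i), (f (⟨i, r⟩, true) + f (⟨i, r⟩, false)) := by
    intro M _ f
    rw [Equiv.sum_comp I.equivFin.symm (fun x : I => f x), sum_coe_sort I f, hI, sum_product,
      sum_sigma]
    simp
  have hD : ∑ q : Fin I.card, single (Ideal.span (W (I.equivFin.symm q) : Set O))
      (cc (I.equivFin.symm q)) = ∑ i ∈ range j, ∑ r ∈ range (N i),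
        (single (Ideal.span ((T (d i r) ⊓ G i r : Submodule ℂ O) : Set O)) (s i r) +
          single ⊥ (b i r) + single (Ideal.span (G i (nb i r) : Set O)) (e i r)) := by
    rw [hsum fun x => single (Ideal.span (W x : Set O)) (cc x)]
    refine sum_congr rfl fun i hi => sum_congr rfl fun r hr => ?_
    rw [(hb i (mem_range.1 hi) r (mem_range.1 hr)).1 rfl]
    simp [hW, hcc]
  refine ⟨I.card, fun q => W (I.equivFin.symm q), fun q => dg (I.equivFin.symm q),
    fun q => cc (I.equivFin.symm q), ?_, ?_, ?_, ?_, ?_⟩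
  · intro q
    beta_reduce
    generalize I.equivFin.symm q = x
    obtain ⟨⟨⟨i, r⟩, t⟩, hx⟩ := x
    have hx' := mem_sigma.1 (mem_product.1 hx).1
    have hi : i < j := mem_range.1 hx'.1
    have hr : r < N i := mem_range.1 hx'.2
    cases t
    · simp only [hW, hdg, Bool.false_eq_true, if_false]
      exact hG0 i hi ▸ hanti i hi 0 _ (Nat.zero_le _) (hnum.nb2 i hi r hr)
    · simp only [hW, hdg, if_true]
      exact inf_le_left
  · intro q
    simp only [hcc]
    split_ifs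
    exacts [(h0 _ _).1, (h0 _ _).2.2]
  · rw [hD]; exact hK
  · intro b0 hb0 hK'
    rw [hD] at hK'
    have hpos : 0 ≤ 3 * eps j / g j :=
      div_nonneg (mul_nonneg (by norm_num) (hnum.e0 j hj le_rfl).le) (hnum.g0 j hj le_rfl).le
    exact absurd (hlast hj b0 (hpos.trans hb0.le) hK') (not_le.2 hb0)
  · rw [hsum fun x => cc x * (dg x : ℝ)]
    refine sum_le_sum fun i hi => ?_
    have hi' := mem_range.1 hi
    simp only [hcc, hdg, if_true, Bool.false_eq_true, if_false, sum_add_distrib]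
    refine add_le_add ?_ ?_
    · refine le_trans ?_ (mul_le_mul_of_nonneg_left (hF i hi').2.2 (hnum.c0 i hi'))
      rw [Finset.mul_sum]
      exact sum_le_sum fun r hr =>
        mul_le_mul_of_nonneg_right (hs i hi' r (mem_range.1 hr)).2 (Nat.cast_nonneg _)
    · rcases Nat.eq_zero_or_pos (N i) with hN0 | hN0
      · rw [hN0]; simpa using hl0 i hi'
      have hNp : (0 : ℝ) < N i := by exact_mod_cast hN0
      calc ∑ r ∈ range (N i), e i r * (k i : ℝ) ≤ ∑ _r ∈ range (N i), lam i / N i := by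
            refine sum_le_sum fun r hr => ?_
            rw [le_div_iff₀ hNp]
            rcases (hb i hi' r (mem_range.1 hr)).2.2 with h | ⟨m, m1, m2, m3, h⟩
            · rw [h]; simpa using hl0 i hi'
            · refine le_trans ?_ (hlam m m1 m3 i hi' m2)
              rw [mul_assoc]
              exact mul_le_mul_of_nonneg_right h (by positivity)
        _ = lam i := by
            rw [sum_const, card_range, nsmul_eq_mul]
            field_simp

end Pool.Agent.Lib.MP_9ff3e7_ag.F
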