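import Pool.Agent.Lib.MP_9ff3e7_ag.F.FlagChain

/-! A complete flag that refines a given coarse flag and descends along a degree filtration. -/

set_option autoImplicit false

namespace Pool.Agent.Lib.MP_9ff3e7_ag.F

open Module Finset

variable {K W : Type} [Field K] [AddCommGroup W] [Module K W]

theorem exists_deg_flag (V C : Submodule K W) [FiniteDimensional K V] (N k : ℕ)
    (hN : finrank K C + N = finrank K V) (G : ℕ → Submodule K W) (nb : ℕ → ℕ)
    (hG0 : G 0 = V) (hGN : G N = C) (hanti : ∀ r r', r ≤ r' → r' ≤ N → G r' ≤ G r)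
    (hcod : ∀ r < N, finrank K V ≤ finrank K (G r) + r)
    (hnb1 : ∀ r < N, r < nb r) (hnb2 : ∀ r < N, nb r ≤ N)
    (hblk : ∀ r < N, ∀ r', r ≤ r' → r' < nb r → G r' = G r ∧ nb r' = nb r)
    (T : ℕ → Submodule K W) (hT : Monotone T) (hTk : T k = V) :
    ∃ (F : ℕ → Submodule K W) (d : ℕ → ℕ), F 0 = V ∧ (∀ r, N ≤ r → F r = C) ∧ Antitone F ∧
      (∀ r ≤ N, finrank K (F r) + r = finrank K V) ∧
      (∀ r ≤ N, finrank K (G r) + r = finrank K V → F r = G r) ∧
      (∀ r, d r ≤ k) ∧ (∀ r < N, F r ≤ (T (d r) ⊓ G r) ⊔ G (nb r)) ∧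
      ∑ r ∈ range N, d r + ∑ t ∈ range k, finrank K (T t) ≤
        k * N + ∑ t ∈ range k, finrank K ↥(T t ⊓ C) := by
  classical
  set S : ℕ → ℕ → Submodule K W := fun r t => (T t ⊓ G r) ⊔ G (nb r) with hS
  have hGV : ∀ r ≤ N, G r ≤ V := fun r hr => hG0 ▸ hanti 0 r (Nat.zero_le _) hr
  have hCG : ∀ r ≤ N, C ≤ G r := fun r hr => hGN ▸ hanti r N hr le_rfl
  have hSG : ∀ r < N, ∀ t, S r t ≤ G r := fun r hr t =>
    sup_le inf_le_right (hanti r (nb r) (hnb1 r hr).le (hnb2 r hr))
  have hGS : ∀ r t, G (nb r) ≤ S r t := fun r t => le_sup_right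
  have hSk : ∀ r < N, S r k = G r := fun r hr =>
    le_antisymm (hSG r hr k) (le_sup_of_le_left (le_inf (hTk ▸ hGV r hr.le) le_rfl))
  have hcmp : ∀ r r', r ≤ r' → r' < N → ∀ t t', S r t ≤ S r' t' ∨ S r' t' ≤ S r t := by
    intro r r' h hr' t t'
    have hr : r < N := lt_of_le_of_lt h hr'
    by_cases hb : r' < nb r
    · obtain ⟨e1, e2⟩ := hblk r hr r' h hb
      simp only [hS, e1, e2]
      rcases le_total t t' with ht | ht
      · exact Or.inl (sup_le_sup_right (inf_le_inf_right _ (hT ht)) _)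
      · exact Or.inr (sup_le_sup_right (inf_le_inf_right _ (hT ht)) _)
    · exact Or.inr ((hSG r' hr' t').trans ((hanti (nb r) r' (by omega) hr'.le).trans (hGS r t)))
  have hCV : C ≤ V := hGN ▸ hGV N le_rfl
  obtain ⟨F, hF0, hFN, hFa, hFd, hFS⟩ := exists_flag_of_chain V C hCV N hN
    {X | ∃ r < N, ∃ t, X = S r t} (by
      rintro _ ⟨r, hr, t, rfl⟩ _ ⟨r', hr', t', rfl⟩ _
      rcases le_total r r' with h | h
      · exact hcmp r r' h hr' t t'
      · exact (hcmp r' r h hr t' t).symm) (by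
      rintro _ ⟨r, hr, t, rfl⟩
      exact ⟨(hCG _ (hnb2 r hr)).trans (hGS r t), (hSG r hr t).trans (hGV r hr.le)⟩)
  have hFV : ∀ r, F r ≤ V := fun r => hF0 ▸ hFa (Nat.zero_le r)
  have hmem : ∀ r < N, ∀ t, ∃ q ≤ N, finrank K (S r t) + q = finrank K V ∧ F q = S r t := by
    intro r hr t
    have h1 : S r t ≤ V := (hSG r hr t).trans (hGV r hr.le)
    have : FiniteDimensional K (S r t) := Submodule.finiteDimensional_of_le h1
    have h2 := Submodule.finrank_mono h1
    have h3 := Submodule.finrank_mono ((hCG _ (hnb2 r hr)).trans (hGS r t))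
    exact ⟨finrank K V - finrank K (S r t), by omega, by omega,
      hFS _ ⟨r, hr, t, rfl⟩ _ (by omega) (by omega)⟩
  have hFG : ∀ r < N, F r ≤ G r := by
    intro r hr
    obtain ⟨q, hq, e1, e2⟩ := hmem r hr k
    rw [hSk r hr] at e1 e2
    have := hcod r hr
    exact e2 ▸ hFa (by omega : q ≤ r)
  have hex : ∀ r, ∃ t, t ≤ k ∧ (r < N → F r ≤ S r t) := fun r =>
    ⟨k, le_rfl, fun hr => (hSk r hr).symm ▸ hFG r hr⟩
  refine ⟨F, fun r => Nat.find (hex r), hF0, hFN, hFa, hFd, ?_, fun r => (Nat.find_spec (hex r)).1,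
    fun r hr => (Nat.find_spec (hex r)).2 hr, ?_⟩
  · intro r hr h
    rcases hr.eq_or_lt with h' | h'
    · rw [h', hFN N le_rfl, hGN]
    · exact hFS _ ⟨r, h', k, (hSk r h').symm⟩ r hr h
  · have hdrop : ∀ t < k, ∀ r < N, finrank K ↥(T t ⊓ F r) ≤
        finrank K ↥(T t ⊓ F (r + 1)) + if Nat.find (hex r) ≤ t then 1 else 0 := by
      intro t ht r hr
      have : FiniteDimensional K (F r) := Submodule.finiteDimensional_of_le (hFV r)
      have : FiniteDimensional K (F (r + 1)) := Submodule.finiteDimensional_of_le (hFV _)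
      have hle : F (r + 1) ≤ F r := hFa (Nat.le_succ r)
      split_ifs with h
      · have h1 := Submodule.finrank_sup_add_finrank_inf_eq (T t ⊓ F r) (F (r + 1))
        have h2 : T t ⊓ F r ⊓ F (r + 1) = T t ⊓ F (r + 1) := by
          rw [inf_assoc, inf_eq_right.2 hle]
        have h3 := Submodule.finrank_mono (sup_le inf_le_right hle : T t ⊓ F r ⊔ F (r + 1) ≤ F r)
        have h4 := hFd r hr.le
        have h5 := hFd (r + 1) hr
        rw [h2] at h1
        omega
      · have h1 : ¬ F r ≤ S r t := fun h' => h (Nat.find_min' (hex r) ⟨ht.le, fun _ => h'⟩)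
        obtain ⟨q, hq, -, e2⟩ := hmem r hr t
        have h2 : r + 1 ≤ q := by
          by_contra hc
          exact h1 (e2 ▸ hFa (by omega : q ≤ r))
        have h3 : T t ⊓ F r ≤ T t ⊓ F (r + 1) :=
          le_inf inf_le_left (((inf_le_inf_left _ (hFG r hr)).trans le_sup_left).trans
            (e2.ge.trans (hFa h2)))
        simpa using Submodule.finrank_mono h3
    have htel : ∀ t < k, ∀ s ≤ N, finrank K ↥(T t ⊓ F 0) ≤
        finrank K ↥(T t ⊓ F s) + ∑ r ∈ range s, if Nat.find (hex r) ≤ t then 1 else 0 := by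
      intro t ht s
      induction s with
      | zero => intro _; simp
      | succ s ih =>
        intro hs
        have h1 := ih (by omega)
        have h2 := hdrop t ht s hs
        rw [sum_range_succ]
        omega
    have h1 : ∑ t ∈ range k, finrank K (T t) ≤ ∑ t ∈ range k, (finrank K ↥(T t ⊓ C) +
        ∑ r ∈ range N, if Nat.find (hex r) ≤ t then 1 else 0) := by
      refine sum_le_sum fun t ht => ?_
      have ht' := mem_range.1 ht
      have h := htel t ht' N le_rfl
      rwa [hFN N le_rfl, hF0, inf_eq_left.2 (hTk ▸ hT ht'.le)] at h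
    rw [sum_add_distrib, sum_comm] at h1
    have h2 : ∑ r ∈ range N, Nat.find (hex r) +
        ∑ r ∈ range N, ∑ t ∈ range k, (if Nat.find (hex r) ≤ t then 1 else 0) = k * N := by
      rw [← sum_add_distrib, sum_congr rfl (g := fun _ => k)]
      · simp [mul_comm]
      · intro r _
        have h := (Nat.find_spec (hex r)).1
        generalize Nat.find (hex r) = e at h
        rw [← card_filter]
        have : filter (fun t => e ≤ t) (range k) = Ico e k := by
          ext t; simp [and_comm]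
        rw [this, Nat.card_Ico]
        omega
    beta_reduce
    omega

end Pool.Agent.Lib.MP_9ff3e7_ag.F
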