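import Mathlib

/-! The arithmetic of the last stage. -/

set_option autoImplicit false

namespace Pool.Agent.Lib.MP_9ff3e7_ag.F

open Finset

theorem geom_half_le (j : ℕ) : ∑ i ∈ range j, (1 / 2 : ℝ) ^ i ≤ 2 := by
  have h : ∀ j : ℕ, ∑ i ∈ range j, (1 / 2 : ℝ) ^ i = 2 - 2 * (1 / 2) ^ j := by
    intro j
    induction j with
    | zero => simp
    | succ j ih => rw [sum_range_succ, ih, pow_succ]; ring
  rw [h]
  have : (0 : ℝ) ≤ (1 / 2) ^ j := by positivity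
  linarith

theorem end_cost {n κ δ b : ℝ} (hn : 0 ≤ n) (hκ : 0 < κ) (hδ : 0 < δ) (hδn : δ * (8 * n + 24) ≤ 1)
    {j : ℕ} {c Dg KN dl : ℕ → ℝ} (hc : ∀ i < j, 0 ≤ c i) (hD : ∀ i < j, Dg i ≤ KN i)
    (hdl0 : ∀ i < j, 0 ≤ dl i) (hdl : κ * ∑ i ∈ range j, dl i ≤ 2 * δ) (hb : κ * b ≤ δ)
    (h6 : (1 - δ) * κ * ∑ i ∈ (range j).filter (fun i => dl i ≤ c i * KN i), c i * Dg i ≤
      n + 1 / 4) :
    κ * (∑ i ∈ range j, (c i * Dg i + δ * dl i / 4) + b) ≤ n + 1 / 2 := by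
  classical
  have hδ1 : δ ≤ 1 / 24 := by nlinarith
  set X := ∑ i ∈ (range j).filter (fun i => dl i ≤ c i * KN i), c i * Dg i with hX
  set Y := ∑ i ∈ range j, dl i with hY
  have hY0 : 0 ≤ Y := sum_nonneg fun i hi => hdl0 i (mem_range.1 hi)
  have h1 : ∑ i ∈ range j, c i * Dg i ≤ X + Y := by
    rw [← sum_filter_add_sum_filter_not (range j) (fun i => dl i ≤ c i * KN i)]
    refine add_le_add le_rfl ?_
    refine le_trans (sum_le_sum (g := dl) fun i hi => ?_)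
      (sum_le_sum_of_subset_of_nonneg (filter_subset _ _) fun i hi _ => hdl0 i (mem_range.1 hi))
    obtain ⟨h1, h2⟩ := mem_filter.1 hi
    exact (mul_le_mul_of_nonneg_left (hD i (mem_range.1 h1)) (hc i (mem_range.1 h1))).trans
      (not_le.1 h2).le
  have h2 : ∑ i ∈ range j, (c i * Dg i + δ * dl i / 4) =
      ∑ i ∈ range j, c i * Dg i + δ / 4 * Y := by
    rw [sum_add_distrib, hY, Finset.mul_sum]
    congr 1
    exact sum_congr rfl fun i _ => by ring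
  have h3 : κ * X ≤ (n + 1 / 4) * (1 + 2 * δ) := by
    by_contra hh
    have hh' := not_le.1 hh
    have e : (1 - δ) * κ * X = (1 - δ) * (κ * X) := by ring
    have : (1 - δ) * ((n + 1 / 4) * (1 + 2 * δ)) < (1 - δ) * (κ * X) :=
      mul_lt_mul_of_pos_left hh' (by linarith)
    have h4 : 1 ≤ (1 - δ) * (1 + 2 * δ) := by nlinarith
    have h5 : (n + 1 / 4) * 1 ≤ (n + 1 / 4) * ((1 - δ) * (1 + 2 * δ)) :=
      mul_le_mul_of_nonneg_left h4 (by linarith)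
    nlinarith
  have h4 := mul_le_mul_of_nonneg_left h1 hκ.le
  have h5 : δ / 4 * (κ * Y) ≤ δ / 4 * (2 * δ) := mul_le_mul_of_nonneg_left hdl (by positivity)
  rw [h2]
  nlinarith

end Pool.Agent.Lib.MP_9ff3e7_ag.F
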