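import Pool.Agent.Lib.MP_9ff3e7_ag.F.KDefs
import Pool.Agent.Lib.MP_9ff3e7_ag.F.Split

/-! The klt calculus K1 - K8 as one proposition, and the conclusion of the core theorem. -/

set_option autoImplicit false

namespace Pool.Agent.Lib.MP_9ff3e7_ag.F

open Filter Topology Finsupp

variable {n : ℕ} {O : Type} [CommRing O] [Algebra ℂ O] [Algebra (MvPolynomial (Fin n) ℂ) O]

/-- K1 - K8 without the centre estimate -/
structure KAx0 (M : Model n O) : Prop where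
  ft : Algebra.FiniteType ℂ O
  mono : ∀ (p : Pnt O) (D : Ideal O →₀ ℝ) (a b : Ideal O) (c : ℝ), 0 ≤ D → 0 ≤ c → LeAt p a b →
    M.Klt p (D + single a c) → M.Klt p (D + single b c)
  drop : ∀ (p : Pnt O) (D D' : Ideal O →₀ ℝ), 0 ≤ D' → D' ≤ D → M.Klt p D → M.Klt p D'
  mul : ∀ (p : Pnt O) (D : Ideal O →₀ ℝ) (a b : Ideal O) (c : ℝ), 0 ≤ D → 0 ≤ c →
    (M.Klt p (D + single (a * b) c) ↔ M.Klt p (D + single a c + single b c))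
  zero : ∀ p : Pnt O, M.Klt p 0
  bot : ∀ (p : Pnt O) (c : ℝ), 0 < c → ¬ M.Klt p (single ⊥ c)
  unit : ∀ (p : Pnt O) (D : Ideal O →₀ ℝ) (a : Ideal O) (c : ℝ), 0 ≤ D → 0 ≤ c →
    (∃ s ∈ a, p s ≠ 0) → M.Klt p D → M.Klt p (D + single a c)
  near : ∀ (p : Pnt O) (D : Ideal O →₀ ℝ), M.Klt p D → ∀ᶠ y in nhd p, M.Klt y D
  convex : ∀ (p : Pnt O) (D D' : Ideal O →₀ ℝ) (l : ℝ), 0 ≤ D → 0 ≤ D' → 0 ≤ l → l ≤ 1 →
    M.Klt p D → M.Klt p D' → M.Klt p (l • D + (1 - l) • D')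
  k3 : ∀ (p : Pnt O) (J : Finset (Fin n)) (c : ℝ), J.Nonempty →
    M.Klt p (single (mzJ n p J) c) → c < J.card
  kerle : ∀ p : Pnt O, LeAt p (RingHom.ker p) (mz n p)
  sum : ∀ (p : Pnt O) (D : Ideal O →₀ ℝ) (a b : Ideal O) (c ν : ℝ), 0 ≤ D → 0 ≤ c → 0 < ν →
    M.Klt p (D + single (a + b) c) →
    ∃ s t, 0 ≤ s ∧ 0 ≤ t ∧ c - ν ≤ s + t ∧ M.Klt p (D + single a s + single b t)
  semi : ∀ (B ι : Type) [TopologicalSpace B] [Fintype ι] (J : ι → Type) [∀ a, Fintype (J a)]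
    (V : Submodule ℂ O) [FiniteDimensional ℂ V] (f : B → ∀ a, J a → O) (c : ι → ℝ) (β₀ : B)
    (p : Pnt O) (ρ : ℝ), (∀ β a i, f β a i ∈ V) →
    (∀ (l : O →ₗ[ℂ] ℂ) a i, ContinuousAt (fun β => l (f β a i)) β₀) → (∀ a, 0 ≤ c a) → 1 < ρ →
    M.Klt p (ρ • ∑ a, single (Ideal.span (Set.range (f β₀ a))) (c a)) →
    ∀ᶠ q in 𝓝 β₀ ×ˢ nhd p, M.Klt q.2 (∑ a, single (Ideal.span (Set.range (f q.1 a))) (c a))
  zarN : ∀ (p : Pnt O) (D : Ideal O →₀ ℝ), 0 ≤ D → M.Klt p D →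
    ∃ f : O, p f ≠ 0 ∧ ∀ q : Pnt O, M.KltN q f D
  ofN : ∀ (q : Pnt O) (f : O) (D : Ideal O →₀ ℝ), q f ≠ 0 → M.KltN q f D → M.Klt q D
  skoda : ∀ (p : Pnt O) (a : Ideal O), a ≠ ⊥ → ∃ c : ℝ, 0 < c ∧ M.Klt p (single a c)
  dense : ∀ (x : Pnt O) (P : Ideal O) (h : O), P.IsPrime → (∀ s ∈ P, x s = 0) → h ∉ P →
    ∃ᶠ y in nhd x, (∀ s ∈ P, y s = 0) ∧ y h ≠ 0

/-- the ideal of functions vanishing at all points where `D` is not klt -/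
def Model.nkltI (M : Model n O) (D : Ideal O →₀ ℝ) : Ideal O :=
  ⨅ y ∈ {y : Pnt O | ¬ M.Klt y D}, RingHom.ker y

/-- K1 - K8 -/
structure KAx (M : Model n O) : Prop extends KAx0 M where
  theta : ∀ (D : Ideal O →₀ ℝ) (η₀ : ℝ) (P : Ideal O), 0 ≤ D → 0 < η₀ →
    P ∈ (M.nkltI ((1 + η₀) • D)).minimalPrimes →
    (∀ η, 0 < η → η ≤ η₀ → ∀ y : Pnt O, (∀ s ∈ P, y s = 0) → ¬ M.Klt y ((1 + η) • D)) →
    ∃ K : ℝ, 0 ≤ K ∧ ∀ (ε b : ℝ) (y : Pnt O), 0 ≤ ε → ε ≤ 1 → 0 ≤ b → (∀ s ∈ P, y s = 0) →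
      M.Klt y ((1 - ε) • D + single P b) → b ≤ K * ε

theorem leAt_of_le (p : Pnt O) {a b : Ideal O} (h : a ≤ b) : LeAt p a b :=
  ⟨1, by simp, fun s hs => by simpa using h hs⟩

theorem KAx0.zar {M : Model n O} (h : KAx0 M) (p : Pnt O) (D : Ideal O →₀ ℝ) (hD : 0 ≤ D)
    (hp : M.Klt p D) : ∃ f : O, p f ≠ 0 ∧ ∀ q : Pnt O, q f ≠ 0 → M.Klt q D := by
  obtain ⟨f, hf, hq⟩ := h.zarN p D hD hp
  exact ⟨f, hf, fun q hq' => h.ofN q f D hq' (hq q)⟩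

theorem KAx0.calc {M : Model n O} (h : KAx0 M) (y : Pnt O) : Calc (M.Klt y) (LeAt y) where
  of_le _ _ hab := leAt_of_le y hab
  mono := h.mono y
  drop := h.drop y
  mul D a b c hD hc := (h.mul y D a b c hD hc).1
  bot := h.bot y
  sum := h.sum y

/-- the conclusion of the core theorem at the point `x` -/
def CoreConcl (M : Model n O) (Fi : Filt n O) (x : Pnt O) : Prop :=
  ∃ (m : ℕ) (W : Fin m → Submodule ℂ O) (dg : Fin m → ℕ) (c : Fin m → ℝ) (b : ℝ),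
    (∀ a, W a ≤ Fi.F (dg a)) ∧ (∀ a, 0 ≤ c a) ∧ 0 ≤ b ∧
    M.Klt x (∑ a, single (Ideal.span (W a : Set O)) (c a)) ∧
    ¬ M.Klt x (∑ a, single (Ideal.span (W a : Set O)) (c a) + single (mz n x) b) ∧
    (Fi.kap : ℝ) * (∑ a, c a * dg a + b) ≤ n + 1 / 2

/-- the conclusion with an arbitrary finite index type -/
theorem coreConcl_of {M : Model n O} {Fi : Filt n O} {x : Pnt O} {ι : Type} [Fintype ι]
    (W : ι → Submodule ℂ O) (dg : ι → ℕ) (c : ι → ℝ) (b : ℝ)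
    (h1 : ∀ a, W a ≤ Fi.F (dg a)) (h2 : ∀ a, 0 ≤ c a) (h3 : 0 ≤ b)
    (h4 : M.Klt x (∑ a, single (Ideal.span (W a : Set O)) (c a)))
    (h5 : ¬ M.Klt x (∑ a, single (Ideal.span (W a : Set O)) (c a) + single (mz n x) b))
    (h6 : (Fi.kap : ℝ) * (∑ a, c a * dg a + b) ≤ n + 1 / 2) : CoreConcl M Fi x := by
  let e := (Fintype.equivFin ι).symm
  have e1 : ∑ a, single (Ideal.span (W (e a) : Set O)) (c (e a)) =
      ∑ a, single (Ideal.span (W a : Set O)) (c a) :=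
    e.sum_comp fun a => single (Ideal.span (W a : Set O)) (c a)
  have e2 : ∑ a, c (e a) * dg (e a) = ∑ a, c a * dg a := e.sum_comp fun a => c a * dg a
  exact ⟨_, fun a => W (e a), fun a => dg (e a), fun a => c (e a), b, fun a => h1 _, fun a => h2 _,
    h3, by rwa [e1], by rwa [e1], by rwa [e2]⟩

end Pool.Agent.Lib.MP_9ff3e7_ag.F
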