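import Pool.Agent.Lib.MP_9ff3e7_ag.F.EndAbs
import Pool.Agent.Lib.MP_9ff3e7_ag.F.EndNum
import Pool.Agent.Lib.MP_9ff3e7_ag.F.KAx
import Pool.Agent.Lib.MP_9ff3e7_ag.F.Brk

/-! The last stage of the core argument in the model, with unbundled hypotheses. -/

set_option autoImplicit false

namespace Pool.Agent.Lib.MP_9ff3e7_ag.F

open Module Finset Finsupp

variable {n : ℕ} {O : Type} [CommRing O] [Algebra ℂ O] [Algebra (MvPolynomial (Fin n) ℂ) O]

theorem mz_le_ker (x : Pnt O) : mz n x ≤ RingHom.ker x := by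
  refine Ideal.span_le.2 ?_
  rintro _ ⟨i, -, rfl⟩
  simp [RingHom.mem_ker]

theorem exists_small_eps {j : ℕ} (u v : ℕ → ℝ) (hv : ∀ i < j, 0 < v i) {w z : ℝ} (hz : 0 < z) :
    ∃ e : ℝ, 0 < e ∧ e * w ≤ z ∧ ∀ i < j, e * u i ≤ v i := by
  have ev : ∀ᶠ e : ℝ in nhds 0, ∀ i ∈ range j, e * u i < v i := by
    rw [Filter.eventually_all_finset]
    intro i hi
    have : ContinuousAt (fun e : ℝ => e * u i) 0 := by fun_prop
    exact this.eventually_lt continuousAt_const (by simpa using hv i (mem_range.1 hi))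
  have ev1 : ∀ᶠ e : ℝ in nhds 0, e * w < z := by
    have : ContinuousAt (fun e : ℝ => e * w) 0 := by fun_prop
    exact this.eventually_lt continuousAt_const (by simpa using hz)
  have ev2 : ∀ᶠ e : ℝ in nhdsWithin 0 (Set.Ioi 0), _ :=
    ((ev.and ev1).filter_mono nhdsWithin_le_nhds).and self_mem_nhdsWithin
  obtain ⟨e, ⟨h1, h2⟩, h3⟩ := ev2.exists
  exact ⟨e, h3, h2.le, fun i hi => (h1 i (mem_range.2 hi)).le⟩

theorem end_zero {M : Model n O} (hK : KAx0 M) (Fi : Filt n O) (x : Pnt O)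
    (h : RingHom.ker x = ⊥) : CoreConcl M Fi x := by
  have hκ : (0 : ℝ) < Fi.kap := by exact_mod_cast Fi.kap1
  have hm : mz n x = ⊥ := le_bot_iff.1 (h ▸ mz_le_ker x)
  refine ⟨0, Fin.elim0, Fin.elim0, Fin.elim0, 1 / (2 * Fi.kap), fun q => q.elim0,
    fun q => q.elim0, by positivity, by simpa using hK.zero x, ?_, ?_⟩
  · rw [hm]
    simpa using hK.bot x (1 / (2 * Fi.kap)) (by positivity)
  · have : (Fi.kap : ℝ) * (1 / (2 * Fi.kap)) = 1 / 2 := by field_simp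
    simp only [univ_eq_empty, sum_empty, zero_add, this]
    have : (0 : ℝ) ≤ n := Nat.cast_nonneg n
    linarith

theorem end_model {M : Model n O} (hK : KAx0 M) (Fi : Filt n O) (x : Pnt O) {j : ℕ}
    {k N : ℕ → ℕ} {c : ℕ → ℝ} {P : ℕ → Ideal O} {F0 : ℕ → ℕ → Submodule ℂ O} {Br : ℕ → Set ℕ}
    {a : ℕ → ℕ → ℕ → ℝ} {g eps dl : ℕ → ℝ} {δ : ℝ}
    (hPj : P j = RingHom.ker x) (hP0 : P 0 = ⊥) (hN : ∀ i < j, N i = Hf Fi.F (P i) (k i))
    (hB0 : ∀ i < j, 0 ∈ Br i) (hBN : ∀ i < j, N i ∈ Br i)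
    (hF0 : ∀ i < j, F0 i 0 = Fi.F (k i))
    (hFN : ∀ i < j, F0 i (N i) = Fi.F (k i) ⊓ (P i).restrictScalars ℂ)
    (hFa : ∀ i < j, ∀ r r', r ≤ r' → r' ≤ N i → F0 i r' ≤ F0 i r)
    (hFd : ∀ i < j, ∀ r ≤ N i, finrank ℂ (F0 i r) + r = finrank ℂ (Fi.F (k i)))
    (c0 : ∀ i < j, 0 ≤ c i) (g0 : ∀ m, 1 ≤ m → m ≤ j → 0 < g m)
    (e0 : ∀ m, 1 ≤ m → m < j → 0 < eps m)
    (a0 : ∀ m, 1 ≤ m → m ≤ j → ∀ i < m, ∀ r ≤ N i, 0 ≤ a m i r)
    (I2a : ∀ m, 1 ≤ m → m ≤ j → ∀ i < m, ∀ r r', r ≤ r' → r' ≤ N i → a m i r ≤ a m i r')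
    (I2b : ∀ i < j, ∀ r < N i, nb (Br i) r < N i →
      ∃ m, i < m ∧ m ≤ j ∧ a m i (nb (Br i) r - 1) + g m ≤ a m i (nb (Br i) r))
    (I4 : ∀ m, 1 ≤ m → m < j →
      1 - 2 * eps m ≤ ∑ i ∈ range m, c i * ∑ r ∈ range (N i), a m i r)
    (I4j : 1 ≤ j → 1 ≤ ∑ i ∈ range j, c i * ∑ r ∈ range (N i), a j i r)
    (I3 : I3At (M.Klt x) j N P (fun i r => Ideal.span (F0 i (pb (Br i) r) : Set O)) a g)
    (I1 : ∀ ρ : ℝ, 0 < ρ → ρ < 1 → ∀ F : ℕ → ℕ → Submodule ℂ O,
      (∀ i < j, F i 0 = Fi.F (k i) ∧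
        (∀ r, N i ≤ r → F i r = Fi.F (k i) ⊓ (P i).restrictScalars ℂ) ∧ Antitone (F i) ∧
        (∀ r ≤ N i, finrank ℂ (F i r) + r = finrank ℂ (Fi.F (k i))) ∧
        ∀ r ∈ Br i, r ≤ N i → F i r = F0 i r) →
      M.Klt x (∑ i ∈ range j, ∑ r ∈ range (N i),
        single (Ideal.span (F i r : Set O)) (ρ * c i)))
    (hδ : 0 < δ) (hδn : δ * (8 * n + 24) ≤ 1) (hdl0 : ∀ i < j, 0 < dl i)
    (hdl : (Fi.kap : ℝ) * ∑ i ∈ range j, dl i ≤ 2 * δ)
    (I5 : ∀ m, 1 ≤ m → m < j → ∀ i ≤ m, 4 * (3 * eps m / g m) * (k i * N i) ≤ δ * dl i)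
    (I6 : (1 - δ) * Fi.kap * ∑ i ∈ (range j).filter (fun i => dl i ≤ c i * (k i * N i)),
      c i * ((k i : ℝ) * N i - ∑ t ∈ range (k i), (Hf Fi.F (P i) t : ℝ)) ≤ n + 1 / 4) :
    CoreConcl M Fi x := by
  classical
  rcases Nat.eq_zero_or_pos j with hj | hj
  · subst hj
    exact end_zero hK Fi x (hPj.symm.trans hP0)
  have hκ : (0 : ℝ) < Fi.kap := by exact_mod_cast Fi.kap1
  have hg := g0 j hj le_rfl
  obtain ⟨e, he, he1, he2⟩ := exists_small_eps (j := j) (fun i => 3 / g j * (k i * N i))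
    (fun i => δ * dl i / 4) (fun i hi => by have := hdl0 i hi; positivity)
    (w := Fi.kap * (4 / g j)) hδ
  have hnum : Num j j N c P (fun i r => Ideal.span (F0 i (pb (Br i) r) : Set O))
      (fun i => nb (Br i)) a g (Function.update eps j e) :=
    { jL := le_rfl
      Lj := Nat.le_succ j
      c0 := c0
      P0 := hP0
      cap := fun i hi => by
        rw [pb_eq_self (hBN i hi), hFN i hi]
        exact Ideal.span_le.2 fun v hv => hv.2
      nb1 := fun i hi r hr => lt_nb (hBN i hi) hr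
      nb2 := fun i hi r hr => nb_le (hBN i hi) hr
      g0 := g0
      e0 := fun m h1 h2 => by
        rcases h2.eq_or_lt with h | h
        · rw [h, Function.update_self]; exact he
        · rw [Function.update_of_ne h.ne]; exact e0 m h1 h
      a0 := a0
      I2a := I2a
      I2b := I2b
      I4 := fun m h1 h2 => by
        rcases h2.eq_or_lt with h | h
        · subst h
          rw [Function.update_self]
          linarith [I4j h1]
        · rw [Function.update_of_ne h.ne]; exact I4 m h1 h }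
  obtain ⟨m, W, dg, cc, h1, h2, h3, h4, h5⟩ := end_abs Fi.F Fi.fd Fi.mono (hK.calc x) hj
    (G := fun i r => F0 i (pb (Br i) r)) hnum I3 hN
    (fun i hi => by rw [pb_zero]; exact hF0 i hi)
    (fun i hi => by rw [pb_eq_self (hBN i hi)]; exact hFN i hi)
    (fun i hi r r' h h' => hFa i hi _ _ (pb_mono _ h) ((pb_le _ _).trans h'))
    (fun i hi r hr => by
      have h1 := hFd i hi (pb (Br i) r) ((pb_le _ _).trans hr.le)
      have h2 := pb_le (Br i) r
      omega)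
    (fun i hi r hr r' h h' => ⟨by rw [pb_eq_of_lt_nb (hB0 i hi) ((pb_le _ _).trans h) h'],
      nb_eq_of_lt_nb (hBN i hi) hr ((pb_le _ _).trans h) h'⟩)
    (fun ρ r0 r1 F hF => I1 ρ r0 r1 F fun i hi => by
      obtain ⟨f1, f2, f3, f4, f5⟩ := hF i hi
      refine ⟨f1, f2, f3, f4, fun r hr hrN => ?_⟩
      have := f5 r hrN
      rw [pb_eq_self hr] at this
      exact this (hFd i hi r hrN))
    (lam := fun i => δ * dl i / 4) (fun i hi => by have := hdl0 i hi; positivity)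
    (fun m m1 m2 i hi him => by
      rcases m2.eq_or_lt with h | h
      · subst h
        rw [Function.update_self]
        have := he2 i hi
        calc 3 * e / g m * (k i * N i) = e * (3 / g m * (k i * N i)) := by ring
          _ ≤ _ := this
      · rw [Function.update_of_ne h.ne]
        linarith [I5 m m1 h i him])
  rw [Function.update_self] at h4
  have hb0 : 0 ≤ 4 * e / g j := by positivity
  refine ⟨m, W, dg, cc, 4 * e / g j, h1, h2, hb0, h3, fun hk => h4 (4 * e / g j) ?_ ?_, ?_⟩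
  · exact div_lt_div_of_pos_right (by linarith) hg
  · exact hK.mono x _ _ _ _ (sum_nonneg fun q _ => single_nonneg.2 (h2 q)) hb0
      (leAt_of_le x (hPj ▸ mz_le_ker x)) hk
  · refine le_trans (mul_le_mul_of_nonneg_left (add_le_add h5 le_rfl) hκ.le) ?_
    refine end_cost (KN := fun i => (k i : ℝ) * N i) (Nat.cast_nonneg n) hκ hδ hδn c0
      (fun i _ => sub_le_self _ (sum_nonneg fun t _ => Nat.cast_nonneg _))
      (fun i hi => (hdl0 i hi).le) hdl ?_ I6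
    calc (Fi.kap : ℝ) * (4 * e / g j) = e * (Fi.kap * (4 / g j)) := by ring
      _ ≤ δ := he1

end Pool.Agent.Lib.MP_9ff3e7_ag.F
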