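import Mathlib

/-! Complete flags refining a partial flag are parametrised by a compact set of frames. -/

set_option autoImplicit false

namespace Pool.Agent.Lib.MP_9ff3e7_ag.F

open Module Submodule

/-- an orthonormal frame adapted to a flag -/
theorem exists_adapted {D N : ℕ} (W : ℕ → Submodule ℂ (EuclideanSpace ℂ (Fin D)))
    (hanti : ∀ r r', r ≤ r' → r' ≤ N → W r' ≤ W r)
    (hdim : ∀ r ≤ N, finrank ℂ (W r) + r = D) :
    ∃ u : Fin D → EuclideanSpace ℂ (Fin D), Orthonormal ℂ u ∧
      ∀ r ≤ N, ∀ r' : Fin D, r ≤ (r' : ℕ) → u r' ∈ W r := by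
  have hex : ∀ r, r < N → ∃ v : EuclideanSpace ℂ (Fin D),
      ‖v‖ = 1 ∧ v ∈ W r ∧ v ∈ (W (r + 1))ᗮ := by
    intro r hr
    have h1 := hdim r hr.le
    have h2 := hdim (r + 1) hr
    have hle : W (r + 1) ≤ W r := hanti r (r + 1) (Nat.le_succ r) hr
    have h3 := Submodule.finrank_add_inf_finrank_orthogonal hle
    have h4 : (W (r + 1))ᗮ ⊓ W r ≠ ⊥ := by
      intro h0
      rw [h0, finrank_bot] at h3
      omega
    obtain ⟨v, hv, hv0⟩ := Submodule.exists_mem_ne_zero_of_ne_bot h4
    have hn : ‖v‖ ≠ 0 := norm_ne_zero_iff.mpr hv0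
    refine ⟨((‖v‖⁻¹ : ℝ) : ℂ) • v, ?_, Submodule.smul_mem _ _ hv.2, Submodule.smul_mem _ _ hv.1⟩
    rw [norm_smul, Complex.norm_real, norm_inv, norm_norm, inv_mul_cancel₀ hn]
  choose! v hv using hex
  have hN := hdim N le_rfl
  let b := stdOrthonormalBasis ℂ (W N)
  let u : Fin D → EuclideanSpace ℂ (Fin D) := fun r =>
    if h : (r : ℕ) < N then v r else (b ⟨r - N, by have := r.2; omega⟩ : W N)
  have hmem : ∀ r ≤ N, ∀ r' : Fin D, r ≤ (r' : ℕ) → u r' ∈ W r := by
    intro r hr r' hrr
    by_cases h : (r' : ℕ) < N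
    · simp only [u, dif_pos h]
      exact hanti r r' hrr h.le (hv r' h).2.1
    · simp only [u, dif_neg h]
      exact hanti r N hr le_rfl (Subtype.property _)
  have hlt : ∀ r r' : Fin D, r < r' → inner ℂ (u r') (u r) = 0 := by
    intro r r' hrr
    have hrr' : (r : ℕ) < r' := hrr
    by_cases h : (r : ℕ) < N
    · have h1 : u r' ∈ W (r + 1) := hmem (r + 1) h r' hrr'
      have h2 : u r ∈ (W (r + 1))ᗮ := by
        simp only [u, dif_pos h]
        exact (hv r h).2.2
      exact Submodule.inner_right_of_mem_orthogonal h1 h2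
    · have h' : ¬ (r' : ℕ) < N := by omega
      simp only [u, dif_neg h, dif_neg h']
      rw [← Submodule.coe_inner]
      apply b.orthonormal.2
      intro he
      have := congrArg Fin.val he
      simp only at this
      omega
  refine ⟨u, ⟨fun r => ?_, fun r r' hne => ?_⟩, hmem⟩
  · by_cases h : (r : ℕ) < N
    · simp only [u, dif_pos h]
      exact (hv r h).1
    · simp only [u, dif_neg h]
      exact b.orthonormal.1 _
  · rcases lt_or_gt_of_ne hne with h | h
    · rw [← inner_conj_symm, hlt r r' h, map_zero]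
    · exact hlt r' r h

variable {O : Type} [AddCommGroup O] [Module ℂ O]

/-- the generators of the `r`-th subspace of the flag of a frame -/
def frGen {D : ℕ} (e : Fin D → O) (u : Fin D → EuclideanSpace ℂ (Fin D)) (r : ℕ) (s : Fin D) : O :=
  ∑ l, (if r ≤ (s : ℕ) then u s l else 0) • e l

/-- the flag of a frame -/
def frFlag {D : ℕ} (e : Fin D → O) (u : Fin D → EuclideanSpace ℂ (Fin D)) (r : ℕ) :
    Submodule ℂ O := span ℂ (Set.range (frGen e u r))

theorem continuous_frCoef {D : ℕ} (r : ℕ) (s l : Fin D) :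
    Continuous fun u : Fin D → EuclideanSpace ℂ (Fin D) => (if r ≤ (s : ℕ) then u s l else 0) := by
  split_ifs
  · fun_prop
  · exact continuous_const

/-- FRAMES.  `V` finite dimensional, `G r` prescribed for `r` in a set `Br` of breaks.  The flags
`F 0 ≥ .. ≥ F N` of codimension `r` in `V` with `F r = G r` at the breaks are exactly the flags of
the frames in a compact set. -/
theorem exists_frames (V : Submodule ℂ O) [FiniteDimensional ℂ V] (Br : Set ℕ)
    (G : ℕ → Submodule ℂ O)
    (hG : ∀ r ∈ Br, G r ≤ V ∧ finrank ℂ (G r) + r = finrank ℂ V) :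
    ∃ (D : ℕ) (e : Fin D → O) (B : Set (Fin D → EuclideanSpace ℂ (Fin D))), D = finrank ℂ V ∧
      (∀ l, e l ∈ V) ∧ IsCompact B ∧
      (∀ u ∈ B, Antitone (frFlag e u) ∧ (∀ r, frFlag e u r ≤ V) ∧
        (∀ r ≤ D, finrank ℂ (frFlag e u r) + r = finrank ℂ V) ∧ ∀ r ∈ Br, frFlag e u r = G r) ∧
      ∀ (N : ℕ) (F : ℕ → Submodule ℂ O), (∀ r ∈ Br, r ≤ N) →
        (∀ r r', r ≤ r' → r' ≤ N → F r' ≤ F r) →
        (∀ r ≤ N, F r ≤ V ∧ finrank ℂ (F r) + r = finrank ℂ V) → (∀ r ∈ Br, F r = G r) →
        ∃ u ∈ B, ∀ r ≤ N, frFlag e u r = F r := by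
  classical
  set D := finrank ℂ V with hD
  let b := Module.finBasis ℂ V
  let e : Fin D → O := fun l => (b l : O)
  let T : EuclideanSpace ℂ (Fin D) →ₗ[ℂ] O :=
    V.subtype ∘ₗ b.equivFun.symm.toLinearMap ∘ₗ (WithLp.linearEquiv 2 ℂ (Fin D → ℂ)).toLinearMap
  have hT : ∀ x, T x = ∑ l, x l • e l := by
    intro x
    simp [T, e, Basis.equivFun_symm_apply]
    rfl
  have hTi : Function.Injective T := by
    simp only [T, LinearMap.coe_comp]
    exact V.injective_subtype.comp (b.equivFun.symm.injective.comp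
      (WithLp.linearEquiv 2 ℂ (Fin D → ℂ)).injective)
  have hTr : LinearMap.range T = V := by
    simp only [T]
    rw [LinearMap.range_comp, LinearMap.range_comp]
    simp
  have hfl : ∀ (u : Fin D → EuclideanSpace ℂ (Fin D)) (r : ℕ),
      frFlag e u r = span ℂ (Set.range fun s : {s : Fin D // r ≤ (s : ℕ)} => T (u s)) := by
    intro u r
    apply le_antisymm
    · rw [frFlag, span_le]
      rintro _ ⟨s, rfl⟩
      by_cases h : r ≤ (s : ℕ)
      · apply subset_span
        refine ⟨⟨s, h⟩, ?_⟩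
        simp [frGen, h, hT]
      · simp [frGen, h]
    · rw [span_le]
      rintro _ ⟨s, rfl⟩
      apply subset_span
      refine ⟨s.1, ?_⟩
      simp [frGen, s.2, hT]
  have hrk : ∀ u : Fin D → EuclideanSpace ℂ (Fin D), Orthonormal ℂ u → ∀ r ≤ D,
      finrank ℂ (frFlag e u r) + r = D := by
    intro u hu r hr
    have hli : LinearIndependent ℂ fun s : {s : Fin D // r ≤ (s : ℕ)} => T (u s) :=
      (hu.linearIndependent.comp _ Subtype.val_injective).map' T (LinearMap.ker_eq_bot.mpr hTi)
    rw [hfl, finrank_span_eq_card hli, Fintype.card_subtype]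
    have h1 := Finset.card_filter_add_card_filter_not (s := (Finset.univ : Finset (Fin D)))
      (fun s : Fin D => (s : ℕ) < r)
    rw [Fin.card_filter_val_lt] at h1
    simp only [not_lt, Finset.card_univ, Fintype.card_fin] at h1
    omega
  have hle : ∀ (u : Fin D → EuclideanSpace ℂ (Fin D)) (r : ℕ) (W : Submodule ℂ O),
      (∀ s : Fin D, r ≤ (s : ℕ) → T (u s) ∈ W) → frFlag e u r ≤ W := by
    intro u r W h
    rw [hfl, span_le]
    rintro _ ⟨s, rfl⟩
    exact h s.1 s.2
  have heq : ∀ u : Fin D → EuclideanSpace ℂ (Fin D), Orthonormal ℂ u → ∀ (r : ℕ)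
      (W : Submodule ℂ O), W ≤ V → finrank ℂ W + r = D →
      (∀ s : Fin D, r ≤ (s : ℕ) → T (u s) ∈ W) → frFlag e u r = W := by
    intro u hu r W hW hr h
    have : FiniteDimensional ℂ W := Submodule.finiteDimensional_of_le hW
    apply Submodule.eq_of_le_of_finrank_eq (hle u r W h)
    have := hrk u hu r (by omega)
    omega
  refine ⟨D, e, {u | Orthonormal ℂ u ∧ ∀ r ∈ Br, ∀ s : Fin D, r ≤ (s : ℕ) → T (u s) ∈ G r}, rfl,
    fun l => (b l).2, ?_, ?_, ?_⟩
  · have hc : IsCompact (Set.univ.pi fun _ : Fin D =>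
        Metric.closedBall (0 : EuclideanSpace ℂ (Fin D)) 1) :=
      isCompact_univ_pi fun _ => isCompact_closedBall _ _
    refine hc.of_isClosed_subset ?_ ?_
    · rw [Set.ofPred_and]
      refine IsClosed.inter ?_ ?_
      · simp only [orthonormal_iff_ite, Set.ofPred_forall]
        refine isClosed_iInter fun i => isClosed_iInter fun j => isClosed_eq ?_ continuous_const
        fun_prop
      · simp only [Set.ofPred_forall]
        refine isClosed_iInter fun r => isClosed_iInter fun _ => isClosed_iInter fun s =>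
          isClosed_iInter fun _ => ?_
        exact IsClosed.preimage (f := fun u : Fin D → EuclideanSpace ℂ (Fin D) => u s)
          (continuous_apply s) ((G r).comap T).closed_of_finiteDimensional
    · intro u hu i _
      rw [mem_closedBall_zero_iff]
      exact (hu.1.1 i).le
  · rintro u ⟨hu, hB⟩
    refine ⟨fun r r' hrr => hle u r' _ fun s hs => ?_, fun r => hle u r _ fun s _ => ?_,
      hrk u hu, fun r hr => heq u hu r _ (hG r hr).1 (hG r hr).2 (hB r hr)⟩
    · rw [hfl]
      exact subset_span ⟨⟨s, hrr.trans hs⟩, rfl⟩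
    · rw [← hTr]
      exact LinearMap.mem_range_self _ _
  · intro N F hBr hanti hF hFG
    have hdim : ∀ r ≤ N, finrank ℂ ((F r).comap T) + r = D := by
      intro r hr
      have h1 : ((F r).comap T).map T = F r :=
        Submodule.map_comap_eq_self (by rw [hTr]; exact (hF r hr).1)
      have h2 := (Submodule.equivMapOfInjective T hTi ((F r).comap T)).finrank_eq
      rw [h1] at h2
      rw [h2]
      exact (hF r hr).2
    obtain ⟨u, hu, hmem⟩ := exists_adapted (fun r => (F r).comap T)
      (fun r r' h1 h2 => Submodule.comap_mono (hanti r r' h1 h2)) hdim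
    refine ⟨u, ⟨hu, fun r hr s hs => ?_⟩, fun r hr =>
      heq u hu r _ (hF r hr).1 (hF r hr).2 fun s hs => hmem r hr s hs⟩
    rw [← hFG r hr]
    exact hmem r (hBr r hr) s hs

end Pool.Agent.Lib.MP_9ff3e7_ag.F
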