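import Mathlib

/-! Every chain of subspaces between `C` and `V` is refined by a complete flag. -/

set_option autoImplicit false

namespace Pool.Agent.Lib.MP_9ff3e7_ag.F

open Module

variable {K W : Type} [Field K] [AddCommGroup W] [Module K W]

theorem FlagChain.step (V : Submodule K W) [FiniteDimensional K V]
    (𝒞 : Set (Submodule K W)) (hc : IsChain (· ≤ ·) 𝒞) (hb : ∀ S ∈ 𝒞, S ≤ V)
    (E : Submodule K W) (hE : E ≤ V) (hlt : finrank K E < finrank K V)
    (hcomp : ∀ S ∈ 𝒞, S ≤ E ∨ E ≤ S) :
    ∃ E' : Submodule K W, E ≤ E' ∧ E' ≤ V ∧ finrank K E' = finrank K E + 1 ∧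
      ∀ S ∈ 𝒞, S ≤ E' ∨ E' ≤ S := by
  classical
  have hEV : E < V := lt_of_le_of_ne hE (by rintro rfl; exact lt_irrefl _ hlt)
  have hex : ∃ d : ℕ, ∃ S : Submodule K W, (S ∈ 𝒞 ∨ S = V) ∧ E < S ∧ finrank K S = d :=
    ⟨_, V, Or.inr rfl, hEV, rfl⟩
  obtain ⟨S, hS, hES, hd⟩ := Nat.find_spec hex
  have hSV : S ≤ V := by
    rcases hS with h | h
    · exact hb S h
    · exact h.le
  obtain ⟨v, hvS, hvE⟩ := SetLike.exists_of_lt hES
  have : FiniteDimensional K E := Submodule.finiteDimensional_of_le hE
  have : FiniteDimensional K S := Submodule.finiteDimensional_of_le hSV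
  have hv0 : v ≠ 0 := by rintro rfl; exact hvE E.zero_mem
  have hle : E ⊔ Submodule.span K {v} ≤ S :=
    sup_le hES.le ((Submodule.span_singleton_le_iff_mem v S).2 hvS)
  refine ⟨E ⊔ Submodule.span K {v}, le_sup_left, hle.trans hSV, ?_, ?_⟩
  · have h1 := Submodule.finrank_sup_add_finrank_inf_eq E (Submodule.span K {v})
    have h2 : E ⊓ Submodule.span K {v} = ⊥ :=
      disjoint_iff.1 ((Submodule.disjoint_span_singleton' hv0).2 hvE)
    rw [h2, finrank_bot, finrank_span_singleton hv0] at h1
    omega
  · intro T hT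
    rcases hcomp T hT with h | h
    · exact Or.inl (h.trans le_sup_left)
    · rcases h.eq_or_lt with h | h
      · exact Or.inl (h ▸ le_sup_left)
      · right
        refine hle.trans ?_
        have hmin : finrank K S ≤ finrank K T := by
          rw [hd]; exact Nat.find_min' hex ⟨T, Or.inl hT, h, rfl⟩
        have hTS : T ≤ S ∨ S ≤ T := by
          rcases hS with h' | h'
          · exact hc.total hT h'
          · exact Or.inl (h' ▸ hb T hT)
        rcases hTS with h' | h'
        · exact (Submodule.eq_of_le_of_finrank_le h' hmin).ge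
        · exact h'

/-- a chain of subspaces between `C` and `V` is part of a complete flag from `V` down to `C` -/
theorem exists_flag_of_chain (V C : Submodule K W) [FiniteDimensional K V] (hCV : C ≤ V) (N : ℕ)
    (hN : finrank K C + N = finrank K V) (𝒞 : Set (Submodule K W)) (hc : IsChain (· ≤ ·) 𝒞)
    (hb : ∀ S ∈ 𝒞, C ≤ S ∧ S ≤ V) :
    ∃ F : ℕ → Submodule K W, F 0 = V ∧ (∀ r, N ≤ r → F r = C) ∧ Antitone F ∧
      (∀ r ≤ N, finrank K (F r) + r = finrank K V) ∧
      ∀ S ∈ 𝒞, ∀ r ≤ N, finrank K S + r = finrank K V → F r = S := by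
  classical
  have key : ∀ s ≤ N, ∃ E : ℕ → Submodule K W, E 0 = C ∧ (∀ t < s, E t ≤ E (t + 1)) ∧
      ∀ t ≤ s, E t ≤ V ∧ finrank K (E t) = finrank K C + t ∧ ∀ S ∈ 𝒞, S ≤ E t ∨ E t ≤ S := by
    intro s
    induction s with
    | zero =>
      intro _
      refine ⟨fun _ => C, rfl, fun t ht => le_rfl, fun t ht => ⟨hCV, by beta_reduce; omega, ?_⟩⟩
      intro S hS
      exact Or.inr (hb S hS).1
    | succ s ih =>
      intro hs
      obtain ⟨E, h0, h1, h2⟩ := ih (by omega)
      obtain ⟨hV, hd, hcomp⟩ := h2 s le_rfl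
      obtain ⟨E', e1, e2, e3, e4⟩ := FlagChain.step V 𝒞 hc (fun S hS => (hb S hS).2) (E s) hV
        (by omega) hcomp
      refine ⟨fun t => if t ≤ s then E t else E', by simp [h0], ?_, ?_⟩
      · intro t ht
        beta_reduce
        by_cases h : t + 1 ≤ s
        · have h' : t ≤ s := by omega
          simp only [h, h', if_true]
          exact h1 t (by omega)
        · have h' : t = s := by omega
          subst h'
          simp only [h, le_refl, if_true, if_false]
          exact e1
      · intro t ht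
        beta_reduce
        by_cases h : t ≤ s
        · rw [if_pos h]
          exact h2 t h
        · have h' : t = s + 1 := by omega
          rw [if_neg h]
          exact ⟨e2, by omega, e4⟩
  obtain ⟨E, h0, h1, h2⟩ := key N le_rfl
  have hmono : ∀ t u, t ≤ u → u ≤ N → E t ≤ E u := by
    intro t u htu
    induction u, htu using Nat.le_induction with
    | base => intro _; exact le_rfl
    | succ u _ ih => intro hu; exact (ih (by omega)).trans (h1 u (by omega))
  refine ⟨fun r => E (N - r), ?_, ?_, ?_, ?_, ?_⟩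
  · obtain ⟨a, b, -⟩ := h2 N le_rfl
    show E N = V
    exact Submodule.eq_of_le_of_finrank_le a (by omega)
  · intro r hr
    simp only [Nat.sub_eq_zero_of_le hr, h0]
  · intro r r' h
    exact hmono _ _ (by omega) (by omega)
  · intro r hr
    obtain ⟨-, b, -⟩ := h2 (N - r) (by omega)
    beta_reduce
    omega
  · intro S hS r hr hd
    obtain ⟨a, b, c⟩ := h2 (N - r) (by omega)
    beta_reduce
    have : FiniteDimensional K (E (N - r)) := Submodule.finiteDimensional_of_le a
    have : FiniteDimensional K S := Submodule.finiteDimensional_of_le (hb S hS).2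
    rcases c S hS with h | h
    · exact (Submodule.eq_of_le_of_finrank_le h (by omega)).symm
    · exact Submodule.eq_of_le_of_finrank_le h (by omega)

end Pool.Agent.Lib.MP_9ff3e7_ag.F
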