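import Pool.Agent.Lib.MP_9ff3e7_ag.F.Sheet

/-! Basic facts on models, densities and comparison of generators. -/

set_option autoImplicit false

namespace Pool.Agent.Lib.MP_9ff3e7_ag.F

open Filter Topology MeasureTheory Finsupp

namespace K0

variable {O : Type} [CommRing O] [Algebra ℂ O]

theorem dens_eq_prod (D : Ideal O →₀ ℝ) (y : Pnt O) {s : Finset (Ideal O)} (hs : D.support ⊆ s) :
    dens D y = ∏ a ∈ s, ENNReal.ofReal (nsqI a y) ^ (-D a) :=
  Finsupp.prod_of_support_subset D hs _ fun _ _ => by simp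

theorem dens_zero (y : Pnt O) : dens (0 : Ideal O →₀ ℝ) y = 1 := by simp [dens]

theorem dens_single (a : Ideal O) (c : ℝ) (y : Pnt O) :
    dens (single a c) y = ENNReal.ofReal (nsqI a y) ^ (-c) := by
  rw [dens, Finsupp.prod_single_index (by simp)]

theorem rpow_neg_add (x : ℝ) {s t : ℝ} (hs : 0 ≤ s) (ht : 0 ≤ t) :
    ENNReal.ofReal x ^ (-(s + t)) = ENNReal.ofReal x ^ (-s) * ENNReal.ofReal x ^ (-t) := by
  rw [ENNReal.rpow_neg, ENNReal.rpow_neg, ENNReal.rpow_neg, ENNReal.rpow_add_of_nonneg _ _ hs ht,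
    ENNReal.mul_inv (Or.inr (ENNReal.rpow_ne_top_of_nonneg ht ENNReal.ofReal_ne_top))
      (Or.inl (ENNReal.rpow_ne_top_of_nonneg hs ENNReal.ofReal_ne_top))]

theorem dens_add {D D' : Ideal O →₀ ℝ} (hD : 0 ≤ D) (hD' : 0 ≤ D') (y : Pnt O) :
    dens (D + D') y = dens D y * dens D' y := by
  classical
  rw [dens_eq_prod (D + D') y (s := D.support ∪ D'.support) Finsupp.support_add,
    dens_eq_prod D y (s := D.support ∪ D'.support) Finset.subset_union_left,
    dens_eq_prod D' y (s := D.support ∪ D'.support) Finset.subset_union_right,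
    ← Finset.prod_mul_distrib]
  exact Finset.prod_congr rfl fun a _ => rpow_neg_add _ (hD a) (hD' a)

omit [Algebra ℂ O] in
theorem single_nonneg' (a : Ideal O) {c : ℝ} (hc : 0 ≤ c) : (0 : Ideal O →₀ ℝ) ≤ single a c :=
  Finsupp.single_nonneg.2 hc

theorem dens_add_single {D : Ideal O →₀ ℝ} (hD : 0 ≤ D) (a : Ideal O) {c : ℝ} (hc : 0 ≤ c)
    (y : Pnt O) : dens (D + single a c) y = dens D y * ENNReal.ofReal (nsqI a y) ^ (-c) := by
  rw [dens_add hD (single_nonneg' a hc), dens_single]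

theorem dens_sum {ι : Type*} (s : Finset ι) (D : ι → Ideal O →₀ ℝ) (hD : ∀ i ∈ s, 0 ≤ D i)
    (y : Pnt O) : dens (∑ i ∈ s, D i) y = ∏ i ∈ s, dens (D i) y := by
  classical
  induction s using Finset.induction_on with
  | empty => simp [dens_zero]
  | insert i s hi ih =>
    rw [Finset.sum_insert hi, Finset.prod_insert hi,
      dens_add (hD i (Finset.mem_insert_self _ _))
        (Finset.sum_nonneg fun j hj => hD j (Finset.mem_insert_of_mem hj)),
      ih fun j hj => hD j (Finset.mem_insert_of_mem hj)]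

theorem dens_sum_single {ι : Type*} (s : Finset ι) (a : ι → Ideal O) (c : ι → ℝ)
    (hc : ∀ i ∈ s, 0 ≤ c i) (y : Pnt O) :
    dens (∑ i ∈ s, single (a i) (c i)) y = ∏ i ∈ s, ENNReal.ofReal (nsqI (a i) y) ^ (-c i) := by
  rw [dens_sum s _ fun i hi => single_nonneg' _ (hc i hi)]
  exact Finset.prod_congr rfl fun i _ => dens_single _ _ _

theorem dens_smul (D : Ideal O →₀ ℝ) {l : ℝ} (hl : 0 ≤ l) (y : Pnt O) :
    dens (l • D) y = dens D y ^ l := by
  rw [dens_eq_prod (l • D) y (s := D.support) Finsupp.support_smul, dens_eq_prod D y subset_rfl,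
    ← ENNReal.prod_rpow_of_nonneg hl]
  refine Finset.prod_congr rfl fun a _ => ?_
  rw [← ENNReal.rpow_mul, Finsupp.smul_apply, smul_eq_mul]
  congr 1; ring

theorem dens_ne_zero {D : Ideal O →₀ ℝ} (hD : 0 ≤ D) (y : Pnt O) : dens D y ≠ 0 := by
  rw [dens_eq_prod D y subset_rfl]
  refine Finset.prod_ne_zero_iff.2 fun a _ => ?_
  rw [ENNReal.rpow_neg]
  exact ENNReal.inv_ne_zero.2 (ENNReal.rpow_ne_top_of_nonneg (hD a) ENNReal.ofReal_ne_top)

theorem tendsto_nsqI (p : Pnt O) (a : Ideal O) : Tendsto (nsqI a) (nhd p) (𝓝 (nsqI a p)) :=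
  tendsto_finsetSum _ fun g _ => ((tendsto_nhd_apply p g).norm).pow 2

/-- an element of a span is bounded by the generators near `p` -/
theorem sq_le_of_mem_span (p : Pnt O) {κ : Type*} (T : Finset κ) (g : κ → O) {s : O}
    (hs : s ∈ Ideal.span (g '' (T : Set κ))) :
    ∃ C : ℝ, 0 < C ∧ ∀ᶠ y in nhd p, ‖y s‖ ^ 2 ≤ C * ∑ j ∈ T, ‖y (g j)‖ ^ 2 := by
  have hn : ∀ y : Pnt O, 0 ≤ ∑ j ∈ T, ‖y (g j)‖ ^ 2 := fun y =>
    Finset.sum_nonneg fun _ _ => by positivity
  induction hs using Submodule.span_induction with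
  | mem x hx =>
    obtain ⟨j, hj, rfl⟩ := hx
    refine ⟨1, one_pos, Eventually.of_forall fun y => ?_⟩
    rw [one_mul]
    exact Finset.single_le_sum (f := fun j => ‖y (g j)‖ ^ 2) (fun _ _ => by positivity) hj
  | zero => exact ⟨1, one_pos, Eventually.of_forall fun y => by simpa using hn y⟩
  | add a b _ _ ha hb =>
    obtain ⟨C, hC, ha⟩ := ha
    obtain ⟨C', hC', hb⟩ := hb
    refine ⟨2 * C + 2 * C', by positivity, ?_⟩
    filter_upwards [ha, hb] with y h1 h2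
    have h3 : ‖y (a + b)‖ ≤ ‖y a‖ + ‖y b‖ := by rw [map_add]; exact norm_add_le _ _
    have h4 := pow_le_pow_left₀ (norm_nonneg _) h3 2
    nlinarith [sq_nonneg (‖y a‖ - ‖y b‖)]
  | smul r a _ ha =>
    obtain ⟨C, hC, ha⟩ := ha
    refine ⟨(‖p r‖ + 1) ^ 2 * C, by positivity, ?_⟩
    filter_upwards [ha, (tendsto_nhd_apply p r).norm.eventually (gt_mem_nhds (lt_add_one _))]
      with y h1 h2
    rw [smul_eq_mul, map_mul, norm_mul, mul_pow, mul_assoc]
    exact mul_le_mul (pow_le_pow_left₀ (norm_nonneg _) h2.le 2) h1 (by positivity) (by positivity)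

/-- comparison of two finite families near `p` -/
theorem sos_le_of_mul_mem (p : Pnt O) {ι κ : Type*} (S : Finset ι) (T : Finset κ) (f : ι → O)
    (g : κ → O) {h : O} (hh : p h ≠ 0) (hf : ∀ i ∈ S, h * f i ∈ Ideal.span (g '' (T : Set κ))) :
    ∃ C : ℝ, 0 < C ∧ ∀ᶠ y in nhd p, ∑ i ∈ S, ‖y (f i)‖ ^ 2 ≤ C * ∑ j ∈ T, ‖y (g j)‖ ^ 2 := by
  classical
  have h0 : 0 < ‖p h‖ / 2 := by have := norm_pos_iff.2 hh; positivity
  have hy : ∀ᶠ y in nhd p, ‖p h‖ / 2 < ‖y h‖ :=
    (tendsto_nhd_apply p h).norm.eventually (lt_mem_nhds (by linarith))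
  choose! C hC hC' using fun i hi => sq_le_of_mem_span p T g (hf i hi)
  have hs : 0 ≤ ∑ i ∈ S, C i := Finset.sum_nonneg fun i hi => (hC i hi).le
  refine ⟨(∑ i ∈ S, C i + 1) / (‖p h‖ / 2) ^ 2, by positivity, ?_⟩
  filter_upwards [hy, (eventually_all_finset S).2 hC'] with y h1 h2
  have hn : 0 ≤ ∑ j ∈ T, ‖y (g j)‖ ^ 2 := Finset.sum_nonneg fun _ _ => by positivity
  rw [div_mul_eq_mul_div, le_div_iff₀ (by positivity), Finset.sum_mul, add_mul, Finset.sum_mul]
  refine le_trans (Finset.sum_le_sum fun i hi => le_trans ?_ (h2 i hi)) (by linarith)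
  rw [map_mul, norm_mul, mul_pow, mul_comm]
  exact mul_le_mul_of_nonneg_right (pow_le_pow_left₀ h0.le h1.le 2) (by positivity)

theorem nsqI_le_of_leAt {p : Pnt O} {a b : Ideal O} (ha : a.FG) (hb : b.FG) (h : LeAt p a b) :
    ∃ C : ℝ, 0 < C ∧ ∀ᶠ y in nhd p, nsqI a y ≤ C * nsqI b y := by
  obtain ⟨h, hh, hs⟩ := h
  refine sos_le_of_mul_mem p (gens a) (gens b) id id hh fun i hi => ?_
  rw [Set.image_id, span_gens hb]
  exact hs i (by rw [← span_gens ha]; exact Ideal.subset_span hi)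

/-- the chosen generators against any finite generating family -/
theorem nsqI_cmp (p : Pnt O) {ι : Type*} (S : Finset ι) (f : ι → O) :
    ∃ C : ℝ, 0 < C ∧ ∀ᶠ y in nhd p,
      nsqI (Ideal.span (f '' (S : Set ι))) y ≤ C * ∑ i ∈ S, ‖y (f i)‖ ^ 2 ∧
      ∑ i ∈ S, ‖y (f i)‖ ^ 2 ≤ C * nsqI (Ideal.span (f '' (S : Set ι))) y := by
  have hfg : (Ideal.span (f '' (S : Set ι))).FG :=
    Submodule.fg_span ((Finset.finite_toSet S).image f)
  have h1 : p 1 ≠ 0 := by simp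
  obtain ⟨C, hC, h2⟩ := sos_le_of_mul_mem p (gens (Ideal.span (f '' (S : Set ι)))) S id f h1
    fun i hi => by
      rw [one_mul]
      have := Ideal.subset_span (Finset.mem_coe.2 hi)
      rwa [span_gens hfg] at this
  obtain ⟨C', hC', h3⟩ := sos_le_of_mul_mem p S (gens (Ideal.span (f '' (S : Set ι)))) f id h1
    fun i hi => by
      rw [one_mul, Set.image_id, span_gens hfg]
      exact Ideal.subset_span ⟨i, hi, rfl⟩
  refine ⟨C + C', by positivity, ?_⟩
  filter_upwards [h2, h3] with y a b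
  have n1 : 0 ≤ ∑ i ∈ S, ‖y (f i)‖ ^ 2 := Finset.sum_nonneg fun _ _ => by positivity
  have n2 := nsqI_nonneg (Ideal.span (f '' (S : Set ι))) y
  exact ⟨le_trans a (by nlinarith), le_trans b (by
    change C' * nsqI _ y ≤ _
    nlinarith)⟩

theorem nsqI_cmp_range (p : Pnt O) {ι : Type*} [Fintype ι] (f : ι → O) :
    ∃ C : ℝ, 0 < C ∧ ∀ᶠ y in nhd p,
      nsqI (Ideal.span (Set.range f)) y ≤ C * ∑ i, ‖y (f i)‖ ^ 2 ∧
      ∑ i, ‖y (f i)‖ ^ 2 ≤ C * nsqI (Ideal.span (Set.range f)) y := by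
  simpa using nsqI_cmp p Finset.univ f

/-- the inequality of negative powers -/
theorem rpow_neg_le {x y C c : ℝ} (hC : 0 < C) (hc : 0 ≤ c) (h : x ≤ C * y) :
    ENNReal.ofReal y ^ (-c) ≤ ENNReal.ofReal (C ^ c) * ENNReal.ofReal x ^ (-c) := by
  have h1 : ENNReal.ofReal x ^ c ≤ ENNReal.ofReal (C ^ c) * ENNReal.ofReal y ^ c := by
    rw [← ENNReal.ofReal_rpow_of_pos hC, ← ENNReal.mul_rpow_of_nonneg _ _ hc,
      ← ENNReal.ofReal_mul hC.le]
    exact ENNReal.rpow_le_rpow (ENNReal.ofReal_le_ofReal h) hc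
  have h0 : ENNReal.ofReal (C ^ c) ≠ 0 := by
    simpa using Real.rpow_pos_of_pos hC c
  rw [ENNReal.rpow_neg, ENNReal.rpow_neg]
  have h2 := ENNReal.inv_le_inv.2 h1
  rw [ENNReal.mul_inv (Or.inl h0) (Or.inl ENNReal.ofReal_ne_top)] at h2
  calc _ = ENNReal.ofReal (C ^ c) * ((ENNReal.ofReal (C ^ c))⁻¹ * (ENNReal.ofReal y ^ c)⁻¹) := by
        rw [← mul_assoc, ENNReal.mul_inv_cancel h0 ENNReal.ofReal_ne_top, one_mul]
    _ ≤ _ := by gcongr

end K0

open K0

variable {n : ℕ} {O : Type} [CommRing O] [Algebra ℂ O] [Algebra (MvPolynomial (Fin n) ℂ) O]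

namespace Model

variable (M : Model n O)

theorem nhd_eq (p : Pnt O) : nhd p = map (M.sg p) (𝓝 (zz n p)) :=
  Filter.ext' fun P => M.eventually_nhd_iff p P

theorem aemeasurable_apply (p : Pnt O) {U : Set (Fin n → ℂ)} (hU : IsOpen U)
    (h : ∀ w ∈ U, ∀ f : O, AnalyticAt ℂ (fun w' => M.sg p w' f) w) (f : O) :
    AEMeasurable (fun w => M.sg p w f) (volume.restrict U) :=
  ContinuousOn.aemeasurable (fun w hw => (h w hw f).continuousAt.continuousWithinAt)
    hU.measurableSet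

theorem aemeasurable_nsqI (p : Pnt O) {U : Set (Fin n → ℂ)} (hU : IsOpen U)
    (h : ∀ w ∈ U, ∀ f : O, AnalyticAt ℂ (fun w' => M.sg p w' f) w) (a : Ideal O) :
    AEMeasurable (fun w => nsqI a (M.sg p w)) (volume.restrict U) :=
  Finset.aemeasurable_fun_sum _ fun g _ => (M.aemeasurable_apply p hU h g).norm.pow_const 2

theorem aemeasurable_dens (p : Pnt O) {U : Set (Fin n → ℂ)} (hU : IsOpen U)
    (h : ∀ w ∈ U, ∀ f : O, AnalyticAt ℂ (fun w' => M.sg p w' f) w) (D : Ideal O →₀ ℝ) :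
    AEMeasurable (fun w => dens D (M.sg p w)) (volume.restrict U) :=
  Finset.aemeasurable_fun_prod _ fun a _ =>
    (M.aemeasurable_nsqI p hU h a).ennreal_ofReal.pow_const _

/-- integrability near `z p` passes to smaller integrands -/
theorem lt_top_of_le {z : Fin n → ℂ} {F G : (Fin n → ℂ) → ENNReal} {C : ENNReal} (hC : C ≠ ⊤)
    (h : ∀ᶠ w in 𝓝 z, F w ≤ C * G w) (hG : ∃ U ∈ 𝓝 z, ∫⁻ w in U, G w < ⊤) :
    ∃ U ∈ 𝓝 z, ∫⁻ w in U, F w < ⊤ := by
  obtain ⟨U, hU, hG⟩ := hG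
  obtain ⟨V, hV, hVo, hz⟩ := mem_nhds_iff.1 (inter_mem hU h)
  refine ⟨V, hVo.mem_nhds hz, ?_⟩
  calc ∫⁻ w in V, F w ≤ ∫⁻ w in V, C * G w :=
        setLIntegral_mono_ae' hVo.measurableSet (ae_of_all _ fun w hw => (hV hw).2)
    _ = C * ∫⁻ w in V, G w := lintegral_const_mul' _ _ hC
    _ ≤ C * ∫⁻ w in U, G w := by
        gcongr
        exact fun w hw => (hV hw).1
    _ < ⊤ := ENNReal.mul_lt_top hC.lt_top hG

theorem klt_of_le {p : Pnt O} {D D' : Ideal O →₀ ℝ} {C : ENNReal} (hC : C ≠ ⊤)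
    (h : ∀ᶠ y in nhd p, dens D' y ≤ C * dens D y) (hk : M.Klt p D) : M.Klt p D' :=
  lt_top_of_le hC ((M.eventually_nhd_iff p _).1 h) hk

/-- a klt pair is integrable on every small ball, on which the sheet is good -/
theorem Klt.exists_ball {M : Model n O} {p : Pnt O} {D : Ideal O →₀ ℝ} (hk : M.Klt p D) :
    ∃ r > 0, (∀ w ∈ Metric.ball (zz n p) r, zz n (M.sg p w) = w ∧
      (∀ f : O, AnalyticAt ℂ (fun w' => M.sg p w' f) w) ∧ M.sg (M.sg p w) =ᶠ[𝓝 w] M.sg p) ∧
      ∫⁻ w in Metric.ball (zz n p) r, dens D (M.sg p w) < ⊤ := by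
  obtain ⟨U, hU, hk⟩ := hk
  obtain ⟨r, hr, h⟩ := M.exists_ball p
  obtain ⟨r', hr', h'⟩ := Metric.mem_nhds_iff.1 hU
  refine ⟨min r r', lt_min hr hr', fun w hw => h w (Metric.ball_subset_ball (min_le_left _ _) hw),
    lt_of_le_of_lt (lintegral_mono_set ?_) hk⟩
  exact (Metric.ball_subset_ball (min_le_right _ _)).trans h'

include M in
theorem etale : Algebra.Etale (MvPolynomial (Fin n) ℂ) O :=
  Algebra.Etale.of_equiv M.E.equivRing.symm

include M in
theorem unram : Algebra.FormallyUnramified (MvPolynomial (Fin n) ℂ) O :=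
  haveI := M.etale
  inferInstance

variable [IsScalarTower ℂ (MvPolynomial (Fin n) ℂ) O]

include M in
theorem ft : Algebra.FiniteType ℂ O :=
  haveI := M.etale
  Algebra.FiniteType.trans (S := MvPolynomial (Fin n) ℂ) inferInstance inferInstance

include M in
theorem noeth : IsNoetherianRing O :=
  haveI := M.ft
  Algebra.FiniteType.isNoetherianRing ℂ O

include M in
theorem fg (a : Ideal O) : a.FG :=
  haveI := M.noeth
  IsNoetherian.noetherian a

include M in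
theorem nsqI_le {p : Pnt O} {a b : Ideal O} (h : LeAt p a b) :
    ∃ C : ℝ, 0 < C ∧ ∀ᶠ y in nhd p, nsqI a y ≤ C * nsqI b y :=
  nsqI_le_of_leAt (M.fg a) (M.fg b) h

include M in
open Polynomial in
theorem kerle (p : Pnt O) : LeAt p (RingHom.ker p) (mz n p) := by
  let φ := Ideal.Quotient.mkₐ ℂ (mz n p)
  have h1 : ∀ r : MvPolynomial (Fin n) ℂ, φ (algebraMap _ O r) =
      algebraMap ℂ _ (MvPolynomial.eval (zz n p) r) := by
    intro r
    induction r using MvPolynomial.induction_on with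
    | C c =>
      rw [← MvPolynomial.algebraMap_eq, ← IsScalarTower.algebraMap_apply, AlgHom.commutes]; simp
    | add a b ha hb => simp only [map_add, ha, hb]
    | mul_X a i ha =>
      simp only [map_mul, ha, MvPolynomial.eval_X]
      congr 1
      rw [← φ.commutes]
      exact Ideal.Quotient.eq.2 (Ideal.subset_span ⟨i, by simp, rfl⟩)
  have h2 : ∀ q : (MvPolynomial (Fin n) ℂ)[X], φ (aeval M.E.x q) =
      aeval (φ M.E.x) (q.map (MvPolynomial.eval (zz n p))) := by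
    intro q
    induction q using Polynomial.induction_on' with
    | add a b ha hb => simp only [map_add, Polynomial.map_add, ha, hb]
    | monomial k a => simp [aeval_monomial, h1]
  have h3 : ∀ q : (MvPolynomial (Fin n) ℂ)[X], p (aeval M.E.x q) =
      (q.map (MvPolynomial.eval (zz n p))).eval (p M.E.x) := fun q => by
    rw [SheetA.apply_aeval, SheetA.ev2_eq]; rfl
  have hf : (M.E.f.map (MvPolynomial.eval (zz n p))).IsRoot (p M.E.x) := by
    rw [IsRoot, ← h3, M.E.hasMap.1, map_zero]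
  obtain ⟨f1, hf1⟩ := dvd_iff_isRoot.2 hf
  have hd : f1.eval (p M.E.x) ≠ 0 := by
    have := (M.E.hasMap.isUnit_derivative_f.map p).ne_zero
    rw [h3, ← derivative_map, hf1] at this
    simpa using this
  refine ⟨aeval M.E.x f1, by rwa [← aeval_algHom_apply, coe_aeval_eq_eval], fun s hs => ?_⟩
  obtain ⟨q, m, hq⟩ := M.E.exists_mul_aeval_x_g_pow_eq_aeval_x s
  have hq0 : (q.map (MvPolynomial.eval (zz n p))).IsRoot (p M.E.x) := by
    rw [IsRoot, ← h3, ← hq, map_mul, RingHom.mem_ker.1 hs, zero_mul]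
  obtain ⟨q1, hq1⟩ := dvd_iff_isRoot.2 hq0
  have e1 : aeval (φ M.E.x) (X - C (p M.E.x)) * aeval (φ M.E.x) f1 = 0 := by
    rw [← map_mul, ← hf1, ← h2, M.E.hasMap.1, map_zero]
  have e2 : φ (aeval M.E.x f1 * s) * φ (aeval M.E.x M.E.g) ^ m = 0 := by
    rw [← map_pow, ← map_mul, mul_assoc, hq, map_mul, h2, hq1, map_mul, ← aeval_algHom_apply,
      ← mul_assoc, mul_comm (aeval _ f1), e1, zero_mul]
  have := ((M.E.hasMap.2.map φ).pow m).mul_left_eq_zero.1 e2
  exact Ideal.Quotient.eq_zero_iff_mem.1 this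

end Model

end Pool.Agent.Lib.MP_9ff3e7_ag.F
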