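import Pool.Agent.Lib.MP_9ff3e7_ag.F.GO
import Pool.Agent.Lib.MP_9ff3e7_ag.F.K0

/-! Pairs of ideals against explicit tuples. -/

set_option autoImplicit false
set_option linter.unusedSectionVars false

namespace Pool.Agent.Lib.MP_9ff3e7_ag.F

open MeasureTheory MvPolynomial Metric Filter Topology

variable {n : ℕ} {O : Type} [CommRing O] [IsDomain O] [Algebra ℂ O]
  [Algebra (MvPolynomial (Fin n) ℂ) O] [IsScalarTower ℂ (MvPolynomial (Fin n) ℂ) O]

theorem OWt.pair_nonneg (W : OWt O) : 0 ≤ W.pair :=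
  Finset.sum_nonneg fun a _ => K0.single_nonneg' _ (W.c0 a)

/-- the density of the pair and the density of the tuples are comparable near `p` -/
theorem OWt.dens_cmp (W : OWt O) (p : Pnt O) :
    ∃ C : ENNReal, C ≠ ⊤ ∧ ∀ᶠ y in nhd p,
      F.dens W.pair y ≤ C * W.dens y ∧ W.dens y ≤ C * F.dens W.pair y := by
  choose C hC h using fun a => K0.nsqI_cmp_range p (W.t a)
  refine ⟨∏ a, ENNReal.ofReal (C a ^ W.c a),
    ENNReal.prod_ne_top fun a _ => ENNReal.ofReal_ne_top, ?_⟩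
  filter_upwards [eventually_all.2 h] with y hy
  rw [OWt.pair, K0.dens_sum_single _ _ _ (fun a _ => W.c0 a), OWt.dens, ← Finset.prod_mul_distrib,
    ← Finset.prod_mul_distrib]
  exact ⟨Finset.prod_le_prod' fun a _ => K0.rpow_neg_le (hC a) (W.c0 a) (hy a).2,
    Finset.prod_le_prod' fun a _ => K0.rpow_neg_le (hC a) (W.c0 a) (hy a).1⟩

/-- O3: pairs and tuples -/
theorem klt_pair (M : Model n O) (p : Pnt O) (W : OWt O) :
    M.Klt p W.pair ↔ ∃ U ∈ 𝓝 (zz n p), ∫⁻ w in U, W.dens (M.sg p w) < ⊤ := by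
  obtain ⟨C, hC, h⟩ := W.dens_cmp p
  have h' := (M.eventually_nhd_iff p _).1 h
  exact ⟨Model.lt_top_of_le hC (h'.mono fun w hw => hw.2),
    Model.lt_top_of_le hC (h'.mono fun w hw => hw.1)⟩

theorem nsqI_mz_cmp (M : Model n O) (p : Pnt O) :
    ∃ C : ℝ, 0 < C ∧ ∀ᶠ w in 𝓝 (zz n p),
      nsqI (mz n p) (M.sg p w) ≤ C * nsq (w - zz n p) ∧
      nsq (w - zz n p) ≤ C * nsqI (mz n p) (M.sg p w) := by
  obtain ⟨C, hC, h⟩ := K0.nsqI_cmp p Finset.univ
    (fun i => zc n O i - algebraMap ℂ O (p (zc n O i)))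
  refine ⟨C, hC, ?_⟩
  filter_upwards [(M.eventually_nhd_iff p _).1 h, M.sec p] with w hw hs
  have e : ∑ i, ‖M.sg p w (zc n O i - algebraMap ℂ O (p (zc n O i)))‖ ^ 2 = nsq (w - zz n p) := by
    refine Finset.sum_congr rfl fun i _ => ?_
    have h1 : M.sg p w (zc n O i) = w i := congrFun hs i
    rw [map_sub, AlgHom.commutes, h1]
    rfl
  rw [e] at hw
  exact hw

theorem klt_pair_mz (M : Model n O) (p : Pnt O) (W : OWt O) {b : ℝ} (hb : 0 ≤ b) :
    M.Klt p (W.pair + Finsupp.single (mz n p) b) ↔ ∃ U ∈ 𝓝 (zz n p),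
      ∫⁻ w in U, W.dens (M.sg p w) * ENNReal.ofReal (nsq (w - zz n p)) ^ (-b) < ⊤ := by
  obtain ⟨C, hC, h⟩ := W.dens_cmp p
  obtain ⟨C', hC', h2⟩ := nsqI_mz_cmp M p
  have h' := (M.eventually_nhd_iff p _).1 h
  have hne : C * ENNReal.ofReal (C' ^ b) ≠ ⊤ := ENNReal.mul_ne_top hC ENNReal.ofReal_ne_top
  refine ⟨Model.lt_top_of_le hne ?_, Model.lt_top_of_le hne ?_⟩
  · filter_upwards [h', h2] with w hw hw2
    rw [K0.dens_add_single W.pair_nonneg _ hb, mul_mul_mul_comm]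
    exact mul_le_mul' hw.2 (K0.rpow_neg_le hC' hb hw2.1)
  · filter_upwards [h', h2] with w hw hw2
    rw [K0.dens_add_single W.pair_nonneg _ hb, mul_mul_mul_comm]
    exact mul_le_mul' hw.1 (K0.rpow_neg_le hC' hb hw2.2)

end Pool.Agent.Lib.MP_9ff3e7_ag.F
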