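import Pool.Agent.Lib.MP_9ff3e7_ag.F.GEqn

/-! The cut off function near a sheet. -/

set_option autoImplicit false

namespace Pool.Agent.Lib.MP_9ff3e7_ag.F

open MeasureTheory MvPolynomial Metric Filter Topology
open scoped ContDiff

variable {n : ℕ} {U : Set (Amb n)}

namespace Src

theorem zp_smooth : ContDiff ℝ ∞ (zp : Amb n → Fin n → ℂ) :=
  contDiff_pi.2 fun i => contDiff_apply ℝ ℂ (Sum.inl i)

theorem sp_smooth : ContDiff ℝ ∞ (sp : Amb n → Fin 2 → ℂ) :=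
  contDiff_pi.2 fun i => contDiff_apply ℝ ℂ (Sum.inr i)

theorem nsq_smooth {ι : Type} [Fintype ι] : ContDiff ℝ ∞ (nsq : (ι → ℂ) → ℝ) := by
  unfold nsq
  exact ContDiff.sum fun i _ => (contDiff_apply ℝ ℂ i).norm_sq ℂ

theorem nsq_nn {ι : Type} [Fintype ι] (x : ι → ℂ) : 0 ≤ nsq x :=
  Finset.sum_nonneg fun _ _ => by positivity

theorem norm_sq_le {ι : Type} [Fintype ι] (x : ι → ℂ) : ‖x‖ ^ 2 ≤ nsq x := by
  have h : ‖x‖ ≤ Real.sqrt (nsq x) := by
    refine (pi_norm_le_iff_of_nonneg (Real.sqrt_nonneg _)).2 fun i => ?_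
    refine Real.le_sqrt_of_sq_le ?_
    exact Finset.single_le_sum (f := fun i => ‖x i‖ ^ 2) (fun _ _ => by positivity)
      (Finset.mem_univ i)
  calc ‖x‖ ^ 2 ≤ Real.sqrt (nsq x) ^ 2 := by gcongr
    _ = nsq x := Real.sq_sqrt (nsq_nn x)

theorem zp_shift (q : Amb n) (s : Fin 2 → ℂ) : zp (shift q s) = zp q := rfl

theorem sp_shift (q : Amb n) (s : Fin 2 → ℂ) : sp (shift q s) = sp q + s := rfl

theorem shift_sub {q u : Amb n} (h : zp q = zp u) : shift q (sp u - sp q) = u := by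
  funext i
  rcases i with i | i
  · exact congrFun h i
  · change sp q i + (sp u i - sp q i) = sp u i
    ring

theorem shift_cont : Continuous fun p : Amb n × (Fin 2 → ℂ) => shift p.1 p.2 := by
  refine continuous_pi fun i => ?_
  rcases i with i | i
  · change Continuous fun p : Amb n × (Fin 2 → ℂ) => p.1 (Sum.inl i)
    fun_prop
  · change Continuous fun p : Amb n × (Fin 2 → ℂ) => p.1 (Sum.inr i) + p.2 i
    fun_prop

theorem nsq_compact (r : ℝ) : IsCompact {s : Fin 2 → ℂ | nsq s ≤ r} := by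
  refine (isCompact_closedBall (0 : Fin 2 → ℂ) (Real.sqrt r)).of_isClosed_subset
    (isClosed_le nsq_smooth.continuous continuous_const) fun s hs => ?_
  rw [mem_closedBall_zero_iff]
  exact Real.le_sqrt_of_sq_le ((norm_sq_le s).trans hs)

theorem dbar_le {ι : Type} [Fintype ι] (f : (ι → ℂ) → ℂ) (x ξ : ι → ℂ) :
    ‖dbar f x ξ‖ ≤ ‖fderiv ℝ f x‖ * ‖ξ‖ := by
  have h1 := (fderiv ℝ f x).le_opNorm ξ
  have h2 := (fderiv ℝ f x).le_opNorm (Complex.I • ξ)
  rw [norm_smul, Complex.norm_I, one_mul] at h2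
  have h3 := norm_add_le (fderiv ℝ f x ξ) (Complex.I * fderiv ℝ f x (Complex.I • ξ))
  rw [norm_mul, Complex.norm_I, one_mul] at h3
  rw [dbar, norm_div, Complex.norm_two]
  linarith

end Src

open Src in
/-- G5 SRC: the cut off function -/
theorem exists_src {z0 : Fin n → ℂ} {ρ : ℝ} {σ : (Fin n → ℂ) → Amb n}
    (hσ : Sheet U z0 ρ σ) {r2 : ℝ} (hr : 0 < r2) :
    ∃ (f0 : Amb n → ℂ) (C : ℝ), 0 ≤ C ∧ ContDiff ℝ ∞ f0 ∧
      HasCompactSupport f0 ∧ (∀ u, ‖f0 u‖ ≤ 1) ∧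
      (∀ z ∈ ball z0 (ρ / 4), ∀ s, nsq s < r2 / 2 → f0 (shift (σ z) s) = 1) ∧
      (∀ u, f0 u ≠ 0 → ∃ z ∈ closedBall z0 (ρ / 2), ∃ s, nsq s ≤ r2 ∧ u = shift (σ z) s) ∧
      (∀ u ξ, ‖dbar f0 u ξ‖ ^ 2 ≤ C * nsq ξ) ∧
      ∀ u ξ, dbar f0 u ξ ≠ 0 → ∃ z ∈ closedBall z0 (ρ / 2), ∃ s, nsq s ≤ r2 ∧
        u = shift (σ z) s ∧ (z ∉ ball z0 (ρ / 4) ∨ r2 / 2 ≤ nsq s) := by
  have hρ := hσ.pos
  let c1 : ContDiffBump z0 := ⟨ρ / 4, ρ / 2, by positivity, by linarith⟩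
  let c2 : ContDiffBump (0 : ℝ) := ⟨r2 / 2, r2, by positivity, by linarith⟩
  let g : Amb n → ℝ := fun u => nsq (sp u - sp (σ (zp u)))
  let f0 : Amb n → ℂ := fun u => ((c1 (zp u) * c2 (g u) : ℝ) : ℂ)
  have hsub : closedBall z0 (ρ / 2) ⊆ ball z0 ρ := closedBall_subset_ball (by linarith)
  have hsub' : ball z0 (ρ / 4) ⊆ ball z0 ρ := ball_subset_ball (by linarith)
  have hg : ∀ u : Amb n, zp u ∈ ball z0 ρ → ContDiffAt ℝ ∞ g u := by
    intro u hu
    have h1 : ContDiffAt ℝ ∞ σ (zp u) := ((hσ.an _ hu).contDiffAt (n := ∞)).restrict_scalars ℝ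
    exact nsq_smooth.contDiffAt.comp u (sp_smooth.contDiffAt.sub
      (sp_smooth.contDiffAt.comp u (h1.comp u zp_smooth.contDiffAt)))
  have hgs : ∀ z ∈ ball z0 ρ, ∀ s, zp (shift (σ z) s) = z ∧ g (shift (σ z) s) = nsq s := by
    intro z hz s
    have h1 : zp (shift (σ z) s) = z := by rw [zp_shift, hσ.zσ z hz]
    refine ⟨h1, ?_⟩
    change nsq (sp (shift (σ z) s) - sp (σ (zp (shift (σ z) s)))) = _
    rw [h1, sp_shift, add_sub_cancel_left]
  have hone : ∀ u : Amb n, zp u ∈ ball z0 (ρ / 4) → g u < r2 / 2 → f0 u = 1 := by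
    intro u h1 h2
    have e1 : c1 (zp u) = 1 := c1.one_of_mem_closedBall (ball_subset_closedBall h1)
    have e2 : c2 (g u) = 1 := c2.one_of_mem_closedBall (by
      rw [mem_closedBall_zero_iff, Real.norm_of_nonneg (nsq_nn _)]; exact h2.le)
    simp [f0, e1, e2]
  have hsm : ContDiff ℝ ∞ f0 := by
    refine contDiff_iff_contDiffAt.2 fun u => ?_
    by_cases hu : zp u ∈ ball z0 ρ
    · exact Complex.ofRealCLM.contDiff.contDiffAt.comp u
        ((c1.contDiff.contDiffAt.comp u zp_smooth.contDiffAt).mul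
          (c2.contDiff.contDiffAt.comp u (hg u hu)))
    · have ho : IsOpen (zp ⁻¹' (closedBall z0 (ρ / 2))ᶜ : Set (Amb n)) :=
        isClosed_closedBall.isOpen_compl.preimage zp_smooth.continuous
      refine (contDiffAt_const (c := (0 : ℂ))).congr_of_eventuallyEq ?_
      filter_upwards [ho.mem_nhds fun h => hu (hsub h)] with v hv
      have e1 : c1 (zp v) = 0 := c1.zero_of_le_dist (by
        have : ¬ dist (zp v) z0 ≤ ρ / 2 := hv
        exact (not_le.1 this).le)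
      simp [f0, e1]
  let K : Set (Amb n) := (fun p : (Fin n → ℂ) × (Fin 2 → ℂ) => shift (σ p.1) p.2) ''
    (closedBall z0 (ρ / 2) ×ˢ {s | nsq s ≤ r2})
  have hK : IsCompact K := by
    refine ((isCompact_closedBall z0 (ρ / 2)).prod (nsq_compact r2)).image_of_continuousOn ?_
    refine shift_cont.comp_continuousOn (f := fun p : (Fin n → ℂ) × (Fin 2 → ℂ) => (σ p.1, p.2))
      (ContinuousOn.prodMk ?_ continuousOn_snd)
    exact (hσ.an.continuousOn.mono hsub).comp continuousOn_fst fun p hp => hp.1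
  have hsupp : Function.support f0 ⊆ K := by
    intro u hu
    have h0 : c1 (zp u) * c2 (g u) ≠ 0 := fun h => hu (by simp only [f0, h]; simp)
    have h1 : zp u ∈ ball z0 (ρ / 2) := by
      have : zp u ∈ Function.support c1 := left_ne_zero_of_mul h0
      rwa [c1.support_eq] at this
    have h2 : g u ∈ ball (0 : ℝ) r2 := by
      have : g u ∈ Function.support c2 := right_ne_zero_of_mul h0
      rwa [c2.support_eq] at this
    rw [mem_ball_zero_iff, Real.norm_of_nonneg (nsq_nn _)] at h2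
    exact ⟨(zp u, sp u - sp (σ (zp u))), ⟨ball_subset_closedBall h1, h2.le⟩,
      shift_sub (hσ.zσ _ (hsub (ball_subset_closedBall h1)))⟩
  have hcs : HasCompactSupport f0 := HasCompactSupport.of_support_subset_isCompact hK hsupp
  obtain ⟨M, hM⟩ := (hsm.continuous_fderiv (by simp)).bounded_above_of_compact_support
    (hcs.fderiv (𝕜 := ℝ))
  refine ⟨f0, M ^ 2, by positivity, hsm, hcs, fun u => ?_, fun z hz s hs => ?_, fun u hu => ?_,
    fun u ξ => ?_, fun u ξ hu => ?_⟩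
  · simp only [f0, Complex.norm_real]
    rw [Real.norm_of_nonneg (mul_nonneg c1.nonneg c2.nonneg)]
    exact mul_le_one₀ c1.le_one c2.nonneg c2.le_one
  · obtain ⟨h1, h2⟩ := hgs z (hsub' hz) s
    exact hone _ (by rwa [h1]) (by rwa [h2])
  · obtain ⟨p, hp, rfl⟩ := hsupp hu
    exact ⟨p.1, hp.1, p.2, hp.2, rfl⟩
  · have h1 : ‖dbar f0 u ξ‖ ≤ M * ‖ξ‖ :=
      (dbar_le f0 u ξ).trans (mul_le_mul_of_nonneg_right (hM u) (norm_nonneg _))
    calc ‖dbar f0 u ξ‖ ^ 2 ≤ (M * ‖ξ‖) ^ 2 := by gcongr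
      _ = M ^ 2 * ‖ξ‖ ^ 2 := by ring
      _ ≤ M ^ 2 * nsq ξ := by gcongr; exact norm_sq_le ξ
  · have hd : fderiv ℝ f0 u ≠ 0 := fun h => hu (by simp [dbar, h])
    have h1 : u ∈ K := (closure_minimal hsupp hK.isClosed) (support_fderiv_subset ℝ hd)
    obtain ⟨p, hp, rfl⟩ := h1
    refine ⟨p.1, hp.1, p.2, hp.2, rfl, ?_⟩
    by_contra hc
    rw [not_or, not_not, not_le] at hc
    obtain ⟨h1, h2⟩ := hgs p.1 (hsub hp.1) p.2
    apply hd
    have e1 : ∀ᶠ v in 𝓝 (shift (σ p.1) p.2), zp v ∈ ball z0 (ρ / 4) :=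
      zp_smooth.continuous.continuousAt.eventually (isOpen_ball.mem_nhds (by rw [h1]; exact hc.1))
    have e2 : ∀ᶠ v in 𝓝 (shift (σ p.1) p.2), g v < r2 / 2 :=
      (hg _ (by rw [h1]; exact hsub hp.1)).continuousAt.eventually
        (isOpen_Iio.mem_nhds (by rw [h2]; exact hc.2))
    have e3 : f0 =ᶠ[𝓝 (shift (σ p.1) p.2)] fun _ => 1 := by
      filter_upwards [e1, e2] with v a b using hone v a b
    rw [e3.fderiv_eq]
    simp

end Pool.Agent.Lib.MP_9ff3e7_ag.F
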