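import Pool.Agent.Lib.MP_9ff3e7_ag.F.GCv2
import Pool.Agent.Lib.MP_9ff3e7_ag.F.GSrc

/-! Change of variables on a tube over a parametrisation. -/

set_option autoImplicit false

namespace Pool.Agent.Lib.MP_9ff3e7_ag.F

open MeasureTheory MvPolynomial Metric

variable {n : ℕ}

namespace GCv

theorem det_real {ι : Type} [Fintype ι] (A : (ι → ℂ) →L[ℂ] (ι → ℂ)) :
    |(A.restrictScalars ℝ).det| = ‖A.det‖ ^ 2 := by
  have h : (A.restrictScalars ℝ).det = Algebra.norm ℝ A.det := by
    have := LinearMap.det_restrictScalars (R := ℝ) (S := ℂ) (f := (A : (ι → ℂ) →ₗ[ℂ] (ι → ℂ)))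
    simpa [ContinuousLinearMap.det] using this
  rw [h, Algebra.norm_complex_apply, abs_of_nonneg (Complex.normSq_nonneg _),
    Complex.normSq_eq_norm_sq]

theorem det_block (L : Amb n →L[ℂ] Amb n) (A : (Fin n → ℂ) →L[ℂ] (Fin n → ℂ))
    (h1 : ∀ ξ, zp (L ξ) = A (zp ξ)) (h2 : ∀ ξ, zp ξ = 0 → L ξ = ξ) : L.det = A.det := by
  classical
  rw [ContinuousLinearMap.det, ContinuousLinearMap.det, ← LinearMap.det_toMatrix',
    ← LinearMap.det_toMatrix', ← Matrix.fromBlocks_toBlocks (LinearMap.toMatrix' _)]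
  have z : ∀ j : Fin 2, zp (Pi.single (Sum.inr j) (1 : ℂ) : Amb n) = 0 := fun j => by
    funext i; simp [zp]
  have b12 : (LinearMap.toMatrix' (L : Amb n →ₗ[ℂ] Amb n)).toBlocks₁₂ = 0 := by
    ext i j
    simp [Matrix.toBlocks₁₂, LinearMap.toMatrix'_apply, h2 _ (z j)]
  have b22 : (LinearMap.toMatrix' (L : Amb n →ₗ[ℂ] Amb n)).toBlocks₂₂ = 1 := by
    ext i j
    simp [Matrix.toBlocks₂₂, LinearMap.toMatrix'_apply, h2 _ (z j), Matrix.one_apply,
      Pi.single_apply]
  have b11 : (LinearMap.toMatrix' (L : Amb n →ₗ[ℂ] Amb n)).toBlocks₁₁ =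
      LinearMap.toMatrix' (A : (Fin n → ℂ) →ₗ[ℂ] (Fin n → ℂ)) := by
    ext i j
    have e : zp (Pi.single (Sum.inl j) (1 : ℂ) : Amb n) = Pi.single j 1 := by
      funext k; simp [zp, Pi.single_apply]
    have := congrFun (h1 (Pi.single (Sum.inl j) 1)) i
    rw [e] at this
    simpa [Matrix.toBlocks₁₁, LinearMap.toMatrix'_apply, zp] using this
  rw [b12, b22, b11, Matrix.det_fromBlocks_zero₁₂, Matrix.det_one, mul_one]

/-- base and fibre coordinates as linear maps -/
noncomputable def zL (n : ℕ) : Amb n →L[ℂ] (Fin n → ℂ) :=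
  ContinuousLinearMap.pi fun i => ContinuousLinearMap.proj (Sum.inl i)

/-- the projection that forgets the base coordinates -/
noncomputable def vL (n : ℕ) : Amb n →L[ℂ] Amb n :=
  ContinuousLinearMap.pi fun i => Sum.elim (fun _ => 0)
    (fun j => ContinuousLinearMap.proj (Sum.inr j)) i

theorem shift_eq (q v : Amb n) : shift q (sp v) = q + vL n v := by
  funext i
  rcases i with i | i <;> simp [shift, zp, sp, vL]

end GCv

open GCv in
theorem tube_cv {Y Y' : Set (Fin n → ℂ)} {τ : (Fin n → ℂ) → Amb n} (hY : IsOpen Y)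
    (hτ : DifferentiableOn ℂ τ Y) (hsub : Y' ⊆ Y) (hY' : MeasurableSet Y')
    {D : Set (Fin 2 → ℂ)} (hD : MeasurableSet D)
    (hinj : Set.InjOn (fun p : (Fin n → ℂ) × (Fin 2 → ℂ) => shift (τ p.1) p.2) (Y' ×ˢ D))
    (H : Amb n → ENNReal) (hH : Measurable H) :
    ∫⁻ u in (fun p : (Fin n → ℂ) × (Fin 2 → ℂ) => shift (τ p.1) p.2) '' (Y' ×ˢ D), H u =
      ∫⁻ y in Y', ENNReal.ofReal (jac τ y) * ∫⁻ s in D, H (shift (τ y) s) := by
  let e := MeasurableEquiv.sumPiEquivProdPi fun _ : Fin n ⊕ Fin 2 => ℂ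
  have pe : MeasurePreserving e := volume_measurePreserving_sumPiEquivProdPi _
  let Φ : Amb n → Amb n := fun v => shift (τ (zp v)) (sp v)
  let A : Set (Amb n) := e ⁻¹' (Y' ×ˢ D)
  have mA : MeasurableSet A := e.measurable (hY'.prod hD)
  have im : (fun p : (Fin n → ℂ) × (Fin 2 → ℂ) => shift (τ p.1) p.2) '' (Y' ×ˢ D) = Φ '' A := by
    conv_lhs => rw [← Set.image_preimage_eq (Y' ×ˢ D) e.surjective, Set.image_image]
    rfl
  have inj : Set.InjOn Φ A := fun u hu v hv h => e.injective (hinj hu hv h)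
  have dτ : ∀ y ∈ Y', DifferentiableAt ℂ τ y := fun y hy =>
    hτ.differentiableAt (hY.mem_nhds (hsub hy))
  let L : Amb n → Amb n →L[ℂ] Amb n := fun v => (fderiv ℂ τ (zp v)).comp (zL n) + vL n
  have hd : ∀ v ∈ A, HasFDerivWithinAt Φ ((L v).restrictScalars ℝ) A v := fun v hv => by
    have a : HasFDerivAt (fun v => τ (zL n v) + vL n v) (L v) v :=
      ((dτ _ hv.1).hasFDerivAt.comp v (zL n).hasFDerivAt).add (vL n).hasFDerivAt
    have b : Φ = fun v => τ (zL n v) + vL n v := funext fun v => shift_eq _ v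
    rw [b]
    exact (a.restrictScalars ℝ).hasFDerivWithinAt
  have dt : ∀ v ∈ A, |((L v).restrictScalars ℝ).det| = jac τ (zp v) := fun v hv => by
    rw [det_real, jac, det_block (L v) (fderiv ℂ (fun y => zp (τ y)) (zp v))]
    · intro ξ
      have c : HasFDerivAt (fun y => zp (τ y)) ((zL n).comp (fderiv ℂ τ (zp v))) (zp v) :=
        (zL n).hasFDerivAt.comp _ (dτ _ hv.1).hasFDerivAt
      rw [c.fderiv]
      funext i
      simp [L, zp, zL, vL]
      rfl
    · intro ξ hξ
      have : zL n ξ = 0 := hξ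
      funext i
      rcases i with i | i
      · simpa [L, this, vL, zp] using (congrFun hξ i).symm
      · simp [L, this, vL]
  let g : (Fin n → ℂ) × (Fin 2 → ℂ) → ENNReal := fun p =>
    ENNReal.ofReal (jac τ p.1) * H (shift (τ p.1) p.2)
  have mj : Measurable (jac τ) :=
    ((ContinuousLinearMap.continuous_det.measurable.comp (measurable_fderiv ℂ _)).norm.pow_const 2)
  have mg : AEMeasurable g (((volume : Measure (Fin n → ℂ)).restrict Y').prod
      ((volume : Measure (Fin 2 → ℂ)).restrict D)) := by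
    rw [Measure.prod_restrict]
    refine (mj.comp measurable_fst).ennreal_ofReal.aemeasurable.mul (hH.comp_aemeasurable ?_)
    refine ContinuousOn.aemeasurable ?_ (hY'.prod hD)
    exact Src.shift_cont.comp_continuousOn
      (((hτ.continuousOn.mono hsub).comp continuousOn_fst fun p hp => hp.1).prodMk
        continuousOn_snd)
  rw [im, lintegral_image_eq_lintegral_abs_det_fderiv_mul volume mA hd inj H]
  calc _ = ∫⁻ v in A, g (e v) := setLIntegral_congr_fun mA fun v hv => by
        simp only [dt v hv]; rfl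
    _ = ∫⁻ p in Y' ×ˢ D, g p := pe.setLIntegral_comp_preimage_emb e.measurableEmbedding g _
    _ = ∫⁻ y in Y', ∫⁻ s in D, g (y, s) := by
        rw [Measure.volume_eq_prod, ← Measure.prod_restrict, lintegral_prod _ mg]
    _ = _ := by
        simp only [g]
        simp_rw [lintegral_const_mul' _ _ ENNReal.ofReal_ne_top]

end Pool.Agent.Lib.MP_9ff3e7_ag.F
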