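import Pool.Agent.Lib.MP_9ff3e7_ag.F.GEqn

/-! Change of variables for the part of a parametrisation that lies on a given sheet. -/

set_option autoImplicit false

namespace Pool.Agent.Lib.MP_9ff3e7_ag.F

open MeasureTheory MvPolynomial Metric

variable {n : ℕ} {U : Set (Amb n)}

namespace GCv2

/-- the real determinant of a complex linear map -/
theorem det_real (A : (Fin n → ℂ) →L[ℂ] (Fin n → ℂ)) :
    |(A.restrictScalars ℝ).det| = ‖A.det‖ ^ 2 := by
  have h : (A.restrictScalars ℝ).det = Algebra.norm ℝ A.det := by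
    have := LinearMap.det_restrictScalars (R := ℝ) (S := ℂ) (f := (A : (Fin n → ℂ) →ₗ[ℂ] (Fin n → ℂ)))
    simpa [ContinuousLinearMap.det] using this
  rw [h, Algebra.norm_complex_apply, abs_of_nonneg (Complex.normSq_nonneg _),
    Complex.normSq_eq_norm_sq]

theorem zp_diff {Y : Set (Fin n → ℂ)} {τ : (Fin n → ℂ) → Amb n} (h : DifferentiableOn ℂ τ Y) :
    DifferentiableOn ℂ (fun y => zp (τ y)) Y := by
  refine differentiableOn_pi.2 fun i => ?_
  exact (differentiableOn_pi.1 h) (Sum.inl i)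

end GCv2

/-- G4b: the part of a parametrisation that lies on a given sheet -/
theorem par_on_sheet {Y : Set (Fin n → ℂ)} {τ σ : (Fin n → ℂ) → Amb n} (hP : Par U Y τ)
    {B : Set (Fin n → ℂ)} (hB : MeasurableSet B) (hz : ∀ z ∈ B, zp (σ z) = z)
    {Y' : Set (Fin n → ℂ)} (hsub : Y' ⊆ Y) (hY' : MeasurableSet Y') (him : ∀ y ∈ Y', τ y ∈ σ '' B)
    (H : Amb n → ENNReal) :
    ∫⁻ y in Y', ENNReal.ofReal (jac τ y) * H (τ y) ≤ ∫⁻ z in B, H (σ z) := by
  have key : ∀ y ∈ Y', zp (τ y) ∈ B ∧ σ (zp (τ y)) = τ y := by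
    intro y hy
    obtain ⟨z, hzB, hzy⟩ := him y hy
    rw [← hzy, hz z hzB]
    exact ⟨hzB, rfl⟩
  have hinj : Set.InjOn (fun y => zp (τ y)) Y' := by
    intro a ha b hb hab
    apply hP.inj (hsub ha) (hsub hb)
    rw [← (key a ha).2, ← (key b hb).2]
    exact congrArg σ hab
  have hd : ∀ y ∈ Y', HasFDerivWithinAt (fun y => zp (τ y))
      ((fderiv ℂ (fun y => zp (τ y)) y).restrictScalars ℝ) Y' y := by
    intro y hy
    have h1 : DifferentiableAt ℂ (fun y => zp (τ y)) y :=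
      (GCv2.zp_diff hP.diff).differentiableAt (hP.op.mem_nhds (hsub hy))
    exact (h1.hasFDerivAt.restrictScalars ℝ).hasFDerivWithinAt
  have hcv := lintegral_image_eq_lintegral_abs_det_fderiv_mul volume hY' hd hinj
    (fun z => H (σ z))
  have him' : (fun y => zp (τ y)) '' Y' ⊆ B := by
    rintro _ ⟨y, hy, rfl⟩
    exact (key y hy).1
  calc ∫⁻ y in Y', ENNReal.ofReal (jac τ y) * H (τ y)
      = ∫⁻ y in Y', ENNReal.ofReal
          |((fderiv ℂ (fun y => zp (τ y)) y).restrictScalars ℝ).det| * H (σ (zp (τ y))) := by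
        refine setLIntegral_congr_fun hY' fun y hy => ?_
        simp only [GCv2.det_real, (key y hy).2, jac]
    _ = ∫⁻ z in (fun y => zp (τ y)) '' Y', H (σ z) := hcv.symm
    _ ≤ ∫⁻ z in B, H (σ z) := lintegral_mono_set him'

end Pool.Agent.Lib.MP_9ff3e7_ag.F
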