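import Pool.Agent.Lib.MP_9ff3e7_ag.F.HDefs

/-! The ambient space `ℂ^n × ℂ^2` of a standard étale chart, thin tubes and weights. -/

set_option autoImplicit false

namespace Pool.Agent.Lib.MP_9ff3e7_ag.F

open MeasureTheory MvPolynomial

noncomputable section

/-- the ambient space -/
abbrev Amb (n : ℕ) : Type := Fin n ⊕ Fin 2 → ℂ

/-- polynomials on the ambient space -/
abbrev APoly (n : ℕ) : Type := MvPolynomial (Fin n ⊕ Fin 2) ℂ

variable {n : ℕ}

/-- base coordinates -/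
def zp (u : Amb n) : Fin n → ℂ := fun i => u (Sum.inl i)

/-- fibre coordinates -/
def sp (u : Amb n) : Fin 2 → ℂ := fun i => u (Sum.inr i)

/-- squared Euclidean norm -/
def nsq {ι : Type} [Fintype ι] (x : ι → ℂ) : ℝ := ∑ i, ‖x i‖ ^ 2

/-- translation in the fibre -/
def shift (q : Amb n) (s : Fin 2 → ℂ) : Amb n := Sum.elim (zp q) (sp q + s)

/-- sum of squares of a tuple of polynomials -/
def sos {r : ℕ} (t : Fin r → APoly n) (u : Amb n) : ℝ := nsq fun i => eval u (t i)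

/-- a thin tube around `U` with a holomorphic retraction along the fibres -/
structure Tube (n : ℕ) (U : Set (Amb n)) where
  p : Fin 2 → APoly n
  hU : ∀ u, u ∈ U ↔ ∀ i, eval u (p i) = 0
  T : Set (Amb n)
  π : Amb n → Amb n
  hT : IsOpen T
  an : AnalyticOnNhd ℂ π T
  mem : ∀ u ∈ T, π u ∈ U
  zπ : ∀ u ∈ T, zp (π u) = zp u
  small : ∀ u ∈ T, nsq (sp u - sp (π u)) ≤ 1
  c : ℝ
  c0 : 0 < c
  c1 : c ≤ 1
  N : ℕ
  inner : ∀ q ∈ U, ∀ s, nsq s * (1 + nsq q) ^ N ≤ c → shift q s ∈ T ∧ π (shift q s) = q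
  core : ∀ u, sos p u * (1 + nsq u) ^ N ≤ c → u ∈ T

/-- a finite family of tuples of polynomials with exponents -/
structure Wt (n : ℕ) where
  m : ℕ
  r : Fin m → ℕ
  t : ∀ a, Fin (r a) → APoly n
  c : Fin m → ℝ
  c0 : ∀ a, 0 ≤ c a

/-- the singular density -/
def Wt.dens (W : Wt n) (u : Amb n) : ENNReal :=
  ∏ a, ENNReal.ofReal (sos (W.t a) u) ^ (-W.c a)

/-- the regularised density, with the positivity factor -/
def Wt.reg (W : Wt n) (e τ : ℝ) (u : Amb n) : ℝ :=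
  (∏ a, (sos (W.t a) u + τ) ^ (-W.c a)) * (1 + nsq (zp u)) ^ (-e)

/-- a sheet of `U` over a ball -/
structure Sheet (U : Set (Amb n)) (z0 : Fin n → ℂ) (ρ : ℝ) (σ : (Fin n → ℂ) → Amb n) : Prop where
  pos : 0 < ρ
  an : AnalyticOnNhd ℂ σ (Metric.ball z0 ρ)
  mem : ∀ z ∈ Metric.ball z0 ρ, σ z ∈ U
  zσ : ∀ z ∈ Metric.ball z0 ρ, zp (σ z) = z

/-- an injective holomorphic parametrisation of a part of `U` -/
structure Par (U : Set (Amb n)) (Y : Set (Fin n → ℂ)) (τ : (Fin n → ℂ) → Amb n) : Prop where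
  op : IsOpen Y
  diff : DifferentiableOn ℂ τ Y
  inj : Set.InjOn τ Y
  mem : ∀ y ∈ Y, τ y ∈ U

/-- squared modulus of the Jacobian of the base coordinates -/
def jac (τ : (Fin n → ℂ) → Amb n) (y : Fin n → ℂ) : ℝ :=
  ‖(fderiv ℂ (fun y => zp (τ y)) y).det‖ ^ 2

/-- the radial integral in the fibre (`r`, `σ` are squared radii) -/
def radL (r σ : ℝ) : ENNReal :=
  ∫⁻ s in {s : Fin 2 → ℂ | nsq s < r}, ENNReal.ofReal (1 / (nsq s + σ) ^ 2)

/-- the weight on the tube -/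
def Tube.wa {U : Set (Amb n)} (Tb : Tube n U) (W : Wt n) (e τ σ : ℝ) (u : Amb n) : ℝ :=
  ∑ a, W.c a * Real.log (sos (W.t a) (Tb.π u) + τ) + e * Real.log (1 + nsq (zp u)) +
    2 * Real.log (nsq (sp u - sp (Tb.π u)) + σ) + nsq (sp u - sp (Tb.π u))

/-- points of the ambient space on a standard étale chart -/
def pairSet (E : StandardEtalePair (MvPolynomial (Fin n) ℂ)) : Set (Amb n) :=
  {u | (E.f.map (eval (zp u))).eval (sp u 0) = 0 ∧
    (E.g.map (eval (zp u))).eval (sp u 0) * sp u 1 = 1}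

end

end Pool.Agent.Lib.MP_9ff3e7_ag.F
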