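import Mathlib

/-! Analytic sheets of a standard étale algebra over a polynomial ring (model free). -/

set_option autoImplicit false

namespace Pool.Agent.Lib.MP_9ff3e7_ag.F.SheetA

open Polynomial Filter Topology
open scoped ContDiff

noncomputable section

variable {n : ℕ}

/-- evaluation of a polynomial over `ℂ[z]` at `(w, s)` -/
def ev2 (q : (MvPolynomial (Fin n) ℂ)[X]) (u : (Fin n → ℂ) × ℂ) : ℂ :=
  q.eval₂ (MvPolynomial.eval u.1) u.2

lemma mv_analytic (a : MvPolynomial (Fin n) ℂ) (w : Fin n → ℂ) :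
    AnalyticAt ℂ (fun w : Fin n → ℂ => MvPolynomial.eval w a) w := by
  induction a using MvPolynomial.induction_on with
  | C c => simpa using analyticAt_const
  | add p q hp hq => simpa using hp.fun_add hq
  | mul_X p i hp =>
    have : AnalyticAt ℂ (fun w : Fin n → ℂ => w i) w :=
      (ContinuousLinearMap.proj (R := ℂ) (φ := fun _ : Fin n => ℂ) i).analyticAt w
    simpa using hp.fun_mul this

lemma ev2_analytic (q : (MvPolynomial (Fin n) ℂ)[X]) (u : (Fin n → ℂ) × ℂ) :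
    AnalyticAt ℂ (ev2 q) u := by
  induction q using Polynomial.induction_on' with
  | add p q hp hq =>
    have : ev2 (p + q) = fun u => ev2 p u + ev2 q u := by
      funext u; simp [ev2, eval₂_add]
    rw [this]; exact hp.add hq
  | monomial k a =>
    have : ev2 (monomial k a) = fun u : (Fin n → ℂ) × ℂ => MvPolynomial.eval u.1 a * u.2 ^ k := by
      funext u; simp [ev2, eval₂_monomial]
    rw [this]
    exact ((mv_analytic a u.1).comp analyticAt_fst).mul (analyticAt_snd.pow k)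

lemma ev2_eq (q : (MvPolynomial (Fin n) ℂ)[X]) (w : Fin n → ℂ) (s : ℂ) :
    ev2 q (w, s) = (q.map (MvPolynomial.eval w)).eval s := by
  simp [ev2, eval_map]

lemma ev2_deriv (q : (MvPolynomial (Fin n) ℂ)[X]) (w : Fin n → ℂ) (s : ℂ) :
    HasDerivAt (fun s => ev2 q (w, s)) (ev2 (derivative q) (w, s)) s := by
  simp only [ev2_eq]
  rw [← derivative_map]
  exact Polynomial.hasDerivAt _ s

/-- the analytic implicit function of a simple root -/
lemma exists_root (q : (MvPolynomial (Fin n) ℂ)[X]) (u : (Fin n → ℂ) × ℂ) (h0 : ev2 q u = 0)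
    (h1 : ev2 (derivative q) u ≠ 0) :
    ∃ θ : (Fin n → ℂ) → ℂ, AnalyticAt ℂ θ u.1 ∧ θ u.1 = u.2 ∧
      (∀ᶠ w in 𝓝 u.1, ev2 q (w, θ w) = 0) ∧ ∀ᶠ v in 𝓝 u, ev2 q v = 0 → θ v.1 = v.2 := by
  have cdf : ContDiffAt ℂ ω (ev2 q) u := (ev2_analytic q u).contDiffAt
  have hd : HasFDerivAt (ev2 q) (fderiv ℂ (ev2 q) u) u :=
    (ev2_analytic q u).differentiableAt.hasFDerivAt
  have h2 : HasFDerivAt (fun s : ℂ => ev2 q (u.1, s))
      (fderiv ℂ (ev2 q) u ∘L .inr ℂ (Fin n → ℂ) ℂ) u.2 :=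
    HasFDerivAt.comp (f := fun s : ℂ => (u.1, s)) u.2 hd (hasFDerivAt_prodMk_right u.1 u.2)
  have h3 := (ev2_deriv q u.1 u.2).hasFDerivAt
  have h4 := h2.unique h3
  have hinv : (fderiv ℂ (ev2 q) u ∘L .inr ℂ (Fin n → ℂ) ℂ).IsInvertible := by
    rw [h4]
    refine ⟨ContinuousLinearEquiv.unitsEquivAut ℂ (Units.mk0 _ h1), ?_⟩
    ext
    simp
  refine ⟨cdf.implicitFunction (by simp) hinv, ?_, cdf.implicitFunction_apply_self _ hinv, ?_, ?_⟩
  · exact (cdf.contDiffAt_implicitFunction _ hinv).analyticAt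
  · simpa [h0] using cdf.eventually_apply_implicitFunction (by simp) hinv
  · filter_upwards [cdf.eventually_apply_eq_iff_implicitFunction (by simp) hinv] with v hv h
    exact hv.1 (by rw [h, h0])

variable {O : Type} [CommRing O] [Algebra ℂ O] [Algebra (MvPolynomial (Fin n) ℂ) O]
  [IsScalarTower ℂ (MvPolynomial (Fin n) ℂ) O]

variable (n) in
/-- base coordinates of a point -/
def zc (y : O →ₐ[ℂ] ℂ) : Fin n → ℂ :=
  fun i => y (algebraMap (MvPolynomial (Fin n) ℂ) O (MvPolynomial.X i))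

lemma apply_algebraMap (y : O →ₐ[ℂ] ℂ) (a : MvPolynomial (Fin n) ℂ) :
    y (algebraMap (MvPolynomial (Fin n) ℂ) O a) = MvPolynomial.eval (zc n y) a := by
  induction a using MvPolynomial.induction_on with
  | C c =>
    rw [← MvPolynomial.algebraMap_eq, ← IsScalarTower.algebraMap_apply]
    simp
  | add p q hp hq => simp [hp, hq]
  | mul_X p i hp => simp [hp, zc]

lemma apply_aeval (y : O →ₐ[ℂ] ℂ) (x : O) (q : (MvPolynomial (Fin n) ℂ)[X]) :
    y (aeval x q) = ev2 q (zc n y, y x) := by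
  rw [aeval_def, ev2]
  have := Polynomial.hom_eval₂ q (algebraMap (MvPolynomial (Fin n) ℂ) O) (y : O →+* ℂ) x
  refine this.trans ?_
  congr 1
  ext1
  · ext c; simpa using apply_algebraMap y (MvPolynomial.C c)
  · simpa using apply_algebraMap y (MvPolynomial.X _)

variable (E : StandardEtalePresentation (MvPolynomial (Fin n) ℂ) O)

lemma pt_f (y : O →ₐ[ℂ] ℂ) : ev2 E.f (zc n y, y E.x) = 0 := by
  rw [← apply_aeval, E.hasMap.1, map_zero]

lemma pt_g (y : O →ₐ[ℂ] ℂ) : ev2 E.g (zc n y, y E.x) ≠ 0 := by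
  rw [← apply_aeval]; exact (E.hasMap.2.map y).ne_zero

lemma pt_f' (y : O →ₐ[ℂ] ℂ) : ev2 (derivative E.f) (zc n y, y E.x) ≠ 0 := by
  rw [← apply_aeval]; exact (E.hasMap.isUnit_derivative_f.map y).ne_zero

/-- every element is a fixed rational function of the coordinates -/
lemma exists_rat (f : O) : ∃ (p : (MvPolynomial (Fin n) ℂ)[X]) (m : ℕ), ∀ y : O →ₐ[ℂ] ℂ,
    y f = ev2 p (zc n y, y E.x) / ev2 E.g (zc n y, y E.x) ^ m := by
  obtain ⟨p, m, h⟩ := E.exists_mul_aeval_x_g_pow_eq_aeval_x f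
  refine ⟨p, m, fun y => ?_⟩
  rw [eq_div_iff (pow_ne_zero _ (pt_g E y)), ← apply_aeval, ← apply_aeval, ← h]
  simp

lemma pt_ext {y y' : O →ₐ[ℂ] ℂ} (h1 : zc n y = zc n y') (h2 : y E.x = y' E.x) : y = y' := by
  ext f
  obtain ⟨p, m, h⟩ := exists_rat E f
  rw [h, h, h1, h2]

lemma exists_pt (w : Fin n → ℂ) (s : ℂ) (h1 : ev2 E.f (w, s) = 0) (h2 : ev2 E.g (w, s) ≠ 0) :
    ∃ y : O →ₐ[ℂ] ℂ, zc n y = w ∧ y E.x = s := by
  let _ : Algebra (MvPolynomial (Fin n) ℂ) ℂ := (MvPolynomial.eval w).toAlgebra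
  have hm : E.P.HasMap s := ⟨h1, Ne.isUnit h2⟩
  let φ : O →ₐ[MvPolynomial (Fin n) ℂ] ℂ := (E.P.lift s hm).comp E.equivRing.toAlgHom
  have hφ : ∀ a, φ (algebraMap (MvPolynomial (Fin n) ℂ) O a) = MvPolynomial.eval w a :=
    fun a => φ.commutes a
  refine ⟨{ toRingHom := φ, commutes' := fun c => ?_ }, ?_, ?_⟩
  · change φ _ = _
    rw [IsScalarTower.algebraMap_apply ℂ (MvPolynomial (Fin n) ℂ) O, hφ]
    simp
  · funext i
    change φ _ = _
    rw [hφ]; simp
  · change φ _ = _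
    simp [φ]

/-- the sheet through a point -/
theorem exists_sheet (p : O →ₐ[ℂ] ℂ) :
    ∃ σ : (Fin n → ℂ) → (O →ₐ[ℂ] ℂ), σ (zc n p) = p ∧ (∀ᶠ w in 𝓝 (zc n p), zc n (σ w) = w) ∧
      (∀ᶠ w in 𝓝 (zc n p), ∀ f, AnalyticAt ℂ (fun w => σ w f) w) ∧
      ∀ᶠ v in 𝓝 (zc n p, p E.x), ∀ y : O →ₐ[ℂ] ℂ, (zc n y, y E.x) = v → σ (zc n y) = y := by
  classical
  obtain ⟨θ, ha, h0, h1, h2⟩ := exists_root E.f (zc n p, p E.x) (pt_f E p) (pt_f' E p)
  simp only at ha h0 h1
  have hpair : AnalyticAt ℂ (fun w => (w, θ w)) (zc n p) := analyticAt_id.prod ha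
  have hg : ∀ᶠ w in 𝓝 (zc n p), ev2 E.g (w, θ w) ≠ 0 := by
    have : ContinuousAt (fun w => ev2 E.g (w, θ w)) (zc n p) :=
      (AnalyticAt.comp (f := fun w => (w, θ w)) (ev2_analytic E.g _) hpair).continuousAt
    refine this.eventually_ne ?_
    rw [h0]; exact pt_g E p
  let σ : (Fin n → ℂ) → (O →ₐ[ℂ] ℂ) := fun w =>
    if h : ev2 E.f (w, θ w) = 0 ∧ ev2 E.g (w, θ w) ≠ 0 then (exists_pt E w _ h.1 h.2).choose else p
  have hσ : ∀ w, ev2 E.f (w, θ w) = 0 → ev2 E.g (w, θ w) ≠ 0 →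
      zc n (σ w) = w ∧ σ w E.x = θ w := by
    intro w a b
    have : σ w = (exists_pt E w _ a b).choose := dif_pos ⟨a, b⟩
    rw [this]; exact (exists_pt E w _ a b).choose_spec
  have hev : ∀ᶠ w in 𝓝 (zc n p), zc n (σ w) = w ∧ σ w E.x = θ w ∧ ev2 E.g (w, θ w) ≠ 0 := by
    filter_upwards [h1, hg] with w a b
    exact ⟨(hσ w a b).1, (hσ w a b).2, b⟩
  refine ⟨σ, ?_, hev.mono fun w h => h.1, ?_, ?_⟩
  · have := hev.self_of_nhds
    exact pt_ext E this.1 (this.2.1.trans h0)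
  · filter_upwards [hev.eventually_nhds, ha.eventually_analyticAt] with w hw haw f
    obtain ⟨q, m, h⟩ := exists_rat E f
    have hp : AnalyticAt ℂ (fun w => (w, θ w)) w := analyticAt_id.prod haw
    have : AnalyticAt ℂ (fun w => ev2 q (w, θ w) / ev2 E.g (w, θ w) ^ m) w :=
      (AnalyticAt.comp (f := fun w => (w, θ w)) (ev2_analytic q _) hp).div
        ((AnalyticAt.comp (f := fun w => (w, θ w)) (ev2_analytic E.g _) hp).pow m)
        (pow_ne_zero _ hw.self_of_nhds.2.2)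
    refine this.congr ?_
    filter_upwards [hw] with w' hw'
    rw [h, hw'.1, hw'.2.1]
  · filter_upwards [h2] with v hv y hy
    subst hy
    have e : θ (zc n y) = y E.x := hv (pt_f E y)
    have := hσ (zc n y) (by rw [e]; exact pt_f E y) (by rw [e]; exact pt_g E y)
    exact pt_ext E this.1 (this.2.trans e)

end

end Pool.Agent.Lib.MP_9ff3e7_ag.F.SheetA
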