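import Pool.Agent.Lib.MP_9ff3e7_ag.F.GO
import Pool.Agent.Lib.MP_9ff3e7_ag.F.SheetA

/-! Points and functions of a model inside the ambient space; the identity theorem on a sheet. -/

set_option autoImplicit false

namespace Pool.Agent.Lib.MP_9ff3e7_ag.F

open MeasureTheory MvPolynomial Metric Filter Topology

variable {n : ℕ} {O : Type} [CommRing O] [IsDomain O] [Algebra ℂ O]
  [Algebra (MvPolynomial (Fin n) ℂ) O] [IsScalarTower ℂ (MvPolynomial (Fin n) ℂ) O]

omit [IsDomain O] [IsScalarTower ℂ (MvPolynomial (Fin n) ℂ) O] in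
theorem zp_emb (M : Model n O) (q : Pnt O) : zp (M.emb q) = zz n q := rfl

omit [IsDomain O] [IsScalarTower ℂ (MvPolynomial (Fin n) ℂ) O] in
theorem sp_emb0 (M : Model n O) (q : Pnt O) : sp (M.emb q) 0 = q M.E.x := rfl

omit [IsDomain O] [IsScalarTower ℂ (MvPolynomial (Fin n) ℂ) O] in
theorem sp_emb1 (M : Model n O) (q : Pnt O) :
    sp (M.emb q) 1 = (q (Polynomial.aeval M.E.x M.E.g))⁻¹ := rfl

omit [IsDomain O] in
theorem emb_inj (M : Model n O) : Function.Injective M.emb := fun _ _ h =>
  SheetA.pt_ext M.E (congrArg zp h) (congrArg (fun u => sp u 0) h)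

omit [IsDomain O] in
theorem emb_range (M : Model n O) : Set.range M.emb = pairSet M.E.P := by
  ext u
  constructor
  · rintro ⟨q, rfl⟩
    refine ⟨?_, ?_⟩
    · rw [zp_emb, sp_emb0, ← SheetA.ev2_eq]
      exact SheetA.pt_f M.E q
    · rw [zp_emb, sp_emb0, sp_emb1, ← SheetA.ev2_eq, SheetA.apply_aeval (n := n)]
      exact mul_inv_cancel₀ (SheetA.pt_g M.E q)
  · rintro ⟨h1, h2⟩
    rw [← SheetA.ev2_eq] at h1 h2
    obtain ⟨y, hy, hx⟩ := SheetA.exists_pt M.E (zp u) (sp u 0) h1 (left_ne_zero_of_mul_eq_one h2)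
    refine ⟨y, funext fun i => ?_⟩
    rcases i with i | i
    · exact congrFun hy i
    · fin_cases i
      · exact hx
      · change (y (Polynomial.aeval M.E.x M.E.g))⁻¹ = sp u 1
        rw [SheetA.apply_aeval (n := n), hy, hx]
        exact (eq_inv_of_mul_eq_one_right h2).symm

omit [IsDomain O] in
theorem emb_hom (M : Model n O) : ∃ π : APoly n →ₐ[ℂ] O, Function.Surjective π ∧
    ∀ (q : Pnt O) (F : APoly n), q (π F) = eval (M.emb q) F := by
  obtain ⟨v, hv⟩ := M.E.hasMap.2.exists_right_inv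
  let π : APoly n →ₐ[ℂ] O := aeval (Sum.elim (zc n O) ![M.E.x, v])
  have hz : ∀ a : MvPolynomial (Fin n) ℂ, algebraMap _ O a ∈ π.range := fun a => by
    induction a using MvPolynomial.induction_on with
    | C c =>
      rw [← MvPolynomial.algebraMap_eq, ← IsScalarTower.algebraMap_apply]
      exact Subalgebra.algebraMap_mem _ c
    | add p q hp hq => rw [map_add]; exact add_mem hp hq
    | mul_X p i hp =>
      rw [map_mul]
      exact mul_mem hp ⟨X (Sum.inl i), by simp [π, zc]⟩
  have hx : M.E.x ∈ π.range := ⟨X (Sum.inr 0), by simp [π]⟩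
  have hv' : v ∈ π.range := ⟨X (Sum.inr 1), by simp [π]⟩
  have hp : ∀ p : Polynomial (MvPolynomial (Fin n) ℂ), Polynomial.aeval M.E.x p ∈ π.range :=
    fun p => by
    induction p using Polynomial.induction_on' with
    | add p q hp hq => rw [map_add]; exact add_mem hp hq
    | monomial k a => rw [Polynomial.aeval_monomial]; exact mul_mem (hz a) (pow_mem hx k)
  refine ⟨π, fun f => ?_, fun q F => ?_⟩
  · obtain ⟨p, m, h⟩ := M.E.exists_mul_aeval_x_g_pow_eq_aeval_x f
    have : f = Polynomial.aeval M.E.x p * v ^ m := by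
      rw [← h, mul_assoc, ← mul_pow, hv, one_pow, mul_one]
    rw [this]
    exact mul_mem (hp p) (pow_mem hv' m)
  · have hq : q v = (q (Polynomial.aeval M.E.x M.E.g))⁻¹ :=
      eq_inv_of_mul_eq_one_right (by rw [← map_mul, hv, map_one])
    have : q.comp π = aeval (M.emb q) := by
      ext i
      rcases i with i | i
      · simp [π, Model.emb, zz]
      · fin_cases i
        · simp [π, Model.emb]
        · simp [π, Model.emb, hq]
    exact (AlgHom.congr_fun this F).trans rfl

omit [IsDomain O] in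
theorem emb_facts' (M : Model n O) :
    Function.Injective M.emb ∧ Set.range M.emb = pairSet M.E.P ∧
      ∃ π : APoly n →ₐ[ℂ] O, Function.Surjective π ∧
        ∀ (q : Pnt O) (F : APoly n), q (π F) = eval (M.emb q) F :=
  ⟨emb_inj M, emb_range M, emb_hom M⟩

set_option linter.unusedSectionVars false in
/-- O1: points and functions of the model in the ambient space -/
theorem emb_facts (M : Model n O) :
    Function.Injective M.emb ∧ Set.range M.emb = pairSet M.E.P ∧
      ∃ π : APoly n →ₐ[ℂ] O, Function.Surjective π ∧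
        ∀ (q : Pnt O) (F : APoly n), q (π F) = eval (M.emb q) F := emb_facts' M

/-- a polynomial that vanishes near a point is zero -/
theorem mv_eq_zero_of_near (a : MvPolynomial (Fin n) ℂ) (w0 : Fin n → ℂ)
    (h : ∀ᶠ w in 𝓝 w0, eval w a = 0) : a = 0 := by
  have ha : AnalyticOnNhd ℂ (fun w : Fin n → ℂ => eval w a) Set.univ :=
    fun w _ => SheetA.mv_analytic a w
  have := ha.eq_of_eventuallyEq (g := fun _ => 0) analyticOnNhd_const h
  exact MvPolynomial.funext fun w => by simpa using congrFun this w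

/-- O1b: identity theorem on a sheet -/
theorem sheet_id (M : Model n O) (p : Pnt O) (f : O)
    (h : ∀ᶠ w in 𝓝 (zz n p), M.sg p w f = 0) : f = 0 := by
  obtain ⟨q, m, hq⟩ := M.E.exists_mul_aeval_x_g_pow_eq_aeval_x f
  by_contra hf
  have h0 : Polynomial.aeval M.E.x q ≠ 0 := by
    rw [← hq]
    exact mul_ne_zero hf (pow_ne_zero _ M.E.hasMap.2.ne_zero)
  have hx : IsIntegral (MvPolynomial (Fin n) ℂ) M.E.x := ⟨M.E.f, M.E.monic_f, M.E.hasMap.1⟩
  have hi : IsIntegral (MvPolynomial (Fin n) ℂ) (Polynomial.aeval M.E.x q) :=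
    IsIntegral.of_mem_of_fg _ hx.fg_adjoin_singleton _ (Polynomial.aeval_mem_adjoin_singleton _ _)
  obtain ⟨r, hr, c, hc⟩ := hi.isAlgebraic.exists_nonzero_dvd (mem_nonZeroDivisors_of_ne_zero h0)
  refine hr (mv_eq_zero_of_near r (zz n p) ?_)
  filter_upwards [h, M.sec p] with w a b
  have := SheetA.apply_algebraMap (n := n) (M.sg p w) r
  rw [show SheetA.zc n (M.sg p w) = w from b] at this
  rw [← this, hc, ← hq, map_mul, map_mul, a, zero_mul, zero_mul]

end Pool.Agent.Lib.MP_9ff3e7_ag.F
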