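import Pool.Agent.Lib.MP_9ff3e7_ag.F.GDefs

/-! Normalised equations of a chart and the global weight. -/

set_option autoImplicit false

namespace Pool.Agent.Lib.MP_9ff3e7_ag.F

open MvPolynomial

noncomputable section

/-- two polynomials vanishing on `U` whose fibre derivative is the identity along `U` -/
structure Eqn (n : ℕ) (U : Set (Amb n)) where
  S : Fin 2 → APoly n
  van : ∀ q ∈ U, ∀ i, eval q (S i) = 0
  der : ∀ q ∈ U, ∀ i j, eval q (pderiv (Sum.inr j) (S i)) = if i = j then 1 else 0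

/-- the global weight -/
def Eqn.wb {n : ℕ} {U : Set (Amb n)} (Q : Eqn n U) (W : Wt n) (e τ σ : ℝ) (u : Amb n) : ℝ :=
  ∑ a, W.c a * Real.log (sos (W.t a) u + τ) + e * Real.log (1 + nsq (zp u)) +
    Real.log (1 + sos Q.S u) + 2 * Real.log (sos Q.S u + σ)

end

end Pool.Agent.Lib.MP_9ff3e7_ag.F
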