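import Pool.Agent.Lib.MP_9ff3e7_ag.F.GEqn

/-! Normalised equations of a standard étale chart exist. -/

set_option autoImplicit false

namespace Pool.Agent.Lib.MP_9ff3e7_ag.F

open MvPolynomial

variable {n : ℕ}

namespace GEx

/-- a polynomial in `w` over `ℂ[z]` as a polynomial on the ambient space -/
noncomputable def lf (p : Polynomial (MvPolynomial (Fin n) ℂ)) : APoly n :=
  p.eval₂ (rename (Sum.inl : Fin n → Fin n ⊕ Fin 2) : MvPolynomial (Fin n) ℂ →ₐ[ℂ] APoly n).toRingHom
    (X (Sum.inr 0))

theorem lf_add (p q : Polynomial (MvPolynomial (Fin n) ℂ)) : lf (p + q) = lf p + lf q :=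
  Polynomial.eval₂_add _ _

theorem lf_monomial (k : ℕ) (a : MvPolynomial (Fin n) ℂ) :
    lf (Polynomial.monomial k a) = rename Sum.inl a * X (Sum.inr 0) ^ k := by
  simp [lf, Polynomial.eval₂_monomial]

theorem eval_lf (u : Amb n) (p : Polynomial (MvPolynomial (Fin n) ℂ)) :
    eval u (lf p) = (p.map (eval (zp u))).eval (sp u 0) := by
  induction p using Polynomial.induction_on' with
  | add p q hp hq => rw [lf_add, map_add, hp, hq, Polynomial.map_add, Polynomial.eval_add]
  | monomial k a =>
    rw [lf_monomial, Polynomial.map_monomial, Polynomial.eval_monomial, map_mul, map_pow, eval_X,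
      eval_rename]
    rfl

theorem pd_rename (j : Fin 2) (a : MvPolynomial (Fin n) ℂ) :
    pderiv (Sum.inr j : Fin n ⊕ Fin 2) (rename Sum.inl a) = 0 := by
  induction a using MvPolynomial.induction_on with
  | C c => simp
  | add p q hp hq => rw [map_add, map_add, hp, hq, add_zero]
  | mul_X p i hp => rw [map_mul, rename_X, Derivation.leibniz, hp]; simp

theorem pd0_lf (p : Polynomial (MvPolynomial (Fin n) ℂ)) :
    pderiv (Sum.inr 0 : Fin n ⊕ Fin 2) (lf p) = lf (Polynomial.derivative p) := by
  induction p using Polynomial.induction_on' with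
  | add p q hp hq => rw [lf_add, map_add, hp, hq, map_add, lf_add]
  | monomial k a =>
    rw [Polynomial.derivative_monomial, lf_monomial, lf_monomial, Derivation.leibniz, pd_rename,
      Derivation.leibniz_pow]
    simp only [pderiv_X_self, smul_eq_mul, mul_one, mul_zero, add_zero, nsmul_eq_mul, map_mul,
      map_natCast]
    ring

theorem pd1_lf (p : Polynomial (MvPolynomial (Fin n) ℂ)) :
    pderiv (Sum.inr 1 : Fin n ⊕ Fin 2) (lf p) = 0 := by
  induction p using Polynomial.induction_on' with
  | add p q hp hq => rw [lf_add, map_add, hp, hq, add_zero]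
  | monomial k a =>
    rw [lf_monomial, Derivation.leibniz, pd_rename, Derivation.leibniz_pow]
    simp

end GEx

open GEx

/-- E1: normalised equations of a standard étale chart -/
theorem exists_eqn (E : StandardEtalePair (MvPolynomial (Fin n) ℂ)) :
    Nonempty (Eqn n (pairSet E)) := by
  obtain ⟨p1, p2, e, hc⟩ := E.cond
  set v : APoly n := X (Sum.inr 1) with hv
  set S1 : APoly n := lf E.f * (lf p1 * v ^ e) with hS1
  set T : APoly n := lf E.g * v - 1 - lf (Polynomial.derivative E.g) * v * S1 with hT
  have hv0 : pderiv (Sum.inr 0 : Fin n ⊕ Fin 2) v = 0 := by simp [hv]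
  have hv1 : pderiv (Sum.inr 1 : Fin n ⊕ Fin 2) v = 1 := by simp [hv]
  have key : ∀ q ∈ pairSet E, eval q (lf E.f) = 0 ∧ eval q (lf E.g) * eval q v = 1 ∧
      eval q (lf (Polynomial.derivative E.f)) * (eval q (lf p1) * eval q v ^ e) = 1 := by
    intro q hq
    obtain ⟨h1, h2⟩ := hq
    have hvq : eval q v = sp q 1 := by simp [hv, sp]
    refine ⟨by rw [eval_lf, h1], by rw [eval_lf, hvq, h2], ?_⟩
    have h3 := congrArg (fun p => (Polynomial.map (eval (zp q)) p).eval (sp q 0)) hc
    simp only [Polynomial.map_add, Polynomial.map_mul, Polynomial.map_pow, Polynomial.eval_add,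
      Polynomial.eval_mul, Polynomial.eval_pow, h1, zero_mul, add_zero] at h3
    rw [eval_lf, eval_lf, hvq, ← mul_assoc, h3, ← mul_pow, h2, one_pow]
  have s0 : ∀ q ∈ pairSet E, eval q S1 = 0 := by
    intro q hq
    rw [hS1, map_mul, (key q hq).1, zero_mul]
  have s10 : ∀ q ∈ pairSet E, eval q (pderiv (Sum.inr 0) S1) = 1 := by
    intro q hq
    obtain ⟨a, -, c⟩ := key q hq
    rw [hS1, Derivation.leibniz, pd0_lf]
    simp only [smul_eq_mul, map_add, map_mul, map_pow, a, zero_mul, zero_add]
    rw [mul_comm]; exact c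
  have s11 : ∀ q ∈ pairSet E, eval q (pderiv (Sum.inr 1) S1) = 0 := by
    intro q hq
    obtain ⟨a, -, -⟩ := key q hq
    rw [hS1, Derivation.leibniz, pd1_lf]
    simp only [smul_eq_mul, map_mul, a, zero_mul, mul_zero, add_zero]
  have t0 : ∀ q ∈ pairSet E, eval q T = 0 := by
    intro q hq
    rw [hT]
    simp only [map_sub, map_mul, map_one, (key q hq).2.1, s0 q hq, mul_zero, sub_self]
  refine ⟨⟨![S1, v * T], ?_, ?_⟩⟩
  · intro q hq i
    fin_cases i
    · exact s0 q hq
    · show eval q (v * T) = 0
      rw [map_mul, t0 q hq, mul_zero]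
  · intro q hq i j
    fin_cases i <;> fin_cases j
    · exact s10 q hq
    · exact s11 q hq
    · show eval q (pderiv (Sum.inr 0) (v * T)) = 0
      rw [Derivation.leibniz, hv0, hT, map_sub, map_sub, Derivation.leibniz, Derivation.leibniz,
        hv0, pd0_lf]
      simp only [smul_eq_mul, map_add, map_mul, map_sub, mul_zero, zero_add, add_zero,
        s0 q hq, s10 q hq, zero_mul, Derivation.map_one_eq_zero, sub_zero, mul_one]
      ring
    · show eval q (pderiv (Sum.inr 1) (v * T)) = 1
      have hd : pderiv (Sum.inr 1 : Fin n ⊕ Fin 2) T = lf E.g -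
          (lf (Polynomial.derivative E.g) * v * pderiv (Sum.inr 1) S1 +
            S1 * pderiv (Sum.inr 1) (lf (Polynomial.derivative E.g) * v)) := by
        rw [hT, map_sub, map_sub, Derivation.leibniz _ (lf E.g) v,
          Derivation.leibniz _ (lf (Polynomial.derivative E.g) * v) S1, hv1, pd1_lf]
        simp only [smul_eq_mul, mul_one, mul_zero, add_zero, Derivation.map_one_eq_zero, sub_zero]
      rw [Derivation.leibniz, hv1, hd]
      simp only [smul_eq_mul, map_add, map_mul, map_sub, mul_zero, add_zero, t0 q hq,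
        s0 q hq, s11 q hq, zero_mul, sub_zero, mul_one]
      rw [mul_comm]; exact (key q hq).2.1

end Pool.Agent.Lib.MP_9ff3e7_ag.F
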