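import Pool.Agent.Lib.MP_9ff3e7_ag.F.GDefs
import Pool.Agent.Lib.MP_9ff3e7_ag.F.Liou

/-! Passage to the limit in the global estimate. -/

set_option autoImplicit false

namespace Pool.Agent.Lib.MP_9ff3e7_ag.F

open MeasureTheory MvPolynomial Metric Filter Topology

namespace GLim

/-- a sequence in a finite dimensional space that is bounded at the points of `B` converges,
along a subsequence, at all points controlled by `B` -/
theorem subseq {P B A : Type} [AddCommGroup P] [Module ℂ P] [FiniteDimensional ℂ P]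
    (L : P →ₗ[ℂ] (B → ℂ)) (ev : A → P →ₗ[ℂ] ℂ) (hk : ∀ F, L F = 0 → ∀ u, ev u F = 0)
    (F : ℕ → P) (hb : ∀ z, ∃ M : ℝ, ∀ k, ‖L (F k) z‖ ≤ M) :
    ∃ G : P, ∃ φ : ℕ → ℕ, StrictMono φ ∧
      ∀ u, Tendsto (fun k => ev u (F (φ k))) atTop (𝓝 (ev u G)) := by
  choose M hM using hb
  let W := LinearMap.range L
  obtain ⟨s, hs⟩ := L.rangeRestrict.exists_rightInverse_of_surjective L.range_rangeRestrict
  have hS : IsCompact (Set.pi Set.univ fun z => closedBall (0 : ℂ) (M z)) :=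
    isCompact_univ_pi fun z => isCompact_closedBall _ _
  have hS' : IsCompact ((Subtype.val : W → B → ℂ) ⁻¹' Set.pi Set.univ
      fun z => closedBall (0 : ℂ) (M z)) :=
    (W.closed_of_finiteDimensional.isClosedEmbedding_subtypeVal).isCompact_preimage hS
  let e := (Module.finBasis ℂ W).equivFunL
  obtain ⟨a, -, φ, hφ, ha⟩ := (hS'.image e.continuous).tendsto_subseq
    (x := fun k => e (L.rangeRestrict (F k)))
    (fun k => ⟨_, fun z _ => mem_closedBall_zero_iff.mpr (hM z k), rfl⟩)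
  refine ⟨s (e.symm a), φ, hφ, fun u => ?_⟩
  have hc : Continuous ((ev u).comp s) := LinearMap.continuous_of_finiteDimensional _
  have h1 := ((hc.comp e.symm.continuous).tendsto a).comp ha
  refine h1.congr fun k => ?_
  simp only [Function.comp, ContinuousLinearEquiv.symm_apply_apply, LinearMap.comp_apply]
  have h2 : L (s (L.rangeRestrict (F (φ k))) - F (φ k)) = 0 := by
    have := congrArg Subtype.val (LinearMap.congr_fun hs (L.rangeRestrict (F (φ k))))
    rw [map_sub, sub_eq_zero]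
    exact this
  have := hk _ h2 u
  rwa [map_sub, sub_eq_zero] at this

theorem prod_le_liminf {ι : Type} (s : Finset ι) (f : ι → ℕ → ENNReal) (g : ι → ENNReal)
    (h : ∀ a, Tendsto (f a) atTop (𝓝 (g a))) :
    ∏ a ∈ s, g a ≤ liminf (fun k => ∏ a ∈ s, f a k) atTop := by
  classical
  induction s using Finset.induction_on with
  | empty => simp
  | insert a s ha ih =>
    simp only [Finset.prod_insert ha]
    refine le_trans ?_ (ENNReal.le_liminf_mul (u := f a) (v := fun k => ∏ a ∈ s, f a k))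
    rw [(h a).liminf_eq]
    gcongr

theorem fatou {α : Type} [MeasurableSpace α] {μ : Measure α} {g : ℕ → α → ENNReal}
    {t : α → ENNReal} {C : ENNReal} (hg : ∀ k, AEMeasurable (g k) μ)
    (hC : ∀ k, ∫⁻ x, g k x ∂μ ≤ C) (ht : ∀ᵐ x ∂μ, t x ≤ liminf (fun k => g k x) atTop) :
    ∫⁻ x, t x ∂μ ≤ C :=
  (lintegral_mono_ae ht).trans <| (lintegral_liminf_le' hg).trans <|
    liminf_le_of_frequently_le' (Frequently.of_forall hC)

variable {n : ℕ}

theorem nsq_nonneg {ι : Type} [Fintype ι] (x : ι → ℂ) : 0 ≤ nsq x :=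
  Finset.sum_nonneg fun _ _ => sq_nonneg _

theorem sos_nonneg {r : ℕ} (t : Fin r → APoly n) (u : Amb n) : 0 ≤ sos t u := nsq_nonneg _

theorem cont_nsq {ι : Type} [Fintype ι] : Continuous (nsq : (ι → ℂ) → ℝ) := by
  unfold nsq; fun_prop

theorem cont_zp : Continuous (zp : Amb n → Fin n → ℂ) := by
  unfold zp; fun_prop

theorem cont_sos {r : ℕ} (t : Fin r → APoly n) : Continuous (sos t) :=
  cont_nsq.comp (continuous_pi fun i => MvPolynomial.continuous_eval (t i))

theorem cont_fac (e : ℝ) : Continuous fun u : Amb n => (1 + nsq (zp u)) ^ (-e) :=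
  (continuous_const.add (cont_nsq.comp cont_zp)).rpow_const fun u =>
    Or.inl (add_pos_of_pos_of_nonneg one_pos (nsq_nonneg (zp u))).ne'

theorem fac_pos (e : ℝ) (u : Amb n) : 0 < (1 + nsq (zp u)) ^ (-e) :=
  Real.rpow_pos_of_pos (by have := nsq_nonneg (zp u); positivity) _

theorem cont_reg (W : Wt n) (e : ℝ) {τ : ℝ} (hτ : 0 < τ) : Continuous (W.reg e τ) := by
  refine Continuous.mul (continuous_finsetProd _ fun a _ => ?_) (cont_fac e)
  exact ((cont_sos _).add continuous_const).rpow_const fun u =>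
    Or.inl (add_pos_of_nonneg_of_pos (sos_nonneg (W.t a) u) hτ).ne'

theorem reg_pos (W : Wt n) (e : ℝ) {τ : ℝ} (hτ : 0 < τ) (u : Amb n) : 0 < W.reg e τ u :=
  mul_pos (Finset.prod_pos fun a _ => Real.rpow_pos_of_pos
    (by have := sos_nonneg (W.t a) u; positivity) _) (fac_pos e u)

theorem reg_anti (W : Wt n) (e : ℝ) {τ τ' : ℝ} (hτ : 0 < τ) (h : τ ≤ τ') (u : Amb n) :
    W.reg e τ' u ≤ W.reg e τ u := by
  refine mul_le_mul_of_nonneg_right (Finset.prod_le_prod (fun a _ => ?_) fun a _ => ?_)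
    (fac_pos e u).le
  · exact Real.rpow_nonneg (by have := sos_nonneg (W.t a) u; linarith) _
  · exact Real.rpow_le_rpow_of_nonpos (by have := sos_nonneg (W.t a) u; positivity)
      (by linarith) (by linarith [W.c0 a])

theorem dens_le_liminf (W : Wt n) (e : ℝ) (u : Amb n) {τ x : ℕ → ℝ} {x0 : ℝ} (hτ : ∀ k, 0 < τ k)
    (hτ0 : Tendsto τ atTop (𝓝 0)) (hx : Tendsto x atTop (𝓝 x0)) :
    ENNReal.ofReal (x0 * (1 + nsq (zp u)) ^ (-e)) * W.dens u ≤
      liminf (fun k => ENNReal.ofReal (x k * W.reg e (τ k) u)) atTop := by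
  have h1 : Tendsto (fun k => ENNReal.ofReal (x k * (1 + nsq (zp u)) ^ (-e))) atTop
      (𝓝 (ENNReal.ofReal (x0 * (1 + nsq (zp u)) ^ (-e)))) :=
    ENNReal.tendsto_ofReal (hx.mul_const _)
  have h2 := prod_le_liminf Finset.univ
    (fun a k => ENNReal.ofReal (sos (W.t a) u + τ k) ^ (-W.c a))
    (fun a => ENNReal.ofReal (sos (W.t a) u) ^ (-W.c a)) fun a => by
      refine (ENNReal.continuous_rpow_const.tendsto _).comp (ENNReal.tendsto_ofReal ?_)
      simpa using hτ0.const_add (sos (W.t a) u)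
  rw [← h1.liminf_eq]
  refine (mul_le_mul_right h2 _).trans (ENNReal.le_liminf_mul.trans (le_of_eq ?_))
  congr 1
  funext k
  have hp : ∀ a, 0 < sos (W.t a) u + τ k := fun a => by
    have := sos_nonneg (W.t a) u; have := hτ k; positivity
  simp only [Pi.mul_apply, Wt.reg, ENNReal.ofReal_rpow_of_pos (hp _)]
  rw [← ENNReal.ofReal_prod_of_nonneg fun a _ => Real.rpow_nonneg (hp a).le _,
    ← ENNReal.ofReal_mul' (Finset.prod_nonneg fun a _ => Real.rpow_nonneg (hp a).le _)]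
  congr 1
  ring

theorem meas_jac (τ : (Fin n → ℂ) → Amb n) : Measurable (jac τ) :=
  ((ContinuousLinearMap.continuous_det.measurable.comp (measurable_fderiv ℂ _)).norm).pow_const 2

end GLim

open GLim in
/-- the limit of the approximate solutions -/
theorem G_lim {n : ℕ} {U : Set (Amb n)} (W : Wt n) {e : ℝ} {z0 : Fin n → ℂ} {ρ : ℝ}
    {σ : (Fin n → ℂ) → Amb n} (hσ : Sheet U z0 ρ σ)
    (hid : ∀ F : APoly n, (∀ z ∈ ball z0 (ρ / 4), eval (σ z) F = 0) → ∀ u ∈ U, eval u F = 0)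
    (hnon : ∀ δ : ℝ, 0 < δ → δ ≤ ρ / 4 → ∫⁻ z in ball z0 δ, W.dens (σ z) = ⊤)
    (Ex : Set (Amb n)) (N : ℕ) (C : ENNReal) (hC : C < ⊤)
    (hstep : ∀ τ0 : ℝ, 0 < τ0 → τ0 ≤ 1 → ∀ R : ℝ,
      ∃ F : APoly n, F.totalDegree ≤ N ∧
        ∫⁻ z in ball z0 (ρ / 4),
          ENNReal.ofReal (‖eval (σ z) F - 1‖ ^ 2 * W.reg e τ0 (σ z)) ≤ C ∧
        ∀ (Y : Set (Fin n → ℂ)) (τ : (Fin n → ℂ) → Amb n), Par U Y τ →
          (∀ y ∈ Y, τ y ∉ Ex) → (∀ y ∈ Y, nsq (τ y) ≤ R) →
          ∫⁻ y in Y, ENNReal.ofReal (jac τ y * ‖eval (τ y) F‖ ^ 2 * W.reg e τ0 (τ y)) ≤ C) :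
    ∃ F : APoly n, F.totalDegree ≤ N ∧ eval (σ z0) F = 1 ∧
      ∫⁻ z in ball z0 (ρ / 4), ENNReal.ofReal
        (‖eval (σ z) F - 1‖ ^ 2 * (1 + nsq (zp (σ z))) ^ (-e)) * W.dens (σ z) ≤ C ∧
      ∀ (Y : Set (Fin n → ℂ)) (τ : (Fin n → ℂ) → Amb n), Par U Y τ → (∀ y ∈ Y, τ y ∉ Ex) →
        ∫⁻ y in Y, ENNReal.ofReal (jac τ y * ‖eval (τ y) F‖ ^ 2 * (1 + nsq (zp (τ y))) ^ (-e)) *
          W.dens (τ y) ≤ C := by
  have hρ := hσ.pos
  have hsub : closedBall z0 (ρ / 4) ⊆ ball z0 ρ := closedBall_subset_ball (by linarith)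
  have hsub' : ball z0 (ρ / 4) ⊆ ball z0 ρ := ball_subset_closedBall.trans hsub
  have hσc : ContinuousOn σ (ball z0 ρ) := hσ.an.continuousOn
  let t : ℕ → ℝ := fun k => 1 / ((k : ℝ) + 1)
  have ht0 : ∀ k, 0 < t k := fun k => Nat.one_div_pos_of_nat
  have ht1 : ∀ k, t k ≤ 1 := fun k => by
    rw [div_le_one (by positivity)]; linarith [(Nat.cast_nonneg k : (0 : ℝ) ≤ k)]
  choose F hFd hF1 hF2 using fun k : ℕ => hstep (t k) (ht0 k) (ht1 k) k
  obtain ⟨z1, -, hz1⟩ := (isCompact_closedBall z0 (ρ / 4)).exists_isMinOn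
    ⟨z0, mem_closedBall_self (by linarith)⟩
    ((cont_reg W e one_pos).comp_continuousOn (hσc.mono hsub))
  set c := W.reg e 1 (σ z1) with hc
  have hc0 : 0 < c := reg_pos W e one_pos _
  have hb : ∀ z ∈ ball z0 (ρ / 4), ∃ M : ℝ, ∀ k, ‖eval (σ z) (F k)‖ ≤ M := by
    intro z hz
    obtain ⟨r, hr, hrs⟩ := Metric.isOpen_iff.mp isOpen_ball z hz
    set v := ENNReal.ofReal c * volume (ball (0 : Fin n → ℂ) r) with hv
    have hv0 : v ≠ 0 := mul_ne_zero (by simpa using hc0) (measure_ball_pos _ _ hr).ne'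
    refine ⟨√(C / v).toReal + 1, fun k => ?_⟩
    have hd : DifferentiableOn ℂ (fun w => eval (σ w) (F k) - 1) (ball z r) := by
      refine DifferentiableOn.sub_const (fun w hw => ?_) 1
      exact ((AnalyticOnNhd.eval_mvPolynomial (F k) _ (Set.mem_univ _)).comp
        (hσ.an w (hsub' (hrs hw)))).differentiableAt.differentiableWithinAt
    have h1 : ENNReal.ofReal (‖eval (σ z) (F k) - 1‖ ^ 2) * v ≤ C := by
      rw [hv, mul_left_comm]
      refine (mul_le_mul_right (submean hd) _).trans ?_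
      rw [← lintegral_const_mul' _ _ ENNReal.ofReal_ne_top]
      refine le_trans ?_ ((lintegral_mono_set hrs).trans (hF1 k))
      refine setLIntegral_mono' measurableSet_ball fun w hw => ?_
      rw [← ENNReal.ofReal_mul hc0.le, mul_comm]
      refine ENNReal.ofReal_le_ofReal (mul_le_mul_of_nonneg_left ?_ (sq_nonneg _))
      exact (hz1 (ball_subset_closedBall (hrs hw))).trans (reg_anti W e (ht0 k) (ht1 k) _)
    have h2 : ENNReal.ofReal (‖eval (σ z) (F k) - 1‖ ^ 2) ≤ C / v :=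
      (ENNReal.le_div_iff_mul_le (Or.inl hv0) (Or.inr hC.ne)).mpr h1
    have h3 := (ENNReal.ofReal_le_iff_le_toReal (ENNReal.div_lt_top hC.ne hv0).ne).mp h2
    have h4 := Real.le_sqrt_of_sq_le h3
    calc ‖eval (σ z) (F k)‖ = ‖(eval (σ z) (F k) - 1) + 1‖ := by rw [sub_add_cancel]
      _ ≤ _ := (norm_add_le _ _).trans (by rw [norm_one]; linarith)
  let P := restrictTotalDegree (Fin n ⊕ Fin 2) ℂ N
  let ev0 : Amb n → P →ₗ[ℂ] ℂ := fun u => (aeval u : APoly n →ₐ[ℂ] ℂ).toLinearMap.comp P.subtype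
  have hev : ∀ u (G : P), ev0 u G = eval u G.1 := fun u G => by
    simp [ev0]
  obtain ⟨G, φ, hφ, hG⟩ := subseq (P := P)
    (LinearMap.pi fun z : ball z0 (ρ / 4) => ev0 (σ z)) (fun u : U => ev0 u)
    (fun G h u => by
      rw [hev]
      exact hid _ (fun z hz => by rw [← hev]; exact congrFun h ⟨z, hz⟩) u u.2)
    (fun k => ⟨F k, (mem_restrictTotalDegree _ _ _).mpr (hFd k)⟩)
    (fun z => by simpa only [LinearMap.pi_apply, hev] using hb z z.2)
  simp only [hev] at hG
  have htφ : Tendsto (fun k => t (φ k)) atTop (𝓝 0) :=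
    tendsto_one_div_add_atTop_nhds_zero_nat.comp hφ.tendsto_atTop
  have hA : ∫⁻ z in ball z0 (ρ / 4), ENNReal.ofReal
      (‖eval (σ z) G.1 - 1‖ ^ 2 * (1 + nsq (zp (σ z))) ^ (-e)) * W.dens (σ z) ≤ C := by
    refine fatou (fun k => ?_) (fun k => hF1 (φ k)) ?_
    · refine ContinuousOn.aemeasurable (ENNReal.continuous_ofReal.comp_continuousOn ?_)
        measurableSet_ball
      exact (((((MvPolynomial.continuous_eval _).sub continuous_const).norm.pow 2).mul
        (cont_reg W e (ht0 _))).comp_continuousOn (hσc.mono hsub'))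
    · refine (ae_restrict_mem measurableSet_ball).mono fun z hz => ?_
      exact dens_le_liminf W e (σ z) (fun k => ht0 _) htφ
        (((hG ⟨σ z, hσ.mem z (hsub' hz)⟩).sub_const 1).norm.pow 2)
  refine ⟨G.1, (mem_restrictTotalDegree _ _ _).mp G.2, ?_, hA, fun Y τ hP hY => ?_⟩
  · by_contra hne
    let g : (Fin n → ℂ) → ℝ := fun z => ‖eval (σ z) G.1 - 1‖ ^ 2 * (1 + nsq (zp (σ z))) ^ (-e)
    have hg0 : 0 < g z0 := mul_pos (pow_pos (norm_pos_iff.mpr (sub_ne_zero.mpr hne)) 2) (fac_pos _ _)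
    have hgc : ContinuousAt g z0 :=
      (((((MvPolynomial.continuous_eval _).sub continuous_const).norm.pow 2).mul
        (cont_fac e)).continuousAt).comp (hσc.continuousAt (ball_mem_nhds _ hρ))
    obtain ⟨δ, hδ, hδ'⟩ := Metric.eventually_nhds_iff_ball.mp
      (hgc.eventually (lt_mem_nhds (half_lt_self hg0)))
    have h1 := hnon (min δ (ρ / 4)) (lt_min hδ (by linarith)) (min_le_right _ _)
    have h2 : ENNReal.ofReal (g z0 / 2) * ∫⁻ z in ball z0 (min δ (ρ / 4)), W.dens (σ z) ≤ C := by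
      rw [← lintegral_const_mul' _ _ ENNReal.ofReal_ne_top]
      refine le_trans ?_ ((lintegral_mono_set (ball_subset_ball (min_le_right δ _))).trans hA)
      refine setLIntegral_mono' measurableSet_ball fun w hw => ?_
      exact mul_le_mul_left
        (ENNReal.ofReal_le_ofReal (hδ' w (ball_subset_ball (min_le_left _ _) hw)).le) _
    rw [h1, ENNReal.mul_top (by simpa using hg0)] at h2
    exact absurd hC (not_lt.mpr h2)
  · let Yk : ℕ → Set (Fin n → ℂ) := fun k => Y ∩ (fun y => nsq (τ y)) ⁻¹' Set.Iio (k : ℝ)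
    have hτc : ContinuousOn τ Y := hP.diff.continuousOn
    have hYo : ∀ k, IsOpen (Yk k) := fun k =>
      (cont_nsq.comp_continuousOn hτc).isOpen_inter_preimage hP.op isOpen_Iio
    refine fatou (g := fun k => (Yk (φ k)).indicator fun y => ENNReal.ofReal
      (jac τ y * ‖eval (τ y) (F (φ k))‖ ^ 2 * W.reg e (t (φ k)) (τ y))) (fun k => ?_) (fun k => ?_) ?_
    · refine AEMeasurable.indicator (ENNReal.measurable_ofReal.comp_aemeasurable ?_)
        (hYo _).measurableSet
      refine ((meas_jac τ).aemeasurable.mul ?_).mul ?_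
      · exact (((MvPolynomial.continuous_eval _).norm.pow 2).comp_continuousOn hτc).aemeasurable
          hP.op.measurableSet
      · exact ((cont_reg W e (ht0 _)).comp_continuousOn hτc).aemeasurable hP.op.measurableSet
    · rw [lintegral_indicator (hYo _).measurableSet, Measure.restrict_restrict (hYo _).measurableSet,
        Set.inter_eq_left.mpr Set.inter_subset_left]
      exact hF2 (φ k) _ τ ⟨hYo _, hP.diff.mono Set.inter_subset_left,
        hP.inj.mono Set.inter_subset_left, fun y hy => hP.mem y hy.1⟩ (fun y hy => hY y hy.1)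
        fun y hy => le_of_lt hy.2
    · refine (ae_restrict_mem hP.op.measurableSet).mono fun y hy => ?_
      refine (dens_le_liminf W e (τ y) (fun k => ht0 (φ k)) htφ
        (((hG ⟨τ y, hP.mem y hy⟩).norm.pow 2).const_mul (jac τ y))).trans (le_of_eq ?_)
      refine liminf_congr ?_
      have h1 : Tendsto (fun k => ((φ k : ℕ) : ℝ)) atTop atTop :=
        tendsto_natCast_atTop_atTop.comp hφ.tendsto_atTop
      filter_upwards [h1.eventually_gt_atTop (nsq (τ y))] with k hk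
      rw [Set.indicator_of_mem (show y ∈ Yk (φ k) from ⟨hy, hk⟩)]

end Pool.Agent.Lib.MP_9ff3e7_ag.F
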