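import Pool.Agent.Lib.MP_9ff3e7_ag.F.GDefs
import Pool.Agent.Lib.MP_9ff3e7_ag.F.Liou

/-! The radial integral in the fibre. -/

set_option autoImplicit false

namespace Pool.Agent.Lib.MP_9ff3e7_ag.F

open Complex MeasureTheory Metric Filter Topology

namespace GRad

theorem nn (s : Fin 2 → ℂ) : 0 ≤ nsq s := Finset.sum_nonneg fun _ _ => sq_nonneg _

theorem cont : Continuous (nsq : (Fin 2 → ℂ) → ℝ) := by
  unfold nsq
  fun_prop

theorem ms (r : ℝ) : MeasurableSet {s : Fin 2 → ℂ | nsq s < r} :=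
  (isOpen_lt cont continuous_const).measurableSet

theorem csm (a : ℂ) (s : Fin 2 → ℂ) : nsq (a • s) = ‖a‖ ^ 2 * nsq s := by
  simp [nsq, mul_pow, mul_add]

theorem rsm (a : ℝ) (s : Fin 2 → ℂ) : nsq (a • s) = a ^ 2 * nsq s := by
  simp [nsq, mul_pow, mul_add]

theorem vol (r : ℝ) : volume {s : Fin 2 → ℂ | nsq s < r} < ⊤ := by
  refine (measure_mono (t := closedBall 0 (r + 1)) fun s hs => ?_).trans_lt
    measure_closedBall_lt_top
  have h : nsq s < r := hs
  have h0 := nn s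
  rw [mem_closedBall_zero_iff, pi_norm_le_iff_of_nonneg (by linarith)]
  intro i
  have : ‖s i‖ ^ 2 ≤ nsq s :=
    Finset.single_le_sum (f := fun i => ‖s i‖ ^ 2) (fun _ _ => sq_nonneg _) (Finset.mem_univ i)
  nlinarith [norm_nonneg (s i)]

theorem mw (σ : ℝ) : Measurable fun s : Fin 2 → ℂ => ENNReal.ofReal (1 / (nsq s + σ) ^ 2) :=
  (measurable_const.div ((cont.measurable.add_const σ).pow_const 2)).ennreal_ofReal

/-- scaling -/
theorem scale (r σ : ℝ) : radL (r / 4) (σ / 4) = radL r σ := by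
  have m := Measure.map_addHaar_smul (volume : Measure (Fin 2 → ℂ)) (r := 2) two_ne_zero
  have f : Module.finrank ℝ (Fin 2 → ℂ) = 4 := by simp [Module.finrank_pi_fintype]
  have g := (mw σ).indicator (ms r)
  have e := lintegral_map g (μ := volume) (measurable_const_smul (2 : ℝ))
  rw [m, f, lintegral_smul_measure, lintegral_indicator (ms r)] at e
  have k : (ENNReal.ofReal 16) * ENNReal.ofReal |((2 : ℝ) ^ 4)⁻¹| = 1 := by
    rw [← ENNReal.ofReal_mul (by norm_num)]
    norm_num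
  rw [radL, radL, ← one_mul (∫⁻ s in {s : Fin 2 → ℂ | nsq s < r}, _), ← k, mul_assoc,
    ← smul_eq_mul (ENNReal.ofReal |_|), e, ← lintegral_const_mul' _ _ ENNReal.ofReal_ne_top,
    ← lintegral_indicator (ms _)]
  refine lintegral_congr fun s => ?_
  by_cases h : nsq s < r / 4
  · rw [Set.indicator_of_mem (by exact h),
      Set.indicator_of_mem (by change nsq _ < r; rw [rsm]; linarith),
      ← ENNReal.ofReal_mul (by norm_num), rsm]
    congr 1
    rw [show (2 : ℝ) ^ 2 * nsq s + σ = 4 * (nsq s + σ / 4) by ring, mul_pow, one_div, one_div,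
      mul_inv]
    ring
  · rw [Set.indicator_of_notMem (by exact h),
      Set.indicator_of_notMem (by change ¬ nsq _ < r; rw [rsm]; linarith), mul_zero]

theorem split {r r' : ℝ} (h : r ≤ r') (σ : ℝ) : radL r' σ = radL r σ +
    ∫⁻ s in {s : Fin 2 → ℂ | nsq s < r'} \ {s | nsq s < r},
      ENNReal.ofReal (1 / (nsq s + σ) ^ 2) := by
  have : {s : Fin 2 → ℂ | nsq s < r} ⊆ {s | nsq s < r'} := fun s hs => lt_of_lt_of_le hs h
  rw [radL, radL, ← lintegral_inter_add_sdiff _ {s : Fin 2 → ℂ | nsq s < r'} (ms r),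
    Set.inter_eq_right.2 this]

theorem shell {r : ℝ} (hr : 0 < r) :
    0 < volume ({s : Fin 2 → ℂ | nsq s < r} \ {s | nsq s < r / 4}) := by
  refine lt_of_lt_of_le (IsOpen.measure_pos volume
    ((isOpen_lt cont continuous_const).inter (isOpen_lt continuous_const cont) :
      IsOpen ({s : Fin 2 → ℂ | nsq s < r} ∩ {s | r / 4 < nsq s}))
    ⟨fun _ => ((√r / 2 : ℝ) : ℂ), ?_⟩) (measure_mono fun s hs => ⟨hs.1, fun h => lt_asymm (show nsq s < r / 4 from h) hs.2⟩)
  have : nsq (fun _ : Fin 2 => ((√r / 2 : ℝ) : ℂ)) = r / 2 := by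
    simp only [nsq, Complex.norm_real, Real.norm_eq_abs, sq_abs, Fin.sum_univ_two, div_pow,
      Real.sq_sqrt hr.le]
    ring
  constructor
  · change nsq _ < r
    linarith
  · change r / 4 < nsq _
    linarith

end GRad

open GRad

/-- sub mean value inequality with a radial weight -/
theorem rad_mean (F : (Fin 2 → ℂ) → ℂ) (hF : Differentiable ℂ F) (r σ : ℝ) (hσ : 0 < σ) :
    ENNReal.ofReal (‖F 0‖ ^ 2) * radL r σ ≤
      ∫⁻ s in {s : Fin 2 → ℂ | nsq s < r}, ENNReal.ofReal (‖F s‖ ^ 2 / (nsq s + σ) ^ 2) := by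
  let g := {s : Fin 2 → ℂ | nsq s < r}.indicator
    fun s => ENNReal.ofReal (‖F s‖ ^ 2 / (nsq s + σ) ^ 2)
  have gm : Measurable g := Measurable.indicator
    ((hF.continuous.measurable.norm.pow_const 2).div
      ((cont.measurable.add_const σ).pow_const 2)).ennreal_ofReal (ms r)
  have key : ∀ y ∈ {s : Fin 2 → ℂ | nsq s < r},
      ENNReal.ofReal (‖F 0‖ ^ 2) * ENNReal.ofReal (1 / (nsq y + σ) ^ 2) ≤
      ∫⁻ t : Osg.Tc, g (0 + fourier 1 t • y) ∂AddCircle.haarAddCircle := fun y hy => by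
    have d : Differentiable ℂ fun a : ℂ => F (a • y) ^ 2 := (hF.comp (by fun_prop)).pow 2
    have e := DiffContOnCl.circleAverage (c := 0) (R := 1) (f := fun a : ℂ => F (a • y) ^ 2)
      d.diffContOnCl
    rw [← Osg.avg, zero_smul] at e
    rw [← norm_pow, ofReal_norm, ← e]
    refine (mul_le_mul_left (enorm_integral_le_lintegral_enorm _) _).trans_eq ?_
    rw [← lintegral_mul_const' _ _ ENNReal.ofReal_ne_top]
    refine lintegral_congr fun t => ?_
    have n1 : nsq (fourier 1 t • y) = nsq y := by rw [csm, Osg.nrm, one_pow, one_mul]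
    simp only [g]
    rw [zero_add, Set.indicator_of_mem (by change nsq _ < r; rw [n1]; exact hy), n1,
      div_eq_mul_one_div (‖_‖ ^ 2), ENNReal.ofReal_mul (by positivity), ← norm_pow, ofReal_norm]
  calc _ = ∫⁻ y in {s : Fin 2 → ℂ | nsq s < r},
        ENNReal.ofReal (‖F 0‖ ^ 2) * ENNReal.ofReal (1 / (nsq y + σ) ^ 2) :=
        (lintegral_const_mul' _ _ ENNReal.ofReal_ne_top).symm
    _ ≤ ∫⁻ y, ∫⁻ t : Osg.Tc, g (0 + fourier 1 t • y) ∂AddCircle.haarAddCircle :=
        (setLIntegral_mono' (ms r) key).trans (setLIntegral_le_lintegral _ _)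
    _ = ∫⁻ t : Osg.Tc, (∫⁻ y, g (0 + fourier 1 t • y)) ∂AddCircle.haarAddCircle :=
        lintegral_lintegral_swap (gm.comp (Continuous.measurable (by fun_prop))).aemeasurable
    _ = ∫⁻ _ : Osg.Tc, (∫⁻ y, g y) ∂AddCircle.haarAddCircle :=
        lintegral_congr fun t => (rot_pres 0 _).lintegral_comp gm
    _ = _ := by rw [lintegral_const, measure_univ, mul_one, lintegral_indicator (ms r)]

theorem radL_lt_top (r σ : ℝ) (hσ : 0 < σ) : radL r σ < ⊤ := by
  refine (setLIntegral_mono' (ms r) (g := fun _ => ENNReal.ofReal (1 / σ ^ 2))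
    fun s _ => ENNReal.ofReal_le_ofReal ?_).trans_lt ?_
  · have := nn s
    gcongr
    linarith
  · rw [setLIntegral_const]
    exact ENNReal.mul_lt_top ENNReal.ofReal_lt_top (vol r)

/-- the radial integral is unbounded -/
theorem radL_big (r : ℝ) (hr : 0 < r) (A : ENNReal) (hA : A < ⊤) :
    ∃ σ, 0 < σ ∧ σ ≤ 1 ∧ A ≤ radL r σ := by
  set c := ENNReal.ofReal (1 / (r + 1) ^ 2) *
    volume ({s : Fin 2 → ℂ | nsq s < r} \ {s | nsq s < r / 4})
  have c0 : c ≠ 0 := mul_ne_zero (ENNReal.ofReal_pos.2 (by positivity)).ne' (shell hr).ne'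
  have key : ∀ k : ℕ, ∃ σ, 0 < σ ∧ σ ≤ 1 ∧ k * c ≤ radL r σ := fun k => by
    induction k with
    | zero => exact ⟨1, one_pos, le_rfl, by simp⟩
    | succ k ih =>
      obtain ⟨σ, h0, h1, h⟩ := ih
      refine ⟨σ / 4, by positivity, by linarith, ?_⟩
      rw [split (by linarith : r / 4 ≤ r), scale, Nat.cast_succ, add_mul, one_mul]
      refine add_le_add h ((setLIntegral_const _ _).symm.trans_le
        (setLIntegral_mono' ((ms _).diff (ms _)) fun s hs => ENNReal.ofReal_le_ofReal ?_))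
      have := nn s
      have h2 : nsq s < r := hs.1
      gcongr
      linarith
  obtain ⟨k, hk⟩ := ENNReal.exists_nat_mul_gt c0 hA.ne
  obtain ⟨σ, h0, h1, h⟩ := key k
  exact ⟨σ, h0, h1, hk.le.trans h⟩

theorem radL_ratio (r : ℝ) (hr : 0 < r) :
    ∃ σ, 0 < σ ∧ σ ≤ 1 ∧ 1 ≤ radL r σ ∧ radL 2 σ ≤ 2 * radL r σ := by
  set B := ENNReal.ofReal (1 / r ^ 2) * volume {s : Fin 2 → ℂ | nsq s < 2}
  obtain ⟨σ, h0, h1, h⟩ := radL_big r hr (max 1 B)
    (max_lt ENNReal.one_lt_top (ENNReal.mul_lt_top ENNReal.ofReal_lt_top (vol 2)))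
  refine ⟨σ, h0, h1, (le_max_left _ _).trans h, ?_⟩
  rw [two_mul]
  rcases le_total r 2 with h2 | h2
  · rw [split h2]
    refine add_le_add le_rfl (le_trans ?_ ((le_max_right _ _).trans h))
    refine (setLIntegral_mono' ((ms _).diff (ms _)) (g := fun _ => ENNReal.ofReal (1 / r ^ 2))
      fun s hs => ENNReal.ofReal_le_ofReal ?_).trans ?_
    · have h3 : r ≤ nsq s := not_lt.1 hs.2
      gcongr
      linarith
    · rw [setLIntegral_const]
      exact mul_le_mul_right (measure_mono Set.sdiff_subset) _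
  · rw [split h2]
    exact le_self_add.trans le_self_add

end Pool.Agent.Lib.MP_9ff3e7_ag.F
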