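import Pool.Agent.Lib.MP_9ff3e7_ag.F.GDefs
import Pool.Agent.Lib.MP_9ff3e7_ag.F.LeviB

/-! The weight on the tube: smoothness, positivity, growth. -/

set_option autoImplicit false

namespace Pool.Agent.Lib.MP_9ff3e7_ag.F

open MeasureTheory MvPolynomial Metric Filter Topology
open scoped ContDiff ComplexConjugate

namespace GWt

section basic

variable {ι κ : Type} [Fintype ι] [Fintype κ]

theorem nsq_nonneg (x : ι → ℂ) : 0 ≤ nsq x := Finset.sum_nonneg fun _ _ => sq_nonneg _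

theorem nsq_smooth : ContDiff ℝ ∞ (fun x : ι → ℂ => nsq x) := by
  unfold nsq
  exact ContDiff.sum fun i _ => (contDiff_apply ℝ ℂ i).norm_sq ℂ

theorem levi_coord (i : ι) (x ξ : ι → ℂ) :
    levi (fun y : ι → ℂ => ‖y i‖ ^ 2) x ξ = ‖ξ i‖ ^ 2 := by
  have e : ∀ w : ι → ℂ, (fun y : ι → ℂ => fderiv ℝ (fun y : ι → ℂ => ‖y i‖ ^ 2) y w) =
      fun y => 2 * inner ℝ (y i) (w i) := by
    intro w
    funext y
    have := ((hasFDerivAt_apply (𝕜 := ℝ) i y).norm_sq).fderiv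
    rw [this]
    simp
    ring
  have sm : ContDiffAt ℝ 2 (fun y : ι → ℂ => ‖y i‖ ^ 2) x :=
    ((contDiff_apply ℝ ℂ i).norm_sq ℂ).contDiffAt
  have k : ∀ w : ι → ℂ, fderiv ℝ (fderiv ℝ (fun y : ι → ℂ => ‖y i‖ ^ 2)) x w w =
      2 * ‖w i‖ ^ 2 := by
    intro w
    rw [Lv.d2_eq (Lv.diffAt_fderiv sm), e]
    have h1 : HasFDerivAt (fun y : ι → ℂ => inner ℝ (y i) (w i))
        (((innerSL ℝ (E := ℂ)).flip (w i)).comp (ContinuousLinearMap.proj i)) x :=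
      (((innerSL ℝ (E := ℂ)).flip (w i)).comp
        (ContinuousLinearMap.proj (R := ℝ) (φ := fun _ : ι => ℂ) i)).hasFDerivAt
    rw [(h1.const_mul 2).fderiv]
    have : innerSL ℝ (w i) (w i) = ‖w i‖ ^ 2 := real_inner_self_eq_norm_sq (w i)
    simp [-Complex.inner, this]
  rw [levi, k, k]
  simp
  ring

theorem levi_nsq (x ξ : ι → ℂ) : levi (fun y : ι → ℂ => nsq y) x ξ = nsq ξ := by
  unfold nsq
  rw [levi_sum Finset.univ (φ := fun i (y : ι → ℂ) => ‖y i‖ ^ 2)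
    fun i _ => ((contDiff_apply ℝ ℂ i).norm_sq ℂ).contDiffAt]
  exact Finset.sum_congr rfl fun i _ => levi_coord i x ξ

theorem dbar_nsq_le (x ξ : ι → ℂ) :
    ‖dbar (fun y : ι → ℂ => ((nsq y : ℝ) : ℂ)) x ξ‖ ^ 2 ≤ nsq x * nsq ξ := by
  unfold nsq
  rw [dbar_sum_normSq Finset.univ (f := fun i (y : ι → ℂ) => y i)
    fun i _ => differentiableAt_apply i x]
  have h1 : ‖∑ a, x a * conj (fderiv ℂ (fun y : ι → ℂ => y a) x ξ)‖ ≤ ∑ a, ‖x a‖ * ‖ξ a‖ := by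
    refine (norm_sum_le _ _).trans (le_of_eq (Finset.sum_congr rfl fun a _ => ?_))
    rw [(hasFDerivAt_apply (𝕜 := ℂ) a x).fderiv]
    simp
  exact (pow_le_pow_left₀ (norm_nonneg _) h1 2).trans
    (Finset.sum_mul_sq_le_sq_mul_sq Finset.univ _ _)

theorem log_smooth {e : ℝ} {x : ι → ℂ} (h : 0 < nsq x + e) :
    ContDiffAt ℝ ∞ (fun y : ι → ℂ => Real.log (nsq y + e)) x :=
  (nsq_smooth.contDiffAt.add contDiffAt_const).log h.ne'

theorem two_le : (2 : WithTop ℕ∞) ≤ ∞ := by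
  show ((2 : ℕ∞) : WithTop ℕ∞) ≤ ((⊤ : ℕ∞) : WithTop ℕ∞)
  exact WithTop.coe_le_coe.2 le_top

theorem levi_log_ge {e : ℝ} {x : ι → ℂ} (h : 0 < nsq x + e) (ξ : ι → ℂ) :
    e * nsq ξ / (nsq x + e) ^ 2 ≤ levi (fun y : ι → ℂ => Real.log (nsq y + e)) x ξ := by
  have sm : ContDiffAt ℝ 2 (fun y : ι → ℂ => nsq y) x := nsq_smooth.contDiffAt.of_le two_le
  have d1 : deriv (fun t : ℝ => Real.log (t + e)) = fun t => (t + e)⁻¹ := by
    funext t
    rw [deriv_comp_add_const, Real.deriv_log]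
  have d2 : deriv (fun t : ℝ => (t + e)⁻¹) (nsq x) = -((nsq x + e) ^ 2)⁻¹ := by
    rw [deriv_comp_add_const (fun t : ℝ => t⁻¹), deriv_inv]
  have c : ContDiffAt ℝ 2 (fun t : ℝ => Real.log (t + e)) (nsq x) :=
    ContDiffAt.log (f := fun t : ℝ => t + e) (contDiffAt_id.add contDiffAt_const) h.ne'
  rw [levi_comp_real (χ := fun t => Real.log (t + e)) c sm, d1, d2, levi_nsq]
  have b := dbar_nsq_le x ξ
  have p : 0 < ((nsq x + e) ^ 2)⁻¹ := by positivity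
  have q : e * nsq ξ / (nsq x + e) ^ 2 =
      (nsq x + e)⁻¹ * nsq ξ - ((nsq x + e) ^ 2)⁻¹ * (nsq x * nsq ξ) := by
    field_simp
    ring
  rw [q]
  nlinarith [mul_le_mul_of_nonneg_left b p.le]

theorem an_smooth {g : (κ → ℂ) → (ι → ℂ)} {x : κ → ℂ} (hg : AnalyticAt ℂ g x) :
    ContDiffAt ℝ ∞ g x :=
  (hg.contDiffAt (n := ∞)).restrict_scalars ℝ

theorem logc_smooth {g : (κ → ℂ) → (ι → ℂ)} {x : κ → ℂ} (hg : AnalyticAt ℂ g x) {e : ℝ}
    (h : 0 < nsq (g x) + e) : ContDiffAt ℝ ∞ (fun y => Real.log (nsq (g y) + e)) x :=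
  (log_smooth h).comp x (an_smooth hg)

theorem nsqc_smooth {g : (κ → ℂ) → (ι → ℂ)} {x : κ → ℂ} (hg : AnalyticAt ℂ g x) :
    ContDiffAt ℝ ∞ (fun y => nsq (g y)) x :=
  nsq_smooth.contDiffAt.comp x (an_smooth hg)

theorem levi_logc {g : (κ → ℂ) → (ι → ℂ)} {x : κ → ℂ} (hg : AnalyticAt ℂ g x) {e : ℝ}
    (h : 0 < nsq (g x) + e) (ξ : κ → ℂ) :
    e * nsq (fderiv ℂ g x ξ) / (nsq (g x) + e) ^ 2 ≤
      levi (fun y => Real.log (nsq (g y) + e)) x ξ := by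
  rw [levi_comp_holo (φ := fun y => Real.log (nsq y + e)) ((log_smooth h).of_le two_le) hg]
  exact levi_log_ge h _

theorem levi_nsqc {g : (κ → ℂ) → (ι → ℂ)} {x : κ → ℂ} (hg : AnalyticAt ℂ g x) (ξ : κ → ℂ) :
    levi (fun y => nsq (g y)) x ξ = nsq (fderiv ℂ g x ξ) := by
  rw [levi_comp_holo (φ := fun y => nsq y) (nsq_smooth.contDiffAt.of_le two_le) hg, levi_nsq]

theorem eval_an (p : MvPolynomial ι ℂ) (x : ι → ℂ) : AnalyticAt ℂ (fun u => eval u p) x := by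
  induction p using MvPolynomial.induction_on with
  | C a => simpa using analyticAt_const
  | add p q hp hq =>
    simp only [map_add]
    exact hp.add hq
  | mul_X p i hp =>
    simp only [map_mul, eval_X]
    exact hp.mul ((ContinuousLinearMap.proj (R := ℂ) (φ := fun _ : ι => ℂ) i).analyticAt x)

theorem coord_le (x : ι → ℂ) (i : ι) : ‖x i‖ ^ 2 ≤ nsq x :=
  Finset.single_le_sum (f := fun i => ‖x i‖ ^ 2) (fun _ _ => sq_nonneg _) (Finset.mem_univ i)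

theorem norm_sq_le (x : ι → ℂ) : ‖x‖ ^ 2 ≤ nsq x := by
  have : ‖x‖ ≤ √(nsq x) := by
    refine (pi_norm_le_iff_of_nonneg (Real.sqrt_nonneg _)).2 fun i => ?_
    exact Real.le_sqrt_of_sq_le (coord_le x i)
  calc ‖x‖ ^ 2 ≤ √(nsq x) ^ 2 := pow_le_pow_left₀ (norm_nonneg _) this 2
    _ = nsq x := Real.sq_sqrt (nsq_nonneg x)

theorem nsq_add_le (x y : ι → ℂ) : nsq (x + y) ≤ 2 * nsq x + 2 * nsq y := by
  unfold nsq
  rw [Finset.mul_sum, Finset.mul_sum, ← Finset.sum_add_distrib]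
  refine Finset.sum_le_sum fun i _ => ?_
  have h := norm_add_le (x i) (y i)
  have h2 : ‖x i + y i‖ ^ 2 ≤ (‖x i‖ + ‖y i‖) ^ 2 := pow_le_pow_left₀ (norm_nonneg _) h 2
  simp only [Pi.add_apply]
  nlinarith [sq_nonneg (‖x i‖ - ‖y i‖)]

theorem nsq_neg (x : ι → ℂ) : nsq (-x) = nsq x := by
  simp [nsq]

theorem eval_growth (p : MvPolynomial ι ℂ) :
    ∃ (C : ℝ) (N : ℕ), 0 ≤ C ∧ ∀ u, ‖eval u p‖ ^ 2 ≤ C * (1 + nsq u) ^ N := by
  induction p using MvPolynomial.induction_on with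
  | C a => exact ⟨‖a‖ ^ 2, 0, sq_nonneg _, fun u => by simp⟩
  | add p q hp hq =>
    obtain ⟨C, N, hC, h⟩ := hp
    obtain ⟨D, M, hD, k⟩ := hq
    refine ⟨2 * C + 2 * D, N + M, by positivity, fun u => ?_⟩
    have o : 1 ≤ 1 + nsq u := by linarith [nsq_nonneg u]
    have a1 : (1 + nsq u) ^ N ≤ (1 + nsq u) ^ (N + M) := pow_le_pow_right₀ o (by omega)
    have a2 : (1 + nsq u) ^ M ≤ (1 + nsq u) ^ (N + M) := pow_le_pow_right₀ o (by omega)
    have h2 : ‖eval u p + eval u q‖ ^ 2 ≤ (‖eval u p‖ + ‖eval u q‖) ^ 2 :=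
      pow_le_pow_left₀ (norm_nonneg _) (norm_add_le _ _) 2
    rw [map_add]
    nlinarith [h u, k u, sq_nonneg (‖eval u p‖ - ‖eval u q‖), mul_le_mul_of_nonneg_left a1 hC,
      mul_le_mul_of_nonneg_left a2 hD]
  | mul_X p i hp =>
    obtain ⟨C, N, hC, h⟩ := hp
    refine ⟨C, N + 1, hC, fun u => ?_⟩
    rw [map_mul, eval_X, norm_mul, mul_pow, pow_succ (1 + nsq u), ← mul_assoc]
    have := nsq_nonneg u
    exact mul_le_mul (h u) (by linarith [coord_le u i]) (sq_nonneg _) (by positivity)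

theorem tuple_growth {r : ℕ} (t : Fin r → MvPolynomial ι ℂ) :
    ∃ (C : ℝ) (N : ℕ), 0 ≤ C ∧ ∀ u, nsq (fun i => eval u (t i)) ≤ C * (1 + nsq u) ^ N := by
  choose C N hC h using fun i => eval_growth (t i)
  refine ⟨∑ i, C i, ∑ i, N i, Finset.sum_nonneg fun i _ => hC i, fun u => ?_⟩
  rw [Finset.sum_mul]
  refine Finset.sum_le_sum fun i _ => (h i u).trans (mul_le_mul_of_nonneg_left ?_ (hC i))
  exact pow_le_pow_right₀ (by linarith [nsq_nonneg u])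
    (Finset.single_le_sum (f := N) (fun _ _ => Nat.zero_le _) (Finset.mem_univ i))

end basic

variable {n : ℕ} {U : Set (Amb n)}

theorem nsq_split (u : Amb n) : nsq u = nsq (zp u) + nsq (sp u) := by
  simp [nsq, zp, sp, Fintype.sum_sum_type]

/-- `zp` as a linear map -/
noncomputable def zpL (n : ℕ) : Amb n →L[ℂ] (Fin n → ℂ) :=
  ContinuousLinearMap.pi fun i => ContinuousLinearMap.proj (Sum.inl i)

/-- `sp` as a linear map -/
noncomputable def spL (n : ℕ) : Amb n →L[ℂ] (Fin 2 → ℂ) :=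
  ContinuousLinearMap.pi fun i => ContinuousLinearMap.proj (Sum.inr i)

theorem zp_an (u : Amb n) : AnalyticAt ℂ (fun u : Amb n => zp u) u := (zpL n).analyticAt u

theorem sp_an (u : Amb n) : AnalyticAt ℂ (fun u : Amb n => sp u) u := (spL n).analyticAt u

theorem tup_an {r : ℕ} (t : Fin r → APoly n) (u : Amb n) :
    AnalyticAt ℂ (fun u : Amb n => fun i => eval u (t i)) u :=
  analyticAt_pi_iff.2 fun i => eval_an (t i) u

theorem g_an (Tb : Tube n U) {r : ℕ} (t : Fin r → APoly n) {u : Amb n} (hu : u ∈ Tb.T) :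
    AnalyticAt ℂ (fun u : Amb n => fun i => eval (Tb.π u) (t i)) u :=
  (tup_an t (Tb.π u)).comp (Tb.an u hu)

theorem h_an (Tb : Tube n U) {u : Amb n} (hu : u ∈ Tb.T) :
    AnalyticAt ℂ (fun u : Amb n => sp u - sp (Tb.π u)) u :=
  (sp_an u).sub ((sp_an (Tb.π u)).comp (Tb.an u hu))

theorem wa_eq (Tb : Tube n U) (W : Wt n) (e τ σ : ℝ) : Tb.wa W e τ σ = fun u =>
    ∑ a, W.c a * Real.log (nsq (fun i => eval (Tb.π u) (W.t a i)) + τ) +
      e * Real.log (nsq (zp u) + 1) +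
      2 * Real.log (nsq (sp u - sp (Tb.π u)) + σ) + nsq (sp u - sp (Tb.π u)) := by
  funext u
  simp only [Tube.wa, sos, add_comm (1 : ℝ)]

theorem pos_add {ι : Type} [Fintype ι] (x : ι → ℂ) {e : ℝ} (he : 0 < e) : 0 < nsq x + e := by
  linarith [nsq_nonneg x]

theorem levi_wa (Tb : Tube n U) (W : Wt n) {e τ σ : ℝ} (he : 0 ≤ e) (hτ : 0 < τ) (hσ : 0 < σ)
    {u : Amb n} (hu : u ∈ Tb.T) (ξ : Amb n) :
    e * (nsq (zp ξ) / (nsq (zp u) + 1) ^ 2) + nsq (sp ξ - sp (fderiv ℂ Tb.π u ξ)) ≤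
      levi (Tb.wa W e τ σ) u ξ := by
  have s1 : ∀ a, ContDiffAt ℝ 2
      (fun u => Real.log (nsq (fun i => eval (Tb.π u) (W.t a i)) + τ)) u :=
    fun a => (logc_smooth (g_an Tb (W.t a) hu) (pos_add _ hτ)).of_le two_le
  have s2 : ContDiffAt ℝ 2 (fun u : Amb n => Real.log (nsq (zp u) + 1)) u :=
    (logc_smooth (zp_an u) (pos_add _ one_pos)).of_le two_le
  have s3 : ContDiffAt ℝ 2 (fun u => Real.log (nsq (sp u - sp (Tb.π u)) + σ)) u :=
    (logc_smooth (h_an Tb hu) (pos_add _ hσ)).of_le two_le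
  have s4 : ContDiffAt ℝ 2 (fun u => nsq (sp u - sp (Tb.π u))) u :=
    (nsqc_smooth (h_an Tb hu)).of_le two_le
  have s0 : ContDiffAt ℝ 2
      (fun u => ∑ a, W.c a * Real.log (nsq (fun i => eval (Tb.π u) (W.t a i)) + τ)) u :=
    ContDiffAt.sum fun a _ => contDiffAt_const.mul (s1 a)
  rw [wa_eq, levi_add ((s0.add (contDiffAt_const.mul s2)).add (contDiffAt_const.mul s3)) s4,
    levi_add (s0.add (contDiffAt_const.mul s2)) (contDiffAt_const.mul s3),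
    levi_add s0 (contDiffAt_const.mul s2),
    levi_sum Finset.univ fun a _ => contDiffAt_const.mul (s1 a), levi_const_mul e s2,
    levi_const_mul 2 s3, levi_nsqc (h_an Tb hu)]
  have a1 : 0 ≤ ∑ a, levi
      (fun u => W.c a * Real.log (nsq (fun i => eval (Tb.π u) (W.t a i)) + τ)) u ξ := by
    refine Finset.sum_nonneg fun a _ => ?_
    rw [levi_const_mul _ (s1 a)]
    refine mul_nonneg (W.c0 a) (le_trans ?_ (levi_logc (g_an Tb (W.t a) hu) (pos_add _ hτ) ξ))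
    exact div_nonneg (mul_nonneg hτ.le (nsq_nonneg _)) (sq_nonneg _)
  have a2 := levi_logc (zp_an u) (pos_add _ one_pos) ξ
  have e2 : fderiv ℂ (fun u : Amb n => zp u) u ξ = zp ξ := by
    have : fderiv ℂ (fun u : Amb n => zp u) u = zpL n := (zpL n).fderiv
    rw [this]
    rfl
  rw [e2, one_mul] at a2
  have a3 : 0 ≤ levi (fun u => Real.log (nsq (sp u - sp (Tb.π u)) + σ)) u ξ :=
    le_trans (div_nonneg (mul_nonneg hσ.le (nsq_nonneg _)) (sq_nonneg _))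
      (levi_logc (h_an Tb hu) (pos_add _ hσ) ξ)
  have e4 : fderiv ℂ (fun u : Amb n => sp u - sp (Tb.π u)) u ξ =
      sp ξ - sp (fderiv ℂ Tb.π u ξ) := by
    have : HasFDerivAt (fun u : Amb n => sp u - sp (Tb.π u))
        (spL n - (spL n).comp (fderiv ℂ Tb.π u)) u :=
      (spL n).hasFDerivAt.sub
        ((spL n).hasFDerivAt.comp u (Tb.an u hu).differentiableAt.hasFDerivAt)
    rw [this.fderiv]
    rfl
  rw [e4]
  nlinarith [mul_le_mul_of_nonneg_left a2 he]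

theorem shift_zero (q : Amb n) : shift q 0 = q := by
  funext i
  cases i <;> simp [shift, zp, sp]

theorem shift_sub {q q' : Amb n} (h : zp q' = zp q) : shift q (sp q' - sp q) = q' := by
  funext i
  cases i with
  | inl i => simpa [shift, zp] using (congrFun h i).symm
  | inr i => simp [shift, sp]

/-- the retraction is locally constant along the fibres -/
theorem fderiv_vert (Tb : Tube n U) {u : Amb n} (hu : u ∈ Tb.T) {ξ : Amb n} (hξ : zp ξ = 0) :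
    fderiv ℂ Tb.π u ξ = 0 := by
  have l : HasDerivAt (fun t : ℂ => u + t • ξ) ξ 0 := by
    simpa using ((hasDerivAt_id (0 : ℂ)).smul_const ξ).const_add u
  have d : HasFDerivAt Tb.π (fderiv ℂ Tb.π u) (u + (0 : ℂ) • ξ) := by
    simpa using (Tb.an u hu).differentiableAt.hasFDerivAt
  have c : HasDerivAt (fun t : ℂ => Tb.π (u + t • ξ)) (fderiv ℂ Tb.π u ξ) 0 :=
    d.comp_hasDerivAt 0 l
  have e1 : ∀ᶠ t : ℂ in 𝓝 0, u + t • ξ ∈ Tb.T :=
    l.continuousAt.eventually (Tb.hT.mem_nhds (by simpa using hu))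
  have ct : ContinuousAt (fun t : ℂ =>
      nsq (sp (Tb.π (u + t • ξ)) - sp (Tb.π u)) * (1 + nsq (Tb.π u)) ^ Tb.N) 0 := by
    refine ContinuousAt.mul ?_ continuousAt_const
    refine nsq_smooth.continuous.continuousAt.comp (ContinuousAt.sub ?_ continuousAt_const)
    exact (spL n).continuous.continuousAt.comp c.continuousAt
  have e2 : ∀ᶠ t : ℂ in 𝓝 0,
      nsq (sp (Tb.π (u + t • ξ)) - sp (Tb.π u)) * (1 + nsq (Tb.π u)) ^ Tb.N < Tb.c := by
    refine ct.eventually (gt_mem_nhds ?_)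
    simpa [nsq] using Tb.c0
  have e3 : (fun t : ℂ => Tb.π (u + t • ξ)) =ᶠ[𝓝 0] fun _ => Tb.π u := by
    filter_upwards [e1, e2] with t h1 h2
    have z : zp (Tb.π (u + t • ξ)) = zp (Tb.π u) := by
      rw [Tb.zπ _ h1, Tb.zπ _ hu]
      funext i
      have := congrFun hξ i
      simp only [zp, Pi.zero_apply] at this
      simp [zp, this]
    have i1 := (Tb.inner _ (Tb.mem u hu) _ h2.le).2
    rw [shift_sub z] at i1
    have i2 := (Tb.inner _ (Tb.mem _ h1) 0 (by simpa [nsq] using Tb.c0.le)).2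
    rw [shift_zero] at i2
    exact i2.symm.trans i1
  exact c.unique ((hasDerivAt_const (0 : ℂ) (Tb.π u)).congr_of_eventuallyEq e3)

theorem vert_bound (Tb : Tube n U) {u : Amb n} (hu : u ∈ Tb.T) (ξ : Amb n) :
    nsq (sp (fderiv ℂ Tb.π u ξ)) ≤ 2 * (‖fderiv ℂ Tb.π u‖ ^ 2 * nsq (zp ξ)) := by
  let η : Amb n := Sum.elim (zp ξ) 0
  have h0 : fderiv ℂ Tb.π u (ξ - η) = 0 := fderiv_vert Tb hu (by
    funext i
    simp [zp, η])
  have h1 : fderiv ℂ Tb.π u ξ = fderiv ℂ Tb.π u η := by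
    rw [map_sub] at h0
    exact sub_eq_zero.1 h0
  have h2 : ‖η‖ ^ 2 ≤ nsq (zp ξ) := by
    refine (norm_sq_le η).trans (le_of_eq ?_)
    simp [nsq, η, Fintype.sum_sum_type]
  have h3 : ‖fderiv ℂ Tb.π u η‖ ^ 2 ≤ ‖fderiv ℂ Tb.π u‖ ^ 2 * nsq (zp ξ) := by
    refine (pow_le_pow_left₀ (norm_nonneg _) ((fderiv ℂ Tb.π u).le_opNorm η) 2).trans ?_
    rw [mul_pow]
    exact mul_le_mul_of_nonneg_left h2 (sq_nonneg _)
  have h4 : ∀ i, ‖sp (fderiv ℂ Tb.π u η) i‖ ^ 2 ≤ ‖fderiv ℂ Tb.π u η‖ ^ 2 := fun i =>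
    pow_le_pow_left₀ (norm_nonneg _) (norm_le_pi_norm (fderiv ℂ Tb.π u η) (Sum.inr i)) 2
  rw [h1, nsq, Fin.sum_univ_two]
  linarith [h4 0, h4 1]

end GWt

open GWt

variable {n : ℕ} {U : Set (Amb n)}

theorem wa_smooth (Tb : Tube n U) (W : Wt n) (e : ℝ) {τ σ : ℝ} (hτ : 0 < τ) (hσ : 0 < σ) :
    ContDiffOn ℝ ∞ (Tb.wa W e τ σ) Tb.T := by
  intro u hu
  refine ContDiffAt.contDiffWithinAt ?_
  rw [wa_eq]
  refine (((ContDiffAt.sum fun a _ => contDiffAt_const.mul ?_).add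
    (contDiffAt_const.mul ?_)).add (contDiffAt_const.mul ?_)).add (nsqc_smooth (h_an Tb hu))
  · exact logc_smooth (g_an Tb (W.t a) hu) (pos_add _ hτ)
  · exact logc_smooth (zp_an u) (pos_add _ one_pos)
  · exact logc_smooth (h_an Tb hu) (pos_add _ hσ)

theorem wa_psh (Tb : Tube n U) (W : Wt n) {e τ σ : ℝ} (he : 0 ≤ e) (hτ : 0 < τ) (hσ : 0 < σ) :
    ∀ u ∈ Tb.T, ∀ ξ, 0 ≤ levi (Tb.wa W e τ σ) u ξ := fun _ hu ξ =>
  le_trans (add_nonneg (mul_nonneg he (div_nonneg (nsq_nonneg _) (sq_nonneg _))) (nsq_nonneg _))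
    (levi_wa Tb W he hτ hσ hu ξ)

theorem wa_pos (Tb : Tube n U) (W : Wt n) {e : ℝ} (he : 0 < e) {K : Set (Amb n)}
    (hK : IsCompact K) (hKT : K ⊆ Tb.T) :
    ∃ δ : ℝ, 0 < δ ∧ ∀ τ σ : ℝ, 0 < τ → 0 < σ → ∀ u ∈ K, ∀ ξ,
      δ * nsq ξ ≤ levi (Tb.wa W e τ σ) u ξ := by
  obtain ⟨M, hM⟩ := hK.exists_bound_of_continuousOn (f := fderiv ℂ Tb.π)
    (Tb.an.fderiv.continuousOn.mono hKT)
  obtain ⟨R, hR⟩ := hK.exists_bound_of_continuousOn (f := fun u : Amb n => nsq (zp u) + 1)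
    ((nsq_smooth.continuous.comp (zpL n).continuous).add continuous_const).continuousOn
  refine ⟨min (e / ((R ^ 2 + 1) * (1 + 4 * M ^ 2))) (1 / 2), lt_min (by positivity) (by norm_num),
    fun τ σ hτ hσ u hu ξ => le_trans ?_ (levi_wa Tb W he.le hτ hσ (hKT hu) ξ)⟩
  set δ := min (e / ((R ^ 2 + 1) * (1 + 4 * M ^ 2))) (1 / 2) with hδ
  have δ0 : 0 < δ := lt_min (by positivity) (by norm_num)
  have a0 := nsq_nonneg (zp ξ)
  have b0 := nsq_nonneg (sp ξ - sp (fderiv ℂ Tb.π u ξ))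
  have v := vert_bound Tb (hKT hu) ξ
  have m2 : ‖fderiv ℂ Tb.π u‖ ^ 2 ≤ M ^ 2 := pow_le_pow_left₀ (norm_nonneg _) (hM u hu) 2
  have s1 : nsq (sp ξ) ≤ 2 * nsq (sp ξ - sp (fderiv ℂ Tb.π u ξ)) +
      2 * nsq (sp (fderiv ℂ Tb.π u ξ)) := by
    simpa using nsq_add_le (sp ξ - sp (fderiv ℂ Tb.π u ξ)) (sp (fderiv ℂ Tb.π u ξ))
  have s2 : nsq ξ ≤ (1 + 4 * M ^ 2) * nsq (zp ξ) +
      2 * nsq (sp ξ - sp (fderiv ℂ Tb.π u ξ)) := by
    rw [nsq_split ξ]
    nlinarith [mul_le_mul_of_nonneg_right m2 a0]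
  have p := pos_add (zp u) one_pos
  have r2 : (nsq (zp u) + 1) ^ 2 ≤ R ^ 2 + 1 := by
    have := hR u hu
    rw [Real.norm_eq_abs, abs_of_pos p] at this
    nlinarith
  have k1 : δ * (1 + 4 * M ^ 2) ≤ e / (nsq (zp u) + 1) ^ 2 := by
    calc δ * (1 + 4 * M ^ 2) ≤ e / ((R ^ 2 + 1) * (1 + 4 * M ^ 2)) * (1 + 4 * M ^ 2) :=
          mul_le_mul_of_nonneg_right (min_le_left _ _) (by positivity)
      _ = e / (R ^ 2 + 1) := by field_simp
      _ ≤ e / (nsq (zp u) + 1) ^ 2 := div_le_div_of_nonneg_left he.le (by positivity) r2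
  have k2 : δ * 2 ≤ 1 := by linarith [min_le_right (e / ((R ^ 2 + 1) * (1 + 4 * M ^ 2))) (1 / 2)]
  have k3 : e * (nsq (zp ξ) / (nsq (zp u) + 1) ^ 2) = e / (nsq (zp u) + 1) ^ 2 * nsq (zp ξ) := by
    ring
  rw [k3]
  nlinarith [mul_le_mul_of_nonneg_left s2 δ0.le, mul_le_mul_of_nonneg_right k1 a0,
    mul_le_mul_of_nonneg_right k2 b0]

theorem wa_growth (Tb : Tube n U) (W : Wt n) {e : ℝ} (he : 0 ≤ e) :
    ∃ (C : ℝ) (N : ℕ), 1 ≤ C ∧ ∀ τ σ : ℝ, 0 < τ → τ ≤ 1 → 0 < σ → σ ≤ 1 → ∀ u ∈ Tb.T,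
      Real.exp (Tb.wa W e τ σ u) ≤ C * (1 + nsq u) ^ N := by
  choose C N hC h using fun a => tuple_growth (W.t a)
  let A : ℝ := ∑ a, W.c a * Real.log (C a * 3 ^ N a + 1) + 2 * Real.log 2 + 1
  refine ⟨max 1 (Real.exp A), ⌈∑ a, W.c a * N a + e⌉₊, le_max_left _ _,
    fun τ σ hτ hτ1 hσ hσ1 u hu => ?_⟩
  have u0 := nsq_nonneg u
  have o : 1 ≤ 1 + nsq u := by linarith
  have l0 : 0 ≤ Real.log (1 + nsq u) := Real.log_nonneg o
  have sm := Tb.small u hu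
  have p3 : 1 + nsq (Tb.π u) ≤ 3 * (1 + nsq u) := by
    have s1 : nsq (sp (Tb.π u)) ≤ 2 * nsq (sp u) + 2 * nsq (sp u - sp (Tb.π u)) := by
      have := nsq_add_le (sp u) (-(sp u - sp (Tb.π u)))
      rw [nsq_neg] at this
      simpa using this
    rw [nsq_split (Tb.π u), Tb.zπ u hu, nsq_split u]
    linarith [nsq_nonneg (zp u), nsq_nonneg (sp u)]
  have t1 : ∀ a, Real.log (sos (W.t a) (Tb.π u) + τ) ≤
      Real.log (C a * 3 ^ N a + 1) + N a * Real.log (1 + nsq u) := by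
    intro a
    have c0 := hC a
    rw [← Real.log_pow, ← Real.log_mul (by positivity) (by positivity)]
    refine Real.log_le_log (pos_add _ hτ) ?_
    have q1 : (1 + nsq (Tb.π u)) ^ N a ≤ 3 ^ N a * (1 + nsq u) ^ N a := by
      rw [← mul_pow]
      exact pow_le_pow_left₀ (by linarith [nsq_nonneg (Tb.π u)]) p3 _
    have q2 : 1 ≤ (1 + nsq u) ^ N a := one_le_pow₀ o
    have q3 : sos (W.t a) (Tb.π u) ≤ C a * (1 + nsq (Tb.π u)) ^ N a := h a _
    nlinarith [mul_le_mul_of_nonneg_left q1 c0]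
  have t2 : Real.log (1 + nsq (zp u)) ≤ Real.log (1 + nsq u) := by
    refine Real.log_le_log (by linarith [nsq_nonneg (zp u)]) ?_
    rw [nsq_split u]
    linarith [nsq_nonneg (sp u)]
  have t3 : Real.log (nsq (sp u - sp (Tb.π u)) + σ) ≤ Real.log 2 :=
    Real.log_le_log (pos_add _ hσ) (by linarith)
  have t4 : ∑ a, W.c a * Real.log (sos (W.t a) (Tb.π u) + τ) ≤
      ∑ a, W.c a * Real.log (C a * 3 ^ N a + 1) +
        (∑ a, W.c a * N a) * Real.log (1 + nsq u) := by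
    rw [Finset.sum_mul, ← Finset.sum_add_distrib]
    refine Finset.sum_le_sum fun a _ => ?_
    nlinarith [mul_le_mul_of_nonneg_left (t1 a) (W.c0 a)]
  have t5 : Tb.wa W e τ σ u ≤
      A + (⌈∑ a, W.c a * N a + e⌉₊ : ℝ) * Real.log (1 + nsq u) := by
    have := mul_le_mul_of_nonneg_right (Nat.le_ceil (∑ a, W.c a * N a + e)) l0
    simp only [Tube.wa, A]
    nlinarith [mul_le_mul_of_nonneg_left t2 he]
  refine (Real.exp_le_exp.2 t5).trans ?_
  rw [Real.exp_add, ← Real.log_pow, Real.exp_log (by positivity)]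
  exact mul_le_mul_of_nonneg_right (le_max_right _ _) (by positivity)

/-- the global weight `C S³ (1 + |u|²)^(N+1)` -/
theorem wb_levi {r : ℕ} (p : Fin r → APoly n) (C : ℝ) (hC : 0 < C) (N : ℕ) :
    ContDiff ℝ ∞ (fun u => C * sos p u ^ 3 * (1 + nsq u) ^ (N + 1)) ∧
      ∀ u ξ, 0 < sos p u → nsq ξ / (1 + nsq u) ^ 2 ≤
        levi (fun u => Real.log (C * sos p u ^ 3 * (1 + nsq u) ^ (N + 1))) u ξ := by
  have s : ContDiff ℝ ∞ (fun u => sos p u) :=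
    contDiff_iff_contDiffAt.2 fun u => nsqc_smooth (tup_an p u)
  refine ⟨(contDiff_const.mul (s.pow 3)).mul ((contDiff_const.add nsq_smooth).pow _),
    fun u ξ hu => ?_⟩
  have h0 : 0 < nsq (fun i => eval u (p i)) + 0 := by simpa [sos] using hu
  have e : (fun u => Real.log (C * sos p u ^ 3 * (1 + nsq u) ^ (N + 1))) =ᶠ[𝓝 u] fun u =>
      3 * Real.log (nsq (fun i => eval u (p i)) + 0) +
        ((N + 1 : ℕ) : ℝ) * Real.log (nsq u + 1) + Real.log C := by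
    filter_upwards [s.continuous.continuousAt.eventually (lt_mem_nhds hu)] with y hy
    have := nsq_nonneg y
    rw [Real.log_mul (by positivity) (by positivity), Real.log_mul hC.ne' (by positivity),
      Real.log_pow, Real.log_pow, add_zero, add_comm (nsq y)]
    simp only [sos]
    push_cast
    ring
  have s1 : ContDiffAt ℝ 2 (fun u => Real.log (nsq (fun i => eval u (p i)) + 0)) u :=
    (logc_smooth (tup_an p u) h0).of_le two_le
  have s2 : ContDiffAt ℝ 2 (fun u : Amb n => Real.log (nsq u + 1)) u :=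
    (log_smooth (pos_add _ one_pos)).of_le two_le
  rw [levi_congr e, levi_add_const ((contDiffAt_const.mul s1).add (contDiffAt_const.mul s2)),
    levi_add (contDiffAt_const.mul s1) (contDiffAt_const.mul s2), levi_const_mul _ s1,
    levi_const_mul _ s2]
  have a1 := levi_logc (tup_an p u) h0 ξ
  have a2 := levi_log_ge (pos_add u one_pos) ξ
  rw [zero_mul, zero_div] at a1
  rw [one_mul, add_comm (nsq u)] at a2
  have a3 : 0 ≤ nsq ξ / (1 + nsq u) ^ 2 := div_nonneg (nsq_nonneg _) (sq_nonneg _)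
  have a4 : (0 : ℝ) ≤ N := Nat.cast_nonneg N
  push_cast
  nlinarith [mul_nonneg a4 (a3.trans a2)]

end Pool.Agent.Lib.MP_9ff3e7_ag.F
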