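import Pool.Agent.Lib.MP_9ff3e7_ag.F.GEqn
import Pool.Agent.Lib.MP_9ff3e7_ag.F.GWt

/-! The global weight: smoothness, positivity, growth. -/

set_option autoImplicit false

namespace Pool.Agent.Lib.MP_9ff3e7_ag.F

open MeasureTheory MvPolynomial Metric Filter Topology GWt
open scoped ContDiff

variable {n : ℕ} {U : Set (Amb n)}

namespace GWt

theorem wb_eq (Q : Eqn n U) (W : Wt n) (e τ σ : ℝ) : Q.wb W e τ σ = fun u =>
    ∑ a, W.c a * Real.log (nsq (fun i => eval u (W.t a i)) + τ) +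
      e * Real.log (nsq (zp u) + 1) + Real.log (nsq (fun i => eval u (Q.S i)) + 1) +
      2 * Real.log (nsq (fun i => eval u (Q.S i)) + σ) := by
  funext u
  simp only [Eqn.wb, sos, add_comm (1 : ℝ)]

/-- the lower bound for the Levi form of the global weight -/
theorem levi_wb (Q : Eqn n U) (W : Wt n) {e τ σ : ℝ} (he : 0 ≤ e) (hτ : 0 < τ) (hσ : 0 < σ)
    (u ξ : Amb n) :
    e * (nsq (zp ξ) / (nsq (zp u) + 1) ^ 2) +
        nsq (fderiv ℂ (fun u : Amb n => fun i => eval u (Q.S i)) u ξ) / (sos Q.S u + 1) ^ 2 ≤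
      levi (Q.wb W e τ σ) u ξ := by
  have s1 : ∀ a, ContDiffAt ℝ 2
      (fun u => Real.log (nsq (fun i => eval u (W.t a i)) + τ)) u :=
    fun a => (logc_smooth (tup_an (W.t a) u) (pos_add _ hτ)).of_le two_le
  have s2 : ContDiffAt ℝ 2 (fun u : Amb n => Real.log (nsq (zp u) + 1)) u :=
    (logc_smooth (zp_an u) (pos_add _ one_pos)).of_le two_le
  have s3 : ContDiffAt ℝ 2 (fun u => Real.log (nsq (fun i => eval u (Q.S i)) + 1)) u :=
    (logc_smooth (tup_an Q.S u) (pos_add _ one_pos)).of_le two_le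
  have s4 : ContDiffAt ℝ 2 (fun u => Real.log (nsq (fun i => eval u (Q.S i)) + σ)) u :=
    (logc_smooth (tup_an Q.S u) (pos_add _ hσ)).of_le two_le
  have s0 : ContDiffAt ℝ 2
      (fun u => ∑ a, W.c a * Real.log (nsq (fun i => eval u (W.t a i)) + τ)) u :=
    ContDiffAt.sum fun a _ => contDiffAt_const.mul (s1 a)
  rw [wb_eq, levi_add ((s0.add (contDiffAt_const.mul s2)).add s3) (contDiffAt_const.mul s4),
    levi_add (s0.add (contDiffAt_const.mul s2)) s3,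
    levi_add s0 (contDiffAt_const.mul s2),
    levi_sum Finset.univ fun a _ => contDiffAt_const.mul (s1 a), levi_const_mul e s2,
    levi_const_mul 2 s4]
  have a1 : 0 ≤ ∑ a, levi
      (fun u => W.c a * Real.log (nsq (fun i => eval u (W.t a i)) + τ)) u ξ := by
    refine Finset.sum_nonneg fun a _ => ?_
    rw [levi_const_mul _ (s1 a)]
    refine mul_nonneg (W.c0 a) (le_trans ?_ (levi_logc (tup_an (W.t a) u) (pos_add _ hτ) ξ))
    exact div_nonneg (mul_nonneg hτ.le (nsq_nonneg _)) (sq_nonneg _)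
  have a2 := levi_logc (zp_an u) (pos_add _ one_pos) ξ
  have e2 : fderiv ℂ (fun u : Amb n => zp u) u ξ = zp ξ := by
    have : fderiv ℂ (fun u : Amb n => zp u) u = zpL n := (zpL n).fderiv
    rw [this]
    rfl
  rw [e2, one_mul] at a2
  have a3 := levi_logc (tup_an Q.S u) (pos_add _ one_pos) ξ
  rw [one_mul] at a3
  have a4 : 0 ≤ levi (fun u => Real.log (nsq (fun i => eval u (Q.S i)) + σ)) u ξ :=
    le_trans (div_nonneg (mul_nonneg hσ.le (nsq_nonneg _)) (sq_nonneg _))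
      (levi_logc (tup_an Q.S u) (pos_add _ hσ) ξ)
  simp only [sos]
  nlinarith [mul_le_mul_of_nonneg_left a2 he]

theorem nsq_le_card {ι : Type} [Fintype ι] (x : ι → ℂ) :
    nsq x ≤ Fintype.card ι * ‖x‖ ^ 2 := by
  have : nsq x ≤ ∑ _i : ι, ‖x‖ ^ 2 := Finset.sum_le_sum fun i _ =>
    pow_le_pow_left₀ (norm_nonneg _) (norm_le_pi_norm x i) 2
  simpa using this

theorem log_sos_le {r : ℕ} (t : Fin r → APoly n) :
    ∃ (A : ℝ) (N : ℕ), ∀ τ : ℝ, 0 < τ → τ ≤ 1 → ∀ u,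
      Real.log (sos t u + τ) ≤ A + N * Real.log (1 + nsq u) := by
  obtain ⟨C, N, hC, h⟩ := tuple_growth t
  refine ⟨Real.log (C + 1), N, fun τ hτ hτ1 u => ?_⟩
  have u0 := nsq_nonneg u
  rw [← Real.log_pow, ← Real.log_mul (by positivity) (by positivity)]
  refine Real.log_le_log (pos_add _ hτ) ?_
  have q2 : 1 ≤ (1 + nsq u) ^ N := one_le_pow₀ (by linarith)
  have q3 : sos t u ≤ C * (1 + nsq u) ^ N := h u
  nlinarith

end GWt

theorem wb_smooth (Q : Eqn n U) (W : Wt n) (e : ℝ) {τ σ : ℝ} (hτ : 0 < τ) (hσ : 0 < σ) :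
    ContDiff ℝ ∞ (Q.wb W e τ σ) := by
  refine contDiff_iff_contDiffAt.2 fun u => ?_
  rw [wb_eq]
  refine (((ContDiffAt.sum fun a _ => contDiffAt_const.mul ?_).add
    (contDiffAt_const.mul ?_)).add ?_).add (contDiffAt_const.mul ?_)
  · exact logc_smooth (tup_an (W.t a) u) (pos_add _ hτ)
  · exact logc_smooth (zp_an u) (pos_add _ one_pos)
  · exact logc_smooth (tup_an Q.S u) (pos_add _ one_pos)
  · exact logc_smooth (tup_an Q.S u) (pos_add _ hσ)

theorem wb_psh (Q : Eqn n U) (W : Wt n) {e τ σ : ℝ} (he : 0 ≤ e) (hτ : 0 < τ) (hσ : 0 < σ) :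
    ∀ u ξ, 0 ≤ levi (Q.wb W e τ σ) u ξ := fun u ξ =>
  le_trans (add_nonneg (mul_nonneg he (div_nonneg (nsq_nonneg _) (sq_nonneg _)))
    (div_nonneg (nsq_nonneg _) (sq_nonneg _))) (levi_wb Q W he hτ hσ u ξ)

theorem wb_growth (Q : Eqn n U) (W : Wt n) {e : ℝ} (he : 0 ≤ e) :
    ∃ (C : ℝ) (N : ℕ), 1 ≤ C ∧ ∀ τ σ : ℝ, 0 < τ → τ ≤ 1 → 0 < σ → σ ≤ 1 → ∀ u,
      Real.exp (Q.wb W e τ σ u) ≤ C * (1 + ‖u‖ ^ 2) ^ N := by
  choose A N h using fun a => log_sos_le (W.t a)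
  obtain ⟨B, M, k⟩ := log_sos_le Q.S
  let L : ℕ := ⌈∑ a, W.c a * N a + e + 3 * M⌉₊
  let K : ℝ := 1 + Fintype.card (Fin n ⊕ Fin 2)
  have K1 : 1 ≤ K := by
    have : (0 : ℝ) ≤ Fintype.card (Fin n ⊕ Fin 2) := Nat.cast_nonneg _
    simp only [K]
    linarith
  refine ⟨max 1 (Real.exp (∑ a, W.c a * A a + 3 * B)) * K ^ L, L,
    one_le_mul_of_one_le_of_one_le (le_max_left _ _) (one_le_pow₀ K1),
    fun τ σ hτ hτ1 hσ hσ1 u => ?_⟩
  have u0 := nsq_nonneg u
  have l0 : 0 ≤ Real.log (1 + nsq u) := Real.log_nonneg (by linarith)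
  have t2 : Real.log (1 + nsq (zp u)) ≤ Real.log (1 + nsq u) := by
    refine Real.log_le_log (by linarith [nsq_nonneg (zp u)]) ?_
    rw [nsq_split u]
    linarith [nsq_nonneg (sp u)]
  have t3 := k 1 one_pos le_rfl u
  rw [add_comm (sos Q.S u)] at t3
  have t3' := k σ hσ hσ1 u
  have t4 : ∑ a, W.c a * Real.log (sos (W.t a) u + τ) ≤
      ∑ a, W.c a * A a + (∑ a, W.c a * N a) * Real.log (1 + nsq u) := by
    rw [Finset.sum_mul, ← Finset.sum_add_distrib]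
    refine Finset.sum_le_sum fun a _ => ?_
    nlinarith [mul_le_mul_of_nonneg_left (h a τ hτ hτ1 u) (W.c0 a)]
  have t5 : Q.wb W e τ σ u ≤ (∑ a, W.c a * A a + 3 * B) + (L : ℝ) * Real.log (1 + nsq u) := by
    have := mul_le_mul_of_nonneg_right (Nat.le_ceil (∑ a, W.c a * N a + e + 3 * M)) l0
    simp only [Eqn.wb, L]
    nlinarith [mul_le_mul_of_nonneg_left t2 he]
  refine (Real.exp_le_exp.2 t5).trans ?_
  rw [Real.exp_add, ← Real.log_pow, Real.exp_log (by positivity), mul_assoc, ← mul_pow]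
  refine mul_le_mul (le_max_right _ _) (pow_le_pow_left₀ (by positivity) ?_ _) (by positivity)
    (by positivity)
  have := nsq_le_card u
  simp only [K]
  nlinarith [sq_nonneg ‖u‖, (Nat.cast_nonneg (Fintype.card (Fin n ⊕ Fin 2)) : (0 : ℝ) ≤ _)]

theorem wb_exp (Q : Eqn n U) (W : Wt n) (e : ℝ) {τ σ : ℝ} (hτ : 0 < τ) (hσ : 0 < σ) (u : Amb n) :
    Real.exp (-Q.wb W e τ σ u) =
      W.reg e τ u / ((1 + sos Q.S u) * (sos Q.S u + σ) ^ 2) := by
  have s0 : 0 ≤ sos Q.S u := nsq_nonneg _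
  have z0 := nsq_nonneg (zp u)
  have e1 : Real.exp (-∑ a, W.c a * Real.log (sos (W.t a) u + τ)) =
      ∏ a, (sos (W.t a) u + τ) ^ (-W.c a) := by
    rw [← Finset.sum_neg_distrib, Real.exp_sum]
    refine Finset.prod_congr rfl fun a _ => ?_
    have p : 0 < sos (W.t a) u + τ := pos_add _ hτ
    rw [Real.rpow_def_of_pos p]
    congr 1
    ring
  have e2 : Real.exp (-(e * Real.log (1 + nsq (zp u)))) = (1 + nsq (zp u)) ^ (-e) := by
    rw [Real.rpow_def_of_pos (by positivity)]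
    congr 1
    ring
  have e3 : Real.exp (-Real.log (1 + sos Q.S u)) = (1 + sos Q.S u)⁻¹ := by
    rw [Real.exp_neg, Real.exp_log (by positivity)]
  have e4 : Real.exp (-(2 * Real.log (sos Q.S u + σ))) = ((sos Q.S u + σ) ^ 2)⁻¹ := by
    have : 2 * Real.log (sos Q.S u + σ) = Real.log ((sos Q.S u + σ) ^ 2) := by
      rw [Real.log_pow]
      norm_num
    rw [this, Real.exp_neg, Real.exp_log (by positivity)]
  rw [Eqn.wb, neg_add, neg_add, neg_add, Real.exp_add, Real.exp_add, Real.exp_add, e1, e2, e3, e4,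
    Wt.reg, div_eq_mul_inv, mul_inv, mul_assoc _ (1 + sos Q.S u)⁻¹]

end Pool.Agent.Lib.MP_9ff3e7_ag.F
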