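import Pool.Agent.Lib.MP_9ff3e7_ag.F.GTay
import Pool.Agent.Lib.MP_9ff3e7_ag.F.GCv
import Pool.Agent.Lib.MP_9ff3e7_ag.F.GWb
import Pool.Agent.Lib.MP_9ff3e7_ag.F.GRad
import Pool.Agent.Lib.MP_9ff3e7_ag.F.GSrc

/-! The lower bound for the ambient integral by integrals over parametrisations. -/

set_option autoImplicit false

namespace Pool.Agent.Lib.MP_9ff3e7_ag.F

open MeasureTheory MvPolynomial Metric
open scoped ContDiff

variable {n : ℕ} {U : Set (Amb n)}

namespace GLow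

theorem nsq_zero {ι : Type} [Fintype ι] {x : ι → ℂ} (h : nsq x ≤ 0) : x = 0 := by
  have := (GWt.norm_sq_le x).trans h
  exact norm_eq_zero.1 (pow_eq_zero_iff two_ne_zero |>.1 (le_antisymm this (by positivity)))

theorem reg_pos (W : Wt n) (e : ℝ) {τ : ℝ} (hτ : 0 < τ) (u : Amb n) : 0 < W.reg e τ u := by
  have a : ∀ a, 0 < sos (W.t a) u + τ := fun a => GWt.pos_add _ hτ
  have b : 0 < 1 + nsq (zp u) := by linarith [GWt.nsq_nonneg (zp u)]
  exact mul_pos (Finset.prod_pos fun i _ => Real.rpow_pos_of_pos (a i) _)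
    (Real.rpow_pos_of_pos b _)

theorem shift_diff (q : Amb n) : Differentiable ℂ fun s : Fin 2 → ℂ => shift q s := by
  refine differentiable_pi.2 fun i => ?_
  rcases i with i | i
  · exact differentiable_const (q (Sum.inl i))
  · change Differentiable ℂ fun s : Fin 2 → ℂ => q (Sum.inr i) + s i
    fun_prop

/-- two close points of `U` in the same fibre coincide -/
theorem fibre_sep (Q : Eqn n U) {R C : ℝ}
    (hC : ∀ q ∈ U, nsq q ≤ R → ∀ s : Fin 2 → ℂ, nsq s ≤ 1 →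
      nsq ((fun i => eval (shift q s) (Q.S i)) - s) ≤ C * nsq s ^ 2)
    {q : Amb n} (hq : q ∈ U) (hR : nsq q ≤ R) {t : Fin 2 → ℂ} (ht : shift q t ∈ U)
    (h1 : nsq t ≤ 1) (h2 : C * nsq t < 1) : t = 0 := by
  have k := hC q hq hR t h1
  have e : (fun i => eval (shift q t) (Q.S i)) = 0 := funext fun i => Q.van _ ht i
  rw [e, zero_sub, GWt.nsq_neg] at k
  refine nsq_zero (by_contra fun h => ?_)
  have := mul_lt_mul_of_pos_right h2 (not_le.1 h)
  nlinarith

end GLow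

open GLow in
theorem G_low (Q : Eqn n U) (W : Wt n) (e : ℝ) {τ0 : ℝ} (hτ : 0 < τ0) (R : ℝ) :
    ∃ r : ℝ, 0 < r ∧ r ≤ 1 ∧ ∀ r1 : ℝ, 0 < r1 → r1 ≤ r → ∀ ς : ℝ, 0 < ς →
      ∀ (F : Amb n → ℂ), Differentiable ℂ F → ∀ (f0 : Amb n → ℂ), Continuous f0 →
      ∀ (Y : Set (Fin n → ℂ)) (τ : (Fin n → ℂ) → Amb n), Par U Y τ → (∀ y ∈ Y, nsq (τ y) ≤ R) →
      ∀ c : ℂ, (∀ y ∈ Y, ∀ s, nsq s < r1 → f0 (shift (τ y) s) = c) →
        radL r1 ς * ∫⁻ y in Y, ENNReal.ofReal (jac τ y * ‖F (τ y) - c‖ ^ 2 * W.reg e τ0 (τ y)) ≤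
          128 * ∫⁻ u, ENNReal.ofReal (‖F u - f0 u‖ ^ 2 * Real.exp (-Q.wb W e τ0 ς u)) := by
  obtain ⟨C, C1, hC⟩ := eqn_taylor Q R
  obtain ⟨r', r0, hr⟩ := reg_near W e hτ R
  have C0 : 0 < C := by linarith
  have rC : 1 / (16 * C) ≤ 1 / 16 := by gcongr; linarith
  refine ⟨min r' (1 / (16 * C)), by positivity, (min_le_right _ _).trans (by linarith),
    fun r1 p1 h1 ς hς F hF f0 hf Y τ hP hR c hc => ?_⟩
  have a1 : r1 ≤ r' := h1.trans (min_le_left _ _)
  have a2 : r1 ≤ 1 / (16 * C) := h1.trans (min_le_right _ _)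
  have a3 : C * r1 ≤ 1 / 16 := by
    calc C * r1 ≤ C * (1 / (16 * C)) := by gcongr
      _ = 1 / 16 := by field_simp
  have a4 : r1 ≤ 1 / 16 := a2.trans rC
  let D : Set (Fin 2 → ℂ) := {s | nsq s < r1}
  have mD : MeasurableSet D :=
    (isOpen_lt Src.nsq_smooth.continuous continuous_const).measurableSet
  let H : Amb n → ENNReal := fun u =>
    ENNReal.ofReal (‖F u - f0 u‖ ^ 2 * Real.exp (-Q.wb W e τ0 ς u))
  have mH : Measurable H :=
    ((((hF.continuous.sub hf).norm.pow 2).mul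
      (wb_smooth Q W e hτ hς).continuous.neg.rexp).measurable).ennreal_ofReal
  have inj : Set.InjOn (fun p : (Fin n → ℂ) × (Fin 2 → ℂ) => shift (τ p.1) p.2) (Y ×ˢ D) := by
    rintro ⟨y, s⟩ ⟨hy, hs⟩ ⟨y', s'⟩ ⟨hy', hs'⟩ h
    have h : shift (τ y) s = shift (τ y') s' := h
    have hs : nsq s < r1 := hs
    have hs' : nsq s' < r1 := hs'
    have z : zp (τ y) = zp (τ y') := (congrArg zp h :)
    have w : sp (τ y) + s = sp (τ y') + s' := (congrArg sp h :)
    have e1 : sp (τ y') - sp (τ y) = s - s' := by linear_combination -w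
    have e2 : shift (τ y) (s - s') = τ y' := by rw [← e1]; exact Src.shift_sub z
    have b : nsq (s - s') ≤ 4 * r1 := by
      have := GWt.nsq_add_le s (-s')
      rw [GWt.nsq_neg, ← sub_eq_add_neg] at this
      linarith
    have t0 : s - s' = 0 := fibre_sep Q hC (hP.mem y hy) (hR y hy) (e2 ▸ hP.mem y' hy')
      (by linarith) (by nlinarith)
    rw [t0, GWt.shift_zero] at e2
    exact Prod.ext (hP.inj hy hy' e2) (sub_eq_zero.1 t0)
  have cv := tube_cv hP.op hP.diff subset_rfl hP.op.measurableSet mD inj H mH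
  refine le_trans ?_ (mul_le_mul_right (cv.symm.le.trans (setLIntegral_le_lintegral _ H)) 128)
  rw [ ← lintegral_const_mul' _ _ (radL_lt_top r1 ς hς).ne,
    ← lintegral_const_mul' _ _ (by norm_num)]
  refine setLIntegral_mono' hP.op.measurableSet fun y hy => ?_
  have j0 : 0 ≤ jac τ y := by unfold jac; positivity
  have g0 := reg_pos W e hτ (τ y)
  have m := rad_mean (fun s => F (shift (τ y) s) - c)
    ((hF.comp (shift_diff _)).sub_const c) r1 ς hς
  rw [GWt.shift_zero] at m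
  have k : ENNReal.ofReal (W.reg e τ0 (τ y)) * ∫⁻ s in D,
      ENNReal.ofReal (‖F (shift (τ y) s) - c‖ ^ 2 / (nsq s + ς) ^ 2) ≤
      128 * ∫⁻ s in D, H (shift (τ y) s) := by
    rw [← lintegral_const_mul' _ _ ENNReal.ofReal_ne_top,
      ← lintegral_const_mul' _ _ (by norm_num)]
    refine setLIntegral_mono' mD fun s hs => ?_
    have hs : nsq s < r1 := hs
    have s0 := GWt.nsq_nonneg s
    have t := hC _ (hP.mem y hy) (hR y hy) s (by linarith)
    have S0 : 0 ≤ sos Q.S (shift (τ y) s) := GWt.nsq_nonneg _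
    have S1 : sos Q.S (shift (τ y) s) ≤ 4 * nsq s := by
      have := GWt.nsq_add_le ((fun i => eval (shift (τ y) s) (Q.S i)) - s) s
      rw [sub_add_cancel] at this
      have u : C * nsq s ≤ 1 := by nlinarith
      have v : C * nsq s ^ 2 ≤ nsq s := by nlinarith
      unfold sos
      linarith
    have g1 := (hr _ (hR y hy) s (by linarith)).2
    have g2 := reg_pos W e hτ (shift (τ y) s)
    simp only [H]
    rw [hc y hy s hs, wb_exp Q W e hτ hς, ← ENNReal.ofReal_mul g0.le,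
      show (128 : ENNReal) = ENNReal.ofReal 128 by norm_num, ← ENNReal.ofReal_mul (by norm_num)]
    refine ENNReal.ofReal_le_ofReal ?_
    set A := ‖F (shift (τ y) s) - c‖ ^ 2
    have A0 : 0 ≤ A := by positivity
    set S := sos Q.S (shift (τ y) s)
    have d : (1 + S) * (S + ς) ^ 2 ≤ 2 * (4 * (nsq s + ς)) ^ 2 := by
      gcongr <;> linarith
    calc _ ≤ 2 * W.reg e τ0 (shift (τ y) s) * (A / (nsq s + ς) ^ 2) := by gcongr
      _ = 64 * (A * (W.reg e τ0 (shift (τ y) s) / (2 * (4 * (nsq s + ς)) ^ 2))) := by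
        field_simp; ring
      _ ≤ _ := by gcongr; norm_num
  calc _ = ENNReal.ofReal (jac τ y) * (ENNReal.ofReal (W.reg e τ0 (τ y)) *
        (ENNReal.ofReal (‖F (τ y) - c‖ ^ 2) * radL r1 ς)) := by
        rw [ENNReal.ofReal_mul (by positivity), ENNReal.ofReal_mul j0]; ring
    _ ≤ ENNReal.ofReal (jac τ y) * (128 * ∫⁻ s in D, H (shift (τ y) s)) :=
        mul_le_mul_right ((mul_le_mul_right m _).trans k) _
    _ = _ := by ring

end Pool.Agent.Lib.MP_9ff3e7_ag.F
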