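import Pool.Agent.Lib.MP_9ff3e7_ag.F.GStep
import Pool.Agent.Lib.MP_9ff3e7_ag.F.GLim

/-! The global existence theorem on a tube. -/

set_option autoImplicit false

namespace Pool.Agent.Lib.MP_9ff3e7_ag.F

open MeasureTheory MvPolynomial Metric

variable {n : ℕ} {U : Set (Amb n)}

theorem G_main (Q : Eqn n U) (W : Wt n) {e : ℝ} (he : 0 < e) {z0 : Fin n → ℂ} {ρ : ℝ}
    {σ : (Fin n → ℂ) → Amb n} (hσ : Sheet U z0 ρ σ)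
    (hid : ∀ F : APoly n, (∀ z ∈ ball z0 (ρ / 4), eval (σ z) F = 0) → ∀ u ∈ U, eval u F = 0)
    (hann : ∫⁻ z in closedBall z0 (ρ / 2) \ ball z0 (ρ / 4), W.dens (σ z) < ⊤)
    (hnon : ∀ δ : ℝ, 0 < δ → δ ≤ ρ / 4 → ∫⁻ z in ball z0 δ, W.dens (σ z) = ⊤) :
    ∃ F : APoly n, eval (σ z0) F = 1 ∧
      ∀ (Y : Set (Fin n → ℂ)) (τ : (Fin n → ℂ) → Amb n), Par U Y τ →
        (∀ y ∈ Y, τ y ∉ σ '' closedBall z0 (ρ / 2)) →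
        ∫⁻ y in Y, ENNReal.ofReal (jac τ y * ‖eval (τ y) F‖ ^ 2 * (1 + nsq (zp (τ y))) ^ (-e)) *
          W.dens (τ y) < ⊤ := by
  obtain ⟨N, C, hC, h⟩ := G_step Q W he hσ hann
  obtain ⟨F, -, h1, -, h2⟩ := G_lim W hσ hid hnon _ N C hC h
  exact ⟨F, h1, fun Y τ hP hY => (h2 Y τ hP hY).trans_lt hC⟩

end Pool.Agent.Lib.MP_9ff3e7_ag.F
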