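import Pool.Agent.Lib.MP_9ff3e7_ag.F.GEqn
import Pool.Agent.Lib.MP_9ff3e7_ag.F.KDefs

/-! Weights given by explicit tuples and parametrisations, on the points of an algebra. -/

set_option autoImplicit false

namespace Pool.Agent.Lib.MP_9ff3e7_ag.F

noncomputable section

/-- a finite family of tuples of elements of `O` with exponents -/
structure OWt (O : Type) where
  m : ℕ
  r : Fin m → ℕ
  t : ∀ a, Fin (r a) → O
  c : Fin m → ℝ
  c0 : ∀ a, 0 ≤ c a

variable {n : ℕ} {O : Type} [CommRing O] [Algebra ℂ O]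

/-- the density of a family of tuples -/
def OWt.dens (W : OWt O) (y : Pnt O) : ENNReal :=
  ∏ a, ENNReal.ofReal (nsq fun i => y (W.t a i)) ^ (-W.c a)

/-- the pair of a family of tuples -/
def OWt.pair (W : OWt O) : Ideal O →₀ ℝ :=
  ∑ a, Finsupp.single (Ideal.span (Set.range (W.t a))) (W.c a)

/-- an injective holomorphic family of points -/
structure PPar (Y : Set (Fin n → ℂ)) (τ : (Fin n → ℂ) → Pnt O) : Prop where
  op : IsOpen Y
  diff : ∀ f : O, DifferentiableOn ℂ (fun y => τ y f) Y
  inj : Set.InjOn τ Y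

variable [Algebra (MvPolynomial (Fin n) ℂ) O]

/-- the Jacobian determinant of the coordinates along a family of points -/
def pdet (τ : (Fin n → ℂ) → Pnt O) (y : Fin n → ℂ) : ℂ :=
  (fderiv ℂ (fun y => zz n (τ y)) y).det

/-- the point of the ambient space given by a point of the model -/
def Model.emb (M : Model n O) (q : Pnt O) : Amb n :=
  Sum.elim (zz n q) ![q M.E.x, (q (Polynomial.aeval M.E.x M.E.g))⁻¹]

end

end Pool.Agent.Lib.MP_9ff3e7_ag.F
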