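import Pool.Agent.Lib.MP_9ff3e7_ag.F.GWb

/-! Strict positivity of the global weight near bounded parts of the chart. -/

set_option autoImplicit false

namespace Pool.Agent.Lib.MP_9ff3e7_ag.F

open MeasureTheory MvPolynomial Metric Filter Topology GWt

variable {n : ℕ} {U : Set (Amb n)}

namespace GWt

theorem fderiv_eval {ι : Type} [Fintype ι] [DecidableEq ι] (p : MvPolynomial ι ℂ) (u ξ : ι → ℂ) :
    fderiv ℂ (fun u => eval u p) u ξ = ∑ j, eval u (pderiv j p) * ξ j := by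
  induction p using MvPolynomial.induction_on with
  | C a => simp
  | add p q hp hq =>
    simp only [map_add]
    rw [fderiv_fun_add (eval_an p u).differentiableAt (eval_an q u).differentiableAt]
    simp [hp, hq, add_mul, Finset.sum_add_distrib]
  | mul_X p i hp =>
    simp only [map_mul, eval_X]
    rw [fderiv_fun_mul (eval_an p u).differentiableAt (differentiableAt_apply i u),
      (hasFDerivAt_apply (𝕜 := ℂ) i u).fderiv]
    simp only [ContinuousLinearMap.add_apply, ContinuousLinearMap.smul_apply, hp, smul_eq_mul,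
      ContinuousLinearMap.proj_apply, Derivation.leibniz, pderiv_X, map_add, map_mul, eval_X,
      add_mul, Finset.sum_add_distrib, Finset.mul_sum]
    congr 1
    · rw [Finset.sum_eq_single i]
      · simp
      · intro j _ hj
        simp [Pi.single_apply, hj.symm]
      · simp
    · exact Finset.sum_congr rfl fun j _ => by ring

theorem fderiv_fibre (Q : Eqn n U) {q : Amb n} (hq : q ∈ U) (η : Fin 2 → ℂ) :
    fderiv ℂ (fun u : Amb n => fun i => eval u (Q.S i)) q (Sum.elim 0 η) = η := by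
  funext i
  rw [fderiv_pi fun i => (eval_an (Q.S i) q).differentiableAt]
  simp only [ContinuousLinearMap.pi_apply, fderiv_eval, Fintype.sum_sum_type, Sum.elim_inl,
    Pi.zero_apply, mul_zero, Finset.sum_const_zero, Sum.elim_inr, zero_add]
  have : ∀ j, eval q (pderiv (Sum.inr j) (Q.S i)) = if i = j then 1 else 0 := fun j => by
    convert Q.der q hq i j
  simp [this]

theorem norm_elim_left (a : Fin n → ℂ) : ‖(Sum.elim a 0 : Amb n)‖ ≤ ‖a‖ :=
  (pi_norm_le_iff_of_nonneg (norm_nonneg _)).2 fun i => by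
    cases i with
    | inl i => exact norm_le_pi_norm a i
    | inr i => simp

theorem norm_elim_right (a : Fin 2 → ℂ) : ‖(Sum.elim 0 a : Amb n)‖ ≤ ‖a‖ :=
  (pi_norm_le_iff_of_nonneg (norm_nonneg _)).2 fun i => by
    cases i with
    | inl i => simp
    | inr i => exact norm_le_pi_norm a i

end GWt

theorem wb_pos (Q : Eqn n U) (W : Wt n) {e : ℝ} (he : 0 < e) (R : ℝ) :
    ∃ r δ : ℝ, 0 < r ∧ 0 < δ ∧ ∀ τ σ : ℝ, 0 < τ → 0 < σ → ∀ q ∈ U, nsq q ≤ R →
      ∀ s : Fin 2 → ℂ, nsq s ≤ r → ∀ ξ, δ * nsq ξ ≤ levi (Q.wb W e τ σ) (shift q s) ξ := by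
  set G := fderiv ℂ (fun u : Amb n => fun i => eval u (Q.S i)) with hG
  have Gc : Continuous G := continuous_iff_continuousAt.2 fun u =>
    (tup_an Q.S u).fderiv.continuousAt
  have hK : IsCompact (closedBall (0 : Amb n) (|R| + 2)) := isCompact_closedBall _ _
  obtain ⟨M, hM⟩ := hK.exists_bound_of_continuousOn Gc.continuousOn
  obtain ⟨B, hB⟩ := hK.exists_bound_of_continuousOn (f := fun u : Amb n => nsq (zp u) + 1)
    ((nsq_smooth.continuous.comp (zpL n).continuous).add continuous_const).continuousOn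
  obtain ⟨B', hB'⟩ := hK.exists_bound_of_continuousOn (f := fun u : Amb n => sos Q.S u + 1)
    ((continuous_iff_continuousAt.2 fun u =>
      (nsqc_smooth (tup_an Q.S u)).continuousAt).add continuous_const).continuousOn
  obtain ⟨ρ, hρ, hu⟩ := Metric.uniformContinuousOn_iff.1
    (hK.uniformContinuousOn_of_continuous Gc.continuousOn) (1 / 2) (by norm_num)
  refine ⟨min 1 (ρ ^ 2 / 2), min (e / ((B ^ 2 + 1) * (1 + 16 * M ^ 2))) (1 / (16 * (B' ^ 2 + 1))),
    lt_min one_pos (by positivity), lt_min (by positivity) (by positivity),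
    fun τ σ hτ hσ q hq hR s hs ξ => le_trans ?_ (levi_wb Q W he.le hτ hσ _ ξ)⟩
  set δ := min (e / ((B ^ 2 + 1) * (1 + 16 * M ^ 2))) (1 / (16 * (B' ^ 2 + 1))) with hδ
  have δ0 : 0 < δ := lt_min (by positivity) (by positivity)
  set u := shift q s with hus
  have eu : u = q + Sum.elim (0 : Fin n → ℂ) s := by
    funext i
    cases i <;> simp [hus, shift, zp, sp]
  have s1 : ‖s‖ ≤ 1 := by
    have := (norm_sq_le s).trans (hs.trans (min_le_left _ _))
    nlinarith [norm_nonneg s]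
  have s2 : ‖s‖ < ρ := by
    have := (norm_sq_le s).trans (hs.trans (min_le_right _ _))
    nlinarith [norm_nonneg s]
  have q1 : ‖q‖ ≤ |R| + 1 := by
    have := (norm_sq_le q).trans (hR.trans (le_abs_self R))
    nlinarith [norm_nonneg q, abs_nonneg R]
  have qK : q ∈ closedBall (0 : Amb n) (|R| + 2) := by
    rw [mem_closedBall_zero_iff]
    linarith
  have uK : u ∈ closedBall (0 : Amb n) (|R| + 2) := by
    rw [mem_closedBall_zero_iff, eu]
    linarith [norm_add_le q (Sum.elim (0 : Fin n → ℂ) s), norm_elim_right (n := n) s]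
  have d : ‖G u - G q‖ ≤ 1 / 2 := by
    rw [← dist_eq_norm]
    refine (hu u uK q qK ?_).le
    rw [dist_eq_norm, eu, add_sub_cancel_left]
    exact (norm_elim_right s).trans_lt s2
  have eξ : ξ = Sum.elim (zp ξ) (0 : Fin 2 → ℂ) + Sum.elim (0 : Fin n → ℂ) (sp ξ) := by
    funext i
    cases i <;> simp [zp, sp]
  have e1 : sp ξ = G u ξ - G u (Sum.elim (zp ξ) 0) - (G u - G q) (Sum.elim 0 (sp ξ)) := by
    have := fderiv_fibre Q hq (sp ξ)
    rw [← hG] at this
    rw [ContinuousLinearMap.sub_apply, this]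
    conv_rhs => rw [eξ, map_add, ← eξ]
    abel
  have M0 : 0 ≤ M := (norm_nonneg _).trans (hM u uK)
  have n1 : ‖G u (Sum.elim (zp ξ) 0)‖ ≤ M * ‖zp ξ‖ :=
    ((G u).le_opNorm _).trans (mul_le_mul (hM u uK) (norm_elim_left _) (norm_nonneg _) M0)
  have n2 : ‖(G u - G q) (Sum.elim 0 (sp ξ))‖ ≤ 1 / 2 * ‖sp ξ‖ :=
    ((G u - G q).le_opNorm _).trans
      (mul_le_mul d (norm_elim_right _) (norm_nonneg _) (by norm_num))
  have n3 : ‖sp ξ‖ ≤ 2 * ‖G u ξ‖ + 2 * (M * ‖zp ξ‖) := by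
    have := norm_sub_le (G u ξ - G u (Sum.elim (zp ξ) 0)) ((G u - G q) (Sum.elim 0 (sp ξ)))
    rw [← e1] at this
    linarith [norm_sub_le (G u ξ) (G u (Sum.elim (zp ξ) 0))]
  have a0 := nsq_nonneg (zp ξ)
  have b0 := nsq_nonneg (G u ξ)
  have n4 : nsq ξ ≤ (1 + 16 * M ^ 2) * nsq (zp ξ) + 16 * nsq (G u ξ) := by
    have c1 := nsq_le_card (sp ξ)
    have c2 := pow_le_pow_left₀ (norm_nonneg _) n3 2
    have c3 := mul_le_mul_of_nonneg_left (norm_sq_le (zp ξ)) (sq_nonneg M)
    have c4 := norm_sq_le (G u ξ)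
    rw [Fintype.card_fin] at c1
    rw [nsq_split ξ]
    push_cast at c1
    nlinarith [sq_nonneg (‖G u ξ‖ - M * ‖zp ξ‖)]
  have p := pos_add (zp u) one_pos
  have p' : 0 < sos Q.S u + 1 := pos_add _ one_pos
  have r2 : (nsq (zp u) + 1) ^ 2 ≤ B ^ 2 + 1 := by
    have := hB u uK
    rw [Real.norm_eq_abs, abs_of_pos p] at this
    nlinarith
  have r3 : (sos Q.S u + 1) ^ 2 ≤ B' ^ 2 + 1 := by
    have := hB' u uK
    rw [Real.norm_eq_abs, abs_of_pos p'] at this
    nlinarith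
  have k1 : δ * (1 + 16 * M ^ 2) ≤ e / (nsq (zp u) + 1) ^ 2 := by
    calc δ * (1 + 16 * M ^ 2) ≤ e / ((B ^ 2 + 1) * (1 + 16 * M ^ 2)) * (1 + 16 * M ^ 2) :=
          mul_le_mul_of_nonneg_right (min_le_left _ _) (by positivity)
      _ = e / (B ^ 2 + 1) := by field_simp
      _ ≤ e / (nsq (zp u) + 1) ^ 2 := div_le_div_of_nonneg_left he.le (by positivity) r2
  have k2 : δ * 16 ≤ 1 / (sos Q.S u + 1) ^ 2 := by
    calc δ * 16 ≤ 1 / (16 * (B' ^ 2 + 1)) * 16 :=
          mul_le_mul_of_nonneg_right (min_le_right _ _) (by positivity)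
      _ = 1 / (B' ^ 2 + 1) := by field_simp
      _ ≤ 1 / (sos Q.S u + 1) ^ 2 := div_le_div_of_nonneg_left one_pos.le (by positivity) r3
  have k3 : e * (nsq (zp ξ) / (nsq (zp u) + 1) ^ 2) = e / (nsq (zp u) + 1) ^ 2 * nsq (zp ξ) := by
    ring
  have k4 : nsq (G u ξ) / (sos Q.S u + 1) ^ 2 = 1 / (sos Q.S u + 1) ^ 2 * nsq (G u ξ) := by
    ring
  rw [k3, k4]
  nlinarith [mul_le_mul_of_nonneg_left n4 δ0.le, mul_le_mul_of_nonneg_right k1 a0,
    mul_le_mul_of_nonneg_right k2 b0]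

end Pool.Agent.Lib.MP_9ff3e7_ag.F
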