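import Pool.Agent.Lib.MP_9ff3e7_ag.F.HCalc

/-! The Bochner inequality for `∂̄ v` and the pairing identity. -/

set_option autoImplicit false

namespace Pool.Agent.Lib.MP_9ff3e7_ag.F

open Complex MeasureTheory
open scoped ContDiff ComplexConjugate

variable {ι : Type} [Fintype ι] [DecidableEq ι]

namespace HB

open HC

/-- the weighted operator `∂_j - φ_j` -/
noncomputable def dl (φ : (ι → ℂ) → ℝ) (j : ι) (a : (ι → ℂ) → ℂ) (x : ι → ℂ) : ℂ :=
  dz j a x - dz j (fun y => (φ y : ℂ)) x * a x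

theorem box_eq (φ : (ι → ℂ) → ℝ) (v : (ι → ℂ) → ℂ) (x : ι → ℂ) :
    box φ v x = -∑ j, dl φ j (dzb j v) x := by
  simp only [box, dl, ← Finset.sum_neg_distrib, neg_sub]

variable {φ : (ι → ℂ) → ℝ} {a b : (ι → ℂ) → ℂ}

theorem dl_smooth (hφ : ContDiff ℝ ∞ φ) (j : ι) (ha : ContDiff ℝ ∞ a) :
    ContDiff ℝ ∞ (dl φ j a) :=
  (dz_smooth j ha).sub ((dz_smooth j (smooth_ofReal hφ)).mul ha)

theorem dl_supp (φ : (ι → ℂ) → ℝ) (j : ι) (hc : HasCompactSupport a) :
    HasCompactSupport (dl φ j a) :=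
  (dz_supp j hc).sub hc.mul_left

omit [DecidableEq ι] in
theorem int3 (hφ : ContDiff ℝ ∞ φ) (ha : ContDiff ℝ ∞ a) (hb : ContDiff ℝ ∞ b)
    (hc : HasCompactSupport a) :
    Integrable fun x => a x * conj (b x) * (Real.exp (-φ x) : ℂ) :=
  ((ha.mul (smooth_conj hb)).mul (smooth_wt hφ)).continuous.integrable_of_hasCompactSupport
    hc.mul_right.mul_right

omit [DecidableEq ι] in
theorem int3' (hφ : ContDiff ℝ ∞ φ) (ha : ContDiff ℝ ∞ a) (hb : ContDiff ℝ ∞ b)
    (hc : HasCompactSupport b) :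
    Integrable fun x => a x * conj (b x) * (Real.exp (-φ x) : ℂ) :=
  ((ha.mul (smooth_conj hb)).mul (smooth_wt hφ)).continuous.integrable_of_hasCompactSupport
    (supp_conj hc).mul_left.mul_right

/-- the adjoint of `∂_j - φ_j` is `-∂̄_j` -/
theorem adj (hφ : ContDiff ℝ ∞ φ) (j : ι) (ha : ContDiff ℝ ∞ a) (hb : ContDiff ℝ ∞ b)
    (hc : HasCompactSupport a) :
    ∫ x, dl φ j a x * conj (b x) * (Real.exp (-φ x) : ℂ) =
      -∫ x, a x * conj (dzb j b x) * (Real.exp (-φ x) : ℂ) := by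
  have hu : ContDiff ℝ ∞ fun x => a x * (Real.exp (-φ x) : ℂ) := ha.mul (smooth_wt hφ)
  have h := integral_dz_mul j ((smooth_conj hb).of_le (by simp)) (hu.of_le (by simp)) hc.mul_right
  have e1 : ∀ x, a x * conj (dzb j b x) * (Real.exp (-φ x) : ℂ) =
      dz j (fun y => conj (b y)) x * (a x * (Real.exp (-φ x) : ℂ)) := fun x => by
    rw [dz_conj j (hb.differentiable (by simp) x)]
    ring
  have e2 : ∀ x, dl φ j a x * conj (b x) * (Real.exp (-φ x) : ℂ) =
      conj (b x) * dz j (fun x => a x * (Real.exp (-φ x) : ℂ)) x := fun x => by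
    rw [dz_mul j (ha.differentiable (by simp) x) ((smooth_wt hφ).differentiable (by simp) x),
      dz_wt j (hφ.differentiable (by simp) x), dl]
    ring
  simp only [e1, e2]
  rw [h, neg_neg]

theorem adj' (hφ : ContDiff ℝ ∞ φ) (j : ι) (ha : ContDiff ℝ ∞ a) (hb : ContDiff ℝ ∞ b)
    (hc : HasCompactSupport a) :
    ∫ x, b x * conj (dl φ j a x) * (Real.exp (-φ x) : ℂ) =
      -∫ x, dzb j b x * conj (a x) * (Real.exp (-φ x) : ℂ) := by
  have h := congrArg conj (adj hφ j ha hb hc)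
  rw [map_neg, ← integral_conj, ← integral_conj] at h
  simp only [map_mul, conj_conj, conj_ofReal] at h
  simp only [mul_comm (b _), mul_comm (dzb j b _)]
  exact h

theorem dzb_dl (hφ : ContDiff ℝ ∞ φ) (j k : ι) (ha : ContDiff ℝ ∞ a) (x : ι → ℂ) :
    dzb j (dl φ k a) x = dl φ k (dzb j a) x - dzb j (dz k fun y => (φ y : ℂ)) x * a x := by
  have h1 := (dz_smooth k ha).differentiable (by simp) x
  have h2 := (dz_smooth k (smooth_ofReal hφ)).differentiable (by simp) x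
  have h3 := ha.differentiable (by simp) x
  have e : dzb j (dl φ k a) x =
      dzb j (dz k a) x - dzb j (fun y => dz k (fun y => (φ y : ℂ)) y * a y) x :=
    dzb_sub j h1 (h2.mul h3)
  rw [e, dzb_mul j h2 h3, dl, dz_dzb_comm k j (ha.of_le (by norm_cast)).contDiffAt]
  ring

theorem conj_hess (hφ : ContDiff ℝ ∞ φ) (j k : ι) (x : ι → ℂ) :
    conj (dzb j (dz k fun y => (φ y : ℂ)) x) = dz j (dzb k fun y => (φ y : ℂ)) x := by
  have hΦ := smooth_ofReal hφ
  rw [← dz_conj j ((dz_smooth k hΦ).differentiable (by simp) x)]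
  have e : (fun y => conj (dz k (fun y => (φ y : ℂ)) y)) = dzb k fun y => (φ y : ℂ) := by
    funext y
    rw [← dzb_conj k (hΦ.differentiable (by simp) y)]
    simp only [conj_ofReal]
  rw [e]

/-- one term of the Bochner identity -/
theorem term (hφ : ContDiff ℝ ∞ φ) {v : (ι → ℂ) → ℂ} (hv : ContDiff ℝ ∞ v)
    (hc : HasCompactSupport v) (j k : ι) :
    ∫ x, dl φ j (dzb j v) x * conj (dl φ k (dzb k v) x) * (Real.exp (-φ x) : ℂ) =
      (∫ x, dzb k (dzb j v) x * conj (dzb k (dzb j v) x) * (Real.exp (-φ x) : ℂ)) +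
      ∫ x, dz j (dzb k fun y => (φ y : ℂ)) x * dzb j v x * conj (dzb k v x) *
        (Real.exp (-φ x) : ℂ) := by
  have hΦ := smooth_ofReal hφ
  have sj := dzb_smooth j hv
  have sk := dzb_smooth k hv
  have cj := dzb_supp j hc
  have ck := dzb_supp k hc
  have i1 := int3 hφ sj (dl_smooth hφ k (dzb_smooth j sk)) cj
  have i2 : Integrable fun x => dz j (dzb k fun y => (φ y : ℂ)) x * dzb j v x *
      conj (dzb k v x) * (Real.exp (-φ x) : ℂ) :=
    int3' hφ ((dz_smooth j (dzb_smooth k hΦ)).mul sj) sk ck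
  have e : ∀ x, dzb j v x * conj (dzb j (dl φ k (dzb k v)) x) * (Real.exp (-φ x) : ℂ) =
      dzb j v x * conj (dl φ k (dzb j (dzb k v)) x) * (Real.exp (-φ x) : ℂ) -
      dz j (dzb k fun y => (φ y : ℂ)) x * dzb j v x * conj (dzb k v x) *
        (Real.exp (-φ x) : ℂ) := fun x => by
    rw [dzb_dl hφ j k sk, map_sub, map_mul, conj_hess hφ]
    ring
  have c : dzb j (dzb k v) = dzb k (dzb j v) :=
    funext fun x => dzb_dzb_comm j k (hv.of_le (by norm_cast)).contDiffAt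
  rw [adj hφ j sj (dl_smooth hφ k sk) cj]
  simp only [e]
  rw [integral_sub i1 i2, adj' hφ k (dzb_smooth j sk) sj (dzb_supp j ck), c]
  ring

end HB

open HB HC

/-- (B) Bochner inequality for `∂̄ v`. -/
theorem bochner (φ : (ι → ℂ) → ℝ) (hφ : ContDiff ℝ ∞ φ) (v : (ι → ℂ) → ℂ) (hv : ContDiff ℝ ∞ v)
    (hc : HasCompactSupport v) :
    ∫ x, levi φ x (fun j => dzb j v x) * Real.exp (-φ x) ≤
      ∫ x, ‖box φ v x‖ ^ 2 * Real.exp (-φ x) := by
  have hΦ := smooth_ofReal hφ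
  have sd := fun j => dl_smooth hφ j (dzb_smooth j hv)
  have cd := fun j => dl_supp φ j (dzb_supp j hc)
  have i1 := fun j k => int3 hφ (sd j) (sd k) (cd j)
  have i2 : ∀ j k, Integrable fun x => dz j (dzb k fun y => (φ y : ℂ)) x * dzb j v x *
      conj (dzb k v x) * (Real.exp (-φ x) : ℂ) := fun j k =>
    int3' hφ ((dz_smooth j (dzb_smooth k hΦ)).mul (dzb_smooth j hv)) (dzb_smooth k hv)
      (dzb_supp k hc)
  have r : ∫ x, ‖box φ v x‖ ^ 2 * Real.exp (-φ x) = ∑ j, ∑ k,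
      (∫ x, dl φ j (dzb j v) x * conj (dl φ k (dzb k v) x) * (Real.exp (-φ x) : ℂ)).re := by
    have e : ∀ x, ((‖box φ v x‖ ^ 2 * Real.exp (-φ x) : ℝ) : ℂ) = ∑ j, ∑ k,
        dl φ j (dzb j v) x * conj (dl φ k (dzb k v) x) * (Real.exp (-φ x) : ℂ) := fun x => by
      rw [ofReal_mul, ofReal_pow, ← mul_conj', box_eq, map_neg, neg_mul_neg, map_sum,
        Finset.sum_mul_sum, Finset.sum_mul]
      simp only [Finset.sum_mul]
    rw [← ofReal_re (∫ x, _), ← integral_complex_ofReal]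
    simp only [e]
    rw [integral_finsetSum _ fun j _ => integrable_finsetSum _ fun k _ => i1 j k, re_sum]
    refine Finset.sum_congr rfl fun j _ => ?_
    rw [integral_finsetSum _ fun k _ => i1 j k, re_sum]
  have l : ∫ x, levi φ x (fun j => dzb j v x) * Real.exp (-φ x) = ∑ j, ∑ k,
      (∫ x, dz j (dzb k fun y => (φ y : ℂ)) x * dzb j v x * conj (dzb k v x) *
        (Real.exp (-φ x) : ℂ)).re := by
    have e : ∀ x, levi φ x (fun j => dzb j v x) * Real.exp (-φ x) = ∑ j, ∑ k,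
        (dz j (dzb k fun y => (φ y : ℂ)) x * dzb j v x * conj (dzb k v x) *
          (Real.exp (-φ x) : ℂ)).re := fun x => by
      rw [levi_coord (hφ.of_le (by norm_cast)).contDiffAt, Finset.sum_mul]
      simp only [Finset.sum_mul, re_mul_ofReal]
    have i3 : ∀ j k, Integrable fun x => (dz j (dzb k fun y => (φ y : ℂ)) x * dzb j v x *
        conj (dzb k v x) * (Real.exp (-φ x) : ℂ)).re := fun j k => (i2 j k).re
    simp only [e]
    rw [integral_finsetSum _ fun j _ => integrable_finsetSum _ fun k _ => i3 j k]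
    refine Finset.sum_congr rfl fun j _ => ?_
    rw [integral_finsetSum _ fun k _ => i3 j k]
    exact Finset.sum_congr rfl fun k _ => integral_re (i2 j k)
  rw [l, r]
  refine Finset.sum_le_sum fun j _ => Finset.sum_le_sum fun k _ => ?_
  rw [term hφ hv hc, add_re]
  refine le_add_of_nonneg_left ?_
  have e : ∀ x, dzb k (dzb j v) x * conj (dzb k (dzb j v) x) * (Real.exp (-φ x) : ℂ) =
      ((‖dzb k (dzb j v) x‖ ^ 2 * Real.exp (-φ x) : ℝ) : ℂ) := fun x => by
    rw [mul_conj', ofReal_mul, ofReal_pow]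
  simp only [e]
  rw [integral_complex_ofReal, ofReal_re]
  exact integral_nonneg fun x => by positivity

/-- (P) pairing. -/
theorem pair_box (φ : (ι → ℂ) → ℝ) (hφ : ContDiff ℝ ∞ φ) (v : (ι → ℂ) → ℂ) (hv : ContDiff ℝ ∞ v)
    (hc : HasCompactSupport v) (f : (ι → ℂ) → ℂ) (hf : ContDiff ℝ ∞ f) :
    ∫ x, f x * conj (box φ v x) * (Real.exp (-φ x) : ℂ) =
      ∫ x, dbar f x (fun j => dzb j v x) * (Real.exp (-φ x) : ℂ) := by
  have e1 : ∀ x, f x * conj (box φ v x) * (Real.exp (-φ x) : ℂ) =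
      -∑ j, f x * conj (dl φ j (dzb j v) x) * (Real.exp (-φ x) : ℂ) := fun x => by
    rw [box_eq, map_neg, map_sum, mul_neg, neg_mul, Finset.mul_sum, Finset.sum_mul]
  have e2 : ∀ x, dbar f x (fun j => dzb j v x) * (Real.exp (-φ x) : ℂ) =
      ∑ j, dzb j f x * conj (dzb j v x) * (Real.exp (-φ x) : ℂ) := fun x => by
    rw [dbar_coord, Finset.sum_mul]
  simp only [e1, e2]
  rw [integral_neg, integral_finsetSum _ fun j _ =>
      int3' hφ hf (dl_smooth hφ j (dzb_smooth j hv)) (dl_supp φ j (dzb_supp j hc)),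
    integral_finsetSum _ fun j _ => int3' hφ (dzb_smooth j hf) (dzb_smooth j hv) (dzb_supp j hc),
    ← Finset.sum_neg_distrib]
  refine Finset.sum_congr rfl fun j _ => ?_
  rw [adj' hφ j (dzb_smooth j hv) hf (dzb_supp j hc), neg_neg]

end Pool.Agent.Lib.MP_9ff3e7_ag.F
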