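import Pool.Agent.Lib.MP_9ff3e7_ag.F.HCaccA
import Pool.Agent.Lib.MP_9ff3e7_ag.F.HMoll

/-! A function orthogonal to the range of `box` on test functions is weakly holomorphic. -/

set_option autoImplicit false
set_option linter.unusedSectionVars false

namespace Pool.Agent.Lib.MP_9ff3e7_ag.F

open Complex MeasureTheory Filter Topology Metric
open scoped ContDiff ComplexConjugate

namespace Cacc

variable {ι : Type} [Fintype ι] [DecidableEq ι]

/-- cutoff functions with a small gradient -/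
theorem cutoff {K : Set (ι → ℂ)} (hK : IsCompact K) {θ : ℝ} (θ0 : 0 < θ) :
    ∃ η : (ι → ℂ) → ℝ, ContDiff ℝ ∞ η ∧ HasCompactSupport η ∧ (∀ x, η x ^ 2 ≤ 1) ∧
      (∀ x ∈ K, η x = 1) ∧ ∀ j x, ‖2 * dd (-I) j (fun y => (η y : ℂ)) x‖ ^ 2 ≤ θ := by
  let χ : ContDiffBump (0 : ι → ℂ) := ⟨1, 2, one_pos, one_lt_two⟩
  have sm : ContDiff ℝ ∞ fun y => (χ y : ℂ) := ofRealCLM.contDiff.comp χ.contDiff
  have cs : HasCompactSupport fun y => (χ y : ℂ) :=
    χ.hasCompactSupport.mono fun x hx h => hx (by simp [h])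
  obtain ⟨C, hC⟩ := (cs.fderiv ℝ).exists_bound_of_continuous (sm.continuous_fderiv (by simp))
  obtain ⟨R, hR⟩ := hK.isBounded.exists_norm_le
  have t1 : Tendsto (fun s : ℝ => (2 * (s * C)) ^ 2) (𝓝 0) (𝓝 0) :=
    Continuous.tendsto' (by fun_prop) _ _ (by simp)
  have t2 : Tendsto (fun s : ℝ => s * R) (𝓝 0) (𝓝 0) :=
    Continuous.tendsto' (by fun_prop) _ _ (by simp)
  obtain ⟨s, ⟨h1, h2⟩, s0⟩ := ((((t1.eventually (gt_mem_nhds θ0)).and
    (t2.eventually (gt_mem_nhds one_pos))).filter_mono nhdsWithin_le_nhds).and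
    (self_mem_nhdsWithin (s := Set.Ioi (0 : ℝ)))).exists
  have s0 : 0 < s := s0
  refine ⟨fun x => χ (s • x), χ.contDiff.comp (contDiff_const_smul s),
    χ.hasCompactSupport.comp_homeomorph (Homeomorph.smulOfNeZero s s0.ne'),
    fun x => pow_le_one₀ χ.nonneg χ.le_one, fun x hx => χ.one_of_mem_closedBall ?_, fun j x => ?_⟩
  · rw [mem_closedBall_zero_iff, norm_smul, Real.norm_of_nonneg s0.le]
    exact (mul_le_mul_of_nonneg_left (hR x hx) s0.le).trans h2.le
  · have d : ∀ v : ι → ℂ, ‖v‖ ≤ 1 → ‖fderiv ℝ (fun y => (χ (s • y) : ℂ)) x v‖ ≤ s * C := fun v hv => by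
      have := ((sm.differentiable (by simp) (s • x)).hasFDerivAt.comp x
        ((hasFDerivAt_id x).const_smul s)).fderiv
      rw [show (fun y => (χ (s • y) : ℂ)) = (fun y => (χ y : ℂ)) ∘ HSMul.hSMul s from rfl, this]
      simp only [ContinuousLinearMap.comp_apply, smul_apply,
        ContinuousLinearMap.id_apply, map_smul, norm_smul, Real.norm_of_nonneg s0.le]
      refine mul_le_mul_of_nonneg_left ((ContinuousLinearMap.le_opNorm _ _).trans ?_) s0.le
      exact (mul_le_of_le_one_right (norm_nonneg _) hv).trans (hC _)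
    refine le_trans (pow_le_pow_left₀ (norm_nonneg _) ?_ 2) h1.le
    rw [dd, mul_div_cancel₀ _ two_ne_zero]
    refine (norm_add_le _ _).trans ?_
    rw [norm_mul, norm_neg, norm_I, one_mul, two_mul]
    exact add_le_add (d _ (by simp [Pi.norm_single])) (d _ (by simp [Pi.norm_single]))

theorem test_le {φ η : (ι → ℂ) → ℝ} {A a : (ι → ℂ) → ℂ} (hφ : ContDiff ℝ ∞ φ)
    (hη : ContDiff ℝ ∞ η) (hc : HasCompactSupport η) (hA : ContDiff ℝ ∞ A) (ha : ContDiff ℝ ∞ a)
    (hac : HasCompactSupport a) (h1 : ∀ x ∈ tsupport a, η x = 1) (j : ι) {θ : ℝ} (θ0 : 0 < θ) :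
    ‖∫ x, cexp (φ x) * dd I j a x * A x‖ ≤
      θ⁻¹ * (∫ x, η x ^ 2 * Real.exp (φ x) *
        ‖dd I j A x + dd I j (fun y => (φ y : ℂ)) x * A x‖ ^ 2) +
      θ * ∫ x, Real.exp (φ x) * ‖a x‖ ^ 2 := by
  have hψ : ContDiff ℝ ∞ fun y => (φ y : ℂ) := ofRealCLM.contDiff.comp hφ
  have hE := hψ.cexp.mul hA
  have i1 : Integrable fun x => dd I j (fun y => cexp (φ y) * A y) x * a x :=
    ((dd_smooth _ _ hE).mul ha).continuous.integrable_of_hasCompactSupport hac.mul_left
  have i2 : Integrable fun x => cexp (φ x) * A x * dd I j a x :=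
    (hE.mul (dd_smooth _ _ ha)).continuous.integrable_of_hasCompactSupport
      (dd_supp _ _ hac).mul_left
  have z := int_dd I j (hE.mul ha) hac.mul_left
  simp only [dd_mul _ _ hE ha] at z
  rw [integral_add i1 i2] at z
  have e : ∫ x, cexp (φ x) * dd I j a x * A x =
      -∫ x, dd I j (fun y => cexp (φ y) * A y) x * a x := by
    rw [eq_neg_iff_add_eq_zero, add_comm, ← z]
    simp only [mul_right_comm]
  have cW : Continuous fun x => ‖dd I j A x + dd I j (fun y => (φ y : ℂ)) x * A x‖ ^ 2 :=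
    ((dd_smooth I j hA).continuous.add ((dd_smooth I j hψ).continuous.mul hA.continuous)).norm.pow 2
  have s1 : HasCompactSupport fun x => η x ^ 2 := hc.mono fun x hx h => hx (by simp [h])
  have s2 : HasCompactSupport fun x => ‖a x‖ ^ 2 := hac.mono fun x hx h => hx (by simp [h])
  have j1 := (((hη.continuous.pow 2).mul hφ.continuous.rexp).mul cW).integrable_of_hasCompactSupport
    (μ := volume) s1.mul_right.mul_right
  have j2 := (hφ.continuous.rexp.mul (ha.continuous.norm.pow 2)).integrable_of_hasCompactSupport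
    (μ := volume) s2.mul_left
  have k1 : Integrable fun x => θ⁻¹ * (η x ^ 2 * Real.exp (φ x) *
      ‖dd I j A x + dd I j (fun y => (φ y : ℂ)) x * A x‖ ^ 2) := j1.const_mul _
  have k2 : Integrable fun x => θ * (Real.exp (φ x) * ‖a x‖ ^ 2) := j2.const_mul _
  rw [e, norm_neg, ← integral_const_mul, ← integral_const_mul, ← integral_add k1 k2]
  refine norm_integral_le_of_norm_le (k1.add k2) (.of_forall fun x => ?_)
  have ep := Real.exp_pos (φ x)
  by_cases h0 : a x = 0
  · simp only [h0, mul_zero, norm_zero]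
    positivity
  rw [h1 x (subset_tsupport _ h0), dd_mul _ _ hψ.cexp hA, dd_exp _ _ hψ,
    show cexp (φ x) * dd I j (fun y => (φ y : ℂ)) x * A x + cexp (φ x) * dd I j A x =
      cexp (φ x) * (dd I j A x + dd I j (fun y => (φ y : ℂ)) x * A x) by ring,
    norm_mul, norm_mul, norm_exp_ofReal]
  generalize ‖dd I j A x + dd I j (fun y => (φ y : ℂ)) x * A x‖ = p
  generalize ‖a x‖ = q
  have : p * q ≤ θ⁻¹ * p ^ 2 + θ * q ^ 2 := by
    rw [inv_mul_eq_div, div_add' _ _ _ θ0.ne', le_div_iff₀ θ0]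
    nlinarith [sq_nonneg (p - θ * q), sq_nonneg p, sq_nonneg (θ * q)]
  nlinarith [mul_le_mul_of_nonneg_left this ep.le]

end Cacc

open Cacc

variable {ι : Type} [Fintype ι] [DecidableEq ι]

/-- (C) Caccioppoli: orthogonal to all `box v` implies weakly holomorphic. -/
theorem cacc (φ : (ι → ℂ) → ℝ) (hφ : ContDiff ℝ ∞ φ) (g : (ι → ℂ) → ℂ)
    (hg : AEStronglyMeasurable g volume)
    (hi : Integrable (fun x => ‖g x‖ ^ 2 * Real.exp (-φ x)) volume)
    (ho : ∀ v : (ι → ℂ) → ℂ, ContDiff ℝ ∞ v → HasCompactSupport v →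
      ∫ x, g x * conj (box φ v x) * (Real.exp (-φ x) : ℂ) = 0)
    (a : (ι → ℂ) → ℂ) (ha : ContDiff ℝ ∞ a) (hac : HasCompactSupport a) (j : ι) :
    ∫ x, g x * dzb j a x = 0 := by
  have hψ : ContDiff ℝ ∞ fun y => (φ y : ℂ) := ofRealCLM.contDiff.comp hφ
  obtain ⟨G, hG0⟩ : ∃ G : (ι → ℂ) → ℂ, G = fun x => g x * (Real.exp (-φ x) : ℂ) := ⟨_, rfl⟩
  have hGm : AEStronglyMeasurable G volume := hG0 ▸
    hg.mul (continuous_ofReal.comp hφ.continuous.neg.rexp).aestronglyMeasurable
  have hGi : Integrable fun x => ‖G x‖ ^ 2 * Real.exp (φ x) := by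
    refine hi.congr (.of_forall fun x => ?_)
    simp only [hG0, norm_mul, norm_real, Real.norm_of_nonneg (Real.exp_pos _).le]
    rw [Real.exp_neg]
    field_simp
  have hG := Moll.locInt hφ.continuous hGm hGi
  have ho' : ∀ v : (ι → ℂ) → ℂ, ContDiff ℝ ∞ v → HasCompactSupport v →
      ∫ x, G x * ∑ j, (dd I j (fun y => (φ y : ℂ)) x * dd (-I) j v x -
        dd I j (dd (-I) j v) x) = 0 := fun v hv hc => by
    rw [← ho (fun y => conj (v y)) (conjCLE.contDiff.comp hv)
      (hc.mono fun x hx h => hx (by simp [h]))]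
    congr 1
    funext x
    rw [hG0, mul_right_comm, box, map_sum]
    congr 2
    refine Finset.sum_congr rfl fun j _ => ?_
    have e1 : dd I j (fun y => conj (v y)) = fun y => conj (dd (-I) j v y) := by
      funext y; rw [dd_conj _ _ hv, conj_I]
    have e2 : dd I j (fun y => (φ y : ℂ)) x = conj (dd (-I) j (fun y => (φ y : ℂ)) x) := by
      simpa using dd_conj I j hψ x
    rw [dz_eq, dz_eq, dzb_eq, e1, dd_conj _ _ (dd_smooth _ _ hv), e2]
    simp
  obtain ⟨r, hr⟩ : ∃ r : ℕ → ContDiffBump (0 : ι → ℂ), Tendsto (fun n => (r n).rOut) atTop (𝓝 0) :=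
    ⟨fun n => ⟨1 / ((n : ℝ) + 1) / 2, 1 / ((n : ℝ) + 1), by positivity, half_lt_self (by positivity)⟩,
      tendsto_one_div_add_atTop_nhds_zero_nat⟩
  have hk : ∀ n, ContDiff ℝ ∞ fun y => ((r n).normed volume y : ℂ) := fun n =>
    ofRealCLM.contDiff.comp (r n).contDiff_normed
  have kc : ∀ n, HasCompactSupport fun y => ((r n).normed volume y : ℂ) := fun n =>
    ((r n).hasCompactSupport_normed (μ := volume)).mono fun x hx h => hx (by simp [h])
  have lim := (Moll.m3 hr hG (b := fun x => cexp (φ x) * dd I j a x)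
    (hψ.cexp.mul (dd_smooth _ _ ha)).continuous (dd_supp _ _ hac).mul_left).norm
  have e : ∫ t, G t * (cexp (φ t) * dd I j a t) = ∫ x, g x * dzb j a x := by
    congr 1
    funext x
    rw [hG0, dzb_eq]
    simp only [ofReal_exp, ofReal_neg, Complex.exp_neg]
    field_simp
  rw [e] at lim
  obtain ⟨N, hN⟩ : ∃ N, N = ∫ x, ‖G x‖ ^ 2 * Real.exp (φ x) := ⟨_, rfl⟩
  obtain ⟨M, hM⟩ : ∃ M, M = ∫ x, Real.exp (φ x) * ‖a x‖ ^ 2 := ⟨_, rfl⟩
  have key : ∀ θ : ℝ, 0 < θ → ‖∫ x, g x * dzb j a x‖ ≤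
      θ * (3 * Fintype.card ι * (1 + 2 * N) + M) := fun θ θ0 => by
    have τ0 : 0 < θ ^ 2 := by positivity
    obtain ⟨η, hη, hc, η1, ηK, ηd⟩ := cutoff hac.isCompact τ0
    have s1 : HasCompactSupport fun x => η x ^ 2 := hc.mono fun x hx h => hx (by simp [h])
    have ec : HasCompactSupport fun y => (η y : ℂ) := hc.mono fun x hx h => hx (by simp [h])
    refine le_of_tendsto lim ?_
    filter_upwards [eventually_all.2 fun i => Moll.m4 hr hφ.continuous hGi
        (w := fun x => ‖2 * dd (-I) i (fun y => (η y : ℂ)) x‖ ^ 2) (fun _ => by positivity)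
        ((dd_supp (-I) i ec).mono fun x hx h => hx (by simp [h])) (ηd i),
      eventually_all.2 fun i => Moll.m5 hr hφ.continuous hGm hGi (w := fun x => η x ^ 2)
        (fun _ => by positivity) s1 η1 (dd_smooth I i hψ).continuous τ0] with n h4 h5
    have hA : ContDiff ℝ ∞ (Moll.cv r n G) := cv_smooth hG (hk n) (kc n)
    have hB : ∀ i, ContDiff ℝ ∞ (Moll.cv r n fun t => dd I i (fun y => (φ y : ℂ)) t * G t) :=
      fun i => by
        have l : LocallyIntegrable (fun t => dd I i (fun y => (φ y : ℂ)) t * G t) volume :=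
          hG.continuous_mul (dd_smooth I i hψ).continuous
        exact cv_smooth l (hk n) (kc n)
    have dv : ∀ x, ∑ i, dd (-I) i (fun y => dd I i (Moll.cv r n G) y +
        Moll.cv r n (fun t => dd I i (fun y => (φ y : ℂ)) t * G t) y) x = 0 := by
      delta Moll.cv
      simpa only using div_zero hψ hG (hk n) (kc n) ho'
    have en := energy hφ hη hc hA hB dv
    have b := (Finset.single_le_sum (fun i _ => integral_nonneg fun x => by positivity)
      (Finset.mem_univ j)).trans (en.trans (mul_le_mul_of_nonneg_left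
        (Finset.sum_le_sum fun i _ => add_le_add (h5 i) (h4 i)) (by norm_num)))
    refine (test_le hφ hη hc hA ha hac ηK j θ0).trans ?_
    rw [← hM, mul_add θ]
    refine add_le_add ((mul_le_mul_of_nonneg_left b (by positivity)).trans_eq ?_) le_rfl
    rw [← hN, Finset.sum_const, Finset.card_univ, nsmul_eq_mul]
    field_simp
  have t : Tendsto (fun θ : ℝ => θ * (3 * Fintype.card ι * (1 + 2 * N) + M)) (𝓝[>] 0) (𝓝 0) :=
    (Continuous.tendsto' (by fun_prop) _ _ (by simp)).mono_left nhdsWithin_le_nhds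
  exact norm_le_zero_iff.1 (ge_of_tendsto t (eventually_nhdsWithin_of_forall key))

end Pool.Agent.Lib.MP_9ff3e7_ag.F
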