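import Pool.Agent.Lib.MP_9ff3e7_ag.F.Horm0
import Pool.Agent.Lib.MP_9ff3e7_ag.F.HBoch
import Pool.Agent.Lib.MP_9ff3e7_ag.F.HCacc

set_option autoImplicit false

namespace Pool.Agent.Lib.MP_9ff3e7_ag.F

open Complex MeasureTheory
open scoped ContDiff

/-- The `L²` estimate on the whole space. -/
theorem hormander {ι : Type} [Fintype ι] (φ : (ι → ℂ) → ℝ) (hφ : ContDiff ℝ ∞ φ)
    (hpsh : ∀ x ξ, 0 ≤ levi φ x ξ)
    (f : (ι → ℂ) → ℂ) (hf : ContDiff ℝ ∞ f) (hc : HasCompactSupport f)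
    (h : (ι → ℂ) → ℝ) (hm : Measurable h) (h0 : ∀ x, 0 ≤ h x)
    (hb : ∀ x ξ, ‖dbar f x ξ‖ ^ 2 ≤ h x * levi φ x ξ) :
    ∃ F : (ι → ℂ) → ℂ, Differentiable ℂ F ∧
      ∫⁻ x, ENNReal.ofReal (‖F x - f x‖ ^ 2 * Real.exp (-φ x)) ≤
        ∫⁻ x, ENNReal.ofReal (h x * Real.exp (-φ x)) := by
  classical
  exact hormander_of φ hφ hpsh f hf hc h hm h0 hb (bochner φ hφ)
    (fun v hv hvc => pair_box φ hφ v hv hvc f hf) (cacc φ hφ)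

end Pool.Agent.Lib.MP_9ff3e7_ag.F
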