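import Pool.Agent.Lib.MP_9ff3e7_ag.F.GUp
import Pool.Agent.Lib.MP_9ff3e7_ag.F.GLow
import Pool.Agent.Lib.MP_9ff3e7_ag.F.GPos
import Pool.Agent.Lib.MP_9ff3e7_ag.F.Horm
import Pool.Agent.Lib.MP_9ff3e7_ag.F.Liou

/-! One step of the global existence theorem: a polynomial with uniform bounds. -/

set_option autoImplicit false

namespace Pool.Agent.Lib.MP_9ff3e7_ag.F

open MeasureTheory MvPolynomial Metric Filter Topology
open scoped ContDiff

variable {n : ℕ} {U : Set (Amb n)}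

open GUp

/-- an entire function close to a bounded compactly supported one is a polynomial -/
theorem poly_of_near {ι : Type} [Fintype ι] {F f0 : (ι → ℂ) → ℂ} {φ : (ι → ℂ) → ℝ}
    (hF : Differentiable ℂ F) (hf : Continuous f0) (hc : HasCompactSupport f0)
    (h1 : ∀ u, ‖f0 u‖ ≤ 1) {C : ℝ} {N : ℕ} (hC : 1 ≤ C)
    (hg : ∀ u, Real.exp (φ u) ≤ C * (1 + ‖u‖ ^ 2) ^ N)
    (hi : ∫⁻ u, ENNReal.ofReal (‖F u - f0 u‖ ^ 2 * Real.exp (-φ u)) < ⊤) :
    ∃ p : MvPolynomial ι ℂ, p.totalDegree ≤ N ∧ ∀ x, F x = MvPolynomial.eval x p := by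
  refine liouville_l2 hF N ?_
  have hpt : ∀ u, ENNReal.ofReal (‖F u‖ ^ 2 / (1 + ‖u‖ ^ 2) ^ N) ≤
      (tsupport f0).indicator (fun _ => (2 : ENNReal)) u +
        ENNReal.ofReal (2 * C) * ENNReal.ofReal (‖F u - f0 u‖ ^ 2 * Real.exp (-φ u)) := by
    intro u
    have hp : (1 : ℝ) ≤ (1 + ‖u‖ ^ 2) ^ N := one_le_pow₀ (by nlinarith [sq_nonneg ‖u‖])
    have he : 1 / (1 + ‖u‖ ^ 2) ^ N ≤ C * Real.exp (-φ u) := by
      rw [Real.exp_neg, ← div_eq_mul_inv, div_le_div_iff₀ (by positivity) (Real.exp_pos _), one_mul]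
      exact hg u
    have ht : ‖F u‖ ^ 2 ≤ 2 * ‖f0 u‖ ^ 2 + 2 * ‖F u - f0 u‖ ^ 2 := by
      have : ‖F u‖ ≤ ‖f0 u‖ + ‖F u - f0 u‖ := by
        simpa using norm_add_le (f0 u) (F u - f0 u)
      nlinarith [norm_nonneg (F u), sq_nonneg (‖f0 u‖ - ‖F u - f0 u‖), norm_nonneg (f0 u),
        norm_nonneg (F u - f0 u)]
    have h2 : ‖F u‖ ^ 2 / (1 + ‖u‖ ^ 2) ^ N ≤
        2 * ‖f0 u‖ ^ 2 + 2 * C * (‖F u - f0 u‖ ^ 2 * Real.exp (-φ u)) := by
      have a1 : 2 * ‖f0 u‖ ^ 2 / (1 + ‖u‖ ^ 2) ^ N ≤ 2 * ‖f0 u‖ ^ 2 := div_le_self (by positivity) hp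
      have a2 : 2 * ‖F u - f0 u‖ ^ 2 / (1 + ‖u‖ ^ 2) ^ N ≤
          2 * C * (‖F u - f0 u‖ ^ 2 * Real.exp (-φ u)) := by
        have := mul_le_mul_of_nonneg_left he (show 0 ≤ 2 * ‖F u - f0 u‖ ^ 2 by positivity)
        rw [mul_one_div] at this
        linarith
      have a3 := div_le_div_of_nonneg_right ht (show 0 ≤ (1 + ‖u‖ ^ 2) ^ N by positivity)
      rw [add_div] at a3
      linarith
    refine (ENNReal.ofReal_le_ofReal h2).trans ?_
    rw [ENNReal.ofReal_add (by positivity) (by positivity), ENNReal.ofReal_mul (p := 2 * C)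
      (by positivity)]
    gcongr
    by_cases hu : u ∈ tsupport f0
    · rw [Set.indicator_of_mem hu]
      have : 2 * ‖f0 u‖ ^ 2 ≤ 2 := by nlinarith [h1 u, norm_nonneg (f0 u)]
      simpa using ENNReal.ofReal_le_ofReal this
    · simp [image_eq_zero_of_notMem_tsupport hu]
  refine (lintegral_mono hpt).trans_lt ?_
  rw [lintegral_add_left (measurable_const.indicator (isClosed_tsupport f0).measurableSet),
    lintegral_indicator (isClosed_tsupport f0).measurableSet, setLIntegral_const,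
    lintegral_const_mul' _ _ ENNReal.ofReal_ne_top]
  exact ENNReal.add_lt_top.2 ⟨ENNReal.mul_lt_top (by simp) (IsCompact.measure_lt_top hc),
    ENNReal.mul_lt_top ENNReal.ofReal_lt_top hi⟩

theorem G_step (Q : Eqn n U) (W : Wt n) {e : ℝ} (he : 0 < e) {z0 : Fin n → ℂ} {ρ : ℝ}
    {σ : (Fin n → ℂ) → Amb n} (hσ : Sheet U z0 ρ σ)
    (hann : ∫⁻ z in closedBall z0 (ρ / 2) \ ball z0 (ρ / 4), W.dens (σ z) < ⊤) :
    ∃ (N : ℕ) (C : ENNReal), C < ⊤ ∧ ∀ τ0 : ℝ, 0 < τ0 → τ0 ≤ 1 → ∀ R : ℝ,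
      ∃ F : APoly n, F.totalDegree ≤ N ∧
        ∫⁻ z in ball z0 (ρ / 4),
          ENNReal.ofReal (‖eval (σ z) F - 1‖ ^ 2 * W.reg e τ0 (σ z)) ≤ C ∧
        ∀ (Y : Set (Fin n → ℂ)) (τ : (Fin n → ℂ) → Amb n), Par U Y τ →
          (∀ y ∈ Y, τ y ∉ σ '' closedBall z0 (ρ / 2)) → (∀ y ∈ Y, nsq (τ y) ≤ R) →
          ∫⁻ y in Y, ENNReal.ofReal (jac τ y * ‖eval (τ y) F‖ ^ 2 * W.reg e τ0 (τ y)) ≤ C := by
  have hρ := hσ.pos
  obtain ⟨R0, hR0⟩ := sheet_bdd hσ
  obtain ⟨rl, hrl, -, hlow⟩ := eqn_low Q R0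
  obtain ⟨rp, δ, hrp, hδ, hpos⟩ := wb_pos Q W he R0
  obtain ⟨Cg, N, hCg, hgr⟩ := wb_growth Q W he.le
  set r2 : ℝ := min (rl / 4) rp with hr2
  have hr2p : 0 < r2 := lt_min (by linarith) hrp
  have hr2l : 4 * r2 ≤ rl := by have := min_le_left (rl / 4) rp; linarith
  obtain ⟨f0, C0, hC0, hf0, hc0, hb0, hone, hsupp, hdb, hdz⟩ := exists_src hσ hr2p
  set I := ∫⁻ z in closedBall z0 (ρ / 2) \ ball z0 (ρ / 4), W.dens (σ z) with hI
  set C1 : ENNReal := ENNReal.ofReal (C0 / δ) * (32 * I + 1) with hC1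
  have hC1t : C1 < ⊤ := ENNReal.mul_lt_top ENNReal.ofReal_lt_top
    (ENNReal.add_lt_top.2 ⟨ENNReal.mul_lt_top (by simp) hann, by simp⟩)
  have hmem : ∀ z ∈ closedBall z0 (ρ / 2), σ z ∈ U := fun z hz => hσ.mem z (half_sub hρ hz)
  refine ⟨N, 128 * C1, ENNReal.mul_lt_top (by simp) hC1t, fun τ0 hτ hτ1 R => ?_⟩
  obtain ⟨ra, hra, hnear⟩ := reg_near W e hτ R0
  obtain ⟨rb, hrb, -, hL⟩ := G_low Q W e hτ (max R R0)
  set r1 : ℝ := min (r2 / 2) (min ra rb) with hr1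
  have hr1p : 0 < r1 := lt_min (by linarith) (lt_min hra hrb)
  have hr12 : r1 ≤ r2 / 2 := min_le_left _ _
  have hr1a : r1 ≤ ra := (min_le_right _ _).trans (min_le_left _ _)
  have hr1b : r1 ≤ rb := (min_le_right _ _).trans (min_le_right _ _)
  obtain ⟨A, hA, hup⟩ := G_up Q W he.le hσ (r2 := r2)
    (fun z hz s hs => hlow _ (hmem z hz) (hR0 z hz) s (by linarith)) hτ hr1p hr12
    (fun z hz s hs => (hnear _ (hR0 z hz) s (hs.trans hr1a)).1)
  obtain ⟨ς, hς, hς1, hbig⟩ := radL_big r1 hr1p (A + 1) (ENNReal.add_lt_top.2 ⟨hA, by simp⟩)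
  have hKm := (srcSet_compact hσ r2).measurableSet
  obtain ⟨F, hF, hest⟩ := hormander (Q.wb W e τ0 ς) (wb_smooth Q W e hτ hς)
    (wb_psh Q W he.le hτ hς) f0 hf0 hc0 ((srcSet z0 ρ σ r2).indicator fun _ => C0 / δ)
    (measurable_const.indicator hKm)
    (fun x => Set.indicator_nonneg (fun _ _ => by positivity) x) (fun x ξ => by
      by_cases h : dbar f0 x ξ = 0
      · rw [h, norm_zero, zero_pow two_ne_zero]
        exact mul_nonneg (Set.indicator_nonneg (fun _ _ => by positivity) x)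
          (wb_psh Q W he.le hτ hς x ξ)
      · have hx : x ∈ srcSet z0 ρ σ r2 := hdz x ξ h
        rw [Set.indicator_of_mem hx]
        obtain ⟨z, hz, s, hs, rfl, -⟩ := hx
        have h1 := hpos τ0 ς hτ hς _ (hmem z hz) (hR0 z hz) s (hs.trans (min_le_right _ _)) ξ
        calc _ ≤ C0 * nsq ξ := hdb _ ξ
          _ = C0 / δ * (δ * nsq ξ) := by field_simp
          _ ≤ _ := mul_le_mul_of_nonneg_left h1 (by positivity))
  have hL0 : radL r1 ς ≠ 0 := fun h => by simp [h] at hbig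
  have hLt : radL r1 ς ≠ ⊤ := (radL_lt_top r1 ς hς).ne
  have hest' : ∫⁻ x, ENNReal.ofReal (‖F x - f0 x‖ ^ 2 * Real.exp (-Q.wb W e τ0 ς x)) ≤
      radL r1 ς * C1 := by
    refine hest.trans ?_
    have e1 : ∀ x, ENNReal.ofReal ((srcSet z0 ρ σ r2).indicator (fun _ => C0 / δ) x *
        Real.exp (-Q.wb W e τ0 ς x)) = (srcSet z0 ρ σ r2).indicator (fun x =>
          ENNReal.ofReal (C0 / δ) * ENNReal.ofReal (Real.exp (-Q.wb W e τ0 ς x))) x := by
      intro x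
      by_cases hx : x ∈ srcSet z0 ρ σ r2
      · rw [Set.indicator_of_mem hx, Set.indicator_of_mem hx, ENNReal.ofReal_mul (by positivity)]
      · simp [Set.indicator_of_notMem hx]
    simp_rw [e1]
    rw [lintegral_indicator hKm, lintegral_const_mul' _ _ ENNReal.ofReal_ne_top, hC1,
      mul_left_comm]
    gcongr
    refine (hup ς hς).trans ?_
    rw [mul_add, mul_one, mul_comm (radL r1 ς)]
    gcongr
    exact le_self_add.trans hbig
  obtain ⟨p, hpN, hp⟩ := poly_of_near hF hf0.continuous hc0 hb0 hCg (hgr τ0 ς hτ hτ1 hς hς1)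
    (hest'.trans_lt (ENNReal.mul_lt_top hLt.lt_top hC1t))
  have key : ∀ (Y : Set (Fin n → ℂ)) (τ : (Fin n → ℂ) → Amb n), Par U Y τ →
      (∀ y ∈ Y, nsq (τ y) ≤ max R R0) → ∀ c : ℂ,
      (∀ y ∈ Y, ∀ s, nsq s < r1 → f0 (shift (τ y) s) = c) →
      ∫⁻ y in Y, ENNReal.ofReal (jac τ y * ‖F (τ y) - c‖ ^ 2 * W.reg e τ0 (τ y)) ≤ 128 * C1 := by
    intro Y τ hP hb c hc
    have h := (hL r1 hr1p hr1b ς hς F hF f0 hf0.continuous Y τ hP hb c hc).trans
      (mul_le_mul_right hest' 128)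
    rw [mul_left_comm] at h
    exact (ENNReal.mul_le_mul_iff_right hL0 hLt).1 h
  have hq : ball z0 (ρ / 4) ⊆ closedBall z0 (ρ / 2) :=
    ball_subset_closedBall.trans (closedBall_subset_closedBall (by linarith))
  refine ⟨p, hpN, ?_, fun Y τ hP hY hR => ?_⟩
  · refine le_trans (le_of_eq ?_) (key _ σ (sheet_par hσ (by linarith : ρ / 4 ≤ ρ))
      (fun y hy => (hR0 y (hq hy)).trans (le_max_right _ _)) 1
      (fun y hy s hs => hone y hy s (hs.trans_le hr12)))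
    refine setLIntegral_congr_fun measurableSet_ball fun z hz => ?_
    simp only [sheet_jac hσ (half_sub hρ (hq hz)), one_mul, hp]
  · have := key Y τ hP (fun y hy => (hR y hy).trans (le_max_left _ _)) 0 (fun y hy s hs => by
      by_contra h
      obtain ⟨z, hz, s', hs', e1⟩ := hsupp _ h
      have e2 : zp (σ z) = zp (τ y) := (congrArg zp e1).symm
      have e3 : sp (τ y) - sp (σ z) = s' + -s := by
        have := congrArg sp e1
        simp only [Src.sp_shift] at this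
        rw [sub_eq_iff_eq_add, ← sub_eq_add_neg, sub_add_eq_add_sub, eq_sub_iff_add_eq, this,
          add_comm]
      have e4 := Src.shift_sub e2
      have h1 : nsq (sp (τ y) - sp (σ z)) ≤ rl := by
        rw [e3]
        have := GWt.nsq_add_le s' (-s)
        rw [GWt.nsq_neg] at this
        linarith
      have h2 := hlow _ (hmem z hz) (hR0 z hz) _ h1
      rw [e4] at h2
      have h3 : sos Q.S (τ y) = 0 := by
        simp [sos, nsq, Q.van _ (hP.mem y hy)]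
      have h4 : sp (τ y) - sp (σ z) = 0 := by
        have := Src.norm_sq_le (sp (τ y) - sp (σ z))
        rw [h3] at h2
        exact norm_eq_zero.1 (pow_eq_zero_iff two_ne_zero |>.1
          (le_antisymm (by linarith) (sq_nonneg _)))
      rw [h4, GWt.shift_zero] at e4
      exact hY y hy ⟨z, hz, e4⟩)
    simpa only [sub_zero, hp] using this

end Pool.Agent.Lib.MP_9ff3e7_ag.F
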