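import Pool.Agent.Lib.MP_9ff3e7_ag.F.GEqn
import Pool.Agent.Lib.MP_9ff3e7_ag.F.GWt

/-! Uniform Taylor estimates in the fibre directions. -/

set_option autoImplicit false

namespace Pool.Agent.Lib.MP_9ff3e7_ag.F

open MeasureTheory MvPolynomial Metric

variable {n : ℕ} {U : Set (Amb n)}

namespace GTay

theorem poly_taylor {ι : Type} [Fintype ι] [DecidableEq ι] (ρ : ℝ) (hρ : 0 ≤ ρ)
    (P : MvPolynomial ι ℂ) :
    ∃ C : ℝ, 0 ≤ C ∧ ∀ q h : ι → ℂ, ‖q‖ ≤ ρ → ‖h‖ ≤ 1 → ‖eval q P‖ ≤ C ∧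
      ‖∑ j, eval q (pderiv j P) * h j‖ ≤ C * ‖h‖ ∧
      ‖eval (q + h) P - eval q P - ∑ j, eval q (pderiv j P) * h j‖ ≤ C * ‖h‖ ^ 2 := by
  induction P using MvPolynomial.induction_on with
  | C a => exact ⟨‖a‖, norm_nonneg _, fun q h _ _ => by simp; constructor <;> positivity⟩
  | add p r hp hr =>
    obtain ⟨C, C0, a⟩ := hp
    obtain ⟨D, D0, b⟩ := hr
    refine ⟨C + D, by positivity, fun q h hq hh => ?_⟩
    obtain ⟨a1, a2, a3⟩ := a q h hq hh
    obtain ⟨b1, b2, b3⟩ := b q h hq hh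
    simp only [map_add, add_mul, Finset.sum_add_distrib]
    refine ⟨(norm_add_le _ _).trans (add_le_add a1 b1),
      (norm_add_le _ _).trans (add_le_add a2 b2), ?_⟩
    refine le_trans (le_of_eq ?_) ((norm_add_le _ _).trans (add_le_add a3 b3))
    congr 1
    ring
  | mul_X p i hp =>
    obtain ⟨C, C0, a⟩ := hp
    refine ⟨C * (ρ + 2), by positivity, fun q h hq hh => ?_⟩
    obtain ⟨a1, a2, a3⟩ := a q h hq hh
    have q1 : ‖q i‖ ≤ ρ := (norm_le_pi_norm q i).trans hq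
    have h1 : ‖h i‖ ≤ ‖h‖ := norm_le_pi_norm h i
    have h0 := norm_nonneg h
    have e : ∑ j, eval q (pderiv j (p * X i)) * h j =
        (∑ j, eval q (pderiv j p) * h j) * q i + eval q p * h i := by
      have : ∀ j, eval q (pderiv j (p * X i)) * h j =
          eval q (pderiv j p) * h j * q i + if i = j then eval q p * h i else 0 := fun j => by
        rw [Derivation.leibniz, pderiv_X]
        by_cases k : i = j
        · subst k; simp; ring
        · simp [k]; ring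
      simp only [this, Finset.sum_add_distrib, Finset.sum_mul, Finset.sum_ite_eq,
        Finset.mem_univ, if_true]
    rw [e]
    set L := ∑ j, eval q (pderiv j p) * h j
    set T := eval (q + h) p - eval q p - L with hT
    simp only [map_mul, eval_X, Pi.add_apply]
    refine ⟨?_, ?_, ?_⟩
    · rw [norm_mul]
      calc _ ≤ C * ρ := by gcongr
        _ ≤ _ := by gcongr; linarith
    · calc _ ≤ ‖L‖ * ‖q i‖ + ‖eval q p‖ * ‖h i‖ := by
            rw [← norm_mul, ← norm_mul]; exact norm_add_le _ _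
        _ ≤ C * ‖h‖ * ρ + C * ‖h‖ := by gcongr
        _ ≤ _ := by nlinarith [mul_nonneg C0 h0]
    · calc _ = ‖T * q i + T * h i + L * h i‖ := by congr 1; rw [hT]; ring
        _ ≤ ‖T‖ * ‖q i‖ + ‖T‖ * ‖h i‖ + ‖L‖ * ‖h i‖ := by
            rw [← norm_mul, ← norm_mul, ← norm_mul]; exact norm_add₃_le
        _ ≤ C * ‖h‖ ^ 2 * ρ + C * ‖h‖ ^ 2 * 1 + C * ‖h‖ * ‖h‖ := by
            gcongr; exact h1.trans hh
        _ = _ := by ring

theorem shift_eq (q : Amb n) (s : Fin 2 → ℂ) :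
    shift q s = q + (Sum.elim (0 : Fin n → ℂ) s : Amb n) := by
  funext i
  rcases i with i | i <;> simp [shift, zp, sp]

theorem elim_sq (s : Fin 2 → ℂ) : ‖(Sum.elim (0 : Fin n → ℂ) s : Amb n)‖ ^ 2 ≤ nsq s := by
  refine (GWt.norm_sq_le _).trans_eq ?_
  simp [nsq, Fintype.sum_sum_type]

theorem reg_pos (W : Wt n) (e : ℝ) {τ : ℝ} (hτ : 0 < τ) (u : Amb n) : 0 < W.reg e τ u := by
  have a : ∀ a, 0 < sos (W.t a) u + τ := fun a => GWt.pos_add _ hτ
  have b : 0 < 1 + nsq (zp u) := by linarith [GWt.nsq_nonneg (zp u)]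
  exact mul_pos (Finset.prod_pos fun i _ => Real.rpow_pos_of_pos (a i) _)
    (Real.rpow_pos_of_pos b _)

theorem reg_cont (W : Wt n) (e : ℝ) {τ : ℝ} (hτ : 0 < τ) : Continuous (W.reg e τ) := by
  have c : ∀ {ι : Type} [Fintype ι], Continuous fun x : ι → ℂ => nsq x :=
    GWt.nsq_smooth.continuous
  refine (continuous_finsetProd _ fun a _ => Continuous.rpow_const
    ((c.comp (continuous_pi fun i => continuous_eval _)).add continuous_const)
    fun u => Or.inl (GWt.pos_add _ hτ).ne').mul (Continuous.rpow_const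
    (continuous_const.add (c.comp (continuous_pi fun i => continuous_apply _)))
    fun u => Or.inl ?_)
  have := GWt.nsq_nonneg (zp u)
  exact (by linarith : (0 : ℝ) < 1 + nsq (zp u)).ne'

end GTay

open GTay in
theorem eqn_taylor (Q : Eqn n U) (R : ℝ) :
    ∃ C : ℝ, 1 ≤ C ∧ ∀ q ∈ U, nsq q ≤ R → ∀ s : Fin 2 → ℂ, nsq s ≤ 1 →
      nsq ((fun i => eval (shift q s) (Q.S i)) - s) ≤ C * nsq s ^ 2 := by
  choose C C0 hC using fun i => poly_taylor (√R) (Real.sqrt_nonneg R) (Q.S i)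
  have S0 : 0 ≤ ∑ i, C i ^ 2 := by positivity
  refine ⟨1 + ∑ i, C i ^ 2, by linarith, fun q hq hR s hs => ?_⟩
  have h2 := elim_sq (n := n) s
  have h1 : ‖(Sum.elim (0 : Fin n → ℂ) s : Amb n)‖ ≤ 1 := (sq_le_one_iff₀ (norm_nonneg _)).1 (h2.trans hs)
  have k : ∀ i, ‖eval (shift q s) (Q.S i) - s i‖ ≤ C i * nsq s := fun i => by
    have a := (hC i q _ (Real.le_sqrt_of_sq_le ((GWt.norm_sq_le q).trans hR)) h1).2.2
    have e : ∑ j, eval q (pderiv j (Q.S i)) * (Sum.elim (0 : Fin n → ℂ) s : Amb n) j = s i := by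
      simp [Fintype.sum_sum_type, Q.der q hq i]
    rw [e, Q.van q hq i, sub_zero, ← shift_eq] at a
    exact a.trans (mul_le_mul_of_nonneg_left h2 (C0 i))
  calc _ ≤ ∑ i, C i ^ 2 * nsq s ^ 2 := by
        rw [nsq]
        refine Finset.sum_le_sum fun i _ => ?_
        rw [← mul_pow]
        exact pow_le_pow_left₀ (norm_nonneg _) (k i) 2
    _ ≤ _ := by rw [← Finset.sum_mul]; gcongr; linarith

open GTay in
theorem reg_near (W : Wt n) (e : ℝ) {τ : ℝ} (hτ : 0 < τ) (R : ℝ) :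
    ∃ r : ℝ, 0 < r ∧ ∀ q : Amb n, nsq q ≤ R → ∀ s : Fin 2 → ℂ, nsq s ≤ r →
      W.reg e τ (shift q s) ≤ 2 * W.reg e τ q ∧ W.reg e τ q ≤ 2 * W.reg e τ (shift q s) := by
  have hK := isCompact_closedBall (0 : Amb n) (√R + 1)
  have c := (reg_cont W e hτ).continuousOn (s := closedBall 0 (√R + 1))
  obtain ⟨u0, -, hu⟩ := hK.exists_isMinOn ⟨0, mem_closedBall_self (by positivity)⟩ c
  obtain ⟨δ, δ0, hδ⟩ := Metric.uniformContinuousOn_iff.1
    (hK.uniformContinuousOn_of_continuous c) _ (reg_pos W e hτ u0)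
  refine ⟨min 1 ((δ / 2) ^ 2), by positivity, fun q hq s hs => ?_⟩
  have h2 := elim_sq (n := n) s
  have h1 : ‖(Sum.elim (0 : Fin n → ℂ) s : Amb n)‖ ≤ 1 :=
    (sq_le_one_iff₀ (norm_nonneg _)).1 (h2.trans (hs.trans (min_le_left _ _)))
  have h3 : ‖(Sum.elim (0 : Fin n → ℂ) s : Amb n)‖ ≤ δ / 2 :=
    (pow_le_pow_iff_left₀ (norm_nonneg _) (by positivity) two_ne_zero).1
      (h2.trans (hs.trans (min_le_right _ _)))
  have q1 : ‖q‖ ≤ √R := Real.le_sqrt_of_sq_le ((GWt.norm_sq_le q).trans hq)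
  have m1 : q ∈ closedBall (0 : Amb n) (√R + 1) := mem_closedBall_zero_iff.2 (by linarith)
  have m2 : shift q s ∈ closedBall (0 : Amb n) (√R + 1) := mem_closedBall_zero_iff.2 (by
    rw [shift_eq]; exact (norm_add_le _ _).trans (add_le_add q1 h1))
  have d := hδ _ m2 _ m1 (by rw [shift_eq, dist_self_add_left]; linarith)
  rw [Real.dist_eq, abs_lt] at d
  have l1 : W.reg e τ u0 ≤ W.reg e τ q := hu m1
  have l2 : W.reg e τ u0 ≤ W.reg e τ (shift q s) := hu m2
  constructor <;> linarith [d.1, d.2]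

end Pool.Agent.Lib.MP_9ff3e7_ag.F
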