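import Pool.Agent.Lib.MP_9ff3e7_ag.F.GTupA
import Pool.Agent.Lib.MP_9ff3e7_ag.F.GMain
import Pool.Agent.Lib.MP_9ff3e7_ag.F.GEx
import Pool.Agent.Lib.MP_9ff3e7_ag.F.GCv2
import Pool.Agent.Lib.MP_9ff3e7_ag.F.GEmb

/-! The global existence theorem for tuples on the model. -/

set_option autoImplicit false

namespace Pool.Agent.Lib.MP_9ff3e7_ag.F

open MeasureTheory MvPolynomial Metric Filter Topology

variable {n : ℕ} {O : Type} [CommRing O] [IsDomain O] [Algebra ℂ O]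
  [Algebra (MvPolynomial (Fin n) ℂ) O] [IsScalarTower ℂ (MvPolynomial (Fin n) ℂ) O]

theorem G_tup (M : Model n O) (p : Pnt O) (W : OWt O) {b e : ℝ} (hb : 0 ≤ b) (he : 0 < e)
    (hk : ∃ U ∈ 𝓝 (zz n p), ∫⁻ w in U, W.dens (M.sg p w) < ⊤)
    (hn : ∀ U ∈ 𝓝 (zz n p),
      ∫⁻ w in U, W.dens (M.sg p w) * ENNReal.ofReal (nsq (w - zz n p)) ^ (-b) = ⊤) :
    ∃ f : O, p f = 1 ∧ ∀ (Y : Set (Fin n → ℂ)) (τ : (Fin n → ℂ) → Pnt O), PPar Y τ →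
      ∫⁻ y in Y, ENNReal.ofReal (‖pdet τ y‖ ^ 2 * ‖τ y f‖ ^ 2 *
        (1 + nsq (zz n (τ y))) ^ (-(e + b))) * W.dens (τ y) < ⊤ := by
  obtain ⟨Q⟩ := exists_eqn M.E.P
  exact G_tup_of M p W hb he (emb_facts M) (sheet_id M p)
    (fun V _ _ _ hσ h1 h2 h3 => G_main Q V he hσ h1 h2 h3)
    (fun _ _ _ hP _ hB hz _ hs hY him H => par_on_sheet hP hB hz hs hY him H) hk hn

end Pool.Agent.Lib.MP_9ff3e7_ag.F
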