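import Pool.Agent.Lib.MP_9ff3e7_ag.F.GO
import Pool.Agent.Lib.MP_9ff3e7_ag.F.GLim

/-! The global existence theorem for tuples on the model, from its ambient form. -/

set_option autoImplicit false

namespace Pool.Agent.Lib.MP_9ff3e7_ag.F

open MeasureTheory MvPolynomial Metric Filter Topology

namespace GTupA

variable {n : ℕ}

/-- the weight `W` with one more tuple -/
noncomputable def cons (W : Wt n) {k : ℕ} (t : Fin k → APoly n) {b : ℝ} (hb : 0 ≤ b) : Wt n where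
  m := W.m + 1
  r := fun a => ((Fin.cons ⟨k, t⟩ fun a => ⟨W.r a, W.t a⟩ :
    Fin (W.m + 1) → Σ r : ℕ, Fin r → APoly n) a).1
  t := fun a => ((Fin.cons ⟨k, t⟩ fun a => ⟨W.r a, W.t a⟩ :
    Fin (W.m + 1) → Σ r : ℕ, Fin r → APoly n) a).2
  c := Fin.cons b W.c
  c0 := fun a => Fin.cases hb W.c0 a

theorem cons_dens (W : Wt n) {k : ℕ} (t : Fin k → APoly n) {b : ℝ} (hb : 0 ≤ b) (u : Amb n) :
    (cons W t hb).dens u = W.dens u * ENNReal.ofReal (sos t u) ^ (-b) := by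
  rw [mul_comm]
  exact Fin.prod_univ_succ _

theorem norm_sq_le {ι : Type} [Fintype ι] (x : ι → ℂ) : ‖x‖ ^ 2 ≤ nsq x := by
  have h0 := GLim.nsq_nonneg x
  have : ‖x‖ ≤ √(nsq x) := by
    refine (pi_norm_le_iff_of_nonneg (Real.sqrt_nonneg _)).2 fun i => Real.le_sqrt_of_sq_le ?_
    exact Finset.single_le_sum (f := fun i => ‖x i‖ ^ 2) (fun _ _ => sq_nonneg _)
      (Finset.mem_univ i)
  calc ‖x‖ ^ 2 ≤ √(nsq x) ^ 2 := by gcongr
    _ = nsq x := Real.sq_sqrt h0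

theorem nsq_sub_le {ι : Type} [Fintype ι] (x y : ι → ℂ) :
    nsq (x - y) ≤ (2 + 2 * nsq y) * (1 + nsq x) := by
  have h : nsq (x - y) ≤ 2 * nsq x + 2 * nsq y := by
    unfold nsq
    rw [Finset.mul_sum, Finset.mul_sum, ← Finset.sum_add_distrib]
    refine Finset.sum_le_sum fun i _ => ?_
    have h1 : ‖(x - y) i‖ ≤ ‖x i‖ + ‖y i‖ := norm_sub_le _ _
    have h2 : ‖(x - y) i‖ ^ 2 ≤ (‖x i‖ + ‖y i‖) ^ 2 := by gcongr
    nlinarith [sq_nonneg (‖x i‖ - ‖y i‖)]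
  nlinarith [GLim.nsq_nonneg x, GLim.nsq_nonneg y,
    mul_nonneg (GLim.nsq_nonneg x) (GLim.nsq_nonneg y)]

theorem rpow_anti {u v : ENNReal} {b : ℝ} (hb : 0 ≤ b) (h : u ≤ v) : v ^ (-b) ≤ u ^ (-b) := by
  rw [ENNReal.rpow_neg, ENNReal.rpow_neg]
  exact ENNReal.inv_le_inv.2 (ENNReal.rpow_le_rpow h hb)

theorem fac_le {u v K b : ℝ} (hb : 0 ≤ b) (hK : 0 < K) (hv : 0 < v) (h : u ≤ K * v) :
    ENNReal.ofReal (v ^ (-b)) ≤ ENNReal.ofReal (K ^ b) * ENNReal.ofReal u ^ (-b) := by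
  have h1 : ENNReal.ofReal (K * v) ^ (-b) ≤ ENNReal.ofReal u ^ (-b) :=
    rpow_anti hb (ENNReal.ofReal_le_ofReal h)
  refine le_trans (le_of_eq ?_) (mul_le_mul_right h1 _)
  rw [ENNReal.ofReal_rpow_of_pos (mul_pos hK hv),
    ← ENNReal.ofReal_mul (Real.rpow_nonneg hK.le _), Real.mul_rpow hK.le hv.le, ← mul_assoc,
    ← Real.rpow_add hK, add_neg_cancel, Real.rpow_zero, one_mul]

end GTupA

open GTupA

variable {n : ℕ} {O : Type} [CommRing O] [Algebra ℂ O] [Algebra (MvPolynomial (Fin n) ℂ) O]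

/-- `G_tup` with its five inputs as hypotheses -/
theorem G_tup_of (M : Model n O) (p : Pnt O) (W : OWt O) {b e : ℝ} (hb : 0 ≤ b) (he : 0 < e)
    (hemb : Function.Injective M.emb ∧ Set.range M.emb = pairSet M.E.P ∧
      ∃ π : APoly n →ₐ[ℂ] O, Function.Surjective π ∧
        ∀ (q : Pnt O) (F : APoly n), q (π F) = eval (M.emb q) F)
    (hsid : ∀ f : O, (∀ᶠ w in 𝓝 (zz n p), M.sg p w f = 0) → f = 0)
    (hmain : ∀ (V : Wt n) (z0 : Fin n → ℂ) (ρ : ℝ) (σ : (Fin n → ℂ) → Amb n),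
      Sheet (pairSet M.E.P) z0 ρ σ →
      (∀ F : APoly n, (∀ z ∈ ball z0 (ρ / 4), eval (σ z) F = 0) →
        ∀ u ∈ pairSet M.E.P, eval u F = 0) →
      ∫⁻ z in closedBall z0 (ρ / 2) \ ball z0 (ρ / 4), V.dens (σ z) < ⊤ →
      (∀ δ : ℝ, 0 < δ → δ ≤ ρ / 4 → ∫⁻ z in ball z0 δ, V.dens (σ z) = ⊤) →
      ∃ F : APoly n, eval (σ z0) F = 1 ∧
        ∀ (Y : Set (Fin n → ℂ)) (τ : (Fin n → ℂ) → Amb n), Par (pairSet M.E.P) Y τ →
          (∀ y ∈ Y, τ y ∉ σ '' closedBall z0 (ρ / 2)) →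
          ∫⁻ y in Y, ENNReal.ofReal (jac τ y * ‖eval (τ y) F‖ ^ 2 *
            (1 + nsq (zp (τ y))) ^ (-e)) * V.dens (τ y) < ⊤)
    (hpar : ∀ (Y : Set (Fin n → ℂ)) (τ σ : (Fin n → ℂ) → Amb n), Par (pairSet M.E.P) Y τ →
      ∀ B : Set (Fin n → ℂ), MeasurableSet B → (∀ z ∈ B, zp (σ z) = z) →
      ∀ Y' : Set (Fin n → ℂ), Y' ⊆ Y → MeasurableSet Y' → (∀ y ∈ Y', τ y ∈ σ '' B) →
      ∀ H : Amb n → ENNReal,
        ∫⁻ y in Y', ENNReal.ofReal (jac τ y) * H (τ y) ≤ ∫⁻ z in B, H (σ z))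
    (hk : ∃ U ∈ 𝓝 (zz n p), ∫⁻ w in U, W.dens (M.sg p w) < ⊤)
    (hn : ∀ U ∈ 𝓝 (zz n p),
      ∫⁻ w in U, W.dens (M.sg p w) * ENNReal.ofReal (nsq (w - zz n p)) ^ (-b) = ⊤) :
    ∃ f : O, p f = 1 ∧ ∀ (Y : Set (Fin n → ℂ)) (τ : (Fin n → ℂ) → Pnt O), PPar Y τ →
      ∫⁻ y in Y, ENNReal.ofReal (‖pdet τ y‖ ^ 2 * ‖τ y f‖ ^ 2 *
        (1 + nsq (zz n (τ y))) ^ (-(e + b))) * W.dens (τ y) < ⊤ := by
  obtain ⟨hinj, hrange, π, hπ, hev⟩ := hemb
  obtain ⟨U, hU, hUi⟩ := hk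
  set z0 := zz n p with hz0
  obtain ⟨ρ, hρ, hball⟩ := Metric.eventually_nhds_iff_ball.1
    (((M.sec p).and (M.an p)).and (show ∀ᶠ w in 𝓝 z0, w ∈ U from hU))
  have hzp : ∀ q : Pnt O, zp (M.emb q) = zz n q := fun q => rfl
  have hco : ∀ (q : Pnt O) (i : Fin n ⊕ Fin 2), M.emb q i = q (π (X i)) := fun q i => by
    rw [hev, eval_X]
  have hmem : ∀ q : Pnt O, M.emb q ∈ pairSet M.E.P := fun q => hrange ▸ Set.mem_range_self q
  set σ : (Fin n → ℂ) → Amb n := fun w => M.emb (M.sg p w) with hσ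
  have hsh : Sheet (pairSet M.E.P) z0 ρ σ := by
    refine ⟨hρ, fun w hw => ?_, fun w _ => hmem _, fun w hw => (hball w hw).1.1⟩
    refine analyticAt_pi_iff.2 fun i => ?_
    simp only [hco]
    exact (hball w hw).1.2 _
  -- the lifted weights
  choose lf hlf using hπ
  let W0 : Wt n := ⟨W.m, W.r, fun a i => lf (W.t a i), W.c, W.c0⟩
  have hW0 : ∀ q : Pnt O, W0.dens (M.emb q) = W.dens q := fun q => by
    simp only [Wt.dens, OWt.dens, sos, W0, ← hev, hlf]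
  let t : Fin n → APoly n := fun i => X (Sum.inl i) - C (z0 i)
  have ht : ∀ u : Amb n, sos t u = nsq (zp u - z0) := fun u => by
    simp only [sos, t, map_sub, eval_X, eval_C]; rfl
  have hW1 : ∀ q : Pnt O, (cons W0 t hb).dens (M.emb q) =
      W.dens q * ENNReal.ofReal (nsq (zz n q - z0)) ^ (-b) := fun q => by
    rw [cons_dens, hW0, ht, hzp]
  have hsub : closedBall z0 (ρ / 2) ⊆ ball z0 ρ := closedBall_subset_ball (by linarith)
  have hBU : ∫⁻ w in closedBall z0 (ρ / 2), W.dens (M.sg p w) < ⊤ :=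
    lt_of_le_of_lt (lintegral_mono_set fun w hw => (hball w (hsub hw)).2) hUi
  have a1 : ∀ F : APoly n, (∀ z ∈ ball z0 (ρ / 4), eval (σ z) F = 0) →
      ∀ u ∈ pairSet M.E.P, eval u F = 0 := by
    intro F hF u hu
    rw [← hrange] at hu
    obtain ⟨q, rfl⟩ := hu
    have : π F = 0 := by
      refine hsid _ ?_
      filter_upwards [ball_mem_nhds z0 (show 0 < ρ / 4 by positivity)] with w hw
      rw [hev]; exact hF w hw
    rw [← hev, this, map_zero]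
  have a2 : ∫⁻ z in closedBall z0 (ρ / 2) \ ball z0 (ρ / 4), (cons W0 t hb).dens (σ z) < ⊤ := by
    have hK : ENNReal.ofReal ((ρ / 4) ^ 2) ^ (-b) ≠ ⊤ := by
      rw [ENNReal.ofReal_rpow_of_pos (by positivity)]; exact ENNReal.ofReal_ne_top
    calc ∫⁻ z in closedBall z0 (ρ / 2) \ ball z0 (ρ / 4), (cons W0 t hb).dens (σ z)
        ≤ ∫⁻ z in closedBall z0 (ρ / 2) \ ball z0 (ρ / 4),
            W.dens (M.sg p z) * ENNReal.ofReal ((ρ / 4) ^ 2) ^ (-b) := by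
          refine setLIntegral_mono' (measurableSet_closedBall.diff measurableSet_ball)
            fun z hz => ?_
          rw [hσ, hW1, (hball z (hsub hz.1)).1.1]
          refine mul_le_mul_right (rpow_anti hb (ENNReal.ofReal_le_ofReal ?_)) _
          have h1 : ρ / 4 ≤ ‖z - z0‖ := by
            have := hz.2
            rwa [mem_ball, dist_eq_norm, not_lt] at this
          calc (ρ / 4) ^ 2 ≤ ‖z - z0‖ ^ 2 := by gcongr
            _ ≤ _ := norm_sq_le _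
      _ = (∫⁻ z in closedBall z0 (ρ / 2) \ ball z0 (ρ / 4), W.dens (M.sg p z)) *
            ENNReal.ofReal ((ρ / 4) ^ 2) ^ (-b) := lintegral_mul_const' _ _ hK
      _ < ⊤ := ENNReal.mul_lt_top
            (lt_of_le_of_lt (lintegral_mono_set Set.sdiff_subset) hBU) hK.lt_top
  have a3 : ∀ δ : ℝ, 0 < δ → δ ≤ ρ / 4 →
      ∫⁻ z in ball z0 δ, (cons W0 t hb).dens (σ z) = ⊤ := by
    intro δ hδ hδρ
    rw [← hn _ (ball_mem_nhds z0 hδ)]
    refine setLIntegral_congr_fun measurableSet_ball fun z hz => ?_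
    have hz' : z ∈ ball z0 ρ := ball_subset_ball (by linarith) hz
    simp only [hσ, hW1, (hball z hz').1.1]
  obtain ⟨F, hF1, hF⟩ := hmain (cons W0 t hb) z0 ρ σ hsh a1 a2 a3
  refine ⟨π F, by rw [hev, ← hF1, hσ]; simp only [hz0, M.base], fun Y τ hP => ?_⟩
  set τ' : (Fin n → ℂ) → Amb n := fun y => M.emb (τ y) with hτ'
  have hdiff : DifferentiableOn ℂ τ' Y := by
    refine differentiableOn_pi.2 fun i => ?_
    simp only [hτ', hco]
    exact hP.diff _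
  have hPar : Par (pairSet M.E.P) Y τ' :=
    ⟨hP.op, hdiff, fun a ha b hb h => hP.inj ha hb (hinj h), fun y _ => hmem _⟩
  have hjac : ∀ y, jac τ' y = ‖pdet τ y‖ ^ 2 := fun y => rfl
  have hcomp : IsCompact (σ '' closedBall z0 (ρ / 2)) :=
    (isCompact_closedBall z0 _).image_of_continuousOn (hsh.an.continuousOn.mono hsub)
  set Y1 : Set (Fin n → ℂ) := Y ∩ τ' ⁻¹' (σ '' closedBall z0 (ρ / 2))ᶜ with hY1
  have hY1o : IsOpen Y1 :=
    hdiff.continuousOn.isOpen_inter_preimage hP.op hcomp.isClosed.isOpen_compl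
  have hY1s : Y1 ⊆ Y := Set.inter_subset_left
  have hcover : Y ⊆ Y1 ∪ (Y \ Y1) := fun y hy => by
    by_cases h : y ∈ Y1
    · exact Or.inl h
    · exact Or.inr ⟨hy, h⟩
  refine lt_of_le_of_lt ((lintegral_mono_set hcover).trans (lintegral_union_le _ _ _))
    (ENNReal.add_lt_top.2 ⟨?_, ?_⟩)
  · have h1 := hF Y1 τ' ⟨hY1o, hdiff.mono hY1s, hPar.inj.mono hY1s, fun y _ => hmem _⟩
      fun y hy => hy.2
    have hK : 0 < 2 + 2 * nsq z0 := by linarith [GLim.nsq_nonneg z0]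
    refine lt_of_le_of_lt ?_ (ENNReal.mul_lt_top
      (ENNReal.ofReal_lt_top (r := (2 + 2 * nsq z0) ^ b)) h1)
    rw [← lintegral_const_mul' _ _ ENNReal.ofReal_ne_top]
    refine lintegral_mono fun y => ?_
    have hv : 0 < 1 + nsq (zz n (τ y)) := by linarith [GLim.nsq_nonneg (zz n (τ y))]
    have h2 := fac_le hb hK hv (nsq_sub_le (zz n (τ y)) z0)
    simp only [hτ', hW1, hzp, ← hev]
    rw [neg_add, Real.rpow_add hv, ← mul_assoc, ENNReal.ofReal_mul' (Real.rpow_nonneg hv.le _)]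
    calc _ ≤ ENNReal.ofReal (‖pdet τ y‖ ^ 2 * ‖τ y (π F)‖ ^ 2 * (1 + nsq (zz n (τ y))) ^ (-e)) *
          (ENNReal.ofReal ((2 + 2 * nsq z0) ^ b) *
            ENNReal.ofReal (nsq (zz n (τ y) - z0)) ^ (-b)) * W.dens (τ y) := by gcongr
      _ = _ := by rw [← hjac]; ring
  · obtain ⟨A, hA⟩ := (isCompact_closedBall z0 (ρ / 2)).exists_bound_of_continuousOn
      (f := fun z => M.sg p z (π F))
      fun z hz => ((hball z (hsub hz)).1.2 _).continuousAt.continuousWithinAt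
    have h1 := hpar Y τ' σ hPar (closedBall z0 (ρ / 2)) measurableSet_closedBall
      (fun z hz => (hball z (hsub hz)).1.1) (Y \ Y1) Set.sdiff_subset
      (hP.op.measurableSet.diff hY1o.measurableSet)
      (fun y hy => by
        by_contra h
        exact hy.2 ⟨hy.1, h⟩)
      fun u => ENNReal.ofReal (‖eval u F‖ ^ 2) * W0.dens u
    calc _ ≤ ∫⁻ y in Y \ Y1, ENNReal.ofReal (jac τ' y) *
          (ENNReal.ofReal (‖eval (τ' y) F‖ ^ 2) * W0.dens (τ' y)) := by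
          refine lintegral_mono fun y => ?_
          have hv : 1 ≤ 1 + nsq (zz n (τ y)) := by linarith [GLim.nsq_nonneg (zz n (τ y))]
          have h2 : (1 + nsq (zz n (τ y))) ^ (-(e + b)) ≤ 1 :=
            Real.rpow_le_one_of_one_le_of_nonpos hv (by linarith)
          simp only [hτ', hW0, ← hev]
          rw [← mul_assoc, ← ENNReal.ofReal_mul (by rw [hjac]; positivity), hjac]
          refine mul_le_mul_left (ENNReal.ofReal_le_ofReal ?_) _
          exact mul_le_of_le_one_right (by positivity) h2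
      _ ≤ ∫⁻ z in closedBall z0 (ρ / 2),
          ENNReal.ofReal (‖eval (σ z) F‖ ^ 2) * W0.dens (σ z) := h1
      _ ≤ ∫⁻ z in closedBall z0 (ρ / 2), ENNReal.ofReal (A ^ 2) * W.dens (M.sg p z) := by
          refine setLIntegral_mono' measurableSet_closedBall fun z hz => ?_
          simp only [hσ, hW0, ← hev]
          refine mul_le_mul_left (ENNReal.ofReal_le_ofReal ?_) _
          have := hA z hz
          gcongr
      _ = ENNReal.ofReal (A ^ 2) * ∫⁻ z in closedBall z0 (ρ / 2), W.dens (M.sg p z) :=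
          lintegral_const_mul' _ _ ENNReal.ofReal_ne_top
      _ < ⊤ := ENNReal.mul_lt_top ENNReal.ofReal_lt_top hBU

end Pool.Agent.Lib.MP_9ff3e7_ag.F
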