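import Pool.Agent.Lib.MP_9ff3e7_ag.F.GTay
import Pool.Agent.Lib.MP_9ff3e7_ag.F.GCv
import Pool.Agent.Lib.MP_9ff3e7_ag.F.GSrc
import Pool.Agent.Lib.MP_9ff3e7_ag.F.GRad
import Pool.Agent.Lib.MP_9ff3e7_ag.F.GWb
import Pool.Agent.Lib.MP_9ff3e7_ag.F.GLim

/-! The upper bound for the source term of the global estimate. -/

set_option autoImplicit false

namespace Pool.Agent.Lib.MP_9ff3e7_ag.F

open MeasureTheory MvPolynomial Metric Filter Topology

variable {n : ℕ} {U : Set (Amb n)}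

namespace GUp

/-- near bounded parts of `U` the equations dominate the fibre coordinate -/
theorem eqn_low (Q : Eqn n U) (R : ℝ) : ∃ r : ℝ, 0 < r ∧ r ≤ 1 ∧ ∀ q ∈ U, nsq q ≤ R →
    ∀ s : Fin 2 → ℂ, nsq s ≤ r → nsq s ≤ 4 * sos Q.S (shift q s) := by
  obtain ⟨C, hC, h⟩ := eqn_taylor Q R
  refine ⟨1 / (4 * C), by positivity, ?_, fun q hq hR s hs => ?_⟩
  · rw [div_le_one (by positivity)]; linarith
  have hs1 : nsq s ≤ 1 := hs.trans (by rw [div_le_one (by positivity)]; linarith)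
  have h1 := h q hq hR s hs1
  have h2 := GWt.nsq_add_le (fun i => eval (shift q s) (Q.S i))
    (-((fun i => eval (shift q s) (Q.S i)) - s))
  rw [GWt.nsq_neg] at h2
  have e : ((fun i => eval (shift q s) (Q.S i)) + -((fun i => eval (shift q s) (Q.S i)) - s)) = s := by
    abel
  rw [e] at h2
  have h0 := GWt.nsq_nonneg s
  have h3 : C * nsq s ≤ 1 / 4 := by
    rw [le_div_iff₀ (by positivity)] at hs; linarith
  have h4 : C * nsq s ^ 2 ≤ nsq s / 4 := by nlinarith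
  unfold sos
  linarith

theorem reg_le_dens (W : Wt n) {e τ : ℝ} (he : 0 ≤ e) (hτ : 0 < τ) (u : Amb n) :
    ENNReal.ofReal (W.reg e τ u) ≤ W.dens u := by
  have hs : ∀ a, 0 < sos (W.t a) u + τ := fun a => by have := GLim.sos_nonneg (W.t a) u; linarith
  have h1 : W.reg e τ u ≤ ∏ a, (sos (W.t a) u + τ) ^ (-W.c a) := by
    unfold Wt.reg
    refine mul_le_of_le_one_right (Finset.prod_nonneg fun a _ => (Real.rpow_pos_of_pos (hs a) _).le) ?_
    exact Real.rpow_le_one_of_one_le_of_nonpos (by have := GLim.nsq_nonneg (zp u); linarith)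
      (by linarith)
  refine (ENNReal.ofReal_le_ofReal h1).trans ?_
  rw [ENNReal.ofReal_prod_of_nonneg fun a _ => (Real.rpow_pos_of_pos (hs a) _).le]
  refine Finset.prod_le_prod' fun a _ => ?_
  rw [← ENNReal.ofReal_rpow_of_pos (hs a), ENNReal.rpow_neg, ENNReal.rpow_neg]
  exact ENNReal.inv_le_inv.2 (ENNReal.rpow_le_rpow (ENNReal.ofReal_le_ofReal (by linarith)) (W.c0 a))

theorem reg_bdd (W : Wt n) {e τ : ℝ} (he : 0 ≤ e) (hτ : 0 < τ) (u : Amb n) :
    W.reg e τ u ≤ ∏ a, τ ^ (-W.c a) := by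
  have hs : ∀ a, 0 < sos (W.t a) u + τ := fun a => by have := GLim.sos_nonneg (W.t a) u; linarith
  unfold Wt.reg
  refine (mul_le_of_le_one_right
    (Finset.prod_nonneg fun a _ => (Real.rpow_pos_of_pos (hs a) _).le) ?_).trans ?_
  · exact Real.rpow_le_one_of_one_le_of_nonpos (by have := GLim.nsq_nonneg (zp u); linarith)
      (by linarith)
  · refine Finset.prod_le_prod (fun a _ => (Real.rpow_pos_of_pos (hs a) _).le) fun a _ => ?_
    exact Real.rpow_le_rpow_of_nonpos hτ (by have := GLim.sos_nonneg (W.t a) u; linarith)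
      (by have := W.c0 a; linarith)

theorem sheet_jac {z0 : Fin n → ℂ} {ρ : ℝ} {σ : (Fin n → ℂ) → Amb n} (hσ : Sheet U z0 ρ σ)
    {z : Fin n → ℂ} (hz : z ∈ ball z0 ρ) : jac σ z = 1 := by
  have h : (fun y => zp (σ y)) =ᶠ[𝓝 z] id :=
    Filter.eventually_of_mem (isOpen_ball.mem_nhds hz) fun y hy => hσ.zσ y hy
  unfold jac
  rw [h.fderiv_eq, fderiv_id]
  have : (ContinuousLinearMap.id ℂ (Fin n → ℂ)).det = 1 := LinearMap.det_id
  rw [this]; simp

theorem sheet_par {z0 : Fin n → ℂ} {ρ ρ' : ℝ} {σ : (Fin n → ℂ) → Amb n} (hσ : Sheet U z0 ρ σ)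
    (h : ρ' ≤ ρ) : Par U (ball z0 ρ') σ where
  op := isOpen_ball
  diff := hσ.an.differentiableOn.mono (ball_subset_ball h)
  inj := fun y hy y' hy' e => by
    rw [← hσ.zσ y (ball_subset_ball h hy), ← hσ.zσ y' (ball_subset_ball h hy'), e]
  mem := fun y hy => hσ.mem y (ball_subset_ball h hy)

theorem half_sub {z0 : Fin n → ℂ} {ρ : ℝ} (h : 0 < ρ) : closedBall z0 (ρ / 2) ⊆ ball z0 ρ :=
  closedBall_subset_ball (by linarith)

theorem sheet_bdd {z0 : Fin n → ℂ} {ρ : ℝ} {σ : (Fin n → ℂ) → Amb n} (hσ : Sheet U z0 ρ σ) :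
    ∃ R0 : ℝ, ∀ z ∈ closedBall z0 (ρ / 2), nsq (σ z) ≤ R0 := by
  have hc : ContinuousOn (fun z => nsq (σ z)) (closedBall z0 (ρ / 2)) :=
    GLim.cont_nsq.comp_continuousOn (hσ.an.continuousOn.mono (half_sub hσ.pos))
  obtain ⟨R0, h⟩ := (isCompact_closedBall z0 (ρ / 2)).bddAbove_image hc
  exact ⟨R0, fun z hz => h ⟨z, hz, rfl⟩⟩

theorem im_compact {z0 : Fin n → ℂ} {ρ : ℝ} {σ : (Fin n → ℂ) → Amb n} (hσ : Sheet U z0 ρ σ)
    {A : Set (Fin n → ℂ)} {D : Set (Fin 2 → ℂ)} (hA : IsCompact A) (hD : IsCompact D)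
    (hs : A ⊆ ball z0 ρ) :
    IsCompact ((fun p : (Fin n → ℂ) × (Fin 2 → ℂ) => shift (σ p.1) p.2) '' (A ×ˢ D)) := by
  refine (hA.prod hD).image_of_continuousOn ?_
  have h1 : ContinuousOn (fun p : (Fin n → ℂ) × (Fin 2 → ℂ) => (σ p.1, p.2)) (A ×ˢ D) :=
    ((hσ.an.continuousOn.mono hs).comp continuousOn_fst fun p hp => hp.1).prodMk continuousOn_snd
  exact Src.shift_cont.comp_continuousOn h1

end GUp

open GUp

/-- the set where the source term lives -/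
def srcSet (z0 : Fin n → ℂ) (ρ : ℝ) (σ : (Fin n → ℂ) → Amb n) (r2 : ℝ) : Set (Amb n) :=
  {u | ∃ z ∈ closedBall z0 (ρ / 2), ∃ s, nsq s ≤ r2 ∧
    u = shift (σ z) s ∧ (z ∉ ball z0 (ρ / 4) ∨ r2 / 2 ≤ nsq s)}

theorem srcSet_compact {z0 : Fin n → ℂ} {ρ : ℝ} {σ : (Fin n → ℂ) → Amb n} (hσ : Sheet U z0 ρ σ)
    (r2 : ℝ) : IsCompact (srcSet z0 ρ σ r2) := by
  have h1 := im_compact hσ ((isCompact_closedBall z0 (ρ / 2)).diff (isOpen_ball (x := z0) (ε := ρ / 4)))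
    (Src.nsq_compact r2) (Set.sdiff_subset.trans (half_sub hσ.pos))
  have h2 := im_compact hσ (isCompact_closedBall z0 (ρ / 2))
    ((Src.nsq_compact r2).inter_right (isClosed_le (continuous_const (y := r2 / 2)) GLim.cont_nsq))
    (half_sub hσ.pos)
  convert h1.union h2 using 1
  ext u
  constructor
  · rintro ⟨z, hz, s, hs, rfl, h | h⟩
    · exact Or.inl ⟨(z, s), ⟨⟨hz, h⟩, hs⟩, rfl⟩
    · exact Or.inr ⟨(z, s), ⟨hz, hs, h⟩, rfl⟩
  · rintro (⟨⟨z, s⟩, ⟨⟨hz, h⟩, hs⟩, rfl⟩ | ⟨⟨z, s⟩, ⟨hz, hs, h⟩, rfl⟩)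
    · exact ⟨z, hz, s, hs, rfl, Or.inl h⟩
    · exact ⟨z, hz, s, hs, rfl, Or.inr h⟩

/-- the integral of the weight over the support of the source term -/
theorem G_up (Q : Eqn n U) (W : Wt n) {e : ℝ} (he : 0 ≤ e) {z0 : Fin n → ℂ} {ρ : ℝ}
    {σ : (Fin n → ℂ) → Amb n} (hσ : Sheet U z0 ρ σ) {r2 : ℝ}
    (hlow : ∀ z ∈ closedBall z0 (ρ / 2), ∀ s : Fin 2 → ℂ, nsq s ≤ r2 →
      nsq s ≤ 4 * sos Q.S (shift (σ z) s))
    {τ0 : ℝ} (hτ : 0 < τ0) {r1 : ℝ} (hr1 : 0 < r1) (hr12 : r1 ≤ r2 / 2)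
    (hnear : ∀ z ∈ closedBall z0 (ρ / 2), ∀ s : Fin 2 → ℂ, nsq s ≤ r1 →
      W.reg e τ0 (shift (σ z) s) ≤ 2 * W.reg e τ0 (σ z)) :
    ∃ A : ENNReal, A < ⊤ ∧ ∀ ς : ℝ, 0 < ς →
      ∫⁻ u in srcSet z0 ρ σ r2, ENNReal.ofReal (Real.exp (-Q.wb W e τ0 ς u)) ≤
        32 * (∫⁻ z in closedBall z0 (ρ / 2) \ ball z0 (ρ / 4), W.dens (σ z)) * radL r1 ς + A := by
  set B : ℝ := ∏ a, τ0 ^ (-W.c a) with hB
  have hK := srcSet_compact hσ r2
  refine ⟨ENNReal.ofReal (16 * B / r1 ^ 2) * volume (srcSet z0 ρ σ r2),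
    ENNReal.mul_lt_top ENNReal.ofReal_lt_top hK.measure_lt_top, fun ς hς => ?_⟩
  set An : Set (Fin n → ℂ) := closedBall z0 (ρ / 2) \ ball z0 (ρ / 4) with hAn
  set D : Set (Fin 2 → ℂ) := {s | nsq s < r1} with hD
  set Θ : (Fin n → ℂ) × (Fin 2 → ℂ) → Amb n := fun p => shift (σ p.1) p.2 with hΘ
  set H : Amb n → ENNReal := fun u => ENNReal.ofReal (Real.exp (-Q.wb W e τ0 ς u)) with hH
  have hHm : Measurable H :=
    ENNReal.measurable_ofReal.comp (Real.continuous_exp.comp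
      (wb_smooth Q W e hτ hς).continuous.neg).measurable
  have hpt : ∀ z ∈ closedBall z0 (ρ / 2), ∀ s : Fin 2 → ℂ, nsq s ≤ r2 →
      Real.exp (-Q.wb W e τ0 ς (shift (σ z) s)) ≤
        16 * W.reg e τ0 (shift (σ z) s) / (nsq s + ς) ^ 2 := by
    intro z hz s hs
    rw [wb_exp Q W e hτ hς]
    have h1 := hlow z hz s hs
    have h2 := GLim.sos_nonneg Q.S (shift (σ z) s)
    have h3 := GLim.nsq_nonneg s
    have h4 := GLim.reg_pos W e hτ (shift (σ z) s)
    rw [div_le_div_iff₀ (by positivity) (by positivity)]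
    have h5 : (nsq s + ς) ^ 2 ≤ 16 * (sos Q.S (shift (σ z) s) + ς) ^ 2 := by
      have : nsq s + ς ≤ 4 * (sos Q.S (shift (σ z) s) + ς) := by linarith
      nlinarith
    have h6 : (sos Q.S (shift (σ z) s) + ς) ^ 2 ≤
        (1 + sos Q.S (shift (σ z) s)) * (sos Q.S (shift (σ z) s) + ς) ^ 2 :=
      le_mul_of_one_le_left (by positivity) (by linarith)
    nlinarith
  have hAnm : MeasurableSet An := measurableSet_closedBall.diff measurableSet_ball
  have hinj : Set.InjOn Θ (An ×ˢ D) := by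
    rintro ⟨y, s⟩ ⟨hy, -⟩ ⟨y', s'⟩ ⟨hy', -⟩ h
    have h1 : y = y' := by
      have := congrArg zp h
      simp only [hΘ, Src.zp_shift] at this
      rwa [hσ.zσ y (half_sub hσ.pos hy.1), hσ.zσ y' (half_sub hσ.pos hy'.1)] at this
    subst h1
    have := congrArg sp h
    simp only [hΘ, Src.sp_shift, add_right_inj] at this
    rw [this]
  have hcv := tube_cv (τ := σ) isOpen_ball hσ.an.differentiableOn
    (Set.sdiff_subset.trans (half_sub hσ.pos) : An ⊆ ball z0 ρ) hAnm (GRad.ms r1) hinj H hHm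
  have h1 : ∫⁻ u in Θ '' (An ×ˢ D), H u ≤ 32 * (∫⁻ z in An, W.dens (σ z)) * radL r1 ς := by
    rw [hΘ, hD, hcv, mul_assoc, ← lintegral_mul_const' _ _ (radL_lt_top r1 ς hς).ne,
      ← lintegral_const_mul' _ _ (by norm_num)]
    refine setLIntegral_mono' hAnm fun z hz => ?_
    rw [sheet_jac hσ (half_sub hσ.pos hz.1), ENNReal.ofReal_one, one_mul, ← mul_assoc]
    have hreg := reg_le_dens W he hτ (σ z)
    calc ∫⁻ s in {s : Fin 2 → ℂ | nsq s < r1}, H (shift (σ z) s)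
        ≤ ∫⁻ s in {s : Fin 2 → ℂ | nsq s < r1}, ENNReal.ofReal (32 * W.reg e τ0 (σ z)) *
            ENNReal.ofReal (1 / (nsq s + ς) ^ 2) := by
          refine setLIntegral_mono' (GRad.ms r1) fun s hs => ?_
          have hs' : nsq s < r1 := hs
          have h4 := GLim.reg_pos W e hτ (σ z)
          rw [← ENNReal.ofReal_mul (by positivity)]
          refine ENNReal.ofReal_le_ofReal ((hpt z hz.1 s (by linarith)).trans ?_)
          have h3 := GLim.nsq_nonneg s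
          rw [mul_one_div]
          refine div_le_div_of_nonneg_right ?_ (by positivity)
          have := hnear z hz.1 s hs'.le
          linarith
      _ = ENNReal.ofReal (32 * W.reg e τ0 (σ z)) * radL r1 ς := by
          rw [lintegral_const_mul' _ _ ENNReal.ofReal_ne_top]; rfl
      _ ≤ 32 * W.dens (σ z) * radL r1 ς := by
          gcongr
          rw [ENNReal.ofReal_mul (by norm_num)]
          gcongr
          simp
  have h2 : ∫⁻ u in srcSet z0 ρ σ r2 \ Θ '' (An ×ˢ D), H u ≤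
      ENNReal.ofReal (16 * B / r1 ^ 2) * volume (srcSet z0 ρ σ r2) := by
    set T : Set (Amb n) := {u | Real.exp (-Q.wb W e τ0 ς u) ≤ 16 * B / r1 ^ 2} with hT
    have hTm : MeasurableSet T := (isClosed_le (Real.continuous_exp.comp
      (wb_smooth Q W e hτ hς).continuous.neg) continuous_const).measurableSet
    have hsub : srcSet z0 ρ σ r2 \ Θ '' (An ×ˢ D) ⊆ srcSet z0 ρ σ r2 ∩ T := by
      rintro u ⟨hu, hn⟩
      refine ⟨hu, ?_⟩
      obtain ⟨z, hz, s, hs, rfl, h⟩ := hu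
      have hs1 : r1 ≤ nsq s := by
        rcases h with h | h
        · by_contra hlt
          exact hn ⟨(z, s), ⟨⟨hz, h⟩, not_le.1 hlt⟩, rfl⟩
        · linarith
      refine (hpt z hz s hs).trans ?_
      have h4 := reg_bdd W he hτ (shift (σ z) s)
      have h5 := GLim.reg_pos W e hτ (shift (σ z) s)
      exact div_le_div₀ (by linarith) (by linarith) (by positivity)
        (pow_le_pow_left₀ hr1.le (by linarith) 2)
    calc ∫⁻ u in srcSet z0 ρ σ r2 \ Θ '' (An ×ˢ D), H u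
        ≤ ∫⁻ u in srcSet z0 ρ σ r2 ∩ T, H u := lintegral_mono_set hsub
      _ ≤ ∫⁻ _ in srcSet z0 ρ σ r2 ∩ T, ENNReal.ofReal (16 * B / r1 ^ 2) :=
          setLIntegral_mono' (hK.measurableSet.inter hTm) fun u hu => ENNReal.ofReal_le_ofReal hu.2
      _ ≤ _ := by
          rw [setLIntegral_const]
          gcongr
          exact Set.inter_subset_left
  calc ∫⁻ u in srcSet z0 ρ σ r2, H u
      ≤ ∫⁻ u in Θ '' (An ×ˢ D) ∪ (srcSet z0 ρ σ r2 \ Θ '' (An ×ˢ D)), H u :=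
        lintegral_mono_set fun u hu => by
          by_cases h : u ∈ Θ '' (An ×ˢ D)
          · exact Or.inl h
          · exact Or.inr ⟨hu, h⟩
    _ ≤ _ := (lintegral_union_le _ _ _).trans (add_le_add h1 h2)

end Pool.Agent.Lib.MP_9ff3e7_ag.F
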