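import Mathlib

/-! The critical coefficient of a new series over a compact family, abstract form. -/

set_option autoImplicit false

namespace Pool.Agent.Lib.MP_9ff3e7_ag.F

open Filter Topology

/-- local uniformity on a compact space gives global uniformity -/
theorem eventually_forall_of_compact {B Y : Type} [TopologicalSpace B] [CompactSpace B]
    (l : Filter Y) (Q : B → Y → Prop)
    (h : ∀ β0, ∀ᶠ q in 𝓝 β0 ×ˢ l, Q q.1 q.2) : ∀ᶠ y in l, ∀ β, Q β y := by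
  have h1 : {q : B × Y | Q q.1 q.2} ∈ 𝓝ˢ (Set.univ : Set B) ×ˢ l :=
    isCompact_univ.mem_nhdsSet_prod_of_forall fun β _ => h β
  rw [nhdsSet_univ, top_prod] at h1
  exact (eventually_comap.mp h1).mono fun y hy β => hy (β, y) rfl

variable {E : Type} [AddCommGroup E] [PartialOrder E] [IsOrderedAddMonoid E] [Module ℝ E]
  [PosSMulMono ℝ E] [SMulPosMono ℝ E]

/-- GAUGE, abstract form -/
theorem gauge_abs {B : Type} [TopologicalSpace B] [CompactSpace B] (K : E → Prop)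
    (Φ0 Φ1 : B → E) (h0 : ∀ β, 0 ≤ Φ0 β) (h1 : ∀ β, 0 ≤ Φ1 β)
    (drop : ∀ D D', 0 ≤ D' → D' ≤ D → K D → K D')
    (conv : ∀ D D' (l : ℝ), 0 ≤ D → 0 ≤ D' → 0 ≤ l → l ≤ 1 → K D → K D' →
      K (l • D + (1 - l) • D'))
    (sk : ∀ β, ∃ c : ℝ, 0 < c ∧ K (c • Φ1 β))
    (semi : ∀ t : ℝ, 0 ≤ t → ∀ β0 (ρ : ℝ), 1 < ρ → K (ρ • (Φ0 β0 + t • Φ1 β0)) →
      ∀ᶠ β in 𝓝 β0, K (Φ0 β + t • Φ1 β))
    (I1 : ∀ ρ : ℝ, 0 < ρ → ρ < 1 → ∀ β, K (ρ • Φ0 β))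
    (bdd : ∃ T0 : ℝ, ∀ t : ℝ, 0 ≤ t →
      (∀ ρ : ℝ, 0 < ρ → ρ < 1 → ∀ β, K (ρ • (Φ0 β + t • Φ1 β))) → t ≤ T0) :
    ∃ t : ℝ, 0 ≤ t ∧ (∀ ρ : ℝ, 0 < ρ → ρ < 1 → ∀ β, K (ρ • (Φ0 β + t • Φ1 β))) ∧
      ∃ β, ∀ η : ℝ, 0 < η → ¬ K ((1 + η) • (Φ0 β + t • Φ1 β)) := by
  set T : Set ℝ := {t | 0 ≤ t ∧ ∀ ρ : ℝ, 0 < ρ → ρ < 1 → ∀ β, K (ρ • (Φ0 β + t • Φ1 β))} with hT
  have hnn : ∀ (ρ t : ℝ) β, 0 ≤ ρ → 0 ≤ t → 0 ≤ ρ • (Φ0 β + t • Φ1 β) := fun ρ t β hρ ht =>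
    smul_nonneg hρ (add_nonneg (h0 β) (smul_nonneg ht (h1 β)))
  have hle : ∀ (ρ t ρ' t' : ℝ) β, ρ ≤ ρ' → ρ * t ≤ ρ' * t' →
      ρ • (Φ0 β + t • Φ1 β) ≤ ρ' • (Φ0 β + t' • Φ1 β) := by
    intro ρ t ρ' t' β ha hb
    rw [smul_add, smul_add, smul_smul, smul_smul]
    exact add_le_add (smul_le_smul_of_nonneg_right ha (h0 β))
      (smul_le_smul_of_nonneg_right hb (h1 β))
  have hz : (0 : ℝ) ∈ T := ⟨le_rfl, fun ρ ha hb β => by simpa using I1 ρ ha hb β⟩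
  have hbd : BddAbove T := by
    obtain ⟨T0, hT0⟩ := bdd
    exact ⟨T0, fun t ht => hT0 t ht.1 ht.2⟩
  set s := sSup T with hs
  have hs0 : 0 ≤ s := le_csSup hbd hz
  have hsT : ∀ ρ : ℝ, 0 < ρ → ρ < 1 → ∀ β, K (ρ • (Φ0 β + s • Φ1 β)) := by
    intro ρ ha hb β
    rcases hs0.eq_or_lt with h | h
    · rw [← h]; exact hz.2 ρ ha hb β
    · have hρ' : 0 < (ρ + 1) / 2 := by linarith
      have hlt : ρ * s / ((ρ + 1) / 2) < s := by
        rw [div_lt_iff₀ hρ']; nlinarith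
      obtain ⟨t, ht, hlt'⟩ := exists_lt_of_lt_csSup ⟨0, hz⟩ hlt
      rw [div_lt_iff₀ hρ'] at hlt'
      exact drop _ _ (hnn ρ s β ha.le hs0) (hle ρ s ((ρ + 1) / 2) t β (by linarith) (by linarith))
        (ht.2 _ hρ' (by linarith) β)
  refine ⟨s, hs0, hsT, ?_⟩
  by_contra hcon
  push Not at hcon
  have hloc : ∀ β0, ∀ᶠ q in 𝓝 β0 ×ˢ 𝓝[>] s, K (Φ0 q.1 + q.2 • Φ1 q.1) := by
    intro β0
    obtain ⟨η, hη, hK⟩ := hcon β0
    obtain ⟨c, hc, hK'⟩ := sk β0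
    set l : ℝ := (1 + η / 2) / (1 + η) with hl
    have hη1 : 0 < 1 + η := by linarith
    have hl0 : 0 ≤ l := by positivity
    have hl1 : l < 1 := by rw [hl, div_lt_one hη1]; linarith
    have hη2 : 0 < 1 + η / 2 := by linarith
    set t : ℝ := s + (1 - l) * c / (1 + η / 2) with ht
    have hst : s < t := by
      have : 0 < (1 - l) * c / (1 + η / 2) := div_pos (mul_pos (by linarith) hc) hη2
      linarith
    have h2 := conv _ _ l (hnn _ s β0 hη1.le hs0) (smul_nonneg hc.le (h1 β0)) hl0 hl1.le hK hK'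
    have h3 : l • (1 + η) • (Φ0 β0 + s • Φ1 β0) + (1 - l) • c • Φ1 β0 =
        (1 + η / 2) • (Φ0 β0 + t • Φ1 β0) := by
      have e1 : l * (1 + η) = 1 + η / 2 := by rw [hl]; field_simp
      have e2 : (1 + η / 2) * t = (1 + η / 2) * s + (1 - l) * c := by rw [ht]; field_simp
      rw [smul_smul, smul_smul, e1, smul_add, smul_add, smul_smul, smul_smul, e2,
        add_smul ((1 + η / 2) * s), add_assoc]
    rw [h3] at h2
    have h4 := semi t (hs0.trans hst.le) β0 _ (by linarith) h2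
    filter_upwards [h4.prod_mk (Ioo_mem_nhdsGT hst)] with q hq
    have h5 := hle 1 q.2 1 t q.1 le_rfl (by linarith [hq.2.2])
    have h6 := hnn 1 q.2 q.1 zero_le_one (hs0.trans hq.2.1.le)
    rw [one_smul] at h6
    rw [one_smul, one_smul] at h5
    exact drop _ _ h6 h5 hq.1
  obtain ⟨t, ht, hst⟩ := ((eventually_forall_of_compact (𝓝[>] s)
    (fun β t => K (Φ0 β + t • Φ1 β)) hloc).and self_mem_nhdsWithin).exists
  have hst' : s < t := hst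
  have htT : t ∈ T := ⟨hs0.trans hst'.le, fun ρ ha hb β => by
    have h5 := hle ρ t 1 t β hb.le (mul_le_mul_of_nonneg_right hb.le (hs0.trans hst'.le))
    rw [one_smul] at h5
    exact drop _ _ (hnn ρ t β ha.le (hs0.trans hst'.le)) h5 (ht β)⟩
  exact absurd (le_csSup hbd htT) (not_le.mpr hst')

end Pool.Agent.Lib.MP_9ff3e7_ag.F
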