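import Pool.Agent.Lib.MP_9ff3e7_ag.F.StDefs
import Pool.Agent.Lib.MP_9ff3e7_ag.F.Fam
import Pool.Agent.Lib.MP_9ff3e7_ag.F.GaugeAbs

/-! Uniform semicontinuity on the family of flags, and the critical coefficient of a new series. -/

set_option autoImplicit false

namespace Pool.Agent.Lib.MP_9ff3e7_ag.F

open Filter Topology Finsupp Finset Module

section free

variable {O : Type} [CommRing O] [Algebra ℂ O]

theorem Gauge.phi_nonneg {L : ℕ} (N : ℕ → ℕ) (F : ℕ → ℕ → Submodule ℂ O) {c : ℕ → ℝ}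
    (hc : ∀ i < L, 0 ≤ c i) : 0 ≤ Phi L N F c :=
  sum_nonneg fun i hi => sum_nonneg fun _ _ => single_nonneg.mpr (hc i (mem_range.mp hi))

theorem Gauge.smul_phi (L : ℕ) (N : ℕ → ℕ) (F : ℕ → ℕ → Submodule ℂ O) (c : ℕ → ℝ) (ρ : ℝ) :
    ρ • Phi L N F c = Phi L N F fun i => ρ * c i := by
  simp [Phi, Finset.smul_sum]

theorem Gauge.phi_congr {L : ℕ} {N : ℕ → ℕ} {F F' : ℕ → ℕ → Submodule ℂ O} {c c' : ℕ → ℝ}
    (hc : ∀ i < L, c i = c' i) (h : ∀ i < L, ∀ r < N i, F i r = F' i r) :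
    Phi L N F c = Phi L N F' c' :=
  sum_congr rfl fun i hi => sum_congr rfl fun r hr => by
    rw [h i (mem_range.mp hi) r (mem_range.mp hr), hc i (mem_range.mp hi)]

theorem Gauge.phi_update (j : ℕ) (N : ℕ → ℕ) (F : ℕ → ℕ → Submodule ℂ O) (c : ℕ → ℝ) (t : ℝ) :
    Phi (j + 1) N F (Function.update c j t) =
      Phi j N F c + t • ∑ r ∈ range (N j), single (Ideal.span (F j r : Set O)) (1 : ℝ) := by
  rw [Phi, sum_range_succ, Function.update_self, Finset.smul_sum]
  congr 1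
  · exact Gauge.phi_congr (fun i hi => Function.update_of_ne hi.ne _ _) fun _ _ _ _ => rfl
  · simp

theorem Gauge.pure_le_nhd {p : Pnt O} : pure p ≤ nhd p := by
  rw [nhd, ← map_le_iff_le_comap, map_pure]
  exact pure_le_nhds _

end free

variable {n : ℕ} {O : Type} [CommRing O] [Algebra ℂ O] [Algebra (MvPolynomial (Fin n) ℂ) O]
  {M : Model n O} {T : Filt n O} {x : Pnt O} {S : Dat O} {c : ℕ → ℝ} {j L : ℕ}

/-- the family of flags is the image of a compact space on which klt is uniformly open -/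
theorem fam_param (hK : KAx0 M) (hS : Ser T S L) :
    ∃ (B : Type) (_ : TopologicalSpace B) (_ : CompactSpace B) (fl : B → ℕ → ℕ → Submodule ℂ O),
      (∀ β, S.Fam T L (fl β)) ∧
      (∀ F, S.Fam T L F → ∃ β, ∀ i < L, ∀ r ≤ S.N i, fl β i r = F i r) ∧
      ∀ (c : ℕ → ℝ) (β₀ : B) (p : Pnt O) (ρ : ℝ), (∀ i < L, 0 ≤ c i) → 1 < ρ →
        M.Klt p (ρ • Phi L S.N (fl β₀) c) →
        ∀ᶠ q in 𝓝 β₀ ×ˢ nhd p, M.Klt q.2 (Phi L S.N (fl q.1) c) := by
  classical
  have hV := T.fd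
  have hle : ∀ {V C : Submodule ℂ O} {N : ℕ} {F : ℕ → Submodule ℂ O}, IsFlag V C N F →
      ∀ r ≤ N, F r ≤ V := fun h r hr => h.top ▸ h.anti 0 r (Nat.zero_le r) hr
  have hex := fun i : Fin L => exists_frames (T.F (S.k i)) (S.Br i) (S.F0 i)
    fun r hr => ⟨hle (hS.flag i i.2) r (hS.brle i i.2 r hr),
      (hS.flag i i.2).dim r (hS.brle i i.2 r hr)⟩
  choose D e Bs hD he hc h1 h2 using hex
  have hcs : ∀ i, CompactSpace (Bs i) := fun i => isCompact_iff_compactSpace.mp (hc i)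
  let fl : (∀ i, Bs i) → ℕ → ℕ → Submodule ℂ O := fun β i r =>
    if h : i < L then frFlag (e ⟨i, h⟩) (β ⟨i, h⟩) r else S.F0 i r
  have hfl : ∀ β (i : Fin L) r, fl β i r = frFlag (e i) (β i) r := fun β i r => dif_pos i.2
  refine ⟨∀ i, Bs i, inferInstance, inferInstance, fl, ?_, ?_, ?_⟩
  · intro β i hi
    obtain ⟨ha, -, hd, hg⟩ := h1 ⟨i, hi⟩ (β ⟨i, hi⟩) (β ⟨i, hi⟩).2
    have hN : S.N i ≤ D ⟨i, hi⟩ := by
      have := (hS.flag i hi).dim (S.N i) le_rfl
      rw [hD]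
      simp only
      omega
    have hf := hfl β ⟨i, hi⟩
    simp only at hf hd hg
    refine ⟨⟨?_, ?_, fun r r' hr _ => ?_, fun r hr => ?_⟩, fun r hr => ?_⟩
    · rw [hf, hg 0 (hS.br0 i hi), (hS.flag i hi).top]
    · rw [hf, hg _ (hS.brN i hi), (hS.flag i hi).bot]
    · rw [hf, hf]; exact ha hr
    · rw [hf]; exact hd r (hr.trans hN)
    · rw [hf]; exact hg r hr
  · intro F hF
    have hu := fun i : Fin L => h2 i (S.N i) (F i) (hS.brle i i.2) (hF i i.2).1.anti
      (fun r hr => ⟨hle (hF i i.2).1 r hr, (hF i i.2).1.dim r hr⟩) (hF i i.2).2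
    choose u hu hu' using hu
    exact ⟨fun i => ⟨u i, hu i⟩, fun i hi r hr =>
      (hfl (fun i => ⟨u i, hu i⟩) ⟨i, hi⟩ r).trans (hu' ⟨i, hi⟩ r hr)⟩
  · intro c β₀ p ρ hc0 hρ hk
    let f : (∀ i, Bs i) → ∀ a : (Σ i : Fin L, Fin (S.N i)), Fin (D a.1) → O := fun β a =>
      frGen (e a.1) (β a.1) a.2
    have hsum : ∀ β, ∑ a : (Σ i : Fin L, Fin (S.N i)),
        single (Ideal.span (Set.range (f β a))) (c a.1) = Phi L S.N (fl β) c := by
      intro β
      rw [Fintype.sum_sigma, Phi, ← Fin.sum_univ_eq_sum_range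
        (fun i => ∑ r ∈ range (S.N i), single (Ideal.span (fl β i r : Set O)) (c i)) L]
      refine sum_congr rfl fun i _ => ?_
      rw [← Fin.sum_univ_eq_sum_range
        (fun r => single (Ideal.span (fl β i r : Set O)) (c i)) (S.N i)]
      refine sum_congr rfl fun r _ => ?_
      rw [hfl, frFlag]
      congr 1
      exact (Submodule.span_span_of_tower ℂ O _).symm
    have h := hK.semi (∀ i, Bs i) (Σ i : Fin L, Fin (S.N i)) (fun a => Fin (D a.1))
      (⨆ i : Fin L, T.F (S.k i)) f (fun a => c a.1) β₀ p ρ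
      (fun β a s => Submodule.mem_iSup_of_mem a.1
        (Submodule.sum_mem _ fun l _ => Submodule.smul_mem _ _ (he a.1 l)))
      (fun l a s => ?_) (fun a => hc0 a.1 a.1.2) hρ (by rwa [hsum])
    · simpa only [hsum] using h
    · simp only [f, frGen, map_sum, map_smul, smul_eq_mul]
      refine (continuous_finsetSum _ fun l' _ => Continuous.mul ?_ continuous_const).continuousAt
      exact (continuous_frCoef a.2 s l').comp (continuous_subtype_val.comp (continuous_apply a.1))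

/-- MAIN INEQUALITY (a): one neighbourhood for all flags -/
theorem main_a (hK : KAx M) (hS : Ser T S L) (hc : ∀ i < L, 0 ≤ c i) (h1 : I1 M T x S L c)
    {ρ : ℝ} (h0 : 0 < ρ) (hρ : ρ < 1) :
    ∀ᶠ y in nhd x, ∀ F, S.Fam T L F → M.Klt y (Phi L S.N F fun i => ρ * c i) := by
  obtain ⟨B, _, _, fl, hin, hsur, hsemi⟩ := fam_param hK.toKAx0 hS
  have hloc : ∀ β₀ : B, ∀ᶠ q in 𝓝 β₀ ×ˢ nhd x,
      M.Klt q.2 (Phi L S.N (fl q.1) fun i => ρ * c i) := by
    intro β₀
    refine hsemi _ β₀ x ((1 + ρ) / 2 / ρ) (fun i hi => mul_nonneg h0.le (hc i hi))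
      (by rw [lt_div_iff₀ h0]; linarith) ?_
    rw [← Gauge.smul_phi, smul_smul, div_mul_cancel₀ _ h0.ne', Gauge.smul_phi]
    exact h1 _ (by linarith) (by linarith) _ (hin β₀)
  refine (eventually_forall_of_compact (nhd x)
    (fun β y => M.Klt y (Phi L S.N (fl β) fun i => ρ * c i)) hloc).mono fun y hy F hF => ?_
  obtain ⟨β, hβ⟩ := hsur F hF
  rw [Gauge.phi_congr (fun _ _ => rfl) fun i hi r hr => (hβ i hi r hr.le).symm]
  exact hy β

/-- a small multiple of a sum of non zero ideals is klt -/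
theorem Gauge.small_sum (hK : KAx0 M) (p : Pnt O) (I : ℕ → Ideal O) (N : ℕ)
    (hI : ∀ r < N, I r ≠ ⊥) :
    ∃ c : ℝ, 0 < c ∧ M.Klt p (c • ∑ r ∈ range N, single (I r) (1 : ℝ)) := by
  induction N with
  | zero => exact ⟨1, one_pos, by simpa using hK.zero p⟩
  | succ N ih =>
    obtain ⟨c, hc, h⟩ := ih fun r hr => hI r (by omega)
    obtain ⟨c', hc', h'⟩ := hK.skoda p (I N) (hI N (by omega))
    have hS : (0 : Ideal O →₀ ℝ) ≤ ∑ r ∈ range N, single (I r) (1 : ℝ) :=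
      sum_nonneg fun _ _ => single_nonneg.mpr zero_le_one
    have h1 : (0 : Ideal O →₀ ℝ) ≤ single (I N) (1 : ℝ) := single_nonneg.mpr zero_le_one
    have hm : 0 < min c c' / 2 := half_pos (lt_min hc hc')
    have h2 := hK.convex p _ _ (1 / 2) (smul_nonneg hc.le hS) (single_nonneg.mpr hc'.le)
      (by norm_num) (by norm_num) h h'
    refine ⟨min c c' / 2, hm, hK.drop p _ _ ?_ ?_ h2⟩
    · rw [sum_range_succ]
      exact smul_nonneg hm.le (add_nonneg hS h1)
    · have e1 : (single (I N) c' : Ideal O →₀ ℝ) = c' • single (I N) (1 : ℝ) := by simp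
      rw [sum_range_succ, smul_add, e1, smul_smul, smul_smul]
      exact add_le_add (smul_le_smul_of_nonneg_right (by linarith [min_le_left c c']) hS)
        (smul_le_smul_of_nonneg_right (by linarith [min_le_right c c']) h1)

/-- GAUGE: the critical coefficient of the series `j` and a critical tuple of flags -/
theorem gauge (hK : KAx M) (hS : Ser T S (j + 1)) (hc : ∀ i < j, 0 ≤ c i)
    (h0 : I1 M T x S (j + 1) (Function.update c j 0))
    (hb : ∃ t0 : ℝ, ∀ t, 0 ≤ t → I1 M T x S (j + 1) (Function.update c j t) → t ≤ t0) :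
    ∃ t : ℝ, 0 ≤ t ∧ I1 M T x S (j + 1) (Function.update c j t) ∧ ∃ F, S.Fam T (j + 1) F ∧
      ∀ η : ℝ, 0 < η →
        ¬ M.Klt x (Phi (j + 1) S.N F fun i => (1 + η) * Function.update c j t i) := by
  classical
  obtain ⟨B, _, _, fl, hin, hsur, hsemi⟩ := fam_param hK.toKAx0 hS
  have hup : ∀ t : ℝ, 0 ≤ t → ∀ i < j + 1, 0 ≤ Function.update c j t i := by
    intro t ht i hi
    rcases (Nat.lt_succ_iff.mp hi).eq_or_lt with e | e
    · rw [e, Function.update_self]; exact ht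
    · rw [Function.update_of_ne e.ne]; exact hc i e
  have hI : ∀ t : ℝ, (∀ ρ : ℝ, 0 < ρ → ρ < 1 → ∀ β, M.Klt x (ρ • (Phi j S.N (fl β) c +
      t • ∑ r ∈ range (S.N j), single (Ideal.span (fl β j r : Set O)) (1 : ℝ)))) →
      I1 M T x S (j + 1) (Function.update c j t) := by
    intro t h ρ hρ0 hρ F hF
    obtain ⟨β, hβ⟩ := hsur F hF
    rw [Gauge.phi_congr (fun _ _ => rfl) fun i hi r hr => (hβ i hi r hr.le).symm,
      ← Gauge.smul_phi, Gauge.phi_update]
    exact h ρ hρ0 hρ β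
  obtain ⟨t, ht, h1, β, h2⟩ := gauge_abs (B := B) (M.Klt x) (fun β => Phi j S.N (fl β) c)
    (fun β => ∑ r ∈ range (S.N j), single (Ideal.span (fl β j r : Set O)) (1 : ℝ))
    (fun β => Gauge.phi_nonneg _ _ hc)
    (fun β => sum_nonneg fun _ _ => single_nonneg.mpr zero_le_one) (hK.drop x) (hK.convex x)
    (fun β => Gauge.small_sum hK.toKAx0 x _ _ fun r hr hb => by
      have h1 := (hin β j (Nat.lt_succ_self j)).1.dim r hr.le
      have h2 := (hin β j (Nat.lt_succ_self j)).1.dim _ le_rfl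
      have h3 : fl β j r = ⊥ := by
        rw [eq_bot_iff]
        intro s hs
        exact (Ideal.span_eq_bot.mp hb s hs : s = 0)
      rw [h3, finrank_bot] at h1
      omega)
    (fun t ht β₀ ρ hρ hk => by
      rw [← Gauge.phi_update] at hk
      have h1 := hsemi _ β₀ x ρ (hup t ht) hρ hk
      have h2 : Tendsto (fun β : B => (β, x)) (𝓝 β₀) (𝓝 β₀ ×ˢ nhd x) :=
        tendsto_id.prodMk (tendsto_const_pure.mono_right Gauge.pure_le_nhd)
      simpa only [Gauge.phi_update] using h2.eventually h1)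
    (fun ρ hρ0 hρ β => by
      have h1 := h0 ρ hρ0 hρ _ (hin β)
      rwa [← Gauge.smul_phi, Gauge.phi_update, zero_smul, add_zero] at h1)
    (by
      obtain ⟨t0, ht0⟩ := hb
      exact ⟨t0, fun t ht hk => ht0 t ht (hI t hk)⟩)
  refine ⟨t, ht, hI t h1, fl β, hin β, fun η hη => ?_⟩
  rw [← Gauge.smul_phi, Gauge.phi_update]
  exact h2 η hη

end Pool.Agent.Lib.MP_9ff3e7_ag.F
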