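import Pool.Agent.Lib.MP_9ff3e7_ag.F.Gauge
import Pool.Agent.Lib.MP_9ff3e7_ag.F.FlagChain

/-! The coefficient of a new series is bounded. -/

set_option autoImplicit false

namespace Pool.Agent.Lib.MP_9ff3e7_ag.F

open Finsupp Finset Module

variable {n : ℕ} {O : Type} [CommRing O] [Algebra ℂ O] [Algebra (MvPolynomial (Fin n) ℂ) O]
  {M : Model n O} {T : Filt n O} {x : Pnt O} {S : Dat O} {c : ℕ → ℝ} {j : ℕ}

/-- an ideal vanishing at `x` has threshold below `n` -/
theorem Gauge.lt_of_le_ker (hK : KAx0 M) (hn : 1 ≤ n) (x : Pnt O) {a : Ideal O}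
    (ha : a ≤ RingHom.ker x) {t : ℝ} (ht : 0 ≤ t) (h : M.Klt x (single a t)) : t < n := by
  have h1 := hK.mono x 0 _ _ t le_rfl ht (leAt_of_le x ha) (by simpa using h)
  have h2 := hK.mono x 0 _ _ t le_rfl ht (hK.kerle x) h1
  have h3 := hK.k3 x univ t ⟨⟨0, hn⟩, mem_univ _⟩ (by simpa [mz] using h2)
  simpa using h3

/-- the hypothesis `hb` of `gauge`, for a series with trivial breaks -/
theorem gauge_bdd (hK : KAx M) (hn : 1 ≤ n) (hS : Ser T S (j + 1)) (hc : ∀ i < j, 0 ≤ c i)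
    (hBr : ∀ r ∈ S.Br j, r = 0 ∨ r = S.N j) (hP : ∀ s ∈ S.P j, x s = 0)
    (hs : ∃ s ∈ T.F (S.k j), x s = 0 ∧ s ∉ S.P j) :
    ∃ t0 : ℝ, ∀ t, 0 ≤ t → I1 M T x S (j + 1) (Function.update c j t) → t ≤ t0 := by
  classical
  refine ⟨2 * n, fun t ht hk => ?_⟩
  obtain ⟨s, hsV, hsx, hsG⟩ := hs
  have hj := hS.flag j (Nat.lt_succ_self j)
  let W : Submodule ℂ O := T.F (S.k j) ⊓ LinearMap.ker x.toLinearMap
  have hCW : S.cap T j ≤ W := fun a ha => ⟨ha.1, hP a ha.2⟩
  have hWV : W ≤ T.F (S.k j) := inf_le_left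
  have hfd := T.fd (S.k j)
  have hfW : FiniteDimensional ℂ W := Submodule.finiteDimensional_of_le hWV
  have hsW : s ∈ W := ⟨hsV, hsx⟩
  have hlt : finrank ℂ (S.cap T j) < finrank ℂ W :=
    Submodule.finrank_lt_finrank_of_lt (lt_of_le_of_ne hCW fun e => hsG (e ▸ hsW : s ∈ S.cap T j).2)
  have hle : finrank ℂ W ≤ finrank ℂ (T.F (S.k j)) := Submodule.finrank_mono hWV
  have hN := hj.dim (S.N j) le_rfl
  rw [hj.bot] at hN
  obtain ⟨Fj, a0, a1, a2, a3, a4⟩ := exists_flag_of_chain (T.F (S.k j)) (S.cap T j) inf_le_left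
    (S.N j) hN {W} Set.subsingleton_singleton.isChain (by rintro S rfl; exact ⟨hCW, hWV⟩)
  have hF : S.Fam T (j + 1) (Function.update S.F0 j Fj) := fun i hi => by
    rcases (Nat.lt_succ_iff.mp hi).eq_or_lt with e | e
    · rw [e, Function.update_self]
      refine ⟨⟨a0, a1 _ le_rfl, fun r r' hr _ => a2 hr, a3⟩, fun r hr => ?_⟩
      rcases hBr r hr with e | e
      · rw [e, a0, hj.top]
      · rw [e, a1 _ le_rfl, hj.bot]
    · rw [Function.update_of_ne e.ne]; exact hS.fam i hi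
  have hr : finrank ℂ (T.F (S.k j)) - finrank ℂ W < S.N j := by omega
  have hW : Function.update S.F0 j Fj j (finrank ℂ (T.F (S.k j)) - finrank ℂ W) = W := by
    rw [Function.update_self]
    exact a4 W rfl _ hr.le (by omega)
  have h3 := hk (1 / 2) (by norm_num) (by norm_num) _ hF
  rw [← Gauge.smul_phi, Gauge.phi_update] at h3
  have h4 : M.Klt x (single (Ideal.span (W : Set O)) (1 / 2 * t)) := by
    refine hK.drop x _ _ (single_nonneg.mpr (by positivity)) ?_ h3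
    have e1 : (single (Ideal.span (W : Set O)) (1 / 2 * t) : Ideal O →₀ ℝ) =
        (1 / 2 : ℝ) • t • single (Ideal.span (W : Set O)) (1 : ℝ) := by simp
    rw [e1]
    refine smul_le_smul_of_nonneg_left ?_ (by norm_num)
    refine le_add_of_nonneg_of_le (Gauge.phi_nonneg _ _ hc) (smul_le_smul_of_nonneg_left ?_ ht)
    rw [← hW]
    exact single_le_sum
      (f := fun r => single (Ideal.span (Function.update S.F0 j Fj j r : Set O)) (1 : ℝ))
      (fun _ _ => single_nonneg.mpr zero_le_one) (mem_range.mpr hr)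
  have h5 := Gauge.lt_of_le_ker hK.toKAx0 hn x (Ideal.span_le.mpr fun a ha => ha.2)
    (by positivity) h4
  linarith

end Pool.Agent.Lib.MP_9ff3e7_ag.F
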