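import Pool.Agent.Lib.MP_9ff3e7_ag.F.HDefs

/-! From the estimate on the whole space to the estimate on polydiscs (gluing of weights). -/

set_option autoImplicit false

namespace Pool.Agent.Lib.MP_9ff3e7_ag.F

open Complex MeasureTheory Metric Filter Topology
open scoped ContDiff

noncomputable section

namespace HB

variable {ι : Type} [Fintype ι]

/-- the real inner product of `ℂ^ι` -/
def bil : (ι → ℂ) →L[ℝ] (ι → ℂ) →L[ℝ] ℝ :=
  ∑ i, (innerSL ℝ (E := ℂ)).bilinearComp (ContinuousLinearMap.proj (R := ℝ) (φ := fun _ : ι => ℂ) i)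
    (ContinuousLinearMap.proj (R := ℝ) (φ := fun _ : ι => ℂ) i)

lemma bil_apply (u v : ι → ℂ) : bil u v = ∑ i, inner ℝ (u i) (v i) := by
  simp [bil]

lemma bil_symm (u v : ι → ℂ) : bil u v = bil v u := by
  simp only [bil_apply]
  exact Finset.sum_congr rfl fun i _ => real_inner_comm _ _

lemma bil_self (u : ι → ℂ) : bil u u = ∑ i, ‖u i‖ ^ 2 := by
  simp only [bil_apply]
  exact Finset.sum_congr rfl fun i _ => real_inner_self_eq_norm_sq _

lemma norm_sq_le_bil (u : ι → ℂ) : ‖u‖ ^ 2 ≤ bil u u := by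
  rw [bil_self]
  have h0 : 0 ≤ ∑ i, ‖u i‖ ^ 2 := Finset.sum_nonneg fun i _ => sq_nonneg _
  have : ‖u‖ ≤ Real.sqrt (∑ i, ‖u i‖ ^ 2) := by
    refine (pi_norm_le_iff_of_nonneg (Real.sqrt_nonneg _)).2 fun i => ?_
    refine Real.le_sqrt_of_sq_le ?_
    exact Finset.single_le_sum (f := fun i => ‖u i‖ ^ 2) (fun j _ => sq_nonneg _) (Finset.mem_univ i)
  calc ‖u‖ ^ 2 ≤ (Real.sqrt (∑ i, ‖u i‖ ^ 2)) ^ 2 := by gcongr
    _ = _ := Real.sq_sqrt h0

lemma bil_le (u : ι → ℂ) {r : ℝ} (h : ‖u‖ ≤ r) : bil u u ≤ (Fintype.card ι : ℝ) * r ^ 2 := by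
  rw [bil_self]
  calc ∑ i, ‖u i‖ ^ 2 ≤ ∑ _i : ι, r ^ 2 := by
        refine Finset.sum_le_sum fun i _ => ?_
        have := (norm_le_pi_norm u i).trans h
        gcongr
    _ = _ := by simp

/-- squared euclidean distance from `x0` -/
def rho (x0 x : ι → ℂ) : ℝ := bil (x - x0) (x - x0)

lemma rho_smooth (x0 : ι → ℂ) : ContDiff ℝ ∞ (rho x0) := by
  unfold rho
  have h : ContDiff ℝ ∞ fun x : ι → ℂ => x - x0 := contDiff_id.sub contDiff_const
  exact (bil.contDiff.comp h).clm_apply h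

lemma rho_der (x0 x : ι → ℂ) : HasFDerivAt (rho x0) ((2 : ℝ) • bil (x - x0)) x := by
  have h : HasFDerivAt (fun x : ι → ℂ => x - x0) (ContinuousLinearMap.id ℝ (ι → ℂ)) x :=
    (hasFDerivAt_id x).sub_const x0
  have h1 : HasFDerivAt (fun x : ι → ℂ => bil (x - x0))
      ((bil : (ι → ℂ) →L[ℝ] (ι → ℂ) →L[ℝ] ℝ).comp (ContinuousLinearMap.id ℝ (ι → ℂ))) x :=
    (bil : (ι → ℂ) →L[ℝ] (ι → ℂ) →L[ℝ] ℝ).hasFDerivAt.comp x h
  have h2 : HasFDerivAt (rho x0) _ x := h1.clm_apply h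
  refine h2.congr_fderiv (ContinuousLinearMap.ext fun v => ?_)
  simp [bil_symm v x, bil_symm v x0]
  ring

lemma levi_rad (x0 : ι → ℂ) {g : ℝ → ℝ} (hg : ContDiff ℝ ∞ g) (h1 : ∀ t, 0 ≤ deriv g t)
    (h2 : ∀ t, 0 ≤ deriv (deriv g) t) (x ξ : ι → ℂ) :
    deriv g (rho x0 x) * ‖ξ‖ ^ 2 ≤ levi (fun y => g (rho x0 y)) x ξ := by
  have hd : Differentiable ℝ g := (contDiff_infty_iff_deriv.1 hg).1
  have hd2 : Differentiable ℝ (deriv g) :=
    (contDiff_infty_iff_deriv.1 (contDiff_infty_iff_deriv.1 hg).2).1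
  have e1 : fderiv ℝ (fun y => g (rho x0 y)) =
      fun y => (2 * deriv g (rho x0 y)) • bil (y - x0) := by
    funext y
    have := (hd (rho x0 y)).hasDerivAt.comp_hasFDerivAt y (rho_der x0 y)
    rw [show (fun y => g (rho x0 y)) = g ∘ rho x0 from rfl, this.fderiv, smul_smul, mul_comm]
  have h : HasFDerivAt (fun x : ι → ℂ => x - x0) (ContinuousLinearMap.id ℝ (ι → ℂ)) x :=
    (hasFDerivAt_id x).sub_const x0
  have a1 : HasFDerivAt (fun x : ι → ℂ => bil (x - x0))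
      ((bil : (ι → ℂ) →L[ℝ] (ι → ℂ) →L[ℝ] ℝ).comp (ContinuousLinearMap.id ℝ (ι → ℂ))) x :=
    (bil : (ι → ℂ) →L[ℝ] (ι → ℂ) →L[ℝ] ℝ).hasFDerivAt.comp x h
  have a2 : HasFDerivAt (fun y => 2 * deriv g (rho x0 y))
      ((2 : ℝ) • (deriv (deriv g) (rho x0 x) • ((2 : ℝ) • bil (x - x0)))) x :=
    ((hd2 (rho x0 x)).hasDerivAt.comp_hasFDerivAt x (rho_der x0 x)).const_mul 2
  have a3 := (a2.smul a1).fderiv
  have key : ∀ v : ι → ℂ, 2 * deriv g (rho x0 x) * ‖v‖ ^ 2 ≤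
      fderiv ℝ (fderiv ℝ fun y => g (rho x0 y)) x v v := by
    intro v
    rw [e1]
    erw [a3]
    have b1 := norm_sq_le_bil v
    have b2 := h1 (rho x0 x)
    have b3 := h2 (rho x0 x)
    simp only [add_apply, smul_apply,
      ContinuousLinearMap.comp_apply, ContinuousLinearMap.id_apply, smul_eq_mul,
      ContinuousLinearMap.smulRight_apply]
    have b4 : 0 ≤ deriv (deriv g) (rho x0 x) * (bil (x - x0) v) ^ 2 := by positivity
    nlinarith [mul_le_mul_of_nonneg_left b1 b2]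
  have k1 := key ξ
  have k2 := key (I • ξ)
  rw [norm_smul, norm_I, one_mul] at k2
  unfold levi
  linarith

lemma levi_add_mul {φ ψ : (ι → ℂ) → ℝ} (hφ : ContDiff ℝ ∞ φ) (hψ : ContDiff ℝ ∞ ψ) (K : ℝ)
    (x ξ : ι → ℂ) :
    levi (fun y => φ y + K * ψ y) x ξ = levi φ x ξ + K * levi ψ x ξ := by
  have d1 : Differentiable ℝ φ := hφ.differentiable (by simp)
  have d2 : Differentiable ℝ ψ := hψ.differentiable (by simp)
  have d3 : Differentiable ℝ (fderiv ℝ φ) :=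
    (hφ.fderiv_right (m := ∞) (by simp)).differentiable (by simp)
  have d4 : Differentiable ℝ (fderiv ℝ ψ) :=
    (hψ.fderiv_right (m := ∞) (by simp)).differentiable (by simp)
  have e1 : fderiv ℝ (fun y => φ y + K * ψ y) = fun y => fderiv ℝ φ y + K • fderiv ℝ ψ y := by
    funext y
    exact ((d1 y).hasFDerivAt.add ((d2 y).hasFDerivAt.const_mul K)).fderiv
  have e2 : fderiv ℝ (fun y => fderiv ℝ φ y + K • fderiv ℝ ψ y) x =
      fderiv ℝ (fderiv ℝ φ) x + K • fderiv ℝ (fderiv ℝ ψ) x :=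
    ((d3 x).hasFDerivAt.add ((d4 x).hasFDerivAt.const_smul K)).fderiv
  unfold levi
  rw [e1, e2]
  simp only [add_apply, smul_apply, smul_eq_mul]
  ring

omit [Fintype ι] in
lemma levi_congr {φ ψ : (ι → ℂ) → ℝ} {x : ι → ℂ} (h : φ =ᶠ[𝓝 x] ψ) (ξ : ι → ℂ) :
    levi φ x ξ = levi ψ x ξ := by
  unfold levi
  rw [(h.fderiv (𝕜 := ℝ)).fderiv_eq]

omit [Fintype ι] in
lemma dbar_congr {φ ψ : (ι → ℂ) → ℂ} {x : ι → ℂ} (h : φ =ᶠ[𝓝 x] ψ) (ξ : ι → ℂ) :
    dbar φ x ξ = dbar ψ x ξ := by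
  unfold dbar
  rw [h.fderiv_eq]

lemma fd1 {D E : Type} [NormedAddCommGroup D] [NormedSpace ℝ D] [NormedAddCommGroup E]
    [NormedSpace ℝ E] {f : D → E} (hf : ContDiff ℝ ∞ f) (hc : HasCompactSupport f) :
    ∃ C : ℝ, 0 ≤ C ∧ ∀ x v, ‖fderiv ℝ f x v‖ ≤ C * ‖v‖ := by
  have c2 : Continuous (fderiv ℝ f) := hf.continuous_fderiv (by simp)
  obtain ⟨C, hC⟩ := c2.bounded_above_of_compact_support (hc.fderiv ℝ)
  exact ⟨C, (norm_nonneg _).trans (hC 0), fun x v =>
    ((fderiv ℝ f x).le_opNorm v).trans (by gcongr; exact hC x)⟩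

lemma fderiv_bound {D E : Type} [NormedAddCommGroup D] [NormedSpace ℝ D] [NormedAddCommGroup E]
    [NormedSpace ℝ E] {f : D → E} (hf : ContDiff ℝ ∞ f) (hc : HasCompactSupport f) :
    ∃ C : ℝ, 0 ≤ C ∧ ∀ x v, ‖fderiv ℝ (fderiv ℝ f) x v v‖ ≤ C * ‖v‖ ^ 2 := by
  have h1 : ContDiff ℝ ∞ (fderiv ℝ f) := hf.fderiv_right (m := ∞) (by simp)
  obtain ⟨C, C0, hC⟩ := fd1 h1 (hc.fderiv ℝ)
  refine ⟨C, C0, fun x v => ?_⟩
  refine ((fderiv ℝ (fderiv ℝ f) x v).le_opNorm v).trans ?_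
  rw [sq, ← mul_assoc]
  exact mul_le_mul_of_nonneg_right (hC x v) (norm_nonneg _)

lemma levi_bound {φ : (ι → ℂ) → ℝ} (hφ : ContDiff ℝ ∞ φ) (hc : HasCompactSupport φ) :
    ∃ C : ℝ, 0 ≤ C ∧ ∀ x ξ, -(C * ‖ξ‖ ^ 2) ≤ levi φ x ξ := by
  obtain ⟨C, C0, hC⟩ := fderiv_bound hφ hc
  refine ⟨C, C0, fun x ξ => ?_⟩
  have key : ∀ v : ι → ℂ, -(C * ‖v‖ ^ 2) ≤ fderiv ℝ (fderiv ℝ φ) x v v := by
    intro v
    have := hC x v
    rw [Real.norm_eq_abs] at this
    exact (abs_le.1 this).1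
  have k1 := key ξ
  have k2 := key (I • ξ)
  rw [norm_smul, norm_I, one_mul] at k2
  have : 0 ≤ C * ‖ξ‖ ^ 2 := by positivity
  unfold levi
  linarith

lemma dbar_bound {f : (ι → ℂ) → ℂ} (hf : ContDiff ℝ ∞ f) (hc : HasCompactSupport f) :
    ∃ C : ℝ, 0 ≤ C ∧ ∀ x ξ, ‖dbar f x ξ‖ ^ 2 ≤ C * ‖ξ‖ ^ 2 := by
  have c2 : Continuous (fderiv ℝ f) := hf.continuous_fderiv (by simp)
  obtain ⟨C, hC⟩ := c2.bounded_above_of_compact_support (hc.fderiv ℝ)
  have C0 : 0 ≤ C := (norm_nonneg _).trans (hC 0)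
  refine ⟨C ^ 2, sq_nonneg _, fun x ξ => ?_⟩
  have key : ∀ v : ι → ℂ, ‖fderiv ℝ f x v‖ ≤ C * ‖v‖ := fun v =>
    ((fderiv ℝ f x).le_opNorm v).trans (by gcongr; exact hC x)
  have k1 := key ξ
  have k2 := key (I • ξ)
  rw [norm_smul, norm_I, one_mul] at k2
  have : ‖dbar f x ξ‖ ≤ C * ‖ξ‖ := by
    unfold dbar
    rw [norm_div]
    have := norm_add_le (fderiv ℝ f x ξ) (I * fderiv ℝ f x (I • ξ))
    rw [norm_mul, norm_I, one_mul] at this
    have h2 : ‖(2 : ℂ)‖ = 2 := by simp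
    rw [h2]
    linarith
  calc ‖dbar f x ξ‖ ^ 2 ≤ (C * ‖ξ‖) ^ 2 := by gcongr
    _ = _ := by ring

/-- a convex function that vanishes up to `a` and has slope one from `a + d` on -/
lemma exists_ramp (a : ℝ) {d : ℝ} (hd : 0 < d) :
    ∃ g : ℝ → ℝ, ContDiff ℝ ∞ g ∧ (∀ t, 0 ≤ deriv g t) ∧ (∀ t, 0 ≤ deriv (deriv g) t) ∧
      (∀ t, 0 ≤ g t) ∧ (∀ t ≤ a, g t = 0) ∧ (∀ t, a + d ≤ t → deriv g t = 1) ∧
      ∀ t, a + 2 * d ≤ t → d ≤ g t := by
  set s : ℝ → ℝ := fun t => Real.smoothTransition ((t - a) / d) with hs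
  have sm : ContDiff ℝ ∞ s :=
    Real.smoothTransition.contDiff.comp ((contDiff_id.sub contDiff_const).div_const d)
  have sc : Continuous s := sm.continuous
  have mono : Monotone s := fun u v huv =>
    Real.smoothTransition.monotone (by gcongr)
  have s0 : ∀ t, 0 ≤ s t := fun t => Real.smoothTransition.nonneg _
  have sz : ∀ t ≤ a, s t = 0 := fun t ht =>
    Real.smoothTransition.zero_of_nonpos (div_nonpos_of_nonpos_of_nonneg (by linarith) hd.le)
  have s1 : ∀ t, a + d ≤ t → s t = 1 := fun t ht =>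
    Real.smoothTransition.one_of_one_le ((one_le_div hd).2 (by linarith))
  have hder : ∀ t, HasDerivAt (fun u => ∫ x in a..u, s x) (s t) t := fun t =>
    (sc.integral_hasStrictDerivAt a t).hasDerivAt
  have e : deriv (fun u => ∫ x in a..u, s x) = s := funext fun t => (hder t).deriv
  have gz : ∀ t ≤ a, ∫ x in a..t, s x = 0 := by
    intro t ht
    rw [intervalIntegral.integral_congr (g := fun _ => (0 : ℝ))]
    · simp
    · intro x hx
      rw [Set.uIcc_of_ge ht] at hx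
      exact sz x hx.2
  have g0 : ∀ t, 0 ≤ ∫ x in a..t, s x := by
    intro t
    rcases le_total t a with ht | ht
    · rw [gz t ht]
    · exact intervalIntegral.integral_nonneg ht fun x _ => s0 x
  refine ⟨fun u => ∫ x in a..u, s x, ?_, ?_, ?_, g0, gz, ?_, ?_⟩
  · exact contDiff_infty_iff_deriv.2 ⟨fun t => (hder t).differentiableAt, by rw [e]; exact sm⟩
  · intro t; rw [e]; exact s0 t
  · intro t; rw [e]; exact mono.deriv_nonneg
  · intro t ht; rw [e]; exact s1 t ht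
  · intro t ht
    have h1 := intervalIntegral.integral_add_adjacent_intervals (μ := volume)
      (sc.intervalIntegrable a (a + d)) (sc.intervalIntegrable (a + d) t)
    have h2 : ∫ x in (a + d)..t, s x = t - (a + d) := by
      rw [intervalIntegral.integral_congr (g := fun _ => (1 : ℝ))]
      · simp
      · intro x hx
        rw [Set.uIcc_of_le (by linarith)] at hx
        exact s1 x hx.1
    have h3 := g0 (a + d)
    show d ≤ ∫ x in a..t, s x
    linarith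

lemma mem_ball_of_rho {x0 x : ι → ℂ} {R : ℝ} (hR : 0 < R) (h : rho x0 x < R ^ 2) :
    x ∈ ball x0 R := by
  rw [mem_ball, dist_eq_norm]
  have := norm_sq_le_bil (x - x0)
  exact lt_of_pow_lt_pow_left₀ 2 hR.le (lt_of_le_of_lt this h)

/-- multiplication by a cutoff makes a function on the ball a global smooth function -/
lemma cut {E : Type} [NormedAddCommGroup E] [NormedSpace ℝ E] (x0 : ι → ℂ) {R b d : ℝ}
    (hR : 0 < R) (hd : 0 < d) (hb : b < R ^ 2) {f : (ι → ℂ) → E}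
    (hf : ContDiffOn ℝ ∞ f (ball x0 R)) :
    ∃ f1 : (ι → ℂ) → E, ContDiff ℝ ∞ f1 ∧ HasCompactSupport f1 ∧
      (∀ x, rho x0 x ≤ b - d → f1 x = f x) ∧ ∀ x, b ≤ rho x0 x → f1 x = 0 := by
  set c : (ι → ℂ) → ℝ := fun x => Real.smoothTransition ((b - rho x0 x) / d) with hc
  have cm : ContDiff ℝ ∞ c :=
    Real.smoothTransition.contDiff.comp ((contDiff_const.sub (rho_smooth x0)).div_const d)
  have z : ∀ x, b ≤ rho x0 x → c x • f x = 0 := by
    intro x hx
    have : c x = 0 :=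
      Real.smoothTransition.zero_of_nonpos (div_nonpos_of_nonpos_of_nonneg (by linarith) hd.le)
    rw [this, zero_smul]
  refine ⟨fun x => c x • f x, ?_, ?_, ?_, z⟩
  · refine contDiff_iff_contDiffAt.2 fun x => ?_
    rcases lt_or_ge (rho x0 x) (R ^ 2) with hx | hx
    · exact cm.contDiffAt.smul
        (hf.contDiffAt (isOpen_ball.mem_nhds (mem_ball_of_rho hR hx)))
    · have ev : ∀ᶠ y in 𝓝 x, b < rho x0 y :=
        (rho_smooth x0).continuous.continuousAt.eventually (lt_mem_nhds (hb.trans_le hx))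
      refine (contDiffAt_const (c := (0 : E))).congr_of_eventuallyEq ?_
      filter_upwards [ev] with y hy using z y hy.le
  · refine HasCompactSupport.intro (isCompact_closedBall x0 R) fun x hx => z x ?_
    by_contra h
    exact hx (ball_subset_closedBall (mem_ball_of_rho hR ((not_le.1 h).trans hb)))
  · intro x hx
    have : c x = 1 := Real.smoothTransition.one_of_one_le ((one_le_div hd).2 (by linarith))
    simp only [this, one_smul]

end HB

/-- the statement of the estimate on the whole space -/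
def HormSt (ι : Type) [Fintype ι] : Prop :=
  ∀ (φ : (ι → ℂ) → ℝ) (_ : ContDiff ℝ ∞ φ) (_ : ∀ x ξ, 0 ≤ levi φ x ξ)
    (f : (ι → ℂ) → ℂ) (_ : ContDiff ℝ ∞ f) (_ : HasCompactSupport f)
    (h : (ι → ℂ) → ℝ) (_ : Measurable h) (_ : ∀ x, 0 ≤ h x)
    (_ : ∀ x ξ, ‖dbar f x ξ‖ ^ 2 ≤ h x * levi φ x ξ),
    ∃ F : (ι → ℂ) → ℂ, Differentiable ℂ F ∧
      ∫⁻ x, ENNReal.ofReal (‖F x - f x‖ ^ 2 * Real.exp (-φ x)) ≤
        ∫⁻ x, ENNReal.ofReal (h x * Real.exp (-φ x))

open HB in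
theorem hormander_ball_of {ι : Type} [Fintype ι] (H : HormSt ι) (x0 : ι → ℂ) {r R : ℝ}
    (hR0 : 0 < R) (hR : (Fintype.card ι : ℝ) * r ^ 2 < R ^ 2)
    (φ : (ι → ℂ) → ℝ) (hφ : ContDiffOn ℝ ∞ φ (ball x0 R))
    (hpsh : ∀ x ∈ ball x0 R, ∀ ξ, 0 ≤ levi φ x ξ)
    (f : (ι → ℂ) → ℂ) (hf : ContDiffOn ℝ ∞ f (ball x0 R))
    (h : (ι → ℂ) → ℝ) (hm : Measurable h) (h0 : ∀ x, 0 ≤ h x)
    (hb : ∀ x ∈ ball x0 R, ∀ ξ, ‖dbar f x ξ‖ ^ 2 ≤ h x * levi φ x ξ)
    {η : ℝ} (hη : 0 < η) :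
    ∃ F : (ι → ℂ) → ℂ, Differentiable ℂ F ∧
      ∫⁻ x in ball x0 r, ENNReal.ofReal (‖F x - f x‖ ^ 2 * Real.exp (-φ x)) ≤
        (∫⁻ x in ball x0 R, ENNReal.ofReal (h x * Real.exp (-φ x))) + ENNReal.ofReal η := by
  set a : ℝ := (Fintype.card ι : ℝ) * r ^ 2 with ha
  set d : ℝ := (R ^ 2 - a) / 4 with hdd
  have hd : 0 < d := by rw [hdd]; linarith
  have hbR : a + 3 * d < R ^ 2 := by rw [hdd]; linarith
  obtain ⟨g, gs, g1, g2, g0, gz, go, gd⟩ := exists_ramp a hd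
  obtain ⟨φ1, p1, p2, p3, p4⟩ := cut x0 hR0 hd hbR hφ
  obtain ⟨f1, q1, q2, q3, q4⟩ := cut x0 hR0 hd hbR hf
  obtain ⟨C, C0, hC⟩ := levi_bound p1 p2
  obtain ⟨M, M0, hM⟩ := dbar_bound q1 q2
  obtain ⟨B, hB⟩ : ∃ B, ∀ x, ‖φ1 x‖ ≤ B := p1.continuous.bounded_above_of_compact_support p2
  set V : ℝ := (volume (closedBall x0 R)).toReal with hV
  have V0 : 0 ≤ V := ENNReal.toReal_nonneg
  have Vf : volume (closedBall x0 R) ≠ ⊤ := (isCompact_closedBall x0 R).measure_lt_top.ne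
  set K : ℝ := C + 1 + V * M * Real.exp B / (η * d) with hK
  have K1 : 0 ≤ V * M * Real.exp B / (η * d) := by positivity
  have K0 : 0 < K := by rw [hK]; linarith
  have rc : Continuous (rho x0) := (rho_smooth x0).continuous
  have Gs : ContDiff ℝ ∞ fun y => g (rho x0 y) := gs.comp (rho_smooth x0)
  set Φ : (ι → ℂ) → ℝ := fun y => φ1 y + K * g (rho x0 y) with hΦ
  have Φs : ContDiff ℝ ∞ Φ := p1.add (contDiff_const.mul Gs)
  have LΦ : ∀ x ξ, levi φ1 x ξ + K * (deriv g (rho x0 x) * ‖ξ‖ ^ 2) ≤ levi Φ x ξ := by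
    intro x ξ
    rw [hΦ, levi_add_mul p1 Gs K x ξ]
    have := levi_rad x0 gs g1 g2 x ξ
    gcongr
  have pos : ∀ x (ξ : ι → ℂ), 0 ≤ K * (deriv g (rho x0 x) * ‖ξ‖ ^ 2) := fun x ξ => by
    have := g1 (rho x0 x)
    positivity
  -- inner region
  have inn : ∀ x, rho x0 x < a + 2 * d →
      x ∈ ball x0 R ∧ (∀ ξ, levi φ x ξ ≤ levi Φ x ξ) ∧ ∀ ξ, dbar f1 x ξ = dbar f x ξ := by
    intro x hx
    have ev : ∀ᶠ y in 𝓝 x, rho x0 y < a + 2 * d := rc.continuousAt.eventually (gt_mem_nhds hx)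
    refine ⟨mem_ball_of_rho hR0 (by linarith), fun ξ => ?_, fun ξ => ?_⟩
    · have e : φ1 =ᶠ[𝓝 x] φ := by
        filter_upwards [ev] with y hy using p3 y (by linarith)
      have := LΦ x ξ
      rw [levi_congr e ξ] at this
      linarith [pos x ξ]
    · have e : f1 =ᶠ[𝓝 x] f := by
        filter_upwards [ev] with y hy using q3 y (by linarith)
      exact dbar_congr e ξ
  -- outer region
  have out : ∀ x, a + 2 * d ≤ rho x0 x → ∀ ξ, ‖ξ‖ ^ 2 ≤ levi Φ x ξ := by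
    intro x hx ξ
    have h1 := LΦ x ξ
    rw [go _ (by linarith), one_mul] at h1
    have h2 := hC x ξ
    have h3 : (C + 1) * ‖ξ‖ ^ 2 ≤ K * ‖ξ‖ ^ 2 := by
      gcongr
      rw [hK]; linarith
    linarith
  set h1 : (ι → ℂ) → ℝ := fun x =>
    if rho x0 x < a + 2 * d then h x else if rho x0 x ≤ a + 3 * d then M else 0 with hh1
  have m1 : Measurable h1 :=
    Measurable.ite (measurableSet_lt rc.measurable measurable_const) hm
      (Measurable.ite (measurableSet_le rc.measurable measurable_const) measurable_const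
        measurable_const)
  have n1 : ∀ x, 0 ≤ h1 x := by
    intro x
    simp only [hh1]
    split_ifs
    · exact h0 x
    · exact M0
    · exact le_rfl
  obtain ⟨F, F1, F2⟩ := H Φ Φs (fun x ξ => by
      rcases lt_or_ge (rho x0 x) (a + 2 * d) with hx | hx
      · exact (hpsh x (inn x hx).1 ξ).trans ((inn x hx).2.1 ξ)
      · exact (sq_nonneg _).trans (out x hx ξ)) f1 q1 q2 h1 m1 n1 (fun x ξ => by
      simp only [hh1]
      split_ifs with hx hx2
      · obtain ⟨i1, i2, i3⟩ := inn x hx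
        rw [i3 ξ]
        exact (hb x i1 ξ).trans (mul_le_mul_of_nonneg_left (i2 ξ) (h0 x))
      · exact (hM x ξ).trans (mul_le_mul_of_nonneg_left (out x (not_lt.1 hx) ξ) M0)
      · have ev : ∀ᶠ y in 𝓝 x, a + 3 * d < rho x0 y :=
          rc.continuousAt.eventually (lt_mem_nhds (not_le.1 hx2))
        have e : f1 =ᶠ[𝓝 x] fun _ => (0 : ℂ) := by
          filter_upwards [ev] with y hy using q4 y hy.le
        rw [dbar_congr e ξ]
        simp [dbar])
  refine ⟨F, F1, ?_⟩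
  have L : ∫⁻ x in ball x0 r, ENNReal.ofReal (‖F x - f x‖ ^ 2 * Real.exp (-φ x)) =
      ∫⁻ x in ball x0 r, ENNReal.ofReal (‖F x - f1 x‖ ^ 2 * Real.exp (-Φ x)) := by
    refine setLIntegral_congr_fun measurableSet_ball fun x hx => ?_
    have hx1 : rho x0 x ≤ a := by
      rw [mem_ball, dist_eq_norm] at hx
      exact bil_le _ hx.le
    simp only [hΦ]
    rw [q3 x (by linarith), p3 x (by linarith), gz _ hx1, mul_zero, add_zero]
  have P : ∀ x, ENNReal.ofReal (h1 x * Real.exp (-Φ x)) ≤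
      (ball x0 R).indicator (fun x => ENNReal.ofReal (h x * Real.exp (-φ x))) x +
        (closedBall x0 R).indicator (fun _ => ENNReal.ofReal (M * Real.exp B / (K * d))) x := by
    intro x
    simp only [hh1]
    split_ifs with hx hx2
    · rw [Set.indicator_of_mem (inn x hx).1]
      refine le_add_right (ENNReal.ofReal_le_ofReal ?_)
      refine mul_le_mul_of_nonneg_left (Real.exp_le_exp.2 ?_) (h0 x)
      simp only [hΦ]
      rw [p3 x (by linarith)]
      have := mul_nonneg K0.le (g0 (rho x0 x))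
      linarith
    · rw [Set.indicator_of_mem (ball_subset_closedBall (mem_ball_of_rho hR0 (by linarith)))]
      refine le_add_left (ENNReal.ofReal_le_ofReal ?_)
      rw [mul_div_assoc]
      refine mul_le_mul_of_nonneg_left ?_ M0
      have e1 : -Φ x ≤ B - K * d := by
        simp only [hΦ]
        have := neg_abs_le (φ1 x)
        have h2 := hB x
        rw [Real.norm_eq_abs] at h2
        have h3 := mul_le_mul_of_nonneg_left (gd _ (not_lt.1 hx)) K0.le
        linarith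
      refine (Real.exp_le_exp.2 e1).trans ?_
      rw [Real.exp_sub]
      have := Real.add_one_le_exp (K * d)
      have h4 : 0 < K * d := by positivity
      gcongr
      linarith
    · simp
  calc _ = _ := L
    _ ≤ ∫⁻ x, ENNReal.ofReal (‖F x - f1 x‖ ^ 2 * Real.exp (-Φ x)) := setLIntegral_le_lintegral _ _
    _ ≤ _ := F2
    _ ≤ _ := lintegral_mono P
    _ = (∫⁻ x in ball x0 R, ENNReal.ofReal (h x * Real.exp (-φ x))) +
          ENNReal.ofReal (M * Real.exp B / (K * d)) * volume (closedBall x0 R) := by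
        rw [lintegral_add_right _ (measurable_const.indicator measurableSet_closedBall),
          lintegral_indicator measurableSet_ball, lintegral_indicator measurableSet_closedBall,
          setLIntegral_const]
    _ ≤ _ := by
        gcongr
        rw [← ENNReal.ofReal_toReal Vf, ← hV, ← ENNReal.ofReal_mul (by positivity)]
        refine ENNReal.ofReal_le_ofReal ?_
        rw [div_mul_eq_mul_div, div_le_iff₀ (by positivity)]
        have h5 : V * M * Real.exp B / (η * d) ≤ K := by rw [hK]; linarith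
        rw [div_le_iff₀ (by positivity)] at h5
        nlinarith

end

end Pool.Agent.Lib.MP_9ff3e7_ag.F
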