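import Mathlib

/-! `∂̄` and the Levi form on `ℂ^M`, in coordinate free form. -/

set_option autoImplicit false

namespace Pool.Agent.Lib.MP_9ff3e7_ag.F

open Complex

noncomputable section

variable {ι : Type} [Fintype ι]

/-- the antilinear part of the real derivative: `∑ ∂f/∂z̄_j * conj (ξ j)` -/
def dbar (f : (ι → ℂ) → ℂ) (x ξ : ι → ℂ) : ℂ :=
  (fderiv ℝ f x ξ + I * fderiv ℝ f x (I • ξ)) / 2

/-- the Levi form `∑ ∂²φ/∂z_j∂z̄_k * ξ j * conj (ξ k)` -/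
def levi (φ : (ι → ℂ) → ℝ) (x ξ : ι → ℂ) : ℝ :=
  (fderiv ℝ (fderiv ℝ φ) x ξ ξ + fderiv ℝ (fderiv ℝ φ) x (I • ξ) (I • ξ)) / 4

end

end Pool.Agent.Lib.MP_9ff3e7_ag.F
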