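import Pool.Agent.Lib.MP_9ff3e7_ag.F.HDefs

/-! Coordinate operators `∂_j`, `∂̄_j` and the weighted Laplacian on functions. -/

set_option autoImplicit false

namespace Pool.Agent.Lib.MP_9ff3e7_ag.F

open Complex

noncomputable section

variable {ι : Type} [Fintype ι] [DecidableEq ι]

/-- `∂f/∂z_j` -/
def dz (j : ι) (f : (ι → ℂ) → ℂ) (x : ι → ℂ) : ℂ :=
  (fderiv ℝ f x (Pi.single j 1) - I * fderiv ℝ f x (Pi.single j I)) / 2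

/-- `∂f/∂z̄_j` -/
def dzb (j : ι) (f : (ι → ℂ) → ℂ) (x : ι → ℂ) : ℂ :=
  (fderiv ℝ f x (Pi.single j 1) + I * fderiv ℝ f x (Pi.single j I)) / 2

/-- `- ∑ (∂_j - φ_j) ∂̄_j v` -/
def box (φ : (ι → ℂ) → ℝ) (v : (ι → ℂ) → ℂ) (x : ι → ℂ) : ℂ :=
  ∑ j, (dz j (fun y => (φ y : ℂ)) x * dzb j v x - dz j (dzb j v) x)

end

end Pool.Agent.Lib.MP_9ff3e7_ag.F
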