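import Mathlib

/-! Numerical lemmas for the Hilbert function bound (helper23). -/

namespace Pool.Agent.Lib.MP_9ff3e7_ag.F

open Finset

/-- A power series that is a polynomial. -/
def IsPoly (F : PowerSeries ℤ) : Prop := ∃ Q : Polynomial ℤ, F = (Q : PowerSeries ℤ)

/-- Polynomials that multiply a series into a polynomial. -/
def polyId (H : PowerSeries ℤ) : Ideal (Polynomial ℤ) where
  carrier := {P | IsPoly ((P : PowerSeries ℤ) * H)}
  zero_mem' := ⟨0, by simp⟩
  add_mem' := by
    rintro a b ⟨Q1, h1⟩ ⟨Q2, h2⟩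
    exact ⟨Q1 + Q2, by simp [add_mul, h1, h2]⟩
  smul_mem' := by
    rintro c a ⟨Q, h⟩
    exact ⟨c * Q, by simp [mul_assoc, h]⟩

lemma one_sub_pow_poly (H : PowerSeries ℤ) {k a p q : ℕ} (hk : 0 < k) (hco : Nat.Coprime a k)
    (h1 : IsPoly ((1 - PowerSeries.X ^ k) ^ p * H))
    (h2 : IsPoly ((1 - PowerSeries.X ^ a) ^ q * H)) :
    ∃ L : ℕ, IsPoly ((1 - PowerSeries.X) ^ L * H) := by
  have e1 : (1 - Polynomial.X ^ k : Polynomial ℤ) ∈ (polyId H).radical :=
    ⟨p, by obtain ⟨Q, h⟩ := h1; exact ⟨Q, by simpa using h⟩⟩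
  have e2 : (1 - Polynomial.X ^ a : Polynomial ℤ) ∈ (polyId H).radical :=
    ⟨q, by obtain ⟨Q, h⟩ := h2; exact ⟨Q, by simpa using h⟩⟩
  have e3 : (1 - Polynomial.X : Polynomial ℤ) ∈ (polyId H).radical := by
    rcases Nat.lt_or_ge 1 k with hk1 | hk1
    · obtain ⟨m, -, hm⟩ := Nat.exists_mul_mod_eq_one_of_coprime hco hk1
      have hd := Nat.div_add_mod (a * m) k
      rw [hm] at hd
      set n := a * m / k
      have f1 : (1 - Polynomial.X ^ (a * m) : Polynomial ℤ) ∈ (polyId H).radical := by
        rw [pow_mul, ← mul_neg_geom_sum]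
        exact Ideal.mul_mem_right _ _ e2
      have f2 : (1 - Polynomial.X ^ (k * n) : Polynomial ℤ) ∈ (polyId H).radical := by
        rw [pow_mul, ← mul_neg_geom_sum]
        exact Ideal.mul_mem_right _ _ e1
      have : (1 - Polynomial.X : Polynomial ℤ) =
          (1 - Polynomial.X ^ (a * m)) - Polynomial.X * (1 - Polynomial.X ^ (k * n)) := by
        rw [← hd, pow_succ]; ring
      rw [this]
      exact Ideal.sub_mem _ f1 (Ideal.mul_mem_left _ _ f2)
    · have : k = 1 := by omega
      subst this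
      simpa using e1
  obtain ⟨L, Q, h⟩ := e3
  exact ⟨L, Q, by simpa using h⟩

/-- Two sided growth of order `D`. -/
def Grow (D : ℕ) (h : ℕ → ℤ) : Prop :=
  ∃ c C : ℕ, ∀ m, c ≤ m → (((m - c).choose D : ℕ) : ℤ) ≤ h m ∧ h m ≤ C * ((m : ℤ) + 1) ^ D

lemma choose_shift (D B : ℕ) : ∀ n, D ≤ n → n.choose (D + 1) + B ≤ (n + B).choose (D + 1) := by
  intro n hn
  induction B with
  | zero => simp
  | succ B ih =>
    have : 0 < (n + B).choose D := Nat.choose_pos (by omega)
    rw [← add_assoc n, Nat.choose_succ_succ']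
    omega

lemma Grow.step {D : ℕ} {h : ℕ → ℤ} (hg : Grow D fun m => h (m + 1) - h m) : Grow (D + 1) h := by
  obtain ⟨c, C, hc⟩ := hg
  set B := (h c).natAbs with hB
  have lo : ∀ j, ((j.choose (D + 1) : ℕ) : ℤ) - B ≤ h (c + j) := by
    intro j
    induction j with
    | zero => simp; omega
    | succ j ih =>
      have := (hc (c + j) (by omega)).1
      simp only [Nat.add_sub_cancel_left] at this
      rw [Nat.choose_succ_succ', ← add_assoc]
      push_cast
      linarith
  have hi : ∀ j, h (c + j) ≤ B + C * j * (((c + j : ℕ) : ℤ) + 1) ^ D := by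
    intro j
    induction j with
    | zero => simp; omega
    | succ j ih =>
      have h1 := (hc (c + j) (by omega)).2
      simp only at h1
      have h2 : (((c + j : ℕ) : ℤ) + 1) ^ D ≤ (((c + (j + 1) : ℕ) : ℤ) + 1) ^ D := by
        gcongr; omega
      have h3 : (0 : ℤ) ≤ C * ((j : ℤ) + 1) := by positivity
      have h4 := mul_le_mul_of_nonneg_left h2 h3
      rw [← add_assoc] at h4 ⊢
      push_cast at *
      nlinarith
  refine ⟨c + B + D, B + C, fun m hm => ⟨?_, ?_⟩⟩
  · obtain ⟨j, rfl⟩ : ∃ j, m = c + (D + j + B) := ⟨m - (c + B + D), by omega⟩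
    have h1 := lo (D + j + B)
    have h2 := choose_shift D B (D + j) (by omega)
    have h3 : (c + (D + j + B) - (c + B + D)).choose (D + 1) ≤ (D + j).choose (D + 1) :=
      Nat.choose_le_choose _ (by omega)
    omega
  · obtain ⟨j, rfl⟩ : ∃ j, m = c + j := ⟨m - c, by omega⟩
    have h1 := hi j
    set T : ℤ := ((c + j : ℕ) : ℤ) + 1 with hT
    have hT1 : 1 ≤ T := by omega
    have hj : (j : ℤ) ≤ T := by omega
    have h2 : 1 ≤ T ^ (D + 1) := one_le_pow₀ hT1
    have h3 : (C : ℤ) * j * T ^ D ≤ C * T ^ (D + 1) := by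
      rw [pow_succ', mul_assoc]; gcongr
    have h4 : (B : ℤ) ≤ B * T ^ (D + 1) := le_mul_of_one_le_right (by positivity) h2
    push_cast
    linarith

lemma grow_const {h : ℕ → ℤ} {c : ℕ} (hc : ∀ m, c ≤ m → h (m + 1) - h m = 0) (h0 : 0 < h c) :
    Grow 0 h := by
  have : ∀ j, h (c + j) = h c := by
    intro j
    induction j with
    | zero => rfl
    | succ j ih => have := hc (c + j) (by omega); rw [← add_assoc]; omega
  refine ⟨c, (h c).natAbs, fun m hm => ?_⟩
  obtain ⟨j, rfl⟩ : ∃ j, m = c + j := ⟨m - c, by omega⟩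
  rw [this]
  simp only [Nat.choose_zero_right, pow_zero, mul_one]
  omega

lemma trich (L : ℕ) : ∀ h : ℕ → ℤ, IsPoly ((1 - PowerSeries.X) ^ L * PowerSeries.mk h) →
    (∃ c, ∀ m, c ≤ m → h m = 0) ∨ ∃ D, Grow D h ∨ Grow D fun m => - h m := by
  induction L with
  | zero =>
    rintro h ⟨Q, hQ⟩
    refine Or.inl ⟨Q.natDegree + 1, fun m hm => ?_⟩
    have := congrArg (PowerSeries.coeff m) hQ
    simp only [pow_zero, one_mul, PowerSeries.coeff_mk, Polynomial.coeff_coe] at this
    rw [this, Polynomial.coeff_eq_zero_of_natDegree_lt (by omega)]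
  | succ L ih =>
    rintro h ⟨Q, hQ⟩
    have e : (1 - PowerSeries.X) * PowerSeries.mk h =
        PowerSeries.C (h 0) + PowerSeries.X * PowerSeries.mk fun m => h (m + 1) - h m := by
      ext m
      cases m with
      | zero => simp [sub_mul]
      | succ m =>
        rw [map_add, PowerSeries.coeff_C, if_neg (by omega)]
        simp [sub_mul, PowerSeries.coeff_succ_X_mul]
    have e2 : PowerSeries.X * ((1 - PowerSeries.X) ^ L * PowerSeries.mk fun m => h (m + 1) - h m) =
        ((Q - (1 - Polynomial.X) ^ L * Polynomial.C (h 0) : Polynomial ℤ) : PowerSeries ℤ) := by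
      rw [pow_succ, mul_assoc, e] at hQ
      simp only [Polynomial.coe_sub, Polynomial.coe_mul, Polynomial.coe_pow, Polynomial.coe_one,
        Polynomial.coe_X, Polynomial.coe_C]
      rw [← hQ]; ring
    have e3 : IsPoly ((1 - PowerSeries.X) ^ L * (PowerSeries.mk fun m => h (m + 1) - h m)) := by
      refine ⟨(Q - (1 - Polynomial.X) ^ L * Polynomial.C (h 0)).divX, ?_⟩
      ext m
      have := congrArg (PowerSeries.coeff (m + 1)) e2
      rw [PowerSeries.coeff_succ_X_mul] at this
      rw [this, Polynomial.coeff_coe, Polynomial.coeff_coe, Polynomial.coeff_divX]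
    rcases ih _ e3 with ⟨c, hc⟩ | ⟨D, hD | hD⟩
    · rcases lt_trichotomy (h c) 0 with h0 | h0 | h0
      · exact Or.inr ⟨0, Or.inr (grow_const (c := c) (fun m hm => by have := hc m hm; omega)
          (by omega))⟩
      · refine Or.inl ⟨c, fun m hm => ?_⟩
        obtain ⟨j, rfl⟩ : ∃ j, m = c + j := ⟨m - c, by omega⟩
        clear hm
        induction j with
        | zero => exact h0
        | succ j ih2 => have := hc (c + j) (by omega); rw [← add_assoc]; omega
      · exact Or.inr ⟨0, Or.inl (grow_const hc h0)⟩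
    · exact Or.inr ⟨D + 1, Or.inl hD.step⟩
    · refine Or.inr ⟨D + 1, Or.inr (Grow.step ?_)⟩
      simpa only [neg_sub_neg, neg_sub] using hD

lemma choose_down (d e n : ℕ) : n.choose d ≤ (n + e).choose (d + e) := by
  induction e with
  | zero => simp
  | succ e ih => rw [← add_assoc, ← add_assoc, Nat.choose_succ_succ']; omega

/-- The numerical lemma: a Hilbert function with poles only at one that grows at least like `m ^ d`
along an arithmetic progression is at least a shifted binomial coefficient. -/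
theorem choose_le_of_poly (h : ℕ → ℕ) (L : ℕ)
    (hQ : IsPoly ((1 - PowerSeries.X) ^ L * PowerSeries.mk (fun m => (h m : ℤ))))
    (d E : ℕ) (hE : 0 < E) (hlow : ∀ s, (s + 1) ^ d ≤ h (E * s)) :
    ∃ c, ∀ m, (m - c).choose d ≤ h m ∨ m < c := by
  rcases trich L _ hQ with ⟨c, hc⟩ | ⟨D, ⟨c, C, hc⟩ | ⟨c, C, hc⟩⟩
  · exfalso
    have h1 := hc (E * c) (Nat.le_mul_of_pos_left _ hE)
    have h2 := hlow c
    have : 0 < (c + 1) ^ d := by positivity
    omega
  · have hD : d ≤ D := by
      by_contra hlt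
      obtain ⟨e, rfl⟩ : ∃ e, d = D + 1 + e := ⟨d - D - 1, by omega⟩
      set s := c + C * E ^ D with hs
      have h1 := (hc (E * s) (le_trans (by omega) (Nat.le_mul_of_pos_left _ hE))).2
      have h1' : h (E * s) ≤ C * (E * s + 1) ^ D := by
        beta_reduce at h1
        exact_mod_cast h1
      have h2 := hlow s
      have h3 : (E * s + 1) ^ D ≤ E ^ D * (s + 1) ^ D := by
        rw [← mul_pow]; gcongr; nlinarith
      have h4 : (s + 1) ^ (D + 1) ≤ (s + 1) ^ (D + 1 + e) := Nat.pow_le_pow_right (by omega) (by omega)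
      have h5 : (s + 1) * (s + 1) ^ D ≤ C * E ^ D * (s + 1) ^ D := by
        rw [← pow_succ', mul_assoc]
        exact h4.trans (h2.trans (h1'.trans (Nat.mul_le_mul_left _ h3)))
      have := Nat.le_of_mul_le_mul_right h5 (by positivity)
      omega
    obtain ⟨e, rfl⟩ : ∃ e, D = d + e := ⟨D - d, by omega⟩
    refine ⟨c + e, fun m => ?_⟩
    rcases Nat.lt_or_ge m (c + e) with hm | hm
    · exact Or.inr hm
    · left
      have h1 := (hc m (by omega)).1
      have h2 := choose_down d e (m - (c + e))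
      rw [show m - (c + e) + e = m - c by omega] at h2
      beta_reduce at h1
      omega
  · exfalso
    have h1 := (hc (c + D) (by omega)).1
    have : 0 < (c + D - c).choose D := Nat.choose_pos (by omega)
    beta_reduce at h1
    omega

end Pool.Agent.Lib.MP_9ff3e7_ag.F
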