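import Mathlib

/-! Graded bookkeeping in a field, regular sections are polynomial after twisting (helper23). -/

namespace Pool.Agent.Lib.MP_9ff3e7_ag.F

open MvPolynomial Module

variable {L : Type} [Field L] [Algebra ℂ L] {σ ι : Type}

/-- The graded evaluation map. -/
noncomputable def psi (w : σ → ℕ) (v : σ → L) : MvPolynomial σ ℂ →ₐ[ℂ] Polynomial L :=
  aeval fun s => Polynomial.monomial (w s) (v s)

lemma psi_monomial (w : σ → ℕ) (v : σ → L) (d : σ →₀ ℕ) (c : ℂ) :
    psi w v (monomial d c) = Polynomial.monomial (Finsupp.weight w d) (aeval v (monomial d c)) := by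
  induction d using Finsupp.induction with
  | zero => simp [psi]
  | single_add a b f _ _ h =>
    rw [monomial_single_add, map_mul, map_mul, h, map_add, ← Polynomial.monomial_mul_monomial]
    simp [psi, Polynomial.monomial_pow, Finsupp.weight_single, mul_comm]

lemma psi_coeff (w : σ → ℕ) (v : σ → L) (p : MvPolynomial σ ℂ) (t : ℕ) :
    (psi w v p).coeff t = aeval v (weightedHomogeneousComponent w t p) := by
  induction p using MvPolynomial.induction_on' with
  | monomial d c =>
    rw [psi_monomial, Polynomial.coeff_monomial, weightedHomogeneousComponent_of_mem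
      (isWeightedHomogeneous_monomial w d c rfl)]
    by_cases h : Finsupp.weight w d = t
    · rw [if_pos h, if_pos h.symm]
    · rw [if_neg h, if_neg (Ne.symm h), map_zero]
  | add p q hp hq => simp [hp, hq]

lemma psi_hom {w : σ → ℕ} (v : σ → L) {p : MvPolynomial σ ℂ} {t : ℕ}
    (hp : p.IsWeightedHomogeneous w t) : psi w v p = Polynomial.monomial t (aeval v p) := by
  ext s
  rw [psi_coeff, Polynomial.coeff_monomial, weightedHomogeneousComponent_of_mem hp]
  by_cases h : t = s
  · rw [if_pos h, if_pos h.symm]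
  · rw [if_neg h, if_neg (Ne.symm h), map_zero]

lemma span_pow_eq (x : ι → L) (t : ℕ) : Submodule.span ℂ (Set.range x) ^ t =
    (homogeneousSubmodule ι ℂ t).map (aeval x).toLinearMap := by
  rw [← homogeneousSubmodule_one_pow, Submodule.map_pow, homogeneousSubmodule_one_eq_span_X,
    Submodule.map_span, ← Set.range_comp]
  congr 3
  ext i
  simp

lemma mem_span_pow {x : ι → L} {t : ℕ} {p : L} : p ∈ Submodule.span ℂ (Set.range x) ^ t ↔
    ∃ G : MvPolynomial ι ℂ, G.IsHomogeneous t ∧ aeval x G = p := by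
  rw [span_pow_eq]; rfl

lemma mul_mem_pow {V : Submodule ℂ L} {s t : ℕ} {p q : L} (hp : p ∈ V ^ s) (hq : q ∈ V ^ t) :
    p * q ∈ V ^ (s + t) := by
  rw [pow_add]; exact Submodule.mul_mem_mul hp hq

/-- Zeros of all homogeneous relations. -/
def OnCone (x : ι → L) (ξ : ι → ℂ) : Prop :=
  ∀ (n : ℕ) (G : MvPolynomial ι ℂ), G.IsHomogeneous n → aeval x G = 0 → eval ξ G = 0

/-- `u` is a section of `O(a)` regular at `ξ`. -/
def RegAt (x : ι → L) (a : ℕ) (u : L) (ξ : ι → ℂ) : Prop :=
  ∃ (n : ℕ) (D N : MvPolynomial ι ℂ), D.IsHomogeneous n ∧ N.IsHomogeneous (n + a) ∧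
    eval ξ D ≠ 0 ∧ u * aeval x D = aeval x N

theorem reg [Finite ι] (x : ι → L) (u : L) (a : ℕ) {h : MvPolynomial ι ℂ} {e : ℕ}
    (hh : h.IsHomogeneous e) (H : ∀ ξ, OnCone x ξ → eval ξ h ≠ 0 → RegAt x a u ξ) :
    ∃ r, u * aeval x h ^ r ∈ Submodule.span ℂ (Set.range x) ^ (a + e * r) := by
  let J : Ideal (MvPolynomial ι ℂ) :=
    { carrier := {p | Polynomial.monomial a u * psi 1 x p ∈ (psi 1 x).range}
      zero_mem' := ⟨0, by simp⟩
      add_mem' := fun {p q} hp hq => by
        simp only [Set.mem_ofPred_eq, map_add, mul_add] at *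
        exact Subalgebra.add_mem _ hp hq
      smul_mem' := fun c p hp => by
        simp only [Set.mem_ofPred_eq, smul_eq_mul, map_mul] at *
        rw [mul_left_comm]
        exact Subalgebra.mul_mem _ ⟨c, rfl⟩ hp }
  have mJ : ∀ p, p ∈ J ↔ Polynomial.monomial a u * psi 1 x p ∈ (psi 1 x).range := fun _ => Iff.rfl
  have : h ∈ J.radical := by
    rw [← vanishingIdeal_zeroLocus_eq_radical (K := ℂ), mem_vanishingIdeal_iff]
    intro ξ hξ
    by_contra h0
    obtain ⟨n, D, N, hD, hN, hD0, e1⟩ := H ξ (fun n G hG h1 => by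
      have := hξ G ((mJ G).2 (by rw [psi_hom x hG, h1]; simp))
      simpa [aeval_eq_eval] using this) (by simpa [aeval_eq_eval] using h0)
    have := hξ D ((mJ D).2 ⟨N, by
      rw [psi_hom x hD, Polynomial.monomial_mul_monomial, e1, add_comm]
      exact psi_hom x hN⟩)
    exact hD0 (by simpa [aeval_eq_eval] using this)
  obtain ⟨r, G, hG⟩ := this
  refine ⟨r, mem_span_pow.2 ⟨_, weightedHomogeneousComponent_isWeightedHomogeneous (a + e * r) G, ?_⟩⟩
  rw [← psi_coeff]
  change psi 1 x G = _ at hG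
  rw [hG, psi_hom x (hh.pow r), Polynomial.monomial_mul_monomial, Polynomial.coeff_monomial_same, map_pow]

/-- A section of `O(a)` regular at all points of the cone preserves the ring in high degree. -/
theorem reg_all [Fintype ι] (x : ι → L) (u : L) (a : ℕ)
    (H : ∀ ξ, ξ ≠ 0 → OnCone x ξ → RegAt x a u ξ) :
    ∃ n0, ∀ t, n0 ≤ t → ∀ p ∈ Submodule.span ℂ (Set.range x) ^ t,
      u * p ∈ Submodule.span ℂ (Set.range x) ^ (t + a) := by
  have := fun i => reg x u a (isHomogeneous_X ℂ i) fun ξ h1 h2 => H ξ (by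
    rintro rfl; simp at h2) h1
  choose r hr using this
  refine ⟨∑ i, r i + 1, fun t ht p hp => ?_⟩
  obtain ⟨G, hG, rfl⟩ := mem_span_pow.1 hp
  rw [G.as_sum, map_sum, Finset.mul_sum]
  refine Submodule.sum_mem _ fun d hd => ?_
  have h1 : d.degree = t := by
    by_contra h2
    exact mem_support_iff.1 hd (hG.coeff_eq_zero h2)
  obtain ⟨i, hi⟩ : ∃ i, r i ≤ d i := by
    by_contra h2
    push Not at h2
    have h3 : ∑ i, d i ≤ ∑ i, r i := Finset.sum_le_sum fun i _ => (h2 i).le
    rw [Finsupp.degree_eq_sum] at h1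
    omega
  have e1 := tsub_add_cancel_of_le (Finsupp.single_le_iff.2 hi)
  have e2 : monomial d (coeff d G) =
      X i ^ r i * monomial (d - Finsupp.single i (r i)) (coeff d G) := by
    rw [X_pow_eq_monomial, monomial_mul, one_mul, add_comm, e1]
  have e3 := congrArg Finsupp.degree e1
  rw [map_add, Finsupp.degree_single, h1] at e3
  have e4 := mul_mem_pow (hr i) (mem_span_pow.2 ⟨_, isHomogeneous_monomial
    (d := d - Finsupp.single i (r i)) (coeff d G) rfl, rfl⟩)
  rw [e2, map_mul, map_pow, ← mul_assoc]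
  rwa [show a + 1 * r i + (d - Finsupp.single i (r i)).degree = t + a by omega] at e4

end Pool.Agent.Lib.MP_9ff3e7_ag.F
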