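import Pool.Agent.Lib.MP_9ff3e7_ag.GHil
import Pool.Agent.Lib.MP_9ff3e7_ag.F.HilbA
import Pool.Agent.Lib.MP_9ff3e7_ag.F.X2Reg

/-! The Hilbert function of a variety polarised by `kA` grows like `(k t) ^ d / d!` (helper23). -/

namespace Pool.Agent.Lib.MP_9ff3e7_ag.F

open MvPolynomial Module

variable {L : Type} [Field L] [Algebra ℂ L] {σ ι κ : Type}

lemma hom_ker (w : σ → ℕ) (v : σ → L) : G.Hom w (RingHom.ker (psi w v)) := by
  intro p hp t
  rw [RingHom.mem_ker] at hp ⊢
  rw [psi_hom v (weightedHomogeneousComponent_isWeightedHomogeneous t p), ← psi_coeff, hp]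
  simp

lemma mem_ker_psi {w : σ → ℕ} {v : σ → L} {p : MvPolynomial σ ℂ} {t : ℕ}
    (hp : p.IsWeightedHomogeneous w t) : p ∈ RingHom.ker (psi w v) ↔ aeval v p = 0 := by
  rw [RingHom.mem_ker, psi_hom v hp, Polynomial.monomial_eq_zero_iff]

/-- The graded piece of the weighted ring. -/
noncomputable def wp (w : σ → ℕ) (v : σ → L) (t : ℕ) : Submodule ℂ L :=
  (weightedHomogeneousSubmodule ℂ w t).map (aeval v).toLinearMap

lemma wp_fin [Fintype σ] {w : σ → ℕ} (hw : ∀ i, 0 < w i) (v : σ → L) (t : ℕ) :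
    FiniteDimensional ℂ (wp w v t) := by
  have : FiniteDimensional ℂ (weightedHomogeneousSubmodule ℂ w t) :=
    Module.Finite.iff_fg.2 (weightedHomogeneousSubmodule_fg ℂ w (fun i => (hw i).ne') t)
  unfold wp
  infer_instance

lemma Hs_eq [Fintype σ] {w : σ → ℕ} (hw : ∀ i, 0 < w i) (v : σ → L) :
    G.Hs w (RingHom.ker (psi w v)) ⊤ = PowerSeries.mk fun t => (finrank ℂ (wp w v t) : ℤ) := by
  ext t
  have : FiniteDimensional ℂ (weightedHomogeneousSubmodule ℂ w t) :=
    Module.Finite.iff_fg.2 (weightedHomogeneousSubmodule_fg ℂ w (fun i => (hw i).ne') t)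
  have h1 := LinearMap.finrank_range_add_finrank_ker
    ((aeval v : MvPolynomial σ ℂ →ₐ[ℂ] L).toLinearMap.domRestrict (weightedHomogeneousSubmodule ℂ w t))
  rw [LinearMap.range_domRestrict, ← Submodule.finrank_map_subtype_eq] at h1
  have e1 : G.pc w ⊤ t = weightedHomogeneousSubmodule ℂ w t := by
    ext p; simp [G.mem_pc]
  have e2 : G.pc w (RingHom.ker (psi w v)) t = Submodule.map (weightedHomogeneousSubmodule ℂ w t).subtype
      (LinearMap.ker ((aeval v : MvPolynomial σ ℂ →ₐ[ℂ] L).toLinearMap.domRestrict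
        (weightedHomogeneousSubmodule ℂ w t))) := by
    ext p
    rw [G.mem_pc, Submodule.mem_map]
    constructor
    · rintro ⟨h2, h3⟩
      exact ⟨⟨p, h3⟩, (mem_ker_psi h3).1 h2, rfl⟩
    · rintro ⟨⟨q, hq⟩, h2, rfl⟩
      exact ⟨(mem_ker_psi hq).2 h2, hq⟩
  rw [G.Hs, PowerSeries.coeff_mk, PowerSeries.coeff_mk, e1, e2, wp]
  omega

lemma rename_hom {k a n : ℕ} {G : MvPolynomial ι ℂ} (hG : G.IsHomogeneous n) :
    (rename (Sum.inl : ι → ι ⊕ κ) G).IsWeightedHomogeneous
      (Sum.elim (fun _ => k) (fun _ => a)) (n * k) := by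
  have h1 : G ∈ homogeneousSubmodule ι ℂ 1 ^ n := by rw [homogeneousSubmodule_one_pow]; exact hG
  clear hG
  induction h1 using Submodule.pow_induction_on_left' with
  | algebraMap r => simpa using isWeightedHomogeneous_C _ r
  | add x y i _ _ hx hy => rw [map_add]; exact hx.add hy
  | mem_mul m hm i x _ hx =>
    rw [map_mul, Nat.succ_mul, add_comm]
    refine IsWeightedHomogeneous.mul ?_ hx
    rw [homogeneousSubmodule_one_eq_span_X] at hm
    induction hm using Submodule.span_induction with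
    | mem _ h => obtain ⟨i, rfl⟩ := h; rw [rename_X]; exact isWeightedHomogeneous_X ℂ _ _
    | zero => simpa using isWeightedHomogeneous_zero ℂ _ _
    | add _ _ _ _ h1 h2 => rw [map_add]; exact h1.add h2
    | smul c _ _ h => rw [map_smul]; exact (weightedHomogeneousSubmodule ℂ _ k).smul_mem c h

lemma pow_ne_bot {V : Submodule ℂ L} {x0 : L} (h0 : x0 ∈ V) (h1 : x0 ≠ 0) (t : ℕ) : V ^ t ≠ ⊥ :=
  fun h => pow_ne_zero t h1 (by simpa [h] using Submodule.pow_mem_pow V h0 t)

lemma span_pow_fin [Finite ι] (x : ι → L) (t : ℕ) :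
    FiniteDimensional ℂ ↥(Submodule.span ℂ (Set.range x) ^ t) :=
  Module.Finite.iff_fg.2 ((Submodule.fg_span (Set.finite_range x)).pow t)

/-- Determinant trick: the forms of degree `k` have no common zero. -/
lemma zero_of_left [Finite ι] (x : ι → L) (y : κ → L) {k a n0 : ℕ} (ha : 0 < a) (j : κ)
    (h0 : Submodule.span ℂ (Set.range x) ^ n0 ≠ ⊥)
    (H : ∀ p ∈ Submodule.span ℂ (Set.range x) ^ n0,
      y j ^ k * p ∈ Submodule.span ℂ (Set.range x) ^ (n0 + a))
    (η : ι ⊕ κ → ℂ)
    (hη : ∀ g ∈ RingHom.ker (psi (Sum.elim (fun _ => k) (fun _ => a)) (Sum.elim x y)), eval η g = 0)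
    (h1 : ∀ i, η (Sum.inl i) = 0) : η (Sum.inr j) = 0 := by
  classical
  set V := Submodule.span ℂ (Set.range x) with hV
  have := span_pow_fin x n0
  let b := Module.finBasis ℂ ↥(V ^ n0)
  have key : ∀ p ∈ V ^ a * V ^ n0, ∃ g : Fin (finrank ℂ ↥(V ^ n0)) → L, (∀ β, g β ∈ V ^ a) ∧
      p = ∑ β, g β * (b β : L) := by
    intro p hp
    refine Submodule.mul_induction_on hp (fun g hg q hq => ?_) ?_
    · refine ⟨fun β => b.repr ⟨q, hq⟩ β • g, fun β => Submodule.smul_mem _ _ hg, ?_⟩
      have := congrArg Subtype.val (b.sum_repr ⟨q, hq⟩)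
      simp only [AddSubmonoidClass.coe_finsetSum, SetLike.val_smul] at this
      conv_lhs => rw [← this, Finset.mul_sum]
      simp
    · rintro _ _ ⟨g, hg, rfl⟩ ⟨g', hg', rfl⟩
      exact ⟨g + g', fun β => Submodule.add_mem _ (hg β) (hg' β), by
        simp [add_mul, Finset.sum_add_distrib]⟩
  have k2 := fun α => key _ (by rw [← pow_add, add_comm]; exact H _ (b α).2)
  choose g hg hg2 using k2
  choose G hG hG2 using fun α β => mem_span_pow.1 (hg α β)
  let w : ι ⊕ κ → ℕ := Sum.elim (fun _ => k) (fun _ => a)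
  let A : Matrix (Fin (finrank ℂ ↥(V ^ n0))) (Fin (finrank ℂ ↥(V ^ n0))) (MvPolynomial (ι ⊕ κ) ℂ) :=
    Matrix.of fun α β => (if α = β then X (Sum.inr j) ^ k else 0) - rename Sum.inl (G α β)
  have hpos : 0 < finrank ℂ ↥(V ^ n0) := by
    rw [Nat.pos_iff_ne_zero, Ne, Submodule.finrank_eq_zero]; exact h0
  have hdet : A.det ∈ RingHom.ker (psi w (Sum.elim x y)) := by
    rw [RingHom.mem_ker, AlgHom.map_det, ← Matrix.exists_mulVec_eq_zero_iff]
    refine ⟨fun β => Polynomial.C (b β : L), fun h => ?_, ?_⟩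
    · have := congrFun h ⟨0, hpos⟩
      simp only [Pi.zero_apply, Polynomial.C_eq_zero, ZeroMemClass.coe_eq_zero] at this
      exact b.ne_zero _ this
    · ext1 α
      have e1 : psi w (Sum.elim x y) (X (Sum.inr j) ^ k) = Polynomial.monomial (a * k) (y j ^ k) := by
        simp [psi, w, Polynomial.monomial_pow]
      have e2 : ∀ β, psi w (Sum.elim x y) (rename Sum.inl (G α β)) =
          Polynomial.monomial (a * k) (g α β) := fun β => by
        rw [psi_hom _ (rename_hom (hG α β)), aeval_rename, ← hG2]; rfl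
      simp only [Matrix.mulVec, dotProduct, AlgHom.mapMatrix_apply, Matrix.map_apply, A,
        Matrix.of_apply, map_sub, e2, sub_mul, Finset.sum_sub_distrib, Pi.zero_apply,
        apply_ite (psi w (Sum.elim x y)), e1, map_zero, ite_mul, zero_mul, Finset.sum_ite_eq,
        Finset.mem_univ, if_true, Polynomial.monomial_mul_C]
      rw [← map_sum, ← hg2, sub_self]
  have h2 := hη _ hdet
  have h3 : (eval η).mapMatrix A = Matrix.diagonal fun _ => η (Sum.inr j) ^ k := by
    ext α β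
    have : eval η (rename Sum.inl (G α β)) = 0 := by
      rw [eval_rename, show η ∘ Sum.inl = 0 from funext h1, eval_zero]
      exact (hG α β).coeff_eq_zero (by simpa using ha.ne)
    simp [A, this, Matrix.diagonal_apply, apply_ite (eval η)]
  rw [RingHom.map_det, h3, Matrix.det_diagonal, Finset.prod_const] at h2
  exact eq_zero_of_pow_eq_zero (eq_zero_of_pow_eq_zero h2)

lemma succ_pow_le_choose (s d : ℕ) : (s + 1) ^ d ≤ (d * (s + 1)).choose d := by
  induction d with
  | zero => simp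
  | succ d ih =>
    obtain ⟨n, hn⟩ : ∃ n, (d + 1) * (s + 1) = n + 1 := ⟨d * (s + 1) + s, by ring⟩
    have h1 := Nat.add_one_mul_choose_eq n d
    have h2 : (d * (s + 1)).choose d ≤ n.choose d := Nat.choose_le_choose _ (by nlinarith)
    rw [hn, pow_succ]
    refine Nat.le_of_mul_le_mul_right (c := d + 1) ?_ (by omega)
    rw [← h1, ← hn]
    calc (s + 1) ^ d * (s + 1) * (d + 1) = (d + 1) * (s + 1) * (s + 1) ^ d := by ring
      _ ≤ _ := Nat.mul_le_mul_left _ (ih.trans h2)

theorem hilb_lower [Fintype ι] [Fintype κ] (x : ι → L) (y : κ → L) {k a : ℕ} (hk : 0 < k)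
    (ha : 0 < a) (hco : Nat.Coprime a k)
    (H1 : ∀ β : κ →₀ ℕ, β.degree = k → ∀ ξ, ξ ≠ 0 → OnCone x ξ →
      RegAt x a (β.prod fun j e => y j ^ e) ξ)
    (H2 : ∀ ξ, ξ ≠ 0 → OnCone x ξ → ∃ (j : κ) (n : ℕ) (D N : MvPolynomial ι ℂ),
      D.IsHomogeneous (n + a) ∧ N.IsHomogeneous n ∧ eval ξ D ≠ 0 ∧ aeval x D = y j ^ k * aeval x N)
    {x0 : L} (h0 : x0 ∈ Submodule.span ℂ (Set.range x)) (hx0 : x0 ≠ 0) (d : ℕ)
    (hlow : ∀ m, (m + d).choose d ≤ finrank ℂ ↥(Submodule.span ℂ (Set.range x) ^ m)) :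
    ∃ c, ∀ t, c ≤ t →
      (k * (t - c)).choose d ≤ finrank ℂ ↥(Submodule.span ℂ (Set.range x) ^ t) := by
  classical
  set V := Submodule.span ℂ (Set.range x) with hV
  let w : ι ⊕ κ → ℕ := Sum.elim (fun _ => k) (fun _ => a)
  have hw : ∀ i, 0 < w i := by rintro (i | i); exacts [hk, ha]
  let v : ι ⊕ κ → L := Sum.elim x y
  -- a uniform bound for all monomials of degree `k`
  obtain ⟨n0, hn0⟩ : ∃ n0, ∀ β : κ →₀ ℕ, β.degree = k → ∀ t, n0 ≤ t → ∀ p ∈ V ^ t,
      (β.prod fun j e => y j ^ e) * p ∈ V ^ (t + a) := by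
    have := fun β hβ => reg_all x _ a (H1 β hβ)
    choose! n hn using this
    refine ⟨(Finsupp.finite_of_degree_le (σ := κ) k).toFinset.sup n, fun β hβ t ht => hn β hβ t ?_⟩
    exact le_trans (Finset.le_sup (f := n) (by simp [hβ])) ht
  have iter : ∀ (j : ℕ) (β : κ →₀ ℕ), β.degree = j * k → ∀ p ∈ V ^ n0,
      (β.prod fun j e => y j ^ e) * p ∈ V ^ (n0 + j * a) := by
    intro j
    induction j with
    | zero =>
      intro β hβ p hp
      rw [zero_mul, Finsupp.degree_eq_zero_iff] at hβ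
      simpa [hβ] using hp
    | succ j ih =>
      intro β hβ p hp
      obtain ⟨γ, hγ, h1⟩ := Finsupp.exists_le_degree_eq β k (by rw [hβ]; nlinarith)
      obtain ⟨δ, rfl⟩ := exists_add_of_le hγ
      rw [map_add, h1] at hβ
      rw [Finsupp.prod_add_index' (by simp) (by simp [pow_add]), mul_assoc, Nat.succ_mul, ← add_assoc]
      exact hn0 γ h1 _ (by omega) _ (ih δ (by nlinarith) p hp)
  have up : ∀ t, ∀ p ∈ wp w v (k * t), x0 ^ n0 * p ∈ V ^ (t + n0) := by
    rintro t _ ⟨P, hP, rfl⟩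
    rw [P.as_sum, map_sum, Finset.mul_sum]
    refine Submodule.sum_mem _ fun e he => ?_
    have h1 := hP (mem_support_iff.1 he)
    obtain ⟨⟨α, β⟩, rfl⟩ := Finsupp.sumFinsuppEquivProdFinsupp.symm.surjective e
    have h2 : α.degree * k + β.degree * a = k * t := by
      rw [← h1, Finsupp.weight_apply, Finsupp.sum_fintype _ _ (by simp), Fintype.sum_sum_type,
        Finsupp.degree_eq_sum, Finsupp.degree_eq_sum, Finset.sum_mul, Finset.sum_mul]
      simp [w]
    obtain ⟨j, hj⟩ : k ∣ β.degree := by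
      refine hco.symm.dvd_of_dvd_mul_right ?_
      exact (Nat.dvd_add_right (Dvd.intro_left _ rfl)).1 (h2 ▸ Dvd.intro _ rfl)
    have h3 : α.degree + j * a = t := by
      refine Nat.eq_of_mul_eq_mul_left hk ?_
      rw [← h2, hj]; ring
    have h4 := mul_mem_pow (iter j β (by rw [hj, mul_comm]) _ (Submodule.pow_mem_pow V h0 n0))
      (mem_span_pow.2 ⟨_, isHomogeneous_monomial (d := α) (coeff
        (Finsupp.sumFinsuppEquivProdFinsupp.symm (α, β)) P) rfl, rfl⟩)
    rw [show n0 + j * a + α.degree = t + n0 by omega] at h4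
    convert h4 using 1
    simp only [AlgHom.toLinearMap_apply, aeval_monomial]
    rw [Finsupp.prod_fintype _ _ (by simp), Finsupp.prod_fintype _ _ (by simp),
      Finsupp.prod_fintype _ _ (by simp), Fintype.prod_sum_type]
    simp only [Finsupp.sumFinsuppEquivProdFinsupp_symm_inl,
      Finsupp.sumFinsuppEquivProdFinsupp_symm_inr, v, Sum.elim_inl, Sum.elim_inr]
    ring
  have low : ∀ t, V ^ t ≤ wp w v (k * t) := fun t p hp => by
    obtain ⟨G, hG, rfl⟩ := mem_span_pow.1 hp
    refine ⟨rename Sum.inl G, mul_comm t k ▸ rename_hom hG, ?_⟩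
    rw [AlgHom.toLinearMap_apply, aeval_rename]; rfl
  have htop : G.Hom w ⊤ := fun _ _ _ => trivial
  obtain ⟨Q1, h1⟩ := G.Hs_poly hw (Finset.univ : Finset ι) (fun i => X (Sum.inl i)) (fun _ => k)
    (fun i _ => isWeightedHomogeneous_X ℂ w _) _ ⊤ (hom_ker w v) htop le_top fun η h1 h2 => by
      have h3 : ∀ i, η (Sum.inl i) = 0 := fun i => by simpa using h2 i (Finset.mem_univ _)
      funext s
      rcases s with i | j
      · exact h3 i
      · refine zero_of_left x y (k := k) (n0 := n0) ha j (pow_ne_bot h0 hx0 _) (fun p hp => ?_) η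
          (fun g hg => h1 g fun p _ => Ideal.mul_mem_right _ _ hg) h3
        simpa using hn0 (Finsupp.single j k) (by simp) n0 le_rfl p hp
  obtain ⟨Q2, h2⟩ := G.Hs_poly hw (Finset.univ : Finset κ) (fun i => X (Sum.inr i)) (fun _ => a)
    (fun i _ => isWeightedHomogeneous_X ℂ w _) _ ⊤ (hom_ker w v) htop le_top fun η h1 h2 => by
      have h3 : ∀ i, η (Sum.inr i) = 0 := fun i => by simpa using h2 i (Finset.mem_univ _)
      have h4 : ∀ g ∈ RingHom.ker (psi w v), eval η g = 0 :=
        fun g hg => h1 g fun p _ => Ideal.mul_mem_right _ _ hg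
      have h5 : η ∘ Sum.inl = 0 := by
        by_contra h5
        obtain ⟨j, n, D, N, hD, hN, hD0, e⟩ := H2 _ h5 fun n G hG e => by
          rw [← eval_rename]
          refine h4 _ ((mem_ker_psi (rename_hom hG)).2 ?_)
          rw [aeval_rename]; exact e
        have h6 : (rename Sum.inl D - X (Sum.inr j) ^ k * rename Sum.inl N :
            MvPolynomial (ι ⊕ κ) ℂ).IsWeightedHomogeneous w ((n + a) * k) := by
          refine (rename_hom hD).sub ?_
          have := ((isWeightedHomogeneous_X ℂ w (Sum.inr j)).pow k).mul (rename_hom (k := k) hN)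
          rwa [show k • w (Sum.inr j) + n * k = (n + a) * k by simp [w]; ring] at this
        have h7 := h4 _ ((mem_ker_psi h6).2 (by
          rw [map_sub, map_mul, aeval_rename, aeval_rename, map_pow, aeval_X]
          exact sub_eq_zero.2 e))
        simp only [map_sub, map_mul, map_pow, eval_X, h3, zero_pow hk.ne', zero_mul, sub_zero,
          eval_rename] at h7
        exact hD0 h7
      funext s
      rcases s with i | j
      · exact congrFun h5 i
      · exact h3 j
  rw [Finset.prod_const, Hs_eq hw] at h1 h2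
  obtain ⟨L0, hL⟩ := one_sub_pow_poly _ hk hco ⟨Q1, h1⟩ ⟨Q2, h2⟩
  obtain ⟨c, hc⟩ := choose_le_of_poly (fun t => finrank ℂ (wp w v t)) L0 hL d (k * (d + 1))
    (by positivity) fun s => by
      have := wp_fin hw v (k * ((d + 1) * s))
      rw [mul_assoc]
      refine le_trans ?_ ((hlow _).trans (Submodule.finrank_mono (low _)))
      exact (succ_pow_le_choose s d).trans (Nat.choose_le_choose _ (by nlinarith))
  refine ⟨c + n0, fun t ht => ?_⟩
  obtain ⟨t, rfl⟩ : ∃ s, t = s + n0 := ⟨t - n0, by omega⟩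
  have := span_pow_fin x (t + n0)
  have h3 : finrank ℂ (wp w v (k * t)) ≤ finrank ℂ ↥(V ^ (t + n0)) :=
    LinearMap.finrank_le_finrank_of_injective
      (f := (LinearMap.mulLeft ℂ (x0 ^ n0)).restrict (up t)) fun p q h =>
        Subtype.ext (mul_left_cancel₀ (pow_ne_zero n0 hx0) (congrArg Subtype.val h))
  have h4 : c ≤ k * c := Nat.le_mul_of_pos_left _ hk
  have h5 : k * c ≤ k * t := Nat.mul_le_mul_left _ (by omega)
  rcases hc (k * t) with h | h
  · refine le_trans (Nat.choose_le_choose _ ?_) (h.trans h3)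
    rw [show t + n0 - (c + n0) = t - c by omega, Nat.mul_sub]
    omega
  · omega

end Pool.Agent.Lib.MP_9ff3e7_ag.F
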