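import Pool.Agent.Lib.MP_9ff3e7_ag.F.KB

/-! K1: the elementary rules of the klt calculus. -/

set_option autoImplicit false
set_option linter.unusedSectionVars false

namespace Pool.Agent.Lib.MP_9ff3e7_ag.F

open Filter Topology MeasureTheory Finsupp KB

variable {n : ℕ} {O : Type} [CommRing O] [IsDomain O] [Algebra ℂ O]
  [Algebra (MvPolynomial (Fin n) ℂ) O] [IsScalarTower ℂ (MvPolynomial (Fin n) ℂ) O]

namespace K1

theorem single_nn (a : Ideal O) {c : ℝ} (hc : 0 ≤ c) : (0 : Ideal O →₀ ℝ) ≤ single a c :=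
  single_nonneg.2 hc

theorem cne {C c : ℝ} (hc : 0 ≤ c) : ENNReal.ofReal C ^ c ≠ ⊤ :=
  ENNReal.rpow_ne_top_of_nonneg hc ENNReal.ofReal_ne_top

/-- densities of effective pairs are bounded below near every point -/
theorem one_le (p : Pnt O) {D : Ideal O →₀ ℝ} (hD : 0 ≤ D) :
    ∃ C : ENNReal, C ≠ ⊤ ∧ ∀ᶠ y in nhd p, 1 ≤ C * dens D y := by
  refine ⟨∏ a ∈ D.support, ENNReal.ofReal (nsqI a p + 1) ^ D a,
    ENNReal.prod_ne_top fun a _ => cne (hD a), ?_⟩
  have : ∀ᶠ y in nhd p, ∀ a ∈ D.support, nsqI a y ≤ nsqI a p + 1 :=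
    (eventually_all_finset _).2 fun a _ =>
      (tendsto_nsqI p a).eventually (eventually_le_nhds (lt_add_one _))
  filter_upwards [this] with y hy
  rw [dens_eq_prod (s := D.support) subset_rfl, ← Finset.prod_mul_distrib]
  refine Finset.one_le_prod' fun a ha => ?_
  have h0 : 0 < nsqI a p + 1 := by linarith [nsqI_nonneg a p]
  have := rpow_neg_le (u := nsqI a y) (v := 1) h0 (hD a) (by simpa using hy a ha)
  simpa using this

theorem nsqI_mul_le (M : Model n O) (p : Pnt O) (a b : Ideal O) :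
    ∃ C : ℝ, 0 < C ∧ ∀ᶠ y in nhd p, nsqI (a * b) y ≤ C * (nsqI a y * nsqI b y) := by
  refine nsqI_le_of p (fg M _) (fun y => mul_nonneg (nsqI_nonneg a y) (nsqI_nonneg b y))
    fun g hg => ?_
  refine Submodule.mul_induction_on hg (fun s hs t ht => ?_) fun s t hs ht => ?_
  · obtain ⟨A, hA, h1⟩ := mem_le p (fg M a) hs
    obtain ⟨B, hB, h2⟩ := mem_le p (fg M b) ht
    refine ⟨A * B, by positivity, ?_⟩
    filter_upwards [h1, h2] with y h1 h2
    rw [map_mul, norm_mul, mul_pow, mul_mul_mul_comm]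
    have := nsqI_nonneg a y
    gcongr
  · obtain ⟨A, hA, ha⟩ := hs
    obtain ⟨B, hB, hb⟩ := ht
    refine ⟨2 * A + 2 * B, by positivity, ?_⟩
    filter_upwards [ha, hb] with y ha hb
    have h1 : ‖y (s + t)‖ ≤ ‖y s‖ + ‖y t‖ := by rw [map_add]; exact norm_add_le _ _
    have h2 : ‖y (s + t)‖ ^ 2 ≤ (‖y s‖ + ‖y t‖) ^ 2 := by gcongr
    nlinarith [sq_nonneg (‖y s‖ - ‖y t‖)]

theorem le_nsqI_mul (M : Model n O) (p : Pnt O) (a b : Ideal O) :
    ∃ C : ℝ, 0 < C ∧ ∀ᶠ y in nhd p, nsqI a y * nsqI b y ≤ C * nsqI (a * b) y := by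
  have h : ∀ q : O × O, q ∈ gens a ×ˢ gens b →
      ∃ C : ℝ, 0 < C ∧ ∀ᶠ y in nhd p, ‖y (q.1 * q.2)‖ ^ 2 ≤ C * nsqI (a * b) y := fun q hq =>
    mem_le p (fg M _) (Ideal.mul_mem_mul (gens_mem (fg M a) (Finset.mem_product.1 hq).1)
      (gens_mem (fg M b) (Finset.mem_product.1 hq).2))
  choose! C hC h using h
  refine ⟨1 + ∑ q ∈ gens a ×ˢ gens b, C q, ?_, ?_⟩
  · have : 0 ≤ ∑ q ∈ gens a ×ˢ gens b, C q := Finset.sum_nonneg fun q hq => (hC q hq).le
    linarith
  · filter_upwards [(eventually_all_finset _).2 h] with y hy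
    have h1 : nsqI a y * nsqI b y = ∑ q ∈ gens a ×ˢ gens b, ‖y (q.1 * q.2)‖ ^ 2 := by
      rw [nsqI, nsqI, Finset.sum_mul_sum, Finset.sum_product]
      simp [mul_pow]
    have h2 := Finset.sum_le_sum hy
    rw [← Finset.sum_mul] at h2
    nlinarith [nsqI_nonneg (a * b) y]

theorem dens_two (a b : Ideal O) {c : ℝ} (y : Pnt O) :
    dens (single a c) y * dens (single b c) y = ENNReal.ofReal (nsqI a y * nsqI b y) ^ (-c) := by
  rw [dens_single, dens_single, ENNReal.ofReal_mul (nsqI_nonneg a y),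
    ENNReal.mul_rpow_of_ne_top ENNReal.ofReal_ne_top ENNReal.ofReal_ne_top]

end K1

open K1

variable (M : Model n O)

theorem Model.klt_mono (p : Pnt O) (D : Ideal O →₀ ℝ) (a b : Ideal O) (c : ℝ) (hD : 0 ≤ D)
    (hc : 0 ≤ c) (h : LeAt p a b) (hk : M.Klt p (D + single a c)) : M.Klt p (D + single b c) := by
  obtain ⟨C, hC, h1⟩ := nsqI_le_of_leAt (fg M a) (fg M b) h
  refine int_of_le M p (u := dens (D + single b c)) (v := dens (D + single a c))
    (cne (C := C) hc) ?_ hk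
  filter_upwards [h1] with y h1
  rw [dens_add hD (single_nn b hc), dens_add hD (single_nn a hc), dens_single, dens_single,
    mul_left_comm]
  gcongr
  exact rpow_neg_le hC hc h1

theorem Model.klt_drop (p : Pnt O) (D D' : Ideal O →₀ ℝ) (h0 : 0 ≤ D') (h : D' ≤ D)
    (hk : M.Klt p D) : M.Klt p D' := by
  obtain ⟨C, hC, h1⟩ := one_le p (sub_nonneg.2 h)
  refine int_of_le M p (u := dens D') (v := dens D) hC ?_ hk
  filter_upwards [h1] with y h1
  have : dens D y = dens D' y * dens (D - D') y := by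
    rw [← dens_add h0 (sub_nonneg.2 h)]; congr 1; abel
  rw [this, mul_left_comm]
  exact le_mul_of_one_le_right' h1

theorem Model.klt_mul (p : Pnt O) (D : Ideal O →₀ ℝ) (a b : Ideal O) (c : ℝ) (hD : 0 ≤ D)
    (hc : 0 ≤ c) : M.Klt p (D + single (a * b) c) ↔ M.Klt p (D + single a c + single b c) := by
  have e1 : ∀ y, dens (D + single a c + single b c) y =
      dens D y * ENNReal.ofReal (nsqI a y * nsqI b y) ^ (-c) := fun y => by
    rw [dens_add (add_nonneg hD (single_nn a hc)) (single_nn b hc), dens_add hD (single_nn a hc),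
      mul_assoc, dens_two]
  have e2 : ∀ y, dens (D + single (a * b) c) y =
      dens D y * ENNReal.ofReal (nsqI (a * b) y) ^ (-c) := fun y => by
    rw [dens_add hD (single_nn _ hc), dens_single]
  constructor
  · intro hk
    obtain ⟨C, hC, h1⟩ := nsqI_mul_le M p a b
    refine int_of_le M p (u := dens (D + single a c + single b c))
      (v := dens (D + single (a * b) c)) (cne (C := C) hc) ?_ hk
    filter_upwards [h1] with y h1
    rw [e1, e2, mul_left_comm]
    gcongr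
    exact rpow_neg_le hC hc h1
  · intro hk
    obtain ⟨C, hC, h1⟩ := le_nsqI_mul M p a b
    refine int_of_le M p (v := dens (D + single a c + single b c))
      (u := dens (D + single (a * b) c)) (cne (C := C) hc) ?_ hk
    filter_upwards [h1] with y h1
    rw [e1, e2, mul_left_comm]
    gcongr
    exact rpow_neg_le hC hc h1

theorem Model.klt_zero (p : Pnt O) : M.Klt p 0 := by
  refine ⟨Metric.ball (zz n p) 1, Metric.ball_mem_nhds _ one_pos, ?_⟩
  simp only [dens_zero, lintegral_const, MeasurableSet.univ, Measure.restrict_apply, Set.univ_inter,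
    one_mul]
  exact measure_ball_lt_top

theorem Model.klt_bot (p : Pnt O) (c : ℝ) (hc : 0 < c) : ¬ M.Klt p (single ⊥ c) := by
  rintro ⟨U, hU, h⟩
  have h0 : ∀ y : Pnt O, dens (single (⊥ : Ideal O) c) y = ⊤ := fun y => by
    have : nsqI (⊥ : Ideal O) y = 0 := Finset.sum_eq_zero fun g hg => by
      have : g = 0 := by simpa using gens_mem (fg M ⊥) hg
      simp [this]
    rw [dens_single, this]
    simp [hc]
  simp only [h0, lintegral_const, MeasurableSet.univ, Measure.restrict_apply, Set.univ_inter] at h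
  rw [ENNReal.top_mul (Measure.measure_pos_of_mem_nhds volume hU).ne'] at h
  exact lt_irrefl _ h

theorem Model.klt_unit (p : Pnt O) (D : Ideal O →₀ ℝ) (a : Ideal O) (c : ℝ) (hD : 0 ≤ D)
    (hc : 0 ≤ c) (h : ∃ s ∈ a, p s ≠ 0) (hk : M.Klt p D) : M.Klt p (D + single a c) := by
  obtain ⟨s, hs, hp⟩ := h
  obtain ⟨C, hC, h1⟩ := mem_le p (fg M a) hs
  have h0 : 0 < ‖p s‖ / 2 := half_pos (norm_pos_iff.2 hp)
  refine int_of_le M p (u := dens (D + single a c)) (v := dens D)
    (cne (C := C / (‖p s‖ / 2) ^ 2) hc) ?_ hk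
  filter_upwards [h1, lower_near p hp] with y h1 h2
  rw [dens_add hD (single_nn a hc), dens_single, mul_comm]
  gcongr
  have h3 : (1 : ℝ) ≤ C / (‖p s‖ / 2) ^ 2 * nsqI a y := by
    rw [div_mul_eq_mul_div, le_div_iff₀ (by positivity), one_mul]
    exact le_trans (by gcongr) h1
  simpa using rpow_neg_le (by positivity) hc h3

theorem Model.int_near (p : Pnt O) {v : Pnt O → ENNReal}
    (hk : ∃ U ∈ 𝓝 (zz n p), ∫⁻ w in U, v (M.sg p w) < ⊤) :
    ∀ᶠ y in nhd p, ∃ U ∈ 𝓝 (zz n y), ∫⁻ w in U, v (M.sg y w) < ⊤ := by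
  obtain ⟨U, hU, h⟩ := hk
  filter_upwards [M.sg_near p, (tendsto_nhd_zz p).eventually (eventually_mem_nhds_iff.2 hU)]
    with y h1 h2
  obtain ⟨V, hV, hVo, hVp⟩ := mem_nhds_iff.1 (inter_mem h2 h1)
  refine ⟨V, hVo.mem_nhds hVp, ?_⟩
  calc ∫⁻ w in V, v (M.sg y w) = ∫⁻ w in V, v (M.sg p w) :=
        setLIntegral_congr_fun hVo.measurableSet fun w hw => by
          have : M.sg y w = M.sg p w := (hV hw).2
          simp only [this]
    _ ≤ ∫⁻ w in U, v (M.sg p w) := lintegral_mono_set fun w hw => (hV hw).1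
    _ < ⊤ := h

theorem Model.klt_near (p : Pnt O) (D : Ideal O →₀ ℝ) (hk : M.Klt p D) :
    ∀ᶠ y in nhd p, M.Klt y D := M.int_near p (v := dens D) hk

theorem Model.kltN_near (p : Pnt O) (f : O) (D : Ideal O →₀ ℝ) (hk : M.KltN p f D) :
    ∀ᶠ y in nhd p, M.KltN y f D :=
  M.int_near p (v := fun y => ENNReal.ofReal (‖y f‖ ^ 2) * dens D y) hk

theorem Model.klt_ofN (q : Pnt O) (f : O) (D : Ideal O →₀ ℝ) (hf : q f ≠ 0) (hk : M.KltN q f D) :
    M.Klt q D := by
  have h0 : 0 < ‖q f‖ / 2 := half_pos (norm_pos_iff.2 hf)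
  refine int_of_le M q (u := dens D) (v := fun y => ENNReal.ofReal (‖y f‖ ^ 2) * dens D y)
    (C := ENNReal.ofReal (1 / (‖q f‖ / 2) ^ 2)) ENNReal.ofReal_ne_top ?_ hk
  filter_upwards [lower_near q hf] with y h2
  rw [← mul_assoc, ← ENNReal.ofReal_mul (by positivity)]
  refine le_mul_of_one_le_left' (ENNReal.one_le_ofReal.2 ?_)
  rw [div_mul_eq_mul_div, le_div_iff₀ (by positivity), one_mul, one_mul]
  gcongr

end Pool.Agent.Lib.MP_9ff3e7_ag.F
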