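import Pool.Agent.Lib.MP_9ff3e7_ag.F.KB

/-! K2: convexity of the klt condition (Hölder), also with weights. -/

set_option autoImplicit false
set_option linter.unusedSectionVars false

namespace Pool.Agent.Lib.MP_9ff3e7_ag.F

open Filter Topology MeasureTheory Finsupp KB

variable {n : ℕ} {O : Type} [CommRing O] [IsDomain O] [Algebra ℂ O]
  [Algebra (MvPolynomial (Fin n) ℂ) O] [IsScalarTower ℂ (MvPolynomial (Fin n) ℂ) O]

variable (M : Model n O)

/-- Hölder's inequality near a point -/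
theorem Model.int_holder (p : Pnt O) {u v : Pnt O → ENNReal} {r : ℝ} (hr : 0 < r)
    (mu : AEMeasurable (fun w => u (M.sg p w)) (volume.restrict (Metric.ball (zz n p) r)))
    (mv : AEMeasurable (fun w => v (M.sg p w)) (volume.restrict (Metric.ball (zz n p) r)))
    {l : ℝ} (h0 : 0 ≤ l) (h1 : l ≤ 1)
    (hu : ∃ U ∈ 𝓝 (zz n p), ∫⁻ w in U, u (M.sg p w) < ⊤)
    (hv : ∃ U ∈ 𝓝 (zz n p), ∫⁻ w in U, v (M.sg p w) < ⊤) :
    ∃ U ∈ 𝓝 (zz n p), ∫⁻ w in U, u (M.sg p w) ^ l * v (M.sg p w) ^ (1 - l) < ⊤ := by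
  obtain ⟨U, hU, hu⟩ := hu
  obtain ⟨V, hV, hv⟩ := hv
  have hW : U ∩ V ∩ Metric.ball (zz n p) r ∈ 𝓝 (zz n p) :=
    inter_mem (inter_mem hU hV) (Metric.ball_mem_nhds _ hr)
  refine ⟨_, hW, ?_⟩
  have hle : volume.restrict (U ∩ V ∩ Metric.ball (zz n p) r) ≤
      volume.restrict (Metric.ball (zz n p) r) :=
    Measure.restrict_mono Set.inter_subset_right le_rfl
  refine (ENNReal.lintegral_mul_norm_pow_le (mu.mono_measure hle) (mv.mono_measure hle) h0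
    (sub_nonneg.2 h1) (by ring)).trans_lt (ENNReal.mul_lt_top ?_ ?_)
  · refine ENNReal.rpow_lt_top_of_nonneg h0 (lt_of_le_of_lt (lintegral_mono_set ?_) hu).ne
    exact fun w hw => hw.1.1
  · refine ENNReal.rpow_lt_top_of_nonneg (sub_nonneg.2 h1)
      (lt_of_le_of_lt (lintegral_mono_set ?_) hv).ne
    exact fun w hw => hw.1.2

theorem Model.klt_convex (p : Pnt O) (D D' : Ideal O →₀ ℝ) (l : ℝ) (hD : 0 ≤ D) (hD' : 0 ≤ D')
    (h0 : 0 ≤ l) (h1 : l ≤ 1) (hk : M.Klt p D) (hk' : M.Klt p D') :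
    M.Klt p (l • D + (1 - l) • D') := by
  obtain ⟨r, hr, -, hm⟩ := aemeas M p
  have h2 : 0 ≤ 1 - l := sub_nonneg.2 h1
  have := M.int_holder p (u := dens D) (v := dens D') hr (hm D) (hm D') h0 h1 hk hk'
  simpa only [Model.Klt, dens_add (smul_nonneg h0 hD) (smul_nonneg h2 hD'), dens_smul _ h0,
    dens_smul _ h2] using this

/-- convexity with a fixed numerator -/
theorem Model.kltN_convex (p : Pnt O) (f : O) (D D' : Ideal O →₀ ℝ) (l : ℝ) (hD : 0 ≤ D)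
    (hD' : 0 ≤ D') (h0 : 0 ≤ l) (h1 : l ≤ 1) (hk : M.KltN p f D) (hk' : M.KltN p f D') :
    M.KltN p f (l • D + (1 - l) • D') := by
  obtain ⟨r, hr, hf, hm⟩ := aemeas M p
  have h2 : 0 ≤ 1 - l := sub_nonneg.2 h1
  have hf' := ((hf f).norm.pow_const 2).ennreal_ofReal
  have := M.int_holder p (u := fun y => ENNReal.ofReal (‖y f‖ ^ 2) * dens D y)
    (v := fun y => ENNReal.ofReal (‖y f‖ ^ 2) * dens D' y) hr (hf'.mul (hm D)) (hf'.mul (hm D'))
    h0 h1 hk hk'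
  obtain ⟨U, hU, h⟩ := this
  refine ⟨U, hU, lt_of_eq_of_lt (lintegral_congr fun w => ?_) h⟩
  rw [dens_add (smul_nonneg h0 hD) (smul_nonneg h2 hD'), dens_smul _ h0, dens_smul _ h2,
    ENNReal.mul_rpow_of_nonneg _ _ h0, ENNReal.mul_rpow_of_nonneg _ _ h2, mul_mul_mul_comm,
    ← ENNReal.rpow_add_of_nonneg _ _ h0 h2]
  simp

end Pool.Agent.Lib.MP_9ff3e7_ag.F
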