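import Pool.Agent.Lib.MP_9ff3e7_ag.F.KB

/-! K3: the threshold of a linear subspace. -/

set_option autoImplicit false
set_option linter.unusedSectionVars false

namespace Pool.Agent.Lib.MP_9ff3e7_ag.F

open Filter Topology MeasureTheory Finsupp KB

namespace K3

variable {n : ℕ}

/-- a box that is thin in the directions of `J` -/
def box (a : Fin n → ℂ) (J : Finset (Fin n)) (r t : ℝ) : Set (Fin n → ℂ) :=
  Set.pi Set.univ fun i => Metric.ball (a i) (if i ∈ J then t * r else r)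

theorem box_meas (a : Fin n → ℂ) (J : Finset (Fin n)) (r t : ℝ) : MeasurableSet (box a J r t) :=
  MeasurableSet.univ_pi fun _ => measurableSet_ball

theorem box_vol (a : Fin n → ℂ) (J : Finset (Fin n)) {r t : ℝ} (hr : 0 < r) (ht : 0 < t) :
    volume (box a J r t) = ENNReal.ofReal ((t ^ 2) ^ J.card * (r ^ 2 * Real.pi) ^ n) := by
  rw [box, volume_pi_pi]
  have : ∀ i, volume (Metric.ball (a i) (if i ∈ J then t * r else r)) =
      ENNReal.ofReal ((if i ∈ J then t ^ 2 else 1) * (r ^ 2 * Real.pi)) := fun i => by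
    rw [Complex.volume_ball, ← ENNReal.ofReal_coe_nnreal, NNReal.coe_real_pi,
      ← ENNReal.ofReal_pow (by split_ifs <;> positivity), ← ENNReal.ofReal_mul (by positivity)]
    congr 1
    split_ifs <;> ring
  simp only [this]
  rw [← ENNReal.ofReal_prod_of_nonneg (fun i _ => by split_ifs <;> positivity),
    Finset.prod_mul_distrib, Finset.prod_ite_mem]
  simp

theorem box_sub (a : Fin n → ℂ) (J : Finset (Fin n)) {r t : ℝ} (hr : 0 < r) (ht1 : t ≤ 1) :
    box a J r t ⊆ Metric.ball a r := fun w hw => by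
  refine (dist_pi_lt_iff hr).2 fun i => ?_
  have := hw i trivial
  simp only [Metric.mem_ball] at this
  split_ifs at this
  · nlinarith
  · exact this

theorem not_int (a : Fin n → ℂ) (J : Finset (Fin n)) (hJ : J.Nonempty) {c : ℝ}
    (hc : (J.card : ℝ) ≤ c) {U : Set (Fin n → ℂ)} (hU : U ∈ 𝓝 a) :
    ¬ ∫⁻ w in U, ENNReal.ofReal (∑ i ∈ J, ‖w i - a i‖ ^ 2) ^ (-c) < ⊤ := by
  intro h
  obtain ⟨r, hr, hrU⟩ := Metric.mem_nhds_iff.1 hU
  have hk : 0 < J.card := hJ.card_pos
  have hk' : (0 : ℝ) < J.card := by exact_mod_cast hk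
  have hc0 : 0 ≤ c := hk'.le.trans hc
  have hres : ∀ t, t ≤ 1 → (volume.restrict U).restrict (box a J r t) =
      volume.restrict (box a J r t) := fun t ht =>
    Measure.restrict_restrict_of_subset ((box_sub a J hr ht).trans hrU)
  have hI : Set.Ioc (0 : ℝ) 1 ∈ 𝓝[>] (0 : ℝ) := Ioc_mem_nhdsGT one_pos
  have h1 : Tendsto ((volume.restrict U) ∘ box a J r) (𝓝[>] 0) (𝓝 0) := by
    have h2 : Tendsto (fun t : ℝ => ENNReal.ofReal ((t ^ 2) ^ J.card * (r ^ 2 * Real.pi) ^ n))
        (𝓝[>] 0) (𝓝 0) := by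
      have : Continuous fun t : ℝ => ENNReal.ofReal ((t ^ 2) ^ J.card * (r ^ 2 * Real.pi) ^ n) :=
        ENNReal.continuous_ofReal.comp (by fun_prop)
      have h3 := (this.tendsto 0).mono_left (nhdsWithin_le_nhds (s := Set.Ioi 0))
      simpa [hk.ne'] using h3
    refine tendsto_of_tendsto_of_tendsto_of_le_of_le' tendsto_const_nhds h2
      (Eventually.of_forall fun _ => zero_le) ?_
    filter_upwards [hI] with t ht
    rw [← box_vol a J hr ht.1]
    exact Measure.restrict_le_self _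
  have h4 := tendsto_setLIntegral_zero h.ne h1
  have hpos : 0 < ENNReal.ofReal ((J.card * r ^ 2) ^ (-c) * (r ^ 2 * Real.pi) ^ n) :=
    ENNReal.ofReal_pos.2 (by positivity)
  obtain ⟨t, ht, hlt⟩ := (Eventually.and hI (h4.eventually (eventually_lt_nhds hpos))).exists
  rw [hres t ht.2] at hlt
  refine absurd hlt (not_lt.2 ?_)
  have ht0 := ht.1
  have ht2 : 0 < t ^ 2 := by positivity
  have ht3 : t ^ 2 ≤ 1 := pow_le_one₀ ht0.le ht.2
  calc ENNReal.ofReal ((J.card * r ^ 2) ^ (-c) * (r ^ 2 * Real.pi) ^ n)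
      ≤ ENNReal.ofReal ((t ^ 2 * (J.card * r ^ 2)) ^ (-c) *
          ((t ^ 2) ^ J.card * (r ^ 2 * Real.pi) ^ n)) := by
        refine ENNReal.ofReal_le_ofReal ?_
        rw [Real.mul_rpow ht2.le (by positivity), mul_mul_mul_comm]
        refine le_mul_of_one_le_left (by positivity) ?_
        rw [← Real.rpow_natCast _ J.card, ← Real.rpow_add ht2]
        exact Real.one_le_rpow_of_pos_of_le_one_of_nonpos ht2 ht3 (by linarith)
    _ = ∫⁻ _ in box a J r t, ENNReal.ofReal (t ^ 2 * (J.card * r ^ 2)) ^ (-c) := by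
        rw [setLIntegral_const, box_vol a J hr ht0, ENNReal.ofReal_mul (by positivity),
          ENNReal.ofReal_rpow_of_pos (by positivity)]
    _ ≤ _ := by
        refine setLIntegral_mono' (box_meas a J r t) fun w hw => ?_
        rw [ENNReal.rpow_neg, ENNReal.rpow_neg]
        refine ENNReal.inv_le_inv.2 (ENNReal.rpow_le_rpow (ENNReal.ofReal_le_ofReal ?_) hc0)
        calc ∑ i ∈ J, ‖w i - a i‖ ^ 2 ≤ ∑ _i ∈ J, (t * r) ^ 2 := by
              refine Finset.sum_le_sum fun i hi => ?_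
              have := hw i trivial
              simp only [if_pos hi, mem_ball_iff_norm] at this
              gcongr
          _ = _ := by simp; ring

end K3

variable {n : ℕ} {O : Type} [CommRing O] [IsDomain O] [Algebra ℂ O]
  [Algebra (MvPolynomial (Fin n) ℂ) O] [IsScalarTower ℂ (MvPolynomial (Fin n) ℂ) O]

variable (M : Model n O)

include M in
theorem Model.nsqI_mzJ_le (p : Pnt O) (J : Finset (Fin n)) : ∃ C : ℝ, 0 < C ∧
    ∀ᶠ y in nhd p, nsqI (mzJ n p J) y ≤ C * ∑ i ∈ J, ‖zz n y i - zz n p i‖ ^ 2 := by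
  have h0 : ∀ y : Pnt O, 0 ≤ ∑ i ∈ J, ‖zz n y i - zz n p i‖ ^ 2 := fun y =>
    Finset.sum_nonneg fun _ _ => by positivity
  refine nsqI_le_of p (fg M _) h0 fun g hg => span_le p h0 ?_ hg
  rintro _ ⟨i, hi, rfl⟩
  refine ⟨1, one_pos, Eventually.of_forall fun y => ?_⟩
  have := Finset.single_le_sum (f := fun i => ‖zz n y i - zz n p i‖ ^ 2)
    (fun _ _ => by positivity) (Finset.mem_coe.1 hi)
  simpa [zz] using this

theorem Model.klt_k3 (p : Pnt O) (J : Finset (Fin n)) (c : ℝ) (hJ : J.Nonempty)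
    (hk : M.Klt p (single (mzJ n p J) c)) : c < J.card := by
  by_contra hc
  rw [not_lt] at hc
  have hc0 : 0 ≤ c := (Nat.cast_nonneg _).trans hc
  obtain ⟨C, hC, h1⟩ := M.nsqI_mzJ_le p J
  obtain ⟨U, hU, h2⟩ := int_of_le M p
    (u := fun y => ENNReal.ofReal (∑ i ∈ J, ‖zz n y i - zz n p i‖ ^ 2) ^ (-c))
    (v := dens (single (mzJ n p J) c)) (C := ENNReal.ofReal C ^ c)
    (ENNReal.rpow_ne_top_of_nonneg hc0 ENNReal.ofReal_ne_top)
    (h1.mono fun y hy => by rw [dens_single]; exact rpow_neg_le hC hc0 hy) hk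
  obtain ⟨V, hV, hVo, hVp⟩ := mem_nhds_iff.1 (inter_mem hU (M.sec p))
  refine K3.not_int (zz n p) J hJ hc (hVo.mem_nhds hVp) (lt_of_le_of_lt ?_ h2)
  refine le_trans (le_of_eq ?_) (lintegral_mono_set fun w hw => (hV hw).1)
  refine setLIntegral_congr_fun hVo.measurableSet fun w hw => ?_
  have : zz n (M.sg p w) = w := (hV hw).2
  simp only [this]

end Pool.Agent.Lib.MP_9ff3e7_ag.F
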