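import Pool.Agent.Lib.MP_9ff3e7_ag.F.LeviB

/-! The Levi part of the summation formula: the weights `-log (-A)` and the cut-off
`χ (be - al)`. -/

set_option autoImplicit false
set_option linter.unusedSectionVars false

namespace Pool.Agent.Lib.MP_9ff3e7_ag.F

open Complex Filter Topology
open scoped ContDiff

variable {ι : Type} [Fintype ι]

namespace SumLevi

theorem hasDerivAt_nl {t : ℝ} (ht : t < 0) :
    HasDerivAt (fun s : ℝ => -Real.log (-s)) (-t)⁻¹ t := by
  have h := ((hasDerivAt_neg t).log (by linarith)).fun_neg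
  exact h.congr_deriv (by rw [neg_div, neg_neg, one_div])

theorem deriv_nl {t : ℝ} (ht : t < 0) : deriv (fun s : ℝ => -Real.log (-s)) t = (-t)⁻¹ :=
  (hasDerivAt_nl ht).deriv

theorem deriv2_nl {t : ℝ} (ht : t < 0) :
    deriv (deriv fun s : ℝ => -Real.log (-s)) t = ((-t)⁻¹) ^ 2 := by
  have e : deriv (fun s : ℝ => -Real.log (-s)) =ᶠ[𝓝 t] fun s => (-s)⁻¹ := by
    filter_upwards [Iio_mem_nhds ht] with s hs
    exact deriv_nl hs
  rw [e.deriv_eq]
  have h := ((hasDerivAt_inv (x := -t) (by linarith)).comp t (hasDerivAt_neg t))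
  have h' : HasDerivAt (fun s : ℝ => (-s)⁻¹) (-((-t) ^ 2)⁻¹ * -1) t := h
  rw [h'.deriv]
  simp

theorem contDiffAt_nl {t : ℝ} (ht : t < 0) {m : WithTop ℕ∞} :
    ContDiffAt ℝ m (fun s : ℝ => -Real.log (-s)) t :=
  (contDiffAt_id.neg.log (by simpa using ht.ne)).neg

end SumLevi

open SumLevi

/-- `-log (-A)` is smooth where `A` is smooth and negative -/
theorem contDiffAt_negLog {A : (ι → ℂ) → ℝ} {x : ι → ℂ} {m : WithTop ℕ∞}
    (hA : ContDiffAt ℝ m A x) (h0 : A x < 0) :
    ContDiffAt ℝ m (fun y => -Real.log (-A y)) x :=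
  (hA.neg.log (by simpa using h0.ne)).neg

/-- for a negative plurisubharmonic `A`, `al = -log (-A)` has `|∂̄ al|² ≤ levi al` -/
theorem levi_negLog {A : (ι → ℂ) → ℝ} {x : ι → ℂ} (hA : ContDiffAt ℝ 2 A x) (h0 : A x < 0)
    (ξ : ι → ℂ) (hp : 0 ≤ levi A x ξ) :
    ‖dbar (fun y => ((-Real.log (-A y) : ℝ) : ℂ)) x ξ‖ ^ 2 ≤
      levi (fun y => -Real.log (-A y)) x ξ := by
  have h1 := levi_comp_real (χ := fun s : ℝ => -Real.log (-s)) (contDiffAt_nl h0) hA ξ
  have h2 := dbar_comp_real (χ := fun s : ℝ => -Real.log (-s))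
    (hasDerivAt_nl h0).differentiableAt (hA.differentiableAt (by norm_num)) ξ
  rw [h1, h2, deriv_nl h0, deriv2_nl h0, norm_mul, mul_pow, Complex.norm_real, Real.norm_eq_abs,
    sq_abs]
  have : 0 ≤ (-A x)⁻¹ * levi A x ξ := mul_nonneg (inv_nonneg.2 (by linarith)) hp
  linarith

theorem levi_negLog_nonneg {A : (ι → ℂ) → ℝ} {x : ι → ℂ} (hA : ContDiffAt ℝ 2 A x)
    (h0 : A x < 0) (ξ : ι → ℂ) (hp : 0 ≤ levi A x ξ) :
    0 ≤ levi (fun y => -Real.log (-A y)) x ξ :=
  (sq_nonneg _).trans (levi_negLog hA h0 ξ hp)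

/-- the cut-off `χ (be - al)` -/
theorem dbar_cut_le {al be : (ι → ℂ) → ℝ} {x : ι → ℂ} (hal : DifferentiableAt ℝ al x)
    (hbe : DifferentiableAt ℝ be x) {χ : ℝ → ℝ} (hχ : DifferentiableAt ℝ χ (be x - al x))
    (ξ : ι → ℂ) {la lb : ℝ} (ha : ‖dbar (fun y => (al y : ℂ)) x ξ‖ ^ 2 ≤ la)
    (hb : ‖dbar (fun y => (be y : ℂ)) x ξ‖ ^ 2 ≤ lb) :
    ‖dbar (fun y => (χ (be y - al y) : ℂ)) x ξ‖ ^ 2 ≤
      2 * deriv χ (be x - al x) ^ 2 * (la + lb) := by
  have h1 := dbar_comp_real (χ := χ) (φ := fun y => be y - al y) hχ (hbe.sub hal) ξ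
  have h2 : dbar (fun y => ((be y - al y : ℝ) : ℂ)) x ξ =
      dbar (fun y => (be y : ℂ)) x ξ - dbar (fun y => (al y : ℂ)) x ξ := by
    simp only [ofReal_sub]
    exact dbar_sub (diffAt_ofReal hbe) (diffAt_ofReal hal) ξ
  rw [h1, h2, norm_mul, mul_pow, Complex.norm_real, Real.norm_eq_abs, sq_abs]
  set u := dbar (fun y => (be y : ℂ)) x ξ
  set v := dbar (fun y => (al y : ℂ)) x ξ
  have h3 : ‖u - v‖ ^ 2 ≤ 2 * (la + lb) := by
    have := norm_sub_le u v
    have h4 : ‖u - v‖ ^ 2 ≤ (‖u‖ + ‖v‖) ^ 2 := by gcongr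
    nlinarith [sq_nonneg (‖u‖ - ‖v‖)]
  calc deriv χ (be x - al x) ^ 2 * ‖u - v‖ ^ 2
      ≤ deriv χ (be x - al x) ^ 2 * (2 * (la + lb)) := by gcongr
    _ = _ := by ring

/-- **Levi part of SUM.** `φ` plurisubharmonic, `A`, `B` negative plurisubharmonic at `x`; the
weight `φ - log (-A) - log (-B)` is plurisubharmonic at `x` and controls `∂̄` of the cut-off. -/
theorem sum_levi {φ A B : (ι → ℂ) → ℝ} {x : ι → ℂ} (hφ : ContDiffAt ℝ 2 φ x)
    (hA : ContDiffAt ℝ 2 A x) (hB : ContDiffAt ℝ 2 B x) (a0 : A x < 0) (b0 : B x < 0)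
    (ξ : ι → ℂ) (pφ : 0 ≤ levi φ x ξ) (pA : 0 ≤ levi A x ξ) (pB : 0 ≤ levi B x ξ)
    {χ : ℝ → ℝ} (hχ : Differentiable ℝ χ) :
    0 ≤ levi (fun y => φ y + -Real.log (-A y) + -Real.log (-B y)) x ξ ∧
    ‖dbar (fun y => (χ (-Real.log (-B y) - -Real.log (-A y)) : ℂ)) x ξ‖ ^ 2 ≤
      2 * deriv χ (-Real.log (-B x) - -Real.log (-A x)) ^ 2 *
        levi (fun y => φ y + -Real.log (-A y) + -Real.log (-B y)) x ξ := by
  have cA := contDiffAt_negLog hA a0
  have cB := contDiffAt_negLog hB b0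
  have lA := levi_negLog hA a0 ξ pA
  have lB := levi_negLog hB b0 ξ pB
  have nA := levi_negLog_nonneg hA a0 ξ pA
  have nB := levi_negLog_nonneg hB b0 ξ pB
  have e : levi (fun y => φ y + -Real.log (-A y) + -Real.log (-B y)) x ξ =
      levi φ x ξ + levi (fun y => -Real.log (-A y)) x ξ + levi (fun y => -Real.log (-B y)) x ξ := by
    rw [levi_add (hφ.add cA) cB, levi_add hφ cA]
  refine ⟨by rw [e]; positivity, ?_⟩
  refine (dbar_cut_le (cA.differentiableAt (by norm_num)) (cB.differentiableAt (by norm_num))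
    (hχ _) ξ lA lB).trans ?_
  rw [e]
  gcongr
  linarith

/-- a smooth cut-off with bounded derivative, zero left of zero, one right of `k` -/
theorem exists_cut {k : ℝ} (hk : 0 < k) :
    ∃ (χ : ℝ → ℝ) (M : ℝ), ContDiff ℝ ∞ χ ∧ (∀ t, 0 ≤ χ t ∧ χ t ≤ 1) ∧ (∀ t ≤ 0, χ t = 0) ∧
      (∀ t, k ≤ t → χ t = 1) ∧ (∀ t, |deriv χ t| ≤ M) ∧
      ∀ t, deriv χ t ≠ 0 → 0 ≤ t ∧ t ≤ k := by
  have hs : ContDiff ℝ ∞ (fun t : ℝ => Real.smoothTransition (t / k)) :=
    Real.smoothTransition.contDiff.comp (contDiff_id.div_const k)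
  have z0 : ∀ t ≤ 0, Real.smoothTransition (t / k) = 0 := fun t ht =>
    Real.smoothTransition.zero_of_nonpos (div_nonpos_of_nonpos_of_nonneg ht hk.le)
  have z1 : ∀ t, k ≤ t → Real.smoothTransition (t / k) = 1 := fun t ht =>
    Real.smoothTransition.one_of_one_le ((one_le_div hk).2 ht)
  have hz : ∀ t, deriv (fun t : ℝ => Real.smoothTransition (t / k)) t ≠ 0 → 0 ≤ t ∧ t ≤ k := by
    intro t ht
    by_contra hn
    apply ht
    rcases not_and_or.1 hn with h | h
    · have e : (fun t : ℝ => Real.smoothTransition (t / k)) =ᶠ[𝓝 t] fun _ => 0 := by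
        filter_upwards [Iio_mem_nhds (not_le.1 h)] with s hs
        exact z0 s (le_of_lt hs)
      rw [e.deriv_eq, deriv_const]
    · have e : (fun t : ℝ => Real.smoothTransition (t / k)) =ᶠ[𝓝 t] fun _ => 1 := by
        filter_upwards [Ioi_mem_nhds (not_le.1 h)] with s hs
        exact z1 s (le_of_lt hs)
      rw [e.deriv_eq, deriv_const]
  have hc : Continuous (deriv fun t : ℝ => Real.smoothTransition (t / k)) :=
    hs.continuous_deriv (by exact_mod_cast le_top)
  obtain ⟨M, hM⟩ := (isCompact_Icc (a := (0 : ℝ)) (b := k)).exists_bound_of_continuousOn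
    hc.continuousOn
  refine ⟨_, max M 0, hs, fun t => ⟨Real.smoothTransition.nonneg _,
    Real.smoothTransition.le_one _⟩, z0, z1, fun t => ?_, hz⟩
  by_cases h : deriv (fun t : ℝ => Real.smoothTransition (t / k)) t = 0
  · rw [h]
    simp
  · exact (hM t (hz t h)).trans (le_max_left _ _)

namespace SumLevi

theorem hasDerivAt_lg (t : ℝ) :
    HasDerivAt (fun s : ℝ => Real.log (1 + Real.exp s)) (Real.exp t / (1 + Real.exp t)) t :=
  ((Real.hasDerivAt_exp t).const_add 1).log (by positivity)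

theorem hasDerivAt_sig (t : ℝ) :
    HasDerivAt (fun s : ℝ => Real.exp s / (1 + Real.exp s))
      (Real.exp t / (1 + Real.exp t) * (1 - Real.exp t / (1 + Real.exp t))) t := by
  have h := (Real.hasDerivAt_exp t).fun_div ((Real.hasDerivAt_exp t).const_add 1) (by positivity)
  refine h.congr_deriv ?_
  have : 1 + Real.exp t ≠ 0 := by positivity
  field_simp

theorem contDiff_lg {m : WithTop ℕ∞} : ContDiff ℝ m (fun s : ℝ => Real.log (1 + Real.exp s)) :=
  (contDiff_const.add Real.contDiff_exp).log fun s => by positivity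

theorem contDiff_sig {m : WithTop ℕ∞} :
    ContDiff ℝ m (fun s : ℝ => Real.exp s / (1 + Real.exp s)) :=
  Real.contDiff_exp.div (contDiff_const.add Real.contDiff_exp) fun s => by positivity

theorem sig_pos (t : ℝ) : 0 < Real.exp t / (1 + Real.exp t) := by positivity

theorem sig_lt_one (t : ℝ) : Real.exp t / (1 + Real.exp t) < 1 :=
  (div_lt_one (by positivity)).2 (by linarith)

theorem sig_mul_le (t : ℝ) :
    Real.exp t / (1 + Real.exp t) * (1 - Real.exp t / (1 + Real.exp t)) ≤ Real.exp (-|t|) := by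
  have h0 := sig_pos t
  have h1 := sig_lt_one t
  have p := Real.exp_pos t
  rcases abs_cases t with ⟨h, _⟩ | ⟨h, _⟩
  · rw [h, Real.exp_neg]
    have : 1 - Real.exp t / (1 + Real.exp t) ≤ (Real.exp t)⁻¹ := by
      have e : 1 - Real.exp t / (1 + Real.exp t) = (1 + Real.exp t)⁻¹ := by
        field_simp
        ring
      rw [e]
      exact inv_anti₀ p (by linarith)
    nlinarith
  · rw [h, neg_neg]
    have : Real.exp t / (1 + Real.exp t) ≤ Real.exp t := div_le_self p.le (by linarith)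
    nlinarith

end SumLevi

/-- **Levi part of SUM, logistic form.** With `d = N (B - A)`, `f = e^d / (1 + e^d)` and the
weight `φ + ep (N A + log (1 + e^d))`: the weight is plurisubharmonic at `x` and
`|∂̄ f|² ≤ f (1 - f) / ep * levi`. -/
theorem sum_levi_sig {φ A B : (ι → ℂ) → ℝ} {x : ι → ℂ} (hφ : ContDiffAt ℝ 2 φ x)
    (hA : ContDiffAt ℝ 2 A x) (hB : ContDiffAt ℝ 2 B x) {N ep : ℝ} (hN : 0 ≤ N) (hep : 0 < ep)
    (ξ : ι → ℂ) (pφ : 0 ≤ levi φ x ξ) (pA : 0 ≤ levi A x ξ) (pB : 0 ≤ levi B x ξ) :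
    0 ≤ levi (fun y => φ y + ep * (N * A y + Real.log (1 + Real.exp (N * (B y - A y))))) x ξ ∧
    ‖dbar (fun y => ((Real.exp (N * (B y - A y)) / (1 + Real.exp (N * (B y - A y))) : ℝ) : ℂ))
        x ξ‖ ^ 2 ≤
      Real.exp (N * (B x - A x)) / (1 + Real.exp (N * (B x - A x))) *
          (1 - Real.exp (N * (B x - A x)) / (1 + Real.exp (N * (B x - A x)))) / ep *
        levi (fun y => φ y + ep * (N * A y + Real.log (1 + Real.exp (N * (B y - A y))))) x ξ := by
  have cd : ContDiffAt ℝ 2 (fun y => N * (B y - A y)) x := contDiffAt_const.mul (hB.sub hA)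
  have cL : ContDiffAt ℝ 2 (fun y => Real.log (1 + Real.exp (N * (B y - A y)))) x :=
    contDiff_lg.contDiffAt.comp x cd
  have cA : ContDiffAt ℝ 2 (fun y => N * A y) x := contDiffAt_const.mul hA
  have e1 : deriv (fun s : ℝ => Real.log (1 + Real.exp s)) =
      fun s => Real.exp s / (1 + Real.exp s) := funext fun s => (hasDerivAt_lg s).deriv
  have h1 := levi_comp_real (χ := fun s : ℝ => Real.log (1 + Real.exp s))
    (φ := fun y => N * (B y - A y)) contDiff_lg.contDiffAt cd ξ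
  have h2 := dbar_comp_real (χ := fun s : ℝ => Real.exp s / (1 + Real.exp s))
    (φ := fun y => N * (B y - A y)) (hasDerivAt_sig _).differentiableAt
    (cd.differentiableAt (by norm_num)) ξ
  rw [e1, (hasDerivAt_sig _).deriv, levi_const_mul N (hB.sub hA), levi_sub hB hA] at h1
  rw [(hasDerivAt_sig _).deriv] at h2
  rw [levi_add hφ (contDiffAt_const.mul (cA.add cL)), levi_const_mul ep (cA.add cL),
    levi_add cA cL, levi_const_mul N hA, h1, h2, norm_mul, mul_pow, Complex.norm_real,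
    Real.norm_eq_abs, sq_abs]
  have s0 := sig_pos (N * (B x - A x))
  have s1 := sig_lt_one (N * (B x - A x))
  set s := Real.exp (N * (B x - A x)) / (1 + Real.exp (N * (B x - A x)))
  set q := ‖dbar (fun y => ((N * (B y - A y) : ℝ) : ℂ)) x ξ‖ ^ 2
  have q0 : 0 ≤ q := sq_nonneg _
  have s2 : 0 < 1 - s := by linarith
  have k : 0 ≤ N * levi A x ξ + s * (N * (levi B x ξ - levi A x ξ)) := by
    have : N * levi A x ξ + s * (N * (levi B x ξ - levi A x ξ)) =
        (1 - s) * (N * levi A x ξ) + s * (N * levi B x ξ) := by ring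
    rw [this]
    positivity
  have k2 : ep * (s * (1 - s) * q) ≤ levi φ x ξ + ep * (N * levi A x ξ +
      (s * (N * (levi B x ξ - levi A x ξ)) + s * (1 - s) * q)) := by
    nlinarith [mul_nonneg hep.le k]
  refine ⟨le_trans (by positivity) k2, ?_⟩
  calc (s * (1 - s)) ^ 2 * q = s * (1 - s) / ep * (ep * (s * (1 - s) * q)) := by
        field_simp
    _ ≤ _ := by gcongr

/-- the extra weight lies between `N max` and `N max + log 2` -/
theorem sum_wt_bounds {a b N : ℝ} (hN : 0 ≤ N) :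
    N * max a b ≤ N * a + Real.log (1 + Real.exp (N * (b - a))) ∧
      N * a + Real.log (1 + Real.exp (N * (b - a))) ≤ N * max a b + Real.log 2 := by
  have p := Real.exp_pos (N * (b - a))
  rcases le_total a b with h | h
  · rw [max_eq_right h]
    have h1 : 1 ≤ Real.exp (N * (b - a)) := Real.one_le_exp (mul_nonneg hN (by linarith))
    have l1 : N * (b - a) ≤ Real.log (1 + Real.exp (N * (b - a))) :=
      (Real.le_log_iff_exp_le (by positivity)).2 (by linarith)
    have l2 : Real.log (1 + Real.exp (N * (b - a))) ≤ Real.log (2 * Real.exp (N * (b - a))) :=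
      Real.log_le_log (by positivity) (by linarith)
    rw [Real.log_mul (by norm_num) p.ne', Real.log_exp] at l2
    constructor <;> nlinarith
  · rw [max_eq_left h]
    have h1 : Real.exp (N * (b - a)) ≤ 1 :=
      Real.exp_le_one_iff.2 (mul_nonpos_of_nonneg_of_nonpos hN (by linarith))
    have l1 : 0 ≤ Real.log (1 + Real.exp (N * (b - a))) := Real.log_nonneg (by linarith)
    have l2 : Real.log (1 + Real.exp (N * (b - a))) ≤ Real.log 2 :=
      Real.log_le_log (by positivity) (by linarith)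
    constructor <;> linarith

/-- pointwise bound for `h e^(-weight)` -/
theorem sum_h_bound {ψ a b N ep s c1 : ℝ} (hep : 0 < ep) (hs : 0 ≤ s) (hsc : s ≤ c1)
    (hN : c1 ≤ N) :
    Real.exp (N * (b - a)) / (1 + Real.exp (N * (b - a))) *
          (1 - Real.exp (N * (b - a)) / (1 + Real.exp (N * (b - a)))) / ep *
        Real.exp (-(ψ + s * a + (c1 - s) * b +
          ep * (N * a + Real.log (1 + Real.exp (N * (b - a)))))) ≤
      1 / ep * Real.exp (-(ψ + (c1 + ep * N) * max a b)) := by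
  have N0 : 0 ≤ N := hs.trans (hsc.trans hN)
  have h1 := sig_mul_le (N * (b - a))
  have h2 := (sum_wt_bounds (a := a) (b := b) N0).1
  set L := N * a + Real.log (1 + Real.exp (N * (b - a)))
  set σ := Real.exp (N * (b - a)) / (1 + Real.exp (N * (b - a))) *
    (1 - Real.exp (N * (b - a)) / (1 + Real.exp (N * (b - a))))
  have h3 : -|N * (b - a)| + -(ψ + s * a + (c1 - s) * b + ep * L) ≤
      -(ψ + (c1 + ep * N) * max a b) := by
    have h4 : ep * (N * max a b) ≤ ep * L := by gcongr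
    rw [abs_mul, abs_of_nonneg N0]
    rcases le_total a b with h | h
    · rw [max_eq_right h] at h4 ⊢
      rw [abs_of_nonneg (by linarith : 0 ≤ b - a)]
      nlinarith [mul_nonneg (by linarith : 0 ≤ N - s) (by linarith : 0 ≤ b - a)]
    · rw [max_eq_left h] at h4 ⊢
      rw [abs_of_nonpos (by linarith : b - a ≤ 0)]
      nlinarith [mul_nonneg (by linarith : 0 ≤ N - (c1 - s)) (by linarith : 0 ≤ a - b)]
  calc σ / ep * Real.exp (-(ψ + s * a + (c1 - s) * b + ep * L))
      ≤ Real.exp (-|N * (b - a)|) / ep * Real.exp (-(ψ + s * a + (c1 - s) * b + ep * L)) := by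
        gcongr
    _ = 1 / ep * Real.exp (-|N * (b - a)| + -(ψ + s * a + (c1 - s) * b + ep * L)) := by
        rw [Real.exp_add]
        ring
    _ ≤ _ := by gcongr

theorem SumLevi.sigmoid_eq (t : ℝ) : Real.sigmoid t = Real.exp t / (1 + Real.exp t) := by
  rw [Real.sigmoid_def, Real.exp_neg]
  have := Real.exp_pos t
  field_simp
  ring

omit [Fintype ι] in
/-- the logistic cut-off is controlled by the Levi form of the soft maximum -/
theorem logistic_levi {ι : Type} [Fintype ι] {A B : (ι → ℂ) → ℝ} {x : ι → ℂ}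
    (hA : ContDiffAt ℝ 2 A x) (hB : ContDiffAt ℝ 2 B x) {N : ℝ} (hN : 0 ≤ N) (ξ : ι → ℂ)
    (pA : 0 ≤ levi A x ξ) (pB : 0 ≤ levi B x ξ) :
    0 ≤ levi (fun y => N * A y + Real.log (1 + Real.exp (N * (B y - A y)))) x ξ ∧
    ‖dbar (fun y => ((Real.sigmoid (N * (B y - A y)) : ℝ) : ℂ)) x ξ‖ ^ 2 ≤
      Real.sigmoid (N * (B x - A x)) * (1 - Real.sigmoid (N * (B x - A x))) *
        levi (fun y => N * A y + Real.log (1 + Real.exp (N * (B y - A y)))) x ξ := by
  have h := sum_levi_sig (φ := fun _ => 0) contDiffAt_const hA hB hN one_pos ξ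
    (levi_const 0 x ξ).ge pA pB
  simpa only [SumLevi.sigmoid_eq, zero_add, one_mul, div_one] using h

end Pool.Agent.Lib.MP_9ff3e7_ag.F
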