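import Pool.Agent.Lib.MP_9ff3e7_ag.F.SumReg
import Pool.Agent.Lib.MP_9ff3e7_ag.F.SumLevi
import Pool.Agent.Lib.MP_9ff3e7_ag.F.CauchyEst
import Pool.Agent.Lib.MP_9ff3e7_ag.F.HB0

/-! The dichotomy behind the summation theorem. -/

set_option autoImplicit false

namespace Pool.Agent.Lib.MP_9ff3e7_ag.F

open Complex MeasureTheory Metric Filter Topology
open scoped ContDiff

variable {ι : Type} [Fintype ι]

namespace SumDi

theorem one_le_hi {z : ℂ} {f : ℝ} (hz : z.re ≤ 5 / 8) (h0 : 1 / 2 ≤ f) (h1 : f ≤ 1) :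
    1 ≤ 16 * ‖z - f‖ ^ 2 + 10 * (f * (1 - f)) := by
  have e : (z.re - f) ^ 2 ≤ ‖z - f‖ ^ 2 := by
    have := abs_re_le_norm (z - f)
    rw [sub_re, ofReal_re] at this
    exact sq_le_sq.2 (by rwa [abs_norm])
  rcases le_total f (7 / 8) with h | h
  · nlinarith [sq_nonneg (z.re - f)]
  · nlinarith

theorem one_le_lo {z : ℂ} {f : ℝ} (hz : 3 / 8 ≤ z.re) (h0 : 0 ≤ f) (h1 : f ≤ 1 / 2) :
    1 ≤ 16 * ‖z - f‖ ^ 2 + 10 * (f * (1 - f)) := by
  have e : (z.re - f) ^ 2 ≤ ‖z - f‖ ^ 2 := by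
    have := abs_re_le_norm (z - f)
    rw [sub_re, ofReal_re] at this
    exact sq_le_sq.2 (by rwa [abs_norm])
  rcases le_total f (1 / 8) with h | h
  · nlinarith
  · nlinarith [sq_nonneg (z.re - f)]

theorem sq_le_two {z : ℂ} {f φ K : ℝ} (h0 : 0 ≤ f) (h1 : f ≤ 1) (hK : φ ≤ K) :
    ‖z‖ ^ 2 ≤ 2 * Real.exp K * (‖z - f‖ ^ 2 * Real.exp (-φ)) + 2 := by
  have a : ‖z‖ ≤ ‖z - f‖ + 1 := by
    have := norm_add_le (z - f) f
    rw [sub_add_cancel, norm_real, Real.norm_of_nonneg h0] at this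
    linarith
  have b : 1 ≤ Real.exp K * Real.exp (-φ) := by
    rw [← Real.exp_add]
    exact Real.one_le_exp (by linarith)
  nlinarith [norm_nonneg z, norm_nonneg (z - f), sq_nonneg (‖z - f‖ - 1),
    mul_le_mul_of_nonneg_left b (sq_nonneg ‖z - f‖)]

theorem card_lt (k : ℕ) {R : ℝ} (hR : 0 < R) : (k : ℝ) * (R / (k + 1)) ^ 2 < R ^ 2 := by
  rw [div_pow, ← mul_div_assoc, div_lt_iff₀ (by positivity)]
  have : (0 : ℝ) ≤ k := Nat.cast_nonneg k
  nlinarith [mul_pos hR hR, mul_nonneg (mul_pos hR hR).le this,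
    mul_nonneg (mul_pos hR hR).le (mul_nonneg this this)]

end SumDi

open SumDi

/-- a cut-off function whose `∂̄` is controlled by the weight: the density is small on one of the
two sides, with constants that do not depend on the weight -/
theorem cut_dicho (H : HormSt ι) (p : ι → ℂ) {R : ℝ} (hR : 0 < R) (K : ℝ) {ep : ℝ} (hep : 0 < ep)
    {C : ENNReal} (hC : C ≠ ⊤) :
    ∃ (ρ : ℝ) (C' : ENNReal), 0 < ρ ∧ ρ ≤ R ∧ C' ≠ ⊤ ∧ ∀ φ f : (ι → ℂ) → ℝ,
      (∀ x ∈ ball p R, ContDiffAt ℝ ∞ φ x) → (∀ x ∈ ball p R, ContDiffAt ℝ ∞ f x) →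
      (∀ x ∈ ball p R, φ x ≤ K) → (∀ x, 0 ≤ f x) → (∀ x, f x ≤ 1) →
      (∀ x ∈ ball p R, ∀ ξ, 0 ≤ levi φ x ξ) →
      (∀ x ∈ ball p R, ∀ ξ,
        ‖dbar (fun y => (f y : ℂ)) x ξ‖ ^ 2 ≤ f x * (1 - f x) / ep * levi φ x ξ) →
      ∫⁻ x in ball p R, ENNReal.ofReal (f x * (1 - f x) / ep * Real.exp (-φ x)) ≤ C →
      (∀ V, MeasurableSet V → V ⊆ ball p ρ → (∀ x ∈ V, 1 / 2 ≤ f x) →
          ∫⁻ x in V, ENNReal.ofReal (Real.exp (-φ x)) ≤ C') ∨
        ∀ V, MeasurableSet V → V ⊆ ball p ρ → (∀ x ∈ V, f x ≤ 1 / 2) →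
          ∫⁻ x in V, ENNReal.ofReal (Real.exp (-φ x)) ≤ C' := by
  classical
  set r := R / ((Fintype.card ι : ℝ) + 1) with hr
  have r0 : 0 < r := by positivity
  have rR : r ≤ R := div_le_self hR.le (by linarith [Nat.cast_nonneg (α := ℝ) (Fintype.card ι)])
  have c1 : C + ENNReal.ofReal 1 ≠ ⊤ := ENNReal.add_ne_top.2 ⟨hC, ENNReal.ofReal_ne_top⟩
  obtain ⟨ρ, ρ0, ρr, hρ⟩ := equi_l2 ι (ε := 1 / 8) r0 (by norm_num)
    (C := ENNReal.ofReal (2 * Real.exp K) * (C + ENNReal.ofReal 1) +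
      ENNReal.ofReal 2 * volume (ball p r))
    (ENNReal.add_ne_top.2 ⟨ENNReal.mul_ne_top ENNReal.ofReal_ne_top c1,
      ENNReal.mul_ne_top ENNReal.ofReal_ne_top measure_ball_lt_top.ne⟩)
  refine ⟨ρ, ENNReal.ofReal 16 * (C + ENNReal.ofReal 1) + ENNReal.ofReal (10 * ep) * C, ρ0,
    ρr.trans rR, ENNReal.add_ne_top.2 ⟨ENNReal.mul_ne_top ENNReal.ofReal_ne_top c1,
      ENNReal.mul_ne_top ENNReal.ofReal_ne_top hC⟩, fun φ f sφ sf hK f0 f1 psh hb hI => ?_⟩
  have cφ : ContinuousOn φ (ball p R) := fun x hx => (sφ x hx).continuousAt.continuousWithinAt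
  have cf : ContinuousOn f (ball p R) := fun x hx => (sf x hx).continuousAt.continuousWithinAt
  have ch : ContinuousOn (fun x => f x * (1 - f x) / ep) (ball p R) :=
    (cf.mul (continuousOn_const.sub cf)).div_const ep
  have h0 : ∀ x, 0 ≤ f x * (1 - f x) / ep := fun x =>
    div_nonneg (mul_nonneg (f0 x) (sub_nonneg.2 (f1 x))) hep.le
  obtain ⟨F, hF, hFi⟩ := hormander_ball_of H p hR (card_lt (Fintype.card ι) hR) φ
    (fun x hx => (sφ x hx).contDiffWithinAt) psh (fun y => (f y : ℂ))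
    (fun x hx => (ofRealCLM.contDiff.contDiffAt.comp x (sf x hx)).contDiffWithinAt)
    ((ball p R).piecewise (fun x => f x * (1 - f x) / ep) fun _ => 0)
    (ch.measurable_piecewise continuousOn_const measurableSet_ball)
    (fun x => by
      by_cases hx : x ∈ ball p R
      · rw [Set.piecewise_eq_of_mem _ _ _ hx]
        exact h0 x
      · rw [Set.piecewise_eq_of_notMem _ _ _ hx])
    (fun x hx ξ => by
      rw [Set.piecewise_eq_of_mem _ _ _ hx]
      exact hb x hx ξ) one_pos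
  have hF1 : ∫⁻ x in ball p r, ENNReal.ofReal (‖F x - f x‖ ^ 2 * Real.exp (-φ x)) ≤
      C + ENNReal.ofReal 1 := by
    refine hFi.trans (add_le_add_left (le_trans (le_of_eq ?_) hI) _)
    exact setLIntegral_congr_fun measurableSet_ball fun x hx => by
      simp only [Set.piecewise_eq_of_mem _ _ _ hx]
  have hF2 : ∫⁻ x in ball p r, ENNReal.ofReal (‖F x‖ ^ 2) ≤
      ENNReal.ofReal (2 * Real.exp K) * (C + ENNReal.ofReal 1) +
        ENNReal.ofReal 2 * volume (ball p r) := by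
    calc ∫⁻ x in ball p r, ENNReal.ofReal (‖F x‖ ^ 2)
        ≤ ∫⁻ x in ball p r, (ENNReal.ofReal (2 * Real.exp K) *
            ENNReal.ofReal (‖F x - f x‖ ^ 2 * Real.exp (-φ x)) + ENNReal.ofReal 2) := by
          refine setLIntegral_mono' measurableSet_ball fun x hx => ?_
          rw [← ENNReal.ofReal_mul (by positivity),
            ← ENNReal.ofReal_add (by positivity) (by norm_num)]
          exact ENNReal.ofReal_le_ofReal
            (sq_le_two (f0 x) (f1 x) (hK x (ball_subset_ball rR hx)))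
      _ ≤ _ := by
          rw [lintegral_add_right _ measurable_const,
            lintegral_const_mul' _ _ ENNReal.ofReal_ne_top, setLIntegral_const]
          exact add_le_add_left (mul_le_mul_right hF1 _) _
  have hE := hρ F p hF.differentiableOn hF2
  have key : ∀ V, MeasurableSet V → V ⊆ ball p ρ →
      (∀ x ∈ V, 1 ≤ 16 * ‖F x - f x‖ ^ 2 + 10 * (f x * (1 - f x))) →
      ∫⁻ x in V, ENNReal.ofReal (Real.exp (-φ x)) ≤
        ENNReal.ofReal 16 * (C + ENNReal.ofReal 1) + ENNReal.ofReal (10 * ep) * C := by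
    intro V hV hVρ hx1
    have Vr : V ⊆ ball p r := hVρ.trans (ball_subset_ball ρr)
    have VR : V ⊆ ball p R := Vr.trans (ball_subset_ball rR)
    have am : AEMeasurable (fun x => ENNReal.ofReal (10 * ep) *
        ENNReal.ofReal (f x * (1 - f x) / ep * Real.exp (-φ x))) (volume.restrict V) :=
      ((((ch.mul (Real.continuous_exp.comp_continuousOn cφ.neg)).mono VR).aemeasurable
        hV).ennreal_ofReal).const_mul _
    calc ∫⁻ x in V, ENNReal.ofReal (Real.exp (-φ x))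
        ≤ ∫⁻ x in V, (ENNReal.ofReal 16 * ENNReal.ofReal (‖F x - f x‖ ^ 2 * Real.exp (-φ x)) +
            ENNReal.ofReal (10 * ep) *
              ENNReal.ofReal (f x * (1 - f x) / ep * Real.exp (-φ x))) := by
          refine setLIntegral_mono' hV fun x hx => ?_
          have p1 := Real.exp_pos (-φ x)
          have p2 := h0 x
          rw [← ENNReal.ofReal_mul (by norm_num), ← ENNReal.ofReal_mul (by positivity),
            ← ENNReal.ofReal_add (by positivity) (by positivity)]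
          refine ENNReal.ofReal_le_ofReal ?_
          have e : 10 * ep * (f x * (1 - f x) / ep * Real.exp (-φ x)) =
              10 * (f x * (1 - f x)) * Real.exp (-φ x) := by
            field_simp
          rw [e]
          nlinarith [mul_le_mul_of_nonneg_right (hx1 x hx) p1.le]
      _ ≤ _ := by
          rw [lintegral_add_right' _ am, lintegral_const_mul' _ _ ENNReal.ofReal_ne_top,
            lintegral_const_mul' _ _ ENNReal.ofReal_ne_top]
          exact add_le_add (mul_le_mul_right ((lintegral_mono_set Vr).trans hF1) _)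
            (mul_le_mul_right ((lintegral_mono_set VR).trans hI) _)
  have hre : ∀ x ∈ ball p ρ, |(F x).re - (F p).re| ≤ 1 / 8 := fun x hx => by
    rw [← sub_re]
    exact (abs_re_le_norm _).trans (hE x hx)
  rcases le_total (F p).re (1 / 2) with h | h
  · exact Or.inl fun V hV hVρ hf => key V hV hVρ fun x hx =>
      one_le_hi (by linarith [(abs_le.1 (hre x (hVρ hx))).2]) (hf x hx) (f1 x)
  · exact Or.inr fun V hV hVρ hf => key V hV hVρ fun x hx =>
      one_le_lo (by linarith [(abs_le.1 (hre x (hVρ hx))).1]) (f0 x) (hf x hx)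

namespace SumDi

theorem half_le_sig {t : ℝ} (ht : 0 ≤ t) : 1 / 2 ≤ Real.exp t / (1 + Real.exp t) := by
  rw [le_div_iff₀ (by positivity)]
  linarith [Real.one_le_exp ht]

theorem sig_le_half {t : ℝ} (ht : t ≤ 0) : Real.exp t / (1 + Real.exp t) ≤ 1 / 2 := by
  rw [div_le_iff₀ (by positivity)]
  linarith [Real.exp_le_one_iff.2 ht]

theorem max_log {a b e : ℝ} (ha : 0 ≤ a) (hb : 0 ≤ b) (he : 0 < e) :
    max (Real.log (a + e)) (Real.log (b + e)) = Real.log (max a b + e) := by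
  rcases le_total a b with h | h
  · rw [max_eq_right h, max_eq_right (Real.log_le_log (by linarith) (by linarith))]
  · rw [max_eq_left h, max_eq_left (Real.log_le_log (by linarith) (by linarith))]

theorem exp_le_two {u v : ℝ} (h : v ≤ u + Real.log 2) :
    ENNReal.ofReal (Real.exp (-u)) ≤ ENNReal.ofReal 2 * ENNReal.ofReal (Real.exp (-v)) := by
  rw [← ENNReal.ofReal_mul (by norm_num)]
  refine ENNReal.ofReal_le_ofReal ?_
  rw [← Real.exp_log (show (0 : ℝ) < 2 by norm_num), ← Real.exp_add]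
  exact Real.exp_le_exp.2 (by linarith)

theorem wt_le {A B c δ : ℝ} (hδ : 0 < δ) (hc : δ ≤ c) :
    δ / c * (c * A + Real.log (1 + Real.exp (c * (B - A)))) ≤ δ * max A B + Real.log 2 := by
  have c0 : 0 < c := hδ.trans_le hc
  have h1 := mul_le_mul_of_nonneg_left (sum_wt_bounds (a := A) (b := B) c0.le).2
    (div_pos hδ c0).le
  have h2 : δ / c * (c * max A B + Real.log 2) = δ * max A B + δ / c * Real.log 2 := by
    field_simp
  have h3 : δ / c * Real.log 2 ≤ Real.log 2 :=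
    mul_le_of_le_one_left (Real.log_nonneg (by norm_num)) ((div_le_one c0).2 hc)
  linarith

end SumDi

/-- the dichotomy for one exponent -/
theorem sum_dicho {ι : Type} [Fintype ι] (H0 : HormSt ι) (p : ι → ℂ) {R : ℝ} (hR : 0 < R)
    {D : (ι → ℂ) → ENNReal} {Ψ : ℕ → (ι → ℂ) → ℝ} (hD : Reg (ball p R) D Ψ)
    {a b : (ι → ℂ) → ℝ} (ha : Sos (ball p R) a) (hb : Sos (ball p R) b) {c δ s : ℝ}
    (hδ : 0 < δ) (hs : 0 ≤ s) (hsc : s + δ ≤ c)
    (h : ∫⁻ w in ball p R, D w * ENNReal.ofReal (max (a w) (b w)) ^ (-c) < ⊤) :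
    ∃ ρ : ℝ, 0 < ρ ∧ ρ ≤ R ∧
      (∫⁻ w in ball p ρ ∩ {w | a w < b w},
          D w * ENNReal.ofReal (a w) ^ (-s) * ENNReal.ofReal (b w) ^ (-(c - s)) < ⊤ ∨
        ∫⁻ w in ball p ρ ∩ {w | b w ≤ a w},
          D w * ENNReal.ofReal (a w) ^ (-(s + δ)) * ENNReal.ofReal (b w) ^ (-(c - (s + δ))) < ⊤) := by
  have δc : δ ≤ c := by linarith
  have c0 : 0 < c := hδ.trans_le δc
  have ep0 : 0 < δ / c := div_pos hδ c0
  have he : ∀ m : ℕ, (0 : ℝ) < 1 / ((m : ℝ) + 1) := fun m => by positivity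
  obtain ⟨A, hA⟩ : ∃ A : ℕ → (ι → ℂ) → ℝ,
      A = fun (m : ℕ) x => Real.log (a x + 1 / ((m : ℝ) + 1)) := ⟨_, rfl⟩
  obtain ⟨B, hB⟩ : ∃ B : ℕ → (ι → ℂ) → ℝ,
      B = fun (m : ℕ) x => Real.log (b x + 1 / ((m : ℝ) + 1)) := ⟨_, rfl⟩
  have reg : ∀ s' t' : ℝ, 0 ≤ s' → 0 ≤ t' → Reg (ball p R)
      (fun w => D w * ENNReal.ofReal (a w) ^ (-s') * ENNReal.ofReal (b w) ^ (-t'))
      (fun m x => Ψ m x + s' * A m x + t' * B m x) := fun s' t' h1 h2 => by
    rw [hA, hB]
    exact (hD.mul (ha.reg h1)).mul (hb.reg h2)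
  have sA : ∀ m, ∀ x ∈ ball p R, ContDiffAt ℝ ∞ (A m) x := fun m x hx => by
    rw [hA]
    exact ha.sm _ (he m) x hx
  have sB : ∀ m, ∀ x ∈ ball p R, ContDiffAt ℝ ∞ (B m) x := fun m x hx => by
    rw [hB]
    exact hb.sm _ (he m) x hx
  have pA : ∀ m, ∀ x ∈ ball p R, ∀ ξ, 0 ≤ levi (A m) x ξ := fun m x hx ξ => by
    rw [hA]
    exact ha.psh _ (he m) x hx ξ
  have pB : ∀ m, ∀ x ∈ ball p R, ∀ ξ, 0 ≤ levi (B m) x ξ := fun m x hx ξ => by
    rw [hB]
    exact hb.psh _ (he m) x hx ξ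
  have hmax : ∀ m x, max (A m x) (B m x) = Real.log (max (a x) (b x) + 1 / ((m : ℝ) + 1)) :=
    fun m x => by
      rw [hA, hB]
      exact max_log (ha.nn x) (hb.nn x) (he m)
  have hAB : ∀ m x, a x ≤ b x → A m x ≤ B m x := fun m x hx => by
    rw [hA, hB]
    exact Real.log_le_log (by linarith [ha.nn x, he m]) (by linarith)
  have hBA : ∀ m x, b x ≤ a x → B m x ≤ A m x := fun m x hx => by
    rw [hA, hB]
    exact Real.log_le_log (by linarith [hb.nn x, he m]) (by linarith)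
  have r0 := reg s (c - δ - s) hs (by linarith)
  obtain ⟨K0, hK0⟩ := r0.bd
  obtain ⟨KA, hKA⟩ := ha.log_le
  obtain ⟨KB, hKB⟩ := hb.log_le
  have hM : ∀ m, ∀ x ∈ ball p R, max (A m x) (B m x) ≤ max KA KB := fun m x hx => by
    rw [hA, hB]
    exact max_le_max (hKA m x hx) (hKB m x hx)
  obtain ⟨ρ, C', ρ0, ρR, hC', H⟩ := cut_dicho H0 p hR (K0 + (δ * max KA KB + Real.log 2)) ep0
    (C := ENNReal.ofReal (1 / (δ / c)) *
      ∫⁻ w in ball p R, D w * ENNReal.ofReal (max (a w) (b w)) ^ (-c))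
    (ENNReal.mul_ne_top ENNReal.ofReal_ne_top h.ne)
  have cab : ContinuousOn (fun w => b w - a w) (ball p ρ) :=
    (hb.cont.sub ha.cont).mono (ball_subset_ball ρR)
  have m1 : MeasurableSet (ball p ρ ∩ {w | a w < b w}) := by
    have := (cab.isOpen_inter_preimage isOpen_ball (isOpen_Ioi (a := 0))).measurableSet
    simpa [Set.preimage] using this
  have m2 : MeasurableSet (ball p ρ ∩ {w | b w ≤ a w}) := by
    have e : ball p ρ ∩ {w | b w ≤ a w} = ball p ρ \ (ball p ρ ∩ {w | a w < b w}) := by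
      ext w
      simp only [Set.mem_inter_iff, Set.mem_ofPred_eq, Set.mem_sdiff, not_and, not_lt]
      tauto
    rw [e]
    exact measurableSet_ball.diff m1
  have lev : ∀ m : ℕ,
      ∫⁻ x in ball p ρ ∩ {w | a w < b w},
          ENNReal.ofReal (Real.exp (-(Ψ m x + s * A m x + (c - s) * B m x))) ≤
          ENNReal.ofReal 2 * C' ∨
        ∫⁻ x in ball p ρ ∩ {w | b w ≤ a w},
          ENNReal.ofReal (Real.exp (-(Ψ m x + (s + δ) * A m x + (c - (s + δ)) * B m x))) ≤
          ENNReal.ofReal 2 * C' := by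
    intro m
    have sd : ∀ x ∈ ball p R, ContDiffAt ℝ ∞ (fun y => c * (B m y - A m y)) x := fun x hx =>
      contDiffAt_const.mul ((sB m x hx).sub (sA m x hx))
    have L := fun x (hx : x ∈ ball p R) ξ => sum_levi_sig ((r0.sm m x hx).of_le two_le_inf)
      ((sA m x hx).of_le two_le_inf) ((sB m x hx).of_le two_le_inf) c0.le ep0 ξ
      (r0.psh m x hx ξ) (pA m x hx ξ) (pB m x hx ξ)
    have := H (fun y => Ψ m y + s * A m y + (c - δ - s) * B m y +
        δ / c * (c * A m y + Real.log (1 + Real.exp (c * (B m y - A m y)))))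
      (fun y => Real.exp (c * (B m y - A m y)) / (1 + Real.exp (c * (B m y - A m y))))
      (fun x hx => (r0.sm m x hx).add (contDiffAt_const.mul
        ((contDiffAt_const.mul (sA m x hx)).add
          (SumLevi.contDiff_lg.contDiffAt.comp x (sd x hx)))))
      (fun x hx => SumLevi.contDiff_sig.contDiffAt.comp x (sd x hx))
      (fun x hx => add_le_add (hK0 m x hx) ((wt_le hδ δc).trans
        (add_le_add_left (mul_le_mul_of_nonneg_left (hM m x hx) hδ.le) _)))
      (fun x => (SumLevi.sig_pos _).le) (fun x => (SumLevi.sig_lt_one _).le)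
      (fun x hx ξ => (L x hx ξ).1) (fun x hx ξ => (L x hx ξ).2) (by
        rw [← lintegral_const_mul' _ _ ENNReal.ofReal_ne_top]
        refine setLIntegral_mono' measurableSet_ball fun x hx => ?_
        refine (ENNReal.ofReal_le_ofReal
          (sum_h_bound ep0 hs (by linarith) (by linarith))).trans ?_
        have e : c - δ + δ / c * c = c := by
          field_simp
          ring
        have p1 : 0 < max (a x) (b x) + 1 / ((m : ℝ) + 1) := by
          linarith [le_max_left (a x) (b x), ha.nn x, he m]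
        rw [e, hmax, ENNReal.ofReal_mul (by positivity), neg_add, Real.exp_add,
          ENNReal.ofReal_mul (Real.exp_pos _).le, ofReal_exp_neg_log p1]
        exact mul_le_mul_right (mul_le_mul' (hD.le m x hx)
          (rpow_neg_anti (ENNReal.ofReal_le_ofReal (by linarith [he m])) c0.le)) _)
    rcases this with H1 | H1
    · refine Or.inl (le_trans ?_ (mul_le_mul_right (H1 _ m1 Set.inter_subset_left fun x hx =>
        half_le_sig (mul_nonneg c0.le (sub_nonneg.2 (hAB m x (le_of_lt hx.2))))) _))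
      rw [← lintegral_const_mul' _ _ ENNReal.ofReal_ne_top]
      refine setLIntegral_mono' m1 fun x hx => exp_le_two ?_
      have := wt_le (A := A m x) (B := B m x) hδ δc
      rw [max_eq_right (hAB m x (le_of_lt hx.2))] at this
      linarith
    · refine Or.inr (le_trans ?_ (mul_le_mul_right (H1 _ m2 Set.inter_subset_left fun x hx =>
        sig_le_half (mul_nonpos_of_nonneg_of_nonpos c0.le (sub_nonpos.2 (hBA m x hx.2)))) _))
      rw [← lintegral_const_mul' _ _ ENNReal.ofReal_ne_top]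
      refine setLIntegral_mono' m2 fun x hx => exp_le_two ?_
      have := wt_le (A := A m x) (B := B m x) hδ δc
      rw [max_eq_left (hBA m x hx.2)] at this
      linarith
  have fin : ENNReal.ofReal 2 * C' < ⊤ := (ENNReal.mul_ne_top ENNReal.ofReal_ne_top hC').lt_top
  have sub : ∀ W : Set (ι → ℂ), ball p ρ ∩ W ⊆ ball p R := fun W =>
    Set.inter_subset_left.trans (ball_subset_ball ρR)
  refine ⟨ρ, ρ0, ρR, ?_⟩
  rcases frequently_or_distrib.1 (Frequently.of_forall (f := atTop) lev) with H1 | H1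
  · exact Or.inl (((reg s (c - s) hs (by linarith)).fatou m1 (sub _) H1).trans_lt fin)
  · exact Or.inr
      (((reg (s + δ) (c - (s + δ)) (by linarith) (by linarith)).fatou m2 (sub _) H1).trans_lt fin)

end Pool.Agent.Lib.MP_9ff3e7_ag.F
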