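import Pool.Agent.Lib.MP_9ff3e7_ag.F.SumK4b
import Pool.Agent.Lib.MP_9ff3e7_ag.F.SumDi
import Pool.Agent.Lib.MP_9ff3e7_ag.F.Horm

/-! The summation formula on a model. -/

set_option autoImplicit false

namespace Pool.Agent.Lib.MP_9ff3e7_ag.F

open Finsupp

theorem dichoSt (ι : Type) [Fintype ι] : DichoSt ι :=
  fun p _ hR _ _ hD _ _ ha hb _ _ _ hδ hs hsc h =>
    sum_dicho (fun a b c d e f g h i j => hormander a b c d e f g h i j) p hR hD ha hb hδ hs hsc h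

variable {n : ℕ} {O : Type} [CommRing O] [Algebra ℂ O] [Algebra (MvPolynomial (Fin n) ℂ) O]

theorem Model.klt_sum (M : Model n O) (p : Pnt O) (D : Ideal O →₀ ℝ) (a b : Ideal O) (c ν : ℝ)
    (hD : 0 ≤ D) (hc : 0 ≤ c) (hν : 0 < ν) (hk : M.Klt p (D + single (a + b) c)) :
    ∃ s t, 0 ≤ s ∧ 0 ≤ t ∧ c - ν ≤ s + t ∧ M.Klt p (D + single a s + single b t) :=
  M.klt_sum_of (dichoSt _) p D a b c ν hD hc hν hk

end Pool.Agent.Lib.MP_9ff3e7_ag.F
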