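import Pool.Agent.Lib.MP_9ff3e7_ag.F.LeviC

/-! Regularised plurisubharmonic weights and their densities. -/

set_option autoImplicit false

namespace Pool.Agent.Lib.MP_9ff3e7_ag.F

open MeasureTheory Metric Filter Topology
open scoped ContDiff

variable {ι : Type} [Fintype ι]

/-- smooth plurisubharmonic weights on `S`, bounded above, whose densities tend to `D` from
below -/
structure Reg (S : Set (ι → ℂ)) (D : (ι → ℂ) → ENNReal) (Ψ : ℕ → (ι → ℂ) → ℝ) : Prop where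
  sm : ∀ m, ∀ x ∈ S, ContDiffAt ℝ ∞ (Ψ m) x
  psh : ∀ m, ∀ x ∈ S, ∀ ξ, 0 ≤ levi (Ψ m) x ξ
  bd : ∃ K : ℝ, ∀ m, ∀ x ∈ S, Ψ m x ≤ K
  le : ∀ m, ∀ x ∈ S, ENNReal.ofReal (Real.exp (-Ψ m x)) ≤ D x
  lim : ∀ x ∈ S, Tendsto (fun m => ENNReal.ofReal (Real.exp (-Ψ m x))) atTop (𝓝 (D x))

/-- a function that behaves like a bounded sum of squares of holomorphic functions on `S` -/
structure Sos (S : Set (ι → ℂ)) (a : (ι → ℂ) → ℝ) : Prop where
  nn : ∀ x, 0 ≤ a x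
  sm : ∀ e : ℝ, 0 < e → ∀ x ∈ S, ContDiffAt ℝ ∞ (fun y => Real.log (a y + e)) x
  psh : ∀ e : ℝ, 0 < e → ∀ x ∈ S, ∀ ξ, 0 ≤ levi (fun y => Real.log (a y + e)) x ξ
  bd : ∃ K : ℝ, ∀ x ∈ S, a x ≤ K
  cont : ContinuousOn a S

theorem two_le_inf : (2 : WithTop ℕ∞) ≤ ∞ :=
  WithTop.coe_le_coe.2 (le_top : (2 : ℕ∞) ≤ ⊤)

variable {S : Set (ι → ℂ)}

theorem Reg.ne_zero {D : (ι → ℂ) → ENNReal} {Ψ : ℕ → (ι → ℂ) → ℝ} (h : Reg S D Ψ) {x : ι → ℂ}
    (hx : x ∈ S) : D x ≠ 0 :=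
  ((ENNReal.ofReal_pos.2 (Real.exp_pos _)).trans_le (h.le 0 x hx)).ne'

theorem Reg.mono {S' : Set (ι → ℂ)} {D : (ι → ℂ) → ENNReal} {Ψ : ℕ → (ι → ℂ) → ℝ}
    (h : Reg S D Ψ) (hS : S' ⊆ S) : Reg S' D Ψ :=
  ⟨fun m x hx => h.sm m x (hS hx), fun m x hx => h.psh m x (hS hx),
    h.bd.imp fun _ hK m x hx => hK m x (hS hx), fun m x hx => h.le m x (hS hx),
    fun x hx => h.lim x (hS hx)⟩

theorem Reg.one : Reg S (fun _ => 1) (fun _ _ => 0) :=
  ⟨fun _ _ _ => contDiffAt_const, fun _ _ _ _ => by simp, ⟨0, fun _ _ _ => le_rfl⟩,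
    fun _ _ _ => by simp, fun _ _ => by simp⟩

theorem Reg.mul {D D' : (ι → ℂ) → ENNReal} {Ψ Ψ' : ℕ → (ι → ℂ) → ℝ} (h : Reg S D Ψ)
    (h' : Reg S D' Ψ') : Reg S (fun x => D x * D' x) (fun m x => Ψ m x + Ψ' m x) := by
  have e : ∀ m x, ENNReal.ofReal (Real.exp (-(Ψ m x + Ψ' m x))) =
      ENNReal.ofReal (Real.exp (-Ψ m x)) * ENNReal.ofReal (Real.exp (-Ψ' m x)) := fun m x => by
    rw [neg_add, Real.exp_add, ENNReal.ofReal_mul (Real.exp_pos _).le]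
  refine ⟨fun m x hx => (h.sm m x hx).add (h'.sm m x hx), fun m x hx ξ => ?_, ?_,
    fun m x hx => ?_, fun x hx => ?_⟩
  · rw [levi_add ((h.sm m x hx).of_le two_le_inf) ((h'.sm m x hx).of_le two_le_inf)]
    exact add_nonneg (h.psh m x hx ξ) (h'.psh m x hx ξ)
  · obtain ⟨K, hK⟩ := h.bd
    obtain ⟨K', hK'⟩ := h'.bd
    exact ⟨K + K', fun m x hx => add_le_add (hK m x hx) (hK' m x hx)⟩
  · rw [e]
    exact mul_le_mul' (h.le m x hx) (h'.le m x hx)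
  · simp only [e]
    exact ENNReal.Tendsto.mul (h.lim x hx) (Or.inl (h.ne_zero hx)) (h'.lim x hx)
      (Or.inl (h'.ne_zero hx))

theorem Reg.prod {α : Type*} (T : Finset α) {D : α → (ι → ℂ) → ENNReal}
    {Ψ : α → ℕ → (ι → ℂ) → ℝ} (h : ∀ a ∈ T, Reg S (D a) (Ψ a)) :
    Reg S (fun x => ∏ a ∈ T, D a x) (fun m x => ∑ a ∈ T, Ψ a m x) := by
  classical
  induction T using Finset.induction_on with
  | empty => simpa using Reg.one
  | insert a T ha ih =>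
    simp only [Finset.sum_insert ha, Finset.prod_insert ha]
    exact (h a (Finset.mem_insert_self _ _)).mul
      (ih fun b hb => h b (Finset.mem_insert_of_mem hb))

theorem ofReal_exp_neg_log {y c : ℝ} (hy : 0 < y) :
    ENNReal.ofReal (Real.exp (-(c * Real.log y))) = ENNReal.ofReal y ^ (-c) := by
  rw [ENNReal.ofReal_rpow_of_pos hy, Real.rpow_def_of_pos hy]
  congr 2
  ring

theorem rpow_neg_anti {x y : ENNReal} (h : x ≤ y) {c : ℝ} (hc : 0 ≤ c) : y ^ (-c) ≤ x ^ (-c) := by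
  rw [ENNReal.rpow_neg, ENNReal.rpow_neg]
  exact ENNReal.inv_le_inv.2 (ENNReal.rpow_le_rpow h hc)

theorem Sos.log_le {a : (ι → ℂ) → ℝ} (h : Sos S a) :
    ∃ K : ℝ, ∀ m : ℕ, ∀ x ∈ S, Real.log (a x + 1 / ((m : ℝ) + 1)) ≤ K := by
  obtain ⟨K, hK⟩ := h.bd
  refine ⟨K, fun m x hx => ?_⟩
  have h1 : 1 / ((m : ℝ) + 1) ≤ 1 := by
    rw [div_le_one (by positivity)]
    linarith [Nat.cast_nonneg (α := ℝ) m]
  have h2 : 0 < a x + 1 / ((m : ℝ) + 1) := by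
    have := h.nn x
    positivity
  linarith [Real.log_le_sub_one_of_pos h2, hK x hx]

theorem Sos.reg {a : (ι → ℂ) → ℝ} (h : Sos S a) {c : ℝ} (hc : 0 ≤ c) :
    Reg S (fun x => ENNReal.ofReal (a x) ^ (-c))
      (fun m x => c * Real.log (a x + 1 / ((m : ℝ) + 1))) := by
  have he : ∀ m : ℕ, (0 : ℝ) < 1 / ((m : ℝ) + 1) := fun m => by positivity
  have hp : ∀ (m : ℕ) x, 0 < a x + 1 / ((m : ℝ) + 1) := fun m x => by linarith [h.nn x, he m]
  refine ⟨fun m x hx => contDiffAt_const.mul (h.sm _ (he m) x hx), fun m x hx ξ => ?_, ?_,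
    fun m x _ => ?_, fun x _ => ?_⟩
  · rw [levi_const_mul c ((h.sm _ (he m) x hx).of_le two_le_inf)]
    exact mul_nonneg hc (h.psh _ (he m) x hx ξ)
  · obtain ⟨K, hK⟩ := h.log_le
    exact ⟨c * K, fun m x hx => mul_le_mul_of_nonneg_left (hK m x hx) hc⟩
  · rw [ofReal_exp_neg_log (hp m x)]
    exact rpow_neg_anti (ENNReal.ofReal_le_ofReal (by linarith [he m])) hc
  · simp only [ofReal_exp_neg_log (hp _ x)]
    have t : Tendsto (fun m : ℕ => a x + 1 / ((m : ℝ) + 1)) atTop (𝓝 (a x)) := by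
      simpa using (tendsto_const_nhds (x := a x)).add
        (tendsto_one_div_add_atTop_nhds_zero_nat (𝕜 := ℝ))
    exact (ENNReal.continuous_rpow_const.tendsto _).comp (ENNReal.tendsto_ofReal t)

theorem Reg.aemeas {D : (ι → ℂ) → ENNReal} {Ψ : ℕ → (ι → ℂ) → ℝ} (h : Reg S D Ψ)
    {V : Set (ι → ℂ)} (hV : MeasurableSet V) (hVS : V ⊆ S) (m : ℕ) :
    AEMeasurable (fun x => ENNReal.ofReal (Real.exp (-Ψ m x))) (volume.restrict V) := by
  have c : ContinuousOn (Ψ m) V := fun x hx =>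
    (h.sm m x (hVS hx)).continuousAt.continuousWithinAt
  exact ((Real.continuous_exp.comp_continuousOn c.neg).aemeasurable hV).ennreal_ofReal

/-- Fatou's lemma along a subsequence -/
theorem Reg.fatou {D : (ι → ℂ) → ENNReal} {Ψ : ℕ → (ι → ℂ) → ℝ} (h : Reg S D Ψ)
    {V : Set (ι → ℂ)} (hV : MeasurableSet V) (hVS : V ⊆ S) {C : ENNReal}
    (hC : ∃ᶠ m in atTop, ∫⁻ x in V, ENNReal.ofReal (Real.exp (-Ψ m x)) ≤ C) :
    ∫⁻ x in V, D x ≤ C := by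
  obtain ⟨φ, hφ, hP⟩ := extraction_of_frequently_atTop hC
  have e : ∫⁻ x in V, D x =
      ∫⁻ x in V, liminf (fun n => ENNReal.ofReal (Real.exp (-Ψ (φ n) x))) atTop :=
    setLIntegral_congr_fun hV fun x hx =>
      (((h.lim x (hVS hx)).comp hφ.tendsto_atTop).liminf_eq).symm
  rw [e]
  refine (lintegral_liminf_le' fun n => h.aemeas hV hVS (φ n)).trans ?_
  exact liminf_le_of_frequently_le' (Frequently.of_forall hP)

theorem sos_ball {κ : Type*} {p : ι → ℂ} {R : ℝ} (G : Finset κ) {u : κ → (ι → ℂ) → ℂ}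
    (hu : ∀ w ∈ closedBall p R, ∀ k ∈ G, AnalyticAt ℂ (u k) w) :
    Sos (ball p R) (fun w => ∑ k ∈ G, ‖u k w‖ ^ 2) := by
  have nn : ∀ w, 0 ≤ ∑ k ∈ G, ‖u k w‖ ^ 2 := fun w => Finset.sum_nonneg fun _ _ => sq_nonneg _
  have c : ContinuousOn (fun w => ∑ k ∈ G, ‖u k w‖ ^ 2) (closedBall p R) := fun w hw =>
    (contDiffAt_sum_normSq (n := 0) G (hu w hw)).continuousAt.continuousWithinAt
  refine ⟨nn, fun e he x hx => ?_, fun e he x hx ξ => ?_, ?_, c.mono ball_subset_closedBall⟩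
  · exact contDiffAt_log_sos G (hu x (ball_subset_closedBall hx)) (by linarith [nn x])
  · exact levi_log_sos_nonneg G (hu x (ball_subset_closedBall hx)) he.le (by linarith [nn x]) ξ
  · obtain ⟨K, hK⟩ := (isCompact_closedBall p R).bddAbove_image c
    exact ⟨K, fun x hx => hK ⟨x, ball_subset_closedBall hx, rfl⟩⟩

end Pool.Agent.Lib.MP_9ff3e7_ag.F
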