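import Pool.Agent.Lib.MP_9ff3e7_ag.F.SemiCrit
import Pool.Agent.Lib.MP_9ff3e7_ag.F.SumReg

/-! Semicontinuity of integrability, with the coefficients as parameters. -/

set_option autoImplicit false

namespace Pool.Agent.Lib.MP_9ff3e7_ag.F

open Complex MeasureTheory Metric Filter Topology
open scoped ContDiff

namespace SemiLoc

theorem real_le {E q θ ρ : ℝ} (hE : 0 < E) (hq : 0 < q) (h0 : 0 ≤ θ) (h1 : θ ≤ 1)
    (hρ : 1 + θ ≤ ρ) : q / (E + q) ^ 2 ≤ q ^ θ * (1 + E ^ (-ρ)) := by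
  have p : 0 < E + q := by positivity
  have a1 : q ^ (1 - θ) ≤ (E + q) ^ (1 - θ) :=
    Real.rpow_le_rpow hq.le (by linarith) (by linarith)
  have a2 : (E + q) ^ (-(1 + θ)) ≤ E ^ (-(1 + θ)) :=
    Real.rpow_le_rpow_of_nonpos hE (by linarith) (by linarith)
  have a3 : E ^ (-(1 + θ)) ≤ 1 + E ^ (-ρ) := by
    have := Real.rpow_nonneg hE.le (-ρ)
    rcases le_total 1 E with h | h
    · linarith [Real.rpow_le_one_of_one_le_of_nonpos h (show -(1 + θ) ≤ 0 by linarith)]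
    · linarith [Real.rpow_le_rpow_of_exponent_ge hE h (show -ρ ≤ -(1 + θ) by linarith)]
  have e1 : q = q ^ θ * q ^ (1 - θ) := by
    rw [← Real.rpow_add hq]; simp
  have e2 : (E + q) ^ (1 - θ) / (E + q) ^ 2 = (E + q) ^ (-(1 + θ)) := by
    rw [← Real.rpow_natCast, ← Real.rpow_sub p]
    congr 1
    push_cast
    ring
  have hθ : 0 ≤ q ^ θ := Real.rpow_nonneg hq.le _
  calc q / (E + q) ^ 2 = q ^ θ * (q ^ (1 - θ) / (E + q) ^ 2) := by
        rw [← mul_div_assoc, ← e1]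
    _ ≤ q ^ θ * ((E + q) ^ (1 - θ) / (E + q) ^ 2) :=
        mul_le_mul_of_nonneg_left (div_le_div_of_nonneg_right a1 (by positivity)) hθ
    _ ≤ _ := by
        rw [e2]
        exact mul_le_mul_of_nonneg_left (a2.trans a3) hθ

theorem enn_le {E s θ ρ : ℝ} (hE : 0 ≤ E) (hs : 0 < s) (h0 : 0 ≤ θ) (h1 : θ ≤ 1)
    (hρ : 1 + θ ≤ ρ) : ENNReal.ofReal (s * Real.exp (-s) / (E + Real.exp (-s)) ^ 2) ≤
      ENNReal.ofReal (s * Real.exp (-(θ * s))) * (1 + ENNReal.ofReal E ^ (-ρ)) := by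
  rcases hE.eq_or_lt with rfl | hE
  · rw [ENNReal.ofReal_zero, ENNReal.zero_rpow_of_neg (by linarith), add_top,
      ENNReal.mul_top (ENNReal.ofReal_pos.2 (by positivity)).ne']
    exact le_top
  · rw [ENNReal.ofReal_rpow_of_pos hE, ← ENNReal.ofReal_one,
      ← ENNReal.ofReal_add zero_le_one (Real.rpow_nonneg hE.le _),
      ← ENNReal.ofReal_mul (by positivity)]
    refine ENNReal.ofReal_le_ofReal ?_
    have h := real_le hE (Real.exp_pos (-s)) h0 h1 hρ
    rw [← Real.exp_mul, show -s * θ = -(θ * s) by ring] at h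
    rw [mul_div_assoc, mul_assoc]
    exact mul_le_mul_of_nonneg_left h hs.le

theorem prod_pow {α : Type} [Fintype α] {S c : α → ℝ} (hS : ∀ a, 0 ≤ S a) (hc : ∀ a, 0 ≤ c a)
    (ρ : ℝ) : ENNReal.ofReal (∏ a, S a ^ c a) ^ (-ρ) =
      ∏ a, ENNReal.ofReal (S a) ^ (-(ρ * c a)) := by
  rw [ENNReal.ofReal_prod_of_nonneg fun a _ => Real.rpow_nonneg (hS a) _,
    ← ENNReal.prod_rpow_of_ne_top fun a _ => ENNReal.ofReal_ne_top]
  refine Finset.prod_congr rfl fun a _ => ?_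
  rw [← ENNReal.ofReal_rpow_of_nonneg (hS a) (hc a), ← ENNReal.rpow_mul]
  congr 1
  ring

theorem small {θ : ℝ} (hθ : 0 < θ) {A : ENNReal} (hA : A ≠ ⊤) {c0 : ℝ} (hc : 0 < c0) :
    ∃ s : ℝ, 1 ≤ s ∧ ENNReal.ofReal (s * Real.exp (-(θ * s))) * A < ENNReal.ofReal c0 := by
  have h1 : Tendsto (fun s : ℝ => θ⁻¹ * ((θ * s) ^ 1 * Real.exp (-(θ * s)))) atTop
      (𝓝 (θ⁻¹ * 0)) :=
    ((Real.tendsto_pow_mul_exp_neg_atTop_nhds_zero 1).comp
      (tendsto_id.const_mul_atTop hθ)).const_mul _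
  have h2 : Tendsto (fun s : ℝ => s * Real.exp (-(θ * s))) atTop (𝓝 0) := by
    rw [mul_zero] at h1
    refine h1.congr fun s => ?_
    field_simp
  have h3 : Tendsto (fun s : ℝ => ENNReal.ofReal (s * Real.exp (-(θ * s))) * A) atTop
      (𝓝 (ENNReal.ofReal 0 * A)) :=
    ENNReal.Tendsto.mul_const (ENNReal.tendsto_ofReal h2) (Or.inr hA)
  rw [ENNReal.ofReal_zero, zero_mul] at h3
  exact ((eventually_ge_atTop 1).and
    (h3.eventually (gt_mem_nhds (ENNReal.ofReal_pos.2 hc)))).exists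

theorem exp_sum {α : Type} [Fintype α] {S c : α → ℝ} (hS : ∀ a, 0 < S a) :
    Real.exp (∑ a, c a * Real.log (S a)) = ∏ a, S a ^ c a := by
  rw [Real.exp_sum]
  exact Finset.prod_congr rfl fun a _ => by rw [Real.rpow_def_of_pos (hS a), mul_comm]

end SemiLoc

open SemiLoc in
/-- semicontinuity, model free, with the coefficients as parameters -/
theorem semi_local {ι α : Type} [Fintype ι] [Fintype α] (hH : HormSt ι) (J : α → Type)
    [∀ a, Fintype (J a)] {d : ℕ} (p : ι → ℂ) (e : Fin d → (ι → ℂ) → ℂ)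
    (he : ∀ᶠ w in 𝓝 p, ∀ l, AnalyticAt ℂ (e l) w) (c : α → ℝ) (hc : ∀ a, 0 ≤ c a) {ρ : ℝ}
    (hρ : 1 < ρ) (t₀ : ∀ a, J a → Fin d → ℂ)
    (h : ∃ U ∈ 𝓝 p, ∫⁻ w in U,
      ∏ a, ENNReal.ofReal (∑ i, ‖∑ l, t₀ a i l * e l w‖ ^ 2) ^ (-(ρ * c a)) < ⊤) :
    ∃ U ∈ 𝓝 p, ∀ᶠ t : ∀ a, J a → Fin d → ℂ in 𝓝 t₀, ∫⁻ w in U,
      ∏ a, ENNReal.ofReal (∑ i, ‖∑ l, t a i l * e l w‖ ^ 2) ^ (-c a) < ⊤ := by
  obtain ⟨U, hU, hI⟩ := h
  obtain ⟨R, hR, hsub⟩ := nhds_basis_closedBall.mem_iff.1 (inter_mem hU he)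
  have han : ∀ w ∈ closedBall p R, ∀ l, AnalyticAt ℂ (e l) w := fun w hw => (hsub hw).2
  set S : (∀ a, J a → Fin d → ℂ) → α → (ι → ℂ) → ℝ :=
    fun t a w => ∑ i, ‖∑ l, t a i l * e l w‖ ^ 2 with hS
  have S0 : ∀ t a w, 0 ≤ S t a w := fun t a w => Finset.sum_nonneg fun _ _ => sq_nonneg _
  have Sc : ∀ a, ContinuousOn (fun z : (∀ a, J a → Fin d → ℂ) × (ι → ℂ) => S z.1 a z.2)
      (Set.univ ×ˢ closedBall p R) := fun a =>
    continuousOn_finsetSum _ fun i _ => ((continuousOn_finsetSum _ fun l _ =>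
      (Continuous.continuousOn (by fun_prop)).mul
        (ContinuousOn.comp (g := e l) (fun w hw => (han w hw l).continuousAt.continuousWithinAt)
          continuousOn_snd fun z hz => hz.2)).norm).pow 2
  have Ec : ∀ b : ℝ, ContinuousOn
      (fun z : (∀ a, J a → Fin d → ℂ) × (ι → ℂ) => ∏ a, (S z.1 a z.2 + b) ^ c a)
      (Set.univ ×ˢ closedBall p R) := fun b =>
    continuousOn_finsetProd _ fun a _ =>
      ((Sc a).add continuousOn_const).rpow_const fun _ _ => Or.inr (hc a)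
  obtain ⟨M, hM⟩ := ((isCompact_closedBall t₀ 1).prod (isCompact_closedBall p R)).bddAbove_image
    ((Ec 1).mono (Set.prod_mono (Set.subset_univ _) subset_rfl))
  have hM' : ∀ t ∈ closedBall t₀ 1, ∀ w ∈ closedBall p R, ∏ a, (S t a w + 1) ^ c a ≤ M :=
    fun t ht w hw => hM ⟨(t, w), ⟨ht, hw⟩, rfl⟩
  have hM0 : 0 ≤ M := le_trans (Finset.prod_nonneg fun a _ =>
    Real.rpow_nonneg (by linarith [S0 t₀ a p]) _)
    (hM' t₀ (mem_closedBall_self zero_le_one) p (mem_closedBall_self hR.le))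
  obtain ⟨r, c0, hr, hrR, hc0, hcrit⟩ := semi_crit hH hR hM0
  have hθ : 0 < min (ρ - 1) 1 := lt_min (by linarith) one_pos
  have hA : volume (ball p R) + ∫⁻ w in ball p R,
      ∏ a, ENNReal.ofReal (S t₀ a w) ^ (-(ρ * c a)) ≠ ⊤ :=
    ENNReal.add_ne_top.2 ⟨measure_ball_lt_top.ne,
      ((lintegral_mono_set fun w hw => (hsub (ball_subset_closedBall hw)).1).trans_lt hI).ne⟩
  obtain ⟨s, hs, hsm⟩ := small hθ hA hc0
  obtain ⟨K, hK⟩ := hcrit s hs
  have s0 : 0 < s := by linarith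
  set T : (∀ a, J a → Fin d → ℂ) → (ι → ℂ) → ENNReal := fun t w => ENNReal.ofReal
    (s * Real.exp (-s) / (∏ a, (S t a w + 0) ^ c a + Real.exp (-s)) ^ 2) with hT
  have E0 : ∀ t w, 0 ≤ ∏ a, (S t a w + 0) ^ c a := fun t w =>
    Finset.prod_nonneg fun a _ => Real.rpow_nonneg (by linarith [S0 t a w]) _
  have Tc : ContinuousOn (fun z : (∀ a, J a → Fin d → ℂ) × (ι → ℂ) => T z.1 z.2)
      (Set.univ ×ˢ closedBall p R) :=
    ENNReal.continuous_ofReal.comp_continuousOn (continuousOn_const.div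
      (((Ec 0).add continuousOn_const).pow 2) fun z _ =>
        pow_ne_zero 2 (add_pos_of_nonneg_of_pos (E0 z.1 z.2) (Real.exp_pos _)).ne')
  have hT0 : ∫⁻ w in ball p R, T t₀ w < ENNReal.ofReal c0 := by
    refine lt_of_le_of_lt ?_ hsm
    rw [← setLIntegral_one, ← lintegral_add_left measurable_const,
      ← lintegral_const_mul' _ _ ENNReal.ofReal_ne_top]
    refine lintegral_mono fun w => ?_
    have h1 := enn_le (E0 t₀ w) s0 hθ.le (min_le_right _ _)
      (show 1 + min (ρ - 1) 1 ≤ ρ by linarith [min_le_left (ρ - 1) 1])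
    rw [prod_pow (fun a => by linarith [S0 t₀ a w]) hc] at h1
    simpa only [hT, add_zero] using h1
  have hlim : Tendsto (fun t => ∫⁻ w in ball p R, T t w) (𝓝 t₀)
      (𝓝 (∫⁻ w in ball p R, T t₀ w)) := by
    rw [tendsto_iff_seq_tendsto]
    intro u hu
    refine tendsto_lintegral_of_dominated_convergence' (F := fun m w => T (u m) w)
      (fun _ => ENNReal.ofReal (s * Real.exp (-s) / Real.exp (-s) ^ 2)) (fun m => ?_)
      (fun m => Eventually.of_forall fun w => ?_) ?_ ?_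
    · exact (Tc.comp (f := fun w => (u m, w)) (Continuous.continuousOn (by fun_prop))
        fun w hw => ⟨Set.mem_univ _, ball_subset_closedBall hw⟩).aemeasurable measurableSet_ball
    · refine ENNReal.ofReal_le_ofReal (div_le_div_of_nonneg_left (by positivity) (by positivity)
        (pow_le_pow_left₀ (Real.exp_pos _).le ?_ 2))
      linarith [E0 (u m) w]
    · rw [setLIntegral_const]
      exact ENNReal.mul_ne_top ENNReal.ofReal_ne_top measure_ball_lt_top.ne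
    · refine (ae_restrict_iff' measurableSet_ball).2 (Eventually.of_forall fun w hw => ?_)
      have h1 : Continuous fun t => T t w :=
        Tc.comp_continuous (f := fun t => (t, w)) (by fun_prop)
          fun t => ⟨Set.mem_univ _, ball_subset_closedBall hw⟩
      exact (h1.tendsto t₀).comp hu
  refine ⟨ball p r, ball_mem_nhds p hr, ?_⟩
  filter_upwards [hlim.eventually (gt_mem_nhds hT0), closedBall_mem_nhds t₀ one_pos] with t h1 h2
  have hreg := Reg.prod (S := ball p R) Finset.univ fun a _ =>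
    (sos_ball (p := p) (R := R) Finset.univ (u := fun i w => ∑ l, t a i l * e l w)
      fun w hw i _ => Finset.analyticAt_fun_sum _ fun l _ =>
        analyticAt_const.mul (han w hw l)).reg (hc a)
  refine (hreg.fatou measurableSet_ball (ball_subset_ball hrR) (C := ENNReal.ofReal K)
    (Frequently.of_forall fun m => ?_)).trans_lt ENNReal.ofReal_lt_top
  have hm : (0 : ℝ) < 1 / ((m : ℝ) + 1) := by positivity
  have hm1 : 1 / ((m : ℝ) + 1) ≤ 1 := by
    rw [div_le_one (by positivity)]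
    linarith [Nat.cast_nonneg (α := ℝ) m]
  have ee : ∀ w, Real.exp (∑ a, c a * Real.log (S t a w + 1 / ((m : ℝ) + 1))) =
      ∏ a, (S t a w + 1 / ((m : ℝ) + 1)) ^ c a := fun w =>
    exp_sum fun a => by linarith [S0 t a w]
  refine hK p (fun w => ∑ a, c a * Real.log (S t a w + 1 / ((m : ℝ) + 1)))
    (fun w hw => (hreg.sm m w hw).contDiffWithinAt) (hreg.psh m) (fun w hw => ?_) ?_
  · rw [ee]
    refine le_trans (Finset.prod_le_prod (fun a _ => Real.rpow_nonneg (by linarith [S0 t a w]) _)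
      fun a _ => Real.rpow_le_rpow (by linarith [S0 t a w]) (by linarith) (hc a))
      (hM' t h2 w (ball_subset_closedBall hw))
  · refine le_trans (lintegral_mono fun w => ?_) h1.le
    rw [ee]
    refine ENNReal.ofReal_le_ofReal (div_le_div_of_nonneg_left (by positivity)
      (pow_pos (add_pos_of_nonneg_of_pos (E0 t w) (Real.exp_pos _)) 2)
      (pow_le_pow_left₀ (add_pos_of_nonneg_of_pos (E0 t w) (Real.exp_pos _)).le ?_ 2))
    exact add_le_add_left (Finset.prod_le_prod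
      (fun a _ => Real.rpow_nonneg (by linarith [S0 t a w]) _)
      fun a _ => Real.rpow_le_rpow (by linarith [S0 t a w]) (by linarith) (hc a)) _

end Pool.Agent.Lib.MP_9ff3e7_ag.F
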