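import Pool.Agent.Lib.MP_9ff3e7_ag.F.SemiK5a
import Pool.Agent.Lib.MP_9ff3e7_ag.F.SemiLoc
import Pool.Agent.Lib.MP_9ff3e7_ag.F.Horm

/-! K5: semicontinuity of the klt condition. -/

set_option autoImplicit false
set_option linter.unusedSectionVars false

namespace Pool.Agent.Lib.MP_9ff3e7_ag.F

open MeasureTheory Filter Topology Finsupp

theorem semiLocSt (n : ℕ) : SemiLocSt n :=
  fun _ _ J _ _ p e he c hc _ hρ t₀ h =>
    semi_local (fun φ hφ hpsh f hf hc h hm h0 hb => hormander φ hφ hpsh f hf hc h hm h0 hb)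
      J p e he c hc hρ t₀ h

variable {n : ℕ} {O : Type} [CommRing O] [IsDomain O] [Algebra ℂ O]
  [Algebra (MvPolynomial (Fin n) ℂ) O] [IsScalarTower ℂ (MvPolynomial (Fin n) ℂ) O]

variable (M : Model n O)

theorem Model.klt_semi (B ι : Type) [TopologicalSpace B] [Fintype ι] (J : ι → Type)
    [∀ a, Fintype (J a)] (V : Submodule ℂ O) [FiniteDimensional ℂ V] (f : B → ∀ a, J a → O)
    (c : ι → ℝ) (β₀ : B) (p : Pnt O) (ρ : ℝ) (hV : ∀ β a i, f β a i ∈ V)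
    (hf : ∀ (l : O →ₗ[ℂ] ℂ) a i, ContinuousAt (fun β => l (f β a i)) β₀) (hc : ∀ a, 0 ≤ c a)
    (hρ : 1 < ρ) (hk : M.Klt p (ρ • ∑ a, single (Ideal.span (Set.range (f β₀ a))) (c a))) :
    ∀ᶠ q in 𝓝 β₀ ×ˢ nhd p,
      M.Klt q.2 (∑ a, single (Ideal.span (Set.range (f q.1 a))) (c a)) :=
  M.klt_semi_of (semiLocSt n) B ι J V f c β₀ p ρ hV hf hc hρ hk

end Pool.Agent.Lib.MP_9ff3e7_ag.F
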