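import Pool.Agent.Lib.MP_9ff3e7_ag.F.GO
import Pool.Agent.Lib.MP_9ff3e7_ag.F.K0
import Pool.Agent.Lib.MP_9ff3e7_ag.F.K1
import Pool.Agent.Lib.MP_9ff3e7_ag.F.K3

/-! K6a from the global existence theorem for tuples. -/

set_option autoImplicit false
set_option linter.unusedSectionVars false

namespace Pool.Agent.Lib.MP_9ff3e7_ag.F

open MeasureTheory MvPolynomial Metric Filter Topology

variable {n : ℕ} {O : Type} [CommRing O] [IsDomain O] [Algebra ℂ O]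
  [Algebra (MvPolynomial (Fin n) ℂ) O] [IsScalarTower ℂ (MvPolynomial (Fin n) ℂ) O]

namespace K6x

/-- every effective pair is given by the tuples of its chosen generators -/
theorem exists_wt (D : Ideal O →₀ ℝ) (hD : 0 ≤ D) : ∃ W : OWt O, ∀ y, W.dens y = dens D y := by
  refine ⟨⟨D.support.card, fun a => (gens (D.support.equivFin.symm a : Ideal O)).card,
    fun a i => ((gens (D.support.equivFin.symm a : Ideal O)).equivFin.symm i : O),
    fun a => D (D.support.equivFin.symm a), fun a => hD _⟩, fun y => ?_⟩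
  rw [dens, Finsupp.prod, ← Finset.prod_coe_sort,
    ← Equiv.prod_comp D.support.equivFin.symm]
  refine Finset.prod_congr rfl fun a _ => ?_
  congr 2
  rw [nsqI, ← Finset.sum_coe_sort,
    ← Equiv.sum_comp (gens (D.support.equivFin.symm a : Ideal O)).equivFin.symm]
  rfl

theorem not_int (z : Fin n → ℂ) :
    ¬ ∃ U ∈ 𝓝 z, ∫⁻ w in U, ENNReal.ofReal (nsq (w - z)) ^ (-((n : ℝ) + 1)) < ⊤ := by
  rintro ⟨U, hU, h⟩
  rcases Nat.eq_zero_or_pos n with rfl | hn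
  · have e : ∀ w : Fin 0 → ℂ, ENNReal.ofReal (nsq (w - z)) ^ (-(((0 : ℕ) : ℝ) + 1)) = ⊤ :=
      fun w => by simp [nsq]
    simp only [e] at h
    rw [setLIntegral_const, ENNReal.top_mul (Measure.measure_pos_of_mem_nhds _ hU).ne'] at h
    exact lt_irrefl _ h
  · exact K3.not_int z Finset.univ ⟨⟨0, hn⟩, Finset.mem_univ _⟩ (c := (n : ℝ) + 1)
      (by simp) hU h

theorem sheet_par (M : Model n O) (q : Pnt O) : ∃ r > 0, PPar (ball (zz n q) r) (M.sg q) ∧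
    ∀ w ∈ ball (zz n q) r, zz n (M.sg q w) = w ∧ pdet (M.sg q) w = 1 := by
  obtain ⟨r, hr, h⟩ := M.exists_ball q
  refine ⟨r, hr, ⟨isOpen_ball, fun f w hw =>
    ((h w hw).2.1 f).differentiableAt.differentiableWithinAt, fun a ha b hb hab => ?_⟩,
    fun w hw => ⟨(h w hw).1, ?_⟩⟩
  · rw [← (h a ha).1, hab, (h b hb).1]
  · have e : (fun y => zz n (M.sg q y)) =ᶠ[𝓝 w] id := by
      filter_upwards [isOpen_ball.mem_nhds hw] with y hy using (h y hy).1
    rw [pdet, e.fderiv_eq, fderiv_id]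
    exact LinearMap.det_id

end K6x

/-- the statement of the global existence theorem for tuples -/
def GTupSt (M : Model n O) : Prop :=
  ∀ (p : Pnt O) (W : OWt O) {b e : ℝ} (_ : 0 ≤ b) (_ : 0 < e)
    (_ : ∃ U ∈ 𝓝 (zz n p), ∫⁻ w in U, W.dens (M.sg p w) < ⊤)
    (_ : ∀ U ∈ 𝓝 (zz n p),
      ∫⁻ w in U, W.dens (M.sg p w) * ENNReal.ofReal (nsq (w - zz n p)) ^ (-b) = ⊤),
    ∃ f : O, p f = 1 ∧ ∀ (Y : Set (Fin n → ℂ)) (τ : (Fin n → ℂ) → Pnt O), PPar Y τ →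
      ∫⁻ y in Y, ENNReal.ofReal (‖pdet τ y‖ ^ 2 * ‖τ y f‖ ^ 2 *
        (1 + nsq (zz n (τ y))) ^ (-(e + b))) * W.dens (τ y) < ⊤

theorem K6a_of (M : Model n O) (H : GTupSt M) (p : Pnt O) (D : Ideal O →₀ ℝ) (hD : 0 ≤ D)
    (hk : M.Klt p D) : ∃ f : O, p f ≠ 0 ∧ ∀ q : Pnt O, M.KltN q f D := by
  obtain ⟨W, hW⟩ := K6x.exists_wt D hD
  have b0 : (0 : ℝ) ≤ n + 1 := by positivity
  obtain ⟨f, hf, hI⟩ := H p W b0 one_pos (by simpa only [hW, Model.Klt] using hk) fun U hU => by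
    by_contra hne
    obtain ⟨C, hC, h1⟩ := K1.one_le p hD
    refine K6x.not_int (zz n p) (Model.lt_top_of_le hC ?_ ⟨U, hU, lt_top_iff_ne_top.2 hne⟩)
    filter_upwards [(M.eventually_nhd_iff p _).1 h1] with w hw
    rw [hW, ← mul_assoc]
    exact le_mul_of_one_le_left' hw
  refine ⟨f, by rw [hf]; exact one_ne_zero, fun q => ?_⟩
  obtain ⟨r, hr, hP, hs⟩ := K6x.sheet_par M q
  have nn : ∀ w : Fin n → ℂ, 0 ≤ nsq w := fun w => Finset.sum_nonneg fun _ _ => sq_nonneg _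
  have cn : Continuous (nsq : (Fin n → ℂ) → ℝ) := by
    unfold nsq
    fun_prop
  have K0 : 0 < nsq (zz n q) + 2 := by linarith [nn (zz n q)]
  refine Model.lt_top_of_le (C := ENNReal.ofReal ((nsq (zz n q) + 2) ^ (1 + ((n : ℝ) + 1))))
    ENNReal.ofReal_ne_top ?_ ⟨_, ball_mem_nhds _ hr, hI _ _ hP⟩
  filter_upwards [ball_mem_nhds _ hr,
    (cn.tendsto (zz n q)).eventually (eventually_le_nhds (lt_add_one _))] with w hw hw2
  rw [hW, (hs w hw).1, (hs w hw).2, ← mul_assoc, ← ENNReal.ofReal_mul (by positivity)]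
  refine mul_le_mul_left (ENNReal.ofReal_le_ofReal ?_) _
  have p1 : 0 < 1 + nsq w := by linarith [nn w]
  have h1 : (1 + nsq w) ^ (1 + ((n : ℝ) + 1)) ≤ (nsq (zz n q) + 2) ^ (1 + ((n : ℝ) + 1)) :=
    Real.rpow_le_rpow p1.le (by linarith) (by positivity)
  have h2 : 0 < (1 + nsq w) ^ (1 + ((n : ℝ) + 1)) := Real.rpow_pos_of_pos p1 _
  rw [Real.rpow_neg p1.le, norm_one, one_pow, one_mul, mul_left_comm]
  refine le_mul_of_one_le_right (sq_nonneg _) ?_
  rw [← div_eq_mul_inv, one_le_div h2]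
  exact h1

end Pool.Agent.Lib.MP_9ff3e7_ag.F
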