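import Pool.Agent.Lib.MP_9ff3e7_ag.F.KB

/-! A nonzero ideal has a positive integrability exponent at every point. -/

set_option autoImplicit false

namespace Pool.Agent.Lib.MP_9ff3e7_ag.F

open Filter Topology MeasureTheory Finsupp Metric

namespace K7

/-- `|x|^(-2c)` -/
noncomputable def g (c : ℝ) (x : ℂ) : ENNReal := ENNReal.ofReal (‖x‖ ^ 2) ^ (-c)

theorem g_mul (c : ℝ) (x y : ℂ) : g c (x * y) = g c x * g c y := by
  rw [g, g, g, norm_mul, mul_pow, ENNReal.ofReal_mul (by positivity),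
    ENNReal.mul_rpow_of_ne_top ENNReal.ofReal_ne_top ENNReal.ofReal_ne_top]

theorem g_one (c : ℝ) : g c 1 = 1 := by simp [g]

theorem g_zero {c : ℝ} (hc : 0 < c) : g c 0 = ⊤ := by
  simp [g, ENNReal.zero_rpow_of_neg (neg_neg_of_pos hc)]

theorem g_meas (c : ℝ) : Measurable (g c) :=
  (ENNReal.measurable_ofReal.comp (measurable_norm.pow_const 2)).pow_const _

theorem g_ne_top (c : ℝ) {x : ℂ} (hx : x ≠ 0) : g c x ≠ ⊤ := by
  have : 0 < ‖x‖ ^ 2 := by positivity
  rw [g, ENNReal.ofReal_rpow_of_pos this]; exact ENNReal.ofReal_ne_top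

theorem g_half (c : ℝ) (x : ℂ) : g c x = g (1 / 2) x ^ (2 * c) := by
  rw [g, g, ← ENNReal.rpow_mul]; congr 1; ring

theorem g_half_le {x : ℂ} (hx : 1 ≤ ‖x‖) : g (1 / 2) x ≤ 1 := by
  refine ENNReal.rpow_le_one_of_one_le_of_neg ?_ (by norm_num)
  rw [ENNReal.one_le_ofReal]; nlinarith

theorem int_half : ∫⁻ z in ball (0 : ℂ) 1, g (1 / 2) z < ⊤ := by
  have h : IntegrableOn (fun z : ℂ => ‖z‖ ^ (-(1 : ℝ))) (ball 0 1) volume := by
    refine integrableOn_ball_of_norm_le_rpow (C := 1) (α := 1) (by simp) (by simp) ?_ ?_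
    · exact Eventually.of_forall fun z => by
        rw [Real.norm_of_nonneg (by positivity), one_mul]
    · exact (measurable_norm.pow_const _).aestronglyMeasurable
  have h2 := h.2
  rw [hasFiniteIntegral_iff_ofReal (Eventually.of_forall fun z => by positivity)] at h2
  refine lt_of_eq_of_lt (lintegral_congr_ae ?_) h2
  have h0 : ∀ᵐ z : ℂ, z ≠ 0 := by simp [ae_iff]
  filter_upwards [ae_restrict_of_ae h0] with z hz
  have h1 : 0 < ‖z‖ := norm_pos_iff.2 hz
  rw [g, ENNReal.ofReal_rpow_of_pos (by positivity), ← Real.rpow_natCast, ← Real.rpow_mul h1.le]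
  norm_num

theorem int_shift (R : ℝ) : ∃ K : ENNReal, K ≠ ⊤ ∧ ∀ r : ℂ,
    ∫⁻ z in ball (0 : ℂ) R, g (1 / 2) (z - r) ≤ K := by
  refine ⟨volume (ball (0 : ℂ) R) + ∫⁻ z in ball (0 : ℂ) 1, g (1 / 2) z,
    ENNReal.add_ne_top.2 ⟨measure_ball_lt_top.ne, int_half.ne⟩, fun r => ?_⟩
  have hm : Measurable ((ball (0 : ℂ) 1).indicator (g (1 / 2))) :=
    (g_meas _).indicator measurableSet_ball
  calc ∫⁻ z in ball (0 : ℂ) R, g (1 / 2) (z - r)
      ≤ ∫⁻ z in ball (0 : ℂ) R, (1 + (ball (0 : ℂ) 1).indicator (g (1 / 2)) (z - r)) := by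
        refine lintegral_mono fun z => ?_
        by_cases h : z - r ∈ ball (0 : ℂ) 1
        · rw [Set.indicator_of_mem h]; exact le_add_self
        · exact (g_half_le (by simpa using h)).trans le_self_add
    _ = volume (ball (0 : ℂ) R) +
        ∫⁻ z in ball (0 : ℂ) R, (ball (0 : ℂ) 1).indicator (g (1 / 2)) (z - r) := by
        rw [lintegral_add_left measurable_const]; simp
    _ ≤ _ := by
        refine add_le_add le_rfl ((setLIntegral_le_lintegral _ _).trans (le_of_eq ?_))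
        rw [lintegral_sub_right_eq_self, lintegral_indicator measurableSet_ball]

theorem g_prod_le {c : ℝ} (hc : 0 ≤ c) (z : ℂ) {M : ENNReal} (s : Multiset ℂ)
    (h : ∀ r ∈ s, g (1 / 2) (z - r) ≤ M) :
    g c (s.map fun r => z - r).prod ≤ M ^ (2 * c * s.card) := by
  induction s using Multiset.induction_on with
  | empty => simp [g_one]
  | cons a s ih =>
    rw [Multiset.map_cons, Multiset.prod_cons, g_mul, Multiset.card_cons, Nat.cast_succ, mul_add,
      mul_one, ENNReal.rpow_add_of_nonneg _ _ (by positivity) (by positivity), mul_comm]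
    refine mul_le_mul' (ih fun r hr => h r (Multiset.mem_cons_of_mem hr)) ?_
    rw [g_half]
    exact ENNReal.rpow_le_rpow (h a (Multiset.mem_cons_self a s)) (by positivity)

theorem int_sum (R : ℝ) {K : ENNReal} (hK : ∀ r : ℂ, ∫⁻ z in ball (0 : ℂ) R, g (1 / 2) (z - r) ≤ K)
    (s : Multiset ℂ) : Measurable (fun z => (s.map fun r => g (1 / 2) (z - r)).sum) ∧
      ∫⁻ z in ball (0 : ℂ) R, (s.map fun r => g (1 / 2) (z - r)).sum ≤ s.card * K := by
  induction s using Multiset.induction_on with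
  | empty => simp
  | cons a s ih =>
    have hm : Measurable fun z => g (1 / 2) (z - a) := (g_meas _).comp (measurable_sub_const a)
    simp only [Multiset.map_cons, Multiset.sum_cons, Multiset.card_cons]
    refine ⟨hm.add ih.1, ?_⟩
    rw [lintegral_add_left hm, Nat.cast_succ, add_mul, one_mul, add_comm]
    exact add_le_add ih.2 (hK a)

/-- the one variable estimate, uniform in the polynomial -/
theorem one_var (m : ℕ) (R : ℝ) : ∃ K : ENNReal, K ≠ ⊤ ∧ ∀ c : ℝ, 0 < c → 2 * c * m ≤ 1 →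
    ∀ p : Polynomial ℂ, p.natDegree ≤ m →
      ∫⁻ z in ball (0 : ℂ) R, g c (p.eval z) ≤ g c (p.coeff m) * K := by
  obtain ⟨K, hK, h⟩ := int_shift R
  refine ⟨1 + (volume (ball (0 : ℂ) R) + m * K), ?_, fun c hc hm p hp => ?_⟩
  · exact ENNReal.add_ne_top.2 ⟨by simp, ENNReal.add_ne_top.2 ⟨measure_ball_lt_top.ne,
      ENNReal.mul_ne_top (by simp) hK⟩⟩
  by_cases h0 : p.coeff m = 0
  · rw [h0, g_zero hc, ENNReal.top_mul (by simp)]; exact le_top
  have hd : p.natDegree = m := le_antisymm hp (Polynomial.le_natDegree_of_ne_zero h0)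
  have hs := (IsAlgClosed.splits p).natDegree_eq_card_roots
  have hl : p.leadingCoeff = p.coeff m := by rw [← hd]; rfl
  have he : ∀ z, p.eval z = p.coeff m * (p.roots.map fun r => z - r).prod := fun z => by
    conv_lhs => rw [(IsAlgClosed.splits p).eq_prod_roots]
    rw [hl, Polynomial.eval_mul, Polynomial.eval_C, Polynomial.eval_multiset_prod,
      Multiset.map_map]
    simp
  have hb : ∀ z, g c (p.eval z) ≤
      g c (p.coeff m) * (1 + (p.roots.map fun r => g (1 / 2) (z - r)).sum) := fun z => by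
    rw [he, g_mul]
    gcongr
    refine (g_prod_le hc.le z (M := 1 + (p.roots.map fun r => g (1 / 2) (z - r)).sum) _
      fun r hr => ?_).trans ?_
    · exact (Multiset.single_le_sum (fun _ _ => zero_le) _
        (Multiset.mem_map_of_mem (fun r => g (1 / 2) (z - r)) hr)).trans le_add_self
    · rw [← hs, hd]
      exact (ENNReal.rpow_le_rpow_of_exponent_le le_self_add hm).trans (by simp)
  obtain ⟨h1, h2⟩ := int_sum R h p.roots
  refine (lintegral_mono hb).trans ?_
  rw [lintegral_const_mul' _ _ (g_ne_top c h0), lintegral_add_left measurable_const]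
  rw [← hs, hd] at h2
  refine mul_le_mul' le_rfl (le_trans ?_ le_add_self)
  simpa using add_le_add le_rfl h2

theorem ev_meas {n : ℕ} (q : MvPolynomial (Fin n) ℂ) :
    Measurable fun w : Fin n → ℂ => MvPolynomial.eval w q :=
  (MvPolynomial.continuous_eval q).measurable

/-- small negative powers of a nonzero polynomial are integrable on bounded sets -/
theorem poly_int : ∀ (n : ℕ) (q : MvPolynomial (Fin n) ℂ), q ≠ 0 → ∃ c₀ : ℝ, 0 < c₀ ∧
    ∀ c, 0 < c → c ≤ c₀ → ∀ R : ℝ,
      ∫⁻ w in {w : Fin n → ℂ | ∀ i, w i ∈ ball (0 : ℂ) R}, g c (MvPolynomial.eval w q) < ⊤ := by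
  intro n
  induction n with
  | zero =>
    intro q hq
    refine ⟨1, one_pos, fun c _ _ R => ?_⟩
    obtain ⟨a, rfl⟩ := MvPolynomial.C_surjective (Fin 0) q
    have ha : a ≠ 0 := fun h => hq (by simp [h])
    simp only [MvPolynomial.eval_C, lintegral_const]
    refine ENNReal.mul_lt_top (g_ne_top c ha).lt_top ?_
    simp [volume_pi]
  | succ n ih =>
    intro q hq
    set Q := MvPolynomial.finSuccEquiv ℂ n q with hQ
    have hQ0 : Q ≠ 0 := by simpa [hQ] using hq
    obtain ⟨c₁, hc₁, h₁⟩ := ih Q.leadingCoeff (Polynomial.leadingCoeff_ne_zero.2 hQ0)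
    refine ⟨min c₁ (1 / (2 * (Q.natDegree + 1))), by positivity, fun c hc hle R => ?_⟩
    obtain ⟨K, hK, h⟩ := one_var Q.natDegree R
    have hm : 2 * c * Q.natDegree ≤ 1 := by
      have := hle.trans (min_le_right _ _)
      rw [le_div_iff₀ (by positivity)] at this
      nlinarith
    have hmp := (volume_preserving_piFinSuccAbove (fun _ : Fin (n + 1) => ℂ) 0).symm _
    have hS : MeasurableSet {w : Fin (n + 1) → ℂ | ∀ i, w i ∈ ball (0 : ℂ) R} := by
      simp only [Set.ofPred_forall]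
      exact MeasurableSet.iInter fun i => measurable_pi_apply i measurableSet_ball
    rw [← hmp.setLIntegral_comp_preimage hS (f := fun w => g c (MvPolynomial.eval w q))
      ((g_meas c).comp (ev_meas q))]
    have he : ∀ u : ℂ × (Fin n → ℂ),
        (MeasurableEquiv.piFinSuccAbove (fun _ : Fin (n + 1) => ℂ) 0).symm u = Fin.cons u.1 u.2 :=
      fun u => by simp [MeasurableEquiv.piFinSuccAbove, Fin.consEquiv]
    have hpre : (MeasurableEquiv.piFinSuccAbove (fun _ : Fin (n + 1) => ℂ) 0).symm ⁻¹'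
        {w : Fin (n + 1) → ℂ | ∀ i, w i ∈ ball (0 : ℂ) R} =
        ball (0 : ℂ) R ×ˢ {w : Fin n → ℂ | ∀ i, w i ∈ ball (0 : ℂ) R} := by
      ext u; simp [Fin.forall_fin_succ]
    have hmeas : Measurable fun u : ℂ × (Fin n → ℂ) => g c (MvPolynomial.eval
        ((MeasurableEquiv.piFinSuccAbove (fun _ : Fin (n + 1) => ℂ) 0).symm u) q) :=
      ((g_meas c).comp (ev_meas q)).comp (MeasurableEquiv.measurable _)
    rw [hpre, Measure.volume_eq_prod, ← Measure.prod_restrict,
      lintegral_prod_symm _ hmeas.aemeasurable]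
    refine lt_of_le_of_lt (lintegral_mono fun w => ?_)
      (lt_of_eq_of_lt (lintegral_mul_const' K _ hK)
        (ENNReal.mul_lt_top (h₁ c hc (hle.trans (min_le_left _ _)) R) hK.lt_top))
    have := h c hc hm (Q.map (MvPolynomial.eval w)) Polynomial.natDegree_map_le
    rw [Polynomial.coeff_map] at this
    simp only [he, MvPolynomial.eval_eq_eval_mv_eval']
    exact this

variable {n : ℕ} {O : Type} [CommRing O] [IsDomain O] [Algebra (MvPolynomial (Fin n) ℂ) O]

theorem alg (E : StandardEtalePresentation (MvPolynomial (Fin n) ℂ) O) (f : O) :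
    IsAlgebraic (MvPolynomial (Fin n) ℂ) f := by
  obtain ⟨p, m, h⟩ := E.exists_mul_aeval_x_g_pow_eq_aeval_x f
  have hx : IsIntegral (MvPolynomial (Fin n) ℂ) E.x := ⟨E.f, E.monic_f, E.hasMap.1⟩
  have ha : ∀ q : Polynomial (MvPolynomial (Fin n) ℂ),
      IsIntegral (MvPolynomial (Fin n) ℂ) (Polynomial.aeval E.x q) := fun q =>
    IsIntegral.of_mem_of_fg (Algebra.adjoin _ {E.x}) hx.fg_adjoin_singleton _
      (Polynomial.aeval_mem_adjoin_singleton _ _)
  refine IsAlgebraic.of_mul (y := Polynomial.aeval E.x E.g ^ m)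
    (mem_nonZeroDivisors_of_ne_zero (E.hasMap.2.pow m).ne_zero) ((ha _).pow m).isAlgebraic ?_
  rw [mul_comm, h]; exact (ha p).isAlgebraic

end K7

variable {n : ℕ} {O : Type} [CommRing O] [IsDomain O] [Algebra ℂ O]
  [Algebra (MvPolynomial (Fin n) ℂ) O] [IsScalarTower ℂ (MvPolynomial (Fin n) ℂ) O]

variable (M : Model n O)

theorem Model.klt_skoda (p : Pnt O) (a : Ideal O) (ha : a ≠ ⊥) :
    ∃ c : ℝ, 0 < c ∧ M.Klt p (single a c) := by
  obtain ⟨f, hf, hf0⟩ := Submodule.exists_mem_ne_zero_of_ne_bot ha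
  obtain ⟨q, hq, u, hu⟩ := (K7.alg M.E f).exists_nonzero_dvd (mem_nonZeroDivisors_of_ne_zero hf0)
  obtain ⟨c, hc, h⟩ := K7.poly_int n q hq
  have hqa : algebraMap (MvPolynomial (Fin n) ℂ) O q ∈ a := hu ▸ a.mul_mem_right u hf
  obtain ⟨C, hC, hle⟩ := KB.mem_le p (KB.fg M a) hqa
  refine ⟨c, hc, KB.int_of_le M p (C := ENNReal.ofReal C ^ c)
    (v := fun y => K7.g c (y (algebraMap (MvPolynomial (Fin n) ℂ) O q)))
    (ENNReal.rpow_ne_top_of_nonneg hc.le ENNReal.ofReal_ne_top) ?_ ?_⟩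
  · filter_upwards [hle] with y hy
    rw [KB.dens_single]
    exact KB.rpow_neg_le hC hc.le hy
  · obtain ⟨r, hr, hb⟩ := M.exists_ball p
    refine ⟨ball (zz n p) r, ball_mem_nhds _ hr, ?_⟩
    refine lt_of_le_of_lt ?_ (h c hc le_rfl (‖zz n p‖ + r))
    refine (le_of_eq (setLIntegral_congr_fun measurableSet_ball fun w hw => ?_)).trans
      (lintegral_mono_set (t := {w : Fin n → ℂ | ∀ i, w i ∈ ball (0 : ℂ) (‖zz n p‖ + r)})
        fun w hw i => ?_)
    · have h1 : SheetA.zc n (M.sg p w) = w := (hb w hw).1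
      simp only [SheetA.apply_algebraMap, h1]
    · rw [mem_ball_zero_iff]
      refine (norm_le_pi_norm w i).trans_lt ?_
      have := mem_ball_iff_norm.1 hw
      linarith [norm_le_insert' w (zz n p)]

end Pool.Agent.Lib.MP_9ff3e7_ag.F
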