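import Pool.Agent.Lib.MP_9ff3e7_ag.F.Sheet

/-! Basic facts on `nsqI`, `dens` and local integrability. -/

set_option autoImplicit false

namespace Pool.Agent.Lib.MP_9ff3e7_ag.F

open Filter Topology MeasureTheory Finsupp

variable {n : ℕ} {O : Type} [CommRing O] [Algebra ℂ O]

namespace KB

theorem rpow_neg_add {x : ENNReal} (hx : x ≠ ⊤) {c d : ℝ} (hc : 0 ≤ c) (hd : 0 ≤ d) :
    x ^ (-(c + d)) = x ^ (-c) * x ^ (-d) := by
  rw [ENNReal.rpow_neg, ENNReal.rpow_neg, ENNReal.rpow_neg, ENNReal.rpow_add_of_nonneg _ _ hc hd,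
    ENNReal.mul_inv (Or.inr (ENNReal.rpow_ne_top_of_nonneg hd hx))
      (Or.inl (ENNReal.rpow_ne_top_of_nonneg hc hx))]

theorem dens_zero (y : Pnt O) : dens (0 : Ideal O →₀ ℝ) y = 1 := by simp [dens]

theorem dens_single (a : Ideal O) (c : ℝ) (y : Pnt O) :
    dens (single a c) y = ENNReal.ofReal (nsqI a y) ^ (-c) := by
  rw [dens, prod_single_index]; simp

theorem dens_eq_prod {D : Ideal O →₀ ℝ} {s : Finset (Ideal O)} (h : D.support ⊆ s) (y : Pnt O) :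
    dens D y = ∏ a ∈ s, ENNReal.ofReal (nsqI a y) ^ (-D a) := by
  rw [dens, prod_of_support_subset _ h]
  intro a _; simp

theorem dens_add {D D' : Ideal O →₀ ℝ} (hD : 0 ≤ D) (hD' : 0 ≤ D') (y : Pnt O) :
    dens (D + D') y = dens D y * dens D' y := by
  classical
  rw [dens_eq_prod (s := D.support ∪ D'.support) support_add,
    dens_eq_prod (s := D.support ∪ D'.support) Finset.subset_union_left,
    dens_eq_prod (s := D.support ∪ D'.support) Finset.subset_union_right, ← Finset.prod_mul_distrib]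
  exact Finset.prod_congr rfl fun a _ => rpow_neg_add ENNReal.ofReal_ne_top (hD a) (hD' a)

theorem dens_smul (D : Ideal O →₀ ℝ) {l : ℝ} (hl : 0 ≤ l) (y : Pnt O) :
    dens (l • D) y = dens D y ^ l := by
  rw [dens_eq_prod (s := D.support) support_smul, dens_eq_prod (s := D.support) subset_rfl,
    ← ENNReal.prod_rpow_of_nonneg hl]
  refine Finset.prod_congr rfl fun a _ => ?_
  rw [← ENNReal.rpow_mul]; congr 1; simp; ring

theorem dens_ne_zero (D : Ideal O →₀ ℝ) (hD : 0 ≤ D) (y : Pnt O) : dens D y ≠ 0 := by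
  rw [dens_eq_prod (s := D.support) subset_rfl]
  refine Finset.prod_ne_zero_iff.2 fun a _ => ?_
  rw [ENNReal.rpow_neg]
  exact ENNReal.inv_ne_zero.2 (ENNReal.rpow_ne_top_of_nonneg (hD a) ENNReal.ofReal_ne_top)

theorem bdd_near (p : Pnt O) (f : O) : ∀ᶠ y in nhd p, ‖y f‖ ≤ ‖p f‖ + 1 :=
  (tendsto_nhd_apply p f).norm.eventually (eventually_le_nhds (lt_add_one _))

theorem lower_near (p : Pnt O) {f : O} (h : p f ≠ 0) : ∀ᶠ y in nhd p, ‖p f‖ / 2 ≤ ‖y f‖ :=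
  (tendsto_nhd_apply p f).norm.eventually
    (eventually_ge_nhds (half_lt_self (norm_pos_iff.2 h)))

theorem tendsto_nsqI (p : Pnt O) (a : Ideal O) :
    Tendsto (nsqI a) (nhd p) (𝓝 (nsqI a p)) :=
  tendsto_finsetSum _ fun g _ => (tendsto_nhd_apply p g).norm.pow 2

theorem gen_le (a : Ideal O) (y : Pnt O) {g : O} (hg : g ∈ gens a) : ‖y g‖ ^ 2 ≤ nsqI a y :=
  Finset.single_le_sum (f := fun g => ‖y g‖ ^ 2) (fun _ _ => by positivity) hg

omit [Algebra ℂ O] in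
theorem gens_mem {a : Ideal O} (h : a.FG) {g : O} (hg : g ∈ gens a) : g ∈ a := by
  rw [← span_gens h]; exact Ideal.subset_span hg

/-- elements of a span are dominated by any common bound of the generators -/
theorem span_le (p : Pnt O) {S : Set O} {u : Pnt O → ℝ} (hu : ∀ y, 0 ≤ u y)
    (h : ∀ g ∈ S, ∃ C : ℝ, 0 < C ∧ ∀ᶠ y in nhd p, ‖y g‖ ^ 2 ≤ C * u y) {s : O}
    (hs : s ∈ Ideal.span S) : ∃ C : ℝ, 0 < C ∧ ∀ᶠ y in nhd p, ‖y s‖ ^ 2 ≤ C * u y := by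
  induction hs using Submodule.span_induction with
  | mem g hg => exact h g hg
  | zero => exact ⟨1, one_pos, Eventually.of_forall fun y => by simpa using hu y⟩
  | add a b _ _ ha hb =>
    obtain ⟨A, hA, ha⟩ := ha
    obtain ⟨B, hB, hb⟩ := hb
    refine ⟨2 * A + 2 * B, by positivity, ?_⟩
    filter_upwards [ha, hb] with y ha hb
    have h1 : ‖y (a + b)‖ ≤ ‖y a‖ + ‖y b‖ := by rw [map_add]; exact norm_add_le _ _
    have h2 : ‖y (a + b)‖ ^ 2 ≤ (‖y a‖ + ‖y b‖) ^ 2 := by gcongr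
    nlinarith [sq_nonneg (‖y a‖ - ‖y b‖)]
  | smul c a _ ha =>
    obtain ⟨A, hA, ha⟩ := ha
    refine ⟨(‖p c‖ + 1) ^ 2 * A, by positivity, ?_⟩
    filter_upwards [ha, bdd_near p c] with y ha hc
    rw [smul_eq_mul, map_mul, norm_mul, mul_pow, mul_assoc]
    gcongr

theorem mem_le (p : Pnt O) {b : Ideal O} (hb : b.FG) {s : O} (hs : s ∈ b) :
    ∃ C : ℝ, 0 < C ∧ ∀ᶠ y in nhd p, ‖y s‖ ^ 2 ≤ C * nsqI b y := by
  rw [← span_gens hb] at hs
  exact span_le p (nsqI_nonneg b)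
    (fun g hg => ⟨1, one_pos, Eventually.of_forall fun y => by simpa using gen_le b y hg⟩) hs

/-- a common bound of the elements bounds `nsqI` -/
theorem nsqI_le_of (p : Pnt O) {a : Ideal O} (ha : a.FG) {u : Pnt O → ℝ} (hu : ∀ y, 0 ≤ u y)
    (h : ∀ g ∈ a, ∃ C : ℝ, 0 < C ∧ ∀ᶠ y in nhd p, ‖y g‖ ^ 2 ≤ C * u y) :
    ∃ C : ℝ, 0 < C ∧ ∀ᶠ y in nhd p, nsqI a y ≤ C * u y := by
  choose! C hC h using h
  refine ⟨1 + ∑ g ∈ gens a, C g, ?_, ?_⟩
  · have : 0 ≤ ∑ g ∈ gens a, C g := Finset.sum_nonneg fun g hg => (hC g (gens_mem ha hg)).le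
    linarith
  · have : ∀ᶠ y in nhd p, ∀ g ∈ gens a, ‖y g‖ ^ 2 ≤ C g * u y :=
      (eventually_all_finset _).2 fun g hg => h g (gens_mem ha hg)
    filter_upwards [this] with y hy
    have h1 : nsqI a y ≤ ∑ g ∈ gens a, C g * u y := Finset.sum_le_sum hy
    rw [← Finset.sum_mul] at h1
    nlinarith [hu y]

theorem nsqI_le_of_leAt {p : Pnt O} {a b : Ideal O} (ha : a.FG) (hb : b.FG) (h : LeAt p a b) :
    ∃ C : ℝ, 0 < C ∧ ∀ᶠ y in nhd p, nsqI a y ≤ C * nsqI b y := by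
  obtain ⟨f, hf, h⟩ := h
  refine nsqI_le_of p ha (nsqI_nonneg b) fun g hg => ?_
  obtain ⟨C, hC, h1⟩ := mem_le p hb (h g hg)
  have h0 : 0 < ‖p f‖ / 2 := half_pos (norm_pos_iff.2 hf)
  refine ⟨C / (‖p f‖ / 2) ^ 2, by positivity, ?_⟩
  filter_upwards [h1, lower_near p hf] with y h1 h2
  rw [map_mul, norm_mul, mul_pow] at h1
  rw [div_mul_eq_mul_div, le_div_iff₀ (by positivity)]
  calc ‖y g‖ ^ 2 * (‖p f‖ / 2) ^ 2 ≤ ‖y g‖ ^ 2 * ‖y f‖ ^ 2 := by gcongr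
    _ ≤ _ := by linarith

/-- `u ≤ C v` gives `v^(-c) ≤ C^c u^(-c)` -/
theorem rpow_neg_le {u v C c : ℝ} (hC : 0 < C) (hc : 0 ≤ c) (h : u ≤ C * v) :
    ENNReal.ofReal v ^ (-c) ≤ ENNReal.ofReal C ^ c * ENNReal.ofReal u ^ (-c) := by
  have h0 : ENNReal.ofReal C ≠ 0 := by simpa using hC
  have h1 : ENNReal.ofReal u ≤ ENNReal.ofReal C * ENNReal.ofReal v := by
    rw [← ENNReal.ofReal_mul hC.le]; exact ENNReal.ofReal_le_ofReal h
  have h2 : (ENNReal.ofReal C * ENNReal.ofReal v) ^ (-c) ≤ ENNReal.ofReal u ^ (-c) := by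
    rw [ENNReal.rpow_neg, ENNReal.rpow_neg]
    exact ENNReal.inv_le_inv.2 (ENNReal.rpow_le_rpow h1 hc)
  rw [ENNReal.mul_rpow_of_ne_top ENNReal.ofReal_ne_top ENNReal.ofReal_ne_top] at h2
  calc ENNReal.ofReal v ^ (-c)
      = ENNReal.ofReal C ^ c * (ENNReal.ofReal C ^ (-c) * ENNReal.ofReal v ^ (-c)) := by
        rw [← mul_assoc, ← ENNReal.rpow_add _ _ h0 ENNReal.ofReal_ne_top]; simp
    _ ≤ _ := by gcongr

variable [Algebra (MvPolynomial (Fin n) ℂ) O]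

theorem noeth (M : Model n O) : IsNoetherianRing O := by
  have : Algebra.IsStandardEtale (MvPolynomial (Fin n) ℂ) O := ⟨⟨M.E⟩⟩
  exact Algebra.FiniteType.isNoetherianRing (MvPolynomial (Fin n) ℂ) O

theorem fg (M : Model n O) (a : Ideal O) : a.FG :=
  have := noeth M
  IsNoetherian.noetherian a

/-- integrability near `p` passes to a function dominated near `p` -/
theorem int_of_le (M : Model n O) (p : Pnt O) {u v : Pnt O → ENNReal} {C : ENNReal} (hC : C ≠ ⊤)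
    (h : ∀ᶠ y in nhd p, u y ≤ C * v y)
    (hv : ∃ U ∈ 𝓝 (zz n p), ∫⁻ w in U, v (M.sg p w) < ⊤) :
    ∃ U ∈ 𝓝 (zz n p), ∫⁻ w in U, u (M.sg p w) < ⊤ := by
  obtain ⟨U, hU, hv⟩ := hv
  rw [M.eventually_nhd_iff] at h
  obtain ⟨V, hV, hVo, hVp⟩ := mem_nhds_iff.1 (inter_mem hU h)
  refine ⟨V, hVo.mem_nhds hVp, ?_⟩
  calc ∫⁻ w in V, u (M.sg p w) ≤ ∫⁻ w in V, C * v (M.sg p w) :=
        setLIntegral_mono' hVo.measurableSet fun w hw => (hV hw).2
    _ = C * ∫⁻ w in V, v (M.sg p w) := lintegral_const_mul' _ _ hC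
    _ ≤ C * ∫⁻ w in U, v (M.sg p w) := by
        gcongr
        exact fun w hw => (hV hw).1
    _ < ⊤ := ENNReal.mul_lt_top hC.lt_top hv

theorem contOn (M : Model n O) (p : Pnt O) : ∃ r > 0, ∀ f : O,
    ContinuousOn (fun w => M.sg p w f) (Metric.ball (zz n p) r) := by
  obtain ⟨r, hr, h⟩ := M.exists_ball p
  exact ⟨r, hr, fun f w hw => ((h w hw).2.1 f).continuousAt.continuousWithinAt⟩

theorem aemeas (M : Model n O) (p : Pnt O) : ∃ r > 0,
    (∀ f : O, AEMeasurable (fun w => M.sg p w f) (volume.restrict (Metric.ball (zz n p) r))) ∧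
    ∀ D : Ideal O →₀ ℝ,
      AEMeasurable (fun w => dens D (M.sg p w)) (volume.restrict (Metric.ball (zz n p) r)) := by
  obtain ⟨r, hr, h⟩ := contOn M p
  have h1 := fun f => (h f).aemeasurable (μ := volume) measurableSet_ball
  refine ⟨r, hr, h1, fun D => ?_⟩
  simp only [dens, Finsupp.prod, nsqI]
  refine Finset.aemeasurable_fun_prod _ fun a _ => ?_
  refine AEMeasurable.pow_const (AEMeasurable.ennreal_ofReal ?_) _
  exact Finset.aemeasurable_fun_sum _ fun g _ => (h1 g).norm.pow_const 2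

end KB

end Pool.Agent.Lib.MP_9ff3e7_ag.F
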