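import Pool.Agent.Lib.MP_9ff3e7_ag.F.FlagChain

/-! Leading terms: the set of leading indices of a finite dimensional space of functions on a well
ordered set, leading exponents of power series, and the flag ordered by leading terms. -/

set_option autoImplicit false

namespace Pool.Agent.Lib.MP_9ff3e7_ag.F

open Module Finset

namespace LeadA

section gen

variable {K Λ : Type} [Field K] [LinearOrder Λ]

/-- `a` is the least index where `v` does not vanish -/
def IsLd (v : Λ → K) (a : Λ) : Prop := v a ≠ 0 ∧ ∀ b < a, v b = 0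

lemma exists_isLd [WellFoundedLT Λ] {v : Λ → K} (hv : v ≠ 0) : ∃ a, IsLd v a := by
  have hne : {a | v a ≠ 0}.Nonempty := by
    by_contra h
    apply hv
    funext a
    by_contra ha
    exact h ⟨a, ha⟩
  refine ⟨wellFounded_lt.min _ hne, wellFounded_lt.min_mem _ hne, fun b hb => ?_⟩
  by_contra h
  exact wellFounded_lt.not_lt_min _ h hb

theorem exists_ld_finset [WellFoundedLT Λ] (U : Submodule K (Λ → K)) [FiniteDimensional K U] :
    ∃ s : Finset Λ, (∀ a, a ∈ s ↔ ∃ v ∈ U, IsLd v a) ∧ s.card = finrank K U := by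
  classical
  set A : Set Λ := {a | ∃ v ∈ U, IsLd v a} with hA
  have hch : ∀ a : A, ∃ v : U, IsLd (v : Λ → K) a := fun a => by
    obtain ⟨v, hv, h⟩ := a.2
    exact ⟨⟨v, hv⟩, h⟩
  choose v hv using hch
  have hli : LinearIndependent K v := by
    rw [linearIndependent_iff']
    intro t g hg
    by_contra hcon
    push Not at hcon
    have hne : (t.filter fun i => g i ≠ 0).Nonempty := by
      obtain ⟨i, hi, h⟩ := hcon
      exact ⟨i, mem_filter.2 ⟨hi, h⟩⟩
    obtain ⟨i, hi, hmin⟩ := Finset.exists_min_image _ id hne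
    have h1 := congrArg (fun w : U => (w : Λ → K) i) hg
    simp only [AddSubmonoidClass.coe_finsetSum, Finset.sum_apply, SetLike.val_smul,
      Pi.smul_apply, smul_eq_mul, ZeroMemClass.coe_zero, Pi.zero_apply] at h1
    rw [Finset.sum_eq_single i] at h1
    · exact mul_ne_zero (mem_filter.1 hi).2 (hv i).1 h1
    · intro j hj hji
      by_cases hgj : g j = 0
      · rw [hgj, zero_mul]
      · have : i ≤ j := hmin j (mem_filter.2 ⟨hj, hgj⟩)
        rw [(hv j).2 i (lt_of_le_of_ne this fun h => hji (Subtype.ext h).symm), mul_zero]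
    · intro h
      exact absurd (mem_filter.1 hi).1 h
  have hfin : Finite A := hli.finite
  have hAf : A.Finite := Set.toFinite A
  have := Fintype.ofFinite A
  refine ⟨hAf.toFinset, fun a => by simp [hA], le_antisymm ?_ ?_⟩
  · have h1 := hli.fintype_card_le_finrank
    rwa [← Set.toFinset_card, ← Set.Finite.toFinset_eq_toFinset hAf] at h1
  · let φ : U →ₗ[K] (hAf.toFinset → K) :=
      LinearMap.pi fun a => (LinearMap.proj (a : Λ)).comp U.subtype
    have hφ : Function.Injective φ := by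
      rw [injective_iff_map_eq_zero]
      intro w hw
      by_contra h
      obtain ⟨a, ha⟩ := exists_isLd (v := (w : Λ → K)) fun h0 => h (Subtype.ext h0)
      have h2 := congrFun hw ⟨a, by simpa [hA] using ⟨w, w.2, ha⟩⟩
      exact ha.1 h2
    have h1 := LinearMap.finrank_le_finrank_of_injective hφ
    rwa [Module.finrank_fintype_fun_eq_card, Fintype.card_coe] at h1

end gen

lemma finrank_map_congr {K W X Y : Type} [Field K] [AddCommGroup W] [Module K W] [AddCommGroup X]
    [Module K X] [AddCommGroup Y] [Module K Y] (U : Submodule K W) [FiniteDimensional K U]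
    (f : W →ₗ[K] X) (g : W →ₗ[K] Y) (h : ∀ s ∈ U, f s = 0 ↔ g s = 0) :
    finrank K (U.map f) = finrank K (U.map g) := by
  have h1 := LinearMap.finrank_range_add_finrank_ker (f.domRestrict U)
  have h2 := LinearMap.finrank_range_add_finrank_ker (g.domRestrict U)
  have h3 : LinearMap.ker (f.domRestrict U) = LinearMap.ker (g.domRestrict U) := by
    ext s
    simpa using h s s.2
  rw [LinearMap.range_domRestrict] at h1 h2
  rw [h3] at h1
  omega

section ps

variable {d : ℕ}

open MvPowerSeries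

lemma coeff_mul_ld {f g : MvPowerSeries (Fin d) ℂ} {a b : Fin d →₀ ℕ}
    (hf : ∀ u, toDegLex u < toDegLex a → coeff u f = 0)
    (hg : ∀ u, toDegLex u < toDegLex b → coeff u g = 0) :
    (∀ u, toDegLex u < toDegLex (a + b) → coeff u (f * g) = 0) ∧
      coeff (a + b) (f * g) = coeff a f * coeff b g := by
  classical
  constructor
  · intro u hu
    rw [coeff_mul]
    refine Finset.sum_eq_zero fun p hp => ?_
    have hp' : p.1 + p.2 = u := mem_antidiagonal.1 hp
    by_cases h1 : toDegLex p.1 < toDegLex a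
    · rw [hf _ h1, zero_mul]
    by_cases h2 : toDegLex p.2 < toDegLex b
    · rw [hg _ h2, mul_zero]
    exfalso
    rw [← hp', toDegLex_add, toDegLex_add] at hu
    exact absurd (add_le_add (not_lt.1 h1) (not_lt.1 h2)) (not_le.2 hu)
  · rw [coeff_mul, Finset.sum_eq_single (a, b)]
    · intro p hp hne
      have hp' : p.1 + p.2 = a + b := mem_antidiagonal.1 hp
      by_cases h1 : toDegLex p.1 < toDegLex a
      · rw [hf _ h1, zero_mul]
      by_cases h2 : toDegLex p.2 < toDegLex b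
      · rw [hg _ h2, mul_zero]
      exfalso
      have h3 : toDegLex p.1 + toDegLex p.2 = toDegLex a + toDegLex b := by
        rw [← toDegLex_add, ← toDegLex_add, hp']
      rcases (not_lt.1 h1).eq_or_lt with h4 | h4
      · have e1 : p.1 = a := toDegLex_injective h4.symm
        have e2 : p.2 = b := by
          rw [e1] at hp'
          exact add_left_cancel hp'
        exact hne (Prod.ext e1 e2)
      · exact absurd h3.symm (add_lt_add_of_lt_of_le h4 (not_lt.1 h2)).ne
    · intro h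
      simp at h

lemma lt_of_degree_lt {u a : Fin d →₀ ℕ} (h : u.degree < a.degree) : toDegLex u < toDegLex a := by
  rw [Finsupp.DegLex.lt_iff]
  exact Or.inl (by simpa using h)

/-- the index set: block, exponent, position -/
abbrev Idx (d rk : ℕ) : Type := ℕ ×ₗ (DegLex (Fin d →₀ ℕ) ×ₗ Fin rk)

/-- an index from its three parts -/
def mkI {rk : ℕ} (b : ℕ) (a : Fin d →₀ ℕ) (l : Fin rk) : Idx d rk :=
  toLex (b, toLex (toDegLex a, l))

lemma mkI_surj {rk : ℕ} (x : Idx d rk) : ∃ b a l, x = mkI b a l :=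
  ⟨(ofLex x).1, ofDegLex (ofLex (ofLex x).2).1, (ofLex (ofLex x).2).2, rfl⟩

lemma mkI_lt {rk : ℕ} {b b' : ℕ} {a a' : Fin d →₀ ℕ} {l l' : Fin rk} :
    mkI b a l < mkI b' a' l' ↔
      b < b' ∨ b = b' ∧ (toDegLex a < toDegLex a' ∨ a = a' ∧ l < l') := by
  simp only [mkI, Prod.Lex.toLex_lt_toLex, toDegLex_inj]

/-- the block of an index -/
def bk {rk : ℕ} (x : Idx d rk) : ℕ := (ofLex x).1

/-- the exponent of an index -/
def ex {rk : ℕ} (x : Idx d rk) : Fin d →₀ ℕ := ofDegLex (ofLex (ofLex x).2).1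

/-- the position of an index -/
def po {rk : ℕ} (x : Idx d rk) : Fin rk := (ofLex (ofLex x).2).2

lemma mkI_eta {rk : ℕ} (x : Idx d rk) : mkI (bk x) (ex x) (po x) = x := rfl

@[simp] lemma bk_mkI {rk : ℕ} (b : ℕ) (a : Fin d →₀ ℕ) (l : Fin rk) : bk (mkI b a l) = b := rfl

@[simp] lemma ex_mkI {rk : ℕ} (b : ℕ) (a : Fin d →₀ ℕ) (l : Fin rk) : ex (mkI b a l) = a := rfl

@[simp] lemma po_mkI {rk : ℕ} (b : ℕ) (a : Fin d →₀ ℕ) (l : Fin rk) : po (mkI b a l) = l := rfl

lemma bk_mono {rk : ℕ} {x y : Idx d rk} (h : x ≤ y) : bk x ≤ bk y := by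
  rcases h.eq_or_lt with rfl | h
  · exact le_rfl
  · rw [← mkI_eta x, ← mkI_eta y, mkI_lt] at h
    rcases h with h | h
    · exact h.le
    · exact h.1.le

/-- all coefficients of all block maps, as one linear map -/
noncomputable def psi {W : Type} [AddCommGroup W] [Module ℂ W] {rk : ℕ} (N : ℕ)
    (ph : ℕ → W →ₗ[ℂ] (Fin rk → MvPowerSeries (Fin d) ℂ)) : W →ₗ[ℂ] (Idx d rk → ℂ) :=
  LinearMap.pi fun x => if bk x < N then
    (coeff (ex x)).comp ((LinearMap.proj (po x)).comp (ph (bk x))) else 0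

lemma psi_apply {W : Type} [AddCommGroup W] [Module ℂ W] {rk : ℕ} (N : ℕ)
    (ph : ℕ → W →ₗ[ℂ] (Fin rk → MvPowerSeries (Fin d) ℂ)) (s : W) (x : Idx d rk) :
    psi N ph s x = if bk x < N then coeff (ex x) (ph (bk x) s (po x)) else 0 := by
  simp only [psi, LinearMap.pi_apply]
  split_ifs <;> rfl

lemma psi_block {W : Type} [AddCommGroup W] [Module ℂ W] {rk : ℕ} {N : ℕ}
    {ph : ℕ → W →ₗ[ℂ] (Fin rk → MvPowerSeries (Fin d) ℂ)} {s : W} {b : ℕ} (hb : b ≤ N) :
    (∀ x, bk x < b → psi N ph s x = 0) ↔ ∀ r < b, ph r s = 0 := by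
  constructor
  · intro h r hr
    funext l
    ext a
    have := h (mkI r a l) hr
    rw [psi_apply, if_pos (show bk (mkI r a l) < N from lt_of_lt_of_le hr hb)] at this
    simpa using this
  · intro h x hx
    rw [psi_apply, h _ hx]
    simp

end ps

end LeadA

open LeadA MvPowerSeries in
/-- the flag ordered by leading terms, and its leading indices -/
theorem exists_lead_flag {W : Type} [AddCommGroup W] [Module ℂ W] {d rk : ℕ}
    (V C : Submodule ℂ W) [FiniteDimensional ℂ V] (N : ℕ)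
    (hN : finrank ℂ C + N = finrank ℂ V) (G : ℕ → Submodule ℂ W) (nb : ℕ → ℕ)
    (hG0 : G 0 = V) (hGN : G N = C) (hanti : ∀ r r', r ≤ r' → r' ≤ N → G r' ≤ G r)
    (hnb1 : ∀ r < N, r < nb r) (hnb2 : ∀ r < N, nb r ≤ N)
    (hblk : ∀ r < N, ∀ r', r ≤ r' → r' < nb r → G r' = G r ∧ nb r' = nb r)
    (hcod : ∀ r < N, finrank ℂ V ≤ finrank ℂ (G r) + r)
    (hbrk : ∀ r < N, finrank ℂ (G (nb r)) + nb r = finrank ℂ V)
    (ph : ℕ → W →ₗ[ℂ] (Fin rk → MvPowerSeries (Fin d) ℂ))
    (hph : ∀ r < N, ∀ r', r ≤ r' → r' < nb r → ph r' = ph r)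
    (h0 : ∀ r < N, ∀ s ∈ G (nb r), ph r s = 0)
    (hd : ∀ r < N, ∀ s ∈ G r, ph r s = 0 → s ∈ G (nb r)) :
    (∀ s ∈ V, ∀ b ≤ N, (∀ r < b, ph r s = 0) → s ∈ G b) ∧
    (∀ s ∈ V, psi N ph s = 0 ↔ s ∈ C) ∧
    ∃ (F : ℕ → Submodule ℂ W) (τ : ℕ → ℕ), F 0 = V ∧ (∀ r, N ≤ r → F r = C) ∧ Antitone F ∧
      (∀ r ≤ N, finrank ℂ (F r) + r = finrank ℂ V) ∧
      (∀ r ≤ N, finrank ℂ (G r) + r = finrank ℂ V → F r = G r) ∧
      (∀ r < N, ∀ s ∈ F r, ∀ l, (τ r : ℕ∞) ≤ (ph r s l).order) ∧
      ∀ A : Finset (Idx d rk), (∀ x ∈ A, ∃ s ∈ V, IsLd (psi N ph s) x) →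
        ∑ x ∈ A, (ex x).degree ≤ ∑ r ∈ range N, τ r := by
  classical
  have hGV : ∀ r ≤ N, G r ≤ V := fun r hr => hG0 ▸ hanti 0 r (Nat.zero_le _) hr
  have hCG : ∀ r ≤ N, C ≤ G r := fun r hr => hGN ▸ hanti r N hr le_rfl
  have hCV : C ≤ V := hGN ▸ hGV N le_rfl
  have hin : ∀ s ∈ V, ∀ b ≤ N, (∀ r < b, ph r s = 0) → s ∈ G b := by
    intro s hs b
    induction b with
    | zero => exact fun _ _ => hG0 ▸ hs
    | succ b ih =>
      intro hb h
      exact hanti _ _ (hnb1 b hb) (hnb2 b hb)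
        (hd b hb s (ih (by omega) fun r hr => h r (by omega)) (h b (by omega)))
  have hout : ∀ b ≤ N, finrank ℂ (G b) + b = finrank ℂ V → ∀ s ∈ G b, ∀ r < b, ph r s = 0 := by
    intro b hb hc s hs r hr
    have hrN : r < N := by omega
    by_cases h : b < nb r
    · have h1 := (hblk r hrN b hr.le h).1
      have h2 := hcod r hrN
      rw [h1] at hc
      omega
    · exact h0 r hrN s (hanti _ _ (by omega) hb hs)
  have hker : ∀ s ∈ V, psi N ph s = 0 ↔ s ∈ C := by
    intro s hs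
    constructor
    · intro h
      exact hGN ▸ hin s hs N le_rfl ((psi_block le_rfl).1 fun x _ => congrFun h x)
    · intro h
      have h1 := (psi_block (ph := ph) le_rfl).2 (hout N le_rfl (hGN ▸ hN) s (hGN ▸ h))
      funext x
      by_cases hx : bk x < N
      · exact h1 x hx
      · rw [psi_apply, if_neg hx]
        rfl
  refine ⟨hin, hker, ?_⟩
  let X : Set (Idx d rk) → Submodule ℂ W := fun A =>
    V ⊓ ⨅ x ∈ A, LinearMap.ker ((LinearMap.proj x).comp (psi N ph))
  have hX : ∀ A s, s ∈ X A ↔ s ∈ V ∧ ∀ x ∈ A, psi N ph s x = 0 := by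
    intro A s
    simp [X, Submodule.mem_iInf]
  have hXb : ∀ A, C ≤ X A ∧ X A ≤ V := fun A =>
    ⟨fun s hs => (hX A s).2 ⟨hCV hs, fun x _ => congrFun ((hker s (hCV hs)).2 hs) x⟩,
      fun s hs => ((hX A s).1 hs).1⟩
  obtain ⟨F, hF0, hFN, hFa, hFd, hFS⟩ := exists_flag_of_chain V C hCV N hN
    {Y | ∃ A, IsLowerSet A ∧ Y = X A} (by
      rintro _ ⟨A, hA, rfl⟩ _ ⟨B, hB, rfl⟩ _
      rcases hA.total hB with h | h
      · exact Or.inr fun s hs => (hX _ s).2 ⟨((hX _ s).1 hs).1, fun x hx =>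
          ((hX _ s).1 hs).2 x (h hx)⟩
      · exact Or.inl fun s hs => (hX _ s).2 ⟨((hX _ s).1 hs).1, fun x hx =>
          ((hX _ s).1 hs).2 x (h hx)⟩) (by
      rintro _ ⟨A, _, rfl⟩
      exact hXb A)
  have hFV : ∀ r, F r ≤ V := fun r => hF0 ▸ hFa (Nat.zero_le r)
  have hFG : ∀ r ≤ N, finrank ℂ (G r) + r = finrank ℂ V → F r = G r := by
    intro b hb hc
    refine hFS _ ⟨{x | bk x < b}, fun x y hxy hx => lt_of_le_of_lt (bk_mono hxy) hx, ?_⟩ b hb hc
    ext s
    rw [hX]
    exact ⟨fun hs => ⟨hGV b hb hs, (psi_block hb).2 (hout b hb hc s hs)⟩,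
      fun hs => hin s hs.1 b hb ((psi_block hb).1 hs.2)⟩
  have hlt : ∀ r r', r < r' → r' ≤ N → ¬ F r ≤ F r' := by
    intro r r' h h' hle
    have : FiniteDimensional ℂ (F r') := Submodule.finiteDimensional_of_le (hFV r')
    have h1 := Submodule.finrank_mono hle
    have h2 := hFd r (by omega)
    have h3 := hFd r' h'
    omega
  have hne : ∀ r < N, {x | ∃ s ∈ F r, psi N ph s x ≠ 0}.Nonempty := by
    intro r hr
    by_contra h
    refine hlt r N hr le_rfl fun s hs => ?_
    rw [hFN N le_rfl, ← hker s (hFV r hs)]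
    funext x
    by_contra hx
    exact h ⟨x, s, hs, hx⟩
  have hmin : ∀ r < N, ∃ x, (∃ s ∈ F r, psi N ph s x ≠ 0) ∧
      ∀ y < x, ∀ s ∈ F r, psi N ph s y = 0 := by
    intro r hr
    refine ⟨wellFounded_lt.min _ (hne r hr), wellFounded_lt.min_mem _ (hne r hr),
      fun y hy s hs => ?_⟩
    by_contra h
    exact wellFounded_lt.not_lt_min _ (show y ∈ {x | ∃ s ∈ F r, psi N ph s x ≠ 0} from
      ⟨s, hs, h⟩) hy
  choose lam hlam1 hlam2 using hmin
  refine ⟨F, fun r => if h : r < N then (ex (lam r h)).degree else 0, hF0, hFN, hFa, hFd, hFG,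
    ?_, ?_⟩
  · intro r hr s hs l
    obtain ⟨s0, hs0, hx0⟩ := hlam1 r hr
    set x := lam r hr with hx
    have hb : bk x < N := by
      by_contra h
      exact hx0 (by rw [psi_apply, if_neg h])
    have hp0 : ph (bk x) s0 ≠ 0 := fun h => hx0 (by rw [psi_apply, h]; simp)
    have hlow : ∀ t ∈ F r, ∀ r' < bk x, ph r' t = 0 := fun t ht =>
      (psi_block hb.le).1 fun y hy => hlam2 r hr y
        (lt_of_not_ge fun h => absurd (bk_mono h) (not_le.2 hy)) t ht
    have h1 : r < nb (bk x) := by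
      by_contra h
      refine hp0 (h0 _ hb s0 ?_)
      rw [← hFG _ (hnb2 _ hb) (hbrk _ hb)]
      exact hFa (not_lt.1 h) hs0
    have h2 : bk x ≤ r := by
      by_contra h
      push Not at h
      by_cases h3 : bk x < nb r
      · exact hp0 (by rw [hph r hr _ h.le h3]; exact hlow s0 hs0 r h)
      · refine hlt r (nb r) (hnb1 r hr) (hnb2 r hr) fun t ht => ?_
        rw [hFG _ (hnb2 _ hr) (hbrk _ hr)]
        exact hanti _ _ (not_lt.1 h3) hb.le (hin t (hFV r ht) _ hb.le (hlow t ht))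
    simp only [dif_pos hr]
    refine nat_le_order fun a ha => ?_
    have h4 := hlam2 r hr (mkI (bk x) a l) (by
      rw [← hx]
      conv_rhs => rw [← mkI_eta x]
      exact mkI_lt.2 (Or.inr ⟨rfl, Or.inl (lt_of_degree_lt ha)⟩)) s hs
    rw [psi_apply, if_pos (show bk (mkI (bk x) a l) < N from hb)] at h4
    rw [hph _ hb r h2 h1]
    exact h4
  · intro A hA
    have hsur : ∀ x ∈ A, ∃ r, ∃ h : r < N, lam r h = x := by
      intro x hx
      obtain ⟨s, hs, hl⟩ := hA x hx
      have hsX : s ∈ X (Set.Iio x) := (hX _ s).2 ⟨hs, hl.2⟩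
      have : FiniteDimensional ℂ (X (Set.Iio x)) := Submodule.finiteDimensional_of_le (hXb _).2
      have h1 := Submodule.finrank_mono (hXb (Set.Iio x)).2
      have h2 := Submodule.finrank_mono (hXb (Set.Iio x)).1
      have h3 := hFS _ ⟨_, isLowerSet_Iio x, rfl⟩ (finrank ℂ V - finrank ℂ (X (Set.Iio x)))
        (by omega) (by omega)
      set r := finrank ℂ V - finrank ℂ (X (Set.Iio x)) with hr
      have hrN : r < N := by
        by_contra h
        rw [hFN r (not_lt.1 h)] at h3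
        rw [← h3] at hsX
        exact hl.1 (congrFun ((hker s hs).2 hsX) x)
      refine ⟨r, hrN, le_antisymm ?_ ?_⟩
      · by_contra h
        rw [← h3] at hsX
        exact hl.1 (hlam2 r hrN x (not_le.1 h) s hsX)
      · by_contra h
        obtain ⟨t, ht, h4⟩ := hlam1 r hrN
        rw [h3] at ht
        exact h4 (((hX _ t).1 ht).2 _ (not_le.1 h))
    choose rr hrr hlam using hsur
    calc ∑ x ∈ A, (ex x).degree
        = ∑ x ∈ A.attach, (if h : rr x.1 x.2 < N then (ex (lam _ h)).degree else 0) := by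
          rw [← Finset.sum_attach]
          exact Finset.sum_congr rfl fun x _ => by rw [dif_pos (hrr x.1 x.2), hlam]
      _ = ∑ r ∈ A.attach.image fun x => rr x.1 x.2,
            (if h : r < N then (ex (lam r h)).degree else 0) := by
          rw [Finset.sum_image]
          intro x _ y _ h
          have h' : rr x.1 x.2 = rr y.1 y.2 := h
          apply Subtype.ext
          rw [← hlam x.1 x.2, ← hlam y.1 y.2]
          simp only [h']
      _ ≤ _ := Finset.sum_le_sum_of_subset fun r hr => by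
          obtain ⟨x, _, rfl⟩ := mem_image.1 hr
          exact mem_range.2 (hrr _ _)

end Pool.Agent.Lib.MP_9ff3e7_ag.F
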