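import Pool.Agent.Lib.MP_9ff3e7_ag.F.KDefs
import Pool.Agent.Lib.MP_9ff3e7_ag.F.LeadA

/-! Leading terms: a complete flag inside a coarse flag with large vanishing orders. -/

set_option autoImplicit false
set_option linter.dupNamespace false

namespace Pool.Agent.Lib.MP_9ff3e7_ag.F

open Module Finset

open LeadA MvPowerSeries in
/-- the sets of leading exponents -/
theorem lead_gam {n : ℕ} {O : Type} [CommRing O] [Algebra ℂ O]
    [Algebra (MvPolynomial (Fin n) ℂ) O] (Fi : Filt n O) (P : Ideal O) {d : ℕ}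
    (J : Fin d ↪ Fin n) (y : Pnt O) (io : O →ₐ[ℂ] MvPowerSeries (Fin d) ℂ)
    (hio : ∀ f, io f = 0 ↔ f ∈ P)
    (hz : ∀ j, io (zc n O (J j)) = MvPowerSeries.C (y (zc n O (J j))) + MvPowerSeries.X j) :
    ∃ Gm : ℕ → Finset (Fin d →₀ ℕ), (∀ j b, b ∈ Gm j → ∃ f ∈ Fi.F j, coeff b (io f) ≠ 0 ∧
      ∀ u, toDegLex u < toDegLex b → coeff u (io f) = 0) ∧
      (∀ j, (Gm j).card = Hf Fi.F P j) ∧ ∀ e : Fin d →₀ ℕ, (∀ i, e i ≤ 1) → e ∈ Gm d := by
  classical
  let Ψ : O →ₗ[ℂ] (DegLex (Fin d →₀ ℕ) → ℂ) :=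
    LinearMap.pi fun x => (coeff (ofDegLex x)).comp io.toLinearMap
  have hΨ : ∀ f x, Ψ f x = coeff (ofDegLex x) (io f) := fun f x => rfl
  have hex : ∀ j, ∃ L : Finset (DegLex (Fin d →₀ ℕ)),
      (∀ a, a ∈ L ↔ ∃ v ∈ (Fi.F j).map Ψ, IsLd v a) ∧ L.card = finrank ℂ ((Fi.F j).map Ψ) := by
    intro j
    have := Fi.fd j
    exact exists_ld_finset _
  choose L hL hc using hex
  refine ⟨fun j => (L j).map ofDegLex.toEmbedding, ?_, fun j => ?_, fun e he => ?_⟩
  · intro j b hb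
    obtain ⟨x, hx, rfl⟩ := mem_map.1 hb
    obtain ⟨_, ⟨f, hf, rfl⟩, h⟩ := (hL j x).1 hx
    exact ⟨f, hf, h.1, fun u hu => h.2 (toDegLex u) hu⟩
  · have := Fi.fd j
    rw [card_map, hc, Hf]
    refine finrank_map_congr _ _ _ fun s _ => ?_
    rw [AlgHom.toLinearMap_apply, Ideal.Quotient.mkₐ_eq_mk, Ideal.Quotient.eq_zero_iff_mem, ← hio]
    constructor
    · intro h
      ext a
      exact congrFun h (toDegLex a)
    · intro h
      funext x
      rw [hΨ, h]
      rfl
  · have h1 : ∀ j, zc n O (J j) - algebraMap ℂ O (y (zc n O (J j))) ∈ Fi.F 1 := by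
      intro j
      refine (Fi.F 1).sub_mem (Fi.z1 _) ?_
      rw [Algebra.algebraMap_eq_smul_one]
      exact (Fi.F 1).smul_mem _ (Fi.mono (Nat.zero_le 1) Fi.one)
    have h2 : ∀ s : Finset (Fin d), ∃ f ∈ Fi.F s.card,
        io f = monomial (∑ j ∈ s, Finsupp.single j (e j)) 1 := by
      intro s
      induction s using Finset.induction_on with
      | empty => exact ⟨1, Fi.one, by simp⟩
      | insert j s hj ih =>
        obtain ⟨f, hf, h⟩ := ih
        rw [card_insert_of_notMem hj, sum_insert hj]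
        rcases Nat.le_one_iff_eq_zero_or_eq_one.1 (he j) with h3 | h3
        · exact ⟨f, Fi.mono (Nat.le_succ _) hf, by rw [h, h3]; simp⟩
        · refine ⟨f * _, Fi.mul _ _ _ _ hf (h1 j), ?_⟩
          rw [map_mul, map_sub, hz, h, h3, AlgHom.commutes, add_comm (Finsupp.single j 1)]
          have : algebraMap ℂ (MvPowerSeries (Fin d) ℂ) (y (zc n O (J j))) =
              MvPowerSeries.C (y (zc n O (J j))) := rfl
          rw [this, add_sub_cancel_left, X_def, monomial_mul_monomial, one_mul]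
    obtain ⟨f, hf, h⟩ := h2 univ
    have h3 : ∑ j, Finsupp.single j (e j) = e := Finsupp.univ_sum_single e
    rw [card_univ, Fintype.card_fin] at hf
    rw [h3] at h
    refine mem_map.2 ⟨toDegLex e, (hL d _).2 ⟨_, ⟨f, hf, rfl⟩, ?_, fun b hb => ?_⟩, rfl⟩
    · rw [hΨ, h, ofDegLex_toDegLex, coeff_monomial_same]
      exact one_ne_zero
    · rw [hΨ, h, coeff_monomial_ne]
      intro h4
      rw [← h4] at hb
      exact lt_irrefl _ hb

open LeadA MvPowerSeries in
theorem lead {n : ℕ} {O : Type} [CommRing O] [Algebra ℂ O] [Algebra (MvPolynomial (Fin n) ℂ) O]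
    (Fi : Filt n O) (Pi P : Ideal O) (k N : ℕ) (G : ℕ → Submodule ℂ O) (nb : ℕ → ℕ)
    (hG0 : G 0 = Fi.F k) (hGN : G N = Fi.F k ⊓ Pi.restrictScalars ℂ)
    (hN : finrank ℂ (G N) + N = finrank ℂ (Fi.F k))
    (hanti : ∀ r r', r ≤ r' → r' ≤ N → G r' ≤ G r)
    (hnb1 : ∀ r < N, r < nb r) (hnb2 : ∀ r < N, nb r ≤ N)
    (hblk : ∀ r < N, ∀ r', r ≤ r' → r' < nb r → G r' = G r ∧ nb r' = nb r)
    (hbrk : ∀ r < N, finrank ℂ (G (nb r)) + nb r = finrank ℂ (Fi.F k))
    {d rk : ℕ} (J : Fin d ↪ Fin n) (y : Pnt O) (io : O →ₐ[ℂ] MvPowerSeries (Fin d) ℂ)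
    (hio : ∀ f, io f = 0 ↔ f ∈ P)
    (hz : ∀ j, io (zc n O (J j)) = MvPowerSeries.C (y (zc n O (J j))) + MvPowerSeries.X j)
    (ph : ℕ → O →ₗ[ℂ] (Fin rk → MvPowerSeries (Fin d) ℂ))
    (hpb : ∀ r < N, ∀ r', r ≤ r' → r' < nb r → ph r' = ph r)
    (h0 : ∀ r < N, ∀ s ∈ G (nb r), ph r s = 0)
    (hm : ∀ r < N, ∀ s ∈ G r, ∀ f, ph r (f * s) = io f • ph r s) (B : ℝ)
    (hB : ∀ (ι : Type) (Q : Finset ι) (S : ι → ℕ → Finset (Fin d →₀ ℕ))
      (Gm : ℕ → Finset (Fin d →₀ ℕ)),
      (∀ t ≤ k, ∑ q ∈ Q, (S q t).card = Hf Fi.F Pi t) →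
      (∀ q ∈ Q, ∀ t j, t + j ≤ k → ∀ a ∈ S q t, ∀ b ∈ Gm j, a + b ∈ S q (t + j)) →
      (∀ j, (Gm j).card = Hf Fi.F P j) →
      (∀ e : Fin d →₀ ℕ, (∀ i, e i ≤ 1) → e ∈ Gm d) →
      B ≤ ∑ q ∈ Q, ∑ a ∈ S q k, (a.degree : ℝ)) :
    ∃ (F : ℕ → Submodule ℂ O) (τ : ℕ → ℕ), F 0 = Fi.F k ∧ (∀ r, N ≤ r → F r = G N) ∧
      Antitone F ∧ (∀ r ≤ N, finrank ℂ (F r) + r = finrank ℂ (Fi.F k)) ∧
      (∀ r ≤ N, finrank ℂ (G r) + r = finrank ℂ (Fi.F k) → F r = G r) ∧
      (∀ r < N, F r ≤ G r) ∧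
      (∀ r < N, ∀ s ∈ Ideal.span (F r : Set O), ∀ l, (τ r : ℕ∞) ≤ (ph r s l).order) ∧
      B ≤ ∑ r ∈ range N, (τ r : ℝ) := by
  classical
  have hfd := Fi.fd k
  have hGV : ∀ r ≤ N, G r ≤ Fi.F k := fun r hr => hG0 ▸ hanti 0 r (Nat.zero_le _) hr
  have hCG : ∀ r ≤ N, G N ≤ G r := fun r hr => hanti r N hr le_rfl
  have hcod : ∀ r, r ≤ N → finrank ℂ (Fi.F k) ≤ finrank ℂ (G r) + r := by
    intro r
    induction r with
    | zero => intro _; rw [hG0]; exact le_rfl
    | succ r ih =>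
      intro hr
      have h1 := ih (by omega)
      by_cases h : r + 1 < nb r
      · rw [(hblk r hr (r + 1) (Nat.le_succ r) h).1]
        omega
      · have h2 : nb r = r + 1 := by have := hnb1 r hr; omega
        have h3 := hbrk r hr
        rw [h2] at h3
        omega
  -- a flag through all breaks lies inside the coarse flag
  have hFG : ∀ F : ℕ → Submodule ℂ O, F 0 = Fi.F k → Antitone F →
      (∀ r ≤ N, finrank ℂ (G r) + r = finrank ℂ (Fi.F k) → F r = G r) → ∀ r, r < N → F r ≤ G r := by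
    intro F hF0 hFa hFS r
    induction r with
    | zero => intro _; rw [hF0, hG0]
    | succ r ih =>
      intro hr
      have hr' : r < N := by omega
      by_cases h : r + 1 < nb r
      · rw [(hblk r hr' (r + 1) (Nat.le_succ r) h).1]
        exact (hFa (Nat.le_succ r)).trans (ih hr')
      · have h2 : nb r = r + 1 := by have := hnb1 r hr'; omega
        have h3 := hbrk r hr'
        rw [h2] at h3
        exact (hFS _ hr.le h3).le
  have hspan : ∀ (U : Submodule ℂ O) (r t : ℕ), r < N → U ≤ G r →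
      (∀ s ∈ U, ∀ l, (t : ℕ∞) ≤ (ph r s l).order) →
      ∀ s ∈ Ideal.span (U : Set O), ∀ l, (t : ℕ∞) ≤ (ph r s l).order := by
    intro U r t hr hU h s hs
    have key : ∀ f l, (t : ℕ∞) ≤ (ph r (f * s) l).order := by
      induction hs using Submodule.span_induction with
      | mem x hx =>
        intro f l
        rw [hm r hr x (hU hx), _root_.Pi.smul_apply, smul_eq_mul]
        exact ((h x hx l).trans le_add_self).trans le_order_mul
      | zero => intro f l; simp
      | add x z _ _ hx hz =>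
        intro f l
        rw [mul_add, map_add, _root_.Pi.add_apply]
        exact (le_min (hx f l) (hz f l)).trans min_order_le_add
      | smul a x _ hx =>
        intro f l
        rw [smul_eq_mul, ← mul_assoc]
        exact hx _ l
    intro l
    simpa using key 1 l
  by_cases hd : ∀ r < N, ∀ s ∈ G r, ph r s = 0 → s ∈ G (nb r)
  · obtain ⟨hin, hker, F, τ, hF0, hFN, hFa, hFd, hFS, hord, hsum⟩ :=
      exists_lead_flag (Fi.F k) (G N) N hN G nb hG0 rfl hanti hnb1 hnb2 hblk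
        (fun r hr => hcod r hr.le) hbrk ph hpb h0 hd
    have hle := hFG F hF0 hFa hFS
    refine ⟨F, τ, hF0, hFN, hFa, hFd, hFS, hle,
      fun r hr => hspan _ r _ hr (hle r hr) (hord r hr), ?_⟩
    obtain ⟨Gm, hG1, hG2, hG3⟩ := lead_gam Fi P J y io hio hz
    have hex : ∀ t, ∃ L : Finset (Idx d rk),
        (∀ a, a ∈ L ↔ ∃ v ∈ (Fi.F t).map (psi N ph), IsLd v a) ∧
          L.card = finrank ℂ ((Fi.F t).map (psi N ph)) := by
      intro t
      have := Fi.fd t
      exact exists_ld_finset _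
    choose L hL hc using hex
    have hL' : ∀ t a, a ∈ L t ↔ ∃ s ∈ Fi.F t, IsLd (psi N ph s) a := by
      intro t a
      rw [hL]
      constructor
      · rintro ⟨_, ⟨s, hs, rfl⟩, h⟩
        exact ⟨s, hs, h⟩
      · rintro ⟨s, hs, h⟩
        exact ⟨_, ⟨s, hs, rfl⟩, h⟩
    have hbN : ∀ t, ∀ x ∈ L t, bk x < N := by
      intro t x hx
      obtain ⟨s, -, h⟩ := (hL' t x).1 hx
      by_contra h1
      exact h.1 (by rw [psi_apply, if_neg h1])
    let S : ℕ × Fin rk → ℕ → Finset (Fin d →₀ ℕ) := fun q t =>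
      ((L t).filter fun x => (bk x, po x) = q).image ex
    have hS : ∀ q t a, a ∈ S q t ↔ mkI q.1 a q.2 ∈ L t := by
      intro q t a
      simp only [S, mem_image, mem_filter]
      constructor
      · rintro ⟨x, ⟨hx, rfl⟩, rfl⟩
        exact hx
      · intro h
        exact ⟨_, ⟨h, rfl⟩, rfl⟩
    have hfib : ∀ (t : ℕ) (g : (Fin d →₀ ℕ) → ℕ),
        ∑ q ∈ range N ×ˢ univ, ∑ a ∈ S q t, g a = ∑ x ∈ L t, g (ex x) := by
      intro t g
      rw [← sum_fiberwise_of_maps_to (s := L t) (t := range N ×ˢ (univ : Finset (Fin rk)))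
        (g := fun x => (bk x, po x))
        (fun x hx => mem_product.2 ⟨mem_range.2 (hbN t x hx), mem_univ _⟩)]
      refine sum_congr rfl fun q _ => ?_
      rw [sum_image]
      intro x hx x' hx' h
      have h1 := (mem_filter.1 hx).2
      have h2 := (mem_filter.1 hx').2
      rw [← h2] at h1
      have h3 : bk x = bk x' := (Prod.ext_iff.1 h1).1
      have h4 : po x = po x' := (Prod.ext_iff.1 h1).2
      rw [← mkI_eta x, ← mkI_eta x', h, h3, h4]
    have hmain := hB (ℕ × Fin rk) (range N ×ˢ univ) S Gm ?_ ?_ hG2 hG3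
    · refine hmain.trans ?_
      have h1 := hfib k fun a => a.degree
      have h2 := hsum (L k) fun x hx => (hL' k x).1 hx
      rw [← h1] at h2
      exact_mod_cast h2
    · intro t ht
      have := Fi.fd t
      have h1 := hfib t fun _ => 1
      simp only [sum_const, smul_eq_mul, mul_one] at h1
      rw [h1, hc, Hf]
      refine finrank_map_congr _ _ _ fun s hs => ?_
      rw [hker s (Fi.mono ht hs), hGN, AlgHom.toLinearMap_apply, Ideal.Quotient.mkₐ_eq_mk,
        Ideal.Quotient.eq_zero_iff_mem]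
      exact ⟨fun h => h.2, fun h => ⟨Fi.mono ht hs, h⟩⟩
    · rintro ⟨b, l⟩ - t j htj a ha c hc
      rw [hS] at ha ⊢
      have hb : b < N := hbN t _ ha
      obtain ⟨s, hs, h1, h2⟩ := (hL' t _).1 ha
      obtain ⟨f, hf, h3, h4⟩ := hG1 j c hc
      have hsV : s ∈ Fi.F k := Fi.mono (by omega) hs
      have hlow : ∀ r < b, ph r s = 0 := (psi_block (N := N) hb.le).1 fun x hx => h2 x (by
        rw [← mkI_eta x]
        exact mkI_lt.2 (Or.inl hx))
      have hsG : s ∈ G b := hin s hsV b hb.le hlow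
      have hev : ∀ (w : O) (u : Fin d →₀ ℕ) (l' : Fin rk),
          psi N ph w (mkI b u l') = coeff u (ph b w l') := by
        intro w u l'
        rw [psi_apply, if_pos (show bk (mkI b u l') < N from hb)]
        rfl
      have hlo : ∀ l' u, toDegLex u < toDegLex a → coeff u (ph b s l') = 0 := by
        intro l' u hu
        rw [← hev]
        exact h2 _ (mkI_lt.2 (Or.inr ⟨rfl, Or.inl hu⟩))
      refine (hL' _ _).2 ⟨f * s, by rw [add_comm, mul_comm]; rw [add_comm]; exact Fi.mul _ _ _ _ hs hf,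
        ?_, fun x hx => ?_⟩
      · rw [hev, hm b hb s hsG, _root_.Pi.smul_apply, smul_eq_mul, mul_comm,
          (coeff_mul_ld (hlo l) h4).2]
        rw [hev] at h1
        exact mul_ne_zero h1 h3
      · obtain ⟨b', u, l', rfl⟩ := mkI_surj x
        rcases mkI_lt.1 hx with h5 | ⟨rfl, h5 | ⟨rfl, h5⟩⟩
        · rw [psi_apply, if_pos (show bk (mkI b' u l') < N from h5.trans hb), bk_mkI,
            hm b' (h5.trans hb) s (hanti _ _ h5.le hb.le hsG), hlow b' h5]
          simp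
        · rw [hev, hm b' hb s hsG, _root_.Pi.smul_apply, smul_eq_mul, mul_comm]
          exact (coeff_mul_ld (hlo l') h4).1 u h5
        · rw [hev, hm b' hb s hsG, _root_.Pi.smul_apply, smul_eq_mul, mul_comm,
            (coeff_mul_ld (hlo l') h4).2, ← hev,
            h2 _ (mkI_lt.2 (Or.inr ⟨rfl, Or.inr ⟨rfl, h5⟩⟩)), zero_mul]
  · push Not at hd
    obtain ⟨r0, hr0, s0, hs0, hp0, hn0⟩ := hd
    set U : Submodule ℂ O := G (nb r0) ⊔ Submodule.span ℂ {s0} with hU
    have h1 := hnb1 r0 hr0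
    have h2 := hnb2 r0 hr0
    have hUG : U ≤ G r0 :=
      sup_le (hanti _ _ h1.le h2) ((Submodule.span_singleton_le_iff_mem _ _).2 hs0)
    have hcmp : ∀ r ≤ N, G r ≤ U ∨ U ≤ G r := by
      intro r hr
      by_cases h : r ≤ r0
      · exact Or.inr (hUG.trans (hanti _ _ h hr0.le))
      · by_cases h' : r < nb r0
        · exact Or.inr (by rw [(hblk r0 hr0 r (by omega) h').1]; exact hUG)
        · exact Or.inl ((hanti _ _ (by omega) hr).trans le_sup_left)
    obtain ⟨F, hF0, hFN, hFa, hFd, hFS⟩ := exists_flag_of_chain (Fi.F k) (G N) (hGV N le_rfl) N hN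
      {X | X = U ∨ ∃ r ≤ N, X = G r} (by
        rintro _ (rfl | ⟨r, hr, rfl⟩) _ (rfl | ⟨r', hr', rfl⟩) _
        · exact Or.inl le_rfl
        · exact (hcmp r' hr').symm
        · exact hcmp r hr
        · rcases le_total r r' with h | h
          · exact Or.inr (hanti _ _ h hr')
          · exact Or.inl (hanti _ _ h hr)) (by
        rintro _ (rfl | ⟨r, hr, rfl⟩)
        · exact ⟨(hCG _ h2).trans le_sup_left, hUG.trans (hGV _ hr0.le)⟩
        · exact ⟨hCG r hr, hGV r hr⟩)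
    have hFS' : ∀ r ≤ N, finrank ℂ (G r) + r = finrank ℂ (Fi.F k) → F r = G r :=
      fun r hr h => hFS _ (Or.inr ⟨r, hr, rfl⟩) r hr h
    have hle := hFG F hF0 hFa hFS'
    have hfin : FiniteDimensional ℂ (G (nb r0)) := Submodule.finiteDimensional_of_le (hGV _ h2)
    have hs00 : s0 ≠ 0 := fun h => hn0 (h ▸ Submodule.zero_mem _)
    have hdim : finrank ℂ U = finrank ℂ (G (nb r0)) + 1 := by
      have h3 := Submodule.finrank_sup_add_finrank_inf_eq (G (nb r0)) (Submodule.span ℂ {s0})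
      rw [((Submodule.disjoint_span_singleton' hs00).2 hn0).eq_bot, finrank_bot,
        finrank_span_singleton hs00] at h3
      exact h3
    have h3 := hbrk r0 hr0
    have hFU : F (nb r0 - 1) = U := hFS _ (Or.inl rfl) _ (by omega) (by omega)
    refine ⟨F, fun r => if r = nb r0 - 1 then ⌈B⌉₊ else 0, hF0, hFN, hFa, hFd, hFS', hle,
      fun r hr => hspan _ r _ hr (hle r hr) fun s hs l => ?_, ?_⟩
    · beta_reduce
      split_ifs with h
      · rw [h, hFU] at hs
        rw [h, hpb r0 hr0 _ (by omega) (by omega)]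
        obtain ⟨a, ha, b, hb, rfl⟩ := Submodule.mem_sup.1 hs
        obtain ⟨c, rfl⟩ := Submodule.mem_span_singleton.1 hb
        rw [map_add, map_smul, h0 r0 hr0 a ha, hp0]
        simp
      · simp
    · simp only [Nat.cast_ite, Nat.cast_zero, sum_ite_eq', mem_range]
      rw [if_pos (by omega)]
      exact Nat.le_ceil B

end Pool.Agent.Lib.MP_9ff3e7_ag.F
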