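import Pool.Agent.Lib.MP_9ff3e7_ag.F.Split

/-! The inequality STAR: orders along the centre, from SPLIT. -/

set_option autoImplicit false

namespace Pool.Agent.Lib.MP_9ff3e7_ag.F

open Finset Finsupp

variable {O : Type} [CommRing O]

variable {j L : ℕ} {N : ℕ → ℕ} {c : ℕ → ℝ} {P : ℕ → Ideal O} {G : ℕ → ℕ → Ideal O}
  {nb : ℕ → ℕ → ℕ} {a : ℕ → ℕ → ℕ → ℝ} {g eps : ℕ → ℝ}

namespace StarAux

variable {K : (Ideal O →₀ ℝ) → Prop} {le : Ideal O → Ideal O → Prop}

theorem single_nonneg' (I : Ideal O) {s : ℝ} (hs : 0 ≤ s) : (0 : Ideal O →₀ ℝ) ≤ single I s :=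
  Finsupp.single_nonneg.mpr hs

theorem pow_rule (hK : Calc K le) (mJ : Ideal O) (τ : ℕ) {s : ℝ} (hs : 0 ≤ s) :
    ∀ D : Ideal O →₀ ℝ, 0 ≤ D → K (D + single (mJ ^ τ) s) → K (D + single mJ (τ * s)) := by
  induction τ with
  | zero =>
    intro D hD h
    refine hK.drop _ _ ?_ ?_ h
    · simpa using hD
    · simpa using hs
  | succ τ ih =>
    intro D hD h
    rw [pow_succ] at h
    have h1 := hK.mul D _ _ s hD hs h
    rw [add_right_comm] at h1
    have h2 := ih _ (add_nonneg hD (single_nonneg' mJ hs)) h1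
    rw [add_assoc, ← Finsupp.single_add] at h2
    have e : s + (τ : ℝ) * s = ((τ + 1 : ℕ) : ℝ) * s := by push_cast; ring
    rwa [e] at h2

theorem sum_rule {ι : Type} (hK : Calc K le) (mJ : Ideal O) (A : ι → Ideal O) (τ : ι → ℕ)
    (s : ι → ℝ) (hs : ∀ x, 0 ≤ s x) (hA : ∀ x, A x ≤ mJ ^ τ x) (S : Finset ι) :
    ∀ D : Ideal O →₀ ℝ, 0 ≤ D → K (D + ∑ x ∈ S, single (A x) (s x)) →
      K (D + single mJ (∑ x ∈ S, τ x * s x)) := by
  classical
  induction S using Finset.induction_on with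
  | empty => intro D _ h; simpa using h
  | insert x S hx ih =>
    intro D hD h
    rw [Finset.sum_insert hx, add_comm (single (A x) (s x)), ← add_assoc] at h
    have h0 : (0 : Ideal O →₀ ℝ) ≤ D + ∑ y ∈ S, single (A y) (s y) :=
      add_nonneg hD (Finset.sum_nonneg fun y _ => single_nonneg' _ (hs y))
    have h1 := hK.mono _ _ _ _ h0 (hs x) (hK.of_le _ _ (hA x)) h
    have h2 := pow_rule hK mJ (τ x) (hs x) _ h0 h1
    rw [add_right_comm] at h2
    have h3 := ih _ (add_nonneg hD (single_nonneg' mJ (mul_nonneg (Nat.cast_nonneg _) (hs x)))) h2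
    rw [add_assoc, ← Finsupp.single_add] at h3
    rwa [Finset.sum_insert hx]

theorem exists_small (L : ℕ) (f : ℕ → ℝ) (hf : ∀ i < L, 0 < f i) :
    ∃ ν : ℝ, 0 < ν ∧ ∀ i < L, ν ≤ f i := by
  induction L with
  | zero => exact ⟨1, one_pos, fun i hi => absurd hi (Nat.not_lt_zero i)⟩
  | succ L ih =>
    obtain ⟨ν, hν, h⟩ := ih fun i hi => hf i (Nat.lt_succ_of_lt hi)
    refine ⟨min ν (f L), lt_min hν (hf L (Nat.lt_succ_self L)), fun i hi => ?_⟩
    rcases Nat.lt_succ_iff_lt_or_eq.mp hi with h1 | h1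
    · exact (min_le_left _ _).trans (h i h1)
    · subst h1; exact min_le_right _ _

end StarAux

theorem star (h : Num j L N c P G nb a g eps) {δ : ℝ} (hδ : 0 < δ) (_hδ1 : δ ≤ 1) (k : ℕ → ℕ)
    (dl : ℕ → ℝ) (hdl : ∀ i < L, 0 < dl i)
    (I5 : ∀ m, 1 ≤ m → m ≤ j → ∀ i < L, i ≤ m →
      4 * (3 * eps m / g m) * (k i * N i) ≤ δ * dl i) :
    ∃ ρ : ℝ, 0 < ρ ∧ ρ < 1 ∧ ∀ (K : (Ideal O →₀ ℝ) → Prop) (le : Ideal O → Ideal O → Prop),
      Calc K le → I3At K j N P G a g → ∀ (F : ℕ → ℕ → Ideal O) (mJ : Ideal O) (d : ℝ)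
      (τ : ℕ → ℕ → ℕ), (∀ t, 0 ≤ t → K (single mJ t) → t < d) →
      (∀ i < L, ∀ r < N i, le (F i r) (mJ ^ τ i r * G i r + P j * G i r + G i (nb i r))) →
      K (∑ i ∈ range L, ∑ r ∈ range (N i), single (F i r) (ρ * c i)) →
      ∑ i ∈ (range L).filter (fun i => dl i ≤ c i * (k i * N i)),
        (1 - δ) * c i * ∑ r ∈ range (N i), (τ i r : ℝ) < d := by
  classical
  have hkN : ∀ i, (0 : ℝ) ≤ (k i : ℝ) * N i := fun i => by positivity
  obtain ⟨ν, hν, hνle⟩ := StarAux.exists_small L (fun i => δ * dl i / (2 * (k i * N i + 1)))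
    (fun i hi => div_pos (mul_pos hδ (hdl i hi)) (by have := hkN i; linarith))
  obtain ⟨ρ, hρ0, hρ1, hsp⟩ := split h hν
  refine ⟨ρ, hρ0, hρ1, fun K le hK h3 F mJ d τ hd hle hF => ?_⟩
  obtain ⟨s, b, e, hnn, hsum, hKs, hbe, -⟩ := hsp K le hK h3 F (fun i r => mJ ^ τ i r * G i r)
    (fun i r => P j * G i r) (fun i _ r _ => Ideal.mul_le_right) (fun i _ r _ => le_rfl) hle hF
  -- drop the `b` and `e` parts
  have hK1 : K (∑ i ∈ range L, ∑ r ∈ range (N i), single (mJ ^ τ i r * G i r) (s i r)) := by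
    refine hK.drop _ _ ?_ ?_ hKs
    · exact Finset.sum_nonneg fun i _ => Finset.sum_nonneg fun r _ =>
        StarAux.single_nonneg' _ (hnn i r).1
    · refine Finset.sum_le_sum fun i _ => Finset.sum_le_sum fun r _ => ?_
      rw [add_assoc]
      exact le_add_of_nonneg_right (add_nonneg (StarAux.single_nonneg' _ (hnn i r).2.1)
        (StarAux.single_nonneg' _ (hnn i r).2.2))
  rw [Finset.sum_sigma'] at hK1
  have hK2 := StarAux.sum_rule hK mJ (fun x : (Σ _ : ℕ, ℕ) => mJ ^ τ x.1 x.2 * G x.1 x.2)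
    (fun x => τ x.1 x.2) (fun x => s x.1 x.2) (fun x => (hnn x.1 x.2).1)
    (fun x => Ideal.mul_le_left) ((range L).sigma fun i => range (N i)) 0 le_rfl
    (by rw [zero_add]; exact hK1)
  rw [zero_add] at hK2
  have hlt := hd _ (Finset.sum_nonneg fun x _ =>
    mul_nonneg (Nat.cast_nonneg _) (hnn x.1 x.2).1) hK2
  rw [← Finset.sum_sigma' (range L) (fun i => range (N i))
    (fun i r => (τ i r : ℝ) * s i r)] at hlt
  refine lt_of_le_of_lt ?_ hlt
  refine le_trans (Finset.sum_le_sum fun i hi => ?_)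
    (Finset.sum_le_sum_of_subset_of_nonneg (Finset.filter_subset _ _) fun i _ _ =>
      Finset.sum_nonneg fun r _ => mul_nonneg (Nat.cast_nonneg _) (hnn i r).1)
  obtain ⟨hiL, hnt⟩ := Finset.mem_filter.mp hi
  have hiL' : i < L := Finset.mem_range.mp hiL
  have hc0 := h.c0 i hiL'
  have hpos : (0 : ℝ) < (k i : ℝ) * N i := by
    rcases (hkN i).lt_or_eq with h1 | h1
    · exact h1
    · rw [← h1, mul_zero] at hnt
      exact absurd (hdl i hiL') (not_lt.mpr hnt)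
  have hlam : ∀ m, 1 ≤ m → m ≤ j → i ≤ m → 3 * eps m / g m ≤ δ * c i / 4 := by
    intro m h1 h2 h4
    have h5 := I5 m h1 h2 i hiL' h4
    have h6 : δ * dl i ≤ δ * (c i * (k i * N i)) := mul_le_mul_of_nonneg_left hnt hδ.le
    have h7 : (4 * (3 * eps m / g m)) * ((k i : ℝ) * N i) ≤ (δ * c i) * ((k i : ℝ) * N i) := by
      nlinarith
    have h8 := le_of_mul_le_mul_right h7 hpos
    linarith
  have hν2 : ν ≤ δ * c i / 2 := by
    refine (hνle i hiL').trans ?_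
    rw [div_le_div_iff₀ (by linarith) (by norm_num)]
    have h6 : δ * dl i ≤ δ * (c i * (k i * N i)) := mul_le_mul_of_nonneg_left hnt hδ.le
    have h7 : 0 ≤ δ * c i := mul_nonneg hδ.le hc0
    nlinarith
  rw [Finset.mul_sum]
  refine Finset.sum_le_sum fun r hr => ?_
  have hr' : r < N i := Finset.mem_range.mp hr
  have h7 : 0 ≤ δ * c i := mul_nonneg hδ.le hc0
  have hb : b i r ≤ δ * c i / 4 := by
    rcases (hbe i hiL' r hr').2.1 with h1 | ⟨h1, h2⟩
    · rw [h1]; linarith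
    · exact h2.trans (hlam j h1 le_rfl (by have := h.Lj; omega))
  have he : e i r ≤ δ * c i / 4 := by
    rcases (hbe i hiL' r hr').2.2 with h1 | ⟨m, h1, h2, h4, h5⟩
    · rw [h1]; linarith
    · exact h5.trans (hlam m h1 h4 h2)
  have hs : (1 - δ) * c i ≤ s i r := by
    have := (hsum i hiL' r hr').1
    linarith
  rw [mul_comm (τ i r : ℝ)]
  exact mul_le_mul_of_nonneg_right hs (Nat.cast_nonneg _)

end Pool.Agent.Lib.MP_9ff3e7_ag.F
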