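import Pool.Agent.Lib.MP_9ff3e7_ag.F.KAx
import Pool.Agent.Lib.MP_9ff3e7_ag.F.Star
import Pool.Agent.Lib.MP_9ff3e7_ag.F.Count
import Pool.Agent.Lib.MP_9ff3e7_ag.F.Block
import Pool.Agent.Lib.MP_9ff3e7_ag.F.EndAbs
import Pool.Agent.Lib.MP_9ff3e7_ag.F.Lead

/-! The main inequality, over coarse flags. -/

set_option autoImplicit false

namespace Pool.Agent.Lib.MP_9ff3e7_ag.F

open Module Finset Finsupp Filter

variable {n : ℕ} {O : Type} [CommRing O] [Algebra ℂ O] [Algebra (MvPolynomial (Fin n) ℂ) O]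

theorem eq_ker_of_dim_zero {P : Ideal O} {x y : Pnt O} (hx : ∀ s ∈ P, x s = 0)
    (hy : ∀ s, y s = 0 → s ∈ P) : P = RingHom.ker x := by
  refine le_antisymm (fun s hs => hx s hs) fun s hs => hy s ?_
  have h1 := hx _ (hy (s - algebraMap ℂ O (y s)) (by simp))
  have h2 : x s = 0 := hs
  simpa [h2] using h1

theorem main_abs [IsScalarTower ℂ (MvPolynomial (Fin n) ℂ) O] {M : Model n O} (hK : KAx0 M)
    (Fi : Filt n O) (x : Pnt O) {j L : ℕ} {k N : ℕ → ℕ} {c : ℕ → ℝ} {P : ℕ → Ideal O}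
    {G : ℕ → ℕ → Submodule ℂ O} {nb : ℕ → ℕ → ℕ} {a : ℕ → ℕ → ℕ → ℝ} {g eps dl : ℕ → ℝ} {δ : ℝ}
    (hnum : Num j L N c P (fun i r => Ideal.span (G i r : Set O)) nb a g eps)
    (hP : (P j).IsPrime) (hPx : ∀ s ∈ P j, x s = 0) (hne : P j ≠ RingHom.ker x)
    (h3 : ∀ y : Pnt O, (∀ s ∈ P j, y s = 0) →
      I3At (M.Klt y) j N P (fun i r => Ideal.span (G i r : Set O)) a g)
    (hN : ∀ i < L, N i = Hf Fi.F (P i) (k i))
    (hG0 : ∀ i < L, G i 0 = Fi.F (k i))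
    (hGN : ∀ i < L, G i (N i) = Fi.F (k i) ⊓ (P i).restrictScalars ℂ)
    (hanti : ∀ i < L, ∀ r r', r ≤ r' → r' ≤ N i → G i r' ≤ G i r)
    (hblk : ∀ i < L, ∀ r < N i, ∀ r', r ≤ r' → r' < nb i r → G i r' = G i r ∧ nb i r' = nb i r)
    (hbrk : ∀ i < L, ∀ r < N i, finrank ℂ (G i (nb i r)) + nb i r = finrank ℂ (Fi.F (k i)))
    (hgood : ∀ i < L, Good n Fi.kap (Hf Fi.F (P i)) (k i))
    (h1 : ∀ ρ : ℝ, 0 < ρ → ρ < 1 → ∀ᶠ y in nhd x, ∀ F : ℕ → ℕ → Submodule ℂ O,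
      (∀ i < L, F i 0 = Fi.F (k i) ∧
        (∀ r, N i ≤ r → F i r = Fi.F (k i) ⊓ (P i).restrictScalars ℂ) ∧ Antitone (F i) ∧
        (∀ r ≤ N i, finrank ℂ (F i r) + r = finrank ℂ (Fi.F (k i))) ∧
        ∀ r ≤ N i, finrank ℂ (G i r) + r = finrank ℂ (Fi.F (k i)) → F i r = G i r) →
      M.Klt y (∑ i ∈ range L, ∑ r ∈ range (N i),
        single (Ideal.span (F i r : Set O)) (ρ * c i)))
    (hδ : 0 < δ) (hδ1 : δ ≤ 1) (hdl : ∀ i < L, 0 < dl i)
    (I5 : ∀ m, 1 ≤ m → m ≤ j → ∀ i < L, i ≤ m →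
      4 * (3 * eps m / g m) * (k i * N i) ≤ δ * dl i) :
    (1 - δ) * Fi.kap * ∑ i ∈ (range L).filter (fun i => dl i ≤ c i * (k i * N i)),
      c i * ((k i : ℝ) * N i - ∑ t ∈ range (k i), (Hf Fi.F (P i) t : ℝ)) ≤ n + 1 / 4 := by
  classical
  have := hK.ft
  have : Algebra.IsStandardEtale (MvPolynomial (Fin n) ℂ) O := ⟨⟨M.E⟩⟩
  obtain ⟨ρ, hρ0, hρ1, hst⟩ := star hnum hδ hδ1 k dl hdl I5
  let q : ℕ → ℕ → Ideal O × Ideal O := fun i r =>
    (Ideal.span (G i r : Set O), Ideal.span (G i (nb i r) : Set O))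
  let T : Finset (Ideal O × Ideal O) := (range L).biUnion fun i => (range (N i)).image (q i)
  have hqT : ∀ i < L, ∀ r < N i, q i r ∈ T := fun i hi r hr =>
    mem_biUnion.2 ⟨i, mem_range.2 hi, mem_image_of_mem _ (mem_range.2 hr)⟩
  obtain ⟨d, J, h, rk, htr, hh, hb⟩ := main_b (zc n O) (fun _ => rfl) (P j) T (by
    intro p hp
    obtain ⟨i, hi, hp⟩ := mem_biUnion.1 hp
    obtain ⟨r, hr, rfl⟩ := mem_image.1 hp
    exact Ideal.span_mono (hanti i (mem_range.1 hi) r _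
      (hnum.nb1 i (mem_range.1 hi) r (mem_range.1 hr)).le
      (hnum.nb2 i (mem_range.1 hi) r (mem_range.1 hr))))
  obtain ⟨y, ⟨hyP, hyh⟩, hyK⟩ :=
    ((hK.dense x (P j) h hP hPx hh).and_eventually (h1 ρ hρ0 hρ1)).exists
  obtain ⟨io, ph, hio, hz, hcc, hph⟩ := hb y hyP hyh
  have hd1 : 1 ≤ d := by
    by_contra hd
    obtain rfl : d = 0 := by omega
    refine hne (eq_ker_of_dim_zero hPx (y := y) fun s hs => (hio s).1 ?_)
    ext e
    rw [Subsingleton.elim e 0, MvPowerSeries.coeff_zero_eq_constantCoeff_apply, hcc, hs]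
    simp
  have hdn : d ≤ n := by simpa using Fintype.card_le_of_embedding J
  have hd0 : (0 : ℝ) < d := by exact_mod_cast hd1
  have hn0 : (0 : ℝ) < n + 1 / 4 := by positivity
  have hfl : ∀ i, ∃ (F : ℕ → Submodule ℂ O) (τ : ℕ → ℕ), i < L →
      (F 0 = Fi.F (k i) ∧ (∀ r, N i ≤ r → F r = Fi.F (k i) ⊓ (P i).restrictScalars ℂ) ∧
        Antitone F ∧ (∀ r ≤ N i, finrank ℂ (F r) + r = finrank ℂ (Fi.F (k i))) ∧
        ∀ r ≤ N i, finrank ℂ (G i r) + r = finrank ℂ (Fi.F (k i)) → F r = G i r) ∧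
      (∀ r < N i, F r ≤ G i r) ∧
      (∀ r < N i, ∀ s ∈ Ideal.span (F r : Set O), ∀ l,
        (τ r : ℕ∞) ≤ (ph (q i r) s l).order) ∧
      (d : ℝ) * Fi.kap * ((k i : ℝ) * N i - ∑ t ∈ range (k i), (Hf Fi.F (P i) t : ℝ)) ≤
        (n + 1 / 4) * ∑ r ∈ range (N i), (τ r : ℝ) := by
    intro i
    by_cases hi : i < L
    swap
    · exact ⟨fun _ => ⊥, fun _ => 0, fun h => absurd h hi⟩
    have := Fi.fd (k i)
    have hH := Hf_add_finrank_inf Fi.F (P i) (k i)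
    obtain ⟨F, τ, f1, f2, f3, f4, f5, f6, f7, f8⟩ := lead Fi (P i) (P j) (k i) (N i) (G i) (nb i)
      (hG0 i hi) (hGN i hi) (by rw [hGN i hi, hN i hi]; omega) (hanti i hi) (hnum.nb1 i hi)
      (hnum.nb2 i hi) (hblk i hi) (hbrk i hi) J y io hio hz (fun r => ph (q i r))
      (fun r hr r' h1 h2 => by
        obtain ⟨e1, e2⟩ := hblk i hi r hr r' h1 h2
        simp only [q, e1, e2])
      (fun r hr s hs => (hph _ (hqT i hi r hr)).1 s (Ideal.subset_span hs))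
      (fun r hr s hs f => (hph _ (hqT i hi r hr)).2.1 s (Ideal.subset_span hs) f)
      ((d : ℝ) * Fi.kap * ((k i : ℝ) * N i - ∑ t ∈ range (k i), (Hf Fi.F (P i) t : ℝ)) /
        (n + 1 / 4))
      (fun ι Q S Gm s1 s2 s3 s4 => by
        rw [div_le_iff₀' hn0, hN i hi]
        exact hgood i hi d hd1 hdn ι Q S Gm s1 s2
          (fun t ht => by rw [s3]; exact Fi.low (P j) hP d htr hd1 t ht) s4)
    refine ⟨F, τ, fun _ => ⟨⟨f1, fun r hr => (f2 r hr).trans (hGN i hi), f3, f4, f5⟩, f6, f7, ?_⟩⟩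
    rwa [div_le_iff₀' hn0] at f8
  choose F τ hF using hfl
  have hmz : Ideal.span (Set.range fun t => zc n O (J t) - algebraMap ℂ O (y (zc n O (J t)))) =
      mzJ n y (univ.map J) := by
    unfold mzJ
    congr 1
    ext s
    simp
  have key := hst (M.Klt y) (LeAt y) (hK.calc y) (h3 y hyP)
    (fun i r => Ideal.span (F i r : Set O)) (mzJ n y (univ.map J)) d τ
    (fun t _ ht => by
      have := hK.k3 y (univ.map J) t ⟨J ⟨0, hd1⟩, mem_map_of_mem _ (mem_univ _)⟩ ht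
      simpa using this)
    (fun i hi r hr => by
      obtain ⟨u, hu, h⟩ := (hph _ (hqT i hi r hr)).2.2 (τ i r)
      refine ⟨u, hu, fun s hs => ?_⟩
      rw [← hmz]
      exact h s (Ideal.span_mono ((hF i hi).2.1 r hr) hs) ((hF i hi).2.2.1 r hr s hs))
    (hyK F fun i hi => (hF i hi).1)
  have h5 : (d : ℝ) * ((1 - δ) * Fi.kap *
      ∑ i ∈ (range L).filter (fun i => dl i ≤ c i * (k i * N i)),
        c i * ((k i : ℝ) * N i - ∑ t ∈ range (k i), (Hf Fi.F (P i) t : ℝ))) ≤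
      (n + 1 / 4) * ∑ i ∈ (range L).filter (fun i => dl i ≤ c i * (k i * N i)),
        (1 - δ) * c i * ∑ r ∈ range (N i), (τ i r : ℝ) := by
    rw [Finset.mul_sum, Finset.mul_sum, Finset.mul_sum]
    refine sum_le_sum fun i hi => ?_
    have hi' := mem_range.1 (mem_filter.1 hi).1
    have h6 := mul_le_mul_of_nonneg_left (hF i hi').2.2.2
      (mul_nonneg (sub_nonneg.2 hδ1) (hnum.c0 i hi'))
    calc _ = (1 - δ) * c i * ((d : ℝ) * Fi.kap *
          ((k i : ℝ) * N i - ∑ t ∈ range (k i), (Hf Fi.F (P i) t : ℝ))) := by ring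
      _ ≤ _ := h6
      _ = _ := by ring
  refine le_of_mul_le_mul_left (h5.trans ?_) hd0
  rw [mul_comm (d : ℝ)]
  exact mul_le_mul_of_nonneg_left key.le hn0.le

end Pool.Agent.Lib.MP_9ff3e7_ag.F
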