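import Pool.Agent.Lib.MP_9ff3e7_ag.F.MainAbs
import Pool.Agent.Lib.MP_9ff3e7_ag.F.Gauge

/-! The main inequality for the invariant of the induction. -/

set_option autoImplicit false

namespace Pool.Agent.Lib.MP_9ff3e7_ag.F

open Module Finset Finsupp Filter

variable {n : ℕ} {O : Type} [CommRing O] [IsDomain O] [Algebra ℂ O]
  [Algebra (MvPolynomial (Fin n) ℂ) O] [IsScalarTower ℂ (MvPolynomial (Fin n) ℂ) O]
  {M : Model n O} {T : Filt n O} {x : Pnt O} {S : Dat O} {c eps : ℕ → ℝ} {j L : ℕ}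

theorem main_ineq (hK : KAx M) (h : Inv M T x S c eps j (j + 1))
    (hP : ∃ s, x s = 0 ∧ s ∉ S.P j) : I6 T S (j + 1) c := by
  have hS : Ser T S (j + 1) := h.toShp.toSer
  refine main_abs hK.toKAx0 T x (G := S.Gs) (nb := S.nb) (dl := dlt n T.kap) h.num h.prime h.Px
    (fun e => by
      obtain ⟨s, h1, h2⟩ := hP
      exact h2 (e ▸ h1))
    h.I3 h.hN (fun i hi => by rw [Dat.Gs, pb_zero, (h.flag i hi).top]) (fun i hi => hS.Gs_N hi)
    (fun i hi r r' h1 h2 => (h.flag i hi).anti _ _ (pb_mono _ h1) ((pb_le _ _).trans h2))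
    (fun i hi r hr r' h1 h2 => ⟨by
      rw [Dat.Gs, Dat.Gs, pb_eq_of_lt_nb (h.br0 i hi) ((pb_le _ _).trans h1) h2],
      nb_eq_of_lt_nb (h.brN i hi) hr ((pb_le _ _).trans h1) h2⟩)
    (fun i hi r hr => by
      rw [Dat.Gs, Dat.nb, pb_nb (h.brN i hi) hr]
      exact (h.flag i hi).dim _ (nb_le (h.brN i hi) hr))
    h.good (fun ρ h0 h1 => ?_) (del_pos n) ((del_le n).trans (by norm_num))
    (fun i _ => dlt_pos n T.kap1 i) h.I5
  refine (main_a hK hS h.c0 h.i1 h0 h1).mono fun y hy F hF => hy F fun i hi => ?_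
  obtain ⟨f1, f2, f3, f4, f5⟩ := hF i hi
  refine ⟨⟨f1, f2 _ le_rfl, fun r r' h _ => f3 h, f4⟩, fun r hr => ?_⟩
  have e : S.Gs i r = S.F0 i r := by rw [Dat.Gs, pb_eq_self hr]
  rw [← e]
  refine f5 r (h.brle i hi r hr) ?_
  rw [e]
  exact (h.flag i hi).dim r (h.brle i hi r hr)

end Pool.Agent.Lib.MP_9ff3e7_ag.F
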