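import Pool.Agent.Lib.MP_9ff3e7_ag.F.XEnd0
import Pool.Agent.Lib.MP_9ff3e7_ag.F.GTup
import Pool.Agent.Lib.MP_9ff3e7_ag.F.GBr

/-! The weighted `L²` bound in one chart. -/

set_option autoImplicit false

namespace Pool.Agent.Lib.MP_9ff3e7_ag.F

open MeasureTheory MvPolynomial Metric Filter Topology

variable {n : ℕ}

/-- X3-E1 -/
theorem end_bound {O : Type} [CommRing O] [IsDomain O] [Algebra ℂ O]
    [Algebra (MvPolynomial (Fin n) ℂ) O] [IsScalarTower ℂ (MvPolynomial (Fin n) ℂ) O]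
    (M : Model n O) (Fi : Filt n O) (x : Pnt O) (hc : CoreConcl M Fi x)
    (hgr : ∀ j, ∀ f ∈ Fi.F j, ∃ C : ℝ, ∀ y : Pnt O, ‖y f‖ ^ 2 ≤ C * (1 + nsq (zz n y)) ^ j)
    (u : Oˣ) (μ : ℝ) (hμ : (n : ℝ) + 1 ≤ Fi.kap * μ) :
    ∃ f : O, x f = 1 ∧ ∀ (Y : Set (Fin n → ℂ)) (τ : (Fin n → ℂ) → Pnt O), PPar Y τ →
      ∫⁻ y in Y, ENNReal.ofReal (‖pdet τ y‖ ^ 2 * ‖τ y f‖ ^ 2 *
        (‖τ y u‖ ^ 2 / (1 + nsq (zz n (τ y)))) ^ μ) < ⊤ :=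
  end_bound_of M Fi x (fun W _ _ => G_tup M x W) (klt_pair M x) (fun W _ => klt_pair_mz M x W)
    hc hgr u μ hμ

end Pool.Agent.Lib.MP_9ff3e7_ag.F
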