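import Pool.Agent.Lib.MP_9ff3e7_ag.F.PDefs
import Pool.Agent.Lib.MP_9ff3e7_ag.F.XEnd1
import Pool.Agent.Lib.MP_9ff3e7_ag.F.K6aA

/-! The weighted `L²` bound in one chart, with vanishing at the second point. -/

set_option autoImplicit false

namespace Pool.Agent.Lib.MP_9ff3e7_ag.F

open MeasureTheory Metric Filter Topology

variable {n : ℕ} {O : Type} [CommRing O] [IsDomain O] [Algebra ℂ O]
  [Algebra (MvPolynomial (Fin n) ℂ) O] [IsScalarTower ℂ (MvPolynomial (Fin n) ℂ) O]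

namespace PE

/-- a global weighted bound for `f` makes the weight integrable where `f` does not vanish -/
theorem klt_of_bound (M : Model n O) (q : Pnt O) (W : OWt O) {f : O} (hf : q f ≠ 0) (s : ℝ)
    (hi : ∀ (Y : Set (Fin n → ℂ)) (τ : (Fin n → ℂ) → Pnt O), PPar Y τ →
      ∫⁻ y in Y, ENNReal.ofReal (‖pdet τ y‖ ^ 2 * ‖τ y f‖ ^ 2 *
        (1 + nsq (zz n (τ y))) ^ s) * W.dens (τ y) < ⊤) : M.Klt q W.pair := by
  obtain ⟨r, hr, hP, hs⟩ := K6x.sheet_par M q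
  have cn : Continuous (nsq : (Fin n → ℂ) → ℝ) := by
    unfold nsq
    fun_prop
  have p1 : 0 < 1 + nsq (zz n q) := by linarith [GLim.nsq_nonneg (zz n q)]
  have c1 : ContinuousAt (fun w => M.sg q w f) (zz n q) :=
    ((M.an q).self_of_nhds f).continuousAt
  have c2 : ContinuousAt (fun w => ‖M.sg q w f‖ ^ 2 * (1 + nsq w) ^ s) (zz n q) :=
    (c1.norm.pow 2).mul ((continuousAt_const.add cn.continuousAt).rpow_const (Or.inl p1.ne'))
  obtain ⟨g, hg⟩ : ∃ g, g = ‖M.sg q (zz n q) f‖ ^ 2 * (1 + nsq (zz n q)) ^ s := ⟨_, rfl⟩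
  have g0 : 0 < g := by
    rw [hg, M.base]
    exact mul_pos (pow_pos (norm_pos_iff.2 hf) 2) (Real.rpow_pos_of_pos p1 _)
  refine (klt_pair M q W).2 (Model.lt_top_of_le (C := ENNReal.ofReal (2 / g))
    ENNReal.ofReal_ne_top ?_ ⟨_, ball_mem_nhds _ hr, hi _ _ hP⟩)
  filter_upwards [ball_mem_nhds _ hr, c2.eventually
    (eventually_ge_nhds ((half_lt_self g0).trans_eq hg))] with w hw hw2
  rw [(hs w hw).1, (hs w hw).2, ← mul_assoc, ← ENNReal.ofReal_mul (by positivity)]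
  refine le_mul_of_one_le_left' (ENNReal.one_le_ofReal.2 ?_)
  rw [norm_one, one_pow, one_mul, div_mul_eq_mul_div, one_le_div g0]
  linarith

end PE

/-- (I1) -/
theorem end_bound2 (M : Model n O) (Fi : Filt n O) (x y : Pnt O) (hc : Concl2 M Fi x y)
    (hgr : ∀ j, ∀ f ∈ Fi.F j, ∃ C : ℝ, ∀ y : Pnt O, ‖y f‖ ^ 2 ≤ C * (1 + nsq (zz n y)) ^ j)
    (u : Oˣ) (μ : ℝ) (hμ : (n : ℝ) + 2 ≤ Fi.kap * μ) :
    ∃ f : O, x f = 1 ∧ y f = 0 ∧ ∀ (Y : Set (Fin n → ℂ)) (τ : (Fin n → ℂ) → Pnt O), PPar Y τ →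
      ∫⁻ y in Y, ENNReal.ofReal (‖pdet τ y‖ ^ 2 * ‖τ y f‖ ^ 2 *
        (‖τ y u‖ ^ 2 / (1 + nsq (zz n (τ y)))) ^ μ) < ⊤ := by
  obtain ⟨m, V, dg, c, b, hV, c0, b0, hk, hn, hy, hcost⟩ := hc
  have k0 : (0 : ℝ) < Fi.kap := by exact_mod_cast Fi.kap1
  have n0 : (0 : ℝ) ≤ n := Nat.cast_nonneg n
  have he : 0 < μ - (∑ a, c a * dg a + b) := by
    have : (Fi.kap : ℝ) * (∑ a, c a * dg a + b) < Fi.kap * μ := by linarith
    linarith [lt_of_mul_lt_mul_left this k0.le]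
  have μ0 : 0 ≤ μ := by
    have : 0 ≤ ∑ a, c a * dg a := Finset.sum_nonneg fun a _ => mul_nonneg (c0 a) (Nat.cast_nonneg _)
    linarith
  have z0 : ∀ y : Pnt O, 0 < 1 + nsq (zz n y) := fun y => by
    have : 0 ≤ nsq (zz n y) := Finset.sum_nonneg fun _ _ => sq_nonneg _
    linarith
  have uu : ∀ y : Pnt O, y u * y (u⁻¹ : Oˣ) = 1 := fun y => by rw [← map_mul]; simp
  have u0 : ∀ y : Pnt O, 0 < ‖y u‖ ^ 2 := fun y =>
    pow_pos (norm_pos_iff.2 (left_ne_zero_of_mul_eq_one (uu y))) 2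
  have ui : ∀ y : Pnt O, ‖y (u⁻¹ : Oˣ)‖ ^ 2 = (‖y u‖ ^ 2)⁻¹ := fun y => by
    rw [eq_inv_of_mul_eq_one_right (uu y), norm_inv, inv_pow]
  obtain ⟨W, K, K0, hp, hd⟩ := XE.exists_owt
    (Fin.cons (Submodule.span ℂ {((u⁻¹ : Oˣ) : O)}) V : Fin (m + 1) → Submodule ℂ O)
    (Fin.forall_fin_succ.2 ⟨FiniteDimensional.span_singleton ℂ _, fun a =>
      have := Fi.fd (dg a)
      Submodule.finiteDimensional_of_le (hV a)⟩)
    (Fin.cons μ c) (Fin.forall_fin_succ.2 ⟨μ0, c0⟩)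
    (Fin.cons (fun y => (‖y u‖ ^ 2)⁻¹) fun a y => (1 + nsq (zz n y)) ^ dg a)
    (Fin.forall_fin_succ.2 ⟨fun y => inv_pos.2 (u0 y), fun a y => pow_pos (z0 y) _⟩)
    (Fin.forall_fin_succ.2 ⟨fun s hs => by
      simp only [Fin.cons_zero] at hs ⊢
      obtain ⟨k, rfl⟩ := Submodule.mem_span_singleton.1 hs
      exact ⟨‖k‖ ^ 2, fun y => by rw [map_smul, smul_eq_mul, norm_mul, mul_pow, ui]⟩,
      fun a s hs => hgr _ s (hV a hs)⟩)
  rw [Fin.sum_univ_succ, add_comm] at hp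
  simp only [Fin.cons_zero, Fin.cons_succ] at hp
  have D0 : 0 ≤ ∑ a, Finsupp.single (Ideal.span (V a : Set O)) (c a) :=
    Finset.sum_nonneg fun a _ => Finsupp.single_nonneg.2 (c0 a)
  have kW : M.Klt x W.pair := by
    rw [hp]
    exact M.klt_unit x _ _ μ D0 μ0 ⟨_, Ideal.subset_span (Submodule.mem_span_singleton_self _),
      right_ne_zero_of_mul_eq_one (uu x)⟩ hk
  have nW : ¬ M.Klt x (W.pair + Finsupp.single (mz n x) b) := fun h => by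
    refine hn (M.klt_drop x _ _ (add_nonneg D0 (Finsupp.single_nonneg.2 b0)) ?_ h)
    rw [hp]
    exact add_le_add_left (le_add_of_nonneg_right (Finsupp.single_nonneg.2 μ0)) _
  obtain ⟨f, hf, hi⟩ := G_tup M x W b0 he ((klt_pair M x W).1 kW) fun U hU => by
    by_contra hne
    exact nW ((klt_pair_mz M x W b0).2 ⟨U, hU, lt_top_iff_ne_top.2 hne⟩)
  refine ⟨f, hf, ?_, fun Y τ hτ => ?_⟩
  · by_contra hne
    refine hy (M.klt_drop y _ _ D0 ?_ (PE.klt_of_bound M y W hne _ hi))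
    rw [hp]
    exact le_add_of_nonneg_right (Finsupp.single_nonneg.2 μ0)
  have key : ∀ y, ENNReal.ofReal (‖pdet τ y‖ ^ 2 * ‖τ y f‖ ^ 2 *
      (‖τ y u‖ ^ 2 / (1 + nsq (zz n (τ y)))) ^ μ) ≤ ENNReal.ofReal K⁻¹ *
      (ENNReal.ofReal (‖pdet τ y‖ ^ 2 * ‖τ y f‖ ^ 2 * (1 + nsq (zz n (τ y))) ^
        (-(μ - (∑ a, c a * dg a + b) + b))) * W.dens (τ y)) := fun y => by
    refine le_trans (le_of_eq ?_) (mul_le_mul_right (mul_le_mul_right (hd (τ y)) _) _)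
    have z := z0 (τ y)
    rw [← ENNReal.ofReal_mul (by positivity), ← ENNReal.ofReal_mul (by positivity),
      Fin.prod_univ_succ]
    simp only [Fin.cons_zero, Fin.cons_succ]
    have e1 : ∏ a, ((1 + nsq (zz n (τ y))) ^ dg a) ^ (-c a) =
        (1 + nsq (zz n (τ y))) ^ (-∑ a, c a * dg a) := by
      rw [← Finset.sum_neg_distrib, Real.rpow_sum_of_pos z]
      refine Finset.prod_congr rfl fun a _ => ?_
      rw [← Real.rpow_natCast, ← Real.rpow_mul z.le]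
      ring_nf
    have e2 : (1 + nsq (zz n (τ y))) ^ (-(μ - (∑ a, c a * dg a + b) + b)) *
        (1 + nsq (zz n (τ y))) ^ (-∑ a, c a * dg a) = ((1 + nsq (zz n (τ y))) ^ μ)⁻¹ := by
      rw [← Real.rpow_add z, ← Real.rpow_neg z.le]
      ring_nf
    rw [e1, Real.inv_rpow (u0 _).le, Real.rpow_neg (u0 _).le, inv_inv,
      Real.div_rpow (u0 _).le z.le, div_eq_mul_inv, ← e2]
    refine congrArg ENNReal.ofReal ?_
    field_simp
  refine lt_of_le_of_lt (lintegral_mono key) ?_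
  rw [lintegral_const_mul' _ _ ENNReal.ofReal_ne_top]
  exact ENNReal.mul_lt_top ENNReal.ofReal_lt_top (hi Y τ hτ)

end Pool.Agent.Lib.MP_9ff3e7_ag.F
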