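import Pool.Agent.Lib.MP_9ff3e7_ag.F.StDefs

/-! The numerical form: lower bounds `κ d ^ d` for the degrees of the centres of dimension `d`. -/

set_option autoImplicit false

namespace Pool.Agent.Lib.MP_9ff3e7_ag.F

open Module Finset Finsupp

noncomputable section

/-- the dimension of the subvariety cut out by `P` -/
def dm {O : Type} [CommRing O] [Algebra ℂ O] (P : Ideal O) : ℕ :=
  Cardinal.toNat (Algebra.trdeg ℂ (O ⧸ P))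

/-- `k0` is a good degree for a Hilbert function of growth `D`, with relative loss `δ` -/
def Gd3 (n : ℕ) (κ : ℕ → ℝ) (e : ℕ → ℕ) (δ : ℝ) (D : ℕ) (H : ℕ → ℕ) (k0 : ℕ) : Prop :=
  ∀ d : ℕ, 1 ≤ d → d ≤ n → ∀ (ι : Type) (Q : Finset ι) (S : ι → ℕ → Finset (Fin d →₀ ℕ))
    (Gm : ℕ → Finset (Fin d →₀ ℕ)), (∀ k ≤ k0, ∑ q ∈ Q, (S q k).card = H k) →
    (∀ q ∈ Q, ∀ k j, k + j ≤ k0 → ∀ a ∈ S q k, ∀ b ∈ Gm j, a + b ∈ S q (k + j)) →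
    (∀ j, e d ≤ j → e d * (j - e d + d).choose d ≤ (Gm j).card) →
    (∀ u : Fin d →₀ ℕ, (∀ i, u i ≤ 1) → u ∈ Gm d) →
    (1 - δ) * ((d : ℝ) * κ d * (k0 * H k0 - ∑ k ∈ range k0, (H k : ℝ))) ≤
      D * ∑ q ∈ Q, ∑ a ∈ S q k0, (a.degree : ℝ)

/-- the cost of one dimension -/
def wt (κ : ℕ → ℝ) (δ : ℝ) (t : ℕ) : ℝ := 1 / ((1 - δ) ^ 2 * κ t) + 2 * δ

variable {n : ℕ} {O : Type} [CommRing O] [Algebra ℂ O] [Algebra (MvPolynomial (Fin n) ℂ) O]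

/-- every centre of dimension `d` through `x` has degree at least `e d ≥ κ d ^ d` -/
structure NumHyp (T : Filt n O) (x : Pnt O) (κ : ℕ → ℝ) (e : ℕ → ℕ) : Prop where
  pos : 0 < κ 1
  mono : ∀ d d', 1 ≤ d → d ≤ d' → d' ≤ n → κ d ≤ κ d'
  pow : ∀ d, 1 ≤ d → d ≤ n → κ d ^ d ≤ e d
  low : ∀ P : Ideal O, P.IsPrime → (∀ s ∈ P, x s = 0) → ∀ d : ℕ, Algebra.trdeg ℂ (O ⧸ P) = d →
    1 ≤ d → d ≤ n → ∀ j, e d ≤ j → e d * (j - e d + d).choose d ≤ Hf T.F P j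
  up : ∀ P : Ideal O, P.IsPrime → ∀ d : ℕ, Algebra.trdeg ℂ (O ⧸ P) = d →
    ∃ C : ℕ, ∀ j, Hf T.F P j ≤ C * (j + 1) ^ d

/-- the conclusion of the core theorem with cost below `μ` -/
def Concl3 (M : Model n O) (Fi : Filt n O) (x : Pnt O) (μ : ℝ) : Prop :=
  ∃ (m : ℕ) (W : Fin m → Submodule ℂ O) (dg : Fin m → ℕ) (c : Fin m → ℝ) (b : ℝ),
    (∀ a, W a ≤ Fi.F (dg a)) ∧ (∀ a, 0 ≤ c a) ∧ 0 ≤ b ∧
    M.Klt x (∑ a, single (Ideal.span (W a : Set O)) (c a)) ∧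
    ¬ M.Klt x (∑ a, single (Ideal.span (W a : Set O)) (c a) + single (mz n x) b) ∧
    ∑ a, c a * dg a + b < μ

/-- the invariant of the induction with the cost counted by dimensions -/
structure State3 (M : Model n O) (T : Filt n O) (x : Pnt O) (S : Dat O) (c eps : ℕ → ℝ)
    (j : ℕ) (κ : ℕ → ℝ) (e : ℕ → ℕ) (δ : ℝ) : Prop extends State M T x S c eps j where
  good3 : ∀ i < j, Gd3 n κ e δ (dm (S.P i)) (Hf T.F (S.P i)) (S.k i)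
  d1 : ∀ i < j, 1 ≤ dm (S.P i)
  dle : ∀ i < j, dm (S.P j) ≤ dm (S.P i)
  I5s : ∀ m, 1 ≤ m → m < j → ∀ i ≤ m,
    4 * (3 * eps m / S.g m) * (S.k i * S.N i) ≤ δ * (δ / 2 ^ i)
  i8 : ∑ i ∈ range j, c i * S.Deg T i * (1 - (dm (S.P j) : ℝ) / dm (S.P i)) ≤
    ∑ t ∈ Ioc (dm (S.P j)) n, wt κ δ t

end

end Pool.Agent.Lib.MP_9ff3e7_ag.F
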