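import Pool.Agent.Lib.MP_9ff3e7_ag.F.ChooseK
import Pool.Agent.Lib.MP_9ff3e7_ag.F.NDefs

/-! The counting lemma with the growth exponent of the series and a relative loss. -/

set_option autoImplicit false

namespace Pool.Agent.Lib.MP_9ff3e7_ag.F

open Finset Module

theorem count_blk {d : ℕ} (hd : 1 ≤ d) {ι : Type} (Q : Finset ι)
    (S : ι → ℕ → Finset (Fin d →₀ ℕ)) (Gm : ℕ → Finset (Fin d →₀ ℕ)) (H : ℕ → ℕ) {sg L : ℕ}
    (hsg : d ≤ sg) (hS : ∀ k ≤ L * sg, ∑ q ∈ Q, (S q k).card = H k)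
    (hadd : ∀ q ∈ Q, ∀ k j, k + j ≤ L * sg → ∀ a ∈ S q k, ∀ b ∈ Gm j, a + b ∈ S q (k + j))
    (he : ∀ e : Fin d →₀ ℕ, (∀ i, e i ≤ 1) → e ∈ Gm d) (g3 : (Gm (sg - d)).Nonempty) {β : ℝ}
    (g2 : β ≤ (d.factorial : ℝ) ^ (1 / d : ℝ) * ((Gm (sg - d)).card : ℝ) ^ (1 / d : ℝ)) :
    (d : ℝ) * (β * ∑ m ∈ range L, (H (m * sg) : ℝ) - H (L * sg)) ≤
      ∑ q ∈ Q, ∑ a ∈ S q (L * sg), (a.degree : ℝ) := by
  have z0 : (0 : ℝ) ≤ ∑ m ∈ range L, (H (m * sg) : ℝ) := by positivity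
  have hq : ∀ q ∈ Q, _ := fun q hq => count_q hd (fun m => S q (m * sg)) _ g3 L
    fun m hmL a ha g hg e he' => by
      have l1 : (m + 1) * sg ≤ L * sg := Nat.mul_le_mul_right _ hmL
      have l2 : m * sg + (sg - d) + d = (m + 1) * sg := by rw [add_mul]; omega
      have := hadd q hq _ d (by omega) _ (hadd q hq _ _ (by omega) a ha g hg) e (he e he')
      rwa [l2] at this
  have hs := sum_le_sum hq
  have e1 : ∀ k ≤ L * sg, ∑ q ∈ Q, ((S q k).card : ℝ) = H k := fun k hk => by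
    rw [← hS k hk, Nat.cast_sum]
  rw [sum_sub_distrib, ← mul_sum, ← mul_sum, sum_comm, e1 _ le_rfl,
    sum_congr rfl fun m hm => e1 (m * sg) (Nat.mul_le_mul_right _ (mem_range.1 hm).le)] at hs
  have dd : (0 : ℝ) ≤ d := Nat.cast_nonneg _
  have := mul_le_mul_of_nonneg_left (mul_le_mul_of_nonneg_right g2 z0) dd
  linarith

theorem bb3 {d e sg g : ℕ} (hd : 1 ≤ d) {κ dt : ℝ} (hκ : 0 ≤ κ) (hp : κ ^ d ≤ e) (h1 : dt ≤ 1)
    (hs : ((d + e : ℕ) : ℝ) ≤ dt * sg) (hg : e * (sg - d - e + d).choose d ≤ g) :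
    (1 - dt) * κ * sg ≤ (d.factorial : ℝ) ^ (1 / d : ℝ) * (g : ℝ) ^ (1 / d : ℝ) := by
  have s0 : (0 : ℝ) ≤ sg := Nat.cast_nonneg _
  have u0 : 0 ≤ 1 - dt := by linarith
  have R0 : 0 ≤ (1 - dt) * κ * sg := by positivity
  have a1 : (((sg - d - e + d + 1 - d : ℕ) : ℝ) ^ d) / d.factorial ≤ (sg - d - e + d).choose d :=
    Nat.pow_le_choose d _
  have hf : (0 : ℝ) < d.factorial := by exact_mod_cast d.factorial_pos
  rw [div_le_iff₀ hf] at a1
  have a2 : (1 - dt) * sg ≤ ((sg - d - e + d + 1 - d : ℕ) : ℝ) := by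
    have : sg ≤ (sg - d - e + d + 1 - d) + (d + e) := by omega
    have : (sg : ℝ) ≤ ((sg - d - e + d + 1 - d : ℕ) : ℝ) + ((d + e : ℕ) : ℝ) := by
      exact_mod_cast this
    linarith
  have a4 : (e : ℝ) * (sg - d - e + d).choose d ≤ g := by exact_mod_cast hg
  have h5 : ((1 - dt) * κ * sg) ^ d ≤ d.factorial * (g : ℝ) :=
    calc ((1 - dt) * κ * sg) ^ d = κ ^ d * ((1 - dt) * sg) ^ d := by rw [← mul_pow]; ring
      _ ≤ e * ((sg - d - e + d + 1 - d : ℕ) : ℝ) ^ d := by gcongr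
      _ ≤ e * ((sg - d - e + d).choose d * d.factorial) := by gcongr
      _ = d.factorial * (e * (sg - d - e + d).choose d) := by ring
      _ ≤ _ := by gcongr
  have h6 := Real.rpow_le_rpow (by positivity) h5 (by positivity : (0 : ℝ) ≤ 1 / d)
  rw [Real.mul_rpow (by positivity) (by positivity)] at h6
  rwa [one_div, Real.pow_rpow_inv_natCast R0 (by omega), ← one_div] at h6

theorem count_arith3 {D dt δ Y W Hk T κ κ1 d k0 : ℝ} (hD : 1 ≤ D) (d0 : 0 < dt)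
    (hdt : dt ≤ δ / 4) (hδ : δ ≤ 1) (h0 : 0 < κ1) (hκ : κ1 ≤ κ) (hd : 0 ≤ d) (hY : 0 ≤ Y)
    (hk0 : 0 < k0) (hk : 4 * (D + 1) ≤ δ * κ1 * k0)
    (h1 : (1 - dt) * (k0 * Hk) ≤ (D + 1) * Y) (h2 : Y ≤ W)
    (h3 : d * ((1 - dt) * κ * Y - Hk) ≤ T) : (1 - δ) * (d * κ * (k0 * Hk - W)) ≤ D * T := by
  have u0 : 0 < 1 - dt := by linarith
  have δ0 : 0 < δ := by linarith
  have κ0 : 0 < κ := by linarith
  have a1 : (1 - dt) * (k0 * Hk - W) ≤ D * (1 + dt) * Y := by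
    have b1 := mul_le_mul_of_nonneg_left h2 u0.le
    have b2 : 0 ≤ (D - 1) * dt * Y := mul_nonneg (mul_nonneg (by linarith) d0.le) hY
    nlinarith
  have a2 : (1 - dt) * Hk ≤ δ / 4 * (κ * Y) := by
    refine le_of_mul_le_mul_left ?_ hk0
    have b1 := mul_le_mul_of_nonneg_right hk hY
    have b2 : δ * κ1 * k0 * Y ≤ δ * κ * k0 * Y := by gcongr
    nlinarith
  have κY : 0 ≤ κ * Y := by positivity
  have a3 : (1 - δ) * (1 + dt) ≤ (1 - dt) ^ 2 - δ / 4 := by nlinarith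
  have a4 : (1 - δ) * (κ * (k0 * Hk - W)) ≤ D * ((1 - dt) * κ * Y - Hk) := by
    refine le_of_mul_le_mul_left ?_ u0
    have b1 := mul_le_mul_of_nonneg_left a1 (mul_nonneg (by linarith : 0 ≤ 1 - δ) κ0.le)
    have b2 := mul_le_mul_of_nonneg_left a2 (by linarith : 0 ≤ D)
    have b3 := mul_le_mul_of_nonneg_right a3 (mul_nonneg (by linarith : 0 ≤ D) κY)
    nlinarith
  have b1 := mul_le_mul_of_nonneg_left a4 hd
  have b2 := mul_le_mul_of_nonneg_left h3 (by linarith : 0 ≤ D)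
  nlinarith

theorem count3 (n kap : ℕ) (hkap : 1 ≤ kap) (κ : ℕ → ℝ) (e : ℕ → ℕ) (h0 : 0 < κ 1)
    (hmo : ∀ d, 1 ≤ d → d ≤ n → κ 1 ≤ κ d) (hpow : ∀ d, 1 ≤ d → d ≤ n → κ d ^ d ≤ e d)
    {δ : ℝ} (hδ : 0 < δ) (hδ1 : δ ≤ 1) (D : ℕ) (hD : 1 ≤ D) (hDn : D ≤ n)
    (H : ℕ → ℕ) (hm : Monotone H) (h1 : ∀ k, 1 ≤ H k)
    (C : ℝ) (hC : ∀ k, 1 ≤ k → (H k : ℝ) ≤ C * k ^ D) (K0 : ℕ) :
    ∃ k0, K0 ≤ k0 ∧ Gd n kap H k0 ∧ Gd3 n κ e δ D H k0 := by
  have hN : (1 : ℝ) ≤ n + 1 := by have : (0 : ℝ) ≤ n := Nat.cast_nonneg n; linarith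
  obtain ⟨dt, hdt⟩ : ∃ dt : ℝ, (n + 1) * dt = 1 / 16 := ⟨1 / 16 / (n + 1), by field_simp⟩
  have d0 : 0 < dt := by
    by_contra hc
    nlinarith
  have d1 : dt < 1 := by nlinarith
  set t := min dt (δ / 4) with ht
  have t0 : 0 < t := lt_min d0 (by linarith)
  have t1 : t ≤ dt := min_le_left _ _
  have t2 : t ≤ δ / 4 := min_le_right _ _
  obtain ⟨c0, hc0⟩ := exists_nat_ge (((n + (range (n + 1)).sup e : ℕ) : ℝ) / t)
  rw [div_le_iff₀ t0] at hc0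
  obtain ⟨sg, s1, s2, hb⟩ := bb_step n kap (c0 + 1) hkap d0 d1
  have s3 : c0 + 1 ≤ (c0 + 1) * n := Nat.le_mul_of_pos_right _ (by omega)
  have s4 : n ≤ (c0 + 1) * n := Nat.le_mul_of_pos_left _ (by omega)
  obtain ⟨K1, hK1⟩ := exists_nat_ge (4 * ((D : ℝ) + 1) / (δ * κ 1))
  rw [div_le_iff₀ (mul_pos hδ h0)] at hK1
  obtain ⟨L, hL, hg⟩ := good_dt D H hm h1 C hC s1 t0 (by linarith)
    (K0 + 16 * (n + 1) ^ 2 + K1 + 1)
  have hk : L ≤ L * sg := Nat.le_mul_of_pos_right _ s1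
  have z0 : (0 : ℝ) ≤ ∑ m ∈ range L, (H (m * sg) : ℝ) := by positivity
  have hW : (sg : ℝ) * ∑ m ∈ range L, (H (m * sg) : ℝ) ≤ ∑ k ∈ range (L * sg), (H k : ℝ) := by
    exact_mod_cast block_le H hm sg L
  have s0 : (0 : ℝ) ≤ sg := Nat.cast_nonneg _
  have g0 : (1 - t) * (((L * sg : ℕ) : ℝ) * H (L * sg)) ≤
      (D + 1) * (sg * ∑ m ∈ range L, (H (m * sg) : ℝ)) := by
    have := mul_le_mul_of_nonneg_left hg s0
    push_cast
    linarith
  refine ⟨L * sg, by omega, fun d hd hn ι Q S Gm hS hadd hG he => ?_,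
    fun d hd hn ι Q S Gm hS hadd hG he => ?_⟩
  · have p1 : kap ^ d ≤ kap ^ n := Nat.pow_le_pow_right hkap hn
    have p2 : d ≤ (c0 + 1) * d := Nat.le_mul_of_pos_left _ (by omega)
    have g1 := hG (sg - d) (by omega)
    have g2 := hb d hd hn (Gm (sg - d)).card
      ((Nat.mul_le_mul_left _ (Nat.choose_le_choose _ (by omega))).trans g1)
    have g3 : (Gm (sg - d)).Nonempty := by
      rw [← card_pos]
      exact lt_of_lt_of_le (Nat.mul_pos (Nat.pow_pos hkap) (Nat.choose_pos (by omega))) g1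
    have key := count_arith (κ := kap) (d := d) (k0 := ((L * sg : ℕ) : ℝ)) (Hk := H (L * sg))
      (T := ∑ q ∈ Q, ∑ a ∈ S q (L * sg), (a.degree : ℝ))
      hN hdt (by exact_mod_cast hkap) (Nat.cast_nonneg _) (Nat.cast_nonneg _) (mul_nonneg s0 z0)
      (by exact_mod_cast (by omega : 16 * (n + 1) ^ 2 ≤ L * sg)) (by
        have b1 : (D : ℝ) ≤ n := by exact_mod_cast hDn
        have b2 := mul_le_mul_of_nonneg_right b1 (mul_nonneg s0 z0)
        have b3 := mul_le_mul_of_nonneg_right t1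
          (by positivity : (0 : ℝ) ≤ ((L * sg : ℕ) : ℝ) * H (L * sg))
        linarith) hW (by
        have := count_blk hd Q S Gm H (by omega) hS hadd he g3 g2
        linarith)
    have e : (n : ℝ) + 1 - 3 / 4 = n + 1 / 4 := by ring
    rwa [e] at key
  · have k1 := hmo d hd hn
    have p1 : e d ≤ (range (n + 1)).sup e := le_sup (f := e) (mem_range.2 (by omega))
    have p2 : ((d + e d : ℕ) : ℝ) ≤ t * sg := by
      have b1 : ((d + e d : ℕ) : ℝ) ≤ ((n + (range (n + 1)).sup e : ℕ) : ℝ) := by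
        exact_mod_cast add_le_add hn p1
      have b2 : (c0 : ℝ) ≤ sg := by exact_mod_cast (by omega : c0 ≤ sg)
      nlinarith
    have p3 : d + e d ≤ sg := by
      have : ((d + e d : ℕ) : ℝ) ≤ sg := by nlinarith
      exact_mod_cast this
    have p4 : 0 < e d := by
      have : (0 : ℝ) < e d := (pow_pos (h0.trans_le k1) d).trans_le (hpow d hd hn)
      exact_mod_cast this
    have g1 := hG (sg - d) (by omega)
    have g2 := bb3 hd (h0.le.trans k1) (hpow d hd hn) (by linarith) p2 g1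
    have g3 : (Gm (sg - d)).Nonempty := by
      rw [← card_pos]
      exact lt_of_lt_of_le (Nat.mul_pos p4 (Nat.choose_pos (by omega))) g1
    refine count_arith3 (dt := t) (κ1 := κ 1) (by exact_mod_cast hD) t0 t2 hδ1 h0 k1
      (Nat.cast_nonneg _) (mul_nonneg s0 z0) (by exact_mod_cast (by omega : 0 < L * sg)) ?_ g0 hW ?_
    · have b1 : (K1 : ℝ) ≤ ((L * sg : ℕ) : ℝ) := by exact_mod_cast (by omega : K1 ≤ L * sg)
      have b2 := mul_le_mul_of_nonneg_left b1 (mul_pos hδ h0).le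
      linarith
    · have := count_blk hd Q S Gm H (by omega) hS hadd he g3 g2
      linarith

end Pool.Agent.Lib.MP_9ff3e7_ag.F
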