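import Pool.Agent.Lib.MP_9ff3e7_ag.F.NDefs
import Pool.Agent.Lib.MP_9ff3e7_ag.F.Block

/-! The dimension of a centre. -/

set_option autoImplicit false

namespace Pool.Agent.Lib.MP_9ff3e7_ag.F

variable {n : ℕ} {O : Type} [CommRing O] [Algebra ℂ O]
  [Algebra (MvPolynomial (Fin n) ℂ) O] [IsScalarTower ℂ (MvPolynomial (Fin n) ℂ) O] {x : Pnt O}

theorem dm_spec (M : Model n O) (P : Ideal O) (hP : P.IsPrime) :
    Algebra.trdeg ℂ (O ⧸ P) = dm P ∧ dm P ≤ n := by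
  have : Algebra.IsStandardEtale (MvPolynomial (Fin n) ℂ) O := ⟨⟨M.E⟩⟩
  have : Algebra.FiniteType ℂ O :=
    Algebra.FiniteType.trans (S := MvPolynomial (Fin n) ℂ) inferInstance inferInstance
  obtain ⟨d, J, -, -, htr, -⟩ := main_b (zc n O) (fun _ => rfl) P ∅ (by simp)
  have hdm : dm P = d := by rw [dm, htr, Cardinal.toNat_natCast]
  rw [hdm]
  exact ⟨htr, by simpa using Fintype.card_le_of_embedding J⟩

theorem dm_anti (M : Model n O) {P Q : Ideal O} (hP : P.IsPrime) (hQ : Q.IsPrime) (h : P ≤ Q) :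
    dm Q ≤ dm P := by
  have := trdeg_le_of_surjective (Ideal.Quotient.factorₐ ℂ h) (Ideal.Quotient.factor_surjective h)
  rw [(dm_spec M P hP).1, (dm_spec M Q hQ).1] at this
  exact_mod_cast this

theorem dm_eq_zero_iff (M : Model n O) {P : Ideal O} (hP : P.IsPrime) (hx : ∀ s ∈ P, x s = 0) :
    dm P = 0 ↔ ∀ s, x s = 0 → s ∈ P := by
  rw [← Nat.cast_eq_zero (R := Cardinal), ← (dm_spec M P hP).1, trdeg_eq_zero_iff]
  refine ⟨fun h s hs => ?_, fun h => ⟨fun q => ?_⟩⟩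
  · obtain ⟨t, ht⟩ := (IsAlgClosed.algebraMap_bijective_of_isIntegral (k := ℂ) (K := O ⧸ P)).2
      (Ideal.Quotient.mk P s)
    have h1 : algebraMap ℂ O t - s ∈ P := Ideal.Quotient.eq.1 ht
    have h2 : t = 0 := by simpa [hs] using hx _ h1
    simpa [h2] using h1
  · obtain ⟨s, rfl⟩ := Ideal.Quotient.mk_surjective q
    have : Ideal.Quotient.mk P s = algebraMap ℂ (O ⧸ P) (x s) :=
      Ideal.Quotient.eq.2 (h (s - algebraMap ℂ O (x s)) (by simp))
    rw [this]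
    exact isAlgebraic_algebraMap _

end Pool.Agent.Lib.MP_9ff3e7_ag.F
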