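import Pool.Agent.Lib.MP_9ff3e7_ag.F.NDefs
import Pool.Agent.Lib.MP_9ff3e7_ag.F.End

/-! The last stage for the numerical form. -/

set_option autoImplicit false

namespace Pool.Agent.Lib.MP_9ff3e7_ag.F

open Module Finset Finsupp

theorem sum_half_le {δ : ℝ} (hδ : 0 ≤ δ) (j : ℕ) : ∑ i ∈ range j, δ / 2 ^ i ≤ 2 * δ := by
  have e : ∑ i ∈ range j, δ / 2 ^ i = δ * ∑ i ∈ range j, (1 / 2 : ℝ) ^ i := by
    rw [Finset.mul_sum]
    exact sum_congr rfl fun i _ => by rw [one_div, inv_pow, div_eq_mul_inv]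
  rw [e, mul_comm]
  exact mul_le_mul_of_nonneg_right (geom_half_le j) hδ

variable {n : ℕ} {O : Type} [CommRing O] [Algebra ℂ O] [Algebra (MvPolynomial (Fin n) ℂ) O]
  {M : Model n O} {T : Filt n O} {x : Pnt O} {S : Dat O} {c eps : ℕ → ℝ} {j : ℕ}
  {κ : ℕ → ℝ} {e : ℕ → ℕ} {δ μ : ℝ}

theorem end3 (hK : KAx0 M) (h : State3 M T x S c eps j κ e δ) (hP : ∀ s, x s = 0 → s ∈ S.P j)
    (hd : dm (S.P j) = 0) (hδ : 0 < δ) (hδ1 : δ ≤ 1)
    (hμ : ∑ t ∈ Ioc 0 n, wt κ δ t + δ < μ) : Concl3 M T x μ := by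
  classical
  have hPj : S.P j = RingHom.ker x := le_antisymm (fun s hs => h.Px s hs) fun s hs => hP s hs
  have i8 : ∑ i ∈ range j, c i * S.Deg T i ≤ ∑ t ∈ Ioc 0 n, wt κ δ t := by
    simpa [hd] using h.i8
  rcases Nat.eq_zero_or_pos j with hj | hj
  · subst hj
    have hm : mz n x = ⊥ := le_bot_iff.1 ((hPj.symm.trans h.P0) ▸ mz_le_ker x)
    refine ⟨0, Fin.elim0, Fin.elim0, Fin.elim0, δ, fun q => q.elim0,
      fun q => q.elim0, hδ.le, by simpa using hK.zero x, ?_, ?_⟩
    · rw [hm]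
      simpa using hK.bot x δ hδ
    · simp only [range_zero, sum_empty] at i8
      simp only [univ_eq_empty, sum_empty, zero_add]
      linarith
  have hg := h.g0 j hj le_rfl
  obtain ⟨ε, he, he1, he2⟩ := exists_small_eps (j := j) (fun i => 3 / S.g j * (S.k i * S.N i))
    (fun i => δ * (δ / 2 ^ i) / 4) (fun i hi => by positivity) (w := 4 / S.g j) (half_pos hδ)
  have hnum : Num j j S.N c S.P (fun i r => Ideal.span (S.F0 i (pb (S.Br i) r) : Set O))
      (fun i => nb (S.Br i)) S.a S.g (Function.update eps j ε) :=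
    { jL := le_rfl
      Lj := Nat.le_succ j
      c0 := h.c0
      P0 := h.P0
      cap := fun i hi => by
        rw [pb_eq_self (h.brN i hi), (h.flag i hi).bot]
        exact Ideal.span_le.2 fun v hv => hv.2
      nb1 := fun i hi r hr => lt_nb (h.brN i hi) hr
      nb2 := fun i hi r hr => nb_le (h.brN i hi) hr
      g0 := h.g0
      e0 := fun m h1 h2 => by
        rcases h2.eq_or_lt with h3 | h3
        · rw [h3, Function.update_self]; exact he
        · rw [Function.update_of_ne h3.ne]; exact h.e0 m h1 h3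
      a0 := h.a0
      I2a := h.I2a
      I2b := fun i hi _ hr h2 => h.I2b i hi _ (nb_mem (h.brN i hi) hr)
        (lt_of_le_of_lt (Nat.zero_le _) (lt_nb (h.brN i hi) hr)) h2
      I4 := fun m h1 h2 => by
        rcases h2.eq_or_lt with h3 | h3
        · subst h3
          rw [Function.update_self]
          have := h.I4j h1
          rw [Dat.val] at this
          linarith
        · rw [Function.update_of_ne h3.ne]; exact (h.I4 m h1 h3).le }
  obtain ⟨m, W, dg, cc, h1, h2, h3, h4, h5⟩ := end_abs T.F T.fd T.mono (hK.calc x) hj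
    (G := fun i r => S.F0 i (pb (S.Br i) r)) hnum (h.I3 x h.Px) h.hN
    (fun i hi => by rw [pb_zero]; exact (h.flag i hi).top)
    (fun i hi => by rw [pb_eq_self (h.brN i hi)]; exact (h.flag i hi).bot)
    (fun i hi r r' a1 a2 => (h.flag i hi).anti _ _ (pb_mono _ a1) ((pb_le _ _).trans a2))
    (fun i hi r hr => by
      have a1 := (h.flag i hi).dim (pb (S.Br i) r) ((pb_le _ _).trans hr.le)
      have a2 := pb_le (S.Br i) r
      omega)
    (fun i hi r hr r' a1 a2 => ⟨by rw [pb_eq_of_lt_nb (h.br0 i hi) ((pb_le _ _).trans a1) a2],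
      nb_eq_of_lt_nb (h.brN i hi) hr ((pb_le _ _).trans a1) a2⟩)
    (fun ρ r0 r1 F hF => h.i1 ρ r0 r1 F fun i hi => by
      obtain ⟨f1, f2, f3, f4, f5⟩ := hF i hi
      refine ⟨⟨f1, f2 _ le_rfl, fun r r' a1 _ => f3 a1, f4⟩, fun r hr => ?_⟩
      have := f5 r (h.brle i hi r hr)
      rw [pb_eq_self hr] at this
      exact this ((h.flag i hi).dim r (h.brle i hi r hr)))
    (lam := fun i => δ * (δ / 2 ^ i) / 4) (fun i hi => by positivity)
    (fun m m1 m2 i hi him => by
      rcases m2.eq_or_lt with h3 | h3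
      · subst h3
        rw [Function.update_self]
        calc 3 * ε / S.g m * (S.k i * S.N i) = ε * (3 / S.g m * (S.k i * S.N i)) := by ring
          _ ≤ _ := he2 i hi
      · rw [Function.update_of_ne h3.ne]
        linarith [h.I5s m m1 h3 i him])
  rw [Function.update_self] at h4
  have hb0 : 0 ≤ 4 * ε / S.g j := by positivity
  refine ⟨m, W, dg, cc, 4 * ε / S.g j, h1, h2, hb0, h3, fun hk => h4 (4 * ε / S.g j) ?_ ?_, ?_⟩
  · exact div_lt_div_of_pos_right (by linarith) hg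
  · exact hK.mono x _ _ _ _ (sum_nonneg fun q _ => single_nonneg.2 (h2 q)) hb0
      (leAt_of_le x (hPj ▸ mz_le_ker x)) hk
  · have b1 : 4 * ε / S.g j = ε * (4 / S.g j) := by ring
    have b2 : ∑ i ∈ range j, δ * (δ / 2 ^ i) / 4 = δ / 4 * ∑ i ∈ range j, δ / 2 ^ i := by
      rw [Finset.mul_sum]
      exact sum_congr rfl fun i _ => by ring
    have b3 := mul_le_mul_of_nonneg_left (sum_half_le hδ.le j) (by positivity : 0 ≤ δ / 4)
    rw [sum_add_distrib, b2] at h5
    simp only [Dat.Deg] at i8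
    nlinarith

end Pool.Agent.Lib.MP_9ff3e7_ag.F
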