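import Pool.Agent.Lib.MP_9ff3e7_ag.F.SDefs

/-! Dimension and degree of a subvariety through its Hilbert function. -/

set_option autoImplicit false

namespace Pool.Agent.Lib.MP_9ff3e7_ag.F

open Filter Topology

noncomputable section

variable {S : Type} [CommRing S] [Algebra ℂ S] (𝒜 : ℕ → Submodule ℂ S)

/-- the Hilbert function of `S / I` -/
def hilbFn (I : Ideal S) (j : ℕ) : ℕ :=
  Module.finrank ℂ ((𝒜 j).map (Ideal.Quotient.mkₐ ℂ I).toLinearMap)

/-- the subvariety cut out by `I` has dimension `d` and degree `e`: `h(j) ∼ e j ^ d / d!` -/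
def HasDeg (I : Ideal S) (d : ℕ) (e : ℝ) : Prop :=
  0 < e ∧ Tendsto (fun j : ℕ => (d.factorial : ℝ) * hilbFn 𝒜 I j / (j : ℝ) ^ d) atTop (𝓝 e)

end

end Pool.Agent.Lib.MP_9ff3e7_ag.F
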