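import Mathlib

/-! Nullstellensatz with points as algebra maps to `ℂ`, and powers of a minimal prime. -/

set_option autoImplicit false

namespace Pool.Agent.Lib.MP_9ff3e7_ag.F

variable {O : Type} [CommRing O]

/-- a maximal ideal of a finite type `ℂ`-algebra is the kernel of a point -/
theorem exists_pt_of_isMaximal [Algebra ℂ O] [Algebra.FiniteType ℂ O] (m : Ideal O)
    [hm : m.IsMaximal] : ∃ y : O →ₐ[ℂ] ℂ, ∀ g, y g = 0 ↔ g ∈ m := by
  let _ : Field (O ⧸ m) := Ideal.Quotient.field m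
  have : Module.Finite ℂ (O ⧸ m) := finite_of_finite_type_of_isJacobsonRing ℂ (O ⧸ m)
  have hb : Function.Bijective (algebraMap ℂ (O ⧸ m)) :=
    IsAlgClosed.algebraMap_bijective_of_isIntegral
  let e : ℂ ≃ₐ[ℂ] (O ⧸ m) := AlgEquiv.ofBijective (Algebra.ofId ℂ (O ⧸ m)) hb
  refine ⟨(e.symm : (O ⧸ m) →ₐ[ℂ] ℂ).comp (Ideal.Quotient.mkₐ ℂ m), fun g => ?_⟩
  change e.symm (Ideal.Quotient.mk m g) = 0 ↔ _
  rw [map_eq_zero_iff _ e.symm.injective, Ideal.Quotient.eq_zero_iff_mem]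

/-- Nullstellensatz -/
theorem exists_pt_of_notMem_radical [Algebra ℂ O] [Algebra.FiniteType ℂ O] (J : Ideal O) {f : O}
    (hf : f ∉ J.radical) : ∃ y : O →ₐ[ℂ] ℂ, (∀ g ∈ J, y g = 0) ∧ y f ≠ 0 := by
  have : IsJacobsonRing O := isJacobsonRing_of_finiteType (A := ℂ)
  rw [Ideal.radical_eq_jacobson, Ideal.jacobson, Ideal.mem_sInf] at hf
  push Not at hf
  obtain ⟨m, ⟨hJm, hm⟩, hfm⟩ := hf
  obtain ⟨y, hy⟩ := exists_pt_of_isMaximal m
  exact ⟨y, fun g hg => (hy g).2 (hJm hg), fun h => hfm ((hy f).1 h)⟩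

/-- a point of `V(P)` off `f` for a prime `P` not containing `f` -/
theorem exists_pt_of_notMem_prime [Algebra ℂ O] [Algebra.FiniteType ℂ O] (P : Ideal O)
    [hP : P.IsPrime] {f : O} (hf : f ∉ P) :
    ∃ y : O →ₐ[ℂ] ℂ, (∀ g ∈ P, y g = 0) ∧ y f ≠ 0 :=
  exists_pt_of_notMem_radical P (by rwa [hP.radical])

/-- a power of a minimal prime is killed into the ideal by an element outside the prime -/
theorem exists_mul_pow_mem [IsNoetherianRing O] {J P : Ideal O} (hP : P ∈ J.minimalPrimes) :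
    ∃ h ∉ P, ∃ M : ℕ, 1 ≤ M ∧ ∀ p ∈ P, h * p ^ M ∈ J := by
  classical
  obtain ⟨n, hn⟩ := J.exists_radical_pow_le_of_fg J.radical.fg_of_isNoetherianRing
  have hfin := J.finite_minimalPrimes_of_isNoetherianRing O
  have hne : ¬ (hfin.toFinset.erase P).inf id ≤ P := by
    rw [hP.isPrime.inf_le']
    rintro ⟨K, hK, hKP⟩
    rw [Finset.mem_erase, hfin.mem_toFinset] at hK
    exact hK.1 (le_antisymm hKP (hP.2 hK.2.1 hKP))
  obtain ⟨h, hh, hhP⟩ := SetLike.not_le_iff_exists.1 hne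
  refine ⟨h ^ (n + 1), fun H => hhP (hP.isPrime.mem_of_pow_mem _ H), n + 1, by omega,
    fun p hp => ?_⟩
  have hr : h * p ∈ J.radical := by
    rw [← J.sInf_minimalPrimes, Ideal.mem_sInf]
    intro K hK
    by_cases hKP : K = P
    · exact hKP ▸ Ideal.mul_mem_left _ _ hp
    · refine Ideal.mul_mem_right _ _ ?_
      exact (Finset.inf_le (f := id) (Finset.mem_erase.2 ⟨hKP, hfin.mem_toFinset.2 hK⟩) :
        (hfin.toFinset.erase P).inf id ≤ K) hh
  rw [← mul_pow, pow_succ]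
  exact Ideal.mul_mem_right _ _ (hn (Ideal.pow_mem_pow hr n))

end Pool.Agent.Lib.MP_9ff3e7_ag.F
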