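import Pool.Agent.Lib.MP_9ff3e7_ag.F.XDefs
import Pool.Agent.Lib.MP_9ff3e7_ag.F.ThetaAlg

/-! Forms of one degree prime to `k`, without common zero, whose ratios are local `k`-th powers. -/

set_option autoImplicit false

namespace Pool.Agent.Lib.MP_9ff3e7_ag.F

open Submodule DirectSum

variable {S : Type} [CommRing S] [Algebra ℂ S] {𝒜 : ℕ → Submodule ℂ S} [GradedAlgebra 𝒜]

namespace Sec

lemma pow_le {V : Submodule ℂ S} (hV : V ≤ 𝒜 1) (j : ℕ) : V ^ j ≤ 𝒜 j := by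
  induction j with
  | zero => rw [pow_zero, Submodule.one_le]; exact SetLike.one_mem_graded 𝒜
  | succ j ih =>
    rw [pow_succ, mul_le]
    exact fun a ha b hb => SetLike.mul_mem_graded (ih ha) (hV hb)

lemma grade_eq {s : Set S} (h1 : ∀ a ∈ s, a ∈ 𝒜 1) (hs : Algebra.adjoin ℂ s = ⊤) (j : ℕ) :
    𝒜 j = span ℂ s ^ j := by
  have hV : span ℂ s ≤ 𝒜 1 := span_le.2 h1
  refine le_antisymm (fun x hx => ?_) (pow_le hV j)
  rw [← decompose_of_mem_same 𝒜 hx]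
  have : x ∈ span ℂ (Submonoid.closure s : Set S) := by
    rw [← Algebra.adjoin_eq_span, hs]; trivial
  clear hx
  induction this using span_induction with
  | mem x hx =>
    have : ∃ i, x ∈ span ℂ s ^ i := by
      induction hx using Submonoid.closure_induction with
      | mem x hx => exact ⟨1, by simpa using subset_span hx⟩
      | one => exact ⟨0, by rw [pow_zero]; exact Submodule.one_le.1 le_rfl⟩
      | mul x y _ _ hx hy =>
        obtain ⟨a, ha⟩ := hx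
        obtain ⟨b, hb⟩ := hy
        exact ⟨a + b, by rw [pow_add]; exact mul_mem_mul ha hb⟩
    obtain ⟨i, hi⟩ := this
    by_cases h : i = j
    · subst h
      rwa [decompose_of_mem_same 𝒜 (pow_le hV i hi)]
    · rw [decompose_of_mem_ne 𝒜 (pow_le hV i hi) h]
      exact zero_mem _
  | zero => simp
  | add x y _ _ hx hy => simpa using add_mem hx hy
  | smul r x _ hx => rw [decompose_smul]; exact smul_mem _ r hx

lemma irr {s : Finset S} (h1 : ∀ a ∈ s, a ∈ 𝒜 1) (hs : Algebra.adjoin ℂ (s : Set S) = ⊤)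
    (J : Ideal S) (hJ : ∀ q : Pt 𝒜, ∃ a ∈ J, q.1 a ≠ 0) : ∃ M, ∀ t, ∀ x ∈ 𝒜 (M + t), x ∈ J := by
  have : Algebra.FiniteType ℂ S := ⟨⟨s, hs⟩⟩
  have hr : Ideal.span (s : Set S) ≤ J.radical := Ideal.span_le.2 fun a ha => by
    by_contra h
    obtain ⟨y, hy, hya⟩ := exists_pt_of_notMem_radical J h
    obtain ⟨c, hc, hc0⟩ := hJ ⟨y, a, h1 a ha, hya⟩
    exact hc0 (hy c hc)
  obtain ⟨M, hM⟩ := Ideal.exists_pow_le_of_le_radical_of_fg hr ⟨s, rfl⟩
  refine ⟨M, fun t x hx => hM (Ideal.pow_le_pow_right (Nat.le_add_right M t) ?_)⟩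
  rw [grade_eq h1 hs] at hx
  generalize M + t = j at hx
  induction hx using Submodule.pow_induction_on_left' with
  | algebraMap r => simp
  | add a b i _ _ ha hb => exact add_mem ha hb
  | mem_mul m hm i x _ hx =>
    rw [pow_succ']
    exact Ideal.mul_mem_mul (span_le_restrictScalars ℂ S _ hm) hx

lemma homog_of_mul [IsDomain S] {m j : ℕ} {x b : S} (hb : b ∈ 𝒜 j) (hb0 : b ≠ 0)
    (h : x * b ∈ 𝒜 (m + j)) : x ∈ 𝒜 m := by
  have := coe_decompose_mul_add_of_right_mem 𝒜 (a := x) (i := m) hb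
  rw [decompose_of_mem_same 𝒜 h] at this
  rw [mul_right_cancel₀ hb0 this]
  exact SetLike.coe_mem _

end Sec

/-- the graded pieces are the powers of the linear piece -/
theorem grade_pow (hfg : ∃ s : Finset S, (∀ a ∈ s, a ∈ 𝒜 1) ∧ Algebra.adjoin ℂ (s : Set S) = ⊤)
    (j : ℕ) : 𝒜 j = 𝒜 1 ^ j := by
  obtain ⟨s, h1, hs⟩ := hfg
  rw [Sec.grade_eq h1 hs j, Sec.grade_eq h1 hs 1, pow_one]

theorem grade_fg (hfg : ∃ s : Finset S, (∀ a ∈ s, a ∈ 𝒜 1) ∧ Algebra.adjoin ℂ (s : Set S) = ⊤)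
    (j : ℕ) : (𝒜 j).FG := by
  obtain ⟨s, h1, hs⟩ := hfg
  rw [Sec.grade_eq h1 hs j]
  exact Submodule.FG.pow ⟨s, rfl⟩ j

/-- forms of one degree without common zero generate everything in high degree -/
theorem red_of_no_zero
    (hfg : ∃ s : Finset S, (∀ a ∈ s, a ∈ 𝒜 1) ∧ Algebra.adjoin ℂ (s : Set S) = ⊤)
    {ι : Type} [Fintype ι] {b : ℕ} (g : ι → S) (hg : ∀ i, g i ∈ 𝒜 b)
    (h : ∀ q : Pt 𝒜, ∃ i, q.1 (g i) ≠ 0) :
    ∃ M, 𝒜 (M + b) ≤ span ℂ (Set.range g) * 𝒜 M := by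
  obtain ⟨s, h1, hs⟩ := hfg
  obtain ⟨M, hM⟩ := Sec.irr h1 hs (Ideal.span (Set.range g)) fun q =>
    let ⟨i, hi⟩ := h q; ⟨g i, Ideal.subset_span ⟨i, rfl⟩, hi⟩
  refine ⟨M, fun x hx => ?_⟩
  obtain ⟨r, hr⟩ := Ideal.mem_span_range_iff_exists_fun.1 (hM b x hx)
  rw [← decompose_of_mem_same 𝒜 hx, ← hr, decompose_sum, DFinsupp.finsetSum_apply,
    AddSubmonoidClass.coe_finsetSum]
  refine sum_mem fun i _ => ?_
  rw [coe_decompose_mul_add_of_right_mem 𝒜 (hg i), mul_comm _ (g i)]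
  exact mul_mem_mul (subset_span ⟨i, rfl⟩) (SetLike.coe_mem _)

variable [IsDomain S]

namespace Sec

omit [GradedAlgebra 𝒜] in
lemma unit_mul {q : Pt 𝒜} {u v : Fn 𝒜} (hu : UnitAt q u) (hv : UnitAt q v) : UnitAt q (u * v) :=
  ⟨mul_ne_zero hu.1 hv.1, mul_mem hu.2.1 hv.2.1, by rw [mul_inv]; exact mul_mem hu.2.2 hv.2.2⟩

omit [GradedAlgebra 𝒜] in
lemma unit_inv {q : Pt 𝒜} {u : Fn 𝒜} (hu : UnitAt q u) : UnitAt q u⁻¹ :=
  ⟨inv_ne_zero hu.1, hu.2.2, by rw [inv_inv]; exact hu.2.1⟩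

omit [GradedAlgebra 𝒜] in
lemma unit_pow {q : Pt 𝒜} {u : Fn 𝒜} (hu : UnitAt q u) (k : ℕ) : UnitAt q (u ^ k) :=
  ⟨pow_ne_zero k hu.1, pow_mem hu.2.1 k, by rw [← inv_pow]; exact pow_mem hu.2.2 k⟩

lemma loc_mul {q : Pt 𝒜} {u : Fn 𝒜} (hu : u ∈ loc q) : ∃ j, ∃ a ∈ 𝒜 j, ∃ c ∈ 𝒜 j, q.1 c ≠ 0 ∧
    (u : FractionRing S) * algebraMap S _ c = algebraMap S _ a := by
  obtain ⟨j, a, ha, c, hc, h0, h⟩ := mem_loc.1 hu
  refine ⟨j, a, ha, c, hc, h0, ?_⟩
  rw [h, div_mul_cancel₀ _ (alg_ne fun e => h0 (by simp [e]))]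

/-- a form of positive degree on whose complement the equation at `p` is valid, and a power of it
clearing the denominators of `θ / a_p ^ k` -/
lemma patch (hft : Algebra.FiniteType ℂ S) (A : Cartier 𝒜) {k : ℕ} {θ : FractionRing S}
    (hθ : ∀ p : Pt 𝒜, ∀ l ∈ 𝒜 1, p.1 l ≠ 0 → ∃ u : Fn 𝒜, UnitAt p u ∧
      θ = (u * A.eqn p ^ k : Fn 𝒜) * algebraMap S (FractionRing S) l) (p : Pt 𝒜) :
    ∃ d, ∃ f ∈ 𝒜 d, 0 < d ∧ p.1 f ≠ 0 ∧ (∀ q : Pt 𝒜, q.1 f ≠ 0 → UnitAt q (A.eqn p / A.eqn q)) ∧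
      ∃ e, ∃ t ∈ 𝒜 (e * d + 1), (∀ q : Pt 𝒜, q.1 f ≠ 0 → q.1 t ≠ 0) ∧
        algebraMap S _ t * (A.eqn p : FractionRing S) ^ k = algebraMap S _ (f ^ e) * θ := by
  obtain ⟨j, f, hf, hpf, hn⟩ := A.near p
  obtain ⟨l, hl, hpl⟩ := p.2
  have hfl : f * l ∈ 𝒜 (j + 1) := SetLike.mul_mem_graded hf hl
  have ha0 : (A.eqn p : FractionRing S) ≠ 0 := by
    have := (hn p hpf).1
    simpa using this
  have key : ∀ q : Pt 𝒜, q.1 f ≠ 0 → ∀ l ∈ 𝒜 1, q.1 l ≠ 0 → ∃ v : Fn 𝒜, UnitAt q v ∧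
      θ = v * algebraMap S _ l * (A.eqn p : FractionRing S) ^ k := fun q hq l hl hql => by
    obtain ⟨u, hu, e⟩ := hθ q l hl hql
    refine ⟨u * (A.eqn p / A.eqn q)⁻¹ ^ k, unit_mul hu (unit_pow (unit_inv (hn q hq)) k), ?_⟩
    rw [e]
    push_cast
    rw [inv_div, div_pow]
    field_simp
  let D : Ideal S :=
    { carrier := {h | ∃ t : S, algebraMap S _ t * (A.eqn p : FractionRing S) ^ k =
        algebraMap S _ h * θ}
      zero_mem' := ⟨0, by simp⟩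
      add_mem' := fun ⟨a, ha⟩ ⟨b, hb⟩ => ⟨a + b, by rw [map_add, map_add, add_mul, add_mul, ha, hb]⟩
      smul_mem' := fun c _ ⟨a, ha⟩ => ⟨c * a, by
        rw [smul_eq_mul, map_mul, map_mul, mul_assoc, ha, mul_assoc]⟩ }
  have hD : f * l ∈ D.radical := by
    by_contra h
    obtain ⟨y, hy, hy0⟩ := exists_pt_of_notMem_radical D h
    rw [map_mul] at hy0
    obtain ⟨v, hv, e⟩ := key ⟨y, l, hl, right_ne_zero_of_mul hy0⟩ (left_ne_zero_of_mul hy0) l hl
      (right_ne_zero_of_mul hy0)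
    obtain ⟨m, a, -, c, -, hc0, h2⟩ := loc_mul hv.2.1
    exact hc0 (hy c ⟨a * l, by rw [e, map_mul, ← h2]; ring⟩)
  obtain ⟨e, t, ht⟩ := hD
  refine ⟨j + 1, f * l, hfl, Nat.succ_pos j, by simp [hpf, hpl], fun q hq => hn q ?_, e, t, ?_,
    fun q hq => ?_, ht⟩
  · exact left_ne_zero_of_mul (map_mul q.1 f l ▸ hq)
  · obtain ⟨v, hv, e1⟩ := key p hpf l hl hpl
    obtain ⟨m, a, ha, c, hc, hc0, h2⟩ := loc_mul hv.2.1
    refine homog_of_mul hc (fun e => hc0 (by simp [e])) ?_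
    have : t * c = (f * l) ^ e * l * a := by
      refine alg_inj (mul_right_cancel₀ (pow_ne_zero k ha0) ?_)
      rw [map_mul, mul_right_comm, ht, e1, map_mul _ _ a, map_mul _ _ l, ← h2]
      ring
    rw [this]
    exact SetLike.mul_mem_graded (SetLike.mul_mem_graded (SetLike.pow_mem_graded e hfl) hl) ha
  · have hq' := map_mul q.1 f l ▸ hq
    obtain ⟨v, hv, e1⟩ := key q (left_ne_zero_of_mul hq') l hl (right_ne_zero_of_mul hq')
    obtain ⟨m, a, -, c, -, hc0, h2⟩ := loc_mul hv.2.2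
    have hv0 : (v : FractionRing S) ≠ 0 := by simpa using hv.1
    have : t * a = (f * l) ^ e * l * c := by
      refine alg_inj (mul_right_cancel₀ (pow_ne_zero k ha0) ?_)
      rw [map_mul, mul_right_comm, ht, e1, map_mul _ _ c, map_mul _ _ l, ← h2]
      push_cast
      field_simp
    intro h0
    have h3 := congrArg q.1 this
    rw [map_mul, h0, zero_mul, map_mul, map_mul, map_pow] at h3
    exact mul_ne_zero (mul_ne_zero (pow_ne_zero e hq) (right_ne_zero_of_mul hq')) hc0 h3.symm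

end Sec

/-- `k`-th powers of sections of `(1 + k N) A` without common zero -/
theorem sec (hfg : ∃ s : Finset S, (∀ a ∈ s, a ∈ 𝒜 1) ∧ Algebra.adjoin ℂ (s : Set S) = ⊤)
    (A : Cartier 𝒜) {k : ℕ} (hk : 0 < k) (hA : A.Hyperplane k) :
    ∃ (b r : ℕ) (g : Fin r → S), k.Coprime b ∧ (∀ i, g i ∈ 𝒜 b) ∧
      (∃ M, 𝒜 (M + b) ≤ span ℂ (Set.range g) * 𝒜 M) ∧
      ∀ i j (q : Pt 𝒜), q.1 (g i) ≠ 0 → q.1 (g j) ≠ 0 →
        ∃ m, ∃ a ∈ 𝒜 m, ∃ c ∈ 𝒜 m, q.1 c ≠ 0 ∧ g i * c ^ k = a ^ k * g j := by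
  classical
  have hft : Algebra.FiniteType ℂ S := let ⟨s, _, hs⟩ := hfg; ⟨⟨s, hs⟩⟩
  have : IsNoetherianRing S := Algebra.FiniteType.isNoetherianRing ℂ S
  obtain ⟨θ, hθ⟩ := hA
  choose d f hf hd hpf hn e t ht hqt hte using Sec.patch hft A hθ
  obtain ⟨T, hT, hspan⟩ := (fg_span_iff_fg_span_finset_subset (R := S) (Set.range f)).1
    (IsNoetherian.noetherian _)
  choose p hp using fun a : T => hT a.2
  obtain ⟨r, ⟨σ⟩⟩ := Finite.exists_equiv_fin T
  set P : Fin r → Pt 𝒜 := fun i => p (σ.symm i) with hP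
  have hcov : ∀ q : Pt 𝒜, ∃ i, q.1 (f (P i)) ≠ 0 := fun q => by
    by_contra! h
    have : span S (T : Set S) ≤ RingHom.ker q.1 := span_le.2 fun a ha => by
      have := h (σ ⟨a, ha⟩)
      simp only [hP, Equiv.symm_apply_apply, hp] at this
      exact this
    exact hpf q (this (hspan ▸ subset_span ⟨q, rfl⟩))
  choose c hc using fun i => Finset.dvd_prod_of_mem (fun i => d (P i)) (Finset.mem_univ i)
  have hc0 : ∀ i, 0 < c i := fun i => Nat.pos_of_mul_pos_left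
    (hc i ▸ Finset.prod_pos fun i _ => hd (P i))
  set E := ∑ i, e (P i) + 1 with hE
  set N := (∏ i, d (P i)) * E with hN
  have hlt : ∀ i, e (P i) < c i * E * k := fun i =>
    (Nat.lt_succ_of_le (Finset.single_le_sum (f := fun i => e (P i)) (fun _ _ => Nat.zero_le _)
      (Finset.mem_univ i))).trans_le
      ((Nat.le_mul_of_pos_left E (hc0 i)).trans (Nat.le_mul_of_pos_right _ hk))
  choose w hw using fun i => Nat.exists_eq_add_of_lt (hlt i)
  have hg : ∀ i, t (P i) * f (P i) ^ (w i + 1) ∈ 𝒜 (1 + k * N) := fun i => by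
    have := SetLike.mul_mem_graded (ht (P i)) (SetLike.pow_mem_graded (w i + 1) (hf (P i)))
    convert this using 2
    rw [hN, hc i, smul_eq_mul]
    calc 1 + k * (d (P i) * c i * E) = 1 + (c i * E * k) * d (P i) := by ring
      _ = _ := by rw [hw i]; ring
  have hF : ∀ i, f (P i) ^ (c i * E) ∈ 𝒜 N := fun i => by
    have := SetLike.pow_mem_graded (c i * E) (hf (P i))
    convert this using 2
    rw [hN, hc i, smul_eq_mul]
    ring
  have hge : ∀ i, algebraMap S _ (t (P i) * f (P i) ^ (w i + 1)) *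
      (A.eqn (P i) : FractionRing S) ^ k = algebraMap S _ (f (P i) ^ (c i * E)) ^ k * θ := fun i => by
    rw [map_mul, mul_right_comm, hte, ← map_pow, ← pow_mul, hw i, add_assoc, pow_add _ (e _),
      map_mul]
    ring
  refine ⟨1 + k * N, r, fun i => t (P i) * f (P i) ^ (w i + 1), by simp, hg,
    red_of_no_zero hfg _ hg fun q => ?_, fun i j q hi hj => ?_⟩
  · obtain ⟨i, hi⟩ := hcov q
    exact ⟨i, by simp [hi, hqt _ q hi]⟩
  · have hi' : q.1 (f (P i)) ≠ 0 := fun h => hi (by simp [h])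
    have hj' : q.1 (f (P j)) ≠ 0 := fun h => hj (by simp [h])
    have hu := Sec.unit_mul (hn _ q hj') (Sec.unit_inv (hn _ q hi'))
    obtain ⟨m, a, ha, c', hc', hq, h2⟩ := Sec.loc_mul hu.2.1
    have h0 : ∀ i, q.1 (f (P i)) ≠ 0 → (A.eqn (P i) : FractionRing S) ≠ 0 ∧
        (A.eqn q : FractionRing S) ≠ 0 := fun i hi => by
      simpa using (hn _ q hi).1
    refine ⟨N + m, _, SetLike.mul_mem_graded (hF i) ha, _, SetLike.mul_mem_graded (hF j) hc',
      by simp [hj', hq], alg_inj ?_⟩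
    have h3 : algebraMap S (FractionRing S) a * A.eqn (P i) = A.eqn (P j) * algebraMap S _ c' := by
      rw [← h2]
      have := (h0 i hi').1
      have := (h0 i hi').2
      push_cast
      field_simp
    refine mul_right_cancel₀ (mul_ne_zero (pow_ne_zero k (h0 i hi').1)
      (pow_ne_zero k (h0 j hj').1)) ?_
    have e1 := hge i
    have e2 := hge j
    have e3 := congrArg (· ^ k) h3
    simp only [mul_pow] at e3
    rw [map_mul _ (t _ * _), map_mul _ _ (t _ * _), map_pow, map_pow _ (_ * a), map_mul _ _ c',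
      map_mul _ _ a, mul_pow, mul_pow]
    generalize algebraMap S (FractionRing S) (t (P i) * f (P i) ^ (w i + 1)) = gi at *
    generalize algebraMap S (FractionRing S) (t (P j) * f (P j) ^ (w j + 1)) = gj at *
    generalize algebraMap S (FractionRing S) (f (P i) ^ (c i * E)) ^ k = Fi at *
    generalize algebraMap S (FractionRing S) (f (P j) ^ (c j * E)) ^ k = Fj at *
    linear_combination (Fj * algebraMap S (FractionRing S) c' ^ k *
      (A.eqn (P j) : FractionRing S) ^ k) * e1 - (Fi * θ * Fj) * e3 -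
      (Fi * algebraMap S (FractionRing S) a ^ k * (A.eqn (P i) : FractionRing S) ^ k) * e2

end Pool.Agent.Lib.MP_9ff3e7_ag.F
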