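import Pool.Agent.Lib.MP_9ff3e7_ag.F.XPts

/-! The degree filtration of a chart. -/

set_option autoImplicit false

namespace Pool.Agent.Lib.MP_9ff3e7_ag.F

noncomputable section

variable {S : Type} [CommRing S] [IsDomain S] [Algebra ℂ S] {𝒜 : ℕ → Submodule ℂ S}
  [GradedAlgebra 𝒜]

omit [IsDomain S] in
theorem pow_le_gr (j : ℕ) : 𝒜 1 ^ j ≤ 𝒜 j := by
  induction j with
  | zero =>
    rw [pow_zero, Submodule.one_le]
    exact SetLike.one_mem_graded 𝒜
  | succ j ih =>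
    rw [pow_succ, Submodule.mul_le]
    exact fun a ha b hb => SetLike.mul_mem_graded (ih ha) hb

omit [IsDomain S] in
theorem gr_eq_span_pow {s : Set S} (h1 : ∀ a ∈ s, a ∈ 𝒜 1) (h2 : Algebra.adjoin ℂ s = ⊤) (j : ℕ) :
    𝒜 j = Submodule.span ℂ s ^ j := by
  have hle : ∀ j, Submodule.span ℂ s ^ j ≤ 𝒜 j := fun j =>
    (pow_le_pow_left' (Submodule.span_le.2 h1) j).trans (pow_le_gr j)
  refine le_antisymm (fun a ha => ?_) (hle j)
  have key : ∀ a : S, ∀ j, (DirectSum.decompose 𝒜 a j : S) ∈ Submodule.span ℂ s ^ j := by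
    intro a
    have ha : a ∈ ⨆ i, Submodule.span ℂ s ^ i := by
      have ha : a ∈ Algebra.adjoin ℂ s := h2 ▸ Algebra.mem_top
      rw [← Subalgebra.mem_toSubmodule, Algebra.adjoin_eq_span] at ha
      refine Submodule.span_le.2 (fun x hx => ?_) ha
      induction hx using Submonoid.closure_induction with
      | mem x hx =>
        exact Submodule.mem_iSup_of_mem 1 (by rw [pow_one]; exact Submodule.subset_span hx)
      | one => exact Submodule.mem_iSup_of_mem 0 (by rw [pow_zero]; exact Submodule.one_le.1 le_rfl)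
      | mul x y _ _ hx hy =>
        have := Submodule.mul_mem_mul hx hy
        rw [Submodule.iSup_mul] at this
        refine (iSup_le fun i => ?_ : _ ≤ ⨆ i, Submodule.span ℂ s ^ i) this
        rw [Submodule.mul_iSup]
        exact iSup_le fun k => by rw [← pow_add]; exact le_iSup _ (i + k)
    induction ha using Submodule.iSup_induction' with
    | mem i x hx =>
      intro j
      by_cases e : i = j
      · subst e
        rwa [DirectSum.decompose_of_mem_same 𝒜 (hle i hx)]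
      · rw [DirectSum.decompose_of_mem_ne 𝒜 (hle i hx) e]
        exact zero_mem _
    | zero => intro j; simp
    | add x y _ _ hx hy =>
      intro j
      rw [DirectSum.decompose_add, DirectSum.add_apply, Submodule.coe_add]
      exact add_mem (hx j) (hy j)
  have := key a j
  rwa [DirectSum.decompose_of_mem_same 𝒜 ha] at this

omit [IsDomain S] in
theorem Gen1.eq_pow (h : Gen1 𝒜) (j : ℕ) : 𝒜 j = 𝒜 1 ^ j := by
  obtain ⟨s, h1, h2⟩ := h
  have e1 := gr_eq_span_pow (𝒜 := 𝒜) (s := (s : Set S)) h1 h2 1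
  rw [pow_one] at e1
  rw [e1]
  exact gr_eq_span_pow (𝒜 := 𝒜) (s := (s : Set S)) h1 h2 j

omit [IsDomain S] in
theorem Gen1.fg (h : Gen1 𝒜) (j : ℕ) : (𝒜 j).FG := by
  obtain ⟨s, h1, h2⟩ := h
  have e1 := gr_eq_span_pow (𝒜 := 𝒜) (s := (s : Set S)) h1 h2 j
  rw [e1]
  exact Submodule.FG.pow ⟨s, rfl⟩ j

namespace Chart

variable {n : ℕ} (c : Chart 𝒜 n)

theorem mem_fil {j : ℕ} {x : c.O} : x ∈ c.fil j ↔ ∃ a ∈ 𝒜 j, c.dh a = x := Iff.rfl

theorem dh_mem_fil {j : ℕ} {a : S} (ha : a ∈ 𝒜 j) : c.dh a ∈ c.fil j := ⟨a, ha, rfl⟩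

theorem fil_one (j : ℕ) : (1 : c.O) ∈ c.fil j :=
  ⟨c.l ^ j, pow_mem1 c.l j, by simp [c.dh_l]⟩

theorem fil_mul {i j : ℕ} {a b : c.O} (ha : a ∈ c.fil i) (hb : b ∈ c.fil j) :
    a * b ∈ c.fil (i + j) := by
  obtain ⟨a, h1, rfl⟩ := c.mem_fil.1 ha
  obtain ⟨b, h2, rfl⟩ := c.mem_fil.1 hb
  exact c.mem_fil.2 ⟨a * b, SetLike.mul_mem_graded h1 h2, map_mul _ _ _⟩

theorem fil_mono : Monotone c.fil := fun i j h a ha => by
  have := c.fil_mul ha (c.fil_one (j - i))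
  rwa [mul_one, Nat.add_sub_cancel' h] at this

theorem fil_pow (h : Gen1 𝒜) (j : ℕ) : c.fil j = c.fil 1 ^ j := by
  rw [fil, fil, h.eq_pow j, Submodule.map_pow]

theorem fil_fin (h : Gen1 𝒜) (j : ℕ) : Module.Finite ℂ (c.fil j) :=
  Module.Finite.iff_fg.2 ((h.fg j).map _)

theorem exists_fil (a : S) : ∃ m, c.dh a ∈ c.fil m := by
  obtain ⟨e, he⟩ := exists_form c.l0 a
  obtain ⟨b, hb, h⟩ := he e le_rfl
  exact ⟨e, c.mem_fil.2 ⟨b, hb, Subtype.ext h⟩⟩

theorem fil_unit_fin {ι : Type} (s : Finset ι) (f : ι → c.O) :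
    ∃ m, ∃ u ∈ c.fil m, IsUnit u ∧ ∀ i ∈ s, u * f i ∈ c.fil m := by
  classical
  induction s using Finset.induction_on with
  | empty => exact ⟨0, 1, c.fil_one 0, isUnit_one, by simp⟩
  | insert i s _ ih =>
    obtain ⟨m, u, h1, h2, h3⟩ := ih
    obtain ⟨a, k, e⟩ := c.exists_dh (f i)
    obtain ⟨m1, h4⟩ := c.exists_fil a
    obtain ⟨m2, h5⟩ := c.exists_fil (c.g ^ k)
    have h4' := c.fil_mono (le_max_left m1 m2) h4
    have h5' := c.fil_mono (le_max_right m1 m2) h5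
    rw [map_pow] at h5'
    refine ⟨m + max m1 m2, u * c.dh c.g ^ k, c.fil_mul h1 h5', h2.mul (c.isUnit_g.pow k), ?_⟩
    intro j hj
    rcases Finset.mem_insert.1 hj with rfl | hj
    · rw [mul_assoc, mul_comm _ (f j), e]
      exact c.fil_mul h1 h4'
    · rw [mul_right_comm]
      exact c.fil_mul (h3 j hj) h5'

theorem fil_unit (f : c.O) : ∃ m, ∃ u ∈ c.fil m, IsUnit u ∧ u * f ∈ c.fil m := by
  obtain ⟨m, u, h1, h2, h3⟩ := c.fil_unit_fin {()} fun _ => f
  exact ⟨m, u, h1, h2, h3 () (by simp)⟩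

theorem fil_z : ∃ m, ∃ u ∈ c.fil m, IsUnit u ∧ ∀ i, u * c.z i ∈ c.fil m := by
  obtain ⟨m, u, h1, h2, h3⟩ := c.fil_unit_fin Finset.univ c.z
  exact ⟨m, u, h1, h2, fun i => h3 i (Finset.mem_univ i)⟩

end Chart

end

end Pool.Agent.Lib.MP_9ff3e7_ag.F
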