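import Pool.Agent.Lib.MP_9ff3e7_ag.F.DivMain
import Pool.Agent.Lib.MP_9ff3e7_ag.F.XFil
import Pool.Agent.Lib.MP_9ff3e7_ag.F.Sec
import Pool.Agent.Lib.MP_9ff3e7_ag.F.ThetaAlg
import Pool.Agent.Lib.MP_9ff3e7_ag.F.KDefs

/-! The Hilbert function bounds for the degree filtration of a chart. -/

set_option autoImplicit false

namespace Pool.Agent.Lib.MP_9ff3e7_ag.F.X2

open Module Submodule

variable {S : Type} [CommRing S] [Algebra ℂ S] {𝒜 : ℕ → Submodule ℂ S} [GradedAlgebra 𝒜]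

theorem gen_pow (h : Gen1 𝒜) (j : ℕ) : 𝒜 j = 𝒜 1 ^ j := grade_pow h j

theorem gen_fd (h : Gen1 𝒜) : FiniteDimensional ℂ (𝒜 1) := Module.Finite.iff_fg.2 (grade_fg h 1)

omit [GradedAlgebra 𝒜] in
theorem gen_ft (h : Gen1 𝒜) : Algebra.FiniteType ℂ S := by
  obtain ⟨s, -, hs⟩ := h
  exact ⟨⟨s, hs⟩⟩

/-- sections of `b A` when `k A` is the hyperplane class -/
def Root (𝒜 : ℕ → Submodule ℂ S) (k : ℕ) : Prop :=
  ∃ (b r : ℕ) (g : Fin r → S), k.Coprime b ∧ (∀ i, g i ∈ 𝒜 b) ∧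
    (∃ M, 𝒜 (M + b) ≤ span ℂ (Set.range g) * 𝒜 M) ∧
    ∀ i j (q : Pt 𝒜), q.1 (g i) ≠ 0 → q.1 (g j) ≠ 0 →
      ∃ m, ∃ a ∈ 𝒜 m, ∃ c ∈ 𝒜 m, q.1 c ≠ 0 ∧ g i * c ^ k = a ^ k * g j

section field

variable {L : Type} [Field L] [Algebra ℂ L]

theorem map_eq (h : Gen1 𝒜) (φ : S →ₐ[ℂ] L) (j : ℕ) :
    (𝒜 j).map φ.toLinearMap = (𝒜 1).map φ.toLinearMap ^ j := by
  rw [gen_pow h j, Submodule.map_pow]

omit [GradedAlgebra 𝒜] in
theorem adj_top (h : Gen1 𝒜) (φ : S →ₐ[ℂ] L) (hfr : ∀ x : L, ∃ a c : S, x = φ a / φ c) :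
    IntermediateField.adjoin ℂ ((𝒜 1).map φ.toLinearMap : Set L) = ⊤ := by
  obtain ⟨s, hs, hg⟩ := h
  have key : ∀ a : S, φ a ∈ IntermediateField.adjoin ℂ ((𝒜 1).map φ.toLinearMap : Set L) := by
    intro a
    have ha : a ∈ Algebra.adjoin ℂ (s : Set S) := by simp [hg]
    induction ha using Algebra.adjoin_induction with
    | mem a ha => exact IntermediateField.subset_adjoin _ _ ⟨a, hs a ha, rfl⟩
    | algebraMap r => simp
    | add a b _ _ ha hb => simpa using add_mem ha hb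
    | mul a b _ _ ha hb => simpa using mul_mem ha hb
  refine top_le_iff.1 fun x _ => ?_
  obtain ⟨a, c, rfl⟩ := hfr x
  exact div_mem (key a) (key c)

theorem push_up (h : Gen1 𝒜) (φ : S →ₐ[ℂ] L) {l : S} (hl : l ∈ 𝒜 1) (hl1 : φ l = 1)
    (hfr : ∀ x : L, ∃ a c : S, x = φ a / φ c) {d : ℕ} (hd : Algebra.trdeg ℂ L = d) :
    ∃ C : ℕ, ∀ j : ℕ, finrank ℂ ((𝒜 j).map φ.toLinearMap) ≤ C * (j + 1) ^ d := by
  have := gen_fd h
  obtain ⟨C, hC⟩ := up ((𝒜 1).map φ.toLinearMap) ⟨l, hl, hl1⟩ (adj_top h φ hfr) hd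
  exact ⟨C, fun j => by rw [map_eq h]; exact hC j⟩

theorem push_low [IsDomain S] (h : Gen1 𝒜) {k : ℕ} (hk : 0 < k) (hr : Root 𝒜 k) (φ : S →ₐ[ℂ] L)
    {l : S} (hl : l ∈ 𝒜 1) (hl1 : φ l = 1) (hfr : ∀ x : L, ∃ a c : S, x = φ a / φ c) {d : ℕ}
    (hd : Algebra.trdeg ℂ L = d) (j : ℕ) (hj : k ^ d ≤ j) :
    k ^ d * (j - k ^ d + d).choose d ≤ finrank ℂ ((𝒜 j).map φ.toLinearMap) := by
  obtain ⟨b, r, g, hkb, hg, ⟨M, hM⟩, hq⟩ := hr
  have := gen_fd h
  have := gen_ft h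
  have h1 : (1 : L) ∈ (𝒜 1).map φ.toLinearMap := ⟨l, hl, hl1⟩
  have hM' : (𝒜 1).map φ.toLinearMap ^ (M + b) ≤
      span ℂ (Set.range fun i => φ (g i)) * (𝒜 1).map φ.toLinearMap ^ M := by
    rw [← map_eq h, ← map_eq h]
    refine (map_mono hM).trans ?_
    rw [Submodule.map_mul, map_span, ← Set.range_comp]
    exact le_rfl
  obtain ⟨i0, hi0⟩ : ∃ i, φ (g i) ≠ 0 := by
    by_contra hn
    push Not at hn
    have h2 : span ℂ (Set.range fun i => φ (g i)) = ⊥ := by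
      rw [span_eq_bot]
      rintro _ ⟨i, rfl⟩
      exact hn i
    rw [h2, bot_mul] at hM'
    simpa using hM' (by simpa using pow_mem_pow _ h1 (M + b) : (1 : L) ∈ _)
  have hu : ∀ i, ∃ u : L, φ (g i0) * u ^ k = φ (g i) ∧ (i = i0 → u = 1) := by
    intro i
    by_cases e : i = i0
    · exact ⟨1, by simp [e], fun _ => rfl⟩
    by_cases hi : φ (g i) = 0
    · exact ⟨0, by simp [hi, hk.ne'], fun e' => (e e').elim⟩
    have : (RingHom.ker φ).IsPrime := RingHom.ker_isPrime φ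
    obtain ⟨y, hy, hy'⟩ := exists_pt_of_notMem_prime (RingHom.ker φ) (f := g i * g i0)
      (by simp [RingHom.mem_ker, hi, hi0])
    have hyl : y l = 1 := by
      have := hy (l - 1) (by simp [RingHom.mem_ker, hl1])
      rwa [map_sub, map_one, sub_eq_zero] at this
    rw [map_mul, mul_ne_zero_iff] at hy'
    obtain ⟨m, a, -, c, -, hc, e'⟩ := hq i i0 ⟨y, l, hl, by simp [hyl]⟩ hy'.1 hy'.2
    have hc' : φ c ≠ 0 := fun e => hc (hy c e)
    refine ⟨φ a / φ c, ?_, fun e' => (e e').elim⟩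
    have := congrArg φ e'
    simp only [map_mul, map_pow] at this
    rw [div_pow, ← mul_div_assoc, div_eq_iff (pow_ne_zero _ hc'), this, mul_comm]
  choose u hu hu1 using hu
  rw [map_eq h]
  refine low _ h1 (adj_top h φ hfr) hk hkb hi0 u ⟨i0, hu1 i0 rfl⟩ (fun i => ?_) ⟨M, ?_⟩ hd j hj
  · rw [hu, ← map_eq h]
    exact ⟨g i, hg i, rfl⟩
  · simpa only [hu] using hM'

end field

section domain

variable {R : Type} [CommRing R] [IsDomain R] [Algebra ℂ R]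

theorem trdeg_frac : Algebra.trdeg ℂ (FractionRing R) = Algebra.trdeg ℂ R := by
  have : Algebra.IsAlgebraic R (FractionRing R) := IsLocalization.isAlgebraic _ (nonZeroDivisors R)
  rw [← trdeg_add_eq ℂ R (A := FractionRing R), trdeg_eq_zero (R := R), add_zero]

omit [GradedAlgebra 𝒜] [IsDomain R] in
theorem finrank_frac (φ : S →ₐ[ℂ] R) (j : ℕ) :
    finrank ℂ ((𝒜 j).map ((IsScalarTower.toAlgHom ℂ R (FractionRing R)).comp φ).toLinearMap) =
      finrank ℂ ((𝒜 j).map φ.toLinearMap) := by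
  rw [AlgHom.comp_toLinearMap, map_comp]
  exact (equivMapOfInjective _ (IsFractionRing.injective R (FractionRing R)) _).finrank_eq.symm

theorem frac_frac (φ : S →ₐ[ℂ] R) (hfr : ∀ x : R, ∃ a c : S, φ c ≠ 0 ∧ x * φ c = φ a)
    (x : FractionRing R) : ∃ a c : S,
      x = ((IsScalarTower.toAlgHom ℂ R (FractionRing R)).comp φ) a /
        ((IsScalarTower.toAlgHom ℂ R (FractionRing R)).comp φ) c := by
  obtain ⟨p, q, -, rfl⟩ := IsFractionRing.div_surjective (A := R) x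
  obtain ⟨a, c, hc, e⟩ := hfr p
  obtain ⟨a', c', hc', e'⟩ := hfr q
  have hi := IsFractionRing.injective R (FractionRing R)
  refine ⟨a * c', a' * c, ?_⟩
  simp only [map_mul, AlgHom.comp_apply, IsScalarTower.coe_toAlgHom', ← e, ← e']
  have h1 : algebraMap R (FractionRing R) (φ c) ≠ 0 := by simpa using hc
  have h2 : algebraMap R (FractionRing R) (φ c') ≠ 0 := by simpa using hc'
  rw [mul_assoc, mul_assoc, mul_comm (algebraMap R (FractionRing R) (φ c')),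
    mul_div_mul_right _ _ (mul_ne_zero h1 h2)]

end domain

variable [IsDomain S] {n : ℕ} (c : Chart 𝒜 n)

theorem chart_frac (P : Ideal c.O) [hP : P.IsPrime] (x : c.O ⧸ P) : ∃ a b : S,
    ((Ideal.Quotient.mkₐ ℂ P).comp c.dh) b ≠ 0 ∧
      x * ((Ideal.Quotient.mkₐ ℂ P).comp c.dh) b = ((Ideal.Quotient.mkₐ ℂ P).comp c.dh) a := by
  obtain ⟨x, rfl⟩ := Ideal.Quotient.mkₐ_surjective ℂ P x
  obtain ⟨a, i, e⟩ := c.exists_dh x
  refine ⟨a, c.g ^ i, ?_, ?_⟩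
  · rw [map_pow]
    exact pow_ne_zero _ (c.isUnit_g.map (Ideal.Quotient.mkₐ ℂ P)).ne_zero
  · rw [AlgHom.comp_apply, AlgHom.comp_apply, ← map_mul, map_pow, e]

/-- the field `low` of `Filt` for the degree filtration of a chart -/
theorem chart_low (h : Gen1 𝒜) {k : ℕ} (hk : 0 < k) (hr : Root 𝒜 k) (P : Ideal c.O)
    (hP : P.IsPrime) (d : ℕ) (hd : Algebra.trdeg ℂ (c.O ⧸ P) = d) (j : ℕ) (hj : k ^ d ≤ j) :
    k ^ d * (j - k ^ d + d).choose d ≤ Hf c.fil P j := by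
  have := push_low h hk hr ((IsScalarTower.toAlgHom ℂ _ (FractionRing (c.O ⧸ P))).comp
    ((Ideal.Quotient.mkₐ ℂ P).comp c.dh)) c.l.2 (by simp [c.dh_l])
    (frac_frac _ (chart_frac c P)) (trdeg_frac.trans hd) j hj
  rwa [finrank_frac, AlgHom.comp_toLinearMap, map_comp] at this

/-- the field `up` of `Filt` for the degree filtration of a chart -/
theorem chart_up (h : Gen1 𝒜) (hn : Algebra.trdeg ℂ (Fn 𝒜) = n) :
    ∃ C : ℕ, ∀ j, finrank ℂ (c.fil j) ≤ C * (j + 1) ^ n := by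
  obtain ⟨C, hC⟩ := push_up h (deh c.l) c.l.2 (deh_self c.l0)
    (fun x => (frac_deh c.l0 x).imp fun _ h => h.imp fun _ h => h.2) hn
  refine ⟨C, fun j => le_of_eq_of_le ?_ (hC j)⟩
  have e : (𝒜 j).map (deh c.l).toLinearMap = (c.fil j).map c.O.val.toLinearMap := by
    rw [Chart.fil, ← map_comp]
    rfl
  rw [e]
  exact (equivMapOfInjective c.O.val.toLinearMap Subtype.val_injective _).finrank_eq

end Pool.Agent.Lib.MP_9ff3e7_ag.F.X2

namespace Pool.Agent.Lib.MP_9ff3e7_ag.F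

variable {S : Type} [CommRing S] [IsDomain S] [Algebra ℂ S] {𝒜 : ℕ → Submodule ℂ S}
  [GradedAlgebra 𝒜] {n : ℕ}

/-- the degree filtration of a chart with linear coordinates, with `kap = k` -/
noncomputable def Chart.filt (c : Chart 𝒜 n) (h : Gen1 𝒜) (hn : Algebra.trdeg ℂ (Fn 𝒜) = n)
    (A : Cartier 𝒜) {k : ℕ} (hk : 0 < k) (hA : A.Hyperplane k) (hz : ∀ i, c.z i ∈ c.fil 1) :
    Filt n c.O where
  F := c.fil
  fd := c.fil_fin h
  mono := c.fil_mono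
  one := c.fil_one 0
  z1 := hz
  mul := fun _ _ _ _ => c.fil_mul
  exh := fun f => by
    obtain ⟨m, u, h1, h2, h3⟩ := c.fil_unit f
    exact ⟨u, m, h2, h1, h3⟩
  kap := k
  kap1 := hk
  up := X2.chart_up c h hn
  low := fun P hP d hd _ => X2.chart_low c h hk (sec h A hk hA) P hP d hd

section

variable (c : Chart 𝒜 n) (h : Gen1 𝒜) (hn : Algebra.trdeg ℂ (Fn 𝒜) = n)
  (A : Cartier 𝒜) {k : ℕ} (hk : 0 < k) (hA : A.Hyperplane k) (hz : ∀ i, c.z i ∈ c.fil 1)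

@[simp] theorem Chart.filt_F : (c.filt h hn A hk hA hz).F = c.fil := rfl

@[simp] theorem Chart.filt_kap : (c.filt h hn A hk hA hz).kap = k := rfl

end

end Pool.Agent.Lib.MP_9ff3e7_ag.F
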