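import Pool.Agent.Lib.MP_9ff3e7_ag.F.NDefs
import Pool.Agent.Lib.MP_9ff3e7_ag.F.NSDefs
import Pool.Agent.Lib.MP_9ff3e7_ag.F.Push

/-! From the degrees of the subvarieties through `x` to the Hilbert function bounds of a chart. -/

set_option autoImplicit false

namespace Pool.Agent.Lib.MP_9ff3e7_ag.F.X2

open Module Submodule

/-- both bounds for a Hilbert function of dimension `d` and degree `e` -/
def Two (h : ℕ → ℕ) (d e : ℕ) : Prop :=
  (∀ a ≤ e, ∀ j ≥ a, a * (j - a + d).choose d ≤ h j) ∧ ∃ c, ∀ t, h t ≤ e * (t + c + d).choose d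

open Filter Topology in
theorem Two.tendsto {h : ℕ → ℕ} {d e : ℕ} (H : Two h d e) :
    Tendsto (fun j : ℕ => (d.factorial : ℝ) * h j / (j : ℝ) ^ d) atTop (𝓝 e) := by
  obtain ⟨h1, c, h2⟩ := H
  have key : ∀ s : ℝ, Tendsto (fun j : ℕ => (e : ℝ) * (1 + s / j) ^ d) atTop (𝓝 e) := fun s => by
    have := (((tendsto_const_div_atTop_nhds_zero_nat s).const_add 1).pow d).const_mul (e : ℝ)
    simpa using this
  have hf : (0 : ℝ) < d.factorial := by exact_mod_cast d.factorial_pos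
  refine tendsto_of_tendsto_of_tendsto_of_le_of_le' (key (-e)) (key (c + d)) ?_ ?_
  · filter_upwards [eventually_ge_atTop (e + 1)] with j hj
    have j0 : (0 : ℝ) < j := by exact_mod_cast (by omega : 0 < j)
    have a1 : (((j - e + d + 1 - d : ℕ) : ℝ) ^ d) / d.factorial ≤ (j - e + d).choose d :=
      Nat.pow_le_choose d _
    have a2 : (e : ℝ) * (j - e + d).choose d ≤ h j := by exact_mod_cast h1 e le_rfl j (by omega)
    have a3 : (j : ℝ) - e ≤ ((j - e + d + 1 - d : ℕ) : ℝ) := by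
      have : j ≤ (j - e + d + 1 - d) + e := by omega
      have : (j : ℝ) ≤ ((j - e + d + 1 - d : ℕ) : ℝ) + e := by exact_mod_cast this
      linarith
    have a4 : (0 : ℝ) ≤ (j : ℝ) - e := by
      have : (e : ℝ) ≤ j := by exact_mod_cast (by omega : e ≤ j)
      linarith
    rw [div_le_iff₀ hf] at a1
    have a5 := (pow_le_pow_left₀ a4 a3 d).trans a1
    rw [le_div_iff₀ (by positivity), mul_assoc, ← mul_pow,
      show (1 + -(e : ℝ) / j) * j = j - e by field_simp; ring]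
    calc _ ≤ (e : ℝ) * (((j - e + d).choose d : ℝ) * d.factorial) := by gcongr
      _ = d.factorial * (e * (j - e + d).choose d) := by ring
      _ ≤ _ := by gcongr
  · filter_upwards [eventually_ge_atTop 1] with j hj
    have j0 : (0 : ℝ) < j := by exact_mod_cast (by omega : 0 < j)
    have a1 : ((j + c + d).choose d : ℝ) ≤ ((j + c + d : ℕ) : ℝ) ^ d / d.factorial := by
      exact_mod_cast Nat.choose_le_pow_div (α := ℝ) d (j + c + d)
    have a2 : (h j : ℝ) ≤ e * (j + c + d).choose d := by exact_mod_cast h2 j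
    rw [le_div_iff₀ hf] at a1
    rw [div_le_iff₀ (by positivity), mul_assoc, ← mul_pow,
      show (1 + ((c : ℝ) + d) / j) * j = ((j + c + d : ℕ) : ℝ) by push_cast; field_simp; ring]
    calc _ ≤ (d.factorial : ℝ) * (e * (j + c + d).choose d) := by gcongr
      _ = e * (((j + c + d).choose d : ℝ) * d.factorial) := by ring
      _ ≤ _ := by gcongr

section field

variable {L : Type} [Field L] [Algebra ℂ L]

theorem low_dvd (E : Submodule ℂ L) [FiniteDimensional ℂ E] (h1 : (1 : L) ∈ E)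
    (hgen : IntermediateField.adjoin ℂ (E : Set L) = ⊤)
    {k b : ℕ} (hk : 0 < k) (hkb : Nat.Coprime k b) {γ : L} (hγ : γ ≠ 0)
    {ι : Type} [Finite ι] (u : ι → L) (hu1 : ∃ l, u l = 1) (hu : ∀ i, γ * u i ^ k ∈ E ^ b)
    (hM : ∃ M : ℕ, E ^ (M + b) ≤ span ℂ (Set.range fun i => γ * u i ^ k) * E ^ M)
    {d : ℕ} (hd : Algebra.trdeg ℂ L = d) :
    ∃ a, 0 < a ∧ Two (fun j => finrank ℂ (E ^ j : Submodule ℂ L)) d (k ^ d * a) := by
  obtain ⟨M, hM⟩ := hM
  obtain ⟨e, c, he, hlow, hup⟩ := hilb' E h1 hgen hd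
  have := fd_B E u
  set B := span ℂ (Set.range u) * E with hB
  have hU1 : (1 : L) ∈ span ℂ (Set.range u) := by
    obtain ⟨l, hl⟩ := hu1; exact subset_span ⟨l, hl⟩
  have hEB : E ≤ B := fun x hx => by simpa using mul_mem_mul hU1 hx
  have hgenB : IntermediateField.adjoin ℂ (B : Set L) = ⊤ :=
    top_le_iff.1 (hgen ▸ IntermediateField.adjoin.mono _ _ _ hEB)
  obtain ⟨e', c', -, hlow', hup'⟩ := hilb' B (hEB h1) hgenB hd
  obtain ⟨c1, hc1⟩ := cmp_up E u h1 hgen hk hγ hu1 hu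
  have ha : 0 < b + k := by omega
  have i1 : e * (b + k) ^ d ≤ e' * k ^ d := by
    refine lead_le (c := e) (c' := M + c') ha fun m hm => ?_
    refine (hlow e le_rfl _ (hm.trans (Nat.le_mul_of_pos_left m ha))).trans ?_
    refine (cmp_down E u h1 hγ hu1 hM m).trans ?_
    simpa [add_assoc] using hup' (k * m + M)
  have i2 : e' * k ^ d ≤ e * (b + k) ^ d := by
    refine lead_le (c := e') (c' := c1 + c) hk fun m hm => ?_
    refine (hlow' e' le_rfl _ (hm.trans (Nat.le_mul_of_pos_left m hk))).trans ?_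
    refine (hc1 m).trans ?_
    simpa [add_assoc] using hup ((b + k) * m + c1)
  have hco : Nat.Coprime (k ^ d) ((b + k) ^ d) :=
    Nat.Coprime.pow d d ((Nat.coprime_add_self_right).2 hkb)
  obtain ⟨a, rfl⟩ : k ^ d ∣ e :=
    hco.dvd_of_dvd_mul_right ⟨e', by rw [le_antisymm i1 i2, mul_comm]⟩
  exact ⟨a, Nat.pos_of_mul_pos_left he, hlow, c, hup⟩

variable {S : Type} [CommRing S] [Algebra ℂ S] {𝒜 : ℕ → Submodule ℂ S} [GradedAlgebra 𝒜]

theorem push_dvd [IsDomain S] (h : Gen1 𝒜) {k : ℕ} (hk : 0 < k) (hr : Root 𝒜 k) (φ : S →ₐ[ℂ] L)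
    {l : S} (hl : l ∈ 𝒜 1) (hl1 : φ l = 1) (hfr : ∀ x : L, ∃ a c : S, x = φ a / φ c) {d : ℕ}
    (hd : Algebra.trdeg ℂ L = d) :
    ∃ a, 0 < a ∧ Two (fun j => finrank ℂ ((𝒜 j).map φ.toLinearMap)) d (k ^ d * a) := by
  obtain ⟨b, r, g, hkb, hg, ⟨M, hM⟩, hq⟩ := hr
  have := gen_fd h
  have := gen_ft h
  have h1 : (1 : L) ∈ (𝒜 1).map φ.toLinearMap := ⟨l, hl, hl1⟩
  have hM' : (𝒜 1).map φ.toLinearMap ^ (M + b) ≤
      span ℂ (Set.range fun i => φ (g i)) * (𝒜 1).map φ.toLinearMap ^ M := by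
    rw [← map_eq h, ← map_eq h]
    refine (map_mono hM).trans ?_
    rw [Submodule.map_mul, map_span, ← Set.range_comp]
    exact le_rfl
  obtain ⟨i0, hi0⟩ : ∃ i, φ (g i) ≠ 0 := by
    by_contra hn
    push Not at hn
    have h2 : span ℂ (Set.range fun i => φ (g i)) = ⊥ := by
      rw [span_eq_bot]
      rintro _ ⟨i, rfl⟩
      exact hn i
    rw [h2, bot_mul] at hM'
    simpa using hM' (by simpa using pow_mem_pow _ h1 (M + b) : (1 : L) ∈ _)
  have hu : ∀ i, ∃ u : L, φ (g i0) * u ^ k = φ (g i) ∧ (i = i0 → u = 1) := by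
    intro i
    by_cases e : i = i0
    · exact ⟨1, by simp [e], fun _ => rfl⟩
    by_cases hi : φ (g i) = 0
    · exact ⟨0, by simp [hi, hk.ne'], fun e' => (e e').elim⟩
    have : (RingHom.ker φ).IsPrime := RingHom.ker_isPrime φ
    obtain ⟨y, hy, hy'⟩ := exists_pt_of_notMem_prime (RingHom.ker φ) (f := g i * g i0)
      (by simp [RingHom.mem_ker, hi, hi0])
    have hyl : y l = 1 := by
      have := hy (l - 1) (by simp [RingHom.mem_ker, hl1])
      rwa [map_sub, map_one, sub_eq_zero] at this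
    rw [map_mul, mul_ne_zero_iff] at hy'
    obtain ⟨m, a, -, c, -, hc, e'⟩ := hq i i0 ⟨y, l, hl, by simp [hyl]⟩ hy'.1 hy'.2
    have hc' : φ c ≠ 0 := fun e => hc (hy c e)
    refine ⟨φ a / φ c, ?_, fun e' => (e e').elim⟩
    have := congrArg φ e'
    simp only [map_mul, map_pow] at this
    rw [div_pow, ← mul_div_assoc, div_eq_iff (pow_ne_zero _ hc'), this, mul_comm]
  choose u hu hu1 using hu
  have e : (fun j => finrank ℂ ((𝒜 j).map φ.toLinearMap)) =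
      fun j => finrank ℂ ((𝒜 1).map φ.toLinearMap ^ j : Submodule ℂ L) :=
    funext fun j => by rw [map_eq h]
  rw [e]
  refine low_dvd _ h1 (adj_top h φ hfr) hk hkb hi0 u ⟨i0, hu1 i0 rfl⟩ (fun i => ?_) ⟨M, ?_⟩ hd
  · rw [hu, ← map_eq h]
    exact ⟨g i, hg i, rfl⟩
  · simpa only [hu] using hM'

end field

theorem finrank_map_eq {V A B : Type} [AddCommGroup V] [Module ℂ V] [AddCommGroup A] [Module ℂ A]
    [AddCommGroup B] [Module ℂ B] (W : Submodule ℂ V) [FiniteDimensional ℂ W] (f : V →ₗ[ℂ] A)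
    (g : V →ₗ[ℂ] B) (h : ∀ a ∈ W, f a = 0 ↔ g a = 0) :
    finrank ℂ (W.map f) = finrank ℂ (W.map g) := by
  have h1 := LinearMap.finrank_range_add_finrank_ker (f.domRestrict W)
  have h2 := LinearMap.finrank_range_add_finrank_ker (g.domRestrict W)
  have e : LinearMap.ker (f.domRestrict W) = LinearMap.ker (g.domRestrict W) := by
    ext a
    simpa using h a a.2
  rw [LinearMap.range_domRestrict] at h1 h2
  rw [e] at h1
  omega

variable {S : Type} [CommRing S] [IsDomain S] [Algebra ℂ S] {𝒜 : ℕ → Submodule ℂ S}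
  [GradedAlgebra 𝒜] {n : ℕ} (c : Chart 𝒜 n)

theorem chart_dvd (h : Gen1 𝒜) {k : ℕ} (hk : 0 < k) (hr : Root 𝒜 k) (P : Ideal c.O)
    (hP : P.IsPrime) (d : ℕ) (hd : Algebra.trdeg ℂ (c.O ⧸ P) = d) :
    ∃ a, 0 < a ∧ Two (Hf c.fil P) d (k ^ d * a) := by
  obtain ⟨a, ha, H⟩ := push_dvd h hk hr ((IsScalarTower.toAlgHom ℂ _ (FractionRing (c.O ⧸ P))).comp
    ((Ideal.Quotient.mkₐ ℂ P).comp c.dh)) c.l.2 (by simp [c.dh_l])
    (frac_frac _ (chart_frac c P)) (trdeg_frac.trans hd)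
  refine ⟨a, ha, (congrArg (fun h => Two h d (k ^ d * a)) (funext fun j => ?_)).mp H⟩
  rw [finrank_frac, AlgHom.comp_toLinearMap, map_comp]
  rfl

/-- the homogeneous ideal of the closure of a subvariety of a chart -/
theorem chart_ideal (h : Gen1 𝒜) (P : Ideal c.O) (hP : P.IsPrime) {x : Pt 𝒜} (hx : c.In x)
    (hPx : ∀ s ∈ P, c.pt hx s = 0) : ∃ I : Ideal S, I.IsPrime ∧ I.IsHomogeneous 𝒜 ∧
      (∀ a ∈ I, x.1 a = 0) ∧ hilbFn 𝒜 I = Hf c.fil P := by
  classical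
  have hQ : (P.comap c.dh).IsPrime := Ideal.comap_isPrime _ _
  let I := (P.comap c.dh).homogeneousCore 𝒜
  have hI : ∀ j, ∀ a ∈ 𝒜 j, a ∈ I.toIdeal ↔ c.dh a ∈ P := fun j a ha =>
    ⟨fun h => Ideal.toIdeal_homogeneousCore_le 𝒜 _ h,
      fun h => Ideal.mem_homogeneousCore_of_homogeneous_of_mem ⟨j, ha⟩ h⟩
  refine ⟨I.toIdeal, hQ.homogeneousCore, I.isHomogeneous, fun a ha => ?_, funext fun j => ?_⟩
  · rw [← DirectSum.sum_support_decompose 𝒜 a, map_sum]
    refine Finset.sum_eq_zero fun j _ => ?_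
    have h1 := hPx _ ((hI j _ (DirectSum.decompose 𝒜 a j).2).1 (I.isHomogeneous j ha))
    rw [c.pt_dh hx (DirectSum.decompose 𝒜 a j).2] at h1
    exact (div_eq_zero_iff.1 h1).resolve_right (pow_ne_zero _ hx.1)
  · have : FiniteDimensional ℂ (𝒜 j) := Module.Finite.iff_fg.2 (h.fg j)
    rw [hilbFn, Hf, Chart.fil, ← map_comp]
    refine finrank_map_eq _ _ _ fun a ha => ?_
    simpa [Ideal.Quotient.eq_zero_iff_mem] using hI j a ha

end Pool.Agent.Lib.MP_9ff3e7_ag.F.X2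

namespace Pool.Agent.Lib.MP_9ff3e7_ag.F

variable {S : Type} [CommRing S] [IsDomain S] [Algebra ℂ S] {𝒜 : ℕ → Submodule ℂ S}
  [GradedAlgebra 𝒜]

/-- (N5) the hypothesis is only needed for degrees of the form `k ^ d * a` -/
theorem chart_numHyp {n : ℕ} (c : Chart 𝒜 n) (h : Gen1 𝒜) {k : ℕ} (hk : 0 < k)
    (hr : X2.Root 𝒜 k) (T : Filt n c.O) (hT : T.F = c.fil)
    {x : Pt 𝒜} (hx : c.In x) (κ : ℕ → ℝ) (h1 : 0 < κ 1)
    (hm : ∀ d d', 1 ≤ d → d ≤ d' → d' ≤ n → κ d ≤ κ d')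
    (hdeg : ∀ I : Ideal S, I.IsPrime → I.IsHomogeneous 𝒜 → (∀ a ∈ I, x.1 a = 0) →
      ∀ d a : ℕ, 1 ≤ d → d ≤ n → HasDeg 𝒜 I d ((k ^ d * a : ℕ) : ℝ) → κ d ^ d ≤ (k ^ d * a : ℕ)) :
    NumHyp T (c.pt hx) κ fun d => ⌈κ d ^ d⌉₊ where
  pos := h1
  mono := hm
  pow d _ _ := Nat.le_ceil _
  low P hP hPx d hd d1 dn j hj := by
    obtain ⟨a, ha, H⟩ := X2.chart_dvd c h hk hr P hP d hd
    obtain ⟨I, i1, i2, i3, i4⟩ := X2.chart_ideal c h P hP hx hPx
    have := hdeg I i1 i2 i3 d a d1 dn ⟨by positivity, by rw [i4]; exact H.tendsto⟩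
    rw [hT]
    exact H.1 _ (Nat.ceil_le.2 this) j hj
  up P hP d hd := by
    obtain ⟨a, -, -, b, H⟩ := X2.chart_dvd c h hk hr P hP d hd
    refine ⟨k ^ d * a * (b + d + 1) ^ d, fun j => ?_⟩
    rw [hT]
    refine (H j).trans ?_
    rw [mul_assoc _ _ ((j + 1) ^ d), ← mul_pow]
    gcongr
    refine (Nat.choose_le_pow _ _).trans (Nat.pow_le_pow_left ?_ d)
    nlinarith

end Pool.Agent.Lib.MP_9ff3e7_ag.F
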