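import Pool.Agent.Lib.MP_9ff3e7_ag.F.MainIneq
import Pool.Agent.Lib.MP_9ff3e7_ag.F.NDefs

/-! The main inequality with each series weighted by the dimension of its centre. -/

set_option autoImplicit false

namespace Pool.Agent.Lib.MP_9ff3e7_ag.F

open Module Finset Finsupp Filter

section

variable {n : ℕ} {O : Type} [CommRing O] [Algebra ℂ O] [Algebra (MvPolynomial (Fin n) ℂ) O]

theorem main_abs3 [IsScalarTower ℂ (MvPolynomial (Fin n) ℂ) O] {M : Model n O} (hK : KAx0 M)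
    (Fi : Filt n O) (x : Pnt O) {j L : ℕ} {k N : ℕ → ℕ} {c : ℕ → ℝ} {P : ℕ → Ideal O}
    {G : ℕ → ℕ → Submodule ℂ O} {nb : ℕ → ℕ → ℕ} {a : ℕ → ℕ → ℕ → ℝ} {g eps dl : ℕ → ℝ} {δ : ℝ}
    {κ : ℕ → ℝ} {e D : ℕ → ℕ} (hNum : NumHyp Fi x κ e) (hD : ∀ i < L, 1 ≤ D i)
    (hnum : Num j L N c P (fun i r => Ideal.span (G i r : Set O)) nb a g eps)
    (hP : (P j).IsPrime) (hPx : ∀ s ∈ P j, x s = 0) (hne : 1 ≤ dm (P j))
    (h3 : ∀ y : Pnt O, (∀ s ∈ P j, y s = 0) →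
      I3At (M.Klt y) j N P (fun i r => Ideal.span (G i r : Set O)) a g)
    (hN : ∀ i < L, N i = Hf Fi.F (P i) (k i))
    (hG0 : ∀ i < L, G i 0 = Fi.F (k i))
    (hGN : ∀ i < L, G i (N i) = Fi.F (k i) ⊓ (P i).restrictScalars ℂ)
    (hanti : ∀ i < L, ∀ r r', r ≤ r' → r' ≤ N i → G i r' ≤ G i r)
    (hblk : ∀ i < L, ∀ r < N i, ∀ r', r ≤ r' → r' < nb i r → G i r' = G i r ∧ nb i r' = nb i r)
    (hbrk : ∀ i < L, ∀ r < N i, finrank ℂ (G i (nb i r)) + nb i r = finrank ℂ (Fi.F (k i)))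
    (hgood : ∀ i < L, Gd3 n κ e δ (D i) (Hf Fi.F (P i)) (k i))
    (h1 : ∀ ρ : ℝ, 0 < ρ → ρ < 1 → ∀ᶠ y in nhd x, ∀ F : ℕ → ℕ → Submodule ℂ O,
      (∀ i < L, F i 0 = Fi.F (k i) ∧
        (∀ r, N i ≤ r → F i r = Fi.F (k i) ⊓ (P i).restrictScalars ℂ) ∧ Antitone (F i) ∧
        (∀ r ≤ N i, finrank ℂ (F i r) + r = finrank ℂ (Fi.F (k i))) ∧
        ∀ r ≤ N i, finrank ℂ (G i r) + r = finrank ℂ (Fi.F (k i)) → F i r = G i r) →
      M.Klt y (∑ i ∈ range L, ∑ r ∈ range (N i),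
        single (Ideal.span (F i r : Set O)) (ρ * c i)))
    (hδ : 0 < δ) (hδ1 : δ ≤ 1) (hdl : ∀ i < L, 0 < dl i)
    (I5 : ∀ m, 1 ≤ m → m ≤ j → ∀ i < L, i ≤ m →
      4 * (3 * eps m / g m) * (k i * N i) ≤ δ * dl i) :
    (1 - δ) ^ 2 * κ (dm (P j)) * ∑ i ∈ (range L).filter (fun i => dl i ≤ c i * (k i * N i)),
      c i * ((k i : ℝ) * N i - ∑ t ∈ range (k i), (Hf Fi.F (P i) t : ℝ)) / D i ≤ 1 := by
  classical
  have := hK.ft
  have : Algebra.IsStandardEtale (MvPolynomial (Fin n) ℂ) O := ⟨⟨M.E⟩⟩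
  obtain ⟨ρ, hρ0, hρ1, hst⟩ := star hnum hδ hδ1 k dl hdl I5
  let q : ℕ → ℕ → Ideal O × Ideal O := fun i r =>
    (Ideal.span (G i r : Set O), Ideal.span (G i (nb i r) : Set O))
  let T : Finset (Ideal O × Ideal O) := (range L).biUnion fun i => (range (N i)).image (q i)
  have hqT : ∀ i < L, ∀ r < N i, q i r ∈ T := fun i hi r hr =>
    mem_biUnion.2 ⟨i, mem_range.2 hi, mem_image_of_mem _ (mem_range.2 hr)⟩
  obtain ⟨d, J, h, rk, htr, hh, hb⟩ := main_b (zc n O) (fun _ => rfl) (P j) T (by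
    intro p hp
    obtain ⟨i, hi, hp⟩ := mem_biUnion.1 hp
    obtain ⟨r, hr, rfl⟩ := mem_image.1 hp
    exact Ideal.span_mono (hanti i (mem_range.1 hi) r _
      (hnum.nb1 i (mem_range.1 hi) r (mem_range.1 hr)).le
      (hnum.nb2 i (mem_range.1 hi) r (mem_range.1 hr))))
  obtain ⟨y, ⟨hyP, hyh⟩, hyK⟩ :=
    ((hK.dense x (P j) h hP hPx hh).and_eventually (h1 ρ hρ0 hρ1)).exists
  obtain ⟨io, ph, hio, hz, hcc, hph⟩ := hb y hyP hyh
  have hdm : dm (P j) = d := by rw [dm, htr, Cardinal.toNat_natCast]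
  have hd1 : 1 ≤ d := hdm ▸ hne
  rw [hdm]
  have hdn : d ≤ n := by simpa using Fintype.card_le_of_embedding J
  have hd0 : (0 : ℝ) < d := by exact_mod_cast hd1
  have hfl : ∀ i, ∃ (F : ℕ → Submodule ℂ O) (τ : ℕ → ℕ), i < L →
      (F 0 = Fi.F (k i) ∧ (∀ r, N i ≤ r → F r = Fi.F (k i) ⊓ (P i).restrictScalars ℂ) ∧
        Antitone F ∧ (∀ r ≤ N i, finrank ℂ (F r) + r = finrank ℂ (Fi.F (k i))) ∧
        ∀ r ≤ N i, finrank ℂ (G i r) + r = finrank ℂ (Fi.F (k i)) → F r = G i r) ∧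
      (∀ r < N i, F r ≤ G i r) ∧
      (∀ r < N i, ∀ s ∈ Ideal.span (F r : Set O), ∀ l,
        (τ r : ℕ∞) ≤ (ph (q i r) s l).order) ∧
      (1 - δ) * ((d : ℝ) * κ d *
        ((k i : ℝ) * N i - ∑ t ∈ range (k i), (Hf Fi.F (P i) t : ℝ))) / D i ≤
        ∑ r ∈ range (N i), (τ r : ℝ) := by
    intro i
    by_cases hi : i < L
    swap
    · exact ⟨fun _ => ⊥, fun _ => 0, fun h => absurd h hi⟩
    have := Fi.fd (k i)
    have hn0 : (0 : ℝ) < D i := by exact_mod_cast hD i hi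
    have hH := Hf_add_finrank_inf Fi.F (P i) (k i)
    obtain ⟨F, τ, f1, f2, f3, f4, f5, f6, f7, f8⟩ := lead Fi (P i) (P j) (k i) (N i) (G i) (nb i)
      (hG0 i hi) (hGN i hi) (by rw [hGN i hi, hN i hi]; omega) (hanti i hi) (hnum.nb1 i hi)
      (hnum.nb2 i hi) (hblk i hi) (hbrk i hi) J y io hio hz (fun r => ph (q i r))
      (fun r hr r' h1 h2 => by
        obtain ⟨e1, e2⟩ := hblk i hi r hr r' h1 h2
        simp only [q, e1, e2])
      (fun r hr s hs => (hph _ (hqT i hi r hr)).1 s (Ideal.subset_span hs))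
      (fun r hr s hs f => (hph _ (hqT i hi r hr)).2.1 s (Ideal.subset_span hs) f)
      ((1 - δ) * ((d : ℝ) * κ d *
        ((k i : ℝ) * N i - ∑ t ∈ range (k i), (Hf Fi.F (P i) t : ℝ))) / D i)
      (fun ι Q S Gm s1 s2 s3 s4 => by
        rw [div_le_iff₀' hn0, hN i hi]
        exact hgood i hi d hd1 hdn ι Q S Gm s1 s2
          (fun t ht => by rw [s3]; exact hNum.low (P j) hP hPx d htr hd1 hdn t ht) s4)
    exact ⟨F, τ, fun _ => ⟨⟨f1, fun r hr => (f2 r hr).trans (hGN i hi), f3, f4, f5⟩, f6, f7, f8⟩⟩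
  choose F τ hF using hfl
  have hmz : Ideal.span (Set.range fun t => zc n O (J t) - algebraMap ℂ O (y (zc n O (J t)))) =
      mzJ n y (univ.map J) := by
    unfold mzJ
    congr 1
    ext s
    simp
  have key := hst (M.Klt y) (LeAt y) (hK.calc y) (h3 y hyP)
    (fun i r => Ideal.span (F i r : Set O)) (mzJ n y (univ.map J)) d τ
    (fun t _ ht => by
      have := hK.k3 y (univ.map J) t ⟨J ⟨0, hd1⟩, mem_map_of_mem _ (mem_univ _)⟩ ht
      simpa using this)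
    (fun i hi r hr => by
      obtain ⟨u, hu, h⟩ := (hph _ (hqT i hi r hr)).2.2 (τ i r)
      refine ⟨u, hu, fun s hs => ?_⟩
      rw [← hmz]
      exact h s (Ideal.span_mono ((hF i hi).2.1 r hr) hs) ((hF i hi).2.2.1 r hr s hs))
    (hyK F fun i hi => (hF i hi).1)
  have h5 : (d : ℝ) * ((1 - δ) ^ 2 * κ d *
      ∑ i ∈ (range L).filter (fun i => dl i ≤ c i * (k i * N i)),
        c i * ((k i : ℝ) * N i - ∑ t ∈ range (k i), (Hf Fi.F (P i) t : ℝ)) / D i) ≤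
      ∑ i ∈ (range L).filter (fun i => dl i ≤ c i * (k i * N i)),
        (1 - δ) * c i * ∑ r ∈ range (N i), (τ i r : ℝ) := by
    rw [Finset.mul_sum, Finset.mul_sum]
    refine sum_le_sum fun i hi => ?_
    have hi' := mem_range.1 (mem_filter.1 hi).1
    have h6 := mul_le_mul_of_nonneg_left (hF i hi').2.2.2
      (mul_nonneg (sub_nonneg.2 hδ1) (hnum.c0 i hi'))
    calc _ = (1 - δ) * c i * ((1 - δ) * ((d : ℝ) * κ d *
          ((k i : ℝ) * N i - ∑ t ∈ range (k i), (Hf Fi.F (P i) t : ℝ))) / D i) := by ring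
      _ ≤ _ := h6
  refine le_of_mul_le_mul_left (h5.trans ?_) hd0
  rw [mul_one]
  exact key.le

end

variable {n : ℕ} {O : Type} [CommRing O] [IsDomain O] [Algebra ℂ O]
  [Algebra (MvPolynomial (Fin n) ℂ) O] [IsScalarTower ℂ (MvPolynomial (Fin n) ℂ) O]
  {M : Model n O} {T : Filt n O} {x : Pnt O} {S : Dat O} {c eps : ℕ → ℝ} {j : ℕ}
  {κ : ℕ → ℝ} {e : ℕ → ℕ} {δ : ℝ}

theorem main_ineq3 (hK : KAx M) (hN : NumHyp T x κ e) (h : Inv M T x S c eps j (j + 1))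
    (hδ : 0 < δ) (hδ1 : δ ≤ 1)
    (h3 : ∀ i < j + 1, Gd3 n κ e δ (dm (S.P i)) (Hf T.F (S.P i)) (S.k i))
    (d1 : ∀ i < j + 1, 1 ≤ dm (S.P i))
    (I5 : ∀ m, 1 ≤ m → m ≤ j → ∀ i < j + 1, i ≤ m →
      4 * (3 * eps m / S.g m) * (S.k i * S.N i) ≤ δ * (δ / 2 ^ i)) :
    (1 - δ) ^ 2 * κ (dm (S.P j)) *
      ∑ i ∈ (range (j + 1)).filter (fun i => δ / 2 ^ i ≤ c i * (S.k i * S.N i)),
        c i * S.Deg T i / dm (S.P i) ≤ 1 := by
  have hS : Ser T S (j + 1) := h.toShp.toSer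
  refine main_abs3 hK.toKAx0 T x (G := S.Gs) (nb := S.nb) (dl := fun i => δ / 2 ^ i)
    (D := fun i => dm (S.P i)) hN d1 h.num h.prime h.Px (d1 j (Nat.lt_succ_self j))
    h.I3 h.hN (fun i hi => by rw [Dat.Gs, pb_zero, (h.flag i hi).top]) (fun i hi => hS.Gs_N hi)
    (fun i hi r r' h1 h2 => (h.flag i hi).anti _ _ (pb_mono _ h1) ((pb_le _ _).trans h2))
    (fun i hi r hr r' h1 h2 => ⟨by
      rw [Dat.Gs, Dat.Gs, pb_eq_of_lt_nb (h.br0 i hi) ((pb_le _ _).trans h1) h2],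
      nb_eq_of_lt_nb (h.brN i hi) hr ((pb_le _ _).trans h1) h2⟩)
    (fun i hi r hr => by
      rw [Dat.Gs, Dat.nb, pb_nb (h.brN i hi) hr]
      exact (h.flag i hi).dim _ (nb_le (h.brN i hi) hr))
    h3 (fun ρ h0 h1 => ?_) hδ hδ1 (fun i _ => by positivity) I5
  refine (main_a hK hS h.c0 h.i1 h0 h1).mono fun y hy F hF => hy F fun i hi => ?_
  obtain ⟨f1, f2, f3, f4, f5⟩ := hF i hi
  refine ⟨⟨f1, f2 _ le_rfl, fun r r' h _ => f3 h, f4⟩, fun r hr => ?_⟩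
  have e1 : S.Gs i r = S.F0 i r := by rw [Dat.Gs, pb_eq_self hr]
  rw [← e1]
  refine f5 r (h.brle i hi r hr) ?_
  rw [e1]
  exact (h.flag i hi).dim r (h.brle i hi r hr)

end Pool.Agent.Lib.MP_9ff3e7_ag.F
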