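import Pool.Agent.Lib.MP_9ff3e7_ag.F.NSDefs

/-! Sections of adjoint bundles over the smooth locus. -/

set_option autoImplicit false

namespace Pool.Agent.Lib.MP_9ff3e7_ag.F

variable {S : Type} [CommRing S] [IsDomain S] [Algebra ℂ S] (𝒜 : ℕ → Submodule ℂ S)

/-- the smooth points of `X` -/
def Sm : Type := {p : Pt 𝒜 // SmoothIn (loc p)}

variable {𝒜}

/-- `K_X + mA` has a section over the smooth locus that generates the stalk at `x` -/
def Cartier.FreeSm (A : Cartier 𝒜) (n m : ℕ) (x : Sm 𝒜) : Prop :=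
  FreeIn n (fun p : Sm 𝒜 => loc p.1) (fun p => A.eqn p.1 ^ m) x

end Pool.Agent.Lib.MP_9ff3e7_ag.F
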