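import Mathlib

/-! The next centre: a minimal prime over the ideal of the stable non klt locus. -/

set_option autoImplicit false

namespace Pool.Agent.Lib.MP_9ff3e7_ag.F

open Finsupp

variable {O : Type} [CommRing O] [Algebra ℂ O]

/-- the ideal of functions vanishing on a set of points -/
def vanI (W : Set (O →ₐ[ℂ] ℂ)) : Ideal O := ⨅ y ∈ W, RingHom.ker y

theorem mem_vanI {W : Set (O →ₐ[ℂ] ℂ)} {f : O} : f ∈ vanI W ↔ ∀ y ∈ W, y f = 0 := by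
  simp [vanI, RingHom.mem_ker]

theorem vanI_anti {W W' : Set (O →ₐ[ℂ] ℂ)} (h : W ⊆ W') : vanI W' ≤ vanI W :=
  fun _ hf => mem_vanI.2 fun y hy => mem_vanI.1 hf y (h hy)

/-- adding a pair all of whose ideals are trivial at `y` keeps klt -/
theorem unit_add {K : (Ideal O →₀ ℝ) → Prop} {y : O →ₐ[ℂ] ℂ}
    (unit : ∀ D a c, 0 ≤ D → 0 ≤ c → (∃ s ∈ a, y s ≠ 0) → K D → K (D + single a c))
    (D2 : Ideal O →₀ ℝ) (h2 : 0 ≤ D2) (hs : ∀ a ∈ D2.support, ∃ s ∈ a, y s ≠ 0)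
    (D : Ideal O →₀ ℝ) (hD : 0 ≤ D) (hK : K D) : K (D + D2) := by
  classical
  have key : ∀ s : Finset (Ideal O), s ⊆ D2.support → K (D + ∑ a ∈ s, single a (D2 a)) := by
    intro s
    induction s using Finset.induction_on with
    | empty => intro _; simpa using hK
    | insert a s ha ih =>
      intro hsub
      rw [Finset.sum_insert ha, add_comm (single a (D2 a)), ← add_assoc]
      exact unit _ _ _ (add_nonneg hD (Finset.sum_nonneg fun a _ => single_nonneg.2 (h2 a))) (h2 a)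
        (hs a (hsub (Finset.mem_insert_self _ _)))
        (ih fun b hb => hsub (Finset.mem_insert_of_mem hb))
  have := key _ subset_rfl
  rwa [show ∑ a ∈ D2.support, single a (D2 a) = D2 from D2.sum_single] at this

theorem next_prime [IsNoetherianRing O] (K : (O →ₐ[ℂ] ℂ) → (Ideal O →₀ ℝ) → Prop)
    (drop : ∀ y D D', 0 ≤ D' → D' ≤ D → K y D → K y D')
    (unit : ∀ y D a c, 0 ≤ D → 0 ≤ c → (∃ s ∈ a, y s ≠ 0) → K y D → K y (D + single a c))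
    (zar : ∀ p D, 0 ≤ D → K p D → ∃ f, p f ≠ 0 ∧ ∀ y : O →ₐ[ℂ] ℂ, y f ≠ 0 → K y D)
    (x : O →ₐ[ℂ] ℂ) {D1 D2 : Ideal O →₀ ℝ} (h1 : 0 ≤ D1) (h2 : 0 ≤ D2) (T : Ideal O)
    (hT : ∀ a ∈ D2.support, T ≤ a) {ρ0 : ℝ} (hρ : 1 < ρ0) (hK : K x (ρ0 • D1))
    (hN : ∀ η : ℝ, 0 < η → ¬ K x ((1 + η) • (D1 + D2))) :
    ∃ (η0 : ℝ) (Q : Ideal O), 0 < η0 ∧ Q.IsPrime ∧ (∀ s ∈ Q, x s = 0) ∧
      Q ∈ (vanI {y | ¬ K y ((1 + η0) • (D1 + D2))}).minimalPrimes ∧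
      (∀ η : ℝ, 0 < η → η ≤ η0 → ∀ y : O →ₐ[ℂ] ℂ, (∀ s ∈ Q, y s = 0) →
        ¬ K y ((1 + η) • (D1 + D2))) ∧ T ≤ Q := by
  have h12 : 0 ≤ D1 + D2 := add_nonneg h1 h2
  set W : ℝ → Set (O →ₐ[ℂ] ℂ) := fun η => {y | ¬ K y ((1 + η) • (D1 + D2))} with hW
  have Wm : ∀ η η', 0 < η → η ≤ η' → W η ⊆ W η' := fun η η' h0 hle y hy hk =>
    hy (drop y _ _ (smul_nonneg (by linarith) h12)
      (smul_le_smul_of_nonneg_right (by linarith) h12) hk)
  obtain ⟨I, ⟨η0, ⟨hη0, hη1⟩, rfl⟩, hmax⟩ := set_has_maximal_iff_noetherian.2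
    (inferInstance : IsNoetherian O O) ((fun η => vanI (W η)) '' {η | 0 < η ∧ η ≤ ρ0 - 1})
    ⟨_, ρ0 - 1, ⟨by linarith, le_rfl⟩, rfl⟩
  have hx : vanI (W η0) ≤ RingHom.ker x := fun f hf => mem_vanI.1 hf x (hN η0 hη0)
  have : (RingHom.ker x).IsPrime := RingHom.ker_isPrime _
  obtain ⟨Q, hQ, hQx⟩ := Ideal.exists_minimalPrimes_le hx
  have hQp : Q.IsPrime := hQ.1.1
  refine ⟨η0, Q, hη0, hQp, fun s hs => hQx hs, hQ, fun η h0 hle y hy hk => ?_, fun s hs => ?_⟩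
  · obtain ⟨f, hf, hf'⟩ := zar y _ (smul_nonneg (by linarith) h12) hk
    have f1 : f ∈ vanI (W η) := mem_vanI.2 fun y' hy' => by
      by_contra hne; exact hy' (hf' y' hne)
    have heq : vanI (W η0) = vanI (W η) := by
      by_contra hne
      exact hmax _ ⟨η, ⟨h0, by linarith⟩, rfl⟩
        (lt_of_le_of_ne (vanI_anti (Wm η η0 h0 hle)) hne)
    exact hf (hy f (hQ.1.2 (heq ▸ f1)))
  · have p0 : (0 : ℝ) ≤ 1 + η0 := by linarith
    obtain ⟨f, hf, hf'⟩ := zar x _ (smul_nonneg p0 h1) (drop x _ _ (smul_nonneg p0 h1)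
      (smul_le_smul_of_nonneg_right (by linarith) h1) hK)
    have f1 : f * s ∈ vanI (W η0) := mem_vanI.2 fun y hy => by
      by_contra hne'
      have hne := mul_ne_zero_iff.1 (show y f * y s ≠ 0 by rwa [map_mul] at hne')
      refine hy ?_
      rw [smul_add]
      exact unit_add (unit y) _ (smul_nonneg p0 h2)
        (fun a ha => ⟨s, hT a (support_smul ha) hs, hne.2⟩) _ (smul_nonneg p0 h1) (hf' y hne.1)
    exact (hQp.mem_or_mem (hQ.1.2 f1)).resolve_left fun h => hf (hQx h)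

end Pool.Agent.Lib.MP_9ff3e7_ag.F
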