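import Pool.Agent.Lib.MP_9ff3e7_ag.F.Split
import Pool.Agent.Lib.MP_9ff3e7_ag.F.Brk

/-! Update lemmas for the invariants (I2), (I3), (I4) in the step of the induction. -/

set_option autoImplicit false

namespace Pool.Agent.Lib.MP_9ff3e7_ag.F

open Finset Finsupp

variable {O : Type} [CommRing O] {K : (Ideal O →₀ ℝ) → Prop} {le : Ideal O → Ideal O → Prop}
  {j L : ℕ} {N N' : ℕ → ℕ} {c c' : ℕ → ℝ} {P P' : ℕ → Ideal O} {G G' : ℕ → ℕ → Ideal O}
  {a a' : ℕ → ℕ → ℕ → ℝ} {g g' eps eps' : ℕ → ℝ}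

/-- (I3) for one index `m` -/
def I3One (K : (Ideal O →₀ ℝ) → Prop) (m : ℕ) (N : ℕ → ℕ) (Q : Ideal O) (G : ℕ → ℕ → Ideal O)
    (a : ℕ → ℕ → ℝ) (g : ℝ) : Prop :=
  ∀ (w : ℕ → ℕ → ℝ) (b : ℝ), (∀ i r, 0 ≤ w i r) → 0 ≤ b →
    K (∑ i ∈ range m, ∑ r ∈ range (N i + 1), single (G i r) (w i r) + single Q b) →
    ∑ i ∈ range m, ∑ r ∈ range (N i + 1), w i r * a i r + b * g ≤ 1

theorem i3At_iff : I3At K j N P G a g ↔
    ∀ m, 1 ≤ m → m ≤ j → I3One K m N (P m) G (a m) (g m) := Iff.rfl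

/-- (I3) persists when the partial flags are refined, `g` is lowered, and data with larger index
are changed -/
theorem I3One.refine (hc : Calc K le) {m : ℕ} {Q : Ideal O} {b b' : ℕ → ℕ → ℝ} {t t' : ℝ}
    (h : I3One K m N Q G b t) (hN : ∀ i < m, N' i = N i)
    (hG : ∀ i < m, ∀ r ≤ N i, G' i r ≤ G i r) (hb : ∀ i < m, ∀ r ≤ N i, b' i r ≤ b i r)
    (ht : t' ≤ t) : I3One K m N' Q G' b' t' := by
  intro w s hw hs hK
  have e1 : ∀ {M : Type} [AddCommMonoid M] (f : ℕ → ℕ → M),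
      ∑ i ∈ range m, ∑ r ∈ range (N' i + 1), f i r = ∑ i ∈ range m, ∑ r ∈ range (N i + 1), f i r :=
    fun f => sum_congr rfl fun i hi => by rw [hN i (mem_range.1 hi)]
  rw [e1] at hK ⊢
  have im := (Imp.sum (K := K) (range m) _ _
    (fun i _ => sum_nonneg fun r _ => single_nonneg.2 (hw i r))
    (fun i _ => sum_nonneg fun r _ => single_nonneg.2 (hw i r))
    (fun i hi => Imp.sum (range (N i + 1)) (fun r => single (G' i r) (w i r))
      (fun r => single (G i r) (w i r)) (fun r _ => single_nonneg.2 (hw i r))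
      (fun r _ => single_nonneg.2 (hw i r)) (fun r hr => Imp.of_le hc (hw i r)
        (hG i (mem_range.1 hi) r (Nat.lt_succ_iff.1 (mem_range.1 hr)))))).add
    (Imp.refl (single Q s)) (single_nonneg.2 hs)
    (sum_nonneg fun i _ => sum_nonneg fun r _ => single_nonneg.2 (hw i r))
  refine le_trans ?_ (h w s hw hs (im.app hK))
  refine add_le_add (sum_le_sum fun i hi => sum_le_sum fun r hr => ?_)
    (mul_le_mul_of_nonneg_left ht hs)
  exact mul_le_mul_of_nonneg_left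
    (hb i (mem_range.1 hi) r (Nat.lt_succ_iff.1 (mem_range.1 hr))) (hw i r)

theorem I3At.refine (hc : Calc K le) (h : I3At K j N P G a g) (hN : ∀ i < j, N' i = N i)
    (hG : ∀ i < j, ∀ r ≤ N i, G' i r ≤ G i r) (hP : ∀ m, 1 ≤ m → m ≤ j → P' m = P m)
    (ha : ∀ m, 1 ≤ m → m ≤ j → a' m = a m) (hg : ∀ m, 1 ≤ m → m ≤ j → g' m = g m) :
    I3At K j N' P' G' a' g' := by
  rw [i3At_iff] at h ⊢
  intro m hm hmj
  rw [hP m hm hmj, ha m hm hmj, hg m hm hmj]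
  exact (h m hm hmj).refine hc (fun i hi => hN i (by omega)) (fun i hi => hG i (by omega))
    (fun _ _ _ _ => le_rfl) le_rfl

theorem I3At.succ (h : I3At K j N P G a g)
    (h' : I3One K (j + 1) N (P (j + 1)) G (a (j + 1)) (g (j + 1))) : I3At K (j + 1) N P G a g := by
  rw [i3At_iff] at h ⊢
  intro m hm hmj
  rcases Nat.lt_or_eq_of_le hmj with hlt | rfl
  · exact h m hm (by omega)
  · exact h'

/-- (I2b) in terms of breaks: it persists when the jumps of the new functional are added -/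
theorem jump_upd {Br : ℕ → Set ℕ} {b : ℕ → ℕ → ℝ} {t : ℝ}
    (h : ∀ i < j + 1, ∀ r ∈ Br i, 0 < r → r < N i →
      ∃ m, i < m ∧ m ≤ j ∧ a m i (r - 1) + g m ≤ a m i r)
    (ht : ∀ i < j + 1, ∀ r < N i, b i (r - 1) < b i r → b i (r - 1) + t ≤ b i r) :
    ∀ i < j + 1, ∀ r ∈ newBr (Br i) (N i) (b i), 0 < r → r < N i →
      ∃ m, i < m ∧ m ≤ j + 1 ∧ Function.update a (j + 1) b m i (r - 1) +
        Function.update g (j + 1) t m ≤ Function.update a (j + 1) b m i r := by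
  intro i hi r hr h0 hN
  rcases hr with hr | hr
  · obtain ⟨m, h1, h2, h3⟩ := h i hi r hr h0 hN
    have hne : m ≠ j + 1 := by omega
    exact ⟨m, h1, by omega, by simpa [Function.update_of_ne hne] using h3⟩
  · exact ⟨j + 1, hi, le_rfl, by simpa using ht i hi r hN hr.2.2⟩

/-- `Num` from data given by breaks -/
theorem Num.of_breaks {Br : ℕ → Set ℕ} (jL : j ≤ L) (Lj : L ≤ j + 1) (c0 : ∀ i < L, 0 ≤ c i)
    (P0 : P 0 = ⊥) (cap : ∀ i < L, G i (N i) ≤ P i) (hN : ∀ i < L, N i ∈ Br i)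
    (g0 : ∀ m, 1 ≤ m → m ≤ j → 0 < g m) (e0 : ∀ m, 1 ≤ m → m ≤ j → 0 < eps m)
    (a0 : ∀ m, 1 ≤ m → m ≤ j → ∀ i < m, ∀ r ≤ N i, 0 ≤ a m i r)
    (I2a : ∀ m, 1 ≤ m → m ≤ j → ∀ i < m, ∀ r r', r ≤ r' → r' ≤ N i → a m i r ≤ a m i r')
    (I2b : ∀ i < L, ∀ r ∈ Br i, 0 < r → r < N i →
      ∃ m, i < m ∧ m ≤ j ∧ a m i (r - 1) + g m ≤ a m i r)
    (I4 : ∀ m, 1 ≤ m → m ≤ j →
      1 - 2 * eps m ≤ ∑ i ∈ range m, c i * ∑ r ∈ range (N i), a m i r) :
    Num j L N c P G (fun i r => nb (Br i) r) a g eps where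
  jL := jL
  Lj := Lj
  c0 := c0
  P0 := P0
  cap := cap
  nb1 := fun i hi _ hr => lt_nb (hN i hi) hr
  nb2 := fun i hi _ hr => nb_le (hN i hi) hr
  g0 := g0
  e0 := e0
  a0 := a0
  I2a := I2a
  I2b := fun i hi _ hr hlt => I2b i hi _ (nb_mem (hN i hi) hr)
    (Nat.zero_lt_of_lt (lt_nb (hN i hi) hr)) hlt
  I4 := I4

/-- the choice of a shrinking factor: finitely many strict inequalities survive -/
theorem exists_shrink (S : Finset ℕ) (u V : ℕ → ℝ) (h : ∀ m ∈ S, u m < V m) :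
    ∃ s : ℝ, 0 < s ∧ s < 1 ∧ ∀ m ∈ S, u m < s * V m := by
  have ev : ∀ᶠ s : ℝ in nhds 1, ∀ m ∈ S, u m < s * V m := by
    rw [Filter.eventually_all_finset]
    intro m hm
    have : ContinuousAt (fun s : ℝ => s * V m) 1 := by fun_prop
    exact continuousAt_const.eventually_lt this (by simpa using h m hm)
  have ev2 : ∀ᶠ s : ℝ in nhdsWithin 1 (Set.Iio 1), _ :=
    ((ev.and (lt_mem_nhds one_pos)).filter_mono nhdsWithin_le_nhds).and self_mem_nhdsWithin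
  obtain ⟨s, ⟨h1, h2⟩, h3⟩ := ev2.exists
  exact ⟨s, h2, h3, h1⟩

/-- the choice of `eps j` for (I5) -/
theorem exists_eps (S : Finset ℕ) (u v : ℕ → ℝ) (hv : ∀ i ∈ S, 0 < v i) (t : ℝ) :
    ∃ e : ℝ, 0 < e ∧ ∀ i ∈ S, 4 * (3 * e / t) * u i ≤ v i := by
  have ev : ∀ᶠ e : ℝ in nhds 0, ∀ i ∈ S, 4 * (3 * e / t) * u i < v i := by
    rw [Filter.eventually_all_finset]
    intro i hi
    have : ContinuousAt (fun e : ℝ => 4 * (3 * e / t) * u i) 0 := by fun_prop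
    exact this.eventually_lt continuousAt_const (by simpa using hv i hi)
  have ev2 : ∀ᶠ e : ℝ in nhdsWithin 0 (Set.Ioi 0), _ :=
    (ev.filter_mono nhdsWithin_le_nhds).and self_mem_nhdsWithin
  obtain ⟨e, h1, h2⟩ := ev2.exists
  exact ⟨e, h2, fun i hi => (h1 i hi).le⟩

end Pool.Agent.Lib.MP_9ff3e7_ag.F
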