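import Pool.Agent.Lib.MP_9ff3e7_ag.F.StDefs
import Pool.Agent.Lib.MP_9ff3e7_ag.F.Upd
import Pool.Agent.Lib.MP_9ff3e7_ag.F.ChooseK
import Pool.Agent.Lib.MP_9ff3e7_ag.F.NextP

/-! The first half of the step: a new series is opened. -/

set_option autoImplicit false

namespace Pool.Agent.Lib.MP_9ff3e7_ag.F

open Module Finset Finsupp Function

section phi

variable {O : Type} [CommRing O] [Algebra ℂ O] {L : ℕ} {N N' : ℕ → ℕ}
  {F F' : ℕ → ℕ → Submodule ℂ O} {c c' : ℕ → ℝ}

theorem Phi_smul (ρ : ℝ) : Phi L N F (fun i => ρ * c i) = ρ • Phi L N F c := by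
  simp [Phi, Finset.smul_sum]

theorem Phi_succ : Phi (L + 1) N F c =
    Phi L N F c + ∑ r ∈ range (N L), single (Ideal.span (F L r : Set O)) (c L) :=
  Finset.sum_range_succ _ _

theorem Phi_congr (hN : ∀ i < L, N i = N' i) (hc : ∀ i < L, c i = c' i) :
    Phi L N F c = Phi L N' F c' :=
  sum_congr rfl fun i hi => by rw [hN i (mem_range.1 hi), hc i (mem_range.1 hi)]

theorem Phi_nonneg (hc : ∀ i < L, 0 ≤ c i) : 0 ≤ Phi L N F c :=
  sum_nonneg fun i hi => sum_nonneg fun _ _ => single_nonneg.2 (hc i (mem_range.1 hi))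

/-- the data with the series `j` opened -/
def Dat.opn (S : Dat O) (j k N : ℕ) (Fj : ℕ → Submodule ℂ O) : Dat O where
  P := S.P
  k := update S.k j k
  N := update S.N j N
  Br := update S.Br j {0, N}
  F0 := update S.F0 j Fj
  a := S.a
  g := S.g

end phi

variable {n : ℕ} {O : Type} [CommRing O] [Algebra ℂ O] [Algebra (MvPolynomial (Fin n) ℂ) O]
  {M : Model n O} {T : Filt n O} {x : Pnt O} {S : Dat O} {c eps : ℕ → ℝ} {j : ℕ}

theorem Shp.opn (hK : KAx0 M) (h : Shp M T x S j j) {k : ℕ} {Fj : ℕ → Submodule ℂ O}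
    (hp : 0 < Hf T.F (S.P j) k) (hg : Gd n T.kap (Hf T.F (S.P j)) k)
    (hF : IsFlag (T.F k) (T.F k ⊓ (S.P j).restrictScalars ℂ) (Hf T.F (S.P j) k) Fj) :
    Shp M T x (S.opn j k (Hf T.F (S.P j) k) Fj) j (j + 1) := by
  have cs : ∀ {p : ℕ → Prop}, (∀ i < j, p i) → p j → ∀ i < j + 1, p i := fun h1 h2 i hi =>
    (Nat.lt_succ_iff_lt_or_eq.1 hi).elim (h1 i) fun e => e ▸ h2
  refine { hN := cs ?_ ?_, Npos := cs ?_ ?_, flag := cs ?_ ?_, br0 := cs ?_ ?_, brN := cs ?_ ?_,
           brle := cs ?_ ?_, good := cs ?_ ?_, jL := by omega, Lj := le_rfl, P0 := h.P0,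
           prime := h.prime, Px := h.Px, g0 := h.g0, a0 := ?_, I2a := ?_, I2b := cs ?_ ?_,
           I3 := fun y hy => ?_ }
  · intro i hi
    simpa [Dat.opn, hi.ne] using h.hN i hi
  · simp [Dat.opn]
  · intro i hi
    simpa [Dat.opn, hi.ne] using h.Npos i hi
  · simpa [Dat.opn] using hp
  · intro i hi
    simpa [Dat.opn, Dat.cap, hi.ne] using h.flag i hi
  · simpa [Dat.opn, Dat.cap] using hF
  · intro i hi
    simpa [Dat.opn, hi.ne] using h.br0 i hi
  · simp [Dat.opn]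
  · intro i hi
    simpa [Dat.opn, hi.ne] using h.brN i hi
  · simp [Dat.opn]
  · intro i hi
    simpa [Dat.opn, hi.ne] using h.brle i hi
  · simp [Dat.opn]
  · intro i hi
    simpa [Dat.opn, hi.ne] using h.good i hi
  · simpa [Dat.opn] using hg
  · intro m h1 h2 i hi
    simpa [Dat.opn, (show i ≠ j by omega)] using h.a0 m h1 h2 i hi
  · intro m h1 h2 i hi
    simpa [Dat.opn, (show i ≠ j by omega)] using h.I2a m h1 h2 i hi
  · intro i hi
    simpa [Dat.opn, hi.ne] using h.I2b i hi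
  · intro r hr h0 h1
    simp only [Dat.opn, Function.update_self, Set.mem_insert_iff, Set.mem_singleton_iff] at hr h1
    omega
  · refine (h.I3 y hy).refine (hK.calc y) (fun i hi => ?_) (fun i hi r _ => ?_)
      (fun _ _ _ => rfl) (fun _ _ _ => rfl) (fun _ _ _ => rfl)
    · simp [Dat.opn, hi.ne]
    · simp [Dat.opn, Dat.G, Dat.Gs, hi.ne]

theorem Dat.opn_fam {k N : ℕ} {Fj : ℕ → Submodule ℂ O} {F : ℕ → ℕ → Submodule ℂ O}
    (h : (S.opn j k N Fj).Fam T (j + 1) F) : S.Fam T j F := fun i hi => by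
  simpa [Dat.opn, Dat.cap, hi.ne] using h i (by omega)

theorem Dat.opn_val {k N : ℕ} {Fj : ℕ → Submodule ℂ O} {m : ℕ} (hm : m ≤ j) (θ t : ℝ) :
    (S.opn j k N Fj).val (update (fun i => θ * c i) j t) m = θ * S.val c m := by
  rw [Dat.val, Dat.val, Finset.mul_sum]
  refine sum_congr rfl fun i hi => ?_
  have : i ≠ j := by have := mem_range.1 hi; omega
  simp [Dat.opn, this, mul_assoc]

/-- a flag of the family whose last but one member lies in the maximal ideal of `x` -/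
theorem exists_fam_ker (h : Ser T S (j + 1)) (hb : S.Br j = {0, S.N j})
    (hx : ∀ s ∈ S.P j, x s = 0) {s : O} (h1 : s ∈ T.F (S.k j)) (h2 : x s = 0) (h3 : s ∉ S.P j) :
    ∃ F, S.Fam T (j + 1) F ∧ ∀ f ∈ F j (S.N j - 1), x f = 0 := by
  have := T.fd (S.k j)
  have hf := h.flag j (by omega)
  have hN := h.Npos j (by omega)
  have hc : finrank ℂ (S.cap T j) + S.N j = finrank ℂ (T.F (S.k j)) := by
    rw [← hf.bot]
    exact hf.dim _ le_rfl
  have hle : S.cap T j ≤ T.F (S.k j) := inf_le_left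
  have : FiniteDimensional ℂ (S.cap T j) := Submodule.finiteDimensional_of_le hle
  have hs : s ∉ S.cap T j := fun e => h3 e.2
  have hs0 : s ≠ 0 := fun e => hs (e ▸ zero_mem _)
  have hd := Submodule.finrank_sup_add_finrank_inf_eq (S.cap T j) (Submodule.span ℂ {s})
  rw [((Submodule.disjoint_span_singleton' hs0).2 hs).eq_bot, finrank_bot,
    finrank_span_singleton hs0] at hd
  obtain ⟨E, e0, e1, e2, e3, e4⟩ := exists_flag_of_chain (T.F (S.k j)) (S.cap T j) hle (S.N j) hc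
    {S.cap T j ⊔ Submodule.span ℂ {s}} Set.subsingleton_singleton.isChain (by
      rintro _ rfl
      exact ⟨le_sup_left, sup_le hle ((Submodule.span_singleton_le_iff_mem _ _).2 h1)⟩)
  refine ⟨update S.F0 j E, fun i hi => ?_, fun f hf => ?_⟩
  · rcases Nat.lt_succ_iff_lt_or_eq.1 hi with hi' | rfl
    · rw [update_of_ne hi'.ne]
      exact h.fam i hi
    · rw [Function.update_self]
      refine ⟨⟨e0, e1 _ le_rfl, fun r r' a _ => e2 a, e3⟩, fun r hr => ?_⟩
      rw [hb] at hr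
      rcases hr with rfl | rfl
      · rw [e0, hf.top]
      · rw [e1 _ le_rfl, hf.bot]
  · rw [Function.update_self, e4 _ rfl _ (by omega) (by omega)] at hf
    obtain ⟨u, hu, v, hv, rfl⟩ := Submodule.mem_sup.1 hf
    obtain ⟨t, rfl⟩ := Submodule.mem_span_singleton.1 hv
    simp [hx u hu.2, h2]

theorem gauge_bound (hK : KAx0 M) (hn : 1 ≤ n) (hN : 0 < S.N j) (hc : ∀ i < j, 0 ≤ c i)
    {F : ℕ → ℕ → Submodule ℂ O} (hF : S.Fam T (j + 1) F) (hx : ∀ f ∈ F j (S.N j - 1), x f = 0)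
    (t : ℝ) (ht : 0 ≤ t) (h : I1 M T x S (j + 1) (update c j t)) : t ≤ 2 * n := by
  have h1 := h (1 / 2) (by norm_num) (by norm_num) F hF
  have h2 : M.Klt x (single (Ideal.span (F j (S.N j - 1) : Set O)) (1 / 2 * t)) := by
    refine hK.drop x _ _ (single_nonneg.2 (by positivity)) ?_ h1
    rw [Phi_succ, Function.update_self]
    refine le_add_of_nonneg_of_le (Phi_nonneg fun i hi => ?_) ?_
    · rw [update_of_ne hi.ne]
      exact mul_nonneg (by norm_num) (hc i hi)
    · exact single_le_sum (f := fun r => single (Ideal.span (F j r : Set O)) (1 / 2 * t))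
        (fun _ _ => single_nonneg.2 (by positivity)) (mem_range.2 (by omega))
  have h3 : M.Klt x (0 + single (RingHom.ker x) (1 / 2 * t)) :=
    hK.mono x 0 _ _ _ le_rfl (by positivity)
      (leAt_of_le x (Ideal.span_le.2 fun f hf => hx f hf)) (by rwa [zero_add])
  have h4 := hK.mono x 0 _ _ _ le_rfl (by positivity) (hK.kerle x) h3
  rw [zero_add] at h4
  have : Nonempty (Fin n) := ⟨⟨0, hn⟩⟩
  have h5 := hK.k3 x univ _ univ_nonempty h4
  rw [card_univ, Fintype.card_fin] at h5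
  linarith

end Pool.Agent.Lib.MP_9ff3e7_ag.F
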