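import Pool.Agent.Lib.MP_9ff3e7_ag.F.PDefs
import Pool.Agent.Lib.MP_9ff3e7_ag.F.StepA

/-! Two points: the closed state with explicit data, and the transport of the certificate. -/

set_option autoImplicit false

namespace Pool.Agent.Lib.MP_9ff3e7_ag.F

open Module Finset Finsupp Function

variable {n : ℕ} {O : Type} [CommRing O] [Algebra ℂ O] [Algebra (MvPolynomial (Fin n) ℂ) O]
  {M : Model n O} {T : Filt n O} {x y : Pnt O} {S : Dat O} {c eps : ℕ → ℝ} {j L : ℕ} {Y : Cert O}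

section cls

variable {F : ℕ → ℕ → Submodule ℂ O} {Q : Ideal O} {a : ℕ → ℕ → ℝ} {g : ℝ}

theorem Dat.cls_P {m : ℕ} (hm : m ≤ j) : (S.cls j F Q a g).P m = S.P m :=
  Function.update_of_ne (by omega) _ _

theorem Dat.cls_a {m : ℕ} (hm : m ≤ j) : (S.cls j F Q a g).a m = S.a m :=
  Function.update_of_ne (by omega) _ _

theorem Dat.cls_g {m : ℕ} (hm : m ≤ j) : (S.cls j F Q a g).g m = S.g m :=
  Function.update_of_ne (by omega) _ _

theorem Dat.cls_P1 : (S.cls j F Q a g).P (j + 1) = Q := Function.update_self _ _ _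

theorem Dat.cls_a1 : (S.cls j F Q a g).a (j + 1) = a := Function.update_self _ _ _

theorem Dat.cls_g1 : (S.cls j F Q a g).g (j + 1) = g := Function.update_self _ _ _

theorem Dat.cls_cap {i : ℕ} (hi : i < j + 1) : (S.cls j F Q a g).cap T i = S.cap T i := by
  rw [Dat.cap, Dat.cap, Dat.cls_P (by omega)]
  rfl

end cls

/-- the closed state, without the cost at full degree -/
theorem cls_state0 (hK : KAx M) (h : Inv M T x S c eps j (j + 1))
    (hs : ∀ m, 1 ≤ m → m ≤ j → 1 - 2 * eps m < S.val c m) (h6 : I6 T S (j + 1) c)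
    {F : ℕ → ℕ → Submodule ℂ O} (hF : S.Fam T (j + 1) F) {Q : Ideal O} (hQ : Q.IsPrime)
    (hx : ∀ s ∈ Q, x s = 0) (hPQ : S.P j ≤ Q) {a : ℕ → ℕ → ℝ} {g : ℝ} (hg : 0 < g)
    (ha0 : ∀ i r, 0 ≤ a i r) (ham : ∀ i, Monotone (a i))
    (ha1 : 1 ≤ ∑ i ∈ range (j + 1), c i * ∑ r ∈ range (S.N i), a i r)
    (gap : ∀ i < j + 1, ∀ r < S.N i, a i (r - 1) < a i r → a i (r - 1) + g ≤ a i r)
    (ha3 : ∀ z : Pnt O, (∀ s ∈ Q, z s = 0) → I3One (M.Klt z) (j + 1) S.N Q
      (fun i r => Ideal.span (F i (pb (newBr (S.Br i) (S.N i) (a i)) r) : Set O)) a g) :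
    State M T x (S.cls j F Q a g) c eps (j + 1) := by
  have cases1 : ∀ m ≤ j + 1, m ≤ j ∨ m = j + 1 := fun m hm => by omega
  have hG : ∀ i < j + 1, ∀ r ≤ S.N i, (S.cls j F Q a g).G i r ≤ S.G i r := by
    intro i hi r hr
    refine Ideal.span_mono ?_
    change F i (pb (newBr (S.Br i) (S.N i) (a i)) r) ≤ S.F0 i (pb (S.Br i) r)
    rw [← (hF i hi).2 _ (pb_mem (h.br0 i hi) r)]
    exact (hF i hi).1.anti _ _ (pb_sub (h.br0 i hi) (sub_newBr _ _ _) r) ((pb_le _ _).trans hr)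
  have eval : ∀ m ≤ j, (S.cls j F Q a g).val c m = S.val c m := fun m hm => by
    rw [Dat.val, Dat.val, Dat.cls_a hm]
    rfl
  exact
    { hN := fun i hi => by rw [Dat.cls_P (by omega)]; exact h.hN i hi
      Npos := h.Npos
      flag := fun i hi => by rw [Dat.cls_cap hi]; exact (hF i hi).1
      br0 := fun i hi => sub_newBr _ _ _ (h.br0 i hi)
      brN := fun i hi => sub_newBr _ _ _ (h.brN i hi)
      brle := fun i hi r hr => hr.elim (h.brle i hi r) fun hr => hr.2.1.le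
      good := fun i hi => by rw [Dat.cls_P (by omega)]; exact h.good i hi
      jL := le_rfl
      Lj := Nat.le_succ _
      P0 := by rw [Dat.cls_P (Nat.zero_le _)]; exact h.P0
      prime := by rwa [Dat.cls_P1]
      Px := by rwa [Dat.cls_P1]
      g0 := fun m hm hmj => by
        rcases cases1 m hmj with hm' | rfl
        · rw [Dat.cls_g hm']; exact h.g0 m hm hm'
        · rwa [Dat.cls_g1]
      a0 := fun m hm hmj i hi r hr => by
        rcases cases1 m hmj with hm' | rfl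
        · rw [Dat.cls_a hm']; exact h.a0 m hm hm' i hi r hr
        · rw [Dat.cls_a1]; exact ha0 i r
      I2a := fun m hm hmj i hi r r' hr hr' => by
        rcases cases1 m hmj with hm' | rfl
        · rw [Dat.cls_a hm']; exact h.I2a m hm hm' i hi r r' hr hr'
        · rw [Dat.cls_a1]; exact ham i hr
      I2b := jump_upd h.I2b gap
      I3 := fun y hy => by
        rw [Dat.cls_P1] at hy
        refine I3At.succ ((h.I3 y fun s hs' => hy s (hPQ hs')).refine (hK.calc y) (fun _ _ => rfl)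
          (fun i hi => hG i (by omega)) (fun m _ => Dat.cls_P) (fun m _ => Dat.cls_a)
          (fun m _ => Dat.cls_g)) ?_
        rw [Dat.cls_P1, Dat.cls_a1, Dat.cls_g1]
        exact ha3 y hy
      c0 := h.c0
      e0 := fun m hm hmj => h.e0 m hm (by omega)
      I4 := fun m hm hmj => by rw [eval m (by omega)]; exact hs m hm (by omega)
      I4j := fun _ => by rw [Dat.val, Dat.cls_a1]; exact ha1
      I5 := fun m hm hmj i hi => by
        rw [Dat.cls_g (by omega)]; exact h.I5 m hm (by omega) i (by omega) hi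
      i1 := fun ρ h0 h1 F' hF' => h.i1 ρ h0 h1 F' fun i hi =>
        ⟨by rw [← Dat.cls_cap (F := F) (Q := Q) (a := a) (g := g) hi]; exact (hF' i hi).1,
          fun r hr => ((hF' i hi).2 r (sub_newBr _ _ _ hr)).trans ((hF i hi).2 r hr)⟩
      i6 := by
        unfold I6 at h6 ⊢
        refine le_of_eq_of_le (congrArg _ (sum_congr rfl fun i hi => ?_)) h6
        rw [Dat.Deg, Dat.Deg, Dat.cls_P (by have := mem_range.1 (mem_filter.1 hi).1; omega)]
        rfl }

theorem cls_state (hK : KAx M) (h : Inv M T x S c eps j (j + 1))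
    (hs : ∀ m, 1 ≤ m → m ≤ j → 1 - 2 * eps m < S.val c m) (h6 : I6 T S (j + 1) c)
    (h7 : I7 T S (j + 1) c) (h2 : ∀ i < j + 1, Gd2 n T.kap (Hf T.F (S.P i)) (S.k i))
    {F : ℕ → ℕ → Submodule ℂ O} (hF : S.Fam T (j + 1) F) {Q : Ideal O} (hQ : Q.IsPrime)
    (hx : ∀ s ∈ Q, x s = 0) (hPQ : S.P j ≤ Q) {a : ℕ → ℕ → ℝ} {g : ℝ} (hg : 0 < g)
    (ha0 : ∀ i r, 0 ≤ a i r) (ham : ∀ i, Monotone (a i))
    (ha1 : 1 ≤ ∑ i ∈ range (j + 1), c i * ∑ r ∈ range (S.N i), a i r)
    (gap : ∀ i < j + 1, ∀ r < S.N i, a i (r - 1) < a i r → a i (r - 1) + g ≤ a i r)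
    (ha3 : ∀ z : Pnt O, (∀ s ∈ Q, z s = 0) → I3One (M.Klt z) (j + 1) S.N Q
      (fun i r => Ideal.span (F i (pb (newBr (S.Br i) (S.N i) (a i)) r) : Set O)) a g) :
    State2 M T x (S.cls j F Q a g) c eps (j + 1) where
  toState := cls_state0 hK h hs h6 hF hQ hx hPQ hg ha0 ham ha1 gap ha3
  good2 i hi := by rw [Dat.cls_P (by omega)]; exact h2 i hi
  i7 := h7

theorem CertOk.cls (h : CertOk M T x y S c eps j (j + 1) Y) {F : ℕ → ℕ → Submodule ℂ O}
    (hF : S.Fam T (j + 1) F) (Q : Ideal O) {a : ℕ → ℕ → ℝ} {g : ℝ}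
    (gap : ∀ i < j + 1, ∀ r < S.N i, a i (r - 1) < a i r → a i (r - 1) + g ≤ a i r) :
    CertOk M T x y (S.cls j F Q a g) c eps (j + 1) (j + 1) Y where
  Lj := h.Lj
  flag i hi := by rw [Dat.cls_cap (hi.trans_le h.Lj)]; exact h.flag i hi
  a0 := h.a0
  am := h.am
  g0 := h.g0
  e0 := h.e0
  I3 := h.I3
  Qx := h.Qx
  Qk := h.Qk
  small := h.small
  val := h.val
  late m h1 h2 h3 := by rw [Dat.cls_g (by omega)]; exact h.late m h1 h2 h3
  brk i hi r hr := by
    have hi' := hi.trans_le h.Lj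
    rcases hr with hr | hr
    · rcases h.brk i hi r hr with e | ⟨m, h1, h2, h3⟩
      · exact Or.inl (((hF i hi').2 r hr).trans e)
      · exact Or.inr ⟨m, h1, by omega, by rwa [Dat.cls_a h2, Dat.cls_g h2]⟩
    · refine Or.inr ⟨j + 1, h.Lj, le_rfl, ?_⟩
      rw [Dat.cls_a1, Dat.cls_g1]
      exact gap i hi' r hr.2.1 hr.2.2

theorem I3One.congr {K : (Ideal O →₀ ℝ) → Prop} {m : ℕ} {N N' : ℕ → ℕ} {Q : Ideal O}
    {G : ℕ → ℕ → Ideal O} {a : ℕ → ℕ → ℝ} {g : ℝ} (h : I3One K m N Q G a g)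
    (hN : ∀ i < m, N' i = N i) : I3One K m N' Q G a g := by
  intro w s hw hs hK
  have e1 : ∀ {A : Type} [AddCommMonoid A] (f : ℕ → ℕ → A),
      ∑ i ∈ range m, ∑ r ∈ range (N' i + 1), f i r = ∑ i ∈ range m, ∑ r ∈ range (N i + 1), f i r :=
    fun f => sum_congr rfl fun i hi => by rw [hN i (mem_range.1 hi)]
  rw [e1] at hK ⊢
  exact h w s hw hs hK

theorem CertOk.opn (h : CertOk M T x y S c eps j j Y) (k N : ℕ) (Fj : ℕ → Submodule ℂ O)
    {θ e : ℝ} (t : ℝ) (hv : 1 - Y.e < θ * Y.val S.N c)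
    (he : 3 * e / S.g j * Y.tot S.N ≤ Y.e) :
    CertOk M T x y (S.opn j k N Fj) (update (fun i => θ * c i) j t) (update eps j e) j (j + 1) Y := by
  have ne : ∀ i < Y.L, i ≠ j := fun i hi => (hi.trans_le h.Lj).ne
  have eN : ∀ i < Y.L, (S.opn j k N Fj).N i = S.N i := fun i hi => update_of_ne (ne i hi) _ _
  have et : Y.tot (S.opn j k N Fj).N = Y.tot S.N :=
    sum_congr rfl fun i hi => by rw [eN i (mem_range.1 hi)]
  have ev : Y.val (S.opn j k N Fj).N (update (fun i => θ * c i) j t) = θ * Y.val S.N c := by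
    rw [Cert.val, Cert.val, Finset.mul_sum]
    refine sum_congr rfl fun i hi => ?_
    rw [eN i (mem_range.1 hi), update_of_ne (ne i (mem_range.1 hi)), mul_assoc]
  exact
    { Lj := h.Lj.trans (Nat.le_succ _)
      flag := fun i hi => by simpa [Dat.opn, Dat.cap, ne i hi] using h.flag i hi
      a0 := h.a0
      am := h.am
      g0 := h.g0
      e0 := h.e0
      I3 := h.I3.congr eN
      Qx := h.Qx
      Qk := h.Qk
      small := h.small
      val := by rwa [ev]
      late := fun m h1 h2 h3 => by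
        rw [et]
        rcases Nat.lt_succ_iff_lt_or_eq.1 h3 with h4 | rfl
        · rw [update_of_ne h4.ne]
          exact h.late m h1 h2 h4
        · rw [Function.update_self]
          exact he
      brk := fun i hi => by simpa [Dat.opn, ne i hi] using h.brk i hi }

end Pool.Agent.Lib.MP_9ff3e7_ag.F
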