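import Pool.Agent.Lib.MP_9ff3e7_ag.F.StDefs
import Pool.Agent.Lib.MP_9ff3e7_ag.F.Upd

/-! Two points: full degree cost, the certificate at the second point, the conclusion. -/

set_option autoImplicit false

namespace Pool.Agent.Lib.MP_9ff3e7_ag.F

open Module Finset Finsupp

noncomputable section

/-- `k0` is a good degree for the cost at full degree -/
def Gd2 (n kap : ℕ) (H : ℕ → ℕ) (k0 : ℕ) : Prop :=
  ∀ d : ℕ, 1 ≤ d → d ≤ n → ∀ (ι : Type) (Q : Finset ι) (S : ι → ℕ → Finset (Fin d →₀ ℕ))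
    (Gm : ℕ → Finset (Fin d →₀ ℕ)), (∀ k ≤ k0, ∑ q ∈ Q, (S q k).card = H k) →
    (∀ q ∈ Q, ∀ k j, k + j ≤ k0 → ∀ a ∈ S q k, ∀ b ∈ Gm j, a + b ∈ S q (k + j)) →
    (∀ j, kap ^ d ≤ j → kap ^ d * (j - kap ^ d + d).choose d ≤ (Gm j).card) →
    (∀ e : Fin d →₀ ℕ, (∀ i, e i ≤ 1) → e ∈ Gm d) →
    (d : ℝ) * kap * (k0 * H k0) ≤ (n + 5 / 4) * ∑ q ∈ Q, ∑ a ∈ S q k0, (a.degree : ℝ)

section free

variable {O : Type} [CommRing O] [Algebra ℂ O]

/-- the data after the step: new reference flags, new centre, new functional -/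
def Dat.cls (S : Dat O) (j : ℕ) (F : ℕ → ℕ → Submodule ℂ O) (Q : Ideal O) (a : ℕ → ℕ → ℝ)
    (t : ℝ) : Dat O where
  P := Function.update S.P (j + 1) Q
  k := S.k
  N := S.N
  Br := fun i => newBr (S.Br i) (S.N i) (a i)
  F0 := F
  a := Function.update S.a (j + 1) a
  g := Function.update S.g (j + 1) t

variable (O) in
/-- the data of a certificate at the second point -/
structure Cert where
  L : ℕ
  F : ℕ → ℕ → Submodule ℂ O
  a : ℕ → ℕ → ℝ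
  g : ℝ
  Q : Ideal O
  k : ℕ
  e : ℝ

/-- a bound for the functional of the certificate -/
def Cert.tot (Y : Cert O) (N : ℕ → ℕ) : ℝ := ∑ i ∈ range Y.L, ∑ _r ∈ range (N i), Y.a i (N i)

/-- the value of the functional of the certificate -/
def Cert.val (Y : Cert O) (N : ℕ → ℕ) (c : ℕ → ℝ) : ℝ :=
  ∑ i ∈ range Y.L, c i * ∑ r ∈ range (N i), Y.a i r

end free

variable {n : ℕ} {O : Type} [CommRing O] [Algebra ℂ O] [Algebra (MvPolynomial (Fin n) ℂ) O]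

/-- (I7): the cost at full degree -/
def I7 (T : Filt n O) (S : Dat O) (L : ℕ) (c : ℕ → ℝ) : Prop :=
  (1 - del n) * T.kap * ∑ i ∈ (range L).filter (fun i => dlt n T.kap i ≤ c i * (S.k i * S.N i)),
    c i * (S.k i * S.N i) ≤ n + 5 / 4

/-- the invariant of the induction with the cost at full degree -/
structure State2 (M : Model n O) (T : Filt n O) (x : Pnt O) (S : Dat O) (c eps : ℕ → ℝ)
    (j : ℕ) : Prop extends State M T x S c eps j where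
  good2 : ∀ i < j, Gd2 n T.kap (Hf T.F (S.P i)) (S.k i)
  i7 : I7 T S j c

/-- a functional at `y` on the flags `F` of the series `i < L`, whose centre misses `x` -/
structure Raw (M : Model n O) (x y : Pnt O) (N : ℕ → ℕ) (c : ℕ → ℝ) (L : ℕ)
    (F : ℕ → ℕ → Submodule ℂ O) (a : ℕ → ℕ → ℝ) (g : ℝ) (Q : Ideal O) : Prop where
  a0 : ∀ i r, 0 ≤ a i r
  am : ∀ i, Monotone (a i)
  g0 : 0 < g
  I3 : I3One (M.Klt y) L N Q (fun i r => Ideal.span (F i r : Set O)) a g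
  Qx : ∃ s ∈ Q, x s ≠ 0
  val : 1 ≤ ∑ i ∈ range L, c i * ∑ r ∈ range (N i), a i r

/-- the certificate at `y` along the induction at `x`; functionals `m ≤ j` exist, the numbers
`eps m`, `m < jl`, are chosen -/
structure CertOk (M : Model n O) (T : Filt n O) (x y : Pnt O) (S : Dat O) (c eps : ℕ → ℝ)
    (j jl : ℕ) (Y : Cert O) : Prop where
  Lj : Y.L ≤ jl
  flag : ∀ i < Y.L, IsFlag (T.F (S.k i)) (S.cap T i) (S.N i) (Y.F i)
  a0 : ∀ i r, 0 ≤ Y.a i r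
  am : ∀ i, Monotone (Y.a i)
  g0 : 0 < Y.g
  e0 : 0 < Y.e
  I3 : I3One (M.Klt y) Y.L S.N Y.Q (fun i r => Ideal.span (Y.F i r : Set O)) Y.a Y.g
  Qx : ∃ s ∈ Y.Q, x s ≠ 0
  Qk : Ideal.span ((T.F Y.k ⊓ Y.Q.restrictScalars ℂ : Submodule ℂ O) : Set O) = Y.Q
  small : (T.kap : ℝ) * (4 * Y.e / Y.g * Y.k) ≤ del n / 2
  val : 1 - Y.e < Y.val S.N c
  late : ∀ m, 1 ≤ m → Y.L ≤ m → m < jl → 3 * eps m / S.g m * Y.tot S.N ≤ Y.e
  brk : ∀ i < Y.L, ∀ r ∈ S.Br i, S.F0 i r = Y.F i r ∨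
    ∃ m, Y.L ≤ m ∧ m ≤ j ∧ S.a m i (r - 1) + S.g m ≤ S.a m i r

/-- the conclusion for two points: `x` is cut out, `y` is not klt -/
def Concl2 (M : Model n O) (Fi : Filt n O) (x y : Pnt O) : Prop :=
  ∃ (m : ℕ) (W : Fin m → Submodule ℂ O) (dg : Fin m → ℕ) (c : Fin m → ℝ) (b : ℝ),
    (∀ a, W a ≤ Fi.F (dg a)) ∧ (∀ a, 0 ≤ c a) ∧ 0 ≤ b ∧
    M.Klt x (∑ a, single (Ideal.span (W a : Set O)) (c a)) ∧
    ¬ M.Klt x (∑ a, single (Ideal.span (W a : Set O)) (c a) + single (mz n x) b) ∧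
    ¬ M.Klt y (∑ a, single (Ideal.span (W a : Set O)) (c a)) ∧
    (Fi.kap : ℝ) * (∑ a, c a * dg a + b) ≤ n + 3 / 2

theorem concl2_of {M : Model n O} {Fi : Filt n O} {x y : Pnt O} {ι : Type} [Fintype ι]
    (W : ι → Submodule ℂ O) (dg : ι → ℕ) (c : ι → ℝ) (b : ℝ)
    (h1 : ∀ a, W a ≤ Fi.F (dg a)) (h2 : ∀ a, 0 ≤ c a) (h3 : 0 ≤ b)
    (h4 : M.Klt x (∑ a, single (Ideal.span (W a : Set O)) (c a)))
    (h5 : ¬ M.Klt x (∑ a, single (Ideal.span (W a : Set O)) (c a) + single (mz n x) b))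
    (h5' : ¬ M.Klt y (∑ a, single (Ideal.span (W a : Set O)) (c a)))
    (h6 : (Fi.kap : ℝ) * (∑ a, c a * dg a + b) ≤ n + 3 / 2) : Concl2 M Fi x y := by
  let e := (Fintype.equivFin ι).symm
  have e1 : ∑ a, single (Ideal.span (W (e a) : Set O)) (c (e a)) =
      ∑ a, single (Ideal.span (W a : Set O)) (c a) :=
    e.sum_comp fun a => single (Ideal.span (W a : Set O)) (c a)
  have e2 : ∑ a, c (e a) * dg (e a) = ∑ a, c a * dg a := e.sum_comp fun a => c a * dg a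
  exact ⟨_, fun a => W (e a), fun a => dg (e a), fun a => c (e a), b, fun a => h1 _, fun a => h2 _,
    h3, by rwa [e1], by rwa [e1], by rwa [e1], by rwa [e2]⟩

end

end Pool.Agent.Lib.MP_9ff3e7_ag.F
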