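import Pool.Agent.Lib.MP_9ff3e7_ag.F.ChooseK
import Pool.Agent.Lib.MP_9ff3e7_ag.F.PDefs

/-! The counting lemma at full degree. -/

set_option autoImplicit false

namespace Pool.Agent.Lib.MP_9ff3e7_ag.F

open Finset Module

theorem count_arith2 {N dt Y Hk T κ d k0 : ℝ} (hN : 1 ≤ N) (hdt : N * dt = 1 / 16) (hκ : 1 ≤ κ)
    (hd : 0 ≤ d) (hH : 0 ≤ Hk) (hY : 0 ≤ Y) (hk : 32 * N ^ 2 ≤ k0)
    (h1 : (1 - dt) * (k0 * Hk) ≤ N * Y) (h3 : d * ((1 - dt) * κ * Y - Hk) ≤ T) :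
    d * κ * (k0 * Hk) ≤ (N + 1 / 4) * T := by
  have d0 : 0 < dt := by
    by_contra hc
    nlinarith
  have d1 : dt ≤ 1 / 16 := by nlinarith
  have a0 : 2 * N ≤ dt * k0 := by
    have := mul_le_mul_of_nonneg_left hk d0.le
    have e : dt * (32 * N ^ 2) = 32 * (N * dt) * N := by ring
    rw [e, hdt] at this
    linarith
  have a1 : 2 * N * Hk ≤ dt * (k0 * Hk) := by
    have := mul_le_mul_of_nonneg_right a0 hH
    linarith
  set X := k0 * Hk
  have c : (1 + dt) * N ≤ (1 - dt) * ((N + 1 / 4) * (1 - dt)) := by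
    have e : (1 - dt) * ((N + 1 / 4) * (1 - dt)) =
        N + 1 / 4 - 2 * (N * dt) + dt * (N * dt) - dt / 2 + 1 / 4 * dt * dt := by ring
    have e' : (1 + dt) * N = N + N * dt := by ring
    rw [e, e', hdt]
    nlinarith
  have a2 : (1 + dt) * X ≤ ((N + 1 / 4) * (1 - dt)) * Y := by
    refine le_of_mul_le_mul_left ?_ (by linarith : 0 < 1 - dt)
    have b1 := mul_le_mul_of_nonneg_left h1 (by linarith : 0 ≤ 1 + dt)
    have b2 := mul_le_mul_of_nonneg_right c hY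
    linarith
  have x1 : 0 ≤ N * Hk := by positivity
  have x0 : 0 ≤ dt * X := le_trans (by positivity) a1
  have a3 : κ * X ≤ (N + 1 / 4) * ((1 - dt) * κ * Y - Hk) := by
    have b1 : X ≤ (N + 1 / 4) * (1 - dt) * Y - dt * X := by linarith
    have b2 := mul_le_mul_of_nonneg_left b1 (by linarith : 0 ≤ κ)
    have b3 := mul_le_mul_of_nonneg_right hκ x0
    have b4 := mul_le_mul_of_nonneg_right hN hH
    nlinarith
  have b1 := mul_le_mul_of_nonneg_left a3 hd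
  have b2 := mul_le_mul_of_nonneg_left h3 (by linarith : 0 ≤ N + 1 / 4)
  linarith

/-- there are arbitrarily large degrees that are good in both senses -/
theorem count2 (n kap : ℕ) (hkap : 1 ≤ kap) (H : ℕ → ℕ) (hm : Monotone H) (h1 : ∀ k, 1 ≤ H k)
    (C : ℝ) (hC : ∀ k, 1 ≤ k → (H k : ℝ) ≤ C * k ^ n) (K0 : ℕ) :
    ∃ k0, K0 ≤ k0 ∧ Good n kap H k0 ∧ Gd2 n kap H k0 := by
  have hN : (1 : ℝ) ≤ n + 1 := by have : (0 : ℝ) ≤ n := Nat.cast_nonneg n; linarith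
  obtain ⟨dt, hdt⟩ : ∃ dt : ℝ, (n + 1) * dt = 1 / 16 := ⟨1 / 16 / (n + 1), by field_simp⟩
  have d0 : 0 < dt := by
    by_contra hc
    nlinarith
  have d1 : dt < 1 := by nlinarith
  obtain ⟨sg, s1, s2, hb⟩ := bb_step n kap 1 hkap d0 d1
  obtain ⟨L, hL, hg⟩ := good_dt n H hm h1 C hC s1 d0 d1 (K0 + 32 * (n + 1) ^ 2)
  have hk : L ≤ L * sg := Nat.le_mul_of_pos_right _ s1
  have z0 : (0 : ℝ) ≤ ∑ m ∈ range L, (H (m * sg) : ℝ) := by positivity
  have hW : (sg : ℝ) * ∑ m ∈ range L, (H (m * sg) : ℝ) ≤ ∑ k ∈ range (L * sg), (H k : ℝ) := by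
    exact_mod_cast block_le H hm sg L
  have s0 : (0 : ℝ) ≤ sg := Nat.cast_nonneg _
  have g0 : (1 - dt) * (((L * sg : ℕ) : ℝ) * H (L * sg)) ≤
      (n + 1) * (sg * ∑ m ∈ range L, (H (m * sg) : ℝ)) := by
    have := mul_le_mul_of_nonneg_left hg s0
    push_cast
    linarith
  have main : ∀ d : ℕ, 1 ≤ d → d ≤ n → ∀ (ι : Type) (Q : Finset ι)
      (S : ι → ℕ → Finset (Fin d →₀ ℕ)) (Gm : ℕ → Finset (Fin d →₀ ℕ)),
      (∀ k ≤ L * sg, ∑ q ∈ Q, (S q k).card = H k) →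
      (∀ q ∈ Q, ∀ k j, k + j ≤ L * sg → ∀ a ∈ S q k, ∀ b ∈ Gm j, a + b ∈ S q (k + j)) →
      (∀ j, kap ^ d ≤ j → kap ^ d * (j - kap ^ d + d).choose d ≤ (Gm j).card) →
      (∀ e : Fin d →₀ ℕ, (∀ i, e i ≤ 1) → e ∈ Gm d) →
      (d : ℝ) * ((1 - dt) * kap * (sg * ∑ m ∈ range L, (H (m * sg) : ℝ)) - H (L * sg)) ≤
        ∑ q ∈ Q, ∑ a ∈ S q (L * sg), (a.degree : ℝ) := by
    intro d hd hn ι Q S Gm hS hadd hG he
    have p1 : kap ^ d ≤ kap ^ n := Nat.pow_le_pow_right hkap hn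
    have g1 := hG (sg - d) (by omega)
    have g2 := hb d hd hn (Gm (sg - d)).card (by rw [one_mul]; exact g1)
    have g3 : (Gm (sg - d)).Nonempty := by
      rw [← card_pos]
      exact lt_of_lt_of_le (Nat.mul_pos (Nat.pow_pos hkap) (Nat.choose_pos (by omega))) g1
    have hq : ∀ q ∈ Q, _ := fun q hq => count_q hd (fun m => S q (m * sg)) _ g3 L
      fun m hmL a ha g hg e he' => by
        have l1 : (m + 1) * sg ≤ L * sg := Nat.mul_le_mul_right _ hmL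
        have l2 : m * sg + (sg - d) + d = (m + 1) * sg := by rw [add_mul]; omega
        have := hadd q hq _ d (by omega) _ (hadd q hq _ _ (by omega) a ha g hg) e (he e he')
        rwa [l2] at this
    have hs := sum_le_sum hq
    have e1 : ∀ k ≤ L * sg, ∑ q ∈ Q, ((S q k).card : ℝ) = H k := fun k hk => by
      rw [← hS k hk, Nat.cast_sum]
    rw [sum_sub_distrib, ← mul_sum, ← mul_sum, sum_comm, e1 _ le_rfl,
      sum_congr rfl fun m hm => e1 (m * sg) (Nat.mul_le_mul_right _ (mem_range.1 hm).le)] at hs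
    have dd : (0 : ℝ) ≤ d := Nat.cast_nonneg _
    have := mul_le_mul_of_nonneg_left (mul_le_mul_of_nonneg_right g2 z0) dd
    linarith
  refine ⟨L * sg, by omega, fun d hd hn ι Q S Gm hS hadd hG he => ?_,
    fun d hd hn ι Q S Gm hS hadd hG he => ?_⟩
  · have key := count_arith (κ := kap) (d := d) (k0 := ((L * sg : ℕ) : ℝ)) (Hk := H (L * sg))
      hN hdt (by exact_mod_cast hkap) (Nat.cast_nonneg _) (Nat.cast_nonneg _) (mul_nonneg s0 z0)
      (by exact_mod_cast (by omega : 16 * (n + 1) ^ 2 ≤ L * sg)) g0 hW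
      (main d hd hn ι Q S Gm hS hadd hG he)
    have e : (n : ℝ) + 1 - 3 / 4 = n + 1 / 4 := by ring
    rwa [e] at key
  · have key := count_arith2 (κ := kap) (d := d) (k0 := ((L * sg : ℕ) : ℝ)) (Hk := H (L * sg))
      hN hdt (by exact_mod_cast hkap) (Nat.cast_nonneg _) (Nat.cast_nonneg _) (mul_nonneg s0 z0)
      (by exact_mod_cast (by omega : 32 * (n + 1) ^ 2 ≤ L * sg)) g0
      (main d hd hn ι Q S Gm hS hadd hG he)
    have e : (n : ℝ) + 1 + 1 / 4 = n + 5 / 4 := by ring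
    rwa [e] at key

variable {n : ℕ} {O : Type} [CommRing O] [Algebra ℂ O] [Algebra (MvPolynomial (Fin n) ℂ) O]

theorem Filt.exists_good_k2 [IsNoetherianRing O] (Fi : Filt n O) {P : Ideal O} (hP : P ≠ ⊤)
    (K0 : ℕ) : ∃ k, K0 ≤ k ∧
      Ideal.span ((Fi.F k ⊓ P.restrictScalars ℂ : Submodule ℂ O) : Set O) = P ∧
      Gd n Fi.kap (Hf Fi.F P) k ∧ Gd2 n Fi.kap (Hf Fi.F P) k := by
  obtain ⟨k0, hk0⟩ := Fi.exists_cap_span P
  obtain ⟨C, hC⟩ := Fi.up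
  obtain ⟨k, hk, hg, hg2⟩ := count2 n Fi.kap Fi.kap1 (Hf Fi.F P) (Fi.hf_mono P)
    (Fi.one_le_hf hP) ((C : ℝ) * 2 ^ n) (fun k hk => by
      have h1 : Hf Fi.F P k ≤ C * (2 * k) ^ n :=
        (Fi.hf_le P k).trans ((hC k).trans
          (Nat.mul_le_mul_left _ (Nat.pow_le_pow_left (by omega) _)))
      have h2 : (Hf Fi.F P k : ℝ) ≤ ((C * (2 * k) ^ n : ℕ) : ℝ) := by exact_mod_cast h1
      push_cast at h2
      rw [mul_pow] at h2
      linarith) (max k0 K0)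
  exact ⟨k, (le_max_right _ _).trans hk, hk0 k ((le_max_left _ _).trans hk), hg, hg2⟩

theorem Filt.exists_ker_deg {x : Pnt O} (Fi : Filt n O) {P : Ideal O}
    (h : ∃ s, x s = 0 ∧ s ∉ P) : ∃ m, ∀ k, m ≤ k → ∃ s ∈ Fi.F k, x s = 0 ∧ s ∉ P := by
  obtain ⟨f, hf1, hf2⟩ := h
  obtain ⟨u, m, hu, -, hm⟩ := Fi.exh f
  exact ⟨m, fun k hk => ⟨u * f, Fi.mono hk hm, by rw [map_mul, hf1, mul_zero],
    fun h => hf2 ((Ideal.unit_mul_mem_iff_mem _ hu).1 h)⟩⟩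

end Pool.Agent.Lib.MP_9ff3e7_ag.F
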