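import Pool.Agent.Lib.MP_9ff3e7_ag.F.Step
import Pool.Agent.Lib.MP_9ff3e7_ag.F.PCount
import Pool.Agent.Lib.MP_9ff3e7_ag.F.PCls
import Pool.Agent.Lib.MP_9ff3e7_ag.F.NCount
import Pool.Agent.Lib.MP_9ff3e7_ag.F.NEnd
import Pool.Agent.Lib.MP_9ff3e7_ag.F.NMain
import Pool.Agent.Lib.MP_9ff3e7_ag.F.NDim

/-! The step of the induction and the core theorem for the numerical form. -/

set_option autoImplicit false

namespace Pool.Agent.Lib.MP_9ff3e7_ag.F

open Module Finset Finsupp Function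

theorem abel3 {n j : ℕ} {w W : ℕ → ℝ} {d : ℕ → ℕ} {d' : ℕ} (hd1 : 1 ≤ d j) (hdn : d j ≤ n)
    (hd' : d' ≤ d j) (hW : ∀ t, 1 ≤ t → t ≤ d j → W (d j) ≤ W t)
    (old : ∑ i ∈ range j, w i * (1 - (d j : ℝ) / d i) ≤ ∑ t ∈ Ioc (d j) n, W t)
    (hV : ∑ i ∈ range (j + 1), w i / d i ≤ W (d j)) :
    ∑ i ∈ range (j + 1), w i * (1 - (d' : ℝ) / d i) ≤ ∑ t ∈ Ioc d' n, W t := by
  have h0 : (d j : ℝ) ≠ 0 := by exact_mod_cast (by omega : d j ≠ 0)
  have e1 : ∑ i ∈ range (j + 1), w i * (1 - (d' : ℝ) / d i) =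
      ∑ i ∈ range (j + 1), w i * (1 - (d j : ℝ) / d i) +
        ((d j : ℝ) - d') * ∑ i ∈ range (j + 1), w i / d i := by
    rw [Finset.mul_sum, ← sum_add_distrib]
    exact sum_congr rfl fun i _ => by ring
  have e2 : ((d j : ℝ) - d') * W (d j) ≤ ∑ t ∈ Ioc d' (d j), W t := by
    have := card_nsmul_le_sum (Ioc d' (d j)) W (W (d j)) fun t ht =>
      hW t (by have := (mem_Ioc.1 ht).1; omega) (mem_Ioc.1 ht).2
    rwa [Nat.card_Ioc, nsmul_eq_mul, Nat.cast_sub hd'] at this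
  have e3 : (0 : ℝ) ≤ (d j : ℝ) - d' := sub_nonneg.2 (by exact_mod_cast hd')
  have e4 := mul_le_mul_of_nonneg_left hV e3
  rw [e1, sum_range_succ, div_self h0, sub_self, mul_zero, add_zero,
    ← sum_Ioc_consecutive W hd' hdn]
  linarith

theorem vol3 {L : ℕ} {c Dg KN : ℕ → ℝ} {d : ℕ → ℕ} {δ A : ℝ} (hδ : 0 < δ) (hA : 0 < A)
    (hc : ∀ i < L, 0 ≤ c i) (hD : ∀ i < L, Dg i ≤ KN i) (hd : ∀ i < L, 1 ≤ d i)
    (h : A * ∑ i ∈ (range L).filter (fun i => δ / 2 ^ i ≤ c i * KN i), c i * Dg i / d i ≤ 1) :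
    ∑ i ∈ range L, c i * Dg i / d i ≤ 1 / A + 2 * δ := by
  rw [← sum_filter_add_sum_filter_not (range L) (fun i => δ / 2 ^ i ≤ c i * KN i)]
  refine add_le_add (by rwa [le_div_iff₀ hA, mul_comm]) ?_
  refine le_trans (sum_le_sum (g := fun i => δ / 2 ^ i) fun i hi => ?_)
    ((sum_le_sum_of_subset_of_nonneg (filter_subset _ _) fun i _ _ => by positivity).trans
      (sum_half_le hδ.le L))
  obtain ⟨h1, h2⟩ := mem_filter.1 hi
  have h3 := mem_range.1 h1
  have h4 : (1 : ℝ) ≤ d i := by exact_mod_cast hd i h3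
  have h5 := (mul_le_mul_of_nonneg_left (hD i h3) (hc i h3)).trans (not_le.1 h2).le
  have h6 : 0 < δ / 2 ^ i := by positivity
  rw [div_le_iff₀ (by linarith)]
  nlinarith

theorem exists_del {n : ℕ} {κ : ℕ → ℝ} (hκ : ∀ d, 1 ≤ d → d ≤ n → 0 < κ d) {μ : ℝ}
    (hμ : ∑ d ∈ Icc 1 n, 1 / κ d < μ) :
    ∃ δ : ℝ, 0 < δ ∧ δ < 1 ∧ ∑ t ∈ Ioc 0 n, wt κ δ t + δ < μ := by
  have ct : ContinuousAt (fun δ : ℝ => ∑ t ∈ Ioc 0 n, wt κ δ t + δ) 0 := by
    refine ContinuousAt.add (tendsto_finsetSum _ fun t ht => ?_) continuousAt_id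
    have := (hκ t (mem_Ioc.1 ht).1 (mem_Ioc.1 ht).2).ne'
    have h : ContinuousAt (fun δ : ℝ => wt κ δ t) 0 := by
      unfold wt
      refine ContinuousAt.add (ContinuousAt.div continuousAt_const (by fun_prop) ?_) (by fun_prop)
      simpa using this
    exact h
  have ev := ct.eventually_lt continuousAt_const (g := fun _ => μ) (by
    have : Ioc 0 n = Icc 1 n := rfl
    simpa [wt, this] using hμ)
  have ev2 : ∀ᶠ δ : ℝ in nhdsWithin 0 (Set.Ioi 0), _ :=
    ((ev.and (gt_mem_nhds one_pos)).filter_mono nhdsWithin_le_nhds).and self_mem_nhdsWithin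
  obtain ⟨δ, ⟨h1, h2⟩, h3⟩ := ev2.exists
  exact ⟨δ, h3, h2, h1⟩

variable {n : ℕ} {O : Type} [CommRing O] [IsDomain O] [Algebra ℂ O]
  [Algebra (MvPolynomial (Fin n) ℂ) O] [IsScalarTower ℂ (MvPolynomial (Fin n) ℂ) O]
  {M : Model n O} {T : Filt n O} {x : Pnt O} {S : Dat O} {c eps : ℕ → ℝ} {j : ℕ}
  {κ : ℕ → ℝ} {e : ℕ → ℕ} {δ : ℝ}

theorem exists_good_k3 [IsNoetherianRing O] (M : Model n O) (hN : NumHyp T x κ e) (hδ : 0 < δ)
    (hδ1 : δ ≤ 1) {P : Ideal O} (hP : P.IsPrime) (h1 : 1 ≤ dm P) (K0 : ℕ) :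
    ∃ k, K0 ≤ k ∧ Ideal.span ((T.F k ⊓ P.restrictScalars ℂ : Submodule ℂ O) : Set O) = P ∧
      Gd n T.kap (Hf T.F P) k ∧ Gd3 n κ e δ (dm P) (Hf T.F P) k := by
  obtain ⟨k0, hk0⟩ := T.exists_cap_span P
  obtain ⟨C, hC⟩ := hN.up P hP _ (dm_spec M P hP).1
  obtain ⟨k, hk, hg, hg3⟩ := count3 n T.kap T.kap1 κ e hN.pos
    (fun d a b => hN.mono 1 d le_rfl a b) hN.pow hδ hδ1 (dm P) h1 (dm_spec M P hP).2 (Hf T.F P)
    (T.hf_mono P) (T.one_le_hf hP.ne_top) ((C : ℝ) * 2 ^ dm P) (fun k hk => by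
      have h1 : Hf T.F P k ≤ C * (2 * k) ^ dm P :=
        (hC k).trans (Nat.mul_le_mul_left _ (Nat.pow_le_pow_left (by omega) _))
      have h2 : (Hf T.F P k : ℝ) ≤ ((C * (2 * k) ^ dm P : ℕ) : ℝ) := by exact_mod_cast h1
      push_cast at h2
      rw [mul_pow] at h2
      linarith) (max k0 K0)
  exact ⟨k, le_of_max_le_right hk, hk0 k (le_of_max_le_left hk), hg, hg3⟩

theorem step3 (hK : KAx M) (hH : NumHyp T x κ e) (hδ : 0 < δ) (hδ1 : δ < 1)
    (h : State3 M T x S c eps j κ e δ) (hP : ∃ s, x s = 0 ∧ s ∉ S.P j) :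
    ∃ S' c' eps', State3 M T x S' c' eps' (j + 1) κ e δ ∧ S.P j < S'.P (j + 1) := by
  have := hK.ft
  have : IsNoetherianRing O := Algebra.FiniteType.isNoetherianRing ℂ O
  have hd1 : 1 ≤ dm (S.P j) := by
    refine Nat.one_le_iff_ne_zero.2 fun h0 => ?_
    obtain ⟨s, h1, h2⟩ := hP
    exact h2 ((dm_eq_zero_iff M h.prime h.Px).1 h0 s h1)
  have hdn := (dm_spec M _ h.prime).2
  have hn : 1 ≤ n := hd1.trans hdn
  have hκ : ∀ t, 1 ≤ t → t ≤ n → 0 < κ t := fun t a b => hH.pos.trans_le (hH.mono 1 t le_rfl a b)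
  have hδ2 : 0 < (1 - δ) ^ 2 := pow_pos (by linarith) 2
  obtain ⟨m0, hm0⟩ := T.exists_ker_deg hP
  obtain ⟨k, hk, hsp, hg, hg3⟩ := exists_good_k3 M hH hδ hδ1.le h.prime hd1 m0
  obtain ⟨s, hs1, hs2, hs3⟩ := hm0 k hk
  obtain ⟨Fj, f0, f1, f2, f3⟩ := T.exists_triv_flag (S.P j) k
  have hS := h.toShp.opn hK.toKAx0 (k := k) (Fj := Fj) (T.one_le_hf h.prime.ne_top k) hg
    ⟨f0, f1 _ le_rfl, fun _ _ a _ => f2 a, f3⟩
  set N := Hf T.F (S.P j) k with hN
  set S1 := S.opn j k N Fj with hS1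
  obtain ⟨ε, he0, he⟩ := exists_eps (range (j + 1)) (fun i => S1.k i * S1.N i)
    (fun i => min (del n * dlt n T.kap i) (δ * (δ / 2 ^ i)))
    (fun i _ => lt_min (mul_pos (del_pos n) (dlt_pos n T.kap1 i)) (by positivity)) (S.g j)
  have hlt : ∀ m, 1 ≤ m → m ≤ j → 1 - 2 * update eps j ε m < S.val c m := fun m h1 h2 => by
    rcases h2.lt_or_eq with h3 | rfl
    · rw [update_of_ne h3.ne]
      exact h.I4 m h1 h3
    · rw [Function.update_self]
      linarith [h.I4j h1]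
  obtain ⟨θ, θ0, θ1, hθ⟩ := exists_shrink (Icc 1 j) (fun m => 1 - 2 * update eps j ε m) (S.val c)
    fun m hm => hlt m (mem_Icc.1 hm).1 (mem_Icc.1 hm).2
  have hc1 : ∀ i < j, 0 ≤ θ * c i := fun i hi => mul_nonneg θ0.le (h.c0 i hi)
  have hold : ∀ (t ρ : ℝ), 0 < ρ → ρ * θ < 1 → ∀ F, S1.Fam T (j + 1) F →
      M.Klt x (Phi j S1.N F fun i => ρ * update (fun i => θ * c i) j t i) := by
    intro t ρ h0 h1 F hF
    have := h.i1 (ρ * θ) (mul_pos h0 θ0) h1 F (Dat.opn_fam hF)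
    rwa [Phi_congr (N' := S1.N) (c' := fun i => ρ * update (fun i => θ * c i) j t i)
      (fun i hi => by simp [hS1, Dat.opn, hi.ne]) (fun i hi => by simp [hi.ne, mul_assoc])] at this
  obtain ⟨F1, hF1, hF1x⟩ := exists_fam_ker (x := x) hS.toSer (by simp [hS1, Dat.opn]) h.Px
    (s := s) (by simpa [hS1, Dat.opn] using hs1) hs2 hs3
  obtain ⟨t, t0, hI, F, hF, hNk⟩ := gauge (x := x) (c := fun i => θ * c i) hK hS.toSer hc1
    (fun ρ h0 h1 F hF => by
      have := hold 0 ρ h0 (by nlinarith) F hF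
      rw [Phi_succ]
      simpa using this)
    ⟨2 * n, gauge_bound hK.toKAx0 hn (hS.Npos j (by omega)) hc1 hF1 hF1x⟩
  have hs : ∀ m, 1 ≤ m → m ≤ j →
      1 - 2 * update eps j ε m < S1.val (update (fun i => θ * c i) j t) m := fun m h1 h2 => by
    rw [hS1, Dat.opn_val h2]
    exact hθ m (mem_Icc.2 ⟨h1, h2⟩)
  have hInv : Inv M T x S1 (update (fun i => θ * c i) j t) (update eps j ε) j (j + 1) := by
    refine { toShp := hS, c0 := fun i hi => ?_, e0 := fun m h1 h2 => ?_,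
             I4 := fun m h1 h2 => (hs m h1 h2).le, I5 := fun m h1 h2 i hi him => ?_, i1 := hI }
    · rcases Nat.lt_succ_iff_lt_or_eq.1 hi with h3 | rfl
      · rw [update_of_ne h3.ne]
        exact hc1 i h3
      · rwa [Function.update_self]
    · rcases h2.lt_or_eq with h3 | rfl
      · rw [update_of_ne h3.ne]
        exact h.e0 m h1 h3
      · rwa [Function.update_self]
    · rcases h2.lt_or_eq with h3 | rfl
      · rw [update_of_ne h3.ne]
        simpa [hS1, Dat.opn, (show i ≠ j by omega)] using h.I5 m h1 h3 i him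
      · rw [Function.update_self]
        exact (he i (mem_range.2 hi)).trans (min_le_left _ _)
  have h5 : ∀ m, 1 ≤ m → m ≤ j → ∀ i < j + 1, i ≤ m →
      4 * (3 * update eps j ε m / S1.g m) * (S1.k i * S1.N i) ≤ δ * (δ / 2 ^ i) := by
    intro m h1 h2 i hi him
    rcases h2.lt_or_eq with h3 | rfl
    · rw [update_of_ne h3.ne]
      simpa [hS1, Dat.opn, (show i ≠ j by omega)] using h.I5s m h1 h3 i him
    · rw [Function.update_self]
      exact (he i (mem_range.2 hi)).trans (min_le_right _ _)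
  have g3 : ∀ i < j + 1, Gd3 n κ e δ (dm (S1.P i)) (Hf T.F (S1.P i)) (S1.k i) := fun i hi => by
    rcases Nat.lt_succ_iff_lt_or_eq.1 hi with h3 | rfl
    · simpa [hS1, Dat.opn, h3.ne] using h.good3 i h3
    · simpa [hS1, Dat.opn] using hg3
  have d1 : ∀ i < j + 1, 1 ≤ dm (S1.P i) := fun i hi => by
    rcases Nat.lt_succ_iff_lt_or_eq.1 hi with h3 | rfl
    · exact h.d1 i h3
    · exact hd1
  have dle : ∀ i < j + 1, dm (S1.P j) ≤ dm (S1.P i) := fun i hi => by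
    rcases Nat.lt_succ_iff_lt_or_eq.1 hi with h3 | rfl
    · exact h.dle i h3
    · exact le_rfl
  have old : ∑ i ∈ range j, update (fun i => θ * c i) j t i * S1.Deg T i *
      (1 - (dm (S1.P j) : ℝ) / dm (S1.P i)) ≤ ∑ t ∈ Ioc (dm (S1.P j)) n, wt κ δ t := by
    have e1 : ∑ i ∈ range j, update (fun i => θ * c i) j t i * S1.Deg T i *
        (1 - (dm (S1.P j) : ℝ) / dm (S1.P i)) =
        θ * ∑ i ∈ range j, c i * S.Deg T i * (1 - (dm (S.P j) : ℝ) / dm (S.P i)) := by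
      rw [Finset.mul_sum]
      refine sum_congr rfl fun i hi => ?_
      simp [hS1, Dat.opn, Dat.Deg, (mem_range.1 hi).ne, mul_assoc]
    have e2 : 0 ≤ ∑ t ∈ Ioc (dm (S.P j)) n, wt κ δ t := sum_nonneg fun t ht => by
      have := hκ t (by have := (mem_Ioc.1 ht).1; omega) (mem_Ioc.1 ht).2
      unfold wt
      positivity
    have e3 := mul_le_mul_of_nonneg_left h.i8 θ0.le
    rw [e1]
    exact e3.trans (mul_le_of_le_one_left e2 θ1.le)
  have hρ : (1 + θ) / (2 * θ) * θ < 1 := by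
    rw [div_mul_eq_mul_div, div_lt_one (by positivity)]
    nlinarith
  have hk1 := hold t _ (by positivity) hρ F hF
  have hspan : Ideal.span (S1.cap T j : Set O) = S1.P j := by
    simpa [hS1, Dat.opn, Dat.cap] using hsp
  have h6 := main_ineq hK hInv hP
  have h7 := main_ineq3 hK hH hInv hδ hδ1.le g3 d1 h5
  have eP : S.P j = S1.P j := rfl
  rw [eP] at hdn ⊢
  clear_value S1
  generalize update (fun i => θ * c i) j t = c1 at *
  generalize update eps j ε = eps1 at *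
  have hjj : j < j + 1 := Nat.lt_succ_self j
  have hfl := (hF j hjj).1
  have hNp := hInv.Npos j hjj
  have hfd := T.fd
  obtain ⟨Q, a, g, hQ, hQx, hTQ, hg0, ha0, ham, hval, hgap, h3⟩ := centre_sep hK x j S1.N hInv.Npos
    (fun i r => Ideal.span (F i r : Set O))
    (fun i hi r r' h1 h2 => Ideal.span_mono ((hF i hi).1.anti r r' h1 h2))
    (fun i hi r hr h0 => (hF i hi).1.not_le hr fun s hs' => by
      have : s ∈ Ideal.span (F i r : Set O) := Ideal.subset_span hs'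
      rw [h0, Ideal.mem_bot] at this
      rw [this]; exact zero_mem _)
    c1 hInv.c0 S1.Br hInv.brN (ρ₀ := (1 + θ) / (2 * θ))
    (by rw [lt_div_iff₀ (by positivity)]; linarith) hk1 (fun ρ h0 h1 => hI ρ h0 h1 F hF) hNk
  have hlt : S1.P j < Q := by
    refine lt_of_le_of_ne ?_ fun hEq => ?_
    · rw [← hspan, ← hfl.bot]
      exact (Ideal.span_mono (hfl.anti _ _ (Nat.sub_le _ _) le_rfl)).trans hTQ
    · refine hfl.not_le (r := S1.N j - 1) (by omega)
        (le_inf (hfl.top ▸ hfl.anti 0 _ (Nat.zero_le _) (Nat.sub_le _ _)) fun s hs' => ?_)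
      have : s ∈ Q := hTQ (Ideal.subset_span hs')
      rwa [← hEq] at this
  have dQ : dm Q ≤ dm (S1.P j) := dm_anti M hInv.prime hQ hlt.le
  refine ⟨S1.cls j F Q a g, c1, eps1,
    { toState := cls_state0 hK hInv hs h6 hF hQ hQx hlt.le hg0 ha0 ham hval hgap h3
      good3 := fun i hi => by rw [Dat.cls_P (by omega)]; exact g3 i hi
      d1 := fun i hi => by rw [Dat.cls_P (by omega)]; exact d1 i hi
      dle := fun i hi => by rw [Dat.cls_P1, Dat.cls_P (by omega)]; exact dQ.trans (dle i hi)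
      I5s := fun m h1 h2 i hi => by
        rw [Dat.cls_g (by omega)]; exact h5 m h1 (by omega) i (by omega) hi
      i8 := ?_ }, by rwa [Dat.cls_P1]⟩
  have hκj := hκ _ (d1 j hjj) hdn
  have key := abel3 (n := n) (j := j) (w := fun i => c1 i * S1.Deg T i) (W := wt κ δ)
    (d := fun i => dm (S1.P i)) (d1 j hjj) hdn dQ (fun u u1 u2 => by
      have b1 := hκ u u1 (u2.trans hdn)
      have b2 := hH.mono u _ u1 u2 hdn
      exact add_le_add (one_div_le_one_div_of_le (by positivity)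
        (mul_le_mul_of_nonneg_left b2 hδ2.le)) le_rfl) old
    (vol3 (KN := fun i => (S1.k i : ℝ) * S1.N i) hδ (mul_pos hδ2 hκj) hInv.c0
      (fun i _ => sub_le_self _ (sum_nonneg fun t _ => Nat.cast_nonneg _)) d1 h7)
  rw [Dat.cls_P1]
  refine le_of_eq_of_le (sum_congr rfl fun i hi => ?_) key
  rw [Dat.Deg, Dat.Deg, Dat.cls_P (by have := mem_range.1 hi; omega)]
  rfl

/-- the core theorem of the numerical form -/
theorem core3 (hK : KAx M) (hN : NumHyp T x κ e) {μ : ℝ} (hμ : ∑ d ∈ Icc 1 n, 1 / κ d < μ) :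
    Concl3 M T x μ := by
  have := hK.ft
  have : IsNoetherianRing O := Algebra.FiniteType.isNoetherianRing ℂ O
  have hκ : ∀ t, 1 ≤ t → t ≤ n → 0 < κ t := fun t a b => hN.pos.trans_le (hN.mono 1 t le_rfl a b)
  obtain ⟨δ, hδ, hδ1, hs⟩ := exists_del hκ hμ
  have key : ∀ Q : Ideal O, ∀ (S : Dat O) (c eps : ℕ → ℝ) (j : ℕ),
      State3 M T x S c eps j κ e δ → S.P j = Q → Concl3 M T x μ := by
    intro Q
    induction Q using (wellFounded_gt (α := Ideal O)).induction with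
    | _ Q ih =>
      intro S c eps j h hQ
      by_cases hP : ∃ s, x s = 0 ∧ s ∉ S.P j
      · obtain ⟨S', c', eps', h', hlt⟩ := step3 hK hN hδ hδ1 h hP
        exact ih _ (hQ ▸ hlt) S' c' eps' (j + 1) h' rfl
      · have hP' : ∀ s, x s = 0 → s ∈ S.P j := fun s hs => by_contra fun h' => hP ⟨s, hs, h'⟩
        exact end3 hK.toKAx0 h hP' ((dm_eq_zero_iff M h.prime h.Px).2 hP') hδ hδ1.le hs
  refine key _ _ _ _ 0
    { toState := state_zero hK.toKAx0 T x
      good3 := fun i hi => absurd hi (Nat.not_lt_zero i)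
      d1 := fun i hi => absurd hi (Nat.not_lt_zero i)
      dle := fun i hi => absurd hi (Nat.not_lt_zero i)
      I5s := fun m h1 h2 => absurd h2 (Nat.not_lt_zero m)
      i8 := ?_ } rfl
  rw [range_zero, sum_empty]
  refine sum_nonneg fun t ht => ?_
  have := hκ t (by have := (mem_Ioc.1 ht).1; omega) (mem_Ioc.1 ht).2
  unfold wt
  positivity

end Pool.Agent.Lib.MP_9ff3e7_ag.F
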