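import Pool.Agent.Lib.MP_9ff3e7_ag.F.XMain
import Pool.Agent.Lib.MP_9ff3e7_ag.F.NBound
import Pool.Agent.Lib.MP_9ff3e7_ag.F.NGeo
import Pool.Agent.Lib.MP_9ff3e7_ag.F.NSDefs2
import Pool.Agent.Lib.MP_9ff3e7_ag.F.NStep

/-! The numerical criterion for freeness. -/

set_option autoImplicit false

namespace Pool.Agent.Lib.MP_9ff3e7_ag.F

open Finset Main

theorem fujita_num {S : Type} [CommRing S] [IsDomain S] [Algebra ℂ S]
    (𝒜 : ℕ → Submodule ℂ S) [GradedAlgebra 𝒜]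
    (hfg : ∃ s : Finset S, (∀ a ∈ s, a ∈ 𝒜 1) ∧ Algebra.adjoin ℂ (s : Set S) = ⊤)
    (n : ℕ) (hn : Algebra.trdeg ℂ (Fn 𝒜) = n)
    (A : Cartier 𝒜) (k : ℕ) (hk : 0 < k) (hA : A.Hyperplane k) (x : Sm 𝒜)
    (κ : ℕ → ℝ) (h1 : 0 < κ 1) (hm : ∀ d d', 1 ≤ d → d ≤ d' → d' ≤ n → κ d ≤ κ d')
    (hdeg : ∀ I : Ideal S, I.IsPrime → I.IsHomogeneous 𝒜 → (∀ a ∈ I, x.1.1 a = 0) →
      ∀ d a : ℕ, 1 ≤ d → d ≤ n → HasDeg 𝒜 I d (k ^ d * a) → κ d ^ d ≤ a)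
    (m : ℕ) (hs : ∑ d ∈ Icc 1 n, 1 / κ d < m) : A.FreeSm n m x := by
  obtain ⟨x, hxs⟩ := x
  have hg1 : Gen1 𝒜 := hfg
  have hr := sec hg1 A hk hA
  obtain ⟨θ, hθ⟩ := id hA
  obtain ⟨j, g, hg, hxg, hnear⟩ := A.near x
  obtain ⟨c, hx, hin, hz, ⟨N, hN⟩, -⟩ := exists_chart_lin hg1 hn x hxs hg hxg
  obtain ⟨u0, -, e0⟩ := hθ x c.l c.l.2 hx.1
  have hu0 : ∀ q, c.In q → UnitAt q u0 := by
    intro q hq
    obtain ⟨v, hv, ev⟩ := hθ q c.l c.l.2 hq.1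
    refine unit_aux (k := k) hv (hnear q (hin q hq)) ?_
    exact Subtype.ext (mul_right_cancel₀ (alg_ne c.l0) (e0.symm.trans ev))
  obtain ⟨u, hu⟩ := c.unit_of_loc hu0
  obtain ⟨M, -⟩ := exists_model c.pres
  have hkR : (0 : ℝ) < k := by positivity
  have hm0 : 0 < m := by
    have : 0 ≤ ∑ d ∈ Icc 1 n, 1 / κ d := sum_nonneg fun d hd =>
      (one_div_pos.2 (h1.trans_le (hm 1 d le_rfl (mem_Icc.1 hd).1 (mem_Icc.1 hd).2))).le
    exact_mod_cast this.trans_lt hs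
  have hnum := chart_numHyp c hg1 hk hr (c.filt hg1 hn A hk hA hz) rfl hx (fun d => k * κ d)
    (by positivity) (fun d d' a b e => mul_le_mul_of_nonneg_left (hm d d' a b e) hkR.le)
    fun I i1 i2 i3 d a d1 dn hd => by
      have := hdeg I i1 i2 i3 d a d1 dn (by exact_mod_cast hd)
      rw [mul_pow]
      push_cast
      gcongr
  obtain ⟨f, hf, hb⟩ := end_bound3 M (c.filt hg1 hn A hk hA hz) (c.pt hx) ((m : ℝ) / k)
    (core3 (kax M) hnum (by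
      rw [lt_div_iff₀ hkR, sum_mul]
      refine lt_of_eq_of_lt (sum_congr rfl fun d _ => ?_) hs
      rw [one_div, mul_inv, mul_right_comm, inv_mul_cancel₀ hkR.ne', one_mul, one_div]))
    (fun j f hf => by
      have := c.fil_fin hg1 1
      exact red_growth c.z (c.fil 1) N hN j f (by rwa [← c.fil_pow hg1])) u
  refine ⟨((f : Fn 𝒜) / A.eqn x ^ m : Fn 𝒜) • c.dz, fun ⟨q, hqs⟩ => ?_, ?_⟩
  · obtain ⟨c1, hq, -⟩ := exists_chart hg1 hn q hqs (SetLike.one_mem_graded 𝒜) (by simp)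
    exact end_sec_at (@end_reg n) A k m hk hm0 θ hθ x c hz u (by rw [hu]; exact e0) f hb
      c1 q hq
  have ha : A.eqn x ≠ 0 := fun h => (hnear x hxg).1 (by simp [h])
  let r : loc x := ⟨f, c.le_loc hx f.2⟩
  have hr : UnitAt x (r : Fn 𝒜) := unitAt_iff.2 (by
    have : ev x r = 1 := hf
    rw [this]; exact one_ne_zero)
  have hunit : IsUnit r := IsUnit.of_mul_eq_one (⟨_, hr.2.2⟩ : loc x)
    (Subtype.ext (mul_inv_cancel₀ hr.1))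
  change A.Gen n m _ x
  rw [Cartier.Gen, smul_smul, mul_div_cancel₀ _ (pow_ne_zero _ ha), c.canon_eq hx]
  exact (Submodule.span_singleton_smul_eq hunit c.dz).symm

end Pool.Agent.Lib.MP_9ff3e7_ag.F
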