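import Pool.Agent.Lib.MP_9ff3e7_ag.F.SepAbs
import Pool.Agent.Lib.MP_9ff3e7_ag.F.Split

/-! The separating functional of a step. -/

set_option autoImplicit false

namespace Pool.Agent.Lib.MP_9ff3e7_ag.F

open Finset Finsupp

variable {O : Type} [CommRing O]

/-- separation before the functional is made monotone -/
theorem separation_raw {Y : Type} (K : Y → (Ideal O →₀ ℝ) → Prop)
    (drop : ∀ y D D', 0 ≤ D' → D' ≤ D → K y D → K y D') (L : ℕ) (N : ℕ → ℕ)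
    (F : ℕ → ℕ → Ideal O) (Q : Ideal O) (c : ℕ → ℝ) (hc : ∀ i < L, 0 ≤ c i)
    (conv : ∀ y y' D D', 0 ≤ D → 0 ≤ D' → K y D → K y' D' → ∀ l : ℝ, 0 ≤ l → l ≤ 1 →
      ∃ y'', K y'' (l • D + (1 - l) • D'))
    (small : ∃ y, ∃ e : ℝ, 0 < e ∧
      K y (∑ i ∈ range L, ∑ r ∈ range (N i), single (F i r) e + single Q e))
    (inn : ∀ ρ : ℝ, 0 < ρ → ρ < 1 →
      ∃ y, K y (∑ i ∈ range L, ∑ r ∈ range (N i), single (F i r) (ρ * c i)))
    (Kc : ℝ) (out : ∀ y, ∀ e b : ℝ, 0 < e → e < 1 → 0 ≤ b →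
      K y (∑ i ∈ range L, ∑ r ∈ range (N i), single (F i r) ((1 - e) * c i) + single Q b) →
      b ≤ Kc * e) :
    ∃ (a : ℕ → ℕ → ℝ) (κ : ℝ), 0 < κ ∧ (∀ i r, 0 ≤ a i r) ∧ (∀ i r, N i ≤ r → a i r = 0) ∧
      ∑ i ∈ range L, c i * ∑ r ∈ range (N i), a i r = 1 ∧
      ∀ y (w : ℕ → ℕ → ℝ) (b : ℝ), (∀ i r, 0 ≤ w i r) → 0 ≤ b →
        K y (∑ i ∈ range L, ∑ r ∈ range (N i), single (F i r) (w i r) + single Q b) →
        ∑ i ∈ range L, ∑ r ∈ range (N i), w i r * a i r + b * κ ≤ 1 := by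
  classical
  set s : Finset (Σ _ : ℕ, ℕ) := (range L).sigma fun i => range (N i) with hs
  have hsum : ∀ {M : Type} [AddCommMonoid M] (f : ℕ → ℕ → M),
      ∑ x : s, f x.1.1 x.1.2 = ∑ i ∈ range L, ∑ r ∈ range (N i), f i r := by
    intro M _ f
    rw [sum_coe_sort s (fun x => f x.1 x.2), hs, sum_sigma]
  set Ψ : (s → ℝ) × ℝ → Ideal O →₀ ℝ :=
    fun p => ∑ x : s, single (F x.1.1 x.1.2) (p.1 x) + single Q p.2 with hΨ
  have hΨ0 : ∀ p, 0 ≤ p → 0 ≤ Ψ p := fun p hp =>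
    add_nonneg (sum_nonneg fun x _ => single_nonneg.2 (hp.1 x)) (single_nonneg.2 hp.2)
  have hΨm : ∀ p q, p ≤ q → Ψ p ≤ Ψ q := fun p q h =>
    add_le_add (sum_le_sum fun x _ => single_le_single.2 (h.1 x)) (single_le_single.2 h.2)
  have hΨw : ∀ (w : ℕ → ℕ → ℝ) (b : ℝ), Ψ (fun x => w x.1.1 x.1.2, b) =
      ∑ i ∈ range L, ∑ r ∈ range (N i), single (F i r) (w i r) + single Q b := by
    intro w b
    simp only [hΨ]
    rw [hsum fun i r => single (F i r) (w i r)]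
  have hcx : ∀ x : s, 0 ≤ c x.1.1 := fun x => hc _ (mem_range.1 (mem_sigma.1 x.2).1)
  have hK : 0 < |Kc| + 1 := by positivity
  obtain ⟨a0, κ, ha0, hκ, hone, hle⟩ := sep_abs {p : (s → ℝ) × ℝ | 0 ≤ p ∧ ∃ y, K y (Ψ p)}
    (by
      rintro p ⟨hp, y, hy⟩ q ⟨hq, y', hy'⟩ l t hl ht hlt
      obtain rfl : t = 1 - l := by linarith
      refine ⟨add_nonneg (smul_nonneg hl hp) (smul_nonneg ht hq), ?_⟩
      obtain ⟨y'', h⟩ := conv y y' _ _ (hΨ0 p hp) (hΨ0 q hq) hy hy' l hl (by linarith)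
      refine ⟨y'', ?_⟩
      convert h using 1
      simp only [hΨ, Prod.fst_add, Prod.smul_fst, Pi.add_apply, Pi.smul_apply, Prod.snd_add,
        Prod.smul_snd, single_add, sum_add_distrib, smul_add, Finset.smul_sum, smul_single]
      abel)
    (by
      rintro p ⟨-, y, hy⟩ q hq hqp
      exact ⟨hq, y, drop y _ _ (hΨ0 q hq) (hΨm q p hqp) hy⟩)
    (by
      obtain ⟨y, e, he, hy⟩ := small
      exact ⟨e, he, ⟨fun _ => he.le, he.le⟩, y, by rw [hΨw fun _ _ => e]; exact hy⟩)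
    (fun x => c x.1.1) hcx
    (by
      intro ρ h0 h1
      obtain ⟨y, hy⟩ := inn ρ h0 h1
      refine ⟨⟨fun x => mul_nonneg h0.le (hcx x), le_rfl⟩, y, ?_⟩
      rw [hΨw fun i _ => ρ * c i]; simpa using hy)
    hK
    (by
      rintro e h0 h1 ⟨-, y, hy⟩
      rw [hΨw fun i _ => (1 - e) * c i] at hy
      have := out y e _ h0 h1 (by positivity) hy
      nlinarith [le_abs_self Kc])
  set a : ℕ → ℕ → ℝ := fun i r => if h : (⟨i, r⟩ : Σ _ : ℕ, ℕ) ∈ s then a0 ⟨_, h⟩ else 0 with ha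
  have hax : ∀ x : s, a x.1.1 x.1.2 = a0 x := fun x => by simp only [ha]; rw [dif_pos x.2]
  refine ⟨a, κ, lt_of_lt_of_le (by positivity) hκ, fun i r => ?_, fun i r h => ?_, ?_,
    fun y w b hw hb hy => ?_⟩
  · simp only [ha]; split_ifs; exacts [ha0 _, le_rfl]
  · simp only [ha]
    rw [dif_neg]
    intro h'
    exact absurd (mem_range.1 (mem_sigma.1 h').2) (not_lt.2 h)
  · simp only [Finset.mul_sum]
    rw [← hsum fun i r => c i * a i r, ← hone]
    exact sum_congr rfl fun x _ => by rw [hax]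
  · have := hle (fun x => w x.1.1 x.1.2, b) ⟨⟨fun x => hw _ _, hb⟩, y, by rw [hΨw]; exact hy⟩
    rw [← hsum fun i r => w i r * a i r]
    simpa only [hax] using this

/-- SEPARATION: a monotone non negative functional, at most `1` on all klt pairs built from any
family `G` on which it is constant between breaks -/
theorem separation {Y : Type} (K : Y → (Ideal O →₀ ℝ) → Prop)
    (le : Y → Ideal O → Ideal O → Prop) (hC : ∀ y, Calc (K y) (le y)) (L : ℕ) (N : ℕ → ℕ)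
    (hN : ∀ i < L, 0 < N i) (F : ℕ → ℕ → Ideal O)
    (hF : ∀ i < L, ∀ r r', r ≤ r' → r' ≤ N i → F i r' ≤ F i r)
    (Q : Ideal O) (c : ℕ → ℝ) (hc : ∀ i < L, 0 ≤ c i)
    (conv : ∀ y y' D D', 0 ≤ D → 0 ≤ D' → K y D → K y' D' → ∀ l : ℝ, 0 ≤ l → l ≤ 1 →
      ∃ y'', K y'' (l • D + (1 - l) • D'))
    (small : ∃ y, ∃ e : ℝ, 0 < e ∧
      K y (∑ i ∈ range L, ∑ r ∈ range (N i), single (F i r) e + single Q e))
    (inn : ∀ ρ : ℝ, 0 < ρ → ρ < 1 →
      ∃ y, K y (∑ i ∈ range L, ∑ r ∈ range (N i), single (F i r) (ρ * c i)))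
    (Kc : ℝ) (out : ∀ y, ∀ e b : ℝ, 0 < e → e < 1 → 0 ≤ b →
      K y (∑ i ∈ range L, ∑ r ∈ range (N i), single (F i r) ((1 - e) * c i) + single Q b) →
      b ≤ Kc * e) :
    ∃ (a : ℕ → ℕ → ℝ) (κ : ℝ), 0 < κ ∧ (∀ i r, 0 ≤ a i r) ∧ (∀ i, Monotone (a i)) ∧
      (∀ i < L, a i (N i) = a i (N i - 1)) ∧
      1 ≤ ∑ i ∈ range L, c i * ∑ r ∈ range (N i), a i r ∧
      ∀ G : ℕ → ℕ → Ideal O,
        (∀ i < L, ∀ r ≤ N i, ∃ r0 ≤ N i, a i r ≤ a i r0 ∧ G i r ≤ F i r0) →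
        ∀ y (w : ℕ → ℕ → ℝ) (b : ℝ), (∀ i r, 0 ≤ w i r) → 0 ≤ b →
          K y (∑ i ∈ range L, ∑ r ∈ range (N i + 1), single (G i r) (w i r) + single Q b) →
          ∑ i ∈ range L, ∑ r ∈ range (N i + 1), w i r * a i r + b * κ ≤ 1 := by
  classical
  obtain ⟨a1, κ, hκ, h0, hz, hone, hle⟩ := separation_raw K (fun y => (hC y).drop) L N F Q c hc
    conv small inn Kc out
  set a : ℕ → ℕ → ℝ := fun i r => (range (r + 1)).sup' nonempty_range_add_one (a1 i) with ha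
  have h1a : ∀ i r r', r' ≤ r → a1 i r' ≤ a i r := fun i r r' h =>
    le_sup' (a1 i) (mem_range.2 (Nat.lt_succ_of_le h))
  have hmono : ∀ i, Monotone (a i) := fun i r r' h =>
    sup'_le _ _ fun t ht => h1a i r' t ((Nat.le_of_lt_succ (mem_range.1 ht)).trans h)
  have hatt : ∀ i < L, ∀ r, ∃ r' < N i, r' ≤ r ∧ a i r ≤ a1 i r' := by
    intro i hi r
    obtain ⟨t, ht, e⟩ := exists_mem_eq_sup' (nonempty_range_add_one (n := r)) (a1 i)
    by_cases h : t < N i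
    · exact ⟨t, h, Nat.le_of_lt_succ (mem_range.1 ht), e.le⟩
    · refine ⟨0, hN i hi, Nat.zero_le _, e.le.trans ?_⟩
      rw [hz i t (not_lt.1 h)]; exact h0 i 0
  refine ⟨a, κ, hκ, fun i r => (h0 i r).trans (h1a i r r le_rfl), hmono, fun i hi => ?_, ?_,
    fun G hG y w b hw hb hy => ?_⟩
  · refine le_antisymm ?_ (hmono i (Nat.sub_le _ _))
    obtain ⟨r', h1, -, h3⟩ := hatt i hi (N i)
    exact h3.trans (h1a i _ _ (by omega))
  · rw [← hone]
    exact sum_le_sum fun i hi => mul_le_mul_of_nonneg_left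
      (sum_le_sum fun r _ => h1a i r r le_rfl) (hc i (mem_range.1 hi))
  · have hβ : ∀ i r, ∃ t, i < L → r ≤ N i → t < N i ∧ a i r ≤ a1 i t ∧ G i r ≤ F i t := by
      intro i r
      by_cases h : i < L ∧ r ≤ N i
      · obtain ⟨r0, hr0, h1, h2⟩ := hG i h.1 r h.2
        obtain ⟨t, ht, ht', h3⟩ := hatt i h.1 r0
        exact ⟨t, fun _ _ => ⟨ht, h1.trans h3, h2.trans (hF i h.1 t r0 ht' hr0)⟩⟩
      · exact ⟨0, fun h1 h2 => absurd ⟨h1, h2⟩ h⟩
    choose β hβ using hβ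
    have hr : ∀ {i r : ℕ}, r ∈ range (N i + 1) → r ≤ N i := fun h =>
      Nat.le_of_lt_succ (mem_range.1 h)
    have himp : Imp (K y) (∑ i ∈ range L, ∑ r ∈ range (N i + 1), single (G i r) (w i r))
        (∑ i ∈ range L, ∑ r ∈ range (N i + 1), single (F i (β i r)) (w i r)) :=
      Imp.sum _ _ _ (fun i _ => sum_nonneg fun r _ => single_nonneg.2 (hw i r))
        (fun i _ => sum_nonneg fun r _ => single_nonneg.2 (hw i r)) fun i hi =>
        Imp.sum _ _ _ (fun r _ => single_nonneg.2 (hw i r)) (fun r _ => single_nonneg.2 (hw i r))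
          fun r h => Imp.of_le (hC y) (hw i r) (hβ i r (mem_range.1 hi) (hr h)).2.2
    have h2 := himp (single Q b) (single_nonneg.2 hb) (by rwa [add_comm])
    set w' : ℕ → ℕ → ℝ := fun i t => ∑ r ∈ range (N i + 1) with β i r = t, w i r with hw'
    have hmap : ∀ i ∈ range L, ∀ r ∈ range (N i + 1), β i r ∈ range (N i) := fun i hi r h =>
      mem_range.2 (hβ i r (mem_range.1 hi) (hr h)).1
    have e1 : ∑ i ∈ range L, ∑ r ∈ range (N i + 1), single (F i (β i r)) (w i r) =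
        ∑ i ∈ range L, ∑ t ∈ range (N i), single (F i t) (w' i t) := by
      refine sum_congr rfl fun i hi => ?_
      rw [← sum_fiberwise_of_maps_to (hmap i hi)]
      refine sum_congr rfl fun t _ => ?_
      simp only [hw']
      rw [single_finsetSum]
      exact sum_congr rfl fun r h => by rw [(mem_filter.1 h).2]
    have e2 : ∑ i ∈ range L, ∑ r ∈ range (N i + 1), w i r * a1 i (β i r) =
        ∑ i ∈ range L, ∑ t ∈ range (N i), w' i t * a1 i t := by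
      refine sum_congr rfl fun i hi => ?_
      rw [← sum_fiberwise_of_maps_to (hmap i hi)]
      refine sum_congr rfl fun t _ => ?_
      simp only [hw']
      rw [Finset.sum_mul]
      exact sum_congr rfl fun r h => by rw [(mem_filter.1 h).2]
    rw [add_comm, e1] at h2
    have h3 := hle y w' b (fun i t => sum_nonneg fun r _ => hw i r) hb h2
    rw [← e2] at h3
    refine le_trans (add_le_add_left ?_ _) h3
    exact sum_le_sum fun i hi => sum_le_sum fun r h =>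
      mul_le_mul_of_nonneg_left (hβ i r (mem_range.1 hi) (hr h)).2.1 (hw i r)

end Pool.Agent.Lib.MP_9ff3e7_ag.F
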