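import Pool.Agent.Lib.MP_9ff3e7_ag.F.KAx
import Pool.Agent.Lib.MP_9ff3e7_ag.F.Sep
import Pool.Agent.Lib.MP_9ff3e7_ag.F.Upd
import Pool.Agent.Lib.MP_9ff3e7_ag.F.NextP

/-! The hypotheses of the separation lemma, from K1 - K8. -/

set_option autoImplicit false

namespace Pool.Agent.Lib.MP_9ff3e7_ag.F

open Filter Topology Finsupp Finset

variable {n : ℕ} {O : Type} [CommRing O] [Algebra ℂ O] [Algebra (MvPolynomial (Fin n) ℂ) O]
  {M : Model n O}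

/-- klt pairs at two points of an irreducible closed set are both klt at a third point -/
theorem KAx0.common (h : KAx0 M) {Q : Ideal O} (hQ : Q.IsPrime) {y y' : Pnt O}
    (hy : ∀ s ∈ Q, y s = 0) (hy' : ∀ s ∈ Q, y' s = 0) {D D' : Ideal O →₀ ℝ} (hD : 0 ≤ D)
    (hD' : 0 ≤ D') (hK : M.Klt y D) (hK' : M.Klt y' D') :
    ∃ z : Pnt O, (∀ s ∈ Q, z s = 0) ∧ M.Klt z D ∧ M.Klt z D' := by
  obtain ⟨f, hf, hf2⟩ := h.zar y D hD hK
  obtain ⟨f', hf', hf2'⟩ := h.zar y' D' hD' hK'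
  have hn : f * f' ∉ Q := fun hm => (hQ.mem_or_mem hm).elim (fun a => hf (hy f a))
    (fun a => hf' (hy' f' a))
  obtain ⟨z, hz, hz2⟩ := (h.dense y Q (f * f') hQ hy hn).exists
  rw [map_mul] at hz2
  exact ⟨z, hz, hf2 z (left_ne_zero_of_mul hz2), hf2' z (right_ne_zero_of_mul hz2)⟩

/-- convexity of the set of pairs which are klt at some point of `V(Q)` -/
theorem KAx0.conv_prime (h : KAx0 M) {Q : Ideal O} (hQ : Q.IsPrime) {y y' : Pnt O}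
    (hy : ∀ s ∈ Q, y s = 0) (hy' : ∀ s ∈ Q, y' s = 0) {D D' : Ideal O →₀ ℝ} (hD : 0 ≤ D)
    (hD' : 0 ≤ D') {l : ℝ} (l0 : 0 ≤ l) (l1 : l ≤ 1) (hK : M.Klt y D) (hK' : M.Klt y' D') :
    ∃ z : Pnt O, (∀ s ∈ Q, z s = 0) ∧ M.Klt z (l • D + (1 - l) • D') := by
  obtain ⟨z, hz, h1, h2⟩ := h.common hQ hy hy' hD hD' hK hK'
  exact ⟨z, hz, h.convex z D D' l hD hD' l0 l1 h1 h2⟩

/-- finitely many nonzero ideals with a small common coefficient are klt -/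
theorem KAx0.small_sum (h : KAx0 M) (y : Pnt O) {ι : Type} (s : Finset ι) (a : ι → Ideal O)
    (ha : ∀ i ∈ s, a i ≠ ⊥) : ∃ e : ℝ, 0 < e ∧ M.Klt y (∑ i ∈ s, single (a i) e) := by
  classical
  induction s using Finset.induction_on with
  | empty => exact ⟨1, one_pos, by simpa using h.zero y⟩
  | insert i s hi ih =>
    obtain ⟨e, he, hK⟩ := ih fun k hk => ha k (mem_insert_of_mem hk)
    obtain ⟨c, hc, hc2⟩ := h.skoda y (a i) (ha i (mem_insert_self _ _))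
    have p1 : (0 : Ideal O →₀ ℝ) ≤ single (a i) c := single_nonneg.2 hc.le
    have p2 : (0 : Ideal O →₀ ℝ) ≤ ∑ k ∈ s, single (a k) e :=
      sum_nonneg fun k _ => single_nonneg.2 he.le
    have hm : 0 < min c e / 2 := by positivity
    refine ⟨min c e / 2, hm, ?_⟩
    rw [sum_insert hi]
    refine h.drop y _ _ (add_nonneg (single_nonneg.2 hm.le)
      (sum_nonneg fun k _ => single_nonneg.2 hm.le)) ?_
      (h.convex y _ _ (1 / 2) p1 p2 (by norm_num) (by norm_num) hc2 hK)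
    rw [smul_single, Finset.smul_sum]
    refine add_le_add (single_le_single.2 ?_) (sum_le_sum fun k _ => ?_)
    · have := min_le_left c e
      rw [smul_eq_mul]; linarith
    · rw [smul_single]
      refine single_le_single.2 ?_
      have := min_le_right c e
      rw [smul_eq_mul]; linarith

/-- the form of `small_sum` used by the separation lemma -/
theorem KAx0.small_flag (h : KAx0 M) (y : Pnt O) (L : ℕ) (N : ℕ → ℕ) (F : ℕ → ℕ → Ideal O)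
    (Q : Ideal O) (hF : ∀ i < L, ∀ r < N i, F i r ≠ ⊥) (hQ : Q ≠ ⊥) :
    ∃ e : ℝ, 0 < e ∧
      M.Klt y (∑ i ∈ range L, ∑ r ∈ range (N i), single (F i r) e + single Q e) := by
  classical
  obtain ⟨e, he, hK⟩ := h.small_sum y
    (insert none (((range L).sigma fun i => range (N i)).map Function.Embedding.some))
    (fun o : Option (Σ _ : ℕ, ℕ) => o.elim Q fun p => F p.1 p.2) (by
      intro o ho
      rcases mem_insert.1 ho with rfl | ho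
      · exact hQ
      · obtain ⟨p, hp, rfl⟩ := mem_map.1 ho
        rw [mem_sigma, mem_range, mem_range] at hp
        exact hF p.1 hp.1 p.2 hp.2)
  refine ⟨e, he, ?_⟩
  rw [sum_insert (by simp), sum_map, sum_sigma, add_comm] at hK
  exact hK

omit [Algebra ℂ O] in
theorem smul_flag (L : ℕ) (N : ℕ → ℕ) (F : ℕ → ℕ → Ideal O) (c : ℕ → ℝ) (t : ℝ) :
    t • ∑ i ∈ range L, ∑ r ∈ range (N i), single (F i r) (c i) =
      ∑ i ∈ range L, ∑ r ∈ range (N i), single (F i r) (t * c i) := by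
  simp only [Finset.smul_sum, smul_single, smul_eq_mul]

omit [Algebra ℂ O] in
theorem flag_nonneg (L : ℕ) (N : ℕ → ℕ) (F : ℕ → ℕ → Ideal O) (c : ℕ → ℝ)
    (hc : ∀ i < L, 0 ≤ c i) :
    (0 : Ideal O →₀ ℝ) ≤ ∑ i ∈ range L, ∑ r ∈ range (N i), single (F i r) (c i) :=
  sum_nonneg fun i hi => sum_nonneg fun _ _ => single_nonneg.2 (hc i (mem_range.1 hi))

/-- the separating functional at the centre `Q`, over K1 - K8 -/
theorem separation_M (hK : KAx M) (x : Pnt O) (L : ℕ) (N : ℕ → ℕ) (hN : ∀ i < L, 0 < N i)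
    (F : ℕ → ℕ → Ideal O) (hF : ∀ i < L, ∀ r r', r ≤ r' → r' ≤ N i → F i r' ≤ F i r)
    (hF0 : ∀ i < L, ∀ r < N i, F i r ≠ ⊥) (c : ℕ → ℝ) (hc : ∀ i < L, 0 ≤ c i)
    (Q : Ideal O) (hQ0 : Q ≠ ⊥) (hx : ∀ s ∈ Q, x s = 0)
    (hin : ∀ ρ : ℝ, 0 < ρ → ρ < 1 →
      M.Klt x (∑ i ∈ range L, ∑ r ∈ range (N i), single (F i r) (ρ * c i)))
    {η₀ : ℝ} (hη : 0 < η₀)
    (hmin : Q ∈ (M.nkltI
      ((1 + η₀) • ∑ i ∈ range L, ∑ r ∈ range (N i), single (F i r) (c i))).minimalPrimes)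
    (hst : ∀ η : ℝ, 0 < η → η ≤ η₀ → ∀ y : Pnt O, (∀ s ∈ Q, y s = 0) →
      ¬ M.Klt y ((1 + η) • ∑ i ∈ range L, ∑ r ∈ range (N i), single (F i r) (c i))) :
    ∃ (a : ℕ → ℕ → ℝ) (κ : ℝ), 0 < κ ∧ (∀ i r, 0 ≤ a i r) ∧ (∀ i, Monotone (a i)) ∧
      (∀ i < L, a i (N i) = a i (N i - 1)) ∧
      1 ≤ ∑ i ∈ range L, c i * ∑ r ∈ range (N i), a i r ∧
      ∀ G : ℕ → ℕ → Ideal O,
        (∀ i < L, ∀ r ≤ N i, ∃ r0 ≤ N i, a i r ≤ a i r0 ∧ G i r ≤ F i r0) →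
        ∀ y : Pnt O, (∀ s ∈ Q, y s = 0) → I3One (M.Klt y) L N Q G a κ := by
  have hQ : Q.IsPrime := hmin.1.1
  obtain ⟨Kc, -, hKc⟩ := hK.theta _ η₀ Q (flag_nonneg L N F c hc) hη hmin hst
  obtain ⟨a, κ, h1, h2, h3, h4, h5, h6⟩ := separation (Y := {y : Pnt O // ∀ s ∈ Q, y s = 0})
    (fun y => M.Klt y.1) (fun y => LeAt y.1) (fun y => hK.toKAx0.calc y.1) L N hN F hF Q c hc
    (fun y y' D D' hD hD' k k' l l0 l1 => by
      obtain ⟨z, hz, hz2⟩ := hK.toKAx0.conv_prime hQ y.2 y'.2 hD hD' l0 l1 k k'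
      exact ⟨⟨z, hz⟩, hz2⟩)
    ⟨⟨x, hx⟩, hK.toKAx0.small_flag x L N F Q hF0 hQ0⟩
    (fun ρ h0 h1 => ⟨⟨x, hx⟩, hin ρ h0 h1⟩) Kc
    (fun y e b e0 e1 b0 k => hKc e b y.1 e0.le e1.le b0 y.2 (by rwa [smul_flag]))
  exact ⟨a, κ, h1, h2, h3, h4, h5, fun G hG y hy w b hw hb k => h6 G hG ⟨y, hy⟩ w b hw hb k⟩

/-- centre, separation and new breaks in one statement: series `0 .. j`, flag `F` of the gauge -/
theorem centre_sep (hK : KAx M) (x : Pnt O) (j : ℕ) (N : ℕ → ℕ) (hN : ∀ i < j + 1, 0 < N i)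
    (F : ℕ → ℕ → Ideal O) (hF : ∀ i < j + 1, ∀ r r', r ≤ r' → r' ≤ N i → F i r' ≤ F i r)
    (hF0 : ∀ i < j + 1, ∀ r < N i, F i r ≠ ⊥) (c : ℕ → ℝ) (hc : ∀ i < j + 1, 0 ≤ c i)
    (Br : ℕ → Set ℕ) (hBr : ∀ i < j + 1, N i ∈ Br i) {ρ₀ : ℝ} (hρ : 1 < ρ₀)
    (hold : M.Klt x (∑ i ∈ range j, ∑ r ∈ range (N i), single (F i r) (ρ₀ * c i)))
    (hin : ∀ ρ : ℝ, 0 < ρ → ρ < 1 →
      M.Klt x (∑ i ∈ range (j + 1), ∑ r ∈ range (N i), single (F i r) (ρ * c i)))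
    (hout : ∀ η : ℝ, 0 < η →
      ¬ M.Klt x (∑ i ∈ range (j + 1), ∑ r ∈ range (N i), single (F i r) ((1 + η) * c i))) :
    ∃ (Q : Ideal O) (a : ℕ → ℕ → ℝ) (g : ℝ), Q.IsPrime ∧ (∀ s ∈ Q, x s = 0) ∧
      F j (N j - 1) ≤ Q ∧ 0 < g ∧ (∀ i r, 0 ≤ a i r) ∧ (∀ i, Monotone (a i)) ∧
      1 ≤ ∑ i ∈ range (j + 1), c i * ∑ r ∈ range (N i), a i r ∧
      (∀ i < j + 1, ∀ r < N i, a i (r - 1) < a i r → a i (r - 1) + g ≤ a i r) ∧
      ∀ y : Pnt O, (∀ s ∈ Q, y s = 0) → I3One (M.Klt y) (j + 1) N Q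
        (fun i r => F i (pb (newBr (Br i) (N i) (a i)) r)) a g := by
  classical
  have := hK.ft
  have : IsNoetherianRing O := Algebra.FiniteType.isNoetherianRing ℂ O
  have hNj := hN j (Nat.lt_succ_self j)
  obtain ⟨η₀, Q, hη, hQ, hx, hmin, hst, hT⟩ := next_prime M.Klt hK.drop hK.unit hK.toKAx0.zar x
    (D1 := ∑ i ∈ range j, ∑ r ∈ range (N i), single (F i r) (c i))
    (D2 := ∑ r ∈ range (N j), single (F j r) (c j))
    (flag_nonneg j N F c fun i hi => hc i (by omega))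
    (sum_nonneg fun _ _ => single_nonneg.2 (hc j (Nat.lt_succ_self j))) (F j (N j - 1))
    (fun a ha => by
      obtain ⟨r, hr, hr2⟩ := mem_biUnion.1 (support_finsetSum ha)
      obtain rfl := mem_singleton.1 (support_single_subset hr2)
      have := mem_range.1 hr
      exact hF j (Nat.lt_succ_self j) r _ (by omega) (by omega))
    hρ (by rwa [smul_flag]) (fun η h => by
      rw [← sum_range_succ (fun i => ∑ r ∈ range (N i), single (F i r) (c i)) j, smul_flag]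
      exact hout η h)
  rw [← sum_range_succ (fun i => ∑ r ∈ range (N i), single (F i r) (c i)) j] at hmin hst
  have hQ0 : Q ≠ ⊥ := fun h => hF0 j (Nat.lt_succ_self j) (N j - 1) (by omega)
    (le_bot_iff.1 (h ▸ hT))
  obtain ⟨a, κ, h1, h2, h3, -, h5, h6⟩ := separation_M hK x (j + 1) N hN F hF hF0 c hc Q hQ0 hx hin
    hη hmin hst
  obtain ⟨g, g0, g1, g2⟩ := exists_gap (j + 1) N a h1
  refine ⟨Q, a, g, hQ, hx, hT, g0, h2, h3, h5, g2, fun y hy => ?_⟩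
  exact (h6 _ (fun i hi r hr => ⟨_, (pb_le _ r).trans hr, le_pb_newBr (hBr i hi) (a i) hr, le_rfl⟩)
    y hy).refine (hK.toKAx0.calc y) (fun _ _ => rfl) (fun _ _ _ _ => le_rfl)
    (fun _ _ _ _ => le_rfl) g1

end Pool.Agent.Lib.MP_9ff3e7_ag.F
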