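import Pool.Agent.Lib.MP_9ff3e7_ag.F.StepC
import Pool.Agent.Lib.MP_9ff3e7_ag.F.SepHyp

/-! Second half of the step: from the maximising flag to the next state. -/

set_option autoImplicit false

namespace Pool.Agent.Lib.MP_9ff3e7_ag.F

open Module Finset Finsupp Filter

variable {n : ℕ} {O : Type} [CommRing O] [Algebra ℂ O]
  [Algebra (MvPolynomial (Fin n) ℂ) O]
  {M : Model n O} {T : Filt n O} {x : Pnt O} {S : Dat O} {c eps : ℕ → ℝ} {j L : ℕ}

/-- a step of a complete flag before the end is not contained in the end -/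
theorem IsFlag.not_le {V C : Submodule ℂ O} [FiniteDimensional ℂ V] {N : ℕ}
    {F : ℕ → Submodule ℂ O} (h : IsFlag V C N F) {r : ℕ} (hr : r < N) : ¬ F r ≤ C := by
  intro hle
  rw [← h.bot] at hle
  have : FiniteDimensional ℂ (F N) := Submodule.finiteDimensional_of_le
    (h.top ▸ h.anti 0 _ (Nat.zero_le _) le_rfl : F N ≤ V)
  have d1 := Submodule.finrank_mono hle
  have d2 := h.dim N le_rfl
  have d3 := h.dim r hr.le
  omega

theorem step_b (hK : KAx M) (h : Inv M T x S c eps j (j + 1))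
    (hs : ∀ m, 1 ≤ m → m ≤ j → 1 - 2 * eps m < S.val c m) (h6 : I6 T S (j + 1) c)
    (hspan : Ideal.span (S.cap T j : Set O) = S.P j) {F : ℕ → ℕ → Submodule ℂ O}
    (hF : S.Fam T (j + 1) F) {ρ0 : ℝ} (h1 : 1 < ρ0)
    (hk : M.Klt x (Phi j S.N F fun i => ρ0 * c i))
    (hN : ∀ η : ℝ, 0 < η → ¬ M.Klt x (Phi (j + 1) S.N F fun i => (1 + η) * c i)) :
    ∃ S', State M T x S' c eps (j + 1) ∧ S.P j < S'.P (j + 1) := by
  have hjj : j < j + 1 := Nat.lt_succ_self j
  have hfl := (hF j hjj).1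
  have hNp := h.Npos j hjj
  have hfd := T.fd
  obtain ⟨Q, a, g, hQ, hQx, hTQ, hg, ha0, ham, hval, -, h3⟩ := centre_sep hK x j S.N h.Npos
    (fun i r => Ideal.span (F i r : Set O))
    (fun i hi r r' h1 h2 => Ideal.span_mono ((hF i hi).1.anti r r' h1 h2))
    (fun i hi r hr h0 => (hF i hi).1.not_le hr fun s hs' => by
      have : s ∈ Ideal.span (F i r : Set O) := Ideal.subset_span hs'
      rw [h0, Ideal.mem_bot] at this
      rw [this]; exact zero_mem _)
    c h.c0 S.Br h.brN h1 hk (fun ρ h0 h1 => h.i1 ρ h0 h1 F hF) hN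
  have hlt : S.P j < Q := by
    refine lt_of_le_of_ne ?_ fun hEq => ?_
    · rw [← hspan, ← hfl.bot]
      exact (Ideal.span_mono (hfl.anti _ _ (Nat.sub_le _ _) le_rfl)).trans hTQ
    · refine hfl.not_le (r := S.N j - 1) (by omega)
        (le_inf (hfl.top ▸ hfl.anti 0 _ (Nat.zero_le _) (Nat.sub_le _ _)) fun s hs' => ?_)
      have : s ∈ Q := hTQ (Ideal.subset_span hs')
      rwa [← hEq] at this
  obtain ⟨S', e, hS'⟩ := step_close hK h hs h6 hF hQ hQx hlt.le hg ha0
    (fun i _ r r' h1 _ => ham i h1) hval h3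
  exact ⟨S', hS', by rwa [e]⟩

end Pool.Agent.Lib.MP_9ff3e7_ag.F
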