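import Pool.Agent.Lib.MP_9ff3e7_ag.F.PDefs
import Pool.Agent.Lib.MP_9ff3e7_ag.F.StepA
import Pool.Agent.Lib.MP_9ff3e7_ag.F.StepB
import Pool.Agent.Lib.MP_9ff3e7_ag.F.EndMod

/-! The certificate at the second point. -/

set_option autoImplicit false

namespace Pool.Agent.Lib.MP_9ff3e7_ag.F

open Module Finset Finsupp Function

variable {n : ℕ} {O : Type} [CommRing O] [Algebra ℂ O] [Algebra (MvPolynomial (Fin n) ℂ) O]
  {M : Model n O} {T : Filt n O} {x y : Pnt O} {S : Dat O} {c eps : ℕ → ℝ} {j L : ℕ} {Y : Cert O}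

theorem strict_cert (hK : KAx M) (hS : Ser T S L) (hc : ∀ i < L, 0 ≤ c i) (h1 : I1 M T x S L c)
    {F : ℕ → ℕ → Submodule ℂ O} (hF : S.Fam T L F) {ρ : ℝ} (h0 : 0 < ρ) (hρ : ρ < 1)
    (hy : ¬ M.Klt y (Phi L S.N F fun i => ρ * c i)) : ∃ a g Q, Raw M x y S.N c L F a g Q := by
  have := hK.ft
  have : IsNoetherianRing O := Algebra.FiniteType.isNoetherianRing ℂ O
  have hfd := T.fd
  have hF0 : ∀ i < L, ∀ r < S.N i, Ideal.span (F i r : Set O) ≠ ⊥ := fun i hi r hr h0 =>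
    (hF i hi).1.not_le hr fun s hs' => by
      have : s ∈ Ideal.span (F i r : Set O) := Ideal.subset_span hs'
      rw [h0, Ideal.mem_bot] at this
      rw [this]; exact zero_mem _
  have p0 : 0 ≤ Phi L S.N F c := Phi_nonneg hc
  have dn : ∀ s t : ℝ, 0 ≤ s → s ≤ t → M.Klt y (t • Phi L S.N F c) →
      M.Klt y (s • Phi L S.N F c) := fun s t s0 st =>
    hK.drop y _ _ (smul_nonneg s0 p0) (smul_le_smul_of_nonneg_right st p0)
  rw [Phi_smul] at hy
  set A : Set ℝ := {t | 0 ≤ t ∧ M.Klt y (t • Phi L S.N F c)} with hA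
  have bd : ∀ t ∈ A, t ≤ ρ := fun t ht => by
    by_contra hlt
    exact hy (dn _ _ h0.le (not_le.1 hlt).le ht.2)
  have pos : ∃ t ∈ A, 0 < t := by
    obtain ⟨e, he, hk⟩ := hK.toKAx0.small_sum y ((range L).sigma fun i => range (S.N i))
      (fun p => Ideal.span (F p.1 p.2 : Set O)) fun p hp => by
        rw [mem_sigma, mem_range, mem_range] at hp
        exact hF0 _ hp.1 _ hp.2
    have s0 : 0 ≤ ∑ i ∈ range L, c i := sum_nonneg fun i hi => hc i (mem_range.1 hi)
    have t0 : 0 < e / (∑ i ∈ range L, c i + 1) := by positivity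
    refine ⟨_, ⟨t0.le, hK.drop y _ _ (smul_nonneg t0.le p0) ?_ hk⟩, t0⟩
    rw [← Phi_smul, sum_sigma]
    refine sum_le_sum fun i hi => sum_le_sum fun r _ => single_le_single.2 ?_
    have := single_le_sum (f := c) (fun i hi => hc i (mem_range.1 hi)) hi
    beta_reduce
    rw [div_mul_eq_mul_div, div_le_iff₀ (by positivity)]
    nlinarith
  obtain ⟨t, ht, t0⟩ := pos
  have bA : BddAbove A := ⟨ρ, bd⟩
  have s0 : 0 < sSup A := t0.trans_le (le_csSup bA ht)
  have s1 : sSup A < 1 := (csSup_le ⟨t, ht⟩ bd).trans_lt hρ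
  have hin : ∀ r : ℝ, 0 < r → r < 1 → M.Klt y ((r * sSup A) • Phi L S.N F c) := fun r r0 r1 => by
    obtain ⟨u, hu, hlt⟩ := exists_lt_of_lt_csSup ⟨t, ht⟩ (show r * sSup A < sSup A by nlinarith)
    exact dn _ _ (by positivity) hlt.le hu.2
  have hout : ∀ η : ℝ, 0 < η → ¬ M.Klt y ((1 + η) • (0 + sSup A • Phi L S.N F c)) :=
    fun η hη hk => by
      rw [zero_add, smul_smul] at hk
      have := le_csSup bA (show (1 + η) * sSup A ∈ A from ⟨by positivity, hk⟩)
      nlinarith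
  generalize sSup A = s at s0 s1 hin hout
  obtain ⟨η₀, Q, hη, -, hQy, hmin, hst, -⟩ := next_prime M.Klt hK.drop hK.unit hK.toKAx0.zar y
    (D1 := 0) (D2 := s • Phi L S.N F c) le_rfl (smul_nonneg s0.le p0) ⊥ (fun _ _ => bot_le)
    one_lt_two (by simpa using hK.zero y) hout
  rw [zero_add] at hmin hst
  have hx : ∃ f ∈ Q, x f ≠ 0 := by
    by_contra hx
    push Not at hx
    have m0 : 0 < min η₀ ((1 - s) / 2) := lt_min hη (by linarith)
    refine hst _ m0 (min_le_left _ _) x hx ?_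
    rw [smul_smul, ← Phi_smul]
    refine h1 _ (by positivity) ?_ F hF
    nlinarith [min_le_right η₀ ((1 - s) / 2)]
  rw [← Phi_smul] at hmin hst
  obtain ⟨a, g, g0, a0, am, -, hv, h3⟩ := separation_M hK y L S.N hS.Npos
    (fun i r => Ideal.span (F i r : Set O))
    (fun i hi r r' h1 h2 => Ideal.span_mono ((hF i hi).1.anti r r' h1 h2)) hF0
    (fun i => s * c i) (fun i hi => mul_nonneg s0.le (hc i hi)) Q (by
      obtain ⟨f, hf, hf'⟩ := hx
      rintro rfl
      exact hf' (by rw [Ideal.mem_bot.1 hf, map_zero])) hQy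
    (fun r r0 r1 => by
      have := hin r r0 r1
      rw [← Phi_smul] at this
      simpa only [Phi, mul_assoc] using this) hη hmin hst
  refine ⟨a, g, Q, a0, am, g0, h3 _ (fun i _ r hr => ⟨r, hr, le_rfl, le_rfl⟩) y hQy, hx,
    hv.trans (sum_le_sum fun i hi => mul_le_mul_of_nonneg_right ?_ (sum_nonneg fun r _ => a0 i r))⟩
  nlinarith [hc i (mem_range.1 hi)]

theorem Raw.cert (hK : KAx M) {F : ℕ → ℕ → Submodule ℂ O} (hF : S.Fam T L F) {a : ℕ → ℕ → ℝ}
    {g : ℝ} {Q : Ideal O} (h : Raw M x y S.N c L F a g Q) (eps : ℕ → ℝ) (j : ℕ) :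
    ∃ Y, CertOk M T x y S c eps j L Y := by
  have := hK.ft
  have : IsNoetherianRing O := Algebra.FiniteType.isNoetherianRing ℂ O
  obtain ⟨k, hk⟩ := T.exists_cap_span Q
  obtain ⟨e, e0, he, -⟩ := exists_small_eps (j := 0) (fun _ => 0) (fun _ => 0)
    (fun i hi => absurd hi (Nat.not_lt_zero i)) (w := T.kap * (4 / g * k))
    (half_pos (del_pos n))
  exact ⟨⟨L, F, a, g, Q, k, e⟩,
    { Lj := le_rfl, flag := fun i hi => (hF i hi).1, a0 := h.a0, am := h.am, g0 := h.g0, e0 := e0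
      I3 := h.I3, Qx := h.Qx, Qk := hk k le_rfl
      small := le_of_eq_of_le (by simp only; ring) he
      val := lt_of_lt_of_le (by simpa using e0) h.val
      late := fun m _ h1 h2 => absurd h1 (not_le.2 h2)
      brk := fun i hi r hr => Or.inl ((hF i hi).2 r hr).symm }⟩

end Pool.Agent.Lib.MP_9ff3e7_ag.F
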