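import Pool.Agent.Lib.MP_9ff3e7_ag.F.XEtA

/-! One standard etale neighbourhood of two unramified points. -/

set_option autoImplicit false

namespace Pool.Agent.Lib.MP_9ff3e7_ag.F

open Polynomial

namespace PEt

variable {R B : Type} [CommRing R] [Algebra ℂ R] [CommRing B] [Algebra ℂ B] [Algebra R B]

/-- the extension of the maximal ideal below `p` -/
def mB (R : Type) [CommRing R] [Algebra R B] (p : B →ₐ[ℂ] ℂ) : Ideal B :=
  ((RingHom.ker p).comap (algebraMap R B)).map (algebraMap R B)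

/-- `u` witnesses that `p` is unramified -/
def Wit (R : Type) [CommRing R] [Algebra R B] (p : B →ₐ[ℂ] ℂ) (u : B) : Prop :=
  p u ≠ 0 ∧ ∀ s, p s = 0 → u * s ∈ mB R p

omit [Algebra ℂ R] in
theorem mB_ker {p : B →ₐ[ℂ] ℂ} {y : B} (hy : y ∈ mB R p) : p y = 0 :=
  Ideal.map_comap_le (f := algebraMap R B) (K := RingHom.ker p) hy

omit [Algebra ℂ R] in
theorem Wit.add {p : B →ₐ[ℂ] ℂ} {u v : B} (h : Wit R p u) (hv : v - u ∈ mB R p) : Wit R p v := by
  refine ⟨?_, fun s hs => ?_⟩
  · have := mB_ker hv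
    rw [map_sub, sub_eq_zero] at this
    exact this ▸ h.1
  · have : v * s = u * s + (v - u) * s := by ring
    rw [this]
    exact add_mem (h.2 s hs) (Ideal.mul_mem_right _ _ hv)

omit [Algebra ℂ R] in
theorem Wit.mul {p : B →ₐ[ℂ] ℂ} {u : B} (h : Wit R p u) {w : B} (hw : p w ≠ 0) :
    Wit R p (w * u) :=
  ⟨by rw [map_mul]; exact mul_ne_zero hw h.1, fun s hs => by
    rw [mul_assoc]; exact Ideal.mul_mem_left _ _ (h.2 s hs)⟩

theorem exists_sep {A : Type} [CommRing A] [Algebra ℂ A] {p q : A →ₐ[ℂ] ℂ} (h : p ≠ q) :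
    ∃ b, p b = 0 ∧ q b = 1 := by
  obtain ⟨b, hb⟩ := DFunLike.ne_iff.1 h
  refine ⟨algebraMap ℂ A (q b - p b)⁻¹ * (b - algebraMap ℂ A (p b)), by simp, ?_⟩
  have : q b - p b ≠ 0 := sub_ne_zero.2 (Ne.symm hb)
  simp only [map_mul, map_sub, AlgHom.commutes, Algebra.algebraMap_self, RingHom.id_apply]
  exact inv_mul_cancel₀ this

variable [IsScalarTower ℂ R B]

theorem exists_theta {p q : B →ₐ[ℂ] ℂ} {u v : B} (hu : Wit R p u) (hv : Wit R q v) :
    ∃ (θ : B) (U V : R[X]), Wit R p (aeval θ U) ∧ Wit R q (aeval θ V) := by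
  by_cases hpq : p = q
  · subst hpq
    exact ⟨u, X, X, by simpa using hu, by simpa using hu⟩
  by_cases h : p.comp (IsScalarTower.toAlgHom ℂ R B) = q.comp (IsScalarTower.toAlgHom ℂ R B)
  · have hm : mB R p = mB R q := by
      unfold mB
      congr 1
      ext r
      have := DFunLike.congr_fun h r
      simp only [AlgHom.comp_apply, IsScalarTower.coe_toAlgHom'] at this
      simp [RingHom.mem_ker, this]
    obtain ⟨b, hb0, hb1⟩ := exists_sep hpq
    have h1 : Wit R p (algebraMap ℂ B (p u)⁻¹ * (1 - b) * u) := hu.mul (by simp [hb0, hu.1])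
    have h2 : Wit R q (algebraMap ℂ B (q v)⁻¹ * b * v) := hv.mul (by simp [hb1, hv.1])
    have e1 : p (algebraMap ℂ B (p u)⁻¹ * (1 - b) * u) = 1 := by simp [hb0, hu.1]
    have e2 : q (algebraMap ℂ B (q v)⁻¹ * b * v) = 1 := by simp [hb1, hv.1]
    have e3 : p (algebraMap ℂ B (q v)⁻¹ * b * v) = 0 := by simp [hb0]
    generalize algebraMap ℂ B (p u)⁻¹ * (1 - b) * u = u' at h1 e1
    generalize algebraMap ℂ B (q v)⁻¹ * b * v = v' at h2 e2 e3
    have a1 : u' * (u' - 1) ∈ mB R p := h1.2 _ (by simp [e1])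
    have a2 : v' * (v' - 1) ∈ mB R p := hm ▸ h2.2 _ (by simp [e2])
    have a3 : u' * v' ∈ mB R p := h1.2 _ e3
    refine ⟨u' - v', X ^ 2 + X, X ^ 2 - X, (h1.mul (w := 2) (by simp [map_ofNat])).add ?_,
      (h2.mul (w := 2) (by simp [map_ofNat])).add ?_⟩
    · have : aeval (u' - v') (X ^ 2 + X : R[X]) - 2 * u' =
          u' * (u' - 1) + v' * (v' - 1) - 2 * (u' * v') := by simp; ring
      rw [this]
      exact sub_mem (add_mem a1 a2) (Ideal.mul_mem_left _ _ a3)
    · have : aeval (u' - v') (X ^ 2 - X : R[X]) - 2 * v' =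
          u' * (u' - 1) + v' * (v' - 1) - 2 * (u' * v') := by simp; ring
      rw [this, ← hm]
      exact sub_mem (add_mem a1 a2) (Ideal.mul_mem_left _ _ a3)
  · obtain ⟨r, r0, r1⟩ := exists_sep h
    simp only [AlgHom.comp_apply, IsScalarTower.coe_toAlgHom'] at r0 r1
    have m0 : algebraMap R B r ∈ mB R p := Ideal.mem_map_of_mem _ (by simpa using r0)
    have m1 : algebraMap R B (1 - r) ∈ mB R q :=
      Ideal.mem_map_of_mem _ (by simp [RingHom.mem_ker, r1])
    refine ⟨algebraMap R B (1 - r) * u + algebraMap R B r * v, X, X, ?_, ?_⟩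
    · rw [aeval_X]
      refine hu.add ?_
      have : algebraMap R B (1 - r) * u + algebraMap R B r * v - u =
          algebraMap R B r * (v - u) := by rw [map_sub, map_one]; ring
      rw [this]
      exact Ideal.mul_mem_right _ _ m0
    · rw [aeval_X]
      refine hv.add ?_
      have : algebraMap R B (1 - r) * u + algebraMap R B r * v - v =
          algebraMap R B (1 - r) * (u - v) := by rw [map_sub, map_one]; ring
      rw [this]
      exact Ideal.mul_mem_right _ _ m1

/-- `S(θ)` lies in the conductor of `R[θ]` -/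
def Cond (θ : B) (S : R[X]) : Prop := ∀ b : B, ∃ g : R[X], aeval θ g = aeval θ S * b

theorem exists_cond [Module.Finite R B] {p : B →ₐ[ℂ] ℂ} {θ : B} {U : R[X]}
    (hU : Wit R p (aeval θ U)) : ∃ S : R[X], p (aeval θ S) ≠ 0 ∧ Cond θ S := by
  letI : Algebra R[X] B := (aeval θ : R[X] →ₐ[R] B).toRingHom.toAlgebra
  have ha : ∀ g : R[X], algebraMap R[X] B g = aeval θ g := fun _ => rfl
  have : IsScalarTower R R[X] B := .of_algebraMap_eq fun r => by rw [ha]; simp
  have : Module.Finite R[X] B := .of_restrictScalars_finite R _ _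
  let I : Ideal R[X] := (RingHom.ker p).comap (algebraMap R[X] B)
  have hI : ∀ y ∈ mB R p, y ∈ I • (⊤ : Submodule R[X] B) := by
    intro y hy
    rw [Ideal.smul_top_eq_map]
    refine (Ideal.map_le_iff_le_comap.2 ?_ : mB R p ≤ I.map (algebraMap R[X] B)) hy
    intro r hr
    rw [Ideal.mem_comap, IsScalarTower.algebraMap_apply R R[X] B]
    refine Ideal.mem_map_of_mem _ ?_
    rw [Ideal.mem_comap, ← IsScalarTower.algebraMap_apply]
    exact hr
  have hc : ∀ z : ℂ, algebraMap R[X] B (C (algebraMap ℂ R z)) = algebraMap ℂ B z := fun z => by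
    rw [ha, aeval_C, ← IsScalarTower.algebraMap_apply]
  obtain ⟨S, h1, h2⟩ := Submodule.exists_sub_one_mem_and_smul_le_of_fg_of_le_sup (I := I)
    (N := (1 : Submodule R[X] B)) (N' := ⊤) (P := ⊤) Module.Finite.fg_top le_rfl (by
      intro b _
      set c : ℂ := (p (aeval θ U))⁻¹ with hcd
      have e : b = algebraMap R[X] B (C (algebraMap ℂ R (c * p b)) * U) +
          (algebraMap ℂ B c * (aeval θ U * (b - algebraMap ℂ B (p b))) +
            (1 - C (algebraMap ℂ R c) * U : R[X]) • b) := by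
        rw [Algebra.smul_def, map_sub, map_one, map_mul (algebraMap R[X] B),
          map_mul (algebraMap R[X] B), hc, hc, ha, map_mul]
        ring
      rw [e]
      refine Submodule.add_mem_sup (Submodule.mem_one.2 ⟨_, rfl⟩) (add_mem (hI _ ?_) ?_)
      · exact Ideal.mul_mem_left _ _ (hU.2 _ (by simp))
      · refine Submodule.smul_mem_smul ?_ Submodule.mem_top
        rw [Ideal.mem_comap, RingHom.mem_ker, map_sub, map_one, map_mul, hc, ha]
        simp [hcd, hU.1])
  refine ⟨S, ?_, fun b => ?_⟩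
  · rw [Ideal.mem_comap, RingHom.mem_ker, map_sub, map_one, ha, map_sub, map_one,
      sub_eq_zero] at h1
    rw [h1]; exact one_ne_zero
  · obtain ⟨g, hg⟩ := Submodule.mem_one.1 (h2 (Submodule.smul_mem_pointwise_smul b S ⊤ trivial))
    exact ⟨g, by rw [← ha, hg, Algebra.smul_def, ha]⟩

theorem deriv_ne [IsDomain R] [IsIntegrallyClosed R] [IsDomain B] [FaithfulSMul R B]
    [Module.Finite R B] {p : B →ₐ[ℂ] ℂ} {θ : B} {U S : R[X]} (hU : Wit R p (aeval θ U))
    (hS : p (aeval θ S) ≠ 0) (hc : Cond θ S) : p (aeval θ (derivative (minpoly R θ))) ≠ 0 := by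
  set φ : R →+* ℂ := (p : B →+* ℂ).comp (algebraMap R B) with hφ
  have ev : ∀ g : R[X], p (aeval θ g) = (g.map φ).eval (p θ) := fun g => by
    rw [eval_map, aeval_def]
    exact hom_eval₂ g (algebraMap R B) (p : B →+* ℂ) θ
  have key : ∀ y ∈ mB R p, ∀ b : B, ∃ g : R[X], g.map φ = 0 ∧ aeval θ g = aeval θ S * (b * y) := by
    intro y hy
    refine Submodule.span_induction ?_ ?_ ?_ ?_ hy
    · rintro _ ⟨r, hr, rfl⟩ b
      obtain ⟨g, hg⟩ := hc b
      have : φ r = 0 := hr
      exact ⟨C r * g, by simp [this], by rw [map_mul, hg, aeval_C]; ring⟩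
    · exact fun b => ⟨0, by simp, by simp⟩
    · intro x y _ _ hx hy b
      obtain ⟨g, g1, g2⟩ := hx b
      obtain ⟨k, k1, k2⟩ := hy b
      exact ⟨g + k, by simp [g1, k1], by rw [map_add, g2, k2]; ring⟩
    · intro a x _ hx b
      obtain ⟨g, g1, g2⟩ := hx (b * a)
      exact ⟨g, g1, by rw [g2, smul_eq_mul]; ring⟩
  obtain ⟨g, g1, g2⟩ := key _ (hU.2 (θ - algebraMap ℂ B (p θ)) (by simp)) 1
  have hi : IsIntegral R θ := Algebra.IsIntegral.isIntegral θ
  obtain ⟨H, hH⟩ := minpoly.isIntegrallyClosed_dvd hi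
    (p := S * U * (X - C (algebraMap ℂ R (p θ))) - g) (by
      rw [map_sub, g2, map_mul, map_mul, map_sub, aeval_X, aeval_C,
        ← IsScalarTower.algebraMap_apply]
      ring)
  have h2 : p (aeval θ (derivative g)) = 0 := by rw [ev, ← derivative_map, g1]; simp
  have h3 : p (aeval θ (X - C (algebraMap ℂ R (p θ)) : R[X])) = 0 := by
    rw [map_sub, aeval_X, aeval_C, ← IsScalarTower.algebraMap_apply]; simp
  have h4 : derivative (X - C (algebraMap ℂ R (p θ)) : R[X]) = 1 := by simp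
  generalize (X - C (algebraMap ℂ R (p θ)) : R[X]) = L at hH h3 h4
  have h1 := congrArg (fun k : R[X] => p (aeval θ (derivative k))) hH
  simp only [derivative_sub, derivative_mul, h4, map_sub, map_add, map_mul, h2, h3, minpoly.aeval,
    map_zero, mul_zero, zero_mul, zero_add, add_zero, mul_one, sub_zero] at h1
  intro h0
  rw [h0, zero_mul] at h1
  exact mul_ne_zero hS hU.1 h1

end PEt

open PEt in
/-- one standard etale neighbourhood of two unramified points -/
theorem std_of_unram2 {R B : Type} [CommRing R] [IsDomain R] [IsIntegrallyClosed R] [Algebra ℂ R]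
    [CommRing B] [IsDomain B] [Algebra ℂ B] [Algebra R B] [IsScalarTower ℂ R B] [FaithfulSMul R B]
    [Module.Finite R B] (p q : B →ₐ[ℂ] ℂ)
    (hp : ∃ u, p u ≠ 0 ∧ ∀ s, p s = 0 →
      u * s ∈ ((RingHom.ker p).comap (algebraMap R B)).map (algebraMap R B))
    (hq : ∃ u, q u ≠ 0 ∧ ∀ s, q s = 0 →
      u * s ∈ ((RingHom.ker q).comap (algebraMap R B)).map (algebraMap R B))
    (h : B) (h1 : p h ≠ 0) (h2 : q h ≠ 0) :
    ∃ f, p f ≠ 0 ∧ q f ≠ 0 ∧ h ∣ f ∧ ∀ (O : Type) [CommRing O] [Algebra B O] [Algebra R O]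
      [IsScalarTower R B O] [IsLocalization.Away f O], Nonempty (StandardEtalePresentation R O) := by
  obtain ⟨u, hu⟩ := hp
  obtain ⟨v, hv⟩ := hq
  obtain ⟨θ, U, V, hU, hV⟩ := exists_theta (R := R) hu hv
  obtain ⟨S1, a1, c1⟩ := exists_cond hU
  obtain ⟨S2, a2, c2⟩ := exists_cond hV
  have d1 := deriv_ne hU a1 c1
  have d2 := deriv_ne hV a2 c2
  obtain ⟨S, s1, s2, hS⟩ : ∃ S : R[X], p (aeval θ S) ≠ 0 ∧ q (aeval θ S) ≠ 0 ∧ Cond θ S := by
    by_cases e1 : q (aeval θ S1) = 0
    · by_cases e2 : p (aeval θ S2) = 0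
      · refine ⟨S1 + S2, by simpa [e2] using a1, by simpa [e1] using a2, fun b => ?_⟩
        obtain ⟨g, hg⟩ := c1 b
        obtain ⟨k, hk⟩ := c2 b
        exact ⟨g + k, by rw [map_add, map_add, hg, hk]; ring⟩
      · exact ⟨S2, e2, a2, c2⟩
    · exact ⟨S1, a1, e1, c1⟩
  obtain ⟨g, hg⟩ := hS h
  have hi : IsIntegral R θ := Algebra.IsIntegral.isIntegral θ
  let P : StandardEtalePair R := ⟨minpoly R θ, minpoly.monic hi,
    derivative (minpoly R θ) * (S * g), S * g, 0, 1, by ring⟩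
  have hf : aeval θ P.g = aeval θ (derivative (minpoly R θ)) * (aeval θ S * (aeval θ S * h)) := by
    simp only [P, map_mul, hg]
  have f1 : p (aeval θ P.g) ≠ 0 := by simp [hf, d1, s1, h1]
  refine ⟨aeval θ P.g, f1, by simp [hf, d2, s2, h2], ?_, fun O _ _ _ _ _ => ?_⟩
  · rw [hf]
    exact ((dvd_mul_left h _).mul_left _).mul_left _
  have h0 : Submonoid.powers (aeval θ P.g) ≤ nonZeroDivisors B :=
    powers_le_nonZeroDivisors_of_noZeroDivisors fun e => f1 (by rw [e, map_zero])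
  have : IsDomain O := IsLocalization.isDomain_of_le_nonZeroDivisors O h0
  have : FaithfulSMul R O := by
    rw [faithfulSMul_iff_algebraMap_injective, IsScalarTower.algebraMap_eq R B O]
    exact (IsLocalization.injective O h0).comp (FaithfulSMul.algebraMap_injective R B)
  have hx : P.HasMap (algebraMap B O θ) := by
    refine ⟨?_, ?_⟩
    · rw [aeval_algebraMap_apply, show aeval θ P.f = 0 from minpoly.aeval _ _, map_zero]
    · rw [aeval_algebraMap_apply]
      exact IsLocalization.Away.algebraMap_isUnit _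
  have hr : ∀ k : R[X], P.lift _ hx (aeval P.X k) = algebraMap B O (aeval θ k) := fun k => by
    rw [← aeval_algHom_apply, P.lift_X, aeval_algebraMap_apply]
  obtain ⟨w, hw⟩ := P.hasMap_X.2.exists_right_inv
  have hw' : algebraMap B O (aeval θ P.g) * P.lift _ hx w = 1 := by
    rw [← hr, ← map_mul, hw, map_one]
  obtain ⟨E, -⟩ := std_of_surj P (P.lift _ hx) fun z => by
    obtain ⟨n, b, hb⟩ := IsLocalization.Away.surj (aeval θ P.g) z
    obtain ⟨k, hk⟩ := hS b
    refine ⟨aeval P.X (k * (derivative (minpoly R θ) * g)) * w * w ^ n, ?_⟩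
    have e : aeval θ (k * (derivative (minpoly R θ) * g)) = b * aeval θ P.g := by
      rw [hf, map_mul, map_mul, hk, hg]; ring
    rw [map_mul, map_mul, hr, e, map_mul, mul_assoc (algebraMap B O b), hw', mul_one, ← hb,
      map_pow, mul_assoc, ← mul_pow, hw', one_pow, mul_one]
  exact ⟨E⟩

end Pool.Agent.Lib.MP_9ff3e7_ag.F
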