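import Pool.Agent.Lib.MP_9ff3e7_ag.F.PChartA
import Pool.Agent.Lib.MP_9ff3e7_ag.F.PEt

/-! Two smooth points of `Proj S` lie in one etale chart with linear coordinates. -/

set_option autoImplicit false

namespace Pool.Agent.Lib.MP_9ff3e7_ag.F

variable {S : Type} [CommRing S] [IsDomain S] [Algebra ℂ S] {𝒜 : ℕ → Submodule ℂ S}
  [GradedAlgebra 𝒜]

theorem exists_chart_lin2 (h : Gen1 𝒜) {n : ℕ} (hn : Algebra.trdeg ℂ (Fn 𝒜) = n) (p q : Pt 𝒜)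
    (hsp : Algebra.FormallySmooth ℂ (loc p)) (hsq : Algebra.FormallySmooth ℂ (loc q))
    {j : ℕ} {f : S} (hf : f ∈ 𝒜 j) (hp : p.1 f ≠ 0) (hq : q.1 f ≠ 0) :
    ∃ c : Chart 𝒜 n, c.In p ∧ c.In q ∧ (∀ r, c.In r → r.1 f ≠ 0) ∧ (∀ i, c.z i ∈ c.fil 1) ∧
      ∃ M, c.fil 1 ^ (M + 1) ≤ Submodule.span ℂ (insert 1 (Set.range c.z)) * c.fil 1 ^ M :=
  exists_chart_lin2_of (fun p q hp hq h h1 h2 => std_of_unram2 p q hp hq h h1 h2)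
    h hn p q hsp hsq hf hp hq

end Pool.Agent.Lib.MP_9ff3e7_ag.F
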