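import Pool.Agent.Lib.MP_9ff3e7_ag.F.XLin

/-! Linear Noether normalisation in reduction form, keeping two given quotients spanned. -/

set_option autoImplicit false

namespace Pool.Agent.Lib.MP_9ff3e7_ag.F

open MvPolynomial

namespace PLin

/-- too many vectors satisfy a linear relation, recorded as a nonzero linear form -/
theorem exists_rel {J : Type} [AddCommGroup J] [Module ℂ J] [Module.Finite ℂ J] {d : ℕ}
    (u : Fin d → J) (h : Module.finrank ℂ J < d) : ∃ a : Fin d → ℂ, ∑ i, a i • u i = 0 ∧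
      (∑ i, C (a i) * X i : MvPolynomial (Fin d) ℂ) ≠ 0 := by
  classical
  have hdep : ¬ LinearIndependent ℂ u := fun h' => by
    have := h'.fintype_card_le_finrank
    rw [Fintype.card_fin] at this
    omega
  obtain ⟨a, ha, j, hj⟩ := Fintype.not_linearIndependent_iff.1 hdep
  refine ⟨a, ha, fun h0 => ?_⟩
  have := congrArg (eval (Pi.single j (1 : ℂ))) h0
  simp [Pi.single_apply] at this
  exact hj this

end PLin

open Submodule in
/-- linear Noether normalisation (reduction form) keeping two quotients spanned -/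
theorem lin_nn2 {S J J' : Type} [CommRing S] [Algebra ℂ S] [AddCommGroup J] [Module ℂ J]
    [AddCommGroup J'] [Module ℂ J'] (V : Submodule ℂ S) [Module.Finite ℂ V]
    (φ : V →ₗ[ℂ] J) (hφ : Function.Surjective φ) (φ' : V →ₗ[ℂ] J') (hφ' : Function.Surjective φ')
    (m : ℕ) (hJ : Module.finrank ℂ J ≤ m) (hJ' : Module.finrank ℂ J' ≤ m)
    (hrel : ∀ l : Fin (m + 1) → V, ∃ d, ∃ f : MvPolynomial (Fin (m + 1)) ℂ,
      f ≠ 0 ∧ f.IsHomogeneous d ∧ MvPolynomial.aeval (fun i => (l i : S)) f = 0) :
    ∃ y : Fin m → V,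
      (∃ M, V ^ (M + 1) ≤ Submodule.span ℂ (Set.range fun i => (y i : S)) * V ^ M) ∧
      Submodule.span ℂ (Set.range fun i => φ (y i)) = ⊤ ∧
      Submodule.span ℂ (Set.range fun i => φ' (y i)) = ⊤ := by
  classical
  have : Module.Finite ℂ J := Module.Finite.of_surjective φ hφ
  have : Module.Finite ℂ J' := Module.Finite.of_surjective φ' hφ'
  have down : ∀ k, (∃ y : Fin (m + k) → V,
      (∃ M, V ^ (M + 1) ≤ span ℂ (Set.range fun i => (y i : S)) * V ^ M) ∧
      span ℂ (Set.range fun i => φ (y i)) = ⊤ ∧ span ℂ (Set.range fun i => φ' (y i)) = ⊤) →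
      ∃ y : Fin m → V,
      (∃ M, V ^ (M + 1) ≤ span ℂ (Set.range fun i => (y i : S)) * V ^ M) ∧
      span ℂ (Set.range fun i => φ (y i)) = ⊤ ∧ span ℂ (Set.range fun i => φ' (y i)) = ⊤ := by
    intro k
    induction k with
    | zero => exact id
    | succ k ih =>
      rintro ⟨y, ⟨M, hM⟩, hy, hy'⟩
      refine ih ?_
      change Fin (m + k + 1) → V at y
      have hle : m + 1 ≤ m + k + 1 := by omega
      obtain ⟨s, f, hf0, hfs, hf⟩ := hrel fun i => y (Fin.castLE hle i)
      have hG0 : rename (Fin.castLE hle) f ≠ 0 := fun h =>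
        hf0 (rename_injective _ (Fin.castLE_injective hle) (by rw [h, map_zero]))
      have hGs : (rename (Fin.castLE hle) f).IsHomogeneous s := hfs.rename_isHomogeneous
      have hG : aeval (fun i => (y i : S)) (rename (Fin.castLE hle) f) = 0 := by
        rw [aeval_rename]; exact hf
      obtain ⟨a, ha, hP⟩ := PLin.exists_rel (fun i => φ (y i)) (by omega)
      obtain ⟨a', ha', hP'⟩ := PLin.exists_rel (fun i => φ' (y i)) (by omega)
      have hne := mul_ne_zero (mul_ne_zero (mul_ne_zero hG0 hP) hP')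
        (X_ne_zero (R := ℂ) (0 : Fin (m + k + 1)))
      obtain ⟨c, hc⟩ : ∃ c : Fin (m + k + 1) → ℂ,
          eval c (rename (Fin.castLE hle) f * (∑ i, C (a i) * X i) * (∑ i, C (a' i) * X i) *
            X 0) ≠ 0 := by
        by_contra hcon
        push Not at hcon
        exact hne (MvPolynomial.funext fun x => by rw [hcon x]; simp)
      rw [map_mul, map_mul, map_mul, eval_X] at hc
      have hc0 : c 0 ≠ 0 := right_ne_zero_of_mul hc
      have hc1 := left_ne_zero_of_mul (left_ne_zero_of_mul (left_ne_zero_of_mul hc))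
      have hc2 : ∑ i, a i * c i ≠ 0 := by
        simpa using right_ne_zero_of_mul (left_ne_zero_of_mul (left_ne_zero_of_mul hc))
      have hc3 : ∑ i, a' i * c i ≠ 0 := by
        simpa using right_ne_zero_of_mul (left_ne_zero_of_mul hc)
      obtain ⟨t, ht⟩ := XLin.drop_one (fun i => (y i : S)) hGs hG c hc1 hc0
      have hYV : span ℂ (Set.range fun i => (y i : S)) ≤ V :=
        span_le.2 (by rintro _ ⟨i, rfl⟩; exact (y i).2)
      refine ⟨fun i => y i.succ - c i.succ • ((c 0)⁻¹ • y 0), ⟨M + t, ?_⟩, ?_, ?_⟩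
      · set Y := span ℂ (Set.range fun i => (y i : S))
        set Y' := span ℂ (Set.range fun i : Fin (m + k) =>
          (y i.succ : S) - c i.succ • ((c 0)⁻¹ • (y 0 : S)))
        change V ^ (M + t + 1) ≤ Y' * V ^ (M + t)
        calc V ^ (M + t + 1) = V ^ (M + (t + 1)) := by rw [add_assoc]
          _ ≤ Y ^ (t + 1) * V ^ M := XLin.pow_red hM _
          _ ≤ Y' * Y ^ t * V ^ M := by gcongr
          _ ≤ Y' * V ^ t * V ^ M := by gcongr
          _ = Y' * V ^ (M + t) := by rw [mul_assoc, ← pow_add, add_comm]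
      · simpa only [map_sub, map_smul] using XLin.drop_span (fun i => φ (y i)) hy a c ha hc2 hc0
      · simpa only [map_sub, map_smul] using
          XLin.drop_span (fun i => φ' (y i)) hy' a' c ha' hc3 hc0
  obtain ⟨n, y, hy⟩ := Module.Finite.exists_fin (R := ℂ) (M := V)
  have hy' : span ℂ (Set.range (Fin.append (fun _ : Fin m => (0 : V)) y)) = ⊤ := by
    rw [eq_top_iff, ← hy]
    refine span_mono ?_
    rintro _ ⟨i, rfl⟩
    exact ⟨Fin.natAdd m i, by simp⟩
  refine down n ⟨Fin.append (fun _ => 0) y, ⟨0, ?_⟩, ?_, ?_⟩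
  · have := congrArg (Submodule.map V.subtype) hy'
    rw [map_span, ← Set.range_comp, Submodule.map_top, range_subtype] at this
    rw [zero_add, pow_one, pow_zero, mul_one]
    exact this.ge
  · have := congrArg (Submodule.map φ) hy'
    rw [map_span, ← Set.range_comp, Submodule.map_top, LinearMap.range_eq_top.2 hφ] at this
    exact this
  · have := congrArg (Submodule.map φ') hy'
    rw [map_span, ← Set.range_comp, Submodule.map_top, LinearMap.range_eq_top.2 hφ'] at this
    exact this

end Pool.Agent.Lib.MP_9ff3e7_ag.F
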