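import Pool.Agent.Lib.MP_9ff3e7_ag.F.XChart
import Pool.Agent.Lib.MP_9ff3e7_ag.F.PLin

/-! Two smooth points of `Proj S` lie in one etale chart with linear coordinates. -/

set_option autoImplicit false

namespace Pool.Agent.Lib.MP_9ff3e7_ag.F

open IsLocalRing MvPolynomial

noncomputable section

namespace PC

/-- a change of the family which keeps the span and makes two functionals nonzero at `0` -/
theorem exists_first {V : Type} [AddCommGroup V] [Module ℂ V] {n : ℕ} (y : Fin (n + 1) → V)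
    (α β : V →ₗ[ℂ] ℂ) (hα : ∃ i, α (y i) ≠ 0) (hβ : ∃ i, β (y i) ≠ 0) :
    ∃ y' : Fin (n + 1) → V, Submodule.span ℂ (Set.range y') = Submodule.span ℂ (Set.range y) ∧
      α (y' 0) ≠ 0 ∧ β (y' 0) ≠ 0 := by
  classical
  have key : ∀ (w : Fin (n + 1) → V) (i : Fin (n + 1)), α (w i) ≠ 0 → β (w i) ≠ 0 →
      ∃ y' : Fin (n + 1) → V, Submodule.span ℂ (Set.range y') = Submodule.span ℂ (Set.range w) ∧
        α (y' 0) ≠ 0 ∧ β (y' 0) ≠ 0 := fun w i h1 h2 =>
    ⟨w ∘ Equiv.swap 0 i, by rw [(Equiv.swap 0 i).surjective.range_comp], by simpa using h1,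
      by simpa using h2⟩
  obtain ⟨i, hi⟩ := hα
  obtain ⟨j, hj⟩ := hβ
  by_cases h1 : β (y i) = 0
  swap
  · exact key y i hi h1
  by_cases h2 : α (y j) = 0
  swap
  · exact key y j h2 hj
  have hij : j ≠ i := fun e => hj (e ▸ h1)
  obtain ⟨y', e, h3⟩ := key (Function.update y i (y i + y j)) i (by simp [h2, hi]) (by simp [h1, hj])
  refine ⟨y', e.trans (le_antisymm ?_ ?_), h3⟩
  · rw [Submodule.span_le]
    rintro _ ⟨k, rfl⟩
    by_cases hk : k = i
    · subst hk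
      rw [Function.update_self]
      exact add_mem (Submodule.subset_span ⟨k, rfl⟩) (Submodule.subset_span ⟨j, rfl⟩)
    · rw [Function.update_of_ne hk]
      exact Submodule.subset_span ⟨k, rfl⟩
  · rw [Submodule.span_le]
    rintro _ ⟨k, rfl⟩
    by_cases hk : k = i
    · subst hk
      have h4 : y k + y j ∈ Submodule.span ℂ (Set.range (Function.update y k (y k + y j))) :=
        Submodule.subset_span ⟨k, by simp⟩
      have h5 : y j ∈ Submodule.span ℂ (Set.range (Function.update y k (y k + y j))) :=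
        Submodule.subset_span ⟨j, Function.update_of_ne hij _ _⟩
      simpa using sub_mem h4 h5
    · exact Submodule.subset_span ⟨k, Function.update_of_ne hk _ _⟩

theorem span_comp {V W : Type} [AddCommGroup V] [Module ℂ V] [AddCommGroup W] [Module ℂ W]
    {ι : Type} {y y' : ι → V} (φ : V →ₗ[ℂ] W)
    (e : Submodule.span ℂ (Set.range y') = Submodule.span ℂ (Set.range y)) :
    Submodule.span ℂ (Set.range fun i => φ (y' i)) =
      Submodule.span ℂ (Set.range fun i => φ (y i)) := by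
  have := congrArg (Submodule.map φ) e
  rwa [Submodule.map_span, Submodule.map_span, ← Set.range_comp, ← Set.range_comp] at this

theorem int_of_range {R B : Type} [CommRing R] [CommRing B] [Algebra ℂ R] [Algebra ℂ B]
    (φ : R →ₐ[ℂ] B) {x : B} (h : IsIntegral φ.range x) : φ.toRingHom.IsIntegralElem x := by
  obtain ⟨P, hP, h0⟩ := h
  obtain ⟨P', h1, -, h2⟩ := Polynomial.lifts_and_natDegree_eq_and_monic
    (Polynomial.mem_lifts_of_surjective (f := φ.rangeRestrict.toRingHom)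
      φ.rangeRestrict_surjective P) hP
  refine ⟨P', h2, ?_⟩
  rw [← h1, Polynomial.eval₂_map] at h0
  exact h0

/-- from generators of the cotangent space to one denominator -/
theorem unram_pt {R B : Type} [CommRing R] [CommRing B] [Algebra ℂ B] [Algebra.FiniteType ℂ B]
    [Algebra R B] (p : B →ₐ[ℂ] ℂ) [(RingHom.ker p).IsPrime]
    (L : Type) [CommRing L] [IsLocalRing L] [Algebra B L] [IsLocalization.AtPrime L (RingHom.ker p)]
    {ι : Type} (t : ι → R) (ht : ∀ i, p (algebraMap R B (t i)) = 0)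
    (h : maximalIdeal L ≤ Ideal.span (Set.range fun i =>
      algebraMap B L (algebraMap R B (t i))) ⊔ maximalIdeal L ^ 2) :
    ∃ u, p u ≠ 0 ∧ ∀ s, p s = 0 →
      u * s ∈ ((RingHom.ker p).comap (algebraMap R B)).map (algebraMap R B) := by
  classical
  have : IsNoetherianRing B := Algebra.FiniteType.isNoetherianRing ℂ B
  have : IsNoetherianRing L :=
    IsLocalization.isNoetherianRing (RingHom.ker p).primeCompl L inferInstance
  have hN := Submodule.le_of_le_smul_of_le_jacobson_bot (I := maximalIdeal L)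
    (IsNoetherian.noetherian (maximalIdeal L)) (maximalIdeal_le_jacobson _)
    (by rwa [smul_eq_mul, ← pow_two])
  set I := ((RingHom.ker p).comap (algebraMap R B)).map (algebraMap R B) with hI
  have h1 : ∀ s, p s = 0 → ∃ u, p u ≠ 0 ∧ u * s ∈ I := fun s hs => by
    have h2 : algebraMap B L s ∈ maximalIdeal L :=
      (IsLocalization.AtPrime.to_map_mem_maximal_iff L (RingHom.ker p) s).2 hs
    have h3 : algebraMap B L s ∈ I.map (algebraMap B L) := by
      refine (Ideal.span_le.2 ?_) (hN h2)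
      rintro _ ⟨i, rfl⟩
      exact Ideal.mem_map_of_mem _ (Ideal.mem_map_of_mem _ (ht i))
    obtain ⟨u, hu, h4⟩ :=
      (IsLocalization.algebraMap_mem_map_algebraMap_iff (RingHom.ker p).primeCompl L I s).1 h3
    exact ⟨u, hu, h4⟩
  obtain ⟨G, hG⟩ := IsNoetherian.noetherian (RingHom.ker p)
  choose! u hu using h1
  have hG0 : ∀ g ∈ G, p g = 0 := fun g hg => by
    have : g ∈ RingHom.ker p := hG ▸ Submodule.subset_span hg
    exact this
  refine ⟨∏ g ∈ G, u g, ?_, fun s hs => ?_⟩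
  · rw [map_prod]
    exact Finset.prod_ne_zero_iff.2 fun g hg => (hu g (hG0 g hg)).1
  · have hs' : s ∈ Submodule.span B (G : Set B) := hG ▸ hs
    induction hs' using Submodule.span_induction with
    | mem g hg =>
      rw [← Finset.mul_prod_erase G u hg, mul_right_comm]
      exact Ideal.mul_mem_right _ _ (hu g (hG0 g hg)).2
    | zero => simp
    | add a b ha hb iha ihb =>
      rw [mul_add]
      exact add_mem (iha (hG ▸ ha : a ∈ RingHom.ker p)) (ihb (hG ▸ hb : b ∈ RingHom.ker p))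
    | smul c a ha iha =>
      rw [smul_eq_mul, mul_left_comm]
      exact Ideal.mul_mem_left _ _ (iha (hG ▸ ha : a ∈ RingHom.ker p))

variable {S : Type} [CommRing S] [IsDomain S] [Algebra ℂ S] {𝒜 : ℕ → Submodule ℂ S}
  [GradedAlgebra 𝒜]

/-- the one-jet at `p` of a linear form -/
def jet {p : Pt 𝒜} {l : 𝒜 1} (hq : p.1 l ≠ 0) : 𝒜 1 →ₗ[ℂ] (loc p ⧸ RingHom.ker (ev p) ^ 2) :=
  ((Ideal.Quotient.mkₐ ℂ (RingHom.ker (ev p) ^ 2)).comp (dehL hq)).toLinearMap.comp (𝒜 1).subtype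

theorem jet_surjective (h : Gen1 𝒜) {p : Pt 𝒜} {l : 𝒜 1} (hq : p.1 l ≠ 0) :
    Function.Surjective (jet hq) := fun x => by
  obtain ⟨x, rfl⟩ := Ideal.Quotient.mk_surjective x
  obtain ⟨a, ha, h1⟩ := jet_surj h hq x
  exact ⟨⟨a, ha⟩, (Ideal.Quotient.eq.2 h1).symm⟩

theorem jet_ne' {m : ℕ} {p : Pt 𝒜} {l : 𝒜 1} (hq : p.1 l ≠ 0) (y : Fin m → 𝒜 1)
    (hy : Submodule.span ℂ (Set.range fun i => jet hq (y i)) = ⊤) : ∃ i, p.1 (y i) ≠ 0 := by
  obtain ⟨i, hi⟩ := jet_ne (ev p) (fun i => dehL hq (y i)) hy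
  rw [ev_dehL hq (y _).2] at hi
  exact ⟨i, fun e => hi (by simp [e])⟩

theorem jet_gens' {n : ℕ} {p : Pt 𝒜} {l : 𝒜 1} (hq : p.1 l ≠ 0) (y : Fin (n + 1) → 𝒜 1)
    (hy : Submodule.span ℂ (Set.range fun i => jet hq (y i)) = ⊤) (hp : p.1 (y 0) ≠ 0) :
    RingHom.ker (ev p) ≤ Ideal.span (Set.range fun i : Fin n => dehL hp (y i.succ) -
      algebraMap ℂ (loc p) (ev p (dehL hp (y i.succ)))) ⊔ RingHom.ker (ev p) ^ 2 := by
  have y0 : (y 0 : S) ≠ 0 := fun e => hp (by simp [e])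
  have hi : ev p (dehL hq (y 0)) ≠ 0 := by
    rw [ev_dehL hq (y _).2]
    exact div_ne_zero hp (pow_ne_zero _ hq)
  exact jet_gens (ev p) (fun j => dehL hq (y j)) hy (isUnit_loc hi)
    (fun j => dehL hp (y j.succ)) fun j => Subtype.ext (deh_change y0 (y _).2)

end PC

/-- the statement of `std_of_unram2` -/
def EtSt2 : Prop :=
  ∀ {R B : Type} [CommRing R] [IsDomain R] [IsIntegrallyClosed R] [Algebra ℂ R]
    [CommRing B] [IsDomain B] [Algebra ℂ B] [Algebra R B] [IsScalarTower ℂ R B] [FaithfulSMul R B]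
    [Module.Finite R B] (p q : B →ₐ[ℂ] ℂ)
    (_ : ∃ u, p u ≠ 0 ∧ ∀ s, p s = 0 →
      u * s ∈ ((RingHom.ker p).comap (algebraMap R B)).map (algebraMap R B))
    (_ : ∃ u, q u ≠ 0 ∧ ∀ s, q s = 0 →
      u * s ∈ ((RingHom.ker q).comap (algebraMap R B)).map (algebraMap R B))
    (h : B) (_ : p h ≠ 0) (_ : q h ≠ 0),
    ∃ f, p f ≠ 0 ∧ q f ≠ 0 ∧ h ∣ f ∧ ∀ (O : Type) [CommRing O] [Algebra B O] [Algebra R O]
      [IsScalarTower R B O] [IsLocalization.Away f O], Nonempty (StandardEtalePresentation R O)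

variable {S : Type} [CommRing S] [IsDomain S] [Algebra ℂ S] {𝒜 : ℕ → Submodule ℂ S}
  [GradedAlgebra 𝒜]

open XC PC in
theorem PC.exists_forms2 (h : Gen1 𝒜) {n : ℕ} (hn : Algebra.trdeg ℂ (Fn 𝒜) = n)
    (p q : Pt 𝒜) (hsp : Algebra.FormallySmooth ℂ (loc p))
    (hsq : Algebra.FormallySmooth ℂ (loc q)) :
    ∃ y : Fin (n + 1) → 𝒜 1, ∃ hp : p.1 (y 0) ≠ 0, ∃ hq : q.1 (y 0) ≠ 0,
      (∃ M, 𝒜 1 ^ (M + 1) ≤ Submodule.span ℂ (Set.range fun i => (y i : S)) * 𝒜 1 ^ M) ∧
      (RingHom.ker (ev p) ≤ Ideal.span (Set.range fun i : Fin n => dehL hp (y i.succ) -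
        algebraMap ℂ (loc p) (ev p (dehL hp (y i.succ)))) ⊔ RingHom.ker (ev p) ^ 2) ∧
      RingHom.ker (ev q) ≤ Ideal.span (Set.range fun i : Fin n => dehL hq (y i.succ) -
        algebraMap ℂ (loc q) (ev q (dehL hq (y i.succ)))) ⊔ RingHom.ker (ev q) ^ 2 := by
  obtain ⟨l, hl, hp⟩ := p.2
  lift l to 𝒜 1 using hl
  obtain ⟨l', hl', hq⟩ := q.2
  lift l' to 𝒜 1 using hl'
  have l0 : (l : S) ≠ 0 := fun e => hp (by simp [e])
  obtain ⟨t, ht⟩ := exists_gens h hn p hsp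
  obtain ⟨t', ht'⟩ := exists_gens h hn q hsq
  have : Module.Finite ℂ (𝒜 1) := Module.Finite.iff_fg.2 (h.fg 1)
  have f1 : Module.finrank ℂ (loc p ⧸ RingHom.ker (ev p) ^ 2) ≤ n + 1 := jet_finrank _ t ht
  have f2 : Module.finrank ℂ (loc q ⧸ RingHom.ker (ev q) ^ 2) ≤ n + 1 := jet_finrank _ t' ht'
  obtain ⟨y, hM, h1, h2⟩ := lin_nn2 (𝒜 1) (jet (p := p) hp) (jet_surjective (p := p) h hp)
    (jet (p := q) hq) (jet_surjective (p := q) h hq) (n + 1) f1 f2 (rel_forms hn l0)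
  obtain ⟨y', e, h3, h4⟩ := exists_first y (p.1.toLinearMap.comp (𝒜 1).subtype)
    (q.1.toLinearMap.comp (𝒜 1).subtype) (jet_ne' (p := p) hp y h1) (jet_ne' (p := q) hq y h2)
  have h5 : p.1 (y' 0) ≠ 0 := h3
  have h6 : q.1 (y' 0) ≠ 0 := h4
  have h7 : Submodule.span ℂ (Set.range fun i => (y' i : S)) =
      Submodule.span ℂ (Set.range fun i => (y i : S)) := span_comp (𝒜 1).subtype e
  have h8 := (span_comp (jet (p := p) hp) e).trans h1
  have h9 := (span_comp (jet (p := q) hq) e).trans h2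
  exact ⟨y', h5, h6, h7 ▸ hM, jet_gens' (p := p) hp y' h8 h5,
    jet_gens' (p := q) hq y' h9 h6⟩

open XC PC in
theorem exists_chart_lin2_of (hE : EtSt2) (h : Gen1 𝒜) {n : ℕ}
    (hn : Algebra.trdeg ℂ (Fn 𝒜) = n) (p q : Pt 𝒜)
    (hsp : Algebra.FormallySmooth ℂ (loc p)) (hsq : Algebra.FormallySmooth ℂ (loc q))
    {j : ℕ} {f : S} (hf : f ∈ 𝒜 j) (hp : p.1 f ≠ 0) (hq : q.1 f ≠ 0) :
    ∃ c : Chart 𝒜 n, c.In p ∧ c.In q ∧ (∀ r, c.In r → r.1 f ≠ 0) ∧ (∀ i, c.z i ∈ c.fil 1) ∧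
      ∃ M, c.fil 1 ^ (M + 1) ≤ Submodule.span ℂ (insert 1 (Set.range c.z)) * c.fil 1 ^ M := by
  obtain ⟨y, hp0, hq0, ⟨M, hM⟩, hjp, hjq⟩ := exists_forms2 h hn p q hsp hsq
  have l0 : (y 0 : S) ≠ 0 := fun e => hp0 (by simp [e])
  have hfin : Module.Finite ℂ ((𝒜 1).map (deh (y 0)).toLinearMap) :=
    Module.Finite.iff_fg.2 ((h.fg 1).map _)
  have hind : AlgebraicIndependent ℂ fun i : Fin n => deh (y 0) (y i.succ) := by
    refine red_indep hn _ ((𝒜 1).map (deh (y 0)).toLinearMap) ⟨y 0, (y 0).2, deh_self l0⟩ M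
      (map_red _ y (deh_self l0) hM) fun x => ?_
    obtain ⟨a, b, -, rfl⟩ := frac_deh l0 x
    obtain ⟨e, he⟩ := exists_form l0 a
    obtain ⟨e', he'⟩ := exists_form l0 b
    obtain ⟨a', h1, h2⟩ := he _ (le_max_left e e')
    obtain ⟨b', h3, h4⟩ := he' _ (le_max_right e e')
    rw [h.eq_pow] at h1 h3
    exact ⟨max e e', _, by rw [← Submodule.map_pow]; exact ⟨a', h1, h2⟩, _,
      by rw [← Submodule.map_pow]; exact ⟨b', h3, h4⟩, rfl⟩
  let φ : MvPolynomial (Fin n) ℂ →ₐ[ℂ] (deh (y 0)).range :=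
    aeval fun i => (deh (y 0)).rangeRestrict (y i.succ)
  let := φ.toAlgebra
  have : IsScalarTower ℂ (MvPolynomial (Fin n) ℂ) (deh (y 0)).range := .of_algHom φ
  have := ft h (y 0)
  have : Algebra.FiniteType (MvPolynomial (Fin n) ℂ) (deh (y 0)).range :=
    .of_restrictScalars_finiteType ℂ _ _
  have : FaithfulSMul (MvPolynomial (Fin n) ℂ) (deh (y 0)).range := by
    rw [faithfulSMul_iff_algebraMap_injective]
    refine Function.Injective.of_comp (f := (deh (y 0)).range.val) ?_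
    have e : (deh (y 0)).range.val.comp φ = aeval fun i : Fin n => deh (y 0) (y i.succ) := by
      ext i : 1
      simp [φ]
    change Function.Injective ((deh (y 0)).range.val.comp φ)
    rw [e]
    exact hind
  have : Algebra.IsIntegral (MvPolynomial (Fin n) ℂ) (deh (y 0)).range := ⟨fun b => by
    obtain ⟨a, rfl⟩ := (deh (y 0)).rangeRestrict_surjective b
    obtain ⟨e, he⟩ := exists_form l0 a
    obtain ⟨a', h1, h2⟩ := he e le_rfl
    have h0 : (deh (y 0)).rangeRestrict (y 0) = 1 := Subtype.ext (deh_self l0)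
    have : Module.Finite ℂ ((𝒜 1).map (deh (y 0)).rangeRestrict.toLinearMap) :=
      Module.Finite.iff_fg.2 ((h.fg 1).map _)
    rw [h.eq_pow] at h1
    have h3 := red_integral (fun i : Fin n => (deh (y 0)).rangeRestrict (y i.succ))
      ((𝒜 1).map (deh (y 0)).rangeRestrict.toLinearMap) ⟨y 0, (y 0).2, h0⟩ M
      (map_red _ y h0 hM) e ((deh (y 0)).rangeRestrict a)
      (by rw [← Submodule.map_pow]; exact ⟨a', h1, Subtype.ext h2⟩)
    rw [Algebra.adjoin_range_eq_range_aeval] at h3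
    exact int_of_range φ h3⟩
  have : Module.Finite (MvPolynomial (Fin n) ℂ) (deh (y 0)).range :=
    Algebra.IsIntegral.finite
  have unr : ∀ {r : Pt 𝒜} (hr : r.1 (y 0) ≠ 0),
      (RingHom.ker (ev r) ≤ Ideal.span (Set.range fun i : Fin n => dehL hr (y i.succ) -
        algebraMap ℂ (loc r) (ev r (dehL hr (y i.succ)))) ⊔ RingHom.ker (ev r) ^ 2) →
      ∃ u, (ev r).comp (Subalgebra.inclusion (range_le hr)) u ≠ 0 ∧
        ∀ s, (ev r).comp (Subalgebra.inclusion (range_le hr)) s = 0 →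
        u * s ∈ ((RingHom.ker ((ev r).comp (Subalgebra.inclusion (range_le hr)))).comap
          (algebraMap (MvPolynomial (Fin n) ℂ) (deh (y 0)).range)).map
          (algebraMap (MvPolynomial (Fin n) ℂ) (deh (y 0)).range) := fun {r} hr hj => by
    let := algL hr
    have : (RingHom.ker ((ev r).comp (Subalgebra.inclusion (range_le hr)))).IsPrime :=
      RingHom.ker_isPrime _
    have : IsLocalization.AtPrime (loc r)
      (RingHom.ker ((ev r).comp (Subalgebra.inclusion (range_le hr)))) := isLoc hr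
    have e1 : ∀ (i : Fin n) (c : ℂ), algebraMap (deh (y 0)).range (loc r)
        (algebraMap (MvPolynomial (Fin n) ℂ) (deh (y 0)).range (X i - C c)) =
        dehL hr (y i.succ) - algebraMap ℂ (loc r) c := fun i c => by
      change Subalgebra.inclusion (range_le hr) (φ _) = _
      rw [map_sub, map_sub, aeval_X, aeval_C, AlgHom.commutes]
      rfl
    exact unram_pt _ (loc r) (fun i : Fin n => X i - C (ev r (dehL hr (y i.succ))))
      (fun i => by
        change ev r (algebraMap (deh (y 0)).range (loc r) _) = 0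
        rw [e1]
        simp)
      (by simpa only [e1, max_loc] using hj)
  have evn : ∀ {q : Pt 𝒜} (hq : q.1 (y 0) ≠ 0) {i : ℕ} {a : S}, a ∈ 𝒜 i →
      ((ev q).comp (Subalgebra.inclusion (range_le hq)) ((deh (y 0)).rangeRestrict a) ≠ 0 ↔
        q.1 a ≠ 0) := fun {q} hq i a ha => by
    change ev q (dehL hq a) ≠ 0 ↔ _
    rw [ev_dehL hq ha]
    simp [hq]
  obtain ⟨⟨_, a, rfl⟩, h1, h1', h2, h3⟩ := hE (R := MvPolynomial (Fin n) ℂ) _ _ (unr hp0 hjp)
    (unr hq0 hjq) ((deh (y 0)).rangeRestrict f) ((evn hp0 hf).2 hp) ((evn hq0 hf).2 hq)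
  obtain ⟨e, he⟩ := exists_form l0 a
  obtain ⟨g, hg, e2⟩ := he e le_rfl
  have e3 : (⟨(deh (y 0)).toRingHom a, a, rfl⟩ : (deh (y 0)).range) =
      (deh (y 0)).rangeRestrict g := Subtype.ext e2.symm
  rw [e3] at h1 h1' h2 h3
  have pg := (evn hp0 hg).1 h1
  have qg := (evn hq0 hg).1 h1'
  have g0 : g ≠ 0 := fun e => pg (by simp [e])
  have hle : (deh (y 0)).range ≤ aff (y 0) g := by
    rintro _ ⟨a, rfl⟩; exact deh_mem_aff _ g a
  let := (Subalgebra.inclusion hle).toAlgebra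
  let alg := ((Subalgebra.inclusion hle).comp φ).toAlgebra
  have tower : IsScalarTower ℂ (MvPolynomial (Fin n) ℂ) (aff (y 0) g) :=
    .of_algHom ((Subalgebra.inclusion hle).comp φ)
  have : IsScalarTower (MvPolynomial (Fin n) ℂ) (deh (y 0)).range (aff (y 0) g) :=
    .of_algebraMap_eq fun _ => rfl
  have := isLoc_aff (deh_ne l0 hg g0)
  obtain ⟨E⟩ := h3 (aff (y 0) g)
  let c : Chart 𝒜 n := ⟨y 0, e, g, hg, l0, g0, E⟩
  have hz : ∀ i, c.z i = c.dh (y i.succ) := fun i => by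
    change Subalgebra.inclusion hle (φ _) = _
    rw [aeval_X]
    rfl
  refine ⟨c, ⟨hp0, pg⟩, ⟨hq0, qg⟩, fun r hc => ?_, fun i => hz i ▸ c.dh_mem_fil (y _).2, ⟨M, ?_⟩⟩
  · refine (evn hc.1 hf).1 fun e => (evn hc.1 hg).2 hc.2 ?_
    obtain ⟨w, hw⟩ := h2
    rw [hw, map_mul, e, zero_mul]
  · exact chart_red c y rfl hz hM

end

end Pool.Agent.Lib.MP_9ff3e7_ag.F
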