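import Pool.Agent.Lib.MP_9ff3e7_ag.F.EndAbs
import Pool.Agent.Lib.MP_9ff3e7_ag.F.Upd

/-! The last stage for two points, over the abstract klt calculus. -/

set_option autoImplicit false

namespace Pool.Agent.Lib.MP_9ff3e7_ag.F

open Module Finset Finsupp

section ring

variable {O : Type} [CommRing O]

/-- (I3) with the weights indexed through a map of positions -/
theorem I3One.push {K : (Ideal O →₀ ℝ) → Prop} {m : ℕ} {N : ℕ → ℕ} {Q : Ideal O}
    {G : ℕ → ℕ → Ideal O} {a : ℕ → ℕ → ℝ} {g : ℝ} (h : I3One K m N Q G a g) (σ : ℕ → ℕ → ℕ)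
    (hσ : ∀ i < m, ∀ r < N i, σ i r ≤ N i) (u : ℕ → ℕ → ℝ) (hu : ∀ i r, 0 ≤ u i r) {b : ℝ}
    (hb : 0 ≤ b)
    (hK : K (∑ i ∈ range m, ∑ r ∈ range (N i), single (G i (σ i r)) (u i r) + single Q b)) :
    ∑ i ∈ range m, ∑ r ∈ range (N i), u i r * a i (σ i r) + b * g ≤ 1 := by
  set w : ℕ → ℕ → ℝ := fun i r' => (if r' < N i then (0 : ℝ) else 0) +
    ∑ r ∈ range (N i), if σ i r = r' then u i r else 0 with hw
  have w0 : ∀ i r, 0 ≤ w i r := fun i r => add_nonneg (by split_ifs <;> exact le_rfl)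
    (sum_nonneg fun r' _ => by split_ifs; exacts [hu i r', le_rfl])
  have e1 : ∑ i ∈ range m, ∑ r ∈ range (N i + 1), single (G i r) (w i r) =
      ∑ i ∈ range m, ∑ r ∈ range (N i), single (G i (σ i r)) (u i r) :=
    sum_congr rfl fun i hi => (sum_push (N i) (fun r => singleAddHom (G i r)) (fun _ => 0) (u i)
      (σ i) (hσ i (mem_range.1 hi))).trans (by simp)
  have e2 : ∑ i ∈ range m, ∑ r ∈ range (N i + 1), w i r * a i r =
      ∑ i ∈ range m, ∑ r ∈ range (N i), u i r * a i (σ i r) :=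
    sum_congr rfl fun i hi => (sum_push (N i) (fun r => AddMonoidHom.mulRight (a i r))
      (fun _ => 0) (u i) (σ i) (hσ i (mem_range.1 hi))).trans (by simp)
  rw [← e2]
  exact h w b w0 hb (by rwa [e1])

/-- the loss on a break with a jump of the `m`-th functional -/
theorem loss_le {j L : ℕ} {N : ℕ → ℕ} {c : ℕ → ℝ} {P : ℕ → Ideal O} {G : ℕ → ℕ → Ideal O}
    {nb : ℕ → ℕ → ℕ} {a : ℕ → ℕ → ℕ → ℝ} {g eps : ℕ → ℝ} (h : Num j L N c P G nb a g eps)
    {K : (Ideal O →₀ ℝ) → Prop} {le : Ideal O → Ideal O → Prop} (hc : Calc K le)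
    (h3 : I3At K j N P G a g) {A B : ℕ → ℕ → Ideal O} (hA : ∀ i < L, ∀ r < N i, A i r ≤ G i r)
    (hB : ∀ i < L, ∀ r < N i, B i r ≤ P j * G i r) {s b e : ℕ → ℕ → ℝ}
    (h0 : ∀ i r, 0 ≤ s i r ∧ 0 ≤ b i r ∧ 0 ≤ e i r) {η : ℝ}
    (hs : ∀ i < L, ∀ r < N i, c i - η ≤ s i r + b i r + e i r) {m : ℕ} (hmj : m ≤ j)
    (hη : η * ∑ i ∈ range m, ∑ r ∈ range (N i), a m i r ≤ eps m)
    (hK : K (∑ i ∈ range L, ∑ r ∈ range (N i),
      (single (A i r) (s i r) + single (B i r) (b i r) + single (G i (nb i r)) (e i r))))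
    {i r : ℕ} (him : i < m) (hr : r < N i)
    (hjump : a m i (nb i r - 1) + g m ≤ a m i (nb i r)) : e i r ≤ 3 * eps m / g m := by
  have hm : 1 ≤ m := by omega
  have hjL := h.jL
  have hb := bound h hc h3 hA hB h0 hs hm hmj hη le_rfl (by simpa using hK)
  have hg := h.g0 m hm hmj
  have p1 : ∀ i < m, ∀ r < N i, 0 ≤ e i r * (a m i (nb i r) - a m i r) := fun i hi r hr =>
    mul_nonneg (h0 i r).2.2 (sub_nonneg.2
      (h.I2a m hm hmj i hi _ _ (h.nb1 i (by omega) r hr).le (h.nb2 i (by omega) r hr)))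
  have q2 : 0 ≤ ∑ i ∈ range L, ∑ r ∈ range (N i), ((if m = j then b i r else 0) +
      (if i = m ∧ nb i r = N i then e i r else 0)) :=
    sum_nonneg fun i _ => sum_nonneg fun r _ => by
      have := h0 i r
      split_ifs <;> linarith [this.2.1, this.2.2]
  have h1 := term_le p1 him hr
  have h2 := h.nb1 i (by omega) r hr
  have h5 := h.nb2 i (by omega) r hr
  have h4 := h.I2a m hm hmj i him r (nb i r - 1) (by omega) (by omega)
  rw [le_div_iff₀ hg]
  nlinarith [mul_le_mul_of_nonneg_left (show g m ≤ a m i (nb i r) - a m i r by linarith)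
    (h0 i r).2.2, mul_nonneg (add_nonneg q2 le_rfl) hg.le]

theorem sum_loss_le {L : ℕ} {N : ℕ → ℕ} {l t : ℕ → ℕ → ℝ} {e : ℝ} (he : 0 ≤ e)
    (ht : ∀ i r, 0 ≤ t i r)
    (hl : ∀ i < L, ∀ r < N i, l i r * ∑ i ∈ range L, ∑ r ∈ range (N i), t i r ≤ e) :
    ∑ i ∈ range L, ∑ r ∈ range (N i), l i r * t i r ≤ e := by
  set X := ∑ i ∈ range L, ∑ r ∈ range (N i), t i r with hX
  have X0 : 0 ≤ X := sum_nonneg fun i _ => sum_nonneg fun r _ => ht i r
  rcases X0.eq_or_lt with h | h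
  · refine le_trans (le_of_eq (sum_eq_zero fun i hi => sum_eq_zero fun r hr => ?_)) he
    have := term_le (f := t) (L := L) (N := N) (fun i _ r _ => ht i r) (mem_range.1 hi)
      (mem_range.1 hr)
    rw [le_antisymm (this.trans h.ge) (ht i r), mul_zero]
  · calc _ ≤ ∑ i ∈ range L, ∑ r ∈ range (N i), e / X * t i r :=
          sum_le_sum fun i hi => sum_le_sum fun r hr => mul_le_mul_of_nonneg_right
            ((le_div_iff₀ h).2 (hl i (mem_range.1 hi) r (mem_range.1 hr))) (ht i r)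
      _ = e / X * X := by simp only [hX, Finset.mul_sum]
      _ = e := div_mul_cancel₀ _ h.ne'

end ring

variable {O : Type} [CommRing O] [Algebra ℂ O]

theorem end_abs2 {K K' : (Ideal O →₀ ℝ) → Prop} {le le' : Ideal O → Ideal O → Prop}
    (hc : Calc K le) (hc' : Calc K' le') {j : ℕ} (hj : 1 ≤ j) {N : ℕ → ℕ} {c : ℕ → ℝ}
    {P : ℕ → Ideal O} {G : ℕ → ℕ → Submodule ℂ O} {nb : ℕ → ℕ → ℕ} {a : ℕ → ℕ → ℕ → ℝ}
    {g eps : ℕ → ℝ} (hnum : Num j j N c P (fun i r => Ideal.span (G i r : Set O)) nb a g eps)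
    (h3 : I3At K j N P (fun i r => Ideal.span (G i r : Set O)) a g)
    {F E : ℕ → ℕ → Submodule ℂ O} {σ : ℕ → ℕ → ℕ}
    (hF : ∀ i < j, ∀ r < N i, F i r ≤ (E i (σ i r) ⊓ G i r) ⊔ G i (nb i r))
    (h1 : ∀ ρ : ℝ, 0 < ρ → ρ < 1 →
      K (∑ i ∈ range j, ∑ r ∈ range (N i), single (Ideal.span (F i r : Set O)) (ρ * c i)))
    {L : ℕ} (hL : L ≤ j) {ay : ℕ → ℕ → ℝ} {gy ey : ℝ} {Q : Ideal O} (ay0 : ∀ i r, 0 ≤ ay i r)
    (aym : ∀ i, Monotone (ay i)) (gy0 : 0 < gy) (ey0 : 0 < ey)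
    (hy3 : I3One K' L N Q (fun i r => Ideal.span (E i r : Set O)) ay gy)
    (hσ : ∀ i < L, ∀ r < N i, σ i r ≤ N i)
    (hsum : ∀ i < L, ∑ r ∈ range (N i), ay i r ≤ ∑ r ∈ range (N i), ay i (σ i r))
    (hval : 1 - ey < ∑ i ∈ range L, c i * ∑ r ∈ range (N i), ay i r)
    (hbrk : ∀ i < L, ∀ r < N i, G i (nb i r) ≤ E i (σ i r) ∨ ∃ m, i < m ∧ m ≤ j ∧
      a m i (nb i r - 1) + g m ≤ a m i (nb i r) ∧
      3 * eps m / g m * ∑ i ∈ range L, ∑ _r ∈ range (N i), ay i (N i) ≤ ey) :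
    ∃ s e : ℕ → ℕ → ℝ, (∀ i r, 0 ≤ s i r ∧ 0 ≤ e i r) ∧
      (∀ i < j, ∀ r < N i, s i r ≤ c i ∧
        (e i r = 0 ∨ ∃ m, 1 ≤ m ∧ i ≤ m ∧ m ≤ j ∧ e i r ≤ 3 * eps m / g m)) ∧
      ∀ D : Ideal O →₀ ℝ, D = ∑ i ∈ range j, ∑ r ∈ range (N i),
        (single (Ideal.span ((E i (σ i r) ⊓ G i r : Submodule ℂ O) : Set O)) (s i r) +
          single (Ideal.span (G i (nb i r) : Set O)) (e i r)) →
        K D ∧ (∀ b, 3 * eps j / g j < b → ¬ K (D + single (P j) b)) ∧
          ¬ K' (D + single Q (4 * ey / gy)) := by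
  classical
  set tot := ∑ i ∈ range L, ∑ _r ∈ range (N i), ay i (N i) with htot
  have tot0 : 0 ≤ tot := sum_nonneg fun i _ => sum_nonneg fun r _ => ay0 _ _
  obtain ⟨η, hη, hην, hηe⟩ := exists_eta hnum (ν := ey / (tot + 1)) (by positivity)
  have hηt : η * tot ≤ ey := by
    rw [le_div_iff₀ (by positivity)] at hην
    nlinarith
  obtain ⟨ρ, hρ0, hρ1, hsp⟩ := split hnum hη
  have hA : ∀ i < j, ∀ r < N i, Ideal.span ((E i (σ i r) ⊓ G i r : Submodule ℂ O) : Set O) ≤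
      Ideal.span (G i r : Set O) := fun i _ r _ =>
    Ideal.span_mono (inf_le_right : E i (σ i r) ⊓ G i r ≤ G i r)
  obtain ⟨s, b, e, h0, hs, hK, hb, hlast⟩ := hsp K le hc h3
    (fun i r => Ideal.span (F i r : Set O))
    (fun i r => Ideal.span ((E i (σ i r) ⊓ G i r : Submodule ℂ O) : Set O)) (fun _ _ => ⊥) hA
    (fun _ _ _ _ => bot_le)
    (fun i hi r hr => hc.of_le _ _ (by
      rw [show ∀ J : Ideal O, J + ⊥ = J from fun J => add_zero J, ← span_coe_sup]
      exact Ideal.span_mono (hF i hi r hr))) (h1 ρ hρ0 hρ1)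
  refine ⟨s, e, fun i r => ⟨(h0 i r).1, (h0 i r).2.2⟩,
    fun i hi r hr => ⟨(hs i hi r hr).2, (hb i hi r hr).2.2⟩, fun D hD => ?_⟩
  have hD' : D = ∑ i ∈ range j, ∑ r ∈ range (N i),
      (single (Ideal.span ((E i (σ i r) ⊓ G i r : Submodule ℂ O) : Set O)) (s i r) +
        single ⊥ (b i r) + single (Ideal.span (G i (nb i r) : Set O)) (e i r)) := by
    rw [hD]
    refine sum_congr rfl fun i hi => sum_congr rfl fun r hr => ?_
    rw [(hb i (mem_range.1 hi) r (mem_range.1 hr)).1 rfl, single_zero, add_zero]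
  refine ⟨hD' ▸ hK, fun b0 hb0 hK' => ?_, fun hK' => ?_⟩
  · have hpos : 0 ≤ 3 * eps j / g j :=
      div_nonneg (mul_nonneg (by norm_num) (hnum.e0 j hj le_rfl).le) (hnum.g0 j hj le_rfl).le
    exact absurd (hlast hj b0 (hpos.trans hb0.le) (hD' ▸ hK')) (not_le.2 hb0)
  set u : ℕ → ℕ → ℝ := fun i r => s i r + if G i (nb i r) ≤ E i (σ i r) then e i r else 0 with hu
  set l : ℕ → ℕ → ℝ := fun i r => if G i (nb i r) ≤ E i (σ i r) then 0 else e i r with hl
  have u0 : ∀ i r, 0 ≤ u i r := fun i r =>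
    add_nonneg (h0 i r).1 (by split_ifs; exacts [(h0 i r).2.2, le_rfl])
  have l0 : ∀ i r, 0 ≤ l i r := fun i r => by
    simp only [hl]; split_ifs; exacts [le_rfl, (h0 i r).2.2]
  have b0 : 0 ≤ 4 * ey / gy := by positivity
  have X0 : ∀ i r, (0 : Ideal O →₀ ℝ) ≤
      single (Ideal.span ((E i (σ i r) ⊓ G i r : Submodule ℂ O) : Set O)) (s i r) +
        single (Ideal.span (G i (nb i r) : Set O)) (e i r) := fun i r =>
    add_nonneg (single_nonneg.2 (h0 i r).1) (single_nonneg.2 (h0 i r).2.2)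
  have term : ∀ i r, Imp K'
      (single (Ideal.span ((E i (σ i r) ⊓ G i r : Submodule ℂ O) : Set O)) (s i r) +
        single (Ideal.span (G i (nb i r) : Set O)) (e i r))
      (single (Ideal.span (E i (σ i r) : Set O)) (u i r)) := by
    intro i r
    have iA := Imp.of_le hc' (h0 i r).1
      (Ideal.span_mono (inf_le_left : E i (σ i r) ⊓ G i r ≤ E i (σ i r)))
    simp only [hu, single_add]
    refine iA.add ?_ (single_nonneg.2 (h0 i r).2.2) (single_nonneg.2 (h0 i r).1)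
    split_ifs with hh
    · exact Imp.of_le hc' (h0 i r).2.2 (Ideal.span_mono hh)
    · exact Imp.drop hc' (by simp) (by simpa using (h0 i r).2.2)
  have im : Imp K' D (∑ i ∈ range L, ∑ r ∈ range (N i),
      single (Ideal.span (E i (σ i r) : Set O)) (u i r)) := by
    refine (Imp.drop hc' (sum_nonneg fun i _ => sum_nonneg fun r _ => X0 i r) ?_).trans
      (Imp.sum (range L) _ _ (fun i _ => sum_nonneg fun r _ => X0 i r)
        (fun i _ => sum_nonneg fun r _ => single_nonneg.2 (u0 i r))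
        fun i _ => Imp.sum (range (N i)) _ _ (fun r _ => X0 i r)
          (fun r _ => single_nonneg.2 (u0 i r)) fun r _ => term i r)
    rw [hD]
    exact sum_le_sum_of_subset_of_nonneg (range_subset_range.2 hL)
      fun i _ _ => sum_nonneg fun r _ => X0 i r
  have key := hy3.push σ hσ u u0 b0 ((im.add (Imp.refl _) (single_nonneg.2 b0)
    (sum_nonneg fun i _ => sum_nonneg fun r _ => single_nonneg.2 (u0 i r))).app hK')
  have hloss : ∑ i ∈ range L, ∑ r ∈ range (N i), l i r * ay i (N i) ≤ ey := by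
    refine sum_loss_le (t := fun i _ => ay i (N i)) ey0.le (fun i _ => ay0 _ _) fun i hi r hr => ?_
    simp only [hl]
    split_ifs with hh
    · simpa using ey0.le
    · obtain ⟨m, him, hmj, hjump, hm⟩ := (hbrk i hi r hr).resolve_left hh
      exact (mul_le_mul_of_nonneg_right (loss_le hnum hc h3 hA (fun _ _ _ _ => bot_le) h0
        (fun i hi r hr => (hs i hi r hr).1) hmj (hηe m (by omega) hmj) hK him hr hjump)
        tot0).trans hm
  have low : ∑ i ∈ range L, c i * ∑ r ∈ range (N i), ay i (σ i r) - η * tot -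
      ∑ i ∈ range L, ∑ r ∈ range (N i), l i r * ay i (N i) ≤
      ∑ i ∈ range L, ∑ r ∈ range (N i), u i r * ay i (σ i r) := by
    simp only [htot, Finset.mul_sum, ← sum_sub_distrib]
    refine sum_le_sum fun i hi => sum_le_sum fun r hr => ?_
    have hi' := mem_range.1 hi
    have hr' := mem_range.1 hr
    have p1 := (hs i (by omega) r hr').1
    rw [(hb i (by omega) r hr').1 rfl] at p1
    have p2 : c i - η - l i r ≤ u i r := by
      simp only [hu, hl]; split_ifs <;> linarith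
    have p3 := aym i (hσ i hi' r hr')
    nlinarith [mul_le_mul_of_nonneg_right p2 (ay0 i (σ i r)),
      mul_le_mul_of_nonneg_left p3 (add_nonneg hη.le (l0 i r))]
  have low2 : ∑ i ∈ range L, c i * ∑ r ∈ range (N i), ay i r ≤
      ∑ i ∈ range L, c i * ∑ r ∈ range (N i), ay i (σ i r) :=
    sum_le_sum fun i hi => mul_le_mul_of_nonneg_left (hsum i (mem_range.1 hi))
      (hnum.c0 i (by have := mem_range.1 hi; omega))
  rw [div_mul_cancel₀ _ gy0.ne'] at key
  linarith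

end Pool.Agent.Lib.MP_9ff3e7_ag.F
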