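import Pool.Agent.Lib.MP_9ff3e7_ag.F.FlagChain

/-! A complete flag that refines a given coarse flag and is compatible with a complete flag. -/

set_option autoImplicit false

namespace Pool.Agent.Lib.MP_9ff3e7_ag.F

open Module Finset

section cnt

variable {K W : Type} [Field K] [AddCommGroup W] [Module K W]

theorem exists_cnt_flag (V C : Submodule K W) [FiniteDimensional K V] (N k : ℕ)
    (hN : finrank K C + N = finrank K V) (G : ℕ → Submodule K W) (nb : ℕ → ℕ)
    (hG0 : G 0 = V) (hGN : G N = C) (hanti : ∀ r r', r ≤ r' → r' ≤ N → G r' ≤ G r)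
    (hcod : ∀ r < N, finrank K V ≤ finrank K (G r) + r)
    (hnb1 : ∀ r < N, r < nb r) (hnb2 : ∀ r < N, nb r ≤ N)
    (hblk : ∀ r < N, ∀ r', r ≤ r' → r' < nb r → G r' = G r ∧ nb r' = nb r)
    (T : ℕ → Submodule K W) (hT : Monotone T) (hTk : T k = V) :
    ∃ (F : ℕ → Submodule K W) (d : ℕ → ℕ), F 0 = V ∧ (∀ r, N ≤ r → F r = C) ∧ Antitone F ∧
      (∀ r ≤ N, finrank K (F r) + r = finrank K V) ∧
      (∀ r ≤ N, finrank K (G r) + r = finrank K V → F r = G r) ∧
      (∀ r, d r ≤ k) ∧ (∀ r < N, F r ≤ (T (d r) ⊓ G r) ⊔ G (nb r)) ∧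
      ∀ t < k, finrank K (T t) ≤
        finrank K ↥(T t ⊓ C) + ∑ r ∈ range N, if d r ≤ t then 1 else 0 := by
  classical
  set S : ℕ → ℕ → Submodule K W := fun r t => (T t ⊓ G r) ⊔ G (nb r) with hS
  have hGV : ∀ r ≤ N, G r ≤ V := fun r hr => hG0 ▸ hanti 0 r (Nat.zero_le _) hr
  have hCG : ∀ r ≤ N, C ≤ G r := fun r hr => hGN ▸ hanti r N hr le_rfl
  have hSG : ∀ r < N, ∀ t, S r t ≤ G r := fun r hr t =>
    sup_le inf_le_right (hanti r (nb r) (hnb1 r hr).le (hnb2 r hr))
  have hGS : ∀ r t, G (nb r) ≤ S r t := fun r t => le_sup_right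
  have hSk : ∀ r < N, S r k = G r := fun r hr =>
    le_antisymm (hSG r hr k) (le_sup_of_le_left (le_inf (hTk ▸ hGV r hr.le) le_rfl))
  have hcmp : ∀ r r', r ≤ r' → r' < N → ∀ t t', S r t ≤ S r' t' ∨ S r' t' ≤ S r t := by
    intro r r' h hr' t t'
    have hr : r < N := lt_of_le_of_lt h hr'
    by_cases hb : r' < nb r
    · obtain ⟨e1, e2⟩ := hblk r hr r' h hb
      simp only [hS, e1, e2]
      rcases le_total t t' with ht | ht
      · exact Or.inl (sup_le_sup_right (inf_le_inf_right _ (hT ht)) _)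
      · exact Or.inr (sup_le_sup_right (inf_le_inf_right _ (hT ht)) _)
    · exact Or.inr ((hSG r' hr' t').trans ((hanti (nb r) r' (by omega) hr'.le).trans (hGS r t)))
  have hCV : C ≤ V := hGN ▸ hGV N le_rfl
  obtain ⟨F, hF0, hFN, hFa, hFd, hFS⟩ := exists_flag_of_chain V C hCV N hN
    {X | ∃ r < N, ∃ t, X = S r t} (by
      rintro _ ⟨r, hr, t, rfl⟩ _ ⟨r', hr', t', rfl⟩ _
      rcases le_total r r' with h | h
      · exact hcmp r r' h hr' t t'
      · exact (hcmp r' r h hr t' t).symm) (by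
      rintro _ ⟨r, hr, t, rfl⟩
      exact ⟨(hCG _ (hnb2 r hr)).trans (hGS r t), (hSG r hr t).trans (hGV r hr.le)⟩)
  have hFV : ∀ r, F r ≤ V := fun r => hF0 ▸ hFa (Nat.zero_le r)
  have hmem : ∀ r < N, ∀ t, ∃ q ≤ N, finrank K (S r t) + q = finrank K V ∧ F q = S r t := by
    intro r hr t
    have h1 : S r t ≤ V := (hSG r hr t).trans (hGV r hr.le)
    have : FiniteDimensional K (S r t) := Submodule.finiteDimensional_of_le h1
    have h2 := Submodule.finrank_mono h1
    have h3 := Submodule.finrank_mono ((hCG _ (hnb2 r hr)).trans (hGS r t))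
    exact ⟨finrank K V - finrank K (S r t), by omega, by omega,
      hFS _ ⟨r, hr, t, rfl⟩ _ (by omega) (by omega)⟩
  have hFG : ∀ r < N, F r ≤ G r := by
    intro r hr
    obtain ⟨q, hq, e1, e2⟩ := hmem r hr k
    rw [hSk r hr] at e1 e2
    have := hcod r hr
    exact e2 ▸ hFa (by omega : q ≤ r)
  have hex : ∀ r, ∃ t, t ≤ k ∧ (r < N → F r ≤ S r t) := fun r =>
    ⟨k, le_rfl, fun hr => (hSk r hr).symm ▸ hFG r hr⟩
  refine ⟨F, fun r => Nat.find (hex r), hF0, hFN, hFa, hFd, ?_, fun r => (Nat.find_spec (hex r)).1,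
    fun r hr => (Nat.find_spec (hex r)).2 hr, ?_⟩
  · intro r hr h
    rcases hr.eq_or_lt with h' | h'
    · rw [h', hFN N le_rfl, hGN]
    · exact hFS _ ⟨r, h', k, (hSk r h').symm⟩ r hr h
  · have hdrop : ∀ t < k, ∀ r < N, finrank K ↥(T t ⊓ F r) ≤
        finrank K ↥(T t ⊓ F (r + 1)) + if Nat.find (hex r) ≤ t then 1 else 0 := by
      intro t ht r hr
      have : FiniteDimensional K (F r) := Submodule.finiteDimensional_of_le (hFV r)
      have : FiniteDimensional K (F (r + 1)) := Submodule.finiteDimensional_of_le (hFV _)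
      have hle : F (r + 1) ≤ F r := hFa (Nat.le_succ r)
      split_ifs with h
      · have h1 := Submodule.finrank_sup_add_finrank_inf_eq (T t ⊓ F r) (F (r + 1))
        have h2 : T t ⊓ F r ⊓ F (r + 1) = T t ⊓ F (r + 1) := by
          rw [inf_assoc, inf_eq_right.2 hle]
        have h3 := Submodule.finrank_mono (sup_le inf_le_right hle : T t ⊓ F r ⊔ F (r + 1) ≤ F r)
        have h4 := hFd r hr.le
        have h5 := hFd (r + 1) hr
        rw [h2] at h1
        omega
      · have h1 : ¬ F r ≤ S r t := fun h' => h (Nat.find_min' (hex r) ⟨ht.le, fun _ => h'⟩)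
        obtain ⟨q, hq, -, e2⟩ := hmem r hr t
        have h2 : r + 1 ≤ q := by
          by_contra hc
          exact h1 (e2 ▸ hFa (by omega : q ≤ r))
        have h3 : T t ⊓ F r ≤ T t ⊓ F (r + 1) :=
          le_inf inf_le_left (((inf_le_inf_left _ (hFG r hr)).trans le_sup_left).trans
            (e2.ge.trans (hFa h2)))
        simpa using Submodule.finrank_mono h3
    have htel : ∀ t < k, ∀ s ≤ N, finrank K ↥(T t ⊓ F 0) ≤
        finrank K ↥(T t ⊓ F s) + ∑ r ∈ range s, if Nat.find (hex r) ≤ t then 1 else 0 := by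
      intro t ht s
      induction s with
      | zero => intro _; simp
      | succ s ih =>
        intro hs
        have h1 := ih (by omega)
        have h2 := hdrop t ht s hs
        rw [sum_range_succ]
        omega
    intro t ht
    have h := htel t ht N le_rfl
    rwa [hFN N le_rfl, hF0, inf_eq_left.2 (hTk ▸ hT ht.le)] at h

end cnt

/-- Abel summation -/
theorem sum_le_of_count (N : ℕ) (σ : ℕ → ℕ) (hσ : ∀ r, σ r ≤ N)
    (h : ∀ u, 0 < u → u ≤ N → N - u ≤ ∑ r ∈ range N, if u ≤ σ r then 1 else 0) (a : ℕ → ℝ)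
    (ha : Monotone a) : ∑ r ∈ range N, a r ≤ ∑ r ∈ range N, a (σ r) := by
  have tel : ∀ s ≤ N, a s = a 0 + ∑ u ∈ range N, if u + 1 ≤ s then a (u + 1) - a u else 0 := by
    intro s hs
    rw [← sum_filter, show filter (fun u => u + 1 ≤ s) (range N) = range s from by
      ext u; simp only [mem_filter, mem_range]; omega, sum_range_sub]
    ring
  have key : ∀ τ : ℕ → ℕ, (∀ r < N, τ r ≤ N) → ∑ r ∈ range N, a (τ r) = N * a 0 +
      ∑ u ∈ range N, ((∑ r ∈ range N, if u + 1 ≤ τ r then 1 else 0 : ℕ) : ℝ) *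
        (a (u + 1) - a u) := by
    intro τ hτ
    rw [sum_congr rfl fun r hr => tel _ (hτ r (mem_range.1 hr)), sum_add_distrib, sum_comm]
    congr 1
    · simp
    · refine sum_congr rfl fun u _ => ?_
      push_cast
      rw [sum_mul]
      exact sum_congr rfl fun r _ => by split_ifs <;> simp
  rw [key σ fun r _ => hσ r, key (fun r => r) fun r hr => hr.le]
  refine add_le_add le_rfl (sum_le_sum fun u hu => mul_le_mul_of_nonneg_right ?_
    (sub_nonneg.2 (ha (Nat.le_succ u))))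
  refine Nat.cast_le.2 (le_trans (le_of_eq ?_) (h (u + 1) u.succ_pos (mem_range.1 hu)))
  rw [← card_filter, show filter (fun r => u + 1 ≤ r) (range N) = Ico (u + 1) N from by
    ext r; simp [and_comm], Nat.card_Ico]

theorem exists_two_flag {K W : Type} [Field K] [AddCommGroup W] [Module K W]
    (V C : Submodule K W) [FiniteDimensional K V] (N : ℕ)
    (hN : finrank K C + N = finrank K V) (G : ℕ → Submodule K W) (nb : ℕ → ℕ)
    (hG0 : G 0 = V) (hGN : G N = C) (hanti : ∀ r r', r ≤ r' → r' ≤ N → G r' ≤ G r)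
    (hcod : ∀ r < N, finrank K V ≤ finrank K (G r) + r)
    (hnb1 : ∀ r < N, r < nb r) (hnb2 : ∀ r < N, nb r ≤ N)
    (hblk : ∀ r < N, ∀ r', r ≤ r' → r' < nb r → G r' = G r ∧ nb r' = nb r)
    (E : ℕ → Submodule K W) (E0 : E 0 = V) (EN : E N = C)
    (Ea : ∀ r r', r ≤ r' → r' ≤ N → E r' ≤ E r)
    (Ed : ∀ r ≤ N, finrank K (E r) + r = finrank K V) :
    ∃ (F : ℕ → Submodule K W) (σ : ℕ → ℕ), F 0 = V ∧ (∀ r, N ≤ r → F r = C) ∧ Antitone F ∧
      (∀ r ≤ N, finrank K (F r) + r = finrank K V) ∧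
      (∀ r ≤ N, finrank K (G r) + r = finrank K V → F r = G r) ∧
      (∀ r, σ r ≤ N) ∧ (∀ r < N, F r ≤ (E (σ r) ⊓ G r) ⊔ G (nb r)) ∧
      (∀ r < N, G (nb r) = E (nb r) → σ r ≤ nb r) ∧
      ∀ a : ℕ → ℝ, Monotone a → ∑ r ∈ range N, a r ≤ ∑ r ∈ range N, a (σ r) := by
  have hT : Monotone fun t => E (N - t) := fun t t' h => Ea _ _ (by omega) (by omega)
  obtain ⟨F, d, f1, f2, f3, f4, f5, f6, f7, f8⟩ := exists_cnt_flag V C N N hN G nb hG0 hGN hanti
    hcod hnb1 hnb2 hblk (fun t => E (N - t)) hT (by simpa using E0)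
  have hEV : ∀ r ≤ N, E r ≤ V := fun r hr => E0 ▸ Ea 0 r (Nat.zero_le _) hr
  refine ⟨F, fun r => N - d r, f1, f2, f3, f4, f5, fun r => Nat.sub_le _ _, f7, fun r hr h => ?_,
    sum_le_of_count N _ (fun r => Nat.sub_le _ _) fun u u0 hu => ?_⟩
  · by_contra hc
    have h1 := hnb1 r hr
    have h2 := hnb2 r hr
    have : FiniteDimensional K (E (nb r)) := Submodule.finiteDimensional_of_le (hEV _ h2)
    have h3 : F r ≤ E (nb r) := (f7 r hr).trans
      (sup_le (inf_le_left.trans (Ea _ _ (not_le.1 hc).le (Nat.sub_le _ _))) h.le)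
    have h4 := Submodule.finrank_mono h3
    have h5 := f4 r hr.le
    have h6 := Ed _ h2
    omega
  · have h1 := f8 (N - u) (by omega)
    beta_reduce at h1
    rw [Nat.sub_sub_self hu, inf_eq_right.2 (EN ▸ Ea u N hu le_rfl)] at h1
    have h2 := Ed u hu
    have h3 : (∑ r ∈ range N, if d r ≤ N - u then 1 else 0) =
        ∑ r ∈ range N, if u ≤ N - d r then 1 else 0 :=
      sum_congr rfl fun r _ => if_congr (by have := f6 r; omega) rfl rfl
    omega

end Pool.Agent.Lib.MP_9ff3e7_ag.F
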