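import Pool.Agent.Lib.MP_9ff3e7_ag.F.PDefs
import Pool.Agent.Lib.MP_9ff3e7_ag.F.PEndA
import Pool.Agent.Lib.MP_9ff3e7_ag.F.End
import Pool.Agent.Lib.MP_9ff3e7_ag.F.PFlag

/-! The last stage for two points. -/

set_option autoImplicit false

namespace Pool.Agent.Lib.MP_9ff3e7_ag.F

open Module Finset Finsupp Function

variable {n : ℕ} {O : Type} [CommRing O] [IsDomain O] [Algebra ℂ O]
  [Algebra (MvPolynomial (Fin n) ℂ) O] [IsScalarTower ℂ (MvPolynomial (Fin n) ℂ) O]
  {M : Model n O} {T : Filt n O} {x y : Pnt O} {S : Dat O} {c eps : ℕ → ℝ} {j L : ℕ} {Y : Cert O}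

omit [IsDomain O] [IsScalarTower ℂ (MvPolynomial (Fin n) ℂ) O] in
/-- flags of the family that are compatible with given complete flags -/
theorem Ser.two_flag (h : Ser T S j) {E : ℕ → ℕ → Submodule ℂ O}
    (hE : ∀ i < j, IsFlag (T.F (S.k i)) (S.cap T i) (S.N i) (E i)) :
    ∃ (F : ℕ → ℕ → Submodule ℂ O) (σ : ℕ → ℕ → ℕ), S.Fam T j F ∧ ∀ i < j,
      (∀ r, σ i r ≤ S.N i) ∧
      (∀ r < S.N i, F i r ≤ (E i (σ i r) ⊓ S.Gs i r) ⊔ S.Gs i (S.nb i r)) ∧
      (∀ r < S.N i, S.Gs i (S.nb i r) = E i (S.nb i r) → σ i r ≤ S.nb i r) ∧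
      ∀ a : ℕ → ℝ, Monotone a → ∑ r ∈ range (S.N i), a r ≤ ∑ r ∈ range (S.N i), a (σ i r) := by
  have key : ∀ i, ∃ (F : ℕ → Submodule ℂ O) (σ : ℕ → ℕ), i < j →
      (IsFlag (T.F (S.k i)) (S.cap T i) (S.N i) F ∧ ∀ r ∈ S.Br i, F r = S.F0 i r) ∧
      (∀ r, σ r ≤ S.N i) ∧
      (∀ r < S.N i, F r ≤ (E i (σ r) ⊓ S.Gs i r) ⊔ S.Gs i (S.nb i r)) ∧
      (∀ r < S.N i, S.Gs i (S.nb i r) = E i (S.nb i r) → σ r ≤ S.nb i r) ∧
      ∀ a : ℕ → ℝ, Monotone a → ∑ r ∈ range (S.N i), a r ≤ ∑ r ∈ range (S.N i), a (σ r) := by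
    intro i
    by_cases hi : i < j
    swap
    · exact ⟨fun _ => ⊥, fun _ => 0, fun h => absurd h hi⟩
    have := T.fd (S.k i)
    have hf := h.flag i hi
    have hB0 := h.br0 i hi
    have hBN := h.brN i hi
    obtain ⟨F, σ, f1, f2, f3, f4, f5, f6, f7, f8, f9⟩ := exists_two_flag (T.F (S.k i)) (S.cap T i)
      (S.N i) (by rw [← hf.bot]; exact hf.dim _ le_rfl) (S.Gs i) (S.nb i)
      (by rw [Dat.Gs, pb_zero]; exact hf.top) (h.Gs_N hi)
      (fun r r' h1 h2 => hf.anti _ _ (pb_mono _ h1) ((pb_le _ _).trans h2))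
      (fun r hr => by
        have h1 := hf.dim (pb (S.Br i) r) ((pb_le _ _).trans hr.le)
        have h2 := pb_le (S.Br i) r
        rw [Dat.Gs]
        omega)
      (fun r hr => lt_nb hBN hr) (fun r hr => nb_le hBN hr)
      (fun r hr r' h1 h2 => ⟨by
        rw [Dat.Gs, Dat.Gs, pb_eq_of_lt_nb hB0 ((pb_le _ _).trans h1) h2],
        nb_eq_of_lt_nb hBN hr ((pb_le _ _).trans h1) h2⟩)
      (E i) (hE i hi).top (hE i hi).bot (hE i hi).anti (hE i hi).dim
    refine ⟨F, σ, fun _ => ⟨⟨⟨f1, f2 _ le_rfl, fun r r' h1 _ => f3 h1, f4⟩, fun r hr => ?_⟩,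
      f6, f7, f8, f9⟩⟩
    have hrN := h.brle i hi r hr
    have := f5 r hrN
    rw [Dat.Gs, pb_eq_self hr] at this
    exact this (hf.dim r hrN)
  choose F σ hF using key
  exact ⟨F, σ, fun i hi => (hF i hi).1, fun i hi => (hF i hi).2⟩

omit [IsDomain O] [IsScalarTower ℂ (MvPolynomial (Fin n) ℂ) O] in
theorem end2 (hK : KAx M) (h : State2 M T x S c eps j) (hj : 1 ≤ j)
    (hP : ∀ s, x s = 0 → s ∈ S.P j) (hY : CertOk M T x y S c eps j j Y) : Concl2 M T x y := by
  classical
  have hκ : (0 : ℝ) < T.kap := by exact_mod_cast T.kap1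
  have hg := h.g0 j hj le_rfl
  have hδ := del_pos n
  have hdl := dlt_pos n T.kap1
  obtain ⟨e1, he1, -, he2⟩ := exists_small_eps (j := j) (fun i => 3 / S.g j * (S.k i * S.N i))
    (fun i => del n * dlt n T.kap i / 4) (fun i _ => by have := hdl i; positivity) (w := 0) hδ
  obtain ⟨e2, he3, he4, he5⟩ := exists_small_eps (j := 1) (fun _ => 3 / S.g j * Y.tot S.N)
    (fun _ => Y.e) (fun _ _ => hY.e0) (w := T.kap * (4 / S.g j)) (half_pos hδ)
  set e := min e1 e2 with he
  have e0 : 0 < e := lt_min he1 he3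
  have tot0 : 0 ≤ Y.tot S.N := sum_nonneg fun i _ => sum_nonneg fun r _ => hY.a0 _ _
  have hnum : Num j j S.N c S.P S.G S.nb S.a S.g (update eps j e) :=
    Num.of_breaks le_rfl (Nat.le_succ j) h.c0 h.P0
      (fun i hi => by
        rw [Dat.G, h.Gs_N hi]
        exact Ideal.span_le.mpr fun f hf => hf.2) h.brN h.g0
      (fun m h1 h2 => by
        rcases h2.eq_or_lt with rfl | h3
        · rwa [Function.update_self]
        · rw [update_of_ne h3.ne]; exact h.e0 m h1 h3) h.a0 h.I2a h.I2b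
      (fun m h1 h2 => by
        rcases h2.eq_or_lt with rfl | h3
        · rw [Function.update_self]
          have := h.I4j h1
          unfold Dat.val at this
          linarith
        · rw [update_of_ne h3.ne]; exact (h.I4 m h1 h3).le)
  set E : ℕ → ℕ → Submodule ℂ O := fun i => if i < Y.L then Y.F i else S.F0 i with hE
  have eE : ∀ i < Y.L, E i = Y.F i := fun i hi => if_pos hi
  have fE : ∀ i < j, IsFlag (T.F (S.k i)) (S.cap T i) (S.N i) (E i) := fun i hi => by
    simp only [hE]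
    split_ifs with hh
    exacts [hY.flag i hh, h.flag i hi]
  have hL := hY.Lj
  obtain ⟨F, σ, hF, hσ⟩ := h.toSer.two_flag fE
  obtain ⟨s, ee, h0, hs, hD⟩ := end_abs2 (hK.calc x) (hK.calc y) hj (G := S.Gs) hnum
    (h.I3 x h.Px) (F := F) (E := E) (σ := σ) (fun i hi => (hσ i hi).2.1)
    (fun ρ r0 r1 => h.i1 ρ r0 r1 F hF) hL hY.a0 hY.am hY.g0 hY.e0
    (hY.I3.refine (hK.calc y) (fun _ _ => rfl) (fun i hi r _ => by rw [eE i hi])
      (fun _ _ _ _ => le_rfl) le_rfl)
    (fun i hi r _ => (hσ i (by omega)).1 r) (fun i hi => (hσ i (by omega)).2.2.2 _ (hY.am i))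
    hY.val
    (fun i hi r hr => by
      have hi' : i < j := by omega
      have hm := nb_mem (h.brN i hi') hr
      rcases hY.brk i hi _ hm with h1 | ⟨m, m1, m2, m3⟩
      · have h2 : S.Gs i (S.nb i r) = E i (S.nb i r) := by
          rw [eE i hi, Dat.Gs, Dat.nb, pb_eq_self hm, h1]
        exact Or.inl (h2 ▸ (fE i hi').anti _ _ ((hσ i hi').2.2.1 r hr h2) (nb_le (h.brN i hi') hr))
      · refine Or.inr ⟨m, by omega, m2, m3, ?_⟩
        rcases m2.eq_or_lt with rfl | h3
        · rw [Function.update_self]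
          calc 3 * e / S.g m * Y.tot S.N = e * (3 / S.g m * Y.tot S.N) := by ring
            _ ≤ e2 * (3 / S.g m * Y.tot S.N) :=
              mul_le_mul_of_nonneg_right (min_le_right _ _) (by positivity)
            _ ≤ _ := he5 0 one_pos
        · rw [update_of_ne h3.ne]
          exact hY.late m (by omega) m1 h3)
  obtain ⟨k1, k2, k3⟩ := hD _ rfl
  rw [Function.update_self] at k2
  set I := ((range j).sigma fun i => range (S.N i)) ×ˢ (univ : Finset Bool) with hI
  set W : (Σ _ : ℕ, ℕ) × Bool → Submodule ℂ O := fun q =>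
    if q.2 then E q.1.1 (σ q.1.1 q.1.2) ⊓ S.Gs q.1.1 q.1.2 else S.Gs q.1.1 (S.nb q.1.1 q.1.2)
    with hW
  set cc : (Σ _ : ℕ, ℕ) × Bool → ℝ := fun q => if q.2 then s q.1.1 q.1.2 else ee q.1.1 q.1.2
    with hcc
  have hsum : ∀ {A : Type} [AddCommMonoid A] (f : (Σ _ : ℕ, ℕ) × Bool → A),
      ∑ q : I, f q =
        ∑ i ∈ range j, ∑ r ∈ range (S.N i), (f (⟨i, r⟩, true) + f (⟨i, r⟩, false)) := by
    intro A _ f
    rw [sum_coe_sort I f, hI, sum_product, sum_sigma]
    simp
  set D := ∑ i ∈ range j, ∑ r ∈ range (S.N i),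
    (single (Ideal.span ((E i (σ i r) ⊓ S.Gs i r : Submodule ℂ O) : Set O)) (s i r) +
      single (Ideal.span (S.Gs i (S.nb i r) : Set O)) (ee i r)) with hDdef
  have D0 : 0 ≤ D := sum_nonneg fun i _ => sum_nonneg fun r _ =>
    add_nonneg (single_nonneg.2 (h0 i r).1) (single_nonneg.2 (h0 i r).2)
  have b0 : 0 ≤ 4 * Y.e / Y.g := by have := hY.e0; have := hY.g0; positivity
  have b1 : 0 ≤ 4 * e / S.g j := by positivity
  have eD : ∑ q : Option I, single (Ideal.span ((q.elim (T.F Y.k ⊓ Y.Q.restrictScalars ℂ)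
      fun q => W q : Submodule ℂ O) : Set O)) (q.elim (4 * Y.e / Y.g) fun q => cc q) =
      D + single Y.Q (4 * Y.e / Y.g) := by
    rw [Fintype.sum_option, add_comm]
    simp only [Option.elim]
    rw [hY.Qk, hsum fun q => single (Ideal.span (W q : Set O)) (cc q)]
    simp [hW, hcc, hDdef]
  have hGk : ∀ i < j, ∀ r ≤ S.N i, S.Gs i r ≤ T.F (S.k i) := fun i hi r hr =>
    (h.flag i hi).top ▸ (h.flag i hi).anti 0 _ (Nat.zero_le _) ((pb_le _ _).trans hr)
  refine concl2_of (ι := Option I)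
    (fun q => q.elim (T.F Y.k ⊓ Y.Q.restrictScalars ℂ) fun q => W q)
    (fun q => q.elim Y.k fun q => S.k q.1.1.1) (fun q => q.elim (4 * Y.e / Y.g) fun q => cc q)
    (4 * e / S.g j) ?_ ?_ b1 ?_ ?_ ?_ ?_
  · rintro (_ | ⟨⟨⟨i, r⟩, t⟩, hq⟩)
    · exact inf_le_left
    · have hq' := mem_sigma.1 (mem_product.1 hq).1
      have hi : i < j := mem_range.1 hq'.1
      have hr : r < S.N i := mem_range.1 hq'.2
      cases t
      · exact hGk i hi _ (nb_le (h.brN i hi) hr)
      · exact inf_le_right.trans (hGk i hi _ hr.le)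
  · rintro (_ | ⟨⟨⟨i, r⟩, t⟩, hq⟩)
    · exact b0
    · cases t
      exacts [(h0 i r).2, (h0 i r).1]
  · rw [eD]
    exact hK.unit x D _ _ D0 b0 hY.Qx k1
  · rw [eD]
    refine fun hk => k2 (4 * e / S.g j) (div_lt_div_of_pos_right (by linarith) hg) ?_
    refine hK.mono x _ _ _ _ D0 b1
      (leAt_of_le x ((mz_le_ker (n := n) x).trans fun s hs => hP s hs)) ?_
    refine hK.drop x _ _ (add_nonneg D0 (single_nonneg.2 b1)) ?_ hk
    exact add_le_add (le_add_of_nonneg_right (single_nonneg.2 b0)) le_rfl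
  · rwa [eD]
  · have c1 : ∑ q : I, cc q * (S.k q.1.1.1 : ℝ) ≤
        ∑ i ∈ range j, (c i * (S.k i * S.N i) + del n * dlt n T.kap i / 4) := by
      rw [hsum fun q => cc q * (S.k q.1.1 : ℝ)]
      refine sum_le_sum fun i hi => ?_
      have hi' := mem_range.1 hi
      have hNp : (0 : ℝ) < S.N i := by exact_mod_cast h.Npos i hi'
      calc _ ≤ ∑ _r ∈ range (S.N i), (c i * S.k i + del n * dlt n T.kap i / 4 / S.N i) := by
            refine sum_le_sum fun r hr => ?_
            obtain ⟨p1, p2⟩ := hs i hi' r (mem_range.1 hr)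
            simp only [hcc, if_true, Bool.false_eq_true, if_false]
            refine add_le_add (mul_le_mul_of_nonneg_right p1 (Nat.cast_nonneg _)) ?_
            rw [le_div_iff₀ hNp, mul_assoc]
            rcases p2 with p2 | ⟨m, m1, m2, m3, p2⟩
            · rw [p2, zero_mul]
              have := hdl i
              positivity
            · refine (mul_le_mul_of_nonneg_right p2 (by positivity)).trans ?_
              rcases m3.eq_or_lt with rfl | h3
              · rw [Function.update_self]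
                calc 3 * e / S.g m * (S.k i * S.N i) = e * (3 / S.g m * (S.k i * S.N i)) := by ring
                  _ ≤ e1 * (3 / S.g m * (S.k i * S.N i)) :=
                    mul_le_mul_of_nonneg_right (min_le_left _ _) (by positivity)
                  _ ≤ _ := he2 i hi'
              · rw [update_of_ne h3.ne]
                linarith [h.I5 m m1 h3 i m2]
        _ = _ := by
            rw [sum_const, card_range, nsmul_eq_mul]
            field_simp
    have c2 : (T.kap : ℝ) * (4 * Y.e / Y.g * Y.k + 4 * e / S.g j) ≤ del n := by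
      have : (T.kap : ℝ) * (4 * e / S.g j) ≤ del n / 2 :=
        calc (T.kap : ℝ) * (4 * e / S.g j) = e * (T.kap * (4 / S.g j)) := by ring
          _ ≤ e2 * (T.kap * (4 / S.g j)) :=
            mul_le_mul_of_nonneg_right (min_le_right _ _) (by positivity)
          _ ≤ _ := he4
      linarith [hY.small]
    have c3 : del n * (8 * ((n : ℝ) + 1) + 24) ≤ 1 := by
      unfold del
      have : (0 : ℝ) ≤ n := Nat.cast_nonneg n
      rw [one_div, inv_mul_le_iff₀ (by positivity)]
      linarith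
    have c4 := end_cost (n := (n : ℝ) + 1) (KN := fun i => (S.k i : ℝ) * S.N i)
      (Dg := fun i => (S.k i : ℝ) * S.N i) (by positivity) hκ hδ c3 h.c0 (fun _ _ => le_rfl)
      (fun i _ => (hdl i).le) (sum_dlt_le n T.kap1 j) c2
      (by have := h.i7; unfold I7 at this; linarith)
    rw [Fintype.sum_option]
    simp only [Option.elim]
    nlinarith [mul_le_mul_of_nonneg_left c1 hκ.le]

end Pool.Agent.Lib.MP_9ff3e7_ag.F
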