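import Pool.Agent.Lib.MP_9ff3e7_ag.F.XPts
import Pool.Agent.Lib.MP_9ff3e7_ag.F.ThetaAlg

/-! One local equation of a Cartier divisor near two points of a chart. -/

set_option autoImplicit false

namespace Pool.Agent.Lib.MP_9ff3e7_ag.F

variable {S : Type} [CommRing S] [IsDomain S] [Algebra ℂ S] {𝒜 : ℕ → Submodule ℂ S}

namespace PNear

theorem unit_mul {r : Pt 𝒜} {u v : Fn 𝒜} (hu : UnitAt r u) (hv : UnitAt r v) :
    UnitAt r (u * v) :=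
  ⟨mul_ne_zero hu.1 hv.1, mul_mem hu.2.1 hv.2.1, by rw [mul_inv]; exact mul_mem hu.2.2 hv.2.2⟩

theorem unit_inv {r : Pt 𝒜} {u : Fn 𝒜} (hu : UnitAt r u) : UnitAt r u⁻¹ :=
  ⟨inv_ne_zero hu.1, hu.2.2, by rw [inv_inv]; exact hu.2.1⟩

theorem eqn_ne (A : Cartier 𝒜) (p : Pt 𝒜) : A.eqn p ≠ 0 := by
  obtain ⟨j, f, -, hp, h⟩ := A.near p
  exact fun e => (h p hp).1 (by simp [e])

variable [GradedAlgebra 𝒜]

/-- a unit at `p` is a unit on a principal open set around `p` -/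
theorem spread {p : Pt 𝒜} {u : Fn 𝒜} (hu : UnitAt p u) :
    ∃ j, ∃ f ∈ 𝒜 j, p.1 f ≠ 0 ∧ ∀ r : Pt 𝒜, r.1 f ≠ 0 → UnitAt r u := by
  obtain ⟨i, a, ha, b, hb, h1, h2⟩ := mem_loc.1 hu.2.1
  obtain ⟨j, a', ha', b', hb', h3, h4⟩ := mem_loc.1 hu.2.2
  refine ⟨i + j, b * b', SetLike.mul_mem_graded hb hb', by simp [h1, h3], fun r hr => ?_⟩
  rw [map_mul, mul_ne_zero_iff] at hr
  exact ⟨hu.1, mem_loc.2 ⟨i, a, ha, b, hb, hr.1, h2⟩, mem_loc.2 ⟨j, a', ha', b', hb', hr.2, h4⟩⟩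

variable {n : ℕ} (c : Chart 𝒜 n)

/-- poles along `G = 0` only -/
theorem pole {x : Fn 𝒜} (G : c.O) (h : ∀ r (hr : c.In r), c.pt hr G ≠ 0 → x ∈ loc r) :
    ∃ (N : ℕ) (α : c.O), x * (G : Fn 𝒜) ^ N = α := by
  let I : Ideal c.O :=
    { carrier := {b | x * b ∈ c.O}
      add_mem' := fun {a b} ha hb => by simpa [mul_add] using add_mem ha hb
      zero_mem' := by simp
      smul_mem' := fun a b hb => by
        have := mul_mem a.2 hb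
        simpa [mul_left_comm] using this }
  by_cases hG : G ∈ I.radical
  · obtain ⟨N, hN⟩ := hG
    have : x * ((G ^ N : c.O) : Fn 𝒜) ∈ c.O := hN
    exact ⟨N, ⟨_, this⟩, by simp⟩
  · obtain ⟨y, hy, hy0⟩ := exists_pt_of_notMem_radical I hG
    obtain ⟨a, b, h1, h2⟩ := (c.mem_loc_iff (c.lift_in y)).1
      (h _ (c.lift_in y) (by rwa [c.pt_lift]))
    rw [c.pt_lift] at h1
    exact (h1 (hy b (by change x * b ∈ c.O; rw [h2]; exact a.2))).elim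

theorem unit_O {p : Pt 𝒜} (hp : c.In p) {a : c.O} (ha : c.pt hp a ≠ 0) : UnitAt p (a : Fn 𝒜) :=
  (unitAt_iff (x := ⟨(a : Fn 𝒜), c.le_loc hp a.2⟩)).2 (by rwa [c.pt_eq] at ha)

theorem half {p : Pt 𝒜} (hp : c.In p) {G H α : c.O} {w : Fn 𝒜} {N : ℕ} (i : ℕ)
    (hw : w * ((G * H : c.O) : Fn 𝒜) ^ N = α) (hG : c.pt hp G ≠ 0) (hH : c.pt hp H = 0) :
    UnitAt p ((G : Fn 𝒜) ^ i + (H : Fn 𝒜) ^ (N + 1) * w) := by
  have h1 := unit_O c hp (a := G ^ N) (by simp [hG])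
  have h2 := unit_O c hp (a := G ^ (i + N) + H * α) (by simp [hG, hH])
  have h3 := unit_mul h2 (unit_inv h1)
  have e : (G : Fn 𝒜) ^ i + (H : Fn 𝒜) ^ (N + 1) * w =
      ((G ^ (i + N) + H * α : c.O) : Fn 𝒜) * ((G ^ N : c.O) : Fn 𝒜)⁻¹ := by
    rw [eq_mul_inv_iff_mul_eq₀ h1.1]
    simp only [AddMemClass.coe_add, MulMemClass.coe_mul, SubmonoidClass.coe_pow] at hw ⊢
    rw [← hw]
    ring
  rwa [e]

theorem pt_dh_ne {r : Pt 𝒜} (hr : c.In r) {j : ℕ} {a : S} (ha : a ∈ 𝒜 j) :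
    c.pt hr (c.dh a) ≠ 0 ↔ r.1 a ≠ 0 := by
  rw [c.pt_dh hr ha, div_ne_zero_iff]
  exact ⟨fun h => h.1, fun h => ⟨h, pow_ne_zero _ hr.1⟩⟩

end PNear

open PNear in
/-- one local equation near two points of a chart -/
theorem Cartier.near2 [GradedAlgebra 𝒜] {n : ℕ} (c : Chart 𝒜 n) (A : Cartier 𝒜) {p q : Pt 𝒜}
    (hp : c.In p) (hq : c.In q) : ∃ (a : Fn 𝒜) (j : ℕ), ∃ f ∈ 𝒜 j, p.1 f ≠ 0 ∧ q.1 f ≠ 0 ∧
      ∀ r : Pt 𝒜, r.1 f ≠ 0 → UnitAt r (a / A.eqn r) := by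
  obtain ⟨i, f, hf, hpf, hnf⟩ := A.near p
  obtain ⟨j, g, hg, hqg, hng⟩ := A.near q
  by_cases h1 : q.1 f ≠ 0
  · exact ⟨A.eqn p, i, f, hf, hpf, h1, hnf⟩
  by_cases h2 : p.1 g ≠ 0
  · exact ⟨A.eqn q, j, g, hg, h2, hqg, hng⟩
  have ep := eqn_ne A p
  have eq := eqn_ne A q
  have hu : ∀ r (hr : c.In r), c.pt hr (c.dh f * c.dh g) ≠ 0 → UnitAt r (A.eqn q / A.eqn p) := by
    intro r hr h
    rw [map_mul, mul_ne_zero_iff, pt_dh_ne c hr hf, pt_dh_ne c hr hg] at h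
    have := unit_mul (hng r h.2) (unit_inv (hnf r h.1))
    rwa [inv_div, div_mul_div_cancel₀ (eqn_ne A r)] at this
  obtain ⟨N, α, hα⟩ := pole c _ fun r hr h => (hu r hr h).2.1
  obtain ⟨N', β, hβ⟩ := pole c _ fun r hr h => (hu r hr h).2.2
  rw [mul_comm (c.dh f)] at hβ
  have u1 := half c hp (N' + 1) hα ((pt_dh_ne c hp hf).2 hpf)
    (not_not.1 fun h => h2 ((pt_dh_ne c hp hg).1 h))
  have u2 := half c hq (N + 1) hβ ((pt_dh_ne c hq hg).2 hqg)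
    (not_not.1 fun h => h1 ((pt_dh_ne c hq hf).1 h))
  obtain ⟨a, ha⟩ : ∃ a : Fn 𝒜, a = (c.dh f : Fn 𝒜) ^ (N' + 1) * A.eqn p +
    (c.dh g : Fn 𝒜) ^ (N + 1) * A.eqn q := ⟨_, rfl⟩
  have v1 : UnitAt p (a / A.eqn p) := by
    rwa [ha, add_div, mul_div_assoc, mul_div_assoc, div_self ep, mul_one]
  have v2 : UnitAt q (a / A.eqn q) := by
    rw [inv_div] at u2
    rwa [ha, add_div, mul_div_assoc, mul_div_assoc, div_self eq, mul_one, add_comm]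
  obtain ⟨i', f', hf', hpf', hnf'⟩ := spread v1
  obtain ⟨j', g', hg', hqg', hng'⟩ := spread v2
  rw [not_not] at h1 h2
  have m1 : f * f' * (c.l : S) ^ (j + j') ∈ 𝒜 (i + i' + (j + j')) :=
    SetLike.mul_mem_graded (SetLike.mul_mem_graded hf hf') (pow_mem1 c.l _)
  have m2 : g * g' * (c.l : S) ^ (i + i') ∈ 𝒜 (i + i' + (j + j')) := by
    rw [add_comm (i + i')]
    exact SetLike.mul_mem_graded (SetLike.mul_mem_graded hg hg') (pow_mem1 c.l _)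
  refine ⟨a, _, _, add_mem m1 m2, by simp [h2, hpf, hpf', hp.1], by simp [h1, hqg, hqg', hq.1],
    fun r hr => ?_⟩
  by_cases h3 : r.1 f ≠ 0 ∧ r.1 f' ≠ 0
  · have := unit_mul (hnf' r h3.2) (hnf r h3.1)
    rwa [div_mul_div_cancel₀ ep] at this
  · have h4 : r.1 f * r.1 f' = 0 := by rwa [← mul_ne_zero_iff, not_not] at h3
    have h5 : r.1 g ≠ 0 ∧ r.1 g' ≠ 0 := by
      rw [← mul_ne_zero_iff]
      intro h
      exact hr (by simp only [map_add, map_mul, h4, h, zero_mul, add_zero])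
    have := unit_mul (hng' r h5.2) (hng r h5.1)
    rwa [div_mul_div_cancel₀ eq] at this

end Pool.Agent.Lib.MP_9ff3e7_ag.F
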