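import Pool.Agent.Lib.MP_9ff3e7_ag.F.Step
import Pool.Agent.Lib.MP_9ff3e7_ag.F.PCount
import Pool.Agent.Lib.MP_9ff3e7_ag.F.PMain
import Pool.Agent.Lib.MP_9ff3e7_ag.F.PCls
import Pool.Agent.Lib.MP_9ff3e7_ag.F.PCert
import Pool.Agent.Lib.MP_9ff3e7_ag.F.PEnd

/-! The induction for two points. -/

set_option autoImplicit false

namespace Pool.Agent.Lib.MP_9ff3e7_ag.F

open Module Finset Finsupp Function

variable {n : ℕ} {O : Type} [CommRing O] [IsDomain O] [Algebra ℂ O]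
  [Algebra (MvPolynomial (Fin n) ℂ) O] [IsScalarTower ℂ (MvPolynomial (Fin n) ℂ) O]
  {M : Model n O} {T : Filt n O} {x y : Pnt O} {S : Dat O} {c eps : ℕ → ℝ} {j : ℕ} {Y : Cert O}
  {k : ℕ} {Fj : ℕ → Submodule ℂ O} {e θ t : ℝ}

namespace P2

/-- the data with the new series opened -/
noncomputable abbrev op (T : Filt n O) (S : Dat O) (j k : ℕ) (Fj : ℕ → Submodule ℂ O) : Dat O :=
  S.opn j k (Hf T.F (S.P j) k) Fj

/-- the coefficients with the new series opened -/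
noncomputable abbrev cf (c : ℕ → ℝ) (j : ℕ) (θ t : ℝ) : ℕ → ℝ := update (fun i => θ * c i) j t

/-- the choices of a step that do not depend on the point -/
structure Pick (T : Filt n O) (S : Dat O) (c eps : ℕ → ℝ) (j k : ℕ) (Fj : ℕ → Submodule ℂ O)
    (e θ : ℝ) : Prop where
  sp : Ideal.span ((T.F k ⊓ (S.P j).restrictScalars ℂ : Submodule ℂ O) : Set O) = S.P j
  gd : Gd n T.kap (Hf T.F (S.P j)) k
  gd2 : Gd2 n T.kap (Hf T.F (S.P j)) k
  fl : IsFlag (T.F k) (T.F k ⊓ (S.P j).restrictScalars ℂ) (Hf T.F (S.P j) k) Fj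
  e0 : 0 < e
  he : ∀ i < j + 1, 4 * (3 * e / S.g j) * ((op T S j k Fj).k i * (op T S j k Fj).N i) ≤
    del n * dlt n T.kap i
  θ0 : 0 < θ
  θ1 : θ < 1
  hθ : ∀ m, 1 ≤ m → m ≤ j → 1 - 2 * update eps j e m < θ * S.val c m

omit [IsDomain O] [IsScalarTower ℂ (MvPolynomial (Fin n) ℂ) O] in
theorem ne_top {P : Ideal O} (h : ∀ s ∈ P, x s = 0) : P ≠ ⊤ := fun e => by
  simpa using h 1 (e ▸ Submodule.mem_top)

theorem exists_pick (hK : KAx M) (h : State M T x S c eps j) (K0 : ℕ) (u : ℝ) {v w z : ℝ}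
    (hv : 0 < v) (hw : w < z) :
    ∃ k Fj e θ, K0 ≤ k ∧ Pick T S c eps j k Fj e θ ∧ 3 * e / S.g j * u ≤ v ∧ w < θ * z := by
  have := hK.ft
  have : IsNoetherianRing O := Algebra.FiniteType.isNoetherianRing ℂ O
  obtain ⟨k, hk, hsp, hg, hg2⟩ := T.exists_good_k2 (ne_top h.Px) K0
  obtain ⟨Fj, f0, f1, f2, f3⟩ := T.exists_triv_flag (S.P j) k
  obtain ⟨e, he0, he⟩ := exists_eps (range (j + 2))
    (fun i => if i ≤ j then (op T S j k Fj).k i * (op T S j k Fj).N i else u)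
    (fun i => if i ≤ j then del n * dlt n T.kap i else 4 * v) (fun i _ => by
      split_ifs
      · exact mul_pos (del_pos n) (dlt_pos n T.kap1 i)
      · positivity) (S.g j)
  obtain ⟨θ, θ0, θ1, hθ⟩ := exists_shrink (range (j + 1))
    (fun m => if m = 0 then w else 1 - 2 * update eps j e m)
    (fun m => if m = 0 then z else S.val c m) fun m hm => by
      have hm' := mem_range.1 hm
      split_ifs with h0
      · exact hw
      · rcases (Nat.lt_succ_iff.1 hm').lt_or_eq with h3 | rfl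
        · rw [update_of_ne h3.ne]
          exact h.I4 m (by omega) h3
        · rw [Function.update_self]
          linarith [h.I4j (by omega)]
  refine ⟨k, Fj, e, θ, hk, ⟨hsp, hg, hg2, ⟨f0, f1 _ le_rfl, fun _ _ a _ => f2 a, f3⟩, he0,
    fun i hi => ?_, θ0, θ1, fun m h1 h2 => ?_⟩, ?_, ?_⟩
  · simpa [show i ≤ j by omega] using he i (mem_range.2 (by omega))
  · simpa [show m ≠ 0 by omega] using hθ m (mem_range.2 (by omega))
  · have := he (j + 1) (mem_range.2 (by omega))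
    simp only [show ¬ j + 1 ≤ j by omega, if_false] at this
    linarith
  · simpa using hθ 0 (mem_range.2 (by omega))

omit [IsDomain O] [IsScalarTower ℂ (MvPolynomial (Fin n) ℂ) O] in
theorem Pick.shp (p : Pick T S c eps j k Fj e θ) (hK : KAx M) (h : State M T x S c eps j) :
    Shp M T x (op T S j k Fj) j (j + 1) :=
  h.toShp.opn hK.toKAx0 (T.one_le_hf (ne_top h.Px) k) p.gd p.fl

omit [IsDomain O] [IsScalarTower ℂ (MvPolynomial (Fin n) ℂ) O] in
theorem hold (h : I1 M T x S j c) (θ0 : 0 < θ) (t : ℝ) {ρ : ℝ} (h0 : 0 < ρ) (h1 : ρ * θ < 1)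
    {F : ℕ → ℕ → Submodule ℂ O} (hF : (op T S j k Fj).Fam T (j + 1) F) :
    M.Klt x (Phi j (op T S j k Fj).N F fun i => ρ * cf c j θ t i) := by
  have := h (ρ * θ) (mul_pos h0 θ0) h1 F (Dat.opn_fam hF)
  rwa [Phi_congr (N' := (op T S j k Fj).N) (c' := fun i => ρ * cf c j θ t i)
    (fun i hi => by simp [Dat.opn, hi.ne]) (fun i hi => by simp [hi.ne, mul_assoc])] at this

omit [IsDomain O] [IsScalarTower ℂ (MvPolynomial (Fin n) ℂ) O] in
theorem Pick.gauge (p : Pick T S c eps j k Fj e θ) (hK : KAx M) (hn : 1 ≤ n)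
    (h : State M T x S c eps j) (hs : ∃ s ∈ T.F k, x s = 0 ∧ s ∉ S.P j) :
    ∃ t : ℝ, 0 ≤ t ∧ I1 M T x (op T S j k Fj) (j + 1) (cf c j θ t) ∧
      ∃ F, (op T S j k Fj).Fam T (j + 1) F ∧ ∀ η : ℝ, 0 < η →
        ¬ M.Klt x (Phi (j + 1) (op T S j k Fj).N F fun i => (1 + η) * cf c j θ t i) := by
  obtain ⟨s, hs1, hs2, hs3⟩ := hs
  have hS := p.shp hK h
  have hc1 : ∀ i < j, 0 ≤ θ * c i := fun i hi => mul_nonneg p.θ0.le (h.c0 i hi)
  obtain ⟨F1, hF1, hF1x⟩ := exists_fam_ker (x := x) hS.toSer (by simp [Dat.opn]) h.Px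
    (s := s) (by simpa [Dat.opn] using hs1) hs2 hs3
  exact F.gauge (x := x) (c := fun i => θ * c i) hK hS.toSer hc1
    (fun ρ h0 h1 F hF => by
      have := hold h.i1 p.θ0 0 h0 (by nlinarith [p.θ0, p.θ1]) hF
      rw [Phi_succ]
      simpa using this)
    ⟨2 * n, gauge_bound hK.toKAx0 hn (hS.Npos j (by omega)) hc1 hF1 hF1x⟩

omit [IsDomain O] [IsScalarTower ℂ (MvPolynomial (Fin n) ℂ) O] in
theorem Pick.strict (p : Pick T S c eps j k Fj e θ) (t : ℝ) : ∀ m, 1 ≤ m → m ≤ j →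
    1 - 2 * update eps j e m < (op T S j k Fj).val (cf c j θ t) m := fun m h1 h2 => by
  rw [Dat.opn_val h2]
  exact p.hθ m h1 h2

omit [IsDomain O] [IsScalarTower ℂ (MvPolynomial (Fin n) ℂ) O] in
theorem Pick.inv (p : Pick T S c eps j k Fj e θ) (hK : KAx M) (h : State M T x S c eps j)
    (t0 : 0 ≤ t) (hI : I1 M T x (op T S j k Fj) (j + 1) (cf c j θ t)) :
    Inv M T x (op T S j k Fj) (cf c j θ t) (update eps j e) j (j + 1) := by
  refine { toShp := p.shp hK h, c0 := fun i hi => ?_, e0 := fun m h1 h2 => ?_,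
           I4 := fun m h1 h2 => (p.strict t m h1 h2).le, I5 := fun m h1 h2 i hi him => ?_,
           i1 := hI }
  · rcases Nat.lt_succ_iff_lt_or_eq.1 hi with h3 | rfl
    · rw [cf, update_of_ne h3.ne]
      exact mul_nonneg p.θ0.le (h.c0 i h3)
    · rwa [cf, Function.update_self]
  · rcases h2.lt_or_eq with h3 | rfl
    · rw [update_of_ne h3.ne]
      exact h.e0 m h1 h3
    · rw [Function.update_self]
      exact p.e0
  · rcases h2.lt_or_eq with h3 | rfl
    · rw [update_of_ne h3.ne]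
      simpa [Dat.opn, (show i ≠ j by omega)] using h.I5 m h1 h3 i him
    · rw [Function.update_self]
      exact p.he i hi

omit [IsDomain O] [IsScalarTower ℂ (MvPolynomial (Fin n) ℂ) O] in
theorem Pick.good2 (p : Pick T S c eps j k Fj e θ) (h : State2 M T x S c eps j) :
    ∀ i < j + 1, Gd2 n T.kap (Hf T.F ((op T S j k Fj).P i)) ((op T S j k Fj).k i) := by
  intro i hi
  rcases Nat.lt_succ_iff_lt_or_eq.1 hi with h3 | rfl
  · simpa [Dat.opn, h3.ne] using h.good2 i h3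
  · simpa [Dat.opn] using p.gd2

/-- the next centre through the point `z` with its functional -/
structure Ctr (M : Model n O) (S : Dat O) (c : ℕ → ℝ) (j : ℕ) (F : ℕ → ℕ → Submodule ℂ O)
    (Q : Ideal O) (a : ℕ → ℕ → ℝ) (g : ℝ) : Prop where
  prime : Q.IsPrime
  lt : S.P j < Q
  g0 : 0 < g
  a0 : ∀ i r, 0 ≤ a i r
  am : ∀ i, Monotone (a i)
  val : 1 ≤ ∑ i ∈ range (j + 1), c i * ∑ r ∈ range (S.N i), a i r
  gap : ∀ i < j + 1, ∀ r < S.N i, a i (r - 1) < a i r → a i (r - 1) + g ≤ a i r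
  I3 : ∀ z : Pnt O, (∀ s ∈ Q, z s = 0) → I3One (M.Klt z) (j + 1) S.N Q
    (fun i r => Ideal.span (F i (pb (newBr (S.Br i) (S.N i) (a i)) r) : Set O)) a g

omit [IsDomain O] [IsScalarTower ℂ (MvPolynomial (Fin n) ℂ) O] in
theorem Pick.centre (p : Pick T S c eps j k Fj e θ) (hK : KAx M) (h : State M T x S c eps j)
    (t0 : 0 ≤ t) (hI : I1 M T x (op T S j k Fj) (j + 1) (cf c j θ t))
    {F : ℕ → ℕ → Submodule ℂ O} (hF : (op T S j k Fj).Fam T (j + 1) F)
    (hN : ∀ η : ℝ, 0 < η →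
      ¬ M.Klt x (Phi (j + 1) (op T S j k Fj).N F fun i => (1 + η) * cf c j θ t i)) :
    ∃ Q a g, (∀ s ∈ Q, x s = 0) ∧ Ctr M (op T S j k Fj) (cf c j θ t) j F Q a g := by
  have hi := p.inv hK h t0 hI
  have θ0 := p.θ0
  have θ1 := p.θ1
  have hρ : (1 + θ) / (2 * θ) * θ < 1 := by
    rw [div_mul_eq_mul_div, div_lt_one (by positivity)]
    nlinarith
  have hk := hold h.i1 θ0 t (by positivity) hρ hF
  have hspan : Ideal.span ((op T S j k Fj).cap T j : Set O) = (op T S j k Fj).P j := by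
    simpa [Dat.opn, Dat.cap] using p.sp
  generalize op T S j k Fj = S1 at *
  generalize cf c j θ t = c1 at *
  have hjj : j < j + 1 := Nat.lt_succ_self j
  have hfl := (hF j hjj).1
  have hNp := hi.Npos j hjj
  have hfd := T.fd
  obtain ⟨Q, a, g, hQ, hQx, hTQ, hg, ha0, ham, hval, hgap, h3⟩ := centre_sep hK x j S1.N hi.Npos
    (fun i r => Ideal.span (F i r : Set O))
    (fun i hi r r' h1 h2 => Ideal.span_mono ((hF i hi).1.anti r r' h1 h2))
    (fun i hi r hr h0 => (hF i hi).1.not_le hr fun s hs' => by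
      have : s ∈ Ideal.span (F i r : Set O) := Ideal.subset_span hs'
      rw [h0, Ideal.mem_bot] at this
      rw [this]; exact zero_mem _)
    c1 hi.c0 S1.Br hi.brN (ρ₀ := (1 + θ) / (2 * θ))
    (by rw [lt_div_iff₀ (by positivity)]; linarith) hk (fun ρ h0 h1 => hI ρ h0 h1 F hF) hN
  refine ⟨Q, a, g, hQx, hQ, lt_of_le_of_ne ?_ fun hEq => ?_, hg, ha0, ham, hval, hgap, h3⟩
  · rw [← hspan, ← hfl.bot]
    exact (Ideal.span_mono (hfl.anti _ _ (Nat.sub_le _ _) le_rfl)).trans hTQ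
  · refine hfl.not_le (r := S1.N j - 1) (by omega)
      (le_inf (hfl.top ▸ hfl.anti 0 _ (Nat.zero_le _) (Nat.sub_le _ _)) fun s hs' => ?_)
    have : s ∈ Q := hTQ (Ideal.subset_span hs')
    rwa [← hEq] at this

theorem Pick.close (p : Pick T S c eps j k Fj e θ) (hK : KAx M) (h : State2 M T x S c eps j)
    (hP : ∃ s, x s = 0 ∧ s ∉ S.P j) (t0 : 0 ≤ t)
    (hI : I1 M T x (op T S j k Fj) (j + 1) (cf c j θ t))
    {F : ℕ → ℕ → Submodule ℂ O} (hF : (op T S j k Fj).Fam T (j + 1) F) {Q : Ideal O}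
    {a : ℕ → ℕ → ℝ} {g : ℝ} (hx : ∀ s ∈ Q, x s = 0)
    (hC : Ctr M (op T S j k Fj) (cf c j θ t) j F Q a g) :
    State2 M T x ((op T S j k Fj).cls j F Q a g) (cf c j θ t) (update eps j e) (j + 1) :=
  have hi := p.inv hK h.toState t0 hI
  cls_state hK hi (p.strict t) (main_ineq hK hi hP) (main_ineq2 hK hi (p.good2 h) hP) (p.good2 h)
    hF hC.prime hx hC.lt.le hC.g0 hC.a0 hC.am hC.val hC.gap hC.I3

omit [IsDomain O] [IsScalarTower ℂ (MvPolynomial (Fin n) ℂ) O] [Algebra (MvPolynomial (Fin n) ℂ) O] in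
theorem cls_P (F : ℕ → ℕ → Submodule ℂ O) (Q : Ideal O) (a : ℕ → ℕ → ℝ) (g : ℝ) :
    (S.cls j F Q a g).P (j + 1) = Q := Function.update_self _ _ _

/-- the second half of a step at `x` in the presence of a certificate -/
theorem Pick.fin (p : Pick T S c eps j k Fj e θ) (hK : KAx M) (h : State2 M T x S c eps j)
    (hP : ∃ s, x s = 0 ∧ s ∉ S.P j) (t0 : 0 ≤ t)
    (hI : I1 M T x (op T S j k Fj) (j + 1) (cf c j θ t))
    {F : ℕ → ℕ → Submodule ℂ O} (hF : (op T S j k Fj).Fam T (j + 1) F)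
    (hN : ∀ η : ℝ, 0 < η →
      ¬ M.Klt x (Phi (j + 1) (op T S j k Fj).N F fun i => (1 + η) * cf c j θ t i))
    (hY : CertOk M T x y (op T S j k Fj) (cf c j θ t) (update eps j e) j (j + 1) Y) :
    ∃ S' c' eps', State2 M T x S' c' eps' (j + 1) ∧
      CertOk M T x y S' c' eps' (j + 1) (j + 1) Y ∧ S.P j < S'.P (j + 1) := by
  obtain ⟨Q, a, g, hx, hC⟩ := p.centre hK h.toState t0 hI hF hN
  exact ⟨_, _, _, p.close hK h hP t0 hI hF hx hC, hY.cls hF Q hC.gap, by
    rw [cls_P]; exact hC.lt⟩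

omit [IsDomain O] [IsScalarTower ℂ (MvPolynomial (Fin n) ℂ) O] [Algebra (MvPolynomial (Fin n) ℂ) O] in
theorem not_ker (hxy : x ≠ y) {P : Ideal O} (hy : ∀ s ∈ P, y s = 0) : ∃ s, x s = 0 ∧ s ∉ P := by
  by_contra hc
  push Not at hc
  refine hxy (AlgHom.ext fun s => ?_)
  have := hy _ (hc (s - algebraMap ℂ O (x s)) (by simp))
  simp only [map_sub, AlgHom.commutes, Algebra.algebraMap_self, RingHom.id_apply] at this
  exact (sub_eq_zero.1 this).symm

theorem phase2 (hK : KAx M) (hn : 1 ≤ n) (hxy : x ≠ y) (h : State2 M T x S c eps j)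
    (hY : CertOk M T x y S c eps j j Y) : Concl2 M T x y := by
  have := hK.ft
  have : IsNoetherianRing O := Algebra.FiniteType.isNoetherianRing ℂ O
  have key : ∀ Q : Ideal O, ∀ (S : Dat O) (c eps : ℕ → ℝ) (j : ℕ), State2 M T x S c eps j →
      CertOk M T x y S c eps j j Y → S.P j = Q → Concl2 M T x y := by
    intro Q
    induction Q using (wellFounded_gt (α := Ideal O)).induction with
    | _ Q ih =>
      intro S c eps j h hY hQ
      by_cases hP : ∃ s, x s = 0 ∧ s ∉ S.P j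
      · obtain ⟨m, hm⟩ := T.exists_ker_deg hP
        obtain ⟨k, Fj, e, θ, hk, p, he, hθ⟩ := exists_pick hK h.toState m (Y.tot S.N) hY.e0 hY.val
        obtain ⟨t, t0, hI, F, hF, hN⟩ := p.gauge hK hn h.toState (hm k hk)
        obtain ⟨S', c', eps', h1, h2, h3⟩ := p.fin hK h hP t0 hI hF hN (hY.opn _ _ _ t hθ he)
        exact ih _ (hQ ▸ h3) S' c' eps' (j + 1) h1 h2 rfl
      · refine end2 hK h ?_ (fun s hs => by_contra fun h' => hP ⟨s, hs, h'⟩) hY
        by_contra hj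
        obtain rfl : j = 0 := by omega
        exact hP (not_ker hxy fun s hs => by rw [h.P0] at hs; rw [Ideal.mem_bot.1 hs, map_zero])
  exact key _ _ _ _ _ h hY rfl

theorem cert_of_not (hK : KAx M) {L : ℕ} (hS : Ser T S L) (hc : ∀ i < L, 0 ≤ c i)
    (h1 : I1 M T x S L c) (h2 : ¬ I1 M T y S L c) (eps : ℕ → ℝ) (j : ℕ) :
    ∃ Y, CertOk M T x y S c eps j L Y := by
  unfold I1 at h2
  push Not at h2
  obtain ⟨ρ, h0, hρ, F, hF, hy⟩ := h2
  obtain ⟨a, g, Q, h⟩ := strict_cert hK hS hc h1 hF h0 hρ hy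
  exact h.cert hK hF eps j

/-- one step when both points lie on the centre and `x` has the larger critical coefficient -/
theorem Pick.both (p : Pick T S c eps j k Fj e θ) (hK : KAx M) (hn : 1 ≤ n) (hxy : x ≠ y)
    (h : State2 M T x S c eps j) (h' : State2 M T y S c eps j) {t' : ℝ} (t0 : 0 ≤ t') (tt : t' ≤ t)
    (hI : I1 M T x (op T S j k Fj) (j + 1) (cf c j θ t))
    {F F' : ℕ → ℕ → Submodule ℂ O} (hF : (op T S j k Fj).Fam T (j + 1) F)
    (hN : ∀ η : ℝ, 0 < η →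
      ¬ M.Klt x (Phi (j + 1) (op T S j k Fj).N F fun i => (1 + η) * cf c j θ t i))
    (hF' : (op T S j k Fj).Fam T (j + 1) F')
    (hN' : ∀ η : ℝ, 0 < η →
      ¬ M.Klt y (Phi (j + 1) (op T S j k Fj).N F' fun i => (1 + η) * cf c j θ t' i)) :
    Concl2 M T x y ∨ ∃ S' c' eps', State2 M T x S' c' eps' (j + 1) ∧
      (∀ s ∈ S'.P (j + 1), y s = 0) ∧ S.P j < S'.P (j + 1) := by
  have t1 := t0.trans tt
  have hP := not_ker hxy h'.Px
  have hi := p.inv hK h.toState t1 hI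
  have fin : (∃ Y, CertOk M T x y (op T S j k Fj) (cf c j θ t) (update eps j e) j (j + 1) Y) →
      Concl2 M T x y := fun ⟨Y, hY⟩ => by
    obtain ⟨S', c', eps', h1, h2, -⟩ := p.fin hK h hP t1 hI hF hN hY
    exact phase2 hK hn hxy h1 h2
  by_cases hI' : I1 M T y (op T S j k Fj) (j + 1) (cf c j θ t)
  swap
  · exact Or.inl (fin (cert_of_not hK hi.toSer hi.c0 hI hI' _ _))
  obtain ⟨Q, a, g, hy, hC⟩ := p.centre hK h'.toState t1 hI' hF' fun η hη hk => hN' η hη (by
    refine hK.drop y _ _ (Phi_nonneg fun i hi => mul_nonneg (by linarith) ?_) ?_ hk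
    · rcases Nat.lt_succ_iff_lt_or_eq.1 hi with h3 | rfl
      · rw [cf, update_of_ne h3.ne]
        exact mul_nonneg p.θ0.le (h.c0 i h3)
      · rwa [cf, Function.update_self]
    · refine sum_le_sum fun i _ => sum_le_sum fun r _ => single_le_single.2
        (mul_le_mul_of_nonneg_left ?_ (by linarith))
      by_cases h3 : i = j
      · subst h3
        simpa using tt
      · simp [update_of_ne h3])
  by_cases hx : ∀ s ∈ Q, x s = 0
  · exact Or.inr ⟨_, _, _, p.close hK h hP t1 hI hF' hx hC, by rwa [cls_P], by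
      rw [cls_P]; exact hC.lt⟩
  · push Not at hx
    refine Or.inl (fin (Raw.cert hK hF' (a := a) (g := g) (Q := Q)
      ⟨hC.a0, hC.am, hC.g0, ?_, hx, hC.val⟩ _ _))
    exact (hC.I3 y hy).refine (hK.calc y) (fun _ _ => rfl)
      (fun i hi r hr => Ideal.span_mono ((hF' i hi).1.anti _ _ (pb_le _ _) hr))
      (fun _ _ _ _ => le_rfl) le_rfl

end P2

open P2 in
/-- the core theorem for two points -/
theorem core2 (hK : KAx M) (hn : 1 ≤ n) (T : Filt n O) {x y : Pnt O} (hxy : x ≠ y) :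
    Concl2 M T x y ∨ Concl2 M T y x := by
  have := hK.ft
  have : IsNoetherianRing O := Algebra.FiniteType.isNoetherianRing ℂ O
  have key : ∀ Q : Ideal O, ∀ (x y : Pnt O) (S : Dat O) (c eps : ℕ → ℝ) (j : ℕ), x ≠ y →
      State2 M T x S c eps j → (∀ s ∈ S.P j, y s = 0) → S.P j = Q →
      Concl2 M T x y ∨ Concl2 M T y x := by
    intro Q
    induction Q using (wellFounded_gt (α := Ideal O)).induction with
    | _ Q ih =>
      intro x y S c eps j hxy h hy hQ
      by_cases hI : I1 M T y S j c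
      swap
      · obtain ⟨Y, hY⟩ := cert_of_not hK h.toSer h.c0 h.i1 hI eps j
        exact Or.inl (phase2 hK hn hxy h hY)
      have h' : State2 M T y S c eps j := { h with Px := hy, i1 := hI }
      obtain ⟨m, hm⟩ := T.exists_ker_deg (not_ker hxy hy)
      obtain ⟨m', hm'⟩ := T.exists_ker_deg (not_ker hxy.symm h.Px)
      obtain ⟨k, Fj, e, θ, hk, p, -, -⟩ := exists_pick hK h.toState (max m m') 0 one_pos one_pos
      obtain ⟨t, t0, hI, F, hF, hN⟩ := p.gauge hK hn h.toState (hm k (le_of_max_le_left hk))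
      obtain ⟨t', t0', hI', F', hF', hN'⟩ :=
        p.gauge hK hn h'.toState (hm' k (le_of_max_le_right hk))
      rcases le_total t' t with tt | tt
      · rcases p.both hK hn hxy h h' t0' tt hI hF hN hF' hN' with h1 | ⟨S', c', eps', h1, h2, h3⟩
        · exact Or.inl h1
        · exact ih _ (hQ ▸ h3) x y S' c' eps' (j + 1) hxy h1 h2 rfl
      · rcases p.both hK hn hxy.symm h' h t0 tt hI' hF' hN' hF hN with
          h1 | ⟨S', c', eps', h1, h2, h3⟩
        · exact Or.inr h1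
        · exact (ih _ (hQ ▸ h3) y x S' c' eps' (j + 1) hxy.symm h1 h2 rfl).symm
  refine key _ x y _ _ _ 0 hxy
    { toState := state_zero hK.toKAx0 T x, good2 := fun i hi => absurd hi (Nat.not_lt_zero i),
      i7 := ?_ } (fun s hs => by rw [Ideal.mem_bot.1 hs, map_zero]) rfl
  have : (0 : ℝ) ≤ n := Nat.cast_nonneg n
  simp only [I7, range_zero, filter_empty, sum_empty, mul_zero]
  linarith

end Pool.Agent.Lib.MP_9ff3e7_ag.F
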