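import Pool.Agent.Lib.MP_9ff3e7_ag.F.StepA
import Pool.Agent.Lib.MP_9ff3e7_ag.F.StepB
import Pool.Agent.Lib.MP_9ff3e7_ag.F.Gauge
import Pool.Agent.Lib.MP_9ff3e7_ag.F.MainIneq
import Pool.Agent.Lib.MP_9ff3e7_ag.F.End

/-! The step of the induction and the core theorem. -/

set_option autoImplicit false

namespace Pool.Agent.Lib.MP_9ff3e7_ag.F

open Module Finset Finsupp Function

variable {n : ℕ} {O : Type} [CommRing O] [IsDomain O] [Algebra ℂ O]
  [Algebra (MvPolynomial (Fin n) ℂ) O] [IsScalarTower ℂ (MvPolynomial (Fin n) ℂ) O]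
  {M : Model n O} {T : Filt n O} {x : Pnt O} {S : Dat O} {c eps : ℕ → ℝ} {j : ℕ}

theorem step (hK : KAx M) (hn : 1 ≤ n) (h : State M T x S c eps j)
    (hP : ∃ s, x s = 0 ∧ s ∉ S.P j) :
    ∃ S' c' eps', State M T x S' c' eps' (j + 1) ∧ S.P j < S'.P (j + 1) := by
  have := hK.ft
  have : IsNoetherianRing O := Algebra.FiniteType.isNoetherianRing ℂ O
  obtain ⟨k, hsp, hg, ⟨s, hs1, hs2, hs3⟩, h2⟩ := T.exists_good_k (P := S.P j) h.Px (by
    obtain ⟨s, h1, h2⟩ := hP
    exact fun e => h2 (e ▸ h1))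
  obtain ⟨Fj, f0, f1, f2, f3⟩ := T.exists_triv_flag (S.P j) k
  have hS := h.toShp.opn hK.toKAx0 (k := k) (Fj := Fj) (by omega) hg
    ⟨f0, f1 _ le_rfl, fun _ _ a _ => f2 a, f3⟩
  set N := Hf T.F (S.P j) k with hN
  set S1 := S.opn j k N Fj with hS1
  obtain ⟨e, he0, he⟩ := exists_eps (range (j + 1)) (fun i => S1.k i * S1.N i)
    (fun i => del n * dlt n T.kap i) (fun i _ => mul_pos (del_pos n) (dlt_pos n T.kap1 i)) (S.g j)
  have hlt : ∀ m, 1 ≤ m → m ≤ j → 1 - 2 * update eps j e m < S.val c m := fun m h1 h2 => by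
    rcases h2.lt_or_eq with h3 | rfl
    · rw [update_of_ne h3.ne]
      exact h.I4 m h1 h3
    · rw [Function.update_self]
      linarith [h.I4j h1]
  obtain ⟨θ, θ0, θ1, hθ⟩ := exists_shrink (Icc 1 j) (fun m => 1 - 2 * update eps j e m) (S.val c)
    fun m hm => hlt m (mem_Icc.1 hm).1 (mem_Icc.1 hm).2
  have hc1 : ∀ i < j, 0 ≤ θ * c i := fun i hi => mul_nonneg θ0.le (h.c0 i hi)
  have hold : ∀ (t ρ : ℝ), 0 < ρ → ρ * θ < 1 → ∀ F, S1.Fam T (j + 1) F →
      M.Klt x (Phi j S1.N F fun i => ρ * update (fun i => θ * c i) j t i) := by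
    intro t ρ h0 h1 F hF
    have := h.i1 (ρ * θ) (mul_pos h0 θ0) h1 F (Dat.opn_fam hF)
    rwa [Phi_congr (N' := S1.N) (c' := fun i => ρ * update (fun i => θ * c i) j t i)
      (fun i hi => by simp [hS1, Dat.opn, hi.ne]) (fun i hi => by simp [hi.ne, mul_assoc])] at this
  obtain ⟨F1, hF1, hF1x⟩ := exists_fam_ker (x := x) hS.toSer (by simp [hS1, Dat.opn]) h.Px
    (s := s) (by simpa [hS1, Dat.opn] using hs1) hs2 hs3
  obtain ⟨t, t0, hI, F, hF, hNk⟩ := gauge (x := x) (c := fun i => θ * c i) hK hS.toSer hc1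
    (fun ρ h0 h1 F hF => by
      have := hold 0 ρ h0 (by nlinarith) F hF
      rw [Phi_succ]
      simpa using this)
    ⟨2 * n, gauge_bound hK.toKAx0 hn (hS.Npos j (by omega)) hc1 hF1 hF1x⟩
  have hs : ∀ m, 1 ≤ m → m ≤ j →
      1 - 2 * update eps j e m < S1.val (update (fun i => θ * c i) j t) m := fun m h1 h2 => by
    rw [hS1, Dat.opn_val h2]
    exact hθ m (mem_Icc.2 ⟨h1, h2⟩)
  have hInv : Inv M T x S1 (update (fun i => θ * c i) j t) (update eps j e) j (j + 1) := by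
    refine { toShp := hS, c0 := fun i hi => ?_, e0 := fun m h1 h2 => ?_,
             I4 := fun m h1 h2 => (hs m h1 h2).le, I5 := fun m h1 h2 i hi him => ?_, i1 := hI }
    · rcases Nat.lt_succ_iff_lt_or_eq.1 hi with h3 | rfl
      · rw [update_of_ne h3.ne]
        exact hc1 i h3
      · rwa [Function.update_self]
    · rcases h2.lt_or_eq with h3 | rfl
      · rw [update_of_ne h3.ne]
        exact h.e0 m h1 h3
      · rwa [Function.update_self]
    · rcases h2.lt_or_eq with h3 | rfl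
      · rw [update_of_ne h3.ne]
        simpa [hS1, Dat.opn, (show i ≠ j by omega)] using h.I5 m h1 h3 i him
      · rw [Function.update_self]
        exact he i (mem_range.2 hi)
  have hρ : (1 + θ) / (2 * θ) * θ < 1 := by
    rw [div_mul_eq_mul_div, div_lt_one (by positivity)]
    nlinarith
  obtain ⟨S2, h3, h4⟩ := step_b hK hInv hs (main_ineq hK hInv hP)
    (by simpa [hS1, Dat.opn, Dat.cap] using hsp) hF (ρ0 := (1 + θ) / (2 * θ))
    (by rw [lt_div_iff₀ (by positivity)]; linarith) (hold t _ (by positivity) hρ F hF) hNk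
  exact ⟨S2, _, _, h3, h4⟩

/-- the core theorem -/
theorem core (hK : KAx M) (hn : 1 ≤ n) (T : Filt n O) (x : Pnt O) : CoreConcl M T x :=
  core_of_step hK.toKAx0 T x fun _ _ _ _ => step hK hn

end Pool.Agent.Lib.MP_9ff3e7_ag.F
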