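import Mathlib

/-! The measure theoretic step of THETA: Hölder between a density with a pole along `Q`
and a density with a zero along `Q`. -/

set_option autoImplicit false

namespace Pool.Agent.Lib.MP_9ff3e7_ag.F

open MeasureTheory ENNReal

theorem rpow_mul_rpow_le_add (x y : ℝ≥0∞) {l : ℝ} (h0 : 0 ≤ l) (h1 : l ≤ 1) :
    x ^ l * y ^ (1 - l) ≤ x + y := by
  have hx : x ^ l ≤ (x + y) ^ l := ENNReal.rpow_le_rpow le_self_add h0
  have hy : y ^ (1 - l) ≤ (x + y) ^ (1 - l) := ENNReal.rpow_le_rpow le_add_self (by linarith)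
  calc x ^ l * y ^ (1 - l) ≤ (x + y) ^ l * (x + y) ^ (1 - l) := mul_le_mul' hx hy
    _ = x + y := by
      rw [← ENNReal.rpow_add_of_nonneg _ _ h0 (by linarith)]; simp

theorem theta_int {α : Type} [MeasurableSpace α] {μ : Measure α} {X Y W Q : α → ℝ≥0∞}
    {l b M : ℝ} (h0 : 0 ≤ l) (h1 : l ≤ 1) (hb : 0 < b) (hl : l * b = (1 - l) * M)
    (mX : AEMeasurable (fun a => X a * Q a ^ (-b)) μ)
    (hX : ∫⁻ a, X a * Q a ^ (-b) ∂μ < ∞) (hY : ∫⁻ a, Q a ^ M * Y a ∂μ < ∞)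
    (hW : ∀ᵐ a ∂μ, W a ≤ X a ^ l * Y a ^ (1 - l)) (X0 : ∀ᵐ a ∂μ, X a ≠ 0)
    (Qt : ∀ᵐ a ∂μ, Q a ≠ ∞) : ∫⁻ a, W a ∂μ < ∞ := by
  have hfin := ae_lt_top' mX hX.ne
  have key : ∀ᵐ a ∂μ, W a ≤ X a * Q a ^ (-b) + Q a ^ M * Y a := by
    filter_upwards [hfin, hW, X0, Qt] with a ha hWa hX0 hQt
    have hQ0 : Q a ≠ 0 := by
      intro h
      rw [h, ENNReal.zero_rpow_of_neg (by linarith), ENNReal.mul_top hX0] at ha
      exact lt_irrefl _ ha
    refine hWa.trans (le_trans (le_of_eq ?_) (rpow_mul_rpow_le_add _ _ h0 h1))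
    rw [ENNReal.mul_rpow_of_nonneg _ _ h0, ENNReal.mul_rpow_of_nonneg _ _ (by linarith),
      ← ENNReal.rpow_mul, ← ENNReal.rpow_mul]
    have : Q a ^ (-b * l) * Q a ^ (M * (1 - l)) = 1 := by
      rw [← ENNReal.rpow_add _ _ hQ0 hQt]
      have : -b * l + M * (1 - l) = 0 := by linarith
      rw [this, ENNReal.rpow_zero]
    calc X a ^ l * Y a ^ (1 - l)
        = X a ^ l * Y a ^ (1 - l) * (Q a ^ (-b * l) * Q a ^ (M * (1 - l))) := by rw [this, mul_one]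
      _ = _ := by ring
  calc ∫⁻ a, W a ∂μ ≤ ∫⁻ a, X a * Q a ^ (-b) + Q a ^ M * Y a ∂μ := lintegral_mono_ae key
    _ = ∫⁻ a, X a * Q a ^ (-b) ∂μ + ∫⁻ a, Q a ^ M * Y a ∂μ := lintegral_add_left' mX _
    _ < ∞ := ENNReal.add_lt_top.2 ⟨hX, hY⟩

/-- the numbers of THETA -/
theorem theta_num {ε b M η₀ : ℝ} (hb : 0 < b) (hM : 0 < M) (hη : 0 < η₀)
    (h : M / (b + M) * (1 - ε) + (1 - M / (b + M)) * (1 + η₀) ≤ 1) : b ≤ M / η₀ * ε := by
  have hbM : 0 < b + M := by linarith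
  have h2 : M * (1 - ε) + b * (1 + η₀) ≤ b + M := by
    have := mul_le_mul_of_nonneg_right h hbM.le
    field_simp at this
    linarith
  rw [div_mul_eq_mul_div, le_div_iff₀ hη]
  linarith

end Pool.Agent.Lib.MP_9ff3e7_ag.F
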