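import Pool.Agent.Lib.MP_9ff3e7_ag.F.KAx
import Pool.Agent.Lib.MP_9ff3e7_ag.F.KB
import Pool.Agent.Lib.MP_9ff3e7_ag.F.ThetaAlg
import Pool.Agent.Lib.MP_9ff3e7_ag.F.ThetaInt

/-! K6b, the centre estimate, from the other rules of the klt calculus. -/

set_option autoImplicit false

namespace Pool.Agent.Lib.MP_9ff3e7_ag.F

open Filter Topology MeasureTheory Finsupp KB

variable {n : ℕ} {O : Type} [CommRing O] [Algebra ℂ O] [Algebra (MvPolynomial (Fin n) ℂ) O]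

namespace Theta

theorem int_add (M : Model n O) (p : Pnt O) {u v : Pnt O → ENNReal} {r : ℝ} (hr : 0 < r)
    (hm : AEMeasurable (fun w => u (M.sg p w)) (volume.restrict (Metric.ball (zz n p) r)))
    (hu : ∃ U ∈ 𝓝 (zz n p), ∫⁻ w in U, u (M.sg p w) < ⊤)
    (hv : ∃ U ∈ 𝓝 (zz n p), ∫⁻ w in U, v (M.sg p w) < ⊤) :
    ∃ U ∈ 𝓝 (zz n p), ∫⁻ w in U, (u (M.sg p w) + v (M.sg p w)) < ⊤ := by
  obtain ⟨U, hU, hu⟩ := hu
  obtain ⟨V, hV, hv⟩ := hv
  refine ⟨U ∩ V ∩ Metric.ball (zz n p) r,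
    inter_mem (inter_mem hU hV) (Metric.ball_mem_nhds _ hr), ?_⟩
  rw [lintegral_add_left'
    (hm.mono_measure (Measure.restrict_mono Set.inter_subset_right le_rfl))]
  exact ENNReal.add_lt_top.2
    ⟨(lintegral_mono_set fun w hw => hw.1.1).trans_lt hu,
      (lintegral_mono_set fun w hw => hw.1.2).trans_lt hv⟩

theorem aemeasN (M : Model n O) (p : Pnt O) : ∃ r > 0, ∀ (f : O) (D : Ideal O →₀ ℝ),
    AEMeasurable (fun w => ENNReal.ofReal (‖M.sg p w f‖ ^ 2) * dens D (M.sg p w))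
      (volume.restrict (Metric.ball (zz n p) r)) := by
  obtain ⟨r, hr, h1, h2⟩ := aemeas M p
  exact ⟨r, hr, fun f D => ((h1 f).norm.pow_const 2).ennreal_ofReal.mul (h2 D)⟩

theorem int_sum (M : Model n O) (p : Pnt O) (D : Ideal O →₀ ℝ) (s : Finset O) (f : O → O)
    (h : ∀ g ∈ s, M.KltN p (f g) D) : ∃ U ∈ 𝓝 (zz n p),
      ∫⁻ w in U, ENNReal.ofReal (∑ g ∈ s, ‖M.sg p w (f g)‖ ^ 2) * dens D (M.sg p w) < ⊤ := by
  classical
  obtain ⟨r, hr, hm⟩ := aemeasN M p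
  induction s using Finset.induction_on with
  | empty => exact ⟨Set.univ, univ_mem, by simp⟩
  | insert a s ha ih =>
    obtain ⟨U, hU, h2⟩ := int_add M p
      (u := fun y => ENNReal.ofReal (‖y (f a)‖ ^ 2) * dens D y)
      (v := fun y => ENNReal.ofReal (∑ g ∈ s, ‖y (f g)‖ ^ 2) * dens D y) hr (hm (f a) D)
      (h a (Finset.mem_insert_self _ _)) (ih fun g hg => h g (Finset.mem_insert_of_mem hg))
    refine ⟨U, hU, lt_of_eq_of_lt (lintegral_congr fun w => ?_) h2⟩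
    rw [Finset.sum_insert ha, ENNReal.ofReal_add (by positivity)
      (Finset.sum_nonneg fun _ _ => by positivity), add_mul]

theorem kltN_add (M : Model n O) (p : Pnt O) (D : Ideal O →₀ ℝ) {f g : O} (hf : M.KltN p f D)
    (hg : M.KltN p g D) : M.KltN p (f + g) D := by
  obtain ⟨r, hr, hm⟩ := aemeasN M p
  have h2 := int_add M p (u := fun y => ENNReal.ofReal (‖y f‖ ^ 2) * dens D y)
    (v := fun y => ENNReal.ofReal (‖y g‖ ^ 2) * dens D y) hr (hm f D) hf hg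
  refine int_of_le M p (u := fun y => ENNReal.ofReal (‖y (f + g)‖ ^ 2) * dens D y)
    (v := fun y => ENNReal.ofReal (‖y f‖ ^ 2) * dens D y + ENNReal.ofReal (‖y g‖ ^ 2) * dens D y)
    (C := ENNReal.ofReal 2) ENNReal.ofReal_ne_top (Eventually.of_forall fun y => ?_) h2
  rw [← add_mul, ← mul_assoc, ← ENNReal.ofReal_add (by positivity) (by positivity),
    ← ENNReal.ofReal_mul (by norm_num)]
  gcongr
  have h1 : ‖y (f + g)‖ ≤ ‖y f‖ + ‖y g‖ := by rw [map_add]; exact norm_add_le _ _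
  have h3 : ‖y (f + g)‖ ^ 2 ≤ (‖y f‖ + ‖y g‖) ^ 2 := by gcongr
  nlinarith [sq_nonneg (‖y f‖ - ‖y g‖)]

theorem kltN_mul (M : Model n O) (p : Pnt O) (D : Ideal O →₀ ℝ) (c : O) {f : O}
    (hf : M.KltN p f D) : M.KltN p (c * f) D := by
  refine int_of_le M p (u := fun y => ENNReal.ofReal (‖y (c * f)‖ ^ 2) * dens D y)
    (v := fun y => ENNReal.ofReal (‖y f‖ ^ 2) * dens D y)
    (C := ENNReal.ofReal ((‖p c‖ + 1) ^ 2)) ENNReal.ofReal_ne_top ?_ hf
  filter_upwards [bdd_near p c] with y hy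
  rw [← mul_assoc, ← ENNReal.ofReal_mul (by positivity), map_mul, norm_mul, mul_pow]
  gcongr

end Theta

open Theta

/-- the global multiplier ideal of a pair -/
def Model.multI (M : Model n O) (D : Ideal O →₀ ℝ) : Ideal O where
  carrier := {f | ∀ q : Pnt O, M.KltN q f D}
  add_mem' hf hg q := kltN_add M q D (hf q) (hg q)
  zero_mem' q := ⟨Set.univ, univ_mem, by simp⟩
  smul_mem' c _ hf q := kltN_mul M q D c (hf q)

theorem Model.mem_multI {M : Model n O} {D : Ideal O →₀ ℝ} {f : O} :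
    f ∈ M.multI D ↔ ∀ q : Pnt O, M.KltN q f D := Iff.rfl

theorem Model.mem_nkltI {M : Model n O} {D : Ideal O →₀ ℝ} {f : O} :
    f ∈ M.nkltI D ↔ ∀ y : Pnt O, ¬ M.Klt y D → y f = 0 := by
  simp [Model.nkltI, RingHom.mem_ker]

/-- the ideal of the non klt locus is the radical of the multiplier ideal -/
theorem KAx0.nkltI_eq {M : Model n O} (h : KAx0 M) {D : Ideal O →₀ ℝ} (hD : 0 ≤ D) :
    M.nkltI D = (M.multI D).radical := by
  have := h.ft
  refine le_antisymm (fun f hf => ?_) fun f hf => ?_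
  · by_contra hn
    obtain ⟨y, hy, hyf⟩ := exists_pt_of_notMem_radical _ hn
    refine hyf (Model.mem_nkltI.1 hf y fun hk => ?_)
    obtain ⟨g, hg, hq⟩ := h.zarN y D hD hk
    exact hg (hy g hq)
  · obtain ⟨k, hk⟩ := hf
    refine Model.mem_nkltI.2 fun y hy => ?_
    by_contra hne
    exact hy (h.ofN y (f ^ k) D (by rw [map_pow]; exact pow_ne_zero _ hne) (hk y))

/-- a power of `|P|²` kills the density near a point where `h` does not vanish -/
theorem Theta.int_pow (M : Model n O) (y : Pnt O) (D : Ideal O →₀ ℝ) (P : Ideal O) {h : O}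
    {m : ℕ} (hm : 1 ≤ m) (hy : y h ≠ 0) (hP : ∀ p ∈ P, h * p ^ m ∈ M.multI D) :
    ∃ U ∈ 𝓝 (zz n y), ∫⁻ w in U,
      ENNReal.ofReal (nsqI P (M.sg y w)) ^ (m : ℝ) * dens D (M.sg y w) < ⊤ := by
  obtain ⟨k, rfl⟩ : ∃ k, m = k + 1 := ⟨m - 1, by omega⟩
  have h0 : 0 < ‖y h‖ / 2 := half_pos (norm_pos_iff.2 hy)
  have h1 := int_sum M y D (gens P) (fun g => h * g ^ (k + 1))
    fun g hg => hP g (gens_mem (fg M P) hg) y
  refine int_of_le M y
    (u := fun y' => ENNReal.ofReal (nsqI P y') ^ ((k + 1 : ℕ) : ℝ) * dens D y')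
    (v := fun y' => ENNReal.ofReal (∑ g ∈ gens P, ‖y' (h * g ^ (k + 1))‖ ^ 2) * dens D y')
    (C := ENNReal.ofReal (((gens P).card : ℝ) ^ k / (‖y h‖ / 2) ^ 2)) ENNReal.ofReal_ne_top ?_ h1
  filter_upwards [lower_near y hy] with y' h2
  rw [← mul_assoc, ← ENNReal.ofReal_mul (by positivity), ENNReal.rpow_natCast,
    ← ENNReal.ofReal_pow (nsqI_nonneg P y')]
  gcongr
  have e : ∑ g ∈ gens P, ‖y' (h * g ^ (k + 1))‖ ^ 2 =
      ‖y' h‖ ^ 2 * ∑ g ∈ gens P, (‖y' g‖ ^ 2) ^ (k + 1) := by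
    rw [Finset.mul_sum]
    refine Finset.sum_congr rfl fun g _ => ?_
    rw [map_mul, map_pow, norm_mul, norm_pow]; ring
  have h3 := pow_sum_le_card_mul_sum_pow (s := gens P) (f := fun g => ‖y' g‖ ^ 2)
    (fun _ _ => by positivity) k
  have h4 : 0 ≤ ∑ g ∈ gens P, (‖y' g‖ ^ 2) ^ (k + 1) := Finset.sum_nonneg fun _ _ => by positivity
  rw [e, div_mul_eq_mul_div, le_div_iff₀ (by positivity)]
  calc nsqI P y' ^ (k + 1) * (‖y h‖ / 2) ^ 2
      ≤ (((gens P).card : ℝ) ^ k * ∑ g ∈ gens P, (‖y' g‖ ^ 2) ^ (k + 1)) * ‖y' h‖ ^ 2 := by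
        gcongr
        exact h3
    _ = _ := by ring

/-- K6b -/
theorem KAx0.theta {M : Model n O} (h : KAx0 M) (D : Ideal O →₀ ℝ) (η₀ : ℝ) (P : Ideal O)
    (hD : 0 ≤ D) (hη : 0 < η₀) (hP : P ∈ (M.nkltI ((1 + η₀) • D)).minimalPrimes)
    (hN : ∀ η, 0 < η → η ≤ η₀ → ∀ y : Pnt O, (∀ s ∈ P, y s = 0) → ¬ M.Klt y ((1 + η) • D)) :
    ∃ K : ℝ, 0 ≤ K ∧ ∀ (ε b : ℝ) (y : Pnt O), 0 ≤ ε → ε ≤ 1 → 0 ≤ b → (∀ s ∈ P, y s = 0) →
      M.Klt y ((1 - ε) • D + single P b) → b ≤ K * ε := by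
  have := h.ft
  have := noeth M
  have hp : P.IsPrime := hP.1.1
  have p0 : (0 : ℝ) ≤ 1 + η₀ := by linarith
  rw [h.nkltI_eq (smul_nonneg p0 hD), Ideal.radical_minimalPrimes] at hP
  obtain ⟨g, hg, m, hm, hgm⟩ := exists_mul_pow_mem hP
  have hm0 : (0 : ℝ) < m := by exact_mod_cast hm
  refine ⟨m / η₀, by positivity, fun ε b y hε0 hε1 hb hy hk => ?_⟩
  rcases hb.eq_or_lt with rfl | hb0
  · positivity
  have q0 : (0 : ℝ) ≤ 1 - ε := by linarith
  have hD1 : 0 ≤ (1 - ε) • D := smul_nonneg q0 hD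
  have hD2 : (0 : Ideal O →₀ ℝ) ≤ single P b := single_nonneg.2 hb
  obtain ⟨f, hf, hq⟩ := h.zarN y _ (add_nonneg hD1 hD2) hk
  have hfg : f * g ∉ P := fun H => (hp.mem_or_mem H).elim (fun H => hf (hy f H)) hg
  obtain ⟨y', hy', hne⟩ := exists_pt_of_notMem_prime P hfg
  rw [map_mul, mul_ne_zero_iff] at hne
  obtain ⟨U, hU, h1⟩ := h.ofN y' f _ hne.1 (hq y')
  obtain ⟨V, hV, h2⟩ := Theta.int_pow M y' _ P hm hne.2 hgm
  obtain ⟨r, hr, -, hms⟩ := aemeas M y'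
  refine theta_num hb0 hm0 hη (not_lt.1 fun hs => ?_)
  have hbm : 0 < b + m := by linarith
  set l : ℝ := m / (b + m) with hl
  have l0 : 0 ≤ l := by positivity
  have l1 : l ≤ 1 := by rw [hl, div_le_one hbm]; linarith
  have lb : l * b = (1 - l) * m := by rw [hl]; field_simp; ring
  refine hN (l * (1 - ε) + (1 - l) * (1 + η₀) - 1) (by linarith) (by nlinarith) y' hy' ?_
  have e1 : ∀ w, dens ((1 - ε) • D + single P b) (M.sg y' w) =
      dens ((1 - ε) • D) (M.sg y' w) * ENNReal.ofReal (nsqI P (M.sg y' w)) ^ (-b) := fun w => by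
    rw [dens_add hD1 hD2, dens_single]
  refine ⟨U ∩ V ∩ Metric.ball (zz n y') r,
    inter_mem (inter_mem hU hV) (Metric.ball_mem_nhds _ hr), ?_⟩
  refine theta_int (X := fun w => dens ((1 - ε) • D) (M.sg y' w))
    (Y := fun w => dens ((1 + η₀) • D) (M.sg y' w))
    (Q := fun w => ENNReal.ofReal (nsqI P (M.sg y' w))) l0 l1 hb0 lb ?_ ?_ ?_
    (Eventually.of_forall fun w => ?_) (Eventually.of_forall fun w => dens_ne_zero _ hD1 _)
    (Eventually.of_forall fun w => ENNReal.ofReal_ne_top)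
  · simp only [← e1]
    exact (hms _).mono_measure (Measure.restrict_mono Set.inter_subset_right le_rfl)
  · simp only [← e1]
    exact (lintegral_mono_set fun w hw => hw.1.1).trans_lt h1
  · exact (lintegral_mono_set fun w hw => hw.1.2).trans_lt h2
  · have a1 : 0 ≤ (1 - ε) * l := mul_nonneg q0 l0
    have a2 : 0 ≤ (1 + η₀) * (1 - l) := mul_nonneg p0 (by linarith)
    rw [dens_smul D q0, dens_smul D p0, dens_smul D (by nlinarith), ← ENNReal.rpow_mul,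
      ← ENNReal.rpow_mul, ← ENNReal.rpow_add_of_nonneg _ _ a1 a2]
    exact le_of_eq (by congr 1; ring)

/-- K1 - K8 from the rules without the centre estimate -/
theorem KAx0.kAx {M : Model n O} (h : KAx0 M) : KAx M := { h with theta := h.theta }

end Pool.Agent.Lib.MP_9ff3e7_ag.F
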