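import Mathlib

/-! An unramified point of a domain over a normal domain has a standard etale neighbourhood. -/

set_option autoImplicit false

namespace Pool.Agent.Lib.MP_9ff3e7_ag.F

open Polynomial

theorem std_of_surj {R O : Type} [CommRing R] [IsDomain R] [IsIntegrallyClosed R] [CommRing O]
    [IsDomain O] [Algebra R O] [FaithfulSMul R O] (P : StandardEtalePair R) (φ : P.Ring →ₐ[R] O)
    (hφ : Function.Surjective φ) :
    ∃ E : StandardEtalePresentation R O, E.f = minpoly R E.x := by
  have hx : P.HasMap (φ P.X) := P.hasMap_X.map φ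
  have hi : IsIntegral R (φ P.X) := ⟨P.f, P.monic_f, hx.1⟩
  obtain ⟨k, hk⟩ := minpoly.isIntegrallyClosed_dvd hi hx.1
  obtain ⟨p₁, p₂, n, e⟩ := P.cond
  let P' : StandardEtalePair R := ⟨minpoly R (φ P.X), minpoly.monic hi, P.g, k * p₁,
    derivative k * p₁ + k * p₂, n, by rw [← e, hk, derivative_mul]; ring⟩
  have hx' : P'.HasMap (φ P.X) := ⟨minpoly.aeval _ _, hx.2⟩
  have h2 : P.HasMap P'.X := ⟨by
    rw [hk, map_mul, show aeval P'.X (minpoly R (φ P.X)) = 0 from P'.hasMap_X.1, zero_mul],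
    P'.hasMap_X.2⟩
  have e2 : (P'.lift _ hx').comp (P.lift _ h2) = φ := P.hom_ext (by simp)
  refine ⟨⟨P', φ P.X, hx', ?_, ?_⟩, rfl⟩
  · rw [injective_iff_map_eq_zero]
    intro a ha
    obtain ⟨p, m, e3⟩ := StandardEtalePresentation.exists_mul_aeval_x_g_pow_eq_aeval_x
      ⟨P', P'.X, P'.hasMap_X, by simpa [P'.lift_X_left] using Function.bijective_id⟩ a
    have e4 := congrArg (P'.lift _ hx') e3
    rw [map_mul, ha, zero_mul, ← aeval_algHom_apply, P'.lift_X] at e4
    obtain ⟨q, hq⟩ := minpoly.isIntegrallyClosed_dvd hi e4.symm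
    rw [hq, map_mul, show aeval P'.X (minpoly R (φ P.X)) = 0 from P'.hasMap_X.1, zero_mul] at e3
    exact (P'.hasMap_X.2.pow m).mul_left_eq_zero.1 e3
  · rw [← e2] at hφ
    exact Function.Surjective.of_comp hφ

/-- an unramified point of a domain over a normal domain has a standard etale neighbourhood -/
theorem std_of_unram {R B : Type} [CommRing R] [IsDomain R] [IsIntegrallyClosed R] [CommRing B]
    [IsDomain B] [Algebra R B] [FaithfulSMul R B] [Algebra.FiniteType R B]
    (Q : Ideal B) [Q.IsPrime] [Algebra.IsUnramifiedAt R Q] (h : B) (hh : h ∉ Q) :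
    ∃ f, f ∉ Q ∧ h ∣ f ∧ ∀ (O : Type) [CommRing O] [Algebra B O] [Algebra R O]
      [IsScalarTower R B O] [IsLocalization.Away f O],
      ∃ E : StandardEtalePresentation R O, E.f = minpoly R E.x := by
  obtain ⟨f, hf, H⟩ := Algebra.IsUnramifiedAt.exists_hasStandardEtaleSurjectionOn (R := R) Q
  have hfh : f * h ∉ Q := ‹Q.IsPrime›.mul_notMem hf hh
  refine ⟨f * h, hfh, dvd_mul_left _ _, fun O _ _ _ _ _ => ?_⟩
  obtain ⟨P, φ, hφ⟩ := H.of_dvd (dvd_mul_right f h)
  have h0 : Submonoid.powers (f * h) ≤ nonZeroDivisors B :=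
    powers_le_nonZeroDivisors_of_noZeroDivisors fun e => hfh (e ▸ zero_mem _)
  have : IsDomain O := IsLocalization.isDomain_of_le_nonZeroDivisors O h0
  have : FaithfulSMul R O := by
    rw [faithfulSMul_iff_algebraMap_injective, IsScalarTower.algebraMap_eq R B O]
    exact (IsLocalization.injective O h0).comp (FaithfulSMul.algebraMap_injective R B)
  let e := (IsLocalization.algEquiv (.powers (f * h)) (Localization.Away (f * h)) O).restrictScalars R
  exact std_of_surj P (e.toAlgHom.comp φ) (e.surjective.comp hφ)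

end Pool.Agent.Lib.MP_9ff3e7_ag.F
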