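import Pool.Agent.Lib.MP_9ff3e7_ag.F.K0
import Pool.Agent.Lib.MP_9ff3e7_ag.F.K7
import Pool.Agent.Lib.MP_9ff3e7_ag.F.ThetaAlg

/-! At a smooth point the maximal ideal has as many generators as the transcendence degree. -/

set_option autoImplicit false

namespace Pool.Agent.Lib.MP_9ff3e7_ag.F

/-- the transcendence degree of a standard etale domain over affine space -/
theorem XEtB.trdeg_std {m : ℕ} {O : Type} [CommRing O] [IsDomain O] [Algebra ℂ O]
    [Algebra (MvPolynomial (Fin m) ℂ) O] [IsScalarTower ℂ (MvPolynomial (Fin m) ℂ) O]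
    [Algebra.IsStandardEtale (MvPolynomial (Fin m) ℂ) O] : Algebra.trdeg ℂ O = m := by
  obtain ⟨E⟩ : Nonempty (StandardEtalePresentation (MvPolynomial (Fin m) ℂ) O) := inferInstance
  have : Algebra.IsAlgebraic (MvPolynomial (Fin m) ℂ) O := ⟨K7.alg E⟩
  have : Module.Flat (MvPolynomial (Fin m) ℂ) O := inferInstance
  have : FaithfulSMul (MvPolynomial (Fin m) ℂ) O := inferInstance
  rw [← trdeg_add_eq ℂ (MvPolynomial (Fin m) ℂ) (A := O), trdeg_eq_zero (A := O), add_zero,
    MvPolynomial.trdeg_of_isDomain]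
  simp

/-- at a smooth point the maximal ideal has `trdeg` generators -/
theorem gens_of_smooth {B : Type} [CommRing B] [IsDomain B] [Algebra ℂ B] [Algebra.FiniteType ℂ B]
    (n : ℕ) (hn : Algebra.trdeg ℂ B = n) (Q : Ideal B) [Q.IsMaximal]
    (L : Type) [CommRing L] [IsLocalRing L] [Algebra B L] [Algebra ℂ L] [IsScalarTower ℂ B L]
    [IsLocalization.AtPrime L Q] [Algebra.FormallySmooth ℂ L] :
    ∃ t : Fin n → L, IsLocalRing.maximalIdeal L = Ideal.span (Set.range t) := by
  have : Algebra.IsSmoothAt ℂ Q := Algebra.FormallySmooth.of_equiv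
    ((IsLocalization.algEquiv Q.primeCompl L (Localization.AtPrime Q)).restrictScalars ℂ)
  have : Algebra.FinitePresentation ℂ B := Algebra.FinitePresentation.of_finiteType.mp inferInstance
  obtain ⟨f, hf, m, _, _, _⟩ := Algebra.IsSmoothAt.exists_isStandardEtale_mvPolynomial
    (R := ℂ) (S := B) (p := Q)
  have f0 : f ≠ 0 := fun e => hf (e ▸ Q.zero_mem)
  have hle : Submonoid.powers f ≤ nonZeroDivisors B :=
    powers_le_nonZeroDivisors_of_noZeroDivisors f0
  have : IsDomain (Localization.Away f) := IsLocalization.isDomain_localization hle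
  have hm : m = n := by
    have : FaithfulSMul B (Localization.Away f) :=
      (faithfulSMul_iff_algebraMap_injective _ _).mpr (IsLocalization.injective _ hle)
    have : Algebra.IsAlgebraic B (Localization.Away f) :=
      IsLocalization.isAlgebraic _ (Submonoid.powers f)
    have h1 := XEtB.trdeg_std (m := m) (O := Localization.Away f)
    rw [← trdeg_add_eq ℂ B (A := Localization.Away f), trdeg_eq_zero (A := Localization.Away f),
      add_zero, hn] at h1
    exact_mod_cast h1.symm
  subst hm
  obtain ⟨E⟩ : Nonempty (StandardEtalePresentation (MvPolynomial (Fin m) ℂ)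
    (Localization.Away f)) := inferInstance
  obtain ⟨M, -⟩ := exists_model E
  obtain ⟨y0, hy0⟩ := exists_pt_of_isMaximal Q
  have hyf : y0 f ≠ 0 := fun e => hf ((hy0 f).1 e)
  let y : Pnt (Localization.Away f) := IsLocalization.liftAlgHom (M := Submonoid.powers f)
    (f := y0) (by rintro ⟨_, k, rfl⟩; simpa using fun e => absurd e hyf)
  have hy : ∀ b, y (algebraMap B _ b) = y0 b := fun b => IsLocalization.lift_eq _ b
  have hu : IsUnit (algebraMap B L f) := IsLocalization.map_units L (⟨f, hf⟩ : Q.primeCompl)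
  let ψ : Localization.Away f →+* L := IsLocalization.Away.lift f hu
  have hψ : ∀ b, ψ (algebraMap B _ b) = algebraMap B L b := fun b =>
    IsLocalization.Away.lift_eq f hu b
  have key : ∀ g, ψ g ∈ IsLocalRing.maximalIdeal L ↔ y g = 0 := by
    intro g
    obtain ⟨k, b, h⟩ := IsLocalization.Away.surj f g
    have h1 := congrArg ψ h
    have h2 := congrArg y h
    rw [map_mul, map_pow, hψ, hψ] at h1
    rw [map_mul, map_pow, hy, hy] at h2
    rw [← Ideal.mul_unit_mem_iff_mem _ (hu.pow k), h1,
      IsLocalization.AtPrime.to_map_mem_maximal_iff L Q, ← hy0, ← h2]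
    simp [hyf]
  refine ⟨fun i => ψ (zc m _ i - algebraMap ℂ _ (y (zc m _ i))), le_antisymm ?_ ?_⟩
  · obtain ⟨h, hh, hs⟩ := M.kerle y
    have hhu : IsUnit (ψ h) := by
      by_contra e
      exact hh ((key h).1 e)
    rw [← IsLocalization.AtPrime.map_eq_maximalIdeal Q L, Ideal.map_le_iff_le_comap]
    intro s hsQ
    have h1 := Ideal.mem_map_of_mem ψ (hs (algebraMap B _ s)
      (by rw [RingHom.mem_ker, hy]; exact (hy0 s).2 hsQ))
    rw [map_mul, Ideal.unit_mul_mem_iff_mem _ hhu, hψ, mz, mzJ, Ideal.map_span, Set.image_image,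
      Finset.coe_univ, Set.image_univ] at h1
    exact h1
  · rw [Ideal.span_le]
    rintro _ ⟨i, rfl⟩
    exact (key _).2 (by simp)

end Pool.Agent.Lib.MP_9ff3e7_ag.F
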