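import Mathlib

/-! If the coordinates span the cotangent space, the point is unramified. -/

set_option autoImplicit false

namespace Pool.Agent.Lib.MP_9ff3e7_ag.F

open MvPolynomial IsLocalRing

theorem unram_of_gens {B : Type} [CommRing B] [Algebra ℂ B] [Algebra.FiniteType ℂ B] {n : ℕ}
    [Algebra (MvPolynomial (Fin n) ℂ) B] [IsScalarTower ℂ (MvPolynomial (Fin n) ℂ) B]
    (Q : Ideal B) [Q.IsMaximal]
    (L : Type) [CommRing L] [IsLocalRing L] [Algebra B L] [IsLocalization.AtPrime L Q]
    (c : Fin n → ℂ)
    (hc : ∀ i, algebraMap (MvPolynomial (Fin n) ℂ) B (X i - C (c i)) ∈ Q)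
    (h : IsLocalRing.maximalIdeal L ≤ Ideal.span (Set.range fun i =>
      algebraMap B L (algebraMap (MvPolynomial (Fin n) ℂ) B (X i - C (c i)))) ⊔
        IsLocalRing.maximalIdeal L ^ 2) :
    Algebra.IsUnramifiedAt (MvPolynomial (Fin n) ℂ) Q := by
  have : IsNoetherianRing B := Algebra.FiniteType.isNoetherianRing ℂ B
  have : IsNoetherianRing L := IsLocalization.isNoetherianRing Q.primeCompl L inferInstance
  have : Algebra.FiniteType (MvPolynomial (Fin n) ℂ) B := .of_restrictScalars_finiteType ℂ _ _
  have hN := Submodule.le_of_le_smul_of_le_jacobson_bot (I := maximalIdeal L)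
    (IsNoetherian.noetherian (maximalIdeal L)) (maximalIdeal_le_jacobson _)
    (by rwa [smul_eq_mul, ← pow_two])
  let p := Q.under (MvPolynomial (Fin n) ℂ)
  let := Localization.AtPrime.algebraOfLiesOver p Q
  rw [Algebra.isUnramifiedAt_iff_map_eq (MvPolynomial (Fin n) ℂ) p Q]
  constructor
  · have : Algebra.IsAlgebraic ℂ Q.ResidueField := by
      have : Module.Finite ℂ (B ⧸ Q) := by
        let := Ideal.Quotient.field Q
        exact finite_of_finite_type_of_isJacobsonRing ℂ _
      have : Module.Finite ℂ Q.ResidueField := Module.Finite.of_surjective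
        (IsScalarTower.toAlgHom ℂ (B ⧸ Q) Q.ResidueField).toLinearMap
        (Ideal.bijective_algebraMap_quotient_residueField Q).2
      infer_instance
    have : CharZero p.ResidueField := algebraRat.charZero _
    have : Algebra.IsAlgebraic p.ResidueField Q.ResidueField :=
      Algebra.IsAlgebraic.tower_top (K := ℂ) _
    infer_instance
  · refine le_antisymm ?_ ?_
    · rw [← Localization.AtPrime.map_eq_maximalIdeal, IsScalarTower.algebraMap_eq _ B,
        ← Ideal.map_map]
      exact Ideal.map_mono Ideal.map_comap_le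
    · let e := IsLocalization.algEquiv Q.primeCompl L (Localization.AtPrime Q)
      intro x hx
      obtain ⟨x, rfl⟩ := e.surjective x
      have h1 : x ∈ maximalIdeal L := fun u => hx (u.map e)
      have h2 := Ideal.mem_map_of_mem (e : L →+* Localization.AtPrime Q) (hN h1)
      refine (Ideal.map_le_iff_le_comap.2 (Ideal.span_le.2 ?_)) h2
      rintro _ ⟨i, rfl⟩
      refine Ideal.mem_comap.2 (show e _ ∈ _ from ?_)
      rw [AlgEquiv.commutes, ← IsScalarTower.algebraMap_apply]
      exact Ideal.mem_map_of_mem _ (hc i)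

end Pool.Agent.Lib.MP_9ff3e7_ag.F
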