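import Mathlib

/-! Reductions of a linear system: growth at the points, integrality, independence. -/

set_option autoImplicit false

namespace Pool.Agent.Lib.MP_9ff3e7_ag.F

namespace Gro

variable {O : Type} [CommRing O] [Algebra ℂ O]

/-- elements whose values at all points are `O(ρ)` -/
def Bd (ρ : (O →ₐ[ℂ] ℂ) → ℝ) : Submodule ℂ O where
  carrier := {f | ∃ C : ℝ, 0 ≤ C ∧ ∀ y : O →ₐ[ℂ] ℂ, ‖y f‖ ≤ C * ρ y}
  zero_mem' := ⟨0, le_rfl, fun y => by simp⟩
  add_mem' := by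
    rintro a b ⟨C, hC, ha⟩ ⟨D, hD, hb⟩
    refine ⟨C + D, add_nonneg hC hD, fun y => ?_⟩
    rw [map_add, add_mul]
    exact (norm_add_le _ _).trans (add_le_add (ha y) (hb y))
  smul_mem' := by
    rintro c a ⟨C, hC, ha⟩
    refine ⟨‖c‖ * C, mul_nonneg (norm_nonneg _) hC, fun y => ?_⟩
    rw [map_smul, norm_smul, mul_assoc]
    exact mul_le_mul_of_nonneg_left (ha y) (norm_nonneg _)

theorem mul_le_Bd {P Q : Submodule ℂ O} {ρ σ : (O →ₐ[ℂ] ℂ) → ℝ}
    (hP : P ≤ Bd ρ) (hQ : Q ≤ Bd σ) : P * Q ≤ Bd fun y => ρ y * σ y := by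
  rw [Submodule.mul_le]
  intro a ha b hb
  obtain ⟨C, hC, h1⟩ := hP ha
  obtain ⟨D, hD, h2⟩ := hQ hb
  refine ⟨C * D, mul_nonneg hC hD, fun y => ?_⟩
  rw [map_mul, norm_mul]
  calc ‖y a‖ * ‖y b‖ ≤ (C * ρ y) * (D * σ y) :=
        mul_le_mul (h1 y) (h2 y) (norm_nonneg _) ((norm_nonneg _).trans (h1 y))
    _ = C * D * (ρ y * σ y) := by ring

theorem pow_le_Bd {P : Submodule ℂ O} {ρ : (O →ₐ[ℂ] ℂ) → ℝ} (hP : P ≤ Bd ρ) (j : ℕ) :
    P ^ j ≤ Bd fun y => ρ y ^ j := by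
  induction j with
  | zero =>
    rw [pow_zero, Submodule.one_le]
    exact ⟨1, zero_le_one, fun y => by simp⟩
  | succ j ih =>
    rw [pow_succ]
    simpa only [pow_succ] using mul_le_Bd ih hP

theorem le_Bd_of_red {V Y : Submodule ℂ O} (hV : V.FG) {ρ : (O →ₐ[ℂ] ℂ) → ℝ}
    (hρ : ∀ y, 0 ≤ ρ y) (hY : Y ≤ Bd ρ) (M : ℕ) (hM : V ^ (M + 1) ≤ Y * V ^ M) : V ≤ Bd ρ := by
  classical
  obtain ⟨t, ht⟩ := hV
  let A : (O →ₐ[ℂ] ℂ) → ℝ := fun y => ((t.sup fun v => ‖y v‖₊ : NNReal) : ℝ)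
  have hA : ∀ y, ∀ v ∈ t, ‖y v‖ ≤ A y := fun y v hv => by
    have : ‖y v‖₊ ≤ t.sup fun v => ‖y v‖₊ := Finset.le_sup (f := fun v => ‖y v‖₊) hv
    exact_mod_cast this
  have hVA : V ≤ Bd A := by
    rw [← ht, Submodule.span_le]
    exact fun v hv => ⟨1, zero_le_one, fun y => by simpa using hA y v hv⟩
  have hP : V ^ (M + 1) ≤ Bd fun y => ρ y * A y ^ M :=
    hM.trans (mul_le_Bd hY (pow_le_Bd hVA M))
  have hc : ∀ v : O, ∃ C : ℝ, 0 ≤ C ∧
      (v ∈ t → ∀ y : O →ₐ[ℂ] ℂ, ‖y v‖ ^ (M + 1) ≤ C * (ρ y * A y ^ M)) := by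
    intro v
    by_cases hv : v ∈ t
    · have hv' : v ∈ V := ht ▸ Submodule.subset_span hv
      obtain ⟨C, hC, h⟩ := hP (Submodule.pow_mem_pow V hv' (M + 1))
      exact ⟨C, hC, fun _ y => by simpa using h y⟩
    · exact ⟨0, le_rfl, fun h => absurd h hv⟩
  choose C hC0 hC using hc
  rw [← ht, Submodule.span_le]
  intro v hv
  refine ⟨∑ w ∈ t, C w, Finset.sum_nonneg fun w _ => hC0 w, fun y => (hA y v hv).trans ?_⟩
  obtain ⟨w, hw, hw'⟩ := Finset.exists_mem_eq_sup t ⟨v, hv⟩ fun v => ‖y v‖₊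
  have hAw : A y = ‖y w‖ := by simp only [A, hw', coe_nnnorm]
  have hle : C w ≤ ∑ w ∈ t, C w := Finset.single_le_sum (fun w _ => hC0 w) hw
  have h1 := hC w hw y
  rw [← hAw] at h1
  have h0 : 0 ≤ A y := by rw [hAw]; exact norm_nonneg _
  rcases h0.eq_or_lt with h | h
  · rw [← h]; exact mul_nonneg ((hC0 w).trans hle) (hρ y)
  · have h2 : A y ≤ C w * ρ y := by
      refine le_of_mul_le_mul_right ?_ (pow_pos h M)
      calc A y * A y ^ M = A y ^ (M + 1) := by ring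
        _ ≤ _ := h1
        _ = _ := by ring
    exact h2.trans (mul_le_mul_of_nonneg_right hle (hρ y))

end Gro

/-- growth of the filtration at the points -/
theorem red_growth {O : Type} [CommRing O] [Algebra ℂ O] {n : ℕ} (z : Fin n → O)
    (V : Submodule ℂ O) [Module.Finite ℂ V] (M : ℕ)
    (hM : V ^ (M + 1) ≤ Submodule.span ℂ (insert 1 (Set.range z)) * V ^ M)
    (j : ℕ) (f : O) (hf : f ∈ V ^ j) :
    ∃ C : ℝ, ∀ y : O →ₐ[ℂ] ℂ, ‖y f‖ ^ 2 ≤ C * (1 + ∑ i, ‖y (z i)‖ ^ 2) ^ j := by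
  have hS : ∀ y : O →ₐ[ℂ] ℂ, 0 ≤ ∑ i, ‖y (z i)‖ ^ 2 :=
    fun y => Finset.sum_nonneg fun i _ => sq_nonneg _
  have hY : Submodule.span ℂ (insert 1 (Set.range z)) ≤
      Gro.Bd fun y : O →ₐ[ℂ] ℂ => √(1 + ∑ i, ‖y (z i)‖ ^ 2) := by
    rw [Submodule.span_le]
    rintro v (rfl | ⟨i, rfl⟩)
    · refine ⟨1, zero_le_one, fun y => ?_⟩
      rw [map_one, norm_one, one_mul]
      exact Real.le_sqrt_of_sq_le (by linarith [hS y])
    · refine ⟨1, zero_le_one, fun y => ?_⟩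
      rw [one_mul]
      have := Finset.single_le_sum (f := fun i => ‖y (z i)‖ ^ 2) (fun i _ => sq_nonneg _)
        (Finset.mem_univ i)
      exact Real.le_sqrt_of_sq_le (by linarith)
  have hV := Gro.le_Bd_of_red (Module.Finite.iff_fg.mp inferInstance)
    (fun y => Real.sqrt_nonneg _) hY M hM
  obtain ⟨C, -, h⟩ := Gro.pow_le_Bd hV j hf
  refine ⟨C ^ 2, fun y => ?_⟩
  calc ‖y f‖ ^ 2 ≤ (C * √(1 + ∑ i, ‖y (z i)‖ ^ 2) ^ j) ^ 2 :=
        pow_le_pow_left₀ (norm_nonneg _) (h y) 2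
    _ = C ^ 2 * (√(1 + ∑ i, ‖y (z i)‖ ^ 2) ^ 2) ^ j := by ring
    _ = _ := by rw [Real.sq_sqrt (by linarith [hS y])]

/-- a reduction makes the linear system integral over the coordinates -/
theorem red_integral {K : Type} [CommRing K] [IsDomain K] [Algebra ℂ K] {n : ℕ}
    (z : Fin n → K) (V : Submodule ℂ K) [Module.Finite ℂ V] (h1 : (1 : K) ∈ V) (M : ℕ)
    (hM : V ^ (M + 1) ≤ Submodule.span ℂ (insert 1 (Set.range z)) * V ^ M)
    (j : ℕ) (f : K) (hf : f ∈ V ^ j) : IsIntegral (Algebra.adjoin ℂ (Set.range z)) f := by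
  set A := Algebra.adjoin ℂ (Set.range z) with hA
  obtain ⟨t, ht⟩ := (Module.Finite.iff_fg.mp (inferInstance : Module.Finite ℂ V)).pow M
  let N : Submodule A K := Submodule.span A (t : Set K)
  have hVN : V ^ M ≤ N.restrictScalars ℂ := by
    rw [← ht, Submodule.span_le]
    exact fun v hv => Submodule.subset_span hv
  have hYN : Submodule.span ℂ (insert 1 (Set.range z)) * V ^ M ≤ N.restrictScalars ℂ := by
    rw [Submodule.mul_le]
    intro a ha b hb
    have haA : a ∈ A := by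
      have : Submodule.span ℂ (insert 1 (Set.range z)) ≤ Subalgebra.toSubmodule A := by
        rw [Submodule.span_le]
        rintro v (rfl | hv)
        · exact A.one_mem
        · exact Algebra.subset_adjoin hv
      exact this ha
    exact N.smul_mem (⟨a, haA⟩ : A) (hVN hb)
  have hN : N ≠ ⊥ := by
    intro h
    have h2 : (1 : K) ∈ N := hVN (by simpa using Submodule.pow_mem_pow V h1 M)
    rw [h, Submodule.mem_bot] at h2
    exact one_ne_zero h2
  have hv : ∀ v ∈ V, IsIntegral A v := by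
    intro v hv
    refine isIntegral_of_smul_mem_submodule N hN ⟨t, rfl⟩ v fun b hb => ?_
    induction hb using Submodule.span_induction with
    | mem b hb =>
      have hb' : b ∈ V ^ M := ht ▸ Submodule.subset_span hb
      refine hYN (hM ?_)
      rw [pow_succ', smul_eq_mul]
      exact Submodule.mul_mem_mul hv hb'
    | zero => simp
    | add a b _ _ ha hb => rw [smul_add]; exact N.add_mem ha hb
    | smul c a _ ha => rw [smul_comm]; exact N.smul_mem c ha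
  let I : Submodule ℂ K := Subalgebra.toSubmodule ((integralClosure A K).restrictScalars ℂ)
  have hj : ∀ j, V ^ j ≤ I := by
    intro j
    induction j with
    | zero => rw [pow_zero, Submodule.one_le]; exact isIntegral_one
    | succ j ih =>
      rw [pow_succ, Submodule.mul_le]
      exact fun a ha b hb => IsIntegral.mul (ih ha) (hv b hb)
  exact hj j hf

/-- a reduction makes the coordinates a transcendence basis -/
theorem red_basis {K : Type} [Field K] [Algebra ℂ K] {n : ℕ} (hn : Algebra.trdeg ℂ K = n)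
    (z : Fin n → K) (V : Submodule ℂ K) [Module.Finite ℂ V] (h1 : (1 : K) ∈ V) (M : ℕ)
    (hM : V ^ (M + 1) ≤ Submodule.span ℂ (insert 1 (Set.range z)) * V ^ M)
    (hK : ∀ x : K, ∃ j, ∃ a ∈ V ^ j, ∃ b ∈ V ^ j, x = a / b) :
    IsTranscendenceBasis ℂ z := by
  have : Algebra.IsAlgebraic (Algebra.adjoin ℂ (Set.range z)) K := ⟨fun x => by
    obtain ⟨j, a, ha, b, hb, rfl⟩ := hK x
    rw [div_eq_mul_inv]
    exact (red_integral z V h1 M hM j a ha).isAlgebraic.mul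
      (IsAlgebraic.inv_iff.mpr (red_integral z V h1 M hM j b hb).isAlgebraic)⟩
  exact Algebra.IsAlgebraic.isTranscendenceBasis_of_le_trdeg_of_finite ℂ z (by simp [hn])

/-- a reduction makes the coordinates algebraically independent -/
theorem red_indep {K : Type} [Field K] [Algebra ℂ K] {n : ℕ} (hn : Algebra.trdeg ℂ K = n)
    (z : Fin n → K) (V : Submodule ℂ K) [Module.Finite ℂ V] (h1 : (1 : K) ∈ V) (M : ℕ)
    (hM : V ^ (M + 1) ≤ Submodule.span ℂ (insert 1 (Set.range z)) * V ^ M)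
    (hK : ∀ x : K, ∃ j, ∃ a ∈ V ^ j, ∃ b ∈ V ^ j, x = a / b) :
    AlgebraicIndependent ℂ z :=
  (red_basis hn z V h1 M hM hK).1

end Pool.Agent.Lib.MP_9ff3e7_ag.F
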