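import Pool.Agent.Lib.MP_9ff3e7_ag.F.Chain

/-! Linear Noether normalisation in reduction form, keeping a given quotient spanned. -/

set_option autoImplicit false

namespace Pool.Agent.Lib.MP_9ff3e7_ag.F

open MvPolynomial

namespace XLin

open Module Submodule

variable {S : Type} [CommRing S] [Algebra ℂ S]

theorem pow_red {E Y : Submodule ℂ S} {M : ℕ} (h : E ^ (M + 1) ≤ Y * E ^ M) (j : ℕ) :
    E ^ (M + j) ≤ Y ^ j * E ^ M := by
  induction j with
  | zero => simp
  | succ j ih =>
    calc E ^ (M + (j + 1)) = E ^ (M + j) * E := by rw [← pow_succ, add_assoc]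
      _ ≤ Y ^ j * E ^ M * E := by gcongr
      _ = Y ^ j * E ^ (M + 1) := by rw [mul_assoc, ← pow_succ]
      _ ≤ Y ^ j * (Y * E ^ M) := by gcongr
      _ = Y ^ (j + 1) * E ^ M := by rw [pow_succ, mul_assoc]

/-- the part of `Y ^ s` that involves `Y'` -/
def lowPart (Y' Y : Submodule ℂ S) : ℕ → Submodule ℂ S
  | 0 => ⊥
  | s + 1 => Y' * Y ^ s

theorem low_step {Y' Y : Submodule ℂ S} {w : S} (hw : w ∈ Y) {s : ℕ} {a m : S} {r c : ℂ}
    (ha : a ∈ Y ^ s) (h : a - r • w ^ s ∈ lowPart Y' Y s) (hm : m - c • w ∈ Y') :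
    m * a - (c * r) • w ^ (s + 1) ∈ lowPart Y' Y (s + 1) := by
  have e : m * a - (c * r) • w ^ (s + 1) = (m - c • w) * a + c • ((a - r • w ^ s) * w) := by
    simp only [Algebra.smul_def, map_mul]; ring
  rw [e]
  refine add_mem (mul_mem_mul hm ha) (smul_mem _ _ ?_)
  cases s with
  | zero =>
    have : a - r • w ^ 0 = 0 := h
    rw [this]; simp
  | succ s =>
    have h' : a - r • w ^ (s + 1) ∈ Y' * Y ^ s := h
    have := mul_mem_mul h' hw
    rw [mul_assoc, ← pow_succ] at this
    exact this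

theorem drop_one {d : ℕ} (y : Fin (d + 1) → S) {s : ℕ} {G : MvPolynomial (Fin (d + 1)) ℂ}
    (hG : G.IsHomogeneous s) (h0 : aeval y G = 0) (c : Fin (d + 1) → ℂ)
    (hc1 : eval c G ≠ 0) (hc0 : c 0 ≠ 0) :
    ∃ t : ℕ, span ℂ (Set.range y) ^ (t + 1) ≤
      span ℂ (Set.range fun i : Fin d => y i.succ - c i.succ • ((c 0)⁻¹ • y 0)) *
        span ℂ (Set.range y) ^ t := by
  classical
  set Y := span ℂ (Set.range y) with hY
  set w : S := (c 0)⁻¹ • y 0 with hw
  have hyY : ∀ i, y i ∈ Y := fun i => subset_span ⟨i, rfl⟩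
  have hwY : w ∈ Y := smul_mem _ _ (hyY 0)
  set Y' := span ℂ (Set.range fun i : Fin d => y i.succ - c i.succ • w) with hY'
  have hy : ∀ i, y i - c i • w ∈ Y' := by
    intro i
    refine Fin.cases ?_ (fun i => subset_span ⟨i, rfl⟩) i
    rw [hw, smul_smul, mul_inv_cancel₀ hc0, one_smul, sub_self]
    exact zero_mem _
  have hlin : ∀ m ∈ span ℂ (Set.range (X : Fin (d + 1) → MvPolynomial (Fin (d + 1)) ℂ)),
      aeval y m ∈ Y ∧ aeval y m - eval c m • w ∈ Y' := by
    intro m hm
    induction hm using span_induction with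
    | mem x hx => obtain ⟨i, rfl⟩ := hx; simpa using ⟨hyY i, hy i⟩
    | zero => simp
    | add a b _ _ ha hb =>
      refine ⟨by rw [map_add]; exact add_mem ha.1 hb.1, ?_⟩
      have := add_mem ha.2 hb.2
      rw [map_add, map_add, add_smul, ← sub_add_sub_comm]
      exact this
    | smul r a _ ha =>
      refine ⟨by rw [map_smul]; exact smul_mem _ _ ha.1, ?_⟩
      have := smul_mem _ r ha.2
      rw [map_smul, smul_eval, mul_smul, ← smul_sub]
      exact this
  have key : ∀ (n : ℕ) (F : MvPolynomial (Fin (d + 1)) ℂ),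
      F ∈ span ℂ (Set.range (X : Fin (d + 1) → MvPolynomial (Fin (d + 1)) ℂ)) ^ n →
      aeval y F ∈ Y ^ n ∧ aeval y F - eval c F • w ^ n ∈ lowPart Y' Y n := by
    intro n F hF
    induction hF using Submodule.pow_induction_on_left' with
    | algebraMap r =>
      refine ⟨by simp [Algebra.algebraMap_eq_smul_one, smul_mem, one_le.1], ?_⟩
      change _ ∈ (⊥ : Submodule ℂ S)
      simp [Algebra.smul_def]
    | add a b i _ _ ha hb =>
      refine ⟨by rw [map_add]; exact add_mem ha.1 hb.1, ?_⟩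
      have := add_mem ha.2 hb.2
      rw [map_add, map_add, add_smul, ← sub_add_sub_comm]
      exact this
    | mem_mul m hm i x _ hx =>
      rw [map_mul, map_mul]
      refine ⟨?_, low_step hwY hx.1 hx.2 (hlin m hm).2⟩
      rw [Nat.succ_eq_add_one, pow_succ']
      exact mul_mem_mul (hlin m hm).1 hx.1
  have hGs : G ∈ span ℂ (Set.range (X : Fin (d + 1) → MvPolynomial (Fin (d + 1)) ℂ)) ^ s := by
    rw [← homogeneousSubmodule_one_eq_span_X, homogeneousSubmodule_one_pow]; exact hG
  have hws : w ^ s ∈ lowPart Y' Y s := by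
    have := (key s G hGs).2
    rw [h0, zero_sub] at this
    have h2 := smul_mem _ (eval c G)⁻¹ (neg_mem this)
    rwa [neg_neg, smul_smul, inv_mul_cancel₀ hc1, one_smul] at h2
  cases s with
  | zero =>
    have h10 : w ^ 0 = 0 := hws
    refine ⟨0, fun a _ => ?_⟩
    rw [← mul_one a, ← pow_zero w, h10, mul_zero]
    exact zero_mem _
  | succ t =>
    refine ⟨t, ?_⟩
    intro a ha
    have hmap : Y ^ (t + 1) = Submodule.map (aeval y).toLinearMap
        (span ℂ (Set.range (X : Fin (d + 1) → MvPolynomial (Fin (d + 1)) ℂ)) ^ (t + 1)) := by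
      have hf : (⇑(aeval y : MvPolynomial (Fin (d + 1)) ℂ →ₐ[ℂ] S).toLinearMap ∘ X) = y := by
        funext i; simp
      rw [Submodule.map_pow, map_span, ← Set.range_comp, hf]
    rw [hmap] at ha
    obtain ⟨F, hF, rfl⟩ := ha
    have h1 := (key _ F hF).2
    have h2 := add_mem h1 (smul_mem _ (eval c F) hws)
    rw [sub_add_cancel] at h2
    exact h2

theorem drop_span {J : Type} [AddCommGroup J] [Module ℂ J] {d : ℕ} (u : Fin (d + 1) → J)
    (hu : span ℂ (Set.range u) = ⊤) (a c : Fin (d + 1) → ℂ) (ha : ∑ i, a i • u i = 0)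
    (hac : ∑ i, a i * c i ≠ 0) (hc0 : c 0 ≠ 0) :
    span ℂ (Set.range fun i : Fin d => u i.succ - c i.succ • ((c 0)⁻¹ • u 0)) = ⊤ := by
  set w : J := (c 0)⁻¹ • u 0 with hw
  set U := span ℂ (Set.range fun i : Fin d => u i.succ - c i.succ • w) with hU
  have hy : ∀ i, u i - c i • w ∈ U := by
    intro i
    refine Fin.cases ?_ (fun i => subset_span ⟨i, rfl⟩) i
    rw [hw, smul_smul, mul_inv_cancel₀ hc0, one_smul, sub_self]
    exact zero_mem _
  have h1 : ∑ i, a i • (u i - c i • w) ∈ U := sum_mem fun i _ => smul_mem _ _ (hy i)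
  have h2 : ∑ i, a i • (u i - c i • w) = -((∑ i, a i * c i) • w) := by
    simp only [smul_sub, Finset.sum_sub_distrib, ha, smul_smul, Finset.sum_smul, zero_sub]
  rw [h2, neg_mem_iff] at h1
  have hwU : w ∈ U := by
    have h3 := smul_mem U (∑ i, a i * c i)⁻¹ h1
    rwa [smul_smul, inv_mul_cancel₀ hac, one_smul] at h3
  rw [eq_top_iff, ← hu, span_le]
  rintro _ ⟨i, rfl⟩
  have := add_mem (hy i) (smul_mem U (c i) hwU)
  rwa [sub_add_cancel] at this

end XLin

open Submodule in
/-- linear Noether normalisation (reduction form) keeping the 1-jets spanning -/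
theorem lin_nn {S J : Type} [CommRing S] [Algebra ℂ S] [AddCommGroup J] [Module ℂ J]
    (V : Submodule ℂ S) [Module.Finite ℂ V] (φ : V →ₗ[ℂ] J) (hφ : Function.Surjective φ)
    (m : ℕ) (hJ : Module.finrank ℂ J ≤ m)
    (hrel : ∀ l : Fin (m + 1) → V, ∃ d, ∃ f : MvPolynomial (Fin (m + 1)) ℂ,
      f ≠ 0 ∧ f.IsHomogeneous d ∧ aeval (fun i => (l i : S)) f = 0) :
    ∃ y : Fin m → V,
      (∃ M, V ^ (M + 1) ≤ Submodule.span ℂ (Set.range fun i => (y i : S)) * V ^ M) ∧
      Submodule.span ℂ (Set.range fun i => φ (y i)) = ⊤ := by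
  classical
  have : Module.Finite ℂ J := Module.Finite.of_surjective φ hφ
  have down : ∀ k, (∃ y : Fin (m + k) → V,
      (∃ M, V ^ (M + 1) ≤ span ℂ (Set.range fun i => (y i : S)) * V ^ M) ∧
      span ℂ (Set.range fun i => φ (y i)) = ⊤) → ∃ y : Fin m → V,
      (∃ M, V ^ (M + 1) ≤ span ℂ (Set.range fun i => (y i : S)) * V ^ M) ∧
      span ℂ (Set.range fun i => φ (y i)) = ⊤ := by
    intro k
    induction k with
    | zero => exact id
    | succ k ih =>
      rintro ⟨y, ⟨M, hM⟩, hy⟩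
      refine ih ?_
      change Fin (m + k + 1) → V at y
      have hle : m + 1 ≤ m + k + 1 := by omega
      obtain ⟨s, f, hf0, hfs, hf⟩ := hrel fun i => y (Fin.castLE hle i)
      have hG0 : rename (Fin.castLE hle) f ≠ 0 := fun h =>
        hf0 (rename_injective _ (Fin.castLE_injective hle) (by rw [h, map_zero]))
      have hGs : (rename (Fin.castLE hle) f).IsHomogeneous s := hfs.rename_isHomogeneous
      have hG : aeval (fun i => (y i : S)) (rename (Fin.castLE hle) f) = 0 := by
        rw [aeval_rename]; exact hf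
      have hdep : ¬ LinearIndependent ℂ fun i => φ (y i) := fun h => by
        have := h.fintype_card_le_finrank
        rw [Fintype.card_fin] at this
        omega
      obtain ⟨a, ha, j, hj⟩ := Fintype.not_linearIndependent_iff.1 hdep
      have hP : (∑ i, C (a i) * X i : MvPolynomial (Fin (m + k + 1)) ℂ) ≠ 0 := fun h => by
        have := congrArg (eval (Pi.single j (1 : ℂ))) h
        simp [Pi.single_apply] at this
        exact hj this
      have hne := mul_ne_zero (mul_ne_zero hG0 hP) (X_ne_zero (R := ℂ) (0 : Fin (m + k + 1)))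
      obtain ⟨c, hc⟩ : ∃ c : Fin (m + k + 1) → ℂ,
          eval c (rename (Fin.castLE hle) f * (∑ i, C (a i) * X i) * X 0) ≠ 0 := by
        by_contra hcon
        push Not at hcon
        exact hne (MvPolynomial.funext fun x => by rw [hcon x]; simp)
      rw [map_mul, map_mul, eval_X] at hc
      have hc0 : c 0 ≠ 0 := right_ne_zero_of_mul hc
      have hc1 := left_ne_zero_of_mul (left_ne_zero_of_mul hc)
      have hc2 : ∑ i, a i * c i ≠ 0 := by
        simpa using right_ne_zero_of_mul (left_ne_zero_of_mul hc)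
      obtain ⟨t, ht⟩ := XLin.drop_one (fun i => (y i : S)) hGs hG c hc1 hc0
      have hYV : span ℂ (Set.range fun i => (y i : S)) ≤ V :=
        span_le.2 (by rintro _ ⟨i, rfl⟩; exact (y i).2)
      refine ⟨fun i => y i.succ - c i.succ • ((c 0)⁻¹ • y 0), ⟨M + t, ?_⟩, ?_⟩
      · set Y := span ℂ (Set.range fun i => (y i : S))
        set Y' := span ℂ (Set.range fun i : Fin (m + k) =>
          (y i.succ : S) - c i.succ • ((c 0)⁻¹ • (y 0 : S)))
        change V ^ (M + t + 1) ≤ Y' * V ^ (M + t)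
        calc V ^ (M + t + 1) = V ^ (M + (t + 1)) := by rw [add_assoc]
          _ ≤ Y ^ (t + 1) * V ^ M := XLin.pow_red hM _
          _ ≤ Y' * Y ^ t * V ^ M := by gcongr
          _ ≤ Y' * V ^ t * V ^ M := by gcongr
          _ = Y' * V ^ (M + t) := by rw [mul_assoc, ← pow_add, add_comm]
      · simpa only [map_sub, map_smul] using XLin.drop_span (fun i => φ (y i)) hy a c ha hc2 hc0
  obtain ⟨n, y, hy⟩ := Module.Finite.exists_fin (R := ℂ) (M := V)
  have hy' : span ℂ (Set.range (Fin.append (fun _ : Fin m => (0 : V)) y)) = ⊤ := by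
    rw [eq_top_iff, ← hy]
    refine span_mono ?_
    rintro _ ⟨i, rfl⟩
    exact ⟨Fin.natAdd m i, by simp⟩
  refine down n ⟨Fin.append (fun _ => 0) y, ⟨0, ?_⟩, ?_⟩
  · have := congrArg (Submodule.map V.subtype) hy'
    rw [map_span, ← Set.range_comp, Submodule.map_top, range_subtype] at this
    rw [zero_add, pow_one, pow_zero, mul_one]
    exact this.ge
  · have := congrArg (Submodule.map φ) hy'
    rw [map_span, ← Set.range_comp, Submodule.map_top, LinearMap.range_eq_top.2 hφ] at this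
    exact this

/-- `n + 2` elements of a field of transcendence degree `n` satisfy a homogeneous relation -/
theorem hom_rel {K : Type} [Field K] [Algebra ℂ K] (n : ℕ) (hn : Algebra.trdeg ℂ K = n)
    (l : Fin (n + 1 + 1) → K) : ∃ d, ∃ f : MvPolynomial (Fin (n + 1 + 1)) ℂ,
      f ≠ 0 ∧ f.IsHomogeneous d ∧ aeval l f = 0 := by
  by_contra hcon
  have h : Chain.HInd l := fun s G hG h0 => by
    by_contra hne
    exact hcon ⟨s, G, hne, hG, h0⟩
  have h0 : l 0 ≠ 0 := fun h0 =>
    X_ne_zero _ (h 1 (X 0) (isHomogeneous_X ℂ 0) (by simpa using h0))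
  have h' : Chain.HInd fun i => (l 0)⁻¹ * l i := fun s G hG hG0 => by
    rw [Chain.aeval_mul_hom hG] at hG0
    exact h s G hG ((mul_eq_zero.1 hG0).resolve_left (pow_ne_zero _ (inv_ne_zero h0)))
  have hi := (h'.algInd (inv_mul_cancel₀ h0)).cardinalMk_le_trdeg
  rw [hn, Cardinal.mk_fin, Nat.cast_le] at hi
  omega

end Pool.Agent.Lib.MP_9ff3e7_ag.F
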