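import Pool.Agent.Lib.MP_9ff3e7_ag.F.XJet
import Pool.Agent.Lib.MP_9ff3e7_ag.F.XLin
import Pool.Agent.Lib.MP_9ff3e7_ag.F.XGro
import Pool.Agent.Lib.MP_9ff3e7_ag.F.XEtA
import Pool.Agent.Lib.MP_9ff3e7_ag.F.XEtB
import Pool.Agent.Lib.MP_9ff3e7_ag.F.XEtC

/-! Every smooth point of `Proj S` has an etale chart with linear coordinates. -/

set_option autoImplicit false

namespace Pool.Agent.Lib.MP_9ff3e7_ag.F

open IsLocalRing MvPolynomial

noncomputable section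

variable {S : Type} [CommRing S] [IsDomain S] [Algebra ℂ S] {𝒜 : ℕ → Submodule ℂ S}
  [GradedAlgebra 𝒜]

namespace XC

theorem range_le {l : 𝒜 1} {q : Pt 𝒜} (hq : q.1 l ≠ 0) : (deh l).range ≤ loc q := by
  rintro _ ⟨a, rfl⟩
  exact deh_mem_loc hq a

/-- the local ring as an algebra over the ring of the affine piece `l ≠ 0` -/
abbrev algL {l : 𝒜 1} {q : Pt 𝒜} (hq : q.1 l ≠ 0) : Algebra (deh l).range (loc q) :=
  (Subalgebra.inclusion (range_le hq)).toAlgebra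

/-- the maximal ideal of the point -/
def idl {l : 𝒜 1} {q : Pt 𝒜} (hq : q.1 l ≠ 0) : Ideal (deh l).range :=
  RingHom.ker ((ev q).comp (Subalgebra.inclusion (range_le hq)))

theorem mem_idl {l : 𝒜 1} {q : Pt 𝒜} (hq : q.1 l ≠ 0) (a : S) :
    (deh l).rangeRestrict a ∈ idl hq ↔ ev q (dehL hq a) = 0 := Iff.rfl

instance {l : 𝒜 1} {q : Pt 𝒜} (hq : q.1 l ≠ 0) : (idl hq).IsMaximal :=
  RingHom.ker_isMaximal_of_surjective _ fun r => ⟨algebraMap ℂ _ r, by simp⟩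

theorem isLoc {l : 𝒜 1} {q : Pt 𝒜} (hq : q.1 l ≠ 0) :
    letI := algL hq
    IsLocalization.AtPrime (loc q) (idl hq) := by
  let := algL hq
  refine ⟨⟨fun y => isUnit_loc y.2, fun x => ?_, fun {x y} h => ⟨1, ?_⟩⟩⟩
  · obtain ⟨a, b, h1, h2⟩ := loc_frac hq x
    exact ⟨⟨(deh l).rangeRestrict a, (deh l).rangeRestrict b, h1⟩, h2⟩
  · rw [Subalgebra.inclusion_injective (range_le hq) h]

theorem ft (h : Gen1 𝒜) (l : 𝒜 1) : Algebra.FiniteType ℂ (deh l).range := by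
  obtain ⟨s, -, e⟩ := h
  have : Algebra.FiniteType ℂ S := ⟨s, e⟩
  exact this.of_surjective _ (deh l).rangeRestrict_surjective

theorem trdeg_range {l : 𝒜 1} (l0 : (l : S) ≠ 0) :
    Algebra.trdeg ℂ (deh l).range = Algebra.trdeg ℂ (Fn 𝒜) := by
  have : Algebra.IsAlgebraic (deh l).range (Fn 𝒜) := ⟨fun x => by
    obtain ⟨a, b, h1, rfl⟩ := frac_deh l0 x
    refine IsAlgebraic.of_mul (y := deh l b) (mem_nonZeroDivisors_of_ne_zero h1)
      (isAlgebraic_algebraMap ((deh l).rangeRestrict b)) ?_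
    rw [mul_div_cancel₀ _ h1]
    exact isAlgebraic_algebraMap ((deh l).rangeRestrict a)⟩
  rw [← trdeg_add_eq ℂ (deh l).range (A := Fn 𝒜), trdeg_eq_zero (R := (deh l).range), add_zero]

theorem exists_gens (h : Gen1 𝒜) {n : ℕ} (hn : Algebra.trdeg ℂ (Fn 𝒜) = n) (p : Pt 𝒜)
    (hsm : Algebra.FormallySmooth ℂ (loc p)) :
    ∃ t : Fin n → loc p, RingHom.ker (ev p) = Ideal.span (Set.range t) := by
  obtain ⟨l, hl, hq⟩ := p.2
  lift l to 𝒜 1 using hl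
  have l0 : (l : S) ≠ 0 := fun e => hq (by simp [e])
  let := algL hq
  have := isLoc hq
  have := ft h l
  have : IsScalarTower ℂ (deh l).range (loc p) := .of_algHom (Subalgebra.inclusion (range_le hq))
  rw [← max_loc]
  exact gens_of_smooth n ((trdeg_range l0).trans hn) (idl hq) (loc p)

theorem rel_forms {n : ℕ} (hn : Algebra.trdeg ℂ (Fn 𝒜) = n) {l : 𝒜 1} (l0 : (l : S) ≠ 0)
    (w : Fin (n + 1 + 1) → 𝒜 1) : ∃ d, ∃ f : MvPolynomial (Fin (n + 1 + 1)) ℂ,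
      f ≠ 0 ∧ f.IsHomogeneous d ∧ aeval (fun i => (w i : S)) f = 0 := by
  obtain ⟨d, f, h1, h2, h3⟩ := hom_rel n hn fun i => deh l (w i)
  refine ⟨d, f, h1, h2, by_contra fun e => deh_ne l0 (aeval_mem_gr w h2) e ?_⟩
  rw [← h3, ← AlgHom.comp_apply, comp_aeval]

theorem exists_forms0 (h : Gen1 𝒜) {n : ℕ} (hn : Algebra.trdeg ℂ (Fn 𝒜) = n) {p : Pt 𝒜}
    (hsm : Algebra.FormallySmooth ℂ (loc p)) {l : 𝒜 1} (hq : p.1 l ≠ 0) :
    ∃ y : Fin (n + 1) → 𝒜 1,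
      (∃ M, 𝒜 1 ^ (M + 1) ≤ Submodule.span ℂ (Set.range fun i => (y i : S)) * 𝒜 1 ^ M) ∧
      Submodule.span ℂ (Set.range fun i =>
        Ideal.Quotient.mk (RingHom.ker (ev p) ^ 2) (dehL hq (y i))) = ⊤ := by
  have l0 : (l : S) ≠ 0 := fun e => hq (by simp [e])
  obtain ⟨t, ht⟩ := exists_gens h hn p hsm
  have : Module.Finite ℂ (𝒜 1) := Module.Finite.iff_fg.2 (h.fg 1)
  let φ : 𝒜 1 →ₗ[ℂ] (loc p ⧸ RingHom.ker (ev p) ^ 2) :=
    ((Ideal.Quotient.mkₐ ℂ (RingHom.ker (ev p) ^ 2)).comp (dehL hq)).toLinearMap.comp (𝒜 1).subtype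
  have hφ : Function.Surjective φ := fun x => by
    obtain ⟨x, rfl⟩ := Ideal.Quotient.mk_surjective x
    obtain ⟨a, ha, h1⟩ := jet_surj h hq x
    exact ⟨⟨a, ha⟩, (Ideal.Quotient.eq.2 h1).symm⟩
  exact lin_nn (𝒜 1) φ hφ (n + 1) (jet_finrank _ t ht) (rel_forms hn l0)

/-- linear forms which give a finite projection, unramified at `p` -/
theorem exists_forms (h : Gen1 𝒜) {n : ℕ} (hn : Algebra.trdeg ℂ (Fn 𝒜) = n) (p : Pt 𝒜)
    (hsm : Algebra.FormallySmooth ℂ (loc p)) :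
    ∃ y : Fin (n + 1) → 𝒜 1, ∃ hp : p.1 (y 0) ≠ 0,
      (∃ M, 𝒜 1 ^ (M + 1) ≤ Submodule.span ℂ (Set.range fun i => (y i : S)) * 𝒜 1 ^ M) ∧
      RingHom.ker (ev p) ≤ Ideal.span (Set.range fun i : Fin n => dehL hp (y i.succ) -
        algebraMap ℂ (loc p) (ev p (dehL hp (y i.succ)))) ⊔ RingHom.ker (ev p) ^ 2 := by
  obtain ⟨l, hl, hq⟩ := p.2
  lift l to 𝒜 1 using hl
  obtain ⟨y, hM, hy⟩ := exists_forms0 h hn hsm hq
  obtain ⟨i, hi⟩ := jet_ne (ev p) (fun i => dehL hq (y i)) hy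
  obtain ⟨σ, hσ⟩ : ∃ σ : Equiv.Perm (Fin (n + 1)), σ 0 = i := ⟨Equiv.swap 0 i, by simp⟩
  subst hσ
  have hp : p.1 (y (σ 0)) ≠ 0 := by
    rw [ev_dehL hq (y _).2] at hi
    exact fun e => hi (by simp [e])
  have y0 : (y (σ 0) : S) ≠ 0 := fun e => hp (by simp [e])
  rw [← σ.surjective.range_comp] at hM hy
  exact ⟨fun j => y (σ j), hp, hM, jet_gens (ev p) (fun j => dehL hq (y (σ j))) hy (isUnit_loc hi)
    (fun j => dehL hp (y (σ j.succ))) fun j => Subtype.ext (deh_change y0 (y _).2)⟩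

omit [IsDomain S] [GradedAlgebra 𝒜] in
theorem map_red {O : Type} [CommRing O] [Algebra ℂ O] (φ : S →ₐ[ℂ] O) {n M : ℕ}
    (y : Fin (n + 1) → 𝒜 1) (h0 : φ (y 0) = 1)
    (hM : 𝒜 1 ^ (M + 1) ≤ Submodule.span ℂ (Set.range fun i => (y i : S)) * 𝒜 1 ^ M) :
    (𝒜 1).map φ.toLinearMap ^ (M + 1) ≤
      Submodule.span ℂ (insert 1 (Set.range fun i : Fin n => φ (y i.succ))) *
        (𝒜 1).map φ.toLinearMap ^ M := by
  have := Submodule.map_mono (f := φ.toLinearMap) hM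
  rw [Submodule.map_mul, Submodule.map_pow, Submodule.map_pow, Submodule.map_span,
    ← Set.range_comp, Fin.range_fin_succ] at this
  rw [← h0]
  exact this

theorem chart_red {n M : ℕ} (c : Chart 𝒜 n) (y : Fin (n + 1) → 𝒜 1) (h0 : c.l = y 0)
    (hz : ∀ i, c.z i = c.dh (y i.succ))
    (hM : 𝒜 1 ^ (M + 1) ≤ Submodule.span ℂ (Set.range fun i => (y i : S)) * 𝒜 1 ^ M) :
    c.fil 1 ^ (M + 1) ≤ Submodule.span ℂ (insert 1 (Set.range c.z)) * c.fil 1 ^ M := by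
  have hz' : c.z = fun i => c.dh (y i.succ) := funext hz
  rw [hz']
  exact map_red c.dh y (h0 ▸ c.dh_l) hM

theorem isLoc_aff {l : 𝒜 1} {g : S} (g0 : deh l g ≠ 0) :
    letI := (Subalgebra.inclusion (show (deh l).range ≤ aff l g by
      rintro _ ⟨a, rfl⟩; exact deh_mem_aff l g a)).toAlgebra
    IsLocalization.Away ((deh l).rangeRestrict g) (aff l g) := by
  have hle : (deh l).range ≤ aff l g := by
    rintro _ ⟨a, rfl⟩; exact deh_mem_aff l g a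
  let := (Subalgebra.inclusion hle).toAlgebra
  refine IsLocalization.Away.mk _ ?_ (fun x => ?_) fun x y h => ⟨0, ?_⟩
  · exact IsUnit.of_mul_eq_one ⟨(deh l g)⁻¹, Algebra.subset_adjoin (Or.inl rfl)⟩
      (Subtype.ext (mul_inv_cancel₀ g0))
  · obtain ⟨a, i, e⟩ := (mem_aff g0).1 x.2
    exact ⟨i, (deh l).rangeRestrict a, Subtype.ext e⟩
  · rw [Subalgebra.inclusion_injective hle h]

end XC

open XC in
/-- the strong form: linear coordinates, finite over the polynomial ring -/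
theorem exists_chart_lin (h : Gen1 𝒜) {n : ℕ} (hn : Algebra.trdeg ℂ (Fn 𝒜) = n) (p : Pt 𝒜)
    (hsm : Algebra.FormallySmooth ℂ (loc p)) {j : ℕ} {f : S} (hf : f ∈ 𝒜 j) (hp : p.1 f ≠ 0) :
    ∃ c : Chart 𝒜 n, c.In p ∧ (∀ q, c.In q → q.1 f ≠ 0) ∧ (∀ i, c.z i ∈ c.fil 1) ∧
      (∃ M, c.fil 1 ^ (M + 1) ≤ Submodule.span ℂ (insert 1 (Set.range c.z)) * c.fil 1 ^ M) ∧
      c.pres.f = minpoly (MvPolynomial (Fin n) ℂ) c.pres.x := by
  obtain ⟨y, hq, ⟨M, hM⟩, hj⟩ := exists_forms h hn p hsm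
  have l0 : (y 0 : S) ≠ 0 := fun e => hq (by simp [e])
  have hfin : Module.Finite ℂ ((𝒜 1).map (deh (y 0)).toLinearMap) :=
    Module.Finite.iff_fg.2 ((h.fg 1).map _)
  have hind : AlgebraicIndependent ℂ fun i : Fin n => deh (y 0) (y i.succ) := by
    refine red_indep hn _ ((𝒜 1).map (deh (y 0)).toLinearMap) ⟨y 0, (y 0).2, deh_self l0⟩ M
      (map_red _ y (deh_self l0) hM) fun x => ?_
    obtain ⟨a, b, -, rfl⟩ := frac_deh l0 x
    obtain ⟨e, he⟩ := exists_form l0 a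
    obtain ⟨e', he'⟩ := exists_form l0 b
    obtain ⟨a', h1, h2⟩ := he _ (le_max_left e e')
    obtain ⟨b', h3, h4⟩ := he' _ (le_max_right e e')
    rw [h.eq_pow] at h1 h3
    exact ⟨max e e', _, by rw [← Submodule.map_pow]; exact ⟨a', h1, h2⟩, _,
      by rw [← Submodule.map_pow]; exact ⟨b', h3, h4⟩, rfl⟩
  let φ : MvPolynomial (Fin n) ℂ →ₐ[ℂ] (deh (y 0)).range :=
    aeval fun i => (deh (y 0)).rangeRestrict (y i.succ)
  let := φ.toAlgebra
  have : IsScalarTower ℂ (MvPolynomial (Fin n) ℂ) (deh (y 0)).range := .of_algHom φ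
  have := ft h (y 0)
  have : Algebra.FiniteType (MvPolynomial (Fin n) ℂ) (deh (y 0)).range :=
    .of_restrictScalars_finiteType ℂ _ _
  have : FaithfulSMul (MvPolynomial (Fin n) ℂ) (deh (y 0)).range := by
    rw [faithfulSMul_iff_algebraMap_injective]
    refine Function.Injective.of_comp (f := (deh (y 0)).range.val) ?_
    have e : (deh (y 0)).range.val.comp φ = aeval fun i : Fin n => deh (y 0) (y i.succ) := by
      ext i : 1
      simp [φ]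
    change Function.Injective ((deh (y 0)).range.val.comp φ)
    rw [e]
    exact hind
  let := algL hq
  have := isLoc hq
  have e1 : ∀ (i : Fin n) (r : ℂ), algebraMap (deh (y 0)).range (loc p)
      (algebraMap (MvPolynomial (Fin n) ℂ) (deh (y 0)).range (X i - C r)) =
      dehL hq (y i.succ) - algebraMap ℂ (loc p) r := fun i r => by
    change Subalgebra.inclusion (range_le hq) (φ _) = _
    rw [map_sub, map_sub, aeval_X, aeval_C, AlgHom.commutes]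
    rfl
  have := unram_of_gens (idl hq) (loc p) (fun i => ev p (dehL hq (y i.succ)))
    (fun i => by
      change ev p (algebraMap (deh (y 0)).range (loc p) _) = 0
      rw [e1]
      simp)
    (by simpa only [e1, max_loc] using hj)
  have evn : ∀ {q : Pt 𝒜} (hq : q.1 (y 0) ≠ 0) {i : ℕ} {a : S}, a ∈ 𝒜 i →
      ((deh (y 0)).rangeRestrict a ∉ idl hq ↔ q.1 a ≠ 0) := fun hq i a ha => by
    rw [mem_idl, ev_dehL hq ha]
    simp [hq]
  obtain ⟨⟨_, a, rfl⟩, h1, h2, h3⟩ := std_of_unram (R := MvPolynomial (Fin n) ℂ) (idl hq)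
    ((deh (y 0)).rangeRestrict f) ((evn hq hf).2 hp)
  obtain ⟨e, he⟩ := exists_form l0 a
  obtain ⟨g, hg, e2⟩ := he e le_rfl
  have e3 : (⟨(deh (y 0)).toRingHom a, a, rfl⟩ : (deh (y 0)).range) =
      (deh (y 0)).rangeRestrict g := Subtype.ext e2.symm
  rw [e3] at h1 h2 h3
  have pg := (evn hq hg).1 h1
  have g0 : g ≠ 0 := fun e => pg (by simp [e])
  have hle : (deh (y 0)).range ≤ aff (y 0) g := by
    rintro _ ⟨a, rfl⟩; exact deh_mem_aff _ g a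
  let := (Subalgebra.inclusion hle).toAlgebra
  let alg := ((Subalgebra.inclusion hle).comp φ).toAlgebra
  have tower : IsScalarTower ℂ (MvPolynomial (Fin n) ℂ) (aff (y 0) g) :=
    .of_algHom ((Subalgebra.inclusion hle).comp φ)
  have : IsScalarTower (MvPolynomial (Fin n) ℂ) (deh (y 0)).range (aff (y 0) g) :=
    .of_algebraMap_eq fun _ => rfl
  have := isLoc_aff (deh_ne l0 hg g0)
  obtain ⟨E, hE⟩ := h3 (aff (y 0) g)
  let c : Chart 𝒜 n := ⟨y 0, e, g, hg, l0, g0, E⟩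
  have hz : ∀ i, c.z i = c.dh (y i.succ) := fun i => by
    change Subalgebra.inclusion hle (φ _) = _
    rw [aeval_X]
    rfl
  refine ⟨c, ⟨hq, pg⟩, fun q hc => ?_, fun i => hz i ▸ c.dh_mem_fil (y _).2, ⟨M, ?_⟩, hE⟩
  · exact (evn hc.1 hf).1 fun e => (evn hc.1 hg).2 hc.2 (Ideal.mem_of_dvd _ h2 e)
  · exact chart_red c y rfl hz hM

theorem exists_chart (h : Gen1 𝒜) {n : ℕ} (hn : Algebra.trdeg ℂ (Fn 𝒜) = n) (p : Pt 𝒜)
    (hsm : Algebra.FormallySmooth ℂ (loc p)) {j : ℕ} {f : S} (hf : f ∈ 𝒜 j) (hp : p.1 f ≠ 0) :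
    ∃ c : Chart 𝒜 n, c.In p ∧ ∀ q, c.In q → q.1 f ≠ 0 := by
  obtain ⟨c, h1, h2, -⟩ := exists_chart_lin h hn p hsm hf hp
  exact ⟨c, h1, h2⟩

end

end Pool.Agent.Lib.MP_9ff3e7_ag.F
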