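import Pool.Agent.Lib.MP_9ff3e7_ag.F.KDefs
import Pool.Agent.Lib.MP_9ff3e7_ag.F.SheetA

/-! Every standard étale presentation carries a model; basic facts on sheets. -/

set_option autoImplicit false

namespace Pool.Agent.Lib.MP_9ff3e7_ag.F

open Filter Topology MeasureTheory

variable {n : ℕ} {O : Type} [CommRing O] [Algebra ℂ O] [Algebra (MvPolynomial (Fin n) ℂ) O]

theorem tendsto_nhd_apply (p : Pnt O) (f : O) : Tendsto (fun y : Pnt O => y f) (nhd p) (𝓝 (p f)) :=
  ((continuous_apply f).tendsto (p : O → ℂ)).comp tendsto_comap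

theorem tendsto_nhd_iff {α : Type*} {l : Filter α} {g : α → Pnt O} {p : Pnt O} :
    Tendsto g l (nhd p) ↔ ∀ f : O, Tendsto (fun a => g a f) l (𝓝 (p f)) := by
  rw [nhd, tendsto_comap_iff, tendsto_pi_nhds]; rfl

theorem tendsto_nhd_zz (p : Pnt O) : Tendsto (zz n) (nhd p) (𝓝 (zz n p)) :=
  tendsto_pi_nhds.2 fun i => tendsto_nhd_apply p (zc n O i)

theorem self_of_nhd {p : Pnt O} {P : Pnt O → Prop} (h : ∀ᶠ y in nhd p, P y) : P p := by
  rw [nhd, eventually_comap] at h
  exact h.self_of_nhds p rfl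

theorem eventually_nhd_nhd {p : Pnt O} {P : Pnt O → Prop} (h : ∀ᶠ y in nhd p, P y) :
    ∀ᶠ y in nhd p, ∀ᶠ y' in nhd y, P y' := by
  simp only [nhd, eventually_comap] at h ⊢
  filter_upwards [h.eventually_nhds] with u hu y hy
  subst hy
  exact hu

theorem exists_model [IsScalarTower ℂ (MvPolynomial (Fin n) ℂ) O]
    (E : StandardEtalePresentation (MvPolynomial (Fin n) ℂ) O) : ∃ M : Model n O, M.E = E := by
  choose σ h0 h1 h2 h3 using SheetA.exists_sheet E
  have hz : ∀ y : Pnt O, SheetA.zc n y = zz n y := fun _ => rfl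
  simp only [hz] at h0 h1 h2 h3
  have opn : ∀ p, ∀ᶠ y in nhd p, σ p (zz n y) = y := fun p =>
    (((tendsto_nhd_zz p).prodMk_nhds (tendsto_nhd_apply p E.x)).eventually (h3 p)).mono
      fun y hy => hy y rfl
  refine ⟨⟨E, σ, h0, h1, h2, fun p => ?_, opn⟩, rfl⟩
  filter_upwards [(h1 p).eventually_nhds, h2 p] with w hw ha
  have ht : Tendsto (σ p) (𝓝 w) (nhd (σ p w)) :=
    tendsto_nhd_iff.2 fun f => (ha f).continuousAt
  filter_upwards [ht.eventually (opn (σ p w)), hw] with w' a b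
  rwa [b] at a

namespace Model

variable (M : Model n O)

theorem tendsto_sg_self (p : Pnt O) : Tendsto (M.sg p) (𝓝 (zz n p)) (nhd p) :=
  tendsto_nhd_iff.2 fun f => by
    have := ((M.an p).self_of_nhds f).continuousAt.tendsto
    rwa [M.base] at this

theorem tendsto_sg_apply (p : Pnt O) (f : O) :
    Tendsto (fun w => M.sg p w f) (𝓝 (zz n p)) (𝓝 (p f)) :=
  (tendsto_nhd_apply p f).comp (M.tendsto_sg_self p)

/-- a property holds near `p` iff it holds on the sheet near `z p` -/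
theorem eventually_nhd_iff (p : Pnt O) (P : Pnt O → Prop) :
    (∀ᶠ y in nhd p, P y) ↔ ∀ᶠ w in 𝓝 (zz n p), P (M.sg p w) := by
  refine ⟨fun h => (M.tendsto_sg_self p).eventually h, fun h => ?_⟩
  filter_upwards [(tendsto_nhd_zz p).eventually h, M.opn p] with y a b
  rwa [b] at a

/-- near `p` the sheets of nearby points agree with the sheet of `p` -/
theorem sg_near (p : Pnt O) : ∀ᶠ y in nhd p, M.sg y =ᶠ[𝓝 (zz n y)] M.sg p := by
  rw [M.eventually_nhd_iff]
  filter_upwards [M.comp p, M.sec p] with w a b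
  rwa [b]

/-- one ball on which the sheet is an analytic section compatible with all nearby sheets -/
theorem exists_ball (p : Pnt O) : ∃ r > 0, ∀ w ∈ Metric.ball (zz n p) r,
    zz n (M.sg p w) = w ∧ (∀ f : O, AnalyticAt ℂ (fun w' => M.sg p w' f) w) ∧
      M.sg (M.sg p w) =ᶠ[𝓝 w] M.sg p := by
  obtain ⟨r, hr, h⟩ := Metric.eventually_nhds_iff_ball.1 ((M.sec p).and ((M.an p).and (M.comp p)))
  exact ⟨r, hr, h⟩

end Model

end Pool.Agent.Lib.MP_9ff3e7_ag.F
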