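import Pool.Agent.Lib.MP_9ff3e7_ag.F.GEmb
import Pool.Agent.Lib.MP_9ff3e7_ag.F.K0
import Pool.Agent.Lib.MP_9ff3e7_ag.F.Riem

/-! A square integrable quotient is regular. -/

set_option autoImplicit false

namespace Pool.Agent.Lib.MP_9ff3e7_ag.F

open MeasureTheory MvPolynomial Metric Filter Topology Asymptotics

namespace XReg

lemma taylor_poly {n : ℕ} {h : (Fin n → ℂ) → ℂ} {z : Fin n → ℂ} (hh : AnalyticAt ℂ h z) (N : ℕ) :
    ∃ q : MvPolynomial (Fin n) ℂ,
      (fun w => h (z + w) - eval w q) =O[𝓝 0] fun w : Fin n → ℂ => ‖w‖ ^ N := by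
  classical
  obtain ⟨s, hs⟩ := hh
  refine ⟨∑ k ∈ Finset.range N, ∑ r : Fin k → Fin n,
    (∏ j, X (r j)) * C (s k fun j => Pi.single (r j) 1), ?_⟩
  refine (hs.isBigO_sub_partialSum_pow N).congr_left fun w => ?_
  congr 1
  rw [FormalMultilinearSeries.partialSum, map_sum]
  refine Finset.sum_congr rfl fun k _ => ?_
  have e : (fun _ : Fin k => w) = fun _ => ∑ i, w i • (Pi.single i 1 : Fin n → ℂ) := by
    funext _ i
    simp [Finset.sum_apply, Pi.single_apply]
  rw [e, ContinuousMultilinearMap.map_sum, map_sum]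
  refine Finset.sum_congr rfl fun r _ => ?_
  rw [ContinuousMultilinearMap.map_smul_univ]
  simp

lemma hom_zero {n N : ℕ} {q : MvPolynomial (Fin n) ℂ} (hq : q.IsHomogeneous N)
    (h : (fun w => eval w q) =O[𝓝 0] fun w : Fin n → ℂ => ‖w‖ ^ (N + 1)) : q = 0 := by
  refine MvPolynomial.funext fun v => ?_
  have ht : Tendsto (fun t : ℂ => t • v) (𝓝[≠] 0) (𝓝 0) := by
    have : Continuous fun t : ℂ => t • v := by fun_prop
    simpa using (this.tendsto 0).mono_left nhdsWithin_le_nhds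
  obtain ⟨c, hc⟩ := (h.comp_tendsto ht).bound
  have h1 : ∀ᶠ t : ℂ in 𝓝[≠] 0, ‖eval v q‖ ≤ c * ‖v‖ ^ (N + 1) * ‖t‖ := by
    filter_upwards [hc, self_mem_nhdsWithin] with t h2 h3
    have h4 : eval (t • v) q = t ^ N * eval v q := by
      conv_lhs => rw [q.as_sum]
      conv_rhs => rw [q.as_sum]
      rw [map_sum, map_sum, Finset.mul_sum]
      refine Finset.sum_congr rfl fun e he => ?_
      have h5 : ∑ i, e i = N := by
        rw [← Finsupp.degree_eq_sum, ← hq (mem_support_iff.1 he), Finsupp.degree_eq_weight_one]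
        rfl
      rw [eval_monomial, eval_monomial, Finsupp.prod_fintype _ _ fun _ => pow_zero _,
        Finsupp.prod_fintype _ _ fun _ => pow_zero _]
      simp only [Pi.smul_apply, smul_eq_mul, mul_pow, Finset.prod_mul_distrib,
        Finset.prod_pow_eq_pow_sum, h5]
      ring
    have h6 : 0 < ‖t‖ ^ N := pow_pos (norm_pos_iff.2 h3) N
    simp only [Function.comp, h4, norm_mul, norm_pow, norm_norm, norm_smul, mul_pow] at h2
    refine le_of_mul_le_mul_left (h2.trans_eq ?_) h6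
    ring
  have h2 : Tendsto (fun t : ℂ => c * ‖v‖ ^ (N + 1) * ‖t‖) (𝓝[≠] 0) (𝓝 0) := by
    have : Continuous fun t : ℂ => c * ‖v‖ ^ (N + 1) * ‖t‖ := by fun_prop
    simpa using (this.tendsto 0).mono_left nhdsWithin_le_nhds
  simpa using ge_of_tendsto h2 h1

variable {n : ℕ} {O : Type} [CommRing O] [Algebra ℂ O]
  [Algebra (MvPolynomial (Fin n) ℂ) O] [IsScalarTower ℂ (MvPolynomial (Fin n) ℂ) O]

variable (n) in
/-- polynomials in the coordinates centred at `p` -/
noncomputable def cen (p : Pnt O) : MvPolynomial (Fin n) ℂ →ₐ[ℂ] O :=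
  aeval fun i => zc n O i - algebraMap ℂ O (p (zc n O i))

lemma hom_one (M : Model n O) (p : Pnt O) (s : O) (hs : s ∈ RingHom.ker p) :
    ∃ l : MvPolynomial (Fin n) ℂ, l.IsHomogeneous 1 ∧ s - cen n p l ∈ RingHom.ker p ^ 2 := by
  have hc : ∀ g : O, g - algebraMap ℂ O (p g) ∈ RingHom.ker p := fun g => by
    simp [RingHom.mem_ker]
  have key : ∀ x ∈ mz n p, x ∈ RingHom.ker p ∧
      ∃ l : MvPolynomial (Fin n) ℂ, l.IsHomogeneous 1 ∧ x - cen n p l ∈ RingHom.ker p ^ 2 := by
    intro x hx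
    induction hx using Submodule.span_induction with
    | mem x hx =>
      obtain ⟨i, -, rfl⟩ := hx
      exact ⟨hc _, X i, isHomogeneous_X ℂ i, by simp [cen]⟩
    | zero => exact ⟨zero_mem _, 0, isHomogeneous_zero _ _ _, by simp⟩
    | add x y _ _ hx hy =>
      obtain ⟨h1, l, h2, h3⟩ := hx
      obtain ⟨h4, l', h5, h6⟩ := hy
      refine ⟨add_mem h1 h4, l + l', h2.add h5, ?_⟩
      convert add_mem h3 h6 using 1
      rw [map_add]
      ring
    | smul g x _ hx =>
      obtain ⟨h1, l, h2, h3⟩ := hx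
      refine ⟨Ideal.mul_mem_left _ _ h1, C (p g) * l, h2.C_mul _, ?_⟩
      have h4 : (g - algebraMap ℂ O (p g)) * x ∈ RingHom.ker p ^ 2 := by
        rw [pow_two]
        exact Ideal.mul_mem_mul (hc g) h1
      convert add_mem h4 (Ideal.mul_mem_left _ (algebraMap ℂ O (p g)) h3) using 1
      rw [map_mul, algHom_C, smul_eq_mul]
      ring
  obtain ⟨u, hu, h⟩ := M.kerle p
  obtain ⟨-, l, h2, h3⟩ := key _ (h s hs)
  refine ⟨C (p u)⁻¹ * l, h2.C_mul _, ?_⟩
  have h4 : (u - algebraMap ℂ O (p u)) * s ∈ RingHom.ker p ^ 2 := by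
    rw [pow_two]
    exact Ideal.mul_mem_mul (hc u) hs
  have h5 : algebraMap ℂ O (p u)⁻¹ * algebraMap ℂ O (p u) = 1 := by
    rw [← map_mul, inv_mul_cancel₀ hu, map_one]
  convert Ideal.mul_mem_left _ (algebraMap ℂ O (p u)⁻¹) (sub_mem h3 h4) using 1
  rw [map_mul, algHom_C]
  linear_combination (-s) * h5

lemma hom_pow (M : Model n O) (p : Pnt O) (N : ℕ) : ∀ f ∈ RingHom.ker p ^ N,
    ∃ q : MvPolynomial (Fin n) ℂ, q.IsHomogeneous N ∧ f - cen n p q ∈ RingHom.ker p ^ (N + 1) := by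
  induction N with
  | zero => exact fun f _ => ⟨C (p f), isHomogeneous_C _ _, by simp [RingHom.mem_ker]⟩
  | succ N ih =>
    intro f hf
    rw [pow_succ] at hf
    refine Submodule.mul_induction_on hf (fun g hg s hs => ?_) fun x y hx hy => ?_
    · obtain ⟨q, h1, h2⟩ := ih g hg
      obtain ⟨l, h3, h4⟩ := hom_one M p s hs
      refine ⟨q * l, h1.mul h3, ?_⟩
      have h5 : g * (s - cen n p l) ∈ RingHom.ker p ^ (N + 1 + 1) := by
        rw [add_assoc, pow_add]
        exact Ideal.mul_mem_mul hg h4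
      have h6 : cen n p l ∈ RingHom.ker p := by
        simpa using sub_mem hs (Ideal.pow_le_self two_ne_zero h4)
      have h7 : (g - cen n p q) * cen n p l ∈ RingHom.ker p ^ (N + 1 + 1) := by
        rw [pow_succ]
        exact Ideal.mul_mem_mul h2 h6
      convert add_mem h5 h7 using 1
      rw [map_mul]
      ring
    · obtain ⟨q, h1, h2⟩ := hx
      obtain ⟨q', h3, h4⟩ := hy
      refine ⟨q + q', h1.add h3, ?_⟩
      convert add_mem h2 h4 using 1
      rw [map_add]
      ring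

omit [IsScalarTower ℂ (MvPolynomial (Fin n) ℂ) O] in
lemma tend (p : Pnt O) : Tendsto (fun w : Fin n → ℂ => zz n p + w) (𝓝 0) (𝓝 (zz n p)) := by
  have : Continuous fun w : Fin n → ℂ => zz n p + w := by fun_prop
  simpa using this.tendsto 0

omit [IsScalarTower ℂ (MvPolynomial (Fin n) ℂ) O] in
lemma sg_cen (M : Model n O) (p : Pnt O) :
    ∀ᶠ w in 𝓝 (0 : Fin n → ℂ), ∀ q, M.sg p (zz n p + w) (cen n p q) = eval w q := by
  filter_upwards [(tend p).eventually (M.sec p)] with w hw q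
  have : (M.sg p (zz n p + w)).comp (cen n p) = aeval w := by
    ext i
    have := congrFun hw i
    simp only [zz, Pi.add_apply] at this
    simp [cen, this]
  have h := DFunLike.congr_fun this q
  exact h

omit [IsScalarTower ℂ (MvPolynomial (Fin n) ℂ) O] in
lemma bdd (M : Model n O) (p : Pnt O) (f : O) :
    (fun w => M.sg p (zz n p + w) f) =O[𝓝 0] fun _ : Fin n → ℂ => (1 : ℝ) :=
  (((M.an p).self_of_nhds f).continuousAt.tendsto.comp (tend p)).isBigO_one ℝ

omit [IsScalarTower ℂ (MvPolynomial (Fin n) ℂ) O] in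
lemma bigO_of_mem (M : Model n O) (p : Pnt O) (N : ℕ) : ∀ f ∈ RingHom.ker p ^ N,
    (fun w => M.sg p (zz n p + w) f) =O[𝓝 0] fun w : Fin n → ℂ => ‖w‖ ^ N := by
  induction N with
  | zero => exact fun f _ => by simpa using bdd M p f
  | succ N ih =>
    intro f hf
    rw [pow_succ] at hf
    refine Submodule.mul_induction_on hf (fun g hg s hs => ?_) fun x y hx hy => ?_
    · have h1 := (((M.an p).self_of_nhds s).differentiableAt.isBigO_sub).comp_tendsto (tend p)
      have h2 : (fun w => M.sg p (zz n p + w) s) =O[𝓝 0] fun w : Fin n → ℂ => ‖w‖ := by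
        refine (h1.congr (fun w => ?_) fun w => ?_).norm_right
        · simp [M.base p, RingHom.mem_ker.1 hs]
        · simp
      simpa [pow_succ] using (ih g hg).mul h2
    · simpa using hx.add hy

lemma mem_of_bigO (M : Model n O) (p : Pnt O) (N : ℕ) (f : O)
    (h : (fun w => M.sg p (zz n p + w) f) =O[𝓝 0] fun w : Fin n → ℂ => ‖w‖ ^ N) :
    f ∈ RingHom.ker p ^ N := by
  induction N with
  | zero => simp
  | succ N ih =>
    have h1 : (fun w : Fin n → ℂ => ‖w‖ ^ (N + 1)) =O[𝓝 0] fun w => ‖w‖ ^ N := by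
      have h2 : (fun w : Fin n → ℂ => ‖w‖) =O[𝓝 0] fun _ => (1 : ℝ) :=
        (continuous_norm.tendsto 0).isBigO_one ℝ
      simpa [pow_succ] using (isBigO_refl (fun w : Fin n → ℂ => ‖w‖ ^ N) (𝓝 0)).mul h2
    obtain ⟨q, h3, h4⟩ := hom_pow M p N f (ih (h.trans h1))
    have h5 : q = 0 := by
      refine hom_zero h3 ((h.sub (bigO_of_mem M p _ _ h4)).congr' ?_ EventuallyEq.rfl)
      filter_upwards [sg_cen M p] with w hw
      simp [hw]
    simpa [h5] using h4

end XReg

variable {n : ℕ} {O : Type} [CommRing O] [IsDomain O] [Algebra ℂ O]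
  [Algebra (MvPolynomial (Fin n) ℂ) O] [IsScalarTower ℂ (MvPolynomial (Fin n) ℂ) O]

open XReg in
theorem reg_of_l2 (M : Model n O) (p : Pnt O) (a b : O) (hb : b ≠ 0)
    (hi : ∃ U ∈ 𝓝 (zz n p), ∫⁻ w in U ∩ {w | M.sg p w b ≠ 0},
      ENNReal.ofReal (‖M.sg p w a / M.sg p w b‖ ^ 2) < ⊤) :
    ∃ c d : O, p d ≠ 0 ∧ a * d = b * c := by
  obtain ⟨U, hU, hi⟩ := hi
  obtain ⟨δ, hδ, hB⟩ := Metric.eventually_nhds_iff_ball.1 ((M.an p).and hU)
  obtain ⟨h, hh, hab⟩ := riemann_l2 (a := fun w => M.sg p w a) (b := fun w => M.sg p w b) hδ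
    (fun w hw => (hB w hw).1 a) (fun w hw => (hB w hw).1 b) (fun h => hb (sheet_id M p b h))
    (lt_of_le_of_lt (lintegral_mono_set (Set.inter_subset_inter_left _ fun w hw => (hB w hw).2)) hi)
  have := M.ft
  have : IsNoetherianRing O := Algebra.FiniteType.isNoetherianRing ℂ O
  have hm : (Submodule.Quotient.mk a : O ⧸ Ideal.span {b}) ∈
      (⨅ i : ℕ, RingHom.ker p ^ i • ⊤ : Submodule O (O ⧸ Ideal.span {b})) := by
    refine Submodule.mem_iInf _ |>.2 fun N => ?_
    obtain ⟨q, hq⟩ := taylor_poly hh N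
    have h1 : a - b * cen n p q ∈ RingHom.ker p ^ N := by
      refine mem_of_bigO M p N _ ?_
      have h2 := (bdd M p b).mul hq
      simp only [one_mul] at h2
      refine h2.congr' ?_ EventuallyEq.rfl
      filter_upwards [sg_cen M p, (tend p).eventually hab] with w h3 h4
      rw [map_sub, map_mul, h3, h4]
      ring
    have h3 : (Submodule.Quotient.mk a : O ⧸ Ideal.span {b}) =
        (a - b * cen n p q) • Submodule.Quotient.mk 1 := by
      rw [← Submodule.Quotient.mk_smul, Submodule.Quotient.eq]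
      simpa using Ideal.mul_mem_right _ _ (Ideal.mem_span_singleton_self b)
    rw [h3]
    exact Submodule.smul_mem_smul h1 Submodule.mem_top
  obtain ⟨r, hr⟩ := (Ideal.mem_iInf_smul_pow_eq_bot_iff _ _).1 hm
  rw [← Submodule.Quotient.mk_smul, Submodule.Quotient.eq] at hr
  obtain ⟨c, hc⟩ := Ideal.mem_span_singleton'.1 hr
  refine ⟨-c, 1 - r, by simp [RingHom.mem_ker.1 r.2], ?_⟩
  rw [smul_eq_mul] at hc
  linear_combination hc

end Pool.Agent.Lib.MP_9ff3e7_ag.F
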