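import Pool.Agent.Lib.MP_9ff3e7_ag.F.XTr
import Pool.Agent.Lib.MP_9ff3e7_ag.F.XReg
import Pool.Agent.Lib.MP_9ff3e7_ag.F.GSrc
import Pool.Agent.Lib.MP_9ff3e7_ag.F.Sheet

/-! Regularity of the transformed section in a second chart. -/

set_option autoImplicit false

namespace Pool.Agent.Lib.MP_9ff3e7_ag.F

open MeasureTheory MvPolynomial Metric Filter Topology

variable {n : ℕ}

namespace End2

theorem frac_mul {K : Type} [Field K] [Algebra ℂ K] (O : Subalgebra ℂ K)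
    (hK : ∀ x : K, ∃ a ∈ O, ∃ b ∈ O, x = a / b) (x : K) : ∃ a b : O, b ≠ 0 ∧ x * b = a := by
  obtain ⟨a, ha, b, hb, rfl⟩ := hK x
  by_cases h : b = 0
  · exact ⟨0, 1, one_ne_zero, by simp [h]⟩
  · exact ⟨⟨a, ha⟩, ⟨b, hb⟩, fun e => h (congrArg Subtype.val e), div_mul_cancel₀ _ h⟩

theorem pow_bound {r al u be lam : ℂ} {N c0 C1 C2 : ℝ} {k m : ℕ} (hk : 0 < k) (hN : 0 < N)
    (hc : 0 < c0) (h2 : 0 ≤ C2) (e : r ^ k * al = u * be * lam) (ha : c0 ≤ ‖al‖ ^ 2)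
    (hb : ‖be‖ ^ 2 ≤ C2) (hl : ‖lam‖ ^ 2 * N ≤ C1) :
    ‖r ^ m‖ ^ 2 ≤ (C2 * C1 / c0) ^ ((m : ℝ) / k) * (‖u‖ ^ 2 / N) ^ ((m : ℝ) / k) := by
  have h1 : 0 ≤ C1 := le_trans (by positivity) hl
  have e1 : (‖r‖ ^ 2) ^ k * ‖al‖ ^ 2 = ‖u‖ ^ 2 * ‖be‖ ^ 2 * ‖lam‖ ^ 2 := by
    have := congrArg (fun x => ‖x‖ ^ 2) e
    simp only [norm_mul, norm_pow, mul_pow] at this
    rw [← this, ← pow_mul, ← pow_mul, mul_comm 2 k]
  have e2 : (‖r‖ ^ 2) ^ k ≤ C2 * C1 / c0 * (‖u‖ ^ 2 / N) := by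
    rw [div_mul_div_comm, le_div_iff₀ (by positivity)]
    calc (‖r‖ ^ 2) ^ k * (c0 * N) ≤ (‖r‖ ^ 2) ^ k * (‖al‖ ^ 2 * N) := by gcongr
      _ = ‖u‖ ^ 2 * ‖be‖ ^ 2 * (‖lam‖ ^ 2 * N) := by rw [← mul_assoc, e1]; ring
      _ ≤ ‖u‖ ^ 2 * C2 * C1 := by gcongr
      _ = C2 * C1 * ‖u‖ ^ 2 := by ring
  have hk' : (k : ℝ) ≠ 0 := by positivity
  calc ‖r ^ m‖ ^ 2 = ((‖r‖ ^ 2) ^ k) ^ ((m : ℝ) / k) := by
        rw [← Real.rpow_natCast (‖r‖ ^ 2) k, ← Real.rpow_mul (by positivity),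
          mul_div_cancel₀ _ hk', Real.rpow_natCast, norm_pow, ← pow_mul, ← pow_mul, mul_comm]
    _ ≤ (C2 * C1 / c0 * (‖u‖ ^ 2 / N)) ^ ((m : ℝ) / k) := by gcongr
    _ = _ := Real.mul_rpow (by positivity) (by positivity)

end End2

open End2 in
/-- X3-E2, from `transfer` and `reg_of_l2` -/
theorem end_reg {K : Type} [Field K] [Algebra ℂ K] (O O' : Subalgebra ℂ K)
    [Algebra (MvPolynomial (Fin n) ℂ) O] [IsScalarTower ℂ (MvPolynomial (Fin n) ℂ) O]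
    [Algebra (MvPolynomial (Fin n) ℂ) O'] [IsScalarTower ℂ (MvPolynomial (Fin n) ℂ) O']
    (M : Model n O) (M' : Model n O')
    (hK : ∀ x : K, ∃ a ∈ O, ∃ b ∈ O, x = a / b) (hK' : ∀ x : K, ∃ a ∈ O', ∃ b ∈ O', x = a / b)
    (pd : Fin n → Derivation ℂ K K) (hpd : ∀ i, ∀ f ∈ O', pd i f ∈ O')
    (h1 : ∀ i j, pd i (zc n O' j : O') = if i = j then 1 else 0) (p' : Pnt O')
    (f : O) (u : Oˣ) (k m : ℕ) (hk : 0 < k) (hm : 0 < m)
    (hb : ∀ (Y : Set (Fin n → ℂ)) (τ : (Fin n → ℂ) → Pnt O), PPar Y τ →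
      ∫⁻ y in Y, ENNReal.ofReal (‖pdet τ y‖ ^ 2 * ‖τ y f‖ ^ 2 *
        (‖τ y u‖ ^ 2 / (1 + nsq (zz n (τ y)))) ^ ((m : ℝ) / k)) < ⊤)
    (ρ : K) (lam α β : O') (hα : p' α ≠ 0) (hρ : ρ ^ k * α = (u : O) * β * lam)
    (hz : ∀ i, ((zc n O i : O) : K) * lam ∈ O') :
    ∃ c d : O', p' d ≠ 0 ∧
      ρ ^ m * f * (Matrix.of fun i j => pd i (zc n O j : O)).det * d = c := by
  obtain ⟨h, δ, τ, h0, hδ, hP, hT⟩ := transfer O O' M M' hK hK' pd hpd h1 p'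
  have hI := hb _ τ hP
  set J : K := (Matrix.of fun i j => pd i (zc n O j : O)).det with hJ
  obtain ⟨a0, b0, n0, e0⟩ := frac_mul O' hK' ρ
  obtain ⟨a1, b1, n1, e1⟩ := frac_mul O' hK' (f : K)
  obtain ⟨a2, b2, n2, e2⟩ := frac_mul O' hK' J
  obtain ⟨a3, b3, n3, e3⟩ := frac_mul O' hK' ((u : O) : K)
  have hrel : a0 ^ k * α * b3 = a3 * β * lam * b0 ^ k := by
    apply Subtype.val_injective
    push_cast
    rw [← e0, ← e3, mul_pow]
    linear_combination ((b0 : K) ^ k * b3) * hρ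
  let ζ : Fin n → O' := fun i => ⟨_, hz i⟩
  have t1 : Tendsto (fun w => ‖M'.sg p' w lam‖ ^ 2 + ∑ i, ‖M'.sg p' w (ζ i)‖ ^ 2)
      (𝓝 (zz n p')) (𝓝 (‖p' lam‖ ^ 2 + ∑ i, ‖p' (ζ i)‖ ^ 2)) :=
    ((M'.tendsto_sg_apply p' lam).norm.pow 2).add
      (tendsto_finsetSum _ fun i _ => (M'.tendsto_sg_apply p' (ζ i)).norm.pow 2)
  have hc0 : 0 < ‖p' α‖ ^ 2 := by positivity
  have v1 := t1.eventually (gt_mem_nhds (lt_add_one _))
  have v2 := ((M'.tendsto_sg_apply p' β).norm.pow 2).eventually (gt_mem_nhds (lt_add_one _))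
  have v3 := ((M'.tendsto_sg_apply p' α).norm.pow 2).eventually
    (lt_mem_nhds (half_lt_self hc0))
  obtain ⟨r, hr, hB⟩ := Metric.eventually_nhds_iff_ball.1
    (((v1.and v2).and v3).and ((M'.an p').and (ball_mem_nhds (zz n p') hδ)))
  set C1 := ‖p' lam‖ ^ 2 + ∑ i, ‖p' (ζ i)‖ ^ 2 + 1
  set C2 := ‖p' β‖ ^ 2 + 1
  set c0 := ‖p' α‖ ^ 2 / 2
  have hB0 : b0 ^ m * b1 * b2 * (h * b3) ≠ 0 := by
    simp [n0, n1, n2, n3, h0]
  obtain ⟨c, d, hd, hcd⟩ := reg_of_l2 M' p' (a0 ^ m * a1 * a2 * (h * b3))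
    (b0 ^ m * b1 * b2 * (h * b3)) hB0 ⟨ball (zz n p') r, ball_mem_nhds _ hr, by
      have ho : IsOpen (ball (zz n p') r ∩
          {w | M'.sg p' w (b0 ^ m * b1 * b2 * (h * b3)) ≠ 0}) :=
        ContinuousOn.isOpen_inter_preimage (f := fun w => M'.sg p' w (b0 ^ m * b1 * b2 * (h * b3)))
          (fun w hw => ((hB w hw).2.1 _).continuousAt.continuousWithinAt) isOpen_ball
          (t := {0}ᶜ) isOpen_compl_singleton
      have hsub : ball (zz n p') r ∩ {w | M'.sg p' w (b0 ^ m * b1 * b2 * (h * b3)) ≠ 0} ⊆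
          ball (zz n p') δ ∩ {w | M'.sg p' w h ≠ 0} := fun w hw =>
        ⟨(hB w hw.1).2.2, fun e => hw.2 (by simp [e])⟩
      refine lt_of_le_of_lt (setLIntegral_mono' ho.measurableSet
        (g := fun y => ENNReal.ofReal ((C2 * C1 / c0) ^ ((m : ℝ) / k)) *
          ENNReal.ofReal (‖pdet τ y‖ ^ 2 * ‖τ y f‖ ^ 2 *
            (‖τ y u‖ ^ 2 / (1 + nsq (zz n (τ y)))) ^ ((m : ℝ) / k))) fun w hw => ?_) ?_
      · obtain ⟨T1, T2⟩ := hT w (hsub hw)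
        obtain ⟨⟨⟨w1, w2⟩, w3⟩, -⟩ := hB w hw.1
        have hw2 : M'.sg p' w (b0 ^ m * b1 * b2 * (h * b3)) ≠ 0 := hw.2
        generalize M'.sg p' w = s at T1 T2 w1 w2 w3 hw2 ⊢
        simp only [map_mul, map_pow, mul_ne_zero_iff] at hw2
        obtain ⟨⟨⟨s0, s1⟩, s2⟩, sh, s3⟩ := hw2
        have s0' : s b0 ≠ 0 := fun e => s0 (by rw [e, zero_pow hm.ne'])
        have q1 := T1 f a1 b1 e1
        have q2 := T2 a2 b2 e2
        have q3 := T1 u a3 b3 e3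
        have q4 : (s a0 / s b0) ^ k * s α = τ w u * s β * s lam := by
          have := congrArg s hrel
          simp only [map_mul, map_pow] at this
          rw [← q3] at this
          rw [div_pow, div_mul_eq_mul_div, div_eq_iff (pow_ne_zero _ s0')]
          exact mul_right_cancel₀ s3 (by linear_combination this)
        have q5 : ‖s lam‖ ^ 2 * (1 + nsq (zz n (τ w))) ≤ C1 := by
          refine le_of_eq_of_le ?_ w1.le
          rw [mul_add, mul_one, nsq, Finset.mul_sum]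
          congr 1
          refine Finset.sum_congr rfl fun i _ => ?_
          rw [← T1 (zc n O i) (ζ i) lam rfl, norm_mul, mul_pow, mul_comm]
          rfl
        have hN : 0 < 1 + nsq (zz n (τ w)) := by have := Src.nsq_nn (zz n (τ w)); linarith
        have q6 := pow_bound (m := m) hk hN (half_pos hc0) (by positivity) q4 w3.le w2.le q5
        have q7 : s (a0 ^ m * a1 * a2 * (h * b3)) / s (b0 ^ m * b1 * b2 * (h * b3)) =
            (s a0 / s b0) ^ m * τ w f * pdet τ w := by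
          simp only [map_mul, map_pow]
          rw [← q1, ← q2, div_pow]
          field_simp
        have hC : 0 ≤ (C2 * C1 / c0) ^ ((m : ℝ) / k) := by positivity
        rw [← ENNReal.ofReal_mul hC, q7]
        refine ENNReal.ofReal_le_ofReal ?_
        rw [norm_mul, norm_mul, mul_pow, mul_pow]
        calc _ ≤ (C2 * C1 / c0) ^ ((m : ℝ) / k) *
              (‖τ w u‖ ^ 2 / (1 + nsq (zz n (τ w)))) ^ ((m : ℝ) / k) * ‖τ w f‖ ^ 2 *
              ‖pdet τ w‖ ^ 2 := by gcongr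
          _ = _ := by ring
      · rw [lintegral_const_mul' _ _ ENNReal.ofReal_ne_top]
        exact ENNReal.mul_lt_top ENNReal.ofReal_lt_top
          (lt_of_le_of_lt (lintegral_mono_set hsub) hI)⟩
  refine ⟨c, d, hd, ?_⟩
  have hK0 : ((b0 ^ m * b1 * b2 * (h * b3) : O') : K) ≠ 0 := fun e => hB0 (Subtype.ext e)
  have := congrArg Subtype.val hcd
  push_cast at this hK0
  rw [← e0, ← e1, ← e2, mul_pow] at this
  exact mul_left_cancel₀ hK0 (by linear_combination this)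

end Pool.Agent.Lib.MP_9ff3e7_ag.F
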