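import Mathlib

/-! Partial derivatives on an etale chart and the top forms of a function field. -/

set_option autoImplicit false

namespace Pool.Agent.Lib.MP_9ff3e7_ag.F

open MvPolynomial

namespace Can

open Module

/-- transport of a basis of differentials along a formally etale map -/
theorem basis_etale {S T : Type} [CommRing S] [CommRing T] [Algebra ℂ S] [Algebra ℂ T]
    [Algebra S T] [IsScalarTower ℂ S T] [Algebra.FormallyEtale S T] {n : ℕ}
    (b : Basis (Fin n) S (Ω[S⁄ℂ])) :
    ∃ c : Basis (Fin n) T (Ω[T⁄ℂ]), ∀ i, c i = KaehlerDifferential.map ℂ ℂ S T (b i) := by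
  refine ⟨(b.baseChange T).map (KaehlerDifferential.tensorKaehlerEquivOfFormallyEtale ℂ S T),
    fun i => ?_⟩
  rw [Basis.map_apply, Basis.baseChange_apply,
    KaehlerDifferential.tensorKaehlerEquivOfFormallyEtale_apply,
    KaehlerDifferential.mapBaseChange_tmul, one_smul]

/-- an alternating map in top degree is a multiple of the determinant -/
theorem alt_det {K M N : Type} [CommRing K] [AddCommGroup M] [Module K M] [AddCommGroup N]
    [Module K N] {n : ℕ} (e : Basis (Fin n) K M) (f : M [⋀^Fin n]→ₗ[K] N) (v : Fin n → M) :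
    f v = e.det v • f e := by
  have h : f = e.det.smulRight (f e) := by
    refine Basis.ext_alternating e fun i h => ?_
    let σ : Equiv.Perm (Fin n) := Equiv.ofBijective i (Finite.injective_iff_bijective.1 h)
    change f (e ∘ σ) = (e.det.smulRight (f e)) (e ∘ σ)
    rw [AlternatingMap.map_perm, AlternatingMap.map_perm]
    simp [Basis.det_self]
  conv_lhs => rw [h]
  simp

/-- the differentials of the coordinates form a basis, with the partials as coordinates -/
theorem basis_of_pd {K : Type} [Field K] [Algebra ℂ K] {n : ℕ} (z : Fin n → K)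
    (pd : Fin n → Derivation ℂ K K) (h1 : ∀ i j, pd i (z j) = if i = j then 1 else 0)
    (h2 : ∀ f : K, KaehlerDifferential.D ℂ K f = ∑ i, pd i f • KaehlerDifferential.D ℂ K (z i)) :
    ∃ e : Basis (Fin n) K (Ω[K⁄ℂ]), (∀ i, e i = KaehlerDifferential.D ℂ K (z i)) ∧
      ∀ f i, e.repr (KaehlerDifferential.D ℂ K f) i = pd i f := by
  have hli : LinearIndependent K fun i => KaehlerDifferential.D ℂ K (z i) := by
    rw [Fintype.linearIndependent_iff]
    intro g hg i
    have := congrArg (pd i).liftKaehlerDifferential hg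
    rw [map_sum, map_zero] at this
    simp only [map_smul, Derivation.liftKaehlerDifferential_comp_D, h1, smul_eq_mul, mul_ite,
      mul_one, mul_zero, Finset.sum_ite_eq, Finset.mem_univ, if_true] at this
    exact this
  have hsp : ⊤ ≤ Submodule.span K (Set.range fun i => KaehlerDifferential.D ℂ K (z i)) := by
    rw [← KaehlerDifferential.span_range_derivation ℂ K, Submodule.span_le]
    rintro _ ⟨f, rfl⟩
    rw [h2 f]
    exact Submodule.sum_mem _ fun i _ => Submodule.smul_mem _ _ (Submodule.subset_span ⟨i, rfl⟩)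
  refine ⟨Basis.mk hli hsp, fun i => Basis.mk_apply hli hsp i, fun f i => ?_⟩
  have h3 : KaehlerDifferential.D ℂ K f = ∑ j, pd j f • Basis.mk hli hsp j := by
    rw [h2 f]
    exact Finset.sum_congr rfl fun j _ => by rw [Basis.mk_apply]
  rw [h3, Basis.repr_sum_self]

end Can

/-- partial derivatives on an etale chart -/
theorem exists_partial {K : Type} [Field K] [Algebra ℂ K] {n : ℕ} (O : Subalgebra ℂ K)
    [Algebra (MvPolynomial (Fin n) ℂ) O] [IsScalarTower ℂ (MvPolynomial (Fin n) ℂ) O]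
    [Algebra.FormallyEtale (MvPolynomial (Fin n) ℂ) O]
    (hK : ∀ x : K, ∃ a ∈ O, ∃ b ∈ O, x = a / b)
    (z : Fin n → K) (hz : ∀ i, z i = (algebraMap (MvPolynomial (Fin n) ℂ) O (X i) : O)) :
    ∃ pd : Fin n → Derivation ℂ K K,
      (∀ i, ∀ f ∈ O, pd i f ∈ O) ∧ (∀ i j, pd i (z j) = if i = j then 1 else 0) ∧
      (∀ f : K, KaehlerDifferential.D ℂ K f = ∑ i, pd i f • KaehlerDifferential.D ℂ K (z i)) := by
  have : IsFractionRing O K := by
    refine IsFractionRing.of_field O K fun x => ?_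
    obtain ⟨a, ha, b, hb, h⟩ := hK x
    exact ⟨⟨a, ha⟩, ⟨b, hb⟩, h⟩
  have : Algebra.FormallyEtale O K :=
    Algebra.FormallyEtale.of_isLocalization (Rₘ := K) (nonZeroDivisors O)
  obtain ⟨bO, hO⟩ := Can.basis_etale (T := O) (KaehlerDifferential.mvPolynomialBasis ℂ (Fin n))
  obtain ⟨bK, hb⟩ := Can.basis_etale (T := K) bO
  have hbz : ∀ i, bK i = KaehlerDifferential.D ℂ K (z i) := fun i => by
    rw [hb, hO, KaehlerDifferential.mvPolynomialBasis_apply, KaehlerDifferential.map_D,
      KaehlerDifferential.map_D, hz]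
    rfl
  refine ⟨fun i => (bK.coord i).compDer (KaehlerDifferential.D ℂ K), fun i f hf => ?_,
    fun i j => ?_, fun f => ?_⟩
  · have h1 : KaehlerDifferential.D ℂ K f =
        ∑ j, ((bO.repr (KaehlerDifferential.D ℂ O ⟨f, hf⟩) j : O) : K) • bK j := by
      have h2 : KaehlerDifferential.D ℂ K f =
          KaehlerDifferential.map ℂ ℂ O K (KaehlerDifferential.D ℂ O ⟨f, hf⟩) := by
        rw [KaehlerDifferential.map_D]
        rfl
      rw [h2]
      conv_lhs => rw [← bO.sum_repr (KaehlerDifferential.D ℂ O ⟨f, hf⟩)]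
      rw [map_sum]
      refine Finset.sum_congr rfl fun j _ => ?_
      rw [map_smul, hb, ← algebraMap_smul K]
      rfl
    change bK.repr (KaehlerDifferential.D ℂ K f) i ∈ O
    rw [h1, Module.Basis.repr_sum_self]
    exact Subtype.property _
  · change bK.repr (KaehlerDifferential.D ℂ K (z j)) i = _
    rw [← hbz, bK.repr_self, Finsupp.single_apply]
    by_cases h : i = j
    · rw [if_pos h, if_pos h.symm]
    · rw [if_neg h, if_neg (Ne.symm h)]
  · conv_lhs => rw [← bK.sum_repr (KaehlerDifferential.D ℂ K f)]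
    refine Finset.sum_congr rfl fun j _ => ?_
    rw [hbz]
    rfl

/-- top forms in a chart -/
theorem top_det {K : Type} [Field K] [Algebra ℂ K] {n : ℕ} (z : Fin n → K)
    (pd : Fin n → Derivation ℂ K K) (h1 : ∀ i j, pd i (z j) = if i = j then 1 else 0)
    (h2 : ∀ f : K, KaehlerDifferential.D ℂ K f = ∑ i, pd i f • KaehlerDifferential.D ℂ K (z i)) :
    (exteriorPower.ιMulti K n fun i => KaehlerDifferential.D ℂ K (z i)) ≠ 0 ∧
    (∀ ω : ⋀[K]^n (Ω[K⁄ℂ]), ∃ c : K,
      ω = c • exteriorPower.ιMulti K n fun i => KaehlerDifferential.D ℂ K (z i)) ∧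
    ∀ f : Fin n → K, (exteriorPower.ιMulti K n fun j => KaehlerDifferential.D ℂ K (f j)) =
      (Matrix.of fun i j => pd i (f j)).det •
        exteriorPower.ιMulti K n fun i => KaehlerDifferential.D ℂ K (z i) := by
  obtain ⟨e, he, hr⟩ := Can.basis_of_pd z pd h1 h2
  have hfun : (fun i => KaehlerDifferential.D ℂ K (z i)) = e := funext fun i => (he i).symm
  rw [hfun]
  refine ⟨fun h => ?_, fun ω => ?_, fun f => ?_⟩
  · have := exteriorPower.alternatingMapLinearEquiv_apply_ιMulti (R := K) (n := n) e.det e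
    rw [h, map_zero, Module.Basis.det_self] at this
    exact zero_ne_one this
  · have hω : ω ∈ Submodule.span K {exteriorPower.ιMulti K n e} := by
      have htop : (⊤ : Submodule K (⋀[K]^n (Ω[K⁄ℂ]))) ≤
          Submodule.span K {exteriorPower.ιMulti K n e} := by
        rw [← exteriorPower.ιMulti_span K n (Ω[K⁄ℂ]), Submodule.span_le]
        rintro _ ⟨v, rfl⟩
        rw [Can.alt_det e (exteriorPower.ιMulti K n) v]
        exact Submodule.smul_mem _ _ (Submodule.subset_span rfl)
      exact htop Submodule.mem_top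
    obtain ⟨c, hc⟩ := Submodule.mem_span_singleton.1 hω
    exact ⟨c, hc.symm⟩
  · rw [Can.alt_det e (exteriorPower.ιMulti K n), Module.Basis.det_apply]
    have hm : e.toMatrix (fun j => KaehlerDifferential.D ℂ K (f j)) =
        Matrix.of fun i j => pd i (f j) := by
      ext i j
      rw [Module.Basis.toMatrix_apply, hr, Matrix.of_apply]
    rw [hm]

/-- the stalk of the canonical sheaf is generated by `dz` -/
theorem span_top {K : Type} [Field K] [Algebra ℂ K] {n : ℕ} (z : Fin n → K)
    (pd : Fin n → Derivation ℂ K K) (h1 : ∀ i j, pd i (z j) = if i = j then 1 else 0)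
    (h2 : ∀ f : K, KaehlerDifferential.D ℂ K f = ∑ i, pd i f • KaehlerDifferential.D ℂ K (z i))
    (O L : Subalgebra ℂ K) (hOL : O ≤ L) (hO : ∀ i, ∀ f ∈ O, pd i f ∈ O) (hz : ∀ i, z i ∈ O)
    (hL : ∀ x ∈ L, ∃ a ∈ O, ∃ b ∈ O, b ≠ 0 ∧ b⁻¹ ∈ L ∧ x = a / b) :
    (∀ i, ∀ f ∈ L, pd i f ∈ L) ∧
    Submodule.span L {ω : ⋀[K]^n (Ω[K⁄ℂ]) | ∃ f : Fin n → K, (∀ i, f i ∈ L) ∧
      ω = exteriorPower.ιMulti K n fun i => KaehlerDifferential.D ℂ K (f i)} =
    Submodule.span L {exteriorPower.ιMulti K n fun i => KaehlerDifferential.D ℂ K (z i)} := by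
  have hpd : ∀ i, ∀ f ∈ L, pd i f ∈ L := by
    intro i f hf
    obtain ⟨a, ha, b, hb, hb0, hbi, hx⟩ := hL f hf
    have h3 : a = f * b := by rw [hx, div_mul_cancel₀ _ hb0]
    have h4 : pd i a = f * pd i b + b * pd i f := by
      rw [h3, Derivation.leibniz, smul_eq_mul, smul_eq_mul]
    have h5 : pd i f = b⁻¹ * (pd i a - f * pd i b) := by
      rw [h4, add_sub_cancel_left, ← mul_assoc, inv_mul_cancel₀ hb0, one_mul]
    rw [h5]
    exact L.mul_mem hbi (L.sub_mem (hOL (hO i a ha)) (L.mul_mem hf (hOL (hO i b hb))))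
  refine ⟨hpd, le_antisymm ?_ ?_⟩
  · rw [Submodule.span_le]
    rintro _ ⟨f, hf, rfl⟩
    have hd : (Matrix.of fun i j => pd i (f j)).det ∈ L := by
      rw [Matrix.det_apply']
      refine L.sum_mem fun σ _ => L.mul_mem (intCast_mem L _) (L.prod_mem fun j _ => ?_)
      exact hpd _ _ (hf j)
    rw [(top_det z pd h1 h2).2.2 f]
    exact Submodule.smul_mem (Submodule.span L _) (⟨_, hd⟩ : L) (Submodule.subset_span rfl)
  · refine Submodule.span_mono ?_
    rintro _ rfl
    exact ⟨z, fun i => hOL (hz i), rfl⟩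

end Pool.Agent.Lib.MP_9ff3e7_ag.F
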