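import Pool.Agent.Lib.MP_9ff3e7_ag.F.XPts
import Pool.Agent.Lib.MP_9ff3e7_ag.F.XCan

/-! Top forms in a chart. -/

set_option autoImplicit false

namespace Pool.Agent.Lib.MP_9ff3e7_ag.F

noncomputable section

variable {S : Type} [CommRing S] [IsDomain S] [Algebra ℂ S] {𝒜 : ℕ → Submodule ℂ S}
  [GradedAlgebra 𝒜]

namespace Chart

variable {n : ℕ} (c : Chart 𝒜 n)

theorem exists_pd : ∃ pd : Fin n → Derivation ℂ (Fn 𝒜) (Fn 𝒜),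
    (∀ i, ∀ f ∈ c.O, pd i f ∈ c.O) ∧ (∀ i j, pd i (c.z j) = if i = j then 1 else 0) ∧
    (∀ f, KaehlerDifferential.D ℂ (Fn 𝒜) f =
      ∑ i, pd i f • KaehlerDifferential.D ℂ (Fn 𝒜) (c.z i : Fn 𝒜)) :=
  exists_partial c.O (fun x => by
    obtain ⟨a, ha, b, hb, -, h⟩ := c.frac x
    exact ⟨a, ha, b, hb, h⟩) (fun i => (c.z i : Fn 𝒜)) fun _ => rfl

theorem dz_ne : c.dz ≠ 0 := by
  obtain ⟨pd, -, h1, h2⟩ := c.exists_pd
  exact (top_det (fun i => (c.z i : Fn 𝒜)) pd h1 h2).1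

theorem exists_dz (ω : TopForm 𝒜 n) : ∃ f : Fn 𝒜, ω = f • c.dz := by
  obtain ⟨pd, -, h1, h2⟩ := c.exists_pd
  exact (top_det (fun i => (c.z i : Fn 𝒜)) pd h1 h2).2.1 ω

theorem canon_eq {q : Pt 𝒜} (hq : c.In q) : canon n q = Submodule.span (loc q) {c.dz} := by
  obtain ⟨pd, h0, h1, h2⟩ := c.exists_pd
  refine (span_top (fun i => (c.z i : Fn 𝒜)) pd h1 h2 c.O (loc q) (c.le_loc hq) h0
    (fun i => (c.z i).2) fun x hx => ?_).2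
  obtain ⟨a, b, hb, h⟩ := (c.mem_loc_iff hq).1 hx
  have hb' := inv_mem_loc (q := q) ⟨(b : Fn 𝒜), c.le_loc hq b.2⟩ (c.pt_eq hq b ▸ hb)
  exact ⟨a, a.2, b, b.2, hb'.1, hb'.2, by rw [← h, mul_div_cancel_right₀ _ hb'.1]⟩

theorem smul_dz_mem {q : Pt 𝒜} (hq : c.In q) (f : Fn 𝒜) : f • c.dz ∈ canon n q ↔ f ∈ loc q := by
  rw [c.canon_eq hq, Submodule.mem_span_singleton]
  constructor
  · rintro ⟨a, ha⟩
    have h : (a : Fn 𝒜) • c.dz = f • c.dz := ha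
    rw [← smul_left_injective (Fn 𝒜) c.dz_ne h]
    exact a.2
  · exact fun h => ⟨⟨f, h⟩, rfl⟩

end Chart

end

end Pool.Agent.Lib.MP_9ff3e7_ag.F
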