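import Pool.Agent.Lib.MP_9ff3e7_ag.F.GO
import Pool.Agent.Lib.MP_9ff3e7_ag.F.XFil
import Pool.Agent.Lib.MP_9ff3e7_ag.F.XTop
import Pool.Agent.Lib.MP_9ff3e7_ag.F.Sheet

/-! From the integral bound in one chart to a global section of the adjoint bundle. -/

set_option autoImplicit false

namespace Pool.Agent.Lib.MP_9ff3e7_ag.F

open MeasureTheory MvPolynomial Metric Filter Topology

/-- the statement of `end_reg` -/
def EndRegSt (n : ℕ) : Prop :=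
  ∀ {K : Type} [Field K] [Algebra ℂ K] (O O' : Subalgebra ℂ K)
    [Algebra (MvPolynomial (Fin n) ℂ) O] [IsScalarTower ℂ (MvPolynomial (Fin n) ℂ) O]
    [Algebra (MvPolynomial (Fin n) ℂ) O'] [IsScalarTower ℂ (MvPolynomial (Fin n) ℂ) O']
    (_ : Model n O) (_ : Model n O')
    (_ : ∀ x : K, ∃ a ∈ O, ∃ b ∈ O, x = a / b) (_ : ∀ x : K, ∃ a ∈ O', ∃ b ∈ O', x = a / b)
    (pd : Fin n → Derivation ℂ K K) (_ : ∀ i, ∀ f ∈ O', pd i f ∈ O')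
    (_ : ∀ i j, pd i (zc n O' j : O') = if i = j then 1 else 0) (p' : Pnt O')
    (f : O) (u : Oˣ) (k m : ℕ) (_ : 0 < k) (_ : 0 < m)
    (_ : ∀ (Y : Set (Fin n → ℂ)) (τ : (Fin n → ℂ) → Pnt O), PPar Y τ →
      ∫⁻ y in Y, ENNReal.ofReal (‖pdet τ y‖ ^ 2 * ‖τ y f‖ ^ 2 *
        (‖τ y u‖ ^ 2 / (1 + nsq (zz n (τ y)))) ^ ((m : ℝ) / k)) < ⊤)
    (ρ : K) (lam α β : O') (_ : p' α ≠ 0) (_ : ρ ^ k * α = (u : O) * β * lam)
    (_ : ∀ i, ((zc n O i : O) : K) * lam ∈ O'),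
    ∃ c d : O', p' d ≠ 0 ∧
      ρ ^ m * f * (Matrix.of fun i j => pd i (zc n O j : O)).det * d = c

variable {n : ℕ} {S : Type} [CommRing S] [IsDomain S] [Algebra ℂ S] {𝒜 : ℕ → Submodule ℂ S}

theorem Cartier.eqn_ne0 (A : Cartier 𝒜) (p : Pt 𝒜) : A.eqn p ≠ 0 := by
  obtain ⟨j, f, -, h1, h2⟩ := A.near p
  intro h
  exact (h2 p h1).1 (by simp [h])

variable [GradedAlgebra 𝒜]

/-- the section is regular at each point of a second chart -/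
theorem end_sec_at (hR : EndRegSt n) (A : Cartier 𝒜) (k m : ℕ) (hk : 0 < k) (hm : 0 < m) (θ : FractionRing S)
    (hθ : ∀ p : Pt 𝒜, ∀ l ∈ 𝒜 1, p.1 l ≠ 0 → ∃ u : Fn 𝒜, UnitAt p u ∧
      θ = (u * A.eqn p ^ k : Fn 𝒜) * algebraMap S (FractionRing S) l)
    (x : Pt 𝒜) (c : Chart 𝒜 n) (hz : ∀ i, c.z i ∈ c.fil 1) (u : c.Oˣ)
    (hu : θ = (((u : c.O) : Fn 𝒜) * A.eqn x ^ k : Fn 𝒜) * algebraMap S (FractionRing S) c.l)
    (f : c.O)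
    (hb : ∀ (Y : Set (Fin n → ℂ)) (τ : (Fin n → ℂ) → Pnt c.O), PPar Y τ →
      ∫⁻ y in Y, ENNReal.ofReal (‖pdet τ y‖ ^ 2 * ‖τ y f‖ ^ 2 *
        (‖τ y u‖ ^ 2 / (1 + nsq (zz n (τ y)))) ^ ((m : ℝ) / k)) < ⊤)
    (c1 : Chart 𝒜 n) (q : Pt 𝒜) (hq : c1.In q) :
    A.eqn q ^ m • ((((f : Fn 𝒜) / A.eqn x ^ m : Fn 𝒜)) • c.dz) ∈ canon n q := by
  obtain ⟨M, -⟩ := exists_model c.pres
  obtain ⟨M1, -⟩ := exists_model c1.pres
  obtain ⟨pd, p1, p2, p3⟩ := c1.exists_pd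
  obtain ⟨u1, hu1, e1⟩ := hθ q c1.l c1.l.2 hq.1
  obtain ⟨α, β, hβ, hαβ⟩ := (c1.mem_loc_iff hq).1 hu1.2.1
  have hx0 := A.eqn_ne0 x
  have hα : c1.pt hq α ≠ 0 := by
    have h1 : ev q ⟨u1, hu1.2.1⟩ ≠ 0 := unitAt_iff.1 hu1
    have h2 : (⟨α, c1.le_loc hq α.2⟩ : loc q) = ⟨u1, hu1.2.1⟩ * ⟨β, c1.le_loc hq β.2⟩ :=
      Subtype.ext hαβ.symm
    rw [c1.pt_eq, h2, map_mul]
    exact mul_ne_zero h1 hβ
  have hl : ((c1.dh c.l : Fn 𝒜) : FractionRing S) =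
      algebraMap S (FractionRing S) c.l / algebraMap S (FractionRing S) c1.l := by
    rw [Chart.dh_coe, deh_coe c1.l c.l.2, pow_one]
  have hlam : A.eqn q ^ k * u1 = ((u : c.O) : Fn 𝒜) * A.eqn x ^ k * (c1.dh c.l : Fn 𝒜) := by
    apply Subtype.ext
    have l1 := alg_ne c1.l0
    rw [IntermediateField.coe_mul _ (((u : c.O) : Fn 𝒜) * A.eqn x ^ k), hl, ← mul_div_assoc, ← hu,
      e1, mul_div_cancel_right₀ _ l1, mul_comm]
  obtain ⟨a, d, hd, e⟩ := hR c.O c1.O M M1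
    (fun y => by obtain ⟨a, ha, b, hb, -, h⟩ := c.frac y; exact ⟨a, ha, b, hb, h⟩)
    (fun y => by obtain ⟨a, ha, b, hb, -, h⟩ := c1.frac y; exact ⟨a, ha, b, hb, h⟩)
    pd p1 p2 (c1.pt hq) f u k m hk hm hb (A.eqn q / A.eqn x) (c1.dh c.l) α β hα
    (by
      rw [← hαβ, div_pow, div_mul_eq_mul_div, ← mul_assoc, hlam,
        div_eq_iff (pow_ne_zero _ hx0)]
      ring)
    (fun i => by
      obtain ⟨a, ha, e⟩ := c.mem_fil.1 (hz i)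
      have e' : zc n c.O i = c.dh a := e.symm
      have : ((zc n c.O i : c.O) : Fn 𝒜) * (c1.dh c.l : Fn 𝒜) = c1.dh a := by
        apply Subtype.ext
        have l0 := alg_ne c.l0
        rw [IntermediateField.coe_mul, hl, e', Chart.dh_coe, Chart.dh_coe, deh_coe c.l ha,
          deh_coe c1.l ha, pow_one, pow_one]
        field_simp
      rw [this]
      exact (c1.dh a).2)
  have hdz : c.dz = (Matrix.of fun i j => pd i (c.z j : Fn 𝒜)).det • c1.dz :=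
    (top_det (fun i => (c1.z i : Fn 𝒜)) pd p2 p3).2.2 fun j => (c.z j : Fn 𝒜)
  rw [hdz, smul_smul, smul_smul, c1.smul_dz_mem hq, c1.mem_loc_iff hq]
  refine ⟨a, d, hd, ?_⟩
  rw [← e, div_pow]
  change _ = _ * (Matrix.of fun i j => pd i (c.z j : Fn 𝒜)).det * _
  ring

end Pool.Agent.Lib.MP_9ff3e7_ag.F
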