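import Pool.Agent.Lib.MP_9ff3e7_ag.F.XEnd1
import Pool.Agent.Lib.MP_9ff3e7_ag.F.XEnd2
import Pool.Agent.Lib.MP_9ff3e7_ag.F.XEnd3a
import Pool.Agent.Lib.MP_9ff3e7_ag.F.XChart
import Pool.Agent.Lib.MP_9ff3e7_ag.F.XTop
import Pool.Agent.Lib.MP_9ff3e7_ag.F.XGro
import Pool.Agent.Lib.MP_9ff3e7_ag.F.Push
import Pool.Agent.Lib.MP_9ff3e7_ag.F.Step
import Pool.Agent.Lib.MP_9ff3e7_ag.F.Theta
import Pool.Agent.Lib.MP_9ff3e7_ag.F.K0
import Pool.Agent.Lib.MP_9ff3e7_ag.F.K1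
import Pool.Agent.Lib.MP_9ff3e7_ag.F.K2
import Pool.Agent.Lib.MP_9ff3e7_ag.F.K3
import Pool.Agent.Lib.MP_9ff3e7_ag.F.K4
import Pool.Agent.Lib.MP_9ff3e7_ag.F.K5
import Pool.Agent.Lib.MP_9ff3e7_ag.F.K6aA
import Pool.Agent.Lib.MP_9ff3e7_ag.F.K7
import Pool.Agent.Lib.MP_9ff3e7_ag.F.GTup
import Pool.Agent.Lib.MP_9ff3e7_ag.F.Dense

/-! The final assembly. -/

set_option autoImplicit false

namespace Pool.Agent.Lib.MP_9ff3e7_ag.F

open MvPolynomial Finsupp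

namespace Main

theorem kax {n : ℕ} {O : Type} [CommRing O] [IsDomain O] [Algebra ℂ O]
    [Algebra (MvPolynomial (Fin n) ℂ) O] [IsScalarTower ℂ (MvPolynomial (Fin n) ℂ) O]
    (M : Model n O) : KAx M :=
  KAx0.kAx
    { ft := M.ft
      mono := M.klt_mono
      drop := M.klt_drop
      mul := M.klt_mul
      zero := M.klt_zero
      bot := M.klt_bot
      unit := M.klt_unit
      near := M.klt_near
      convex := M.klt_convex
      k3 := M.klt_k3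
      kerle := M.kerle
      sum := M.klt_sum
      semi := fun B ι _ _ J _ V _ => M.klt_semi B ι J V
      zarN := K6a_of M fun p W _ _ hb he hk hn => G_tup M p W hb he hk hn
      ofN := M.klt_ofN
      skoda := M.klt_skoda
      dense := fun x P h _ hx hh =>
        haveI := M.ft
        dense_prime_nhds P x hx h hh }

theorem core0 {n : ℕ} {O : Type} [CommRing O] [IsDomain O] [Algebra ℂ O]
    [Algebra (MvPolynomial (Fin n) ℂ) O] [IsScalarTower ℂ (MvPolynomial (Fin n) ℂ) O]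
    {M : Model n O} (hK : KAx M) (T : Filt n O) (x : Pnt O) : CoreConcl M T x := by
  rcases Nat.eq_zero_or_pos n with rfl | hn
  · have hk : (0 : ℝ) < T.kap := by exact_mod_cast T.kap1
    have hb : mz 0 x = ⊥ := by simp [mz, mzJ]
    refine ⟨0, fun a => a.elim0, fun a => a.elim0, fun a => a.elim0, 1 / (2 * T.kap),
      fun a => a.elim0, fun a => a.elim0, by positivity, by simpa using hK.zero x, ?_, ?_⟩
    · rw [hb]
      simpa using hK.bot x (1 / (2 * T.kap)) (by positivity)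
    · simp only [Finset.univ_eq_empty, Finset.sum_empty, zero_add, Nat.cast_zero]
      exact le_of_eq (by field_simp)
  · exact core hK hn T x

variable {S : Type} [CommRing S] [IsDomain S] [Algebra ℂ S] {𝒜 : ℕ → Submodule ℂ S}

theorem unit_aux {q : Pt 𝒜} {u v a b : Fn 𝒜} {k : ℕ} (hv : UnitAt q v) (hab : UnitAt q (a / b))
    (e : u * a ^ k = v * b ^ k) : UnitAt q u := by
  have ha : a ≠ 0 := fun h => hab.1 (by simp [h])
  have hb : b ≠ 0 := fun h => hab.1 (by simp [h])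
  have e1 : u = v * (a / b)⁻¹ ^ k := by
    rw [inv_div, div_pow, ← mul_div_assoc, eq_div_iff (pow_ne_zero _ ha), e]
  refine ⟨?_, ?_, ?_⟩
  · rw [e1]; exact mul_ne_zero hv.1 (pow_ne_zero _ (inv_ne_zero hab.1))
  · rw [e1]; exact mul_mem hv.2.1 (pow_mem hab.2.2 k)
  · rw [e1, mul_inv, ← inv_pow, inv_inv]; exact mul_mem hv.2.2 (pow_mem hab.2.1 k)

end Main

open Main in
theorem fujita {S : Type} [CommRing S] [IsDomain S] [Algebra ℂ S]
    (𝒜 : ℕ → Submodule ℂ S) [GradedAlgebra 𝒜]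
    (hfg : ∃ s : Finset S, (∀ a ∈ s, a ∈ 𝒜 1) ∧ Algebra.adjoin ℂ (s : Set S) = ⊤)
    (n : ℕ) (hn : Algebra.trdeg ℂ (Fn 𝒜) = n)
    (hsm : ∀ p : Pt 𝒜, Algebra.FormallySmooth ℂ (loc p))
    (A : Cartier 𝒜) (k : ℕ) (hk : 0 < k) (hA : A.Hyperplane k)
    (m : ℕ) (hm : n + 1 ≤ m) (x : Pt 𝒜) :
    ∃ ω : TopForm 𝒜 n, A.Adj n m ω ∧ A.Gen n m ω x := by
  have hg1 : Gen1 𝒜 := hfg
  obtain ⟨θ, hθ⟩ := id hA
  obtain ⟨j, g, hg, hxg, hnear⟩ := A.near x
  obtain ⟨c, hx, hin, hz, ⟨N, hN⟩, -⟩ := exists_chart_lin hg1 hn x (hsm x) hg hxg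
  obtain ⟨u0, -, e0⟩ := hθ x c.l c.l.2 hx.1
  have hu0 : ∀ q, c.In q → UnitAt q u0 := by
    intro q hq
    obtain ⟨v, hv, ev⟩ := hθ q c.l c.l.2 hq.1
    refine unit_aux (k := k) hv (hnear q (hin q hq)) ?_
    exact Subtype.ext (mul_right_cancel₀ (alg_ne c.l0) (e0.symm.trans ev))
  obtain ⟨u, hu⟩ := c.unit_of_loc hu0
  obtain ⟨M, -⟩ := exists_model c.pres
  have hkR : (k : ℝ) ≠ 0 := by positivity
  obtain ⟨f, hf, hb⟩ := end_bound M (c.filt hg1 hn A hk hA hz) (c.pt hx)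
    (core0 (kax M) _ _) (fun j f hf => by
      have := c.fil_fin hg1 1
      exact red_growth c.z (c.fil 1) N hN j f (by rwa [← c.fil_pow hg1])) u ((m : ℝ) / k) (by
      change (n : ℝ) + 1 ≤ (k : ℝ) * _
      rw [mul_div_cancel₀ _ hkR]
      exact_mod_cast hm)
  refine ⟨((f : Fn 𝒜) / A.eqn x ^ m : Fn 𝒜) • c.dz, fun q => ?_, ?_⟩
  · obtain ⟨c1, hq, -⟩ := exists_chart hg1 hn q (hsm q) (SetLike.one_mem_graded 𝒜) (by simp)
    exact end_sec_at (@end_reg n) A k m hk (by omega) θ hθ x c hz u (by rw [hu]; exact e0) f hb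
      c1 q hq
  have ha : A.eqn x ≠ 0 := fun h => (hnear x hxg).1 (by simp [h])
  let r : loc x := ⟨f, c.le_loc hx f.2⟩
  have hr : UnitAt x (r : Fn 𝒜) := unitAt_iff.2 (by
    have : ev x r = 1 := hf
    rw [this]; exact one_ne_zero)
  have hunit : IsUnit r := IsUnit.of_mul_eq_one (⟨_, hr.2.2⟩ : loc x)
    (Subtype.ext (mul_inv_cancel₀ hr.1))
  rw [Cartier.Gen, smul_smul, mul_div_cancel₀ _ (pow_ne_zero _ ha), c.canon_eq hx]
  exact (Submodule.span_singleton_smul_eq hunit c.dz).symm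

end Pool.Agent.Lib.MP_9ff3e7_ag.F
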