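import Pool.Agent.Lib.MP_9ff3e7_ag.F.PTopB
import Pool.Agent.Lib.MP_9ff3e7_ag.F.XMain
import Pool.Agent.Lib.MP_9ff3e7_ag.F.PStep
import Pool.Agent.Lib.MP_9ff3e7_ag.F.PEnd1
import Pool.Agent.Lib.MP_9ff3e7_ag.F.PChart
import Pool.Agent.Lib.MP_9ff3e7_ag.F.PNear

/-! Separation of points by `K + mA`, `m ≥ n + 2`. -/

set_option autoImplicit false

namespace Pool.Agent.Lib.MP_9ff3e7_ag.F

open MvPolynomial Finsupp

theorem PT.pos_dim {n : ℕ} {O : Type} [CommRing O] [IsDomain O] [Algebra ℂ O]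
    [Algebra (MvPolynomial (Fin n) ℂ) O] {M : Model n O} (hK : KAx M) {p q : Pnt O}
    (h : p ≠ q) : 1 ≤ n := by
  rcases Nat.eq_zero_or_pos n with rfl | hn
  · obtain ⟨u, hu, h1⟩ := hK.kerle p
    refine absurd (AlgHom.ext fun s => ?_) h
    have h2 := h1 (s - algebraMap ℂ O (p s)) (by simp [RingHom.mem_ker])
    rw [show mz 0 p = ⊥ from by simp [mz, mzJ], Ideal.mem_bot, mul_eq_zero] at h2
    have h3 : s = algebraMap ℂ O (p s) :=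
      sub_eq_zero.1 (h2.resolve_left fun e => hu (by simp [e]))
    rw [h3]
    simp
  · exact hn

variable {S : Type} [CommRing S] [IsDomain S] [Algebra ℂ S]

open Main PT in
theorem fujita_pts (𝒜 : ℕ → Submodule ℂ S) [GradedAlgebra 𝒜]
    (hfg : ∃ s : Finset S, (∀ a ∈ s, a ∈ 𝒜 1) ∧ Algebra.adjoin ℂ (s : Set S) = ⊤)
    (n : ℕ) (hn : Algebra.trdeg ℂ (Fn 𝒜) = n)
    (hsm : ∀ p : Pt 𝒜, Algebra.FormallySmooth ℂ (loc p))
    (A : Cartier 𝒜) (k : ℕ) (hk : 0 < k) (hA : A.Hyperplane k)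
    (m : ℕ) (hm : n + 2 ≤ m) (x y : Pt 𝒜)
    (hxy : ∃ a ∈ 𝒜 1, ∃ b ∈ 𝒜 1, x.1 a * y.1 b ≠ x.1 b * y.1 a) :
    ∃ ω : TopForm 𝒜 n, A.Adj n m ω ∧ A.Gen n m ω x ∧ ¬ A.Gen n m ω y := by
  have hg1 : Gen1 𝒜 := hfg
  obtain ⟨θ, hθ⟩ := id hA
  obtain ⟨c0, hx0, hy0, -⟩ := exists_chart_lin2 hg1 hn x y (hsm x) (hsm y)
    (SetLike.one_mem_graded 𝒜) (by simp) (by simp)
  obtain ⟨a, j, g, hg, hxg, hyg, hnear⟩ := A.near2 c0 hx0 hy0
  obtain ⟨c, hx, hy, hin, hz, N, hN⟩ := exists_chart_lin2 hg1 hn x y (hsm x) (hsm y) hg hxg hyg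
  have a0 : a ≠ 0 := fun h => (hnear x hxg).1 (by simp [h])
  obtain ⟨u1, -, e1⟩ := hθ x c.l c.l.2 hx.1
  obtain ⟨u0, e0⟩ : ∃ u0 : Fn 𝒜,
      θ = (u0 * a ^ k : Fn 𝒜) * algebraMap S (FractionRing S) c.l :=
    ⟨u1 * A.eqn x ^ k / a ^ k, by rw [div_mul_cancel₀ _ (pow_ne_zero _ a0)]; exact e1⟩
  have hu0 : ∀ q, c.In q → UnitAt q u0 := by
    intro q hq
    obtain ⟨v, hv, ev⟩ := hθ q c.l c.l.2 hq.1
    refine unit_aux (k := k) hv (hnear q (hin q hq)) ?_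
    exact Subtype.ext (mul_right_cancel₀ (alg_ne c.l0) (e0.symm.trans ev))
  obtain ⟨u, hu⟩ := c.unit_of_loc hu0
  obtain ⟨M, -⟩ := exists_model c.pres
  have hkR : (k : ℝ) ≠ 0 := by positivity
  have hgr : ∀ j, ∀ f ∈ (c.filt hg1 hn A hk hA hz).F j, ∃ C : ℝ, ∀ y : Pnt c.O,
      ‖y f‖ ^ 2 ≤ C * (1 + nsq (zz n y)) ^ j := fun j f hf => by
    have := c.fil_fin hg1 1
    exact red_growth c.z (c.fil 1) N hN j f (by rwa [← c.fil_pow hg1])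
  have hμ : (n : ℝ) + 2 ≤ (c.filt hg1 hn A hk hA hz).kap * ((m : ℝ) / k) := by
    change (n : ℝ) + 2 ≤ (k : ℝ) * _
    rw [mul_div_cancel₀ _ hkR]
    exact_mod_cast hm
  have adj : ∀ f : c.O, _ → A.Adj n m (((f : Fn 𝒜) / a ^ m : Fn 𝒜) • c.dz) := fun f hb q => by
    obtain ⟨c1, hq, -⟩ := exists_chart hg1 hn q (hsm q) (SetLike.one_mem_graded 𝒜) (by simp)
    exact sec_at (@end_reg n) A k m hk (by omega) θ hθ a a0 c hz u (by rw [hu]; exact e0) f hb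
      c1 q hq
  have fin : ∀ f : c.O, A.Adj n m (((f : Fn 𝒜) / a ^ m : Fn 𝒜) • c.dz) → c.pt hx f = 1 →
      c.pt hy f = 0 → ∃ ω : TopForm 𝒜 n, A.Adj n m ω ∧ A.Gen n m ω x ∧ ¬ A.Gen n m ω y :=
    fun f h1 h2 h3 => ⟨_, h1, (gen_iff A m c hx (hnear x hxg) f).2 (by rw [h2]; exact one_ne_zero),
      fun h => (gen_iff A m c hy (hnear y hyg) f).1 h h3⟩
  have hne := pt_ne c hx hy hxy
  have hK := kax M
  rcases core2 hK (pos_dim hK hne) (c.filt hg1 hn A hk hA hz) hne with h | h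
  · obtain ⟨f, f1, f2, hb⟩ := end_bound2 M _ _ _ h hgr u _ hμ
    exact fin f (adj f hb) f1 f2
  · obtain ⟨f, f1, f2, hb⟩ := end_bound2 M _ _ _ h hgr u _ hμ
    obtain ⟨f0, g1, hb0⟩ := end_bound M _ (c.pt hx) (core0 hK _ _) hgr u _ (by linarith)
    exact fin _ (adj_sub A m c a (c.pt hy f0) (adj f0 hb0) (adj f hb)) (by simp [g1, f2])
      (by simp [f1])

end Pool.Agent.Lib.MP_9ff3e7_ag.F
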