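import Pool.Agent.Lib.MP_9ff3e7_ag.F.XEnd3a
import Pool.Agent.Lib.MP_9ff3e7_ag.F.PNear

/-! The section of the adjoint bundle given by a function on a chart and one local equation. -/

set_option autoImplicit false

namespace Pool.Agent.Lib.MP_9ff3e7_ag.F

open MeasureTheory MvPolynomial Metric Filter Topology

variable {n : ℕ} {S : Type} [CommRing S] [IsDomain S] [Algebra ℂ S] {𝒜 : ℕ → Submodule ℂ S}
  [GradedAlgebra 𝒜]

/-- the section is regular at each point of a second chart -/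
theorem end_sec_at2 (hR : EndRegSt n) (A : Cartier 𝒜) (k m : ℕ) (hk : 0 < k) (hm : 0 < m) (θ : FractionRing S)
    (hθ : ∀ p : Pt 𝒜, ∀ l ∈ 𝒜 1, p.1 l ≠ 0 → ∃ u : Fn 𝒜, UnitAt p u ∧
      θ = (u * A.eqn p ^ k : Fn 𝒜) * algebraMap S (FractionRing S) l)
    (a0 : Fn 𝒜) (ha0 : a0 ≠ 0) (c : Chart 𝒜 n) (hz : ∀ i, c.z i ∈ c.fil 1) (u : c.Oˣ)
    (hu : θ = (((u : c.O) : Fn 𝒜) * a0 ^ k : Fn 𝒜) * algebraMap S (FractionRing S) c.l)
    (f : c.O)
    (hb : ∀ (Y : Set (Fin n → ℂ)) (τ : (Fin n → ℂ) → Pnt c.O), PPar Y τ →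
      ∫⁻ y in Y, ENNReal.ofReal (‖pdet τ y‖ ^ 2 * ‖τ y f‖ ^ 2 *
        (‖τ y u‖ ^ 2 / (1 + nsq (zz n (τ y)))) ^ ((m : ℝ) / k)) < ⊤)
    (c1 : Chart 𝒜 n) (q : Pt 𝒜) (hq : c1.In q) :
    A.eqn q ^ m • ((((f : Fn 𝒜) / a0 ^ m : Fn 𝒜)) • c.dz) ∈ canon n q := by
  obtain ⟨M, -⟩ := exists_model c.pres
  obtain ⟨M1, -⟩ := exists_model c1.pres
  obtain ⟨pd, p1, p2, p3⟩ := c1.exists_pd
  obtain ⟨u1, hu1, e1⟩ := hθ q c1.l c1.l.2 hq.1
  obtain ⟨α, β, hβ, hαβ⟩ := (c1.mem_loc_iff hq).1 hu1.2.1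
  have hx0 := ha0
  have hα : c1.pt hq α ≠ 0 := by
    have h1 : ev q ⟨u1, hu1.2.1⟩ ≠ 0 := unitAt_iff.1 hu1
    have h2 : (⟨α, c1.le_loc hq α.2⟩ : loc q) = ⟨u1, hu1.2.1⟩ * ⟨β, c1.le_loc hq β.2⟩ :=
      Subtype.ext hαβ.symm
    rw [c1.pt_eq, h2, map_mul]
    exact mul_ne_zero h1 hβ
  have hl : ((c1.dh c.l : Fn 𝒜) : FractionRing S) =
      algebraMap S (FractionRing S) c.l / algebraMap S (FractionRing S) c1.l := by
    rw [Chart.dh_coe, deh_coe c1.l c.l.2, pow_one]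
  have hlam : A.eqn q ^ k * u1 = ((u : c.O) : Fn 𝒜) * a0 ^ k * (c1.dh c.l : Fn 𝒜) := by
    apply Subtype.ext
    have l1 := alg_ne c1.l0
    rw [IntermediateField.coe_mul _ (((u : c.O) : Fn 𝒜) * a0 ^ k), hl, ← mul_div_assoc, ← hu,
      e1, mul_div_cancel_right₀ _ l1, mul_comm]
  obtain ⟨a, d, hd, e⟩ := hR c.O c1.O M M1
    (fun y => by obtain ⟨a, ha, b, hb, -, h⟩ := c.frac y; exact ⟨a, ha, b, hb, h⟩)
    (fun y => by obtain ⟨a, ha, b, hb, -, h⟩ := c1.frac y; exact ⟨a, ha, b, hb, h⟩)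
    pd p1 p2 (c1.pt hq) f u k m hk hm hb (A.eqn q / a0) (c1.dh c.l) α β hα
    (by
      rw [← hαβ, div_pow, div_mul_eq_mul_div, ← mul_assoc, hlam,
        div_eq_iff (pow_ne_zero _ hx0)]
      ring)
    (fun i => by
      obtain ⟨a, ha, e⟩ := c.mem_fil.1 (hz i)
      have e' : zc n c.O i = c.dh a := e.symm
      have : ((zc n c.O i : c.O) : Fn 𝒜) * (c1.dh c.l : Fn 𝒜) = c1.dh a := by
        apply Subtype.ext
        have l0 := alg_ne c.l0
        rw [IntermediateField.coe_mul, hl, e', Chart.dh_coe, Chart.dh_coe, deh_coe c.l ha,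
          deh_coe c1.l ha, pow_one, pow_one]
        field_simp
      rw [this]
      exact (c1.dh a).2)
  have hdz : c.dz = (Matrix.of fun i j => pd i (c.z j : Fn 𝒜)).det • c1.dz :=
    (top_det (fun i => (c1.z i : Fn 𝒜)) pd p2 p3).2.2 fun j => (c.z j : Fn 𝒜)
  rw [hdz, smul_smul, smul_smul, c1.smul_dz_mem hq, c1.mem_loc_iff hq]
  refine ⟨a, d, hd, ?_⟩
  rw [← e, div_pow]
  change _ = _ * (Matrix.of fun i j => pd i (c.z j : Fn 𝒜)).det * _
  ring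

/-- a multiple of the chart form generates the canonical stalk iff the factor is a unit -/
theorem Chart.gen_iff_unit (c : Chart 𝒜 n) {r : Pt 𝒜} (hq : c.In r) (g : Fn 𝒜) :
    canon n r = Submodule.span (loc r) {g • c.dz} ↔ UnitAt r g := by
  constructor
  · intro h
    have h1 : g ∈ loc r := by
      rw [← c.smul_dz_mem hq, h]
      exact Submodule.mem_span_singleton_self _
    have h2 : c.dz ∈ Submodule.span (loc r) {g • c.dz} := by
      rw [← h, c.canon_eq hq]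
      exact Submodule.mem_span_singleton_self _
    obtain ⟨t, ht⟩ := Submodule.mem_span_singleton.1 h2
    have h3 : ((t : Fn 𝒜) * g) • c.dz = (1 : Fn 𝒜) • c.dz := by
      rw [one_smul, ← smul_smul]
      exact ht
    have h4 : (t : Fn 𝒜) * g = 1 := smul_left_injective (Fn 𝒜) c.dz_ne h3
    refine ⟨right_ne_zero_of_mul_eq_one h4, h1, ?_⟩
    rw [← eq_inv_of_mul_eq_one_left h4]
    exact t.2
  · intro h
    have hunit : IsUnit (⟨g, h.2.1⟩ : loc r) := IsUnit.of_mul_eq_one (⟨_, h.2.2⟩ : loc r)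
      (Subtype.ext (mul_inv_cancel₀ h.1))
    rw [c.canon_eq hq]
    exact (Submodule.span_singleton_smul_eq hunit c.dz).symm

/-- the section `(f / a ^ m) dz` generates at `r` iff `f` does not vanish at `r` -/
theorem Chart.gen_iff (c : Chart 𝒜 n) (A : Cartier 𝒜) (m : ℕ) {r : Pt 𝒜} (hq : c.In r) (f : c.O)
    {a : Fn 𝒜} (ha : UnitAt r (a / A.eqn r)) :
    A.Gen n m ((((f : Fn 𝒜) / a ^ m : Fn 𝒜)) • c.dz) r ↔ c.pt hq f ≠ 0 := by
  have hp : ∀ j : ℕ, UnitAt r ((a / A.eqn r) ^ j) := fun j =>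
    ⟨pow_ne_zero _ ha.1, pow_mem ha.2.1 j, by rw [← inv_pow]; exact pow_mem ha.2.2 j⟩
  have a0 : a ≠ 0 := fun h => ha.1 (by simp [h])
  have e0 : A.eqn r ≠ 0 := fun h => ha.1 (by simp [h])
  rw [Cartier.Gen, smul_smul, c.gen_iff_unit hq, c.pt_eq,
    ← unitAt_iff (x := ⟨(f : Fn 𝒜), c.le_loc hq f.2⟩)]
  constructor
  · intro h
    have h1 := PNear.unit_mul h (hp m)
    have e : A.eqn r ^ m * ((f : Fn 𝒜) / a ^ m) * (a / A.eqn r) ^ m = f := by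
      rw [div_pow]
      field_simp
    rwa [e] at h1
  · intro h
    have h1 := PNear.unit_mul h (PNear.unit_inv (hp m))
    have e : (f : Fn 𝒜) * ((a / A.eqn r) ^ m)⁻¹ = A.eqn r ^ m * ((f : Fn 𝒜) / a ^ m) := by
      rw [div_pow]
      field_simp
    rwa [e] at h1

end Pool.Agent.Lib.MP_9ff3e7_ag.F
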