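import Pool.Agent.Lib.MP_9ff3e7_ag.F.XEnd3a

/-! Sections of the adjoint bundle written with one local equation on a chart. -/

set_option autoImplicit false

namespace Pool.Agent.Lib.MP_9ff3e7_ag.F

open MeasureTheory MvPolynomial Metric Filter Topology

namespace PT

variable {n : ℕ} {S : Type} [CommRing S] [IsDomain S] [Algebra ℂ S] {𝒜 : ℕ → Submodule ℂ S}
  [GradedAlgebra 𝒜]

theorem sec_at (hR : EndRegSt n) (A : Cartier 𝒜) (k m : ℕ) (hk : 0 < k) (hm : 0 < m)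
    (θ : FractionRing S)
    (hθ : ∀ p : Pt 𝒜, ∀ l ∈ 𝒜 1, p.1 l ≠ 0 → ∃ u : Fn 𝒜, UnitAt p u ∧
      θ = (u * A.eqn p ^ k : Fn 𝒜) * algebraMap S (FractionRing S) l)
    (a0 : Fn 𝒜) (hx0 : a0 ≠ 0) (c : Chart 𝒜 n) (hz : ∀ i, c.z i ∈ c.fil 1) (u : c.Oˣ)
    (hu : θ = (((u : c.O) : Fn 𝒜) * a0 ^ k : Fn 𝒜) * algebraMap S (FractionRing S) c.l)
    (f : c.O)
    (hb : ∀ (Y : Set (Fin n → ℂ)) (τ : (Fin n → ℂ) → Pnt c.O), PPar Y τ →
      ∫⁻ y in Y, ENNReal.ofReal (‖pdet τ y‖ ^ 2 * ‖τ y f‖ ^ 2 *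
        (‖τ y u‖ ^ 2 / (1 + nsq (zz n (τ y)))) ^ ((m : ℝ) / k)) < ⊤)
    (c1 : Chart 𝒜 n) (q : Pt 𝒜) (hq : c1.In q) :
    A.eqn q ^ m • ((((f : Fn 𝒜) / a0 ^ m : Fn 𝒜)) • c.dz) ∈ canon n q := by
  obtain ⟨M, -⟩ := exists_model c.pres
  obtain ⟨M1, -⟩ := exists_model c1.pres
  obtain ⟨pd, p1, p2, p3⟩ := c1.exists_pd
  obtain ⟨u1, hu1, e1⟩ := hθ q c1.l c1.l.2 hq.1
  obtain ⟨α, β, hβ, hαβ⟩ := (c1.mem_loc_iff hq).1 hu1.2.1
  have hα : c1.pt hq α ≠ 0 := by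
    have h1 : ev q ⟨u1, hu1.2.1⟩ ≠ 0 := unitAt_iff.1 hu1
    have h2 : (⟨α, c1.le_loc hq α.2⟩ : loc q) = ⟨u1, hu1.2.1⟩ * ⟨β, c1.le_loc hq β.2⟩ :=
      Subtype.ext hαβ.symm
    rw [c1.pt_eq, h2, map_mul]
    exact mul_ne_zero h1 hβ
  have hl : ((c1.dh c.l : Fn 𝒜) : FractionRing S) =
      algebraMap S (FractionRing S) c.l / algebraMap S (FractionRing S) c1.l := by
    rw [Chart.dh_coe, deh_coe c1.l c.l.2, pow_one]
  have hlam : A.eqn q ^ k * u1 = ((u : c.O) : Fn 𝒜) * a0 ^ k * (c1.dh c.l : Fn 𝒜) := by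
    apply Subtype.ext
    have l1 := alg_ne c1.l0
    rw [IntermediateField.coe_mul _ (((u : c.O) : Fn 𝒜) * a0 ^ k), hl, ← mul_div_assoc, ← hu,
      e1, mul_div_cancel_right₀ _ l1, mul_comm]
  obtain ⟨a, d, hd, e⟩ := hR c.O c1.O M M1
    (fun y => by obtain ⟨a, ha, b, hb, -, h⟩ := c.frac y; exact ⟨a, ha, b, hb, h⟩)
    (fun y => by obtain ⟨a, ha, b, hb, -, h⟩ := c1.frac y; exact ⟨a, ha, b, hb, h⟩)
    pd p1 p2 (c1.pt hq) f u k m hk hm hb (A.eqn q / a0) (c1.dh c.l) α β hα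
    (by
      rw [← hαβ, div_pow, div_mul_eq_mul_div, ← mul_assoc, hlam,
        div_eq_iff (pow_ne_zero _ hx0)]
      ring)
    (fun i => by
      obtain ⟨a, ha, e⟩ := c.mem_fil.1 (hz i)
      have e' : zc n c.O i = c.dh a := e.symm
      have : ((zc n c.O i : c.O) : Fn 𝒜) * (c1.dh c.l : Fn 𝒜) = c1.dh a := by
        apply Subtype.ext
        have l0 := alg_ne c.l0
        rw [IntermediateField.coe_mul, hl, e', Chart.dh_coe, Chart.dh_coe, deh_coe c.l ha,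
          deh_coe c1.l ha, pow_one, pow_one]
        field_simp
      rw [this]
      exact (c1.dh a).2)
  have hdz : c.dz = (Matrix.of fun i j => pd i (c.z j : Fn 𝒜)).det • c1.dz :=
    (top_det (fun i => (c1.z i : Fn 𝒜)) pd p2 p3).2.2 fun j => (c.z j : Fn 𝒜)
  rw [hdz, smul_smul, smul_smul, c1.smul_dz_mem hq, c1.mem_loc_iff hq]
  refine ⟨a, d, hd, ?_⟩
  rw [← e, div_pow]
  change _ = _ * (Matrix.of fun i j => pd i (c.z j : Fn 𝒜)).det * _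
  ring

theorem gen_iff (A : Cartier 𝒜) (m : ℕ) (c : Chart 𝒜 n) {r : Pt 𝒜} (hr : c.In r) {a : Fn 𝒜}
    (ha : UnitAt r (a / A.eqn r)) (f : c.O) :
    A.Gen n m (((f : Fn 𝒜) / a ^ m : Fn 𝒜) • c.dz) r ↔ c.pt hr f ≠ 0 := by
  have e0 := A.eqn_ne0 r
  have a0 : a ≠ 0 := fun h => ha.1 (by simp [h])
  let w : loc r := ⟨(a / A.eqn r)⁻¹, ha.2.2⟩
  let g : loc r := ⟨f, c.le_loc hr f.2⟩
  have hw : ev r w ≠ 0 := unitAt_iff.1 ⟨inv_ne_zero ha.1, ha.2.2, by simpa [w] using ha.2.1⟩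
  have e : A.eqn r ^ m • ((f : Fn 𝒜) / a ^ m : Fn 𝒜) • c.dz = (w ^ m * g) • c.dz := by
    change _ = ((w ^ m * g : loc r) : Fn 𝒜) • c.dz
    rw [smul_smul]
    congr 1
    simp only [w, g, MulMemClass.coe_mul, SubmonoidClass.coe_pow, inv_div, div_pow]
    ring
  rw [Cartier.Gen, e, c.canon_eq hr, c.pt_eq]
  constructor
  · intro h h0
    obtain ⟨t, ht⟩ := Submodule.mem_span_singleton.1
      (h ▸ Submodule.mem_span_singleton_self c.dz :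
        c.dz ∈ Submodule.span (loc r) {(w ^ m * g) • c.dz})
    rw [smul_smul] at ht
    have h1 : ((t * (w ^ m * g) : loc r) : Fn 𝒜) • c.dz = (1 : Fn 𝒜) • c.dz := by
      rw [one_smul]; exact ht
    have h2 : t * (w ^ m * g) = 1 := Subtype.ext (smul_left_injective (Fn 𝒜) c.dz_ne h1)
    have h3 := congrArg (ev r) h2
    rw [map_mul, map_mul, show ev r g = 0 from h0] at h3
    simp at h3
  · intro h
    have hu : UnitAt r ((w ^ m * g : loc r) : Fn 𝒜) := unitAt_iff.2 (by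
      rw [map_mul, map_pow]; exact mul_ne_zero (pow_ne_zero _ hw) h)
    have hunit : IsUnit (w ^ m * g) := IsUnit.of_mul_eq_one (⟨_, hu.2.2⟩ : loc r)
      (Subtype.ext (mul_inv_cancel₀ hu.1))
    exact (Submodule.span_singleton_smul_eq hunit c.dz).symm

theorem adj_sub (A : Cartier 𝒜) (m : ℕ) (c : Chart 𝒜 n) (a : Fn 𝒜) {f g : c.O} (t : ℂ)
    (hf : A.Adj n m (((f : Fn 𝒜) / a ^ m : Fn 𝒜) • c.dz))
    (hg : A.Adj n m (((g : Fn 𝒜) / a ^ m : Fn 𝒜) • c.dz)) :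
    A.Adj n m ((((f - algebraMap ℂ c.O t * g : c.O) : Fn 𝒜) / a ^ m : Fn 𝒜) • c.dz) := by
  intro q
  have h := sub_mem (hf q) (Submodule.smul_mem _ (algebraMap ℂ (loc q) t) (hg q))
  have e : ∀ w : TopForm 𝒜 n, algebraMap ℂ (loc q) t • w = algebraMap ℂ (Fn 𝒜) t • w :=
    fun _ => rfl
  rw [e, smul_smul, smul_smul, smul_smul, ← sub_smul] at h
  have e2 : A.eqn q ^ m * (((f - algebraMap ℂ c.O t * g : c.O) : Fn 𝒜) / a ^ m) =
      A.eqn q ^ m * ((f : Fn 𝒜) / a ^ m) -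
        algebraMap ℂ (Fn 𝒜) t * A.eqn q ^ m * ((g : Fn 𝒜) / a ^ m) := by
    change _ * (((f : Fn 𝒜) - algebraMap ℂ (Fn 𝒜) t * g) / _) = _
    ring
  rwa [smul_smul, e2]

theorem pt_ne (c : Chart 𝒜 n) {x y : Pt 𝒜} (hx : c.In x) (hy : c.In y)
    (hxy : ∃ a ∈ 𝒜 1, ∃ b ∈ 𝒜 1, x.1 a * y.1 b ≠ x.1 b * y.1 a) : c.pt hx ≠ c.pt hy := by
  obtain ⟨a, ha, b, hb, h⟩ := hxy
  intro e
  have h1 := c.pt_dh hx ha
  have h2 := c.pt_dh hx hb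
  rw [e, c.pt_dh hy ha, pow_one, pow_one, div_eq_div_iff hy.1 hx.1] at h1
  rw [e, c.pt_dh hy hb, pow_one, pow_one, div_eq_div_iff hy.1 hx.1] at h2
  exact h (mul_right_cancel₀ hx.1 (mul_right_cancel₀ hy.1
    (by linear_combination (x.1 a * y.1 c.l) * h2 - (x.1 b * y.1 c.l) * h1)))

end PT

end Pool.Agent.Lib.MP_9ff3e7_ag.F
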