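import Mathlib

/-! Linear Noether normalisation through minimal reductions. -/

set_option autoImplicit false

namespace Pool.Agent.Lib.MP_9ff3e7_ag.F.X2

open Module MvPolynomial Submodule

variable {L : Type} [Field L] [Algebra ℂ L]

theorem pow_le_of_red {E Y : Submodule ℂ L} {M b : ℕ} (h : E ^ (M + b) ≤ Y * E ^ M) (j : ℕ) :
    E ^ (M + b * j) ≤ Y ^ j * E ^ M := by
  induction j with
  | zero => simp
  | succ j ih =>
    calc E ^ (M + b * (j + 1)) = E ^ (M + b * j) * E ^ b := by rw [← pow_add]; congr 1; ring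
      _ ≤ Y ^ j * E ^ M * E ^ b := by gcongr
      _ = Y ^ j * E ^ (M + b) := by rw [mul_assoc, ← pow_add]
      _ ≤ Y ^ j * (Y * E ^ M) := by gcongr
      _ = Y ^ (j + 1) * E ^ M := by rw [pow_succ, mul_assoc]

/-- the part of `Y ^ s` that involves `Y'` -/
def lowPart (Y' Y : Submodule ℂ L) : ℕ → Submodule ℂ L
  | 0 => ⊥
  | s + 1 => Y' * Y ^ s

theorem low_step {Y' Y : Submodule ℂ L} {w : L} (hw : w ∈ Y) {s : ℕ} {a m : L} {r c : ℂ}
    (ha : a ∈ Y ^ s) (h : a - r • w ^ s ∈ lowPart Y' Y s) (hm : m - c • w ∈ Y') :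
    m * a - (c * r) • w ^ (s + 1) ∈ lowPart Y' Y (s + 1) := by
  have e : m * a - (c * r) • w ^ (s + 1) = (m - c • w) * a + c • ((a - r • w ^ s) * w) := by
    simp only [Algebra.smul_def, map_mul]; ring
  rw [e]
  refine add_mem (mul_mem_mul hm ha) (smul_mem _ _ ?_)
  cases s with
  | zero =>
    have : a - r • w ^ 0 = 0 := h
    rw [this]; simp
  | succ s =>
    have h' : a - r • w ^ (s + 1) ∈ Y' * Y ^ s := h
    have := mul_mem_mul h' hw
    rw [mul_assoc, ← pow_succ] at this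
    exact this

theorem drop_one {d : ℕ} (y : Fin (d + 1) → L) {s : ℕ} {G : MvPolynomial (Fin (d + 1)) ℂ}
    (hG : G.IsHomogeneous s) (h0 : aeval y G = 0) (hne : G ≠ 0) :
    ∃ (y' : Fin d → L) (t : ℕ), (∀ i, y' i ∈ span ℂ (Set.range y)) ∧
      span ℂ (Set.range y) ^ (t + 1) ≤ span ℂ (Set.range y') * span ℂ (Set.range y) ^ t := by
  classical
  have hne' : G * X 0 ≠ 0 := mul_ne_zero hne (X_ne_zero 0)
  obtain ⟨c, hc⟩ : ∃ c : Fin (d + 1) → ℂ, eval c (G * X 0) ≠ 0 := by
    by_contra hcon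
    push Not at hcon
    exact hne' (MvPolynomial.funext fun x => by rw [hcon x]; simp)
  rw [map_mul, eval_X] at hc
  have hc1 : eval c G ≠ 0 := left_ne_zero_of_mul hc
  have hc0 : c 0 ≠ 0 := right_ne_zero_of_mul hc
  set Y := span ℂ (Set.range y) with hY
  set w : L := (c 0)⁻¹ • y 0 with hw
  have hyY : ∀ i, y i ∈ Y := fun i => subset_span ⟨i, rfl⟩
  have hwY : w ∈ Y := smul_mem _ _ (hyY 0)
  let y' : Fin d → L := fun i => y i.succ - c i.succ • w
  set Y' := span ℂ (Set.range y') with hY'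
  have hy : ∀ i, y i - c i • w ∈ Y' := by
    intro i
    refine Fin.cases ?_ (fun i => subset_span ⟨i, rfl⟩) i
    rw [hw, smul_smul, mul_inv_cancel₀ hc0, one_smul, sub_self]
    exact zero_mem _
  have hlin : ∀ m ∈ span ℂ (Set.range (X : Fin (d + 1) → MvPolynomial (Fin (d + 1)) ℂ)),
      aeval y m ∈ Y ∧ aeval y m - eval c m • w ∈ Y' := by
    intro m hm
    induction hm using span_induction with
    | mem x hx => obtain ⟨i, rfl⟩ := hx; simpa using ⟨hyY i, hy i⟩
    | zero => simp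
    | add a b _ _ ha hb =>
      refine ⟨by rw [map_add]; exact add_mem ha.1 hb.1, ?_⟩
      have := add_mem ha.2 hb.2
      rw [map_add, map_add, add_smul, ← sub_add_sub_comm]
      exact this
    | smul r a _ ha =>
      refine ⟨by rw [map_smul]; exact smul_mem _ _ ha.1, ?_⟩
      have := smul_mem _ r ha.2
      rw [map_smul, smul_eval, mul_smul, ← smul_sub]
      exact this
  have key : ∀ (n : ℕ) (F : MvPolynomial (Fin (d + 1)) ℂ),
      F ∈ span ℂ (Set.range (X : Fin (d + 1) → MvPolynomial (Fin (d + 1)) ℂ)) ^ n →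
      aeval y F ∈ Y ^ n ∧ aeval y F - eval c F • w ^ n ∈ lowPart Y' Y n := by
    intro n F hF
    induction hF using Submodule.pow_induction_on_left' with
    | algebraMap r =>
      refine ⟨by simp [Algebra.algebraMap_eq_smul_one, smul_mem, one_le.1], ?_⟩
      change _ ∈ (⊥ : Submodule ℂ L)
      simp [Algebra.smul_def]
    | add a b i _ _ ha hb =>
      refine ⟨by rw [map_add]; exact add_mem ha.1 hb.1, ?_⟩
      have := add_mem ha.2 hb.2
      rw [map_add, map_add, add_smul, ← sub_add_sub_comm]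
      exact this
    | mem_mul m hm i x _ hx =>
      rw [map_mul, map_mul]
      refine ⟨?_, low_step hwY hx.1 hx.2 (hlin m hm).2⟩
      rw [Nat.succ_eq_add_one, pow_succ']
      exact mul_mem_mul (hlin m hm).1 hx.1
  have hGs : G ∈ span ℂ (Set.range (X : Fin (d + 1) → MvPolynomial (Fin (d + 1)) ℂ)) ^ s := by
    rw [← homogeneousSubmodule_one_eq_span_X, homogeneousSubmodule_one_pow]; exact hG
  have hws : w ^ s ∈ lowPart Y' Y s := by
    have := (key s G hGs).2
    rw [h0, zero_sub] at this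
    have h2 := smul_mem _ (eval c G)⁻¹ (neg_mem this)
    rwa [neg_neg, smul_smul, inv_mul_cancel₀ hc1, one_smul] at h2
  cases s with
  | zero =>
    have : w ^ 0 = 0 := hws
    simp at this
  | succ t =>
    refine ⟨y', t, fun i => sub_mem (hyY _) (smul_mem _ _ hwY), ?_⟩
    intro a ha
    have hmap : Y ^ (t + 1) = Submodule.map (aeval y).toLinearMap
        (span ℂ (Set.range (X : Fin (d + 1) → MvPolynomial (Fin (d + 1)) ℂ)) ^ (t + 1)) := by
      have hf : (⇑(aeval y : MvPolynomial (Fin (d + 1)) ℂ →ₐ[ℂ] L).toLinearMap ∘ X) = y := by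
        funext i; simp
      rw [Submodule.map_pow, map_span, ← Set.range_comp, hf]
    rw [hmap] at ha
    obtain ⟨F, hF, rfl⟩ := ha
    have h1 := (key _ F hF).2
    have h2 := add_mem h1 (smul_mem _ (eval c F) hws)
    rw [sub_add_cancel] at h2
    exact h2

/-- linear Noether normalisation -/
theorem exists_red (E : Submodule ℂ L) [FiniteDimensional ℂ E] (h1 : (1 : L) ∈ E) :
    ∃ (d M : ℕ) (y : Fin (d + 1) → L), (∀ i, y i ∈ E) ∧
      (∀ (s : ℕ) (G : MvPolynomial (Fin (d + 1)) ℂ), G.IsHomogeneous s → aeval y G = 0 → G = 0) ∧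
      E ^ (M + 1) ≤ span ℂ (Set.range y) * E ^ M := by
  classical
  have hex : ∃ n : ℕ, ∃ (M : ℕ) (y : Fin n → L), (∀ i, y i ∈ E) ∧
      E ^ (M + 1) ≤ span ℂ (Set.range y) * E ^ M := by
    have hfg : E.FG := Module.Finite.iff_fg.1 inferInstance
    obtain ⟨n, y, hy⟩ := Submodule.fg_iff_exists_fin_generating_family.1 hfg
    exact ⟨n, 0, y, fun i => hy ▸ subset_span ⟨i, rfl⟩, by simp [hy]⟩
  have hmin := fun m => Nat.find_min hex (m := m)
  obtain ⟨M, y, hy, hred⟩ := Nat.find_spec hex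
  generalize Nat.find hex = n at *
  cases n with
  | zero =>
    have : (1 : L) ∈ E ^ (M + 1) := by simpa using pow_mem_pow E h1 (M + 1)
    have h2 := hred this
    simp at h2
  | succ d =>
    refine ⟨d, M, y, hy, fun s G hG h0 => ?_, hred⟩
    by_contra hne
    obtain ⟨y', t, hy', hle⟩ := drop_one y hG h0 hne
    have hYE : span ℂ (Set.range y) ≤ E := span_le.2 (by rintro _ ⟨i, rfl⟩; exact hy i)
    refine hmin d (Nat.lt_succ_self d) ⟨M + t, y', fun i => hYE (hy' i), ?_⟩
    calc E ^ (M + t + 1) = E ^ (M + 1 * (t + 1)) := by congr 1; ring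
      _ ≤ span ℂ (Set.range y) ^ (t + 1) * E ^ M := pow_le_of_red hred _
      _ ≤ span ℂ (Set.range y') * span ℂ (Set.range y) ^ t * E ^ M := by gcongr
      _ ≤ span ℂ (Set.range y') * E ^ t * E ^ M := by gcongr
      _ = span ℂ (Set.range y') * E ^ (M + t) := by rw [mul_assoc, ← pow_add, add_comm]

end Pool.Agent.Lib.MP_9ff3e7_ag.F.X2
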