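import Pool.Agent.Lib.MP_9ff3e7_ag.F.Defs

/-! The canonical stalk of a local ring and sections of adjoint bundles, over a general field. -/

set_option autoImplicit false

namespace Pool.Agent.Lib.MP_9ff3e7_ag.F

noncomputable section

section module

variable {K M : Type} [Field K] [Algebra ℂ K] [AddCommGroup M] [Module K M]

/-- `v₁ ∧ ⋯ ∧ vₙ` -/
def wedge (K : Type) [Field K] [Module K M] {n : ℕ} (v : Fin n → M) : ⋀[K]^n M :=
  exteriorPower.ιMulti K n v

/-- the `R`-span of the `d f₁ ∧ ⋯ ∧ d fₙ` with all `fᵢ` in `R` -/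
def stalk (d : K → M) (n : ℕ) (R : Subalgebra ℂ K) : Submodule R (⋀[K]^n M) :=
  Submodule.span R {ω | ∃ f : Fin n → K, (∀ i, f i ∈ R) ∧ ω = wedge K fun i => d (f i)}

/-- `a ω` lies in the stalk -/
def RegIn (d : K → M) (n : ℕ) (R : Subalgebra ℂ K) (a : K) (ω : ⋀[K]^n M) : Prop :=
  a • ω ∈ stalk d n R

/-- `a ω` generates the stalk -/
def GenIn (d : K → M) (n : ℕ) (R : Subalgebra ℂ K) (a : K) (ω : ⋀[K]^n M) : Prop :=
  stalk d n R = Submodule.span R {a • ω}

/-- some `ω` has `a p • ω` in the stalk of `R p` for all `p`, generating it at `p = x` -/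
def FreeMod {P : Type} (d : K → M) (n : ℕ) (R : P → Subalgebra ℂ K) (a : P → K) (x : P) : Prop :=
  ∃ ω : ⋀[K]^n M, (∀ p, RegIn d n (R p) (a p) ω) ∧ GenIn d n (R x) (a x) ω

end module

section field

variable {K : Type} [Field K] [Algebra ℂ K]

/-- the universal derivation `d : K → Ω[K⁄ℂ]` -/
def dK (f : K) : Ω[K⁄ℂ] := KaehlerDifferential.D ℂ K f

/-- `FreeMod` for the Kähler differentials of `K` -/
def FreeIn {P : Type} (n : ℕ) (R : P → Subalgebra ℂ K) (a : P → K) (x : P) : Prop :=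
  FreeMod dK n R a x

/-- `R` is formally smooth over `ℂ` -/
def SmoothIn (R : Subalgebra ℂ K) : Prop := Algebra.FormallySmooth ℂ R

end field

variable {S : Type} [CommRing S] [IsDomain S] [Algebra ℂ S] {𝒜 : ℕ → Submodule ℂ S}

/-- `K_X + mA` has a global section that generates the stalk at `x` -/
def Cartier.FreeAt (A : Cartier 𝒜) (n m : ℕ) (x : Pt 𝒜) : Prop :=
  FreeIn n (fun p : Pt 𝒜 => loc p) (fun p => A.eqn p ^ m) x

end

end Pool.Agent.Lib.MP_9ff3e7_ag.F
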