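import Pool.Agent.Lib.MP_9ff3e7_ag.F.SDefs

/-! Separation of two points by sections of an adjoint bundle. -/

set_option autoImplicit false

namespace Pool.Agent.Lib.MP_9ff3e7_ag.F

noncomputable section

/-- some `ω` has `a p • ω` in the stalk of `R p` for all `p`, generating it at `x`, not at `y` -/
def SepMod {K M P : Type} [Field K] [Algebra ℂ K] [AddCommGroup M] [Module K M] (d : K → M)
    (n : ℕ) (R : P → Subalgebra ℂ K) (a : P → K) (x y : P) : Prop :=
  ∃ ω : ⋀[K]^n M, (∀ p, RegIn d n (R p) (a p) ω) ∧ GenIn d n (R x) (a x) ω ∧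
    ¬ GenIn d n (R y) (a y) ω

/-- `SepMod` for the Kähler differentials of `K` -/
def SepIn {K P : Type} [Field K] [Algebra ℂ K] (n : ℕ) (R : P → Subalgebra ℂ K) (a : P → K)
    (x y : P) : Prop :=
  SepMod dK n R a x y

variable {S : Type} [CommRing S] [IsDomain S] [Algebra ℂ S] {𝒜 : ℕ → Submodule ℂ S}

/-- `K_X + mA` has a global section that vanishes at `y` and does not vanish at `x` -/
def Cartier.SepAt (A : Cartier 𝒜) (n m : ℕ) (x y : Pt 𝒜) : Prop :=
  SepIn n (fun p : Pt 𝒜 => loc p) (fun p => A.eqn p ^ m) x y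

end

end Pool.Agent.Lib.MP_9ff3e7_ag.F
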