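import Pool.Agent.Lib.MP_9ff3e7_ag.F.HB0
import Pool.Agent.Lib.MP_9ff3e7_ag.F.LeviC
import Pool.Agent.Lib.MP_9ff3e7_ag.F.CauchyEst

/-! The one scale criterion for the integrability of `e^(-ψ)`. -/

set_option autoImplicit false

namespace Pool.Agent.Lib.MP_9ff3e7_ag.F

open Complex MeasureTheory Metric Filter Topology
open scoped ContDiff

namespace SemiCrit

theorem w_hi {E s : ℝ} (hE : 0 < E) (hs : 1 ≤ s) :
    Real.exp (-(1 / s * Real.log (E + Real.exp (-s)))) ≤ 3 := by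
  have h0 : 0 < s := by linarith
  have h1 : -s ≤ Real.log (E + Real.exp (-s)) := by
    rw [Real.le_log_iff_exp_le (by positivity)]
    linarith
  have h2 : -(1 / s * Real.log (E + Real.exp (-s))) ≤ 1 := by
    have : 1 / s * (-s) ≤ 1 / s * Real.log (E + Real.exp (-s)) :=
      mul_le_mul_of_nonneg_left h1 (by positivity)
    have e : 1 / s * (-s) = -1 := by field_simp
    linarith
  exact (Real.exp_le_exp.2 h2).trans (by linarith [Real.exp_one_lt_d9])

theorem w_lo {E s M : ℝ} (hE : 0 < E) (hM : E ≤ M) (hs : 1 ≤ s) :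
    1 ≤ (M + 1) * Real.exp (-(1 / s * Real.log (E + Real.exp (-s)))) := by
  have h0 : 0 < s := by linarith
  have hq : Real.exp (-s) ≤ 1 := Real.exp_le_one_iff.2 (by linarith)
  have h1 : Real.log (E + Real.exp (-s)) ≤ Real.log (M + 1) :=
    Real.log_le_log (by positivity) (by linarith)
  have h2 : 0 ≤ Real.log (M + 1) := Real.log_nonneg (by linarith)
  have h3 : 1 / s ≤ 1 := by rw [div_le_one h0]; exact hs
  have h4 : 1 / s * Real.log (E + Real.exp (-s)) ≤ Real.log (M + 1) :=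
    (mul_le_mul_of_nonneg_left h1 (by positivity)).trans (mul_le_of_le_one_left h2 h3)
  have h5 : Real.exp (-Real.log (M + 1)) ≤ Real.exp (-(1 / s * Real.log (E + Real.exp (-s)))) :=
    Real.exp_le_exp.2 (by linarith)
  have hM1 : 0 < M + 1 := by linarith
  rw [Real.exp_neg (Real.log _), Real.exp_log hM1] at h5
  calc (1 : ℝ) = (M + 1) * (M + 1)⁻¹ := (mul_inv_cancel₀ hM1.ne').symm
    _ ≤ _ := mul_le_mul_of_nonneg_left h5 hM1.le

theorem deriv_cut {q : ℝ} (hq : 0 < q) (t : ℝ) :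
    HasDerivAt (fun t => Real.exp t / (Real.exp t + q))
      (Real.exp t * q / (Real.exp t + q) ^ 2) t := by
  have p : Real.exp t + q ≠ 0 := by positivity
  have h := (Real.hasDerivAt_exp t).div ((Real.hasDerivAt_exp t).add_const q) p
  refine h.congr_deriv ?_
  ring

variable {ι : Type} [Fintype ι]

theorem key {ψ : (ι → ℂ) → ℝ} {x : ι → ℂ} (hψ : ContDiffAt ℝ 2 ψ x) {q s : ℝ} (hq : 0 < q)
    (hs : 0 < s) (ξ : ι → ℂ) (hp : 0 ≤ levi ψ x ξ) :
    0 ≤ levi (fun y => ψ y + 1 / s * Real.log (Real.exp (ψ y) + q)) x ξ ∧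
    ‖dbar (fun y => ((Real.exp (ψ y) / (Real.exp (ψ y) + q) : ℝ) : ℂ)) x ξ‖ ^ 2 ≤
      s * (Real.exp (ψ x) * q / (Real.exp (ψ x) + q) ^ 2) *
        levi (fun y => ψ y + 1 / s * Real.log (Real.exp (ψ y) + q)) x ξ := by
  have p : 0 < Real.exp (ψ x) + q := by positivity
  have hl : ContDiffAt ℝ 2 (fun y => Real.log (Real.exp (ψ y) + q)) x :=
    (hψ.exp.add contDiffAt_const).log p.ne'
  rw [levi_add hψ (contDiffAt_const.mul hl), levi_const_mul _ hl, levi_log_exp_add hψ hq.le,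
    dbar_comp_real (χ := fun t => Real.exp t / (Real.exp t + q))
      (deriv_cut hq _).differentiableAt (hψ.differentiableAt (by norm_num)),
    (deriv_cut hq _).deriv, norm_mul, mul_pow, norm_real, Real.norm_eq_abs, sq_abs]
  set a := Real.exp (ψ x) * q / (Real.exp (ψ x) + q) ^ 2 with ha
  set b := Real.exp (ψ x) / (Real.exp (ψ x) + q) with hb
  set D := ‖dbar (fun y => (ψ y : ℂ)) x ξ‖ ^ 2 with hD
  set L := levi ψ x ξ
  have a0 : 0 ≤ a := by positivity
  have b0 : 0 ≤ b := by positivity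
  have D0 : 0 ≤ D := by positivity
  refine ⟨by positivity, ?_⟩
  have e : s * a * (L + 1 / s * (b * L + a * D)) = a ^ 2 * D + (s * a * L + a * (b * L)) := by
    field_simp
    ring
  rw [e]
  have : 0 ≤ s * a * L + a * (b * L) := by positivity
  linarith

theorem sq_add_le (u v : ℂ) : ‖u + v‖ ^ 2 ≤ 2 * ‖u‖ ^ 2 + 2 * ‖v‖ ^ 2 := by
  have h := norm_add_le u v
  have h1 : ‖u + v‖ ^ 2 ≤ (‖u‖ + ‖v‖) ^ 2 := pow_le_pow_left₀ (norm_nonneg _) h 2
  nlinarith [sq_nonneg (‖u‖ - ‖v‖)]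

theorem pt1 {E q s M W : ℝ} (hE : 0 < E) (hq : 0 < q) (hq1 : q ≤ 1) (hs : 1 ≤ s) (hM : E ≤ M)
    (hW : 1 ≤ (M + 1) * W) (u : ℂ) :
    ‖u - 1‖ ^ 2 ≤ 2 * M * (M + 1) * (‖u - ((E / (E + q) : ℝ) : ℂ)‖ ^ 2 * (E⁻¹ * W)) +
      2 * (s * q / (E + q) ^ 2) := by
  have p : 0 < E + q := by positivity
  have e : u - 1 = (u - ((E / (E + q) : ℝ) : ℂ)) + ((-(q / (E + q)) : ℝ) : ℂ) := by
    have : E / (E + q) - 1 = -(q / (E + q)) := by field_simp; ring
    rw [← this]; push_cast; ring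
  have h1 := sq_add_le (u - ((E / (E + q) : ℝ) : ℂ)) ((-(q / (E + q)) : ℝ) : ℂ)
  rw [← e, norm_real, Real.norm_eq_abs, sq_abs, neg_sq] at h1
  set N := ‖u - ((E / (E + q) : ℝ) : ℂ)‖ ^ 2
  have N0 : 0 ≤ N := by positivity
  have h2 : (q / (E + q)) ^ 2 ≤ s * q / (E + q) ^ 2 := by
    rw [div_pow]
    refine div_le_div_of_nonneg_right ?_ (by positivity)
    nlinarith
  have h3 : 1 ≤ M * E⁻¹ := by
    rw [← div_eq_mul_inv, le_div_iff₀ hE]; linarith
  have h4 : 1 ≤ (M * E⁻¹) * ((M + 1) * W) := one_le_mul_of_one_le_of_one_le h3 hW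
  have h5 : N ≤ N * ((M * E⁻¹) * ((M + 1) * W)) := le_mul_of_one_le_right N0 h4
  have e2 : 2 * M * (M + 1) * (N * (E⁻¹ * W)) = 2 * (N * ((M * E⁻¹) * ((M + 1) * W))) := by ring
  rw [e2]
  linarith

theorem pt2 {E q M W : ℝ} (hE : 0 < E) (hq : 0 < q)
    (hW : 1 ≤ (M + 1) * W) {u : ℂ} (hu : ‖u - 1‖ ≤ 1 / 2) :
    E⁻¹ ≤ 8 * (M + 1) * (‖u - ((E / (E + q) : ℝ) : ℂ)‖ ^ 2 * (E⁻¹ * W)) + 8 / q := by
  have p : 0 < E + q := by positivity
  have h0 : 1 / 2 ≤ ‖u‖ := by
    have := norm_sub_norm_le (1 : ℂ) u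
    rw [norm_sub_rev, norm_one] at this
    linarith
  have h1 := sq_add_le (u - ((E / (E + q) : ℝ) : ℂ)) ((E / (E + q) : ℝ) : ℂ)
  rw [sub_add_cancel, norm_real, Real.norm_eq_abs, sq_abs] at h1
  set N := ‖u - ((E / (E + q) : ℝ) : ℂ)‖ ^ 2
  have N0 : 0 ≤ N := by positivity
  have h2 : 1 ≤ 8 * N + 8 * (E / (E + q)) ^ 2 := by nlinarith
  have hi : 0 < E⁻¹ := inv_pos.2 hE
  have h3 : (E / (E + q)) ^ 2 * E⁻¹ ≤ 1 / q := by
    have e : (E / (E + q)) ^ 2 * E⁻¹ = E / (E + q) ^ 2 := by field_simp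
    rw [e, div_le_div_iff₀ (by positivity) hq]
    nlinarith
  have h4 : N * E⁻¹ ≤ N * E⁻¹ * ((M + 1) * W) := le_mul_of_one_le_right (by positivity) hW
  have h5 : E⁻¹ ≤ (8 * N + 8 * (E / (E + q)) ^ 2) * E⁻¹ := le_mul_of_one_le_left hi.le h2
  have e2 : 8 * (M + 1) * (N * (E⁻¹ * W)) = 8 * (N * E⁻¹ * ((M + 1) * W)) := by ring
  have e3 : 8 / q = 8 * (1 / q) := by ring
  rw [e2, e3]
  nlinarith

end SemiCrit

open SemiCrit in
/-- the one scale criterion for a smooth weight -/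
theorem semi_crit {ι : Type} [Fintype ι] (hH : HormSt ι) {R M : ℝ} (hR : 0 < R) (hM : 0 ≤ M) :
    ∃ r c0 : ℝ, 0 < r ∧ r ≤ R ∧ 0 < c0 ∧ ∀ s : ℝ, 1 ≤ s → ∃ K : ℝ,
      ∀ (p : ι → ℂ) (ψ : (ι → ℂ) → ℝ), ContDiffOn ℝ ∞ ψ (ball p R) →
      (∀ x ∈ ball p R, ∀ ξ, 0 ≤ levi ψ x ξ) → (∀ x ∈ ball p R, Real.exp (ψ x) ≤ M) →
      ∫⁻ x in ball p R, ENNReal.ofReal
        (s * Real.exp (-s) / (Real.exp (ψ x) + Real.exp (-s)) ^ 2) ≤ ENNReal.ofReal c0 →
      ∫⁻ x in ball p r, ENNReal.ofReal (Real.exp (-ψ x)) ≤ ENNReal.ofReal K := by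
  obtain ⟨r0, hr0, hr0R, hcard⟩ : ∃ r0 : ℝ, 0 < r0 ∧ r0 ≤ R ∧
      (Fintype.card ι : ℝ) * r0 ^ 2 < R ^ 2 := by
    have hc : (0 : ℝ) ≤ Fintype.card ι := Nat.cast_nonneg _
    refine ⟨R / (Fintype.card ι + 1), by positivity, div_le_self hR.le (by linarith), ?_⟩
    rw [div_pow, ← mul_div_assoc, div_lt_iff₀ (by positivity)]
    nlinarith [mul_pos hR hR, mul_nonneg hc hc, mul_nonneg (mul_pos hR hR).le (mul_nonneg hc hc),
      mul_nonneg (mul_pos hR hR).le hc]
  obtain ⟨η0, hη0, hsm⟩ := small_l2 ι hr0 (show (0 : ℝ) < 1 / 2 by norm_num)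
  set c0 : ℝ := η0 / (2 * M * (M + 1) * 4 + 2) with hc0
  have c0p : 0 < c0 := by positivity
  refine ⟨r0 / 2, c0, by positivity, by linarith, c0p, fun s hs => ?_⟩
  have s0 : 0 < s := by linarith
  set q := Real.exp (-s) with hqd
  have hq : 0 < q := Real.exp_pos _
  have hq1 : q ≤ 1 := Real.exp_le_one_iff.2 (by linarith)
  refine ⟨8 * (M + 1) * (4 * c0) + 8 / q * (Real.pi * (r0 / 2) ^ 2) ^ Fintype.card ι,
    fun p ψ hψ hpsh hb hT => ?_⟩
  have two : (2 : WithTop ℕ∞) ≤ ∞ := WithTop.coe_le_coe.2 (le_top : (2 : ℕ∞) ≤ ⊤)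
  have hat : ∀ x ∈ ball p R, ContDiffAt ℝ 2 ψ x := fun x hx =>
    (hψ.contDiffAt (isOpen_ball.mem_nhds hx)).of_le two
  have hpos : ∀ x, Real.exp (ψ x) + q ≠ 0 := fun x => by positivity
  have hE : ContDiffOn ℝ ∞ (fun x => Real.exp (ψ x)) (ball p R) := hψ.exp
  have hEq : ContDiffOn ℝ ∞ (fun x => Real.exp (ψ x) + q) (ball p R) := hE.add contDiffOn_const
  have hΦ : ContDiffOn ℝ ∞ (fun y => ψ y + 1 / s * Real.log (Real.exp (ψ y) + q)) (ball p R) :=
    hψ.add (contDiffOn_const.mul (hEq.log fun x _ => hpos x))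
  have hf : ContDiffOn ℝ ∞ (fun y => ((Real.exp (ψ y) / (Real.exp (ψ y) + q) : ℝ) : ℂ))
      (ball p R) :=
    ofRealCLM.contDiff.comp_contDiffOn (hE.div hEq fun x _ => hpos x)
  have hcont : ContinuousOn (fun x => s * (Real.exp (ψ x) * q / (Real.exp (ψ x) + q) ^ 2))
      (ball p R) :=
    continuousOn_const.mul ((hE.continuousOn.mul continuousOn_const).div
      (hEq.continuousOn.pow 2) fun x _ => pow_ne_zero 2 (hpos x))
  classical
  obtain ⟨F, hF, hI⟩ := hormander_ball_of hH p hR hcard _ hΦ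
    (fun x hx ξ => (key (hat x hx) hq s0 ξ (hpsh x hx ξ)).1) _ hf
    ((ball p R).piecewise (fun x => s * (Real.exp (ψ x) * q / (Real.exp (ψ x) + q) ^ 2))
      fun _ => 0)
    (hcont.measurable_piecewise continuousOn_const measurableSet_ball)
    (fun x => by
      by_cases hx : x ∈ ball p R
      · rw [Set.piecewise_eq_of_mem _ _ _ hx]; positivity
      · rw [Set.piecewise_eq_of_notMem _ _ _ hx])
    (fun x hx ξ => by
      rw [Set.piecewise_eq_of_mem _ _ _ hx]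
      exact (key (hat x hx) hq s0 ξ (hpsh x hx ξ)).2) c0p
  have ew : ∀ x, Real.exp (-(ψ x + 1 / s * Real.log (Real.exp (ψ x) + q))) =
      (Real.exp (ψ x))⁻¹ * Real.exp (-(1 / s * Real.log (Real.exp (ψ x) + q))) := fun x => by
    rw [neg_add, Real.exp_add, Real.exp_neg (ψ x)]
  simp only [ew] at hI
  set G : (ι → ℂ) → ℝ := fun x =>
    ‖F x - ((Real.exp (ψ x) / (Real.exp (ψ x) + q) : ℝ) : ℂ)‖ ^ 2 *
      ((Real.exp (ψ x))⁻¹ * Real.exp (-(1 / s * Real.log (Real.exp (ψ x) + q)))) with hG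
  have G0 : ∀ x, 0 ≤ G x := fun x => by simp only [hG]; positivity
  have hG4 : ∫⁻ x in ball p r0, ENNReal.ofReal (G x) ≤ ENNReal.ofReal (4 * c0) := by
    refine hI.trans ?_
    have e4 : ENNReal.ofReal (4 * c0) = ENNReal.ofReal 3 * ENNReal.ofReal c0 +
        ENNReal.ofReal c0 := by
      rw [← ENNReal.ofReal_mul (by norm_num), ← ENNReal.ofReal_add (by positivity) c0p.le]
      congr 1; ring
    rw [e4]
    refine add_le_add_left ?_ _
    refine le_trans ?_ (mul_le_mul_right hT _)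
    rw [← lintegral_const_mul' _ _ ENNReal.ofReal_ne_top]
    refine setLIntegral_mono' measurableSet_ball fun x hx => ?_
    rw [Set.piecewise_eq_of_mem _ _ _ hx, ← ENNReal.ofReal_mul (by norm_num)]
    refine ENNReal.ofReal_le_ofReal ?_
    have h3 := w_hi (Real.exp_pos (ψ x)) hs
    have e : s * (Real.exp (ψ x) * q / (Real.exp (ψ x) + q) ^ 2) *
        ((Real.exp (ψ x))⁻¹ * Real.exp (-(1 / s * Real.log (Real.exp (ψ x) + q)))) =
        Real.exp (-(1 / s * Real.log (Real.exp (ψ x) + q))) *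
          (s * q / (Real.exp (ψ x) + q) ^ 2) := by
      have := (Real.exp_pos (ψ x)).ne'
      field_simp
    rw [e]
    exact mul_le_mul_of_nonneg_right h3 (by positivity)
  have hsub : ball p r0 ⊆ ball p R := ball_subset_ball hr0R
  have hTm : AEMeasurable (fun x => ENNReal.ofReal (2 * (s * q / (Real.exp (ψ x) + q) ^ 2)))
      (volume.restrict (ball p r0)) :=
    (((continuousOn_const.mul (continuousOn_const.div (hEq.continuousOn.pow 2)
      fun x _ => pow_ne_zero 2 (hpos x))).mono hsub).aemeasurable measurableSet_ball).ennreal_ofReal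
  have h1 : ∫⁻ x in ball p r0, ENNReal.ofReal (‖F x - 1‖ ^ 2) ≤ ENNReal.ofReal η0 := by
    calc ∫⁻ x in ball p r0, ENNReal.ofReal (‖F x - 1‖ ^ 2)
        ≤ ∫⁻ x in ball p r0, (ENNReal.ofReal (2 * M * (M + 1)) * ENNReal.ofReal (G x) +
            ENNReal.ofReal (2 * (s * q / (Real.exp (ψ x) + q) ^ 2))) := by
          refine setLIntegral_mono' measurableSet_ball fun x hx => ?_
          rw [← ENNReal.ofReal_mul (by positivity),
            ← ENNReal.ofReal_add (mul_nonneg (by positivity) (G0 x)) (by positivity)]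
          exact ENNReal.ofReal_le_ofReal (pt1 (Real.exp_pos _) hq hq1 hs (hb x (hsub hx))
            (w_lo (Real.exp_pos _) (hb x (hsub hx)) hs) (F x))
      _ = ENNReal.ofReal (2 * M * (M + 1)) * (∫⁻ x in ball p r0, ENNReal.ofReal (G x)) +
            ENNReal.ofReal 2 * ∫⁻ x in ball p r0,
              ENNReal.ofReal (s * q / (Real.exp (ψ x) + q) ^ 2) := by
          rw [lintegral_add_right' _ hTm, lintegral_const_mul' _ _ ENNReal.ofReal_ne_top,
            ← lintegral_const_mul' (ENNReal.ofReal 2) _ ENNReal.ofReal_ne_top]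
          simp only [ENNReal.ofReal_mul (show (0 : ℝ) ≤ 2 by norm_num)]
      _ ≤ ENNReal.ofReal (2 * M * (M + 1)) * ENNReal.ofReal (4 * c0) +
            ENNReal.ofReal 2 * ENNReal.ofReal c0 :=
          add_le_add (mul_le_mul_right hG4 _)
            (mul_le_mul_right ((lintegral_mono_set hsub).trans hT) _)
      _ = ENNReal.ofReal η0 := by
          rw [← ENNReal.ofReal_mul (by positivity), ← ENNReal.ofReal_mul (by norm_num),
            ← ENNReal.ofReal_add (by positivity) (by positivity)]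
          congr 1
          rw [hc0]
          field_simp
  have h2 := hsm (fun x => F x - 1) p (hF.sub_const 1).differentiableOn h1
  have hsub2 : ball p (r0 / 2) ⊆ ball p r0 := ball_subset_ball (by linarith)
  calc ∫⁻ x in ball p (r0 / 2), ENNReal.ofReal (Real.exp (-ψ x))
      ≤ ∫⁻ x in ball p (r0 / 2), (ENNReal.ofReal (8 * (M + 1)) * ENNReal.ofReal (G x) +
          ENNReal.ofReal (8 / q)) := by
        refine setLIntegral_mono' measurableSet_ball fun x hx => ?_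
        rw [← ENNReal.ofReal_mul (by positivity),
          ← ENNReal.ofReal_add (mul_nonneg (by positivity) (G0 x)) (by positivity), Real.exp_neg]
        exact ENNReal.ofReal_le_ofReal (pt2 (Real.exp_pos _) hq
          (w_lo (Real.exp_pos _) (hb x (hsub (hsub2 hx))) hs) (h2 x hx))
    _ = ENNReal.ofReal (8 * (M + 1)) * (∫⁻ x in ball p (r0 / 2), ENNReal.ofReal (G x)) +
          ENNReal.ofReal (8 / q) * volume (ball p (r0 / 2)) := by
        rw [lintegral_add_right _ measurable_const,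
          lintegral_const_mul' _ _ ENNReal.ofReal_ne_top, setLIntegral_const]
    _ ≤ ENNReal.ofReal (8 * (M + 1)) * ENNReal.ofReal (4 * c0) +
          ENNReal.ofReal (8 / q) * volume (ball p (r0 / 2)) :=
        add_le_add_left (mul_le_mul_right ((lintegral_mono_set hsub2).trans hG4) _) _
    _ = _ := by
        rw [vol_ball p (by positivity), ← ENNReal.ofReal_mul (by positivity),
          ← ENNReal.ofReal_mul (by positivity),
          ← ENNReal.ofReal_add (by positivity) (by positivity)]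

end Pool.Agent.Lib.MP_9ff3e7_ag.F
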