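import Pool.Agent.Lib.MP_9ff3e7_ag.F.K0
import Pool.Agent.Lib.MP_9ff3e7_ag.F.K1

/-! K5 from the model free semicontinuity theorem. -/

set_option autoImplicit false
set_option linter.unusedSectionVars false

namespace Pool.Agent.Lib.MP_9ff3e7_ag.F

open MeasureTheory Metric Filter Topology Finsupp

/-- the statement of model free semicontinuity on `ℂ^n` -/
def SemiLocSt (n : ℕ) : Prop :=
  ∀ (α : Type) [Fintype α] (J : α → Type) [∀ a, Fintype (J a)] (d : ℕ) (p : Fin n → ℂ)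
    (e : Fin d → (Fin n → ℂ) → ℂ), (∀ᶠ w in 𝓝 p, ∀ l, AnalyticAt ℂ (e l) w) →
    ∀ (c : α → ℝ), (∀ a, 0 ≤ c a) → ∀ ρ : ℝ, 1 < ρ → ∀ t₀ : ∀ a, J a → Fin d → ℂ,
    (∃ U ∈ 𝓝 p, ∫⁻ w in U,
      ∏ a, ENNReal.ofReal (∑ i, ‖∑ l, t₀ a i l * e l w‖ ^ 2) ^ (-(ρ * c a)) < ⊤) →
    ∃ U ∈ 𝓝 p, ∀ᶠ t : ∀ a, J a → Fin d → ℂ in 𝓝 t₀, ∫⁻ w in U,
      ∏ a, ENNReal.ofReal (∑ i, ‖∑ l, t a i l * e l w‖ ^ 2) ^ (-c a) < ⊤

variable {n : ℕ} {O : Type} [CommRing O] [IsDomain O] [Algebra ℂ O]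
  [Algebra (MvPolynomial (Fin n) ℂ) O] [IsScalarTower ℂ (MvPolynomial (Fin n) ℂ) O]

/-- `Klt` of a sum of tuples is the integrability of the tuple density -/
theorem Model.klt_tuple_iff (M : Model n O) {ι : Type} [Fintype ι] (J : ι → Type)
    [∀ a, Fintype (J a)] (f : ∀ a, J a → O) (c : ι → ℝ) (hc : ∀ a, 0 ≤ c a) (p : Pnt O) :
    M.Klt p (∑ a, single (Ideal.span (Set.range (f a))) (c a)) ↔ ∃ U ∈ 𝓝 (zz n p), ∫⁻ w in U,
      ∏ a, ENNReal.ofReal (∑ i, ‖M.sg p w (f a i)‖ ^ 2) ^ (-c a) < ⊤ := by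
  choose C hC h using fun a => K0.nsqI_cmp_range p (f a)
  have h' := eventually_all.2 h
  have hne : (∏ a, ENNReal.ofReal (C a) ^ c a) ≠ ⊤ :=
    ENNReal.prod_ne_top fun a _ => K1.cne (hc a)
  constructor
  · refine KB.int_of_le M p
      (u := fun y => ∏ a, ENNReal.ofReal (∑ i, ‖y (f a i)‖ ^ 2) ^ (-c a))
      (v := dens (∑ a, single (Ideal.span (Set.range (f a))) (c a))) hne ?_
    filter_upwards [h'] with y hy
    rw [K0.dens_sum_single _ _ _ fun a _ => hc a, ← Finset.prod_mul_distrib]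
    exact Finset.prod_le_prod' fun a _ => KB.rpow_neg_le (hC a) (hc a) (hy a).1
  · refine KB.int_of_le M p
      (v := fun y => ∏ a, ENNReal.ofReal (∑ i, ‖y (f a i)‖ ^ 2) ^ (-c a))
      (u := dens (∑ a, single (Ideal.span (Set.range (f a))) (c a))) hne ?_
    filter_upwards [h'] with y hy
    rw [K0.dens_sum_single _ _ _ fun a _ => hc a, ← Finset.prod_mul_distrib]
    exact Finset.prod_le_prod' fun a _ => KB.rpow_neg_le (hC a) (hc a) (hy a).2

omit [IsDomain O] in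
/-- coordinates on a finite dimensional subspace extend to the algebra -/
theorem exists_coords (V : Submodule ℂ O) [FiniteDimensional ℂ V] :
    ∃ (d : ℕ) (e : Fin d → O) (l : Fin d → O →ₗ[ℂ] ℂ), ∀ s ∈ V, s = ∑ j, l j s • e j := by
  let b := Module.finBasis ℂ V
  choose l hl using fun j => LinearMap.exists_extend (b.coord j)
  refine ⟨_, fun j => b j, l, fun s hs => ?_⟩
  have h1 : ∀ j, l j s = b.repr ⟨s, hs⟩ j := fun j => by
    have := LinearMap.congr_fun (hl j) ⟨s, hs⟩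
    simpa using this
  have h2 := congrArg V.subtype (b.sum_repr ⟨s, hs⟩)
  simp only [map_sum, map_smul, Submodule.subtype_apply] at h2
  simp only [h1]
  exact h2.symm

theorem Model.klt_semi_of (M : Model n O) (hS : SemiLocSt n) (B ι : Type) [TopologicalSpace B]
    [Fintype ι] (J : ι → Type)
    [∀ a, Fintype (J a)] (V : Submodule ℂ O) [FiniteDimensional ℂ V] (f : B → ∀ a, J a → O)
    (c : ι → ℝ) (β₀ : B) (p : Pnt O) (ρ : ℝ) (hV : ∀ β a i, f β a i ∈ V)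
    (hf : ∀ (l : O →ₗ[ℂ] ℂ) a i, ContinuousAt (fun β => l (f β a i)) β₀) (hc : ∀ a, 0 ≤ c a)
    (hρ : 1 < ρ) (hk : M.Klt p (ρ • ∑ a, single (Ideal.span (Set.range (f β₀ a))) (c a))) :
    ∀ᶠ q in 𝓝 β₀ ×ˢ nhd p,
      M.Klt q.2 (∑ a, single (Ideal.span (Set.range (f q.1 a))) (c a)) := by
  obtain ⟨d, e, l, hl⟩ := exists_coords V
  have hval : ∀ (y : Pnt O) β a i, y (f β a i) = ∑ j, l j (f β a i) * y (e j) := by
    intro y β a i
    conv_lhs => rw [hl _ (hV β a i)]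
    simp
  let t : B → ∀ a, J a → Fin d → ℂ := fun β a i j => l j (f β a i)
  have ht : ContinuousAt t β₀ :=
    continuousAt_pi.2 fun a => continuousAt_pi.2 fun i => continuousAt_pi.2 fun j => hf (l j) a i
  have hρ0 : 0 ≤ ρ := by linarith
  have hk' : M.Klt p (∑ a, single (Ideal.span (Set.range (f β₀ a))) (ρ * c a)) := by
    simpa only [Finset.smul_sum, smul_single, smul_eq_mul] using hk
  rw [M.klt_tuple_iff J (f β₀) (fun a => ρ * c a) (fun a => mul_nonneg hρ0 (hc a))] at hk'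
  simp only [hval _ β₀] at hk'
  obtain ⟨U, hU, h⟩ := hS ι J d (zz n p) (fun j w => M.sg p w (e j))
    ((M.an p).mono fun w hw j => hw (e j)) c hc ρ hρ (t β₀) hk'
  have h1 := ht.eventually h
  have h2 := (M.sg_near p).and ((tendsto_nhd_zz p).eventually (eventually_mem_nhds_iff.2 hU))
  filter_upwards [h1.prod_mk h2] with q hq
  obtain ⟨hq1, hq2, hq3⟩ := hq
  rw [M.klt_tuple_iff J (f q.1) c hc]
  obtain ⟨W, hW, hWo, hWp⟩ := _root_.mem_nhds_iff.1 (inter_mem hq3 hq2)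
  refine ⟨W, hWo.mem_nhds hWp, lt_of_le_of_lt ?_ hq1⟩
  refine le_trans (le_of_eq ?_) (lintegral_mono_set fun w hw => (hW hw).1)
  refine setLIntegral_congr_fun hWo.measurableSet fun w hw => ?_
  have : M.sg q.2 w = M.sg p w := (hW hw).2
  simp only [this, hval _ q.1, t]

end Pool.Agent.Lib.MP_9ff3e7_ag.F
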