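import Mathlib

/-! Separation of a convex down closed set from a segment. -/

set_option autoImplicit false

namespace Pool.Agent.Lib.MP_9ff3e7_ag.F

open Finset

theorem sep_abs {ι : Type} [Fintype ι] (S : Set ((ι → ℝ) × ℝ)) (hconv : Convex ℝ S)
    (hdown : ∀ p ∈ S, ∀ q : (ι → ℝ) × ℝ, 0 ≤ q → q ≤ p → q ∈ S)
    (hsmall : ∃ e : ℝ, 0 < e ∧ ((fun _ => e), e) ∈ S) (c : ι → ℝ) (hc : ∀ i, 0 ≤ c i)
    (hin : ∀ ρ : ℝ, 0 < ρ → ρ < 1 → ((fun i => ρ * c i), (0 : ℝ)) ∈ S) {K : ℝ} (hK : 0 < K)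
    (hout : ∀ e : ℝ, 0 < e → e < 1 → ((fun i => (1 - e) * c i), K * e) ∉ S) :
    ∃ (a : ι → ℝ) (κ : ℝ), (∀ i, 0 ≤ a i) ∧ 1 / K ≤ κ ∧ ∑ i, c i * a i = 1 ∧
      ∀ p ∈ S, ∑ i, p.1 i * a i + p.2 * κ ≤ 1 := by
  classical
  set U : Set ((ι → ℝ) × ℝ) := {q | ∃ p ∈ S, (∀ i, q.1 i < p.1 i) ∧ q.2 < p.2} with hU
  set T : Set ((ι → ℝ) × ℝ) :=
    {q | ∃ e : ℝ, 0 < e ∧ e < 1 ∧ q = ((fun i => (1 - e) * c i), K * e)} with hT
  have hUo : IsOpen U := by
    have : U = ⋃ p ∈ S, {q : (ι → ℝ) × ℝ | (∀ i, q.1 i < p.1 i) ∧ q.2 < p.2} := by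
      ext q; simp only [hU, Set.mem_ofPred_eq, Set.mem_iUnion, exists_prop]
    rw [this]
    refine isOpen_biUnion fun p _ => ?_
    have h1 : IsOpen {q : (ι → ℝ) × ℝ | ∀ i, q.1 i < p.1 i} := by
      have : {q : (ι → ℝ) × ℝ | ∀ i, q.1 i < p.1 i} = ⋂ i, {q | q.1 i < p.1 i} := by
        ext q; simp
      rw [this]
      exact isOpen_iInter_of_finite fun i => isOpen_lt (by fun_prop) continuous_const
    exact h1.inter (isOpen_lt continuous_snd continuous_const)
  have hUc : Convex ℝ U := by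
    rintro q ⟨p, hp, h1, h2⟩ q' ⟨p', hp', h1', h2'⟩ s t hs ht hst
    refine ⟨s • p + t • p', hconv hp hp' hs ht hst, fun i => ?_, ?_⟩
    · have := h1 i; have := h1' i
      simp only [Prod.fst_add, Prod.smul_fst, Pi.add_apply, Pi.smul_apply, smul_eq_mul]
      rcases hs.eq_or_lt with h | h
      · subst h; have : t = 1 := by linarith
        subst this; linarith
      · nlinarith
    · simp only [Prod.snd_add, Prod.smul_snd, smul_eq_mul]
      rcases hs.eq_or_lt with h | h
      · subst h; have : t = 1 := by linarith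
        subst this; linarith
      · nlinarith
  have hTc : Convex ℝ T := by
    rintro q ⟨e, he0, he1, rfl⟩ q' ⟨e', he0', he1', rfl⟩ s t hs ht hst
    refine ⟨s * e + t * e', ?_, ?_, ?_⟩
    · rcases hs.eq_or_lt with h | h
      · subst h; have : t = 1 := by linarith
        subst this; linarith
      · nlinarith
    · rcases hs.eq_or_lt with h | h
      · subst h; have : t = 1 := by linarith
        subst this; linarith
      · nlinarith
    · ext i
      · simp only [Prod.fst_add, Prod.smul_fst, Pi.add_apply, Pi.smul_apply, smul_eq_mul]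
        have : t = 1 - s := by linarith
        subst this; ring
      · simp only [Prod.snd_add, Prod.smul_snd, smul_eq_mul]; ring
  have hdis : Disjoint U T := by
    rw [Set.disjoint_left]
    rintro q ⟨p, hp, h1, h2⟩ ⟨e, he0, he1, rfl⟩
    refine hout e he0 he1 (hdown p hp _ ⟨fun i => ?_, ?_⟩ ⟨fun i => (h1 i).le, h2.le⟩)
    · exact mul_nonneg (by linarith) (hc i)
    · exact (mul_pos hK he0).le
  obtain ⟨f, u, hf1, hf2⟩ := geometric_hahn_banach_open hUc hUo hTc hdis
  set a : ι → ℝ := fun i => f (Pi.single i 1, 0) with ha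
  set κ : ℝ := f (0, 1) with hκ
  have hf : ∀ q : (ι → ℝ) × ℝ, f q = ∑ i, q.1 i * a i + q.2 * κ := by
    intro q
    have : q = ∑ i, q.1 i • ((Pi.single i 1, 0) : (ι → ℝ) × ℝ) + q.2 • (0, 1) := by
      ext i
      · simp [Prod.fst_sum, Finset.sum_apply, Pi.single_apply]
      · simp [Prod.snd_sum]
    conv_lhs => rw [this]
    simp only [map_add, map_sum, map_smul, smul_eq_mul, ha, hκ]
  obtain ⟨e0, he0, hS0⟩ := hsmall
  have h0U : ∀ q : (ι → ℝ) × ℝ, q ≤ 0 → q ∈ U := fun q hq =>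
    ⟨_, hS0, fun i => lt_of_le_of_lt (hq.1 i) he0, lt_of_le_of_lt hq.2 he0⟩
  have hu : 0 < u := by simpa using hf1 0 (h0U 0 le_rfl)
  have hpos : ∀ q : (ι → ℝ) × ℝ, 0 ≤ q → 0 ≤ f q := by
    intro q hq
    by_contra hneg
    push Not at hneg
    have h := hf1 ((u / f q) • q) (h0U _ (smul_nonpos_of_nonpos_of_nonneg
      (div_nonpos_of_nonneg_of_nonpos hu.le hneg.le) hq))
    rw [map_smul, smul_eq_mul, div_mul_cancel₀ _ hneg.ne] at h
    exact lt_irrefl _ h
  have ha0 : ∀ i, 0 ≤ a i := fun i => hpos _ ⟨fun j => by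
    simp only [Prod.fst_zero, Pi.zero_apply, Pi.single_apply]; split_ifs <;> norm_num, le_rfl⟩
  have hκ0 : 0 ≤ κ := hpos _ ⟨le_rfl, zero_le_one⟩
  have hS : ∀ p ∈ S, f p ≤ u := by
    intro p hp
    refine le_of_forall_pos_le_add fun η hη => ?_
    set o : (ι → ℝ) × ℝ := (fun _ => 1, 1) with ho
    have ho0 : 0 ≤ f o := hpos o ⟨fun _ => zero_le_one, zero_le_one⟩
    have hd : 0 < η / (f o + 1) := by positivity
    have h := hf1 (p - (η / (f o + 1)) • o) ⟨p, hp, fun i => by simp [ho]; positivity,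
      by simp [ho]; positivity⟩
    rw [map_sub, map_smul, smul_eq_mul] at h
    have : η / (f o + 1) * f o ≤ η := by
      rw [div_mul_eq_mul_div, div_le_iff₀ (by positivity)]; nlinarith
    linarith
  set A : ℝ := ∑ i, c i * a i with hA
  have hA0 : 0 ≤ A := sum_nonneg fun i _ => mul_nonneg (hc i) (ha0 i)
  have h1 : ∀ ρ : ℝ, 0 < ρ → ρ < 1 → ρ * A ≤ u := by
    intro ρ h0 h1
    have := hS _ (hin ρ h0 h1)
    rw [hf] at this
    simp only [zero_mul, add_zero, mul_assoc, ← mul_sum] at this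
    exact this
  have h2 : ∀ e : ℝ, 0 < e → e < 1 → u ≤ (1 - e) * A + K * e * κ := by
    intro e h0 h1
    have := hf2 _ ⟨e, h0, h1, rfl⟩
    rw [hf] at this
    simp only [mul_assoc, ← mul_sum] at this
    simpa only [mul_assoc] using this
  have hAu : A ≤ u := by
    by_contra hlt
    push Not at hlt
    have hA' : 0 < A := hu.trans hlt
    have := h1 ((u + A) / (2 * A)) (by positivity) (by rw [div_lt_one (by positivity)]; linarith)
    have e : (u + A) / (2 * A) * A = (u + A) / 2 := by field_simp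
    linarith
  have huA : u ≤ A := by
    refine le_of_forall_pos_le_add fun η hη => ?_
    have hd : 0 < K * κ + η + 1 := by positivity
    have := h2 (η / (K * κ + η + 1)) (by positivity)
      (by rw [div_lt_one hd]; nlinarith [mul_nonneg hK.le hκ0])
    have e1 : K * (η / (K * κ + η + 1)) * κ ≤ η := by
      rw [show K * (η / (K * κ + η + 1)) * κ = η * (K * κ) / (K * κ + η + 1) by ring,
        div_le_iff₀ hd]
      nlinarith
    have e2 : 0 ≤ η / (K * κ + η + 1) * A := by positivity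
    nlinarith
  have huK : u ≤ K * κ := by
    refine le_of_forall_pos_le_add fun η hη => ?_
    have hd : 0 < A + η + 1 := by positivity
    have hl : η / (A + η + 1) < 1 := by rw [div_lt_one hd]; linarith
    have hl0 : 0 < η / (A + η + 1) := by positivity
    have := h2 (1 - η / (A + η + 1)) (by linarith) (by linarith)
    have e1 : η / (A + η + 1) * A ≤ η := by
      rw [div_mul_eq_mul_div, div_le_iff₀ hd]; nlinarith
    have e2 : 0 ≤ K * κ * (η / (A + η + 1)) := by positivity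
    nlinarith
  refine ⟨fun i => a i / u, κ / u, fun i => div_nonneg (ha0 i) hu.le, ?_, ?_, fun p hp => ?_⟩
  · rw [div_le_div_iff₀ hK hu]; linarith
  · simp only [← mul_div_assoc, ← sum_div]
    rw [div_eq_one_iff_eq hu.ne']; linarith
  · have := hS p hp
    rw [hf] at this
    simp only [← mul_div_assoc, ← sum_div, ← add_div]
    rwa [div_le_one hu]

end Pool.Agent.Lib.MP_9ff3e7_ag.F
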