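import Pool.Agent.Lib.MP_9ff3e7_ag.F.StDefs
import Pool.Agent.Lib.MP_9ff3e7_ag.F.SepHyp

/-! The separating functional for the flags of a state. -/

set_option autoImplicit false

namespace Pool.Agent.Lib.MP_9ff3e7_ag.F

open Module Finset Finsupp Filter

theorem IsFlag.span_ne_bot {O : Type} [CommRing O] [Algebra ℂ O] {V C : Submodule ℂ O} {N : ℕ}
    {F : ℕ → Submodule ℂ O} (h : IsFlag V C N F) {r : ℕ} (hr : r < N) :
    Ideal.span (F r : Set O) ≠ ⊥ := by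
  intro hb
  have h0 : F r = ⊥ := by
    rw [eq_bot_iff]
    intro f hf
    exact (Ideal.span_eq_bot.1 hb) f hf
  have h1 := h.dim r hr.le
  have h2 := h.dim N le_rfl
  rw [h0, finrank_bot] at h1
  omega

variable {n : ℕ} {O : Type} [CommRing O] [IsDomain O] [Algebra ℂ O]
  [Algebra (MvPolynomial (Fin n) ℂ) O] [IsScalarTower ℂ (MvPolynomial (Fin n) ℂ) O]
  {M : Model n O} {T : Filt n O} {x : Pnt O} {S : Dat O} {c eps : ℕ → ℝ} {j L : ℕ}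

set_option linter.unusedVariables false in
set_option linter.unusedSectionVars false in
theorem sep_k (hK : KAx M) (hS : Ser T S L) (hc : ∀ i < L, 0 ≤ c i) (h1 : I1 M T x S L c)
    {F : ℕ → ℕ → Submodule ℂ O} (hF : S.Fam T L F) {Q : Ideal O} (hQ : Q.IsPrime) (hQ0 : Q ≠ ⊥)
    (hx : ∀ s ∈ Q, x s = 0) {η0 : ℝ} (hη : 0 < η0)
    (hmin : Q ∈ (M.nkltI ((1 + η0) • Phi L S.N F c)).minimalPrimes)
    (hN : ∀ η : ℝ, 0 < η → η ≤ η0 → ∀ y : Pnt O, (∀ s ∈ Q, y s = 0) →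
      ¬ M.Klt y ((1 + η) • Phi L S.N F c)) :
    ∃ (a : ℕ → ℕ → ℝ) (kp : ℝ), 0 < kp ∧ (∀ i r, 0 ≤ a i r) ∧
      (∀ i < L, ∀ r r', r ≤ r' → r' ≤ S.N i → a i r ≤ a i r') ∧
      1 ≤ ∑ i ∈ range L, c i * ∑ r ∈ range (S.N i), a i r ∧
      ∀ (y : Pnt O), (∀ s ∈ Q, y s = 0) → ∀ (w : ℕ → ℕ → ℝ) (b : ℝ), (∀ i r, 0 ≤ w i r) → 0 ≤ b →
        M.Klt y (∑ i ∈ range L, ∑ r ∈ range (S.N i + 1),
          single (Ideal.span (F i (pb (newBr (S.Br i) (S.N i) (a i)) r) : Set O)) (w i r) +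
            single Q b) →
        ∑ i ∈ range L, ∑ r ∈ range (S.N i + 1), w i r * a i r + b * kp ≤ 1 := by
  obtain ⟨a, κ, g1, g2, g3, -, g5, g6⟩ := separation_M hK x L S.N hS.Npos
    (fun i r => Ideal.span (F i r : Set O))
    (fun i hi r r' h h' => Ideal.span_mono ((hF i hi).1.anti r r' h h'))
    (fun i hi r hr => (hF i hi).1.span_ne_bot hr) c hc Q hQ0 hx
    (fun ρ h0 hρ => h1 ρ h0 hρ F hF) hη hmin hN
  exact ⟨a, κ, g1, g2, fun i _ r r' h _ => g3 i h, g5, fun y hy =>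
    g6 (fun i r => Ideal.span (F i (pb (newBr (S.Br i) (S.N i) (a i)) r) : Set O))
      (fun i hi r hr => ⟨_, (pb_le _ r).trans hr, le_pb_newBr (hS.brN i hi) (a i) hr, le_rfl⟩) y hy⟩

end Pool.Agent.Lib.MP_9ff3e7_ag.F
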