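import Pool.Agent.Lib.MP_9ff3e7_ag.F.StDefs
import Pool.Agent.Lib.MP_9ff3e7_ag.F.Upd

/-! The second half of the step: the new state. -/

set_option autoImplicit false

namespace Pool.Agent.Lib.MP_9ff3e7_ag.F

open Module Finset Finsupp Filter

variable {n : ℕ} {O : Type} [CommRing O] [Algebra ℂ O] [Algebra (MvPolynomial (Fin n) ℂ) O]
  {M : Model n O} {T : Filt n O} {x : Pnt O} {S : Dat O} {c eps : ℕ → ℝ} {j L : ℕ}

theorem step_close (hK : KAx M) (h : Inv M T x S c eps j (j + 1))
    (hs : ∀ m, 1 ≤ m → m ≤ j → 1 - 2 * eps m < S.val c m) (h6 : I6 T S (j + 1) c)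
    {F : ℕ → ℕ → Submodule ℂ O} (hF : S.Fam T (j + 1) F) {Q : Ideal O} (hQ : Q.IsPrime)
    (hx : ∀ s ∈ Q, x s = 0) (hPQ : S.P j ≤ Q) {a : ℕ → ℕ → ℝ} {kp : ℝ} (hkp : 0 < kp)
    (ha0 : ∀ i r, 0 ≤ a i r)
    (ham : ∀ i < j + 1, ∀ r r', r ≤ r' → r' ≤ S.N i → a i r ≤ a i r')
    (ha1 : 1 ≤ ∑ i ∈ range (j + 1), c i * ∑ r ∈ range (S.N i), a i r)
    (ha3 : ∀ (y : Pnt O), (∀ s ∈ Q, y s = 0) → ∀ (w : ℕ → ℕ → ℝ) (b : ℝ), (∀ i r, 0 ≤ w i r) →
      0 ≤ b → M.Klt y (∑ i ∈ range (j + 1), ∑ r ∈ range (S.N i + 1),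
          single (Ideal.span (F i (pb (newBr (S.Br i) (S.N i) (a i)) r) : Set O)) (w i r) +
            single Q b) →
        ∑ i ∈ range (j + 1), ∑ r ∈ range (S.N i + 1), w i r * a i r + b * kp ≤ 1) :
    ∃ S' : Dat O, S'.P (j + 1) = Q ∧ State M T x S' c eps (j + 1) := by
  classical
  obtain ⟨t, ht0, htk, htj⟩ := exists_gap (j + 1) S.N a hkp
  let S' : Dat O :=
    { P := Function.update S.P (j + 1) Q
      k := S.k
      N := S.N
      Br := fun i => newBr (S.Br i) (S.N i) (a i)
      F0 := F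
      a := Function.update S.a (j + 1) a
      g := Function.update S.g (j + 1) t }
  have eP : ∀ m ≤ j, S'.P m = S.P m := fun m hm => Function.update_of_ne (by omega) _ _
  have ea : ∀ m ≤ j, S'.a m = S.a m := fun m hm => Function.update_of_ne (by omega) _ _
  have eg : ∀ m ≤ j, S'.g m = S.g m := fun m hm => Function.update_of_ne (by omega) _ _
  have eP1 : S'.P (j + 1) = Q := Function.update_self _ _ _
  have ea1 : S'.a (j + 1) = a := Function.update_self _ _ _
  have eg1 : S'.g (j + 1) = t := Function.update_self _ _ _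
  have ecap : ∀ i < j + 1, S'.cap T i = S.cap T i := fun i hi => by
    rw [Dat.cap, Dat.cap, eP i (by omega)]
  have cases1 : ∀ m ≤ j + 1, m ≤ j ∨ m = j + 1 := fun m hm => by omega
  have hG : ∀ i < j + 1, ∀ r ≤ S.N i, S'.G i r ≤ S.G i r := by
    intro i hi r hr
    refine Ideal.span_mono ?_
    change F i (pb (newBr (S.Br i) (S.N i) (a i)) r) ≤ S.F0 i (pb (S.Br i) r)
    rw [← (hF i hi).2 _ (pb_mem (h.br0 i hi) r)]
    exact (hF i hi).1.anti _ _ (pb_sub (h.br0 i hi) (sub_newBr _ _ _) r) ((pb_le _ _).trans hr)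
  have eval : ∀ m ≤ j, S'.val c m = S.val c m := fun m hm => by
    rw [Dat.val, Dat.val, ea m hm]
  refine ⟨S', eP1, ?_⟩
  exact
    { hN := fun i hi => by rw [eP i (by omega)]; exact h.hN i hi
      Npos := h.Npos
      flag := fun i hi => by rw [ecap i hi]; exact (hF i hi).1
      br0 := fun i hi => sub_newBr _ _ _ (h.br0 i hi)
      brN := fun i hi => sub_newBr _ _ _ (h.brN i hi)
      brle := fun i hi r hr => hr.elim (h.brle i hi r) fun hr => hr.2.1.le
      good := fun i hi => by rw [eP i (by omega)]; exact h.good i hi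
      jL := le_rfl
      Lj := Nat.le_succ _
      P0 := by rw [eP 0 (Nat.zero_le _)]; exact h.P0
      prime := by rwa [eP1]
      Px := by rwa [eP1]
      g0 := fun m hm hmj => by
        rcases cases1 m hmj with hm' | rfl
        · rw [eg m hm']; exact h.g0 m hm hm'
        · rwa [eg1]
      a0 := fun m hm hmj i hi r hr => by
        rcases cases1 m hmj with hm' | rfl
        · rw [ea m hm']; exact h.a0 m hm hm' i hi r hr
        · rw [ea1]; exact ha0 i r
      I2a := fun m hm hmj i hi r r' hr hr' => by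
        rcases cases1 m hmj with hm' | rfl
        · rw [ea m hm']; exact h.I2a m hm hm' i hi r r' hr hr'
        · rw [ea1]; exact ham i hi r r' hr hr'
      I2b := jump_upd h.I2b htj
      I3 := fun y hy => by
        rw [eP1] at hy
        have hc := hK.calc y
        refine I3At.succ ((h.I3 y fun s hs' => hy s (hPQ hs')).refine hc (fun _ _ => rfl)
          (fun i hi => hG i (by omega)) (fun m _ => eP m) (fun m _ => ea m) (fun m _ => eg m)) ?_
        rw [eP1, ea1, eg1]
        exact I3One.refine hc (N := S.N) (G := S'.G) (ha3 y hy) (fun _ _ => rfl)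
          (fun _ _ _ _ => le_rfl) (fun _ _ _ _ => le_rfl) htk
      c0 := h.c0
      e0 := fun m hm hmj => h.e0 m hm (by omega)
      I4 := fun m hm hmj => by rw [eval m (by omega)]; exact hs m hm (by omega)
      I4j := fun _ => by rw [Dat.val, ea1]; exact ha1
      I5 := fun m hm hmj i hi => by
        rw [eg m (by omega)]; exact h.I5 m hm (by omega) i (by omega) hi
      i1 := fun ρ h0 h1 F' hF' => h.i1 ρ h0 h1 F' fun i hi =>
        ⟨by rw [← ecap i hi]; exact (hF' i hi).1, fun r hr =>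
          ((hF' i hi).2 r (sub_newBr _ _ _ hr)).trans ((hF i hi).2 r hr)⟩
      i6 := by
        have : ∀ i ∈ (range (j + 1)).filter (fun i => dlt n T.kap i ≤ c i * (S.k i * S.N i)),
            c i * S'.Deg T i = c i * S.Deg T i := fun i hi => by
          rw [Dat.Deg, Dat.Deg, eP i (by have := mem_range.1 (mem_filter.1 hi).1; omega)]
        unfold I6 at h6 ⊢
        rwa [show ∑ i ∈ (range (j + 1)).filter
          (fun i => dlt n T.kap i ≤ c i * (S'.k i * S'.N i)), c i * S'.Deg T i = _ from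
          sum_congr rfl this] }

end Pool.Agent.Lib.MP_9ff3e7_ag.F
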