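import Pool.Agent.Lib.MP_9ff3e7_ag.F.SumReg

/-! The summation theorem, model free, from the dichotomy for one exponent. -/

set_option autoImplicit false

namespace Pool.Agent.Lib.MP_9ff3e7_ag.F

open Complex MeasureTheory Metric Filter Topology

/-- the statement of the dichotomy for one exponent -/
def DichoSt (ι : Type) [Fintype ι] : Prop :=
  ∀ (p : ι → ℂ) {R : ℝ} (_ : 0 < R)
    {D : (ι → ℂ) → ENNReal} {Ψ : ℕ → (ι → ℂ) → ℝ} (_ : Reg (ball p R) D Ψ)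
    {a b : (ι → ℂ) → ℝ} (_ : Sos (ball p R) a) (_ : Sos (ball p R) b) {c δ s : ℝ}
    (_ : 0 < δ) (_ : 0 ≤ s) (_ : s + δ ≤ c)
    (_ : ∫⁻ w in ball p R, D w * ENNReal.ofReal (max (a w) (b w)) ^ (-c) < ⊤),
    ∃ ρ : ℝ, 0 < ρ ∧ ρ ≤ R ∧
      (∫⁻ w in ball p ρ ∩ {w | a w < b w},
          D w * ENNReal.ofReal (a w) ^ (-s) * ENNReal.ofReal (b w) ^ (-(c - s)) < ⊤ ∨
        ∫⁻ w in ball p ρ ∩ {w | b w ≤ a w},
          D w * ENNReal.ofReal (a w) ^ (-(s + δ)) * ENNReal.ofReal (b w) ^ (-(c - (s + δ))) < ⊤)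

namespace SumAn

theorem grid {SA SB : ℝ → Prop} {c δ : ℝ} (hc : 0 ≤ c) (hδ : 0 < δ) (h0 : SA 0) (h1 : SB c)
    (h : ∀ s, 0 ≤ s → s + δ ≤ c → SA s ∨ SB (s + δ)) :
    ∃ s1 s2, 0 ≤ s1 ∧ s1 ≤ s2 ∧ s2 ≤ c ∧ s2 ≤ s1 + 2 * δ ∧ SA s1 ∧ SB s2 := by
  by_contra hn
  have key : ∀ k : ℕ, (k : ℝ) * δ ≤ c ∧ SA (k * δ) := by
    intro k
    induction k with
    | zero => simpa using ⟨hc, h0⟩
    | succ k ih =>
      have k0 : 0 ≤ (k : ℝ) * δ := by positivity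
      have e : ((k + 1 : ℕ) : ℝ) * δ = k * δ + δ := by
        push_cast
        ring
      rw [e]
      by_cases hk : c ≤ k * δ + 2 * δ
      · exact absurd ⟨_, _, k0, ih.1, le_rfl, hk, ih.2, h1⟩ hn
      · refine ⟨by linarith, (h _ (by linarith) (by linarith)).resolve_right fun hb => hn ?_⟩
        exact ⟨_, _, k0, by linarith, by linarith, by linarith, ih.2, hb⟩
  obtain ⟨k, hk⟩ := exists_nat_gt (c / δ)
  have := (key k).1
  rw [div_lt_iff₀ hδ] at hk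
  linarith

theorem rpow_le {x K : ENNReal} (hx : x ≤ K) (h0 : K ≠ 0) (h1 : K ≠ ⊤) {u v : ℝ} (hu : 0 ≤ u)
    (huv : u ≤ v) : x ^ (-u) ≤ K ^ (v - u) * x ^ (-v) := by
  rcases huv.eq_or_lt with rfl | hlt
  · simp
  by_cases x0 : x = 0
  · have : K ^ (v - u) ≠ 0 := by simp [h0, h1]
    rw [x0, ENNReal.zero_rpow_of_neg (by linarith : -v < 0), ENNReal.mul_top this]
    exact le_top
  · have e : -u = (v - u) + -v := by ring
    rw [e, ENNReal.rpow_add _ _ x0 (ne_top_of_le_ne_top h1 hx)]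
    gcongr

variable {ι : Type} [Fintype ι]

theorem meas_lt {p : ι → ℂ} {R ρ : ℝ} (hρ : ρ ≤ R) {a b : (ι → ℂ) → ℝ}
    (ha : ContinuousOn a (ball p R)) (hb : ContinuousOn b (ball p R)) :
    MeasurableSet (ball p ρ ∩ {w | a w < b w}) := by
  have c : ContinuousOn (fun w => b w - a w) (ball p ρ) := (hb.sub ha).mono (ball_subset_ball hρ)
  have := (c.isOpen_inter_preimage isOpen_ball (isOpen_Ioi (a := (0 : ℝ)))).measurableSet
  convert this using 2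
  ext w
  simp

theorem meas_le {p : ι → ℂ} {R ρ : ℝ} (hρ : ρ ≤ R) {a b : (ι → ℂ) → ℝ}
    (ha : ContinuousOn a (ball p R)) (hb : ContinuousOn b (ball p R)) :
    MeasurableSet (ball p ρ ∩ {w | b w ≤ a w}) := by
  have := (measurableSet_ball (x := p) (ε := ρ)).diff (meas_lt hρ ha hb)
  convert this using 1
  ext w
  simp only [Set.mem_inter_iff, Set.mem_ofPred_eq, Set.mem_sdiff, not_and, not_lt]
  tauto

theorem fin_of_le {V : Set (ι → ℂ)} (hV : MeasurableSet V) {f g : (ι → ℂ) → ENNReal}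
    {K : ENNReal} (hK : K ≠ ⊤) (h : ∀ w ∈ V, f w ≤ K * g w) (hg : ∫⁻ w in V, g w < ⊤) :
    ∫⁻ w in V, f w < ⊤ := by
  refine (setLIntegral_mono' hV h).trans_lt ?_
  rw [lintegral_const_mul' _ _ hK]
  exact ENNReal.mul_lt_top hK.lt_top hg

theorem sum_ball (H : DichoSt ι) (p : ι → ℂ) {R : ℝ} (hR : 0 < R)
    {D : (ι → ℂ) → ENNReal} {Ψ : ℕ → (ι → ℂ) → ℝ} (hD : Reg (ball p R) D Ψ)
    {a b : (ι → ℂ) → ℝ} (ha : Sos (ball p R) a) (hb : Sos (ball p R) b) {c ν : ℝ} (hc : 0 ≤ c)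
    (hν : 0 < ν) (h : ∫⁻ w in ball p R, D w * ENNReal.ofReal (a w + b w) ^ (-c) < ⊤) :
    ∃ s t : ℝ, 0 ≤ s ∧ 0 ≤ t ∧ c - ν ≤ s + t ∧ s + t ≤ c ∧ ∃ U ∈ 𝓝 p, ∫⁻ w in U,
      D w * ENNReal.ofReal (a w) ^ (-s) * ENNReal.ofReal (b w) ^ (-t) < ⊤ := by
  have hm : ∫⁻ w in ball p R, D w * ENNReal.ofReal (max (a w) (b w)) ^ (-c) < ⊤ := by
    refine fin_of_le measurableSet_ball (K := ENNReal.ofReal (1 / 2) ^ (-c)) (by simp)
      (fun w _ => ?_) h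
    rw [mul_left_comm, ← ENNReal.mul_rpow_of_ne_top ENNReal.ofReal_ne_top ENNReal.ofReal_ne_top,
      ← ENNReal.ofReal_mul (by norm_num)]
    refine mul_le_mul_right (rpow_neg_anti (ENNReal.ofReal_le_ofReal ?_) hc) _
    linarith [le_max_left (a w) (b w), le_max_right (a w) (b w)]
  obtain ⟨s1, s2, h0, h12, h2c, hd, ⟨ρ1, p1, r1, i1⟩, ⟨ρ2, p2, r2, i2⟩⟩ := grid
    (SA := fun s => ∃ ρ : ℝ, 0 < ρ ∧ ρ ≤ R ∧ ∫⁻ w in ball p ρ ∩ {w | a w < b w},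
      D w * ENNReal.ofReal (a w) ^ (-s) * ENNReal.ofReal (b w) ^ (-(c - s)) < ⊤)
    (SB := fun s => ∃ ρ : ℝ, 0 < ρ ∧ ρ ≤ R ∧ ∫⁻ w in ball p ρ ∩ {w | b w ≤ a w},
      D w * ENNReal.ofReal (a w) ^ (-s) * ENNReal.ofReal (b w) ^ (-(c - s)) < ⊤)
    hc (half_pos hν)
    ⟨R, hR, le_rfl, by
      refine lt_of_le_of_lt ?_ ((lintegral_mono_set
        (Set.inter_subset_left (t := {w | a w < b w}))).trans_lt hm)
      refine setLIntegral_mono' (meas_lt le_rfl ha.cont hb.cont) fun w hw => ?_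
      rw [max_eq_right (le_of_lt hw.2)]
      simp⟩
    ⟨R, hR, le_rfl, by
      refine lt_of_le_of_lt ?_ ((lintegral_mono_set
        (Set.inter_subset_left (t := {w | b w ≤ a w}))).trans_lt hm)
      refine setLIntegral_mono' (meas_le le_rfl ha.cont hb.cont) fun w hw => ?_
      rw [max_eq_left hw.2]
      simp⟩
    (fun s hs hsc => by
      obtain ⟨ρ, h1, h2, h3⟩ := H p hR hD ha hb (half_pos hν) hs hsc hm
      exact h3.imp (fun h4 => ⟨ρ, h1, h2, h4⟩) fun h4 => ⟨ρ, h1, h2, h4⟩)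
  obtain ⟨Ka, hKa⟩ := ha.bd
  obtain ⟨Kb, hKb⟩ := hb.bd
  set K := ENNReal.ofReal (max 1 (max Ka Kb)) with hK
  have K0 : K ≠ 0 := (ENNReal.ofReal_pos.2 (lt_max_of_lt_left one_pos)).ne'
  have K1 : K ≠ ⊤ := ENNReal.ofReal_ne_top
  have K2 : ∀ r : ℝ, K ^ r ≠ ⊤ := fun r => by simp [K0, K1]
  refine ⟨s1, c - s2, h0, by linarith, by linarith, by linarith, ball p (min ρ1 ρ2),
    ball_mem_nhds _ (lt_min p1 p2), ?_⟩
  have sub : ball p (min ρ1 ρ2) ⊆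
      (ball p ρ1 ∩ {w | a w < b w}) ∪ (ball p ρ2 ∩ {w | b w ≤ a w}) := fun w hw =>
    (lt_or_ge (a w) (b w)).imp (fun h => ⟨ball_subset_ball (min_le_left _ _) hw, h⟩)
      fun h => ⟨ball_subset_ball (min_le_right _ _) hw, h⟩
  refine ((lintegral_mono_set sub).trans (lintegral_union_le _ _ _)).trans_lt
    (ENNReal.add_lt_top.2 ⟨?_, ?_⟩)
  · refine fin_of_le (meas_lt r1 ha.cont hb.cont) (K2 (c - s1 - (c - s2))) (fun w hw => ?_) i1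
    rw [mul_left_comm]
    refine mul_le_mul_right (rpow_le (ENNReal.ofReal_le_ofReal ?_) K0 K1 (by linarith)
      (by linarith)) _
    exact (hKb w (ball_subset_ball r1 hw.1)).trans (le_max_of_le_right (le_max_right _ _))
  · refine fin_of_le (meas_le r2 ha.cont hb.cont) (K2 (s2 - s1)) (fun w hw => ?_) i2
    rw [← mul_assoc, mul_left_comm]
    refine mul_le_mul_left (mul_le_mul_right (rpow_le (ENNReal.ofReal_le_ofReal ?_) K0 K1 h0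
      h12) _) _
    exact (hKa w (ball_subset_ball r2 hw.1)).trans (le_max_of_le_right (le_max_left _ _))

end SumAn

/-- the summation theorem, model free, from the dichotomy -/
theorem sum_local_of {ι κ α : Type} [Fintype ι] (H : DichoSt ι) (p : ι → ℂ)
    (u : κ → (ι → ℂ) → ℂ)
    (hu : ∀ᶠ w in 𝓝 p, ∀ k, AnalyticAt ℂ (u k) w)
    (T : Finset α) (G : α → Finset κ) (cf : α → ℝ) (hcf : ∀ a ∈ T, 0 ≤ cf a)
    (Ga Gb : Finset κ) {c ν : ℝ} (hc : 0 ≤ c) (hν : 0 < ν)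
    (h : ∃ U ∈ 𝓝 p, ∫⁻ w in U,
      (∏ a ∈ T, ENNReal.ofReal (∑ k ∈ G a, ‖u k w‖ ^ 2) ^ (-cf a)) *
        ENNReal.ofReal (∑ k ∈ Ga, ‖u k w‖ ^ 2 + ∑ k ∈ Gb, ‖u k w‖ ^ 2) ^ (-c) < ⊤) :
    ∃ s t : ℝ, 0 ≤ s ∧ 0 ≤ t ∧ c - ν ≤ s + t ∧ s + t ≤ c ∧ ∃ U ∈ 𝓝 p, ∫⁻ w in U,
      (∏ a ∈ T, ENNReal.ofReal (∑ k ∈ G a, ‖u k w‖ ^ 2) ^ (-cf a)) *
        ENNReal.ofReal (∑ k ∈ Ga, ‖u k w‖ ^ 2) ^ (-s) *
        ENNReal.ofReal (∑ k ∈ Gb, ‖u k w‖ ^ 2) ^ (-t) < ⊤ := by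
  obtain ⟨U, hU, hI⟩ := h
  obtain ⟨R, hR, hs⟩ := nhds_basis_closedBall.mem_iff.1 (inter_mem hu hU)
  have an : ∀ J : Finset κ, Sos (ball p R) (fun w => ∑ k ∈ J, ‖u k w‖ ^ 2) := fun J =>
    sos_ball J fun w hw k _ => (hs hw).1 k
  exact SumAn.sum_ball H p hR (Reg.prod T fun a ha => (an (G a)).reg (hcf a ha)) (an Ga)
    (an Gb) hc hν
    ((lintegral_mono_set fun w hw => (hs (ball_subset_closedBall hw)).2).trans_lt hI)

end Pool.Agent.Lib.MP_9ff3e7_ag.F
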