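import Pool.Agent.Lib.MP_9ff3e7_ag.F.Liou

/-! Uniform bounds and equicontinuity for holomorphic functions with bounded `L²` norm. -/

set_option autoImplicit false

namespace Pool.Agent.Lib.MP_9ff3e7_ag.F

open Complex MeasureTheory Metric Filter Topology

variable {ι : Type} [Fintype ι]

/-- a uniform bound on the half ball from an `L²` bound -/
theorem sup_of_l2 (x0 : ι → ℂ) {r : ℝ} (hr : 0 < r) (C : ℝ) :
    ∃ K : ℝ, 0 ≤ K ∧ ∀ H : (ι → ℂ) → ℂ, DifferentiableOn ℂ H (ball x0 r) →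
      ∫⁻ y in ball x0 r, ENNReal.ofReal (‖H y‖ ^ 2) ≤ ENNReal.ofReal C →
      ∀ y ∈ ball x0 (r / 2), ‖H y‖ ≤ K := by
  have v0 : volume (ball (0 : ι → ℂ) (r / 2)) ≠ 0 := (measure_ball_pos _ _ (by linarith)).ne'
  have v1 : volume (ball (0 : ι → ℂ) (r / 2)) ≠ ⊤ := measure_ball_lt_top.ne
  set v := (volume (ball (0 : ι → ℂ) (r / 2))).toReal with hv
  have vp : 0 < v := ENNReal.toReal_pos v0 v1
  refine ⟨Real.sqrt (max C 0 / v), Real.sqrt_nonneg _, fun H hH hC y hy => ?_⟩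
  have sub : ball y (r / 2) ⊆ ball x0 r := ball_subset_ball' (by
    have := mem_ball.1 hy
    linarith)
  have h1 := (submean (hH.mono sub)).trans ((lintegral_mono_set sub).trans hC)
  rw [← ENNReal.ofReal_toReal v1, ← hv, ← ENNReal.ofReal_mul (sq_nonneg _)] at h1
  have h2 : ‖H y‖ ^ 2 * v ≤ max C 0 :=
    (ENNReal.ofReal_le_ofReal_iff (le_max_right _ _)).1
      (h1.trans (ENNReal.ofReal_le_ofReal (le_max_left _ _)))
  exact Real.le_sqrt_of_sq_le ((le_div_iff₀ vp).2 h2)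

/-- equicontinuity at the centre from an `L²` bound -/
theorem equi_of_l2 (x0 : ι → ℂ) {r : ℝ} (hr : 0 < r) (C : ℝ) {δ : ℝ} (hδ : 0 < δ) :
    ∃ r1 : ℝ, 0 < r1 ∧ r1 ≤ r ∧ ∀ H : (ι → ℂ) → ℂ, DifferentiableOn ℂ H (ball x0 r) →
      ∫⁻ y in ball x0 r, ENNReal.ofReal (‖H y‖ ^ 2) ≤ ENNReal.ofReal C →
      ∀ y ∈ ball x0 r1, ‖H y - H x0‖ ≤ δ := by
  obtain ⟨K, K0, hK⟩ := sup_of_l2 x0 hr C
  have r2 : 0 < r / 2 := by linarith
  refine ⟨min (r / 2) (δ * (r / 2) / (2 * K + 1)), lt_min r2 (by positivity),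
    (min_le_left _ _).trans (by linarith), fun H hH hC y hy => ?_⟩
  have y1 : y ∈ ball x0 (r / 2) := ball_subset_ball (min_le_left _ _) hy
  have y2 : dist y x0 ≤ δ * (r / 2) / (2 * K + 1) :=
    (mem_ball.1 hy).le.trans (min_le_right _ _)
  have m : Set.MapsTo H (ball x0 (r / 2)) (closedBall (H x0) (2 * K + 1)) := fun z hz => by
    rw [mem_closedBall, dist_eq_norm]
    have := norm_sub_le (H z) (H x0)
    have := hK H hH hC z hz
    have := hK H hH hC x0 (mem_ball_self r2)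
    linarith
  have s := Complex.dist_le_div_mul_dist_of_mapsTo_ball
    (hH.mono (ball_subset_ball (by linarith))) m y1
  rw [dist_eq_norm] at s
  calc ‖H y - H x0‖ ≤ (2 * K + 1) / (r / 2) * dist y x0 := s
    _ ≤ (2 * K + 1) / (r / 2) * (δ * (r / 2) / (2 * K + 1)) := by gcongr
    _ = δ := by field_simp

end Pool.Agent.Lib.MP_9ff3e7_ag.F
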