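import Pool.Agent.Lib.MP_9ff3e7_ag.F.KDefs

/-! Model side of the summation formula K4. -/

set_option autoImplicit false
set_option linter.dupNamespace false

namespace Pool.Agent.Lib.MP_9ff3e7_ag.F.SumK4

open Filter Topology MeasureTheory Finsupp

variable {n : ℕ} {O : Type} [CommRing O] [Algebra ℂ O] [Algebra (MvPolynomial (Fin n) ℂ) O]

theorem noeth (M : Model n O) : IsNoetherianRing O := by
  have : Algebra.FiniteType (MvPolynomial (Fin n) ℂ) O :=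
    Algebra.FiniteType.equiv inferInstance M.E.equivRing.symm
  exact Algebra.FiniteType.isNoetherianRing (MvPolynomial (Fin n) ℂ) O

theorem span_gens' (M : Model n O) (a : Ideal O) : Ideal.span (gens a : Set O) = a :=
  haveI := noeth M
  span_gens (IsNoetherian.noetherian a)

theorem rpow_neg_add (x : ℝ) {c d : ℝ} (hc : 0 ≤ c) (hd : 0 ≤ d) :
    ENNReal.ofReal x ^ (-(c + d)) = ENNReal.ofReal x ^ (-c) * ENNReal.ofReal x ^ (-d) := by
  rw [ENNReal.rpow_neg, ENNReal.rpow_neg, ENNReal.rpow_neg,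
    ENNReal.rpow_add_of_nonneg _ _ hc hd, ENNReal.mul_inv]
  · exact Or.inr (ENNReal.rpow_ne_top_of_nonneg hd ENNReal.ofReal_ne_top)
  · exact Or.inl (ENNReal.rpow_ne_top_of_nonneg hc ENNReal.ofReal_ne_top)

omit [Algebra (MvPolynomial (Fin n) ℂ) O] in
theorem dens_add {D D' : Ideal O →₀ ℝ} (hD : 0 ≤ D) (hD' : 0 ≤ D') (y : Pnt O) :
    dens (D + D') y = dens D y * dens D' y := by
  classical
  have key : ∀ (X : Ideal O →₀ ℝ) (s : Finset (Ideal O)), X.support ⊆ s →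
      dens X y = ∏ a ∈ s, ENNReal.ofReal (nsqI a y) ^ (-X a) := by
    intro X s hs
    exact Finsupp.prod_of_support_subset X hs _ (fun i _ => by simp)
  rw [key (D + D') (D.support ∪ D'.support) Finsupp.support_add,
    key D _ (Finset.subset_union_left (s₂ := D'.support)),
    key D' _ (Finset.subset_union_right (s₁ := D.support)), ← Finset.prod_mul_distrib]
  exact Finset.prod_congr rfl fun a _ => rpow_neg_add _ (hD a) (hD' a)

omit [Algebra (MvPolynomial (Fin n) ℂ) O] in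
theorem dens_single (a : Ideal O) (c : ℝ) (y : Pnt O) :
    dens (single a c) y = ENNReal.ofReal (nsqI a y) ^ (-c) := by
  unfold dens
  exact Finsupp.prod_single_index (by simp)

/-- an element of the span of a finite set is bounded by the generators near `p` -/
theorem span_bound (M : Model n O) (p : Pnt O) (S : Finset O) {g : O}
    (hg : g ∈ Ideal.span (S : Set O)) :
    ∃ C : ℝ, 0 ≤ C ∧ ∀ᶠ w in 𝓝 (zz n p), ‖M.sg p w g‖ ^ 2 ≤ C * ∑ s ∈ S, ‖M.sg p w s‖ ^ 2 := by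
  classical
  obtain ⟨r, -, hr⟩ := Submodule.mem_span_finset.1 hg
  have hc : ∀ f : O, ContinuousAt (fun w => M.sg p w f) (zz n p) := fun f =>
    ((M.an p).self_of_nhds f).continuousAt
  have h1 : ContinuousAt (fun w => ∑ s ∈ S, ‖M.sg p w (r s)‖ ^ 2) (zz n p) :=
    tendsto_finsetSum _ fun s _ => ((hc (r s)).norm.pow 2)
  refine ⟨∑ s ∈ S, ‖M.sg p (zz n p) (r s)‖ ^ 2 + 1, by positivity, ?_⟩
  filter_upwards [h1.eventually (gt_mem_nhds (lt_add_one _))] with w hw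
  have h2 : ‖M.sg p w g‖ ≤ ∑ s ∈ S, ‖M.sg p w (r s)‖ * ‖M.sg p w s‖ := by
    rw [← hr, map_sum]
    refine (norm_sum_le _ _).trans (le_of_eq (Finset.sum_congr rfl fun s _ => ?_))
    rw [smul_eq_mul, map_mul, norm_mul]
  calc ‖M.sg p w g‖ ^ 2 ≤ (∑ s ∈ S, ‖M.sg p w (r s)‖ * ‖M.sg p w s‖) ^ 2 := by gcongr
    _ ≤ (∑ s ∈ S, ‖M.sg p w (r s)‖ ^ 2) * ∑ s ∈ S, ‖M.sg p w s‖ ^ 2 :=
        Finset.sum_mul_sq_le_sq_mul_sq _ _ _
    _ ≤ _ := by gcongr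

theorem nsq_add_le (M : Model n O) (p : Pnt O) (a b : Ideal O) :
    ∃ C : ℝ, 0 < C ∧ ∀ᶠ w in 𝓝 (zz n p),
      nsqI (a + b) (M.sg p w) ≤ C * (nsqI a (M.sg p w) + nsqI b (M.sg p w)) := by
  classical
  have hm : ∀ g ∈ gens (a + b), g ∈ Ideal.span ((gens a ∪ gens b : Finset O) : Set O) := by
    intro g hg
    rw [Finset.coe_union, Ideal.span_union, span_gens' M, span_gens' M]
    have : g ∈ Ideal.span (gens (a + b) : Set O) := Ideal.subset_span hg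
    rwa [span_gens' M] at this
  choose! C hC0 hC using fun g hg => span_bound M p _ (hm g hg)
  have hs : 0 ≤ ∑ g ∈ gens (a + b), C g := Finset.sum_nonneg hC0
  refine ⟨∑ g ∈ gens (a + b), C g + 1, by positivity, ?_⟩
  filter_upwards [(Finset.eventually_all _).2 hC] with w hw
  have h1 : ∑ s ∈ gens a ∪ gens b, ‖M.sg p w s‖ ^ 2 ≤ nsqI a (M.sg p w) + nsqI b (M.sg p w) := by
    have := Finset.sum_union_inter (s₁ := gens a) (s₂ := gens b) (f := fun s => ‖M.sg p w s‖ ^ 2)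
    have h0 : 0 ≤ ∑ s ∈ gens a ∩ gens b, ‖M.sg p w s‖ ^ 2 := by positivity
    unfold nsqI
    linarith
  have h2 : 0 ≤ nsqI a (M.sg p w) + nsqI b (M.sg p w) :=
    add_nonneg (nsqI_nonneg _ _) (nsqI_nonneg _ _)
  calc nsqI (a + b) (M.sg p w)
      ≤ ∑ g ∈ gens (a + b), C g * (nsqI a (M.sg p w) + nsqI b (M.sg p w)) :=
        Finset.sum_le_sum fun g hg =>
          (hw g hg).trans (mul_le_mul_of_nonneg_left h1 (hC0 g hg))
    _ = (∑ g ∈ gens (a + b), C g) * (nsqI a (M.sg p w) + nsqI b (M.sg p w)) :=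
        (Finset.sum_mul _ _ _).symm
    _ ≤ _ := by gcongr; linarith

theorem rpow_neg_le {x y C c : ℝ} (hC : 0 < C) (hc : 0 ≤ c) (h : x ≤ C * y) :
    ENNReal.ofReal y ^ (-c) ≤ ENNReal.ofReal C ^ c * ENNReal.ofReal x ^ (-c) := by
  have h1 : ENNReal.ofReal x ^ c ≤ ENNReal.ofReal C ^ c * ENNReal.ofReal y ^ c := by
    rw [← ENNReal.mul_rpow_of_nonneg _ _ hc, ← ENNReal.ofReal_mul hC.le]
    exact ENNReal.rpow_le_rpow (ENNReal.ofReal_le_ofReal h) hc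
  have hC0 : ENNReal.ofReal C ^ c ≠ 0 := (ENNReal.rpow_pos (ENNReal.ofReal_pos.2 hC) (by simp)).ne'
  have hCt : ENNReal.ofReal C ^ c ≠ ⊤ := ENNReal.rpow_ne_top_of_nonneg hc ENNReal.ofReal_ne_top
  rw [ENNReal.rpow_neg, ENNReal.rpow_neg]
  have h2 := ENNReal.inv_le_inv.2 h1
  rw [ENNReal.mul_inv (Or.inl hC0) (Or.inl hCt)] at h2
  calc (ENNReal.ofReal y ^ c)⁻¹
      = ENNReal.ofReal C ^ c * ((ENNReal.ofReal C ^ c)⁻¹ * (ENNReal.ofReal y ^ c)⁻¹) := by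
        rw [← mul_assoc, ENNReal.mul_inv_cancel hC0 hCt, one_mul]
    _ ≤ _ := by gcongr

/-- the hypothesis of K4 in analytic form -/
theorem hyp (M : Model n O) (p : Pnt O) {D : Ideal O →₀ ℝ} (a b : Ideal O) {c : ℝ} (hD : 0 ≤ D)
    (hc : 0 ≤ c) (h : M.Klt p (D + single (a + b) c)) :
    ∃ U ∈ 𝓝 (zz n p), ∫⁻ w in U, dens D (M.sg p w) *
      ENNReal.ofReal (nsqI a (M.sg p w) + nsqI b (M.sg p w)) ^ (-c) < ⊤ := by
  obtain ⟨U, hU, hI⟩ := h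
  obtain ⟨C, hC, hw⟩ := nsq_add_le M p a b
  obtain ⟨V, hV, hVo, hVp⟩ := mem_nhds_iff.1 (inter_mem hU hw)
  refine ⟨V, hVo.mem_nhds hVp, ?_⟩
  have hCt : ENNReal.ofReal C ^ c ≠ ⊤ := ENNReal.rpow_ne_top_of_nonneg hc ENNReal.ofReal_ne_top
  calc _ ≤ ∫⁻ w in V, ENNReal.ofReal C ^ c * dens (D + single (a + b) c) (M.sg p w) := by
        refine setLIntegral_mono' hVo.measurableSet fun w hw' => ?_
        rw [dens_add hD (single_nonneg.2 hc), dens_single, mul_left_comm]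
        gcongr
        exact rpow_neg_le hC hc (hV hw').2
    _ = ENNReal.ofReal C ^ c * ∫⁻ w in V, dens (D + single (a + b) c) (M.sg p w) :=
        lintegral_const_mul' _ _ hCt
    _ < ⊤ := ENNReal.mul_lt_top hCt.lt_top
        ((lintegral_mono_set fun w hw' => (hV hw').1).trans_lt hI)

/-- the conclusion of K4 from its analytic form -/
theorem concl (M : Model n O) (p : Pnt O) {D : Ideal O →₀ ℝ} (a b : Ideal O) {s t : ℝ}
    (hD : 0 ≤ D) (hs : 0 ≤ s) (ht : 0 ≤ t)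
    (h : ∃ U ∈ 𝓝 (zz n p), ∫⁻ w in U, dens D (M.sg p w) *
      ENNReal.ofReal (nsqI a (M.sg p w)) ^ (-s) * ENNReal.ofReal (nsqI b (M.sg p w)) ^ (-t) < ⊤) :
    M.Klt p (D + single a s + single b t) := by
  obtain ⟨U, hU, hI⟩ := h
  refine ⟨U, hU, ?_⟩
  simpa only [dens_add (add_nonneg hD (single_nonneg.2 hs)) (single_nonneg.2 ht),
    dens_add hD (single_nonneg.2 hs), dens_single] using hI

/-- the statement of the analytic summation theorem `sum_local` -/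
def SumLocal (ι κ α : Type) [Fintype ι] : Prop :=
  ∀ (p : ι → ℂ) (u : κ → (ι → ℂ) → ℂ) (_ : ∀ᶠ w in 𝓝 p, ∀ k, AnalyticAt ℂ (u k) w)
    (T : Finset α) (G : α → Finset κ) (cf : α → ℝ) (_ : ∀ a ∈ T, 0 ≤ cf a)
    (Ga Gb : Finset κ) {c ν : ℝ} (_ : 0 ≤ c) (_ : 0 < ν)
    (_ : ∃ U ∈ 𝓝 p, ∫⁻ w in U,
      (∏ a ∈ T, ENNReal.ofReal (∑ k ∈ G a, ‖u k w‖ ^ 2) ^ (-cf a)) *
        ENNReal.ofReal (∑ k ∈ Ga, ‖u k w‖ ^ 2 + ∑ k ∈ Gb, ‖u k w‖ ^ 2) ^ (-c) < ⊤),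
    ∃ s t : ℝ, 0 ≤ s ∧ 0 ≤ t ∧ c - ν ≤ s + t ∧ s + t ≤ c ∧ ∃ U ∈ 𝓝 p, ∫⁻ w in U,
      (∏ a ∈ T, ENNReal.ofReal (∑ k ∈ G a, ‖u k w‖ ^ 2) ^ (-cf a)) *
        ENNReal.ofReal (∑ k ∈ Ga, ‖u k w‖ ^ 2) ^ (-s) *
        ENNReal.ofReal (∑ k ∈ Gb, ‖u k w‖ ^ 2) ^ (-t) < ⊤

/-- K4 from the analytic summation theorem -/
theorem k4_of (H : SumLocal (Fin n) O (Ideal O)) (M : Model n O) (p : Pnt O)
    (D : Ideal O →₀ ℝ) (a b : Ideal O) (c ν : ℝ) (hD : 0 ≤ D) (hc : 0 ≤ c) (hν : 0 < ν)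
    (h : M.Klt p (D + single (a + b) c)) :
    ∃ s t, 0 ≤ s ∧ 0 ≤ t ∧ c - ν ≤ s + t ∧ M.Klt p (D + single a s + single b t) := by
  obtain ⟨s, t, hs, ht, hst, -, hJ⟩ := H (zz n p) (fun g w => M.sg p w g) (M.an p) D.support gens D
    (fun k _ => hD k) (gens a) (gens b) hc hν (hyp M p a b hD hc h)
  exact ⟨s, t, hs, ht, hst, concl M p a b hD hs ht hJ⟩

end Pool.Agent.Lib.MP_9ff3e7_ag.F.SumK4
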