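import Pool.Agent.Lib.MP_9ff3e7_ag.F.SumAn
import Pool.Agent.Lib.MP_9ff3e7_ag.F.SumK4

/-! The summation formula on a model, from the dichotomy for one exponent. -/

set_option autoImplicit false

namespace Pool.Agent.Lib.MP_9ff3e7_ag.F

open Finsupp

theorem sumLocal_of {ι κ α : Type} [Fintype ι] (H : DichoSt ι) : SumK4.SumLocal ι κ α :=
  fun p u hu T G cf hcf Ga Gb _ _ hc hν h => sum_local_of H p u hu T G cf hcf Ga Gb hc hν h

variable {n : ℕ} {O : Type} [CommRing O] [Algebra ℂ O] [Algebra (MvPolynomial (Fin n) ℂ) O]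

theorem Model.klt_sum_of (M : Model n O) (H : DichoSt (Fin n)) (p : Pnt O) (D : Ideal O →₀ ℝ)
    (a b : Ideal O) (c ν : ℝ) (hD : 0 ≤ D) (hc : 0 ≤ c) (hν : 0 < ν)
    (hk : M.Klt p (D + single (a + b) c)) :
    ∃ s t, 0 ≤ s ∧ 0 ≤ t ∧ c - ν ≤ s + t ∧ M.Klt p (D + single a s + single b t) :=
  SumK4.k4_of (sumLocal_of H) M p D a b c ν hD hc hν hk

end Pool.Agent.Lib.MP_9ff3e7_ag.F
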