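import Mathlib

/-! Taylor expansion at a general point of an affine variety, along a transcendence basis. -/

set_option autoImplicit false

namespace Pool.Agent.Lib.MP_9ff3e7_ag.F

open MvPolynomial

/-- generic etaleness in characteristic zero -/
theorem tay_gen_etale {A R : Type} [CommRing A] [IsDomain A] [IsNoetherianRing A] [CharZero A]
    [CommRing R] [IsDomain R] [Algebra A R] [FaithfulSMul A R] [Algebra.FiniteType A R]
    [Algebra.IsAlgebraic A R] :
    ∃ h : R, h ≠ 0 ∧ Algebra.FormallyEtale A (Localization.Away h) := by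
  have : Algebra.FinitePresentation A R := Algebra.FinitePresentation.of_finiteType.mp ‹_›
  let : Algebra (FractionRing A) (FractionRing R) := FractionRing.liftAlgebra A (FractionRing R)
  have : Algebra.IsAlgebraic (FractionRing A) (FractionRing R) := inferInstance
  have : Algebra.IsSeparable (FractionRing A) (FractionRing R) := inferInstance
  have h1 : Algebra.FormallyEtale (FractionRing A) (FractionRing R) :=
    Algebra.FormallyEtale.of_isSeparable _ _
  have h2 : Algebra.FormallyEtale A (FractionRing A) :=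
    Algebra.FormallyEtale.of_isLocalization (nonZeroDivisors A)
  have h3 : Algebra.FormallyEtale A (FractionRing R) :=
    Algebra.FormallyEtale.comp A (FractionRing A) (FractionRing R)
  have : IsFractionRing R (Localization.AtPrime (⊥ : Ideal R)) := by
    have : (⊥ : Ideal R).primeCompl = nonZeroDivisors R := by
      ext x
      simp [Ideal.primeCompl, mem_nonZeroDivisors_iff_ne_zero]
    have h0 : IsLocalization (⊥ : Ideal R).primeCompl (Localization.AtPrime (⊥ : Ideal R)) :=
      inferInstance
    have key : ∀ M : Submonoid R, (⊥ : Ideal R).primeCompl = M →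
        IsLocalization M (Localization.AtPrime (⊥ : Ideal R)) := by
      rintro _ rfl
      exact h0
    exact key _ this
  have : Algebra.IsEtaleAt A (⊥ : Ideal R) :=
    Algebra.FormallyEtale.of_equiv (A := FractionRing R)
      ((FractionRing.algEquiv R (Localization.AtPrime (⊥ : Ideal R))).restrictScalars A)
  obtain ⟨f, hf, he⟩ := Algebra.exists_etale_of_isEtaleAt (R := A) (⊥ : Ideal R)
  exact ⟨f, by simpa using hf, he.formallyEtale⟩

theorem tay_lift {A R S : Type} [CommRing A] [CommRing R] [CommRing S] [Algebra A R] (h : R)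
    [Algebra.FormallySmooth A (Localization.Away h)] (I : Ideal S) [IsAdicComplete I S]
    (φ : A →+* S) (f : R →+* S ⧸ I)
    (hf : ∀ a, f (algebraMap A R a) = Ideal.Quotient.mk I (φ a)) (hu : IsUnit (f h)) :
    ∃ g : R →+* S, (∀ a, g (algebraMap A R a) = φ a) ∧ ∀ x, Ideal.Quotient.mk I (g x) = f x := by
  let : Algebra A S := φ.toAlgebra
  let f1 : R →ₐ[A] S ⧸ I := { f with commutes' := fun a => hf a }
  let f2 : Localization.Away h →ₐ[A] S ⧸ I := IsLocalization.Away.liftAlgHom h (f := f1) hu
  obtain ⟨g, hg⟩ := Algebra.FormallySmooth.exists_mkₐ_comp_eq_of_isAdicComplete f2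
  refine ⟨(g : Localization.Away h →+* S).comp (algebraMap R _), fun a => ?_, fun x => ?_⟩
  · have := g.commutes a
    rw [IsScalarTower.algebraMap_apply A R (Localization.Away h)] at this
    exact this
  · have := AlgHom.congr_fun hg (algebraMap R _ x)
    simp only [f2, IsLocalization.Away.coe_liftAlgHom, IsLocalization.Away.lift_eq] at this
    exact this

theorem tay_unram {A R Q : Type} [CommRing A] [CommRing R] [CommRing Q] [Algebra A R] (h : R)
    [Algebra.FormallyUnramified A (Localization.Away h)] (J : Ideal Q) (hJ : IsNilpotent J)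
    (g1 g2 : R →+* Q) (hA : ∀ a, g1 (algebraMap A R a) = g2 (algebraMap A R a))
    (H : ∀ x, g1 x - g2 x ∈ J) (hu : IsUnit (g2 h)) : g1 = g2 := by
  let : Algebra A Q := (g2.comp (algebraMap A R)).toAlgebra
  let f1 : R →ₐ[A] Q := { g1 with commutes' := fun a => hA a }
  let f2 : R →ₐ[A] Q := { g2 with commutes' := fun a => rfl }
  have hnil : ∀ q ∈ J, IsNilpotent q := by
    intro q hq
    obtain ⟨n, hn⟩ := hJ
    refine ⟨n, ?_⟩
    have := Ideal.pow_mem_pow hq n
    rw [hn] at this
    simpa using this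
  have hu1 : IsUnit (f1 h) := by
    have : f1 h = g2 h + (g1 h - g2 h) := by
      change g1 h = _
      ring
    rw [this]
    exact (hnil _ (H h)).isUnit_add_left_of_commute hu (Commute.all _ _)
  have hu2 : IsUnit (f2 h) := hu
  let F1 : Localization.Away h →ₐ[A] Q := IsLocalization.Away.liftAlgHom h (f := f1) hu1
  let F2 : Localization.Away h →ₐ[A] Q := IsLocalization.Away.liftAlgHom h (f := f2) hu2
  have hF : F1 = F2 := by
    refine Algebra.FormallyUnramified.ext J hJ fun x => ?_
    have : (Ideal.Quotient.mk J).comp (F1 : Localization.Away h →+* Q) =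
        (Ideal.Quotient.mk J).comp (F2 : Localization.Away h →+* Q) := by
      refine IsLocalization.ringHom_ext (Submonoid.powers h) ?_
      ext r
      have e1 : F1 (algebraMap R _ r) = g1 r := by
        simp only [F1, IsLocalization.Away.coe_liftAlgHom, IsLocalization.Away.lift_eq]
        rfl
      have e2 : F2 (algebraMap R _ r) = g2 r := by
        simp only [F2, IsLocalization.Away.coe_liftAlgHom, IsLocalization.Away.lift_eq]
        rfl
      simp only [RingHom.comp_apply, RingHom.coe_coe, e1, e2]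
      exact Ideal.Quotient.eq.mpr (H r)
    exact RingHom.congr_fun this x
  ext r
  have e1 : F1 (algebraMap R _ r) = g1 r := by
    simp only [F1, IsLocalization.Away.coe_liftAlgHom, IsLocalization.Away.lift_eq]
    rfl
  have e2 : F2 (algebraMap R _ r) = g2 r := by
    simp only [F2, IsLocalization.Away.coe_liftAlgHom, IsLocalization.Away.lift_eq]
    rfl
  rw [← e1, ← e2, hF]

/-- if the maximal ideal of a point is generated by `s` to first order, every function is a
polynomial in `s` to any order -/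
theorem tay_approx {R : Type} [CommRing R] [Algebra ℂ R] {d : ℕ} (y : R →ₐ[ℂ] ℂ) (s : Fin d → R)
    (hs : ∀ j, y (s j) = 0)
    (hm : RingHom.ker y ≤ Ideal.span (Set.range s) ⊔ RingHom.ker y ^ 2) (τ : ℕ) (f : R) :
    ∃ p : MvPolynomial (Fin d) ℂ, f - aeval s p ∈ RingHom.ker y ^ τ := by
  set m : Ideal R := RingHom.ker y with hmdef
  have h0 : ∀ r : R, r - algebraMap ℂ R (y r) ∈ m := by
    intro r
    simp [hmdef, RingHom.mem_ker]
  have hsm : ∀ j, s j ∈ m := fun j => by simpa [hmdef, RingHom.mem_ker] using hs j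
  have P1 : ∀ b ∈ m, ∃ q : MvPolynomial (Fin d) ℂ, aeval s q ∈ m ∧ b - aeval s q ∈ m ^ 2 := by
    intro b hb
    obtain ⟨b1, hb1, b2, hb2, rfl⟩ := Submodule.mem_sup.mp (hm hb)
    obtain ⟨c, rfl⟩ := Ideal.mem_span_range_iff_exists_fun.mp hb1
    refine ⟨∑ j, C (y (c j)) * X j, ?_, ?_⟩
    · rw [map_sum]
      refine Ideal.sum_mem _ fun j _ => ?_
      rw [map_mul, aeval_X]
      exact Ideal.mul_mem_left _ _ (hsm j)
    · have : ∑ j, c j * s j + b2 - aeval s (∑ j, C (y (c j)) * X j : MvPolynomial (Fin d) ℂ) =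
          ∑ j, (c j - algebraMap ℂ R (y (c j))) * s j + b2 := by
        simp only [map_sum, map_mul, aeval_X, aeval_C, sub_mul, Finset.sum_sub_distrib]
        ring
      rw [this]
      refine Ideal.add_mem _ (Ideal.sum_mem _ fun j _ => ?_) hb2
      rw [pow_two]
      exact Ideal.mul_mem_mul (h0 _) (hsm j)
  have P : ∀ k : ℕ, ∀ r ∈ m ^ k, ∃ p : MvPolynomial (Fin d) ℂ,
      aeval s p ∈ m ^ k ∧ r - aeval s p ∈ m ^ (k + 1) := by
    intro k
    induction k with
    | zero =>
      intro r _
      exact ⟨C (y r), by simp, by simpa using h0 r⟩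
    | succ k ih =>
      intro r hr
      rw [pow_succ] at hr
      refine Submodule.mul_induction_on hr ?_ ?_
      · intro a ha b hb
        obtain ⟨p, hp1, hp2⟩ := ih a ha
        obtain ⟨q, hq1, hq2⟩ := P1 b hb
        refine ⟨p * q, ?_, ?_⟩
        · rw [map_mul, pow_succ]
          exact Ideal.mul_mem_mul hp1 hq1
        · have : a * b - aeval s (p * q) = (a - aeval s p) * b + aeval s p * (b - aeval s q) := by
            rw [map_mul]; ring
          rw [this]
          refine Ideal.add_mem _ ?_ ?_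
          · rw [pow_succ]
            exact Ideal.mul_mem_mul hp2 hb
          · rw [show k + 1 + 1 = k + 2 from rfl, pow_add]
            exact Ideal.mul_mem_mul hp1 hq2
      · rintro a b ⟨p, hp1, hp2⟩ ⟨q, hq1, hq2⟩
        refine ⟨p + q, ?_, ?_⟩
        · rw [map_add]; exact Ideal.add_mem _ hp1 hq1
        · have : a + b - aeval s (p + q) = (a - aeval s p) + (b - aeval s q) := by
            rw [map_add]; ring
          rw [this]; exact Ideal.add_mem _ hp2 hq2
  induction τ with
  | zero => exact ⟨0, by simp⟩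
  | succ τ ih =>
    obtain ⟨p, hp⟩ := ih
    obtain ⟨q, -, hq⟩ := P τ _ hp
    refine ⟨p + q, ?_⟩
    rw [map_add, ← sub_sub]
    exact hq

theorem tay_order_pow {R : Type} [CommRing R] {d : ℕ} (io : R →+* MvPowerSeries (Fin d) ℂ)
    (m : Ideal R) (hm : ∀ f ∈ m, MvPowerSeries.constantCoeff (io f) = 0) (τ : ℕ) :
    ∀ f ∈ m ^ τ, (τ : ℕ∞) ≤ (io f).order := by
  induction τ with
  | zero => intro f _; simp
  | succ τ ih =>
    intro f hf
    rw [pow_succ] at hf
    refine Submodule.mul_induction_on hf ?_ ?_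
    · intro a ha b hb
      rw [map_mul]
      refine le_trans ?_ MvPowerSeries.le_order_mul
      have h1 : (1 : ℕ∞) ≤ (io b).order :=
        MvPowerSeries.one_le_order_iff_constCoeff_eq_zero.mpr (hm b hb)
      push_cast
      exact add_le_add (ih a ha) h1
    · intro a b ha hb
      rw [map_add]
      exact le_trans (le_min ha hb) MvPowerSeries.min_order_le_add

/-- Taylor expansion at a general point -/
theorem taylor_emb {R : Type} [CommRing R] [IsDomain R] [Algebra ℂ R] [Algebra.FiniteType ℂ R]
    {d : ℕ} (t : Fin d → R) (ht : IsTranscendenceBasis ℂ t) :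
    ∃ h : R, h ≠ 0 ∧ ∀ y : R →ₐ[ℂ] ℂ, y h ≠ 0 →
      ∃ io : R →ₐ[ℂ] MvPowerSeries (Fin d) ℂ, Function.Injective io ∧
        (∀ j, io (t j) = MvPowerSeries.C (y (t j)) + MvPowerSeries.X j) ∧
        (∀ f, MvPowerSeries.constantCoeff (io f) = y f) ∧
        ∃ u : R, y u ≠ 0 ∧ ∀ (τ : ℕ) (f : R), (τ : ℕ∞) ≤ (io f).order →
          u ^ τ * f ∈ Ideal.span (Set.range fun j => t j - algebraMap ℂ R (y (t j))) ^ τ := by
  let : Algebra (MvPolynomial (Fin d) ℂ) R := (aeval t : MvPolynomial (Fin d) ℂ →ₐ[ℂ] R).toAlgebra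
  have hmap : ∀ a : MvPolynomial (Fin d) ℂ, algebraMap _ R a = aeval t a := fun _ => rfl
  have : IsScalarTower ℂ (MvPolynomial (Fin d) ℂ) R :=
    IsScalarTower.of_algebraMap_eq fun c => by rw [hmap]; simp
  have : FaithfulSMul (MvPolynomial (Fin d) ℂ) R :=
    (faithfulSMul_iff_algebraMap_injective _ _).mpr ht.1
  have : Algebra.FiniteType (MvPolynomial (Fin d) ℂ) R :=
    Algebra.FiniteType.of_restrictScalars_finiteType ℂ _ R
  have : Algebra.IsAlgebraic (MvPolynomial (Fin d) ℂ) R := by
    have := ht.isAlgebraic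
    refine ⟨fun r => ?_⟩
    have e : MvPolynomial (Fin d) ℂ ≃ₐ[ℂ] Algebra.adjoin ℂ (Set.range t) := ht.1.aevalEquiv
    refine (isAlgebraic_ringHom_iff_of_comp_eq
      (ht.1.aevalEquiv : MvPolynomial (Fin d) ℂ ≃+* Algebra.adjoin ℂ (Set.range t))
      (RingHom.id R) Function.injective_id ?_).mp (this.1 r)
    ext p
    · simp [hmap]
    · simp [hmap]
  have : IsNoetherianRing R := Algebra.FiniteType.isNoetherianRing ℂ R
  obtain ⟨h, hh, het⟩ := tay_gen_etale (A := MvPolynomial (Fin d) ℂ) (R := R)
  refine ⟨h, hh, fun y hy => ?_⟩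
  set I : Ideal (MvPowerSeries (Fin d) ℂ) := Ideal.span (Set.range MvPowerSeries.X) with hI
  let φ : MvPolynomial (Fin d) ℂ →ₐ[ℂ] MvPowerSeries (Fin d) ℂ :=
    aeval fun j => MvPowerSeries.C (y (t j)) + MvPowerSeries.X j
  let f0 : R →ₐ[ℂ] MvPowerSeries (Fin d) ℂ ⧸ I := (Algebra.ofId ℂ _).comp y
  have hf0 : ∀ a, f0 (algebraMap _ R a) = Ideal.Quotient.mk I (φ a) := by
    intro a
    have : f0.comp (aeval t) = (Ideal.Quotient.mkₐ ℂ I).comp φ := by
      ext j
      simp only [f0, φ, AlgHom.comp_apply, aeval_X, Ideal.Quotient.mkₐ_eq_mk, map_add,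
        Algebra.ofId_apply]
      have : Ideal.Quotient.mk I (MvPowerSeries.X j) = 0 :=
        Ideal.Quotient.eq_zero_iff_mem.mpr (Ideal.subset_span ⟨j, rfl⟩)
      rw [this, add_zero]
      rfl
    exact AlgHom.congr_fun this a
  have hu0 : IsUnit (f0 h) :=
    (IsUnit.mk0 _ hy).map (Algebra.ofId ℂ (MvPowerSeries (Fin d) ℂ ⧸ I))
  obtain ⟨g, hg1, hg2⟩ := tay_lift (A := MvPolynomial (Fin d) ℂ) h I (φ : _ →+* _) (f0 : _ →+* _)
    hf0 hu0
  have hg1' : ∀ a, g (aeval t a) = φ a := hg1
  let io : R →ₐ[ℂ] MvPowerSeries (Fin d) ℂ :=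
    { g with
      commutes' := fun c => by
        have := hg1' (C c)
        simpa [φ] using this }
  have hio : ∀ r, io r = g r := fun _ => rfl
  have hcc : ∀ f, MvPowerSeries.constantCoeff (io f) = y f := by
    intro f
    have h1 : g f - algebraMap ℂ _ (y f) ∈ I := Ideal.Quotient.eq.mp (hg2 f)
    have h2 : I ≤ RingHom.ker (MvPowerSeries.constantCoeff (σ := Fin d) (R := ℂ)) := by
      rw [hI, Ideal.span_le]
      rintro _ ⟨j, rfl⟩
      simp [RingHom.mem_ker]
    have h3 := h2 h1
    rw [RingHom.mem_ker, map_sub, sub_eq_zero] at h3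
    rw [hio, h3]
    rfl
  set s : Fin d → R := fun j => t j - algebraMap ℂ R (y (t j)) with hsdef
  have hiot : ∀ j, io (t j) = MvPowerSeries.C (y (t j)) + MvPowerSeries.X j := by
    intro j
    have := hg1' (X j)
    simpa [φ, hio] using this
  have hios : ∀ p : MvPolynomial (Fin d) ℂ, io (aeval s p) = (p : MvPowerSeries (Fin d) ℂ) := by
    intro p
    have : io.comp (aeval s) = coeToMvPowerSeries.algHom ℂ := by
      ext1 j
      simp only [AlgHom.comp_apply, aeval_X, hsdef, map_sub, hiot, AlgHom.commutes]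
      simp [MvPowerSeries.algebraMap_apply]
    have h1 := AlgHom.congr_fun this p
    simpa using h1
  have hsy : ∀ j, y (s j) = 0 := by intro j; simp [hsdef]
  refine ⟨io, ?_, hiot, hcc, ?_⟩
  · rw [injective_iff_map_eq_zero]
    intro f hf
    by_contra hne
    obtain ⟨a, ha, c, hc⟩ := (Algebra.IsAlgebraic.isAlgebraic (R := MvPolynomial (Fin d) ℂ)
      f).exists_nonzero_dvd (mem_nonZeroDivisors_of_ne_zero hne)
    have e1 : aeval s (aeval (fun j => X j + C (y (t j)) : Fin d → MvPolynomial (Fin d) ℂ) a) =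
        aeval t a := by
      rw [← AlgHom.comp_apply, comp_aeval]
      congr 2
      ext j
      simp [hsdef]
    have e2 : io (aeval t a) = 0 := by
      rw [← hmap, hc, map_mul, hf, zero_mul]
    rw [← e1, hios] at e2
    have e3 := (MvPolynomial.coe_eq_zero_iff).mp e2
    rw [e3, map_zero] at e1
    exact ha (ht.1 (by rw [← e1, map_zero]))
  · set m : Ideal R := RingHom.ker y with hmdef
    have hm : m ≤ Ideal.span (Set.range s) ⊔ m ^ 2 := by
      set N : Ideal R := Ideal.span (Set.range s) ⊔ m ^ 2 with hN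
      have hnil : IsNilpotent (m.map (Ideal.Quotient.mk N)) := by
        refine ⟨2, ?_⟩
        rw [← Ideal.map_pow]
        exact Ideal.map_mk_eq_bot_of_le le_sup_right
      let g2 : R →ₐ[ℂ] R ⧸ N := (Algebra.ofId ℂ _).comp y
      have hg : Ideal.Quotient.mk N = (g2 : R →+* R ⧸ N) := by
        refine tay_unram (A := MvPolynomial (Fin d) ℂ) h _ hnil _ _ (fun a => ?_) (fun x => ?_)
          ((IsUnit.mk0 _ hy).map (algebraMap ℂ _))
        · have : (Ideal.Quotient.mkₐ ℂ N).comp (aeval t) = g2.comp (aeval t) := by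
            ext j
            simp only [g2, AlgHom.comp_apply, aeval_X, Ideal.Quotient.mkₐ_eq_mk,
              Algebra.ofId_apply]
            exact Ideal.Quotient.eq.mpr (Ideal.mem_sup_left (Ideal.subset_span ⟨j, rfl⟩))
          exact AlgHom.congr_fun this a
        · have : Ideal.Quotient.mk N x - (g2 : R →+* R ⧸ N) x =
              Ideal.Quotient.mk N (x - algebraMap ℂ R (y x)) := rfl
          rw [this]
          exact Ideal.mem_map_of_mem _ (by simp [hmdef, RingHom.mem_ker])
      intro x hx
      rw [← Ideal.Quotient.eq_zero_iff_mem, hg]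
      have : y x = 0 := hx
      simp [g2, this]
    obtain ⟨u, hu1, hu2⟩ := Submodule.exists_sub_one_mem_and_smul_le_of_fg_of_le_sup (I := m)
      (N := Ideal.span (Set.range s)) (N' := m) (P := m) (IsNoetherian.noetherian _) le_rfl
      (by simpa [pow_two] using hm)
    refine ⟨u, ?_, fun τ f hf => ?_⟩
    · have : y (u - 1) = 0 := hu1
      rw [map_sub, map_one, sub_eq_zero] at this
      rw [this]; exact one_ne_zero
    · obtain ⟨p, hp⟩ := tay_approx y s hsy hm τ f
      have h1 := tay_order_pow (io : R →+* MvPowerSeries (Fin d) ℂ) m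
        (fun f hf => (hcc f).trans hf) τ _ hp
      have h2 : (τ : ℕ∞) ≤ (p : MvPowerSeries (Fin d) ℂ).order := by
        have e : (p : MvPowerSeries (Fin d) ℂ) = io f + -(io (f - aeval s p)) := by
          rw [map_sub, hios]; ring
        rw [e]
        refine le_trans (le_min hf ?_) MvPowerSeries.min_order_le_add
        rw [MvPowerSeries.order_neg]
        exact h1
      have h3 : p ∈ idealOfVars (Fin d) ℂ ^ τ := by
        rw [mem_pow_idealOfVars_iff']
        intro x hx
        have := MvPowerSeries.coeff_of_lt_order (f := (p : MvPowerSeries (Fin d) ℂ)) (d := x)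
          (lt_of_lt_of_le (by exact_mod_cast hx) h2)
        simpa using this
      have h4 : aeval s p ∈ Ideal.span (Set.range s) ^ τ := by
        have h5 := Ideal.mem_map_of_mem (aeval s : MvPolynomial (Fin d) ℂ →ₐ[ℂ] R) h3
        rw [Ideal.map_pow] at h5
        refine Ideal.pow_right_mono ?_ τ h5
        rw [idealOfVars, Ideal.map_span, ← Set.range_comp]
        refine Ideal.span_mono ?_
        rintro _ ⟨j, rfl⟩
        exact ⟨j, by simp⟩
      have h6 : Ideal.span {u} * m ≤ Ideal.span (Set.range s) := by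
        rw [Ideal.mul_le]
        intro a ha b hb
        obtain ⟨c, rfl⟩ := Ideal.mem_span_singleton'.mp ha
        rw [mul_assoc]
        exact Ideal.mul_mem_left _ _ (hu2 (Submodule.smul_mem_pointwise_smul b u m hb))
      have h7 : u ^ τ * (f - aeval s p) ∈ Ideal.span (Set.range s) ^ τ := by
        refine Ideal.pow_right_mono h6 τ ?_
        rw [mul_pow]
        exact Ideal.mul_mem_mul (Ideal.pow_mem_pow (Ideal.mem_span_singleton_self u) τ) hp
      have e : u ^ τ * f = u ^ τ * (f - aeval s p) + u ^ τ * aeval s p := by ring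
      rw [e]
      exact Ideal.add_mem _ h7 (Ideal.mul_mem_left _ _ h4)

end Pool.Agent.Lib.MP_9ff3e7_ag.F
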