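import Pool.Agent.Lib.MP_9ff3e7_ag.F.Red

/-! Linear Noether normalisation as a minimal reduction, for any nonzero space. -/

set_option autoImplicit false

namespace Pool.Agent.Lib.MP_9ff3e7_ag.F

open MvPolynomial Module Submodule

variable {L : Type} [Field L] [Algebra ℂ L]

theorem exists_reduction (V : Submodule ℂ L) (hV : V.FG) (h0 : V ≠ ⊥) :
    ∃ (r : ℕ) (y : Fin (r + 1) → L), (∀ l, y l ∈ V) ∧
      (∀ (m : ℕ) (G : MvPolynomial (Fin (r + 1)) ℂ), G.IsHomogeneous m → aeval y G = 0 → G = 0) ∧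
      ∃ c, ∀ t, V ^ (t + c) = Submodule.span ℂ (Set.range y) ^ t * V ^ c := by
  classical
  have hex : ∃ n : ℕ, ∃ (M : ℕ) (y : Fin n → L), (∀ i, y i ∈ V) ∧
      V ^ (M + 1) ≤ span ℂ (Set.range y) * V ^ M := by
    obtain ⟨n, y, hy⟩ := Submodule.fg_iff_exists_fin_generating_family.1 hV
    exact ⟨n, 0, y, fun i => hy ▸ subset_span ⟨i, rfl⟩, by simp [hy]⟩
  have hmin := fun m => Nat.find_min hex (m := m)
  obtain ⟨M, y, hy, hred⟩ := Nat.find_spec hex
  generalize Nat.find hex = n at *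
  cases n with
  | zero =>
    obtain ⟨v, hv, hv0⟩ := (Submodule.ne_bot_iff V).1 h0
    have h2 := hred (pow_mem_pow V hv (M + 1))
    simp [hv0] at h2
  | succ d =>
    have hYE : span ℂ (Set.range y) ≤ V := span_le.2 (by rintro _ ⟨i, rfl⟩; exact hy i)
    refine ⟨d, y, hy, fun s G hG h0 => ?_, M, fun t => le_antisymm ?_ ?_⟩
    · by_contra hne
      obtain ⟨y', t, hy', hle⟩ := X2.drop_one y hG h0 hne
      refine hmin d (Nat.lt_succ_self d) ⟨M + t, y', fun i => hYE (hy' i), ?_⟩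
      calc V ^ (M + t + 1) = V ^ (M + 1 * (t + 1)) := by congr 1; ring
        _ ≤ span ℂ (Set.range y) ^ (t + 1) * V ^ M := X2.pow_le_of_red hred _
        _ ≤ span ℂ (Set.range y') * span ℂ (Set.range y) ^ t * V ^ M := by gcongr
        _ ≤ span ℂ (Set.range y') * V ^ t * V ^ M := by gcongr
        _ = span ℂ (Set.range y') * V ^ (M + t) := by rw [mul_assoc, ← pow_add, add_comm]
    · simpa [add_comm] using X2.pow_le_of_red hred t
    · rw [pow_add]
      gcongr

end Pool.Agent.Lib.MP_9ff3e7_ag.F
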