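import Mathlib

/-! Module X2: number of monomials, transcendence degree of a minimal reduction, growth bound. -/

set_option autoImplicit false

namespace Pool.Agent.Lib.MP_9ff3e7_ag.F

namespace X2Tr

open Algebra Module

universe u

variable {K : Type u} [Field K]

lemma fg_chain {B : Type*} [AddCommGroup B] [Module K B] {N : Submodule K B} (hN : N.FG)
    {f : ℕ → Submodule K B} (hf : Monotone f) (h : ∀ x ∈ N, ∃ c, x ∈ f c) : ∃ c, N ≤ f c := by
  obtain ⟨S, rfl⟩ := hN
  choose! c hc using h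
  exact ⟨S.sup c, Submodule.span_le.2 fun x hx =>
    hf (Finset.le_sup hx) (hc x (Submodule.subset_span hx))⟩

lemma pow_mono {B : Type*} [CommRing B] [Algebra K B] {U : Submodule K B} (h : 1 ∈ U) :
    Monotone fun c : ℕ => U ^ c :=
  monotone_nat_of_le_succ fun c x hx => by
    rw [pow_succ]; simpa using Submodule.mul_mem_mul hx h

lemma mem_pow {B : Type*} [CommRing B] [Algebra K B] {U : Submodule K B} (h : 1 ∈ U) {S : Set B}
    (hS : S ⊆ U) {x : B} (hx : x ∈ adjoin K S) : ∃ c, x ∈ U ^ c := by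
  induction hx using adjoin_induction with
  | mem x hx => exact ⟨1, by simpa using hS hx⟩
  | algebraMap c => exact ⟨0, by simp⟩
  | add x y _ _ hx hy =>
    obtain ⟨c, hc⟩ := hx
    obtain ⟨d, hd⟩ := hy
    exact ⟨max c d, add_mem (pow_mono h (le_max_left _ _) hc) (pow_mono h (le_max_right _ _) hd)⟩
  | mul x y _ _ hx hy =>
    obtain ⟨c, hc⟩ := hx
    obtain ⟨d, hd⟩ := hy
    exact ⟨c + d, pow_add U c d ▸ Submodule.mul_mem_mul hc hd⟩

lemma growth {B : Type u} [CommRing B] [IsDomain B] [Algebra K B] [FiniteType K B] {d : ℕ}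
    (hd : trdeg K B ≤ d) {W : Submodule K B} (hW : W.FG) :
    ∃ C, ∀ k, finrank K ↥(W ^ k) ≤ C * (k + 1) ^ d := by
  classical
  obtain ⟨s, g, inj, fin⟩ := exists_finite_inj_algHom_of_fg K B
  algebraize [g.toRingHom]
  have : Module.Finite (MvPolynomial (Fin s) K) B := fin
  let u : Fin s → B := fun i => g (MvPolynomial.X i)
  have e : MvPolynomial.aeval u = g := (MvPolynomial.aeval_unique _).symm
  have hs : s ≤ d := by
    have ind : AlgebraicIndependent K u := by rw [AlgebraicIndependent, e]; exact inj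
    simpa using ind.lift_cardinalMk_le_trdeg.trans (Cardinal.lift_le.2 hd)
  obtain ⟨b, hb⟩ := Module.Finite.fg_top (R := MvPolynomial (Fin s) K) (M := B)
  let U := Submodule.span K (insert 1 (Set.range u))
  let E := Submodule.span K (b : Set B)
  have U1 : 1 ∈ U := Submodule.subset_span (Set.mem_insert _ _)
  have mono : Monotone fun c : ℕ => U ^ c * E := fun _ _ h => mul_le_mul_left (pow_mono U1 h) _
  have all : ∀ x, ∃ c, x ∈ U ^ c * E := fun x => by
    induction (hb ▸ Submodule.mem_top : x ∈ Submodule.span _ (b : Set B))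
      using Submodule.span_induction with
    | mem x hx => exact ⟨0, by simpa using Submodule.subset_span hx⟩
    | zero => exact ⟨0, zero_mem _⟩
    | add x y _ _ hx hy =>
      obtain ⟨c, hc⟩ := hx
      obtain ⟨d, hd⟩ := hy
      exact ⟨max c d, add_mem (mono (le_max_left _ _) hc) (mono (le_max_right _ _) hd)⟩
    | smul p x _ hx =>
      obtain ⟨c, hc⟩ := hx
      obtain ⟨d, hd⟩ := mem_pow U1 (S := Set.range u) (x := g p)
        (fun y hy => Submodule.subset_span (Set.mem_insert_of_mem _ hy))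
        (by rw [adjoin_range_eq_range_aeval, e]; exact ⟨p, rfl⟩)
      exact ⟨d + c, by rw [pow_add, mul_assoc]; exact Submodule.mul_mem_mul hd hc⟩
  obtain ⟨c, hc⟩ := fg_chain (hW.mul (Submodule.fg_span b.finite_toSet)) mono fun x _ => all x
  obtain ⟨c0, h0⟩ := all 1
  have h1 : ∀ k, W ^ k ≤ U ^ (c0 + c * k) * E := fun k => by
    induction k with
    | zero => simpa using h0
    | succ k ih =>
      calc W ^ (k + 1) = W ^ k * W := pow_succ _ _
        _ ≤ U ^ (c0 + c * k) * E * W := mul_le_mul_left ih _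
        _ = U ^ (c0 + c * k) * (W * E) := by ring
        _ ≤ U ^ (c0 + c * k) * (U ^ c * E) := mul_le_mul_right hc _
        _ = _ := by ring
  have h2 : ∀ m, U ^ m ≤ Submodule.span K
      {x | ∃ α : Fin s → ℕ, (∀ i, α i ≤ m) ∧ x = ∏ i, u i ^ α i} := fun m => by
    induction m with
    | zero =>
      rw [pow_zero, Submodule.one_le]
      exact Submodule.subset_span ⟨0, by simp, by simp⟩
    | succ m ih =>
      rw [pow_succ]
      refine (mul_le_mul_left ih _).trans ?_
      rw [Submodule.span_mul_span]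
      refine Submodule.span_mono ?_
      rintro _ ⟨_, ⟨α, hα, rfl⟩, y, rfl | ⟨j, rfl⟩, rfl⟩
      · exact ⟨α, fun i => (hα i).trans m.le_succ, mul_one _⟩
      · refine ⟨α + Pi.single j 1, fun i => add_le_add (hα i) ?_, ?_⟩
        · rw [Pi.single_apply]; split_ifs <;> simp
        · simp only [Pi.add_apply, pow_add, Finset.prod_mul_distrib]
          simp [Pi.single_apply]
  refine ⟨b.card * (c0 + c + 1) ^ d, fun k => ?_⟩
  set m := c0 + c * k
  have h3 : W ^ k ≤ Submodule.span K (Set.range fun p : (Fin s → Fin (m + 1)) × b =>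
      (∏ i, u i ^ (p.1 i : ℕ)) * p.2) := by
    refine (h1 k).trans ((mul_le_mul_left (h2 m) _).trans ?_)
    rw [Submodule.span_mul_span]
    refine Submodule.span_mono ?_
    rintro _ ⟨_, ⟨α, hα, rfl⟩, y, hy, rfl⟩
    exact ⟨(fun i => ⟨α i, Nat.lt_succ_of_le (hα i)⟩, ⟨y, hy⟩), rfl⟩
  have := FiniteDimensional.span_of_finite K (Set.finite_range
    fun p : (Fin s → Fin (m + 1)) × b => (∏ i, u i ^ (p.1 i : ℕ)) * p.2)
  refine (Submodule.finrank_mono h3).trans ((finrank_range_le_card _).trans ?_)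
  simp only [Fintype.card_prod, Fintype.card_pi, Fintype.card_fin, Finset.prod_const,
    Finset.card_univ, Fintype.card_coe]
  rw [mul_comm, mul_assoc, ← mul_pow]
  refine Nat.mul_le_mul_left _ ((Nat.pow_le_pow_right m.succ_pos hs).trans
    (Nat.pow_le_pow_left ?_ _))
  simp only [m]
  nlinarith [Nat.zero_le (c0 * k)]

end X2Tr

open MvPolynomial Module

variable {L : Type} [Field L] [Algebra ℂ L]

namespace X2Tr

theorem span_pow_eq_map {σ : Type} (y : σ → L) (m : ℕ) :
    Submodule.span ℂ (Set.range y) ^ m =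
      Submodule.map (aeval y).toLinearMap (homogeneousSubmodule σ ℂ m) := by
  have hf : (⇑(aeval y : MvPolynomial σ ℂ →ₐ[ℂ] L).toLinearMap ∘ X) = y := by
    funext i; simp
  rw [← homogeneousSubmodule_one_pow, Submodule.map_pow, homogeneousSubmodule_one_eq_span_X,
    Submodule.map_span, ← Set.range_comp, hf]

theorem finrank_hom (r m : ℕ) :
    finrank ℂ ↥(homogeneousSubmodule (Fin (r + 1)) ℂ m) = (m + r).choose r := by
  classical
  have e : {d : Fin (r + 1) →₀ ℕ | d.degree = m} =
      ((Finset.univ : Finset (Fin (r + 1))).finsuppAntidiag m : Set (Fin (r + 1) →₀ ℕ)) := by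
    ext d
    simp [Finsupp.degree_eq_sum]
  have h : homogeneousSubmodule (Fin (r + 1)) ℂ m = restrictSupport ℂ
      ((Finset.univ : Finset (Fin (r + 1))).finsuppAntidiag m : Set (Fin (r + 1) →₀ ℕ)) := by
    rw [homogeneousSubmodule_eq_finsupp_supported, e]; rfl
  rw [h, finrank_eq_card_basis (basisRestrictSupport ℂ _)]
  simp only [Finset.coe_sort_coe, Fintype.card_coe, Finset.card_finsuppAntidiag_nat_eq_choose,
    Finset.card_univ, Fintype.card_fin]
  rw [show r + 1 + m - 1 = m + r by omega, Nat.choose_symm_add]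

theorem aeval_scale {σ : Type} {H : MvPolynomial σ ℂ} {i : ℕ} (hH : H.IsHomogeneous i) (a : L)
    (w : σ → L) : aeval (fun l => a * w l) H = a ^ i * aeval w H := by
  rw [aeval_def, aeval_def, eval₂_eq, eval₂_eq, Finset.mul_sum]
  refine Finset.sum_congr rfl fun d hd => ?_
  have h : ∑ l ∈ d.support, d l = i := by
    have := hH (mem_support_iff.1 hd)
    rw [← this]; simp [Finsupp.weight_apply, Finsupp.sum]
  simp only [mul_pow, Finset.prod_mul_distrib, Finset.prod_pow_eq_pow_sum, h]
  ring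

theorem indep {r : ℕ} (y : Fin (r + 1) → L) (h0 : y 0 ≠ 0)
    (hy : ∀ (m : ℕ) (G : MvPolynomial (Fin (r + 1)) ℂ), G.IsHomogeneous m → aeval y G = 0 → G = 0) :
    AlgebraicIndependent ℂ fun l : Fin r => (y 0)⁻¹ * y l.succ := by
  classical
  rw [algebraicIndependent_iff]
  intro p hp
  set D := p.totalDegree with hD
  let G : MvPolynomial (Fin (r + 1)) ℂ :=
    ∑ i ∈ Finset.range (D + 1), X 0 ^ (D - i) * rename Fin.succ (homogeneousComponent i p)
  have hG : G.IsHomogeneous D := by
    refine IsHomogeneous.sum _ _ _ fun i hi => ?_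
    have hi' : i ≤ D := Nat.lt_succ_iff.1 (Finset.mem_range.1 hi)
    have := (isHomogeneous_X_pow (R := ℂ) (0 : Fin (r + 1)) (D - i)).mul
      ((homogeneousComponent_isHomogeneous i p).rename_isHomogeneous (f := Fin.succ))
    rwa [Nat.sub_add_cancel hi'] at this
  have hG0 : aeval y G = 0 := by
    have e : aeval y G = y 0 ^ D * aeval (fun l : Fin r => (y 0)⁻¹ * y l.succ) p := by
      conv_rhs => rw [← sum_homogeneousComponent p, map_sum, Finset.mul_sum]
      rw [map_sum]
      refine Finset.sum_congr rfl fun i hi => ?_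
      have hi' : i ≤ D := Nat.lt_succ_iff.1 (Finset.mem_range.1 hi)
      rw [map_mul, map_pow, aeval_X, aeval_rename,
        aeval_scale (homogeneousComponent_isHomogeneous i p), ← mul_assoc, pow_sub₀ _ h0 hi',
        inv_pow]
      rfl
    rw [e, hp, mul_zero]
  have hz := hy D G hG hG0
  have e2 : aeval (Fin.cons 1 X : Fin (r + 1) → MvPolynomial (Fin r) ℂ) G = p := by
    conv_rhs => rw [← sum_homogeneousComponent p]
    rw [map_sum]
    refine Finset.sum_congr rfl fun i _ => ?_
    rw [map_mul, map_pow, aeval_X, aeval_rename]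
    have : ((Fin.cons 1 X : Fin (r + 1) → MvPolynomial (Fin r) ℂ) ∘ Fin.succ) = X := by
      funext l; simp
    rw [this]
    simp
  rw [← e2, hz, map_zero]

end X2Tr

/-- the number of monomials -/
theorem finrank_span_pow {r : ℕ} (y : Fin (r + 1) → L)
    (hy : ∀ (m : ℕ) (G : MvPolynomial (Fin (r + 1)) ℂ), G.IsHomogeneous m → aeval y G = 0 → G = 0)
    (m : ℕ) : finrank ℂ ↥(Submodule.span ℂ (Set.range y) ^ m) = (m + r).choose r := by
  rw [X2Tr.span_pow_eq_map, ← X2Tr.finrank_hom r m, ← LinearMap.range_domRestrict]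
  refine LinearMap.finrank_range_of_inj ?_
  rw [← LinearMap.ker_eq_bot, eq_bot_iff]
  intro G hG
  exact Subtype.ext (hy m G.1 G.2 hG)

/-- the size of a minimal reduction is the transcendence degree -/
theorem trdeg_eq_of_reduction (V : Submodule ℂ L) (hV : V.FG) {r : ℕ} (y : Fin (r + 1) → L)
    (hyV : ∀ l, y l ∈ V)
    (hy : ∀ (m : ℕ) (G : MvPolynomial (Fin (r + 1)) ℂ), G.IsHomogeneous m → aeval y G = 0 → G = 0)
    (c : ℕ) (hc : ∀ t, V ^ (t + c) = Submodule.span ℂ (Set.range y) ^ t * V ^ c)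
    (hL : ∀ α : L, ∃ m : ℕ, ∃ p ∈ V ^ m, ∃ q ∈ V ^ m, q ≠ 0 ∧ α * q = p) :
    Algebra.trdeg ℂ L = r := by
  classical
  have h0 : y 0 ≠ 0 := fun h =>
    X_ne_zero (R := ℂ) (0 : Fin (r + 1)) (hy 1 _ (isHomogeneous_X ℂ 0) (by simp [h]))
  have ind := X2Tr.indep y h0 hy
  set A := Algebra.adjoin ℂ (Set.range fun l : Fin r => (y 0)⁻¹ * y l.succ) with hA
  have hW : ∀ a ∈ Submodule.span ℂ (Set.range y), (y 0)⁻¹ * a ∈ A := by
    intro a ha
    induction ha using Submodule.span_induction with
    | mem x hx =>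
      obtain ⟨i, rfl⟩ := hx
      refine Fin.cases ?_ (fun l => Algebra.subset_adjoin ⟨l, rfl⟩) i
      rw [inv_mul_cancel₀ h0]; exact one_mem _
    | zero => rw [mul_zero]; exact zero_mem _
    | add a b _ _ ha hb => rw [mul_add]; exact add_mem ha hb
    | smul s a _ ha => rw [mul_smul_comm]; exact A.smul_mem ha s
  obtain ⟨S, hS⟩ := hV.pow c
  let N : Submodule A L := Submodule.span A (S : Set L)
  have hVN : ∀ b ∈ V ^ c, b ∈ N := fun b hb =>
    Submodule.span_le_restrictScalars ℂ A (S : Set L) (hS ▸ hb)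
  have hN0 : N ≠ ⊥ := fun h => by
    have := hVN _ (Submodule.pow_mem_pow V (hyV 0) c)
    rw [h, Submodule.mem_bot] at this
    exact pow_ne_zero c h0 this
  have hstep : ∀ z ∈ Submodule.span ℂ (Set.range y) * V ^ c, (y 0)⁻¹ * z ∈ N := by
    intro z hz
    induction hz using Submodule.mul_induction_on' with
    | mem_mul_mem a ha b hb =>
      have := N.smul_mem (⟨_, hW a ha⟩ : A) (hVN b hb)
      rw [← mul_assoc]
      exact this
    | add a _ b _ ha hb => rw [mul_add]; exact add_mem ha hb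
  have hint : ∀ v ∈ V, IsIntegral A ((y 0)⁻¹ * v) := by
    intro v hv
    refine isIntegral_of_smul_mem_submodule N hN0 (Submodule.fg_span S.finite_toSet) _ ?_
    intro n hn
    induction hn using Submodule.span_induction with
    | mem x hx =>
      have hx' : x ∈ V ^ c := hS ▸ Submodule.subset_span hx
      have h1 : v * x ∈ V ^ (1 + c) := by
        rw [pow_add, pow_one]; exact Submodule.mul_mem_mul hv hx'
      rw [hc 1, pow_one] at h1
      rw [smul_eq_mul, mul_assoc]
      exact hstep _ h1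
    | zero => rw [smul_zero]; exact zero_mem _
    | add a b _ _ ha hb => rw [smul_add]; exact add_mem ha hb
    | smul s a _ ha => rw [smul_comm]; exact N.smul_mem s ha
  have hpow : ∀ (m : ℕ), ∀ p ∈ V ^ m, IsIntegral A ((y 0)⁻¹ ^ m * p) := by
    intro m p hp
    induction hp using Submodule.pow_induction_on_left' with
    | algebraMap s =>
      rw [pow_zero, one_mul, IsScalarTower.algebraMap_apply ℂ A L]
      exact isIntegral_algebraMap
    | add a b i _ _ ha hb => rw [mul_add]; exact ha.add hb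
    | mem_mul v hv i x _ hx =>
      have := (hint v hv).mul hx
      rwa [mul_mul_mul_comm, ← pow_succ'] at this
  have alg : Algebra.IsAlgebraic A L := ⟨fun α => by
    obtain ⟨m, p, hp, q, hq, hq0, e⟩ := hL α
    refine IsAlgebraic.of_mul (y := (y 0)⁻¹ ^ m * q)
      (mem_nonZeroDivisors_of_ne_zero (mul_ne_zero (pow_ne_zero _ (inv_ne_zero h0)) hq0))
      (hpow m q hq).isAlgebraic ?_
    rw [mul_assoc, mul_comm q, e]
    exact (hpow m p hp).isAlgebraic⟩
  have tb := ind.isTranscendenceBasis_iff_isAlgebraic.2 alg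
  rw [← tb.cardinalMk_eq_trdeg, Cardinal.mk_fin]

/-- polynomial growth -/
theorem finrank_pow_le {O : Type} [CommRing O] [IsDomain O] [Algebra ℂ O] [Algebra.FiniteType ℂ O]
    {n : ℕ} (hn : Algebra.trdeg ℂ O ≤ n) (W : Submodule ℂ O) (hW : W.FG) :
    ∃ C : ℕ, ∀ j, finrank ℂ ↥(W ^ j) ≤ C * (j + 1) ^ n := X2Tr.growth hn hW

end Pool.Agent.Lib.MP_9ff3e7_ag.F
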