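import Pool.Agent.Lib.MP_9ff3e7_ag.F.Defs

/-! Dehomogenisation, evaluation at a point, affine pieces and etale charts of `Proj S`. -/

set_option autoImplicit false

namespace Pool.Agent.Lib.MP_9ff3e7_ag.F

noncomputable section

variable {S : Type} [CommRing S] [IsDomain S] [Algebra ℂ S] {𝒜 : ℕ → Submodule ℂ S}

omit [IsDomain S] [Algebra ℂ S] in
theorem alg_inj : Function.Injective (algebraMap S (FractionRing S)) :=
  IsFractionRing.injective S (FractionRing S)

omit [IsDomain S] [Algebra ℂ S] in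
theorem alg_ne {b : S} (hb : b ≠ 0) : algebraMap S (FractionRing S) b ≠ 0 :=
  fun h => hb (alg_inj (h.trans (map_zero _).symm))

theorem div_mem_Fn {j : ℕ} {a b : S} (ha : a ∈ 𝒜 j) (hb : b ∈ 𝒜 j) :
    algebraMap S (FractionRing S) a / algebraMap S (FractionRing S) b ∈ Fn 𝒜 :=
  IntermediateField.subset_adjoin _ _ ⟨j, a, ha, b, hb, rfl⟩

open Classical in
/-- the value at `p` of a fraction whose denominator does not vanish at `p` -/
def evF (p : S →ₐ[ℂ] ℂ) (x : FractionRing S) : ℂ :=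
  if h : ∃ ab : S × S, p ab.2 ≠ 0 ∧
      x = algebraMap S (FractionRing S) ab.1 / algebraMap S (FractionRing S) ab.2 then
    p h.choose.1 / p h.choose.2 else 0

theorem evF_div (p : S →ₐ[ℂ] ℂ) (a : S) {b : S} (hb : p b ≠ 0) :
    evF p (algebraMap S (FractionRing S) a / algebraMap S (FractionRing S) b) = p a / p b := by
  have h : ∃ ab : S × S, p ab.2 ≠ 0 ∧
      algebraMap S (FractionRing S) a / algebraMap S (FractionRing S) b =
        algebraMap S (FractionRing S) ab.1 / algebraMap S (FractionRing S) ab.2 := ⟨(a, b), hb, rfl⟩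
  rw [evF, dif_pos h]
  obtain ⟨h1, h2⟩ := h.choose_spec
  generalize h.choose = c at h1 h2
  have b0 : b ≠ 0 := fun e => hb (by simp [e])
  have c0 : c.2 ≠ 0 := fun e => h1 (by simp [e])
  rw [div_eq_div_iff (alg_ne b0) (alg_ne c0), ← map_mul, ← map_mul] at h2
  rw [div_eq_div_iff h1 hb, ← map_mul, ← map_mul, alg_inj h2]

variable [GradedAlgebra 𝒜]

theorem mem_loc {p : Pt 𝒜} {x : Fn 𝒜} : x ∈ loc p ↔ ∃ j, ∃ a ∈ 𝒜 j, ∃ b ∈ 𝒜 j, p.1 b ≠ 0 ∧
    (x : FractionRing S) = algebraMap S (FractionRing S) a / algebraMap S (FractionRing S) b := by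
  refine ⟨fun h => ?_, fun h => Algebra.subset_adjoin h⟩
  induction h using Algebra.adjoin_induction with
  | mem x hx => exact hx
  | algebraMap r =>
    refine ⟨0, algebraMap ℂ S r, SetLike.algebraMap_mem_graded 𝒜 r, 1, SetLike.one_mem_graded 𝒜,
      by simp, ?_⟩
    simp [← IsScalarTower.algebraMap_apply]
  | add x y _ _ hx hy =>
    obtain ⟨i, a, ha, b, hb, h1, h2⟩ := hx
    obtain ⟨j, c, hc, d, hd, h3, h4⟩ := hy
    have b0 : b ≠ 0 := fun e => h1 (by simp [e])
    have d0 : d ≠ 0 := fun e => h3 (by simp [e])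
    refine ⟨i + j, a * d + b * c, add_mem (SetLike.mul_mem_graded ha hd)
      (SetLike.mul_mem_graded hb hc), b * d, SetLike.mul_mem_graded hb hd, by simp [h1, h3], ?_⟩
    rw [IntermediateField.coe_add, h2, h4, div_add_div _ _ (alg_ne b0) (alg_ne d0)]
    simp
  | mul x y _ _ hx hy =>
    obtain ⟨i, a, ha, b, hb, h1, h2⟩ := hx
    obtain ⟨j, c, hc, d, hd, h3, h4⟩ := hy
    refine ⟨i + j, a * c, SetLike.mul_mem_graded ha hc, b * d, SetLike.mul_mem_graded hb hd,
      by simp [h1, h3], ?_⟩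
    rw [IntermediateField.coe_mul, h2, h4, div_mul_div_comm]
    simp

/-- evaluation of regular functions at `p` -/
def ev (p : Pt 𝒜) : loc p →ₐ[ℂ] ℂ where
  toFun x := evF p.1 (x.1 : FractionRing S)
  map_one' := by simpa using evF_div p.1 1 (b := 1) (by simp)
  map_zero' := by simpa using evF_div p.1 0 (b := 1) (by simp)
  map_mul' x y := by
    obtain ⟨i, a, ha, b, hb, h1, h2⟩ := mem_loc.1 x.2
    obtain ⟨j, c, hc, d, hd, h3, h4⟩ := mem_loc.1 y.2
    rw [MulMemClass.coe_mul, IntermediateField.coe_mul, h2, h4, div_mul_div_comm, ← map_mul,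
      ← map_mul, evF_div _ _ h1, evF_div _ _ h3, evF_div _ _ (by simp [h1, h3]), map_mul, map_mul,
      div_mul_div_comm]
  map_add' x y := by
    obtain ⟨i, a, ha, b, hb, h1, h2⟩ := mem_loc.1 x.2
    obtain ⟨j, c, hc, d, hd, h3, h4⟩ := mem_loc.1 y.2
    have b0 : b ≠ 0 := fun e => h1 (by simp [e])
    have d0 : d ≠ 0 := fun e => h3 (by simp [e])
    rw [AddMemClass.coe_add, IntermediateField.coe_add, h2, h4,
      div_add_div _ _ (alg_ne b0) (alg_ne d0), ← map_mul, ← map_mul, ← map_mul, ← map_add,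
      evF_div _ _ h1, evF_div _ _ h3, evF_div _ _ (by simp [h1, h3]), div_add_div _ _ h1 h3]
    simp
  commutes' r := by
    have := evF_div p.1 (algebraMap ℂ S r) (b := 1) (by simp)
    simpa [← IsScalarTower.algebraMap_apply] using this

theorem ev_div (p : Pt 𝒜) (x : loc p) {a b : S} (hb : p.1 b ≠ 0)
    (h : (x.1 : FractionRing S) =
      algebraMap S (FractionRing S) a / algebraMap S (FractionRing S) b) :
    ev p x = p.1 a / p.1 b := by
  change evF p.1 (x.1 : FractionRing S) = _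
  rw [h, evF_div _ _ hb]

variable (𝒜) in
/-- `a ↦ a / l ^ deg a`, with values in the fraction field -/
def dehF (l : S) : S →ₐ[ℂ] FractionRing S :=
  (DirectSum.toAlgebra ℂ (fun j => 𝒜 j)
    (fun j => (LinearMap.mulRight ℂ ((algebraMap S (FractionRing S) l)⁻¹ ^ j)).comp
      ((IsScalarTower.toAlgHom ℂ S (FractionRing S)).toLinearMap.comp (𝒜 j).subtype))
    (by simp)
    (fun {i j} a b => by
      simp [GradedMonoid.GMul.mul, pow_add]; ring)).comp
    (DirectSum.decomposeAlgEquiv 𝒜).toAlgHom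

theorem dehF_eq (l : S) {j : ℕ} {a : S} (ha : a ∈ 𝒜 j) :
    dehF 𝒜 l a = algebraMap S (FractionRing S) a / algebraMap S (FractionRing S) l ^ j := by
  simp [dehF, DirectSum.decompose_of_mem 𝒜 ha, DirectSum.toAlgebra, div_eq_mul_inv]

theorem dehF_mem {l : S} (hl : l ∈ 𝒜 1) (a : S) : dehF 𝒜 l a ∈ Fn 𝒜 := by
  induction a using DirectSum.Decomposition.inductionOn 𝒜 with
  | zero => simp
  | @homogeneous j a =>
    rw [dehF_eq l a.2, ← map_pow]
    exact div_mem_Fn a.2 (by simpa using SetLike.pow_mem_graded j hl)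
  | add a b ha hb => rw [map_add]; exact add_mem ha hb

/-- dehomogenisation `a ↦ a / l ^ deg a` -/
def deh (l : 𝒜 1) : S →ₐ[ℂ] Fn 𝒜 :=
  (dehF 𝒜 l).codRestrict (Fn 𝒜).toSubalgebra (dehF_mem l.2)

theorem deh_coe (l : 𝒜 1) {j : ℕ} {a : S} (ha : a ∈ 𝒜 j) :
    ((deh l a : Fn 𝒜) : FractionRing S) =
      algebraMap S (FractionRing S) a / algebraMap S (FractionRing S) l ^ j := dehF_eq _ ha

/-- the ring of regular functions on the affine piece `l g ≠ 0` -/
def aff (l : 𝒜 1) (g : S) : Subalgebra ℂ (Fn 𝒜) :=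
  Algebra.adjoin ℂ (insert (deh l g)⁻¹ (Set.range (deh l)))

theorem deh_mem_aff (l : 𝒜 1) (g a : S) : deh l a ∈ aff l g :=
  Algebra.subset_adjoin (Or.inr ⟨a, rfl⟩)

/-- dehomogenisation with values in the ring of the affine piece -/
def dehO (l : 𝒜 1) (g : S) : S →ₐ[ℂ] aff l g := (deh l).codRestrict _ (deh_mem_aff l g)

@[simp] theorem dehO_coe (l : 𝒜 1) (g a : S) : (dehO l g a : Fn 𝒜) = deh l a := rfl

variable (𝒜) in
/-- an affine piece `l g ≠ 0` of `Proj S`, standard etale over affine `n` space -/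
structure Chart (n : ℕ) where
  l : 𝒜 1
  e : ℕ
  g : S
  hg : g ∈ 𝒜 e
  l0 : (l : S) ≠ 0
  g0 : g ≠ 0
  [alg : Algebra (MvPolynomial (Fin n) ℂ) (aff l g)]
  [tower : IsScalarTower ℂ (MvPolynomial (Fin n) ℂ) (aff l g)]
  E : StandardEtalePresentation (MvPolynomial (Fin n) ℂ) (aff l g)

namespace Chart

variable {n : ℕ} (c : Chart 𝒜 n)

/-- the coordinate ring of the chart -/
def O : Subalgebra ℂ (Fn 𝒜) := aff c.l c.g

instance : Algebra (MvPolynomial (Fin n) ℂ) c.O := c.alg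
instance : IsScalarTower ℂ (MvPolynomial (Fin n) ℂ) c.O := c.tower

/-- the standard etale presentation -/
def pres : StandardEtalePresentation (MvPolynomial (Fin n) ℂ) c.O := c.E

/-- the coordinates -/
def z (i : Fin n) : c.O := algebraMap (MvPolynomial (Fin n) ℂ) c.O (MvPolynomial.X i)

/-- dehomogenisation into the chart -/
def dh : S →ₐ[ℂ] c.O := dehO c.l c.g

/-- the degree filtration of the chart -/
def fil (j : ℕ) : Submodule ℂ c.O := (𝒜 j).map c.dh.toLinearMap

/-- the point `q` lies in the chart -/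
def In (q : Pt 𝒜) : Prop := q.1 c.l ≠ 0 ∧ q.1 c.g ≠ 0

/-- the top form `dz₁ ∧ ⋯ ∧ dzₙ` -/
def dz : TopForm 𝒜 n :=
  exteriorPower.ιMulti (Fn 𝒜) n fun i => KaehlerDifferential.D ℂ (Fn 𝒜) (c.z i : Fn 𝒜)

end Chart

end

end Pool.Agent.Lib.MP_9ff3e7_ag.F
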