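import Pool.Agent.Lib.MP_9ff3e7_ag.F.GO

/-! Algebraic derivatives along a sheet are the analytic ones. -/

set_option autoImplicit false
set_option linter.dupNamespace false

namespace Pool.Agent.Lib.MP_9ff3e7_ag.F

open MeasureTheory MvPolynomial Metric Filter Topology

variable {n : ℕ} {O : Type} [CommRing O] [Algebra ℂ O]
  [Algebra (MvPolynomial (Fin n) ℂ) O] [IsScalarTower ℂ (MvPolynomial (Fin n) ℂ) O]

/-- a point derivation that kills the coordinates vanishes -/
theorem ptder_zero (E : StandardEtalePresentation (MvPolynomial (Fin n) ℂ) O) (q : Pnt O)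
    (D : O →ₗ[ℂ] ℂ) (hD : ∀ a b, D (a * b) = q a * D b + q b * D a)
    (hz : ∀ j, D (zc n O j) = 0) (f : O) : D f = 0 := by
  have h1 : D 1 = 0 := by
    have := hD 1 1
    simp only [mul_one, map_one, one_mul] at this
    linear_combination -this
  have hR : ∀ r : MvPolynomial (Fin n) ℂ, D (algebraMap _ O r) = 0 := by
    intro r
    induction r using MvPolynomial.induction_on with
    | C c =>
      have : algebraMap (MvPolynomial (Fin n) ℂ) O (C c) = c • (1 : O) := by
        rw [← MvPolynomial.algebraMap_eq, ← IsScalarTower.algebraMap_apply,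
          Algebra.algebraMap_eq_smul_one]
      rw [this, map_smul, h1, smul_zero]
    | add a b ha hb => rw [map_add, map_add, ha, hb, add_zero]
    | mul_X a i ha =>
      have hi := hz i
      rw [zc] at hi
      rw [map_mul, hD, ha, hi]; ring
  have hP : ∀ P : Polynomial (MvPolynomial (Fin n) ℂ),
      D (Polynomial.aeval E.x P) = q (Polynomial.aeval E.x P.derivative) * D E.x := by
    intro P
    induction P using Polynomial.induction_on with
    | C c => simp [hR]
    | add a b ha hb => simp only [map_add, ha, hb]; ring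
    | monomial k c ih =>
      rw [pow_succ, ← mul_assoc]
      generalize Polynomial.C c * Polynomial.X ^ k = A at ih ⊢
      rw [map_mul, hD, ih, Polynomial.derivative_mul]
      simp only [Polynomial.aeval_X, Polynomial.derivative_X, map_add, map_mul, map_one]
      ring
  have hx : D E.x = 0 := by
    have h := hP E.f
    rw [E.hasMap.1, map_zero] at h
    exact (mul_eq_zero.1 h.symm).resolve_left (E.hasMap.isUnit_derivative_f.map q).ne_zero
  obtain ⟨P, k, hk⟩ := E.exists_mul_aeval_x_g_pow_eq_aeval_x f
  have h2 := hP P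
  have h3 := hP (E.g ^ k)
  rw [map_pow] at h3
  rw [← hk, hD, h3, hx] at h2
  have hu : q (Polynomial.aeval E.x E.g ^ k) ≠ 0 := ((E.hasMap.2.pow k).map q).ne_zero
  simp only [mul_zero, zero_add] at h2
  exact (mul_eq_zero.1 h2).resolve_left hu

/-- X3-D: algebraic derivatives in the coordinate directions are the analytic ones -/
theorem sheet_deriv (M : Model n O) (p : Pnt O) (pd : Fin n → Derivation ℂ O O)
    (h1 : ∀ i j, pd i (zc n O j) = if i = j then 1 else 0) :
    ∀ᶠ w in 𝓝 (zz n p), ∀ (f : O) (i : Fin n),
      fderiv ℂ (fun w' => M.sg p w' f) w (Pi.single i 1) = M.sg p w (pd i f) := by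
  filter_upwards [M.an p, (M.sec p).eventually_nhds] with w ha hs f i
  have hd : ∀ g : O, DifferentiableAt ℂ (fun w' => M.sg p w' g) w :=
    fun g => (ha g).differentiableAt
  let D : O →ₗ[ℂ] ℂ :=
    { toFun := fun g => fderiv ℂ (fun w' => M.sg p w' g) w (Pi.single i 1) - M.sg p w (pd i g)
      map_add' := fun a b => by
        simp only [map_add]
        rw [fderiv_fun_add (hd a) (hd b)]
        simp only [add_apply]; ring
      map_smul' := fun c a => by
        simp only [map_smul, Derivation.map_smul, RingHom.id_apply]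
        rw [fderiv_fun_const_smul (hd a)]
        simp only [smul_apply, smul_eq_mul]; ring }
  have h := ptder_zero M.E (M.sg p w) D (fun a b => by
    change fderiv ℂ (fun w' => M.sg p w' (a * b)) w (Pi.single i 1) - M.sg p w (pd i (a * b)) =
      M.sg p w a * (fderiv ℂ (fun w' => M.sg p w' b) w (Pi.single i 1) - M.sg p w (pd i b)) +
      M.sg p w b * (fderiv ℂ (fun w' => M.sg p w' a) w (Pi.single i 1) - M.sg p w (pd i a))
    simp only [map_mul, Derivation.leibniz, smul_eq_mul, map_add]
    rw [fderiv_fun_mul (hd a) (hd b)]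
    simp only [add_apply, smul_apply, smul_eq_mul]
    ring) (fun j => by
    change fderiv ℂ (fun w' => M.sg p w' (zc n O j)) w (Pi.single i 1) -
      M.sg p w (pd i (zc n O j)) = 0
    have he : (fun w' => M.sg p w' (zc n O j)) =ᶠ[𝓝 w]
        (ContinuousLinearMap.proj j : (Fin n → ℂ) →L[ℂ] ℂ) :=
      hs.mono fun w' hw' => congrFun hw' j
    rw [he.fderiv_eq, ContinuousLinearMap.fderiv, h1, ContinuousLinearMap.proj_apply,
      Pi.single_apply]
    by_cases hij : i = j
    · subst hij; simp
    · simp [hij, Ne.symm hij]) f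
  exact sub_eq_zero.1 h

end Pool.Agent.Lib.MP_9ff3e7_ag.F
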