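import Pool.Agent.Lib.MP_9ff3e7_ag.F.GO
import Pool.Agent.Lib.MP_9ff3e7_ag.F.KAx
import Pool.Agent.Lib.MP_9ff3e7_ag.F.K1

/-! From the conclusion of the core theorem to the weighted `L²` bound in one chart. -/

set_option autoImplicit false

namespace Pool.Agent.Lib.MP_9ff3e7_ag.F

open MeasureTheory MvPolynomial Metric Filter Topology

variable {n : ℕ}

namespace XE

theorem exists_tup {O : Type} [CommRing O] [Algebra ℂ O] (V : Submodule ℂ O)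
    [FiniteDimensional ℂ V] (g : Pnt O → ℝ) (g0 : ∀ y, 0 < g y)
    (hg : ∀ s ∈ V, ∃ C : ℝ, ∀ y : Pnt O, ‖y s‖ ^ 2 ≤ C * g y) :
    ∃ (r : ℕ) (t : Fin r → O) (K : ℝ), 0 < K ∧
      Ideal.span (Set.range t) = Ideal.span (V : Set O) ∧
      ∀ y : Pnt O, (nsq fun i => y (t i)) ≤ K * g y := by
  let B := Module.finBasis ℂ V
  choose C hC using fun i => hg (B i) (B i).2
  have s0 : 0 ≤ ∑ i, |C i| := Finset.sum_nonneg fun i _ => abs_nonneg _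
  refine ⟨_, fun i => (B i : O), ∑ i, |C i| + 1, by linarith, le_antisymm ?_ ?_, fun y => ?_⟩
  · exact Ideal.span_mono (Set.range_subset_iff.2 fun i => (B i).2)
  · refine Ideal.span_le.2 fun s hs => ?_
    have e : s = ∑ i, B.repr ⟨s, hs⟩ i • (B i : O) := by
      have := congrArg V.subtype (B.sum_repr ⟨s, hs⟩)
      rw [map_sum] at this
      exact this.symm
    rw [e]
    refine Ideal.sum_mem _ fun i _ => ?_
    rw [Algebra.smul_def]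
    exact Ideal.mul_mem_left _ _ (Ideal.subset_span ⟨i, rfl⟩)
  · calc (nsq fun i => y (B i : O)) ≤ ∑ i, |C i| * g y :=
          Finset.sum_le_sum fun i _ => (hC i y).trans
            (mul_le_mul_of_nonneg_right (le_abs_self _) (g0 y).le)
      _ ≤ (∑ i, |C i| + 1) * g y := by
          rw [← Finset.sum_mul]
          nlinarith [g0 y]

theorem exists_owt {O : Type} [CommRing O] [Algebra ℂ O] {m : ℕ} (V : Fin m → Submodule ℂ O)
    (fd : ∀ a, FiniteDimensional ℂ (V a)) (c : Fin m → ℝ) (c0 : ∀ a, 0 ≤ c a)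
    (g : Fin m → Pnt O → ℝ) (g0 : ∀ a y, 0 < g a y)
    (hg : ∀ a, ∀ s ∈ V a, ∃ C : ℝ, ∀ y : Pnt O, ‖y s‖ ^ 2 ≤ C * g a y) :
    ∃ (W : OWt O) (K : ℝ), 0 < K ∧
      W.pair = ∑ a, Finsupp.single (Ideal.span (V a : Set O)) (c a) ∧
      ∀ y, ENNReal.ofReal (K * ∏ a, g a y ^ (-c a)) ≤ W.dens y := by
  choose r t K K0 hs hb using fun a => exists_tup (V a) (g a) (g0 a) (hg a)
  refine ⟨⟨m, r, t, c, c0⟩, ∏ a, K a ^ (-c a),
    Finset.prod_pos fun a _ => Real.rpow_pos_of_pos (K0 a) _, ?_, fun y => ?_⟩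
  · simp only [OWt.pair, hs]
  · rw [← Finset.prod_mul_distrib, ENNReal.ofReal_prod_of_nonneg fun a _ =>
      mul_nonneg (Real.rpow_nonneg (K0 a).le _) (Real.rpow_nonneg (g0 a y).le _)]
    refine Finset.prod_le_prod' fun a _ => ?_
    rw [← Real.mul_rpow (K0 a).le (g0 a y).le,
      ← ENNReal.ofReal_rpow_of_pos (mul_pos (K0 a) (g0 a y)), ENNReal.rpow_neg, ENNReal.rpow_neg]
    exact ENNReal.inv_le_inv.2 (ENNReal.rpow_le_rpow (ENNReal.ofReal_le_ofReal (hb a y)) (c0 a))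

end XE

/-- X3-E1 with the statements `G_tup`, `klt_pair`, `klt_pair_mz` at `x` as hypotheses -/
theorem end_bound_of {O : Type} [CommRing O] [IsDomain O] [Algebra ℂ O]
    [Algebra (MvPolynomial (Fin n) ℂ) O] [IsScalarTower ℂ (MvPolynomial (Fin n) ℂ) O]
    (M : Model n O) (Fi : Filt n O) (x : Pnt O)
    (hG : ∀ (W : OWt O) {b e : ℝ}, 0 ≤ b → 0 < e →
      (∃ U ∈ 𝓝 (zz n x), ∫⁻ w in U, W.dens (M.sg x w) < ⊤) →
      (∀ U ∈ 𝓝 (zz n x),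
        ∫⁻ w in U, W.dens (M.sg x w) * ENNReal.ofReal (nsq (w - zz n x)) ^ (-b) = ⊤) →
      ∃ f : O, x f = 1 ∧ ∀ (Y : Set (Fin n → ℂ)) (τ : (Fin n → ℂ) → Pnt O), PPar Y τ →
        ∫⁻ y in Y, ENNReal.ofReal (‖pdet τ y‖ ^ 2 * ‖τ y f‖ ^ 2 *
          (1 + nsq (zz n (τ y))) ^ (-(e + b))) * W.dens (τ y) < ⊤)
    (h1 : ∀ W : OWt O, M.Klt x W.pair ↔ ∃ U ∈ 𝓝 (zz n x), ∫⁻ w in U, W.dens (M.sg x w) < ⊤)
    (h2 : ∀ (W : OWt O) {b : ℝ}, 0 ≤ b →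
      (M.Klt x (W.pair + Finsupp.single (mz n x) b) ↔ ∃ U ∈ 𝓝 (zz n x),
        ∫⁻ w in U, W.dens (M.sg x w) * ENNReal.ofReal (nsq (w - zz n x)) ^ (-b) < ⊤))
    (hc : CoreConcl M Fi x)
    (hgr : ∀ j, ∀ f ∈ Fi.F j, ∃ C : ℝ, ∀ y : Pnt O, ‖y f‖ ^ 2 ≤ C * (1 + nsq (zz n y)) ^ j)
    (u : Oˣ) (μ : ℝ) (hμ : (n : ℝ) + 1 ≤ Fi.kap * μ) :
    ∃ f : O, x f = 1 ∧ ∀ (Y : Set (Fin n → ℂ)) (τ : (Fin n → ℂ) → Pnt O), PPar Y τ →
      ∫⁻ y in Y, ENNReal.ofReal (‖pdet τ y‖ ^ 2 * ‖τ y f‖ ^ 2 *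
        (‖τ y u‖ ^ 2 / (1 + nsq (zz n (τ y)))) ^ μ) < ⊤ := by
  obtain ⟨m, V, dg, c, b, hV, c0, b0, hk, hn, hcost⟩ := hc
  have k0 : (0 : ℝ) < Fi.kap := by exact_mod_cast Fi.kap1
  have n0 : (0 : ℝ) ≤ n := Nat.cast_nonneg n
  have he : 0 < μ - (∑ a, c a * dg a + b) := by
    have : (Fi.kap : ℝ) * (∑ a, c a * dg a + b) < Fi.kap * μ := by linarith
    linarith [lt_of_mul_lt_mul_left this k0.le]
  have μ0 : 0 ≤ μ := by
    have : 0 ≤ ∑ a, c a * dg a := Finset.sum_nonneg fun a _ => mul_nonneg (c0 a) (Nat.cast_nonneg _)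
    linarith
  have z0 : ∀ y : Pnt O, 0 < 1 + nsq (zz n y) := fun y => by
    have : 0 ≤ nsq (zz n y) := Finset.sum_nonneg fun _ _ => sq_nonneg _
    linarith
  have uu : ∀ y : Pnt O, y u * y (u⁻¹ : Oˣ) = 1 := fun y => by rw [← map_mul]; simp
  have u0 : ∀ y : Pnt O, 0 < ‖y u‖ ^ 2 := fun y =>
    pow_pos (norm_pos_iff.2 (left_ne_zero_of_mul_eq_one (uu y))) 2
  have ui : ∀ y : Pnt O, ‖y (u⁻¹ : Oˣ)‖ ^ 2 = (‖y u‖ ^ 2)⁻¹ := fun y => by
    rw [eq_inv_of_mul_eq_one_right (uu y), norm_inv, inv_pow]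
  obtain ⟨W, K, K0, hp, hd⟩ := XE.exists_owt
    (Fin.cons (Submodule.span ℂ {((u⁻¹ : Oˣ) : O)}) V : Fin (m + 1) → Submodule ℂ O)
    (Fin.forall_fin_succ.2 ⟨FiniteDimensional.span_singleton ℂ _, fun a =>
      have := Fi.fd (dg a)
      Submodule.finiteDimensional_of_le (hV a)⟩)
    (Fin.cons μ c) (Fin.forall_fin_succ.2 ⟨μ0, c0⟩)
    (Fin.cons (fun y => (‖y u‖ ^ 2)⁻¹) fun a y => (1 + nsq (zz n y)) ^ dg a)
    (Fin.forall_fin_succ.2 ⟨fun y => inv_pos.2 (u0 y), fun a y => pow_pos (z0 y) _⟩)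
    (Fin.forall_fin_succ.2 ⟨fun s hs => by
      simp only [Fin.cons_zero] at hs ⊢
      obtain ⟨k, rfl⟩ := Submodule.mem_span_singleton.1 hs
      exact ⟨‖k‖ ^ 2, fun y => by rw [map_smul, smul_eq_mul, norm_mul, mul_pow, ui]⟩,
      fun a s hs => hgr _ s (hV a hs)⟩)
  rw [Fin.sum_univ_succ, add_comm] at hp
  simp only [Fin.cons_zero, Fin.cons_succ] at hp
  have D0 : 0 ≤ ∑ a, Finsupp.single (Ideal.span (V a : Set O)) (c a) :=
    Finset.sum_nonneg fun a _ => Finsupp.single_nonneg.2 (c0 a)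
  have kW : M.Klt x W.pair := by
    rw [hp]
    exact M.klt_unit x _ _ μ D0 μ0 ⟨_, Ideal.subset_span (Submodule.mem_span_singleton_self _),
      right_ne_zero_of_mul_eq_one (uu x)⟩ hk
  have nW : ¬ M.Klt x (W.pair + Finsupp.single (mz n x) b) := fun h => by
    refine hn (M.klt_drop x _ _ (add_nonneg D0 (Finsupp.single_nonneg.2 b0)) ?_ h)
    rw [hp]
    exact add_le_add_left (le_add_of_nonneg_right (Finsupp.single_nonneg.2 μ0)) _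
  obtain ⟨f, hf, hi⟩ := hG W b0 he ((h1 W).1 kW) fun U hU => by
    by_contra hne
    exact nW ((h2 W b0).2 ⟨U, hU, lt_top_iff_ne_top.2 hne⟩)
  refine ⟨f, hf, fun Y τ hτ => ?_⟩
  have key : ∀ y, ENNReal.ofReal (‖pdet τ y‖ ^ 2 * ‖τ y f‖ ^ 2 *
      (‖τ y u‖ ^ 2 / (1 + nsq (zz n (τ y)))) ^ μ) ≤ ENNReal.ofReal K⁻¹ *
      (ENNReal.ofReal (‖pdet τ y‖ ^ 2 * ‖τ y f‖ ^ 2 * (1 + nsq (zz n (τ y))) ^
        (-(μ - (∑ a, c a * dg a + b) + b))) * W.dens (τ y)) := fun y => by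
    refine le_trans (le_of_eq ?_) (mul_le_mul_right (mul_le_mul_right (hd (τ y)) _) _)
    have z := z0 (τ y)
    rw [← ENNReal.ofReal_mul (by positivity), ← ENNReal.ofReal_mul (by positivity),
      Fin.prod_univ_succ]
    simp only [Fin.cons_zero, Fin.cons_succ]
    have e1 : ∏ a, ((1 + nsq (zz n (τ y))) ^ dg a) ^ (-c a) =
        (1 + nsq (zz n (τ y))) ^ (-∑ a, c a * dg a) := by
      rw [← Finset.sum_neg_distrib, Real.rpow_sum_of_pos z]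
      refine Finset.prod_congr rfl fun a _ => ?_
      rw [← Real.rpow_natCast, ← Real.rpow_mul z.le]
      ring_nf
    have e2 : (1 + nsq (zz n (τ y))) ^ (-(μ - (∑ a, c a * dg a + b) + b)) *
        (1 + nsq (zz n (τ y))) ^ (-∑ a, c a * dg a) = ((1 + nsq (zz n (τ y))) ^ μ)⁻¹ := by
      rw [← Real.rpow_add z, ← Real.rpow_neg z.le]
      ring_nf
    rw [e1, Real.inv_rpow (u0 _).le, Real.rpow_neg (u0 _).le, inv_inv,
      Real.div_rpow (u0 _).le z.le, div_eq_mul_inv, ← e2]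
    refine congrArg ENNReal.ofReal ?_
    field_simp
  refine lt_of_le_of_lt (lintegral_mono key) ?_
  rw [lintegral_const_mul' _ _ ENNReal.ofReal_ne_top]
  exact ENNReal.mul_lt_top ENNReal.ofReal_lt_top (hi Y τ hτ)

end Pool.Agent.Lib.MP_9ff3e7_ag.F
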