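import Pool.Agent.Lib.MP_9ff3e7_ag.F.XEnd3a
import Pool.Agent.Lib.MP_9ff3e7_ag.F.XEnd2
import Pool.Agent.Lib.MP_9ff3e7_ag.F.XChart

/-! From the integral bound in one chart to a global section of the adjoint bundle. -/

set_option autoImplicit false

namespace Pool.Agent.Lib.MP_9ff3e7_ag.F

open MeasureTheory MvPolynomial Metric Filter Topology

variable {n : ℕ}

theorem end_sec {S : Type} [CommRing S] [IsDomain S] [Algebra ℂ S]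
    {𝒜 : ℕ → Submodule ℂ S} [GradedAlgebra 𝒜]
    (hfg : ∃ s : Finset S, (∀ a ∈ s, a ∈ 𝒜 1) ∧ Algebra.adjoin ℂ (s : Set S) = ⊤)
    (hn : Algebra.trdeg ℂ (Fn 𝒜) = n) (hsm : ∀ p : Pt 𝒜, Algebra.FormallySmooth ℂ (loc p))
    (A : Cartier 𝒜) (k m : ℕ) (hk : 0 < k) (hm : 0 < m) (θ : FractionRing S)
    (hθ : ∀ p : Pt 𝒜, ∀ l ∈ 𝒜 1, p.1 l ≠ 0 → ∃ u : Fn 𝒜, UnitAt p u ∧
      θ = (u * A.eqn p ^ k : Fn 𝒜) * algebraMap S (FractionRing S) l)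
    (x : Pt 𝒜) (c : Chart 𝒜 n) (hz : ∀ i, c.z i ∈ c.fil 1) (u : c.Oˣ)
    (hu : θ = (((u : c.O) : Fn 𝒜) * A.eqn x ^ k : Fn 𝒜) * algebraMap S (FractionRing S) c.l)
    (f : c.O)
    (hb : ∀ (Y : Set (Fin n → ℂ)) (τ : (Fin n → ℂ) → Pnt c.O), PPar Y τ →
      ∫⁻ y in Y, ENNReal.ofReal (‖pdet τ y‖ ^ 2 * ‖τ y f‖ ^ 2 *
        (‖τ y u‖ ^ 2 / (1 + nsq (zz n (τ y)))) ^ ((m : ℝ) / k)) < ⊤) :
    A.Adj n m ((((f : Fn 𝒜) / A.eqn x ^ m : Fn 𝒜)) • c.dz) := by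
  intro q
  obtain ⟨c1, hq, -⟩ := exists_chart hfg hn q (hsm q) (SetLike.one_mem_graded 𝒜) (by simp)
  exact end_sec_at (@end_reg n) A k m hk hm θ hθ x c hz u hu f hb c1 q hq

end Pool.Agent.Lib.MP_9ff3e7_ag.F
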