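import Pool.Agent.Lib.MP_9ff3e7_ag.F.XFil

/-! The local ring at a point as a localisation, and one-jets of linear forms. -/

set_option autoImplicit false

namespace Pool.Agent.Lib.MP_9ff3e7_ag.F

open IsLocalRing

noncomputable section

section abstract

variable {L : Type} [CommRing L] [Algebra ℂ L] (v : L →ₐ[ℂ] ℂ)

theorem sub_ev_mem (x : L) : x - algebraMap ℂ L (v x) ∈ RingHom.ker v := by
  simp [RingHom.mem_ker]

/-- one-jets of a subspace containing `1` are closed under products and inverses -/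
theorem jet_span (W : Submodule ℂ L) (h1 : (1 : L) ∈ W) (x b : L) (hb : v b ≠ 0)
    (h2 : b ∈ Algebra.adjoin ℂ (W : Set L)) (h3 : x * b ∈ Algebra.adjoin ℂ (W : Set L)) :
    ∃ w ∈ W, x - w ∈ RingHom.ker v ^ 2 := by
  have key : ∀ a ∈ Algebra.adjoin ℂ (W : Set L), ∃ w ∈ W, a - w ∈ RingHom.ker v ^ 2 := by
    intro a ha
    induction ha using Algebra.adjoin_induction with
    | mem a ha => exact ⟨a, ha, by simp⟩
    | algebraMap r =>
      exact ⟨r • 1, W.smul_mem r h1, by simp [Algebra.algebraMap_eq_smul_one]⟩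
    | add a c _ _ ha hc =>
      obtain ⟨w, h4, h5⟩ := ha
      obtain ⟨w', h6, h7⟩ := hc
      exact ⟨w + w', add_mem h4 h6, by convert add_mem h5 h7 using 1; ring⟩
    | mul a c _ _ ha hc =>
      obtain ⟨w, h4, h5⟩ := ha
      obtain ⟨w', h6, h7⟩ := hc
      refine ⟨v a • w' + v c • w - (v a * v c) • 1, sub_mem (add_mem (W.smul_mem _ h6)
        (W.smul_mem _ h4)) (W.smul_mem _ h1), ?_⟩
      have h8 := Ideal.mul_mem_mul (sub_ev_mem v a) (sub_ev_mem v c)
      rw [← pow_two] at h8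
      convert add_mem (add_mem h8 (Ideal.mul_mem_left _ (algebraMap ℂ L (v a)) h7))
        (Ideal.mul_mem_left _ (algebraMap ℂ L (v c)) h5) using 1
      simp only [Algebra.smul_def, map_mul]
      ring
  obtain ⟨w, h4, h5⟩ := key _ h2
  obtain ⟨w', h6, h7⟩ := key _ h3
  refine ⟨(v b)⁻¹ • (w' - v x • w + (v x * v b) • 1), W.smul_mem _ (add_mem (sub_mem h6
    (W.smul_mem _ h4)) (W.smul_mem _ h1)), ?_⟩
  have h8 := Ideal.mul_mem_mul (sub_ev_mem v x) (sub_ev_mem v b)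
  rw [← pow_two] at h8
  have h9 : algebraMap ℂ L (v b)⁻¹ * algebraMap ℂ L (v b) = 1 := by
    rw [← map_mul, inv_mul_cancel₀ hb, map_one]
  convert Ideal.mul_mem_left _ (algebraMap ℂ L (v b)⁻¹) (sub_mem (sub_mem h7
    (Ideal.mul_mem_left _ (algebraMap ℂ L (v x)) h5)) h8) using 1
  simp only [Algebra.smul_def, map_mul]
  linear_combination (-x) * h9

/-- the space of one-jets has dimension at most the number of generators plus one -/
theorem jet_finrank {n : ℕ} (t : Fin n → L) (ht : RingHom.ker v = Ideal.span (Set.range t)) :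
    Module.finrank ℂ (L ⧸ RingHom.ker v ^ 2) ≤ n + 1 := by
  have := finrank_le_of_span_eq_top (R := ℂ) (M := L ⧸ RingHom.ker v ^ 2)
    (v := Fin.cons 1 fun i => Ideal.Quotient.mk _ (t i)) ?_
  · simpa using this
  rw [eq_top_iff]
  rintro x -
  obtain ⟨x, rfl⟩ := Ideal.Quotient.mk_surjective x
  obtain ⟨a, ha⟩ := Ideal.mem_span_range_iff_exists_fun.1 (ht ▸ sub_ev_mem v x)
  have e : Ideal.Quotient.mk (RingHom.ker v ^ 2) x =
      v x • 1 + ∑ i, v (a i) • Ideal.Quotient.mk (RingHom.ker v ^ 2) (t i) := by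
    have : x - (algebraMap ℂ L (v x) + ∑ i, algebraMap ℂ L (v (a i)) * t i) ∈
        RingHom.ker v ^ 2 := by
      rw [← sub_sub, ← ha, ← Finset.sum_sub_distrib, pow_two]
      refine Ideal.sum_mem _ fun i _ => ?_
      rw [← sub_mul]
      exact Ideal.mul_mem_mul (sub_ev_mem v _) (ht ▸ Ideal.subset_span ⟨i, rfl⟩)
    rw [Ideal.Quotient.eq.2 this]
    simp [Algebra.smul_def, map_sum]
  rw [e]
  exact add_mem (Submodule.smul_mem _ _ (Submodule.subset_span ⟨0, rfl⟩))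
    (Submodule.sum_mem _ fun i _ => Submodule.smul_mem _ _ (Submodule.subset_span ⟨i.succ, rfl⟩))

theorem jet_repr {m : ℕ} (y : Fin m → L) (hy : Submodule.span ℂ (Set.range fun i =>
    Ideal.Quotient.mk (RingHom.ker v ^ 2) (y i)) = ⊤) (x : L) :
    ∃ a : Fin m → ℂ, x - ∑ i, algebraMap ℂ L (a i) * y i ∈ RingHom.ker v ^ 2 := by
  obtain ⟨a, ha⟩ := (Submodule.mem_span_range_iff_exists_fun ℂ).1
    (hy ▸ Submodule.mem_top (x := Ideal.Quotient.mk (RingHom.ker v ^ 2) x))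
  refine ⟨a, Ideal.Quotient.eq.1 ?_⟩
  rw [← ha]
  simp [Algebra.smul_def, map_sum]

theorem jet_ne {m : ℕ} (y : Fin m → L) (hy : Submodule.span ℂ (Set.range fun i =>
    Ideal.Quotient.mk (RingHom.ker v ^ 2) (y i)) = ⊤) : ∃ i, v (y i) ≠ 0 := by
  by_contra h
  push Not at h
  obtain ⟨a, ha⟩ := jet_repr v y hy 1
  have := Ideal.pow_le_self two_ne_zero ha
  simp [RingHom.mem_ker, h] at this

/-- if the jets of `u, u z₁, …, u zₙ` span, then the `zᵢ - zᵢ(p)` span the cotangent space -/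
theorem jet_gens {n : ℕ} (y : Fin (n + 1) → L) (hy : Submodule.span ℂ (Set.range fun i =>
    Ideal.Quotient.mk (RingHom.ker v ^ 2) (y i)) = ⊤) (hu : IsUnit (y 0)) (z : Fin n → L)
    (hz : ∀ i, y i.succ = y 0 * z i) :
    RingHom.ker v ≤ Ideal.span (Set.range fun i => z i - algebraMap ℂ L (v (z i))) ⊔
      RingHom.ker v ^ 2 := by
  intro x hx
  obtain ⟨a, ha⟩ := jet_repr v y hy (y 0 * x)
  have h1 : x - (algebraMap ℂ L (a 0) + ∑ i : Fin n, algebraMap ℂ L (a i.succ) * z i) ∈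
      RingHom.ker v ^ 2 := by
    rw [← Ideal.unit_mul_mem_iff_mem _ hu]
    convert ha using 1
    simp only [Fin.sum_univ_succ, hz, mul_sub, mul_add, Finset.mul_sum]
    congr 2
    · ring
    · exact Finset.sum_congr rfl fun i _ => by ring
  have h2 : a 0 + ∑ i : Fin n, a i.succ * v (z i) = 0 := by
    have := Ideal.pow_le_self two_ne_zero h1
    rw [RingHom.mem_ker] at this hx
    simpa [hx, neg_add_eq_zero, eq_neg_iff_add_eq_zero, add_comm] using this
  have h3 : algebraMap ℂ L (a 0) + ∑ i : Fin n, algebraMap ℂ L (a i.succ) * z i =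
      ∑ i : Fin n, algebraMap ℂ L (a i.succ) * (z i - algebraMap ℂ L (v (z i))) := by
    have := congrArg (algebraMap ℂ L) h2
    simp only [map_add, map_sum, map_mul, map_zero] at this
    simp only [mul_sub, Finset.sum_sub_distrib]
    linear_combination this
  rw [h3] at h1
  have h4 : ∑ i : Fin n, algebraMap ℂ L (a i.succ) * (z i - algebraMap ℂ L (v (z i))) ∈
      Ideal.span (Set.range fun i => z i - algebraMap ℂ L (v (z i))) :=
    Ideal.sum_mem _ fun i _ => Ideal.mul_mem_left _ _ (Ideal.subset_span ⟨i, rfl⟩)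
  simpa using add_mem (Ideal.mem_sup_left (T := RingHom.ker v ^ 2) h4) (Ideal.mem_sup_right h1)

end abstract

variable {S : Type} [CommRing S] [IsDomain S] [Algebra ℂ S] {𝒜 : ℕ → Submodule ℂ S}
  [GradedAlgebra 𝒜]

theorem isUnit_loc {q : Pt 𝒜} {x : loc q} (h : ev q x ≠ 0) : IsUnit x :=
  IsUnit.of_mul_eq_one ⟨_, (inv_mem_loc x h).2⟩ (Subtype.ext (mul_inv_cancel₀ (inv_mem_loc x h).1))

instance loc_local (q : Pt 𝒜) : IsLocalRing (loc q) :=
  IsLocalRing.of_isUnit_or_isUnit_one_sub_self fun x => by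
    by_cases h : ev q x = 0
    · exact Or.inr (isUnit_loc (by simp [h]))
    · exact Or.inl (isUnit_loc h)

theorem max_loc (q : Pt 𝒜) : maximalIdeal (loc q) = RingHom.ker (ev q) := by
  ext x
  rw [mem_maximalIdeal, mem_nonunits_iff, RingHom.mem_ker]
  exact ⟨fun h => by_contra fun e => h (isUnit_loc e), fun h e => (e.map (ev q)).ne_zero h⟩

/-- dehomogenisation into the local ring -/
def dehL {l : 𝒜 1} {q : Pt 𝒜} (hq : q.1 l ≠ 0) : S →ₐ[ℂ] loc q :=
  (deh l).codRestrict _ (deh_mem_loc hq)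

theorem ev_dehL {l : 𝒜 1} {q : Pt 𝒜} (hq : q.1 l ≠ 0) {j : ℕ} {a : S} (ha : a ∈ 𝒜 j) :
    ev q (dehL hq a) = q.1 a / q.1 l ^ j := ev_deh hq ha

theorem loc_frac {l : 𝒜 1} {q : Pt 𝒜} (hq : q.1 l ≠ 0) (x : loc q) :
    ∃ a b : S, ev q (dehL hq b) ≠ 0 ∧ x * dehL hq b = dehL hq a := by
  obtain ⟨j, a, ha, b, hb, h1, h2⟩ := mem_loc.1 x.2
  have b0 : b ≠ 0 := fun e => h1 (by simp [e])
  refine ⟨a, b, ?_, Subtype.ext (Subtype.ext ?_)⟩
  · rw [ev_dehL hq hb]
    exact div_ne_zero h1 (pow_ne_zero _ hq)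
  · change (x.1 : FractionRing S) * (deh l b : FractionRing S) = (deh l a : FractionRing S)
    rw [h2, deh_coe _ ha, deh_coe _ hb, div_mul_div_cancel₀ (alg_ne b0)]

theorem jet_surj (h : Gen1 𝒜) {l : 𝒜 1} {q : Pt 𝒜} (hq : q.1 l ≠ 0) (x : loc q) :
    ∃ a ∈ 𝒜 1, x - dehL hq a ∈ RingHom.ker (ev q) ^ 2 := by
  have l0 : (l : S) ≠ 0 := fun e => hq (by simp [e])
  obtain ⟨a, b, h1, h2⟩ := loc_frac hq x
  have key : ∀ a, dehL hq a ∈ Algebra.adjoin ℂ
      (((𝒜 1).map (dehL hq).toLinearMap : Submodule ℂ (loc q)) : Set (loc q)) := fun a => by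
    obtain ⟨s, hs, e⟩ := h
    have ha : dehL hq a ∈ (Algebra.adjoin ℂ (s : Set S)).map (dehL hq) := ⟨a, e ▸ trivial, rfl⟩
    rw [AlgHom.map_adjoin] at ha
    refine Algebra.adjoin_mono ?_ ha
    rintro _ ⟨c, hc, rfl⟩
    exact ⟨c, hs c hc, rfl⟩
  obtain ⟨_, ⟨w, hw, rfl⟩, h3⟩ := jet_span (ev q) ((𝒜 1).map (dehL hq).toLinearMap)
    ⟨l, l.2, Subtype.ext (deh_self l0)⟩ x _ h1 (key b) (h2 ▸ key a)
  exact ⟨w, hw, h3⟩

theorem deh_change {l l' : 𝒜 1} (l0 : (l' : S) ≠ 0) {a : S} (ha : a ∈ 𝒜 1) :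
    deh l a = deh l l' * deh l' a := by
  apply Subtype.ext
  rw [IntermediateField.coe_mul, deh_coe _ ha, deh_coe _ ha, deh_coe _ l'.2]
  have := alg_ne l0
  field_simp

omit [IsDomain S] in
theorem aeval_mem_gr {ι : Type} (y : ι → 𝒜 1) {d : ℕ} {f : MvPolynomial ι ℂ}
    (hf : f.IsHomogeneous d) : MvPolynomial.aeval (fun i => (y i : S)) f ∈ 𝒜 d := by
  rw [f.as_sum, map_sum]
  refine Submodule.sum_mem _ fun s hs => ?_
  rw [MvPolynomial.aeval_monomial, ← Algebra.smul_def]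
  refine Submodule.smul_mem _ _ ?_
  have := SetLike.prod_pow_mem_graded 𝒜 (fun _ : ι => 1) (fun i => (y i : S)) (F := s.support) s
    fun i _ => (y i).2
  rw [← hf (MvPolynomial.mem_support_iff.1 hs)]
  simpa [Finsupp.weight_apply, Finsupp.sum, Finsupp.prod] using this

end

end Pool.Agent.Lib.MP_9ff3e7_ag.F
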