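import Pool.Agent.Lib.MP_9ff3e7_ag.F.XDefs

/-! Points and local rings of an affine piece of `Proj S`. -/

set_option autoImplicit false

namespace Pool.Agent.Lib.MP_9ff3e7_ag.F

noncomputable section

variable {S : Type} [CommRing S] [IsDomain S] [Algebra ℂ S] {𝒜 : ℕ → Submodule ℂ S}
  [GradedAlgebra 𝒜]

/-- the standing hypothesis of the main theorem -/
def Gen1 (𝒜 : ℕ → Submodule ℂ S) : Prop :=
  ∃ s : Finset S, (∀ a ∈ s, a ∈ 𝒜 1) ∧ Algebra.adjoin ℂ (s : Set S) = ⊤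

omit [IsDomain S] in
theorem pow_mem1 (l : 𝒜 1) (j : ℕ) : (l : S) ^ j ∈ 𝒜 j := by
  simpa using SetLike.pow_mem_graded j l.2

theorem deh_self {l : 𝒜 1} (l0 : (l : S) ≠ 0) : deh l (l : S) = 1 := by
  apply Subtype.ext
  rw [deh_coe l l.2]
  simp [alg_ne l0]

theorem deh_ne {l : 𝒜 1} (l0 : (l : S) ≠ 0) {j : ℕ} {a : S} (ha : a ∈ 𝒜 j) (a0 : a ≠ 0) :
    deh l a ≠ 0 := by
  intro h
  have := congrArg Subtype.val h
  rw [deh_coe l ha] at this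
  exact div_ne_zero (alg_ne a0) (pow_ne_zero _ (alg_ne l0)) this

/-- every dehomogenised element comes from a form, of any large degree -/
theorem exists_form {l : 𝒜 1} (l0 : (l : S) ≠ 0) (a : S) :
    ∃ e, ∀ j, e ≤ j → ∃ b ∈ 𝒜 j, deh l b = deh l a := by
  induction a using DirectSum.Decomposition.inductionOn 𝒜 with
  | zero => exact ⟨0, fun j _ => ⟨0, zero_mem _, rfl⟩⟩
  | @homogeneous i a =>
    refine ⟨i, fun j hj => ⟨a * l ^ (j - i), ?_, by simp [deh_self l0]⟩⟩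
    have := SetLike.mul_mem_graded a.2 (pow_mem1 l (j - i))
    rwa [Nat.add_sub_cancel' hj] at this
  | add a b ha hb =>
    obtain ⟨e, he⟩ := ha
    obtain ⟨e', he'⟩ := hb
    refine ⟨max e e', fun j hj => ?_⟩
    obtain ⟨u, hu, h1⟩ := he j (le_of_max_le_left hj)
    obtain ⟨v, hv, h2⟩ := he' j (le_of_max_le_right hj)
    exact ⟨u + v, add_mem hu hv, by rw [map_add, map_add, h1, h2]⟩

theorem deh_mem_loc {l : 𝒜 1} {q : Pt 𝒜} (hq : q.1 l ≠ 0) (a : S) : deh l a ∈ loc q := by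
  have l0 : (l : S) ≠ 0 := fun e => hq (by simp [e])
  obtain ⟨e, he⟩ := exists_form l0 a
  obtain ⟨b, hb, h⟩ := he e le_rfl
  rw [← h]
  exact mem_loc.2 ⟨e, b, hb, l ^ e, pow_mem1 l e, by simp [hq], by rw [deh_coe l hb, map_pow]⟩

theorem ev_deh {l : 𝒜 1} {q : Pt 𝒜} (hq : q.1 l ≠ 0) {j : ℕ} {a : S} (ha : a ∈ 𝒜 j) :
    ev q ⟨deh l a, deh_mem_loc hq a⟩ = q.1 a / q.1 l ^ j := by
  rw [ev_div q _ (a := a) (b := l ^ j) (by simp [hq]) (by rw [deh_coe l ha, map_pow]), map_pow]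

theorem inv_mem_loc {q : Pt 𝒜} (x : loc q) (h : ev q x ≠ 0) :
    (x : Fn 𝒜) ≠ 0 ∧ (x : Fn 𝒜)⁻¹ ∈ loc q := by
  obtain ⟨j, a, ha, b, hb, h1, h2⟩ := mem_loc.1 x.2
  rw [ev_div q x h1 h2] at h
  refine ⟨fun e => h ?_, mem_loc.2 ⟨j, b, hb, a, ha, fun e => h (by simp [e]), ?_⟩⟩
  · rw [← ev_div q x h1 h2, show x = 0 from Subtype.ext e, map_zero]
  · rw [IntermediateField.coe_inv, h2, inv_div]

theorem unitAt_iff {q : Pt 𝒜} {x : loc q} : UnitAt q (x : Fn 𝒜) ↔ ev q x ≠ 0 := by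
  refine ⟨fun ⟨h0, _, h2⟩ e => ?_, fun h => ⟨(inv_mem_loc x h).1, x.2, (inv_mem_loc x h).2⟩⟩
  have : x * ⟨_, h2⟩ = 1 := Subtype.ext (mul_inv_cancel₀ h0)
  have := congrArg (ev q) this
  rw [map_mul, e, map_one] at this
  simp at this

theorem frac_deh {l : 𝒜 1} (l0 : (l : S) ≠ 0) (x : Fn 𝒜) :
    ∃ a b : S, deh l b ≠ 0 ∧ x = deh l a / deh l b := by
  obtain ⟨x, hx⟩ := x
  induction hx using IntermediateField.adjoin_induction with
  | mem x hx =>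
    obtain ⟨j, a, ha, b, hb, rfl⟩ := hx
    by_cases b0 : b = 0
    · exact ⟨0, 1, by simp, Subtype.ext (by simp [b0])⟩
    · refine ⟨a, b, deh_ne l0 hb b0, Subtype.ext ?_⟩
      rw [IntermediateField.coe_div, deh_coe l ha, deh_coe l hb,
        div_div_div_cancel_right₀ (pow_ne_zero _ (alg_ne l0))]
  | algebraMap r =>
    exact ⟨algebraMap ℂ S r, 1, by simp, by rw [AlgHom.commutes, map_one, div_one]; rfl⟩
  | add x y hx hy h1 h2 =>
    obtain ⟨a, b, b0, e1⟩ := h1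
    obtain ⟨c, d, d0, e2⟩ := h2
    refine ⟨a * d + b * c, b * d, by simp [b0, d0], ?_⟩
    have : (⟨x + y, add_mem hx hy⟩ : Fn 𝒜) = ⟨x, hx⟩ + ⟨y, hy⟩ := rfl
    rw [this, e1, e2, div_add_div _ _ b0 d0]
    simp
  | inv x hx h1 =>
    obtain ⟨a, b, b0, e1⟩ := h1
    have : (⟨x⁻¹, inv_mem hx⟩ : Fn 𝒜) = (⟨x, hx⟩ : Fn 𝒜)⁻¹ := rfl
    by_cases a0 : deh l a = 0
    · exact ⟨0, 1, by simp, by rw [this, e1, a0]; simp⟩
    · exact ⟨b, a, a0, by rw [this, e1, inv_div]⟩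
  | mul x y hx hy h1 h2 =>
    obtain ⟨a, b, b0, e1⟩ := h1
    obtain ⟨c, d, d0, e2⟩ := h2
    refine ⟨a * c, b * d, by simp [b0, d0], ?_⟩
    have : (⟨x * y, mul_mem hx hy⟩ : Fn 𝒜) = ⟨x, hx⟩ * ⟨y, hy⟩ := rfl
    rw [this, e1, e2, div_mul_div_comm]
    simp

theorem mem_aff {l : 𝒜 1} {g : S} (g0 : deh l g ≠ 0) {x : Fn 𝒜} :
    x ∈ aff l g ↔ ∃ a : S, ∃ i : ℕ, x * deh l g ^ i = deh l a := by
  constructor
  · intro h
    induction h using Algebra.adjoin_induction with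
    | mem x hx =>
      rcases hx with rfl | ⟨a, rfl⟩
      · exact ⟨1, 1, by simp [g0]⟩
      · exact ⟨a, 0, by simp⟩
    | algebraMap r => exact ⟨algebraMap ℂ S r, 0, by simp⟩
    | add x y _ _ hx hy =>
      obtain ⟨a, i, h1⟩ := hx
      obtain ⟨b, j, h2⟩ := hy
      refine ⟨a * g ^ j + b * g ^ i, i + j, ?_⟩
      simp only [map_add, map_mul, map_pow, ← h1, ← h2]
      ring
    | mul x y _ _ hx hy =>
      obtain ⟨a, i, h1⟩ := hx
      obtain ⟨b, j, h2⟩ := hy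
      refine ⟨a * b, i + j, ?_⟩
      simp only [map_mul, ← h1, ← h2]
      ring
  · rintro ⟨a, i, h⟩
    have : x = deh l a * (deh l g)⁻¹ ^ i := by
      rw [← h, inv_pow, mul_inv_cancel_right₀ (pow_ne_zero _ g0)]
    have h2 : (deh l g)⁻¹ ∈ aff l g := Algebra.subset_adjoin (Or.inl rfl)
    rw [this]
    exact mul_mem (deh_mem_aff l g a) (pow_mem h2 i)

namespace Chart

variable {n : ℕ} (c : Chart 𝒜 n)

theorem deh_g_ne : deh c.l c.g ≠ 0 := deh_ne c.l0 c.hg c.g0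

@[simp] theorem dh_coe (a : S) : (c.dh a : Fn 𝒜) = deh c.l a := rfl

theorem mem_O {x : Fn 𝒜} : x ∈ c.O ↔ ∃ a : S, ∃ i : ℕ, x * deh c.l c.g ^ i = deh c.l a :=
  mem_aff c.deh_g_ne

theorem le_loc {q : Pt 𝒜} (hq : c.In q) : c.O ≤ loc q := by
  refine Algebra.adjoin_le ?_
  rintro x (rfl | ⟨a, rfl⟩)
  · refine (inv_mem_loc ⟨_, deh_mem_loc hq.1 c.g⟩ ?_).2
    rw [ev_deh hq.1 c.hg]
    exact div_ne_zero hq.2 (pow_ne_zero _ hq.1)
  · exact deh_mem_loc hq.1 a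

/-- the point of the chart ring given by a point of `X` -/
def pt {q : Pt 𝒜} (hq : c.In q) : c.O →ₐ[ℂ] ℂ := (ev q).comp (Subalgebra.inclusion (c.le_loc hq))

theorem pt_eq {q : Pt 𝒜} (hq : c.In q) (x : c.O) : c.pt hq x = ev q ⟨x, c.le_loc hq x.2⟩ := rfl

theorem pt_dh {q : Pt 𝒜} (hq : c.In q) {j : ℕ} {a : S} (ha : a ∈ 𝒜 j) :
    c.pt hq (c.dh a) = q.1 a / q.1 c.l ^ j := ev_deh hq.1 ha

theorem dh_l : c.dh c.l = 1 := Subtype.ext (deh_self c.l0)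

theorem isUnit_g : IsUnit (c.dh c.g) :=
  IsUnit.of_mul_eq_one ⟨(deh c.l c.g)⁻¹, Algebra.subset_adjoin (Or.inl rfl)⟩
    (Subtype.ext (mul_inv_cancel₀ c.deh_g_ne))

theorem exists_dh (x : c.O) : ∃ a : S, ∃ i : ℕ, x * c.dh c.g ^ i = c.dh a := by
  obtain ⟨a, i, h⟩ := c.mem_O.1 x.2
  exact ⟨a, i, Subtype.ext (by simpa using h)⟩

/-- two algebra maps on the chart ring that agree on forms agree -/
theorem hom_ext {y y' : c.O →ₐ[ℂ] ℂ} (h : ∀ j, ∀ a ∈ 𝒜 j, y (c.dh a) = y' (c.dh a)) : y = y' := by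
  have h' : ∀ a, y (c.dh a) = y' (c.dh a) := fun a => by
    obtain ⟨e, he⟩ := exists_form c.l0 a
    obtain ⟨b, hb, h1⟩ := he e le_rfl
    rw [← show c.dh b = c.dh a from Subtype.ext h1, h e b hb]
  ext x
  obtain ⟨a, i, e⟩ := c.exists_dh x
  have e1 := congrArg y e
  have e2 := congrArg y' e
  rw [map_mul, map_pow] at e1 e2
  rw [h', h', ← e2] at e1
  exact mul_right_cancel₀ (pow_ne_zero _ (c.isUnit_g.map y').ne_zero) e1

/-- the point of `X` given by a point of the chart ring -/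
def lift (y : c.O →ₐ[ℂ] ℂ) : Pt 𝒜 := ⟨y.comp c.dh, c.l, c.l.2, by simp [c.dh_l]⟩

theorem lift_apply (y : c.O →ₐ[ℂ] ℂ) (a : S) : (c.lift y).1 a = y (c.dh a) := rfl

theorem lift_in (y : c.O →ₐ[ℂ] ℂ) : c.In (c.lift y) :=
  ⟨by simp [lift_apply, c.dh_l], (c.isUnit_g.map y).ne_zero⟩

theorem pt_lift (y : c.O →ₐ[ℂ] ℂ) : c.pt (c.lift_in y) = y :=
  c.hom_ext fun j a ha => by simp [c.pt_dh _ ha, lift_apply, c.dh_l]

theorem mem_loc_iff {q : Pt 𝒜} (hq : c.In q) {x : Fn 𝒜} :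
    x ∈ loc q ↔ ∃ a b : c.O, c.pt hq b ≠ 0 ∧ x * b = a := by
  constructor
  · intro h
    obtain ⟨j, a, ha, b, hb, h1, h2⟩ := mem_loc.1 h
    have b0 : b ≠ 0 := fun e => h1 (by simp [e])
    refine ⟨c.dh a, c.dh b, ?_, Subtype.ext ?_⟩
    · rw [c.pt_dh hq hb]
      exact div_ne_zero h1 (pow_ne_zero _ hq.1)
    · rw [IntermediateField.coe_mul, h2, dh_coe, dh_coe, deh_coe _ ha, deh_coe _ hb,
        div_mul_div_cancel₀ (alg_ne b0)]
  · rintro ⟨a, b, h1, h2⟩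
    obtain ⟨h3, h4⟩ := inv_mem_loc ⟨(b : Fn 𝒜), c.le_loc hq b.2⟩ h1
    have : x = a * (b : Fn 𝒜)⁻¹ := by rw [← h2, mul_inv_cancel_right₀ h3]
    rw [this]
    exact mul_mem (c.le_loc hq a.2) h4

theorem frac (x : Fn 𝒜) : ∃ a ∈ c.O, ∃ b ∈ c.O, b ≠ 0 ∧ x = a / b := by
  obtain ⟨a, b, h1, h2⟩ := frac_deh c.l0 x
  exact ⟨_, (c.dh a).2, _, (c.dh b).2, h1, h2⟩

instance : Algebra.IsStandardEtale (MvPolynomial (Fin n) ℂ) c.O := ⟨⟨c.pres⟩⟩

instance : Algebra.FiniteType ℂ c.O :=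
  Algebra.FiniteType.trans (S := MvPolynomial (Fin n) ℂ) inferInstance inferInstance

theorem exists_pt (I : Ideal c.O) (hI : I ≠ ⊤) : ∃ y : c.O →ₐ[ℂ] ℂ, ∀ a ∈ I, y a = 0 := by
  obtain ⟨m, hm, hle⟩ := Ideal.exists_le_maximal I hI
  let := Ideal.Quotient.field m
  have : Module.Finite ℂ (c.O ⧸ m) := finite_of_finite_type_of_isJacobsonRing ℂ _
  have hb := IsAlgClosed.algebraMap_bijective_of_isIntegral (k := ℂ) (K := c.O ⧸ m)
  refine ⟨(AlgEquiv.ofBijective (Algebra.ofId ℂ _) hb).symm.toAlgHom.comp (Ideal.Quotient.mkₐ ℂ m),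
    fun a ha => ?_⟩
  simp [Ideal.Quotient.eq_zero_iff_mem.2 (hle ha)]

/-- a rational function regular at all points of the chart lies in the chart ring -/
theorem mem_of_loc {x : Fn 𝒜} (h : ∀ q, c.In q → x ∈ loc q) : x ∈ c.O := by
  let I : Ideal c.O :=
    { carrier := {b | x * b ∈ c.O}
      add_mem' := fun {a b} ha hb => by simpa [mul_add] using add_mem ha hb
      zero_mem' := by simp
      smul_mem' := fun a b hb => by
        have := mul_mem a.2 hb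
        simpa [mul_left_comm] using this }
  by_cases hI : I = ⊤
  · have : (1 : c.O) ∈ I := hI ▸ Submodule.mem_top
    simpa [I] using this
  · obtain ⟨y, hy⟩ := c.exists_pt I hI
    obtain ⟨a, b, h1, h2⟩ := (c.mem_loc_iff (c.lift_in y)).1 (h _ (c.lift_in y))
    rw [pt_lift] at h1
    exact (h1 (hy b (by change x * b ∈ c.O; rw [h2]; exact a.2))).elim

theorem unit_of_loc {x : Fn 𝒜} (h : ∀ q, c.In q → UnitAt q x) :
    ∃ u : c.Oˣ, ((u : c.O) : Fn 𝒜) = x := by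
  obtain ⟨y, -⟩ := c.exists_pt ⊥ bot_ne_top
  have x0 := (h _ (c.lift_in y)).1
  exact ⟨⟨⟨x, c.mem_of_loc fun q hq => (h q hq).2.1⟩, ⟨x⁻¹, c.mem_of_loc fun q hq => (h q hq).2.2⟩,
    Subtype.ext (mul_inv_cancel₀ x0), Subtype.ext (inv_mul_cancel₀ x0)⟩, rfl⟩

end Chart

end

end Pool.Agent.Lib.MP_9ff3e7_ag.F
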