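import Pool.Agent.Lib.MP_9ff3e7_ag.F.XDer
import Pool.Agent.Lib.MP_9ff3e7_ag.F.K0
import Pool.Agent.Lib.MP_9ff3e7_ag.F.ThetaAlg

/-! A sheet of one chart seen in another chart. -/

set_option autoImplicit false

namespace Pool.Agent.Lib.MP_9ff3e7_ag.F

open MeasureTheory MvPolynomial Metric Filter Topology

namespace XTr

variable {K : Type} [Field K] [Algebra ℂ K]

lemma exists_ext (O O' : Subalgebra ℂ K) (y : Pnt O')
    (hO : ∀ f : O, ∃ a b : O', y b ≠ 0 ∧ (f : K) * b = a) :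
    ∃ t : Pnt O, ∀ (f : O) (a b : O'), (f : K) * b = a → t f * y b = y a := by
  choose a b hb hab using hO
  have key : ∀ (f : O) (a' b' : O'), (f : K) * b' = a' → y (a f) / y (b f) * y b' = y a' := by
    intro f a' b' h
    have h1 : a f * b' = a' * b f := Subtype.ext (by
      push_cast
      rw [← hab, ← h]
      ring)
    have h2 := congrArg y h1
    rw [map_mul, map_mul] at h2
    rw [div_mul_eq_mul_div, div_eq_iff (hb f)]
    exact h2
  have hc : ∀ c : ℂ, y (a (algebraMap ℂ O c)) / y (b (algebraMap ℂ O c)) = c := fun c => by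
    simpa using key (algebraMap ℂ O c) (algebraMap ℂ O' c) 1 (by simp)
  refine ⟨⟨⟨⟨⟨fun f => y (a f) / y (b f), ?_⟩, fun f g => ?_⟩, ?_, fun f g => ?_⟩, hc⟩, key⟩
  · simpa using hc 1
  · have h := key (f * g) (a f * a g) (b f * b g) (by
      push_cast
      rw [← hab, ← hab]
      ring)
    rw [map_mul, map_mul] at h
    have := hb f
    have := hb g
    rw [div_mul_div_comm, eq_div_iff (mul_ne_zero (hb f) (hb g)), h]
  · simpa using hc 0
  · have h := key (f + g) (a f * b g + b f * a g) (b f * b g) (by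
      push_cast
      rw [← hab, ← hab]
      ring)
    rw [map_add, map_mul, map_mul, map_mul] at h
    change y (a (f + g)) / y (b (f + g)) = y (a f) / y (b f) + y (a g) / y (b g)
    rw [div_add_div _ _ (hb f) (hb g), eq_div_iff (mul_ne_zero (hb f) (hb g)), h]

/-- the local ring of a point -/
def locK (O' : Subalgebra ℂ K) (y : Pnt O') : Subalgebra ℂ K where
  carrier := {x | ∃ a b : O', y b ≠ 0 ∧ x * b = a}
  mul_mem' := by
    rintro x x' ⟨a, b, hb, h⟩ ⟨a', b', hb', h'⟩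
    refine ⟨a * a', b * b', by simpa using ⟨hb, hb'⟩, ?_⟩
    push_cast
    rw [← h, ← h']
    ring
  add_mem' := by
    rintro x x' ⟨a, b, hb, h⟩ ⟨a', b', hb', h'⟩
    refine ⟨a * b' + b * a', b * b', by simpa using ⟨hb, hb'⟩, ?_⟩
    push_cast
    rw [← h, ← h']
    ring
  algebraMap_mem' c := ⟨algebraMap ℂ O' c, 1, by simp, by simp⟩

lemma frac {O : Subalgebra ℂ K} (hK : ∀ x : K, ∃ a ∈ O, ∃ b ∈ O, x = a / b) (x : K) :
    ∃ a b : O, b ≠ 0 ∧ x * b = a := by
  obtain ⟨a, ha, b, hb, rfl⟩ := hK x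
  by_cases h : b = 0
  · exact ⟨0, 1, one_ne_zero, by simp [h]⟩
  · exact ⟨⟨a, ha⟩, ⟨b, hb⟩, fun e => h (congrArg Subtype.val e), by simp [h]⟩

lemma exists_den (O O' : Subalgebra ℂ K) [Algebra.FiniteType ℂ O]
    (hK' : ∀ x : K, ∃ a ∈ O', ∃ b ∈ O', x = a / b) :
    ∃ h : O', h ≠ 0 ∧ ∀ f : O, ∃ (k : ℕ) (a : O'), (f : K) * (h ^ k : O') = a := by
  classical
  obtain ⟨s, hs⟩ := Algebra.FiniteType.out (R := ℂ) (A := O)
  choose a b hb hab using frac hK'
  refine ⟨∏ f ∈ s, b f, Finset.prod_ne_zero_iff.2 fun f _ => hb f, fun f => ?_⟩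
  have hf : f ∈ Algebra.adjoin ℂ (s : Set O) := hs ▸ Algebra.mem_top
  induction hf using Algebra.adjoin_induction with
  | mem f hf =>
    refine ⟨1, a f * ∏ g ∈ s.erase f, b g, ?_⟩
    rw [pow_one, ← Finset.mul_prod_erase s _ hf]
    push_cast
    rw [← hab, mul_assoc]
  | algebraMap c => exact ⟨0, algebraMap ℂ O' c, by simp⟩
  | add f g _ _ hf hg =>
    obtain ⟨k, u, hu⟩ := hf
    obtain ⟨l, v, hv⟩ := hg
    set h := ∏ f ∈ s, b f
    refine ⟨k + l, u * h ^ l + h ^ k * v, ?_⟩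
    push_cast at hu hv ⊢
    rw [← hu, ← hv]
    ring
  | mul f g _ _ hf hg =>
    obtain ⟨k, u, hu⟩ := hf
    obtain ⟨l, v, hv⟩ := hg
    set h := ∏ f ∈ s, b f
    refine ⟨k + l, u * v, ?_⟩
    push_cast at hu hv ⊢
    rw [← hu, ← hv]
    ring

/-- the restriction of a derivation to an invariant subalgebra -/
def res (O' : Subalgebra ℂ K) (D : Derivation ℂ K K) (h : ∀ f ∈ O', D f ∈ O') :
    Derivation ℂ O' O' where
  toFun f := ⟨D f, h f f.2⟩
  map_add' f g := Subtype.ext (by simp)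
  map_smul' c f := Subtype.ext (by simp)
  map_one_eq_zero' := Subtype.ext (by simp)
  leibniz' f g := Subtype.ext (by simp)

end XTr

open XTr in
theorem transfer {n : ℕ} {K : Type} [Field K] [Algebra ℂ K] (O O' : Subalgebra ℂ K)
    [Algebra (MvPolynomial (Fin n) ℂ) O] [IsScalarTower ℂ (MvPolynomial (Fin n) ℂ) O]
    [Algebra (MvPolynomial (Fin n) ℂ) O'] [IsScalarTower ℂ (MvPolynomial (Fin n) ℂ) O']
    (M : Model n O) (M' : Model n O')
    (hK : ∀ x : K, ∃ a ∈ O, ∃ b ∈ O, x = a / b) (hK' : ∀ x : K, ∃ a ∈ O', ∃ b ∈ O', x = a / b)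
    (pd : Fin n → Derivation ℂ K K) (hpd : ∀ i, ∀ f ∈ O', pd i f ∈ O')
    (h1 : ∀ i j, pd i (zc n O' j : O') = if i = j then 1 else 0) (p' : Pnt O') :
    ∃ (h : O') (δ : ℝ) (τ : (Fin n → ℂ) → Pnt O), h ≠ 0 ∧ 0 < δ ∧
      PPar (ball (zz n p') δ ∩ {w | M'.sg p' w h ≠ 0}) τ ∧
      ∀ w ∈ ball (zz n p') δ ∩ {w | M'.sg p' w h ≠ 0},
        (∀ (f : O) (a b : O'), (f : K) * b = a → τ w f * M'.sg p' w b = M'.sg p' w a) ∧
        ∀ a b : O', (Matrix.of fun i j => pd i (zc n O j : O)).det * b = a →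
          pdet τ w * M'.sg p' w b = M'.sg p' w a := by
  classical
  have := M.ft
  obtain ⟨h0, hh0, hden⟩ := exists_den O O' hK'
  choose k a hka using hden
  choose α β hβ hαβ using fun i => frac hK (zc n O' i : O')
  have hne : Nonempty (Pnt O) := by
    obtain ⟨m, hm⟩ := Ideal.exists_maximal O
    obtain ⟨y, -⟩ := exists_pt_of_isMaximal m
    exact ⟨y⟩
  have hτ : ∀ w, ∃ t : Pnt O, M'.sg p' w h0 ≠ 0 → ∀ (f : O) (a b : O'), (f : K) * b = a →
      t f * M'.sg p' w b = M'.sg p' w a := by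
    intro w
    by_cases hw : M'.sg p' w h0 = 0
    · exact ⟨hne.some, fun h => absurd hw h⟩
    · obtain ⟨t, ht⟩ := exists_ext O O' (M'.sg p' w) fun f =>
        ⟨a f, h0 ^ k f, by rw [map_pow]; exact pow_ne_zero _ hw, hka f⟩
      exact ⟨t, fun _ => ht⟩
  choose τ hτ using hτ
  have hsd := sheet_deriv M' p' (fun i => res O' (pd i) (hpd i)) fun i j => Subtype.ext (by
    change pd i _ = _
    rw [h1]
    split_ifs <;> rfl)
  obtain ⟨δ, hδ, hb⟩ := Metric.eventually_nhds_iff_ball.1 ((M'.sec p').and ((M'.an p').and hsd))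
  have ha0 : ∀ i, a (β i) ≠ 0 := fun i e => by
    have h2 := hka (β i)
    rw [e] at h2
    rcases mul_eq_zero.1 h2 with h3 | h3
    · exact hβ i (Subtype.ext h3)
    · exact pow_ne_zero _ hh0 (Subtype.ext h3)
  set h := h0 * ∏ i, a (β i) with hh
  have hY : ∀ w, M'.sg p' w h ≠ 0 → M'.sg p' w h0 ≠ 0 ∧ ∀ i, M'.sg p' w (a (β i)) ≠ 0 := by
    intro w hw
    rw [hh, map_mul, map_prod] at hw
    exact ⟨left_ne_zero_of_mul hw, fun i =>
      Finset.prod_ne_zero_iff.1 (right_ne_zero_of_mul hw) i (Finset.mem_univ i)⟩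
  have hop : IsOpen (ball (zz n p') δ ∩ {w | M'.sg p' w h ≠ 0}) :=
    ContinuousOn.isOpen_inter_preimage (f := fun w => M'.sg p' w h) (t := {0}ᶜ)
      (fun w hw => ((hb w hw).2.1 h).continuousAt.continuousWithinAt) isOpen_ball
      isOpen_compl_singleton
  have hform : ∀ f : O, ∀ w ∈ ball (zz n p') δ ∩ {w | M'.sg p' w h ≠ 0},
      τ w f = M'.sg p' w (a f) / M'.sg p' w (h0 ^ k f) := fun f w hw => by
    have h2 := (hY w hw.2).1
    rw [eq_div_iff (by rw [map_pow]; exact pow_ne_zero _ h2)]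
    exact hτ w h2 f _ _ (hka f)
  have hdiff : ∀ f : O, DifferentiableOn ℂ (fun w => τ w f)
      (ball (zz n p') δ ∩ {w | M'.sg p' w h ≠ 0}) := fun f => by
    refine DifferentiableOn.congr (fun w hw => ?_) (hform f)
    have e5 : M'.sg p' w (h0 ^ k f) ≠ 0 := by rw [map_pow]; exact pow_ne_zero _ (hY w hw.2).1
    exact (((hb w hw.1).2.1 (a f)).fun_div
      ((hb w hw.1).2.1 (h0 ^ k f)) e5).differentiableAt.differentiableWithinAt
  have hz : ∀ w ∈ ball (zz n p') δ ∩ {w | M'.sg p' w h ≠ 0}, ∀ i,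
      w i = τ w (α i) / τ w (β i) := by
    intro w hw i
    obtain ⟨h2, h3⟩ := hY w hw.2
    have e1 := hτ w h2 (β i) _ _ (hka _)
    have e2 := hτ w h2 (α i) (zc n O' i * a (β i)) (h0 ^ k (β i)) (by
      rw [← hαβ, MulMemClass.coe_mul, ← hka, mul_assoc])
    have e3 : M'.sg p' w (zc n O' i) = w i := congrFun (hb w hw.1).1 i
    have e4 : τ w (β i) ≠ 0 := fun e => h3 i (by rw [← e1, e, zero_mul])
    have e5 : M'.sg p' w (h0 ^ k (β i)) ≠ 0 := by rw [map_pow]; exact pow_ne_zero _ h2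
    rw [map_mul, e3, ← e1, ← mul_assoc] at e2
    rw [eq_div_iff e4, mul_right_cancel₀ e5 e2]
  refine ⟨h, δ, τ, mul_ne_zero hh0 (Finset.prod_ne_zero_iff.2 fun i _ => ha0 i), hδ,
    ⟨hop, hdiff, fun w hw w' hw' e => funext fun i => by rw [hz w hw, hz w' hw', e]⟩,
    fun w hw => ⟨hτ w (hY w hw.2).1, ?_⟩⟩
  have h2 := (hY w hw.2).1
  obtain ⟨ev, hev⟩ := exists_ext (locK O' (M'.sg p' w)) O' (M'.sg p' w) fun f => f.2
  have hda : ∀ f : O, DifferentiableAt ℂ (fun w => τ w f) w := fun f =>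
    (hdiff f).differentiableAt (hop.mem_nhds hw)
  have hent : ∀ (f : O) (i : Fin n), ∃ x : locK O' (M'.sg p' w), (x : K) = pd i f ∧
      ev x = fderiv ℂ (fun w => τ w f) w (Pi.single i 1) := by
    intro f i
    set b := h0 ^ k f with hbd
    have e5 : M'.sg p' w b ≠ 0 := by rw [hbd, map_pow]; exact pow_ne_zero _ h2
    set D := res O' (pd i) (hpd i) with hD
    have e1 : pd i f * ((b * b : O') : K) = (D (a f) * b - a f * D b : O') := by
      have e2 := congrArg (pd i) (hka f)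
      rw [Derivation.leibniz, smul_eq_mul, smul_eq_mul] at e2
      push_cast
      change _ = pd i (a f) * b - a f * pd i b
      rw [← e2, ← hka]
      ring
    have e6 : M'.sg p' w (b * b) ≠ 0 := by rw [map_mul]; exact mul_ne_zero e5 e5
    refine ⟨⟨pd i f, _, _, e6, e1⟩, rfl, ?_⟩
    refine mul_right_cancel₀ e6 ?_
    rw [hev ⟨pd i f, _, _, e6, e1⟩ _ _ e1]
    have e3 : (fun w => τ w f * M'.sg p' w b) =ᶠ[𝓝 w] fun w => M'.sg p' w (a f) := by
      filter_upwards [hop.mem_nhds hw] with v hv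
      exact hτ v (hY v hv.2).1 f _ _ (hka f)
    have e4 := congrArg (fun L : (Fin n → ℂ) →L[ℂ] ℂ => L (Pi.single i 1)) (e3.fderiv_eq (𝕜 := ℂ))
    rw [fderiv_fun_mul (hda f) ((hb w hw.1).2.1 b).differentiableAt] at e4
    simp only [add_apply, smul_apply, smul_eq_mul,
      (hb w hw.1).2.2] at e4
    rw [map_sub, map_mul, map_mul, map_mul, ← hτ w h2 f _ _ (hka f), ← e4]
    ring
  choose x hx1 hx2 using hent
  intro a' b' hab
  have e1 : (((Matrix.of fun i j => x (zc n O j) i).det : locK O' (M'.sg p' w)) : K) =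
      (Matrix.of fun i j => pd i (zc n O j : O)).det := by
    rw [← Subalgebra.coe_val, AlgHom.map_det]
    congr 1
    ext i j
    simp [hx1]
  rw [← hev _ a' b' (by rw [e1, hab]), AlgHom.map_det]
  congr 1
  rw [pdet, ContinuousLinearMap.det, ← LinearMap.det_toMatrix', ← Matrix.det_transpose]
  congr 1
  ext i j
  have e2 : (fun y => zz n (τ y)) = fun y j => τ y (zc n O j) := rfl
  simp [LinearMap.toMatrix'_apply, hx2, e2, fderiv_pi fun j => hda (zc n O j)]

end Pool.Agent.Lib.MP_9ff3e7_ag.F
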